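import Mathlib.Tactic

/-!
Integer core of the analysis of complete games with three types and two shift-minimal vectors.

Vectors are written as deficits: for a vector `Y` given by its partial sums, the deficit is
`c = A - Y`, where `A` is the vector of partial sums of the first row.
-/

namespace WG3

/-- The deficit `(c1, c2, c3)` belongs to a losing vector of the box: `Y = A - c` lies in the box
and `Y` fails both `A` and `B` in some coordinate. -/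
def LosC (n1 n2 n3 a1 a2 a3 b1 b2 b3 c1 c2 c3 : ℤ) : Prop :=
  0 ≤ a1 - c1 ∧ a1 - c1 ≤ n1 ∧
  0 ≤ a2 - c2 + c1 ∧ a2 - c2 + c1 ≤ n2 ∧
  0 ≤ a3 - c3 + c2 ∧ a3 - c3 + c2 ≤ n3 ∧
  (0 < c1 ∨ 0 < c2 ∨ 0 < c3) ∧
  (a1 - b1 < c1 ∨ a1 + a2 - b1 - b2 < c2 ∨ a1 + a2 + a3 - b1 - b2 - b3 < c3)

/-- There is no pair of losing vectors whose sum dominates the sum of two rows. -/
def NoTr (n1 n2 n3 a1 a2 a3 b1 b2 b3 : ℤ) : Prop :=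
  ∀ c1 c2 c3 e1 e2 e3 : ℤ,
    LosC n1 n2 n3 a1 a2 a3 b1 b2 b3 c1 c2 c3 → LosC n1 n2 n3 a1 a2 a3 b1 b2 b3 e1 e2 e3 →
    (2 * (a1 - b1) < c1 + e1 ∨ 2 * (a1 + a2 - b1 - b2) < c2 + e2 ∨
      2 * (a1 + a2 + a3 - b1 - b2 - b3) < c3 + e3) ∧
    ((a1 - b1) < c1 + e1 ∨ (a1 + a2 - b1 - b2) < c2 + e2 ∨
      (a1 + a2 + a3 - b1 - b2 - b3) < c3 + e3) ∧
    (0 < c1 + e1 ∨ 0 < c2 + e2 ∨ 0 < c3 + e3)

/-- The weights `u` separate both rows from all losing vectors. -/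
def Good (n1 n2 n3 a1 a2 a3 b1 b2 b3 u1 u2 u3 : ℤ) : Prop :=
  0 ≤ u1 ∧ 0 ≤ u2 ∧ 0 ≤ u3 ∧
  ∀ c1 c2 c3 : ℤ, LosC n1 n2 n3 a1 a2 a3 b1 b2 b3 c1 c2 c3 →
    0 < u1 * c1 + u2 * c2 + u3 * c3 ∧
    0 < u1 * (c1 - (a1 - b1)) + u2 * (c2 - (a1 + a2 - b1 - b2))
      + u3 * (c3 - (a1 + a2 + a3 - b1 - b2 - b3))

/-- Lexicographic positivity of a triple. -/
def LexPos (x y z : ℤ) : Prop := 0 < x ∨ (x = 0 ∧ (0 < y ∨ (y = 0 ∧ 0 < z)))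

theorem min_facts (a b : ℤ) : ∃ h : ℤ, 0 ≤ a - h ∧ 0 ≤ b - h ∧ (0 ≤ h - a ∨ 0 ≤ h - b) := by
  refine ⟨min a b, ?_, ?_, ?_⟩
  · have := min_le_left a b; omega
  · have := min_le_right a b; omega
  · rcases min_choice a b with h | h
    · left; omega
    · right; omega

theorem prod_split (m s t : ℤ) (hm : 0 ≤ m) :
    (0 ≤ t - s ∧ 0 ≤ t * m - m * s) ∨ (0 ≤ s - t - 1 ∧ 0 ≤ m * s - (t + 1) * m) := by
  rcases le_or_gt s t with h | h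
  · left
    refine ⟨by omega, ?_⟩
    nlinarith
  · right
    refine ⟨by omega, ?_⟩
    nlinarith [mul_nonneg hm (show 0 ≤ s - t - 1 by omega)]

theorem prod_split' {m s p : ℤ} (t : ℤ) (hp : p = m * s) (hm : 0 ≤ m) :
    (0 ≤ t - s ∧ 0 ≤ t * m - p) ∨ (0 ≤ s - t - 1 ∧ 0 ≤ p - (t + 1) * m) := by
  rw [hp]
  exact prod_split m s t hm

/-- A large multiple makes a lexicographically positive triple positive. -/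
theorem lex_large (x y z : ℤ) (h : LexPos x y z) :
    ∀ K : ℤ, |y| + |z| + 1 ≤ K → 0 < K * K * x + K * y + z := by
  intro K hK
  have hy := abs_nonneg y
  have hz := abs_nonneg z
  have hy1 := neg_abs_le y
  have hz1 := neg_abs_le z
  have hK1 : 1 ≤ K := by omega
  rcases h with h | ⟨h0, h | ⟨h1, h⟩⟩
  · have h1 : K * K ≤ K * K * x := by nlinarith [mul_nonneg (show 0 ≤ K by omega) (show 0 ≤ K by omega)]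
    have h2 : K * -|y| ≤ K * y := by nlinarith
    have h3 : K * (|y| + |z| + 1) ≤ K * K := by nlinarith
    have h4 : |z| ≤ K * |z| := by nlinarith
    nlinarith
  · subst h0
    have h2 : K ≤ K * y := by nlinarith
    nlinarith
  · subst h0; subst h1
    nlinarith

/-- Data of a maximal losing vector: an existence condition and a deficit. -/
structure LV where
  ex : Prop
  c1 : ℤ
  c2 : ℤ
  c3 : ℤ

/-- Common multiplier for a list of vectors. -/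
theorem list_large (p1 p2 p3 q1 q2 q3 r1 r2 r3 d1 d2 d3 : ℤ) (l : List LV)
    (h : ∀ v ∈ l, v.ex → LexPos (p1 * (v.c1 - d1) + p2 * (v.c2 - d2) + p3 * (v.c3 - d3))
      (q1 * (v.c1 - d1) + q2 * (v.c2 - d2) + q3 * (v.c3 - d3))
      (r1 * (v.c1 - d1) + r2 * (v.c2 - d2) + r3 * (v.c3 - d3))) :
    ∃ K0 : ℤ, ∀ K : ℤ, K0 ≤ K → ∀ v ∈ l, v.ex →
      0 < (K * K * p1 + K * q1 + r1) * (v.c1 - d1) + (K * K * p2 + K * q2 + r2) * (v.c2 - d2)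
        + (K * K * p3 + K * q3 + r3) * (v.c3 - d3) := by
  induction l with
  | nil => exact ⟨0, fun K _ v hv => by simp at hv⟩
  | cons w l ih =>
    obtain ⟨K0, hK0⟩ := ih (fun v hv => h v (List.mem_cons_of_mem _ hv))
    refine ⟨max K0 (|q1 * (w.c1 - d1) + q2 * (w.c2 - d2) + q3 * (w.c3 - d3)| +
      |r1 * (w.c1 - d1) + r2 * (w.c2 - d2) + r3 * (w.c3 - d3)| + 1), ?_⟩
    intro K hK v hv hex
    rcases List.mem_cons.1 hv with rfl | hv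
    · have := lex_large _ _ _ (h v List.mem_cons_self hex) K (le_trans (le_max_right _ _) hK)
      linarith
    · exact hK0 K (le_trans (le_max_left _ _) hK) v hv hex

theorem dom_pos (u1 u2 u3 c1 c2 c3 e1 e2 e3 : ℤ) (h1 : 0 ≤ u1) (h2 : 0 ≤ u2) (h3 : 0 ≤ u3)
    (g1 : c1 ≤ e1) (g2 : c2 ≤ e2) (g3 : c3 ≤ e3) (h : 0 < u1 * c1 + u2 * c2 + u3 * c3) :
    0 < u1 * e1 + u2 * e2 + u3 * e3 := by
  have k1 := mul_le_mul_of_nonneg_left g1 h1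
  have k2 := mul_le_mul_of_nonneg_left g2 h2
  have k3 := mul_le_mul_of_nonneg_left g3 h3
  linarith

/-- If the lexicographic pattern `p > q > r` is positive on all maximal losing vectors, measured
from the row `B`, and nonnegative on `A - B`, then suitable weights exist. -/
theorem pattB (n1 n2 n3 a1 a2 a3 b1 b2 b3 : ℤ) (p1 p2 p3 q1 q2 q3 r1 r2 r3 : ℤ)
    (hp : 0 ≤ p1 ∧ 0 ≤ p2 ∧ 0 ≤ p3) (hq : 0 ≤ q1 ∧ 0 ≤ q2 ∧ 0 ≤ q3)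
    (hr : 0 ≤ r1 ∧ 0 ≤ r2 ∧ 0 ≤ r3)
    (l : List LV)
    (hd : ∀ c1 c2 c3, LosC n1 n2 n3 a1 a2 a3 b1 b2 b3 c1 c2 c3 →
      ∃ v ∈ l, v.ex ∧ v.c1 ≤ c1 ∧ v.c2 ≤ c2 ∧ v.c3 ≤ c3)
    (hs : LexPos (p1 * (a1 - b1) + p2 * (a1 + a2 - b1 - b2) + p3 * (a1 + a2 + a3 - b1 - b2 - b3))
      (q1 * (a1 - b1) + q2 * (a1 + a2 - b1 - b2) + q3 * (a1 + a2 + a3 - b1 - b2 - b3))
      (r1 * (a1 - b1) + r2 * (a1 + a2 - b1 - b2) + r3 * (a1 + a2 + a3 - b1 - b2 - b3) + 1))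
    (h : ∀ v ∈ l, v.ex → LexPos
      (p1 * (v.c1 - (a1 - b1)) + p2 * (v.c2 - (a1 + a2 - b1 - b2))
        + p3 * (v.c3 - (a1 + a2 + a3 - b1 - b2 - b3)))
      (q1 * (v.c1 - (a1 - b1)) + q2 * (v.c2 - (a1 + a2 - b1 - b2))
        + q3 * (v.c3 - (a1 + a2 + a3 - b1 - b2 - b3)))
      (r1 * (v.c1 - (a1 - b1)) + r2 * (v.c2 - (a1 + a2 - b1 - b2))
        + r3 * (v.c3 - (a1 + a2 + a3 - b1 - b2 - b3)))) :
    ∃ u1 u2 u3 : ℤ, Good n1 n2 n3 a1 a2 a3 b1 b2 b3 u1 u2 u3 := by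
  obtain ⟨K0, hK0⟩ := list_large p1 p2 p3 q1 q2 q3 r1 r2 r3 _ _ _ l h
  set y := q1 * (a1 - b1) + q2 * (a1 + a2 - b1 - b2) + q3 * (a1 + a2 + a3 - b1 - b2 - b3) with hy
  set z := r1 * (a1 - b1) + r2 * (a1 + a2 - b1 - b2) + r3 * (a1 + a2 + a3 - b1 - b2 - b3) + 1
    with hz
  have hK := lex_large _ _ _ hs
  set K := max (max K0 1) (|y| + |z| + 1) with hKdef
  have k1 : K0 ≤ K := le_trans (le_max_left _ _) (le_max_left _ _)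
  have k2 : 1 ≤ K := le_trans (le_max_right _ _) (le_max_left _ _)
  have k3 := hK K (le_max_right _ _)
  have kk : 0 ≤ K * K := by positivity
  have k0 : 0 ≤ K := by omega
  refine ⟨K * K * p1 + K * q1 + r1, K * K * p2 + K * q2 + r2, K * K * p3 + K * q3 + r3, ?_, ?_, ?_,
    ?_⟩
  · have := mul_nonneg kk hp.1; have := mul_nonneg k0 hq.1; linarith [hr.1]
  · have := mul_nonneg kk hp.2.1; have := mul_nonneg k0 hq.2.1; linarith [hr.2.1]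
  · have := mul_nonneg kk hp.2.2; have := mul_nonneg k0 hq.2.2; linarith [hr.2.2]
  · intro c1 c2 c3 hc
    obtain ⟨v, hv, hex, g1, g2, g3⟩ := hd c1 c2 c3 hc
    have key := hK0 K k1 v hv hex
    have hB : 0 < (K * K * p1 + K * q1 + r1) * (c1 - (a1 - b1))
        + (K * K * p2 + K * q2 + r2) * (c2 - (a1 + a2 - b1 - b2))
        + (K * K * p3 + K * q3 + r3) * (c3 - (a1 + a2 + a3 - b1 - b2 - b3)) := by
      refine dom_pos _ _ _ _ _ _ _ _ _ ?_ ?_ ?_ ?_ ?_ ?_ key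
      · have := mul_nonneg kk hp.1; have := mul_nonneg k0 hq.1; linarith [hr.1]
      · have := mul_nonneg kk hp.2.1; have := mul_nonneg k0 hq.2.1; linarith [hr.2.1]
      · have := mul_nonneg kk hp.2.2; have := mul_nonneg k0 hq.2.2; linarith [hr.2.2]
      · linarith
      · linarith
      · linarith
    refine ⟨?_, hB⟩
    rw [hy, hz] at k3
    have k4 : 0 ≤ (K * K * p1 + K * q1 + r1) * (a1 - b1)
        + (K * K * p2 + K * q2 + r2) * (a1 + a2 - b1 - b2)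
        + (K * K * p3 + K * q3 + r3) * (a1 + a2 + a3 - b1 - b2 - b3) := by
      have : 0 < (K * K * p1 + K * q1 + r1) * (a1 - b1)
        + (K * K * p2 + K * q2 + r2) * (a1 + a2 - b1 - b2)
        + (K * K * p3 + K * q3 + r3) * (a1 + a2 + a3 - b1 - b2 - b3) + 1 := by
        calc (0:ℤ) < _ := k3
          _ = _ := by ring
      omega
    linarith

/-- Swapping the roles of the rows. -/
theorem pattA (n1 n2 n3 a1 a2 a3 b1 b2 b3 : ℤ) (p1 p2 p3 q1 q2 q3 r1 r2 r3 : ℤ)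
    (hp : 0 ≤ p1 ∧ 0 ≤ p2 ∧ 0 ≤ p3) (hq : 0 ≤ q1 ∧ 0 ≤ q2 ∧ 0 ≤ q3)
    (hr : 0 ≤ r1 ∧ 0 ≤ r2 ∧ 0 ≤ r3)
    (l : List LV)
    (hd : ∀ c1 c2 c3, LosC n1 n2 n3 a1 a2 a3 b1 b2 b3 c1 c2 c3 →
      ∃ v ∈ l, v.ex ∧ v.c1 ≤ c1 ∧ v.c2 ≤ c2 ∧ v.c3 ≤ c3)
    (hs : LexPos (-(p1 * (a1 - b1) + p2 * (a1 + a2 - b1 - b2)
        + p3 * (a1 + a2 + a3 - b1 - b2 - b3)))
      (-(q1 * (a1 - b1) + q2 * (a1 + a2 - b1 - b2) + q3 * (a1 + a2 + a3 - b1 - b2 - b3)))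
      (-(r1 * (a1 - b1) + r2 * (a1 + a2 - b1 - b2) + r3 * (a1 + a2 + a3 - b1 - b2 - b3)) + 1))
    (h : ∀ v ∈ l, v.ex → LexPos (p1 * v.c1 + p2 * v.c2 + p3 * v.c3)
      (q1 * v.c1 + q2 * v.c2 + q3 * v.c3) (r1 * v.c1 + r2 * v.c2 + r3 * v.c3)) :
    ∃ u1 u2 u3 : ℤ, Good n1 n2 n3 a1 a2 a3 b1 b2 b3 u1 u2 u3 := by
  have h' : ∀ v ∈ l, v.ex → LexPos (p1 * (v.c1 - 0) + p2 * (v.c2 - 0) + p3 * (v.c3 - 0))
      (q1 * (v.c1 - 0) + q2 * (v.c2 - 0) + q3 * (v.c3 - 0))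
      (r1 * (v.c1 - 0) + r2 * (v.c2 - 0) + r3 * (v.c3 - 0)) := by
    simpa using h
  obtain ⟨K0, hK0⟩ := list_large p1 p2 p3 q1 q2 q3 r1 r2 r3 0 0 0 l h'
  set y := -(q1 * (a1 - b1) + q2 * (a1 + a2 - b1 - b2) + q3 * (a1 + a2 + a3 - b1 - b2 - b3)) with hy
  set z := -(r1 * (a1 - b1) + r2 * (a1 + a2 - b1 - b2) + r3 * (a1 + a2 + a3 - b1 - b2 - b3)) + 1
    with hz
  have hK := lex_large _ _ _ hs
  set K := max (max K0 1) (|y| + |z| + 1) with hKdef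
  have k1 : K0 ≤ K := le_trans (le_max_left _ _) (le_max_left _ _)
  have k2 : 1 ≤ K := le_trans (le_max_right _ _) (le_max_left _ _)
  have k3 := hK K (le_max_right _ _)
  have kk : 0 ≤ K * K := by positivity
  have k0 : 0 ≤ K := by omega
  refine ⟨K * K * p1 + K * q1 + r1, K * K * p2 + K * q2 + r2, K * K * p3 + K * q3 + r3, ?_, ?_, ?_,
    ?_⟩
  · have := mul_nonneg kk hp.1; have := mul_nonneg k0 hq.1; linarith [hr.1]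
  · have := mul_nonneg kk hp.2.1; have := mul_nonneg k0 hq.2.1; linarith [hr.2.1]
  · have := mul_nonneg kk hp.2.2; have := mul_nonneg k0 hq.2.2; linarith [hr.2.2]
  · intro c1 c2 c3 hc
    obtain ⟨v, hv, hex, g1, g2, g3⟩ := hd c1 c2 c3 hc
    have key := hK0 K k1 v hv hex
    have hA : 0 < (K * K * p1 + K * q1 + r1) * c1
        + (K * K * p2 + K * q2 + r2) * c2
        + (K * K * p3 + K * q3 + r3) * c3 := by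
      refine dom_pos _ _ _ (v.c1 - 0) (v.c2 - 0) (v.c3 - 0) _ _ _ ?_ ?_ ?_ ?_ ?_ ?_ key
      · have := mul_nonneg kk hp.1; have := mul_nonneg k0 hq.1; linarith [hr.1]
      · have := mul_nonneg kk hp.2.1; have := mul_nonneg k0 hq.2.1; linarith [hr.2.1]
      · have := mul_nonneg kk hp.2.2; have := mul_nonneg k0 hq.2.2; linarith [hr.2.2]
      · linarith
      · linarith
      · linarith
    refine ⟨hA, ?_⟩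
    rw [hy, hz] at k3
    have k4 : (K * K * p1 + K * q1 + r1) * (a1 - b1)
        + (K * K * p2 + K * q2 + r2) * (a1 + a2 - b1 - b2)
        + (K * K * p3 + K * q3 + r3) * (a1 + a2 + a3 - b1 - b2 - b3) ≤ 0 := by
      have : 0 < -((K * K * p1 + K * q1 + r1) * (a1 - b1)
        + (K * K * p2 + K * q2 + r2) * (a1 + a2 - b1 - b2)
        + (K * K * p3 + K * q3 + r3) * (a1 + a2 + a3 - b1 - b2 - b3)) + 1 := by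
        calc (0:ℤ) < _ := k3
          _ = _ := by ring
      omega
    linarith

/-- The failure of lexicographic positivity. -/
def LexFail (x y z : ℤ) : Prop := x ≤ -1 ∨ (x = 0 ∧ y ≤ -1) ∨ (x = 0 ∧ y = 0 ∧ z ≤ 0)

theorem lex_or (x y z : ℤ) : LexPos x y z ∨ LexFail x y z := by
  unfold LexPos LexFail
  omega

/-- Contrapositive form of `pattB`. -/
theorem failB (n1 n2 n3 a1 a2 a3 b1 b2 b3 : ℤ)
    (hno : ¬ ∃ u1 u2 u3 : ℤ, Good n1 n2 n3 a1 a2 a3 b1 b2 b3 u1 u2 u3)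
    (l : List LV)
    (hd : ∀ c1 c2 c3, LosC n1 n2 n3 a1 a2 a3 b1 b2 b3 c1 c2 c3 →
      ∃ v ∈ l, v.ex ∧ v.c1 ≤ c1 ∧ v.c2 ≤ c2 ∧ v.c3 ≤ c3)
    (p1 p2 p3 q1 q2 q3 r1 r2 r3 : ℤ)
    (hp : 0 ≤ p1 ∧ 0 ≤ p2 ∧ 0 ≤ p3) (hq : 0 ≤ q1 ∧ 0 ≤ q2 ∧ 0 ≤ q3)
    (hr : 0 ≤ r1 ∧ 0 ≤ r2 ∧ 0 ≤ r3)
    (hs : LexPos (p1 * (a1 - b1) + p2 * (a1 + a2 - b1 - b2) + p3 * (a1 + a2 + a3 - b1 - b2 - b3))
      (q1 * (a1 - b1) + q2 * (a1 + a2 - b1 - b2) + q3 * (a1 + a2 + a3 - b1 - b2 - b3))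
      (r1 * (a1 - b1) + r2 * (a1 + a2 - b1 - b2) + r3 * (a1 + a2 + a3 - b1 - b2 - b3) + 1)) :
    ∃ v ∈ l, v.ex ∧ LexFail
      (p1 * (v.c1 - (a1 - b1)) + p2 * (v.c2 - (a1 + a2 - b1 - b2))
        + p3 * (v.c3 - (a1 + a2 + a3 - b1 - b2 - b3)))
      (q1 * (v.c1 - (a1 - b1)) + q2 * (v.c2 - (a1 + a2 - b1 - b2))
        + q3 * (v.c3 - (a1 + a2 + a3 - b1 - b2 - b3)))
      (r1 * (v.c1 - (a1 - b1)) + r2 * (v.c2 - (a1 + a2 - b1 - b2))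
        + r3 * (v.c3 - (a1 + a2 + a3 - b1 - b2 - b3))) := by
  by_contra hcon
  refine hno (pattB n1 n2 n3 a1 a2 a3 b1 b2 b3 p1 p2 p3 q1 q2 q3 r1 r2 r3 hp hq hr l hd hs ?_)
  intro v hv hex
  rcases lex_or (p1 * (v.c1 - (a1 - b1)) + p2 * (v.c2 - (a1 + a2 - b1 - b2))
        + p3 * (v.c3 - (a1 + a2 + a3 - b1 - b2 - b3)))
      (q1 * (v.c1 - (a1 - b1)) + q2 * (v.c2 - (a1 + a2 - b1 - b2))
        + q3 * (v.c3 - (a1 + a2 + a3 - b1 - b2 - b3)))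
      (r1 * (v.c1 - (a1 - b1)) + r2 * (v.c2 - (a1 + a2 - b1 - b2))
        + r3 * (v.c3 - (a1 + a2 + a3 - b1 - b2 - b3))) with h | h
  · exact h
  · exact absurd ⟨v, hv, hex, h⟩ hcon

/-- Contrapositive form of `pattA`. -/
theorem failA (n1 n2 n3 a1 a2 a3 b1 b2 b3 : ℤ)
    (hno : ¬ ∃ u1 u2 u3 : ℤ, Good n1 n2 n3 a1 a2 a3 b1 b2 b3 u1 u2 u3)
    (l : List LV)
    (hd : ∀ c1 c2 c3, LosC n1 n2 n3 a1 a2 a3 b1 b2 b3 c1 c2 c3 →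
      ∃ v ∈ l, v.ex ∧ v.c1 ≤ c1 ∧ v.c2 ≤ c2 ∧ v.c3 ≤ c3)
    (p1 p2 p3 q1 q2 q3 r1 r2 r3 : ℤ)
    (hp : 0 ≤ p1 ∧ 0 ≤ p2 ∧ 0 ≤ p3) (hq : 0 ≤ q1 ∧ 0 ≤ q2 ∧ 0 ≤ q3)
    (hr : 0 ≤ r1 ∧ 0 ≤ r2 ∧ 0 ≤ r3)
    (hs : LexPos (-(p1 * (a1 - b1) + p2 * (a1 + a2 - b1 - b2)
        + p3 * (a1 + a2 + a3 - b1 - b2 - b3)))
      (-(q1 * (a1 - b1) + q2 * (a1 + a2 - b1 - b2) + q3 * (a1 + a2 + a3 - b1 - b2 - b3)))
      (-(r1 * (a1 - b1) + r2 * (a1 + a2 - b1 - b2) + r3 * (a1 + a2 + a3 - b1 - b2 - b3)) + 1)) :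
    ∃ v ∈ l, v.ex ∧ LexFail (p1 * v.c1 + p2 * v.c2 + p3 * v.c3)
      (q1 * v.c1 + q2 * v.c2 + q3 * v.c3) (r1 * v.c1 + r2 * v.c2 + r3 * v.c3) := by
  by_contra hcon
  refine hno (pattA n1 n2 n3 a1 a2 a3 b1 b2 b3 p1 p2 p3 q1 q2 q3 r1 r2 r3 hp hq hr l hd hs ?_)
  intro v hv hex
  rcases lex_or (p1 * v.c1 + p2 * v.c2 + p3 * v.c3)
      (q1 * v.c1 + q2 * v.c2 + q3 * v.c3) (r1 * v.c1 + r2 * v.c2 + r3 * v.c3) with h | h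
  · exact h
  · exact absurd ⟨v, hv, hex, h⟩ hcon

section wrappers

variable {n1 n2 n3 a1 a2 a3 b1 b2 b3 D1 D2 D3 c1 c2 c3 e1 e2 e3 : ℤ}

theorem NoTr.t0 (H : NoTr n1 n2 n3 a1 a2 a3 b1 b2 b3) (h1 : a1 - b1 = D1)
    (h2 : a1 + a2 - b1 - b2 = D2) (h3 : a1 + a2 + a3 - b1 - b2 - b3 = D3)
    (hc : LosC n1 n2 n3 a1 a2 a3 b1 b2 b3 c1 c2 c3)
    (he : LosC n1 n2 n3 a1 a2 a3 b1 b2 b3 e1 e2 e3) :
    0 < c1 + e1 - 2 * D1 ∨ 0 < c2 + e2 - 2 * D2 ∨ 0 < c3 + e3 - 2 * D3 := by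
  have := (H _ _ _ _ _ _ hc he).1
  rw [h1, h2, h3] at this
  omega

theorem NoTr.t1 (H : NoTr n1 n2 n3 a1 a2 a3 b1 b2 b3) (h1 : a1 - b1 = D1)
    (h2 : a1 + a2 - b1 - b2 = D2) (h3 : a1 + a2 + a3 - b1 - b2 - b3 = D3)
    (hc : LosC n1 n2 n3 a1 a2 a3 b1 b2 b3 c1 c2 c3)
    (he : LosC n1 n2 n3 a1 a2 a3 b1 b2 b3 e1 e2 e3) :
    0 < c1 + e1 - D1 ∨ 0 < c2 + e2 - D2 ∨ 0 < c3 + e3 - D3 := by
  have := (H _ _ _ _ _ _ hc he).2.1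
  rw [h1, h2, h3] at this
  omega

theorem NoTr.t2 (H : NoTr n1 n2 n3 a1 a2 a3 b1 b2 b3)
    (hc : LosC n1 n2 n3 a1 a2 a3 b1 b2 b3 c1 c2 c3)
    (he : LosC n1 n2 n3 a1 a2 a3 b1 b2 b3 e1 e2 e3) :
    0 < c1 + e1 ∨ 0 < c2 + e2 ∨ 0 < c3 + e3 :=
  (H _ _ _ _ _ _ hc he).2.2

theorem failB' (h1 : a1 - b1 = D1)
    (h2 : a1 + a2 - b1 - b2 = D2) (h3 : a1 + a2 + a3 - b1 - b2 - b3 = D3)
    (hno : ¬ ∃ u1 u2 u3 : ℤ, Good n1 n2 n3 a1 a2 a3 b1 b2 b3 u1 u2 u3)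
    (l : List LV)
    (hd : ∀ c1 c2 c3, LosC n1 n2 n3 a1 a2 a3 b1 b2 b3 c1 c2 c3 →
      ∃ v ∈ l, v.ex ∧ v.c1 ≤ c1 ∧ v.c2 ≤ c2 ∧ v.c3 ≤ c3)
    (p1 p2 p3 q1 q2 q3 r1 r2 r3 : ℤ)
    (hp : 0 ≤ p1 ∧ 0 ≤ p2 ∧ 0 ≤ p3) (hq : 0 ≤ q1 ∧ 0 ≤ q2 ∧ 0 ≤ q3)
    (hr : 0 ≤ r1 ∧ 0 ≤ r2 ∧ 0 ≤ r3)
    (hs : LexPos (p1 * D1 + p2 * D2 + p3 * D3) (q1 * D1 + q2 * D2 + q3 * D3)
      (r1 * D1 + r2 * D2 + r3 * D3 + 1)) :
    ∃ v ∈ l, v.ex ∧ LexFail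
      (p1 * (v.c1 - D1) + p2 * (v.c2 - D2) + p3 * (v.c3 - D3))
      (q1 * (v.c1 - D1) + q2 * (v.c2 - D2) + q3 * (v.c3 - D3))
      (r1 * (v.c1 - D1) + r2 * (v.c2 - D2) + r3 * (v.c3 - D3)) := by
  subst h1; subst h2; subst h3
  exact failB n1 n2 n3 a1 a2 a3 b1 b2 b3 hno l hd p1 p2 p3 q1 q2 q3 r1 r2 r3 hp hq hr hs

theorem failA' (h1 : a1 - b1 = D1)
    (h2 : a1 + a2 - b1 - b2 = D2) (h3 : a1 + a2 + a3 - b1 - b2 - b3 = D3)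
    (hno : ¬ ∃ u1 u2 u3 : ℤ, Good n1 n2 n3 a1 a2 a3 b1 b2 b3 u1 u2 u3)
    (l : List LV)
    (hd : ∀ c1 c2 c3, LosC n1 n2 n3 a1 a2 a3 b1 b2 b3 c1 c2 c3 →
      ∃ v ∈ l, v.ex ∧ v.c1 ≤ c1 ∧ v.c2 ≤ c2 ∧ v.c3 ≤ c3)
    (p1 p2 p3 q1 q2 q3 r1 r2 r3 : ℤ)
    (hp : 0 ≤ p1 ∧ 0 ≤ p2 ∧ 0 ≤ p3) (hq : 0 ≤ q1 ∧ 0 ≤ q2 ∧ 0 ≤ q3)
    (hr : 0 ≤ r1 ∧ 0 ≤ r2 ∧ 0 ≤ r3)
    (hs : LexPos (-(p1 * D1 + p2 * D2 + p3 * D3)) (-(q1 * D1 + q2 * D2 + q3 * D3))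
      (-(r1 * D1 + r2 * D2 + r3 * D3) + 1)) :
    ∃ v ∈ l, v.ex ∧ LexFail (p1 * v.c1 + p2 * v.c2 + p3 * v.c3)
      (q1 * v.c1 + q2 * v.c2 + q3 * v.c3) (r1 * v.c1 + r2 * v.c2 + r3 * v.c3) := by
  subst h1; subst h2; subst h3
  exact failA n1 n2 n3 a1 a2 a3 b1 b2 b3 hno l hd p1 p2 p3 q1 q2 q3 r1 r2 r3 hp hq hr hs

end wrappers

end WG3
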