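import Mathlib.Tactic
import Mathlib.Data.Real.Basic
import Mathlib.Algebra.BigOperators.Fin
import Mathlib.Data.Set.Card

/-!
Simple games, weightedness, trade robustness, types of voters, shift-minimal winning vectors, and
the two families `F1`, `F2`.
-/

open Finset

namespace WG3

/-- A simple game on the finite set `N` of voters: `W S` says that the coalition `S` wins. -/
structure SimpleGame (N : Type*) [Fintype N] [DecidableEq N] where
  W : Finset N → Prop
  mono : ∀ {S T : Finset N}, W S → S ⊆ T → W T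
  empty_loses : ¬ W ∅
  all_win : W Finset.univ

namespace SimpleGame

variable {N : Type*} [Fintype N] [DecidableEq N] (G : SimpleGame N)

/-- `G` is weighted: nonnegative real weights and a real quota describe the winning coalitions. -/
def Weighted : Prop :=
  ∃ (w : N → ℝ) (q : ℝ), (∀ a, 0 ≤ w a) ∧ ∀ S : Finset N, G.W S ↔ q ≤ ∑ a ∈ S, w a

/-- `G` is `k`-trade robust: for no length `j` with `1 ≤ j ≤ k` are there `j` winning coalitions
`X i` and `j` losing coalitions `Y i` such that every voter lies in as many `X i` as `Y i`. -/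
def TradeRobust (k : ℕ) : Prop :=
  ∀ j : ℕ, 1 ≤ j → j ≤ k → ¬ ∃ X Y : Fin j → Finset N,
    (∀ a : N, (univ.filter (fun i => a ∈ X i)).card = (univ.filter (fun i => a ∈ Y i)).card) ∧
    (∀ i, G.W (X i)) ∧ ∀ i, ¬ G.W (Y i)

/-- `a` is at least as desirable as `b`: whenever `S ∪ {b}` wins, so does `S ∪ {a}`, for all `S`
avoiding `a` and `b`. -/
def Desir (a b : N) : Prop :=
  ∀ S : Finset N, a ∉ S → b ∉ S → G.W (insert b S) → G.W (insert a S)

/-- `G` is complete with exactly `t` types of voters, and `τ` sends each voter to the index of its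
class, the classes being numbered `0, ..., t - 1` from the most to the least desirable one. -/
def IsTyping {t : ℕ} (τ : N → Fin t) : Prop :=
  Function.Surjective τ ∧ ∀ a b : N, G.Desir a b ↔ τ a ≤ τ b

end SimpleGame

/-- The vector of a coalition: the number of its voters of each type. -/
def typeVec {N : Type*} [DecidableEq N] {t : ℕ} (τ : N → Fin t) (S : Finset N) : Fin t → ℕ :=
  fun i => (S.filter (fun a => τ a = i)).card

/-- The order on vectors: all partial sums of `a` are at most those of `b`. -/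
def Below {t : ℕ} (a b : Fin t → ℕ) : Prop :=
  ∀ h : Fin t, ∑ i ∈ univ.filter (fun i => i ≤ h), a i ≤ ∑ i ∈ univ.filter (fun i => i ≤ h), b i

namespace SimpleGame

variable {N : Type*} [Fintype N] [DecidableEq N] (G : SimpleGame N)

/-- `m` is the vector of some winning coalition. -/
def WinVec {t : ℕ} (τ : N → Fin t) (m : Fin t → ℕ) : Prop := ∃ S, typeVec τ S = m ∧ G.W S

/-- `m` is a shift-minimal winning vector: no other winning vector is below it. -/
def ShiftMinimal {t : ℕ} (τ : N → Fin t) (m : Fin t → ℕ) : Prop :=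
  G.WinVec τ m ∧ ∀ m', G.WinVec τ m' → Below m' m → m' = m

/-- `G`, with typing `τ`, is a member of the family `F1`: its class sizes are
`n₁ = 2l + 3 + k₁`, `n₂ = k₂ + 3`, `n₃ = 2l + 5 + k₃`, and its shift-minimal winning vectors are
`(n₁ - l - 1, n₂ - 1, n₃ - l - 2)` and `(n₁ - 2l - 2, n₂ - 1, n₃)`. -/
def InF1 (τ : N → Fin 3) : Prop :=
  ∃ k₁ k₂ k₃ l n₁ n₂ n₃ : ℕ, n₁ = 2 * l + 3 + k₁ ∧ n₂ = k₂ + 3 ∧ n₃ = 2 * l + 5 + k₃ ∧
    typeVec τ univ = ![n₁, n₂, n₃] ∧
    {m | G.ShiftMinimal τ m} = {![n₁ - l - 1, n₂ - 1, n₃ - l - 2], ![n₁ - 2 * l - 2, n₂ - 1, n₃]}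

/-- `G`, with typing `τ`, is a member of the family `F2`: its class sizes are
`n₁ = 2l + 3 + k₁`, `n₂ = k₂ + 3`, `2l + 5`, and its shift-minimal winning vectors are
`(l + 1, 1, l + 2)` and `(0, 1, 2l + 4)`. -/
def InF2 (τ : N → Fin 3) : Prop :=
  ∃ k₁ k₂ l n₁ n₂ : ℕ, n₁ = 2 * l + 3 + k₁ ∧ n₂ = k₂ + 3 ∧
    typeVec τ univ = ![n₁, n₂, 2 * l + 5] ∧
    {m | G.ShiftMinimal τ m} = {![l + 1, 1, l + 2], ![0, 1, 2 * l + 4]}

end SimpleGame

end WG3
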