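import Pool.Agent.Work.MP_5465ec_co.Core

set_option linter.all false

namespace WG3

theorem F1rob_l0 {k1 k2 k3 l u1 u2 u3 v1 v2 v3 x1 x2 x3 y1 y2 y3 : ℤ}
    (B21 : 0 ≤ 2 * l + k3 - y3 + 5)
    (B23 : 0 ≤ 2 * l + k1 - v1 + 3)
    (B29 : 0 ≤ y1 + v1 - x1 - u1)
    (B31 : 0 ≤ y2 + v2 - x2 - u2)
    (B33 : 0 ≤ y3 + v3 - x3 - u3)
    (E3 : 0 ≤ k1 - y1 ∨ 0 ≤ k1 + k2 - y1 - y2 + 2 ∨ 0 ≤ k1 + k2 + 2 * l + k3 - y1 - y2 - y3 + 7)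
    (H0 : 0 ≤ x1 - l - k1 - 2 ∧ 0 ≤ x1 + x2 - l - k1 - k2 - 4 ∧ 0 ≤ x1 + x2 + x3 - 2 * l - k1 - k2 - k3 - 7)
    (H1 : 0 ≤ u1 - l - k1 - 2 ∧ 0 ≤ u1 + u2 - l - k1 - k2 - 4 ∧ 0 ≤ u1 + u2 + u3 - 2 * l - k1 - k2 - k3 - 7)
    (H4 : 0 ≤ 2 * l + k1 + k2 + k3 - v1 - v2 - v3 + 6) : False := by
  rcases E3 with H3 | H3 | H3
  · linarith only [H0.1, B29, H3, B23, H1.1]
  · linarith only [H3, H1.2.2, B29, B21, H0.2.2, B31, B33, H4]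
  · linarith only [H1.2.2, B29, H3, H0.2.2, B31, B33, H4]

theorem F1rob {k1 k2 k3 l u1 u2 u3 v1 v2 v3 x1 x2 x3 y1 y2 y3 : ℤ}
    (B17 : 0 ≤ 2 * l + k1 - y1 + 3)
    (B19 : 0 ≤ k2 - y2 + 3)
    (B21 : 0 ≤ 2 * l + k3 - y3 + 5)
    (B23 : 0 ≤ 2 * l + k1 - v1 + 3)
    (B25 : 0 ≤ k2 - v2 + 3)
    (B27 : 0 ≤ 2 * l + k3 - v3 + 5)
    (B29 : 0 ≤ y1 + v1 - x1 - u1)
    (B31 : 0 ≤ y2 + v2 - x2 - u2)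
    (B33 : 0 ≤ y3 + v3 - x3 - u3)
    (D0 : (0 ≤ x1 - l - k1 - 2 ∧ 0 ≤ x1 + x2 - l - k1 - k2 - 4 ∧ 0 ≤ x1 + x2 + x3 - 2 * l - k1 - k2 - k3 - 7) ∨ (0 ≤ x1 - k1 - 1 ∧ 0 ≤ x1 + x2 - k1 - k2 - 3 ∧ 0 ≤ x1 + x2 + x3 - k1 - k2 - 2 * l - k3 - 8))
    (D1 : (0 ≤ u1 - l - k1 - 2 ∧ 0 ≤ u1 + u2 - l - k1 - k2 - 4 ∧ 0 ≤ u1 + u2 + u3 - 2 * l - k1 - k2 - k3 - 7) ∨ (0 ≤ u1 - k1 - 1 ∧ 0 ≤ u1 + u2 - k1 - k2 - 3 ∧ 0 ≤ u1 + u2 + u3 - k1 - k2 - 2 * l - k3 - 8))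
    (D2 : 0 ≤ l + k1 - y1 + 1 ∨ 0 ≤ l + k1 + k2 - y1 - y2 + 3 ∨ 0 ≤ 2 * l + k1 + k2 + k3 - y1 - y2 - y3 + 6)
    (D3 : 0 ≤ k1 - y1 ∨ 0 ≤ k1 + k2 - y1 - y2 + 2 ∨ 0 ≤ k1 + k2 + 2 * l + k3 - y1 - y2 - y3 + 7)
    (D4 : 0 ≤ l + k1 - v1 + 1 ∨ 0 ≤ l + k1 + k2 - v1 - v2 + 3 ∨ 0 ≤ 2 * l + k1 + k2 + k3 - v1 - v2 - v3 + 6)
    (D5 : 0 ≤ k1 - v1 ∨ 0 ≤ k1 + k2 - v1 - v2 + 2 ∨ 0 ≤ k1 + k2 + 2 * l + k3 - v1 - v2 - v3 + 7) : False := by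
  have E0 := D0
  have E1 := D1
  have E2 := D2
  have E3 := D3
  have E4 := D4
  have E5 := D5
  rcases E0 with H0 | H0
  · rcases E1 with H1 | H1
    · rcases E2 with H2 | H2 | H2
      · rcases E4 with H4 | H4 | H4
        · linarith only [H0.1, B29, H2, H4, H1.1]
        · linarith only [B29, H2, H4, H0.2.1, B31, B19, H1.2.1]
        · exact F1rob_l0 B21 B23 B29 B31 B33 E3 H0 H1 H4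
      · rcases E4 with H4 | H4 | H4
        · linarith only [H2, H1.2.1, B29, H4, B25, B31, H0.2.1]
        · linarith only [H2, B29, H1.2.1, H4, B31, H0.2.1]
        · exact F1rob_l0 B21 B23 B29 B31 B33 E3 H0 H1 H4
      · rcases E5 with H5 | H5 | H5
        · linarith only [H5, H0.1, B29, H1.1, B17]
        · linarith only [H5, H1.2.2, B29, H2, H0.2.2, B31, B33, B27]
        · linarith only [H1.2.2, B29, H2, H0.2.2, B31, B33, H5]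
    · rcases E3 with H3 | H3 | H3
      · rcases E4 with H4 | H4 | H4
        · linarith only [H3, H4, H1.1, B29, H0.1]
        · linarith only [B31, H3, H4, H1.2.1, B29, B19, H0.2.1]
        · linarith only [H1.2.2, B31, H3, H0.2.2, B29, B21, B33, B19, H4]
      · rcases E4 with H4 | H4 | H4
        · linarith only [H3, B31, H4, B25, H1.2.1, B29, H0.2.1]
        · linarith only [H3, B31, H4, H1.2.1, B29, H0.2.1]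
        · linarith only [H3, H1.2.2, B31, B21, H0.2.2, B33, B29, H4]
      · rcases E5 with H5 | H5 | H5
        · rcases E2 with H2 | H2 | H2
          · linarith only [H5, B29, H0.1, H1.1, H2]
          · linarith only [H2, B31, H5, B25, H1.2.1, B29, H0.2.1]
          · linarith only [H5, H1.2.2, B31, B29, B25, H2, H0.2.2, B33, B27]
        · linarith only [H5, H1.2.2, B31, B29, H3, H0.2.2, B33, B27]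
        · linarith only [H1.2.2, B31, B29, H3, H0.2.2, B33, H5]
  · rcases E1 with H1 | H1
    · rcases E3 with H3 | H3 | H3
      · rcases E4 with H4 | H4 | H4
        · linarith only [H0.1, B29, H3, H4, H1.1]
        · linarith only [B29, H3, H4, H0.2.1, B31, B19, H1.2.1]
        · linarith only [H1.2.2, B29, H3, H0.2.2, B31, B21, B33, B19, H4]
      · rcases E4 with H4 | H4 | H4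
        · linarith only [H3, H0.2.1, H4, B25, B31, B29, H1.2.1]
        · linarith only [H3, H0.2.1, H4, B31, B29, H1.2.1]
        · linarith only [H3, H1.2.2, B21, H0.2.2, B31, B33, B29, H4]
      · rcases E5 with H5 | H5 | H5
        · rcases E2 with H2 | H2 | H2
          · linarith only [H5, H0.1, B29, H1.1, H2]
          · linarith only [H2, H0.2.1, H5, B25, B31, B29, H1.2.1]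
          · linarith only [H5, H1.2.2, B29, B25, H2, H0.2.2, B31, B33, B27]
        · linarith only [H5, H1.2.2, B29, H3, H0.2.2, B31, B33, B27]
        · linarith only [H1.2.2, B29, H3, H0.2.2, B31, B33, H5]
    · rcases E3 with H3 | H3 | H3
      · rcases E5 with H5 | H5 | H5
        · linarith only [H0.1, B29, H3, H5, H1.1]
        · linarith only [B29, H3, H5, H0.2.1, B31, B19, H1.2.1]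
        · linarith only [H1.2.2, B29, H3, H0.2.2, B31, B21, B33, B19, H5]
      · rcases E5 with H5 | H5 | H5
        · linarith only [H3, H0.2.1, H5, B25, B31, B29, H1.2.1]
        · linarith only [H3, H0.2.1, H5, B31, B29, H1.2.1]
        · linarith only [H3, H1.2.2, B21, H0.2.2, B31, B33, B29, H5]
      · rcases E5 with H5 | H5 | H5
        · linarith only [H5, H1.2.2, B29, B25, H3, H0.2.2, B31, B33, B27]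
        · linarith only [H5, H1.2.2, B29, H3, H0.2.2, B31, B33, B27]
        · linarith only [H1.2.2, B29, H3, H0.2.2, B31, B33, H5]

theorem F1rob_all {k1 k2 k3 l u1 u2 u3 v1 v2 v3 x1 x2 x3 y1 y2 y3 : ℤ}
    (B0 : 0 ≤ l)
    (B1 : 0 ≤ k1)
    (B2 : 0 ≤ k2)
    (B3 : 0 ≤ k3)
    (B4 : 0 ≤ x1)
    (B5 : 0 ≤ 2 * l + k1 - x1 + 3)
    (B6 : 0 ≤ x2)
    (B7 : 0 ≤ k2 - x2 + 3)
    (B8 : 0 ≤ x3)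
    (B9 : 0 ≤ 2 * l + k3 - x3 + 5)
    (B10 : 0 ≤ u1)
    (B11 : 0 ≤ 2 * l + k1 - u1 + 3)
    (B12 : 0 ≤ u2)
    (B13 : 0 ≤ k2 - u2 + 3)
    (B14 : 0 ≤ u3)
    (B15 : 0 ≤ 2 * l + k3 - u3 + 5)
    (B16 : 0 ≤ y1)
    (B17 : 0 ≤ 2 * l + k1 - y1 + 3)
    (B18 : 0 ≤ y2)
    (B19 : 0 ≤ k2 - y2 + 3)
    (B20 : 0 ≤ y3)
    (B21 : 0 ≤ 2 * l + k3 - y3 + 5)
    (B22 : 0 ≤ v1)
    (B23 : 0 ≤ 2 * l + k1 - v1 + 3)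
    (B24 : 0 ≤ v2)
    (B25 : 0 ≤ k2 - v2 + 3)
    (B26 : 0 ≤ v3)
    (B27 : 0 ≤ 2 * l + k3 - v3 + 5)
    (B28 : 0 ≤ x1 + u1 - y1 - v1)
    (B29 : 0 ≤ y1 + v1 - x1 - u1)
    (B30 : 0 ≤ x2 + u2 - y2 - v2)
    (B31 : 0 ≤ y2 + v2 - x2 - u2)
    (B32 : 0 ≤ x3 + u3 - y3 - v3)
    (B33 : 0 ≤ y3 + v3 - x3 - u3)
    (D0 : (0 ≤ x1 - l - k1 - 2 ∧ 0 ≤ x1 + x2 - l - k1 - k2 - 4 ∧ 0 ≤ x1 + x2 + x3 - 2 * l - k1 - k2 - k3 - 7) ∨ (0 ≤ x1 - k1 - 1 ∧ 0 ≤ x1 + x2 - k1 - k2 - 3 ∧ 0 ≤ x1 + x2 + x3 - k1 - k2 - 2 * l - k3 - 8))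
    (D1 : (0 ≤ u1 - l - k1 - 2 ∧ 0 ≤ u1 + u2 - l - k1 - k2 - 4 ∧ 0 ≤ u1 + u2 + u3 - 2 * l - k1 - k2 - k3 - 7) ∨ (0 ≤ u1 - k1 - 1 ∧ 0 ≤ u1 + u2 - k1 - k2 - 3 ∧ 0 ≤ u1 + u2 + u3 - k1 - k2 - 2 * l - k3 - 8))
    (D2 : 0 ≤ l + k1 - y1 + 1 ∨ 0 ≤ l + k1 + k2 - y1 - y2 + 3 ∨ 0 ≤ 2 * l + k1 + k2 + k3 - y1 - y2 - y3 + 6)
    (D3 : 0 ≤ k1 - y1 ∨ 0 ≤ k1 + k2 - y1 - y2 + 2 ∨ 0 ≤ k1 + k2 + 2 * l + k3 - y1 - y2 - y3 + 7)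
    (D4 : 0 ≤ l + k1 - v1 + 1 ∨ 0 ≤ l + k1 + k2 - v1 - v2 + 3 ∨ 0 ≤ 2 * l + k1 + k2 + k3 - v1 - v2 - v3 + 6)
    (D5 : 0 ≤ k1 - v1 ∨ 0 ≤ k1 + k2 - v1 - v2 + 2 ∨ 0 ≤ k1 + k2 + 2 * l + k3 - v1 - v2 - v3 + 7) : False :=
  F1rob B17 B19 B21 B23 B25 B27 B29 B31 B33 D0 D1 D2 D3 D4 D5

theorem F2rob {l u1 u2 u3 v1 v2 v3 x1 x2 x3 y1 y2 y3 : ℤ}
    (B3 : 0 ≤ x1)
    (B9 : 0 ≤ u1)
    (B11 : 0 ≤ u2)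
    (B15 : 0 ≤ y1)
    (B17 : 0 ≤ y2)
    (B19 : 0 ≤ y3)
    (B20 : 0 ≤ 2 * l - y3 + 5)
    (B21 : 0 ≤ v1)
    (B23 : 0 ≤ v2)
    (B25 : 0 ≤ v3)
    (B26 : 0 ≤ 2 * l - v3 + 5)
    (B28 : 0 ≤ y1 + v1 - x1 - u1)
    (B30 : 0 ≤ y2 + v2 - x2 - u2)
    (B32 : 0 ≤ y3 + v3 - x3 - u3)
    (D0 : (0 ≤ x1 - l - 1 ∧ 0 ≤ x1 + x2 - l - 2 ∧ 0 ≤ x1 + x2 + x3 - 2 * l - 4) ∨ (0 ≤ x1 ∧ 0 ≤ x1 + x2 - 1 ∧ 0 ≤ x1 + x2 + x3 - 2 * l - 5))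
    (D1 : (0 ≤ u1 - l - 1 ∧ 0 ≤ u1 + u2 - l - 2 ∧ 0 ≤ u1 + u2 + u3 - 2 * l - 4) ∨ (0 ≤ u1 ∧ 0 ≤ u1 + u2 - 1 ∧ 0 ≤ u1 + u2 + u3 - 2 * l - 5))
    (D2 : 0 ≤ l - y1 ∨ 0 ≤ l - y1 - y2 + 1 ∨ 0 ≤ 2 * l - y1 - y2 - y3 + 3)
    (D3 : 0 ≤ -y1 - 1 ∨ 0 ≤ -y1 - y2 ∨ 0 ≤ 2 * l - y1 - y2 - y3 + 4)
    (D4 : 0 ≤ l - v1 ∨ 0 ≤ l - v1 - v2 + 1 ∨ 0 ≤ 2 * l - v1 - v2 - v3 + 3)
    (D5 : 0 ≤ -v1 - 1 ∨ 0 ≤ -v1 - v2 ∨ 0 ≤ 2 * l - v1 - v2 - v3 + 4) : False := by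
  have E0 := D0
  have E1 := D1
  have E2 := D2
  have E3 : 0 ≤ -y1 - y2 ∨ 0 ≤ 2 * l - y1 - y2 - y3 + 4 := by
    rcases D3 with H3 | H3 | H3
    · linarith only [B15, H3]
    · exact Or.inl H3
    · exact Or.inr H3
  have E4 := D4
  have E5 : 0 ≤ -v1 - v2 ∨ 0 ≤ 2 * l - v1 - v2 - v3 + 4 := by
    rcases D5 with H5 | H5 | H5
    · linarith only [B21, H5]
    · exact Or.inl H5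
    · exact Or.inr H5
  rcases E0 with H0 | H0
  · rcases E3 with H3 | H3
    · rcases E4 with H4 | H4 | H4
      · linarith only [B28, B9, H4, B17, H3, H0.1]
      · linarith only [B28, B9, B11, H0.2.1, B30, H3, H4]
      · rcases E1 with H1 | H1
        · linarith only [B28, H0.2.1, H1.2.1, B25, B30, H3, H4]
        · linarith only [H1.2.2, B28, B20, H0.2.2, B30, B32, H3, H4]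
    · rcases E5 with H5 | H5
      · rcases E2 with H2 | H2 | H2
        · linarith only [B28, B9, H0.1, B23, H2, H5]
        · linarith only [B28, B9, B11, H0.2.1, B30, H2, H5]
        · rcases E1 with H1 | H1
          · linarith only [B28, H0.2.1, H2, H5, B30, B19, H1.2.1]
          · linarith only [H1.2.2, B28, H2, H5, H0.2.2, B30, B32, B26]
      · rcases E1 with H1 | H1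
        · rcases E2 with H2 | H2 | H2
          · rcases E4 with H4 | H4 | H4
            · linarith only [B28, H0.1, H4, H2, H1.1]
            · linarith only [B28, H0.1, B23, H4, H2, H1.1]
            · linarith only [B28, H1.2.2, H3, H0.2.2, B30, B32, H4]
          · rcases E4 with H4 | H4 | H4
            · linarith only [B28, H0.1, H4, B17, H2, H1.1]
            · linarith only [B28, H0.2.1, H4, B30, H2, H1.2.1]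
            · linarith only [B28, H1.2.2, H3, H0.2.2, B30, B32, H4]
          · linarith only [B28, H1.2.2, H2, H0.2.2, B30, B32, H5]
        · linarith only [H1.2.2, B28, H3, H0.2.2, B30, B32, H5]
  · rcases E3 with H3 | H3
    · rcases E5 with H5 | H5
      · linarith only [B9, B11, H0.2.1, B28, B30, H3, H5]
      · rcases E1 with H1 | H1
        · rcases E4 with H4 | H4 | H4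
          · linarith only [B3, H4, B28, B17, H3, H1.1]
          · linarith only [H0.2.1, H4, B28, B30, H3, H1.2.1]
          · linarith only [H0.2.2, H1.2.2, B20, B28, B30, B32, H3, H4]
        · linarith only [H0.2.2, H1.2.2, B20, B28, B30, B32, H3, H5]
    · rcases E1 with H1 | H1
      · rcases E5 with H5 | H5
        · rcases E2 with H2 | H2 | H2
          · linarith only [H1.1, B23, H5, B28, H2, B3]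
          · linarith only [H0.2.1, H5, B28, B30, H2, H1.2.1]
          · linarith only [H0.2.2, H1.2.2, H2, H5, B28, B30, B32, B26]
        · linarith only [H0.2.2, H1.2.2, H3, B28, B30, B32, H5]
      · rcases E5 with H5 | H5
        · linarith only [H0.2.2, H1.2.2, H3, H5, B28, B30, B32, B26]
        · linarith only [H0.2.2, H1.2.2, H3, B28, B30, B32, H5]

theorem F2rob_all {k1 k2 l u1 u2 u3 v1 v2 v3 x1 x2 x3 y1 y2 y3 : ℤ}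
    (B0 : 0 ≤ l)
    (B1 : 0 ≤ k1)
    (B2 : 0 ≤ k2)
    (B3 : 0 ≤ x1)
    (B4 : 0 ≤ 2 * l + k1 - x1 + 3)
    (B5 : 0 ≤ x2)
    (B6 : 0 ≤ k2 - x2 + 3)
    (B7 : 0 ≤ x3)
    (B8 : 0 ≤ 2 * l - x3 + 5)
    (B9 : 0 ≤ u1)
    (B10 : 0 ≤ 2 * l + k1 - u1 + 3)
    (B11 : 0 ≤ u2)
    (B12 : 0 ≤ k2 - u2 + 3)
    (B13 : 0 ≤ u3)
    (B14 : 0 ≤ 2 * l - u3 + 5)
    (B15 : 0 ≤ y1)
    (B16 : 0 ≤ 2 * l + k1 - y1 + 3)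
    (B17 : 0 ≤ y2)
    (B18 : 0 ≤ k2 - y2 + 3)
    (B19 : 0 ≤ y3)
    (B20 : 0 ≤ 2 * l - y3 + 5)
    (B21 : 0 ≤ v1)
    (B22 : 0 ≤ 2 * l + k1 - v1 + 3)
    (B23 : 0 ≤ v2)
    (B24 : 0 ≤ k2 - v2 + 3)
    (B25 : 0 ≤ v3)
    (B26 : 0 ≤ 2 * l - v3 + 5)
    (B27 : 0 ≤ x1 + u1 - y1 - v1)
    (B28 : 0 ≤ y1 + v1 - x1 - u1)
    (B29 : 0 ≤ x2 + u2 - y2 - v2)
    (B30 : 0 ≤ y2 + v2 - x2 - u2)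
    (B31 : 0 ≤ x3 + u3 - y3 - v3)
    (B32 : 0 ≤ y3 + v3 - x3 - u3)
    (D0 : (0 ≤ x1 - l - 1 ∧ 0 ≤ x1 + x2 - l - 2 ∧ 0 ≤ x1 + x2 + x3 - 2 * l - 4) ∨ (0 ≤ x1 ∧ 0 ≤ x1 + x2 - 1 ∧ 0 ≤ x1 + x2 + x3 - 2 * l - 5))
    (D1 : (0 ≤ u1 - l - 1 ∧ 0 ≤ u1 + u2 - l - 2 ∧ 0 ≤ u1 + u2 + u3 - 2 * l - 4) ∨ (0 ≤ u1 ∧ 0 ≤ u1 + u2 - 1 ∧ 0 ≤ u1 + u2 + u3 - 2 * l - 5))
    (D2 : 0 ≤ l - y1 ∨ 0 ≤ l - y1 - y2 + 1 ∨ 0 ≤ 2 * l - y1 - y2 - y3 + 3)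
    (D3 : 0 ≤ -y1 - 1 ∨ 0 ≤ -y1 - y2 ∨ 0 ≤ 2 * l - y1 - y2 - y3 + 4)
    (D4 : 0 ≤ l - v1 ∨ 0 ≤ l - v1 - v2 + 1 ∨ 0 ≤ 2 * l - v1 - v2 - v3 + 3)
    (D5 : 0 ≤ -v1 - 1 ∨ 0 ≤ -v1 - v2 ∨ 0 ≤ 2 * l - v1 - v2 - v3 + 4) : False :=
  F2rob B3 B9 B11 B15 B17 B19 B20 B21 B23 B25 B26 B28 B30 B32 D0 D1 D2 D3 D4 D5

theorem F1rob_nat {k1 k2 k3 l x1 x2 x3 u1 u2 u3 y1 y2 y3 v1 v2 v3 : ℕ}
    (bx1 : x1 ≤ 2 * l + 3 + k1) (bx2 : x2 ≤ k2 + 3) (bx3 : x3 ≤ 2 * l + 5 + k3)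
    (bu1 : u1 ≤ 2 * l + 3 + k1) (bu2 : u2 ≤ k2 + 3) (bu3 : u3 ≤ 2 * l + 5 + k3)
    (by1 : y1 ≤ 2 * l + 3 + k1) (by2 : y2 ≤ k2 + 3) (by3 : y3 ≤ 2 * l + 5 + k3)
    (bv1 : v1 ≤ 2 * l + 3 + k1) (bv2 : v2 ≤ k2 + 3) (bv3 : v3 ≤ 2 * l + 5 + k3)
    (s1 : x1 + u1 = y1 + v1) (s2 : x2 + u2 = y2 + v2) (s3 : x3 + u3 = y3 + v3)
    (wx : ((l + 2 + k1) ≤ x1 ∧ (l + 2 + k1) + (k2 + 2) ≤ x1 + x2 ∧ (l + 2 + k1) + (k2 + 2) + (l + 3 + k3) ≤ x1 + x2 + x3) ∨ ((k1 + 1) ≤ x1 ∧ (k1 + 1) + (k2 + 2) ≤ x1 + x2 ∧ (k1 + 1) + (k2 + 2) + (2 * l + 5 + k3) ≤ x1 + x2 + x3))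
    (wu : ((l + 2 + k1) ≤ u1 ∧ (l + 2 + k1) + (k2 + 2) ≤ u1 + u2 ∧ (l + 2 + k1) + (k2 + 2) + (l + 3 + k3) ≤ u1 + u2 + u3) ∨ ((k1 + 1) ≤ u1 ∧ (k1 + 1) + (k2 + 2) ≤ u1 + u2 ∧ (k1 + 1) + (k2 + 2) + (2 * l + 5 + k3) ≤ u1 + u2 + u3))
    (ly : ¬ ((l + 2 + k1) ≤ y1 ∧ (l + 2 + k1) + (k2 + 2) ≤ y1 + y2 ∧ (l + 2 + k1) + (k2 + 2) + (l + 3 + k3) ≤ y1 + y2 + y3)) (ly2 : ¬ ((k1 + 1) ≤ y1 ∧ (k1 + 1) + (k2 + 2) ≤ y1 + y2 ∧ (k1 + 1) + (k2 + 2) + (2 * l + 5 + k3) ≤ y1 + y2 + y3))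
    (lv : ¬ ((l + 2 + k1) ≤ v1 ∧ (l + 2 + k1) + (k2 + 2) ≤ v1 + v2 ∧ (l + 2 + k1) + (k2 + 2) + (l + 3 + k3) ≤ v1 + v2 + v3)) (lv2 : ¬ ((k1 + 1) ≤ v1 ∧ (k1 + 1) + (k2 + 2) ≤ v1 + v2 ∧ (k1 + 1) + (k2 + 2) + (2 * l + 5 + k3) ≤ v1 + v2 + v3)) : False := by
  have D0 : (0 ≤ (x1 : ℤ) - (l : ℤ) - (k1 : ℤ) - 2 ∧ 0 ≤ (x1 : ℤ) + (x2 : ℤ) - (l : ℤ) - (k1 : ℤ) - (k2 : ℤ) - 4 ∧ 0 ≤ (x1 : ℤ) + (x2 : ℤ) + (x3 : ℤ) - 2 * (l : ℤ) - (k1 : ℤ) - (k2 : ℤ) - (k3 : ℤ) - 7) ∨ (0 ≤ (x1 : ℤ) - (k1 : ℤ) - 1 ∧ 0 ≤ (x1 : ℤ) + (x2 : ℤ) - (k1 : ℤ) - (k2 : ℤ) - 3 ∧ 0 ≤ (x1 : ℤ) + (x2 : ℤ) + (x3 : ℤ) - (k1 : ℤ) - (k2 : ℤ) - 2 * (l : ℤ) - (k3 : ℤ) - 8) := by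
    clear wu ly ly2 lv lv2
    omega
  have D1 : (0 ≤ (u1 : ℤ) - (l : ℤ) - (k1 : ℤ) - 2 ∧ 0 ≤ (u1 : ℤ) + (u2 : ℤ) - (l : ℤ) - (k1 : ℤ) - (k2 : ℤ) - 4 ∧ 0 ≤ (u1 : ℤ) + (u2 : ℤ) + (u3 : ℤ) - 2 * (l : ℤ) - (k1 : ℤ) - (k2 : ℤ) - (k3 : ℤ) - 7) ∨ (0 ≤ (u1 : ℤ) - (k1 : ℤ) - 1 ∧ 0 ≤ (u1 : ℤ) + (u2 : ℤ) - (k1 : ℤ) - (k2 : ℤ) - 3 ∧ 0 ≤ (u1 : ℤ) + (u2 : ℤ) + (u3 : ℤ) - (k1 : ℤ) - (k2 : ℤ) - 2 * (l : ℤ) - (k3 : ℤ) - 8) := by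
    clear wx ly ly2 lv lv2 D0
    omega
  have D2 : 0 ≤ (l : ℤ) + (k1 : ℤ) - (y1 : ℤ) + 1 ∨ 0 ≤ (l : ℤ) + (k1 : ℤ) + (k2 : ℤ) - (y1 : ℤ) - (y2 : ℤ) + 3 ∨ 0 ≤ 2 * (l : ℤ) + (k1 : ℤ) + (k2 : ℤ) + (k3 : ℤ) - (y1 : ℤ) - (y2 : ℤ) - (y3 : ℤ) + 6 := by
    clear wx wu ly2 lv lv2 D0 D1
    omega
  have D3 : 0 ≤ (k1 : ℤ) - (y1 : ℤ) ∨ 0 ≤ (k1 : ℤ) + (k2 : ℤ) - (y1 : ℤ) - (y2 : ℤ) + 2 ∨ 0 ≤ (k1 : ℤ) + (k2 : ℤ) + 2 * (l : ℤ) + (k3 : ℤ) - (y1 : ℤ) - (y2 : ℤ) - (y3 : ℤ) + 7 := by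
    clear wx wu ly lv lv2 D0 D1 D2
    omega
  have D4 : 0 ≤ (l : ℤ) + (k1 : ℤ) - (v1 : ℤ) + 1 ∨ 0 ≤ (l : ℤ) + (k1 : ℤ) + (k2 : ℤ) - (v1 : ℤ) - (v2 : ℤ) + 3 ∨ 0 ≤ 2 * (l : ℤ) + (k1 : ℤ) + (k2 : ℤ) + (k3 : ℤ) - (v1 : ℤ) - (v2 : ℤ) - (v3 : ℤ) + 6 := by
    clear wx wu ly ly2 lv2 D0 D1 D2 D3
    omega
  have D5 : 0 ≤ (k1 : ℤ) - (v1 : ℤ) ∨ 0 ≤ (k1 : ℤ) + (k2 : ℤ) - (v1 : ℤ) - (v2 : ℤ) + 2 ∨ 0 ≤ (k1 : ℤ) + (k2 : ℤ) + 2 * (l : ℤ) + (k3 : ℤ) - (v1 : ℤ) - (v2 : ℤ) - (v3 : ℤ) + 7 := by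
    clear wx wu ly ly2 lv D0 D1 D2 D3 D4
    omega
  clear wx wu ly ly2 lv lv2
  exact F1rob_all (k1 := (k1 : ℤ)) (k2 := (k2 : ℤ)) (k3 := (k3 : ℤ)) (l := (l : ℤ)) (u1 := (u1 : ℤ)) (u2 := (u2 : ℤ)) (u3 := (u3 : ℤ)) (v1 := (v1 : ℤ)) (v2 := (v2 : ℤ)) (v3 := (v3 : ℤ)) (x1 := (x1 : ℤ)) (x2 := (x2 : ℤ)) (x3 := (x3 : ℤ)) (y1 := (y1 : ℤ)) (y2 := (y2 : ℤ)) (y3 := (y3 : ℤ)) (by clear D0 D1 D2 D3 D4 D5; omega) (by clear D0 D1 D2 D3 D4 D5; omega) (by clear D0 D1 D2 D3 D4 D5; omega) (by clear D0 D1 D2 D3 D4 D5; omega) (by clear D0 D1 D2 D3 D4 D5; omega) (by clear D0 D1 D2 D3 D4 D5; omega) (by clear D0 D1 D2 D3 D4 D5; omega) (by clear D0 D1 D2 D3 D4 D5; omega) (by clear D0 D1 D2 D3 D4 D5; omega) (by clear D0 D1 D2 D3 D4 D5; omega) (by clear D0 D1 D2 D3 D4 D5;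 omega) (by clear D0 D1 D2 D3 D4 D5; omega) (by clear D0 D1 D2 D3 D4 D5; omega) (by clear D0 D1 D2 D3 D4 D5; omega) (by clear D0 D1 D2 D3 D4 D5; omega) (by clear D0 D1 D2 D3 D4 D5; omega) (by clear D0 D1 D2 D3 D4 D5; omega) (by clear D0 D1 D2 D3 D4 D5; omega) (by clear D0 D1 D2 D3 D4 D5; omega) (by clear D0 D1 D2 D3 D4 D5; omega) (by clear D0 D1 D2 D3 D4 D5; omega) (by clear D0 D1 D2 D3 D4 D5; omega) (by clear D0 D1 D2 D3 D4 D5; omega) (by clear D0 D1 D2 D3 D4 D5; omega) (by clear D0 D1 D2 D3 D4 D5; omega) (by clear D0 D1 D2 D3 D4 D5; omega) (by clear D0 D1 D2 D3 D4 D5; omega) (by clear D0 D1 D2 D3 D4 D5; omega) (by clear D0 D1 D2 D3 D4 D5; omega) (by clear D0 D1 D2 D3 D4 D5; omega) (by clear D0 D1 D2 D3 D4 D5; omega) (by clear D0 D1 D2 D3 D4 D5;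 omega) (by clear D0 D1 D2 D3 D4 D5; omega) (by clear D0 D1 D2 D3 D4 D5; omega)
    D0 D1 D2 D3 D4 D5

theorem F2rob_nat {k1 k2 l x1 x2 x3 u1 u2 u3 y1 y2 y3 v1 v2 v3 : ℕ}
    (bx1 : x1 ≤ 2 * l + 3 + k1) (bx2 : x2 ≤ k2 + 3) (bx3 : x3 ≤ 2 * l + 5)
    (bu1 : u1 ≤ 2 * l + 3 + k1) (bu2 : u2 ≤ k2 + 3) (bu3 : u3 ≤ 2 * l + 5)
    (by1 : y1 ≤ 2 * l + 3 + k1) (by2 : y2 ≤ k2 + 3) (by3 : y3 ≤ 2 * l + 5)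
    (bv1 : v1 ≤ 2 * l + 3 + k1) (bv2 : v2 ≤ k2 + 3) (bv3 : v3 ≤ 2 * l + 5)
    (s1 : x1 + u1 = y1 + v1) (s2 : x2 + u2 = y2 + v2) (s3 : x3 + u3 = y3 + v3)
    (wx : ((l + 1) ≤ x1 ∧ (l + 1) + (1) ≤ x1 + x2 ∧ (l + 1) + (1) + (l + 2) ≤ x1 + x2 + x3) ∨ ((0) ≤ x1 ∧ (0) + (1) ≤ x1 + x2 ∧ (0) + (1) + (2 * l + 4) ≤ x1 + x2 + x3))
    (wu : ((l + 1) ≤ u1 ∧ (l + 1) + (1) ≤ u1 + u2 ∧ (l + 1) + (1) + (l + 2) ≤ u1 + u2 + u3) ∨ ((0) ≤ u1 ∧ (0) + (1) ≤ u1 + u2 ∧ (0) + (1) + (2 * l + 4) ≤ u1 + u2 + u3))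
    (ly : ¬ ((l + 1) ≤ y1 ∧ (l + 1) + (1) ≤ y1 + y2 ∧ (l + 1) + (1) + (l + 2) ≤ y1 + y2 + y3)) (ly2 : ¬ ((0) ≤ y1 ∧ (0) + (1) ≤ y1 + y2 ∧ (0) + (1) + (2 * l + 4) ≤ y1 + y2 + y3))
    (lv : ¬ ((l + 1) ≤ v1 ∧ (l + 1) + (1) ≤ v1 + v2 ∧ (l + 1) + (1) + (l + 2) ≤ v1 + v2 + v3)) (lv2 : ¬ ((0) ≤ v1 ∧ (0) + (1) ≤ v1 + v2 ∧ (0) + (1) + (2 * l + 4) ≤ v1 + v2 + v3)) : False := by
  have D0 : (0 ≤ (x1 : ℤ) - (l : ℤ) - 1 ∧ 0 ≤ (x1 : ℤ) + (x2 : ℤ) - (l : ℤ) - 2 ∧ 0 ≤ (x1 : ℤ) + (x2 : ℤ) + (x3 : ℤ) - 2 * (l : ℤ) - 4) ∨ (0 ≤ (x1 : ℤ) ∧ 0 ≤ (x1 : ℤ) + (x2 : ℤ) - 1 ∧ 0 ≤ (x1 : ℤ) + (x2 : ℤ) + (x3 : ℤ) - 2 * (l : ℤ) - 5) := by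
    clear wu ly ly2 lv lv2
    omega
  have D1 : (0 ≤ (u1 : ℤ) - (l : ℤ) - 1 ∧ 0 ≤ (u1 : ℤ) + (u2 : ℤ) - (l : ℤ) - 2 ∧ 0 ≤ (u1 : ℤ) + (u2 : ℤ) + (u3 : ℤ) - 2 * (l : ℤ) - 4) ∨ (0 ≤ (u1 : ℤ) ∧ 0 ≤ (u1 : ℤ) + (u2 : ℤ) - 1 ∧ 0 ≤ (u1 : ℤ) + (u2 : ℤ) + (u3 : ℤ) - 2 * (l : ℤ) - 5) := by
    clear wx ly ly2 lv lv2 D0
    omega
  have D2 : 0 ≤ (l : ℤ) - (y1 : ℤ) ∨ 0 ≤ (l : ℤ) - (y1 : ℤ) - (y2 : ℤ) + 1 ∨ 0 ≤ 2 * (l : ℤ) - (y1 : ℤ) - (y2 : ℤ) - (y3 : ℤ) + 3 := by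
    clear wx wu ly2 lv lv2 D0 D1
    omega
  have D3 : 0 ≤ -(y1 : ℤ) - 1 ∨ 0 ≤ -(y1 : ℤ) - (y2 : ℤ) ∨ 0 ≤ 2 * (l : ℤ) - (y1 : ℤ) - (y2 : ℤ) - (y3 : ℤ) + 4 := by
    clear wx wu ly lv lv2 D0 D1 D2
    omega
  have D4 : 0 ≤ (l : ℤ) - (v1 : ℤ) ∨ 0 ≤ (l : ℤ) - (v1 : ℤ) - (v2 : ℤ) + 1 ∨ 0 ≤ 2 * (l : ℤ) - (v1 : ℤ) - (v2 : ℤ) - (v3 : ℤ) + 3 := by
    clear wx wu ly ly2 lv2 D0 D1 D2 D3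
    omega
  have D5 : 0 ≤ -(v1 : ℤ) - 1 ∨ 0 ≤ -(v1 : ℤ) - (v2 : ℤ) ∨ 0 ≤ 2 * (l : ℤ) - (v1 : ℤ) - (v2 : ℤ) - (v3 : ℤ) + 4 := by
    clear wx wu ly ly2 lv D0 D1 D2 D3 D4
    omega
  clear wx wu ly ly2 lv lv2
  exact F2rob_all (k1 := (k1 : ℤ)) (k2 := (k2 : ℤ)) (l := (l : ℤ)) (u1 := (u1 : ℤ)) (u2 := (u2 : ℤ)) (u3 := (u3 : ℤ)) (v1 := (v1 : ℤ)) (v2 := (v2 : ℤ)) (v3 := (v3 : ℤ)) (x1 := (x1 : ℤ)) (x2 := (x2 : ℤ)) (x3 := (x3 : ℤ)) (y1 := (y1 : ℤ)) (y2 := (y2 : ℤ)) (y3 := (y3 : ℤ)) (by clear D0 D1 D2 D3 D4 D5; omega) (by clear D0 D1 D2 D3 D4 D5; omega) (by clear D0 D1 D2 D3 D4 D5; omega) (by clear D0 D1 D2 D3 D4 D5; omega) (by clear D0 D1 D2 D3 D4 D5; omega) (by clear D0 D1 D2 D3 D4 D5; omega) (by clear D0 D1 D2 D3 D4 D5; omega) (by clear D0 D1 D2 D3 D4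 D5; omega) (by clear D0 D1 D2 D3 D4 D5; omega) (by clear D0 D1 D2 D3 D4 D5; omega) (by clear D0 D1 D2 D3 D4 D5; omega) (by clear D0 D1 D2 D3 D4 D5; omega) (by clear D0 D1 D2 D3 D4 D5; omega) (by clear D0 D1 D2 D3 D4 D5; omega) (by clear D0 D1 D2 D3 D4 D5; omega) (by clear D0 D1 D2 D3 D4 D5; omega) (by clear D0 D1 D2 D3 D4 D5; omega) (by clear D0 D1 D2 D3 D4 D5; omega) (by clear D0 D1 D2 D3 D4 D5; omega) (by clear D0 D1 D2 D3 D4 D5; omega) (by clear D0 D1 D2 D3 D4 D5; omega) (by clear D0 D1 D2 D3 D4 D5; omega) (by clear D0 D1 D2 D3 D4 D5; omega) (by clear D0 D1 D2 D3 D4 D5; omega) (by clear D0 D1 D2 D3 D4 D5; omega) (by clear D0 D1 D2 D3 D4 D5; omega) (by clear D0 D1 D2 D3 D4 D5; omega) (by clear D0 D1 D2 D3 D4 D5; omega) (by clear D0 D1 D2 D3 D4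 D5; omega) (by clear D0 D1 D2 D3 D4 D5; omega) (by clear D0 D1 D2 D3 D4 D5; omega) (by clear D0 D1 D2 D3 D4 D5; omega) (by clear D0 D1 D2 D3 D4 D5; omega)
    D0 D1 D2 D3 D4 D5

end WG3
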