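import Pool.Agent.Work.MP_5465ec_co.Core

set_option linter.all false

namespace WG3.I0N

theorem g0 {a3 b1 b2 b3 d1 n2 n3 p0 : ℤ}
    (B8 : 0 ≤ n3 - a3)
    (B25 : 0 ≤ d1 - 2)
    (B32 : 0 ≤ b1 - 1)
    (B33 : 0 ≤ -d1 - p0 - 1)
    (B35 : 0 ≤ n2 - b2 + n3 - b3 - 1)
    (D5 : (0 ≤ n2 - b2 - 2 ∧ 0 ≤ -2 * d1 - p0) ∨ (0 ≤ -n2 + b2 + 1 ∧ 0 ≤ p0 + d1))
    (D15 : 0 ≤ -b1 ∨ 0 ≤ -d1 + 1 ∨ 0 ≤ -n2 + b2 + 1 ∨ 0 ≤ -n2 + b2 - 2 * n3 + b3 + a3) : False := by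
  have E5 : (0 ≤ n2 - b2 - 2 ∧ 0 ≤ -2 * d1 - p0) := by
    rcases D5 with H5 | H5
    · exact H5
    · linarith only [B33, H5.2]
  have E15 : 0 ≤ -n2 + b2 + 1 := by
    rcases D15 with H15 | H15 | H15 | H15
    · linarith only [B32, H15]
    · linarith only [B25, H15]
    · exact H15
    · linarith only [B35, H15, B8]
  have H5 := E5
  have H15 := E15
  linarith only [H5.1, H15]

theorem g1 {a1 a2 a3 b1 b2 b3 d1 n2 n3 p0 x : ℤ}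
    (B10 : 0 ≤ n2 - b2)
    (B16 : 0 ≤ -a1 - a2 + b1 + b2 - x)
    (B17 : 0 ≤ x - 1)
    (B18 : 0 ≤ a1 + a2 + a3 - b1 - b2 - b3)
    (B25 : 0 ≤ d1 - 2)
    (B32 : 0 ≤ b1 - 1)
    (B33 : 0 ≤ -d1 - p0 - 1)
    (B35 : 0 ≤ n3 - a3 - 1)
    (D5 : (0 ≤ n2 - b2 - 2 ∧ 0 ≤ -2 * d1 - p0) ∨ (0 ≤ -n2 + b2 + 1 ∧ 0 ≤ p0 + d1))
    (D14 : 0 ≤ -b1 ∨ 0 ≤ -d1 + 1 ∨ 0 ≤ -n2 + b2 + 1 ∨ 0 ≤ -n2 + b2 - 2 * n3 + b3 + a3) : False := by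
  have E5 : (0 ≤ n2 - b2 - 2 ∧ 0 ≤ -2 * d1 - p0) := by
    rcases D5 with H5 | H5
    · exact H5
    · linarith only [B33, H5.2]
  have E14 : 0 ≤ -n2 + b2 + 1 := by
    rcases D14 with H14 | H14 | H14 | H14
    · linarith only [B32, H14]
    · linarith only [B25, H14]
    · exact H14
    · linarith only [B18, B17, B10, H14, B35, B16]
  have H5 := E5
  have H14 := E14
  linarith only [H5.1, H14]

theorem g2 {a1 a2 a3 b1 b2 b3 d1 n2 n3 p0 x : ℤ}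
    (B10 : 0 ≤ n2 - b2)
    (B16 : 0 ≤ -a1 - a2 + b1 + b2 - x)
    (B17 : 0 ≤ x - 1)
    (B18 : 0 ≤ a1 + a2 + a3 - b1 - b2 - b3)
    (B25 : 0 ≤ d1 - 2)
    (B32 : 0 ≤ b1 - 1)
    (B33 : 0 ≤ -d1 - p0 - 1)
    (B34 : 0 ≤ n3 - a3 - 1)
    (D5 : (0 ≤ n2 - b2 - 2 ∧ 0 ≤ -2 * d1 - p0) ∨ (0 ≤ -n2 + b2 + 1 ∧ 0 ≤ p0 + d1))
    (D15 : 0 ≤ -b1 ∨ 0 ≤ -d1 + 1 ∨ 0 ≤ -n2 + b2 + 1 ∨ 0 ≤ -n2 + b2 - 2 * n3 + b3 + a3) : False := by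
  have E5 : (0 ≤ n2 - b2 - 2 ∧ 0 ≤ -2 * d1 - p0) := by
    rcases D5 with H5 | H5
    · exact H5
    · linarith only [B33, H5.2]
  have E15 : 0 ≤ -n2 + b2 + 1 := by
    rcases D15 with H15 | H15 | H15 | H15
    · linarith only [B32, H15]
    · linarith only [B25, H15]
    · exact H15
    · linarith only [B18, B17, B10, H15, B34, B16]
  have H5 := E5
  have H15 := E15
  linarith only [H5.1, H15]

theorem g3 {a1 a2 a3 b1 b2 b3 d1 h h3 k n1 n2 n3 p0 p1 x : ℤ}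
    (B5 : 0 ≤ b3)
    (B8 : 0 ≤ n3 - a3)
    (B10 : 0 ≤ n2 - b2)
    (B16 : 0 ≤ -a1 - a2 + b1 + b2 - x)
    (B17 : 0 ≤ x - 1)
    (B21 : 0 ≤ a1 - b1 - d1)
    (B25 : 0 ≤ d1 - 2)
    (B26 : 0 ≤ n1 - a1 - h)
    (B27 : 0 ≤ a2 - h - 1)
    (B28 : 0 ≤ n1 - b1 - h3)
    (B31 : 0 ≤ b3 - k - 1)
    (B32 : 0 ≤ h - d1)
    (B33 : 0 ≤ b1 - 1)
    (B34 : 0 ≤ n2 - b2 + n3 - b3 - 1)
    (D3 : 0 ≤ h3 - n1 + b1 ∨ 0 ≤ h3 - b2 - b3 + 1)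
    (D4 : 0 ≤ k - n1 + b1 - n2 + b2 ∨ 0 ≤ k - b3 + 1)
    (D5 : (0 ≤ n2 - b2 - 2 ∧ 0 ≤ -2 * d1 - p0) ∨ (0 ≤ -n2 + b2 + 1 ∧ 0 ≤ p0 + d1))
    (D11 : (0 ≤ k + 1 ∧ 0 ≤ -p1) ∨ (0 ≤ -k - 2 ∧ 0 ≤ p1 - d1))
    (D13 : 0 ≤ h - d1 - 1 ∨ 0 ≤ n3 - a3 - 1)
    (D14 : 0 ≤ n2 - b2 + n3 - b3 - 2 ∨ 0 ≤ -d1 - p0 - 1)
    (D15 : 0 ≤ -b1 ∨ 0 ≤ -d1 + 1 ∨ 0 ≤ -n2 + b2 + 1 ∨ 0 ≤ -n2 + b2 - 2 * n3 + b3 + a3)
    (D17 : 0 ≤ -b1 ∨ 0 ≤ -h3 ∨ 0 ≤ -n2 + b2 - k ∨ 0 ≤ -n2 + b2 - n3 + b3 + 1)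
    (D19 : 0 ≤ -b1 ∨ 0 ≤ 2 * d1 - h3 ∨ 0 ≤ -n2 + b2 - k - 2 ∨ 0 ≤ -n2 + b2 - n3 + b3 + 1)
    (D20 : 0 ≤ -h3 + d1 ∨ 0 ≤ -k - 2 ∨ 0 ≤ -n3 + a3) : False := by
  have E3 := D3
  have E4 := D4
  have E5 := D5
  have E11 := D11
  have E13 := D13
  have E14 := D14
  have E15 : 0 ≤ -n2 + b2 + 1 := by
    rcases D15 with H15 | H15 | H15 | H15
    · linarith only [B33, H15]
    · linarith only [B25, H15]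
    · exact H15
    · linarith only [B34, H15, B8]
  have E17 : 0 ≤ -h3 ∨ 0 ≤ -n2 + b2 - k ∨ 0 ≤ -n2 + b2 - n3 + b3 + 1 := by
    rcases D17 with H17 | H17 | H17 | H17
    · linarith only [B33, H17]
    · exact Or.inl H17
    · exact Or.inr (Or.inl H17)
    · exact Or.inr (Or.inr H17)
  have E19 : 0 ≤ 2 * d1 - h3 ∨ 0 ≤ -n2 + b2 - k - 2 ∨ 0 ≤ -n2 + b2 - n3 + b3 + 1 := by
    rcases D19 with H19 | H19 | H19 | H19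
    · linarith only [B33, H19]
    · exact Or.inl H19
    · exact Or.inr (Or.inl H19)
    · exact Or.inr (Or.inr H19)
  have E20 := D20
  have H15 := E15
  rcases E5 with H5 | H5
  · linarith only [H5.1, H15]
  · rcases E14 with H14 | H14
    · rcases E4 with H4 | H4
      · rcases E3 with H3 | H3
        · rcases E17 with H17 | H17 | H17
          · linarith only [B25, H17, B26, B21, B32, H3]
          · linarith only [B25, B10, B26, B21, B32, H17, H4]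
          · linarith only [H14, H17]
        · linarith only [B25, B27, B17, B31, B16, B28, B21, B32, H3, B10, H4]
      · rcases E11 with H11 | H11
        · rcases E19 with H19 | H19 | H19
          · rcases E3 with H3 | H3
            · rcases E13 with H13 | H13
              · linarith only [H19, B26, H13, B21, H3]
              · rcases E20 with H20 | H20 | H20
                · linarith only [B25, H20, B26, B32, B21, H3]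
                · linarith only [H20, H11.1]
                · linarith only [H13, H20]
            · linarith only [B27, B17, H19, B16, B32, B21, H3, B5]
          · linarith only [H11.1, B10, H19]
          · linarith only [H14, H19]
        · linarith only [H11.1, B5, H4]
    · linarith only [H5.2, H14]

theorem g4 {a1 a2 a3 b1 b2 b3 d1 h h3 k n1 n2 n3 p1 x : ℤ}
    (B5 : 0 ≤ b3)
    (B10 : 0 ≤ n2 - b2)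
    (B16 : 0 ≤ -a1 - a2 + b1 + b2 - x)
    (B17 : 0 ≤ x - 1)
    (B21 : 0 ≤ a1 - b1 - d1)
    (B25 : 0 ≤ d1 - 2)
    (B26 : 0 ≤ n1 - a1 - h)
    (B27 : 0 ≤ a2 - h - 1)
    (B28 : 0 ≤ n1 - b1 - h3)
    (B31 : 0 ≤ b3 - k - 1)
    (B32 : 0 ≤ h - d1)
    (B34 : 0 ≤ n3 - a3 - 1)
    (D3 : 0 ≤ h3 - n1 + b1 ∨ 0 ≤ h3 - b2 - b3 + 1)
    (D4 : 0 ≤ k - n1 + b1 - n2 + b2 ∨ 0 ≤ k - b3 + 1)
    (D11 : (0 ≤ k + 1 ∧ 0 ≤ -p1) ∨ (0 ≤ -k - 2 ∧ 0 ≤ p1 - d1))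
    (D14 : 0 ≤ -h3 + d1 ∨ 0 ≤ -k - 2 ∨ 0 ≤ -n3 + a3) : False := by
  have E3 := D3
  have E4 := D4
  have E11 := D11
  have E14 : 0 ≤ -h3 + d1 ∨ 0 ≤ -k - 2 := by
    rcases D14 with H14 | H14 | H14
    · exact Or.inl H14
    · exact Or.inr H14
    · linarith only [B34, H14]
  rcases E4 with H4 | H4
  · rcases E3 with H3 | H3
    · rcases E14 with H14 | H14
      · linarith only [B25, H14, B26, B21, B32, H3]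
      · linarith only [B25, H14, B10, B26, B21, B32, H4]
    · linarith only [B25, B27, B17, B31, B16, B28, B21, B32, B10, H3, H4]
  · rcases E11 with H11 | H11
    · rcases E14 with H14 | H14
      · rcases E3 with H3 | H3
        · linarith only [B25, H14, B26, B21, B32, H3]
        · linarith only [B25, B27, B17, B16, H14, B21, B32, H3, B5]
      · linarith only [H14, H11.1]
    · linarith only [H11.1, B5, H4]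

theorem g5 {a1 a2 a3 b1 b2 b3 d1 h h3 k n1 n2 n3 p1 x : ℤ}
    (B5 : 0 ≤ b3)
    (B10 : 0 ≤ n2 - b2)
    (B16 : 0 ≤ -a1 - a2 + b1 + b2 - x)
    (B17 : 0 ≤ x - 1)
    (B21 : 0 ≤ a1 - b1 - d1)
    (B25 : 0 ≤ d1 - 2)
    (B26 : 0 ≤ n1 - a1 - h)
    (B27 : 0 ≤ a2 - h - 1)
    (B28 : 0 ≤ n1 - b1 - h3)
    (B31 : 0 ≤ b3 - k - 1)
    (B32 : 0 ≤ h - d1)
    (B33 : 0 ≤ n3 - a3 - 1)
    (D3 : 0 ≤ h3 - n1 + b1 ∨ 0 ≤ h3 - b2 - b3 + 1)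
    (D4 : 0 ≤ k - n1 + b1 - n2 + b2 ∨ 0 ≤ k - b3 + 1)
    (D11 : (0 ≤ k + 1 ∧ 0 ≤ -p1) ∨ (0 ≤ -k - 2 ∧ 0 ≤ p1 - d1))
    (D15 : 0 ≤ -h3 + d1 ∨ 0 ≤ -k - 2 ∨ 0 ≤ -n3 + a3) : False := by
  have E3 := D3
  have E4 := D4
  have E11 := D11
  have E15 : 0 ≤ -h3 + d1 ∨ 0 ≤ -k - 2 := by
    rcases D15 with H15 | H15 | H15
    · exact Or.inl H15
    · exact Or.inr H15
    · linarith only [B33, H15]
  rcases E4 with H4 | H4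
  · rcases E3 with H3 | H3
    · rcases E15 with H15 | H15
      · linarith only [B25, H15, B26, B21, B32, H3]
      · linarith only [B25, H15, B10, B26, B21, B32, H4]
    · linarith only [B25, B27, B17, B31, B16, B28, B21, B32, B10, H3, H4]
  · rcases E11 with H11 | H11
    · rcases E15 with H15 | H15
      · rcases E3 with H3 | H3
        · linarith only [B25, H15, B26, B21, B32, H3]
        · linarith only [B25, B27, B17, B16, H15, B21, B32, H3, B5]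
      · linarith only [H15, H11.1]
    · linarith only [H11.1, B5, H4]

theorem g6_l0 {a1 a2 a3 b1 b2 b3 d1 n2 n3 p0 x : ℤ}
    (B10 : 0 ≤ n2 - b2)
    (B16 : 0 ≤ -a1 - a2 + b1 + b2 - x)
    (B17 : 0 ≤ x - 1)
    (B18 : 0 ≤ a1 + a2 + a3 - b1 - b2 - b3)
    (E1 : (0 ≤ a2 - 1 ∧ 0 ≤ n3 - a3 - 1) ∨ (0 ≤ b2 - 1 ∧ 0 ≤ n3 - b3 - 1))
    (E5 : (0 ≤ n2 - b2 - 2 ∧ 0 ≤ -2 * d1 - p0) ∨ (0 ≤ -n2 + b2 + 1 ∧ 0 ≤ p0 + d1))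
    (E13 : 0 ≤ n2 - b2 + n3 - b3 - 2 ∨ 0 ≤ -d1 - p0 - 1)
    (H14 : 0 ≤ -n2 + b2 - n3 + b3 + 1) : False := by
  rcases E1 with H1 | H1
  · linarith only [B16, B17, B10, H1.2, B18, H14]
  · rcases E5 with H5 | H5
    · linarith only [H5.1, H1.2, H14]
    · rcases E13 with H13 | H13
      · linarith only [H13, H14]
      · linarith only [H13, H5.2]

theorem g6 {a1 a2 a3 b1 b2 b3 d1 h3 k n1 n2 n3 p0 p1 x : ℤ}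
    (B1 : 0 ≤ a2)
    (B5 : 0 ≤ b3)
    (B6 : 0 ≤ n1 - a1)
    (B10 : 0 ≤ n2 - b2)
    (B15 : 0 ≤ x + a1 + a2 - b1 - b2)
    (B16 : 0 ≤ -a1 - a2 + b1 + b2 - x)
    (B17 : 0 ≤ x - 1)
    (B18 : 0 ≤ a1 + a2 + a3 - b1 - b2 - b3)
    (B19 : 0 ≤ -a1 - a2 - a3 + b1 + b2 + b3)
    (B21 : 0 ≤ a1 - b1 - d1)
    (B24 : 0 ≤ -x + 1)
    (B25 : 0 ≤ d1 - 2)
    (B28 : 0 ≤ n1 - b1 - h3)
    (B31 : 0 ≤ b3 - k - 1)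
    (B33 : 0 ≤ h3 - d1 - p1 - 1)
    (B34 : 0 ≤ b1 - 1)
    (D1 : (0 ≤ a2 - 1 ∧ 0 ≤ n3 - a3 - 1) ∨ (0 ≤ b2 - 1 ∧ 0 ≤ n3 - b3 - 1))
    (D3 : 0 ≤ h3 - n1 + b1 ∨ 0 ≤ h3 - b2 - b3 + 1)
    (D4 : 0 ≤ k - n1 + b1 - n2 + b2 ∨ 0 ≤ k - b3 + 1)
    (D5 : (0 ≤ n2 - b2 - 2 ∧ 0 ≤ -2 * d1 - p0) ∨ (0 ≤ -n2 + b2 + 1 ∧ 0 ≤ p0 + d1))
    (D9 : (0 ≤ k - 1 ∧ 0 ≤ -2 * d1 - p1) ∨ (0 ≤ -k ∧ 0 ≤ p1 + d1))
    (D10 : (0 ≤ k ∧ 0 ≤ -d1 - p1) ∨ (0 ≤ -k - 1 ∧ 0 ≤ p1))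
    (D11 : (0 ≤ k + 1 ∧ 0 ≤ -p1) ∨ (0 ≤ -k - 2 ∧ 0 ≤ p1 - d1))
    (D13 : 0 ≤ n2 - b2 + n3 - b3 - 2 ∨ 0 ≤ -d1 - p0 - 1)
    (D14 : 0 ≤ -b1 ∨ 0 ≤ -h3 ∨ 0 ≤ -n2 + b2 - k ∨ 0 ≤ -n2 + b2 - n3 + b3 + 1)
    (D15 : 0 ≤ -h3 ∨ 0 ≤ -k - 1 ∨ 0 ≤ -n3 + a3)
    (D16 : 0 ≤ -h3 + d1 ∨ 0 ≤ -k - 2 ∨ 0 ≤ -n3 + a3)
    (D17 : 0 ≤ -b1 ∨ 0 ≤ d1 - h3 ∨ 0 ≤ -n2 + b2 - k - 1 ∨ 0 ≤ -n2 + b2 - n3 + b3 + 1) : False := by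
  have E1 := D1
  have E3 := D3
  have E4 := D4
  have E5 := D5
  have E9 := D9
  have E10 := D10
  have E11 := D11
  have E13 := D13
  have E14 : 0 ≤ -h3 ∨ 0 ≤ -n2 + b2 - k ∨ 0 ≤ -n2 + b2 - n3 + b3 + 1 := by
    rcases D14 with H14 | H14 | H14 | H14
    · linarith only [B34, H14]
    · exact Or.inl H14
    · exact Or.inr (Or.inl H14)
    · exact Or.inr (Or.inr H14)
  have E15 := D15
  have E16 := D16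
  have E17 : 0 ≤ d1 - h3 ∨ 0 ≤ -n2 + b2 - k - 1 ∨ 0 ≤ -n2 + b2 - n3 + b3 + 1 := by
    rcases D17 with H17 | H17 | H17 | H17
    · linarith only [B34, H17]
    · exact Or.inl H17
    · exact Or.inr (Or.inl H17)
    · exact Or.inr (Or.inr H17)
  rcases E4 with H4 | H4
  · rcases E3 with H3 | H3
    · rcases E9 with H9 | H9
      · rcases E14 with H14 | H14 | H14
        · linarith only [B21, H14, B6, B25, H3]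
        · linarith only [B10, H9.1, H14]
        · exact g6_l0 B10 B16 B17 B18 E1 E5 E13 H14
      · linarith only [B25, H9.1, B21, B6, B10, H4]
    · linarith only [B25, B1, B17, B31, B16, B28, B21, B10, H3, H4]
  · rcases E11 with H11 | H11
    · rcases E14 with H14 | H14 | H14
      · rcases E3 with H3 | H3
        · linarith only [B25, H14, B21, B6, H3]
        · linarith only [B25, B1, B17, B16, H14, B21, H3, B5]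
      · rcases E5 with H5 | H5
        · linarith only [H11.1, H5.1, H14]
        · rcases E9 with H9 | H9
          · linarith only [B10, H14, H9.1]
          · rcases E13 with H13 | H13
            · rcases E10 with H10 | H10
              · rcases E15 with H15 | H15 | H15
                · linarith only [H15, B33, H9.2]
                · linarith only [H15, H10.1]
                · linarith only [H13, H15, B24, H14, B19, B15, H10.1]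
              · rcases E16 with H16 | H16 | H16
                · linarith only [H10.2, B33, H16]
                · linarith only [H16, H11.1]
                · rcases E17 with H17 | H17 | H17
                  · linarith only [H10.2, B33, H17]
                  · linarith only [H13, H16, H11.1, B24, H17, B19, B15]
                  · linarith only [H13, H17]
            · linarith only [H13, H5.2]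
      · exact g6_l0 B10 B16 B17 B18 E1 E5 E13 H14
    · linarith only [H11.1, B5, H4]

theorem g7 {a1 a2 a3 b1 b2 b3 d1 h3 k n1 n2 n3 p1 x : ℤ}
    (B1 : 0 ≤ a2)
    (B5 : 0 ≤ b3)
    (B6 : 0 ≤ n1 - a1)
    (B10 : 0 ≤ n2 - b2)
    (B16 : 0 ≤ -a1 - a2 + b1 + b2 - x)
    (B17 : 0 ≤ x - 1)
    (B21 : 0 ≤ a1 - b1 - d1)
    (B25 : 0 ≤ d1 - 2)
    (B28 : 0 ≤ n1 - b1 - h3)
    (B31 : 0 ≤ b3 - k - 1)
    (B33 : 0 ≤ h3 - d1 - p1 - 1)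
    (B35 : 0 ≤ n3 - a3 - 1)
    (D3 : 0 ≤ h3 - n1 + b1 ∨ 0 ≤ h3 - b2 - b3 + 1)
    (D4 : 0 ≤ k - n1 + b1 - n2 + b2 ∨ 0 ≤ k - b3 + 1)
    (D10 : (0 ≤ k ∧ 0 ≤ -d1 - p1) ∨ (0 ≤ -k - 1 ∧ 0 ≤ p1))
    (D11 : (0 ≤ k + 1 ∧ 0 ≤ -p1) ∨ (0 ≤ -k - 2 ∧ 0 ≤ p1 - d1))
    (D13 : 0 ≤ -h3 ∨ 0 ≤ -k - 1 ∨ 0 ≤ -n3 + a3)
    (D14 : 0 ≤ -h3 + d1 ∨ 0 ≤ -k - 2 ∨ 0 ≤ -n3 + a3) : False := by
  have E3 := D3
  have E4 := D4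
  have E10 := D10
  have E11 := D11
  have E13 : 0 ≤ -h3 ∨ 0 ≤ -k - 1 := by
    rcases D13 with H13 | H13 | H13
    · exact Or.inl H13
    · exact Or.inr H13
    · linarith only [B35, H13]
  have E14 : 0 ≤ -h3 + d1 ∨ 0 ≤ -k - 2 := by
    rcases D14 with H14 | H14 | H14
    · exact Or.inl H14
    · exact Or.inr H14
    · linarith only [B35, H14]
  rcases E4 with H4 | H4
  · rcases E3 with H3 | H3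
    · rcases E13 with H13 | H13
      · linarith only [B25, H13, B21, B6, H3]
      · linarith only [B25, H13, B21, B6, B10, H4]
    · linarith only [B25, B1, B17, B31, B16, B28, B21, B10, H3, H4]
  · rcases E11 with H11 | H11
    · rcases E14 with H14 | H14
      · rcases E10 with H10 | H10
        · rcases E3 with H3 | H3
          · rcases E13 with H13 | H13
            · linarith only [B25, B21, B6, H3, H13]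
            · linarith only [H13, H10.1]
          · linarith only [B17, B31, B16, B21, B1, H10.1, H3, H14]
        · linarith only [H10.2, B33, H14]
      · linarith only [H14, H11.1]
    · linarith only [H11.1, B5, H4]

theorem g8 {a1 a2 a3 b1 b2 b3 d1 h3 k n1 n2 n3 p1 x : ℤ}
    (B1 : 0 ≤ a2)
    (B5 : 0 ≤ b3)
    (B6 : 0 ≤ n1 - a1)
    (B10 : 0 ≤ n2 - b2)
    (B16 : 0 ≤ -a1 - a2 + b1 + b2 - x)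
    (B17 : 0 ≤ x - 1)
    (B21 : 0 ≤ a1 - b1 - d1)
    (B25 : 0 ≤ d1 - 2)
    (B28 : 0 ≤ n1 - b1 - h3)
    (B31 : 0 ≤ b3 - k - 1)
    (B33 : 0 ≤ h3 - d1 - p1 - 1)
    (B34 : 0 ≤ n3 - a3 - 1)
    (D3 : 0 ≤ h3 - n1 + b1 ∨ 0 ≤ h3 - b2 - b3 + 1)
    (D4 : 0 ≤ k - n1 + b1 - n2 + b2 ∨ 0 ≤ k - b3 + 1)
    (D10 : (0 ≤ k ∧ 0 ≤ -d1 - p1) ∨ (0 ≤ -k - 1 ∧ 0 ≤ p1))
    (D11 : (0 ≤ k + 1 ∧ 0 ≤ -p1) ∨ (0 ≤ -k - 2 ∧ 0 ≤ p1 - d1))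
    (D14 : 0 ≤ -h3 ∨ 0 ≤ -k - 1 ∨ 0 ≤ -n3 + a3)
    (D15 : 0 ≤ -h3 + d1 ∨ 0 ≤ -k - 2 ∨ 0 ≤ -n3 + a3) : False := by
  have E3 := D3
  have E4 := D4
  have E10 := D10
  have E11 := D11
  have E14 : 0 ≤ -h3 ∨ 0 ≤ -k - 1 := by
    rcases D14 with H14 | H14 | H14
    · exact Or.inl H14
    · exact Or.inr H14
    · linarith only [B34, H14]
  have E15 : 0 ≤ -h3 + d1 ∨ 0 ≤ -k - 2 := by
    rcases D15 with H15 | H15 | H15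
    · exact Or.inl H15
    · exact Or.inr H15
    · linarith only [B34, H15]
  rcases E4 with H4 | H4
  · rcases E3 with H3 | H3
    · rcases E14 with H14 | H14
      · linarith only [B25, H14, B21, B6, H3]
      · linarith only [B25, H14, B21, B6, B10, H4]
    · linarith only [B25, B1, B17, B31, B16, B28, B21, B10, H3, H4]
  · rcases E11 with H11 | H11
    · rcases E15 with H15 | H15
      · rcases E10 with H10 | H10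
        · rcases E3 with H3 | H3
          · rcases E14 with H14 | H14
            · linarith only [B25, B21, B6, H3, H14]
            · linarith only [H14, H10.1]
          · linarith only [B17, B31, B16, B21, B1, H10.1, H3, H15]
        · linarith only [H10.2, B33, H15]
      · linarith only [H15, H11.1]
    · linarith only [H11.1, B5, H4]

theorem los11 {n1 n2 n3 a1 a2 a3 b1 b2 b3 x d1 : ℤ}
    (B0 : 0 ≤ a1)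
    (B1 : 0 ≤ a2)
    (B2 : 0 ≤ a3)
    (B3 : 0 ≤ b1)
    (B4 : 0 ≤ b2)
    (B5 : 0 ≤ b3)
    (B6 : 0 ≤ n1 - a1)
    (B7 : 0 ≤ n2 - a2)
    (B8 : 0 ≤ n3 - a3)
    (B9 : 0 ≤ n1 - b1)
    (B10 : 0 ≤ n2 - b2)
    (B11 : 0 ≤ n3 - b3)
    (B12 : 0 ≤ n1 - 1)
    (B13 : 0 ≤ n2 - 1)
    (B14 : 0 ≤ n3 - 1)
    (B15 : 0 ≤ x + a1 + a2 - b1 - b2)
    (B16 : 0 ≤ -a1 - a2 + b1 + b2 - x)
    (B17 : 0 ≤ x - 1)
    (B18 : 0 ≤ a1 + a2 + a3 - b1 - b2 - b3)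
    (B19 : 0 ≤ -a1 - a2 - a3 + b1 + b2 + b3)
    (B20 : 0 ≤ d1 - a1 + b1)
    (B21 : 0 ≤ a1 - b1 - d1)
    (B22 : 0 ≤ d1 - 1)
    (B23 : 0 ≤ x - 1)
    (B24 : 0 ≤ -x + 1)
    (B25 : 0 ≤ d1 - 2)
    (hex : 0 ≤ b1 - 1) :
    LosC n1 n2 n3 a1 a2 a3 b1 b2 b3 (d1 + 1) (-n2 + b2) (-n2 + b2 - n3 + b3 + 1) := by
  unfold LosC
  refine ⟨?_, ?_, ?_, ?_, ?_, ?_, ?_, ?_⟩ <;> omega

theorem los12 {n1 n2 n3 a1 a2 a3 b1 b2 b3 x d1 : ℤ}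
    (B0 : 0 ≤ a1)
    (B1 : 0 ≤ a2)
    (B2 : 0 ≤ a3)
    (B3 : 0 ≤ b1)
    (B4 : 0 ≤ b2)
    (B5 : 0 ≤ b3)
    (B6 : 0 ≤ n1 - a1)
    (B7 : 0 ≤ n2 - a2)
    (B8 : 0 ≤ n3 - a3)
    (B9 : 0 ≤ n1 - b1)
    (B10 : 0 ≤ n2 - b2)
    (B11 : 0 ≤ n3 - b3)
    (B12 : 0 ≤ n1 - 1)
    (B13 : 0 ≤ n2 - 1)
    (B14 : 0 ≤ n3 - 1)
    (B15 : 0 ≤ x + a1 + a2 - b1 - b2)
    (B16 : 0 ≤ -a1 - a2 + b1 + b2 - x)
    (B17 : 0 ≤ x - 1)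
    (B18 : 0 ≤ a1 + a2 + a3 - b1 - b2 - b3)
    (B19 : 0 ≤ -a1 - a2 - a3 + b1 + b2 + b3)
    (B20 : 0 ≤ d1 - a1 + b1)
    (B21 : 0 ≤ a1 - b1 - d1)
    (B22 : 0 ≤ d1 - 1)
    (B23 : 0 ≤ x - 1)
    (B24 : 0 ≤ -x + 1)
    (B25 : 0 ≤ d1 - 2) :
    LosC n1 n2 n3 a1 a2 a3 b1 b2 b3 (1) (0) (-n3 + a3) := by
  unfold LosC
  refine ⟨?_, ?_, ?_, ?_, ?_, ?_, ?_, ?_⟩ <;> omega

theorem los22 {n1 n2 n3 a1 a2 a3 b1 b2 b3 x d1 h : ℤ}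
    (B0 : 0 ≤ a1)
    (B1 : 0 ≤ a2)
    (B2 : 0 ≤ a3)
    (B3 : 0 ≤ b1)
    (B4 : 0 ≤ b2)
    (B5 : 0 ≤ b3)
    (B6 : 0 ≤ n1 - a1)
    (B7 : 0 ≤ n2 - a2)
    (B8 : 0 ≤ n3 - a3)
    (B9 : 0 ≤ n1 - b1)
    (B10 : 0 ≤ n2 - b2)
    (B11 : 0 ≤ n3 - b3)
    (B12 : 0 ≤ n1 - 1)
    (B13 : 0 ≤ n2 - 1)
    (B14 : 0 ≤ n3 - 1)
    (B15 : 0 ≤ x + a1 + a2 - b1 - b2)
    (B16 : 0 ≤ -a1 - a2 + b1 + b2 - x)
    (B17 : 0 ≤ x - 1)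
    (B18 : 0 ≤ a1 + a2 + a3 - b1 - b2 - b3)
    (B19 : 0 ≤ -a1 - a2 - a3 + b1 + b2 + b3)
    (B20 : 0 ≤ d1 - a1 + b1)
    (B21 : 0 ≤ a1 - b1 - d1)
    (B22 : 0 ≤ d1 - 1)
    (B23 : 0 ≤ x - 1)
    (B24 : 0 ≤ -x + 1)
    (B25 : 0 ≤ d1 - 2)
    (B26 : 0 ≤ n1 - a1 - h)
    (B27 : 0 ≤ a2 - h - 1)
    (C_Dh : 0 ≤ h - n1 + a1 ∨ 0 ≤ h - a2 + 1) :
    LosC n1 n2 n3 a1 a2 a3 b1 b2 b3 (-h) (1) (-n3 + a3 + 1) := by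
  unfold LosC
  refine ⟨?_, ?_, ?_, ?_, ?_, ?_, ?_, ?_⟩ <;> omega

theorem los33 {n1 n2 n3 a1 a2 a3 b1 b2 b3 x d1 h3 k : ℤ}
    (B0 : 0 ≤ a1)
    (B1 : 0 ≤ a2)
    (B2 : 0 ≤ a3)
    (B3 : 0 ≤ b1)
    (B4 : 0 ≤ b2)
    (B5 : 0 ≤ b3)
    (B6 : 0 ≤ n1 - a1)
    (B7 : 0 ≤ n2 - a2)
    (B8 : 0 ≤ n3 - a3)
    (B9 : 0 ≤ n1 - b1)
    (B10 : 0 ≤ n2 - b2)
    (B11 : 0 ≤ n3 - b3)
    (B12 : 0 ≤ n1 - 1)
    (B13 : 0 ≤ n2 - 1)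
    (B14 : 0 ≤ n3 - 1)
    (B15 : 0 ≤ x + a1 + a2 - b1 - b2)
    (B16 : 0 ≤ -a1 - a2 + b1 + b2 - x)
    (B17 : 0 ≤ x - 1)
    (B18 : 0 ≤ a1 + a2 + a3 - b1 - b2 - b3)
    (B19 : 0 ≤ -a1 - a2 - a3 + b1 + b2 + b3)
    (B20 : 0 ≤ d1 - a1 + b1)
    (B21 : 0 ≤ a1 - b1 - d1)
    (B22 : 0 ≤ d1 - 1)
    (B23 : 0 ≤ x - 1)
    (B24 : 0 ≤ -x + 1)
    (B25 : 0 ≤ d1 - 2)
    (B28 : 0 ≤ n1 - b1 - h3)
    (B29 : 0 ≤ b2 + b3 - h3 - 1)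
    (B30 : 0 ≤ n1 - b1 + n2 - b2 - k)
    (B31 : 0 ≤ b3 - k - 1)
    (C_Dh3 : 0 ≤ h3 - n1 + b1 ∨ 0 ≤ h3 - b2 - b3 + 1)
    (C_Dk : 0 ≤ k - n1 + b1 - n2 + b2 ∨ 0 ≤ k - b3 + 1) :
    LosC n1 n2 n3 a1 a2 a3 b1 b2 b3 (-h3 + d1) (-k - 1) (1) := by
  unfold LosC
  refine ⟨?_, ?_, ?_, ?_, ?_, ?_, ?_, ?_⟩ <;> omega

theorem hd {n1 n2 n3 a1 a2 a3 b1 b2 b3 x d1 h h3 k : ℤ}
    (B0 : 0 ≤ a1)
    (B1 : 0 ≤ a2)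
    (B2 : 0 ≤ a3)
    (B3 : 0 ≤ b1)
    (B4 : 0 ≤ b2)
    (B5 : 0 ≤ b3)
    (B6 : 0 ≤ n1 - a1)
    (B7 : 0 ≤ n2 - a2)
    (B8 : 0 ≤ n3 - a3)
    (B9 : 0 ≤ n1 - b1)
    (B10 : 0 ≤ n2 - b2)
    (B11 : 0 ≤ n3 - b3)
    (B12 : 0 ≤ n1 - 1)
    (B13 : 0 ≤ n2 - 1)
    (B14 : 0 ≤ n3 - 1)
    (B15 : 0 ≤ x + a1 + a2 - b1 - b2)
    (B16 : 0 ≤ -a1 - a2 + b1 + b2 - x)
    (B17 : 0 ≤ x - 1)
    (B18 : 0 ≤ a1 + a2 + a3 - b1 - b2 - b3)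
    (B19 : 0 ≤ -a1 - a2 - a3 + b1 + b2 + b3)
    (B20 : 0 ≤ d1 - a1 + b1)
    (B21 : 0 ≤ a1 - b1 - d1)
    (B22 : 0 ≤ d1 - 1)
    (B23 : 0 ≤ x - 1)
    (B24 : 0 ≤ -x + 1)
    (B25 : 0 ≤ d1 - 2)
    (B26 : 0 ≤ n1 - a1 - h)
    (B27 : 0 ≤ a2 - h - 1)
    (B28 : 0 ≤ n1 - b1 - h3)
    (B29 : 0 ≤ b2 + b3 - h3 - 1)
    (B30 : 0 ≤ n1 - b1 + n2 - b2 - k)
    (B31 : 0 ≤ b3 - k - 1)
    (C_Dh : 0 ≤ h - n1 + a1 ∨ 0 ≤ h - a2 + 1)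
    (C_Dh3 : 0 ≤ h3 - n1 + b1 ∨ 0 ≤ h3 - b2 - b3 + 1)
    (C_Dk : 0 ≤ k - n1 + b1 - n2 + b2 ∨ 0 ≤ k - b3 + 1) :
    ∀ c1 c2 c3, LosC n1 n2 n3 a1 a2 a3 b1 b2 b3 c1 c2 c3 →
      ∃ v ∈ ([⟨0 ≤ b1 - 1, d1 + 1, -n2 + b2, -n2 + b2 - n3 + b3 + 1⟩, ⟨True, 1, 0, -n3 + a3⟩, ⟨True, -h, 1, -n3 + a3 + 1⟩, ⟨True, -h3 + d1, -k - 1, 1⟩] : List LV), v.ex ∧ v.c1 ≤ c1 ∧ v.c2 ≤ c2 ∧ v.c3 ≤ c3 := by
  intro c1 c2 c3 hc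
  obtain ⟨q1, q2, q3, q4, q5, q6, qa, qb⟩ := hc
  rcases qb with qb | qb | qb
  · clear qa
    clear C_Dh C_Dh3 C_Dk
    refine ⟨_, List.Mem.head _, ?_, ?_, ?_, ?_⟩
    · show 0 ≤ b1 - 1; omega
    · show d1 + 1 ≤ c1; omega
    · show -n2 + b2 ≤ c2; omega
    · show -n2 + b2 - n3 + b3 + 1 ≤ c3; omega
  · rcases qa with qa | qa | qa
    · clear C_Dh C_Dh3 C_Dk
      refine ⟨_, List.Mem.tail _ (List.Mem.head _), ?_, ?_, ?_, ?_⟩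
      · trivial
      · show 1 ≤ c1; omega
      · show 0 ≤ c2; omega
      · show -n3 + a3 ≤ c3; omega
    · clear C_Dh3 C_Dk
      refine ⟨_, List.Mem.tail _ (List.Mem.tail _ (List.Mem.head _)), ?_, ?_, ?_, ?_⟩
      · trivial
      · show -h ≤ c1; omega
      · show 1 ≤ c2; omega
      · show -n3 + a3 + 1 ≤ c3; omega
    · clear C_Dh
      refine ⟨_, List.Mem.tail _ (List.Mem.tail _ (List.Mem.tail _ (List.Mem.head _))), ?_, ?_, ?_, ?_⟩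
      · trivial
      · show -h3 + d1 ≤ c1; omega
      · show -k - 1 ≤ c2; omega
      · show 1 ≤ c3; omega
  · clear qa
    clear C_Dh
    refine ⟨_, List.Mem.tail _ (List.Mem.tail _ (List.Mem.tail _ (List.Mem.head _))), ?_, ?_, ?_, ?_⟩
    · trivial
    · show -h3 + d1 ≤ c1; omega
    · show -k - 1 ≤ c2; omega
    · show 1 ≤ c3; omega

theorem cvF_V1_V3_11 {b1 b2 b3 d1 n2 n3 p0 : ℤ}
    (ep0 : p0 = (d1) * (-n2 + b2))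
    (hex : 0 ≤ b1 - 1)
    (hf : LexFail ((1) * (d1 + 1) + (d1) * (-n2 + b2) + (0) * (-n2 + b2 - n3 + b3 + 1))
      ((0) * (d1 + 1) + (0) * (-n2 + b2) + (1) * (-n2 + b2 - n3 + b3 + 1))
      ((0) * (d1 + 1) + (0) * (-n2 + b2) + (0) * (-n2 + b2 - n3 + b3 + 1))) :
    0 ≤ b1 - 1 ∧ 0 ≤ -d1 - p0 - 1 ∧ (0 ≤ -d1 - p0 - 2 ∨ 0 ≤ n2 - b2 + n3 - b3 - 1) := by
  rcases hf with hf | ⟨hf0, hf⟩ | ⟨hf0, hf1, hf⟩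
  · exact ⟨by linarith only [hex], by linarith only [hf, ep0], Or.inl (by linarith only [hf, ep0])⟩
  · exact ⟨by linarith only [hex], by linarith only [hf0, ep0], Or.inr (by linarith only [hf])⟩
  · exact ⟨by linarith only [hex], by linarith only [hf0, ep0], Or.inr (by linarith only [hf1])⟩

theorem cvF_V1_V3_12 {a3 d1 n3 : ℤ}
    (hf : LexFail ((1) * (1) + (d1) * (0) + (0) * (-n3 + a3))
      ((0) * (1) + (0) * (0) + (1) * (-n3 + a3))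
      ((0) * (1) + (0) * (0) + (0) * (-n3 + a3))) :
    False := by
  rcases hf with hf | ⟨hf0, hf⟩ | ⟨hf0, hf1, hf⟩
  · exfalso; linarith only [hf]
  · exfalso; linarith only [hf0]
  · exfalso; linarith only [hf0]

theorem cvF_V1_V3_22 {a3 d1 h n3 : ℤ}
    (hf : LexFail ((1) * (-h) + (d1) * (1) + (0) * (-n3 + a3 + 1))
      ((0) * (-h) + (0) * (1) + (1) * (-n3 + a3 + 1))
      ((0) * (-h) + (0) * (1) + (0) * (-n3 + a3 + 1))) :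
    0 ≤ h - d1 ∧ (0 ≤ h - d1 - 1 ∨ 0 ≤ n3 - a3 - 1) := by
  rcases hf with hf | ⟨hf0, hf⟩ | ⟨hf0, hf1, hf⟩
  · exact ⟨by linarith only [hf], Or.inl (by linarith only [hf])⟩
  · exact ⟨by linarith only [hf0], Or.inr (by linarith only [hf])⟩
  · exact ⟨by linarith only [hf0], Or.inr (by linarith only [hf1])⟩

theorem cvF_V1_V3_33 {d1 h3 k p1 : ℤ}
    (ep1 : p1 = (d1) * (-k - 1))
    (hf : LexFail ((1) * (-h3 + d1) + (d1) * (-k - 1) + (0) * (1))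
      ((0) * (-h3 + d1) + (0) * (-k - 1) + (1) * (1))
      ((0) * (-h3 + d1) + (0) * (-k - 1) + (0) * (1))) :
    0 ≤ h3 - d1 - p1 ∧ 0 ≤ h3 - d1 - p1 - 1 := by
  rcases hf with hf | ⟨hf0, hf⟩ | ⟨hf0, hf1, hf⟩
  · exact ⟨by linarith only [hf, ep1], by linarith only [hf, ep1]⟩
  · exfalso; linarith only [hf]
  · exfalso; linarith only [hf1]

theorem FAt {n1 n2 n3 a1 a2 a3 b1 b2 b3 x d1 h h3 k p0 p1 : ℤ}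
    (B15 : 0 ≤ x + a1 + a2 - b1 - b2)
    (B16 : 0 ≤ -a1 - a2 + b1 + b2 - x)
    (B17 : 0 ≤ x - 1)
    (B18 : 0 ≤ a1 + a2 + a3 - b1 - b2 - b3)
    (B19 : 0 ≤ -a1 - a2 - a3 + b1 + b2 + b3)
    (B20 : 0 ≤ d1 - a1 + b1)
    (B21 : 0 ≤ a1 - b1 - d1)
    (B22 : 0 ≤ d1 - 1)
    (B23 : 0 ≤ x - 1)
    (B24 : 0 ≤ -x + 1)
    (B25 : 0 ≤ d1 - 2)
    (ep0 : p0 = (d1) * (-n2 + b2))
    (ep1 : p1 = (d1) * (-k - 1))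
    (w1 : a1 - b1 = d1) (w2 : a1 + a2 - b1 - b2 = -1) (w3 : a1 + a2 + a3 - b1 - b2 - b3 = 0)
    (hno : ¬ ∃ u1 u2 u3 : ℤ, Good n1 n2 n3 a1 a2 a3 b1 b2 b3 u1 u2 u3)
    (hd : ∀ c1 c2 c3, LosC n1 n2 n3 a1 a2 a3 b1 b2 b3 c1 c2 c3 →
      ∃ v ∈ ([⟨0 ≤ b1 - 1, d1 + 1, -n2 + b2, -n2 + b2 - n3 + b3 + 1⟩, ⟨True, 1, 0, -n3 + a3⟩, ⟨True, -h, 1, -n3 + a3 + 1⟩, ⟨True, -h3 + d1, -k - 1, 1⟩] : List LV), v.ex ∧ v.c1 ≤ c1 ∧ v.c2 ≤ c2 ∧ v.c3 ≤ c3) :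
    (0 ≤ b1 - 1 ∧ 0 ≤ -d1 - p0 - 1 ∧ (0 ≤ -d1 - p0 - 2 ∨ 0 ≤ n2 - b2 + n3 - b3 - 1)) ∨ (0 ≤ h - d1 ∧ (0 ≤ h - d1 - 1 ∨ 0 ≤ n3 - a3 - 1)) ∨ (0 ≤ h3 - d1 - p1 ∧ 0 ≤ h3 - d1 - p1 - 1) := by
  obtain ⟨v, hv, hex, hf⟩ := failA' w1 w2 w3 hno _ hd (1) (d1) (0) (0) (0) (1) (0) (0) (0)
    ⟨zero_le_one, by linarith only [B15, B16, B17, B18, B19, B20, B21, B22, B23, B24, B25], le_refl 0⟩ ⟨le_refl 0, le_refl 0, zero_le_one⟩ ⟨le_refl 0, le_refl 0, le_refl 0⟩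
    (Or.inr ⟨by ring, Or.inr ⟨by ring, by linarith only [B15, B16, B17, B18, B19, B20, B21, B22, B23, B24, B25]⟩⟩)
  simp only [List.mem_cons, List.not_mem_nil, or_false] at hv
  rcases hv with rfl | rfl | rfl | rfl
  · exact Or.inl (cvF_V1_V3_11 ep0 hex hf)
  · exact (cvF_V1_V3_12 hf).elim
  · exact Or.inr (Or.inl (cvF_V1_V3_22 hf))
  · exact Or.inr (Or.inr (cvF_V1_V3_33 ep1 hf))

theorem cvF_V3_V1_11 {b1 b2 b3 d1 n2 n3 p0 : ℤ}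
    (ep0 : p0 = (d1) * (-n2 + b2))
    (hex : 0 ≤ b1 - 1)
    (hf : LexFail ((0) * (d1 + 1) + (0) * (-n2 + b2) + (1) * (-n2 + b2 - n3 + b3 + 1))
      ((1) * (d1 + 1) + (d1) * (-n2 + b2) + (0) * (-n2 + b2 - n3 + b3 + 1))
      ((0) * (d1 + 1) + (0) * (-n2 + b2) + (0) * (-n2 + b2 - n3 + b3 + 1))) :
    0 ≤ b1 - 1 ∧ 0 ≤ n2 - b2 + n3 - b3 - 1 ∧ (0 ≤ n2 - b2 + n3 - b3 - 2 ∨ 0 ≤ -d1 - p0 - 1) := by
  rcases hf with hf | ⟨hf0, hf⟩ | ⟨hf0, hf1, hf⟩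
  · exact ⟨by linarith only [hex], by linarith only [hf], Or.inl (by linarith only [hf])⟩
  · exact ⟨by linarith only [hex], by linarith only [hf0], Or.inr (by linarith only [hf, ep0])⟩
  · exact ⟨by linarith only [hex], by linarith only [hf0], Or.inr (by linarith only [hf1, ep0])⟩

theorem cvF_V3_V1_12 {a3 d1 n3 : ℤ}
    (hf : LexFail ((0) * (1) + (0) * (0) + (1) * (-n3 + a3))
      ((1) * (1) + (d1) * (0) + (0) * (-n3 + a3))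
      ((0) * (1) + (0) * (0) + (0) * (-n3 + a3))) :
    0 ≤ n3 - a3 ∧ 0 ≤ n3 - a3 - 1 := by
  rcases hf with hf | ⟨hf0, hf⟩ | ⟨hf0, hf1, hf⟩
  · exact ⟨by linarith only [hf], by linarith only [hf]⟩
  · exfalso; linarith only [hf]
  · exfalso; linarith only [hf1]

theorem cvF_V3_V1_22 {a3 d1 h n3 : ℤ}
    (hf : LexFail ((0) * (-h) + (0) * (1) + (1) * (-n3 + a3 + 1))
      ((1) * (-h) + (d1) * (1) + (0) * (-n3 + a3 + 1))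
      ((0) * (-h) + (0) * (1) + (0) * (-n3 + a3 + 1))) :
    0 ≤ n3 - a3 - 1 ∧ (0 ≤ n3 - a3 - 2 ∨ 0 ≤ h - d1) := by
  rcases hf with hf | ⟨hf0, hf⟩ | ⟨hf0, hf1, hf⟩
  · exact ⟨by linarith only [hf], Or.inl (by linarith only [hf])⟩
  · exact ⟨by linarith only [hf0], Or.inr (by linarith only [hf])⟩
  · exact ⟨by linarith only [hf0], Or.inr (by linarith only [hf1])⟩

theorem cvF_V3_V1_33 {d1 h3 k p1 : ℤ}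
    (ep1 : p1 = (d1) * (-k - 1))
    (hf : LexFail ((0) * (-h3 + d1) + (0) * (-k - 1) + (1) * (1))
      ((1) * (-h3 + d1) + (d1) * (-k - 1) + (0) * (1))
      ((0) * (-h3 + d1) + (0) * (-k - 1) + (0) * (1))) :
    False := by
  rcases hf with hf | ⟨hf0, hf⟩ | ⟨hf0, hf1, hf⟩
  · exfalso; linarith only [hf]
  · exfalso; linarith only [hf0]
  · exfalso; linarith only [hf0]

theorem FBt {n1 n2 n3 a1 a2 a3 b1 b2 b3 x d1 h h3 k p0 p1 : ℤ}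
    (B15 : 0 ≤ x + a1 + a2 - b1 - b2)
    (B16 : 0 ≤ -a1 - a2 + b1 + b2 - x)
    (B17 : 0 ≤ x - 1)
    (B18 : 0 ≤ a1 + a2 + a3 - b1 - b2 - b3)
    (B19 : 0 ≤ -a1 - a2 - a3 + b1 + b2 + b3)
    (B20 : 0 ≤ d1 - a1 + b1)
    (B21 : 0 ≤ a1 - b1 - d1)
    (B22 : 0 ≤ d1 - 1)
    (B23 : 0 ≤ x - 1)
    (B24 : 0 ≤ -x + 1)
    (B25 : 0 ≤ d1 - 2)
    (ep0 : p0 = (d1) * (-n2 + b2))
    (ep1 : p1 = (d1) * (-k - 1))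
    (w1 : a1 - b1 = d1) (w2 : a1 + a2 - b1 - b2 = -1) (w3 : a1 + a2 + a3 - b1 - b2 - b3 = 0)
    (hno : ¬ ∃ u1 u2 u3 : ℤ, Good n1 n2 n3 a1 a2 a3 b1 b2 b3 u1 u2 u3)
    (hd : ∀ c1 c2 c3, LosC n1 n2 n3 a1 a2 a3 b1 b2 b3 c1 c2 c3 →
      ∃ v ∈ ([⟨0 ≤ b1 - 1, d1 + 1, -n2 + b2, -n2 + b2 - n3 + b3 + 1⟩, ⟨True, 1, 0, -n3 + a3⟩, ⟨True, -h, 1, -n3 + a3 + 1⟩, ⟨True, -h3 + d1, -k - 1, 1⟩] : List LV), v.ex ∧ v.c1 ≤ c1 ∧ v.c2 ≤ c2 ∧ v.c3 ≤ c3) :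
    (0 ≤ b1 - 1 ∧ 0 ≤ n2 - b2 + n3 - b3 - 1 ∧ (0 ≤ n2 - b2 + n3 - b3 - 2 ∨ 0 ≤ -d1 - p0 - 1)) ∨ (0 ≤ n3 - a3 ∧ 0 ≤ n3 - a3 - 1) ∨ (0 ≤ n3 - a3 - 1 ∧ (0 ≤ n3 - a3 - 2 ∨ 0 ≤ h - d1)) := by
  obtain ⟨v, hv, hex, hf⟩ := failA' w1 w2 w3 hno _ hd (0) (0) (1) (1) (d1) (0) (0) (0) (0)
    ⟨le_refl 0, le_refl 0, zero_le_one⟩ ⟨zero_le_one, by linarith only [B15, B16, B17, B18, B19, B20, B21, B22, B23, B24, B25], le_refl 0⟩ ⟨le_refl 0, le_refl 0, le_refl 0⟩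
    (Or.inr ⟨by ring, Or.inr ⟨by ring, by linarith only [B15, B16, B17, B18, B19, B20, B21, B22, B23, B24, B25]⟩⟩)
  simp only [List.mem_cons, List.not_mem_nil, or_false] at hv
  rcases hv with rfl | rfl | rfl | rfl
  · exact Or.inl (cvF_V3_V1_11 ep0 hex hf)
  · exact Or.inr (Or.inl (cvF_V3_V1_12 hf))
  · exact Or.inr (Or.inr (cvF_V3_V1_22 hf))
  · exact (cvF_V3_V1_33 ep1 hf).elim

theorem T0_11_12 {n1 n2 n3 a1 a2 a3 b1 b2 b3 d1 : ℤ}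
    (H : NoTr n1 n2 n3 a1 a2 a3 b1 b2 b3)
    (w1 : a1 - b1 = d1) (w2 : a1 + a2 - b1 - b2 = -1) (w3 : a1 + a2 + a3 - b1 - b2 - b3 = 0)
    (l11 : 0 ≤ b1 - 1 → LosC n1 n2 n3 a1 a2 a3 b1 b2 b3 (d1 + 1) (-n2 + b2) (-n2 + b2 - n3 + b3 + 1))
    (l12 : LosC n1 n2 n3 a1 a2 a3 b1 b2 b3 (1) (0) (-n3 + a3))
    : 0 ≤ -b1 ∨ 0 ≤ -d1 + 1 ∨ 0 ≤ -n2 + b2 + 1 ∨ 0 ≤ -n2 + b2 - 2 * n3 + b3 + a3 := by
  rcases le_or_gt (b1) 0 with hb0 | hb0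
  · exact Or.inl (by linarith only [hb0])
  rcases H.t0 w1 w2 w3 (l11 (by linarith only [hb0])) l12 with hq | hq | hq
  · exact Or.inr (Or.inl (by linarith only [hq]))
  · exact Or.inr (Or.inr (Or.inl (by linarith only [hq])))
  · exact Or.inr (Or.inr (Or.inr (by linarith only [hq])))

theorem T0_11_33 {n1 n2 n3 a1 a2 a3 b1 b2 b3 d1 h3 k : ℤ}
    (H : NoTr n1 n2 n3 a1 a2 a3 b1 b2 b3)
    (w1 : a1 - b1 = d1) (w2 : a1 + a2 - b1 - b2 = -1) (w3 : a1 + a2 + a3 - b1 - b2 - b3 = 0)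
    (l11 : 0 ≤ b1 - 1 → LosC n1 n2 n3 a1 a2 a3 b1 b2 b3 (d1 + 1) (-n2 + b2) (-n2 + b2 - n3 + b3 + 1))
    (l33 : LosC n1 n2 n3 a1 a2 a3 b1 b2 b3 (-h3 + d1) (-k - 1) (1))
    : 0 ≤ -b1 ∨ 0 ≤ -h3 ∨ 0 ≤ -n2 + b2 - k ∨ 0 ≤ -n2 + b2 - n3 + b3 + 1 := by
  rcases le_or_gt (b1) 0 with hb0 | hb0
  · exact Or.inl (by linarith only [hb0])
  rcases H.t0 w1 w2 w3 (l11 (by linarith only [hb0])) l33 with hq | hq | hq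
  · exact Or.inr (Or.inl (by linarith only [hq]))
  · exact Or.inr (Or.inr (Or.inl (by linarith only [hq])))
  · exact Or.inr (Or.inr (Or.inr (by linarith only [hq])))

theorem T1_11_33 {n1 n2 n3 a1 a2 a3 b1 b2 b3 d1 h3 k : ℤ}
    (H : NoTr n1 n2 n3 a1 a2 a3 b1 b2 b3)
    (w1 : a1 - b1 = d1) (w2 : a1 + a2 - b1 - b2 = -1) (w3 : a1 + a2 + a3 - b1 - b2 - b3 = 0)
    (l11 : 0 ≤ b1 - 1 → LosC n1 n2 n3 a1 a2 a3 b1 b2 b3 (d1 + 1) (-n2 + b2) (-n2 + b2 - n3 + b3 + 1))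
    (l33 : LosC n1 n2 n3 a1 a2 a3 b1 b2 b3 (-h3 + d1) (-k - 1) (1))
    : 0 ≤ -b1 ∨ 0 ≤ d1 - h3 ∨ 0 ≤ -n2 + b2 - k - 1 ∨ 0 ≤ -n2 + b2 - n3 + b3 + 1 := by
  rcases le_or_gt (b1) 0 with hb0 | hb0
  · exact Or.inl (by linarith only [hb0])
  rcases H.t1 w1 w2 w3 (l11 (by linarith only [hb0])) l33 with hq | hq | hq
  · exact Or.inr (Or.inl (by linarith only [hq]))
  · exact Or.inr (Or.inr (Or.inl (by linarith only [hq])))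
  · exact Or.inr (Or.inr (Or.inr (by linarith only [hq])))

theorem T2_11_33 {n1 n2 n3 a1 a2 a3 b1 b2 b3 d1 h3 k : ℤ}
    (H : NoTr n1 n2 n3 a1 a2 a3 b1 b2 b3)
    (l11 : 0 ≤ b1 - 1 → LosC n1 n2 n3 a1 a2 a3 b1 b2 b3 (d1 + 1) (-n2 + b2) (-n2 + b2 - n3 + b3 + 1))
    (l33 : LosC n1 n2 n3 a1 a2 a3 b1 b2 b3 (-h3 + d1) (-k - 1) (1))
    : 0 ≤ -b1 ∨ 0 ≤ 2 * d1 - h3 ∨ 0 ≤ -n2 + b2 - k - 2 ∨ 0 ≤ -n2 + b2 - n3 + b3 + 1 := by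
  rcases le_or_gt (b1) 0 with hb0 | hb0
  · exact Or.inl (by linarith only [hb0])
  rcases H.t2 (l11 (by linarith only [hb0])) l33 with hq | hq | hq
  · exact Or.inr (Or.inl (by linarith only [hq]))
  · exact Or.inr (Or.inr (Or.inl (by linarith only [hq])))
  · exact Or.inr (Or.inr (Or.inr (by linarith only [hq])))

theorem T1_12_33 {n1 n2 n3 a1 a2 a3 b1 b2 b3 d1 h3 k : ℤ}
    (H : NoTr n1 n2 n3 a1 a2 a3 b1 b2 b3)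
    (w1 : a1 - b1 = d1) (w2 : a1 + a2 - b1 - b2 = -1) (w3 : a1 + a2 + a3 - b1 - b2 - b3 = 0)
    (l12 : LosC n1 n2 n3 a1 a2 a3 b1 b2 b3 (1) (0) (-n3 + a3))
    (l33 : LosC n1 n2 n3 a1 a2 a3 b1 b2 b3 (-h3 + d1) (-k - 1) (1))
    : 0 ≤ -h3 ∨ 0 ≤ -k - 1 ∨ 0 ≤ -n3 + a3 := by
  rcases H.t1 w1 w2 w3 l12 l33 with hq | hq | hq
  · exact Or.inl (by linarith only [hq])
  · exact Or.inr (Or.inl (by linarith only [hq]))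
  · exact Or.inr (Or.inr (by linarith only [hq]))

theorem T2_12_33 {n1 n2 n3 a1 a2 a3 b1 b2 b3 d1 h3 k : ℤ}
    (H : NoTr n1 n2 n3 a1 a2 a3 b1 b2 b3)
    (l12 : LosC n1 n2 n3 a1 a2 a3 b1 b2 b3 (1) (0) (-n3 + a3))
    (l33 : LosC n1 n2 n3 a1 a2 a3 b1 b2 b3 (-h3 + d1) (-k - 1) (1))
    : 0 ≤ -h3 + d1 ∨ 0 ≤ -k - 2 ∨ 0 ≤ -n3 + a3 := by
  rcases H.t2 l12 l33 with hq | hq | hq
  · exact Or.inl (by linarith only [hq])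
  · exact Or.inr (Or.inl (by linarith only [hq]))
  · exact Or.inr (Or.inr (by linarith only [hq]))

theorem main {n1 n2 n3 a1 a2 a3 b1 b2 b3 x d1 : ℤ}
    (B0 : 0 ≤ a1)
    (B1 : 0 ≤ a2)
    (B2 : 0 ≤ a3)
    (B3 : 0 ≤ b1)
    (B4 : 0 ≤ b2)
    (B5 : 0 ≤ b3)
    (B6 : 0 ≤ n1 - a1)
    (B7 : 0 ≤ n2 - a2)
    (B8 : 0 ≤ n3 - a3)
    (B9 : 0 ≤ n1 - b1)
    (B10 : 0 ≤ n2 - b2)
    (B11 : 0 ≤ n3 - b3)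
    (B12 : 0 ≤ n1 - 1)
    (B13 : 0 ≤ n2 - 1)
    (B14 : 0 ≤ n3 - 1)
    (B15 : 0 ≤ x + a1 + a2 - b1 - b2)
    (B16 : 0 ≤ -a1 - a2 + b1 + b2 - x)
    (B17 : 0 ≤ x - 1)
    (B18 : 0 ≤ a1 + a2 + a3 - b1 - b2 - b3)
    (B19 : 0 ≤ -a1 - a2 - a3 + b1 + b2 + b3)
    (B20 : 0 ≤ d1 - a1 + b1)
    (B21 : 0 ≤ a1 - b1 - d1)
    (B22 : 0 ≤ d1 - 1)
    (B23 : 0 ≤ x - 1)
    (B24 : 0 ≤ -x + 1)
    (B25 : 0 ≤ d1 - 2)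
    (C_c1 : (0 ≤ a1 - 1 ∧ 0 ≤ n2 - a2 - 1) ∨ (0 ≤ b1 - 1 ∧ 0 ≤ n2 - b2 - 1))
    (C_c2 : (0 ≤ a2 - 1 ∧ 0 ≤ n3 - a3 - 1) ∨ (0 ≤ b2 - 1 ∧ 0 ≤ n3 - b3 - 1))
    (H : NoTr n1 n2 n3 a1 a2 a3 b1 b2 b3)
    (hno : ¬ ∃ u1 u2 u3 : ℤ, Good n1 n2 n3 a1 a2 a3 b1 b2 b3 u1 u2 u3) : False := by
  have w1 : a1 - b1 = d1 := by linarith only [B15, B16, B17, B18, B19, B20, B21, B22, B23, B24, B25]
  have w2 : a1 + a2 - b1 - b2 = -1 := by linarith only [B15, B16, B17, B18, B19, B20, B21, B22, B23, B24, B25]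
  have w3 : a1 + a2 + a3 - b1 - b2 - b3 = 0 := by linarith only [B15, B16, B17, B18, B19, B20, B21, B22, B23, B24, B25]
  obtain ⟨h, rh1, rh2, rh3⟩ := min_facts (n1 - a1) (a2 - 1)
  have B26 : 0 ≤ n1 - a1 - h := by linarith only [rh1]
  have B27 : 0 ≤ a2 - h - 1 := by linarith only [rh2]
  have C_Dh : 0 ≤ h - n1 + a1 ∨ 0 ≤ h - a2 + 1 := rh3.imp (fun hq => by linarith only [hq]) (fun hq => by linarith only [hq])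
  clear rh1 rh2 rh3
  obtain ⟨h3, rh31, rh32, rh33⟩ := min_facts (n1 - b1) (b2 + b3 - 1)
  have B28 : 0 ≤ n1 - b1 - h3 := by linarith only [rh31]
  have B29 : 0 ≤ b2 + b3 - h3 - 1 := by linarith only [rh32]
  have C_Dh3 : 0 ≤ h3 - n1 + b1 ∨ 0 ≤ h3 - b2 - b3 + 1 := rh33.imp (fun hq => by linarith only [hq]) (fun hq => by linarith only [hq])
  clear rh31 rh32 rh33
  obtain ⟨k, rk1, rk2, rk3⟩ := min_facts (n1 - b1 + n2 - b2) (b3 - 1)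
  have B30 : 0 ≤ n1 - b1 + n2 - b2 - k := by linarith only [rk1]
  have B31 : 0 ≤ b3 - k - 1 := by linarith only [rk2]
  have C_Dk : 0 ≤ k - n1 + b1 - n2 + b2 ∨ 0 ≤ k - b3 + 1 := rk3.imp (fun hq => by linarith only [hq]) (fun hq => by linarith only [hq])
  clear rk1 rk2 rk3
  have l11 : 0 ≤ b1 - 1 → LosC n1 n2 n3 a1 a2 a3 b1 b2 b3 (d1 + 1) (-n2 + b2) (-n2 + b2 - n3 + b3 + 1) := fun hq => los11 B0 B1 B2 B3 B4 B5 B6 B7 B8 B9 B10 B11 B12 B13 B14 B15 B16 B17 B18 B19 B20 B21 B22 B23 B24 B25 hq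
  have l12 : LosC n1 n2 n3 a1 a2 a3 b1 b2 b3 (1) (0) (-n3 + a3) := los12 B0 B1 B2 B3 B4 B5 B6 B7 B8 B9 B10 B11 B12 B13 B14 B15 B16 B17 B18 B19 B20 B21 B22 B23 B24 B25
  have l33 : LosC n1 n2 n3 a1 a2 a3 b1 b2 b3 (-h3 + d1) (-k - 1) (1) := los33 B0 B1 B2 B3 B4 B5 B6 B7 B8 B9 B10 B11 B12 B13 B14 B15 B16 B17 B18 B19 B20 B21 B22 B23 B24 B25 B28 B29 B30 B31 C_Dh3 C_Dk
  have hd := hd B0 B1 B2 B3 B4 B5 B6 B7 B8 B9 B10 B11 B12 B13 B14 B15 B16 B17 B18 B19 B20 B21 B22 B23 B24 B25 B26 B27 B28 B29 B30 B31 C_Dh C_Dh3 C_Dk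
  obtain ⟨p0, ep0⟩ : ∃ p, p = (d1) * (-n2 + b2) := ⟨_, rfl⟩
  have C_Dp0_a : (0 ≤ n2 - b2 - 2 ∧ 0 ≤ -2 * d1 - p0) ∨ (0 ≤ -n2 + b2 + 1 ∧ 0 ≤ p0 + d1) :=
    (prod_split' (-2) ep0 (by linarith only [B15, B16, B17, B18, B19, B20, B21, B22, B23, B24, B25])).imp (fun hq => ⟨by linarith only [hq.1], by linarith only [hq.2]⟩)
      (fun hq => ⟨by linarith only [hq.1], by linarith only [hq.2]⟩)
  obtain ⟨p1, ep1⟩ : ∃ p, p = (d1) * (-k - 1) := ⟨_, rfl⟩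
  have C_Dp1_a : (0 ≤ k - 1 ∧ 0 ≤ -2 * d1 - p1) ∨ (0 ≤ -k ∧ 0 ≤ p1 + d1) :=
    (prod_split' (-2) ep1 (by linarith only [B15, B16, B17, B18, B19, B20, B21, B22, B23, B24, B25])).imp (fun hq => ⟨by linarith only [hq.1], by linarith only [hq.2]⟩)
      (fun hq => ⟨by linarith only [hq.1], by linarith only [hq.2]⟩)
  have C_Dp1_b : (0 ≤ k ∧ 0 ≤ -d1 - p1) ∨ (0 ≤ -k - 1 ∧ 0 ≤ p1) :=
    (prod_split' (-1) ep1 (by linarith only [B15, B16, B17, B18, B19, B20, B21, B22, B23, B24, B25])).imp (fun hq => ⟨by linarith only [hq.1], by linarith only [hq.2]⟩)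
      (fun hq => ⟨by linarith only [hq.1], by linarith only [hq.2]⟩)
  have C_Dp1_c : (0 ≤ k + 1 ∧ 0 ≤ -p1) ∨ (0 ≤ -k - 2 ∧ 0 ≤ p1 - d1) :=
    (prod_split' (0) ep1 (by linarith only [B15, B16, B17, B18, B19, B20, B21, B22, B23, B24, B25])).imp (fun hq => ⟨by linarith only [hq.1], by linarith only [hq.2]⟩)
      (fun hq => ⟨by linarith only [hq.1], by linarith only [hq.2]⟩)
  have FA := FAt B15 B16 B17 B18 B19 B20 B21 B22 B23 B24 B25 ep0 ep1 w1 w2 w3 hno hd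
  have FB := FBt B15 B16 B17 B18 B19 B20 B21 B22 B23 B24 B25 ep0 ep1 w1 w2 w3 hno hd
  have t0_11_12 := T0_11_12 H w1 w2 w3 l11 l12
  have t0_11_33 := T0_11_33 H w1 w2 w3 l11 l33
  have t1_11_33 := T1_11_33 H w1 w2 w3 l11 l33
  have t2_11_33 := T2_11_33 H l11 l33
  have t1_12_33 := T1_12_33 H w1 w2 w3 l12 l33
  have t2_12_33 := T2_12_33 H l12 l33
  rcases FA with ⟨f0_0, f0_1, f0_2⟩ | ⟨f0_0, f0_1⟩ | ⟨f0_0, f0_1⟩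
  · rcases FB with ⟨f1_0, f1_1, f1_2⟩ | ⟨f1_0, f1_1⟩ | ⟨f1_0, f1_1⟩
    · exact g0 B8 B25 f0_0 f0_1 f1_1 C_Dp0_a t0_11_12
    · exact g1 B10 B16 B17 B18 B25 f0_0 f0_1 f1_1 C_Dp0_a t0_11_12
    · exact g2 B10 B16 B17 B18 B25 f0_0 f0_1 f1_0 C_Dp0_a t0_11_12
  · rcases FB with ⟨f1_0, f1_1, f1_2⟩ | ⟨f1_0, f1_1⟩ | ⟨f1_0, f1_1⟩
    · exact g3 B5 B8 B10 B16 B17 B21 B25 B26 B27 B28 B31 f0_0 f1_0 f1_1 C_Dh3 C_Dk C_Dp0_a C_Dp1_c f0_1 f1_2 t0_11_12 t0_11_33 t2_11_33 t2_12_33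
    · exact g4 B5 B10 B16 B17 B21 B25 B26 B27 B28 B31 f0_0 f1_1 C_Dh3 C_Dk C_Dp1_c t2_12_33
    · exact g5 B5 B10 B16 B17 B21 B25 B26 B27 B28 B31 f0_0 f1_0 C_Dh3 C_Dk C_Dp1_c t2_12_33
  · rcases FB with ⟨f1_0, f1_1, f1_2⟩ | ⟨f1_0, f1_1⟩ | ⟨f1_0, f1_1⟩
    · exact g6 B1 B5 B6 B10 B15 B16 B17 B18 B19 B21 B24 B25 B28 B31 f0_1 f1_0 C_c2 C_Dh3 C_Dk C_Dp0_a C_Dp1_a C_Dp1_b C_Dp1_c f1_2 t0_11_33 t1_12_33 t2_12_33 t1_11_33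
    · exact g7 B1 B5 B6 B10 B16 B17 B21 B25 B28 B31 f0_1 f1_1 C_Dh3 C_Dk C_Dp1_b C_Dp1_c t1_12_33 t2_12_33
    · exact g8 B1 B5 B6 B10 B16 B17 B21 B25 B28 B31 f0_1 f1_0 C_Dh3 C_Dk C_Dp1_b C_Dp1_c t1_12_33 t2_12_33

end WG3.I0N
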