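import Pool.Agent.Work.MP_5465ec_co.Core

set_option linter.all false

namespace WG3.IIIP

theorem g0 {a1 a2 a3 b1 b2 b3 d1 g h h3 k n1 n2 n3 p0 p1 p2 p3 y : ℤ}
    (B1 : 0 ≤ a2)
    (B2 : 0 ≤ a3)
    (B6 : 0 ≤ n1 - a1)
    (B11 : 0 ≤ n3 - b3)
    (B15 : 0 ≤ a1 + a2 - b1 - b2)
    (B16 : 0 ≤ -a1 - a2 + b1 + b2)
    (B17 : 0 ≤ y + a1 + a2 + a3 - b1 - b2 - b3)
    (B18 : 0 ≤ -a1 - a2 - a3 + b1 + b2 + b3 - y)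
    (B19 : 0 ≤ y - 1)
    (B20 : 0 ≤ d1 - a1 + b1)
    (B21 : 0 ≤ a1 - b1 - d1)
    (B22 : 0 ≤ d1 - 1)
    (B24 : 0 ≤ -d1 + 1)
    (B26 : 0 ≤ a2 - h - 1)
    (B28 : 0 ≤ a2 + a3 - h3 - 1)
    (B30 : 0 ≤ a3 - k - 1)
    (B31 : 0 ≤ n2 - a2 - g - 1)
    (B32 : 0 ≤ a3 + y - g - 1)
    (B33 : 0 ≤ b1 - 1)
    (B34 : 0 ≤ n2 - b2 - 1)
    (B36 : 0 ≤ -y + n2 - b2 + n3 - b3 - 1)
    (D2 : 0 ≤ h - n1 + a1 ∨ 0 ≤ h - a2 + 1)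
    (D3 : 0 ≤ h3 - n1 + a1 ∨ 0 ≤ h3 - a2 - a3 + 1)
    (D4 : 0 ≤ k - n1 + a1 - n2 + a2 ∨ 0 ≤ k - a3 + 1)
    (D5 : 0 ≤ g - n2 + a2 + 1 ∨ 0 ≤ g - a3 - y + 1)
    (D8 : (0 ≤ h ∧ 0 ≤ -p0) ∨ (0 ≤ -h - 1 ∧ 0 ≤ p0 - y))
    (D9 : (0 ≤ h + 1 ∧ 0 ≤ y - p0) ∨ (0 ≤ -h - 2 ∧ 0 ≤ p0 - 2 * y))
    (D11 : (0 ≤ h3 - 1 ∧ 0 ≤ -y - p1) ∨ (0 ≤ -h3 ∧ 0 ≤ p1))
    (D15 : (0 ≤ h ∧ 0 ≤ -y - p2) ∨ (0 ≤ -h - 1 ∧ 0 ≤ p2))
    (D16 : (0 ≤ h + 1 ∧ 0 ≤ -p2) ∨ (0 ≤ -h - 2 ∧ 0 ≤ p2 - y))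
    (D19 : (0 ≤ h3 ∧ 0 ≤ -y - p3) ∨ (0 ≤ -h3 - 1 ∧ 0 ≤ p3))
    (D24 : 0 ≤ -b1 ∨ 0 ≤ -h3 - 1 ∨ 0 ≤ -n2 + b2 - k ∨ 0 ≤ -n2 + b2 - n3 + b3 + y + 1)
    (D25 : 0 ≤ -b1 ∨ 0 ≤ -h - 1 ∨ 0 ≤ -n2 + b2 + 1 ∨ 0 ≤ -n2 + b2 - 2 * n3 + b3 + a3 + y + 1)
    (D26 : 0 ≤ -h - 2 ∨ 0 ≤ -g ∨ 0 ≤ -n3 + a3 + y + 1)
    (D27 : 0 ≤ -h - 1 ∨ 0 ≤ -g ∨ 0 ≤ -n3 + a3 + 1)
    (D28 : 0 ≤ -b1 ∨ 0 ≤ -h3 ∨ 0 ≤ -n2 + b2 - k ∨ 0 ≤ -n2 + b2 - n3 + b3 + 1)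
    (D29 : (0 ≤ h) ∨ (0 ≤ h3 ∨ (0 ≤ -h3 - 1 ∧ 0 ≤ h3 + 1 ∧ 0 ≤ k - 1) ∨ (0 ≤ -h3 - 1 ∧ 0 ≤ h3 + 1 ∧ 0 ≤ -k ∧ 0 ≤ k ∧ 0 ≤ -p3 - y - 1)) ∨ (0 ≤ g - 1))
    (D30 : ((0 ≤ b1 - 1 ∧ 0 ≤ n2 - b2 - 2)) ∨ (0 ≤ k - 1 ∨ (0 ≤ -k ∧ 0 ≤ k ∧ 0 ≤ h3) ∨ (0 ≤ -k ∧ 0 ≤ k ∧ 0 ≤ -h3 - 1 ∧ 0 ≤ h3 + 1 ∧ 0 ≤ -p3 - y - 1)) ∨ (0 ≤ g - 1))
    (D31 : ((0 ≤ b1 - 1 ∧ 0 ≤ -y + n2 - b2 + n3 - b3 - 2)) ∨ (0 ≤ -p0 + n3 - a3 - 2 ∨ (0 ≤ p0 - n3 + a3 + 1 ∧ 0 ≤ -p0 + n3 - a3 - 1 ∧ 0 ≤ h)) ∨ (0 ≤ -p1 - 2 ∨ (0 ≤ p1 + 1 ∧ 0 ≤ -p1 - 1 ∧ 0 ≤ h3) ∨ (0 ≤ p1 + 1 ∧ 0 ≤ -p1 - 1 ∧ 0 ≤ -h3 - 1 ∧ 0 ≤ h3 + 1 ∧ 0 ≤ k)))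
    (D32 : (0 ≤ h ∨ (0 ≤ -h - 1 ∧ 0 ≤ h + 1 ∧ 0 ≤ -p2 + n3 - a3 - y - 2)) ∨ (0 ≤ h3 ∨ (0 ≤ -h3 - 1 ∧ 0 ≤ h3 + 1 ∧ 0 ≤ -p3 - y - 2) ∨ (0 ≤ -h3 - 1 ∧ 0 ≤ h3 + 1 ∧ 0 ≤ p3 + y + 1 ∧ 0 ≤ -p3 - y - 1 ∧ 0 ≤ k))) : False := by
  have E2 := D2
  have E3 := D3
  have E4 := D4
  have E5 := D5
  have E8 := D8
  have E9 := D9
  have E11 := D11
  have E15 := D15
  have E16 := D16
  have E19 := D19
  have E24 : 0 ≤ -h3 - 1 ∨ 0 ≤ -n2 + b2 - k ∨ 0 ≤ -n2 + b2 - n3 + b3 + y + 1 := by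
    rcases D24 with H24 | H24 | H24 | H24
    · linarith only [B33, H24]
    · exact Or.inl H24
    · exact Or.inr (Or.inl H24)
    · exact Or.inr (Or.inr H24)
  have E25 : 0 ≤ -h - 1 ∨ 0 ≤ -n2 + b2 + 1 := by
    rcases D25 with H25 | H25 | H25 | H25
    · linarith only [B33, H25]
    · exact Or.inl H25
    · exact Or.inr H25
    · linarith only [B19, B18, B36, H25, B15, B11]
  have E26 := D26
  have E27 := D27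
  have E28 : 0 ≤ -h3 ∨ 0 ≤ -n2 + b2 - k := by
    rcases D28 with H28 | H28 | H28 | H28
    · linarith only [B33, H28]
    · exact Or.inl H28
    · exact Or.inr H28
    · linarith only [B19, B36, H28]
  have E29 : 0 ≤ h ∨ 0 ≤ h3 ∨ (0 ≤ -h3 - 1 ∧ 0 ≤ h3 + 1 ∧ 0 ≤ k - 1) ∨ (0 ≤ -h3 - 1 ∧ 0 ≤ h3 + 1 ∧ 0 ≤ -k ∧ 0 ≤ k ∧ 0 ≤ -p3 - y - 1) ∨ 0 ≤ g - 1 := by
    rcases D29 with H29 | (H29 | H29 | H29) | H29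
    · exact Or.inl H29
    · exact Or.inr (Or.inl H29)
    · exact Or.inr (Or.inr (Or.inl H29))
    · exact Or.inr (Or.inr (Or.inr (Or.inl H29)))
    · exact Or.inr (Or.inr (Or.inr (Or.inr H29)))
  have E30 : (0 ≤ b1 - 1 ∧ 0 ≤ n2 - b2 - 2) ∨ 0 ≤ k - 1 ∨ (0 ≤ -k ∧ 0 ≤ k ∧ 0 ≤ h3) ∨ (0 ≤ -k ∧ 0 ≤ k ∧ 0 ≤ -h3 - 1 ∧ 0 ≤ h3 + 1 ∧ 0 ≤ -p3 - y - 1) ∨ 0 ≤ g - 1 := by
    rcases D30 with H30 | (H30 | H30 | H30) | H30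
    · exact Or.inl H30
    · exact Or.inr (Or.inl H30)
    · exact Or.inr (Or.inr (Or.inl H30))
    · exact Or.inr (Or.inr (Or.inr (Or.inl H30)))
    · exact Or.inr (Or.inr (Or.inr (Or.inr H30)))
  have E31 : (0 ≤ b1 - 1 ∧ 0 ≤ -y + n2 - b2 + n3 - b3 - 2) ∨ 0 ≤ -p0 + n3 - a3 - 2 ∨ (0 ≤ p0 - n3 + a3 + 1 ∧ 0 ≤ -p0 + n3 - a3 - 1 ∧ 0 ≤ h) ∨ 0 ≤ -p1 - 2 ∨ (0 ≤ p1 + 1 ∧ 0 ≤ -p1 - 1 ∧ 0 ≤ h3) ∨ (0 ≤ p1 + 1 ∧ 0 ≤ -p1 - 1 ∧ 0 ≤ -h3 - 1 ∧ 0 ≤ h3 + 1 ∧ 0 ≤ k) := by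
    rcases D31 with H31 | (H31 | H31) | (H31 | H31 | H31)
    · exact Or.inl H31
    · exact Or.inr (Or.inl H31)
    · exact Or.inr (Or.inr (Or.inl H31))
    · exact Or.inr (Or.inr (Or.inr (Or.inl H31)))
    · exact Or.inr (Or.inr (Or.inr (Or.inr (Or.inl H31))))
    · exact Or.inr (Or.inr (Or.inr (Or.inr (Or.inr H31))))
  have E32 : 0 ≤ h ∨ (0 ≤ -h - 1 ∧ 0 ≤ h + 1 ∧ 0 ≤ -p2 + n3 - a3 - y - 2) ∨ 0 ≤ h3 ∨ (0 ≤ -h3 - 1 ∧ 0 ≤ h3 + 1 ∧ 0 ≤ -p3 - y - 2) ∨ (0 ≤ -h3 - 1 ∧ 0 ≤ h3 + 1 ∧ 0 ≤ p3 + y + 1 ∧ 0 ≤ -p3 - y - 1 ∧ 0 ≤ k) := by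
    rcases D32 with (H32 | H32) | (H32 | H32 | H32)
    · exact Or.inl H32
    · exact Or.inr (Or.inl H32)
    · exact Or.inr (Or.inr (Or.inl H32))
    · exact Or.inr (Or.inr (Or.inr (Or.inl H32)))
    · exact Or.inr (Or.inr (Or.inr (Or.inr H32)))
  rcases E19 with H19 | H19
  · rcases E15 with H15 | H15
    · rcases E25 with H25 | H25
      · linarith only [H25, H15.1]
      · rcases E27 with H27 | H27 | H27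
        · linarith only [H27, H15.1]
        · rcases E5 with H5 | H5
          · linarith only [B16, B22, H27, B21, B34, H5]
          · rcases E30 with H30 | H30 | H30 | H30 | H30
            · linarith only [H30.2, H25]
            · linarith only [B30, H27, H5, B19, H30]
            · linarith only [B30, H5, H27, B19, H30.2.1]
            · linarith only [H30.2.2.1, H19.1]
            · linarith only [H30, H27]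
        · linarith only [H27, B18, B15, B36, B19, H25]
    · rcases E2 with H2 | H2
      · linarith only [H15.1, B6, H2]
      · rcases E8 with H8 | H8
        · linarith only [H15.1, H8.1]
        · rcases E9 with H9 | H9
          · rcases E28 with H28 | H28
            · rcases E11 with H11 | H11
              · linarith only [H11.1, H28]
              · rcases E5 with H5 | H5
                · rcases E26 with H26 | H26 | H26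
                  · linarith only [H9.1, H26]
                  · linarith only [B16, B22, H26, B21, B34, H5]
                  · rcases E31 with H31 | H31 | H31 | H31 | H31 | H31
                    · rcases E24 with H24 | H24 | H24
                      · linarith only [H24, H19.1]
                      · rcases E4 with H4 | H4
                        · linarith only [H31.2, H26, B18, B34, B21, B6, H24, B22, B19, H4]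
                        · linarith only [H31.2, B19, B18, B32, B15, H4, B21, H24, B22, H5, H26]
                      · linarith only [H31.2, H24]
                    · linarith only [H31, H8.2, H26]
                    · linarith only [H15.1, H31.2.2]
                    · linarith only [H31, H11.2]
                    · linarith only [H31.2.1, H11.2]
                    · linarith only [H31.2.1, H11.2]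
                · rcases E4 with H4 | H4
                  · linarith only [B30, B31, H5, B6, B19, H4]
                  · rcases E24 with H24 | H24 | H24
                    · linarith only [H24, H19.1]
                    · linarith only [B28, B34, H4, H15.1, H2, H24, H19.1]
                    · rcases E31 with H31 | H31 | H31 | H31 | H31 | H31
                      · linarith only [H31.2, H24]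
                      · linarith only [B24, B28, H24, B20, B31, H15.1, H2, H5, H31, H8.2, B17, H19.1]
                      · linarith only [H15.1, H31.2.2]
                      · linarith only [H31, H11.2]
                      · linarith only [H31.2.1, H11.2]
                      · linarith only [H31.2.1, H11.2]
            · rcases E4 with H4 | H4
              · linarith only [B16, B22, B34, B21, B6, H28, H4]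
              · linarith only [B28, B34, H4, H15.1, H2, H28, H19.1]
          · linarith only [B1, H9.1, H2]
  · rcases E3 with H3 | H3
    · linarith only [H19.1, B6, H3]
    · rcases E2 with H2 | H2
      · linarith only [B26, B2, H19.1, B6, H3, H2]
      · rcases E16 with H16 | H16
        · rcases E15 with H15 | H15
          · linarith only [B26, H3, H19.1, H15.1, B2]
          · rcases E32 with H32 | H32 | H32 | H32 | H32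
            · linarith only [H32, H15.1]
            · rcases E26 with H26 | H26 | H26
              · linarith only [H16.1, H26]
              · rcases E29 with H29 | H29 | H29 | H29 | H29
                · linarith only [H29, H15.1]
                · linarith only [H19.1, H29]
                · linarith only [B30, H3, H19.1, B1, H29.2.2]
                · linarith only [B19, H19.2, H29.2.2.2.2]
                · linarith only [H29, H26]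
              · linarith only [H15.2, H32.2.2, H26]
            · linarith only [H19.1, H32]
            · linarith only [B19, H19.2, H32.2.2]
            · linarith only [B19, H19.2, H32.2.2.2.1]
        · linarith only [B1, H16.1, H2]

theorem g1 {a1 a2 a3 b1 b2 b3 d1 g h h3 k n1 n2 n3 p0 p2 p3 y : ℤ}
    (B1 : 0 ≤ a2)
    (B2 : 0 ≤ a3)
    (B6 : 0 ≤ n1 - a1)
    (B11 : 0 ≤ n3 - b3)
    (B15 : 0 ≤ a1 + a2 - b1 - b2)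
    (B16 : 0 ≤ -a1 - a2 + b1 + b2)
    (B18 : 0 ≤ -a1 - a2 - a3 + b1 + b2 + b3 - y)
    (B19 : 0 ≤ y - 1)
    (B21 : 0 ≤ a1 - b1 - d1)
    (B22 : 0 ≤ d1 - 1)
    (B26 : 0 ≤ a2 - h - 1)
    (B28 : 0 ≤ a2 + a3 - h3 - 1)
    (B30 : 0 ≤ a3 - k - 1)
    (B33 : 0 ≤ b1 - 1)
    (B34 : 0 ≤ n2 - b2 - 1)
    (B36 : 0 ≤ -p0 + n3 - a3 - 2)
    (D2 : 0 ≤ h - n1 + a1 ∨ 0 ≤ h - a2 + 1)
    (D3 : 0 ≤ h3 - n1 + a1 ∨ 0 ≤ h3 - a2 - a3 + 1)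
    (D5 : 0 ≤ g - n2 + a2 + 1 ∨ 0 ≤ g - a3 - y + 1)
    (D8 : (0 ≤ h ∧ 0 ≤ -p0) ∨ (0 ≤ -h - 1 ∧ 0 ≤ p0 - y))
    (D15 : (0 ≤ h ∧ 0 ≤ -y - p2) ∨ (0 ≤ -h - 1 ∧ 0 ≤ p2))
    (D16 : (0 ≤ h + 1 ∧ 0 ≤ -p2) ∨ (0 ≤ -h - 2 ∧ 0 ≤ p2 - y))
    (D19 : (0 ≤ h3 ∧ 0 ≤ -y - p3) ∨ (0 ≤ -h3 - 1 ∧ 0 ≤ p3))
    (D22 : 0 ≤ n2 - b2 - 2 ∨ 0 ≤ -y + n2 - b2 + n3 - b3 - 1)
    (D23 : 0 ≤ -h - 1 ∨ 0 ≤ -g ∨ 0 ≤ -n3 + a3 + 1)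
    (D25 : 0 ≤ -h - 2 ∨ 0 ≤ -g ∨ 0 ≤ -n3 + a3 + y + 1)
    (D26 : 0 ≤ -b1 ∨ 0 ≤ -h - 1 ∨ 0 ≤ -n2 + b2 + 1 ∨ 0 ≤ -n2 + b2 - 2 * n3 + b3 + a3 + y + 1)
    (D27 : ((0 ≤ b1 - 1 ∧ 0 ≤ n2 - b2 - 2)) ∨ (0 ≤ k - 1 ∨ (0 ≤ -k ∧ 0 ≤ k ∧ 0 ≤ h3) ∨ (0 ≤ -k ∧ 0 ≤ k ∧ 0 ≤ -h3 - 1 ∧ 0 ≤ h3 + 1 ∧ 0 ≤ -p3 - y - 1)) ∨ (0 ≤ g - 1))
    (D28 : (0 ≤ h) ∨ (0 ≤ h3 ∨ (0 ≤ -h3 - 1 ∧ 0 ≤ h3 + 1 ∧ 0 ≤ k - 1) ∨ (0 ≤ -h3 - 1 ∧ 0 ≤ h3 + 1 ∧ 0 ≤ -k ∧ 0 ≤ k ∧ 0 ≤ -p3 - y - 1)) ∨ (0 ≤ g - 1)) : False := by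
  have E2 := D2
  have E3 := D3
  have E5 := D5
  have E8 := D8
  have E15 := D15
  have E16 := D16
  have E19 := D19
  have E22 := D22
  have E23 := D23
  have E25 := D25
  have E26 : 0 ≤ -h - 1 ∨ 0 ≤ -n2 + b2 + 1 ∨ 0 ≤ -n2 + b2 - 2 * n3 + b3 + a3 + y + 1 := by
    rcases D26 with H26 | H26 | H26 | H26
    · linarith only [B33, H26]
    · exact Or.inl H26
    · exact Or.inr (Or.inl H26)
    · exact Or.inr (Or.inr H26)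
  have E27 : (0 ≤ b1 - 1 ∧ 0 ≤ n2 - b2 - 2) ∨ 0 ≤ k - 1 ∨ (0 ≤ -k ∧ 0 ≤ k ∧ 0 ≤ h3) ∨ (0 ≤ -k ∧ 0 ≤ k ∧ 0 ≤ -h3 - 1 ∧ 0 ≤ h3 + 1 ∧ 0 ≤ -p3 - y - 1) ∨ 0 ≤ g - 1 := by
    rcases D27 with H27 | (H27 | H27 | H27) | H27
    · exact Or.inl H27
    · exact Or.inr (Or.inl H27)
    · exact Or.inr (Or.inr (Or.inl H27))
    · exact Or.inr (Or.inr (Or.inr (Or.inl H27)))
    · exact Or.inr (Or.inr (Or.inr (Or.inr H27)))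
  have E28 : 0 ≤ h ∨ 0 ≤ h3 ∨ (0 ≤ -h3 - 1 ∧ 0 ≤ h3 + 1 ∧ 0 ≤ k - 1) ∨ (0 ≤ -h3 - 1 ∧ 0 ≤ h3 + 1 ∧ 0 ≤ -k ∧ 0 ≤ k ∧ 0 ≤ -p3 - y - 1) ∨ 0 ≤ g - 1 := by
    rcases D28 with H28 | (H28 | H28 | H28) | H28
    · exact Or.inl H28
    · exact Or.inr (Or.inl H28)
    · exact Or.inr (Or.inr (Or.inl H28))
    · exact Or.inr (Or.inr (Or.inr (Or.inl H28)))
    · exact Or.inr (Or.inr (Or.inr (Or.inr H28)))
  rcases E19 with H19 | H19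
  · rcases E8 with H8 | H8
    · rcases E26 with H26 | H26 | H26
      · linarith only [H26, H8.1]
      · rcases E22 with H22 | H22
        · linarith only [H22, H26]
        · rcases E23 with H23 | H23 | H23
          · linarith only [H23, H8.1]
          · rcases E5 with H5 | H5
            · linarith only [B16, B22, H23, B21, B34, H5]
            · rcases E27 with H27 | H27 | H27 | H27 | H27
              · linarith only [H27.2, H26]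
              · linarith only [B30, H23, H5, B19, H27]
              · linarith only [B30, H5, H23, B19, H27.2.1]
              · linarith only [H27.2.2.1, H19.1]
              · linarith only [H27, H23]
          · linarith only [H23, B18, B15, H22, B19, H26]
      · rcases E22 with H22 | H22
        · linarith only [H22, B11, B18, H26, B15]
        · linarith only [H22, B18, B15, H26, B19, B11]
    · rcases E2 with H2 | H2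
      · linarith only [H8.1, B6, H2]
      · rcases E25 with H25 | H25 | H25
        · linarith only [B1, H25, H2]
        · rcases E5 with H5 | H5
          · linarith only [B16, B22, H25, B21, B34, H5]
          · linarith only [B28, H25, H8.1, H2, H5, B19, H19.1]
        · linarith only [H8.2, B36, H25]
  · rcases E3 with H3 | H3
    · linarith only [H19.1, B6, H3]
    · rcases E15 with H15 | H15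
      · linarith only [B26, B2, H19.1, H3, H15.1]
      · rcases E2 with H2 | H2
        · linarith only [H2, B6, H15.1]
        · rcases E16 with H16 | H16
          · rcases E8 with H8 | H8
            · linarith only [H8.1, H15.1]
            · rcases E25 with H25 | H25 | H25
              · linarith only [H16.1, H25]
              · rcases E28 with H28 | H28 | H28 | H28 | H28
                · linarith only [H28, H15.1]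
                · linarith only [H19.1, H28]
                · linarith only [B30, H3, H19.1, B1, H28.2.2]
                · linarith only [B19, H19.2, H28.2.2.2.2]
                · linarith only [H28, H25]
              · linarith only [H8.2, B36, H25]
          · linarith only [B1, H16.1, H2]

theorem g2 {a1 a2 a3 b1 b2 b3 d1 g h h3 k n1 n2 n3 p1 p2 p3 y : ℤ}
    (B2 : 0 ≤ a3)
    (B11 : 0 ≤ n3 - b3)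
    (B15 : 0 ≤ a1 + a2 - b1 - b2)
    (B16 : 0 ≤ -a1 - a2 + b1 + b2)
    (B18 : 0 ≤ -a1 - a2 - a3 + b1 + b2 + b3 - y)
    (B19 : 0 ≤ y - 1)
    (B21 : 0 ≤ a1 - b1 - d1)
    (B22 : 0 ≤ d1 - 1)
    (B27 : 0 ≤ n1 - a1 - h3)
    (B28 : 0 ≤ a2 + a3 - h3 - 1)
    (B32 : 0 ≤ a3 + y - g - 1)
    (B33 : 0 ≤ b1 - 1)
    (B34 : 0 ≤ n2 - b2 - 1)
    (B35 : 0 ≤ -p1 - 1)
    (D1 : (0 ≤ a2 - 1 ∧ 0 ≤ n3 - a3 - 1) ∨ (0 ≤ b2 - 1 ∧ 0 ≤ n3 - b3 - 1))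
    (D2 : 0 ≤ h - n1 + a1 ∨ 0 ≤ h - a2 + 1)
    (D4 : 0 ≤ k - n1 + a1 - n2 + a2 ∨ 0 ≤ k - a3 + 1)
    (D11 : (0 ≤ h3 - 1 ∧ 0 ≤ -y - p1) ∨ (0 ≤ -h3 ∧ 0 ≤ p1))
    (D15 : (0 ≤ h ∧ 0 ≤ -y - p2) ∨ (0 ≤ -h - 1 ∧ 0 ≤ p2))
    (D22 : 0 ≤ n2 - b2 - 2 ∨ 0 ≤ -y + n2 - b2 + n3 - b3 - 1)
    (D24 : 0 ≤ -b1 ∨ 0 ≤ -h3 ∨ 0 ≤ -n2 + b2 - k ∨ 0 ≤ -n2 + b2 - n3 + b3 + 1)
    (D25 : 0 ≤ -h - 2 ∨ 0 ≤ -g ∨ 0 ≤ -n3 + a3 + y + 1)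
    (D26 : ((0 ≤ b1 - 1 ∧ 0 ≤ n2 - b2 - 2)) ∨ (0 ≤ k - 1 ∨ (0 ≤ -k ∧ 0 ≤ k ∧ 0 ≤ h3) ∨ (0 ≤ -k ∧ 0 ≤ k ∧ 0 ≤ -h3 - 1 ∧ 0 ≤ h3 + 1 ∧ 0 ≤ -p3 - y - 1)) ∨ (0 ≤ g - 1)) : False := by
  have E1 := D1
  have E2 := D2
  have E4 := D4
  have E11 : (0 ≤ h3 - 1 ∧ 0 ≤ -y - p1) := by
    rcases D11 with H11 | H11
    · exact H11
    · linarith only [B35, H11.2]
  have E15 := D15
  have E22 := D22
  have E24 : 0 ≤ -h3 ∨ 0 ≤ -n2 + b2 - k ∨ 0 ≤ -n2 + b2 - n3 + b3 + 1 := by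
    rcases D24 with H24 | H24 | H24 | H24
    · linarith only [B33, H24]
    · exact Or.inl H24
    · exact Or.inr (Or.inl H24)
    · exact Or.inr (Or.inr H24)
  have E25 := D25
  have E26 : (0 ≤ b1 - 1 ∧ 0 ≤ n2 - b2 - 2) ∨ 0 ≤ k - 1 ∨ (0 ≤ -k ∧ 0 ≤ k ∧ 0 ≤ h3) ∨ (0 ≤ -k ∧ 0 ≤ k ∧ 0 ≤ -h3 - 1 ∧ 0 ≤ h3 + 1 ∧ 0 ≤ -p3 - y - 1) ∨ 0 ≤ g - 1 := by
    rcases D26 with H26 | (H26 | H26 | H26) | H26
    · exact Or.inl H26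
    · exact Or.inr (Or.inl H26)
    · exact Or.inr (Or.inr (Or.inl H26))
    · exact Or.inr (Or.inr (Or.inr (Or.inl H26)))
    · exact Or.inr (Or.inr (Or.inr (Or.inr H26)))
  have H11 := E11
  rcases E15 with H15 | H15
  · rcases E24 with H24 | H24 | H24
    · linarith only [H11.1, H24]
    · rcases E4 with H4 | H4
      · linarith only [B16, B22, B34, B27, B21, H11.1, H24, H4]
      · rcases E22 with H22 | H22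
        · linarith only [H22, H4, H24, B2]
        · rcases E26 with H26 | H26 | H26 | H26 | H26
          · linarith only [H26.2, H4, H24, B2]
          · linarith only [B34, H24, H26]
          · linarith only [B34, H24, H26.2.1]
          · linarith only [H11.1, H26.2.2.1]
          · rcases E25 with H25 | H25 | H25
            · linarith only [H25, H15.1]
            · linarith only [H26, H25]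
            · linarith only [B15, B32, H26, B18, H24, H22, H4, H25]
    · rcases E22 with H22 | H22
      · linarith only [H22, H24, B11]
      · linarith only [H22, B19, H24]
  · rcases E2 with H2 | H2
    · linarith only [H15.1, B27, H11.1, H2]
    · rcases E1 with H1 | H1
      · linarith only [H1.1, H15.1, H2]
      · rcases E24 with H24 | H24 | H24
        · linarith only [H11.1, H24]
        · rcases E4 with H4 | H4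
          · linarith only [B16, B22, B34, B27, B21, H11.1, H24, H4]
          · linarith only [B28, B34, H4, H15.1, H11.1, H24, H2]
        · linarith only [B34, H1.2, H24]

theorem g3_l0 {a1 a2 a3 b1 b2 b3 h h3 k n1 n2 n3 p0 p1 p2 y : ℤ}
    (B10 : 0 ≤ n2 - b2)
    (B13 : 0 ≤ n2 - 1)
    (B27 : 0 ≤ n1 - a1 - h3)
    (B28 : 0 ≤ a2 + a3 - h3 - 1)
    (E4 : 0 ≤ k - n1 + a1 - n2 + a2 ∨ 0 ≤ k - a3 + 1)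
    (E11 : (0 ≤ h3 - 1 ∧ 0 ≤ -y - p1) ∨ (0 ≤ -h3 ∧ 0 ≤ p1))
    (E22 : 0 ≤ k - 1 ∨ 0 ≤ -p1 - 1)
    (E24 : 0 ≤ -h3 - 1 ∨ 0 ≤ -n2 + b2 - k ∨ 0 ≤ -n2 + b2 - n3 + b3 + y + 1)
    (E25 : 0 ≤ -h3 ∨ 0 ≤ -n2 + b2 - k)
    (E28 : 0 ≤ -h - h3 - 2 ∨ 0 ≤ -k ∨ 0 ≤ -n3 + a3 + y + 1)
    (E30 : (0 ≤ b1 - 1 ∧ 0 ≤ -y + n2 - b2 + n3 - b3 - 2) ∨ 0 ≤ -p0 + n3 - a3 - 2 ∨ (0 ≤ p0 - n3 + a3 + 1 ∧ 0 ≤ -p0 + n3 - a3 - 1 ∧ 0 ≤ h) ∨ 0 ≤ -p1 - 2 ∨ (0 ≤ p1 + 1 ∧ 0 ≤ -p1 - 1 ∧ 0 ≤ h3) ∨ (0 ≤ p1 + 1 ∧ 0 ≤ -p1 - 1 ∧ 0 ≤ -h3 - 1 ∧ 0 ≤ h3 + 1 ∧ 0 ≤ k))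
    (H2 : 0 ≤ h - a2 + 1)
    (H8 : 0 ≤ -h - 1 ∧ 0 ≤ p0 - y)
    (H9 : 0 ≤ h + 1 ∧ 0 ≤ y - p0)
    (H12 : 0 ≤ h3 ∧ 0 ≤ -p1)
    (H15 : 0 ≤ -h - 1 ∧ 0 ≤ p2) : False := by
  rcases E11 with H11 | H11
  · rcases E25 with H25 | H25
    · linarith only [H11.1, H25]
    · rcases E4 with H4 | H4
      · linarith only [B13, H2, B10, H15.1, B27, H11.1, H25, H4]
      · linarith only [B28, H2, B10, H15.1, H11.1, H25, H4]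
  · rcases E22 with H22 | H22
    · rcases E24 with H24 | H24 | H24
      · linarith only [H24, H12.1]
      · linarith only [B10, H24, H22]
      · rcases E28 with H28 | H28 | H28
        · linarith only [H9.1, H12.1, H28]
        · linarith only [H22, H28]
        · rcases E30 with H30 | H30 | H30 | H30 | H30 | H30
          · linarith only [H30.2, H24]
          · linarith only [H30, H8.2, H28]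
          · linarith only [H30.2.2, H15.1]
          · linarith only [H30, H11.2]
          · linarith only [H30.2.1, H11.2]
          · linarith only [H30.2.1, H11.2]
    · linarith only [H22, H11.2]

theorem g3 {a1 a2 a3 b1 b2 b3 d1 g h h3 k n1 n2 n3 p0 p1 p2 y : ℤ}
    (B1 : 0 ≤ a2)
    (B6 : 0 ≤ n1 - a1)
    (B10 : 0 ≤ n2 - b2)
    (B11 : 0 ≤ n3 - b3)
    (B13 : 0 ≤ n2 - 1)
    (B15 : 0 ≤ a1 + a2 - b1 - b2)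
    (B18 : 0 ≤ -a1 - a2 - a3 + b1 + b2 + b3 - y)
    (B19 : 0 ≤ y - 1)
    (B20 : 0 ≤ d1 - a1 + b1)
    (B24 : 0 ≤ -d1 + 1)
    (B26 : 0 ≤ a2 - h - 1)
    (B27 : 0 ≤ n1 - a1 - h3)
    (B28 : 0 ≤ a2 + a3 - h3 - 1)
    (B30 : 0 ≤ a3 - k - 1)
    (B31 : 0 ≤ n2 - a2 - g - 1)
    (B33 : 0 ≤ k)
    (B34 : 0 ≤ b1 - 1)
    (B35 : 0 ≤ -y + n2 - b2 + n3 - b3 - 1)
    (D2 : 0 ≤ h - n1 + a1 ∨ 0 ≤ h - a2 + 1)
    (D3 : 0 ≤ h3 - n1 + a1 ∨ 0 ≤ h3 - a2 - a3 + 1)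
    (D4 : 0 ≤ k - n1 + a1 - n2 + a2 ∨ 0 ≤ k - a3 + 1)
    (D8 : (0 ≤ h ∧ 0 ≤ -p0) ∨ (0 ≤ -h - 1 ∧ 0 ≤ p0 - y))
    (D9 : (0 ≤ h + 1 ∧ 0 ≤ y - p0) ∨ (0 ≤ -h - 2 ∧ 0 ≤ p0 - 2 * y))
    (D11 : (0 ≤ h3 - 1 ∧ 0 ≤ -y - p1) ∨ (0 ≤ -h3 ∧ 0 ≤ p1))
    (D12 : (0 ≤ h3 ∧ 0 ≤ -p1) ∨ (0 ≤ -h3 - 1 ∧ 0 ≤ p1 - y))
    (D15 : (0 ≤ h ∧ 0 ≤ -y - p2) ∨ (0 ≤ -h - 1 ∧ 0 ≤ p2))
    (D22 : 0 ≤ k - 1 ∨ 0 ≤ -p1 - 1)
    (D24 : 0 ≤ -b1 ∨ 0 ≤ -h3 - 1 ∨ 0 ≤ -n2 + b2 - k ∨ 0 ≤ -n2 + b2 - n3 + b3 + y + 1)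
    (D25 : 0 ≤ -b1 ∨ 0 ≤ -h3 ∨ 0 ≤ -n2 + b2 - k ∨ 0 ≤ -n2 + b2 - n3 + b3 + 1)
    (D26 : 0 ≤ -h - h3 - 1 ∨ 0 ≤ -k ∨ 0 ≤ -n3 + a3 + 1)
    (D27 : 0 ≤ -b1 ∨ 0 ≤ -h - 1 ∨ 0 ≤ -n2 + b2 + 1 ∨ 0 ≤ -n2 + b2 - 2 * n3 + b3 + a3 + y + 1)
    (D28 : 0 ≤ -h - h3 - 2 ∨ 0 ≤ -k ∨ 0 ≤ -n3 + a3 + y + 1)
    (D29 : 0 ≤ -h3 ∨ 0 ≤ -k - g - 1 ∨ 0 ≤ -y + 1)
    (D30 : ((0 ≤ b1 - 1 ∧ 0 ≤ -y + n2 - b2 + n3 - b3 - 2)) ∨ (0 ≤ -p0 + n3 - a3 - 2 ∨ (0 ≤ p0 - n3 + a3 + 1 ∧ 0 ≤ -p0 + n3 - a3 - 1 ∧ 0 ≤ h)) ∨ (0 ≤ -p1 - 2 ∨ (0 ≤ p1 + 1 ∧ 0 ≤ -p1 - 1 ∧ 0 ≤ h3) ∨ (0 ≤ p1 + 1 ∧ 0 ≤ -p1 - 1 ∧ 0 ≤ -h3 - 1 ∧ 0 ≤ h3 + 1 ∧ 0 ≤ k)))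
    (D31 : ((0 ≤ b1 - 1 ∧ 0 ≤ n2 - b2 - 2) ∨ (0 ≤ b1 - 1 ∧ 0 ≤ -n2 + b2 + 1 ∧ 0 ≤ n2 - b2 - 1 ∧ 0 ≤ n2 - b2 + n3 - b3 + y - 2) ∨ (0 ≤ b1 - 1 ∧ 0 ≤ -n2 + b2 + 1 ∧ 0 ≤ n2 - b2 - 1 ∧ 0 ≤ -n2 + b2 - n3 + b3 - y + 1 ∧ 0 ≤ n2 - b2 + n3 - b3 + y - 1 ∧ 0 ≤ -y + n2 - b2 + n3 - b3 - 1)) ∨ (0 ≤ k - 1) ∨ (0 ≤ g - 1 ∨ (0 ≤ -g ∧ 0 ≤ g ∧ 0 ≤ y - 2))) : False := by
  have E2 := D2
  have E3 := D3
  have E4 := D4
  have E8 := D8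
  have E9 := D9
  have E11 := D11
  have E12 := D12
  have E15 := D15
  have E22 := D22
  have E24 : 0 ≤ -h3 - 1 ∨ 0 ≤ -n2 + b2 - k ∨ 0 ≤ -n2 + b2 - n3 + b3 + y + 1 := by
    rcases D24 with H24 | H24 | H24 | H24
    · linarith only [B34, H24]
    · exact Or.inl H24
    · exact Or.inr (Or.inl H24)
    · exact Or.inr (Or.inr H24)
  have E25 : 0 ≤ -h3 ∨ 0 ≤ -n2 + b2 - k := by
    rcases D25 with H25 | H25 | H25 | H25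
    · linarith only [B34, H25]
    · exact Or.inl H25
    · exact Or.inr H25
    · linarith only [B19, B35, H25]
  have E26 := D26
  have E27 : 0 ≤ -h - 1 ∨ 0 ≤ -n2 + b2 + 1 := by
    rcases D27 with H27 | H27 | H27 | H27
    · linarith only [B34, H27]
    · exact Or.inl H27
    · exact Or.inr H27
    · linarith only [B19, B15, B35, H27, B11, B18]
  have E28 := D28
  have E29 := D29
  have E30 : (0 ≤ b1 - 1 ∧ 0 ≤ -y + n2 - b2 + n3 - b3 - 2) ∨ 0 ≤ -p0 + n3 - a3 - 2 ∨ (0 ≤ p0 - n3 + a3 + 1 ∧ 0 ≤ -p0 + n3 - a3 - 1 ∧ 0 ≤ h) ∨ 0 ≤ -p1 - 2 ∨ (0 ≤ p1 + 1 ∧ 0 ≤ -p1 - 1 ∧ 0 ≤ h3) ∨ (0 ≤ p1 + 1 ∧ 0 ≤ -p1 - 1 ∧ 0 ≤ -h3 - 1 ∧ 0 ≤ h3 + 1 ∧ 0 ≤ k) := by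
    rcases D30 with H30 | (H30 | H30) | (H30 | H30 | H30)
    · exact Or.inl H30
    · exact Or.inr (Or.inl H30)
    · exact Or.inr (Or.inr (Or.inl H30))
    · exact Or.inr (Or.inr (Or.inr (Or.inl H30)))
    · exact Or.inr (Or.inr (Or.inr (Or.inr (Or.inl H30))))
    · exact Or.inr (Or.inr (Or.inr (Or.inr (Or.inr H30))))
  have E31 : (0 ≤ b1 - 1 ∧ 0 ≤ n2 - b2 - 2) ∨ (0 ≤ b1 - 1 ∧ 0 ≤ -n2 + b2 + 1 ∧ 0 ≤ n2 - b2 - 1 ∧ 0 ≤ n2 - b2 + n3 - b3 + y - 2) ∨ 0 ≤ k - 1 ∨ 0 ≤ g - 1 ∨ (0 ≤ -g ∧ 0 ≤ g ∧ 0 ≤ y - 2) := by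
    rcases D31 with (H31 | H31 | H31) | H31 | (H31 | H31)
    · exact Or.inl H31
    · exact Or.inr (Or.inl H31)
    · linarith only [B19, B35, H31.2.2.2.1]
    · exact Or.inr (Or.inr (Or.inl H31))
    · exact Or.inr (Or.inr (Or.inr (Or.inl H31)))
    · exact Or.inr (Or.inr (Or.inr (Or.inr H31)))
  rcases E15 with H15 | H15
  · rcases E27 with H27 | H27
    · linarith only [H27, H15.1]
    · rcases E11 with H11 | H11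
      · rcases E26 with H26 | H26 | H26
        · linarith only [H11.1, H26, H15.1]
        · rcases E25 with H25 | H25
          · linarith only [H11.1, H25]
          · rcases E31 with H31 | H31 | H31 | H31 | H31
            · linarith only [H31.2, H25, B33]
            · linarith only [H31.2.2.1, H25, B33]
            · linarith only [H26, H31]
            · linarith only [B15, H31, B20, B31, B24, H25, B33]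
            · rcases E29 with H29 | H29 | H29
              · linarith only [H11.1, H29]
              · linarith only [H31.2.1, H29, B33]
              · linarith only [H31.2.2, H29]
        · linarith only [H26, B35, H27, B18, B19, B15]
      · rcases E3 with H3 | H3
        · rcases E22 with H22 | H22
          · rcases E26 with H26 | H26 | H26
            · linarith only [B6, H15.1, H26, H3]
            · linarith only [H26, H22]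
            · linarith only [H26, B35, H27, B18, B19, B15]
          · linarith only [H11.2, H22]
        · linarith only [B30, H3, H15.1, B33, B26, H11.1]
  · rcases E2 with H2 | H2
    · linarith only [H15.1, B6, H2]
    · rcases E8 with H8 | H8
      · linarith only [H15.1, H8.1]
      · rcases E9 with H9 | H9
        · rcases E3 with H3 | H3
          · rcases E12 with H12 | H12
            · exact g3_l0 B10 B13 B27 B28 E4 E11 E22 E24 E25 E28 E30 H2 H8 H9 H12 H15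
            · linarith only [H12.1, B6, H3]
          · rcases E12 with H12 | H12
            · exact g3_l0 B10 B13 B27 B28 E4 E11 E22 E24 E25 E28 E30 H2 H8 H9 H12 H15
            · linarith only [B30, H3, H12.1, B1, B33]
        · linarith only [H9.1, B1, H2]

theorem g4_l0 {a2 a3 h h3 k p1 p2 y : ℤ}
    (B28 : 0 ≤ a2 + a3 - h3 - 1)
    (E11 : (0 ≤ h3 - 1 ∧ 0 ≤ -y - p1) ∨ (0 ≤ -h3 ∧ 0 ≤ p1))
    (E22 : 0 ≤ k - 1 ∨ 0 ≤ -p1 - 1)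
    (H2 : 0 ≤ h - a2 + 1)
    (H4 : 0 ≤ k - a3 + 1)
    (H15 : 0 ≤ -h - 1 ∧ 0 ≤ p2)
    (H25 : 0 ≤ -k) : False := by
  rcases E11 with H11 | H11
  · linarith only [B28, H2, H15.1, H11.1, H25, H4]
  · rcases E22 with H22 | H22
    · linarith only [H25, H22]
    · linarith only [H11.2, H22]

theorem g4 {a1 a2 a3 b1 b2 b3 d1 g h h3 k n1 n2 n3 p0 p1 p2 y : ℤ}
    (B1 : 0 ≤ a2)
    (B6 : 0 ≤ n1 - a1)
    (B11 : 0 ≤ n3 - b3)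
    (B13 : 0 ≤ n2 - 1)
    (B15 : 0 ≤ a1 + a2 - b1 - b2)
    (B16 : 0 ≤ -a1 - a2 + b1 + b2)
    (B18 : 0 ≤ -a1 - a2 - a3 + b1 + b2 + b3 - y)
    (B19 : 0 ≤ y - 1)
    (B21 : 0 ≤ a1 - b1 - d1)
    (B22 : 0 ≤ d1 - 1)
    (B25 : 0 ≤ n1 - a1 - h)
    (B26 : 0 ≤ a2 - h - 1)
    (B27 : 0 ≤ n1 - a1 - h3)
    (B28 : 0 ≤ a2 + a3 - h3 - 1)
    (B30 : 0 ≤ a3 - k - 1)
    (B33 : 0 ≤ k)
    (B35 : 0 ≤ -p0 + n3 - a3 - 2)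
    (D0 : (0 ≤ a1 - 1 ∧ 0 ≤ n2 - a2 - 1) ∨ (0 ≤ b1 - 1 ∧ 0 ≤ n2 - b2 - 1))
    (D2 : 0 ≤ h - n1 + a1 ∨ 0 ≤ h - a2 + 1)
    (D3 : 0 ≤ h3 - n1 + a1 ∨ 0 ≤ h3 - a2 - a3 + 1)
    (D4 : 0 ≤ k - n1 + a1 - n2 + a2 ∨ 0 ≤ k - a3 + 1)
    (D5 : 0 ≤ g - n2 + a2 + 1 ∨ 0 ≤ g - a3 - y + 1)
    (D7 : (0 ≤ h - 1 ∧ 0 ≤ -y - p0) ∨ (0 ≤ -h ∧ 0 ≤ p0))
    (D8 : (0 ≤ h ∧ 0 ≤ -p0) ∨ (0 ≤ -h - 1 ∧ 0 ≤ p0 - y))
    (D9 : (0 ≤ h + 1 ∧ 0 ≤ y - p0) ∨ (0 ≤ -h - 2 ∧ 0 ≤ p0 - 2 * y))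
    (D11 : (0 ≤ h3 - 1 ∧ 0 ≤ -y - p1) ∨ (0 ≤ -h3 ∧ 0 ≤ p1))
    (D15 : (0 ≤ h ∧ 0 ≤ -y - p2) ∨ (0 ≤ -h - 1 ∧ 0 ≤ p2))
    (D22 : 0 ≤ k - 1 ∨ 0 ≤ -p1 - 1)
    (D23 : 0 ≤ -h - h3 - 1 ∨ 0 ≤ -k ∨ 0 ≤ -n3 + a3 + 1)
    (D24 : 0 ≤ -h3 ∨ 0 ≤ -k - g - 1 ∨ 0 ≤ -y + 1)
    (D25 : 0 ≤ -h - h3 - 2 ∨ 0 ≤ -k ∨ 0 ≤ -n3 + a3 + y + 1)
    (D26 : 0 ≤ -h ∨ 0 ≤ -g ∨ 0 ≤ -n3 + a3 - y + 1)
    (D27 : 0 ≤ -h - 1 ∨ 0 ≤ -g ∨ 0 ≤ -n3 + a3 + 1)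
    (D28 : ((0 ≤ b1 - 1 ∧ 0 ≤ n2 - b2 - 2) ∨ (0 ≤ b1 - 1 ∧ 0 ≤ -n2 + b2 + 1 ∧ 0 ≤ n2 - b2 - 1 ∧ 0 ≤ n2 - b2 + n3 - b3 + y - 2) ∨ (0 ≤ b1 - 1 ∧ 0 ≤ -n2 + b2 + 1 ∧ 0 ≤ n2 - b2 - 1 ∧ 0 ≤ -n2 + b2 - n3 + b3 - y + 1 ∧ 0 ≤ n2 - b2 + n3 - b3 + y - 1 ∧ 0 ≤ -y + n2 - b2 + n3 - b3 - 1)) ∨ (0 ≤ k - 1) ∨ (0 ≤ g - 1 ∨ (0 ≤ -g ∧ 0 ≤ g ∧ 0 ≤ y - 2)))
    (D29 : ((0 ≤ b1 - 1 ∧ 0 ≤ n2 - b2 + n3 - b3 + y - 2) ∨ (0 ≤ b1 - 1 ∧ 0 ≤ -n2 + b2 - n3 + b3 - y + 1 ∧ 0 ≤ n2 - b2 + n3 - b3 + y - 1 ∧ 0 ≤ n2 - b2 - 2) ∨ (0 ≤ b1 - 1 ∧ 0 ≤ -n2 + b2 - n3 + b3 - y + 1 ∧ 0 ≤ n2 - b2 + n3 - b3 + y - 1 ∧ 0 ≤ -n2 + b2 + 1 ∧ 0 ≤ n2 - b2 - 1 ∧ 0 ≤ -y + n2 - b2 + n3 - b3 - 1)) ∨ (0 ≤ n3 - a3 - 2) ∨ (0 ≤ y - 2 ∨ (0 ≤ -y + 1 ∧ 0 ≤ y - 1 ∧ 0 ≤ g - 1))) : False := by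
  have E0 := D0
  have E2 := D2
  have E3 := D3
  have E4 := D4
  have E5 := D5
  have E7 := D7
  have E8 := D8
  have E9 := D9
  have E11 := D11
  have E15 := D15
  have E22 := D22
  have E23 := D23
  have E24 := D24
  have E25 := D25
  have E26 : 0 ≤ -h ∨ 0 ≤ -g := by
    rcases D26 with H26 | H26 | H26
    · exact Or.inl H26
    · exact Or.inr H26
    · linarith only [B19, B11, B15, H26, B18]
  have E27 := D27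
  have E28 : (0 ≤ b1 - 1 ∧ 0 ≤ n2 - b2 - 2) ∨ (0 ≤ b1 - 1 ∧ 0 ≤ -n2 + b2 + 1 ∧ 0 ≤ n2 - b2 - 1 ∧ 0 ≤ n2 - b2 + n3 - b3 + y - 2) ∨ 0 ≤ k - 1 ∨ 0 ≤ g - 1 ∨ (0 ≤ -g ∧ 0 ≤ g ∧ 0 ≤ y - 2) := by
    rcases D28 with (H28 | H28 | H28) | H28 | (H28 | H28)
    · exact Or.inl H28
    · exact Or.inr (Or.inl H28)
    · linarith only [B19, H28.2.2.2.2.2, H28.2.2.2.1]
    · exact Or.inr (Or.inr (Or.inl H28))
    · exact Or.inr (Or.inr (Or.inr (Or.inl H28)))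
    · exact Or.inr (Or.inr (Or.inr (Or.inr H28)))
  have E29 : (0 ≤ b1 - 1 ∧ 0 ≤ n2 - b2 + n3 - b3 + y - 2) ∨ 0 ≤ n3 - a3 - 2 ∨ 0 ≤ y - 2 ∨ (0 ≤ -y + 1 ∧ 0 ≤ y - 1 ∧ 0 ≤ g - 1) := by
    rcases D29 with (H29 | H29 | H29) | H29 | (H29 | H29)
    · exact Or.inl H29
    · linarith only [H29.2.2.2, B19, B11, H29.2.1]
    · linarith only [B19, H29.2.2.2.2.2, H29.2.1]
    · exact Or.inr (Or.inl H29)
    · exact Or.inr (Or.inr (Or.inl H29))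
    · exact Or.inr (Or.inr (Or.inr H29))
  rcases E15 with H15 | H15
  · rcases E11 with H11 | H11
    · rcases E7 with H7 | H7
      · rcases E26 with H26 | H26
        · linarith only [H26, H7.1]
        · rcases E5 with H5 | H5
          · rcases E0 with H0 | H0
            · rcases E24 with H24 | H24 | H24
              · linarith only [H11.1, H24]
              · linarith only [H0.2, B33, H24, H5]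
              · rcases E28 with H28 | H28 | H28 | H28 | H28
                · linarith only [H28.2, B16, H26, B21, B22, H5]
                · linarith only [B16, B21, B22, H26, H5, H28.2.2.1]
                · rcases E23 with H23 | H23 | H23
                  · linarith only [H11.1, H23, H7.1]
                  · linarith only [H23, H28]
                  · rcases E29 with H29 | H29 | H29 | H29
                    · linarith only [H29.2, B18, B21, B22, H26, H5, H23]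
                    · linarith only [H29, H23]
                    · linarith only [H29, H24]
                    · linarith only [H29.2.2, H26]
                · linarith only [H28, H26]
                · linarith only [H28.2.2, H24]
            · linarith only [B16, B22, H26, B21, H0.2, H5]
          · linarith only [B30, H5, B33, B19, H26]
      · rcases E27 with H27 | H27 | H27
        · linarith only [H27, H15.1]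
        · rcases E5 with H5 | H5
          · rcases E0 with H0 | H0
            · rcases E23 with H23 | H23 | H23
              · linarith only [H11.1, H23, H15.1]
              · rcases E24 with H24 | H24 | H24
                · linarith only [H11.1, H24]
                · linarith only [H0.2, B33, H24, H5]
                · rcases E28 with H28 | H28 | H28 | H28 | H28
                  · linarith only [H28.2, B16, H27, B21, B22, H5]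
                  · linarith only [B16, H28.2.2.1, H27, B21, B22, H5]
                  · linarith only [H23, H28]
                  · linarith only [H28, H27]
                  · linarith only [H28.2.2, H24]
              · linarith only [H7.2, B35, H23]
            · linarith only [B16, B22, H27, B21, H0.2, H5]
          · linarith only [B30, H5, B33, B19, H27]
        · linarith only [H7.2, B35, H27]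
    · rcases E3 with H3 | H3
      · rcases E7 with H7 | H7
        · linarith only [B25, H11.1, H7.1, H3]
        · rcases E23 with H23 | H23 | H23
          · linarith only [B6, H15.1, H23, H3]
          · rcases E22 with H22 | H22
            · linarith only [H23, H22]
            · linarith only [H11.2, H22]
          · linarith only [H7.2, B35, H23]
      · linarith only [B26, B30, H3, H15.1, B33, H11.1]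
  · rcases E2 with H2 | H2
    · linarith only [H15.1, B6, H2]
    · rcases E8 with H8 | H8
      · linarith only [H15.1, H8.1]
      · rcases E9 with H9 | H9
        · rcases E3 with H3 | H3
          · rcases E25 with H25 | H25 | H25
            · linarith only [H3, B6, H25, H9.1]
            · rcases E4 with H4 | H4
              · linarith only [B13, H2, H15.1, B6, H25, H4]
              · exact g4_l0 B28 E11 E22 H2 H4 H15 H25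
            · linarith only [H8.2, B35, H25]
          · rcases E4 with H4 | H4
            · linarith only [B30, H4, B27, H3, B13]
            · rcases E25 with H25 | H25 | H25
              · linarith only [B30, H9.1, B1, H25, H3, B33]
              · exact g4_l0 B28 E11 E22 H2 H4 H15 H25
              · linarith only [H8.2, B35, H25]
        · linarith only [H9.1, H2, B1]

theorem g5 {a1 a2 a3 b1 b2 b3 d1 g h h3 k n1 n2 n3 p0 p1 y : ℤ}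
    (B1 : 0 ≤ a2)
    (B11 : 0 ≤ n3 - b3)
    (B13 : 0 ≤ n2 - 1)
    (B15 : 0 ≤ a1 + a2 - b1 - b2)
    (B16 : 0 ≤ -a1 - a2 + b1 + b2)
    (B18 : 0 ≤ -a1 - a2 - a3 + b1 + b2 + b3 - y)
    (B19 : 0 ≤ y - 1)
    (B21 : 0 ≤ a1 - b1 - d1)
    (B22 : 0 ≤ d1 - 1)
    (B27 : 0 ≤ n1 - a1 - h3)
    (B28 : 0 ≤ a2 + a3 - h3 - 1)
    (B30 : 0 ≤ a3 - k - 1)
    (B33 : 0 ≤ k)
    (B34 : 0 ≤ -p1 - 1)
    (D0 : (0 ≤ a1 - 1 ∧ 0 ≤ n2 - a2 - 1) ∨ (0 ≤ b1 - 1 ∧ 0 ≤ n2 - b2 - 1))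
    (D1 : (0 ≤ a2 - 1 ∧ 0 ≤ n3 - a3 - 1) ∨ (0 ≤ b2 - 1 ∧ 0 ≤ n3 - b3 - 1))
    (D2 : 0 ≤ h - n1 + a1 ∨ 0 ≤ h - a2 + 1)
    (D4 : 0 ≤ k - n1 + a1 - n2 + a2 ∨ 0 ≤ k - a3 + 1)
    (D5 : 0 ≤ g - n2 + a2 + 1 ∨ 0 ≤ g - a3 - y + 1)
    (D7 : (0 ≤ h - 1 ∧ 0 ≤ -y - p0) ∨ (0 ≤ -h ∧ 0 ≤ p0))
    (D8 : (0 ≤ h ∧ 0 ≤ -p0) ∨ (0 ≤ -h - 1 ∧ 0 ≤ p0 - y))
    (D9 : (0 ≤ h + 1 ∧ 0 ≤ y - p0) ∨ (0 ≤ -h - 2 ∧ 0 ≤ p0 - 2 * y))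
    (D10 : (0 ≤ h3 - 2 ∧ 0 ≤ -2 * y - p1) ∨ (0 ≤ -h3 + 1 ∧ 0 ≤ p1 + y))
    (D11 : (0 ≤ h3 - 1 ∧ 0 ≤ -y - p1) ∨ (0 ≤ -h3 ∧ 0 ≤ p1))
    (D24 : 0 ≤ -h - h3 - 1 ∨ 0 ≤ -k ∨ 0 ≤ -n3 + a3 + 1)
    (D25 : 0 ≤ -h3 ∨ 0 ≤ -k - g - 1 ∨ 0 ≤ -y + 1)
    (D26 : 0 ≤ -h ∨ 0 ≤ -g ∨ 0 ≤ -n3 + a3 - y + 1)
    (D27 : 0 ≤ -h - 1 ∨ 0 ≤ -g ∨ 0 ≤ -n3 + a3 + 1)
    (D28 : 0 ≤ -b1 ∨ 0 ≤ -h - 1 ∨ 0 ≤ -n2 + b2 + 1 ∨ 0 ≤ -n2 + b2 - 2 * n3 + b3 + a3 + y + 1)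
    (D29 : 0 ≤ -b1 ∨ 0 ≤ -h3 + 1 ∨ 0 ≤ -n2 + b2 - k ∨ 0 ≤ -n2 + b2 - n3 + b3 - y + 1)
    (D30 : ((0 ≤ b1 - 1 ∧ 0 ≤ n2 - b2 + n3 - b3 + y - 2) ∨ (0 ≤ b1 - 1 ∧ 0 ≤ -n2 + b2 - n3 + b3 - y + 1 ∧ 0 ≤ n2 - b2 + n3 - b3 + y - 1 ∧ 0 ≤ n2 - b2 - 2) ∨ (0 ≤ b1 - 1 ∧ 0 ≤ -n2 + b2 - n3 + b3 - y + 1 ∧ 0 ≤ n2 - b2 + n3 - b3 + y - 1 ∧ 0 ≤ -n2 + b2 + 1 ∧ 0 ≤ n2 - b2 - 1 ∧ 0 ≤ -y + n2 - b2 + n3 - b3 - 1)) ∨ (0 ≤ n3 - a3 - 2) ∨ (0 ≤ y - 2 ∨ (0 ≤ -y + 1 ∧ 0 ≤ y - 1 ∧ 0 ≤ g - 1)))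
    (D31 : ((0 ≤ b1 - 1 ∧ 0 ≤ n2 - b2 - 2) ∨ (0 ≤ b1 - 1 ∧ 0 ≤ -n2 + b2 + 1 ∧ 0 ≤ n2 - b2 - 1 ∧ 0 ≤ n2 - b2 + n3 - b3 + y - 2) ∨ (0 ≤ b1 - 1 ∧ 0 ≤ -n2 + b2 + 1 ∧ 0 ≤ n2 - b2 - 1 ∧ 0 ≤ -n2 + b2 - n3 + b3 - y + 1 ∧ 0 ≤ n2 - b2 + n3 - b3 + y - 1 ∧ 0 ≤ -y + n2 - b2 + n3 - b3 - 1)) ∨ (0 ≤ k - 1) ∨ (0 ≤ g - 1 ∨ (0 ≤ -g ∧ 0 ≤ g ∧ 0 ≤ y - 2)))
    (D32 : ((0 ≤ b1 - 1 ∧ 0 ≤ -y + n2 - b2 + n3 - b3 - 2) ∨ (0 ≤ b1 - 1 ∧ 0 ≤ y - n2 + b2 - n3 + b3 + 1 ∧ 0 ≤ -y + n2 - b2 + n3 - b3 - 1 ∧ 0 ≤ n2 - b2 + n3 - b3 + y - 2) ∨ (0 ≤ b1 - 1 ∧ 0 ≤ y - n2 + b2 - n3 + b3 + 1 ∧ 0 ≤ -y + n2 - b2 + n3 - b3 - 1 ∧ 0 ≤ -n2 + b2 - n3 + b3 - y + 1 ∧ 0 ≤ n2 - b2 + n3 - b3 + y - 1 ∧ 0 ≤ n2 - b2 - 1)) ∨ (0 ≤ -p0 + n3 - a3 - 2 ∨ (0 ≤ p0 - n3 + a3 + 1 ∧ 0 ≤ -p0 + n3 - a3 - 1 ∧ 0 ≤ n3 - a3 - 2)) ∨ (0 ≤ -p1 - 2))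
    (D33 : ((0 ≤ b1 - 1 ∧ 0 ≤ n2 - b2 + n3 - b3 + y - 2) ∨ (0 ≤ b1 - 1 ∧ 0 ≤ -n2 + b2 - n3 + b3 - y + 1 ∧ 0 ≤ n2 - b2 + n3 - b3 + y - 1 ∧ 0 ≤ -y + n2 - b2 + n3 - b3 - 2) ∨ (0 ≤ b1 - 1 ∧ 0 ≤ -n2 + b2 - n3 + b3 - y + 1 ∧ 0 ≤ n2 - b2 + n3 - b3 + y - 1 ∧ 0 ≤ y - n2 + b2 - n3 + b3 + 1 ∧ 0 ≤ -y + n2 - b2 + n3 - b3 - 1 ∧ 0 ≤ n2 - b2 - 1)) ∨ (0 ≤ n3 - a3 - 2 ∨ (0 ≤ -n3 + a3 + 1 ∧ 0 ≤ n3 - a3 - 1 ∧ 0 ≤ -p0 + n3 - a3 - 2)) ∨ (0 ≤ y - 2)) : False := by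
  have E0 := D0
  have E1 := D1
  have E2 := D2
  have E4 := D4
  have E5 := D5
  have E7 := D7
  have E8 := D8
  have E9 := D9
  have E10 := D10
  have E11 : (0 ≤ h3 - 1 ∧ 0 ≤ -y - p1) := by
    rcases D11 with H11 | H11
    · exact H11
    · linarith only [B34, H11.2]
  have E24 := D24
  have E25 := D25
  have E26 : 0 ≤ -h ∨ 0 ≤ -g := by
    rcases D26 with H26 | H26 | H26
    · exact Or.inl H26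
    · exact Or.inr H26
    · linarith only [B19, B11, B15, H26, B18]
  have E27 := D27
  have E28 := D28
  have E29 := D29
  have E30 : (0 ≤ b1 - 1 ∧ 0 ≤ n2 - b2 + n3 - b3 + y - 2) ∨ 0 ≤ n3 - a3 - 2 ∨ 0 ≤ y - 2 ∨ (0 ≤ -y + 1 ∧ 0 ≤ y - 1 ∧ 0 ≤ g - 1) := by
    rcases D30 with (H30 | H30 | H30) | H30 | (H30 | H30)
    · exact Or.inl H30
    · linarith only [H30.2.2.2, B19, B11, H30.2.1]
    · linarith only [B19, H30.2.2.2.2.2, H30.2.1]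
    · exact Or.inr (Or.inl H30)
    · exact Or.inr (Or.inr (Or.inl H30))
    · exact Or.inr (Or.inr (Or.inr H30))
  have E31 : (0 ≤ b1 - 1 ∧ 0 ≤ n2 - b2 - 2) ∨ (0 ≤ b1 - 1 ∧ 0 ≤ -n2 + b2 + 1 ∧ 0 ≤ n2 - b2 - 1 ∧ 0 ≤ n2 - b2 + n3 - b3 + y - 2) ∨ 0 ≤ k - 1 ∨ 0 ≤ g - 1 ∨ (0 ≤ -g ∧ 0 ≤ g ∧ 0 ≤ y - 2) := by
    rcases D31 with (H31 | H31 | H31) | H31 | (H31 | H31)
    · exact Or.inl H31
    · exact Or.inr (Or.inl H31)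
    · linarith only [B19, H31.2.2.2.2.2, H31.2.2.2.1]
    · exact Or.inr (Or.inr (Or.inl H31))
    · exact Or.inr (Or.inr (Or.inr (Or.inl H31)))
    · exact Or.inr (Or.inr (Or.inr (Or.inr H31)))
  have E32 : (0 ≤ b1 - 1 ∧ 0 ≤ -y + n2 - b2 + n3 - b3 - 2) ∨ (0 ≤ b1 - 1 ∧ 0 ≤ y - n2 + b2 - n3 + b3 + 1 ∧ 0 ≤ -y + n2 - b2 + n3 - b3 - 1 ∧ 0 ≤ n2 - b2 + n3 - b3 + y - 2) ∨ 0 ≤ -p0 + n3 - a3 - 2 ∨ (0 ≤ p0 - n3 + a3 + 1 ∧ 0 ≤ -p0 + n3 - a3 - 1 ∧ 0 ≤ n3 - a3 - 2) ∨ 0 ≤ -p1 - 2 := by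
    rcases D32 with (H32 | H32 | H32) | (H32 | H32) | H32
    · exact Or.inl H32
    · exact Or.inr (Or.inl H32)
    · linarith only [B19, H32.2.2.1, H32.2.2.2.1]
    · exact Or.inr (Or.inr (Or.inl H32))
    · exact Or.inr (Or.inr (Or.inr (Or.inl H32)))
    · exact Or.inr (Or.inr (Or.inr (Or.inr H32)))
  have E33 : (0 ≤ b1 - 1 ∧ 0 ≤ n2 - b2 + n3 - b3 + y - 2) ∨ 0 ≤ n3 - a3 - 2 ∨ (0 ≤ -n3 + a3 + 1 ∧ 0 ≤ n3 - a3 - 1 ∧ 0 ≤ -p0 + n3 - a3 - 2) ∨ 0 ≤ y - 2 := by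
    rcases D33 with (H33 | H33 | H33) | (H33 | H33) | H33
    · exact Or.inl H33
    · linarith only [H33.2.2.2, B19, H33.2.1]
    · linarith only [B19, H33.2.2.2.2.1, H33.2.1]
    · exact Or.inr (Or.inl H33)
    · exact Or.inr (Or.inr (Or.inl H33))
    · exact Or.inr (Or.inr (Or.inr H33))
  have H11 := E11
  rcases E8 with H8 | H8
  · rcases E27 with H27 | H27 | H27
    · linarith only [H27, H8.1]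
    · rcases E5 with H5 | H5
      · rcases E0 with H0 | H0
        · rcases E25 with H25 | H25 | H25
          · linarith only [H11.1, H25]
          · linarith only [H0.2, B33, H25, H5]
          · rcases E31 with H31 | H31 | H31 | H31 | H31
            · linarith only [H31.2, B16, H27, B21, B22, H5]
            · linarith only [B16, H31.2.2.1, B21, B22, H27, H5]
            · rcases E24 with H24 | H24 | H24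
              · linarith only [H11.1, H24, H8.1]
              · linarith only [H24, H31]
              · rcases E30 with H30 | H30 | H30 | H30
                · linarith only [H30.2, B18, H24, B21, B22, H27, H5]
                · linarith only [H30, H24]
                · linarith only [H30, H25]
                · linarith only [H30.2.2, H27]
            · linarith only [H31, H27]
            · linarith only [H31.2.2, H25]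
        · linarith only [B16, B22, H27, B21, H0.2, H5]
      · linarith only [B30, H5, B33, B19, H27]
    · rcases E1 with H1 | H1
      · rcases E26 with H26 | H26
        · rcases E7 with H7 | H7
          · linarith only [H26, H7.1]
          · rcases E33 with H33 | H33 | H33 | H33
            · rcases E29 with H29 | H29 | H29 | H29
              · linarith only [H33.1, H29]
              · rcases E10 with H10 | H10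
                · linarith only [H10.1, H29]
                · rcases E32 with H32 | H32 | H32 | H32 | H32
                  · rcases E28 with H28 | H28 | H28 | H28
                    · linarith only [H33.1, H28]
                    · linarith only [H28, H8.1]
                    · linarith only [H32.2, H27, B18, H28, B19, B15]
                    · linarith only [H28, H1.2, H32.2]
                  · rcases E28 with H28 | H28 | H28 | H28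
                    · linarith only [H33.1, H28]
                    · linarith only [H28, H8.1]
                    · linarith only [H32.2.2.1, H27, B18, H28, B19, B15]
                    · linarith only [H28, H1.2, H32.2.2.1]
                  · linarith only [H32, H27, H7.2]
                  · linarith only [H32.2.2, H27]
                  · linarith only [H27, B18, B11, H32, H10.2, B15]
              · linarith only [H33.2, H27, B18, B15, H29, B33]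
              · linarith only [H33.2, H29]
            · linarith only [H33, H27]
            · linarith only [H33.2.2, H27, H7.2]
            · linarith only [B18, B11, B15, H33, H27]
        · rcases E30 with H30 | H30 | H30 | H30
          · rcases E5 with H5 | H5
            · linarith only [H30.2, B18, H27, B21, B22, H26, H5]
            · linarith only [B30, H5, H26, B19, B33]
          · linarith only [H30, H27]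
          · linarith only [B18, B11, B15, H30, H27]
          · linarith only [H30.2.2, H26]
      · linarith only [H27, B18, H1.2, B19, B15]
  · rcases E2 with H2 | H2
    · linarith only [H8.1, B27, H11.1, H2]
    · rcases E1 with H1 | H1
      · linarith only [H1.1, H8.1, H2]
      · rcases E9 with H9 | H9
        · rcases E24 with H24 | H24 | H24
          · linarith only [H11.1, H24, H9.1]
          · rcases E4 with H4 | H4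
            · linarith only [B13, H24, H8.1, B27, H11.1, H2, H4]
            · linarith only [B28, H2, H24, H8.1, H11.1, H4]
          · linarith only [H24, B18, H1.2, B19, B15]
        · linarith only [H9.1, H2, B1]

theorem g6 {a1 a2 a3 b1 b2 b3 g h h3 k n1 n2 n3 p0 p1 p2 p3 y : ℤ}
    (B1 : 0 ≤ a2)
    (B6 : 0 ≤ n1 - a1)
    (B10 : 0 ≤ n2 - b2)
    (B11 : 0 ≤ n3 - b3)
    (B15 : 0 ≤ a1 + a2 - b1 - b2)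
    (B18 : 0 ≤ -a1 - a2 - a3 + b1 + b2 + b3 - y)
    (B19 : 0 ≤ y - 1)
    (B31 : 0 ≤ n2 - a2 - g - 1)
    (B32 : 0 ≤ a3 + y - g - 1)
    (B34 : 0 ≤ g - 1)
    (B35 : 0 ≤ b1 - 1)
    (B36 : 0 ≤ -y + n2 - b2 + n3 - b3 - 1)
    (D2 : 0 ≤ h - n1 + a1 ∨ 0 ≤ h - a2 + 1)
    (D4 : 0 ≤ k - n1 + a1 - n2 + a2 ∨ 0 ≤ k - a3 + 1)
    (D8 : (0 ≤ h ∧ 0 ≤ -p0) ∨ (0 ≤ -h - 1 ∧ 0 ≤ p0 - y))
    (D11 : (0 ≤ h3 - 1 ∧ 0 ≤ -y - p1) ∨ (0 ≤ -h3 ∧ 0 ≤ p1))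
    (D12 : (0 ≤ h3 ∧ 0 ≤ -p1) ∨ (0 ≤ -h3 - 1 ∧ 0 ≤ p1 - y))
    (D15 : (0 ≤ h ∧ 0 ≤ -y - p2) ∨ (0 ≤ -h - 1 ∧ 0 ≤ p2))
    (D18 : (0 ≤ h3 - 1 ∧ 0 ≤ -2 * y - p3) ∨ (0 ≤ -h3 ∧ 0 ≤ p3 + y))
    (D23 : 0 ≤ -b1 ∨ 0 ≤ -h3 - 1 ∨ 0 ≤ -n2 + b2 - k ∨ 0 ≤ -n2 + b2 - n3 + b3 + y + 1)
    (D24 : 0 ≤ -h - 1 ∨ 0 ≤ -g ∨ 0 ≤ -n3 + a3 + 1)
    (D25 : 0 ≤ -h - 2 ∨ 0 ≤ -g ∨ 0 ≤ -n3 + a3 + y + 1)
    (D26 : 0 ≤ -b1 ∨ 0 ≤ -h - 1 ∨ 0 ≤ -n2 + b2 + 1 ∨ 0 ≤ -n2 + b2 - 2 * n3 + b3 + a3 + y + 1)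
    (D27 : 0 ≤ -b1 ∨ 0 ≤ -h3 ∨ 0 ≤ -n2 + b2 - k ∨ 0 ≤ -n2 + b2 - n3 + b3 + 1)
    (D28 : ((0 ≤ b1 - 1 ∧ 0 ≤ -y + n2 - b2 + n3 - b3 - 2)) ∨ (0 ≤ -p0 + n3 - a3 - 2 ∨ (0 ≤ p0 - n3 + a3 + 1 ∧ 0 ≤ -p0 + n3 - a3 - 1 ∧ 0 ≤ h)) ∨ (0 ≤ -p1 - 2 ∨ (0 ≤ p1 + 1 ∧ 0 ≤ -p1 - 1 ∧ 0 ≤ h3) ∨ (0 ≤ p1 + 1 ∧ 0 ≤ -p1 - 1 ∧ 0 ≤ -h3 - 1 ∧ 0 ≤ h3 + 1 ∧ 0 ≤ k)))
    (D29 : (0 ≤ h ∨ (0 ≤ -h - 1 ∧ 0 ≤ h + 1 ∧ 0 ≤ -p2 + n3 - a3 - y - 2)) ∨ (0 ≤ h3 ∨ (0 ≤ -h3 - 1 ∧ 0 ≤ h3 + 1 ∧ 0 ≤ -p3 - y - 2) ∨ (0 ≤ -h3 - 1 ∧ 0 ≤ h3 + 1 ∧ 0 ≤ p3 + y + 1 ∧ 0 ≤ -p3 - y - 1 ∧ 0 ≤ k))) : False := by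
  have E2 := D2
  have E4 := D4
  have E8 := D8
  have E11 := D11
  have E12 := D12
  have E15 := D15
  have E18 := D18
  have E23 : 0 ≤ -h3 - 1 ∨ 0 ≤ -n2 + b2 - k ∨ 0 ≤ -n2 + b2 - n3 + b3 + y + 1 := by
    rcases D23 with H23 | H23 | H23 | H23
    · linarith only [B35, H23]
    · exact Or.inl H23
    · exact Or.inr (Or.inl H23)
    · exact Or.inr (Or.inr H23)
  have E24 : 0 ≤ -h - 1 ∨ 0 ≤ -n3 + a3 + 1 := by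
    rcases D24 with H24 | H24 | H24
    · exact Or.inl H24
    · linarith only [B34, H24]
    · exact Or.inr H24
  have E25 : 0 ≤ -h - 2 ∨ 0 ≤ -n3 + a3 + y + 1 := by
    rcases D25 with H25 | H25 | H25
    · exact Or.inl H25
    · linarith only [B34, H25]
    · exact Or.inr H25
  have E26 : 0 ≤ -h - 1 ∨ 0 ≤ -n2 + b2 + 1 := by
    rcases D26 with H26 | H26 | H26 | H26
    · linarith only [B35, H26]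
    · exact Or.inl H26
    · exact Or.inr H26
    · linarith only [B19, B15, B18, H26, B36, B11]
  have E27 : 0 ≤ -h3 ∨ 0 ≤ -n2 + b2 - k := by
    rcases D27 with H27 | H27 | H27 | H27
    · linarith only [B35, H27]
    · exact Or.inl H27
    · exact Or.inr H27
    · linarith only [B19, B36, H27]
  have E28 : (0 ≤ b1 - 1 ∧ 0 ≤ -y + n2 - b2 + n3 - b3 - 2) ∨ 0 ≤ -p0 + n3 - a3 - 2 ∨ (0 ≤ p0 - n3 + a3 + 1 ∧ 0 ≤ -p0 + n3 - a3 - 1 ∧ 0 ≤ h) ∨ 0 ≤ -p1 - 2 ∨ (0 ≤ p1 + 1 ∧ 0 ≤ -p1 - 1 ∧ 0 ≤ h3) ∨ (0 ≤ p1 + 1 ∧ 0 ≤ -p1 - 1 ∧ 0 ≤ -h3 - 1 ∧ 0 ≤ h3 + 1 ∧ 0 ≤ k) := by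
    rcases D28 with H28 | (H28 | H28) | (H28 | H28 | H28)
    · exact Or.inl H28
    · exact Or.inr (Or.inl H28)
    · exact Or.inr (Or.inr (Or.inl H28))
    · exact Or.inr (Or.inr (Or.inr (Or.inl H28)))
    · exact Or.inr (Or.inr (Or.inr (Or.inr (Or.inl H28))))
    · exact Or.inr (Or.inr (Or.inr (Or.inr (Or.inr H28))))
  have E29 : 0 ≤ h ∨ (0 ≤ -h - 1 ∧ 0 ≤ h + 1 ∧ 0 ≤ -p2 + n3 - a3 - y - 2) ∨ 0 ≤ h3 ∨ (0 ≤ -h3 - 1 ∧ 0 ≤ h3 + 1 ∧ 0 ≤ -p3 - y - 2) ∨ (0 ≤ -h3 - 1 ∧ 0 ≤ h3 + 1 ∧ 0 ≤ p3 + y + 1 ∧ 0 ≤ -p3 - y - 1 ∧ 0 ≤ k) := by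
    rcases D29 with (H29 | H29) | (H29 | H29 | H29)
    · exact Or.inl H29
    · exact Or.inr (Or.inl H29)
    · exact Or.inr (Or.inr (Or.inl H29))
    · exact Or.inr (Or.inr (Or.inr (Or.inl H29)))
    · exact Or.inr (Or.inr (Or.inr (Or.inr H29)))
  rcases E15 with H15 | H15
  · rcases E26 with H26 | H26
    · linarith only [H26, H15.1]
    · rcases E24 with H24 | H24
      · linarith only [H24, H15.1]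
      · linarith only [B19, B15, B18, B36, H24, H26]
  · rcases E2 with H2 | H2
    · linarith only [H15.1, B6, H2]
    · rcases E25 with H25 | H25
      · linarith only [B1, H25, H2]
      · rcases E8 with H8 | H8
        · linarith only [H15.1, H8.1]
        · rcases E12 with H12 | H12
          · rcases E27 with H27 | H27
            · rcases E11 with H11 | H11
              · linarith only [H11.1, H27]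
              · rcases E28 with H28 | H28 | H28 | H28 | H28 | H28
                · rcases E23 with H23 | H23 | H23
                  · linarith only [H23, H12.1]
                  · rcases E4 with H4 | H4
                    · linarith only [B15, H28.2, B34, H25, B31, B6, H23, B18, B19, H4]
                    · linarith only [B15, H28.2, B34, B32, H23, B18, H4, H25]
                  · linarith only [H23, H28.2]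
                · linarith only [H28, H8.2, H25]
                · linarith only [H15.1, H28.2.2]
                · linarith only [H28, H11.2]
                · linarith only [H28.2.1, H11.2]
                · linarith only [H28.2.1, H11.2]
            · rcases E4 with H4 | H4
              · linarith only [B10, B34, B31, B6, H27, H4]
              · linarith only [B15, B32, B34, B18, H27, B36, H4, H25]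
          · rcases E18 with H18 | H18
            · linarith only [H12.1, H18.1]
            · rcases E29 with H29 | H29 | H29 | H29 | H29
              · linarith only [H15.1, H29]
              · linarith only [H29.2.2, H15.2, H25]
              · linarith only [H12.1, H29]
              · linarith only [H18.2, H29.2.2]
              · linarith only [H18.2, H29.2.2.2.1]

theorem g7 {a1 a2 a3 b1 b2 b3 g h n1 n3 p0 y : ℤ}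
    (B1 : 0 ≤ a2)
    (B6 : 0 ≤ n1 - a1)
    (B11 : 0 ≤ n3 - b3)
    (B15 : 0 ≤ a1 + a2 - b1 - b2)
    (B18 : 0 ≤ -a1 - a2 - a3 + b1 + b2 + b3 - y)
    (B19 : 0 ≤ y - 1)
    (B34 : 0 ≤ g - 1)
    (B36 : 0 ≤ -p0 + n3 - a3 - 2)
    (D2 : 0 ≤ h - n1 + a1 ∨ 0 ≤ h - a2 + 1)
    (D7 : (0 ≤ h - 1 ∧ 0 ≤ -y - p0) ∨ (0 ≤ -h ∧ 0 ≤ p0))
    (D8 : (0 ≤ h ∧ 0 ≤ -p0) ∨ (0 ≤ -h - 1 ∧ 0 ≤ p0 - y))
    (D22 : 0 ≤ -h - 1 ∨ 0 ≤ -g ∨ 0 ≤ -n3 + a3 + 1)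
    (D23 : 0 ≤ -h - 2 ∨ 0 ≤ -g ∨ 0 ≤ -n3 + a3 + y + 1)
    (D24 : 0 ≤ -h ∨ 0 ≤ -g ∨ 0 ≤ -n3 + a3 - y + 1) : False := by
  have E2 := D2
  have E7 := D7
  have E8 := D8
  have E22 : 0 ≤ -h - 1 ∨ 0 ≤ -n3 + a3 + 1 := by
    rcases D22 with H22 | H22 | H22
    · exact Or.inl H22
    · linarith only [B34, H22]
    · exact Or.inr H22
  have E23 : 0 ≤ -h - 2 ∨ 0 ≤ -n3 + a3 + y + 1 := by
    rcases D23 with H23 | H23 | H23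
    · exact Or.inl H23
    · linarith only [B34, H23]
    · exact Or.inr H23
  have E24 : 0 ≤ -h := by
    rcases D24 with H24 | H24 | H24
    · exact H24
    · linarith only [B34, H24]
    · linarith only [B19, B15, B11, H24, B18]
  have H24 := E24
  rcases E7 with H7 | H7
  · linarith only [H7.1, H24]
  · rcases E22 with H22 | H22
    · rcases E2 with H2 | H2
      · linarith only [H22, B6, H2]
      · rcases E23 with H23 | H23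
        · linarith only [B1, H23, H2]
        · rcases E8 with H8 | H8
          · linarith only [H22, H8.1]
          · linarith only [H8.2, B36, H23]
    · linarith only [H7.2, B36, H22]

theorem g8 {a1 a2 a3 b1 b2 b3 d1 g h h3 k n1 n2 n3 p0 p1 p2 y : ℤ}
    (B1 : 0 ≤ a2)
    (B10 : 0 ≤ n2 - b2)
    (B11 : 0 ≤ n3 - b3)
    (B15 : 0 ≤ a1 + a2 - b1 - b2)
    (B18 : 0 ≤ -a1 - a2 - a3 + b1 + b2 + b3 - y)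
    (B19 : 0 ≤ y - 1)
    (B20 : 0 ≤ d1 - a1 + b1)
    (B24 : 0 ≤ -d1 + 1)
    (B27 : 0 ≤ n1 - a1 - h3)
    (B28 : 0 ≤ a2 + a3 - h3 - 1)
    (B31 : 0 ≤ n2 - a2 - g - 1)
    (B34 : 0 ≤ g - 1)
    (B35 : 0 ≤ -p1 - 1)
    (D1 : (0 ≤ a2 - 1 ∧ 0 ≤ n3 - a3 - 1) ∨ (0 ≤ b2 - 1 ∧ 0 ≤ n3 - b3 - 1))
    (D2 : 0 ≤ h - n1 + a1 ∨ 0 ≤ h - a2 + 1)
    (D4 : 0 ≤ k - n1 + a1 - n2 + a2 ∨ 0 ≤ k - a3 + 1)
    (D7 : (0 ≤ h - 1 ∧ 0 ≤ -y - p0) ∨ (0 ≤ -h ∧ 0 ≤ p0))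
    (D8 : (0 ≤ h ∧ 0 ≤ -p0) ∨ (0 ≤ -h - 1 ∧ 0 ≤ p0 - y))
    (D10 : (0 ≤ h3 - 2 ∧ 0 ≤ -2 * y - p1) ∨ (0 ≤ -h3 + 1 ∧ 0 ≤ p1 + y))
    (D11 : (0 ≤ h3 - 1 ∧ 0 ≤ -y - p1) ∨ (0 ≤ -h3 ∧ 0 ≤ p1))
    (D16 : (0 ≤ h + 1 ∧ 0 ≤ -p2) ∨ (0 ≤ -h - 2 ∧ 0 ≤ p2 - y))
    (D23 : 0 ≤ -h - 1 ∨ 0 ≤ -g ∨ 0 ≤ -n3 + a3 + 1)
    (D24 : 0 ≤ -h - h3 - 1 ∨ 0 ≤ -k ∨ 0 ≤ -n3 + a3 + 1)
    (D25 : 0 ≤ -h ∨ 0 ≤ -g ∨ 0 ≤ -n3 + a3 - y + 1)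
    (D26 : 0 ≤ -b1 ∨ 0 ≤ -h - 1 ∨ 0 ≤ -n2 + b2 + 1 ∨ 0 ≤ -n2 + b2 - 2 * n3 + b3 + a3 + y + 1)
    (D27 : 0 ≤ -b1 ∨ 0 ≤ -h3 + 1 ∨ 0 ≤ -n2 + b2 - k ∨ 0 ≤ -n2 + b2 - n3 + b3 - y + 1)
    (D28 : ((0 ≤ b1 - 1 ∧ 0 ≤ -y + n2 - b2 + n3 - b3 - 2) ∨ (0 ≤ b1 - 1 ∧ 0 ≤ y - n2 + b2 - n3 + b3 + 1 ∧ 0 ≤ -y + n2 - b2 + n3 - b3 - 1 ∧ 0 ≤ n2 - b2 + n3 - b3 + y - 2) ∨ (0 ≤ b1 - 1 ∧ 0 ≤ y - n2 + b2 - n3 + b3 + 1 ∧ 0 ≤ -y + n2 - b2 + n3 - b3 - 1 ∧ 0 ≤ -n2 + b2 - n3 + b3 - y + 1 ∧ 0 ≤ n2 - b2 + n3 - b3 + y - 1 ∧ 0 ≤ n2 - b2 - 1)) ∨ (0 ≤ -p0 + n3 - a3 - 2 ∨ (0 ≤ p0 - n3 + a3 + 1 ∧ 0 ≤ -p0 + n3 - a3 - 1 ∧ 0 ≤ n3 - a3 - 2)) ∨ (0 ≤ -p1 - 2))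
    (D29 : ((0 ≤ b1 - 1 ∧ 0 ≤ n2 - b2 + n3 - b3 + y - 2) ∨ (0 ≤ b1 - 1 ∧ 0 ≤ -n2 + b2 - n3 + b3 - y + 1 ∧ 0 ≤ n2 - b2 + n3 - b3 + y - 1 ∧ 0 ≤ -y + n2 - b2 + n3 - b3 - 2) ∨ (0 ≤ b1 - 1 ∧ 0 ≤ -n2 + b2 - n3 + b3 - y + 1 ∧ 0 ≤ n2 - b2 + n3 - b3 + y - 1 ∧ 0 ≤ y - n2 + b2 - n3 + b3 + 1 ∧ 0 ≤ -y + n2 - b2 + n3 - b3 - 1 ∧ 0 ≤ n2 - b2 - 1)) ∨ (0 ≤ n3 - a3 - 2 ∨ (0 ≤ -n3 + a3 + 1 ∧ 0 ≤ n3 - a3 - 1 ∧ 0 ≤ -p0 + n3 - a3 - 2)) ∨ (0 ≤ y - 2)) : False := by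
  have E1 := D1
  have E2 := D2
  have E4 := D4
  have E7 := D7
  have E8 := D8
  have E10 := D10
  have E11 : (0 ≤ h3 - 1 ∧ 0 ≤ -y - p1) := by
    rcases D11 with H11 | H11
    · exact H11
    · linarith only [B35, H11.2]
  have E16 := D16
  have E23 : 0 ≤ -h - 1 ∨ 0 ≤ -n3 + a3 + 1 := by
    rcases D23 with H23 | H23 | H23
    · exact Or.inl H23
    · linarith only [B34, H23]
    · exact Or.inr H23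
  have E24 := D24
  have E25 : 0 ≤ -h := by
    rcases D25 with H25 | H25 | H25
    · exact H25
    · linarith only [B34, H25]
    · linarith only [B19, B15, B11, H25, B18]
  have E26 := D26
  have E27 : 0 ≤ -b1 ∨ 0 ≤ -h3 + 1 ∨ 0 ≤ -n2 + b2 - k := by
    rcases D27 with H27 | H27 | H27 | H27
    · exact Or.inl H27
    · exact Or.inr (Or.inl H27)
    · exact Or.inr (Or.inr H27)
    · linarith only [B19, H27, B15, B20, B31, B34, B11, B24]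
  have E28 : (0 ≤ b1 - 1 ∧ 0 ≤ -y + n2 - b2 + n3 - b3 - 2) ∨ (0 ≤ b1 - 1 ∧ 0 ≤ y - n2 + b2 - n3 + b3 + 1 ∧ 0 ≤ -y + n2 - b2 + n3 - b3 - 1 ∧ 0 ≤ n2 - b2 + n3 - b3 + y - 2) ∨ 0 ≤ -p0 + n3 - a3 - 2 ∨ (0 ≤ p0 - n3 + a3 + 1 ∧ 0 ≤ -p0 + n3 - a3 - 1 ∧ 0 ≤ n3 - a3 - 2) ∨ 0 ≤ -p1 - 2 := by
    rcases D28 with (H28 | H28 | H28) | (H28 | H28) | H28
    · exact Or.inl H28
    · exact Or.inr (Or.inl H28)
    · linarith only [H28.2.2.2.1, B19, H28.2.2.1]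
    · exact Or.inr (Or.inr (Or.inl H28))
    · exact Or.inr (Or.inr (Or.inr (Or.inl H28)))
    · exact Or.inr (Or.inr (Or.inr (Or.inr H28)))
  have E29 : (0 ≤ b1 - 1 ∧ 0 ≤ n2 - b2 + n3 - b3 + y - 2) ∨ 0 ≤ n3 - a3 - 2 ∨ (0 ≤ -n3 + a3 + 1 ∧ 0 ≤ n3 - a3 - 1 ∧ 0 ≤ -p0 + n3 - a3 - 2) ∨ 0 ≤ y - 2 := by
    rcases D29 with (H29 | H29 | H29) | (H29 | H29) | H29
    · exact Or.inl H29
    · linarith only [B19, H29.2.2.2, H29.2.1]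
    · linarith only [H29.2.1, B19, H29.2.2.2.2.1]
    · exact Or.inr (Or.inl H29)
    · exact Or.inr (Or.inr (Or.inl H29))
    · exact Or.inr (Or.inr (Or.inr H29))
  have H25 := E25
  rcases E7 with H7 | H7
  · linarith only [H7.1, H25]
  · have H11 := E11
    rcases E2 with H2 | H2
    · linarith only [H25, B27, H11.1, H2]
    · rcases E16 with H16 | H16
      · rcases E23 with H23 | H23
        · rcases E1 with H1 | H1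
          · linarith only [H1.1, H23, H2]
          · rcases E24 with H24 | H24 | H24
            · linarith only [H16.1, H11.1, H24]
            · rcases E4 with H4 | H4
              · linarith only [B31, B27, H24, H11.1, B34, H4]
              · linarith only [B28, H2, H23, H24, H11.1, H4]
            · linarith only [B18, B15, H1.2, B19, H24]
        · rcases E1 with H1 | H1
          · rcases E8 with H8 | H8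
            · rcases E29 with H29 | H29 | H29 | H29
              · rcases E27 with H27 | H27 | H27
                · linarith only [H29.1, H27]
                · rcases E10 with H10 | H10
                  · linarith only [H10.1, H27]
                  · rcases E26 with H26 | H26 | H26 | H26
                    · linarith only [H29.1, H26]
                    · linarith only [H26, H8.1]
                    · rcases E28 with H28 | H28 | H28 | H28 | H28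
                      · linarith only [B18, B15, H23, H28.2, B19, H26]
                      · linarith only [B15, H26, B18, H23, B19, H28.2.2.1]
                      · linarith only [H28, H7.2, H23]
                      · linarith only [H28.2.2, H23]
                      · linarith only [B18, B15, B11, H28, H10.2, H23]
                    · rcases E28 with H28 | H28 | H28 | H28 | H28
                      · linarith only [H28.2, H26, H1.2]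
                      · linarith only [H28.2.2.1, H26, H1.2]
                      · linarith only [H28, H7.2, H23]
                      · linarith only [H28.2.2, H23]
                      · linarith only [B18, B15, H23, H28, H10.2, B11]
                · rcases E4 with H4 | H4
                  · linarith only [B10, B34, B31, B27, H11.1, H27, H4]
                  · linarith only [B15, B28, H29.2, H23, H25, H11.1, H27, B18, H4, H2]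
              · linarith only [H29, H23]
              · linarith only [H29.2.2, H7.2, H23]
              · linarith only [B18, B15, B11, H29, H23]
            · linarith only [H1.1, H8.1, H2]
          · linarith only [B18, B15, H1.2, B19, H23]
      · linarith only [B1, H16.1, H2]

theorem los11 {n1 n2 n3 a1 a2 a3 b1 b2 b3 y d1 : ℤ}
    (B0 : 0 ≤ a1)
    (B1 : 0 ≤ a2)
    (B2 : 0 ≤ a3)
    (B3 : 0 ≤ b1)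
    (B4 : 0 ≤ b2)
    (B5 : 0 ≤ b3)
    (B6 : 0 ≤ n1 - a1)
    (B7 : 0 ≤ n2 - a2)
    (B8 : 0 ≤ n3 - a3)
    (B9 : 0 ≤ n1 - b1)
    (B10 : 0 ≤ n2 - b2)
    (B11 : 0 ≤ n3 - b3)
    (B12 : 0 ≤ n1 - 1)
    (B13 : 0 ≤ n2 - 1)
    (B14 : 0 ≤ n3 - 1)
    (B15 : 0 ≤ a1 + a2 - b1 - b2)
    (B16 : 0 ≤ -a1 - a2 + b1 + b2)
    (B17 : 0 ≤ y + a1 + a2 + a3 - b1 - b2 - b3)
    (B18 : 0 ≤ -a1 - a2 - a3 + b1 + b2 + b3 - y)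
    (B19 : 0 ≤ y - 1)
    (B20 : 0 ≤ d1 - a1 + b1)
    (B21 : 0 ≤ a1 - b1 - d1)
    (B22 : 0 ≤ d1 - 1)
    (B23 : 0 ≤ d1 - 1)
    (B24 : 0 ≤ -d1 + 1)
    (hex : 0 ≤ b1 - 1) :
    LosC n1 n2 n3 a1 a2 a3 b1 b2 b3 (2) (-n2 + b2 + 1) (-n2 + b2 - n3 + b3 - y + 1) := by
  unfold LosC
  refine ⟨?_, ?_, ?_, ?_, ?_, ?_, ?_, ?_⟩ <;> omega

theorem los22 {n1 n2 n3 a1 a2 a3 b1 b2 b3 y d1 h : ℤ}
    (B0 : 0 ≤ a1)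
    (B1 : 0 ≤ a2)
    (B2 : 0 ≤ a3)
    (B3 : 0 ≤ b1)
    (B4 : 0 ≤ b2)
    (B5 : 0 ≤ b3)
    (B6 : 0 ≤ n1 - a1)
    (B7 : 0 ≤ n2 - a2)
    (B8 : 0 ≤ n3 - a3)
    (B9 : 0 ≤ n1 - b1)
    (B10 : 0 ≤ n2 - b2)
    (B11 : 0 ≤ n3 - b3)
    (B12 : 0 ≤ n1 - 1)
    (B13 : 0 ≤ n2 - 1)
    (B14 : 0 ≤ n3 - 1)
    (B15 : 0 ≤ a1 + a2 - b1 - b2)
    (B16 : 0 ≤ -a1 - a2 + b1 + b2)
    (B17 : 0 ≤ y + a1 + a2 + a3 - b1 - b2 - b3)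
    (B18 : 0 ≤ -a1 - a2 - a3 + b1 + b2 + b3 - y)
    (B19 : 0 ≤ y - 1)
    (B20 : 0 ≤ d1 - a1 + b1)
    (B21 : 0 ≤ a1 - b1 - d1)
    (B22 : 0 ≤ d1 - 1)
    (B23 : 0 ≤ d1 - 1)
    (B24 : 0 ≤ -d1 + 1)
    (B25 : 0 ≤ n1 - a1 - h)
    (B26 : 0 ≤ a2 - h - 1)
    (C_Dh : 0 ≤ h - n1 + a1 ∨ 0 ≤ h - a2 + 1) :
    LosC n1 n2 n3 a1 a2 a3 b1 b2 b3 (-h) (1) (-n3 + a3 + 1) := by
  unfold LosC
  refine ⟨?_, ?_, ?_, ?_, ?_, ?_, ?_, ?_⟩ <;> omega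

theorem los33 {n1 n2 n3 a1 a2 a3 b1 b2 b3 y d1 h3 k : ℤ}
    (B0 : 0 ≤ a1)
    (B1 : 0 ≤ a2)
    (B2 : 0 ≤ a3)
    (B3 : 0 ≤ b1)
    (B4 : 0 ≤ b2)
    (B5 : 0 ≤ b3)
    (B6 : 0 ≤ n1 - a1)
    (B7 : 0 ≤ n2 - a2)
    (B8 : 0 ≤ n3 - a3)
    (B9 : 0 ≤ n1 - b1)
    (B10 : 0 ≤ n2 - b2)
    (B11 : 0 ≤ n3 - b3)
    (B12 : 0 ≤ n1 - 1)
    (B13 : 0 ≤ n2 - 1)
    (B14 : 0 ≤ n3 - 1)
    (B15 : 0 ≤ a1 + a2 - b1 - b2)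
    (B16 : 0 ≤ -a1 - a2 + b1 + b2)
    (B17 : 0 ≤ y + a1 + a2 + a3 - b1 - b2 - b3)
    (B18 : 0 ≤ -a1 - a2 - a3 + b1 + b2 + b3 - y)
    (B19 : 0 ≤ y - 1)
    (B20 : 0 ≤ d1 - a1 + b1)
    (B21 : 0 ≤ a1 - b1 - d1)
    (B22 : 0 ≤ d1 - 1)
    (B23 : 0 ≤ d1 - 1)
    (B24 : 0 ≤ -d1 + 1)
    (B27 : 0 ≤ n1 - a1 - h3)
    (B28 : 0 ≤ a2 + a3 - h3 - 1)
    (B29 : 0 ≤ n1 - a1 + n2 - a2 - k)
    (B30 : 0 ≤ a3 - k - 1)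
    (C_Dh3 : 0 ≤ h3 - n1 + a1 ∨ 0 ≤ h3 - a2 - a3 + 1)
    (C_Dk : 0 ≤ k - n1 + a1 - n2 + a2 ∨ 0 ≤ k - a3 + 1) :
    LosC n1 n2 n3 a1 a2 a3 b1 b2 b3 (-h3) (-k) (1) := by
  unfold LosC
  refine ⟨?_, ?_, ?_, ?_, ?_, ?_, ?_, ?_⟩ <;> omega

theorem los13 {n1 n2 n3 a1 a2 a3 b1 b2 b3 y d1 g : ℤ}
    (B0 : 0 ≤ a1)
    (B1 : 0 ≤ a2)
    (B2 : 0 ≤ a3)
    (B3 : 0 ≤ b1)
    (B4 : 0 ≤ b2)
    (B5 : 0 ≤ b3)
    (B6 : 0 ≤ n1 - a1)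
    (B7 : 0 ≤ n2 - a2)
    (B8 : 0 ≤ n3 - a3)
    (B9 : 0 ≤ n1 - b1)
    (B10 : 0 ≤ n2 - b2)
    (B11 : 0 ≤ n3 - b3)
    (B12 : 0 ≤ n1 - 1)
    (B13 : 0 ≤ n2 - 1)
    (B14 : 0 ≤ n3 - 1)
    (B15 : 0 ≤ a1 + a2 - b1 - b2)
    (B16 : 0 ≤ -a1 - a2 + b1 + b2)
    (B17 : 0 ≤ y + a1 + a2 + a3 - b1 - b2 - b3)
    (B18 : 0 ≤ -a1 - a2 - a3 + b1 + b2 + b3 - y)
    (B19 : 0 ≤ y - 1)
    (B20 : 0 ≤ d1 - a1 + b1)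
    (B21 : 0 ≤ a1 - b1 - d1)
    (B22 : 0 ≤ d1 - 1)
    (B23 : 0 ≤ d1 - 1)
    (B24 : 0 ≤ -d1 + 1)
    (B31 : 0 ≤ n2 - a2 - g - 1)
    (B32 : 0 ≤ a3 + y - g - 1)
    (C_Dg : 0 ≤ g - n2 + a2 + 1 ∨ 0 ≤ g - a3 - y + 1) :
    LosC n1 n2 n3 a1 a2 a3 b1 b2 b3 (1) (-g) (-y + 1) := by
  unfold LosC
  refine ⟨?_, ?_, ?_, ?_, ?_, ?_, ?_, ?_⟩ <;> omega

theorem hd {n1 n2 n3 a1 a2 a3 b1 b2 b3 y d1 h h3 k g : ℤ}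
    (B0 : 0 ≤ a1)
    (B1 : 0 ≤ a2)
    (B2 : 0 ≤ a3)
    (B3 : 0 ≤ b1)
    (B4 : 0 ≤ b2)
    (B5 : 0 ≤ b3)
    (B6 : 0 ≤ n1 - a1)
    (B7 : 0 ≤ n2 - a2)
    (B8 : 0 ≤ n3 - a3)
    (B9 : 0 ≤ n1 - b1)
    (B10 : 0 ≤ n2 - b2)
    (B11 : 0 ≤ n3 - b3)
    (B12 : 0 ≤ n1 - 1)
    (B13 : 0 ≤ n2 - 1)
    (B14 : 0 ≤ n3 - 1)
    (B15 : 0 ≤ a1 + a2 - b1 - b2)
    (B16 : 0 ≤ -a1 - a2 + b1 + b2)
    (B17 : 0 ≤ y + a1 + a2 + a3 - b1 - b2 - b3)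
    (B18 : 0 ≤ -a1 - a2 - a3 + b1 + b2 + b3 - y)
    (B19 : 0 ≤ y - 1)
    (B20 : 0 ≤ d1 - a1 + b1)
    (B21 : 0 ≤ a1 - b1 - d1)
    (B22 : 0 ≤ d1 - 1)
    (B23 : 0 ≤ d1 - 1)
    (B24 : 0 ≤ -d1 + 1)
    (B25 : 0 ≤ n1 - a1 - h)
    (B26 : 0 ≤ a2 - h - 1)
    (B27 : 0 ≤ n1 - a1 - h3)
    (B28 : 0 ≤ a2 + a3 - h3 - 1)
    (B29 : 0 ≤ n1 - a1 + n2 - a2 - k)
    (B30 : 0 ≤ a3 - k - 1)
    (B31 : 0 ≤ n2 - a2 - g - 1)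
    (B32 : 0 ≤ a3 + y - g - 1)
    (C_Dh : 0 ≤ h - n1 + a1 ∨ 0 ≤ h - a2 + 1)
    (C_Dh3 : 0 ≤ h3 - n1 + a1 ∨ 0 ≤ h3 - a2 - a3 + 1)
    (C_Dk : 0 ≤ k - n1 + a1 - n2 + a2 ∨ 0 ≤ k - a3 + 1)
    (C_Dg : 0 ≤ g - n2 + a2 + 1 ∨ 0 ≤ g - a3 - y + 1) :
    ∀ c1 c2 c3, LosC n1 n2 n3 a1 a2 a3 b1 b2 b3 c1 c2 c3 →
      ∃ v ∈ ([⟨0 ≤ b1 - 1, 2, -n2 + b2 + 1, -n2 + b2 - n3 + b3 - y + 1⟩, ⟨True, -h, 1, -n3 + a3 + 1⟩, ⟨True, -h3, -k, 1⟩, ⟨True, 1, -g, -y + 1⟩] : List LV), v.ex ∧ v.c1 ≤ c1 ∧ v.c2 ≤ c2 ∧ v.c3 ≤ c3 := by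
  intro c1 c2 c3 hc
  obtain ⟨q1, q2, q3, q4, q5, q6, qa, qb⟩ := hc
  rcases qb with qb | qb | qb
  · clear qa
    clear C_Dh C_Dh3 C_Dk C_Dg
    refine ⟨_, List.Mem.head _, ?_, ?_, ?_, ?_⟩
    · show 0 ≤ b1 - 1; omega
    · show 2 ≤ c1; omega
    · show -n2 + b2 + 1 ≤ c2; omega
    · show -n2 + b2 - n3 + b3 - y + 1 ≤ c3; omega
  · clear qa
    clear C_Dh3 C_Dk C_Dg
    refine ⟨_, List.Mem.tail _ (List.Mem.head _), ?_, ?_, ?_, ?_⟩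
    · trivial
    · show -h ≤ c1; omega
    · show 1 ≤ c2; omega
    · show -n3 + a3 + 1 ≤ c3; omega
  · rcases qa with qa | qa | qa
    · clear C_Dh C_Dh3 C_Dk
      refine ⟨_, List.Mem.tail _ (List.Mem.tail _ (List.Mem.tail _ (List.Mem.head _))), ?_, ?_, ?_, ?_⟩
      · trivial
      · show 1 ≤ c1; omega
      · show -g ≤ c2; omega
      · show -y + 1 ≤ c3; omega
    · clear C_Dh3 C_Dk C_Dg
      refine ⟨_, List.Mem.tail _ (List.Mem.head _), ?_, ?_, ?_, ?_⟩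
      · trivial
      · show -h ≤ c1; omega
      · show 1 ≤ c2; omega
      · show -n3 + a3 + 1 ≤ c3; omega
    · clear C_Dh C_Dg
      refine ⟨_, List.Mem.tail _ (List.Mem.tail _ (List.Mem.head _)), ?_, ?_, ?_, ?_⟩
      · trivial
      · show -h3 ≤ c1; omega
      · show -k ≤ c2; omega
      · show 1 ≤ c3; omega

theorem cvF_V1_V2_11 {b1 b2 b3 n2 n3 y : ℤ}
    (hex : 0 ≤ b1 - 1)
    (hf : LexFail ((0) * (2) + (1) * (-n2 + b2 + 1) + (0) * (-n2 + b2 - n3 + b3 - y + 1))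
      ((y) * (2) + (0) * (-n2 + b2 + 1) + (1) * (-n2 + b2 - n3 + b3 - y + 1))
      ((0) * (2) + (0) * (-n2 + b2 + 1) + (0) * (-n2 + b2 - n3 + b3 - y + 1))) :
    0 ≤ b1 - 1 ∧ 0 ≤ n2 - b2 - 1 ∧ (0 ≤ n2 - b2 - 2 ∨ 0 ≤ -y + n2 - b2 + n3 - b3 - 1) := by
  rcases hf with hf | ⟨hf0, hf⟩ | ⟨hf0, hf1, hf⟩
  · exact ⟨by linarith only [hex], by linarith only [hf], Or.inl (by linarith only [hf])⟩
  · exact ⟨by linarith only [hex], by linarith only [hf0], Or.inr (by linarith only [hf])⟩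
  · exact ⟨by linarith only [hex], by linarith only [hf0], Or.inr (by linarith only [hf1])⟩

theorem cvF_V1_V2_22 {a3 h n3 p0 y : ℤ}
    (ep0 : p0 = (y) * (-h))
    (hf : LexFail ((0) * (-h) + (1) * (1) + (0) * (-n3 + a3 + 1))
      ((y) * (-h) + (0) * (1) + (1) * (-n3 + a3 + 1))
      ((0) * (-h) + (0) * (1) + (0) * (-n3 + a3 + 1))) :
    False := by
  rcases hf with hf | ⟨hf0, hf⟩ | ⟨hf0, hf1, hf⟩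
  · exfalso; linarith only [hf]
  · exfalso; linarith only [hf0]
  · exfalso; linarith only [hf0]

theorem cvF_V1_V2_33 {h3 k p1 y : ℤ}
    (ep1 : p1 = (y) * (-h3))
    (hf : LexFail ((0) * (-h3) + (1) * (-k) + (0) * (1))
      ((y) * (-h3) + (0) * (-k) + (1) * (1))
      ((0) * (-h3) + (0) * (-k) + (0) * (1))) :
    0 ≤ k ∧ (0 ≤ k - 1 ∨ 0 ≤ -p1 - 1) := by
  rcases hf with hf | ⟨hf0, hf⟩ | ⟨hf0, hf1, hf⟩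
  · exact ⟨by linarith only [hf], Or.inl (by linarith only [hf])⟩
  · exact ⟨by linarith only [hf0], Or.inr (by linarith only [hf, ep1])⟩
  · exact ⟨by linarith only [hf0], Or.inr (by linarith only [hf1, ep1])⟩

theorem cvF_V1_V2_13 {g y : ℤ}
    (hf : LexFail ((0) * (1) + (1) * (-g) + (0) * (-y + 1))
      ((y) * (1) + (0) * (-g) + (1) * (-y + 1))
      ((0) * (1) + (0) * (-g) + (0) * (-y + 1))) :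
    0 ≤ g ∧ 0 ≤ g - 1 := by
  rcases hf with hf | ⟨hf0, hf⟩ | ⟨hf0, hf1, hf⟩
  · exact ⟨by linarith only [hf], by linarith only [hf]⟩
  · exfalso; linarith only [hf]
  · exfalso; linarith only [hf1]

theorem FAt {n1 n2 n3 a1 a2 a3 b1 b2 b3 y d1 h h3 k g p0 p1 : ℤ}
    (B15 : 0 ≤ a1 + a2 - b1 - b2)
    (B16 : 0 ≤ -a1 - a2 + b1 + b2)
    (B17 : 0 ≤ y + a1 + a2 + a3 - b1 - b2 - b3)
    (B18 : 0 ≤ -a1 - a2 - a3 + b1 + b2 + b3 - y)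
    (B19 : 0 ≤ y - 1)
    (B20 : 0 ≤ d1 - a1 + b1)
    (B21 : 0 ≤ a1 - b1 - d1)
    (B22 : 0 ≤ d1 - 1)
    (B23 : 0 ≤ d1 - 1)
    (B24 : 0 ≤ -d1 + 1)
    (ep0 : p0 = (y) * (-h))
    (ep1 : p1 = (y) * (-h3))
    (w1 : a1 - b1 = 1) (w2 : a1 + a2 - b1 - b2 = 0) (w3 : a1 + a2 + a3 - b1 - b2 - b3 = -y)
    (hno : ¬ ∃ u1 u2 u3 : ℤ, Good n1 n2 n3 a1 a2 a3 b1 b2 b3 u1 u2 u3)
    (hd : ∀ c1 c2 c3, LosC n1 n2 n3 a1 a2 a3 b1 b2 b3 c1 c2 c3 →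
      ∃ v ∈ ([⟨0 ≤ b1 - 1, 2, -n2 + b2 + 1, -n2 + b2 - n3 + b3 - y + 1⟩, ⟨True, -h, 1, -n3 + a3 + 1⟩, ⟨True, -h3, -k, 1⟩, ⟨True, 1, -g, -y + 1⟩] : List LV), v.ex ∧ v.c1 ≤ c1 ∧ v.c2 ≤ c2 ∧ v.c3 ≤ c3) :
    (0 ≤ b1 - 1 ∧ 0 ≤ n2 - b2 - 1 ∧ (0 ≤ n2 - b2 - 2 ∨ 0 ≤ -y + n2 - b2 + n3 - b3 - 1)) ∨ (0 ≤ k ∧ (0 ≤ k - 1 ∨ 0 ≤ -p1 - 1)) ∨ (0 ≤ g ∧ 0 ≤ g - 1) := by
  obtain ⟨v, hv, hex, hf⟩ := failA' w1 w2 w3 hno _ hd (0) (1) (0) (y) (0) (1) (0) (0) (0)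
    ⟨le_refl 0, zero_le_one, le_refl 0⟩ ⟨by linarith only [B15, B16, B17, B18, B19, B20, B21, B22, B23, B24], le_refl 0, zero_le_one⟩ ⟨le_refl 0, le_refl 0, le_refl 0⟩
    (Or.inr ⟨by ring, Or.inr ⟨by ring, by linarith only [B15, B16, B17, B18, B19, B20, B21, B22, B23, B24]⟩⟩)
  simp only [List.mem_cons, List.not_mem_nil, or_false] at hv
  rcases hv with rfl | rfl | rfl | rfl
  · exact Or.inl (cvF_V1_V2_11 hex hf)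
  · exact (cvF_V1_V2_22 ep0 hf).elim
  · exact Or.inr (Or.inl (cvF_V1_V2_33 ep1 hf))
  · exact Or.inr (Or.inr (cvF_V1_V2_13 hf))

theorem cvF_V2_V1_11 {b1 b2 b3 n2 n3 y : ℤ}
    (hex : 0 ≤ b1 - 1)
    (hf : LexFail ((y) * (2) + (0) * (-n2 + b2 + 1) + (1) * (-n2 + b2 - n3 + b3 - y + 1))
      ((0) * (2) + (1) * (-n2 + b2 + 1) + (0) * (-n2 + b2 - n3 + b3 - y + 1))
      ((0) * (2) + (0) * (-n2 + b2 + 1) + (0) * (-n2 + b2 - n3 + b3 - y + 1))) :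
    0 ≤ b1 - 1 ∧ 0 ≤ -y + n2 - b2 + n3 - b3 - 1 ∧ (0 ≤ -y + n2 - b2 + n3 - b3 - 2 ∨ 0 ≤ n2 - b2 - 1) := by
  rcases hf with hf | ⟨hf0, hf⟩ | ⟨hf0, hf1, hf⟩
  · exact ⟨by linarith only [hex], by linarith only [hf], Or.inl (by linarith only [hf])⟩
  · exact ⟨by linarith only [hex], by linarith only [hf0], Or.inr (by linarith only [hf])⟩
  · exact ⟨by linarith only [hex], by linarith only [hf0], Or.inr (by linarith only [hf1])⟩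

theorem cvF_V2_V1_22 {a3 h n3 p0 y : ℤ}
    (ep0 : p0 = (y) * (-h))
    (hf : LexFail ((y) * (-h) + (0) * (1) + (1) * (-n3 + a3 + 1))
      ((0) * (-h) + (1) * (1) + (0) * (-n3 + a3 + 1))
      ((0) * (-h) + (0) * (1) + (0) * (-n3 + a3 + 1))) :
    0 ≤ -p0 + n3 - a3 - 1 ∧ 0 ≤ -p0 + n3 - a3 - 2 := by
  rcases hf with hf | ⟨hf0, hf⟩ | ⟨hf0, hf1, hf⟩
  · exact ⟨by linarith only [hf, ep0], by linarith only [hf, ep0]⟩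
  · exfalso; linarith only [hf]
  · exfalso; linarith only [hf1]

theorem cvF_V2_V1_33 {h3 k p1 y : ℤ}
    (ep1 : p1 = (y) * (-h3))
    (hf : LexFail ((y) * (-h3) + (0) * (-k) + (1) * (1))
      ((0) * (-h3) + (1) * (-k) + (0) * (1))
      ((0) * (-h3) + (0) * (-k) + (0) * (1))) :
    0 ≤ -p1 - 1 ∧ (0 ≤ -p1 - 2 ∨ 0 ≤ k) := by
  rcases hf with hf | ⟨hf0, hf⟩ | ⟨hf0, hf1, hf⟩
  · exact ⟨by linarith only [hf, ep1], Or.inl (by linarith only [hf, ep1])⟩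
  · exact ⟨by linarith only [hf0, ep1], Or.inr (by linarith only [hf])⟩
  · exact ⟨by linarith only [hf0, ep1], Or.inr (by linarith only [hf1])⟩

theorem cvF_V2_V1_13 {g y : ℤ}
    (hf : LexFail ((y) * (1) + (0) * (-g) + (1) * (-y + 1))
      ((0) * (1) + (1) * (-g) + (0) * (-y + 1))
      ((0) * (1) + (0) * (-g) + (0) * (-y + 1))) :
    False := by
  rcases hf with hf | ⟨hf0, hf⟩ | ⟨hf0, hf1, hf⟩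
  · exfalso; linarith only [hf]
  · exfalso; linarith only [hf0]
  · exfalso; linarith only [hf0]

theorem FBt {n1 n2 n3 a1 a2 a3 b1 b2 b3 y d1 h h3 k g p0 p1 : ℤ}
    (B15 : 0 ≤ a1 + a2 - b1 - b2)
    (B16 : 0 ≤ -a1 - a2 + b1 + b2)
    (B17 : 0 ≤ y + a1 + a2 + a3 - b1 - b2 - b3)
    (B18 : 0 ≤ -a1 - a2 - a3 + b1 + b2 + b3 - y)
    (B19 : 0 ≤ y - 1)
    (B20 : 0 ≤ d1 - a1 + b1)
    (B21 : 0 ≤ a1 - b1 - d1)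
    (B22 : 0 ≤ d1 - 1)
    (B23 : 0 ≤ d1 - 1)
    (B24 : 0 ≤ -d1 + 1)
    (ep0 : p0 = (y) * (-h))
    (ep1 : p1 = (y) * (-h3))
    (w1 : a1 - b1 = 1) (w2 : a1 + a2 - b1 - b2 = 0) (w3 : a1 + a2 + a3 - b1 - b2 - b3 = -y)
    (hno : ¬ ∃ u1 u2 u3 : ℤ, Good n1 n2 n3 a1 a2 a3 b1 b2 b3 u1 u2 u3)
    (hd : ∀ c1 c2 c3, LosC n1 n2 n3 a1 a2 a3 b1 b2 b3 c1 c2 c3 →
      ∃ v ∈ ([⟨0 ≤ b1 - 1, 2, -n2 + b2 + 1, -n2 + b2 - n3 + b3 - y + 1⟩, ⟨True, -h, 1, -n3 + a3 + 1⟩, ⟨True, -h3, -k, 1⟩, ⟨True, 1, -g, -y + 1⟩] : List LV), v.ex ∧ v.c1 ≤ c1 ∧ v.c2 ≤ c2 ∧ v.c3 ≤ c3) :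
    (0 ≤ b1 - 1 ∧ 0 ≤ -y + n2 - b2 + n3 - b3 - 1 ∧ (0 ≤ -y + n2 - b2 + n3 - b3 - 2 ∨ 0 ≤ n2 - b2 - 1)) ∨ (0 ≤ -p0 + n3 - a3 - 1 ∧ 0 ≤ -p0 + n3 - a3 - 2) ∨ (0 ≤ -p1 - 1 ∧ (0 ≤ -p1 - 2 ∨ 0 ≤ k)) := by
  obtain ⟨v, hv, hex, hf⟩ := failA' w1 w2 w3 hno _ hd (y) (0) (1) (0) (1) (0) (0) (0) (0)
    ⟨by linarith only [B15, B16, B17, B18, B19, B20, B21, B22, B23, B24], le_refl 0, zero_le_one⟩ ⟨le_refl 0, zero_le_one, le_refl 0⟩ ⟨le_refl 0, le_refl 0, le_refl 0⟩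
    (Or.inr ⟨by ring, Or.inr ⟨by ring, by linarith only [B15, B16, B17, B18, B19, B20, B21, B22, B23, B24]⟩⟩)
  simp only [List.mem_cons, List.not_mem_nil, or_false] at hv
  rcases hv with rfl | rfl | rfl | rfl
  · exact Or.inl (cvF_V2_V1_11 hex hf)
  · exact Or.inr (Or.inl (cvF_V2_V1_22 ep0 hf))
  · exact Or.inr (Or.inr (cvF_V2_V1_33 ep1 hf))
  · exact (cvF_V2_V1_13 hf).elim

theorem cvG_e1_V1_V2_11 {b1 b2 b3 n2 n3 y : ℤ}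
    (hex : 0 ≤ b1 - 1)
    (hf : LexFail ((1) * (2 - (1)) + (0) * (-n2 + b2 + 1 - (0)) + (0) * (-n2 + b2 - n3 + b3 - y + 1 - (-y)))
      ((0) * (2 - (1)) + (1) * (-n2 + b2 + 1 - (0)) + (0) * (-n2 + b2 - n3 + b3 - y + 1 - (-y)))
      ((y) * (2 - (1)) + (0) * (-n2 + b2 + 1 - (0)) + (1) * (-n2 + b2 - n3 + b3 - y + 1 - (-y)))) :
    False := by
  rcases hf with hf | ⟨hf0, hf⟩ | ⟨hf0, hf1, hf⟩
  · exfalso; linarith only [hf]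
  · exfalso; linarith only [hf0]
  · exfalso; linarith only [hf0]

theorem cvG_e1_V1_V2_22 {a3 h n3 p2 y : ℤ}
    (ep2 : p2 = (y) * (-h - 1))
    (hf : LexFail ((1) * (-h - (1)) + (0) * (1 - (0)) + (0) * (-n3 + a3 + 1 - (-y)))
      ((0) * (-h - (1)) + (1) * (1 - (0)) + (0) * (-n3 + a3 + 1 - (-y)))
      ((y) * (-h - (1)) + (0) * (1 - (0)) + (1) * (-n3 + a3 + 1 - (-y)))) :
    0 ≤ h := by
  rcases hf with hf | ⟨hf0, hf⟩ | ⟨hf0, hf1, hf⟩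
  · exact by linarith only [hf]
  · exfalso; linarith only [hf]
  · exfalso; linarith only [hf1]

theorem cvG_e1_V1_V2_33 {h3 k p3 y : ℤ}
    (ep3 : p3 = (y) * (-h3 - 1))
    (hf : LexFail ((1) * (-h3 - (1)) + (0) * (-k - (0)) + (0) * (1 - (-y)))
      ((0) * (-h3 - (1)) + (1) * (-k - (0)) + (0) * (1 - (-y)))
      ((y) * (-h3 - (1)) + (0) * (-k - (0)) + (1) * (1 - (-y)))) :
    0 ≤ h3 ∨ (0 ≤ -h3 - 1 ∧ 0 ≤ h3 + 1 ∧ 0 ≤ k - 1) ∨ (0 ≤ -h3 - 1 ∧ 0 ≤ h3 + 1 ∧ 0 ≤ -k ∧ 0 ≤ k ∧ 0 ≤ -p3 - y - 1) := by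
  rcases hf with hf | ⟨hf0, hf⟩ | ⟨hf0, hf1, hf⟩
  · exact Or.inl (by linarith only [hf])
  · exact Or.inr (Or.inl (⟨by linarith only [hf0], by linarith only [hf0], by linarith only [hf]⟩))
  · exact Or.inr (Or.inr (⟨by linarith only [hf0], by linarith only [hf0], by linarith only [hf1], by linarith only [hf1], by linarith only [hf, ep3]⟩))

theorem cvG_e1_V1_V2_13 {g y : ℤ}
    (hf : LexFail ((1) * (1 - (1)) + (0) * (-g - (0)) + (0) * (-y + 1 - (-y)))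
      ((0) * (1 - (1)) + (1) * (-g - (0)) + (0) * (-y + 1 - (-y)))
      ((y) * (1 - (1)) + (0) * (-g - (0)) + (1) * (-y + 1 - (-y)))) :
    0 ≤ g - 1 := by
  rcases hf with hf | ⟨hf0, hf⟩ | ⟨hf0, hf1, hf⟩
  · exfalso; linarith only [hf]
  · exact by linarith only [hf]
  · exfalso; linarith only [hf]

theorem Gt_e1_V1_V2 {n1 n2 n3 a1 a2 a3 b1 b2 b3 y d1 h h3 k g p2 p3 : ℤ}
    (B15 : 0 ≤ a1 + a2 - b1 - b2)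
    (B16 : 0 ≤ -a1 - a2 + b1 + b2)
    (B17 : 0 ≤ y + a1 + a2 + a3 - b1 - b2 - b3)
    (B18 : 0 ≤ -a1 - a2 - a3 + b1 + b2 + b3 - y)
    (B19 : 0 ≤ y - 1)
    (B20 : 0 ≤ d1 - a1 + b1)
    (B21 : 0 ≤ a1 - b1 - d1)
    (B22 : 0 ≤ d1 - 1)
    (B23 : 0 ≤ d1 - 1)
    (B24 : 0 ≤ -d1 + 1)
    (ep2 : p2 = (y) * (-h - 1))
    (ep3 : p3 = (y) * (-h3 - 1))
    (w1 : a1 - b1 = 1) (w2 : a1 + a2 - b1 - b2 = 0) (w3 : a1 + a2 + a3 - b1 - b2 - b3 = -y)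
    (hno : ¬ ∃ u1 u2 u3 : ℤ, Good n1 n2 n3 a1 a2 a3 b1 b2 b3 u1 u2 u3)
    (hd : ∀ c1 c2 c3, LosC n1 n2 n3 a1 a2 a3 b1 b2 b3 c1 c2 c3 →
      ∃ v ∈ ([⟨0 ≤ b1 - 1, 2, -n2 + b2 + 1, -n2 + b2 - n3 + b3 - y + 1⟩, ⟨True, -h, 1, -n3 + a3 + 1⟩, ⟨True, -h3, -k, 1⟩, ⟨True, 1, -g, -y + 1⟩] : List LV), v.ex ∧ v.c1 ≤ c1 ∧ v.c2 ≤ c2 ∧ v.c3 ≤ c3) :
    (0 ≤ h) ∨ (0 ≤ h3 ∨ (0 ≤ -h3 - 1 ∧ 0 ≤ h3 + 1 ∧ 0 ≤ k - 1) ∨ (0 ≤ -h3 - 1 ∧ 0 ≤ h3 + 1 ∧ 0 ≤ -k ∧ 0 ≤ k ∧ 0 ≤ -p3 - y - 1)) ∨ (0 ≤ g - 1) := by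
  obtain ⟨v, hv, hex, hf⟩ := failB' w1 w2 w3 hno _ hd (1) (0) (0) (0) (1) (0) (y) (0) (1)
    ⟨zero_le_one, le_refl 0, le_refl 0⟩ ⟨le_refl 0, zero_le_one, le_refl 0⟩ ⟨by linarith only [B15, B16, B17, B18, B19, B20, B21, B22, B23, B24], le_refl 0, zero_le_one⟩
    (Or.inl (by linarith only [B15, B16, B17, B18, B19, B20, B21, B22, B23, B24]))
  simp only [List.mem_cons, List.not_mem_nil, or_false] at hv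
  rcases hv with rfl | rfl | rfl | rfl
  · exact (cvG_e1_V1_V2_11 hex hf).elim
  · exact Or.inl (cvG_e1_V1_V2_22 ep2 hf)
  · exact Or.inr (Or.inl (cvG_e1_V1_V2_33 ep3 hf))
  · exact Or.inr (Or.inr (cvG_e1_V1_V2_13 hf))

theorem cvG_e3_V1_V2_11 {b1 b2 b3 n2 n3 y : ℤ}
    (hex : 0 ≤ b1 - 1)
    (hf : LexFail ((0) * (2) + (0) * (-n2 + b2 + 1) + (1) * (-n2 + b2 - n3 + b3 - y + 1))
      ((0) * (2) + (1) * (-n2 + b2 + 1) + (0) * (-n2 + b2 - n3 + b3 - y + 1))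
      ((y) * (2) + (0) * (-n2 + b2 + 1) + (1) * (-n2 + b2 - n3 + b3 - y + 1))) :
    (0 ≤ b1 - 1 ∧ 0 ≤ n2 - b2 + n3 - b3 + y - 2) ∨ (0 ≤ b1 - 1 ∧ 0 ≤ -n2 + b2 - n3 + b3 - y + 1 ∧ 0 ≤ n2 - b2 + n3 - b3 + y - 1 ∧ 0 ≤ n2 - b2 - 2) ∨ (0 ≤ b1 - 1 ∧ 0 ≤ -n2 + b2 - n3 + b3 - y + 1 ∧ 0 ≤ n2 - b2 + n3 - b3 + y - 1 ∧ 0 ≤ -n2 + b2 + 1 ∧ 0 ≤ n2 - b2 - 1 ∧ 0 ≤ -y + n2 - b2 + n3 - b3 - 1) := by
  rcases hf with hf | ⟨hf0, hf⟩ | ⟨hf0, hf1, hf⟩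
  · exact Or.inl (⟨by linarith only [hex], by linarith only [hf]⟩)
  · exact Or.inr (Or.inl (⟨by linarith only [hex], by linarith only [hf0], by linarith only [hf0], by linarith only [hf]⟩))
  · exact Or.inr (Or.inr (⟨by linarith only [hex], by linarith only [hf0], by linarith only [hf0], by linarith only [hf1], by linarith only [hf1], by linarith only [hf]⟩))

theorem cvG_e3_V1_V2_22 {a3 h n3 p0 y : ℤ}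
    (ep0 : p0 = (y) * (-h))
    (hf : LexFail ((0) * (-h) + (0) * (1) + (1) * (-n3 + a3 + 1))
      ((0) * (-h) + (1) * (1) + (0) * (-n3 + a3 + 1))
      ((y) * (-h) + (0) * (1) + (1) * (-n3 + a3 + 1))) :
    0 ≤ n3 - a3 - 2 := by
  rcases hf with hf | ⟨hf0, hf⟩ | ⟨hf0, hf1, hf⟩
  · exact by linarith only [hf]
  · exfalso; linarith only [hf]
  · exfalso; linarith only [hf1]

theorem cvG_e3_V1_V2_33 {h3 k p1 y : ℤ}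
    (ep1 : p1 = (y) * (-h3))
    (hf : LexFail ((0) * (-h3) + (0) * (-k) + (1) * (1))
      ((0) * (-h3) + (1) * (-k) + (0) * (1))
      ((y) * (-h3) + (0) * (-k) + (1) * (1))) :
    False := by
  rcases hf with hf | ⟨hf0, hf⟩ | ⟨hf0, hf1, hf⟩
  · exfalso; linarith only [hf]
  · exfalso; linarith only [hf0]
  · exfalso; linarith only [hf0]

theorem cvG_e3_V1_V2_13 {g y : ℤ}
    (hf : LexFail ((0) * (1) + (0) * (-g) + (1) * (-y + 1))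
      ((0) * (1) + (1) * (-g) + (0) * (-y + 1))
      ((y) * (1) + (0) * (-g) + (1) * (-y + 1))) :
    0 ≤ y - 2 ∨ (0 ≤ -y + 1 ∧ 0 ≤ y - 1 ∧ 0 ≤ g - 1) := by
  rcases hf with hf | ⟨hf0, hf⟩ | ⟨hf0, hf1, hf⟩
  · exact Or.inl (by linarith only [hf])
  · exact Or.inr (⟨by linarith only [hf0], by linarith only [hf0], by linarith only [hf]⟩)
  · exfalso; linarith only [hf]

theorem Gt_e3_V1_V2 {n1 n2 n3 a1 a2 a3 b1 b2 b3 y d1 h h3 k g p0 p1 : ℤ}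
    (B15 : 0 ≤ a1 + a2 - b1 - b2)
    (B16 : 0 ≤ -a1 - a2 + b1 + b2)
    (B17 : 0 ≤ y + a1 + a2 + a3 - b1 - b2 - b3)
    (B18 : 0 ≤ -a1 - a2 - a3 + b1 + b2 + b3 - y)
    (B19 : 0 ≤ y - 1)
    (B20 : 0 ≤ d1 - a1 + b1)
    (B21 : 0 ≤ a1 - b1 - d1)
    (B22 : 0 ≤ d1 - 1)
    (B23 : 0 ≤ d1 - 1)
    (B24 : 0 ≤ -d1 + 1)
    (ep0 : p0 = (y) * (-h))
    (ep1 : p1 = (y) * (-h3))
    (w1 : a1 - b1 = 1) (w2 : a1 + a2 - b1 - b2 = 0) (w3 : a1 + a2 + a3 - b1 - b2 - b3 = -y)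
    (hno : ¬ ∃ u1 u2 u3 : ℤ, Good n1 n2 n3 a1 a2 a3 b1 b2 b3 u1 u2 u3)
    (hd : ∀ c1 c2 c3, LosC n1 n2 n3 a1 a2 a3 b1 b2 b3 c1 c2 c3 →
      ∃ v ∈ ([⟨0 ≤ b1 - 1, 2, -n2 + b2 + 1, -n2 + b2 - n3 + b3 - y + 1⟩, ⟨True, -h, 1, -n3 + a3 + 1⟩, ⟨True, -h3, -k, 1⟩, ⟨True, 1, -g, -y + 1⟩] : List LV), v.ex ∧ v.c1 ≤ c1 ∧ v.c2 ≤ c2 ∧ v.c3 ≤ c3) :
    ((0 ≤ b1 - 1 ∧ 0 ≤ n2 - b2 + n3 - b3 + y - 2) ∨ (0 ≤ b1 - 1 ∧ 0 ≤ -n2 + b2 - n3 + b3 - y + 1 ∧ 0 ≤ n2 - b2 + n3 - b3 + y - 1 ∧ 0 ≤ n2 - b2 - 2) ∨ (0 ≤ b1 - 1 ∧ 0 ≤ -n2 + b2 - n3 + b3 - y + 1 ∧ 0 ≤ n2 - b2 + n3 - b3 + y - 1 ∧ 0 ≤ -n2 + b2 + 1 ∧ 0 ≤ n2 - b2 - 1 ∧ 0 ≤ -y + n2 - b2 + n3 - b3 - 1)) ∨ (0 ≤ n3 - a3 - 2) ∨ (0 ≤ y - 2 ∨ (0 ≤ -y + 1 ∧ 0 ≤ y - 1 ∧ 0 ≤ g - 1)) := by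
  obtain ⟨v, hv, hex, hf⟩ := failA' w1 w2 w3 hno _ hd (0) (0) (1) (0) (1) (0) (y) (0) (1)
    ⟨le_refl 0, le_refl 0, zero_le_one⟩ ⟨le_refl 0, zero_le_one, le_refl 0⟩ ⟨by linarith only [B15, B16, B17, B18, B19, B20, B21, B22, B23, B24], le_refl 0, zero_le_one⟩
    (Or.inl (by linarith only [B15, B16, B17, B18, B19, B20, B21, B22, B23, B24]))
  simp only [List.mem_cons, List.not_mem_nil, or_false] at hv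
  rcases hv with rfl | rfl | rfl | rfl
  · exact Or.inl (cvG_e3_V1_V2_11 hex hf)
  · exact Or.inr (Or.inl (cvG_e3_V1_V2_22 ep0 hf))
  · exact (cvG_e3_V1_V2_33 ep1 hf).elim
  · exact Or.inr (Or.inr (cvG_e3_V1_V2_13 hf))

theorem cvG_V1_e1_V2_11 {b1 b2 b3 n2 n3 y : ℤ}
    (hex : 0 ≤ b1 - 1)
    (hf : LexFail ((0) * (2 - (1)) + (1) * (-n2 + b2 + 1 - (0)) + (0) * (-n2 + b2 - n3 + b3 - y + 1 - (-y)))
      ((1) * (2 - (1)) + (0) * (-n2 + b2 + 1 - (0)) + (0) * (-n2 + b2 - n3 + b3 - y + 1 - (-y)))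
      ((y) * (2 - (1)) + (0) * (-n2 + b2 + 1 - (0)) + (1) * (-n2 + b2 - n3 + b3 - y + 1 - (-y)))) :
    (0 ≤ b1 - 1 ∧ 0 ≤ n2 - b2 - 2) := by
  rcases hf with hf | ⟨hf0, hf⟩ | ⟨hf0, hf1, hf⟩
  · exact ⟨by linarith only [hex], by linarith only [hf]⟩
  · exfalso; linarith only [hf]
  · exfalso; linarith only [hf1]

theorem cvG_V1_e1_V2_22 {a3 h n3 p2 y : ℤ}
    (ep2 : p2 = (y) * (-h - 1))
    (hf : LexFail ((0) * (-h - (1)) + (1) * (1 - (0)) + (0) * (-n3 + a3 + 1 - (-y)))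
      ((1) * (-h - (1)) + (0) * (1 - (0)) + (0) * (-n3 + a3 + 1 - (-y)))
      ((y) * (-h - (1)) + (0) * (1 - (0)) + (1) * (-n3 + a3 + 1 - (-y)))) :
    False := by
  rcases hf with hf | ⟨hf0, hf⟩ | ⟨hf0, hf1, hf⟩
  · exfalso; linarith only [hf]
  · exfalso; linarith only [hf0]
  · exfalso; linarith only [hf0]

theorem cvG_V1_e1_V2_33 {h3 k p3 y : ℤ}
    (ep3 : p3 = (y) * (-h3 - 1))
    (hf : LexFail ((0) * (-h3 - (1)) + (1) * (-k - (0)) + (0) * (1 - (-y)))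
      ((1) * (-h3 - (1)) + (0) * (-k - (0)) + (0) * (1 - (-y)))
      ((y) * (-h3 - (1)) + (0) * (-k - (0)) + (1) * (1 - (-y)))) :
    0 ≤ k - 1 ∨ (0 ≤ -k ∧ 0 ≤ k ∧ 0 ≤ h3) ∨ (0 ≤ -k ∧ 0 ≤ k ∧ 0 ≤ -h3 - 1 ∧ 0 ≤ h3 + 1 ∧ 0 ≤ -p3 - y - 1) := by
  rcases hf with hf | ⟨hf0, hf⟩ | ⟨hf0, hf1, hf⟩
  · exact Or.inl (by linarith only [hf])
  · exact Or.inr (Or.inl (⟨by linarith only [hf0], by linarith only [hf0], by linarith only [hf]⟩))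
  · exact Or.inr (Or.inr (⟨by linarith only [hf0], by linarith only [hf0], by linarith only [hf1], by linarith only [hf1], by linarith only [hf, ep3]⟩))

theorem cvG_V1_e1_V2_13 {g y : ℤ}
    (hf : LexFail ((0) * (1 - (1)) + (1) * (-g - (0)) + (0) * (-y + 1 - (-y)))
      ((1) * (1 - (1)) + (0) * (-g - (0)) + (0) * (-y + 1 - (-y)))
      ((y) * (1 - (1)) + (0) * (-g - (0)) + (1) * (-y + 1 - (-y)))) :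
    0 ≤ g - 1 := by
  rcases hf with hf | ⟨hf0, hf⟩ | ⟨hf0, hf1, hf⟩
  · exact by linarith only [hf]
  · exfalso; linarith only [hf]
  · exfalso; linarith only [hf]

theorem Gt_V1_e1_V2 {n1 n2 n3 a1 a2 a3 b1 b2 b3 y d1 h h3 k g p2 p3 : ℤ}
    (B15 : 0 ≤ a1 + a2 - b1 - b2)
    (B16 : 0 ≤ -a1 - a2 + b1 + b2)
    (B17 : 0 ≤ y + a1 + a2 + a3 - b1 - b2 - b3)
    (B18 : 0 ≤ -a1 - a2 - a3 + b1 + b2 + b3 - y)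
    (B19 : 0 ≤ y - 1)
    (B20 : 0 ≤ d1 - a1 + b1)
    (B21 : 0 ≤ a1 - b1 - d1)
    (B22 : 0 ≤ d1 - 1)
    (B23 : 0 ≤ d1 - 1)
    (B24 : 0 ≤ -d1 + 1)
    (ep2 : p2 = (y) * (-h - 1))
    (ep3 : p3 = (y) * (-h3 - 1))
    (w1 : a1 - b1 = 1) (w2 : a1 + a2 - b1 - b2 = 0) (w3 : a1 + a2 + a3 - b1 - b2 - b3 = -y)
    (hno : ¬ ∃ u1 u2 u3 : ℤ, Good n1 n2 n3 a1 a2 a3 b1 b2 b3 u1 u2 u3)
    (hd : ∀ c1 c2 c3, LosC n1 n2 n3 a1 a2 a3 b1 b2 b3 c1 c2 c3 →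
      ∃ v ∈ ([⟨0 ≤ b1 - 1, 2, -n2 + b2 + 1, -n2 + b2 - n3 + b3 - y + 1⟩, ⟨True, -h, 1, -n3 + a3 + 1⟩, ⟨True, -h3, -k, 1⟩, ⟨True, 1, -g, -y + 1⟩] : List LV), v.ex ∧ v.c1 ≤ c1 ∧ v.c2 ≤ c2 ∧ v.c3 ≤ c3) :
    ((0 ≤ b1 - 1 ∧ 0 ≤ n2 - b2 - 2)) ∨ (0 ≤ k - 1 ∨ (0 ≤ -k ∧ 0 ≤ k ∧ 0 ≤ h3) ∨ (0 ≤ -k ∧ 0 ≤ k ∧ 0 ≤ -h3 - 1 ∧ 0 ≤ h3 + 1 ∧ 0 ≤ -p3 - y - 1)) ∨ (0 ≤ g - 1) := by
  obtain ⟨v, hv, hex, hf⟩ := failB' w1 w2 w3 hno _ hd (0) (1) (0) (1) (0) (0) (y) (0) (1)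
    ⟨le_refl 0, zero_le_one, le_refl 0⟩ ⟨zero_le_one, le_refl 0, le_refl 0⟩ ⟨by linarith only [B15, B16, B17, B18, B19, B20, B21, B22, B23, B24], le_refl 0, zero_le_one⟩
    (Or.inr ⟨by ring, Or.inl (by linarith only [B15, B16, B17, B18, B19, B20, B21, B22, B23, B24])⟩)
  simp only [List.mem_cons, List.not_mem_nil, or_false] at hv
  rcases hv with rfl | rfl | rfl | rfl
  · exact Or.inl (cvG_V1_e1_V2_11 hex hf)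
  · exact (cvG_V1_e1_V2_22 ep2 hf).elim
  · exact Or.inr (Or.inl (cvG_V1_e1_V2_33 ep3 hf))
  · exact Or.inr (Or.inr (cvG_V1_e1_V2_13 hf))

theorem cvG_e3_V2_V1_11 {b1 b2 b3 n2 n3 y : ℤ}
    (hex : 0 ≤ b1 - 1)
    (hf : LexFail ((0) * (2) + (0) * (-n2 + b2 + 1) + (1) * (-n2 + b2 - n3 + b3 - y + 1))
      ((y) * (2) + (0) * (-n2 + b2 + 1) + (1) * (-n2 + b2 - n3 + b3 - y + 1))
      ((0) * (2) + (1) * (-n2 + b2 + 1) + (0) * (-n2 + b2 - n3 + b3 - y + 1))) :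
    (0 ≤ b1 - 1 ∧ 0 ≤ n2 - b2 + n3 - b3 + y - 2) ∨ (0 ≤ b1 - 1 ∧ 0 ≤ -n2 + b2 - n3 + b3 - y + 1 ∧ 0 ≤ n2 - b2 + n3 - b3 + y - 1 ∧ 0 ≤ -y + n2 - b2 + n3 - b3 - 2) ∨ (0 ≤ b1 - 1 ∧ 0 ≤ -n2 + b2 - n3 + b3 - y + 1 ∧ 0 ≤ n2 - b2 + n3 - b3 + y - 1 ∧ 0 ≤ y - n2 + b2 - n3 + b3 + 1 ∧ 0 ≤ -y + n2 - b2 + n3 - b3 - 1 ∧ 0 ≤ n2 - b2 - 1) := by
  rcases hf with hf | ⟨hf0, hf⟩ | ⟨hf0, hf1, hf⟩
  · exact Or.inl (⟨by linarith only [hex], by linarith only [hf]⟩)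
  · exact Or.inr (Or.inl (⟨by linarith only [hex], by linarith only [hf0], by linarith only [hf0], by linarith only [hf]⟩))
  · exact Or.inr (Or.inr (⟨by linarith only [hex], by linarith only [hf0], by linarith only [hf0], by linarith only [hf1], by linarith only [hf1], by linarith only [hf]⟩))

theorem cvG_e3_V2_V1_22 {a3 h n3 p0 y : ℤ}
    (ep0 : p0 = (y) * (-h))
    (hf : LexFail ((0) * (-h) + (0) * (1) + (1) * (-n3 + a3 + 1))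
      ((y) * (-h) + (0) * (1) + (1) * (-n3 + a3 + 1))
      ((0) * (-h) + (1) * (1) + (0) * (-n3 + a3 + 1))) :
    0 ≤ n3 - a3 - 2 ∨ (0 ≤ -n3 + a3 + 1 ∧ 0 ≤ n3 - a3 - 1 ∧ 0 ≤ -p0 + n3 - a3 - 2) := by
  rcases hf with hf | ⟨hf0, hf⟩ | ⟨hf0, hf1, hf⟩
  · exact Or.inl (by linarith only [hf])
  · exact Or.inr (⟨by linarith only [hf0], by linarith only [hf0], by linarith only [hf, ep0]⟩)
  · exfalso; linarith only [hf]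

theorem cvG_e3_V2_V1_33 {h3 k p1 y : ℤ}
    (ep1 : p1 = (y) * (-h3))
    (hf : LexFail ((0) * (-h3) + (0) * (-k) + (1) * (1))
      ((y) * (-h3) + (0) * (-k) + (1) * (1))
      ((0) * (-h3) + (1) * (-k) + (0) * (1))) :
    False := by
  rcases hf with hf | ⟨hf0, hf⟩ | ⟨hf0, hf1, hf⟩
  · exfalso; linarith only [hf]
  · exfalso; linarith only [hf0]
  · exfalso; linarith only [hf0]

theorem cvG_e3_V2_V1_13 {g y : ℤ}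
    (hf : LexFail ((0) * (1) + (0) * (-g) + (1) * (-y + 1))
      ((y) * (1) + (0) * (-g) + (1) * (-y + 1))
      ((0) * (1) + (1) * (-g) + (0) * (-y + 1))) :
    0 ≤ y - 2 := by
  rcases hf with hf | ⟨hf0, hf⟩ | ⟨hf0, hf1, hf⟩
  · exact by linarith only [hf]
  · exfalso; linarith only [hf]
  · exfalso; linarith only [hf1]

theorem Gt_e3_V2_V1 {n1 n2 n3 a1 a2 a3 b1 b2 b3 y d1 h h3 k g p0 p1 : ℤ}
    (B15 : 0 ≤ a1 + a2 - b1 - b2)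
    (B16 : 0 ≤ -a1 - a2 + b1 + b2)
    (B17 : 0 ≤ y + a1 + a2 + a3 - b1 - b2 - b3)
    (B18 : 0 ≤ -a1 - a2 - a3 + b1 + b2 + b3 - y)
    (B19 : 0 ≤ y - 1)
    (B20 : 0 ≤ d1 - a1 + b1)
    (B21 : 0 ≤ a1 - b1 - d1)
    (B22 : 0 ≤ d1 - 1)
    (B23 : 0 ≤ d1 - 1)
    (B24 : 0 ≤ -d1 + 1)
    (ep0 : p0 = (y) * (-h))
    (ep1 : p1 = (y) * (-h3))
    (w1 : a1 - b1 = 1) (w2 : a1 + a2 - b1 - b2 = 0) (w3 : a1 + a2 + a3 - b1 - b2 - b3 = -y)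
    (hno : ¬ ∃ u1 u2 u3 : ℤ, Good n1 n2 n3 a1 a2 a3 b1 b2 b3 u1 u2 u3)
    (hd : ∀ c1 c2 c3, LosC n1 n2 n3 a1 a2 a3 b1 b2 b3 c1 c2 c3 →
      ∃ v ∈ ([⟨0 ≤ b1 - 1, 2, -n2 + b2 + 1, -n2 + b2 - n3 + b3 - y + 1⟩, ⟨True, -h, 1, -n3 + a3 + 1⟩, ⟨True, -h3, -k, 1⟩, ⟨True, 1, -g, -y + 1⟩] : List LV), v.ex ∧ v.c1 ≤ c1 ∧ v.c2 ≤ c2 ∧ v.c3 ≤ c3) :
    ((0 ≤ b1 - 1 ∧ 0 ≤ n2 - b2 + n3 - b3 + y - 2) ∨ (0 ≤ b1 - 1 ∧ 0 ≤ -n2 + b2 - n3 + b3 - y + 1 ∧ 0 ≤ n2 - b2 + n3 - b3 + y - 1 ∧ 0 ≤ -y + n2 - b2 + n3 - b3 - 2) ∨ (0 ≤ b1 - 1 ∧ 0 ≤ -n2 + b2 - n3 + b3 - y + 1 ∧ 0 ≤ n2 - b2 + n3 - b3 + y - 1 ∧ 0 ≤ y - n2 + b2 - n3 + b3 + 1 ∧ 0 ≤ -y + n2 - b2 + n3 - b3 - 1 ∧ 0 ≤ n2 - b2 - 1)) ∨ (0 ≤ n3 - a3 - 2 ∨ (0 ≤ -n3 + a3 + 1 ∧ 0 ≤ n3 - a3 - 1 ∧ 0 ≤ -p0 + n3 - a3 - 2)) ∨ (0 ≤ y - 2) := by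
  obtain ⟨v, hv, hex, hf⟩ := failA' w1 w2 w3 hno _ hd (0) (0) (1) (y) (0) (1) (0) (1) (0)
    ⟨le_refl 0, le_refl 0, zero_le_one⟩ ⟨by linarith only [B15, B16, B17, B18, B19, B20, B21, B22, B23, B24], le_refl 0, zero_le_one⟩ ⟨le_refl 0, zero_le_one, le_refl 0⟩
    (Or.inl (by linarith only [B15, B16, B17, B18, B19, B20, B21, B22, B23, B24]))
  simp only [List.mem_cons, List.not_mem_nil, or_false] at hv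
  rcases hv with rfl | rfl | rfl | rfl
  · exact Or.inl (cvG_e3_V2_V1_11 hex hf)
  · exact Or.inr (Or.inl (cvG_e3_V2_V1_22 ep0 hf))
  · exact (cvG_e3_V2_V1_33 ep1 hf).elim
  · exact Or.inr (Or.inr (cvG_e3_V2_V1_13 hf))

theorem cvG_V1_e3_V2_11 {b1 b2 b3 n2 n3 y : ℤ}
    (hex : 0 ≤ b1 - 1)
    (hf : LexFail ((0) * (2) + (1) * (-n2 + b2 + 1) + (0) * (-n2 + b2 - n3 + b3 - y + 1))
      ((0) * (2) + (0) * (-n2 + b2 + 1) + (1) * (-n2 + b2 - n3 + b3 - y + 1))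
      ((y) * (2) + (0) * (-n2 + b2 + 1) + (1) * (-n2 + b2 - n3 + b3 - y + 1))) :
    (0 ≤ b1 - 1 ∧ 0 ≤ n2 - b2 - 2) ∨ (0 ≤ b1 - 1 ∧ 0 ≤ -n2 + b2 + 1 ∧ 0 ≤ n2 - b2 - 1 ∧ 0 ≤ n2 - b2 + n3 - b3 + y - 2) ∨ (0 ≤ b1 - 1 ∧ 0 ≤ -n2 + b2 + 1 ∧ 0 ≤ n2 - b2 - 1 ∧ 0 ≤ -n2 + b2 - n3 + b3 - y + 1 ∧ 0 ≤ n2 - b2 + n3 - b3 + y - 1 ∧ 0 ≤ -y + n2 - b2 + n3 - b3 - 1) := by
  rcases hf with hf | ⟨hf0, hf⟩ | ⟨hf0, hf1, hf⟩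
  · exact Or.inl (⟨by linarith only [hex], by linarith only [hf]⟩)
  · exact Or.inr (Or.inl (⟨by linarith only [hex], by linarith only [hf0], by linarith only [hf0], by linarith only [hf]⟩))
  · exact Or.inr (Or.inr (⟨by linarith only [hex], by linarith only [hf0], by linarith only [hf0], by linarith only [hf1], by linarith only [hf1], by linarith only [hf]⟩))

theorem cvG_V1_e3_V2_22 {a3 h n3 p0 y : ℤ}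
    (ep0 : p0 = (y) * (-h))
    (hf : LexFail ((0) * (-h) + (1) * (1) + (0) * (-n3 + a3 + 1))
      ((0) * (-h) + (0) * (1) + (1) * (-n3 + a3 + 1))
      ((y) * (-h) + (0) * (1) + (1) * (-n3 + a3 + 1))) :
    False := by
  rcases hf with hf | ⟨hf0, hf⟩ | ⟨hf0, hf1, hf⟩
  · exfalso; linarith only [hf]
  · exfalso; linarith only [hf0]
  · exfalso; linarith only [hf0]

theorem cvG_V1_e3_V2_33 {h3 k p1 y : ℤ}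
    (ep1 : p1 = (y) * (-h3))
    (hf : LexFail ((0) * (-h3) + (1) * (-k) + (0) * (1))
      ((0) * (-h3) + (0) * (-k) + (1) * (1))
      ((y) * (-h3) + (0) * (-k) + (1) * (1))) :
    0 ≤ k - 1 := by
  rcases hf with hf | ⟨hf0, hf⟩ | ⟨hf0, hf1, hf⟩
  · exact by linarith only [hf]
  · exfalso; linarith only [hf]
  · exfalso; linarith only [hf1]

theorem cvG_V1_e3_V2_13 {g y : ℤ}
    (hf : LexFail ((0) * (1) + (1) * (-g) + (0) * (-y + 1))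
      ((0) * (1) + (0) * (-g) + (1) * (-y + 1))
      ((y) * (1) + (0) * (-g) + (1) * (-y + 1))) :
    0 ≤ g - 1 ∨ (0 ≤ -g ∧ 0 ≤ g ∧ 0 ≤ y - 2) := by
  rcases hf with hf | ⟨hf0, hf⟩ | ⟨hf0, hf1, hf⟩
  · exact Or.inl (by linarith only [hf])
  · exact Or.inr (⟨by linarith only [hf0], by linarith only [hf0], by linarith only [hf]⟩)
  · exfalso; linarith only [hf]

theorem Gt_V1_e3_V2 {n1 n2 n3 a1 a2 a3 b1 b2 b3 y d1 h h3 k g p0 p1 : ℤ}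
    (B15 : 0 ≤ a1 + a2 - b1 - b2)
    (B16 : 0 ≤ -a1 - a2 + b1 + b2)
    (B17 : 0 ≤ y + a1 + a2 + a3 - b1 - b2 - b3)
    (B18 : 0 ≤ -a1 - a2 - a3 + b1 + b2 + b3 - y)
    (B19 : 0 ≤ y - 1)
    (B20 : 0 ≤ d1 - a1 + b1)
    (B21 : 0 ≤ a1 - b1 - d1)
    (B22 : 0 ≤ d1 - 1)
    (B23 : 0 ≤ d1 - 1)
    (B24 : 0 ≤ -d1 + 1)
    (ep0 : p0 = (y) * (-h))
    (ep1 : p1 = (y) * (-h3))
    (w1 : a1 - b1 = 1) (w2 : a1 + a2 - b1 - b2 = 0) (w3 : a1 + a2 + a3 - b1 - b2 - b3 = -y)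
    (hno : ¬ ∃ u1 u2 u3 : ℤ, Good n1 n2 n3 a1 a2 a3 b1 b2 b3 u1 u2 u3)
    (hd : ∀ c1 c2 c3, LosC n1 n2 n3 a1 a2 a3 b1 b2 b3 c1 c2 c3 →
      ∃ v ∈ ([⟨0 ≤ b1 - 1, 2, -n2 + b2 + 1, -n2 + b2 - n3 + b3 - y + 1⟩, ⟨True, -h, 1, -n3 + a3 + 1⟩, ⟨True, -h3, -k, 1⟩, ⟨True, 1, -g, -y + 1⟩] : List LV), v.ex ∧ v.c1 ≤ c1 ∧ v.c2 ≤ c2 ∧ v.c3 ≤ c3) :
    ((0 ≤ b1 - 1 ∧ 0 ≤ n2 - b2 - 2) ∨ (0 ≤ b1 - 1 ∧ 0 ≤ -n2 + b2 + 1 ∧ 0 ≤ n2 - b2 - 1 ∧ 0 ≤ n2 - b2 + n3 - b3 + y - 2) ∨ (0 ≤ b1 - 1 ∧ 0 ≤ -n2 + b2 + 1 ∧ 0 ≤ n2 - b2 - 1 ∧ 0 ≤ -n2 + b2 - n3 + b3 - y + 1 ∧ 0 ≤ n2 - b2 + n3 - b3 + y - 1 ∧ 0 ≤ -y + n2 - b2 + n3 - b3 - 1)) ∨ (0 ≤ k - 1) ∨ (0 ≤ g - 1 ∨ (0 ≤ -g ∧ 0 ≤ g ∧ 0 ≤ y - 2)) := by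
  obtain ⟨v, hv, hex, hf⟩ := failA' w1 w2 w3 hno _ hd (0) (1) (0) (0) (0) (1) (y) (0) (1)
    ⟨le_refl 0, zero_le_one, le_refl 0⟩ ⟨le_refl 0, le_refl 0, zero_le_one⟩ ⟨by linarith only [B15, B16, B17, B18, B19, B20, B21, B22, B23, B24], le_refl 0, zero_le_one⟩
    (Or.inr ⟨by ring, Or.inl (by linarith only [B15, B16, B17, B18, B19, B20, B21, B22, B23, B24])⟩)
  simp only [List.mem_cons, List.not_mem_nil, or_false] at hv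
  rcases hv with rfl | rfl | rfl | rfl
  · exact Or.inl (cvG_V1_e3_V2_11 hex hf)
  · exact (cvG_V1_e3_V2_22 ep0 hf).elim
  · exact Or.inr (Or.inl (cvG_V1_e3_V2_33 ep1 hf))
  · exact Or.inr (Or.inr (cvG_V1_e3_V2_13 hf))

theorem cvG_e1_V2_V1_11 {b1 b2 b3 n2 n3 y : ℤ}
    (hex : 0 ≤ b1 - 1)
    (hf : LexFail ((1) * (2 - (1)) + (0) * (-n2 + b2 + 1 - (0)) + (0) * (-n2 + b2 - n3 + b3 - y + 1 - (-y)))
      ((y) * (2 - (1)) + (0) * (-n2 + b2 + 1 - (0)) + (1) * (-n2 + b2 - n3 + b3 - y + 1 - (-y)))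
      ((0) * (2 - (1)) + (1) * (-n2 + b2 + 1 - (0)) + (0) * (-n2 + b2 - n3 + b3 - y + 1 - (-y)))) :
    False := by
  rcases hf with hf | ⟨hf0, hf⟩ | ⟨hf0, hf1, hf⟩
  · exfalso; linarith only [hf]
  · exfalso; linarith only [hf0]
  · exfalso; linarith only [hf0]

theorem cvG_e1_V2_V1_22 {a3 h n3 p2 y : ℤ}
    (ep2 : p2 = (y) * (-h - 1))
    (hf : LexFail ((1) * (-h - (1)) + (0) * (1 - (0)) + (0) * (-n3 + a3 + 1 - (-y)))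
      ((y) * (-h - (1)) + (0) * (1 - (0)) + (1) * (-n3 + a3 + 1 - (-y)))
      ((0) * (-h - (1)) + (1) * (1 - (0)) + (0) * (-n3 + a3 + 1 - (-y)))) :
    0 ≤ h ∨ (0 ≤ -h - 1 ∧ 0 ≤ h + 1 ∧ 0 ≤ -p2 + n3 - a3 - y - 2) := by
  rcases hf with hf | ⟨hf0, hf⟩ | ⟨hf0, hf1, hf⟩
  · exact Or.inl (by linarith only [hf])
  · exact Or.inr (⟨by linarith only [hf0], by linarith only [hf0], by linarith only [hf, ep2]⟩)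
  · exfalso; linarith only [hf]

theorem cvG_e1_V2_V1_33 {h3 k p3 y : ℤ}
    (ep3 : p3 = (y) * (-h3 - 1))
    (hf : LexFail ((1) * (-h3 - (1)) + (0) * (-k - (0)) + (0) * (1 - (-y)))
      ((y) * (-h3 - (1)) + (0) * (-k - (0)) + (1) * (1 - (-y)))
      ((0) * (-h3 - (1)) + (1) * (-k - (0)) + (0) * (1 - (-y)))) :
    0 ≤ h3 ∨ (0 ≤ -h3 - 1 ∧ 0 ≤ h3 + 1 ∧ 0 ≤ -p3 - y - 2) ∨ (0 ≤ -h3 - 1 ∧ 0 ≤ h3 + 1 ∧ 0 ≤ p3 + y + 1 ∧ 0 ≤ -p3 - y - 1 ∧ 0 ≤ k) := by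
  rcases hf with hf | ⟨hf0, hf⟩ | ⟨hf0, hf1, hf⟩
  · exact Or.inl (by linarith only [hf])
  · exact Or.inr (Or.inl (⟨by linarith only [hf0], by linarith only [hf0], by linarith only [hf, ep3]⟩))
  · exact Or.inr (Or.inr (⟨by linarith only [hf0], by linarith only [hf0], by linarith only [hf1, ep3], by linarith only [hf1, ep3], by linarith only [hf]⟩))

theorem cvG_e1_V2_V1_13 {g y : ℤ}
    (hf : LexFail ((1) * (1 - (1)) + (0) * (-g - (0)) + (0) * (-y + 1 - (-y)))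
      ((y) * (1 - (1)) + (0) * (-g - (0)) + (1) * (-y + 1 - (-y)))
      ((0) * (1 - (1)) + (1) * (-g - (0)) + (0) * (-y + 1 - (-y)))) :
    False := by
  rcases hf with hf | ⟨hf0, hf⟩ | ⟨hf0, hf1, hf⟩
  · exfalso; linarith only [hf]
  · exfalso; linarith only [hf]
  · exfalso; linarith only [hf1]

theorem Gt_e1_V2_V1 {n1 n2 n3 a1 a2 a3 b1 b2 b3 y d1 h h3 k g p2 p3 : ℤ}
    (B15 : 0 ≤ a1 + a2 - b1 - b2)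
    (B16 : 0 ≤ -a1 - a2 + b1 + b2)
    (B17 : 0 ≤ y + a1 + a2 + a3 - b1 - b2 - b3)
    (B18 : 0 ≤ -a1 - a2 - a3 + b1 + b2 + b3 - y)
    (B19 : 0 ≤ y - 1)
    (B20 : 0 ≤ d1 - a1 + b1)
    (B21 : 0 ≤ a1 - b1 - d1)
    (B22 : 0 ≤ d1 - 1)
    (B23 : 0 ≤ d1 - 1)
    (B24 : 0 ≤ -d1 + 1)
    (ep2 : p2 = (y) * (-h - 1))
    (ep3 : p3 = (y) * (-h3 - 1))
    (w1 : a1 - b1 = 1) (w2 : a1 + a2 - b1 - b2 = 0) (w3 : a1 + a2 + a3 - b1 - b2 - b3 = -y)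
    (hno : ¬ ∃ u1 u2 u3 : ℤ, Good n1 n2 n3 a1 a2 a3 b1 b2 b3 u1 u2 u3)
    (hd : ∀ c1 c2 c3, LosC n1 n2 n3 a1 a2 a3 b1 b2 b3 c1 c2 c3 →
      ∃ v ∈ ([⟨0 ≤ b1 - 1, 2, -n2 + b2 + 1, -n2 + b2 - n3 + b3 - y + 1⟩, ⟨True, -h, 1, -n3 + a3 + 1⟩, ⟨True, -h3, -k, 1⟩, ⟨True, 1, -g, -y + 1⟩] : List LV), v.ex ∧ v.c1 ≤ c1 ∧ v.c2 ≤ c2 ∧ v.c3 ≤ c3) :
    (0 ≤ h ∨ (0 ≤ -h - 1 ∧ 0 ≤ h + 1 ∧ 0 ≤ -p2 + n3 - a3 - y - 2)) ∨ (0 ≤ h3 ∨ (0 ≤ -h3 - 1 ∧ 0 ≤ h3 + 1 ∧ 0 ≤ -p3 - y - 2) ∨ (0 ≤ -h3 - 1 ∧ 0 ≤ h3 + 1 ∧ 0 ≤ p3 + y + 1 ∧ 0 ≤ -p3 - y - 1 ∧ 0 ≤ k)) := by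
  obtain ⟨v, hv, hex, hf⟩ := failB' w1 w2 w3 hno _ hd (1) (0) (0) (y) (0) (1) (0) (1) (0)
    ⟨zero_le_one, le_refl 0, le_refl 0⟩ ⟨by linarith only [B15, B16, B17, B18, B19, B20, B21, B22, B23, B24], le_refl 0, zero_le_one⟩ ⟨le_refl 0, zero_le_one, le_refl 0⟩
    (Or.inl (by linarith only [B15, B16, B17, B18, B19, B20, B21, B22, B23, B24]))
  simp only [List.mem_cons, List.not_mem_nil, or_false] at hv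
  rcases hv with rfl | rfl | rfl | rfl
  · exact (cvG_e1_V2_V1_11 hex hf).elim
  · exact Or.inl (cvG_e1_V2_V1_22 ep2 hf)
  · exact Or.inr (cvG_e1_V2_V1_33 ep3 hf)
  · exact (cvG_e1_V2_V1_13 hf).elim

theorem cvG_V2_e1_V1_11 {b1 b2 b3 n2 n3 y : ℤ}
    (hex : 0 ≤ b1 - 1)
    (hf : LexFail ((y) * (2 - (1)) + (0) * (-n2 + b2 + 1 - (0)) + (1) * (-n2 + b2 - n3 + b3 - y + 1 - (-y)))
      ((1) * (2 - (1)) + (0) * (-n2 + b2 + 1 - (0)) + (0) * (-n2 + b2 - n3 + b3 - y + 1 - (-y)))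
      ((0) * (2 - (1)) + (1) * (-n2 + b2 + 1 - (0)) + (0) * (-n2 + b2 - n3 + b3 - y + 1 - (-y)))) :
    (0 ≤ b1 - 1 ∧ 0 ≤ -y + n2 - b2 + n3 - b3 - 2) := by
  rcases hf with hf | ⟨hf0, hf⟩ | ⟨hf0, hf1, hf⟩
  · exact ⟨by linarith only [hex], by linarith only [hf]⟩
  · exfalso; linarith only [hf]
  · exfalso; linarith only [hf1]

theorem cvG_V2_e1_V1_22 {a3 h n3 p0 y : ℤ}
    (ep0 : p0 = (y) * (-h))
    (hf : LexFail ((y) * (-h - (1)) + (0) * (1 - (0)) + (1) * (-n3 + a3 + 1 - (-y)))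
      ((1) * (-h - (1)) + (0) * (1 - (0)) + (0) * (-n3 + a3 + 1 - (-y)))
      ((0) * (-h - (1)) + (1) * (1 - (0)) + (0) * (-n3 + a3 + 1 - (-y)))) :
    0 ≤ -p0 + n3 - a3 - 2 ∨ (0 ≤ p0 - n3 + a3 + 1 ∧ 0 ≤ -p0 + n3 - a3 - 1 ∧ 0 ≤ h) := by
  rcases hf with hf | ⟨hf0, hf⟩ | ⟨hf0, hf1, hf⟩
  · exact Or.inl (by linarith only [hf, ep0])
  · exact Or.inr (⟨by linarith only [hf0, ep0], by linarith only [hf0, ep0], by linarith only [hf]⟩)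
  · exfalso; linarith only [hf]

theorem cvG_V2_e1_V1_33 {h3 k p1 y : ℤ}
    (ep1 : p1 = (y) * (-h3))
    (hf : LexFail ((y) * (-h3 - (1)) + (0) * (-k - (0)) + (1) * (1 - (-y)))
      ((1) * (-h3 - (1)) + (0) * (-k - (0)) + (0) * (1 - (-y)))
      ((0) * (-h3 - (1)) + (1) * (-k - (0)) + (0) * (1 - (-y)))) :
    0 ≤ -p1 - 2 ∨ (0 ≤ p1 + 1 ∧ 0 ≤ -p1 - 1 ∧ 0 ≤ h3) ∨ (0 ≤ p1 + 1 ∧ 0 ≤ -p1 - 1 ∧ 0 ≤ -h3 - 1 ∧ 0 ≤ h3 + 1 ∧ 0 ≤ k) := by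
  rcases hf with hf | ⟨hf0, hf⟩ | ⟨hf0, hf1, hf⟩
  · exact Or.inl (by linarith only [hf, ep1])
  · exact Or.inr (Or.inl (⟨by linarith only [hf0, ep1], by linarith only [hf0, ep1], by linarith only [hf]⟩))
  · exact Or.inr (Or.inr (⟨by linarith only [hf0, ep1], by linarith only [hf0, ep1], by linarith only [hf1], by linarith only [hf1], by linarith only [hf]⟩))

theorem cvG_V2_e1_V1_13 {g y : ℤ}
    (hf : LexFail ((y) * (1 - (1)) + (0) * (-g - (0)) + (1) * (-y + 1 - (-y)))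
      ((1) * (1 - (1)) + (0) * (-g - (0)) + (0) * (-y + 1 - (-y)))
      ((0) * (1 - (1)) + (1) * (-g - (0)) + (0) * (-y + 1 - (-y)))) :
    False := by
  rcases hf with hf | ⟨hf0, hf⟩ | ⟨hf0, hf1, hf⟩
  · exfalso; linarith only [hf]
  · exfalso; linarith only [hf0]
  · exfalso; linarith only [hf0]

theorem Gt_V2_e1_V1 {n1 n2 n3 a1 a2 a3 b1 b2 b3 y d1 h h3 k g p0 p1 : ℤ}
    (B15 : 0 ≤ a1 + a2 - b1 - b2)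
    (B16 : 0 ≤ -a1 - a2 + b1 + b2)
    (B17 : 0 ≤ y + a1 + a2 + a3 - b1 - b2 - b3)
    (B18 : 0 ≤ -a1 - a2 - a3 + b1 + b2 + b3 - y)
    (B19 : 0 ≤ y - 1)
    (B20 : 0 ≤ d1 - a1 + b1)
    (B21 : 0 ≤ a1 - b1 - d1)
    (B22 : 0 ≤ d1 - 1)
    (B23 : 0 ≤ d1 - 1)
    (B24 : 0 ≤ -d1 + 1)
    (ep0 : p0 = (y) * (-h))
    (ep1 : p1 = (y) * (-h3))
    (w1 : a1 - b1 = 1) (w2 : a1 + a2 - b1 - b2 = 0) (w3 : a1 + a2 + a3 - b1 - b2 - b3 = -y)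
    (hno : ¬ ∃ u1 u2 u3 : ℤ, Good n1 n2 n3 a1 a2 a3 b1 b2 b3 u1 u2 u3)
    (hd : ∀ c1 c2 c3, LosC n1 n2 n3 a1 a2 a3 b1 b2 b3 c1 c2 c3 →
      ∃ v ∈ ([⟨0 ≤ b1 - 1, 2, -n2 + b2 + 1, -n2 + b2 - n3 + b3 - y + 1⟩, ⟨True, -h, 1, -n3 + a3 + 1⟩, ⟨True, -h3, -k, 1⟩, ⟨True, 1, -g, -y + 1⟩] : List LV), v.ex ∧ v.c1 ≤ c1 ∧ v.c2 ≤ c2 ∧ v.c3 ≤ c3) :
    ((0 ≤ b1 - 1 ∧ 0 ≤ -y + n2 - b2 + n3 - b3 - 2)) ∨ (0 ≤ -p0 + n3 - a3 - 2 ∨ (0 ≤ p0 - n3 + a3 + 1 ∧ 0 ≤ -p0 + n3 - a3 - 1 ∧ 0 ≤ h)) ∨ (0 ≤ -p1 - 2 ∨ (0 ≤ p1 + 1 ∧ 0 ≤ -p1 - 1 ∧ 0 ≤ h3) ∨ (0 ≤ p1 + 1 ∧ 0 ≤ -p1 - 1 ∧ 0 ≤ -h3 - 1 ∧ 0 ≤ h3 + 1 ∧ 0 ≤ k)) := by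
  obtain ⟨v, hv, hex, hf⟩ := failB' w1 w2 w3 hno _ hd (y) (0) (1) (1) (0) (0) (0) (1) (0)
    ⟨by linarith only [B15, B16, B17, B18, B19, B20, B21, B22, B23, B24], le_refl 0, zero_le_one⟩ ⟨zero_le_one, le_refl 0, le_refl 0⟩ ⟨le_refl 0, zero_le_one, le_refl 0⟩
    (Or.inr ⟨by ring, Or.inl (by linarith only [B15, B16, B17, B18, B19, B20, B21, B22, B23, B24])⟩)
  simp only [List.mem_cons, List.not_mem_nil, or_false] at hv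
  rcases hv with rfl | rfl | rfl | rfl
  · exact Or.inl (cvG_V2_e1_V1_11 hex hf)
  · exact Or.inr (Or.inl (cvG_V2_e1_V1_22 ep0 hf))
  · exact Or.inr (Or.inr (cvG_V2_e1_V1_33 ep1 hf))
  · exact (cvG_V2_e1_V1_13 hf).elim

theorem cvG_V2_e3_V1_11 {b1 b2 b3 n2 n3 y : ℤ}
    (hex : 0 ≤ b1 - 1)
    (hf : LexFail ((y) * (2) + (0) * (-n2 + b2 + 1) + (1) * (-n2 + b2 - n3 + b3 - y + 1))
      ((0) * (2) + (0) * (-n2 + b2 + 1) + (1) * (-n2 + b2 - n3 + b3 - y + 1))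
      ((0) * (2) + (1) * (-n2 + b2 + 1) + (0) * (-n2 + b2 - n3 + b3 - y + 1))) :
    (0 ≤ b1 - 1 ∧ 0 ≤ -y + n2 - b2 + n3 - b3 - 2) ∨ (0 ≤ b1 - 1 ∧ 0 ≤ y - n2 + b2 - n3 + b3 + 1 ∧ 0 ≤ -y + n2 - b2 + n3 - b3 - 1 ∧ 0 ≤ n2 - b2 + n3 - b3 + y - 2) ∨ (0 ≤ b1 - 1 ∧ 0 ≤ y - n2 + b2 - n3 + b3 + 1 ∧ 0 ≤ -y + n2 - b2 + n3 - b3 - 1 ∧ 0 ≤ -n2 + b2 - n3 + b3 - y + 1 ∧ 0 ≤ n2 - b2 + n3 - b3 + y - 1 ∧ 0 ≤ n2 - b2 - 1) := by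
  rcases hf with hf | ⟨hf0, hf⟩ | ⟨hf0, hf1, hf⟩
  · exact Or.inl (⟨by linarith only [hex], by linarith only [hf]⟩)
  · exact Or.inr (Or.inl (⟨by linarith only [hex], by linarith only [hf0], by linarith only [hf0], by linarith only [hf]⟩))
  · exact Or.inr (Or.inr (⟨by linarith only [hex], by linarith only [hf0], by linarith only [hf0], by linarith only [hf1], by linarith only [hf1], by linarith only [hf]⟩))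

theorem cvG_V2_e3_V1_22 {a3 h n3 p0 y : ℤ}
    (ep0 : p0 = (y) * (-h))
    (hf : LexFail ((y) * (-h) + (0) * (1) + (1) * (-n3 + a3 + 1))
      ((0) * (-h) + (0) * (1) + (1) * (-n3 + a3 + 1))
      ((0) * (-h) + (1) * (1) + (0) * (-n3 + a3 + 1))) :
    0 ≤ -p0 + n3 - a3 - 2 ∨ (0 ≤ p0 - n3 + a3 + 1 ∧ 0 ≤ -p0 + n3 - a3 - 1 ∧ 0 ≤ n3 - a3 - 2) := by
  rcases hf with hf | ⟨hf0, hf⟩ | ⟨hf0, hf1, hf⟩
  · exact Or.inl (by linarith only [hf, ep0])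
  · exact Or.inr (⟨by linarith only [hf0, ep0], by linarith only [hf0, ep0], by linarith only [hf]⟩)
  · exfalso; linarith only [hf]

theorem cvG_V2_e3_V1_33 {h3 k p1 y : ℤ}
    (ep1 : p1 = (y) * (-h3))
    (hf : LexFail ((y) * (-h3) + (0) * (-k) + (1) * (1))
      ((0) * (-h3) + (0) * (-k) + (1) * (1))
      ((0) * (-h3) + (1) * (-k) + (0) * (1))) :
    0 ≤ -p1 - 2 := by
  rcases hf with hf | ⟨hf0, hf⟩ | ⟨hf0, hf1, hf⟩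
  · exact by linarith only [hf, ep1]
  · exfalso; linarith only [hf]
  · exfalso; linarith only [hf1]

theorem cvG_V2_e3_V1_13 {g y : ℤ}
    (hf : LexFail ((y) * (1) + (0) * (-g) + (1) * (-y + 1))
      ((0) * (1) + (0) * (-g) + (1) * (-y + 1))
      ((0) * (1) + (1) * (-g) + (0) * (-y + 1))) :
    False := by
  rcases hf with hf | ⟨hf0, hf⟩ | ⟨hf0, hf1, hf⟩
  · exfalso; linarith only [hf]
  · exfalso; linarith only [hf0]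
  · exfalso; linarith only [hf0]

theorem Gt_V2_e3_V1 {n1 n2 n3 a1 a2 a3 b1 b2 b3 y d1 h h3 k g p0 p1 : ℤ}
    (B15 : 0 ≤ a1 + a2 - b1 - b2)
    (B16 : 0 ≤ -a1 - a2 + b1 + b2)
    (B17 : 0 ≤ y + a1 + a2 + a3 - b1 - b2 - b3)
    (B18 : 0 ≤ -a1 - a2 - a3 + b1 + b2 + b3 - y)
    (B19 : 0 ≤ y - 1)
    (B20 : 0 ≤ d1 - a1 + b1)
    (B21 : 0 ≤ a1 - b1 - d1)
    (B22 : 0 ≤ d1 - 1)
    (B23 : 0 ≤ d1 - 1)
    (B24 : 0 ≤ -d1 + 1)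
    (ep0 : p0 = (y) * (-h))
    (ep1 : p1 = (y) * (-h3))
    (w1 : a1 - b1 = 1) (w2 : a1 + a2 - b1 - b2 = 0) (w3 : a1 + a2 + a3 - b1 - b2 - b3 = -y)
    (hno : ¬ ∃ u1 u2 u3 : ℤ, Good n1 n2 n3 a1 a2 a3 b1 b2 b3 u1 u2 u3)
    (hd : ∀ c1 c2 c3, LosC n1 n2 n3 a1 a2 a3 b1 b2 b3 c1 c2 c3 →
      ∃ v ∈ ([⟨0 ≤ b1 - 1, 2, -n2 + b2 + 1, -n2 + b2 - n3 + b3 - y + 1⟩, ⟨True, -h, 1, -n3 + a3 + 1⟩, ⟨True, -h3, -k, 1⟩, ⟨True, 1, -g, -y + 1⟩] : List LV), v.ex ∧ v.c1 ≤ c1 ∧ v.c2 ≤ c2 ∧ v.c3 ≤ c3) :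
    ((0 ≤ b1 - 1 ∧ 0 ≤ -y + n2 - b2 + n3 - b3 - 2) ∨ (0 ≤ b1 - 1 ∧ 0 ≤ y - n2 + b2 - n3 + b3 + 1 ∧ 0 ≤ -y + n2 - b2 + n3 - b3 - 1 ∧ 0 ≤ n2 - b2 + n3 - b3 + y - 2) ∨ (0 ≤ b1 - 1 ∧ 0 ≤ y - n2 + b2 - n3 + b3 + 1 ∧ 0 ≤ -y + n2 - b2 + n3 - b3 - 1 ∧ 0 ≤ -n2 + b2 - n3 + b3 - y + 1 ∧ 0 ≤ n2 - b2 + n3 - b3 + y - 1 ∧ 0 ≤ n2 - b2 - 1)) ∨ (0 ≤ -p0 + n3 - a3 - 2 ∨ (0 ≤ p0 - n3 + a3 + 1 ∧ 0 ≤ -p0 + n3 - a3 - 1 ∧ 0 ≤ n3 - a3 - 2)) ∨ (0 ≤ -p1 - 2) := by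
  obtain ⟨v, hv, hex, hf⟩ := failA' w1 w2 w3 hno _ hd (y) (0) (1) (0) (0) (1) (0) (1) (0)
    ⟨by linarith only [B15, B16, B17, B18, B19, B20, B21, B22, B23, B24], le_refl 0, zero_le_one⟩ ⟨le_refl 0, le_refl 0, zero_le_one⟩ ⟨le_refl 0, zero_le_one, le_refl 0⟩
    (Or.inr ⟨by ring, Or.inl (by linarith only [B15, B16, B17, B18, B19, B20, B21, B22, B23, B24])⟩)
  simp only [List.mem_cons, List.not_mem_nil, or_false] at hv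
  rcases hv with rfl | rfl | rfl | rfl
  · exact Or.inl (cvG_V2_e3_V1_11 hex hf)
  · exact Or.inr (Or.inl (cvG_V2_e3_V1_22 ep0 hf))
  · exact Or.inr (Or.inr (cvG_V2_e3_V1_33 ep1 hf))
  · exact (cvG_V2_e3_V1_13 hf).elim

theorem T0_11_22 {n1 n2 n3 a1 a2 a3 b1 b2 b3 y h : ℤ}
    (H : NoTr n1 n2 n3 a1 a2 a3 b1 b2 b3)
    (w1 : a1 - b1 = 1) (w2 : a1 + a2 - b1 - b2 = 0) (w3 : a1 + a2 + a3 - b1 - b2 - b3 = -y)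
    (l11 : 0 ≤ b1 - 1 → LosC n1 n2 n3 a1 a2 a3 b1 b2 b3 (2) (-n2 + b2 + 1) (-n2 + b2 - n3 + b3 - y + 1))
    (l22 : LosC n1 n2 n3 a1 a2 a3 b1 b2 b3 (-h) (1) (-n3 + a3 + 1))
    : 0 ≤ -b1 ∨ 0 ≤ -h - 1 ∨ 0 ≤ -n2 + b2 + 1 ∨ 0 ≤ -n2 + b2 - 2 * n3 + b3 + a3 + y + 1 := by
  rcases le_or_gt (b1) 0 with hb0 | hb0
  · exact Or.inl (by linarith only [hb0])
  rcases H.t0 w1 w2 w3 (l11 (by linarith only [hb0])) l22 with hq | hq | hq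
  · exact Or.inr (Or.inl (by linarith only [hq]))
  · exact Or.inr (Or.inr (Or.inl (by linarith only [hq])))
  · exact Or.inr (Or.inr (Or.inr (by linarith only [hq])))

theorem T0_11_33 {n1 n2 n3 a1 a2 a3 b1 b2 b3 y h3 k : ℤ}
    (H : NoTr n1 n2 n3 a1 a2 a3 b1 b2 b3)
    (w1 : a1 - b1 = 1) (w2 : a1 + a2 - b1 - b2 = 0) (w3 : a1 + a2 + a3 - b1 - b2 - b3 = -y)
    (l11 : 0 ≤ b1 - 1 → LosC n1 n2 n3 a1 a2 a3 b1 b2 b3 (2) (-n2 + b2 + 1) (-n2 + b2 - n3 + b3 - y + 1))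
    (l33 : LosC n1 n2 n3 a1 a2 a3 b1 b2 b3 (-h3) (-k) (1))
    : 0 ≤ -b1 ∨ 0 ≤ -h3 - 1 ∨ 0 ≤ -n2 + b2 - k ∨ 0 ≤ -n2 + b2 - n3 + b3 + y + 1 := by
  rcases le_or_gt (b1) 0 with hb0 | hb0
  · exact Or.inl (by linarith only [hb0])
  rcases H.t0 w1 w2 w3 (l11 (by linarith only [hb0])) l33 with hq | hq | hq
  · exact Or.inr (Or.inl (by linarith only [hq]))
  · exact Or.inr (Or.inr (Or.inl (by linarith only [hq])))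
  · exact Or.inr (Or.inr (Or.inr (by linarith only [hq])))

theorem T1_11_33 {n1 n2 n3 a1 a2 a3 b1 b2 b3 y h3 k : ℤ}
    (H : NoTr n1 n2 n3 a1 a2 a3 b1 b2 b3)
    (w1 : a1 - b1 = 1) (w2 : a1 + a2 - b1 - b2 = 0) (w3 : a1 + a2 + a3 - b1 - b2 - b3 = -y)
    (l11 : 0 ≤ b1 - 1 → LosC n1 n2 n3 a1 a2 a3 b1 b2 b3 (2) (-n2 + b2 + 1) (-n2 + b2 - n3 + b3 - y + 1))
    (l33 : LosC n1 n2 n3 a1 a2 a3 b1 b2 b3 (-h3) (-k) (1))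
    : 0 ≤ -b1 ∨ 0 ≤ -h3 ∨ 0 ≤ -n2 + b2 - k ∨ 0 ≤ -n2 + b2 - n3 + b3 + 1 := by
  rcases le_or_gt (b1) 0 with hb0 | hb0
  · exact Or.inl (by linarith only [hb0])
  rcases H.t1 w1 w2 w3 (l11 (by linarith only [hb0])) l33 with hq | hq | hq
  · exact Or.inr (Or.inl (by linarith only [hq]))
  · exact Or.inr (Or.inr (Or.inl (by linarith only [hq])))
  · exact Or.inr (Or.inr (Or.inr (by linarith only [hq])))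

theorem T2_11_33 {n1 n2 n3 a1 a2 a3 b1 b2 b3 y h3 k : ℤ}
    (H : NoTr n1 n2 n3 a1 a2 a3 b1 b2 b3)
    (l11 : 0 ≤ b1 - 1 → LosC n1 n2 n3 a1 a2 a3 b1 b2 b3 (2) (-n2 + b2 + 1) (-n2 + b2 - n3 + b3 - y + 1))
    (l33 : LosC n1 n2 n3 a1 a2 a3 b1 b2 b3 (-h3) (-k) (1))
    : 0 ≤ -b1 ∨ 0 ≤ -h3 + 1 ∨ 0 ≤ -n2 + b2 - k ∨ 0 ≤ -n2 + b2 - n3 + b3 - y + 1 := by
  rcases le_or_gt (b1) 0 with hb0 | hb0
  · exact Or.inl (by linarith only [hb0])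
  rcases H.t2 (l11 (by linarith only [hb0])) l33 with hq | hq | hq
  · exact Or.inr (Or.inl (by linarith only [hq]))
  · exact Or.inr (Or.inr (Or.inl (by linarith only [hq])))
  · exact Or.inr (Or.inr (Or.inr (by linarith only [hq])))

theorem T1_22_33 {n1 n2 n3 a1 a2 a3 b1 b2 b3 y h h3 k : ℤ}
    (H : NoTr n1 n2 n3 a1 a2 a3 b1 b2 b3)
    (w1 : a1 - b1 = 1) (w2 : a1 + a2 - b1 - b2 = 0) (w3 : a1 + a2 + a3 - b1 - b2 - b3 = -y)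
    (l22 : LosC n1 n2 n3 a1 a2 a3 b1 b2 b3 (-h) (1) (-n3 + a3 + 1))
    (l33 : LosC n1 n2 n3 a1 a2 a3 b1 b2 b3 (-h3) (-k) (1))
    : 0 ≤ -h - h3 - 2 ∨ 0 ≤ -k ∨ 0 ≤ -n3 + a3 + y + 1 := by
  rcases H.t1 w1 w2 w3 l22 l33 with hq | hq | hq
  · exact Or.inl (by linarith only [hq])
  · exact Or.inr (Or.inl (by linarith only [hq]))
  · exact Or.inr (Or.inr (by linarith only [hq]))

theorem T2_22_33 {n1 n2 n3 a1 a2 a3 b1 b2 b3 h h3 k : ℤ}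
    (H : NoTr n1 n2 n3 a1 a2 a3 b1 b2 b3)
    (l22 : LosC n1 n2 n3 a1 a2 a3 b1 b2 b3 (-h) (1) (-n3 + a3 + 1))
    (l33 : LosC n1 n2 n3 a1 a2 a3 b1 b2 b3 (-h3) (-k) (1))
    : 0 ≤ -h - h3 - 1 ∨ 0 ≤ -k ∨ 0 ≤ -n3 + a3 + 1 := by
  rcases H.t2 l22 l33 with hq | hq | hq
  · exact Or.inl (by linarith only [hq])
  · exact Or.inr (Or.inl (by linarith only [hq]))
  · exact Or.inr (Or.inr (by linarith only [hq]))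

theorem T0_22_13 {n1 n2 n3 a1 a2 a3 b1 b2 b3 y h g : ℤ}
    (H : NoTr n1 n2 n3 a1 a2 a3 b1 b2 b3)
    (w1 : a1 - b1 = 1) (w2 : a1 + a2 - b1 - b2 = 0) (w3 : a1 + a2 + a3 - b1 - b2 - b3 = -y)
    (l22 : LosC n1 n2 n3 a1 a2 a3 b1 b2 b3 (-h) (1) (-n3 + a3 + 1))
    (l13 : LosC n1 n2 n3 a1 a2 a3 b1 b2 b3 (1) (-g) (-y + 1))
    : 0 ≤ -h - 2 ∨ 0 ≤ -g ∨ 0 ≤ -n3 + a3 + y + 1 := by
  rcases H.t0 w1 w2 w3 l22 l13 with hq | hq | hq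
  · exact Or.inl (by linarith only [hq])
  · exact Or.inr (Or.inl (by linarith only [hq]))
  · exact Or.inr (Or.inr (by linarith only [hq]))

theorem T1_22_13 {n1 n2 n3 a1 a2 a3 b1 b2 b3 y h g : ℤ}
    (H : NoTr n1 n2 n3 a1 a2 a3 b1 b2 b3)
    (w1 : a1 - b1 = 1) (w2 : a1 + a2 - b1 - b2 = 0) (w3 : a1 + a2 + a3 - b1 - b2 - b3 = -y)
    (l22 : LosC n1 n2 n3 a1 a2 a3 b1 b2 b3 (-h) (1) (-n3 + a3 + 1))
    (l13 : LosC n1 n2 n3 a1 a2 a3 b1 b2 b3 (1) (-g) (-y + 1))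
    : 0 ≤ -h - 1 ∨ 0 ≤ -g ∨ 0 ≤ -n3 + a3 + 1 := by
  rcases H.t1 w1 w2 w3 l22 l13 with hq | hq | hq
  · exact Or.inl (by linarith only [hq])
  · exact Or.inr (Or.inl (by linarith only [hq]))
  · exact Or.inr (Or.inr (by linarith only [hq]))

theorem T2_22_13 {n1 n2 n3 a1 a2 a3 b1 b2 b3 y h g : ℤ}
    (H : NoTr n1 n2 n3 a1 a2 a3 b1 b2 b3)
    (l22 : LosC n1 n2 n3 a1 a2 a3 b1 b2 b3 (-h) (1) (-n3 + a3 + 1))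
    (l13 : LosC n1 n2 n3 a1 a2 a3 b1 b2 b3 (1) (-g) (-y + 1))
    : 0 ≤ -h ∨ 0 ≤ -g ∨ 0 ≤ -n3 + a3 - y + 1 := by
  rcases H.t2 l22 l13 with hq | hq | hq
  · exact Or.inl (by linarith only [hq])
  · exact Or.inr (Or.inl (by linarith only [hq]))
  · exact Or.inr (Or.inr (by linarith only [hq]))

theorem T2_33_13 {n1 n2 n3 a1 a2 a3 b1 b2 b3 y h3 k g : ℤ}
    (H : NoTr n1 n2 n3 a1 a2 a3 b1 b2 b3)
    (l33 : LosC n1 n2 n3 a1 a2 a3 b1 b2 b3 (-h3) (-k) (1))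
    (l13 : LosC n1 n2 n3 a1 a2 a3 b1 b2 b3 (1) (-g) (-y + 1))
    : 0 ≤ -h3 ∨ 0 ≤ -k - g - 1 ∨ 0 ≤ -y + 1 := by
  rcases H.t2 l33 l13 with hq | hq | hq
  · exact Or.inl (by linarith only [hq])
  · exact Or.inr (Or.inl (by linarith only [hq]))
  · exact Or.inr (Or.inr (by linarith only [hq]))

theorem main {n1 n2 n3 a1 a2 a3 b1 b2 b3 y d1 : ℤ}
    (B0 : 0 ≤ a1)
    (B1 : 0 ≤ a2)
    (B2 : 0 ≤ a3)
    (B3 : 0 ≤ b1)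
    (B4 : 0 ≤ b2)
    (B5 : 0 ≤ b3)
    (B6 : 0 ≤ n1 - a1)
    (B7 : 0 ≤ n2 - a2)
    (B8 : 0 ≤ n3 - a3)
    (B9 : 0 ≤ n1 - b1)
    (B10 : 0 ≤ n2 - b2)
    (B11 : 0 ≤ n3 - b3)
    (B12 : 0 ≤ n1 - 1)
    (B13 : 0 ≤ n2 - 1)
    (B14 : 0 ≤ n3 - 1)
    (B15 : 0 ≤ a1 + a2 - b1 - b2)
    (B16 : 0 ≤ -a1 - a2 + b1 + b2)
    (B17 : 0 ≤ y + a1 + a2 + a3 - b1 - b2 - b3)
    (B18 : 0 ≤ -a1 - a2 - a3 + b1 + b2 + b3 - y)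
    (B19 : 0 ≤ y - 1)
    (B20 : 0 ≤ d1 - a1 + b1)
    (B21 : 0 ≤ a1 - b1 - d1)
    (B22 : 0 ≤ d1 - 1)
    (B23 : 0 ≤ d1 - 1)
    (B24 : 0 ≤ -d1 + 1)
    (C_c1 : (0 ≤ a1 - 1 ∧ 0 ≤ n2 - a2 - 1) ∨ (0 ≤ b1 - 1 ∧ 0 ≤ n2 - b2 - 1))
    (C_c2 : (0 ≤ a2 - 1 ∧ 0 ≤ n3 - a3 - 1) ∨ (0 ≤ b2 - 1 ∧ 0 ≤ n3 - b3 - 1))
    (H : NoTr n1 n2 n3 a1 a2 a3 b1 b2 b3)
    (hno : ¬ ∃ u1 u2 u3 : ℤ, Good n1 n2 n3 a1 a2 a3 b1 b2 b3 u1 u2 u3) : False := by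
  have w1 : a1 - b1 = 1 := by linarith only [B15, B16, B17, B18, B19, B20, B21, B22, B23, B24]
  have w2 : a1 + a2 - b1 - b2 = 0 := by linarith only [B15, B16, B17, B18, B19, B20, B21, B22, B23, B24]
  have w3 : a1 + a2 + a3 - b1 - b2 - b3 = -y := by linarith only [B15, B16, B17, B18, B19, B20, B21, B22, B23, B24]
  obtain ⟨h, rh1, rh2, rh3⟩ := min_facts (n1 - a1) (a2 - 1)
  have B25 : 0 ≤ n1 - a1 - h := by linarith only [rh1]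
  have B26 : 0 ≤ a2 - h - 1 := by linarith only [rh2]
  have C_Dh : 0 ≤ h - n1 + a1 ∨ 0 ≤ h - a2 + 1 := rh3.imp (fun hq => by linarith only [hq]) (fun hq => by linarith only [hq])
  clear rh1 rh2 rh3
  obtain ⟨h3, rh31, rh32, rh33⟩ := min_facts (n1 - a1) (a2 + a3 - 1)
  have B27 : 0 ≤ n1 - a1 - h3 := by linarith only [rh31]
  have B28 : 0 ≤ a2 + a3 - h3 - 1 := by linarith only [rh32]
  have C_Dh3 : 0 ≤ h3 - n1 + a1 ∨ 0 ≤ h3 - a2 - a3 + 1 := rh33.imp (fun hq => by linarith only [hq]) (fun hq => by linarith only [hq])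
  clear rh31 rh32 rh33
  obtain ⟨k, rk1, rk2, rk3⟩ := min_facts (n1 - a1 + n2 - a2) (a3 - 1)
  have B29 : 0 ≤ n1 - a1 + n2 - a2 - k := by linarith only [rk1]
  have B30 : 0 ≤ a3 - k - 1 := by linarith only [rk2]
  have C_Dk : 0 ≤ k - n1 + a1 - n2 + a2 ∨ 0 ≤ k - a3 + 1 := rk3.imp (fun hq => by linarith only [hq]) (fun hq => by linarith only [hq])
  clear rk1 rk2 rk3
  obtain ⟨g, rg1, rg2, rg3⟩ := min_facts (n2 - a2 - 1) (a3 + y - 1)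
  have B31 : 0 ≤ n2 - a2 - g - 1 := by linarith only [rg1]
  have B32 : 0 ≤ a3 + y - g - 1 := by linarith only [rg2]
  have C_Dg : 0 ≤ g - n2 + a2 + 1 ∨ 0 ≤ g - a3 - y + 1 := rg3.imp (fun hq => by linarith only [hq]) (fun hq => by linarith only [hq])
  clear rg1 rg2 rg3
  have l11 : 0 ≤ b1 - 1 → LosC n1 n2 n3 a1 a2 a3 b1 b2 b3 (2) (-n2 + b2 + 1) (-n2 + b2 - n3 + b3 - y + 1) := fun hq => los11 B0 B1 B2 B3 B4 B5 B6 B7 B8 B9 B10 B11 B12 B13 B14 B15 B16 B17 B18 B19 B20 B21 B22 B23 B24 hq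
  have l22 : LosC n1 n2 n3 a1 a2 a3 b1 b2 b3 (-h) (1) (-n3 + a3 + 1) := los22 B0 B1 B2 B3 B4 B5 B6 B7 B8 B9 B10 B11 B12 B13 B14 B15 B16 B17 B18 B19 B20 B21 B22 B23 B24 B25 B26 C_Dh
  have l33 : LosC n1 n2 n3 a1 a2 a3 b1 b2 b3 (-h3) (-k) (1) := los33 B0 B1 B2 B3 B4 B5 B6 B7 B8 B9 B10 B11 B12 B13 B14 B15 B16 B17 B18 B19 B20 B21 B22 B23 B24 B27 B28 B29 B30 C_Dh3 C_Dk
  have l13 : LosC n1 n2 n3 a1 a2 a3 b1 b2 b3 (1) (-g) (-y + 1) := los13 B0 B1 B2 B3 B4 B5 B6 B7 B8 B9 B10 B11 B12 B13 B14 B15 B16 B17 B18 B19 B20 B21 B22 B23 B24 B31 B32 C_Dg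
  have hd := hd B0 B1 B2 B3 B4 B5 B6 B7 B8 B9 B10 B11 B12 B13 B14 B15 B16 B17 B18 B19 B20 B21 B22 B23 B24 B25 B26 B27 B28 B29 B30 B31 B32 C_Dh C_Dh3 C_Dk C_Dg
  obtain ⟨p0, ep0⟩ : ∃ p, p = (y) * (-h) := ⟨_, rfl⟩
  have C_Dp0_b : (0 ≤ h - 1 ∧ 0 ≤ -y - p0) ∨ (0 ≤ -h ∧ 0 ≤ p0) :=
    (prod_split' (-1) ep0 (by linarith only [B15, B16, B17, B18, B19, B20, B21, B22, B23, B24])).imp (fun hq => ⟨by linarith only [hq.1], by linarith only [hq.2]⟩)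
      (fun hq => ⟨by linarith only [hq.1], by linarith only [hq.2]⟩)
  have C_Dp0_c : (0 ≤ h ∧ 0 ≤ -p0) ∨ (0 ≤ -h - 1 ∧ 0 ≤ p0 - y) :=
    (prod_split' (0) ep0 (by linarith only [B15, B16, B17, B18, B19, B20, B21, B22, B23, B24])).imp (fun hq => ⟨by linarith only [hq.1], by linarith only [hq.2]⟩)
      (fun hq => ⟨by linarith only [hq.1], by linarith only [hq.2]⟩)
  have C_Dp0_d : (0 ≤ h + 1 ∧ 0 ≤ y - p0) ∨ (0 ≤ -h - 2 ∧ 0 ≤ p0 - 2 * y) :=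
    (prod_split' (1) ep0 (by linarith only [B15, B16, B17, B18, B19, B20, B21, B22, B23, B24])).imp (fun hq => ⟨by linarith only [hq.1], by linarith only [hq.2]⟩)
      (fun hq => ⟨by linarith only [hq.1], by linarith only [hq.2]⟩)
  obtain ⟨p1, ep1⟩ : ∃ p, p = (y) * (-h3) := ⟨_, rfl⟩
  have C_Dp1_a : (0 ≤ h3 - 2 ∧ 0 ≤ -2 * y - p1) ∨ (0 ≤ -h3 + 1 ∧ 0 ≤ p1 + y) :=
    (prod_split' (-2) ep1 (by linarith only [B15, B16, B17, B18, B19, B20, B21, B22, B23, B24])).imp (fun hq => ⟨by linarith only [hq.1], by linarith only [hq.2]⟩)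
      (fun hq => ⟨by linarith only [hq.1], by linarith only [hq.2]⟩)
  have C_Dp1_b : (0 ≤ h3 - 1 ∧ 0 ≤ -y - p1) ∨ (0 ≤ -h3 ∧ 0 ≤ p1) :=
    (prod_split' (-1) ep1 (by linarith only [B15, B16, B17, B18, B19, B20, B21, B22, B23, B24])).imp (fun hq => ⟨by linarith only [hq.1], by linarith only [hq.2]⟩)
      (fun hq => ⟨by linarith only [hq.1], by linarith only [hq.2]⟩)
  have C_Dp1_c : (0 ≤ h3 ∧ 0 ≤ -p1) ∨ (0 ≤ -h3 - 1 ∧ 0 ≤ p1 - y) :=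
    (prod_split' (0) ep1 (by linarith only [B15, B16, B17, B18, B19, B20, B21, B22, B23, B24])).imp (fun hq => ⟨by linarith only [hq.1], by linarith only [hq.2]⟩)
      (fun hq => ⟨by linarith only [hq.1], by linarith only [hq.2]⟩)
  obtain ⟨p2, ep2⟩ : ∃ p, p = (y) * (-h - 1) := ⟨_, rfl⟩
  have C_Dp2_b : (0 ≤ h ∧ 0 ≤ -y - p2) ∨ (0 ≤ -h - 1 ∧ 0 ≤ p2) :=
    (prod_split' (-1) ep2 (by linarith only [B15, B16, B17, B18, B19, B20, B21, B22, B23, B24])).imp (fun hq => ⟨by linarith only [hq.1], by linarith only [hq.2]⟩)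
      (fun hq => ⟨by linarith only [hq.1], by linarith only [hq.2]⟩)
  have C_Dp2_c : (0 ≤ h + 1 ∧ 0 ≤ -p2) ∨ (0 ≤ -h - 2 ∧ 0 ≤ p2 - y) :=
    (prod_split' (0) ep2 (by linarith only [B15, B16, B17, B18, B19, B20, B21, B22, B23, B24])).imp (fun hq => ⟨by linarith only [hq.1], by linarith only [hq.2]⟩)
      (fun hq => ⟨by linarith only [hq.1], by linarith only [hq.2]⟩)
  obtain ⟨p3, ep3⟩ : ∃ p, p = (y) * (-h3 - 1) := ⟨_, rfl⟩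
  have C_Dp3_a : (0 ≤ h3 - 1 ∧ 0 ≤ -2 * y - p3) ∨ (0 ≤ -h3 ∧ 0 ≤ p3 + y) :=
    (prod_split' (-2) ep3 (by linarith only [B15, B16, B17, B18, B19, B20, B21, B22, B23, B24])).imp (fun hq => ⟨by linarith only [hq.1], by linarith only [hq.2]⟩)
      (fun hq => ⟨by linarith only [hq.1], by linarith only [hq.2]⟩)
  have C_Dp3_b : (0 ≤ h3 ∧ 0 ≤ -y - p3) ∨ (0 ≤ -h3 - 1 ∧ 0 ≤ p3) :=
    (prod_split' (-1) ep3 (by linarith only [B15, B16, B17, B18, B19, B20, B21, B22, B23, B24])).imp (fun hq => ⟨by linarith only [hq.1], by linarith only [hq.2]⟩)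
      (fun hq => ⟨by linarith only [hq.1], by linarith only [hq.2]⟩)
  have FA := FAt B15 B16 B17 B18 B19 B20 B21 B22 B23 B24 ep0 ep1 w1 w2 w3 hno hd
  have FB := FBt B15 B16 B17 B18 B19 B20 B21 B22 B23 B24 ep0 ep1 w1 w2 w3 hno hd
  have G_e1_V1_V2 := Gt_e1_V1_V2 B15 B16 B17 B18 B19 B20 B21 B22 B23 B24 ep2 ep3 w1 w2 w3 hno hd
  have G_e3_V1_V2 := Gt_e3_V1_V2 B15 B16 B17 B18 B19 B20 B21 B22 B23 B24 ep0 ep1 w1 w2 w3 hno hd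
  have G_V1_e1_V2 := Gt_V1_e1_V2 B15 B16 B17 B18 B19 B20 B21 B22 B23 B24 ep2 ep3 w1 w2 w3 hno hd
  have G_e3_V2_V1 := Gt_e3_V2_V1 B15 B16 B17 B18 B19 B20 B21 B22 B23 B24 ep0 ep1 w1 w2 w3 hno hd
  have G_V1_e3_V2 := Gt_V1_e3_V2 B15 B16 B17 B18 B19 B20 B21 B22 B23 B24 ep0 ep1 w1 w2 w3 hno hd
  have G_e1_V2_V1 := Gt_e1_V2_V1 B15 B16 B17 B18 B19 B20 B21 B22 B23 B24 ep2 ep3 w1 w2 w3 hno hd
  have G_V2_e1_V1 := Gt_V2_e1_V1 B15 B16 B17 B18 B19 B20 B21 B22 B23 B24 ep0 ep1 w1 w2 w3 hno hd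
  have G_V2_e3_V1 := Gt_V2_e3_V1 B15 B16 B17 B18 B19 B20 B21 B22 B23 B24 ep0 ep1 w1 w2 w3 hno hd
  have t0_11_22 := T0_11_22 H w1 w2 w3 l11 l22
  have t0_11_33 := T0_11_33 H w1 w2 w3 l11 l33
  have t1_11_33 := T1_11_33 H w1 w2 w3 l11 l33
  have t2_11_33 := T2_11_33 H l11 l33
  have t1_22_33 := T1_22_33 H w1 w2 w3 l22 l33
  have t2_22_33 := T2_22_33 H l22 l33
  have t0_22_13 := T0_22_13 H w1 w2 w3 l22 l13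
  have t1_22_13 := T1_22_13 H w1 w2 w3 l22 l13
  have t2_22_13 := T2_22_13 H l22 l13
  have t2_33_13 := T2_33_13 H l33 l13
  rcases FA with ⟨f0_0, f0_1, f0_2⟩ | ⟨f0_0, f0_1⟩ | ⟨f0_0, f0_1⟩
  · rcases FB with ⟨f1_0, f1_1, f1_2⟩ | ⟨f1_0, f1_1⟩ | ⟨f1_0, f1_1⟩
    · exact g0 B1 B2 B6 B11 B15 B16 B17 B18 B19 B20 B21 B22 B24 B26 B28 B30 B31 B32 f0_0 f0_1 f1_1 C_Dh C_Dh3 C_Dk C_Dg C_Dp0_c C_Dp0_d C_Dp1_b C_Dp2_b C_Dp2_c C_Dp3_b t0_11_33 t0_11_22 t0_22_13 t1_22_13 t1_11_33 G_e1_V1_V2 G_V1_e1_V2 G_V2_e1_V1 G_e1_V2_V1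
    · exact g1 B1 B2 B6 B11 B15 B16 B18 B19 B21 B22 B26 B28 B30 f0_0 f0_1 f1_1 C_Dh C_Dh3 C_Dg C_Dp0_c C_Dp2_b C_Dp2_c C_Dp3_b f0_2 t1_22_13 t0_22_13 t0_11_22 G_V1_e1_V2 G_e1_V1_V2
    · exact g2 B2 B11 B15 B16 B18 B19 B21 B22 B27 B28 B32 f0_0 f0_1 f1_0 C_c2 C_Dh C_Dk C_Dp1_b C_Dp2_b f0_2 t1_11_33 t0_22_13 G_V1_e1_V2
  · rcases FB with ⟨f1_0, f1_1, f1_2⟩ | ⟨f1_0, f1_1⟩ | ⟨f1_0, f1_1⟩
    · exact g3 B1 B6 B10 B11 B13 B15 B18 B19 B20 B24 B26 B27 B28 B30 B31 f0_0 f1_0 f1_1 C_Dh C_Dh3 C_Dk C_Dp0_c C_Dp0_d C_Dp1_b C_Dp1_c C_Dp2_b f0_1 t0_11_33 t1_11_33 t2_22_33 t0_11_22 t1_22_33 t2_33_13 G_V2_e1_V1 G_V1_e3_V2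
    · exact g4 B1 B6 B11 B13 B15 B16 B18 B19 B21 B22 B25 B26 B27 B28 B30 f0_0 f1_1 C_c1 C_Dh C_Dh3 C_Dk C_Dg C_Dp0_b C_Dp0_c C_Dp0_d C_Dp1_b C_Dp2_b f0_1 t2_22_33 t2_33_13 t1_22_33 t2_22_13 t1_22_13 G_V1_e3_V2 G_e3_V1_V2
    · exact g5 B1 B11 B13 B15 B16 B18 B19 B21 B22 B27 B28 B30 f0_0 f1_0 C_c1 C_c2 C_Dh C_Dk C_Dg C_Dp0_b C_Dp0_c C_Dp0_d C_Dp1_a C_Dp1_b t2_22_33 t2_33_13 t2_22_13 t1_22_13 t0_11_22 t2_11_33 G_e3_V1_V2 G_V1_e3_V2 G_V2_e3_V1 G_e3_V2_V1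
  · rcases FB with ⟨f1_0, f1_1, f1_2⟩ | ⟨f1_0, f1_1⟩ | ⟨f1_0, f1_1⟩
    · exact g6 B1 B6 B10 B11 B15 B18 B19 B31 B32 f0_1 f1_0 f1_1 C_Dh C_Dk C_Dp0_c C_Dp1_b C_Dp1_c C_Dp2_b C_Dp3_a t0_11_33 t1_22_13 t0_22_13 t0_11_22 t1_11_33 G_V2_e1_V1 G_e1_V2_V1
    · exact g7 B1 B6 B11 B15 B18 B19 f0_1 f1_1 C_Dh C_Dp0_b C_Dp0_c t1_22_13 t0_22_13 t2_22_13
    · exact g8 B1 B10 B11 B15 B18 B19 B20 B24 B27 B28 B31 f0_1 f1_0 C_c2 C_Dh C_Dk C_Dp0_b C_Dp0_c C_Dp1_a C_Dp1_b C_Dp2_c t1_22_13 t2_22_33 t2_22_13 t0_11_22 t2_11_33 G_V2_e3_V1 G_e3_V2_V1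

end WG3.IIIP
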