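import Pool.Agent.Work.MP_5465ec_co.Core

set_option linter.all false

namespace WG3.IIK

theorem g0 {a1 a2 a3 b1 b2 b3 d1 g n2 n3 x y : ℤ}
    (B2 : 0 ≤ a3)
    (B5 : 0 ≤ b3)
    (B10 : 0 ≤ n2 - b2)
    (B15 : 0 ≤ x + a1 + a2 - b1 - b2)
    (B16 : 0 ≤ -a1 - a2 + b1 + b2 - x)
    (B17 : 0 ≤ x - 1)
    (B18 : 0 ≤ y + a1 + a2 + a3 - b1 - b2 - b3)
    (B19 : 0 ≤ -a1 - a2 - a3 + b1 + b2 + b3 - y)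
    (B20 : 0 ≤ y - 1)
    (B22 : 0 ≤ a1 - b1 - d1)
    (B24 : 0 ≤ d1 - 2)
    (D1 : (0 ≤ a2 - 1 ∧ 0 ≤ n3 - a3 - 1) ∨ (0 ≤ b2 - 1 ∧ 0 ≤ n3 - b3 - 1))
    (D2 : 0 ≤ x - 2 ∨ 0 ≤ y - 2)
    (D6 : 0 ≤ g - n2 + a2 + 1 ∨ 0 ≤ g - a3 - y + 1)
    (D7 : 0 ≤ -d1 + 1 ∨ 0 ≤ -g ∨ 0 ≤ -x - n3 + a3 + 1) : False := by
  have E1 := D1
  have E2 := D2
  have E6 := D6
  have E7 : 0 ≤ -g ∨ 0 ≤ -x - n3 + a3 + 1 := by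
    rcases D7 with H7 | H7 | H7
    · linarith only [B24, H7]
    · exact Or.inl H7
    · exact Or.inr H7
  rcases E7 with H7 | H7
  · rcases E6 with H6 | H6
    · linarith only [B24, B17, B16, B22, B10, H7, H6]
    · rcases E2 with H2 | H2
      · linarith only [H2, B16, H6, H7, B18, B5]
      · linarith only [H2, H6, H7, B2]
  · rcases E1 with H1 | H1
    · linarith only [B17, H1.2, H7]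
    · linarith only [B20, H1.2, B15, H7, B19]

theorem los11 {n1 n2 n3 a1 a2 a3 b1 b2 b3 x y d1 : ℤ}
    (B0 : 0 ≤ a1)
    (B1 : 0 ≤ a2)
    (B2 : 0 ≤ a3)
    (B3 : 0 ≤ b1)
    (B4 : 0 ≤ b2)
    (B5 : 0 ≤ b3)
    (B6 : 0 ≤ n1 - a1)
    (B7 : 0 ≤ n2 - a2)
    (B8 : 0 ≤ n3 - a3)
    (B9 : 0 ≤ n1 - b1)
    (B10 : 0 ≤ n2 - b2)
    (B11 : 0 ≤ n3 - b3)
    (B12 : 0 ≤ n1 - 1)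
    (B13 : 0 ≤ n2 - 1)
    (B14 : 0 ≤ n3 - 1)
    (B15 : 0 ≤ x + a1 + a2 - b1 - b2)
    (B16 : 0 ≤ -a1 - a2 + b1 + b2 - x)
    (B17 : 0 ≤ x - 1)
    (B18 : 0 ≤ y + a1 + a2 + a3 - b1 - b2 - b3)
    (B19 : 0 ≤ -a1 - a2 - a3 + b1 + b2 + b3 - y)
    (B20 : 0 ≤ y - 1)
    (B21 : 0 ≤ d1 - a1 + b1)
    (B22 : 0 ≤ a1 - b1 - d1)
    (B23 : 0 ≤ d1 - 1)
    (B24 : 0 ≤ d1 - 2)
    (hex : 0 ≤ b1 - 1) :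
    LosC n1 n2 n3 a1 a2 a3 b1 b2 b3 (d1 + 1) (-n2 + b2 - x + 1) (-n2 + b2 - n3 + b3 - y + 1) := by
  unfold LosC
  refine ⟨?_, ?_, ?_, ?_, ?_, ?_, ?_, ?_⟩ <;> omega

theorem los12 {n1 n2 n3 a1 a2 a3 b1 b2 b3 x y d1 : ℤ}
    (B0 : 0 ≤ a1)
    (B1 : 0 ≤ a2)
    (B2 : 0 ≤ a3)
    (B3 : 0 ≤ b1)
    (B4 : 0 ≤ b2)
    (B5 : 0 ≤ b3)
    (B6 : 0 ≤ n1 - a1)
    (B7 : 0 ≤ n2 - a2)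
    (B8 : 0 ≤ n3 - a3)
    (B9 : 0 ≤ n1 - b1)
    (B10 : 0 ≤ n2 - b2)
    (B11 : 0 ≤ n3 - b3)
    (B12 : 0 ≤ n1 - 1)
    (B13 : 0 ≤ n2 - 1)
    (B14 : 0 ≤ n3 - 1)
    (B15 : 0 ≤ x + a1 + a2 - b1 - b2)
    (B16 : 0 ≤ -a1 - a2 + b1 + b2 - x)
    (B17 : 0 ≤ x - 1)
    (B18 : 0 ≤ y + a1 + a2 + a3 - b1 - b2 - b3)
    (B19 : 0 ≤ -a1 - a2 - a3 + b1 + b2 + b3 - y)
    (B20 : 0 ≤ y - 1)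
    (B21 : 0 ≤ d1 - a1 + b1)
    (B22 : 0 ≤ a1 - b1 - d1)
    (B23 : 0 ≤ d1 - 1)
    (B24 : 0 ≤ d1 - 2) :
    LosC n1 n2 n3 a1 a2 a3 b1 b2 b3 (1) (-x + 1) (-x - n3 + a3 + 1) := by
  unfold LosC
  refine ⟨?_, ?_, ?_, ?_, ?_, ?_, ?_, ?_⟩ <;> omega

theorem los22 {n1 n2 n3 a1 a2 a3 b1 b2 b3 x y d1 h : ℤ}
    (B0 : 0 ≤ a1)
    (B1 : 0 ≤ a2)
    (B2 : 0 ≤ a3)
    (B3 : 0 ≤ b1)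
    (B4 : 0 ≤ b2)
    (B5 : 0 ≤ b3)
    (B6 : 0 ≤ n1 - a1)
    (B7 : 0 ≤ n2 - a2)
    (B8 : 0 ≤ n3 - a3)
    (B9 : 0 ≤ n1 - b1)
    (B10 : 0 ≤ n2 - b2)
    (B11 : 0 ≤ n3 - b3)
    (B12 : 0 ≤ n1 - 1)
    (B13 : 0 ≤ n2 - 1)
    (B14 : 0 ≤ n3 - 1)
    (B15 : 0 ≤ x + a1 + a2 - b1 - b2)
    (B16 : 0 ≤ -a1 - a2 + b1 + b2 - x)
    (B17 : 0 ≤ x - 1)
    (B18 : 0 ≤ y + a1 + a2 + a3 - b1 - b2 - b3)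
    (B19 : 0 ≤ -a1 - a2 - a3 + b1 + b2 + b3 - y)
    (B20 : 0 ≤ y - 1)
    (B21 : 0 ≤ d1 - a1 + b1)
    (B22 : 0 ≤ a1 - b1 - d1)
    (B23 : 0 ≤ d1 - 1)
    (B24 : 0 ≤ d1 - 2)
    (B25 : 0 ≤ n1 - a1 - h)
    (B26 : 0 ≤ a2 - h - 1)
    (C_Dh : 0 ≤ h - n1 + a1 ∨ 0 ≤ h - a2 + 1) :
    LosC n1 n2 n3 a1 a2 a3 b1 b2 b3 (-h) (1) (-n3 + a3 + 1) := by
  unfold LosC
  refine ⟨?_, ?_, ?_, ?_, ?_, ?_, ?_, ?_⟩ <;> omega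

theorem los33 {n1 n2 n3 a1 a2 a3 b1 b2 b3 x y d1 h3 k : ℤ}
    (B0 : 0 ≤ a1)
    (B1 : 0 ≤ a2)
    (B2 : 0 ≤ a3)
    (B3 : 0 ≤ b1)
    (B4 : 0 ≤ b2)
    (B5 : 0 ≤ b3)
    (B6 : 0 ≤ n1 - a1)
    (B7 : 0 ≤ n2 - a2)
    (B8 : 0 ≤ n3 - a3)
    (B9 : 0 ≤ n1 - b1)
    (B10 : 0 ≤ n2 - b2)
    (B11 : 0 ≤ n3 - b3)
    (B12 : 0 ≤ n1 - 1)
    (B13 : 0 ≤ n2 - 1)
    (B14 : 0 ≤ n3 - 1)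
    (B15 : 0 ≤ x + a1 + a2 - b1 - b2)
    (B16 : 0 ≤ -a1 - a2 + b1 + b2 - x)
    (B17 : 0 ≤ x - 1)
    (B18 : 0 ≤ y + a1 + a2 + a3 - b1 - b2 - b3)
    (B19 : 0 ≤ -a1 - a2 - a3 + b1 + b2 + b3 - y)
    (B20 : 0 ≤ y - 1)
    (B21 : 0 ≤ d1 - a1 + b1)
    (B22 : 0 ≤ a1 - b1 - d1)
    (B23 : 0 ≤ d1 - 1)
    (B24 : 0 ≤ d1 - 2)
    (B27 : 0 ≤ n1 - a1 - h3)
    (B28 : 0 ≤ a2 + a3 - h3 - 1)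
    (B29 : 0 ≤ n1 - a1 + n2 - a2 - k)
    (B30 : 0 ≤ a3 - k - 1)
    (C_Dh3 : 0 ≤ h3 - n1 + a1 ∨ 0 ≤ h3 - a2 - a3 + 1)
    (C_Dk : 0 ≤ k - n1 + a1 - n2 + a2 ∨ 0 ≤ k - a3 + 1) :
    LosC n1 n2 n3 a1 a2 a3 b1 b2 b3 (-h3) (-k) (1) := by
  unfold LosC
  refine ⟨?_, ?_, ?_, ?_, ?_, ?_, ?_, ?_⟩ <;> omega

theorem los13 {n1 n2 n3 a1 a2 a3 b1 b2 b3 x y d1 g : ℤ}
    (B0 : 0 ≤ a1)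
    (B1 : 0 ≤ a2)
    (B2 : 0 ≤ a3)
    (B3 : 0 ≤ b1)
    (B4 : 0 ≤ b2)
    (B5 : 0 ≤ b3)
    (B6 : 0 ≤ n1 - a1)
    (B7 : 0 ≤ n2 - a2)
    (B8 : 0 ≤ n3 - a3)
    (B9 : 0 ≤ n1 - b1)
    (B10 : 0 ≤ n2 - b2)
    (B11 : 0 ≤ n3 - b3)
    (B12 : 0 ≤ n1 - 1)
    (B13 : 0 ≤ n2 - 1)
    (B14 : 0 ≤ n3 - 1)
    (B15 : 0 ≤ x + a1 + a2 - b1 - b2)
    (B16 : 0 ≤ -a1 - a2 + b1 + b2 - x)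
    (B17 : 0 ≤ x - 1)
    (B18 : 0 ≤ y + a1 + a2 + a3 - b1 - b2 - b3)
    (B19 : 0 ≤ -a1 - a2 - a3 + b1 + b2 + b3 - y)
    (B20 : 0 ≤ y - 1)
    (B21 : 0 ≤ d1 - a1 + b1)
    (B22 : 0 ≤ a1 - b1 - d1)
    (B23 : 0 ≤ d1 - 1)
    (B24 : 0 ≤ d1 - 2)
    (B31 : 0 ≤ n2 - a2 - g - 1)
    (B32 : 0 ≤ a3 + y - g - 1)
    (C_Dg : 0 ≤ g - n2 + a2 + 1 ∨ 0 ≤ g - a3 - y + 1) :
    LosC n1 n2 n3 a1 a2 a3 b1 b2 b3 (1) (-g) (-y + 1) := by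
  unfold LosC
  refine ⟨?_, ?_, ?_, ?_, ?_, ?_, ?_, ?_⟩ <;> omega

theorem T1_12_13 {n1 n2 n3 a1 a2 a3 b1 b2 b3 x y d1 g : ℤ}
    (H : NoTr n1 n2 n3 a1 a2 a3 b1 b2 b3)
    (w1 : a1 - b1 = d1) (w2 : a1 + a2 - b1 - b2 = -x) (w3 : a1 + a2 + a3 - b1 - b2 - b3 = -y)
    (l12 : LosC n1 n2 n3 a1 a2 a3 b1 b2 b3 (1) (-x + 1) (-x - n3 + a3 + 1))
    (l13 : LosC n1 n2 n3 a1 a2 a3 b1 b2 b3 (1) (-g) (-y + 1))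
    : 0 ≤ -d1 + 1 ∨ 0 ≤ -g ∨ 0 ≤ -x - n3 + a3 + 1 := by
  rcases H.t1 w1 w2 w3 l12 l13 with hq | hq | hq
  · exact Or.inl (by linarith only [hq])
  · exact Or.inr (Or.inl (by linarith only [hq]))
  · exact Or.inr (Or.inr (by linarith only [hq]))

theorem main {n1 n2 n3 a1 a2 a3 b1 b2 b3 x y d1 : ℤ}
    (B0 : 0 ≤ a1)
    (B1 : 0 ≤ a2)
    (B2 : 0 ≤ a3)
    (B3 : 0 ≤ b1)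
    (B4 : 0 ≤ b2)
    (B5 : 0 ≤ b3)
    (B6 : 0 ≤ n1 - a1)
    (B7 : 0 ≤ n2 - a2)
    (B8 : 0 ≤ n3 - a3)
    (B9 : 0 ≤ n1 - b1)
    (B10 : 0 ≤ n2 - b2)
    (B11 : 0 ≤ n3 - b3)
    (B12 : 0 ≤ n1 - 1)
    (B13 : 0 ≤ n2 - 1)
    (B14 : 0 ≤ n3 - 1)
    (B15 : 0 ≤ x + a1 + a2 - b1 - b2)
    (B16 : 0 ≤ -a1 - a2 + b1 + b2 - x)
    (B17 : 0 ≤ x - 1)
    (B18 : 0 ≤ y + a1 + a2 + a3 - b1 - b2 - b3)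
    (B19 : 0 ≤ -a1 - a2 - a3 + b1 + b2 + b3 - y)
    (B20 : 0 ≤ y - 1)
    (B21 : 0 ≤ d1 - a1 + b1)
    (B22 : 0 ≤ a1 - b1 - d1)
    (B23 : 0 ≤ d1 - 1)
    (B24 : 0 ≤ d1 - 2)
    (C_c1 : (0 ≤ a1 - 1 ∧ 0 ≤ n2 - a2 - 1) ∨ (0 ≤ b1 - 1 ∧ 0 ≤ n2 - b2 - 1))
    (C_c2 : (0 ≤ a2 - 1 ∧ 0 ≤ n3 - a3 - 1) ∨ (0 ≤ b2 - 1 ∧ 0 ≤ n3 - b3 - 1))
    (C_Sub : 0 ≤ x - 2 ∨ 0 ≤ y - 2)
    (H : NoTr n1 n2 n3 a1 a2 a3 b1 b2 b3)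
    (hno : ¬ ∃ u1 u2 u3 : ℤ, Good n1 n2 n3 a1 a2 a3 b1 b2 b3 u1 u2 u3) : False := by
  have w1 : a1 - b1 = d1 := by linarith only [B15, B16, B17, B18, B19, B20, B21, B22, B23, B24]
  have w2 : a1 + a2 - b1 - b2 = -x := by linarith only [B15, B16, B17, B18, B19, B20, B21, B22, B23, B24]
  have w3 : a1 + a2 + a3 - b1 - b2 - b3 = -y := by linarith only [B15, B16, B17, B18, B19, B20, B21, B22, B23, B24]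
  obtain ⟨h, rh1, rh2, rh3⟩ := min_facts (n1 - a1) (a2 - 1)
  have B25 : 0 ≤ n1 - a1 - h := by linarith only [rh1]
  have B26 : 0 ≤ a2 - h - 1 := by linarith only [rh2]
  have C_Dh : 0 ≤ h - n1 + a1 ∨ 0 ≤ h - a2 + 1 := rh3.imp (fun hq => by linarith only [hq]) (fun hq => by linarith only [hq])
  clear rh1 rh2 rh3
  obtain ⟨h3, rh31, rh32, rh33⟩ := min_facts (n1 - a1) (a2 + a3 - 1)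
  have B27 : 0 ≤ n1 - a1 - h3 := by linarith only [rh31]
  have B28 : 0 ≤ a2 + a3 - h3 - 1 := by linarith only [rh32]
  have C_Dh3 : 0 ≤ h3 - n1 + a1 ∨ 0 ≤ h3 - a2 - a3 + 1 := rh33.imp (fun hq => by linarith only [hq]) (fun hq => by linarith only [hq])
  clear rh31 rh32 rh33
  obtain ⟨k, rk1, rk2, rk3⟩ := min_facts (n1 - a1 + n2 - a2) (a3 - 1)
  have B29 : 0 ≤ n1 - a1 + n2 - a2 - k := by linarith only [rk1]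
  have B30 : 0 ≤ a3 - k - 1 := by linarith only [rk2]
  have C_Dk : 0 ≤ k - n1 + a1 - n2 + a2 ∨ 0 ≤ k - a3 + 1 := rk3.imp (fun hq => by linarith only [hq]) (fun hq => by linarith only [hq])
  clear rk1 rk2 rk3
  obtain ⟨g, rg1, rg2, rg3⟩ := min_facts (n2 - a2 - 1) (a3 + y - 1)
  have B31 : 0 ≤ n2 - a2 - g - 1 := by linarith only [rg1]
  have B32 : 0 ≤ a3 + y - g - 1 := by linarith only [rg2]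
  have C_Dg : 0 ≤ g - n2 + a2 + 1 ∨ 0 ≤ g - a3 - y + 1 := rg3.imp (fun hq => by linarith only [hq]) (fun hq => by linarith only [hq])
  clear rg1 rg2 rg3
  have l12 : LosC n1 n2 n3 a1 a2 a3 b1 b2 b3 (1) (-x + 1) (-x - n3 + a3 + 1) := los12 B0 B1 B2 B3 B4 B5 B6 B7 B8 B9 B10 B11 B12 B13 B14 B15 B16 B17 B18 B19 B20 B21 B22 B23 B24
  have l13 : LosC n1 n2 n3 a1 a2 a3 b1 b2 b3 (1) (-g) (-y + 1) := los13 B0 B1 B2 B3 B4 B5 B6 B7 B8 B9 B10 B11 B12 B13 B14 B15 B16 B17 B18 B19 B20 B21 B22 B23 B24 B31 B32 C_Dg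
  have t1_12_13 := T1_12_13 H w1 w2 w3 l12 l13
  exact g0 B2 B5 B10 B15 B16 B17 B18 B19 B20 B22 B24 C_c2 C_Sub C_Dg t1_12_13

end WG3.IIK
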