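import Pool.Agent.Work.MP_5465ec_co.Core

set_option linter.all false

namespace WG3.IIN

theorem g0 {a3 b1 b2 b3 d1 n2 n3 p0 p1 : ℤ}
    (B8 : 0 ≤ n3 - a3)
    (B28 : 0 ≤ d1 - 2)
    (B37 : 0 ≤ b1 - 1)
    (B38 : 0 ≤ -d1 - p0 - 1)
    (B40 : 0 ≤ -d1 - p1 - 1)
    (D6 : (0 ≤ n2 - b2 - 2 ∧ 0 ≤ -2 * d1 - p0) ∨ (0 ≤ -n2 + b2 + 1 ∧ 0 ≤ p0 + d1))
    (D10 : (0 ≤ n2 - b2 + n3 - b3 - 2 ∧ 0 ≤ -2 * d1 - p1) ∨ (0 ≤ -n2 + b2 - n3 + b3 + 1 ∧ 0 ≤ p1 + d1))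
    (D52 : 0 ≤ -b1 ∨ 0 ≤ -d1 + 1 ∨ 0 ≤ -n2 + b2 + 1 ∨ 0 ≤ -n2 + b2 - 2 * n3 + b3 + a3 + 1) : False := by
  have E6 : (0 ≤ n2 - b2 - 2 ∧ 0 ≤ -2 * d1 - p0) := by
    rcases D6 with H6 | H6
    · exact H6
    · linarith only [B38, H6.2]
  have E10 : (0 ≤ n2 - b2 + n3 - b3 - 2 ∧ 0 ≤ -2 * d1 - p1) := by
    rcases D10 with H10 | H10
    · exact H10
    · linarith only [B40, H10.2]
  have E52 : 0 ≤ -n2 + b2 + 1 ∨ 0 ≤ -n2 + b2 - 2 * n3 + b3 + a3 + 1 := by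
    rcases D52 with H52 | H52 | H52 | H52
    · linarith only [B37, H52]
    · linarith only [B28, H52]
    · exact Or.inl H52
    · exact Or.inr H52
  have H10 := E10
  rcases E52 with H52 | H52
  · have H6 := E6
    linarith only [H52, H6.1]
  · linarith only [H10.1, H52, B8]

theorem g1 {a1 a2 a3 b1 b2 b3 d1 n2 n3 p0 p2 x y : ℤ}
    (B10 : 0 ≤ n2 - b2)
    (B16 : 0 ≤ -a1 - a2 + b1 + b2 - x)
    (B17 : 0 ≤ x - 1)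
    (B18 : 0 ≤ y + a1 + a2 + a3 - b1 - b2 - b3)
    (B27 : 0 ≤ -y + 1)
    (B28 : 0 ≤ d1 - 2)
    (B37 : 0 ≤ b1 - 1)
    (B38 : 0 ≤ -d1 - p0 - 1)
    (B40 : 0 ≤ -p2 - 2)
    (D6 : (0 ≤ n2 - b2 - 2 ∧ 0 ≤ -2 * d1 - p0) ∨ (0 ≤ -n2 + b2 + 1 ∧ 0 ≤ p0 + d1))
    (D15 : (0 ≤ n3 - a3 - 1 ∧ 0 ≤ -d1 - p2) ∨ (0 ≤ -n3 + a3 ∧ 0 ≤ p2))
    (D51 : 0 ≤ -b1 ∨ 0 ≤ -d1 + 1 ∨ 0 ≤ -n2 + b2 + 1 ∨ 0 ≤ -n2 + b2 - 2 * n3 + b3 + a3 + 1) : False := by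
  have E6 : (0 ≤ n2 - b2 - 2 ∧ 0 ≤ -2 * d1 - p0) := by
    rcases D6 with H6 | H6
    · exact H6
    · linarith only [B38, H6.2]
  have E15 : (0 ≤ n3 - a3 - 1 ∧ 0 ≤ -d1 - p2) := by
    rcases D15 with H15 | H15
    · exact H15
    · linarith only [B40, H15.2]
  have E51 : 0 ≤ -n2 + b2 + 1 ∨ 0 ≤ -n2 + b2 - 2 * n3 + b3 + a3 + 1 := by
    rcases D51 with H51 | H51 | H51 | H51
    · linarith only [B37, H51]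
    · linarith only [B28, H51]
    · exact Or.inl H51
    · exact Or.inr H51
  have H15 := E15
  rcases E51 with H51 | H51
  · have H6 := E6
    linarith only [H6.1, H51]
  · linarith only [B17, B16, B10, H51, H15.1, B18, B27]

theorem g2 {a3 b1 b2 b3 d1 n2 n3 p0 : ℤ}
    (B8 : 0 ≤ n3 - a3)
    (B11 : 0 ≤ n3 - b3)
    (B28 : 0 ≤ d1 - 2)
    (B37 : 0 ≤ b1 - 1)
    (B38 : 0 ≤ -d1 - p0 - 1)
    (D6 : (0 ≤ n2 - b2 - 2 ∧ 0 ≤ -2 * d1 - p0) ∨ (0 ≤ -n2 + b2 + 1 ∧ 0 ≤ p0 + d1))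
    (D52 : 0 ≤ -b1 ∨ 0 ≤ -d1 + 1 ∨ 0 ≤ -n2 + b2 + 1 ∨ 0 ≤ -n2 + b2 - 2 * n3 + b3 + a3 + 1) : False := by
  have E6 : (0 ≤ n2 - b2 - 2 ∧ 0 ≤ -2 * d1 - p0) := by
    rcases D6 with H6 | H6
    · exact H6
    · linarith only [B38, H6.2]
  have E52 : 0 ≤ -n2 + b2 + 1 ∨ 0 ≤ -n2 + b2 - 2 * n3 + b3 + a3 + 1 := by
    rcases D52 with H52 | H52 | H52 | H52
    · linarith only [B37, H52]
    · linarith only [B28, H52]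
    · exact Or.inl H52
    · exact Or.inr H52
  have H6 := E6
  rcases E52 with H52 | H52
  · linarith only [H6.1, H52]
  · linarith only [H6.1, H52, B8, B11]

theorem g3 {a3 b1 b2 b3 d1 n2 n3 p0 : ℤ}
    (B8 : 0 ≤ n3 - a3)
    (B11 : 0 ≤ n3 - b3)
    (B28 : 0 ≤ d1 - 2)
    (B37 : 0 ≤ b1 - 1)
    (B38 : 0 ≤ -d1 - p0 - 1)
    (D6 : (0 ≤ n2 - b2 - 2 ∧ 0 ≤ -2 * d1 - p0) ∨ (0 ≤ -n2 + b2 + 1 ∧ 0 ≤ p0 + d1))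
    (D52 : 0 ≤ -b1 ∨ 0 ≤ -d1 + 1 ∨ 0 ≤ -n2 + b2 + 1 ∨ 0 ≤ -n2 + b2 - 2 * n3 + b3 + a3 + 1) : False := by
  have E6 : (0 ≤ n2 - b2 - 2 ∧ 0 ≤ -2 * d1 - p0) := by
    rcases D6 with H6 | H6
    · exact H6
    · linarith only [B38, H6.2]
  have E52 : 0 ≤ -n2 + b2 + 1 ∨ 0 ≤ -n2 + b2 - 2 * n3 + b3 + a3 + 1 := by
    rcases D52 with H52 | H52 | H52 | H52
    · linarith only [B37, H52]
    · linarith only [B28, H52]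
    · exact Or.inl H52
    · exact Or.inr H52
  have H6 := E6
  rcases E52 with H52 | H52
  · linarith only [H6.1, H52]
  · linarith only [H6.1, H52, B8, B11]

theorem g4 {a1 a2 a3 b1 b2 b3 d1 g h h3 k n1 n2 n3 p0 p1 p10 p4 p5 p8 p9 x y : ℤ}
    (B2 : 0 ≤ a3)
    (B8 : 0 ≤ n3 - a3)
    (B10 : 0 ≤ n2 - b2)
    (B15 : 0 ≤ x + a1 + a2 - b1 - b2)
    (B16 : 0 ≤ -a1 - a2 + b1 + b2 - x)
    (B17 : 0 ≤ x - 1)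
    (B19 : 0 ≤ -a1 - a2 - a3 + b1 + b2 + b3 - y)
    (B20 : 0 ≤ y - 1)
    (B22 : 0 ≤ a1 - b1 - d1)
    (B25 : 0 ≤ -x + 1)
    (B28 : 0 ≤ d1 - 2)
    (B29 : 0 ≤ n1 - a1 - h)
    (B30 : 0 ≤ a2 - h - 1)
    (B34 : 0 ≤ a3 - k - 1)
    (B36 : 0 ≤ a3 - g)
    (B37 : 0 ≤ h - d1)
    (B38 : 0 ≤ b1 - 1)
    (B39 : 0 ≤ -d1 - p1 - 1)
    (D3 : 0 ≤ h3 - n1 + a1 ∨ 0 ≤ h3 - a2 - a3 + 1)
    (D4 : 0 ≤ k - n1 + a1 - n2 + a2 ∨ 0 ≤ k - a3 + 1)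
    (D6 : (0 ≤ n2 - b2 - 2 ∧ 0 ≤ -2 * d1 - p0) ∨ (0 ≤ -n2 + b2 + 1 ∧ 0 ≤ p0 + d1))
    (D10 : (0 ≤ n2 - b2 + n3 - b3 - 2 ∧ 0 ≤ -2 * d1 - p1) ∨ (0 ≤ -n2 + b2 - n3 + b3 + 1 ∧ 0 ≤ p1 + d1))
    (D24 : (0 ≤ k ∧ 0 ≤ -p4) ∨ (0 ≤ -k - 1 ∧ 0 ≤ p4 - d1))
    (D25 : (0 ≤ k + 1 ∧ 0 ≤ d1 - p4) ∨ (0 ≤ -k - 2 ∧ 0 ≤ p4 - 2 * d1))
    (D27 : (0 ≤ g - 1 ∧ 0 ≤ -d1 - p5) ∨ (0 ≤ -g ∧ 0 ≤ p5))
    (D41 : (0 ≤ n3 - a3 - 1 ∧ 0 ≤ d1 - p8) ∨ (0 ≤ -n3 + a3 ∧ 0 ≤ p8 - 2 * d1))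
    (D44 : (0 ≤ k - 1 ∧ 0 ≤ -p9) ∨ (0 ≤ -k ∧ 0 ≤ p9 - d1))
    (D45 : (0 ≤ k ∧ 0 ≤ d1 - p9) ∨ (0 ≤ -k - 1 ∧ 0 ≤ p9 - 2 * d1))
    (D48 : (0 ≤ g - 1 ∧ 0 ≤ -p10) ∨ (0 ≤ -g ∧ 0 ≤ p10 - d1))
    (D52 : 0 ≤ -b1 ∨ 0 ≤ -d1 + 1 ∨ 0 ≤ -n2 + b2 + 1 ∨ 0 ≤ -n2 + b2 - 2 * n3 + b3 + a3 + 1)
    (D56 : 0 ≤ -b1 ∨ 0 ≤ d1 - h3 ∨ 0 ≤ -n2 + b2 - k - 1 ∨ 0 ≤ -n2 + b2 - n3 + b3)
    (D57 : 0 ≤ -h3 ∨ 0 ≤ -k - 1 ∨ 0 ≤ -n3 + a3)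
    (D58 : ((0 ≤ b1 - 1 ∧ 0 ≤ -d1 - p0 - 2) ∨ (0 ≤ b1 - 1 ∧ 0 ≤ d1 + p0 + 1 ∧ 0 ≤ -d1 - p0 - 1 ∧ 0 ≤ n2 - b2)) ∨ (0 ≤ h - d1 - 1) ∨ (0 ≤ h3 - p4 - 1 ∨ (0 ≤ -h3 + p4 ∧ 0 ≤ h3 - p4 ∧ 0 ≤ k)) ∨ (0 ≤ -p5 - 2 ∨ (0 ≤ p5 + 1 ∧ 0 ≤ -p5 - 1 ∧ 0 ≤ g)))
    (D59 : ((0 ≤ b1 - 1 ∧ 0 ≤ n2 - b2 - 1) ∨ (0 ≤ b1 - 1 ∧ 0 ≤ -n2 + b2 ∧ 0 ≤ n2 - b2 ∧ 0 ≤ -d1 - p0 - 1)) ∨ (0 ≤ k - 1 ∨ (0 ≤ -k ∧ 0 ≤ k ∧ 0 ≤ h3 - p4)) ∨ (0 ≤ g - 1 ∨ (0 ≤ -g ∧ 0 ≤ g ∧ 0 ≤ -p5 - 1))) : False := by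
  have E3 := D3
  have E4 := D4
  have E6 := D6
  have E10 : (0 ≤ n2 - b2 + n3 - b3 - 2 ∧ 0 ≤ -2 * d1 - p1) := by
    rcases D10 with H10 | H10
    · exact H10
    · linarith only [B39, H10.2]
  have E24 := D24
  have E25 := D25
  have E27 := D27
  have E41 := D41
  have E44 := D44
  have E45 := D45
  have E48 := D48
  have E52 : 0 ≤ -n2 + b2 + 1 ∨ 0 ≤ -n2 + b2 - 2 * n3 + b3 + a3 + 1 := by
    rcases D52 with H52 | H52 | H52 | H52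
    · linarith only [B38, H52]
    · linarith only [B28, H52]
    · exact Or.inl H52
    · exact Or.inr H52
  have E56 : 0 ≤ d1 - h3 ∨ 0 ≤ -n2 + b2 - k - 1 ∨ 0 ≤ -n2 + b2 - n3 + b3 := by
    rcases D56 with H56 | H56 | H56 | H56
    · linarith only [B38, H56]
    · exact Or.inl H56
    · exact Or.inr (Or.inl H56)
    · exact Or.inr (Or.inr H56)
  have E57 := D57
  have E58 : (0 ≤ b1 - 1 ∧ 0 ≤ -d1 - p0 - 2) ∨ (0 ≤ b1 - 1 ∧ 0 ≤ d1 + p0 + 1 ∧ 0 ≤ -d1 - p0 - 1 ∧ 0 ≤ n2 - b2) ∨ 0 ≤ h - d1 - 1 ∨ 0 ≤ h3 - p4 - 1 ∨ (0 ≤ -h3 + p4 ∧ 0 ≤ h3 - p4 ∧ 0 ≤ k) ∨ 0 ≤ -p5 - 2 ∨ (0 ≤ p5 + 1 ∧ 0 ≤ -p5 - 1 ∧ 0 ≤ g) := by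
    rcases D58 with (H58 | H58) | H58 | (H58 | H58) | (H58 | H58)
    · exact Or.inl H58
    · exact Or.inr (Or.inl H58)
    · exact Or.inr (Or.inr (Or.inl H58))
    · exact Or.inr (Or.inr (Or.inr (Or.inl H58)))
    · exact Or.inr (Or.inr (Or.inr (Or.inr (Or.inl H58))))
    · exact Or.inr (Or.inr (Or.inr (Or.inr (Or.inr (Or.inl H58)))))
    · exact Or.inr (Or.inr (Or.inr (Or.inr (Or.inr (Or.inr H58)))))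
  have E59 : (0 ≤ b1 - 1 ∧ 0 ≤ n2 - b2 - 1) ∨ (0 ≤ b1 - 1 ∧ 0 ≤ -n2 + b2 ∧ 0 ≤ n2 - b2 ∧ 0 ≤ -d1 - p0 - 1) ∨ 0 ≤ k - 1 ∨ (0 ≤ -k ∧ 0 ≤ k ∧ 0 ≤ h3 - p4) ∨ 0 ≤ g - 1 ∨ (0 ≤ -g ∧ 0 ≤ g ∧ 0 ≤ -p5 - 1) := by
    rcases D59 with (H59 | H59) | (H59 | H59) | (H59 | H59)
    · exact Or.inl H59
    · exact Or.inr (Or.inl H59)
    · exact Or.inr (Or.inr (Or.inl H59))
    · exact Or.inr (Or.inr (Or.inr (Or.inl H59)))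
    · exact Or.inr (Or.inr (Or.inr (Or.inr (Or.inl H59))))
    · exact Or.inr (Or.inr (Or.inr (Or.inr (Or.inr H59))))
  have H10 := E10
  rcases E52 with H52 | H52
  · rcases E41 with H41 | H41
    · rcases E6 with H6 | H6
      · linarith only [H52, H6.1]
      · rcases E44 with H44 | H44
        · rcases E57 with H57 | H57 | H57
          · rcases E3 with H3 | H3
            · linarith only [B29, H57, B37, B28, H3]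
            · linarith only [B30, B34, H57, B37, H3, B28, H44.1]
          · linarith only [H57, H44.1]
          · linarith only [H57, H41.1]
        · rcases E4 with H4 | H4
          · linarith only [B22, B17, B29, B16, B37, H44.1, B28, B10, H4]
          · rcases E25 with H25 | H25
            · rcases E45 with H45 | H45
              · rcases E57 with H57 | H57 | H57
                · rcases E3 with H3 | H3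
                  · linarith only [B29, H57, B37, B28, H3]
                  · linarith only [B30, H3, H57, B37, B34, B28, H45.1]
                · linarith only [H57, H45.1]
                · linarith only [H41.1, H57]
              · rcases E48 with H48 | H48
                · linarith only [H4, H48.1, H45.1, B36]
                · rcases E24 with H24 | H24
                  · linarith only [H45.1, H24.1]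
                  · rcases E27 with H27 | H27
                    · linarith only [H27.1, H48.1]
                    · rcases E59 with H59 | H59 | H59 | H59 | H59 | H59
                      · rcases E56 with H56 | H56 | H56
                        · rcases E58 with H58 | H58 | H58 | H58 | H58 | H58 | H58
                          · linarith only [H58.2, H6.2]
                          · linarith only [H58.2.2.1, H6.2]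
                          · rcases E3 with H3 | H3
                            · linarith only [B29, H56, H58, H3]
                            · linarith only [B30, H3, H56, H58, B2]
                          · linarith only [H58, H24.2, H56]
                          · linarith only [H45.1, H58.2.2]
                          · linarith only [H58, H27.2]
                          · linarith only [H58.2.1, H27.2]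
                        · linarith only [H56, H59.2, H25.1]
                        · linarith only [H10.1, H56]
                      · linarith only [H59.2.2.2, H6.2]
                      · linarith only [H45.1, H59]
                      · linarith only [H45.1, H59.2.1]
                      · linarith only [H59, H48.1]
                      · linarith only [H59.2.2, H27.2]
            · linarith only [H4, H25.1, B2]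
    · linarith only [H10.1, H41.1, B20, H52, B15, B25, B19]
  · linarith only [H10.1, H52, B8]

theorem g5_l0 {a1 a2 a3 b1 b2 d1 g h h3 k n1 n2 p0 p4 p5 p9 : ℤ}
    (B31 : 0 ≤ n1 - a1 - h3)
    (B32 : 0 ≤ a2 + a3 - h3 - 1)
    (E2 : 0 ≤ h - n1 + a1 ∨ 0 ≤ h - a2 + 1)
    (E55 : (0 ≤ b1 - 1 ∧ 0 ≤ -d1 - p0 - 2) ∨ (0 ≤ b1 - 1 ∧ 0 ≤ d1 + p0 + 1 ∧ 0 ≤ -d1 - p0 - 1 ∧ 0 ≤ n2 - b2) ∨ 0 ≤ h - d1 - 1 ∨ 0 ≤ h3 - p4 - 1 ∨ (0 ≤ -h3 + p4 ∧ 0 ≤ h3 - p4 ∧ 0 ≤ k) ∨ 0 ≤ -p5 - 2 ∨ (0 ≤ p5 + 1 ∧ 0 ≤ -p5 - 1 ∧ 0 ≤ g))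
    (H5 : 0 ≤ g - a3)
    (H6 : 0 ≤ -n2 + b2 + 1 ∧ 0 ≤ p0 + d1)
    (H24 : 0 ≤ -k - 1 ∧ 0 ≤ p4 - d1)
    (H27 : 0 ≤ -g ∧ 0 ≤ p5)
    (H45 : 0 ≤ -k - 1 ∧ 0 ≤ p9 - 2 * d1)
    (H53 : 0 ≤ d1 - h) : False := by
  rcases E55 with H55 | H55 | H55 | H55 | H55 | H55 | H55
  · linarith only [H55.2, H6.2]
  · linarith only [H55.2.2.1, H6.2]
  · linarith only [H55, H53]
  · rcases E2 with H2 | H2
    · linarith only [H53, B31, H55, H2, H24.2]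
    · linarith only [H5, B32, H53, H55, H27.1, H2, H24.2]
  · linarith only [H45.1, H55.2.2]
  · linarith only [H55, H27.2]
  · linarith only [H55.2.1, H27.2]

theorem g5 {a1 a2 a3 b1 b2 b3 d1 g h h3 k n1 n2 n3 p0 p1 p2 p4 p5 p9 x y : ℤ}
    (B10 : 0 ≤ n2 - b2)
    (B11 : 0 ≤ n3 - b3)
    (B16 : 0 ≤ -a1 - a2 + b1 + b2 - x)
    (B17 : 0 ≤ x - 1)
    (B18 : 0 ≤ y + a1 + a2 + a3 - b1 - b2 - b3)
    (B22 : 0 ≤ a1 - b1 - d1)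
    (B27 : 0 ≤ -y + 1)
    (B28 : 0 ≤ d1 - 2)
    (B29 : 0 ≤ n1 - a1 - h)
    (B30 : 0 ≤ a2 - h - 1)
    (B31 : 0 ≤ n1 - a1 - h3)
    (B32 : 0 ≤ a2 + a3 - h3 - 1)
    (B34 : 0 ≤ a3 - k - 1)
    (B36 : 0 ≤ a3 - g)
    (B37 : 0 ≤ h - d1)
    (B39 : 0 ≤ -p2 - 2)
    (D2 : 0 ≤ h - n1 + a1 ∨ 0 ≤ h - a2 + 1)
    (D3 : 0 ≤ h3 - n1 + a1 ∨ 0 ≤ h3 - a2 - a3 + 1)
    (D4 : 0 ≤ k - n1 + a1 - n2 + a2 ∨ 0 ≤ k - a3 + 1)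
    (D5 : 0 ≤ g - n2 + a2 + 1 ∨ 0 ≤ g - a3)
    (D6 : (0 ≤ n2 - b2 - 2 ∧ 0 ≤ -2 * d1 - p0) ∨ (0 ≤ -n2 + b2 + 1 ∧ 0 ≤ p0 + d1))
    (D10 : (0 ≤ n2 - b2 + n3 - b3 - 2 ∧ 0 ≤ -2 * d1 - p1) ∨ (0 ≤ -n2 + b2 - n3 + b3 + 1 ∧ 0 ≤ p1 + d1))
    (D15 : (0 ≤ n3 - a3 - 1 ∧ 0 ≤ -d1 - p2) ∨ (0 ≤ -n3 + a3 ∧ 0 ≤ p2))
    (D24 : (0 ≤ k ∧ 0 ≤ -p4) ∨ (0 ≤ -k - 1 ∧ 0 ≤ p4 - d1))
    (D27 : (0 ≤ g - 1 ∧ 0 ≤ -d1 - p5) ∨ (0 ≤ -g ∧ 0 ≤ p5))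
    (D44 : (0 ≤ k - 1 ∧ 0 ≤ -p9) ∨ (0 ≤ -k ∧ 0 ≤ p9 - d1))
    (D45 : (0 ≤ k ∧ 0 ≤ d1 - p9) ∨ (0 ≤ -k - 1 ∧ 0 ≤ p9 - 2 * d1))
    (D51 : 0 ≤ -h3 ∨ 0 ≤ -k - 1 ∨ 0 ≤ -n3 + a3)
    (D52 : 0 ≤ -b1 ∨ 0 ≤ -d1 + 1 ∨ 0 ≤ -n2 + b2 + 1 ∨ 0 ≤ -n2 + b2 - 2 * n3 + b3 + a3 + 1)
    (D53 : 0 ≤ -b1 ∨ 0 ≤ d1 - h ∨ 0 ≤ -n2 + b2 ∨ 0 ≤ -n2 + b2 - 2 * n3 + b3 + a3)
    (D54 : ((0 ≤ b1 - 1 ∧ 0 ≤ n2 - b2 - 1) ∨ (0 ≤ b1 - 1 ∧ 0 ≤ -n2 + b2 ∧ 0 ≤ n2 - b2 ∧ 0 ≤ -d1 - p0 - 1)) ∨ (0 ≤ k - 1 ∨ (0 ≤ -k ∧ 0 ≤ k ∧ 0 ≤ h3 - p4)) ∨ (0 ≤ g - 1 ∨ (0 ≤ -g ∧ 0 ≤ g ∧ 0 ≤ -p5 - 1)))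
    (D55 : ((0 ≤ b1 - 1 ∧ 0 ≤ -d1 - p0 - 2) ∨ (0 ≤ b1 - 1 ∧ 0 ≤ d1 + p0 + 1 ∧ 0 ≤ -d1 - p0 - 1 ∧ 0 ≤ n2 - b2)) ∨ (0 ≤ h - d1 - 1) ∨ (0 ≤ h3 - p4 - 1 ∨ (0 ≤ -h3 + p4 ∧ 0 ≤ h3 - p4 ∧ 0 ≤ k)) ∨ (0 ≤ -p5 - 2 ∨ (0 ≤ p5 + 1 ∧ 0 ≤ -p5 - 1 ∧ 0 ≤ g))) : False := by
  have E2 := D2
  have E3 := D3
  have E4 := D4
  have E5 := D5
  have E6 := D6
  have E10 := D10
  have E15 : (0 ≤ n3 - a3 - 1 ∧ 0 ≤ -d1 - p2) := by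
    rcases D15 with H15 | H15
    · exact H15
    · linarith only [B39, H15.2]
  have E24 := D24
  have E27 := D27
  have E44 := D44
  have E45 := D45
  have E51 := D51
  have E52 : 0 ≤ -b1 ∨ 0 ≤ -n2 + b2 + 1 ∨ 0 ≤ -n2 + b2 - 2 * n3 + b3 + a3 + 1 := by
    rcases D52 with H52 | H52 | H52 | H52
    · exact Or.inl H52
    · linarith only [B28, H52]
    · exact Or.inr (Or.inl H52)
    · exact Or.inr (Or.inr H52)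
  have E53 := D53
  have E54 : (0 ≤ b1 - 1 ∧ 0 ≤ n2 - b2 - 1) ∨ (0 ≤ b1 - 1 ∧ 0 ≤ -n2 + b2 ∧ 0 ≤ n2 - b2 ∧ 0 ≤ -d1 - p0 - 1) ∨ 0 ≤ k - 1 ∨ (0 ≤ -k ∧ 0 ≤ k ∧ 0 ≤ h3 - p4) ∨ 0 ≤ g - 1 ∨ (0 ≤ -g ∧ 0 ≤ g ∧ 0 ≤ -p5 - 1) := by
    rcases D54 with (H54 | H54) | (H54 | H54) | (H54 | H54)
    · exact Or.inl H54
    · exact Or.inr (Or.inl H54)
    · exact Or.inr (Or.inr (Or.inl H54))
    · exact Or.inr (Or.inr (Or.inr (Or.inl H54)))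
    · exact Or.inr (Or.inr (Or.inr (Or.inr (Or.inl H54))))
    · exact Or.inr (Or.inr (Or.inr (Or.inr (Or.inr H54))))
  have E55 : (0 ≤ b1 - 1 ∧ 0 ≤ -d1 - p0 - 2) ∨ (0 ≤ b1 - 1 ∧ 0 ≤ d1 + p0 + 1 ∧ 0 ≤ -d1 - p0 - 1 ∧ 0 ≤ n2 - b2) ∨ 0 ≤ h - d1 - 1 ∨ 0 ≤ h3 - p4 - 1 ∨ (0 ≤ -h3 + p4 ∧ 0 ≤ h3 - p4 ∧ 0 ≤ k) ∨ 0 ≤ -p5 - 2 ∨ (0 ≤ p5 + 1 ∧ 0 ≤ -p5 - 1 ∧ 0 ≤ g) := by
    rcases D55 with (H55 | H55) | H55 | (H55 | H55) | (H55 | H55)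
    · exact Or.inl H55
    · exact Or.inr (Or.inl H55)
    · exact Or.inr (Or.inr (Or.inl H55))
    · exact Or.inr (Or.inr (Or.inr (Or.inl H55)))
    · exact Or.inr (Or.inr (Or.inr (Or.inr (Or.inl H55))))
    · exact Or.inr (Or.inr (Or.inr (Or.inr (Or.inr (Or.inl H55)))))
    · exact Or.inr (Or.inr (Or.inr (Or.inr (Or.inr (Or.inr H55)))))
  have H15 := E15
  rcases E44 with H44 | H44
  · rcases E51 with H51 | H51 | H51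
    · rcases E3 with H3 | H3
      · linarith only [B28, B29, H51, B37, H3]
      · linarith only [B28, B30, B34, H51, B37, H3, H44.1]
    · linarith only [H51, H44.1]
    · linarith only [H15.1, H51]
  · rcases E4 with H4 | H4
    · linarith only [B28, B17, B16, B29, B22, B37, H44.1, B10, H4]
    · rcases E5 with H5 | H5
      · linarith only [B28, B17, B36, B16, H4, B22, H44.1, B10, H5]
      · rcases E27 with H27 | H27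
        · rcases E51 with H51 | H51 | H51
          · rcases E3 with H3 | H3
            · linarith only [B28, B29, H51, B37, H3]
            · linarith only [B28, B30, H3, H51, B37, H27.1, B36]
          · linarith only [H4, H27.1, H51, B36]
          · linarith only [H51, H15.1]
        · rcases E45 with H45 | H45
          · linarith only [H27.1, H5, B34, H45.1]
          · rcases E24 with H24 | H24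
            · linarith only [H45.1, H24.1]
            · rcases E6 with H6 | H6
              · rcases E54 with H54 | H54 | H54 | H54 | H54 | H54
                · rcases E52 with H52 | H52 | H52
                  · linarith only [H54.1, H52]
                  · linarith only [H6.1, H52]
                  · linarith only [H15.1, B11, H6.1, H52]
                · linarith only [H6.1, H54.2.1]
                · linarith only [H45.1, H54]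
                · linarith only [H45.1, H54.2.1]
                · linarith only [H27.1, H54]
                · linarith only [H54.2.2, H27.2]
              · rcases E54 with H54 | H54 | H54 | H54 | H54 | H54
                · rcases E10 with H10 | H10
                  · rcases E53 with H53 | H53 | H53 | H53
                    · linarith only [H54.1, H53]
                    · exact g5_l0 B31 B32 E2 E55 H5 H6 H24 H27 H45 H53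
                    · linarith only [H54.2, H53]
                    · linarith only [H15.1, H10.1, H53]
                  · linarith only [B27, B17, H54.2, B16, H10.1, B18, H15.1]
                · linarith only [H54.2.2.2, H6.2]
                · linarith only [H45.1, H54]
                · linarith only [H45.1, H54.2.1]
                · linarith only [H54, H27.1]
                · linarith only [H54.2.2, H27.2]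

theorem g6_l0 {a1 a2 a3 d1 g h h3 k n1 n3 p10 : ℤ}
    (B28 : 0 ≤ d1 - 2)
    (B29 : 0 ≤ n1 - a1 - h)
    (B30 : 0 ≤ a2 - h - 1)
    (B36 : 0 ≤ a3 - g)
    (B37 : 0 ≤ h - d1)
    (E3 : 0 ≤ h3 - n1 + a1 ∨ 0 ≤ h3 - a2 - a3 + 1)
    (E52 : 0 ≤ -h3 ∨ 0 ≤ -k - 1 ∨ 0 ≤ -n3 + a3)
    (H1 : 0 ≤ a2 - 1 ∧ 0 ≤ n3 - a3 - 1)
    (H4 : 0 ≤ k - a3 + 1)
    (H48 : 0 ≤ g - 1 ∧ 0 ≤ -p10) : False := by
  rcases E52 with H52 | H52 | H52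
  · rcases E3 with H3 | H3
    · linarith only [B29, H52, B37, B28, H3]
    · linarith only [B30, H52, H3, B37, H48.1, B28, B36]
  · linarith only [H4, H48.1, H52, B36]
  · linarith only [H52, H1.2]

theorem g6_l1 {a1 a2 a3 b1 b2 d1 g h h3 k n1 n2 p0 p4 p5 : ℤ}
    (B31 : 0 ≤ n1 - a1 - h3)
    (B32 : 0 ≤ a2 + a3 - h3 - 1)
    (E2 : 0 ≤ h - n1 + a1 ∨ 0 ≤ h - a2 + 1)
    (E6 : (0 ≤ n2 - b2 - 2 ∧ 0 ≤ -2 * d1 - p0) ∨ (0 ≤ -n2 + b2 + 1 ∧ 0 ≤ p0 + d1))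
    (E56 : (0 ≤ b1 - 1 ∧ 0 ≤ -d1 - p0 - 2) ∨ (0 ≤ b1 - 1 ∧ 0 ≤ d1 + p0 + 1 ∧ 0 ≤ -d1 - p0 - 1 ∧ 0 ≤ n2 - b2) ∨ 0 ≤ h - d1 - 1 ∨ 0 ≤ h3 - p4 - 1 ∨ (0 ≤ -h3 + p4 ∧ 0 ≤ h3 - p4 ∧ 0 ≤ k) ∨ 0 ≤ -p5 - 2 ∨ (0 ≤ p5 + 1 ∧ 0 ≤ -p5 - 1 ∧ 0 ≤ g))
    (H4 : 0 ≤ k - a3 + 1)
    (H24 : 0 ≤ -k - 1 ∧ 0 ≤ p4 - d1)
    (H27 : 0 ≤ -g ∧ 0 ≤ p5)
    (H53 : 0 ≤ -n2 + b2 + 1)
    (H54 : 0 ≤ d1 - h) : False := by
  rcases E6 with H6 | H6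
  · linarith only [H6.1, H53]
  · rcases E56 with H56 | H56 | H56 | H56 | H56 | H56 | H56
    · linarith only [H56.2, H6.2]
    · linarith only [H56.2.2.1, H6.2]
    · linarith only [H56, H54]
    · rcases E2 with H2 | H2
      · linarith only [B31, H56, H2, H54, H24.2]
      · linarith only [B32, H4, H56, H24.1, H2, H54, H24.2]
    · linarith only [H24.1, H56.2.2]
    · linarith only [H56, H27.2]
    · linarith only [H56.2.1, H27.2]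

theorem g6_l2 {a3 b1 b2 d1 g h3 k n2 p0 p10 p4 p5 p6 : ℤ}
    (B28 : 0 ≤ d1 - 2)
    (B34 : 0 ≤ a3 - k - 1)
    (E24 : (0 ≤ k ∧ 0 ≤ -p4) ∨ (0 ≤ -k - 1 ∧ 0 ≤ p4 - d1))
    (E27 : (0 ≤ g - 1 ∧ 0 ≤ -d1 - p5) ∨ (0 ≤ -g ∧ 0 ≤ p5))
    (E55 : (0 ≤ b1 - 1 ∧ 0 ≤ n2 - b2 - 1) ∨ (0 ≤ b1 - 1 ∧ 0 ≤ -n2 + b2 ∧ 0 ≤ n2 - b2 ∧ 0 ≤ -d1 - p0 - 1) ∨ 0 ≤ k - 1 ∨ (0 ≤ -k ∧ 0 ≤ k ∧ 0 ≤ h3 - p4) ∨ 0 ≤ g - 1 ∨ (0 ≤ -g ∧ 0 ≤ g ∧ 0 ≤ -p5 - 1))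
    (H5 : 0 ≤ g - a3)
    (H7 : 0 ≤ -n2 + b2 ∧ 0 ≤ p0)
    (H32 : 0 ≤ -n2 + b2 ∧ 0 ≤ p6 - d1)
    (H48 : 0 ≤ -g ∧ 0 ≤ p10 - d1) : False := by
  rcases E24 with H24 | H24
  · linarith only [H48.1, H5, B34, H24.1]
  · rcases E27 with H27 | H27
    · linarith only [H27.1, H48.1]
    · rcases E55 with H55 | H55 | H55 | H55 | H55 | H55
      · linarith only [H55.2, H32.1]
      · linarith only [H55.2.2.2, B28, H7.2]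
      · linarith only [H24.1, H55]
      · linarith only [H24.1, H55.2.1]
      · linarith only [H55, H48.1]
      · linarith only [H55.2.2, H27.2]

theorem g6_l3 {a1 a2 a3 d1 g h h3 k n1 n3 p10 p8 : ℤ}
    (B28 : 0 ≤ d1 - 2)
    (B29 : 0 ≤ n1 - a1 - h)
    (B30 : 0 ≤ a2 - h - 1)
    (B36 : 0 ≤ a3 - g)
    (B37 : 0 ≤ h - d1)
    (E3 : 0 ≤ h3 - n1 + a1 ∨ 0 ≤ h3 - a2 - a3 + 1)
    (E52 : 0 ≤ -h3 ∨ 0 ≤ -k - 1 ∨ 0 ≤ -n3 + a3)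
    (H4 : 0 ≤ k - a3 + 1)
    (H41 : 0 ≤ n3 - a3 - 1 ∧ 0 ≤ d1 - p8)
    (H48 : 0 ≤ g - 1 ∧ 0 ≤ -p10) : False := by
  rcases E52 with H52 | H52 | H52
  · rcases E3 with H3 | H3
    · linarith only [B29, H52, B37, B28, H3]
    · linarith only [B30, H52, H3, B37, H48.1, B28, B36]
  · linarith only [H4, H48.1, H52, B36]
  · linarith only [H41.1, H52]

theorem g6 {a1 a2 a3 b1 b2 b3 d1 g h h3 k n1 n2 n3 p0 p1 p10 p4 p5 p6 p8 p9 x y : ℤ}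
    (B10 : 0 ≤ n2 - b2)
    (B15 : 0 ≤ x + a1 + a2 - b1 - b2)
    (B16 : 0 ≤ -a1 - a2 + b1 + b2 - x)
    (B17 : 0 ≤ x - 1)
    (B18 : 0 ≤ y + a1 + a2 + a3 - b1 - b2 - b3)
    (B19 : 0 ≤ -a1 - a2 - a3 + b1 + b2 + b3 - y)
    (B20 : 0 ≤ y - 1)
    (B22 : 0 ≤ a1 - b1 - d1)
    (B25 : 0 ≤ -x + 1)
    (B27 : 0 ≤ -y + 1)
    (B28 : 0 ≤ d1 - 2)
    (B29 : 0 ≤ n1 - a1 - h)
    (B30 : 0 ≤ a2 - h - 1)
    (B31 : 0 ≤ n1 - a1 - h3)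
    (B32 : 0 ≤ a2 + a3 - h3 - 1)
    (B34 : 0 ≤ a3 - k - 1)
    (B36 : 0 ≤ a3 - g)
    (B37 : 0 ≤ h - d1)
    (D1 : (0 ≤ a2 - 1 ∧ 0 ≤ n3 - a3 - 1) ∨ (0 ≤ b2 - 1 ∧ 0 ≤ n3 - b3 - 1))
    (D2 : 0 ≤ h - n1 + a1 ∨ 0 ≤ h - a2 + 1)
    (D3 : 0 ≤ h3 - n1 + a1 ∨ 0 ≤ h3 - a2 - a3 + 1)
    (D4 : 0 ≤ k - n1 + a1 - n2 + a2 ∨ 0 ≤ k - a3 + 1)
    (D5 : 0 ≤ g - n2 + a2 + 1 ∨ 0 ≤ g - a3)
    (D6 : (0 ≤ n2 - b2 - 2 ∧ 0 ≤ -2 * d1 - p0) ∨ (0 ≤ -n2 + b2 + 1 ∧ 0 ≤ p0 + d1))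
    (D7 : (0 ≤ n2 - b2 - 1 ∧ 0 ≤ -d1 - p0) ∨ (0 ≤ -n2 + b2 ∧ 0 ≤ p0))
    (D10 : (0 ≤ n2 - b2 + n3 - b3 - 2 ∧ 0 ≤ -2 * d1 - p1) ∨ (0 ≤ -n2 + b2 - n3 + b3 + 1 ∧ 0 ≤ p1 + d1))
    (D24 : (0 ≤ k ∧ 0 ≤ -p4) ∨ (0 ≤ -k - 1 ∧ 0 ≤ p4 - d1))
    (D27 : (0 ≤ g - 1 ∧ 0 ≤ -d1 - p5) ∨ (0 ≤ -g ∧ 0 ≤ p5))
    (D32 : (0 ≤ n2 - b2 - 1 ∧ 0 ≤ -p6) ∨ (0 ≤ -n2 + b2 ∧ 0 ≤ p6 - d1))
    (D41 : (0 ≤ n3 - a3 - 1 ∧ 0 ≤ d1 - p8) ∨ (0 ≤ -n3 + a3 ∧ 0 ≤ p8 - 2 * d1))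
    (D44 : (0 ≤ k - 1 ∧ 0 ≤ -p9) ∨ (0 ≤ -k ∧ 0 ≤ p9 - d1))
    (D48 : (0 ≤ g - 1 ∧ 0 ≤ -p10) ∨ (0 ≤ -g ∧ 0 ≤ p10 - d1))
    (D52 : 0 ≤ -h3 ∨ 0 ≤ -k - 1 ∨ 0 ≤ -n3 + a3)
    (D53 : 0 ≤ -b1 ∨ 0 ≤ -d1 + 1 ∨ 0 ≤ -n2 + b2 + 1 ∨ 0 ≤ -n2 + b2 - 2 * n3 + b3 + a3 + 1)
    (D54 : 0 ≤ -b1 ∨ 0 ≤ d1 - h ∨ 0 ≤ -n2 + b2 ∨ 0 ≤ -n2 + b2 - 2 * n3 + b3 + a3)
    (D55 : ((0 ≤ b1 - 1 ∧ 0 ≤ n2 - b2 - 1) ∨ (0 ≤ b1 - 1 ∧ 0 ≤ -n2 + b2 ∧ 0 ≤ n2 - b2 ∧ 0 ≤ -d1 - p0 - 1)) ∨ (0 ≤ k - 1 ∨ (0 ≤ -k ∧ 0 ≤ k ∧ 0 ≤ h3 - p4)) ∨ (0 ≤ g - 1 ∨ (0 ≤ -g ∧ 0 ≤ g ∧ 0 ≤ -p5 - 1)))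
    (D56 : ((0 ≤ b1 - 1 ∧ 0 ≤ -d1 - p0 - 2) ∨ (0 ≤ b1 - 1 ∧ 0 ≤ d1 + p0 + 1 ∧ 0 ≤ -d1 - p0 - 1 ∧ 0 ≤ n2 - b2)) ∨ (0 ≤ h - d1 - 1) ∨ (0 ≤ h3 - p4 - 1 ∨ (0 ≤ -h3 + p4 ∧ 0 ≤ h3 - p4 ∧ 0 ≤ k)) ∨ (0 ≤ -p5 - 2 ∨ (0 ≤ p5 + 1 ∧ 0 ≤ -p5 - 1 ∧ 0 ≤ g))) : False := by
  have E1 := D1
  have E2 := D2
  have E3 := D3
  have E4 := D4
  have E5 := D5
  have E6 := D6
  have E7 := D7
  have E10 := D10
  have E24 := D24
  have E27 := D27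
  have E32 := D32
  have E41 := D41
  have E44 := D44
  have E48 := D48
  have E52 := D52
  have E53 : 0 ≤ -b1 ∨ 0 ≤ -n2 + b2 + 1 ∨ 0 ≤ -n2 + b2 - 2 * n3 + b3 + a3 + 1 := by
    rcases D53 with H53 | H53 | H53 | H53
    · exact Or.inl H53
    · linarith only [B28, H53]
    · exact Or.inr (Or.inl H53)
    · exact Or.inr (Or.inr H53)
  have E54 := D54
  have E55 : (0 ≤ b1 - 1 ∧ 0 ≤ n2 - b2 - 1) ∨ (0 ≤ b1 - 1 ∧ 0 ≤ -n2 + b2 ∧ 0 ≤ n2 - b2 ∧ 0 ≤ -d1 - p0 - 1) ∨ 0 ≤ k - 1 ∨ (0 ≤ -k ∧ 0 ≤ k ∧ 0 ≤ h3 - p4) ∨ 0 ≤ g - 1 ∨ (0 ≤ -g ∧ 0 ≤ g ∧ 0 ≤ -p5 - 1) := by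
    rcases D55 with (H55 | H55) | (H55 | H55) | (H55 | H55)
    · exact Or.inl H55
    · exact Or.inr (Or.inl H55)
    · exact Or.inr (Or.inr (Or.inl H55))
    · exact Or.inr (Or.inr (Or.inr (Or.inl H55)))
    · exact Or.inr (Or.inr (Or.inr (Or.inr (Or.inl H55))))
    · exact Or.inr (Or.inr (Or.inr (Or.inr (Or.inr H55))))
  have E56 : (0 ≤ b1 - 1 ∧ 0 ≤ -d1 - p0 - 2) ∨ (0 ≤ b1 - 1 ∧ 0 ≤ d1 + p0 + 1 ∧ 0 ≤ -d1 - p0 - 1 ∧ 0 ≤ n2 - b2) ∨ 0 ≤ h - d1 - 1 ∨ 0 ≤ h3 - p4 - 1 ∨ (0 ≤ -h3 + p4 ∧ 0 ≤ h3 - p4 ∧ 0 ≤ k) ∨ 0 ≤ -p5 - 2 ∨ (0 ≤ p5 + 1 ∧ 0 ≤ -p5 - 1 ∧ 0 ≤ g) := by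
    rcases D56 with (H56 | H56) | H56 | (H56 | H56) | (H56 | H56)
    · exact Or.inl H56
    · exact Or.inr (Or.inl H56)
    · exact Or.inr (Or.inr (Or.inl H56))
    · exact Or.inr (Or.inr (Or.inr (Or.inl H56)))
    · exact Or.inr (Or.inr (Or.inr (Or.inr (Or.inl H56))))
    · exact Or.inr (Or.inr (Or.inr (Or.inr (Or.inr (Or.inl H56)))))
    · exact Or.inr (Or.inr (Or.inr (Or.inr (Or.inr (Or.inr H56)))))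
  rcases E1 with H1 | H1
  · rcases E44 with H44 | H44
    · rcases E52 with H52 | H52 | H52
      · rcases E3 with H3 | H3
        · linarith only [B28, B29, H52, B37, H3]
        · linarith only [B28, B30, B34, H52, B37, H3, H44.1]
      · linarith only [H52, H44.1]
      · linarith only [H1.2, H52]
    · rcases E4 with H4 | H4
      · linarith only [B28, B17, B16, B29, B22, B37, H44.1, B10, H4]
      · rcases E5 with H5 | H5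
        · linarith only [B28, B17, B36, B16, H4, B22, H44.1, B10, H5]
        · rcases E32 with H32 | H32
          · rcases E10 with H10 | H10
            · rcases E48 with H48 | H48
              · exact g6_l0 B28 B29 B30 B36 B37 E3 E52 H1 H4 H48
              · rcases E24 with H24 | H24
                · linarith only [H48.1, H5, B34, H24.1]
                · rcases E27 with H27 | H27
                  · linarith only [H27.1, H48.1]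
                  · rcases E55 with H55 | H55 | H55 | H55 | H55 | H55
                    · rcases E54 with H54 | H54 | H54 | H54
                      · linarith only [H55.1, H54]
                      · rcases E53 with H53 | H53 | H53
                        · linarith only [H55.1, H53]
                        · exact g6_l1 B31 B32 E2 E6 E56 H4 H24 H27 H53 H54
                        · linarith only [H1.2, H10.1, H53]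
                      · linarith only [H32.1, H54]
                      · linarith only [H1.2, H10.1, H54]
                    · linarith only [H32.1, H55.2.1]
                    · linarith only [H24.1, H55]
                    · linarith only [H24.1, H55.2.1]
                    · linarith only [H55, H48.1]
                    · linarith only [H55.2.2, H27.2]
            · linarith only [B27, B17, H1.2, B16, H32.1, B18, H10.1]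
          · rcases E7 with H7 | H7
            · linarith only [H7.1, H32.1]
            · rcases E48 with H48 | H48
              · exact g6_l0 B28 B29 B30 B36 B37 E3 E52 H1 H4 H48
              · exact g6_l2 B28 B34 E24 E27 E55 H5 H7 H32 H48
  · rcases E41 with H41 | H41
    · rcases E44 with H44 | H44
      · rcases E52 with H52 | H52 | H52
        · rcases E3 with H3 | H3
          · linarith only [B28, B29, H52, B37, H3]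
          · linarith only [B28, B30, B34, H52, B37, H3, H44.1]
        · linarith only [H52, H44.1]
        · linarith only [H52, H41.1]
      · rcases E4 with H4 | H4
        · linarith only [B28, B17, B16, B29, B22, B37, H44.1, B10, H4]
        · rcases E5 with H5 | H5
          · linarith only [B28, B17, B36, B16, H4, B22, H44.1, B10, H5]
          · rcases E32 with H32 | H32
            · rcases E10 with H10 | H10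
              · rcases E48 with H48 | H48
                · exact g6_l3 B28 B29 B30 B36 B37 E3 E52 H4 H41 H48
                · rcases E24 with H24 | H24
                  · linarith only [H48.1, H5, B34, H24.1]
                  · rcases E27 with H27 | H27
                    · linarith only [H27.1, H48.1]
                    · rcases E55 with H55 | H55 | H55 | H55 | H55 | H55
                      · rcases E54 with H54 | H54 | H54 | H54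
                        · linarith only [H55.1, H54]
                        · rcases E53 with H53 | H53 | H53
                          · linarith only [H55.1, H53]
                          · exact g6_l1 B31 B32 E2 E6 E56 H4 H24 H27 H53 H54
                          · linarith only [H41.1, H10.1, H53]
                        · linarith only [H32.1, H54]
                        · linarith only [H41.1, H10.1, H54]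
                      · linarith only [H32.1, H55.2.1]
                      · linarith only [H24.1, H55]
                      · linarith only [H24.1, H55.2.1]
                      · linarith only [H55, H48.1]
                      · linarith only [H55.2.2, H27.2]
              · linarith only [H1.2, H32.1, H10.1]
            · rcases E7 with H7 | H7
              · linarith only [H7.1, H32.1]
              · rcases E48 with H48 | H48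
                · exact g6_l3 B28 B29 B30 B36 B37 E3 E52 H4 H41 H48
                · exact g6_l2 B28 B34 E24 E27 E55 H5 H7 H32 H48
    · linarith only [H41.1, B20, H1.2, B15, B25, B19]

theorem g7_l0 {a1 a2 a3 b1 b2 d1 g h h3 k n1 n2 p0 p4 p5 : ℤ}
    (B31 : 0 ≤ n1 - a1 - h3)
    (B32 : 0 ≤ a2 + a3 - h3 - 1)
    (E2 : 0 ≤ h - n1 + a1 ∨ 0 ≤ h - a2 + 1)
    (E6 : (0 ≤ n2 - b2 - 2 ∧ 0 ≤ -2 * d1 - p0) ∨ (0 ≤ -n2 + b2 + 1 ∧ 0 ≤ p0 + d1))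
    (E56 : (0 ≤ b1 - 1 ∧ 0 ≤ -d1 - p0 - 2) ∨ (0 ≤ b1 - 1 ∧ 0 ≤ d1 + p0 + 1 ∧ 0 ≤ -d1 - p0 - 1 ∧ 0 ≤ n2 - b2) ∨ 0 ≤ h - d1 - 1 ∨ 0 ≤ h3 - p4 - 1 ∨ (0 ≤ -h3 + p4 ∧ 0 ≤ h3 - p4 ∧ 0 ≤ k) ∨ 0 ≤ -p5 - 2 ∨ (0 ≤ p5 + 1 ∧ 0 ≤ -p5 - 1 ∧ 0 ≤ g))
    (H4 : 0 ≤ k - a3 + 1)
    (H24 : 0 ≤ -k - 1 ∧ 0 ≤ p4 - d1)
    (H27 : 0 ≤ -g ∧ 0 ≤ p5)
    (H52 : 0 ≤ -k - 1)
    (H53 : 0 ≤ -n2 + b2 + 1)
    (H54 : 0 ≤ d1 - h) : False := by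
  rcases E6 with H6 | H6
  · linarith only [H6.1, H53]
  · rcases E56 with H56 | H56 | H56 | H56 | H56 | H56 | H56
    · linarith only [H56.2, H6.2]
    · linarith only [H56.2.2.1, H6.2]
    · linarith only [H56, H54]
    · rcases E2 with H2 | H2
      · linarith only [H54, B31, H56, H24.2, H2]
      · linarith only [B32, H4, H54, H56, H52, H24.2, H2]
    · linarith only [H52, H56.2.2]
    · linarith only [H56, H27.2]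
    · linarith only [H56.2.1, H27.2]

theorem g7_l1 {b1 b2 d1 g h3 k n2 p0 p10 p4 p5 p6 : ℤ}
    (E6 : (0 ≤ n2 - b2 - 2 ∧ 0 ≤ -2 * d1 - p0) ∨ (0 ≤ -n2 + b2 + 1 ∧ 0 ≤ p0 + d1))
    (E55 : (0 ≤ b1 - 1 ∧ 0 ≤ n2 - b2 - 1) ∨ (0 ≤ b1 - 1 ∧ 0 ≤ -n2 + b2 ∧ 0 ≤ n2 - b2 ∧ 0 ≤ -d1 - p0 - 1) ∨ 0 ≤ k - 1 ∨ (0 ≤ -k ∧ 0 ≤ k ∧ 0 ≤ h3 - p4) ∨ 0 ≤ g - 1 ∨ (0 ≤ -g ∧ 0 ≤ g ∧ 0 ≤ -p5 - 1))
    (H27 : 0 ≤ -g ∧ 0 ≤ p5)
    (H32 : 0 ≤ -n2 + b2 ∧ 0 ≤ p6 - d1)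
    (H48 : 0 ≤ -g ∧ 0 ≤ p10 - d1)
    (H52 : 0 ≤ -k - 1) : False := by
  rcases E55 with H55 | H55 | H55 | H55 | H55 | H55
  · linarith only [H55.2, H32.1]
  · rcases E6 with H6 | H6
    · linarith only [H6.1, H32.1]
    · linarith only [H55.2.2.2, H6.2]
  · linarith only [H52, H55]
  · linarith only [H52, H55.2.1]
  · linarith only [H55, H48.1]
  · linarith only [H55.2.2, H27.2]

theorem g7 {a1 a2 a3 b1 b2 b3 d1 g h h3 k n1 n2 n3 p0 p1 p10 p4 p5 p6 p8 x y : ℤ}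
    (B10 : 0 ≤ n2 - b2)
    (B15 : 0 ≤ x + a1 + a2 - b1 - b2)
    (B16 : 0 ≤ -a1 - a2 + b1 + b2 - x)
    (B17 : 0 ≤ x - 1)
    (B18 : 0 ≤ y + a1 + a2 + a3 - b1 - b2 - b3)
    (B19 : 0 ≤ -a1 - a2 - a3 + b1 + b2 + b3 - y)
    (B20 : 0 ≤ y - 1)
    (B22 : 0 ≤ a1 - b1 - d1)
    (B25 : 0 ≤ -x + 1)
    (B27 : 0 ≤ -y + 1)
    (B28 : 0 ≤ d1 - 2)
    (B29 : 0 ≤ n1 - a1 - h)
    (B31 : 0 ≤ n1 - a1 - h3)
    (B32 : 0 ≤ a2 + a3 - h3 - 1)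
    (B36 : 0 ≤ a3 - g)
    (B37 : 0 ≤ h - d1)
    (B38 : 0 ≤ h3 - d1)
    (D1 : (0 ≤ a2 - 1 ∧ 0 ≤ n3 - a3 - 1) ∨ (0 ≤ b2 - 1 ∧ 0 ≤ n3 - b3 - 1))
    (D2 : 0 ≤ h - n1 + a1 ∨ 0 ≤ h - a2 + 1)
    (D4 : 0 ≤ k - n1 + a1 - n2 + a2 ∨ 0 ≤ k - a3 + 1)
    (D6 : (0 ≤ n2 - b2 - 2 ∧ 0 ≤ -2 * d1 - p0) ∨ (0 ≤ -n2 + b2 + 1 ∧ 0 ≤ p0 + d1))
    (D11 : (0 ≤ n2 - b2 + n3 - b3 - 1 ∧ 0 ≤ -d1 - p1) ∨ (0 ≤ -n2 + b2 - n3 + b3 ∧ 0 ≤ p1))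
    (D24 : (0 ≤ k ∧ 0 ≤ -p4) ∨ (0 ≤ -k - 1 ∧ 0 ≤ p4 - d1))
    (D27 : (0 ≤ g - 1 ∧ 0 ≤ -d1 - p5) ∨ (0 ≤ -g ∧ 0 ≤ p5))
    (D32 : (0 ≤ n2 - b2 - 1 ∧ 0 ≤ -p6) ∨ (0 ≤ -n2 + b2 ∧ 0 ≤ p6 - d1))
    (D41 : (0 ≤ n3 - a3 - 1 ∧ 0 ≤ d1 - p8) ∨ (0 ≤ -n3 + a3 ∧ 0 ≤ p8 - 2 * d1))
    (D48 : (0 ≤ g - 1 ∧ 0 ≤ -p10) ∨ (0 ≤ -g ∧ 0 ≤ p10 - d1))
    (D52 : 0 ≤ -h3 ∨ 0 ≤ -k - 1 ∨ 0 ≤ -n3 + a3)
    (D53 : 0 ≤ -b1 ∨ 0 ≤ -d1 + 1 ∨ 0 ≤ -n2 + b2 + 1 ∨ 0 ≤ -n2 + b2 - 2 * n3 + b3 + a3 + 1)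
    (D54 : 0 ≤ -b1 ∨ 0 ≤ d1 - h ∨ 0 ≤ -n2 + b2 ∨ 0 ≤ -n2 + b2 - 2 * n3 + b3 + a3)
    (D55 : ((0 ≤ b1 - 1 ∧ 0 ≤ n2 - b2 - 1) ∨ (0 ≤ b1 - 1 ∧ 0 ≤ -n2 + b2 ∧ 0 ≤ n2 - b2 ∧ 0 ≤ -d1 - p0 - 1)) ∨ (0 ≤ k - 1 ∨ (0 ≤ -k ∧ 0 ≤ k ∧ 0 ≤ h3 - p4)) ∨ (0 ≤ g - 1 ∨ (0 ≤ -g ∧ 0 ≤ g ∧ 0 ≤ -p5 - 1)))
    (D56 : ((0 ≤ b1 - 1 ∧ 0 ≤ -d1 - p0 - 2) ∨ (0 ≤ b1 - 1 ∧ 0 ≤ d1 + p0 + 1 ∧ 0 ≤ -d1 - p0 - 1 ∧ 0 ≤ n2 - b2)) ∨ (0 ≤ h - d1 - 1) ∨ (0 ≤ h3 - p4 - 1 ∨ (0 ≤ -h3 + p4 ∧ 0 ≤ h3 - p4 ∧ 0 ≤ k)) ∨ (0 ≤ -p5 - 2 ∨ (0 ≤ p5 + 1 ∧ 0 ≤ -p5 - 1 ∧ 0 ≤ g))) : False := by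
  have E1 := D1
  have E2 := D2
  have E4 := D4
  have E6 := D6
  have E11 := D11
  have E24 := D24
  have E27 := D27
  have E32 := D32
  have E41 := D41
  have E48 := D48
  have E52 : 0 ≤ -k - 1 ∨ 0 ≤ -n3 + a3 := by
    rcases D52 with H52 | H52 | H52
    · linarith only [B28, H52, B38]
    · exact Or.inl H52
    · exact Or.inr H52
  have E53 : 0 ≤ -b1 ∨ 0 ≤ -n2 + b2 + 1 ∨ 0 ≤ -n2 + b2 - 2 * n3 + b3 + a3 + 1 := by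
    rcases D53 with H53 | H53 | H53 | H53
    · exact Or.inl H53
    · linarith only [B28, H53]
    · exact Or.inr (Or.inl H53)
    · exact Or.inr (Or.inr H53)
  have E54 := D54
  have E55 : (0 ≤ b1 - 1 ∧ 0 ≤ n2 - b2 - 1) ∨ (0 ≤ b1 - 1 ∧ 0 ≤ -n2 + b2 ∧ 0 ≤ n2 - b2 ∧ 0 ≤ -d1 - p0 - 1) ∨ 0 ≤ k - 1 ∨ (0 ≤ -k ∧ 0 ≤ k ∧ 0 ≤ h3 - p4) ∨ 0 ≤ g - 1 ∨ (0 ≤ -g ∧ 0 ≤ g ∧ 0 ≤ -p5 - 1) := by
    rcases D55 with (H55 | H55) | (H55 | H55) | (H55 | H55)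
    · exact Or.inl H55
    · exact Or.inr (Or.inl H55)
    · exact Or.inr (Or.inr (Or.inl H55))
    · exact Or.inr (Or.inr (Or.inr (Or.inl H55)))
    · exact Or.inr (Or.inr (Or.inr (Or.inr (Or.inl H55))))
    · exact Or.inr (Or.inr (Or.inr (Or.inr (Or.inr H55))))
  have E56 : (0 ≤ b1 - 1 ∧ 0 ≤ -d1 - p0 - 2) ∨ (0 ≤ b1 - 1 ∧ 0 ≤ d1 + p0 + 1 ∧ 0 ≤ -d1 - p0 - 1 ∧ 0 ≤ n2 - b2) ∨ 0 ≤ h - d1 - 1 ∨ 0 ≤ h3 - p4 - 1 ∨ (0 ≤ -h3 + p4 ∧ 0 ≤ h3 - p4 ∧ 0 ≤ k) ∨ 0 ≤ -p5 - 2 ∨ (0 ≤ p5 + 1 ∧ 0 ≤ -p5 - 1 ∧ 0 ≤ g) := by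
    rcases D56 with (H56 | H56) | H56 | (H56 | H56) | (H56 | H56)
    · exact Or.inl H56
    · exact Or.inr (Or.inl H56)
    · exact Or.inr (Or.inr (Or.inl H56))
    · exact Or.inr (Or.inr (Or.inr (Or.inl H56)))
    · exact Or.inr (Or.inr (Or.inr (Or.inr (Or.inl H56))))
    · exact Or.inr (Or.inr (Or.inr (Or.inr (Or.inr (Or.inl H56)))))
    · exact Or.inr (Or.inr (Or.inr (Or.inr (Or.inr (Or.inr H56)))))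
  rcases E1 with H1 | H1
  · rcases E52 with H52 | H52
    · rcases E11 with H11 | H11
      · rcases E4 with H4 | H4
        · linarith only [B28, B17, B16, B29, B22, B37, H52, B10, H4]
        · rcases E48 with H48 | H48
          · linarith only [H4, H48.1, H52, B36]
          · rcases E24 with H24 | H24
            · linarith only [H52, H24.1]
            · rcases E27 with H27 | H27
              · linarith only [H27.1, H48.1]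
              · rcases E32 with H32 | H32
                · rcases E55 with H55 | H55 | H55 | H55 | H55 | H55
                  · rcases E54 with H54 | H54 | H54 | H54
                    · linarith only [H55.1, H54]
                    · rcases E53 with H53 | H53 | H53
                      · linarith only [H55.1, H53]
                      · exact g7_l0 B31 B32 E2 E6 E56 H4 H24 H27 H52 H53 H54
                      · linarith only [H1.2, H11.1, H53]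
                    · linarith only [H32.1, H54]
                    · linarith only [H1.2, H11.1, H54]
                  · linarith only [H32.1, H55.2.1]
                  · linarith only [H52, H55]
                  · linarith only [H52, H55.2.1]
                  · linarith only [H55, H48.1]
                  · linarith only [H55.2.2, H27.2]
                · exact g7_l1 E6 E55 H27 H32 H48 H52
      · linarith only [B17, H11.1, B16, B10, H1.2, B18, B27]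
    · linarith only [H1.2, H52]
  · rcases E52 with H52 | H52
    · rcases E41 with H41 | H41
      · rcases E4 with H4 | H4
        · linarith only [B28, B17, B16, B29, B22, B37, H52, B10, H4]
        · rcases E48 with H48 | H48
          · linarith only [H4, H48.1, H52, B36]
          · rcases E24 with H24 | H24
            · linarith only [H52, H24.1]
            · rcases E27 with H27 | H27
              · linarith only [H27.1, H48.1]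
              · rcases E32 with H32 | H32
                · rcases E55 with H55 | H55 | H55 | H55 | H55 | H55
                  · rcases E54 with H54 | H54 | H54 | H54
                    · linarith only [H55.1, H54]
                    · rcases E53 with H53 | H53 | H53
                      · linarith only [H55.1, H53]
                      · exact g7_l0 B31 B32 E2 E6 E56 H4 H24 H27 H52 H53 H54
                      · linarith only [H41.1, H1.2, H32.1, H53]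
                    · linarith only [H32.1, H54]
                    · linarith only [H41.1, H1.2, H32.1, H54]
                  · linarith only [H32.1, H55.2.1]
                  · linarith only [H52, H55]
                  · linarith only [H52, H55.2.1]
                  · linarith only [H55, H48.1]
                  · linarith only [H55.2.2, H27.2]
                · exact g7_l1 E6 E55 H27 H32 H48 H52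
      · linarith only [B15, B20, H1.2, B19, H41.1, B25]
    · linarith only [H52, B20, H1.2, B15, B25, B19]

theorem g8 {a1 a2 a3 b1 b2 b3 d1 g h h3 k n1 n2 n3 p0 p1 p3 p4 p5 x y : ℤ}
    (B8 : 0 ≤ n3 - a3)
    (B10 : 0 ≤ n2 - b2)
    (B15 : 0 ≤ x + a1 + a2 - b1 - b2)
    (B16 : 0 ≤ -a1 - a2 + b1 + b2 - x)
    (B17 : 0 ≤ x - 1)
    (B19 : 0 ≤ -a1 - a2 - a3 + b1 + b2 + b3 - y)
    (B20 : 0 ≤ y - 1)
    (B22 : 0 ≤ a1 - b1 - d1)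
    (B25 : 0 ≤ -x + 1)
    (B28 : 0 ≤ d1 - 2)
    (B31 : 0 ≤ n1 - a1 - h3)
    (B32 : 0 ≤ a2 + a3 - h3 - 1)
    (B34 : 0 ≤ a3 - k - 1)
    (B38 : 0 ≤ b1 - 1)
    (B39 : 0 ≤ -d1 - p1 - 1)
    (D2 : 0 ≤ h - n1 + a1 ∨ 0 ≤ h - a2 + 1)
    (D5 : 0 ≤ g - n2 + a2 + 1 ∨ 0 ≤ g - a3)
    (D6 : (0 ≤ n2 - b2 - 2 ∧ 0 ≤ -2 * d1 - p0) ∨ (0 ≤ -n2 + b2 + 1 ∧ 0 ≤ p0 + d1))
    (D10 : (0 ≤ n2 - b2 + n3 - b3 - 2 ∧ 0 ≤ -2 * d1 - p1) ∨ (0 ≤ -n2 + b2 - n3 + b3 + 1 ∧ 0 ≤ p1 + d1))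
    (D20 : (0 ≤ n3 - a3 - 1 ∧ 0 ≤ -p3) ∨ (0 ≤ -n3 + a3 ∧ 0 ≤ p3 - d1))
    (D24 : (0 ≤ k ∧ 0 ≤ -p4) ∨ (0 ≤ -k - 1 ∧ 0 ≤ p4 - d1))
    (D27 : (0 ≤ g - 1 ∧ 0 ≤ -d1 - p5) ∨ (0 ≤ -g ∧ 0 ≤ p5))
    (D52 : 0 ≤ -d1 + 1 ∨ 0 ≤ -g ∨ 0 ≤ -n3 + a3)
    (D53 : 0 ≤ -b1 ∨ 0 ≤ -d1 + 1 ∨ 0 ≤ -n2 + b2 + 1 ∨ 0 ≤ -n2 + b2 - 2 * n3 + b3 + a3 + 1)
    (D54 : 0 ≤ -b1 ∨ 0 ≤ d1 - h ∨ 0 ≤ -n2 + b2 ∨ 0 ≤ -n2 + b2 - 2 * n3 + b3 + a3)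
    (D55 : ((0 ≤ b1 - 1 ∧ 0 ≤ -d1 - p0 - 2) ∨ (0 ≤ b1 - 1 ∧ 0 ≤ d1 + p0 + 1 ∧ 0 ≤ -d1 - p0 - 1 ∧ 0 ≤ n2 - b2)) ∨ (0 ≤ h - d1 - 1) ∨ (0 ≤ h3 - p4 - 1 ∨ (0 ≤ -h3 + p4 ∧ 0 ≤ h3 - p4 ∧ 0 ≤ k)) ∨ (0 ≤ -p5 - 2 ∨ (0 ≤ p5 + 1 ∧ 0 ≤ -p5 - 1 ∧ 0 ≤ g)))
    (D56 : ((0 ≤ b1 - 1 ∧ 0 ≤ n2 - b2 - 1) ∨ (0 ≤ b1 - 1 ∧ 0 ≤ -n2 + b2 ∧ 0 ≤ n2 - b2 ∧ 0 ≤ -d1 - p0 - 1)) ∨ (0 ≤ k - 1 ∨ (0 ≤ -k ∧ 0 ≤ k ∧ 0 ≤ h3 - p4)) ∨ (0 ≤ g - 1 ∨ (0 ≤ -g ∧ 0 ≤ g ∧ 0 ≤ -p5 - 1))) : False := by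
  have E2 := D2
  have E5 := D5
  have E6 := D6
  have E10 : (0 ≤ n2 - b2 + n3 - b3 - 2 ∧ 0 ≤ -2 * d1 - p1) := by
    rcases D10 with H10 | H10
    · exact H10
    · linarith only [B39, H10.2]
  have E20 := D20
  have E24 := D24
  have E27 := D27
  have E52 : 0 ≤ -g ∨ 0 ≤ -n3 + a3 := by
    rcases D52 with H52 | H52 | H52
    · linarith only [B28, H52]
    · exact Or.inl H52
    · exact Or.inr H52
  have E53 : 0 ≤ -n2 + b2 + 1 ∨ 0 ≤ -n2 + b2 - 2 * n3 + b3 + a3 + 1 := by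
    rcases D53 with H53 | H53 | H53 | H53
    · linarith only [B38, H53]
    · linarith only [B28, H53]
    · exact Or.inl H53
    · exact Or.inr H53
  have E54 : 0 ≤ d1 - h ∨ 0 ≤ -n2 + b2 ∨ 0 ≤ -n2 + b2 - 2 * n3 + b3 + a3 := by
    rcases D54 with H54 | H54 | H54 | H54
    · linarith only [B38, H54]
    · exact Or.inl H54
    · exact Or.inr (Or.inl H54)
    · exact Or.inr (Or.inr H54)
  have E55 : (0 ≤ b1 - 1 ∧ 0 ≤ -d1 - p0 - 2) ∨ (0 ≤ b1 - 1 ∧ 0 ≤ d1 + p0 + 1 ∧ 0 ≤ -d1 - p0 - 1 ∧ 0 ≤ n2 - b2) ∨ 0 ≤ h - d1 - 1 ∨ 0 ≤ h3 - p4 - 1 ∨ (0 ≤ -h3 + p4 ∧ 0 ≤ h3 - p4 ∧ 0 ≤ k) ∨ 0 ≤ -p5 - 2 ∨ (0 ≤ p5 + 1 ∧ 0 ≤ -p5 - 1 ∧ 0 ≤ g) := by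
    rcases D55 with (H55 | H55) | H55 | (H55 | H55) | (H55 | H55)
    · exact Or.inl H55
    · exact Or.inr (Or.inl H55)
    · exact Or.inr (Or.inr (Or.inl H55))
    · exact Or.inr (Or.inr (Or.inr (Or.inl H55)))
    · exact Or.inr (Or.inr (Or.inr (Or.inr (Or.inl H55))))
    · exact Or.inr (Or.inr (Or.inr (Or.inr (Or.inr (Or.inl H55)))))
    · exact Or.inr (Or.inr (Or.inr (Or.inr (Or.inr (Or.inr H55)))))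
  have E56 : (0 ≤ b1 - 1 ∧ 0 ≤ n2 - b2 - 1) ∨ (0 ≤ b1 - 1 ∧ 0 ≤ -n2 + b2 ∧ 0 ≤ n2 - b2 ∧ 0 ≤ -d1 - p0 - 1) ∨ 0 ≤ k - 1 ∨ (0 ≤ -k ∧ 0 ≤ k ∧ 0 ≤ h3 - p4) ∨ 0 ≤ g - 1 ∨ (0 ≤ -g ∧ 0 ≤ g ∧ 0 ≤ -p5 - 1) := by
    rcases D56 with (H56 | H56) | (H56 | H56) | (H56 | H56)
    · exact Or.inl H56
    · exact Or.inr (Or.inl H56)
    · exact Or.inr (Or.inr (Or.inl H56))
    · exact Or.inr (Or.inr (Or.inr (Or.inl H56)))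
    · exact Or.inr (Or.inr (Or.inr (Or.inr (Or.inl H56))))
    · exact Or.inr (Or.inr (Or.inr (Or.inr (Or.inr H56))))
  have H10 := E10
  rcases E53 with H53 | H53
  · rcases E52 with H52 | H52
    · rcases E20 with H20 | H20
      · rcases E27 with H27 | H27
        · linarith only [H52, H27.1]
        · rcases E5 with H5 | H5
          · linarith only [B22, B17, B16, H52, B28, B10, H5]
          · rcases E6 with H6 | H6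
            · linarith only [H6.1, H53]
            · rcases E56 with H56 | H56 | H56 | H56 | H56 | H56
              · rcases E54 with H54 | H54 | H54
                · rcases E55 with H55 | H55 | H55 | H55 | H55 | H55 | H55
                  · linarith only [H55.2, H6.2]
                  · linarith only [H55.2.2.1, H6.2]
                  · linarith only [H55, H54]
                  · rcases E24 with H24 | H24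
                    · linarith only [H52, H5, B34, H24.1]
                    · rcases E2 with H2 | H2
                      · linarith only [H54, B31, H24.2, H55, H2]
                      · linarith only [B32, H52, H54, H24.2, H5, H55, H2]
                  · linarith only [H52, H5, B34, H55.2.2]
                  · linarith only [H27.2, H55]
                  · linarith only [H27.2, H55.2.1]
                · linarith only [H56.2, H54]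
                · linarith only [H20.1, H10.1, H54]
              · linarith only [H56.2.2.2, H6.2]
              · linarith only [H52, H5, B34, H56]
              · linarith only [H52, H5, B34, H56.2.1]
              · linarith only [H52, H56]
              · linarith only [H27.2, H56.2.2]
      · linarith only [H10.1, H53, B19, B20, B15, H20.1, B25]
    · linarith only [H10.1, H52, B20, H53, B15, B25, B19]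
  · linarith only [H10.1, H53, B8]

theorem g9 {a1 a2 a3 b1 b2 b3 d1 g h h3 k n1 n2 n3 p0 p1 p2 p4 p5 p6 p9 x y : ℤ}
    (B10 : 0 ≤ n2 - b2)
    (B16 : 0 ≤ -a1 - a2 + b1 + b2 - x)
    (B17 : 0 ≤ x - 1)
    (B18 : 0 ≤ y + a1 + a2 + a3 - b1 - b2 - b3)
    (B22 : 0 ≤ a1 - b1 - d1)
    (B27 : 0 ≤ -y + 1)
    (B28 : 0 ≤ d1 - 2)
    (B31 : 0 ≤ n1 - a1 - h3)
    (B32 : 0 ≤ a2 + a3 - h3 - 1)
    (B34 : 0 ≤ a3 - k - 1)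
    (B39 : 0 ≤ -p2 - 2)
    (D2 : 0 ≤ h - n1 + a1 ∨ 0 ≤ h - a2 + 1)
    (D5 : 0 ≤ g - n2 + a2 + 1 ∨ 0 ≤ g - a3)
    (D6 : (0 ≤ n2 - b2 - 2 ∧ 0 ≤ -2 * d1 - p0) ∨ (0 ≤ -n2 + b2 + 1 ∧ 0 ≤ p0 + d1))
    (D11 : (0 ≤ n2 - b2 + n3 - b3 - 1 ∧ 0 ≤ -d1 - p1) ∨ (0 ≤ -n2 + b2 - n3 + b3 ∧ 0 ≤ p1))
    (D15 : (0 ≤ n3 - a3 - 1 ∧ 0 ≤ -d1 - p2) ∨ (0 ≤ -n3 + a3 ∧ 0 ≤ p2))
    (D24 : (0 ≤ k ∧ 0 ≤ -p4) ∨ (0 ≤ -k - 1 ∧ 0 ≤ p4 - d1))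
    (D27 : (0 ≤ g - 1 ∧ 0 ≤ -d1 - p5) ∨ (0 ≤ -g ∧ 0 ≤ p5))
    (D32 : (0 ≤ n2 - b2 - 1 ∧ 0 ≤ -p6) ∨ (0 ≤ -n2 + b2 ∧ 0 ≤ p6 - d1))
    (D45 : (0 ≤ k ∧ 0 ≤ d1 - p9) ∨ (0 ≤ -k - 1 ∧ 0 ≤ p9 - 2 * d1))
    (D51 : 0 ≤ -d1 + 1 ∨ 0 ≤ -g ∨ 0 ≤ -n3 + a3)
    (D52 : 0 ≤ -b1 ∨ 0 ≤ -d1 + 1 ∨ 0 ≤ -n2 + b2 + 1 ∨ 0 ≤ -n2 + b2 - 2 * n3 + b3 + a3 + 1)
    (D53 : 0 ≤ -b1 ∨ 0 ≤ d1 - h ∨ 0 ≤ -n2 + b2 ∨ 0 ≤ -n2 + b2 - 2 * n3 + b3 + a3)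
    (D54 : ((0 ≤ b1 - 1 ∧ 0 ≤ n2 - b2 - 1) ∨ (0 ≤ b1 - 1 ∧ 0 ≤ -n2 + b2 ∧ 0 ≤ n2 - b2 ∧ 0 ≤ -d1 - p0 - 1)) ∨ (0 ≤ k - 1 ∨ (0 ≤ -k ∧ 0 ≤ k ∧ 0 ≤ h3 - p4)) ∨ (0 ≤ g - 1 ∨ (0 ≤ -g ∧ 0 ≤ g ∧ 0 ≤ -p5 - 1)))
    (D55 : ((0 ≤ b1 - 1 ∧ 0 ≤ -d1 - p0 - 2) ∨ (0 ≤ b1 - 1 ∧ 0 ≤ d1 + p0 + 1 ∧ 0 ≤ -d1 - p0 - 1 ∧ 0 ≤ n2 - b2)) ∨ (0 ≤ h - d1 - 1) ∨ (0 ≤ h3 - p4 - 1 ∨ (0 ≤ -h3 + p4 ∧ 0 ≤ h3 - p4 ∧ 0 ≤ k)) ∨ (0 ≤ -p5 - 2 ∨ (0 ≤ p5 + 1 ∧ 0 ≤ -p5 - 1 ∧ 0 ≤ g))) : False := by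
  have E2 := D2
  have E5 := D5
  have E6 := D6
  have E11 := D11
  have E15 : (0 ≤ n3 - a3 - 1 ∧ 0 ≤ -d1 - p2) := by
    rcases D15 with H15 | H15
    · exact H15
    · linarith only [B39, H15.2]
  have E24 := D24
  have E27 := D27
  have E32 := D32
  have E45 := D45
  have E51 : 0 ≤ -g ∨ 0 ≤ -n3 + a3 := by
    rcases D51 with H51 | H51 | H51
    · linarith only [B28, H51]
    · exact Or.inl H51
    · exact Or.inr H51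
  have E52 : 0 ≤ -b1 ∨ 0 ≤ -n2 + b2 + 1 ∨ 0 ≤ -n2 + b2 - 2 * n3 + b3 + a3 + 1 := by
    rcases D52 with H52 | H52 | H52 | H52
    · exact Or.inl H52
    · linarith only [B28, H52]
    · exact Or.inr (Or.inl H52)
    · exact Or.inr (Or.inr H52)
  have E53 := D53
  have E54 : (0 ≤ b1 - 1 ∧ 0 ≤ n2 - b2 - 1) ∨ (0 ≤ b1 - 1 ∧ 0 ≤ -n2 + b2 ∧ 0 ≤ n2 - b2 ∧ 0 ≤ -d1 - p0 - 1) ∨ 0 ≤ k - 1 ∨ (0 ≤ -k ∧ 0 ≤ k ∧ 0 ≤ h3 - p4) ∨ 0 ≤ g - 1 ∨ (0 ≤ -g ∧ 0 ≤ g ∧ 0 ≤ -p5 - 1) := by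
    rcases D54 with (H54 | H54) | (H54 | H54) | (H54 | H54)
    · exact Or.inl H54
    · exact Or.inr (Or.inl H54)
    · exact Or.inr (Or.inr (Or.inl H54))
    · exact Or.inr (Or.inr (Or.inr (Or.inl H54)))
    · exact Or.inr (Or.inr (Or.inr (Or.inr (Or.inl H54))))
    · exact Or.inr (Or.inr (Or.inr (Or.inr (Or.inr H54))))
  have E55 : (0 ≤ b1 - 1 ∧ 0 ≤ -d1 - p0 - 2) ∨ (0 ≤ b1 - 1 ∧ 0 ≤ d1 + p0 + 1 ∧ 0 ≤ -d1 - p0 - 1 ∧ 0 ≤ n2 - b2) ∨ 0 ≤ h - d1 - 1 ∨ 0 ≤ h3 - p4 - 1 ∨ (0 ≤ -h3 + p4 ∧ 0 ≤ h3 - p4 ∧ 0 ≤ k) ∨ 0 ≤ -p5 - 2 ∨ (0 ≤ p5 + 1 ∧ 0 ≤ -p5 - 1 ∧ 0 ≤ g) := by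
    rcases D55 with (H55 | H55) | H55 | (H55 | H55) | (H55 | H55)
    · exact Or.inl H55
    · exact Or.inr (Or.inl H55)
    · exact Or.inr (Or.inr (Or.inl H55))
    · exact Or.inr (Or.inr (Or.inr (Or.inl H55)))
    · exact Or.inr (Or.inr (Or.inr (Or.inr (Or.inl H55))))
    · exact Or.inr (Or.inr (Or.inr (Or.inr (Or.inr (Or.inl H55)))))
    · exact Or.inr (Or.inr (Or.inr (Or.inr (Or.inr (Or.inr H55)))))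
  have H15 := E15
  rcases E51 with H51 | H51
  · rcases E27 with H27 | H27
    · linarith only [H51, H27.1]
    · rcases E5 with H5 | H5
      · linarith only [B28, B17, B16, B22, B10, H51, H5]
      · rcases E11 with H11 | H11
        · rcases E45 with H45 | H45
          · linarith only [B34, H5, H51, H45.1]
          · rcases E24 with H24 | H24
            · linarith only [H45.1, H24.1]
            · rcases E32 with H32 | H32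
              · rcases E54 with H54 | H54 | H54 | H54 | H54 | H54
                · rcases E53 with H53 | H53 | H53 | H53
                  · linarith only [H54.1, H53]
                  · rcases E52 with H52 | H52 | H52
                    · linarith only [H54.1, H52]
                    · rcases E6 with H6 | H6
                      · linarith only [H6.1, H52]
                      · rcases E55 with H55 | H55 | H55 | H55 | H55 | H55 | H55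
                        · linarith only [H55.2, H6.2]
                        · linarith only [H55.2.2.1, H6.2]
                        · linarith only [H55, H53]
                        · rcases E2 with H2 | H2
                          · linarith only [H53, B31, H24.2, H55, H2]
                          · linarith only [B32, H51, H53, H24.2, H5, H55, H2]
                        · linarith only [H45.1, H55.2.2]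
                        · linarith only [H27.2, H55]
                        · linarith only [H27.2, H55.2.1]
                    · linarith only [H11.1, H52, H15.1]
                  · linarith only [H32.1, H53]
                  · linarith only [H11.1, H53, H15.1]
                · linarith only [H32.1, H54.2.1]
                · linarith only [H45.1, H54]
                · linarith only [H45.1, H54.2.1]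
                · linarith only [H51, H54]
                · linarith only [H27.2, H54.2.2]
              · rcases E54 with H54 | H54 | H54 | H54 | H54 | H54
                · linarith only [H54.2, H32.1]
                · rcases E6 with H6 | H6
                  · linarith only [H6.1, H32.1]
                  · linarith only [H54.2.2.2, H6.2]
                · linarith only [H45.1, H54]
                · linarith only [H45.1, H54.2.1]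
                · linarith only [H51, H54]
                · linarith only [H27.2, H54.2.2]
        · linarith only [B17, H11.1, B16, B10, H15.1, B18, B27]
  · linarith only [H15.1, H51]

theorem g10_l0 {b1 b2 d1 g h3 k n2 p0 p4 p5 p6 p9 : ℤ}
    (E6 : (0 ≤ n2 - b2 - 2 ∧ 0 ≤ -2 * d1 - p0) ∨ (0 ≤ -n2 + b2 + 1 ∧ 0 ≤ p0 + d1))
    (E55 : (0 ≤ b1 - 1 ∧ 0 ≤ n2 - b2 - 1) ∨ (0 ≤ b1 - 1 ∧ 0 ≤ -n2 + b2 ∧ 0 ≤ n2 - b2 ∧ 0 ≤ -d1 - p0 - 1) ∨ 0 ≤ k - 1 ∨ (0 ≤ -k ∧ 0 ≤ k ∧ 0 ≤ h3 - p4) ∨ 0 ≤ g - 1 ∨ (0 ≤ -g ∧ 0 ≤ g ∧ 0 ≤ -p5 - 1))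
    (H27 : 0 ≤ -g ∧ 0 ≤ p5)
    (H32 : 0 ≤ -n2 + b2 ∧ 0 ≤ p6 - d1)
    (H45 : 0 ≤ -k - 1 ∧ 0 ≤ p9 - 2 * d1)
    (H52 : 0 ≤ -g) : False := by
  rcases E55 with H55 | H55 | H55 | H55 | H55 | H55
  · linarith only [H55.2, H32.1]
  · rcases E6 with H6 | H6
    · linarith only [H6.1, H32.1]
    · linarith only [H55.2.2.2, H6.2]
  · linarith only [H45.1, H55]
  · linarith only [H45.1, H55.2.1]
  · linarith only [H52, H55]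
  · linarith only [H55.2.2, H27.2]

theorem g10 {a1 a2 a3 b1 b2 b3 d1 g h h3 k n1 n2 n3 p0 p1 p3 p4 p5 p6 p9 x y : ℤ}
    (B10 : 0 ≤ n2 - b2)
    (B14 : 0 ≤ n3 - 1)
    (B15 : 0 ≤ x + a1 + a2 - b1 - b2)
    (B16 : 0 ≤ -a1 - a2 + b1 + b2 - x)
    (B17 : 0 ≤ x - 1)
    (B18 : 0 ≤ y + a1 + a2 + a3 - b1 - b2 - b3)
    (B19 : 0 ≤ -a1 - a2 - a3 + b1 + b2 + b3 - y)
    (B20 : 0 ≤ y - 1)
    (B22 : 0 ≤ a1 - b1 - d1)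
    (B25 : 0 ≤ -x + 1)
    (B27 : 0 ≤ -y + 1)
    (B28 : 0 ≤ d1 - 2)
    (B31 : 0 ≤ n1 - a1 - h3)
    (B32 : 0 ≤ a2 + a3 - h3 - 1)
    (B34 : 0 ≤ a3 - k - 1)
    (D1 : (0 ≤ a2 - 1 ∧ 0 ≤ n3 - a3 - 1) ∨ (0 ≤ b2 - 1 ∧ 0 ≤ n3 - b3 - 1))
    (D2 : 0 ≤ h - n1 + a1 ∨ 0 ≤ h - a2 + 1)
    (D5 : 0 ≤ g - n2 + a2 + 1 ∨ 0 ≤ g - a3)
    (D6 : (0 ≤ n2 - b2 - 2 ∧ 0 ≤ -2 * d1 - p0) ∨ (0 ≤ -n2 + b2 + 1 ∧ 0 ≤ p0 + d1))
    (D11 : (0 ≤ n2 - b2 + n3 - b3 - 1 ∧ 0 ≤ -d1 - p1) ∨ (0 ≤ -n2 + b2 - n3 + b3 ∧ 0 ≤ p1))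
    (D20 : (0 ≤ n3 - a3 - 1 ∧ 0 ≤ -p3) ∨ (0 ≤ -n3 + a3 ∧ 0 ≤ p3 - d1))
    (D24 : (0 ≤ k ∧ 0 ≤ -p4) ∨ (0 ≤ -k - 1 ∧ 0 ≤ p4 - d1))
    (D27 : (0 ≤ g - 1 ∧ 0 ≤ -d1 - p5) ∨ (0 ≤ -g ∧ 0 ≤ p5))
    (D32 : (0 ≤ n2 - b2 - 1 ∧ 0 ≤ -p6) ∨ (0 ≤ -n2 + b2 ∧ 0 ≤ p6 - d1))
    (D45 : (0 ≤ k ∧ 0 ≤ d1 - p9) ∨ (0 ≤ -k - 1 ∧ 0 ≤ p9 - 2 * d1))
    (D52 : 0 ≤ -d1 + 1 ∨ 0 ≤ -g ∨ 0 ≤ -n3 + a3)
    (D53 : 0 ≤ -b1 ∨ 0 ≤ -d1 + 1 ∨ 0 ≤ -n2 + b2 + 1 ∨ 0 ≤ -n2 + b2 - 2 * n3 + b3 + a3 + 1)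
    (D54 : 0 ≤ -b1 ∨ 0 ≤ d1 - h ∨ 0 ≤ -n2 + b2 ∨ 0 ≤ -n2 + b2 - 2 * n3 + b3 + a3)
    (D55 : ((0 ≤ b1 - 1 ∧ 0 ≤ n2 - b2 - 1) ∨ (0 ≤ b1 - 1 ∧ 0 ≤ -n2 + b2 ∧ 0 ≤ n2 - b2 ∧ 0 ≤ -d1 - p0 - 1)) ∨ (0 ≤ k - 1 ∨ (0 ≤ -k ∧ 0 ≤ k ∧ 0 ≤ h3 - p4)) ∨ (0 ≤ g - 1 ∨ (0 ≤ -g ∧ 0 ≤ g ∧ 0 ≤ -p5 - 1)))
    (D56 : ((0 ≤ b1 - 1 ∧ 0 ≤ -d1 - p0 - 2) ∨ (0 ≤ b1 - 1 ∧ 0 ≤ d1 + p0 + 1 ∧ 0 ≤ -d1 - p0 - 1 ∧ 0 ≤ n2 - b2)) ∨ (0 ≤ h - d1 - 1) ∨ (0 ≤ h3 - p4 - 1 ∨ (0 ≤ -h3 + p4 ∧ 0 ≤ h3 - p4 ∧ 0 ≤ k)) ∨ (0 ≤ -p5 - 2 ∨ (0 ≤ p5 + 1 ∧ 0 ≤ -p5 - 1 ∧ 0 ≤ g))) : False := by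
  have E1 := D1
  have E2 := D2
  have E5 := D5
  have E6 := D6
  have E11 := D11
  have E20 := D20
  have E24 := D24
  have E27 := D27
  have E32 := D32
  have E45 := D45
  have E52 : 0 ≤ -g ∨ 0 ≤ -n3 + a3 := by
    rcases D52 with H52 | H52 | H52
    · linarith only [B28, H52]
    · exact Or.inl H52
    · exact Or.inr H52
  have E53 : 0 ≤ -b1 ∨ 0 ≤ -n2 + b2 + 1 ∨ 0 ≤ -n2 + b2 - 2 * n3 + b3 + a3 + 1 := by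
    rcases D53 with H53 | H53 | H53 | H53
    · exact Or.inl H53
    · linarith only [B28, H53]
    · exact Or.inr (Or.inl H53)
    · exact Or.inr (Or.inr H53)
  have E54 := D54
  have E55 : (0 ≤ b1 - 1 ∧ 0 ≤ n2 - b2 - 1) ∨ (0 ≤ b1 - 1 ∧ 0 ≤ -n2 + b2 ∧ 0 ≤ n2 - b2 ∧ 0 ≤ -d1 - p0 - 1) ∨ 0 ≤ k - 1 ∨ (0 ≤ -k ∧ 0 ≤ k ∧ 0 ≤ h3 - p4) ∨ 0 ≤ g - 1 ∨ (0 ≤ -g ∧ 0 ≤ g ∧ 0 ≤ -p5 - 1) := by
    rcases D55 with (H55 | H55) | (H55 | H55) | (H55 | H55)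
    · exact Or.inl H55
    · exact Or.inr (Or.inl H55)
    · exact Or.inr (Or.inr (Or.inl H55))
    · exact Or.inr (Or.inr (Or.inr (Or.inl H55)))
    · exact Or.inr (Or.inr (Or.inr (Or.inr (Or.inl H55))))
    · exact Or.inr (Or.inr (Or.inr (Or.inr (Or.inr H55))))
  have E56 : (0 ≤ b1 - 1 ∧ 0 ≤ -d1 - p0 - 2) ∨ (0 ≤ b1 - 1 ∧ 0 ≤ d1 + p0 + 1 ∧ 0 ≤ -d1 - p0 - 1 ∧ 0 ≤ n2 - b2) ∨ 0 ≤ h - d1 - 1 ∨ 0 ≤ h3 - p4 - 1 ∨ (0 ≤ -h3 + p4 ∧ 0 ≤ h3 - p4 ∧ 0 ≤ k) ∨ 0 ≤ -p5 - 2 ∨ (0 ≤ p5 + 1 ∧ 0 ≤ -p5 - 1 ∧ 0 ≤ g) := by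
    rcases D56 with (H56 | H56) | H56 | (H56 | H56) | (H56 | H56)
    · exact Or.inl H56
    · exact Or.inr (Or.inl H56)
    · exact Or.inr (Or.inr (Or.inl H56))
    · exact Or.inr (Or.inr (Or.inr (Or.inl H56)))
    · exact Or.inr (Or.inr (Or.inr (Or.inr (Or.inl H56))))
    · exact Or.inr (Or.inr (Or.inr (Or.inr (Or.inr (Or.inl H56)))))
    · exact Or.inr (Or.inr (Or.inr (Or.inr (Or.inr (Or.inr H56)))))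
  rcases E1 with H1 | H1
  · rcases E52 with H52 | H52
    · rcases E11 with H11 | H11
      · rcases E5 with H5 | H5
        · linarith only [B28, B17, B16, B22, H52, B10, H5]
        · rcases E45 with H45 | H45
          · linarith only [B34, H5, H52, H45.1]
          · rcases E27 with H27 | H27
            · linarith only [H52, H27.1]
            · rcases E24 with H24 | H24
              · linarith only [H45.1, H24.1]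
              · rcases E32 with H32 | H32
                · rcases E55 with H55 | H55 | H55 | H55 | H55 | H55
                  · rcases E54 with H54 | H54 | H54 | H54
                    · linarith only [H55.1, H54]
                    · rcases E53 with H53 | H53 | H53
                      · linarith only [H55.1, H53]
                      · rcases E6 with H6 | H6
                        · linarith only [H6.1, H53]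
                        · rcases E56 with H56 | H56 | H56 | H56 | H56 | H56 | H56
                          · linarith only [H56.2, H6.2]
                          · linarith only [H56.2.2.1, H6.2]
                          · linarith only [H56, H54]
                          · rcases E2 with H2 | H2
                            · linarith only [B31, H24.2, H2, H56, H54]
                            · linarith only [B32, H52, H24.2, H5, H2, H56, H54]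
                          · linarith only [H45.1, H56.2.2]
                          · linarith only [H56, H27.2]
                          · linarith only [H56.2.1, H27.2]
                      · linarith only [H11.1, H53, H1.2]
                    · linarith only [H32.1, H54]
                    · linarith only [H11.1, H54, H1.2]
                  · linarith only [H32.1, H55.2.1]
                  · linarith only [H45.1, H55]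
                  · linarith only [H45.1, H55.2.1]
                  · linarith only [H52, H55]
                  · linarith only [H55.2.2, H27.2]
                · exact g10_l0 E6 E55 H27 H32 H45 H52
      · linarith only [B17, H11.1, B16, B10, H1.2, B18, B27]
    · linarith only [H1.2, H52]
  · rcases E52 with H52 | H52
    · rcases E5 with H5 | H5
      · linarith only [B28, B17, B16, B22, H52, B10, H5]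
      · rcases E20 with H20 | H20
        · rcases E45 with H45 | H45
          · linarith only [B34, H5, H52, H45.1]
          · rcases E27 with H27 | H27
            · linarith only [H52, H27.1]
            · rcases E24 with H24 | H24
              · linarith only [H45.1, H24.1]
              · rcases E32 with H32 | H32
                · rcases E55 with H55 | H55 | H55 | H55 | H55 | H55
                  · rcases E54 with H54 | H54 | H54 | H54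
                    · linarith only [H55.1, H54]
                    · rcases E53 with H53 | H53 | H53
                      · linarith only [H55.1, H53]
                      · rcases E6 with H6 | H6
                        · linarith only [H6.1, H53]
                        · rcases E56 with H56 | H56 | H56 | H56 | H56 | H56 | H56
                          · linarith only [H56.2, H6.2]
                          · linarith only [H56.2.2.1, H6.2]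
                          · linarith only [H56, H54]
                          · rcases E2 with H2 | H2
                            · linarith only [B31, H24.2, H2, H56, H54]
                            · linarith only [B32, H52, H24.2, H5, H2, H56, H54]
                          · linarith only [H45.1, H56.2.2]
                          · linarith only [H56, H27.2]
                          · linarith only [H56.2.1, H27.2]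
                      · linarith only [H20.1, H1.2, H32.1, H53]
                    · linarith only [H32.1, H54]
                    · linarith only [H20.1, H1.2, H32.1, H54]
                  · linarith only [H32.1, H55.2.1]
                  · linarith only [H45.1, H55]
                  · linarith only [H45.1, H55.2.1]
                  · linarith only [H52, H55]
                  · linarith only [H55.2.2, H27.2]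
                · exact g10_l0 E6 E55 H27 H32 H45 H52
        · linarith only [H5, H52, H20.1, B14]
    · linarith only [H52, B20, H1.2, B15, B25, B19]

theorem g11_l0 {a1 a2 a3 b1 b2 d1 g h h3 k n1 n2 p0 p4 p5 : ℤ}
    (B31 : 0 ≤ n1 - a1 - h3)
    (B32 : 0 ≤ a2 + a3 - h3 - 1)
    (E2 : 0 ≤ h - n1 + a1 ∨ 0 ≤ h - a2 + 1)
    (E6 : (0 ≤ n2 - b2 - 2 ∧ 0 ≤ -2 * d1 - p0) ∨ (0 ≤ -n2 + b2 + 1 ∧ 0 ≤ p0 + d1))
    (E56 : (0 ≤ b1 - 1 ∧ 0 ≤ -d1 - p0 - 2) ∨ (0 ≤ b1 - 1 ∧ 0 ≤ d1 + p0 + 1 ∧ 0 ≤ -d1 - p0 - 1 ∧ 0 ≤ n2 - b2) ∨ 0 ≤ h - d1 - 1 ∨ 0 ≤ h3 - p4 - 1 ∨ (0 ≤ -h3 + p4 ∧ 0 ≤ h3 - p4 ∧ 0 ≤ k) ∨ 0 ≤ -p5 - 2 ∨ (0 ≤ p5 + 1 ∧ 0 ≤ -p5 - 1 ∧ 0 ≤ g))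
    (H4 : 0 ≤ k - a3 + 1)
    (H24 : 0 ≤ -k - 1 ∧ 0 ≤ p4 - d1)
    (H27 : 0 ≤ -g ∧ 0 ≤ p5)
    (H52 : 0 ≤ -k - 1)
    (H53 : 0 ≤ -n2 + b2 + 1)
    (H54 : 0 ≤ d1 - h) : False := by
  rcases E6 with H6 | H6
  · linarith only [H6.1, H53]
  · rcases E56 with H56 | H56 | H56 | H56 | H56 | H56 | H56
    · linarith only [H56.2, H6.2]
    · linarith only [H56.2.2.1, H6.2]
    · linarith only [H56, H54]
    · rcases E2 with H2 | H2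
      · linarith only [H54, B31, H24.2, H56, H2]
      · linarith only [B32, H4, H54, H24.2, H52, H56, H2]
    · linarith only [H52, H56.2.2]
    · linarith only [H56, H27.2]
    · linarith only [H56.2.1, H27.2]

theorem g11_l1 {b1 b2 d1 g h3 k n2 p0 p10 p4 p5 p6 : ℤ}
    (E6 : (0 ≤ n2 - b2 - 2 ∧ 0 ≤ -2 * d1 - p0) ∨ (0 ≤ -n2 + b2 + 1 ∧ 0 ≤ p0 + d1))
    (E55 : (0 ≤ b1 - 1 ∧ 0 ≤ n2 - b2 - 1) ∨ (0 ≤ b1 - 1 ∧ 0 ≤ -n2 + b2 ∧ 0 ≤ n2 - b2 ∧ 0 ≤ -d1 - p0 - 1) ∨ 0 ≤ k - 1 ∨ (0 ≤ -k ∧ 0 ≤ k ∧ 0 ≤ h3 - p4) ∨ 0 ≤ g - 1 ∨ (0 ≤ -g ∧ 0 ≤ g ∧ 0 ≤ -p5 - 1))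
    (H27 : 0 ≤ -g ∧ 0 ≤ p5)
    (H32 : 0 ≤ -n2 + b2 ∧ 0 ≤ p6 - d1)
    (H48 : 0 ≤ -g ∧ 0 ≤ p10 - d1)
    (H52 : 0 ≤ -k - 1) : False := by
  rcases E55 with H55 | H55 | H55 | H55 | H55 | H55
  · linarith only [H55.2, H32.1]
  · rcases E6 with H6 | H6
    · linarith only [H6.1, H32.1]
    · linarith only [H55.2.2.2, H6.2]
  · linarith only [H52, H55]
  · linarith only [H52, H55.2.1]
  · linarith only [H55, H48.1]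
  · linarith only [H55.2.2, H27.2]

theorem g11 {a1 a2 a3 b1 b2 b3 d1 g h h3 k n1 n2 n3 p0 p1 p10 p4 p5 p6 p8 x y : ℤ}
    (B10 : 0 ≤ n2 - b2)
    (B15 : 0 ≤ x + a1 + a2 - b1 - b2)
    (B16 : 0 ≤ -a1 - a2 + b1 + b2 - x)
    (B17 : 0 ≤ x - 1)
    (B18 : 0 ≤ y + a1 + a2 + a3 - b1 - b2 - b3)
    (B19 : 0 ≤ -a1 - a2 - a3 + b1 + b2 + b3 - y)
    (B20 : 0 ≤ y - 1)
    (B22 : 0 ≤ a1 - b1 - d1)
    (B25 : 0 ≤ -x + 1)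
    (B27 : 0 ≤ -y + 1)
    (B28 : 0 ≤ d1 - 2)
    (B31 : 0 ≤ n1 - a1 - h3)
    (B32 : 0 ≤ a2 + a3 - h3 - 1)
    (B36 : 0 ≤ a3 - g)
    (B38 : 0 ≤ h3 - d1)
    (D1 : (0 ≤ a2 - 1 ∧ 0 ≤ n3 - a3 - 1) ∨ (0 ≤ b2 - 1 ∧ 0 ≤ n3 - b3 - 1))
    (D2 : 0 ≤ h - n1 + a1 ∨ 0 ≤ h - a2 + 1)
    (D4 : 0 ≤ k - n1 + a1 - n2 + a2 ∨ 0 ≤ k - a3 + 1)
    (D6 : (0 ≤ n2 - b2 - 2 ∧ 0 ≤ -2 * d1 - p0) ∨ (0 ≤ -n2 + b2 + 1 ∧ 0 ≤ p0 + d1))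
    (D11 : (0 ≤ n2 - b2 + n3 - b3 - 1 ∧ 0 ≤ -d1 - p1) ∨ (0 ≤ -n2 + b2 - n3 + b3 ∧ 0 ≤ p1))
    (D24 : (0 ≤ k ∧ 0 ≤ -p4) ∨ (0 ≤ -k - 1 ∧ 0 ≤ p4 - d1))
    (D27 : (0 ≤ g - 1 ∧ 0 ≤ -d1 - p5) ∨ (0 ≤ -g ∧ 0 ≤ p5))
    (D32 : (0 ≤ n2 - b2 - 1 ∧ 0 ≤ -p6) ∨ (0 ≤ -n2 + b2 ∧ 0 ≤ p6 - d1))
    (D41 : (0 ≤ n3 - a3 - 1 ∧ 0 ≤ d1 - p8) ∨ (0 ≤ -n3 + a3 ∧ 0 ≤ p8 - 2 * d1))
    (D48 : (0 ≤ g - 1 ∧ 0 ≤ -p10) ∨ (0 ≤ -g ∧ 0 ≤ p10 - d1))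
    (D52 : 0 ≤ -h3 ∨ 0 ≤ -k - 1 ∨ 0 ≤ -n3 + a3)
    (D53 : 0 ≤ -b1 ∨ 0 ≤ -d1 + 1 ∨ 0 ≤ -n2 + b2 + 1 ∨ 0 ≤ -n2 + b2 - 2 * n3 + b3 + a3 + 1)
    (D54 : 0 ≤ -b1 ∨ 0 ≤ d1 - h ∨ 0 ≤ -n2 + b2 ∨ 0 ≤ -n2 + b2 - 2 * n3 + b3 + a3)
    (D55 : ((0 ≤ b1 - 1 ∧ 0 ≤ n2 - b2 - 1) ∨ (0 ≤ b1 - 1 ∧ 0 ≤ -n2 + b2 ∧ 0 ≤ n2 - b2 ∧ 0 ≤ -d1 - p0 - 1)) ∨ (0 ≤ k - 1 ∨ (0 ≤ -k ∧ 0 ≤ k ∧ 0 ≤ h3 - p4)) ∨ (0 ≤ g - 1 ∨ (0 ≤ -g ∧ 0 ≤ g ∧ 0 ≤ -p5 - 1)))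
    (D56 : ((0 ≤ b1 - 1 ∧ 0 ≤ -d1 - p0 - 2) ∨ (0 ≤ b1 - 1 ∧ 0 ≤ d1 + p0 + 1 ∧ 0 ≤ -d1 - p0 - 1 ∧ 0 ≤ n2 - b2)) ∨ (0 ≤ h - d1 - 1) ∨ (0 ≤ h3 - p4 - 1 ∨ (0 ≤ -h3 + p4 ∧ 0 ≤ h3 - p4 ∧ 0 ≤ k)) ∨ (0 ≤ -p5 - 2 ∨ (0 ≤ p5 + 1 ∧ 0 ≤ -p5 - 1 ∧ 0 ≤ g))) : False := by
  have E1 := D1
  have E2 := D2
  have E4 := D4
  have E6 := D6
  have E11 := D11
  have E24 := D24
  have E27 := D27
  have E32 := D32
  have E41 := D41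
  have E48 := D48
  have E52 : 0 ≤ -k - 1 ∨ 0 ≤ -n3 + a3 := by
    rcases D52 with H52 | H52 | H52
    · linarith only [B28, B38, H52]
    · exact Or.inl H52
    · exact Or.inr H52
  have E53 : 0 ≤ -b1 ∨ 0 ≤ -n2 + b2 + 1 ∨ 0 ≤ -n2 + b2 - 2 * n3 + b3 + a3 + 1 := by
    rcases D53 with H53 | H53 | H53 | H53
    · exact Or.inl H53
    · linarith only [B28, H53]
    · exact Or.inr (Or.inl H53)
    · exact Or.inr (Or.inr H53)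
  have E54 := D54
  have E55 : (0 ≤ b1 - 1 ∧ 0 ≤ n2 - b2 - 1) ∨ (0 ≤ b1 - 1 ∧ 0 ≤ -n2 + b2 ∧ 0 ≤ n2 - b2 ∧ 0 ≤ -d1 - p0 - 1) ∨ 0 ≤ k - 1 ∨ (0 ≤ -k ∧ 0 ≤ k ∧ 0 ≤ h3 - p4) ∨ 0 ≤ g - 1 ∨ (0 ≤ -g ∧ 0 ≤ g ∧ 0 ≤ -p5 - 1) := by
    rcases D55 with (H55 | H55) | (H55 | H55) | (H55 | H55)
    · exact Or.inl H55
    · exact Or.inr (Or.inl H55)
    · exact Or.inr (Or.inr (Or.inl H55))
    · exact Or.inr (Or.inr (Or.inr (Or.inl H55)))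
    · exact Or.inr (Or.inr (Or.inr (Or.inr (Or.inl H55))))
    · exact Or.inr (Or.inr (Or.inr (Or.inr (Or.inr H55))))
  have E56 : (0 ≤ b1 - 1 ∧ 0 ≤ -d1 - p0 - 2) ∨ (0 ≤ b1 - 1 ∧ 0 ≤ d1 + p0 + 1 ∧ 0 ≤ -d1 - p0 - 1 ∧ 0 ≤ n2 - b2) ∨ 0 ≤ h - d1 - 1 ∨ 0 ≤ h3 - p4 - 1 ∨ (0 ≤ -h3 + p4 ∧ 0 ≤ h3 - p4 ∧ 0 ≤ k) ∨ 0 ≤ -p5 - 2 ∨ (0 ≤ p5 + 1 ∧ 0 ≤ -p5 - 1 ∧ 0 ≤ g) := by
    rcases D56 with (H56 | H56) | H56 | (H56 | H56) | (H56 | H56)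
    · exact Or.inl H56
    · exact Or.inr (Or.inl H56)
    · exact Or.inr (Or.inr (Or.inl H56))
    · exact Or.inr (Or.inr (Or.inr (Or.inl H56)))
    · exact Or.inr (Or.inr (Or.inr (Or.inr (Or.inl H56))))
    · exact Or.inr (Or.inr (Or.inr (Or.inr (Or.inr (Or.inl H56)))))
    · exact Or.inr (Or.inr (Or.inr (Or.inr (Or.inr (Or.inr H56)))))
  rcases E1 with H1 | H1
  · rcases E52 with H52 | H52
    · rcases E11 with H11 | H11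
      · rcases E4 with H4 | H4
        · linarith only [B28, B17, B16, B31, B22, B38, H52, B10, H4]
        · rcases E48 with H48 | H48
          · linarith only [H4, H48.1, H52, B36]
          · rcases E24 with H24 | H24
            · linarith only [H52, H24.1]
            · rcases E27 with H27 | H27
              · linarith only [H27.1, H48.1]
              · rcases E32 with H32 | H32
                · rcases E55 with H55 | H55 | H55 | H55 | H55 | H55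
                  · rcases E54 with H54 | H54 | H54 | H54
                    · linarith only [H55.1, H54]
                    · rcases E53 with H53 | H53 | H53
                      · linarith only [H55.1, H53]
                      · exact g11_l0 B31 B32 E2 E6 E56 H4 H24 H27 H52 H53 H54
                      · linarith only [H1.2, H11.1, H53]
                    · linarith only [H32.1, H54]
                    · linarith only [H1.2, H11.1, H54]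
                  · linarith only [H32.1, H55.2.1]
                  · linarith only [H52, H55]
                  · linarith only [H52, H55.2.1]
                  · linarith only [H55, H48.1]
                  · linarith only [H55.2.2, H27.2]
                · exact g11_l1 E6 E55 H27 H32 H48 H52
      · linarith only [B17, H11.1, B16, B10, H1.2, B18, B27]
    · linarith only [H1.2, H52]
  · rcases E52 with H52 | H52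
    · rcases E41 with H41 | H41
      · rcases E4 with H4 | H4
        · linarith only [B28, B17, B16, B31, B22, B38, H52, B10, H4]
        · rcases E48 with H48 | H48
          · linarith only [H4, H48.1, H52, B36]
          · rcases E24 with H24 | H24
            · linarith only [H52, H24.1]
            · rcases E27 with H27 | H27
              · linarith only [H27.1, H48.1]
              · rcases E32 with H32 | H32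
                · rcases E55 with H55 | H55 | H55 | H55 | H55 | H55
                  · rcases E54 with H54 | H54 | H54 | H54
                    · linarith only [H55.1, H54]
                    · rcases E53 with H53 | H53 | H53
                      · linarith only [H55.1, H53]
                      · exact g11_l0 B31 B32 E2 E6 E56 H4 H24 H27 H52 H53 H54
                      · linarith only [H41.1, H1.2, H32.1, H53]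
                    · linarith only [H32.1, H54]
                    · linarith only [H41.1, H1.2, H32.1, H54]
                  · linarith only [H32.1, H55.2.1]
                  · linarith only [H52, H55]
                  · linarith only [H52, H55.2.1]
                  · linarith only [H55, H48.1]
                  · linarith only [H55.2.2, H27.2]
                · exact g11_l1 E6 E55 H27 H32 H48 H52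
      · linarith only [B15, B20, H1.2, B19, H41.1, B25]
    · linarith only [H52, B20, H1.2, B15, B25, B19]

theorem g12 {a1 a2 a3 b1 b2 b3 d1 g n3 p5 x y : ℤ}
    (B15 : 0 ≤ x + a1 + a2 - b1 - b2)
    (B19 : 0 ≤ -a1 - a2 - a3 + b1 + b2 + b3 - y)
    (B20 : 0 ≤ y - 1)
    (B25 : 0 ≤ -x + 1)
    (B28 : 0 ≤ d1 - 2)
    (B38 : 0 ≤ -p5 - 2)
    (D1 : (0 ≤ a2 - 1 ∧ 0 ≤ n3 - a3 - 1) ∨ (0 ≤ b2 - 1 ∧ 0 ≤ n3 - b3 - 1))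
    (D27 : (0 ≤ g - 1 ∧ 0 ≤ -d1 - p5) ∨ (0 ≤ -g ∧ 0 ≤ p5))
    (D51 : 0 ≤ -d1 + 1 ∨ 0 ≤ -g ∨ 0 ≤ -n3 + a3) : False := by
  have E1 := D1
  have E27 : (0 ≤ g - 1 ∧ 0 ≤ -d1 - p5) := by
    rcases D27 with H27 | H27
    · exact H27
    · linarith only [B38, H27.2]
  have E51 : 0 ≤ -g ∨ 0 ≤ -n3 + a3 := by
    rcases D51 with H51 | H51 | H51
    · linarith only [B28, H51]
    · exact Or.inl H51
    · exact Or.inr H51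
  have H27 := E27
  rcases E51 with H51 | H51
  · linarith only [H51, H27.1]
  · rcases E1 with H1 | H1
    · linarith only [H1.2, H51]
    · linarith only [H51, B20, H1.2, B15, B25, B19]

theorem g13 {a1 a2 a3 b1 b2 b3 d1 g n3 p5 x y : ℤ}
    (B15 : 0 ≤ x + a1 + a2 - b1 - b2)
    (B19 : 0 ≤ -a1 - a2 - a3 + b1 + b2 + b3 - y)
    (B20 : 0 ≤ y - 1)
    (B25 : 0 ≤ -x + 1)
    (B28 : 0 ≤ d1 - 2)
    (B38 : 0 ≤ -p5 - 2)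
    (D1 : (0 ≤ a2 - 1 ∧ 0 ≤ n3 - a3 - 1) ∨ (0 ≤ b2 - 1 ∧ 0 ≤ n3 - b3 - 1))
    (D27 : (0 ≤ g - 1 ∧ 0 ≤ -d1 - p5) ∨ (0 ≤ -g ∧ 0 ≤ p5))
    (D50 : 0 ≤ -d1 + 1 ∨ 0 ≤ -g ∨ 0 ≤ -n3 + a3) : False := by
  have E1 := D1
  have E27 : (0 ≤ g - 1 ∧ 0 ≤ -d1 - p5) := by
    rcases D27 with H27 | H27
    · exact H27
    · linarith only [B38, H27.2]
  have E50 : 0 ≤ -g ∨ 0 ≤ -n3 + a3 := by
    rcases D50 with H50 | H50 | H50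
    · linarith only [B28, H50]
    · exact Or.inl H50
    · exact Or.inr H50
  have H27 := E27
  rcases E50 with H50 | H50
  · linarith only [H50, H27.1]
  · rcases E1 with H1 | H1
    · linarith only [H1.2, H50]
    · linarith only [H50, B20, H1.2, B15, B25, B19]

theorem g14 {a1 a2 a3 b1 b2 b3 d1 g n3 p5 x y : ℤ}
    (B15 : 0 ≤ x + a1 + a2 - b1 - b2)
    (B19 : 0 ≤ -a1 - a2 - a3 + b1 + b2 + b3 - y)
    (B20 : 0 ≤ y - 1)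
    (B25 : 0 ≤ -x + 1)
    (B28 : 0 ≤ d1 - 2)
    (B38 : 0 ≤ -p5 - 2)
    (D1 : (0 ≤ a2 - 1 ∧ 0 ≤ n3 - a3 - 1) ∨ (0 ≤ b2 - 1 ∧ 0 ≤ n3 - b3 - 1))
    (D27 : (0 ≤ g - 1 ∧ 0 ≤ -d1 - p5) ∨ (0 ≤ -g ∧ 0 ≤ p5))
    (D51 : 0 ≤ -d1 + 1 ∨ 0 ≤ -g ∨ 0 ≤ -n3 + a3) : False := by
  have E1 := D1
  have E27 : (0 ≤ g - 1 ∧ 0 ≤ -d1 - p5) := by
    rcases D27 with H27 | H27
    · exact H27
    · linarith only [B38, H27.2]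
  have E51 : 0 ≤ -g ∨ 0 ≤ -n3 + a3 := by
    rcases D51 with H51 | H51 | H51
    · linarith only [B28, H51]
    · exact Or.inl H51
    · exact Or.inr H51
  have H27 := E27
  rcases E51 with H51 | H51
  · linarith only [H51, H27.1]
  · rcases E1 with H1 | H1
    · linarith only [H1.2, H51]
    · linarith only [H51, B20, H1.2, B15, B25, B19]

theorem g15 {a1 a2 a3 b1 b2 b3 d1 g h3 k n1 n2 n3 p5 p9 x y : ℤ}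
    (B15 : 0 ≤ x + a1 + a2 - b1 - b2)
    (B19 : 0 ≤ -a1 - a2 - a3 + b1 + b2 + b3 - y)
    (B20 : 0 ≤ y - 1)
    (B25 : 0 ≤ -x + 1)
    (B28 : 0 ≤ d1 - 2)
    (B31 : 0 ≤ n1 - a1 - h3)
    (B35 : 0 ≤ n2 - a2 - g - 1)
    (B36 : 0 ≤ a3 - g)
    (B38 : 0 ≤ -p5 - 2)
    (B39 : 0 ≤ h3 - d1)
    (D1 : (0 ≤ a2 - 1 ∧ 0 ≤ n3 - a3 - 1) ∨ (0 ≤ b2 - 1 ∧ 0 ≤ n3 - b3 - 1))
    (D4 : 0 ≤ k - n1 + a1 - n2 + a2 ∨ 0 ≤ k - a3 + 1)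
    (D27 : (0 ≤ g - 1 ∧ 0 ≤ -d1 - p5) ∨ (0 ≤ -g ∧ 0 ≤ p5))
    (D44 : (0 ≤ k - 1 ∧ 0 ≤ -p9) ∨ (0 ≤ -k ∧ 0 ≤ p9 - d1))
    (D51 : 0 ≤ -h3 ∨ 0 ≤ -k - 1 ∨ 0 ≤ -n3 + a3) : False := by
  have E1 := D1
  have E4 := D4
  have E27 : (0 ≤ g - 1 ∧ 0 ≤ -d1 - p5) := by
    rcases D27 with H27 | H27
    · exact H27
    · linarith only [B38, H27.2]
  have E44 := D44
  have E51 : 0 ≤ -k - 1 ∨ 0 ≤ -n3 + a3 := by
    rcases D51 with H51 | H51 | H51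
    · linarith only [B28, B39, H51]
    · exact Or.inl H51
    · exact Or.inr H51
  have H27 := E27
  rcases E44 with H44 | H44
  · rcases E51 with H51 | H51
    · linarith only [H51, H44.1]
    · rcases E1 with H1 | H1
      · linarith only [H1.2, H51]
      · linarith only [H51, B20, H1.2, B15, B25, B19]
  · rcases E4 with H4 | H4
    · linarith only [B28, B35, B31, B39, H27.1, H44.1, H4]
    · rcases E51 with H51 | H51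
      · linarith only [B36, H4, H51, H27.1]
      · rcases E1 with H1 | H1
        · linarith only [H1.2, H51]
        · linarith only [B15, B20, B19, H1.2, H51, B25]

theorem los11 {n1 n2 n3 a1 a2 a3 b1 b2 b3 x y d1 : ℤ}
    (B0 : 0 ≤ a1)
    (B1 : 0 ≤ a2)
    (B2 : 0 ≤ a3)
    (B3 : 0 ≤ b1)
    (B4 : 0 ≤ b2)
    (B5 : 0 ≤ b3)
    (B6 : 0 ≤ n1 - a1)
    (B7 : 0 ≤ n2 - a2)
    (B8 : 0 ≤ n3 - a3)
    (B9 : 0 ≤ n1 - b1)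
    (B10 : 0 ≤ n2 - b2)
    (B11 : 0 ≤ n3 - b3)
    (B12 : 0 ≤ n1 - 1)
    (B13 : 0 ≤ n2 - 1)
    (B14 : 0 ≤ n3 - 1)
    (B15 : 0 ≤ x + a1 + a2 - b1 - b2)
    (B16 : 0 ≤ -a1 - a2 + b1 + b2 - x)
    (B17 : 0 ≤ x - 1)
    (B18 : 0 ≤ y + a1 + a2 + a3 - b1 - b2 - b3)
    (B19 : 0 ≤ -a1 - a2 - a3 + b1 + b2 + b3 - y)
    (B20 : 0 ≤ y - 1)
    (B21 : 0 ≤ d1 - a1 + b1)
    (B22 : 0 ≤ a1 - b1 - d1)
    (B23 : 0 ≤ d1 - 1)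
    (B24 : 0 ≤ x - 1)
    (B25 : 0 ≤ -x + 1)
    (B26 : 0 ≤ y - 1)
    (B27 : 0 ≤ -y + 1)
    (B28 : 0 ≤ d1 - 2)
    (hex : 0 ≤ b1 - 1) :
    LosC n1 n2 n3 a1 a2 a3 b1 b2 b3 (d1 + 1) (-n2 + b2) (-n2 + b2 - n3 + b3) := by
  unfold LosC
  refine ⟨?_, ?_, ?_, ?_, ?_, ?_, ?_, ?_⟩ <;> omega

theorem los12 {n1 n2 n3 a1 a2 a3 b1 b2 b3 x y d1 : ℤ}
    (B0 : 0 ≤ a1)
    (B1 : 0 ≤ a2)
    (B2 : 0 ≤ a3)
    (B3 : 0 ≤ b1)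
    (B4 : 0 ≤ b2)
    (B5 : 0 ≤ b3)
    (B6 : 0 ≤ n1 - a1)
    (B7 : 0 ≤ n2 - a2)
    (B8 : 0 ≤ n3 - a3)
    (B9 : 0 ≤ n1 - b1)
    (B10 : 0 ≤ n2 - b2)
    (B11 : 0 ≤ n3 - b3)
    (B12 : 0 ≤ n1 - 1)
    (B13 : 0 ≤ n2 - 1)
    (B14 : 0 ≤ n3 - 1)
    (B15 : 0 ≤ x + a1 + a2 - b1 - b2)
    (B16 : 0 ≤ -a1 - a2 + b1 + b2 - x)
    (B17 : 0 ≤ x - 1)
    (B18 : 0 ≤ y + a1 + a2 + a3 - b1 - b2 - b3)
    (B19 : 0 ≤ -a1 - a2 - a3 + b1 + b2 + b3 - y)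
    (B20 : 0 ≤ y - 1)
    (B21 : 0 ≤ d1 - a1 + b1)
    (B22 : 0 ≤ a1 - b1 - d1)
    (B23 : 0 ≤ d1 - 1)
    (B24 : 0 ≤ x - 1)
    (B25 : 0 ≤ -x + 1)
    (B26 : 0 ≤ y - 1)
    (B27 : 0 ≤ -y + 1)
    (B28 : 0 ≤ d1 - 2) :
    LosC n1 n2 n3 a1 a2 a3 b1 b2 b3 (1) (0) (-n3 + a3) := by
  unfold LosC
  refine ⟨?_, ?_, ?_, ?_, ?_, ?_, ?_, ?_⟩ <;> omega

theorem los22 {n1 n2 n3 a1 a2 a3 b1 b2 b3 x y d1 h : ℤ}
    (B0 : 0 ≤ a1)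
    (B1 : 0 ≤ a2)
    (B2 : 0 ≤ a3)
    (B3 : 0 ≤ b1)
    (B4 : 0 ≤ b2)
    (B5 : 0 ≤ b3)
    (B6 : 0 ≤ n1 - a1)
    (B7 : 0 ≤ n2 - a2)
    (B8 : 0 ≤ n3 - a3)
    (B9 : 0 ≤ n1 - b1)
    (B10 : 0 ≤ n2 - b2)
    (B11 : 0 ≤ n3 - b3)
    (B12 : 0 ≤ n1 - 1)
    (B13 : 0 ≤ n2 - 1)
    (B14 : 0 ≤ n3 - 1)
    (B15 : 0 ≤ x + a1 + a2 - b1 - b2)
    (B16 : 0 ≤ -a1 - a2 + b1 + b2 - x)
    (B17 : 0 ≤ x - 1)
    (B18 : 0 ≤ y + a1 + a2 + a3 - b1 - b2 - b3)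
    (B19 : 0 ≤ -a1 - a2 - a3 + b1 + b2 + b3 - y)
    (B20 : 0 ≤ y - 1)
    (B21 : 0 ≤ d1 - a1 + b1)
    (B22 : 0 ≤ a1 - b1 - d1)
    (B23 : 0 ≤ d1 - 1)
    (B24 : 0 ≤ x - 1)
    (B25 : 0 ≤ -x + 1)
    (B26 : 0 ≤ y - 1)
    (B27 : 0 ≤ -y + 1)
    (B28 : 0 ≤ d1 - 2)
    (B29 : 0 ≤ n1 - a1 - h)
    (B30 : 0 ≤ a2 - h - 1)
    (C_Dh : 0 ≤ h - n1 + a1 ∨ 0 ≤ h - a2 + 1) :
    LosC n1 n2 n3 a1 a2 a3 b1 b2 b3 (-h) (1) (-n3 + a3 + 1) := by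
  unfold LosC
  refine ⟨?_, ?_, ?_, ?_, ?_, ?_, ?_, ?_⟩ <;> omega

theorem los33 {n1 n2 n3 a1 a2 a3 b1 b2 b3 x y d1 h3 k : ℤ}
    (B0 : 0 ≤ a1)
    (B1 : 0 ≤ a2)
    (B2 : 0 ≤ a3)
    (B3 : 0 ≤ b1)
    (B4 : 0 ≤ b2)
    (B5 : 0 ≤ b3)
    (B6 : 0 ≤ n1 - a1)
    (B7 : 0 ≤ n2 - a2)
    (B8 : 0 ≤ n3 - a3)
    (B9 : 0 ≤ n1 - b1)
    (B10 : 0 ≤ n2 - b2)
    (B11 : 0 ≤ n3 - b3)
    (B12 : 0 ≤ n1 - 1)
    (B13 : 0 ≤ n2 - 1)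
    (B14 : 0 ≤ n3 - 1)
    (B15 : 0 ≤ x + a1 + a2 - b1 - b2)
    (B16 : 0 ≤ -a1 - a2 + b1 + b2 - x)
    (B17 : 0 ≤ x - 1)
    (B18 : 0 ≤ y + a1 + a2 + a3 - b1 - b2 - b3)
    (B19 : 0 ≤ -a1 - a2 - a3 + b1 + b2 + b3 - y)
    (B20 : 0 ≤ y - 1)
    (B21 : 0 ≤ d1 - a1 + b1)
    (B22 : 0 ≤ a1 - b1 - d1)
    (B23 : 0 ≤ d1 - 1)
    (B24 : 0 ≤ x - 1)
    (B25 : 0 ≤ -x + 1)
    (B26 : 0 ≤ y - 1)
    (B27 : 0 ≤ -y + 1)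
    (B28 : 0 ≤ d1 - 2)
    (B31 : 0 ≤ n1 - a1 - h3)
    (B32 : 0 ≤ a2 + a3 - h3 - 1)
    (B33 : 0 ≤ n1 - a1 + n2 - a2 - k)
    (B34 : 0 ≤ a3 - k - 1)
    (C_Dh3 : 0 ≤ h3 - n1 + a1 ∨ 0 ≤ h3 - a2 - a3 + 1)
    (C_Dk : 0 ≤ k - n1 + a1 - n2 + a2 ∨ 0 ≤ k - a3 + 1) :
    LosC n1 n2 n3 a1 a2 a3 b1 b2 b3 (-h3) (-k) (1) := by
  unfold LosC
  refine ⟨?_, ?_, ?_, ?_, ?_, ?_, ?_, ?_⟩ <;> omega

theorem los13 {n1 n2 n3 a1 a2 a3 b1 b2 b3 x y d1 g : ℤ}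
    (B0 : 0 ≤ a1)
    (B1 : 0 ≤ a2)
    (B2 : 0 ≤ a3)
    (B3 : 0 ≤ b1)
    (B4 : 0 ≤ b2)
    (B5 : 0 ≤ b3)
    (B6 : 0 ≤ n1 - a1)
    (B7 : 0 ≤ n2 - a2)
    (B8 : 0 ≤ n3 - a3)
    (B9 : 0 ≤ n1 - b1)
    (B10 : 0 ≤ n2 - b2)
    (B11 : 0 ≤ n3 - b3)
    (B12 : 0 ≤ n1 - 1)
    (B13 : 0 ≤ n2 - 1)
    (B14 : 0 ≤ n3 - 1)
    (B15 : 0 ≤ x + a1 + a2 - b1 - b2)
    (B16 : 0 ≤ -a1 - a2 + b1 + b2 - x)
    (B17 : 0 ≤ x - 1)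
    (B18 : 0 ≤ y + a1 + a2 + a3 - b1 - b2 - b3)
    (B19 : 0 ≤ -a1 - a2 - a3 + b1 + b2 + b3 - y)
    (B20 : 0 ≤ y - 1)
    (B21 : 0 ≤ d1 - a1 + b1)
    (B22 : 0 ≤ a1 - b1 - d1)
    (B23 : 0 ≤ d1 - 1)
    (B24 : 0 ≤ x - 1)
    (B25 : 0 ≤ -x + 1)
    (B26 : 0 ≤ y - 1)
    (B27 : 0 ≤ -y + 1)
    (B28 : 0 ≤ d1 - 2)
    (B35 : 0 ≤ n2 - a2 - g - 1)
    (B36 : 0 ≤ a3 - g)
    (C_Dg : 0 ≤ g - n2 + a2 + 1 ∨ 0 ≤ g - a3) :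
    LosC n1 n2 n3 a1 a2 a3 b1 b2 b3 (1) (-g) (0) := by
  unfold LosC
  refine ⟨?_, ?_, ?_, ?_, ?_, ?_, ?_, ?_⟩ <;> omega

theorem hd {n1 n2 n3 a1 a2 a3 b1 b2 b3 x y d1 h h3 k g : ℤ}
    (B0 : 0 ≤ a1)
    (B1 : 0 ≤ a2)
    (B2 : 0 ≤ a3)
    (B3 : 0 ≤ b1)
    (B4 : 0 ≤ b2)
    (B5 : 0 ≤ b3)
    (B6 : 0 ≤ n1 - a1)
    (B7 : 0 ≤ n2 - a2)
    (B8 : 0 ≤ n3 - a3)
    (B9 : 0 ≤ n1 - b1)
    (B10 : 0 ≤ n2 - b2)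
    (B11 : 0 ≤ n3 - b3)
    (B12 : 0 ≤ n1 - 1)
    (B13 : 0 ≤ n2 - 1)
    (B14 : 0 ≤ n3 - 1)
    (B15 : 0 ≤ x + a1 + a2 - b1 - b2)
    (B16 : 0 ≤ -a1 - a2 + b1 + b2 - x)
    (B17 : 0 ≤ x - 1)
    (B18 : 0 ≤ y + a1 + a2 + a3 - b1 - b2 - b3)
    (B19 : 0 ≤ -a1 - a2 - a3 + b1 + b2 + b3 - y)
    (B20 : 0 ≤ y - 1)
    (B21 : 0 ≤ d1 - a1 + b1)
    (B22 : 0 ≤ a1 - b1 - d1)
    (B23 : 0 ≤ d1 - 1)
    (B24 : 0 ≤ x - 1)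
    (B25 : 0 ≤ -x + 1)
    (B26 : 0 ≤ y - 1)
    (B27 : 0 ≤ -y + 1)
    (B28 : 0 ≤ d1 - 2)
    (B29 : 0 ≤ n1 - a1 - h)
    (B30 : 0 ≤ a2 - h - 1)
    (B31 : 0 ≤ n1 - a1 - h3)
    (B32 : 0 ≤ a2 + a3 - h3 - 1)
    (B33 : 0 ≤ n1 - a1 + n2 - a2 - k)
    (B34 : 0 ≤ a3 - k - 1)
    (B35 : 0 ≤ n2 - a2 - g - 1)
    (B36 : 0 ≤ a3 - g)
    (C_Dh : 0 ≤ h - n1 + a1 ∨ 0 ≤ h - a2 + 1)
    (C_Dh3 : 0 ≤ h3 - n1 + a1 ∨ 0 ≤ h3 - a2 - a3 + 1)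
    (C_Dk : 0 ≤ k - n1 + a1 - n2 + a2 ∨ 0 ≤ k - a3 + 1)
    (C_Dg : 0 ≤ g - n2 + a2 + 1 ∨ 0 ≤ g - a3) :
    ∀ c1 c2 c3, LosC n1 n2 n3 a1 a2 a3 b1 b2 b3 c1 c2 c3 →
      ∃ v ∈ ([⟨0 ≤ b1 - 1, d1 + 1, -n2 + b2, -n2 + b2 - n3 + b3⟩, ⟨True, 1, 0, -n3 + a3⟩, ⟨True, -h, 1, -n3 + a3 + 1⟩, ⟨True, -h3, -k, 1⟩, ⟨True, 1, -g, 0⟩] : List LV), v.ex ∧ v.c1 ≤ c1 ∧ v.c2 ≤ c2 ∧ v.c3 ≤ c3 := by
  intro c1 c2 c3 hc
  obtain ⟨q1, q2, q3, q4, q5, q6, qa, qb⟩ := hc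
  rcases qb with qb | qb | qb
  · clear qa
    clear C_Dh C_Dh3 C_Dk C_Dg
    refine ⟨_, List.Mem.head _, ?_, ?_, ?_, ?_⟩
    · show 0 ≤ b1 - 1; omega
    · show d1 + 1 ≤ c1; omega
    · show -n2 + b2 ≤ c2; omega
    · show -n2 + b2 - n3 + b3 ≤ c3; omega
  · rcases qa with qa | qa | qa
    · clear C_Dh C_Dh3 C_Dk C_Dg
      refine ⟨_, List.Mem.tail _ (List.Mem.head _), ?_, ?_, ?_, ?_⟩
      · trivial
      · show 1 ≤ c1; omega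
      · show 0 ≤ c2; omega
      · show -n3 + a3 ≤ c3; omega
    · clear C_Dh3 C_Dk C_Dg
      refine ⟨_, List.Mem.tail _ (List.Mem.tail _ (List.Mem.head _)), ?_, ?_, ?_, ?_⟩
      · trivial
      · show -h ≤ c1; omega
      · show 1 ≤ c2; omega
      · show -n3 + a3 + 1 ≤ c3; omega
    · clear C_Dh C_Dg
      refine ⟨_, List.Mem.tail _ (List.Mem.tail _ (List.Mem.tail _ (List.Mem.head _))), ?_, ?_, ?_, ?_⟩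
      · trivial
      · show -h3 ≤ c1; omega
      · show -k ≤ c2; omega
      · show 1 ≤ c3; omega
  · rcases qa with qa | qa | qa
    · clear C_Dh C_Dh3 C_Dk
      refine ⟨_, List.Mem.tail _ (List.Mem.tail _ (List.Mem.tail _ (List.Mem.tail _ (List.Mem.head _)))), ?_, ?_, ?_, ?_⟩
      · trivial
      · show 1 ≤ c1; omega
      · show -g ≤ c2; omega
      · show 0 ≤ c3; omega
    · clear C_Dh3 C_Dk C_Dg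
      refine ⟨_, List.Mem.tail _ (List.Mem.tail _ (List.Mem.head _)), ?_, ?_, ?_, ?_⟩
      · trivial
      · show -h ≤ c1; omega
      · show 1 ≤ c2; omega
      · show -n3 + a3 + 1 ≤ c3; omega
    · clear C_Dh C_Dg
      refine ⟨_, List.Mem.tail _ (List.Mem.tail _ (List.Mem.tail _ (List.Mem.head _))), ?_, ?_, ?_, ?_⟩
      · trivial
      · show -h3 ≤ c1; omega
      · show -k ≤ c2; omega
      · show 1 ≤ c3; omega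

theorem cvF_V1_V2_11 {b1 b2 b3 d1 n2 n3 p0 p1 : ℤ}
    (ep0 : p0 = (d1) * (-n2 + b2))
    (ep1 : p1 = (d1) * (-n2 + b2 - n3 + b3))
    (hex : 0 ≤ b1 - 1)
    (hf : LexFail ((1) * (d1 + 1) + (d1) * (-n2 + b2) + (0) * (-n2 + b2 - n3 + b3))
      ((1) * (d1 + 1) + (0) * (-n2 + b2) + (d1) * (-n2 + b2 - n3 + b3))
      ((0) * (d1 + 1) + (0) * (-n2 + b2) + (0) * (-n2 + b2 - n3 + b3))) :
    0 ≤ b1 - 1 ∧ 0 ≤ -d1 - p0 - 1 ∧ (0 ≤ -d1 - p0 - 2 ∨ 0 ≤ -d1 - p1 - 1) := by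
  rcases hf with hf | ⟨hf0, hf⟩ | ⟨hf0, hf1, hf⟩
  · exact ⟨by linarith only [hex], by linarith only [hf, ep0], Or.inl (by linarith only [hf, ep0])⟩
  · exact ⟨by linarith only [hex], by linarith only [hf0, ep0], Or.inr (by linarith only [hf, ep1])⟩
  · exact ⟨by linarith only [hex], by linarith only [hf0, ep0], Or.inr (by linarith only [hf1, ep1])⟩

theorem cvF_V1_V2_12 {a3 d1 n3 p2 : ℤ}
    (ep2 : p2 = (d1) * (-n3 + a3))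
    (hf : LexFail ((1) * (1) + (d1) * (0) + (0) * (-n3 + a3))
      ((1) * (1) + (0) * (0) + (d1) * (-n3 + a3))
      ((0) * (1) + (0) * (0) + (0) * (-n3 + a3))) :
    False := by
  rcases hf with hf | ⟨hf0, hf⟩ | ⟨hf0, hf1, hf⟩
  · exfalso; linarith only [hf]
  · exfalso; linarith only [hf0]
  · exfalso; linarith only [hf0]

theorem cvF_V1_V2_22 {a3 d1 h n3 p3 : ℤ}
    (ep3 : p3 = (d1) * (-n3 + a3 + 1))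
    (hf : LexFail ((1) * (-h) + (d1) * (1) + (0) * (-n3 + a3 + 1))
      ((1) * (-h) + (0) * (1) + (d1) * (-n3 + a3 + 1))
      ((0) * (-h) + (0) * (1) + (0) * (-n3 + a3 + 1))) :
    0 ≤ h - d1 ∧ (0 ≤ h - d1 - 1 ∨ 0 ≤ h - p3) := by
  rcases hf with hf | ⟨hf0, hf⟩ | ⟨hf0, hf1, hf⟩
  · exact ⟨by linarith only [hf], Or.inl (by linarith only [hf])⟩
  · exact ⟨by linarith only [hf0], Or.inr (by linarith only [hf, ep3])⟩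
  · exact ⟨by linarith only [hf0], Or.inr (by linarith only [hf1, ep3])⟩

theorem cvF_V1_V2_33 {d1 h3 k p4 : ℤ}
    (ep4 : p4 = (d1) * (-k))
    (hf : LexFail ((1) * (-h3) + (d1) * (-k) + (0) * (1))
      ((1) * (-h3) + (0) * (-k) + (d1) * (1))
      ((0) * (-h3) + (0) * (-k) + (0) * (1))) :
    0 ≤ h3 - p4 ∧ (0 ≤ h3 - p4 - 1 ∨ 0 ≤ h3 - d1) := by
  rcases hf with hf | ⟨hf0, hf⟩ | ⟨hf0, hf1, hf⟩
  · exact ⟨by linarith only [hf, ep4], Or.inl (by linarith only [hf, ep4])⟩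
  · exact ⟨by linarith only [hf0, ep4], Or.inr (by linarith only [hf])⟩
  · exact ⟨by linarith only [hf0, ep4], Or.inr (by linarith only [hf1])⟩

theorem cvF_V1_V2_13 {d1 g p5 : ℤ}
    (ep5 : p5 = (d1) * (-g))
    (hf : LexFail ((1) * (1) + (d1) * (-g) + (0) * (0))
      ((1) * (1) + (0) * (-g) + (d1) * (0))
      ((0) * (1) + (0) * (-g) + (0) * (0))) :
    0 ≤ -p5 - 1 ∧ 0 ≤ -p5 - 2 := by
  rcases hf with hf | ⟨hf0, hf⟩ | ⟨hf0, hf1, hf⟩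
  · exact ⟨by linarith only [hf, ep5], by linarith only [hf, ep5]⟩
  · exfalso; linarith only [hf]
  · exfalso; linarith only [hf1]

theorem FAt {n1 n2 n3 a1 a2 a3 b1 b2 b3 x y d1 h h3 k g p0 p1 p2 p3 p4 p5 : ℤ}
    (B15 : 0 ≤ x + a1 + a2 - b1 - b2)
    (B16 : 0 ≤ -a1 - a2 + b1 + b2 - x)
    (B17 : 0 ≤ x - 1)
    (B18 : 0 ≤ y + a1 + a2 + a3 - b1 - b2 - b3)
    (B19 : 0 ≤ -a1 - a2 - a3 + b1 + b2 + b3 - y)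
    (B20 : 0 ≤ y - 1)
    (B21 : 0 ≤ d1 - a1 + b1)
    (B22 : 0 ≤ a1 - b1 - d1)
    (B23 : 0 ≤ d1 - 1)
    (B24 : 0 ≤ x - 1)
    (B25 : 0 ≤ -x + 1)
    (B26 : 0 ≤ y - 1)
    (B27 : 0 ≤ -y + 1)
    (B28 : 0 ≤ d1 - 2)
    (ep0 : p0 = (d1) * (-n2 + b2))
    (ep1 : p1 = (d1) * (-n2 + b2 - n3 + b3))
    (ep2 : p2 = (d1) * (-n3 + a3))
    (ep3 : p3 = (d1) * (-n3 + a3 + 1))
    (ep4 : p4 = (d1) * (-k))
    (ep5 : p5 = (d1) * (-g))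
    (w1 : a1 - b1 = d1) (w2 : a1 + a2 - b1 - b2 = -1) (w3 : a1 + a2 + a3 - b1 - b2 - b3 = -1)
    (hno : ¬ ∃ u1 u2 u3 : ℤ, Good n1 n2 n3 a1 a2 a3 b1 b2 b3 u1 u2 u3)
    (hd : ∀ c1 c2 c3, LosC n1 n2 n3 a1 a2 a3 b1 b2 b3 c1 c2 c3 →
      ∃ v ∈ ([⟨0 ≤ b1 - 1, d1 + 1, -n2 + b2, -n2 + b2 - n3 + b3⟩, ⟨True, 1, 0, -n3 + a3⟩, ⟨True, -h, 1, -n3 + a3 + 1⟩, ⟨True, -h3, -k, 1⟩, ⟨True, 1, -g, 0⟩] : List LV), v.ex ∧ v.c1 ≤ c1 ∧ v.c2 ≤ c2 ∧ v.c3 ≤ c3) :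
    (0 ≤ b1 - 1 ∧ 0 ≤ -d1 - p0 - 1 ∧ (0 ≤ -d1 - p0 - 2 ∨ 0 ≤ -d1 - p1 - 1)) ∨ (0 ≤ h - d1 ∧ (0 ≤ h - d1 - 1 ∨ 0 ≤ h - p3)) ∨ (0 ≤ h3 - p4 ∧ (0 ≤ h3 - p4 - 1 ∨ 0 ≤ h3 - d1)) ∨ (0 ≤ -p5 - 1 ∧ 0 ≤ -p5 - 2) := by
  obtain ⟨v, hv, hex, hf⟩ := failA' w1 w2 w3 hno _ hd (1) (d1) (0) (1) (0) (d1) (0) (0) (0)
    ⟨zero_le_one, by linarith only [B15, B16, B17, B18, B19, B20, B21, B22, B23, B24, B25, B26, B27, B28], le_refl 0⟩ ⟨zero_le_one, le_refl 0, by linarith only [B15, B16, B17, B18, B19, B20, B21, B22, B23, B24, B25, B26, B27, B28]⟩ ⟨le_refl 0, le_refl 0, le_refl 0⟩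
    (Or.inr ⟨by ring, Or.inr ⟨by ring, by linarith only [B15, B16, B17, B18, B19, B20, B21, B22, B23, B24, B25, B26, B27, B28]⟩⟩)
  simp only [List.mem_cons, List.not_mem_nil, or_false] at hv
  rcases hv with rfl | rfl | rfl | rfl | rfl
  · exact Or.inl (cvF_V1_V2_11 ep0 ep1 hex hf)
  · exact (cvF_V1_V2_12 ep2 hf).elim
  · exact Or.inr (Or.inl (cvF_V1_V2_22 ep3 hf))
  · exact Or.inr (Or.inr (Or.inl (cvF_V1_V2_33 ep4 hf)))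
  · exact Or.inr (Or.inr (Or.inr (cvF_V1_V2_13 ep5 hf)))

theorem cvF_V2_V1_11 {b1 b2 b3 d1 n2 n3 p0 p1 : ℤ}
    (ep0 : p0 = (d1) * (-n2 + b2))
    (ep1 : p1 = (d1) * (-n2 + b2 - n3 + b3))
    (hex : 0 ≤ b1 - 1)
    (hf : LexFail ((1) * (d1 + 1) + (0) * (-n2 + b2) + (d1) * (-n2 + b2 - n3 + b3))
      ((1) * (d1 + 1) + (d1) * (-n2 + b2) + (0) * (-n2 + b2 - n3 + b3))
      ((0) * (d1 + 1) + (0) * (-n2 + b2) + (0) * (-n2 + b2 - n3 + b3))) :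
    0 ≤ b1 - 1 ∧ 0 ≤ -d1 - p1 - 1 ∧ (0 ≤ -d1 - p1 - 2 ∨ 0 ≤ -d1 - p0 - 1) := by
  rcases hf with hf | ⟨hf0, hf⟩ | ⟨hf0, hf1, hf⟩
  · exact ⟨by linarith only [hex], by linarith only [hf, ep1], Or.inl (by linarith only [hf, ep1])⟩
  · exact ⟨by linarith only [hex], by linarith only [hf0, ep1], Or.inr (by linarith only [hf, ep0])⟩
  · exact ⟨by linarith only [hex], by linarith only [hf0, ep1], Or.inr (by linarith only [hf1, ep0])⟩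

theorem cvF_V2_V1_12 {a3 d1 n3 p2 : ℤ}
    (ep2 : p2 = (d1) * (-n3 + a3))
    (hf : LexFail ((1) * (1) + (0) * (0) + (d1) * (-n3 + a3))
      ((1) * (1) + (d1) * (0) + (0) * (-n3 + a3))
      ((0) * (1) + (0) * (0) + (0) * (-n3 + a3))) :
    0 ≤ -p2 - 1 ∧ 0 ≤ -p2 - 2 := by
  rcases hf with hf | ⟨hf0, hf⟩ | ⟨hf0, hf1, hf⟩
  · exact ⟨by linarith only [hf, ep2], by linarith only [hf, ep2]⟩
  · exfalso; linarith only [hf]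
  · exfalso; linarith only [hf1]

theorem cvF_V2_V1_22 {a3 d1 h n3 p3 : ℤ}
    (ep3 : p3 = (d1) * (-n3 + a3 + 1))
    (hf : LexFail ((1) * (-h) + (0) * (1) + (d1) * (-n3 + a3 + 1))
      ((1) * (-h) + (d1) * (1) + (0) * (-n3 + a3 + 1))
      ((0) * (-h) + (0) * (1) + (0) * (-n3 + a3 + 1))) :
    0 ≤ h - p3 ∧ (0 ≤ h - p3 - 1 ∨ 0 ≤ h - d1) := by
  rcases hf with hf | ⟨hf0, hf⟩ | ⟨hf0, hf1, hf⟩
  · exact ⟨by linarith only [hf, ep3], Or.inl (by linarith only [hf, ep3])⟩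
  · exact ⟨by linarith only [hf0, ep3], Or.inr (by linarith only [hf])⟩
  · exact ⟨by linarith only [hf0, ep3], Or.inr (by linarith only [hf1])⟩

theorem cvF_V2_V1_33 {d1 h3 k p4 : ℤ}
    (ep4 : p4 = (d1) * (-k))
    (hf : LexFail ((1) * (-h3) + (0) * (-k) + (d1) * (1))
      ((1) * (-h3) + (d1) * (-k) + (0) * (1))
      ((0) * (-h3) + (0) * (-k) + (0) * (1))) :
    0 ≤ h3 - d1 ∧ (0 ≤ h3 - d1 - 1 ∨ 0 ≤ h3 - p4) := by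
  rcases hf with hf | ⟨hf0, hf⟩ | ⟨hf0, hf1, hf⟩
  · exact ⟨by linarith only [hf], Or.inl (by linarith only [hf])⟩
  · exact ⟨by linarith only [hf0], Or.inr (by linarith only [hf, ep4])⟩
  · exact ⟨by linarith only [hf0], Or.inr (by linarith only [hf1, ep4])⟩

theorem cvF_V2_V1_13 {d1 g p5 : ℤ}
    (ep5 : p5 = (d1) * (-g))
    (hf : LexFail ((1) * (1) + (0) * (-g) + (d1) * (0))
      ((1) * (1) + (d1) * (-g) + (0) * (0))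
      ((0) * (1) + (0) * (-g) + (0) * (0))) :
    False := by
  rcases hf with hf | ⟨hf0, hf⟩ | ⟨hf0, hf1, hf⟩
  · exfalso; linarith only [hf]
  · exfalso; linarith only [hf0]
  · exfalso; linarith only [hf0]

theorem FBt {n1 n2 n3 a1 a2 a3 b1 b2 b3 x y d1 h h3 k g p0 p1 p2 p3 p4 p5 : ℤ}
    (B15 : 0 ≤ x + a1 + a2 - b1 - b2)
    (B16 : 0 ≤ -a1 - a2 + b1 + b2 - x)
    (B17 : 0 ≤ x - 1)
    (B18 : 0 ≤ y + a1 + a2 + a3 - b1 - b2 - b3)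
    (B19 : 0 ≤ -a1 - a2 - a3 + b1 + b2 + b3 - y)
    (B20 : 0 ≤ y - 1)
    (B21 : 0 ≤ d1 - a1 + b1)
    (B22 : 0 ≤ a1 - b1 - d1)
    (B23 : 0 ≤ d1 - 1)
    (B24 : 0 ≤ x - 1)
    (B25 : 0 ≤ -x + 1)
    (B26 : 0 ≤ y - 1)
    (B27 : 0 ≤ -y + 1)
    (B28 : 0 ≤ d1 - 2)
    (ep0 : p0 = (d1) * (-n2 + b2))
    (ep1 : p1 = (d1) * (-n2 + b2 - n3 + b3))
    (ep2 : p2 = (d1) * (-n3 + a3))
    (ep3 : p3 = (d1) * (-n3 + a3 + 1))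
    (ep4 : p4 = (d1) * (-k))
    (ep5 : p5 = (d1) * (-g))
    (w1 : a1 - b1 = d1) (w2 : a1 + a2 - b1 - b2 = -1) (w3 : a1 + a2 + a3 - b1 - b2 - b3 = -1)
    (hno : ¬ ∃ u1 u2 u3 : ℤ, Good n1 n2 n3 a1 a2 a3 b1 b2 b3 u1 u2 u3)
    (hd : ∀ c1 c2 c3, LosC n1 n2 n3 a1 a2 a3 b1 b2 b3 c1 c2 c3 →
      ∃ v ∈ ([⟨0 ≤ b1 - 1, d1 + 1, -n2 + b2, -n2 + b2 - n3 + b3⟩, ⟨True, 1, 0, -n3 + a3⟩, ⟨True, -h, 1, -n3 + a3 + 1⟩, ⟨True, -h3, -k, 1⟩, ⟨True, 1, -g, 0⟩] : List LV), v.ex ∧ v.c1 ≤ c1 ∧ v.c2 ≤ c2 ∧ v.c3 ≤ c3) :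
    (0 ≤ b1 - 1 ∧ 0 ≤ -d1 - p1 - 1 ∧ (0 ≤ -d1 - p1 - 2 ∨ 0 ≤ -d1 - p0 - 1)) ∨ (0 ≤ -p2 - 1 ∧ 0 ≤ -p2 - 2) ∨ (0 ≤ h - p3 ∧ (0 ≤ h - p3 - 1 ∨ 0 ≤ h - d1)) ∨ (0 ≤ h3 - d1 ∧ (0 ≤ h3 - d1 - 1 ∨ 0 ≤ h3 - p4)) := by
  obtain ⟨v, hv, hex, hf⟩ := failA' w1 w2 w3 hno _ hd (1) (0) (d1) (1) (d1) (0) (0) (0) (0)
    ⟨zero_le_one, le_refl 0, by linarith only [B15, B16, B17, B18, B19, B20, B21, B22, B23, B24, B25, B26, B27, B28]⟩ ⟨zero_le_one, by linarith only [B15, B16, B17, B18, B19, B20, B21, B22, B23, B24, B25, B26, B27, B28], le_refl 0⟩ ⟨le_refl 0, le_refl 0, le_refl 0⟩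
    (Or.inr ⟨by ring, Or.inr ⟨by ring, by linarith only [B15, B16, B17, B18, B19, B20, B21, B22, B23, B24, B25, B26, B27, B28]⟩⟩)
  simp only [List.mem_cons, List.not_mem_nil, or_false] at hv
  rcases hv with rfl | rfl | rfl | rfl | rfl
  · exact Or.inl (cvF_V2_V1_11 ep0 ep1 hex hf)
  · exact Or.inr (Or.inl (cvF_V2_V1_12 ep2 hf))
  · exact Or.inr (Or.inr (Or.inl (cvF_V2_V1_22 ep3 hf)))
  · exact Or.inr (Or.inr (Or.inr (cvF_V2_V1_33 ep4 hf)))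
  · exact (cvF_V2_V1_13 ep5 hf).elim

theorem cvG_e2_V1_11 {b1 b2 b3 d1 n2 n3 p0 : ℤ}
    (ep0 : p0 = (d1) * (-n2 + b2))
    (hex : 0 ≤ b1 - 1)
    (hf : LexFail ((0) * (d1 + 1) + (1) * (-n2 + b2) + (0) * (-n2 + b2 - n3 + b3))
      ((1) * (d1 + 1) + (d1) * (-n2 + b2) + (0) * (-n2 + b2 - n3 + b3))
      ((0) * (d1 + 1) + (0) * (-n2 + b2) + (0) * (-n2 + b2 - n3 + b3))) :
    (0 ≤ b1 - 1 ∧ 0 ≤ n2 - b2 - 1) ∨ (0 ≤ b1 - 1 ∧ 0 ≤ -n2 + b2 ∧ 0 ≤ n2 - b2 ∧ 0 ≤ -d1 - p0 - 1) := by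
  rcases hf with hf | ⟨hf0, hf⟩ | ⟨hf0, hf1, hf⟩
  · exact Or.inl (⟨by linarith only [hex], by linarith only [hf]⟩)
  · exact Or.inr (⟨by linarith only [hex], by linarith only [hf0], by linarith only [hf0], by linarith only [hf, ep0]⟩)
  · exact Or.inr (⟨by linarith only [hex], by linarith only [hf0], by linarith only [hf0], by linarith only [hf1, ep0]⟩)

theorem cvG_e2_V1_12 {a3 d1 n3 : ℤ}
    (hf : LexFail ((0) * (1) + (1) * (0) + (0) * (-n3 + a3))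
      ((1) * (1) + (d1) * (0) + (0) * (-n3 + a3))
      ((0) * (1) + (0) * (0) + (0) * (-n3 + a3))) :
    False := by
  rcases hf with hf | ⟨hf0, hf⟩ | ⟨hf0, hf1, hf⟩
  · exfalso; linarith only [hf]
  · exfalso; linarith only [hf]
  · exfalso; linarith only [hf1]

theorem cvG_e2_V1_22 {a3 d1 h n3 : ℤ}
    (hf : LexFail ((0) * (-h) + (1) * (1) + (0) * (-n3 + a3 + 1))
      ((1) * (-h) + (d1) * (1) + (0) * (-n3 + a3 + 1))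
      ((0) * (-h) + (0) * (1) + (0) * (-n3 + a3 + 1))) :
    False := by
  rcases hf with hf | ⟨hf0, hf⟩ | ⟨hf0, hf1, hf⟩
  · exfalso; linarith only [hf]
  · exfalso; linarith only [hf0]
  · exfalso; linarith only [hf0]

theorem cvG_e2_V1_33 {d1 h3 k p4 : ℤ}
    (ep4 : p4 = (d1) * (-k))
    (hf : LexFail ((0) * (-h3) + (1) * (-k) + (0) * (1))
      ((1) * (-h3) + (d1) * (-k) + (0) * (1))
      ((0) * (-h3) + (0) * (-k) + (0) * (1))) :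
    0 ≤ k - 1 ∨ (0 ≤ -k ∧ 0 ≤ k ∧ 0 ≤ h3 - p4) := by
  rcases hf with hf | ⟨hf0, hf⟩ | ⟨hf0, hf1, hf⟩
  · exact Or.inl (by linarith only [hf])
  · exact Or.inr (⟨by linarith only [hf0], by linarith only [hf0], by linarith only [hf, ep4]⟩)
  · exact Or.inr (⟨by linarith only [hf0], by linarith only [hf0], by linarith only [hf1, ep4]⟩)

theorem cvG_e2_V1_13 {d1 g p5 : ℤ}
    (ep5 : p5 = (d1) * (-g))
    (hf : LexFail ((0) * (1) + (1) * (-g) + (0) * (0))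
      ((1) * (1) + (d1) * (-g) + (0) * (0))
      ((0) * (1) + (0) * (-g) + (0) * (0))) :
    0 ≤ g - 1 ∨ (0 ≤ -g ∧ 0 ≤ g ∧ 0 ≤ -p5 - 1) := by
  rcases hf with hf | ⟨hf0, hf⟩ | ⟨hf0, hf1, hf⟩
  · exact Or.inl (by linarith only [hf])
  · exact Or.inr (⟨by linarith only [hf0], by linarith only [hf0], by linarith only [hf, ep5]⟩)
  · exact Or.inr (⟨by linarith only [hf0], by linarith only [hf0], by linarith only [hf1, ep5]⟩)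

theorem Gt_e2_V1 {n1 n2 n3 a1 a2 a3 b1 b2 b3 x y d1 h h3 k g p0 p4 p5 : ℤ}
    (B15 : 0 ≤ x + a1 + a2 - b1 - b2)
    (B16 : 0 ≤ -a1 - a2 + b1 + b2 - x)
    (B17 : 0 ≤ x - 1)
    (B18 : 0 ≤ y + a1 + a2 + a3 - b1 - b2 - b3)
    (B19 : 0 ≤ -a1 - a2 - a3 + b1 + b2 + b3 - y)
    (B20 : 0 ≤ y - 1)
    (B21 : 0 ≤ d1 - a1 + b1)
    (B22 : 0 ≤ a1 - b1 - d1)
    (B23 : 0 ≤ d1 - 1)
    (B24 : 0 ≤ x - 1)
    (B25 : 0 ≤ -x + 1)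
    (B26 : 0 ≤ y - 1)
    (B27 : 0 ≤ -y + 1)
    (B28 : 0 ≤ d1 - 2)
    (ep0 : p0 = (d1) * (-n2 + b2))
    (ep4 : p4 = (d1) * (-k))
    (ep5 : p5 = (d1) * (-g))
    (w1 : a1 - b1 = d1) (w2 : a1 + a2 - b1 - b2 = -1) (w3 : a1 + a2 + a3 - b1 - b2 - b3 = -1)
    (hno : ¬ ∃ u1 u2 u3 : ℤ, Good n1 n2 n3 a1 a2 a3 b1 b2 b3 u1 u2 u3)
    (hd : ∀ c1 c2 c3, LosC n1 n2 n3 a1 a2 a3 b1 b2 b3 c1 c2 c3 →
      ∃ v ∈ ([⟨0 ≤ b1 - 1, d1 + 1, -n2 + b2, -n2 + b2 - n3 + b3⟩, ⟨True, 1, 0, -n3 + a3⟩, ⟨True, -h, 1, -n3 + a3 + 1⟩, ⟨True, -h3, -k, 1⟩, ⟨True, 1, -g, 0⟩] : List LV), v.ex ∧ v.c1 ≤ c1 ∧ v.c2 ≤ c2 ∧ v.c3 ≤ c3) :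
    ((0 ≤ b1 - 1 ∧ 0 ≤ n2 - b2 - 1) ∨ (0 ≤ b1 - 1 ∧ 0 ≤ -n2 + b2 ∧ 0 ≤ n2 - b2 ∧ 0 ≤ -d1 - p0 - 1)) ∨ (0 ≤ k - 1 ∨ (0 ≤ -k ∧ 0 ≤ k ∧ 0 ≤ h3 - p4)) ∨ (0 ≤ g - 1 ∨ (0 ≤ -g ∧ 0 ≤ g ∧ 0 ≤ -p5 - 1)) := by
  obtain ⟨v, hv, hex, hf⟩ := failA' w1 w2 w3 hno _ hd (0) (1) (0) (1) (d1) (0) (0) (0) (0)
    ⟨le_refl 0, zero_le_one, le_refl 0⟩ ⟨zero_le_one, by linarith only [B15, B16, B17, B18, B19, B20, B21, B22, B23, B24, B25, B26, B27, B28], le_refl 0⟩ ⟨le_refl 0, le_refl 0, le_refl 0⟩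
    (Or.inl (by linarith only [B15, B16, B17, B18, B19, B20, B21, B22, B23, B24, B25, B26, B27, B28]))
  simp only [List.mem_cons, List.not_mem_nil, or_false] at hv
  rcases hv with rfl | rfl | rfl | rfl | rfl
  · exact Or.inl (cvG_e2_V1_11 ep0 hex hf)
  · exact (cvG_e2_V1_12 hf).elim
  · exact (cvG_e2_V1_22 hf).elim
  · exact Or.inr (Or.inl (cvG_e2_V1_33 ep4 hf))
  · exact Or.inr (Or.inr (cvG_e2_V1_13 ep5 hf))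

theorem cvG_V1_e2_11 {b1 b2 b3 d1 n2 n3 p0 : ℤ}
    (ep0 : p0 = (d1) * (-n2 + b2))
    (hex : 0 ≤ b1 - 1)
    (hf : LexFail ((1) * (d1 + 1) + (d1) * (-n2 + b2) + (0) * (-n2 + b2 - n3 + b3))
      ((0) * (d1 + 1) + (1) * (-n2 + b2) + (0) * (-n2 + b2 - n3 + b3))
      ((0) * (d1 + 1) + (0) * (-n2 + b2) + (0) * (-n2 + b2 - n3 + b3))) :
    (0 ≤ b1 - 1 ∧ 0 ≤ -d1 - p0 - 2) ∨ (0 ≤ b1 - 1 ∧ 0 ≤ d1 + p0 + 1 ∧ 0 ≤ -d1 - p0 - 1 ∧ 0 ≤ n2 - b2) := by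
  rcases hf with hf | ⟨hf0, hf⟩ | ⟨hf0, hf1, hf⟩
  · exact Or.inl (⟨by linarith only [hex], by linarith only [hf, ep0]⟩)
  · exact Or.inr (⟨by linarith only [hex], by linarith only [hf0, ep0], by linarith only [hf0, ep0], by linarith only [hf]⟩)
  · exact Or.inr (⟨by linarith only [hex], by linarith only [hf0, ep0], by linarith only [hf0, ep0], by linarith only [hf1]⟩)

theorem cvG_V1_e2_12 {a3 d1 n3 : ℤ}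
    (hf : LexFail ((1) * (1) + (d1) * (0) + (0) * (-n3 + a3))
      ((0) * (1) + (1) * (0) + (0) * (-n3 + a3))
      ((0) * (1) + (0) * (0) + (0) * (-n3 + a3))) :
    False := by
  rcases hf with hf | ⟨hf0, hf⟩ | ⟨hf0, hf1, hf⟩
  · exfalso; linarith only [hf]
  · exfalso; linarith only [hf0]
  · exfalso; linarith only [hf0]

theorem cvG_V1_e2_22 {a3 d1 h n3 : ℤ}
    (hf : LexFail ((1) * (-h) + (d1) * (1) + (0) * (-n3 + a3 + 1))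
      ((0) * (-h) + (1) * (1) + (0) * (-n3 + a3 + 1))
      ((0) * (-h) + (0) * (1) + (0) * (-n3 + a3 + 1))) :
    0 ≤ h - d1 - 1 := by
  rcases hf with hf | ⟨hf0, hf⟩ | ⟨hf0, hf1, hf⟩
  · exact by linarith only [hf]
  · exfalso; linarith only [hf]
  · exfalso; linarith only [hf1]

theorem cvG_V1_e2_33 {d1 h3 k p4 : ℤ}
    (ep4 : p4 = (d1) * (-k))
    (hf : LexFail ((1) * (-h3) + (d1) * (-k) + (0) * (1))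
      ((0) * (-h3) + (1) * (-k) + (0) * (1))
      ((0) * (-h3) + (0) * (-k) + (0) * (1))) :
    0 ≤ h3 - p4 - 1 ∨ (0 ≤ -h3 + p4 ∧ 0 ≤ h3 - p4 ∧ 0 ≤ k) := by
  rcases hf with hf | ⟨hf0, hf⟩ | ⟨hf0, hf1, hf⟩
  · exact Or.inl (by linarith only [hf, ep4])
  · exact Or.inr (⟨by linarith only [hf0, ep4], by linarith only [hf0, ep4], by linarith only [hf]⟩)
  · exact Or.inr (⟨by linarith only [hf0, ep4], by linarith only [hf0, ep4], by linarith only [hf1]⟩)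

theorem cvG_V1_e2_13 {d1 g p5 : ℤ}
    (ep5 : p5 = (d1) * (-g))
    (hf : LexFail ((1) * (1) + (d1) * (-g) + (0) * (0))
      ((0) * (1) + (1) * (-g) + (0) * (0))
      ((0) * (1) + (0) * (-g) + (0) * (0))) :
    0 ≤ -p5 - 2 ∨ (0 ≤ p5 + 1 ∧ 0 ≤ -p5 - 1 ∧ 0 ≤ g) := by
  rcases hf with hf | ⟨hf0, hf⟩ | ⟨hf0, hf1, hf⟩
  · exact Or.inl (by linarith only [hf, ep5])
  · exact Or.inr (⟨by linarith only [hf0, ep5], by linarith only [hf0, ep5], by linarith only [hf]⟩)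
  · exact Or.inr (⟨by linarith only [hf0, ep5], by linarith only [hf0, ep5], by linarith only [hf1]⟩)

theorem Gt_V1_e2 {n1 n2 n3 a1 a2 a3 b1 b2 b3 x y d1 h h3 k g p0 p4 p5 : ℤ}
    (B15 : 0 ≤ x + a1 + a2 - b1 - b2)
    (B16 : 0 ≤ -a1 - a2 + b1 + b2 - x)
    (B17 : 0 ≤ x - 1)
    (B18 : 0 ≤ y + a1 + a2 + a3 - b1 - b2 - b3)
    (B19 : 0 ≤ -a1 - a2 - a3 + b1 + b2 + b3 - y)
    (B20 : 0 ≤ y - 1)
    (B21 : 0 ≤ d1 - a1 + b1)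
    (B22 : 0 ≤ a1 - b1 - d1)
    (B23 : 0 ≤ d1 - 1)
    (B24 : 0 ≤ x - 1)
    (B25 : 0 ≤ -x + 1)
    (B26 : 0 ≤ y - 1)
    (B27 : 0 ≤ -y + 1)
    (B28 : 0 ≤ d1 - 2)
    (ep0 : p0 = (d1) * (-n2 + b2))
    (ep4 : p4 = (d1) * (-k))
    (ep5 : p5 = (d1) * (-g))
    (w1 : a1 - b1 = d1) (w2 : a1 + a2 - b1 - b2 = -1) (w3 : a1 + a2 + a3 - b1 - b2 - b3 = -1)
    (hno : ¬ ∃ u1 u2 u3 : ℤ, Good n1 n2 n3 a1 a2 a3 b1 b2 b3 u1 u2 u3)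
    (hd : ∀ c1 c2 c3, LosC n1 n2 n3 a1 a2 a3 b1 b2 b3 c1 c2 c3 →
      ∃ v ∈ ([⟨0 ≤ b1 - 1, d1 + 1, -n2 + b2, -n2 + b2 - n3 + b3⟩, ⟨True, 1, 0, -n3 + a3⟩, ⟨True, -h, 1, -n3 + a3 + 1⟩, ⟨True, -h3, -k, 1⟩, ⟨True, 1, -g, 0⟩] : List LV), v.ex ∧ v.c1 ≤ c1 ∧ v.c2 ≤ c2 ∧ v.c3 ≤ c3) :
    ((0 ≤ b1 - 1 ∧ 0 ≤ -d1 - p0 - 2) ∨ (0 ≤ b1 - 1 ∧ 0 ≤ d1 + p0 + 1 ∧ 0 ≤ -d1 - p0 - 1 ∧ 0 ≤ n2 - b2)) ∨ (0 ≤ h - d1 - 1) ∨ (0 ≤ h3 - p4 - 1 ∨ (0 ≤ -h3 + p4 ∧ 0 ≤ h3 - p4 ∧ 0 ≤ k)) ∨ (0 ≤ -p5 - 2 ∨ (0 ≤ p5 + 1 ∧ 0 ≤ -p5 - 1 ∧ 0 ≤ g)) := by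
  obtain ⟨v, hv, hex, hf⟩ := failA' w1 w2 w3 hno _ hd (1) (d1) (0) (0) (1) (0) (0) (0) (0)
    ⟨zero_le_one, by linarith only [B15, B16, B17, B18, B19, B20, B21, B22, B23, B24, B25, B26, B27, B28], le_refl 0⟩ ⟨le_refl 0, zero_le_one, le_refl 0⟩ ⟨le_refl 0, le_refl 0, le_refl 0⟩
    (Or.inr ⟨by ring, Or.inl (by linarith only [B15, B16, B17, B18, B19, B20, B21, B22, B23, B24, B25, B26, B27, B28])⟩)
  simp only [List.mem_cons, List.not_mem_nil, or_false] at hv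
  rcases hv with rfl | rfl | rfl | rfl | rfl
  · exact Or.inl (cvG_V1_e2_11 ep0 hex hf)
  · exact (cvG_V1_e2_12 hf).elim
  · exact Or.inr (Or.inl (cvG_V1_e2_22 hf))
  · exact Or.inr (Or.inr (Or.inl (cvG_V1_e2_33 ep4 hf)))
  · exact Or.inr (Or.inr (Or.inr (cvG_V1_e2_13 ep5 hf)))

theorem T0_11_12 {n1 n2 n3 a1 a2 a3 b1 b2 b3 d1 : ℤ}
    (H : NoTr n1 n2 n3 a1 a2 a3 b1 b2 b3)
    (w1 : a1 - b1 = d1) (w2 : a1 + a2 - b1 - b2 = -1) (w3 : a1 + a2 + a3 - b1 - b2 - b3 = -1)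
    (l11 : 0 ≤ b1 - 1 → LosC n1 n2 n3 a1 a2 a3 b1 b2 b3 (d1 + 1) (-n2 + b2) (-n2 + b2 - n3 + b3))
    (l12 : LosC n1 n2 n3 a1 a2 a3 b1 b2 b3 (1) (0) (-n3 + a3))
    : 0 ≤ -b1 ∨ 0 ≤ -d1 + 1 ∨ 0 ≤ -n2 + b2 + 1 ∨ 0 ≤ -n2 + b2 - 2 * n3 + b3 + a3 + 1 := by
  rcases le_or_gt (b1) 0 with hb0 | hb0
  · exact Or.inl (by linarith only [hb0])
  rcases H.t0 w1 w2 w3 (l11 (by linarith only [hb0])) l12 with hq | hq | hq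
  · exact Or.inr (Or.inl (by linarith only [hq]))
  · exact Or.inr (Or.inr (Or.inl (by linarith only [hq])))
  · exact Or.inr (Or.inr (Or.inr (by linarith only [hq])))

theorem T2_11_22 {n1 n2 n3 a1 a2 a3 b1 b2 b3 d1 h : ℤ}
    (H : NoTr n1 n2 n3 a1 a2 a3 b1 b2 b3)
    (l11 : 0 ≤ b1 - 1 → LosC n1 n2 n3 a1 a2 a3 b1 b2 b3 (d1 + 1) (-n2 + b2) (-n2 + b2 - n3 + b3))
    (l22 : LosC n1 n2 n3 a1 a2 a3 b1 b2 b3 (-h) (1) (-n3 + a3 + 1))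
    : 0 ≤ -b1 ∨ 0 ≤ d1 - h ∨ 0 ≤ -n2 + b2 ∨ 0 ≤ -n2 + b2 - 2 * n3 + b3 + a3 := by
  rcases le_or_gt (b1) 0 with hb0 | hb0
  · exact Or.inl (by linarith only [hb0])
  rcases H.t2 (l11 (by linarith only [hb0])) l22 with hq | hq | hq
  · exact Or.inr (Or.inl (by linarith only [hq]))
  · exact Or.inr (Or.inr (Or.inl (by linarith only [hq])))
  · exact Or.inr (Or.inr (Or.inr (by linarith only [hq])))

theorem T2_11_33 {n1 n2 n3 a1 a2 a3 b1 b2 b3 d1 h3 k : ℤ}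
    (H : NoTr n1 n2 n3 a1 a2 a3 b1 b2 b3)
    (l11 : 0 ≤ b1 - 1 → LosC n1 n2 n3 a1 a2 a3 b1 b2 b3 (d1 + 1) (-n2 + b2) (-n2 + b2 - n3 + b3))
    (l33 : LosC n1 n2 n3 a1 a2 a3 b1 b2 b3 (-h3) (-k) (1))
    : 0 ≤ -b1 ∨ 0 ≤ d1 - h3 ∨ 0 ≤ -n2 + b2 - k - 1 ∨ 0 ≤ -n2 + b2 - n3 + b3 := by
  rcases le_or_gt (b1) 0 with hb0 | hb0
  · exact Or.inl (by linarith only [hb0])
  rcases H.t2 (l11 (by linarith only [hb0])) l33 with hq | hq | hq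
  · exact Or.inr (Or.inl (by linarith only [hq]))
  · exact Or.inr (Or.inr (Or.inl (by linarith only [hq])))
  · exact Or.inr (Or.inr (Or.inr (by linarith only [hq])))

theorem T2_12_33 {n1 n2 n3 a1 a2 a3 b1 b2 b3 h3 k : ℤ}
    (H : NoTr n1 n2 n3 a1 a2 a3 b1 b2 b3)
    (l12 : LosC n1 n2 n3 a1 a2 a3 b1 b2 b3 (1) (0) (-n3 + a3))
    (l33 : LosC n1 n2 n3 a1 a2 a3 b1 b2 b3 (-h3) (-k) (1))
    : 0 ≤ -h3 ∨ 0 ≤ -k - 1 ∨ 0 ≤ -n3 + a3 := by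
  rcases H.t2 l12 l33 with hq | hq | hq
  · exact Or.inl (by linarith only [hq])
  · exact Or.inr (Or.inl (by linarith only [hq]))
  · exact Or.inr (Or.inr (by linarith only [hq]))

theorem T1_12_13 {n1 n2 n3 a1 a2 a3 b1 b2 b3 d1 g : ℤ}
    (H : NoTr n1 n2 n3 a1 a2 a3 b1 b2 b3)
    (w1 : a1 - b1 = d1) (w2 : a1 + a2 - b1 - b2 = -1) (w3 : a1 + a2 + a3 - b1 - b2 - b3 = -1)
    (l12 : LosC n1 n2 n3 a1 a2 a3 b1 b2 b3 (1) (0) (-n3 + a3))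
    (l13 : LosC n1 n2 n3 a1 a2 a3 b1 b2 b3 (1) (-g) (0))
    : 0 ≤ -d1 + 1 ∨ 0 ≤ -g ∨ 0 ≤ -n3 + a3 := by
  rcases H.t1 w1 w2 w3 l12 l13 with hq | hq | hq
  · exact Or.inl (by linarith only [hq])
  · exact Or.inr (Or.inl (by linarith only [hq]))
  · exact Or.inr (Or.inr (by linarith only [hq]))

theorem main {n1 n2 n3 a1 a2 a3 b1 b2 b3 x y d1 : ℤ}
    (B0 : 0 ≤ a1)
    (B1 : 0 ≤ a2)
    (B2 : 0 ≤ a3)
    (B3 : 0 ≤ b1)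
    (B4 : 0 ≤ b2)
    (B5 : 0 ≤ b3)
    (B6 : 0 ≤ n1 - a1)
    (B7 : 0 ≤ n2 - a2)
    (B8 : 0 ≤ n3 - a3)
    (B9 : 0 ≤ n1 - b1)
    (B10 : 0 ≤ n2 - b2)
    (B11 : 0 ≤ n3 - b3)
    (B12 : 0 ≤ n1 - 1)
    (B13 : 0 ≤ n2 - 1)
    (B14 : 0 ≤ n3 - 1)
    (B15 : 0 ≤ x + a1 + a2 - b1 - b2)
    (B16 : 0 ≤ -a1 - a2 + b1 + b2 - x)
    (B17 : 0 ≤ x - 1)
    (B18 : 0 ≤ y + a1 + a2 + a3 - b1 - b2 - b3)
    (B19 : 0 ≤ -a1 - a2 - a3 + b1 + b2 + b3 - y)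
    (B20 : 0 ≤ y - 1)
    (B21 : 0 ≤ d1 - a1 + b1)
    (B22 : 0 ≤ a1 - b1 - d1)
    (B23 : 0 ≤ d1 - 1)
    (B24 : 0 ≤ x - 1)
    (B25 : 0 ≤ -x + 1)
    (B26 : 0 ≤ y - 1)
    (B27 : 0 ≤ -y + 1)
    (B28 : 0 ≤ d1 - 2)
    (C_c1 : (0 ≤ a1 - 1 ∧ 0 ≤ n2 - a2 - 1) ∨ (0 ≤ b1 - 1 ∧ 0 ≤ n2 - b2 - 1))
    (C_c2 : (0 ≤ a2 - 1 ∧ 0 ≤ n3 - a3 - 1) ∨ (0 ≤ b2 - 1 ∧ 0 ≤ n3 - b3 - 1))
    (H : NoTr n1 n2 n3 a1 a2 a3 b1 b2 b3)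
    (hno : ¬ ∃ u1 u2 u3 : ℤ, Good n1 n2 n3 a1 a2 a3 b1 b2 b3 u1 u2 u3) : False := by
  have w1 : a1 - b1 = d1 := by linarith only [B15, B16, B17, B18, B19, B20, B21, B22, B23, B24, B25, B26, B27, B28]
  have w2 : a1 + a2 - b1 - b2 = -1 := by linarith only [B15, B16, B17, B18, B19, B20, B21, B22, B23, B24, B25, B26, B27, B28]
  have w3 : a1 + a2 + a3 - b1 - b2 - b3 = -1 := by linarith only [B15, B16, B17, B18, B19, B20, B21, B22, B23, B24, B25, B26, B27, B28]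
  obtain ⟨h, rh1, rh2, rh3⟩ := min_facts (n1 - a1) (a2 - 1)
  have B29 : 0 ≤ n1 - a1 - h := by linarith only [rh1]
  have B30 : 0 ≤ a2 - h - 1 := by linarith only [rh2]
  have C_Dh : 0 ≤ h - n1 + a1 ∨ 0 ≤ h - a2 + 1 := rh3.imp (fun hq => by linarith only [hq]) (fun hq => by linarith only [hq])
  clear rh1 rh2 rh3
  obtain ⟨h3, rh31, rh32, rh33⟩ := min_facts (n1 - a1) (a2 + a3 - 1)
  have B31 : 0 ≤ n1 - a1 - h3 := by linarith only [rh31]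
  have B32 : 0 ≤ a2 + a3 - h3 - 1 := by linarith only [rh32]
  have C_Dh3 : 0 ≤ h3 - n1 + a1 ∨ 0 ≤ h3 - a2 - a3 + 1 := rh33.imp (fun hq => by linarith only [hq]) (fun hq => by linarith only [hq])
  clear rh31 rh32 rh33
  obtain ⟨k, rk1, rk2, rk3⟩ := min_facts (n1 - a1 + n2 - a2) (a3 - 1)
  have B33 : 0 ≤ n1 - a1 + n2 - a2 - k := by linarith only [rk1]
  have B34 : 0 ≤ a3 - k - 1 := by linarith only [rk2]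
  have C_Dk : 0 ≤ k - n1 + a1 - n2 + a2 ∨ 0 ≤ k - a3 + 1 := rk3.imp (fun hq => by linarith only [hq]) (fun hq => by linarith only [hq])
  clear rk1 rk2 rk3
  obtain ⟨g, rg1, rg2, rg3⟩ := min_facts (n2 - a2 - 1) (a3)
  have B35 : 0 ≤ n2 - a2 - g - 1 := by linarith only [rg1]
  have B36 : 0 ≤ a3 - g := by linarith only [rg2]
  have C_Dg : 0 ≤ g - n2 + a2 + 1 ∨ 0 ≤ g - a3 := rg3.imp (fun hq => by linarith only [hq]) (fun hq => by linarith only [hq])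
  clear rg1 rg2 rg3
  have l11 : 0 ≤ b1 - 1 → LosC n1 n2 n3 a1 a2 a3 b1 b2 b3 (d1 + 1) (-n2 + b2) (-n2 + b2 - n3 + b3) := fun hq => los11 B0 B1 B2 B3 B4 B5 B6 B7 B8 B9 B10 B11 B12 B13 B14 B15 B16 B17 B18 B19 B20 B21 B22 B23 B24 B25 B26 B27 B28 hq
  have l12 : LosC n1 n2 n3 a1 a2 a3 b1 b2 b3 (1) (0) (-n3 + a3) := los12 B0 B1 B2 B3 B4 B5 B6 B7 B8 B9 B10 B11 B12 B13 B14 B15 B16 B17 B18 B19 B20 B21 B22 B23 B24 B25 B26 B27 B28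
  have l22 : LosC n1 n2 n3 a1 a2 a3 b1 b2 b3 (-h) (1) (-n3 + a3 + 1) := los22 B0 B1 B2 B3 B4 B5 B6 B7 B8 B9 B10 B11 B12 B13 B14 B15 B16 B17 B18 B19 B20 B21 B22 B23 B24 B25 B26 B27 B28 B29 B30 C_Dh
  have l33 : LosC n1 n2 n3 a1 a2 a3 b1 b2 b3 (-h3) (-k) (1) := los33 B0 B1 B2 B3 B4 B5 B6 B7 B8 B9 B10 B11 B12 B13 B14 B15 B16 B17 B18 B19 B20 B21 B22 B23 B24 B25 B26 B27 B28 B31 B32 B33 B34 C_Dh3 C_Dk
  have l13 : LosC n1 n2 n3 a1 a2 a3 b1 b2 b3 (1) (-g) (0) := los13 B0 B1 B2 B3 B4 B5 B6 B7 B8 B9 B10 B11 B12 B13 B14 B15 B16 B17 B18 B19 B20 B21 B22 B23 B24 B25 B26 B27 B28 B35 B36 C_Dg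
  have hd := hd B0 B1 B2 B3 B4 B5 B6 B7 B8 B9 B10 B11 B12 B13 B14 B15 B16 B17 B18 B19 B20 B21 B22 B23 B24 B25 B26 B27 B28 B29 B30 B31 B32 B33 B34 B35 B36 C_Dh C_Dh3 C_Dk C_Dg
  obtain ⟨p0, ep0⟩ : ∃ p, p = (d1) * (-n2 + b2) := ⟨_, rfl⟩
  have C_Dp0_a : (0 ≤ n2 - b2 - 2 ∧ 0 ≤ -2 * d1 - p0) ∨ (0 ≤ -n2 + b2 + 1 ∧ 0 ≤ p0 + d1) :=
    (prod_split' (-2) ep0 (by linarith only [B15, B16, B17, B18, B19, B20, B21, B22, B23, B24, B25, B26, B27, B28])).imp (fun hq => ⟨by linarith only [hq.1], by linarith only [hq.2]⟩)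
      (fun hq => ⟨by linarith only [hq.1], by linarith only [hq.2]⟩)
  have C_Dp0_b : (0 ≤ n2 - b2 - 1 ∧ 0 ≤ -d1 - p0) ∨ (0 ≤ -n2 + b2 ∧ 0 ≤ p0) :=
    (prod_split' (-1) ep0 (by linarith only [B15, B16, B17, B18, B19, B20, B21, B22, B23, B24, B25, B26, B27, B28])).imp (fun hq => ⟨by linarith only [hq.1], by linarith only [hq.2]⟩)
      (fun hq => ⟨by linarith only [hq.1], by linarith only [hq.2]⟩)
  obtain ⟨p1, ep1⟩ : ∃ p, p = (d1) * (-n2 + b2 - n3 + b3) := ⟨_, rfl⟩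
  have C_Dp1_a : (0 ≤ n2 - b2 + n3 - b3 - 2 ∧ 0 ≤ -2 * d1 - p1) ∨ (0 ≤ -n2 + b2 - n3 + b3 + 1 ∧ 0 ≤ p1 + d1) :=
    (prod_split' (-2) ep1 (by linarith only [B15, B16, B17, B18, B19, B20, B21, B22, B23, B24, B25, B26, B27, B28])).imp (fun hq => ⟨by linarith only [hq.1], by linarith only [hq.2]⟩)
      (fun hq => ⟨by linarith only [hq.1], by linarith only [hq.2]⟩)
  have C_Dp1_b : (0 ≤ n2 - b2 + n3 - b3 - 1 ∧ 0 ≤ -d1 - p1) ∨ (0 ≤ -n2 + b2 - n3 + b3 ∧ 0 ≤ p1) :=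
    (prod_split' (-1) ep1 (by linarith only [B15, B16, B17, B18, B19, B20, B21, B22, B23, B24, B25, B26, B27, B28])).imp (fun hq => ⟨by linarith only [hq.1], by linarith only [hq.2]⟩)
      (fun hq => ⟨by linarith only [hq.1], by linarith only [hq.2]⟩)
  obtain ⟨p2, ep2⟩ : ∃ p, p = (d1) * (-n3 + a3) := ⟨_, rfl⟩
  have C_Dp2_b : (0 ≤ n3 - a3 - 1 ∧ 0 ≤ -d1 - p2) ∨ (0 ≤ -n3 + a3 ∧ 0 ≤ p2) :=
    (prod_split' (-1) ep2 (by linarith only [B15, B16, B17, B18, B19, B20, B21, B22, B23, B24, B25, B26, B27, B28])).imp (fun hq => ⟨by linarith only [hq.1], by linarith only [hq.2]⟩)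
      (fun hq => ⟨by linarith only [hq.1], by linarith only [hq.2]⟩)
  obtain ⟨p3, ep3⟩ : ∃ p, p = (d1) * (-n3 + a3 + 1) := ⟨_, rfl⟩
  have C_Dp3_c : (0 ≤ n3 - a3 - 1 ∧ 0 ≤ -p3) ∨ (0 ≤ -n3 + a3 ∧ 0 ≤ p3 - d1) :=
    (prod_split' (0) ep3 (by linarith only [B15, B16, B17, B18, B19, B20, B21, B22, B23, B24, B25, B26, B27, B28])).imp (fun hq => ⟨by linarith only [hq.1], by linarith only [hq.2]⟩)
      (fun hq => ⟨by linarith only [hq.1], by linarith only [hq.2]⟩)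
  obtain ⟨p4, ep4⟩ : ∃ p, p = (d1) * (-k) := ⟨_, rfl⟩
  have C_Dp4_c : (0 ≤ k ∧ 0 ≤ -p4) ∨ (0 ≤ -k - 1 ∧ 0 ≤ p4 - d1) :=
    (prod_split' (0) ep4 (by linarith only [B15, B16, B17, B18, B19, B20, B21, B22, B23, B24, B25, B26, B27, B28])).imp (fun hq => ⟨by linarith only [hq.1], by linarith only [hq.2]⟩)
      (fun hq => ⟨by linarith only [hq.1], by linarith only [hq.2]⟩)
  have C_Dp4_d : (0 ≤ k + 1 ∧ 0 ≤ d1 - p4) ∨ (0 ≤ -k - 2 ∧ 0 ≤ p4 - 2 * d1) :=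
    (prod_split' (1) ep4 (by linarith only [B15, B16, B17, B18, B19, B20, B21, B22, B23, B24, B25, B26, B27, B28])).imp (fun hq => ⟨by linarith only [hq.1], by linarith only [hq.2]⟩)
      (fun hq => ⟨by linarith only [hq.1], by linarith only [hq.2]⟩)
  obtain ⟨p5, ep5⟩ : ∃ p, p = (d1) * (-g) := ⟨_, rfl⟩
  have C_Dp5_b : (0 ≤ g - 1 ∧ 0 ≤ -d1 - p5) ∨ (0 ≤ -g ∧ 0 ≤ p5) :=
    (prod_split' (-1) ep5 (by linarith only [B15, B16, B17, B18, B19, B20, B21, B22, B23, B24, B25, B26, B27, B28])).imp (fun hq => ⟨by linarith only [hq.1], by linarith only [hq.2]⟩)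
      (fun hq => ⟨by linarith only [hq.1], by linarith only [hq.2]⟩)
  obtain ⟨p6, ep6⟩ : ∃ p, p = (d1) * (-n2 + b2 + 1) := ⟨_, rfl⟩
  have C_Dp6_c : (0 ≤ n2 - b2 - 1 ∧ 0 ≤ -p6) ∨ (0 ≤ -n2 + b2 ∧ 0 ≤ p6 - d1) :=
    (prod_split' (0) ep6 (by linarith only [B15, B16, B17, B18, B19, B20, B21, B22, B23, B24, B25, B26, B27, B28])).imp (fun hq => ⟨by linarith only [hq.1], by linarith only [hq.2]⟩)
      (fun hq => ⟨by linarith only [hq.1], by linarith only [hq.2]⟩)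
  obtain ⟨p7, ep7⟩ : ∃ p, p = (d1) * (-n2 + b2 - n3 + b3 + 1) := ⟨_, rfl⟩
  obtain ⟨p8, ep8⟩ : ∃ p, p = (d1) * (-n3 + a3 + 2) := ⟨_, rfl⟩
  have C_Dp8_d : (0 ≤ n3 - a3 - 1 ∧ 0 ≤ d1 - p8) ∨ (0 ≤ -n3 + a3 ∧ 0 ≤ p8 - 2 * d1) :=
    (prod_split' (1) ep8 (by linarith only [B15, B16, B17, B18, B19, B20, B21, B22, B23, B24, B25, B26, B27, B28])).imp (fun hq => ⟨by linarith only [hq.1], by linarith only [hq.2]⟩)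
      (fun hq => ⟨by linarith only [hq.1], by linarith only [hq.2]⟩)
  obtain ⟨p9, ep9⟩ : ∃ p, p = (d1) * (-k + 1) := ⟨_, rfl⟩
  have C_Dp9_c : (0 ≤ k - 1 ∧ 0 ≤ -p9) ∨ (0 ≤ -k ∧ 0 ≤ p9 - d1) :=
    (prod_split' (0) ep9 (by linarith only [B15, B16, B17, B18, B19, B20, B21, B22, B23, B24, B25, B26, B27, B28])).imp (fun hq => ⟨by linarith only [hq.1], by linarith only [hq.2]⟩)
      (fun hq => ⟨by linarith only [hq.1], by linarith only [hq.2]⟩)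
  have C_Dp9_d : (0 ≤ k ∧ 0 ≤ d1 - p9) ∨ (0 ≤ -k - 1 ∧ 0 ≤ p9 - 2 * d1) :=
    (prod_split' (1) ep9 (by linarith only [B15, B16, B17, B18, B19, B20, B21, B22, B23, B24, B25, B26, B27, B28])).imp (fun hq => ⟨by linarith only [hq.1], by linarith only [hq.2]⟩)
      (fun hq => ⟨by linarith only [hq.1], by linarith only [hq.2]⟩)
  obtain ⟨p10, ep10⟩ : ∃ p, p = (d1) * (-g + 1) := ⟨_, rfl⟩
  have C_Dp10_c : (0 ≤ g - 1 ∧ 0 ≤ -p10) ∨ (0 ≤ -g ∧ 0 ≤ p10 - d1) :=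
    (prod_split' (0) ep10 (by linarith only [B15, B16, B17, B18, B19, B20, B21, B22, B23, B24, B25, B26, B27, B28])).imp (fun hq => ⟨by linarith only [hq.1], by linarith only [hq.2]⟩)
      (fun hq => ⟨by linarith only [hq.1], by linarith only [hq.2]⟩)
  have FA := FAt B15 B16 B17 B18 B19 B20 B21 B22 B23 B24 B25 B26 B27 B28 ep0 ep1 ep2 ep3 ep4 ep5 w1 w2 w3 hno hd
  have FB := FBt B15 B16 B17 B18 B19 B20 B21 B22 B23 B24 B25 B26 B27 B28 ep0 ep1 ep2 ep3 ep4 ep5 w1 w2 w3 hno hd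
  have G_e2_V1 := Gt_e2_V1 B15 B16 B17 B18 B19 B20 B21 B22 B23 B24 B25 B26 B27 B28 ep0 ep4 ep5 w1 w2 w3 hno hd
  have G_V1_e2 := Gt_V1_e2 B15 B16 B17 B18 B19 B20 B21 B22 B23 B24 B25 B26 B27 B28 ep0 ep4 ep5 w1 w2 w3 hno hd
  have t0_11_12 := T0_11_12 H w1 w2 w3 l11 l12
  have t2_11_22 := T2_11_22 H l11 l22
  have t2_11_33 := T2_11_33 H l11 l33
  have t2_12_33 := T2_12_33 H l12 l33
  have t1_12_13 := T1_12_13 H w1 w2 w3 l12 l13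
  rcases FA with ⟨f0_0, f0_1, f0_2⟩ | ⟨f0_0, f0_1⟩ | ⟨f0_0, f0_1⟩ | ⟨f0_0, f0_1⟩
  · rcases FB with ⟨f1_0, f1_1, f1_2⟩ | ⟨f1_0, f1_1⟩ | ⟨f1_0, f1_1⟩ | ⟨f1_0, f1_1⟩
    · exact g0 B8 B28 f0_0 f0_1 f1_1 C_Dp0_a C_Dp1_a t0_11_12
    · exact g1 B10 B16 B17 B18 B27 B28 f0_0 f0_1 f1_1 C_Dp0_a C_Dp2_b t0_11_12
    · exact g2 B8 B11 B28 f0_0 f0_1 C_Dp0_a t0_11_12
    · exact g3 B8 B11 B28 f0_0 f0_1 C_Dp0_a t0_11_12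
  · rcases FB with ⟨f1_0, f1_1, f1_2⟩ | ⟨f1_0, f1_1⟩ | ⟨f1_0, f1_1⟩ | ⟨f1_0, f1_1⟩
    · exact g4 B2 B8 B10 B15 B16 B17 B19 B20 B22 B25 B28 B29 B30 B34 B36 f0_0 f1_0 f1_1 C_Dh3 C_Dk C_Dp0_a C_Dp1_a C_Dp4_c C_Dp4_d C_Dp5_b C_Dp8_d C_Dp9_c C_Dp9_d C_Dp10_c t0_11_12 t2_11_33 t2_12_33 G_V1_e2 G_e2_V1
    · exact g5 B10 B11 B16 B17 B18 B22 B27 B28 B29 B30 B31 B32 B34 B36 f0_0 f1_1 C_Dh C_Dh3 C_Dk C_Dg C_Dp0_a C_Dp1_a C_Dp2_b C_Dp4_c C_Dp5_b C_Dp9_c C_Dp9_d t2_12_33 t0_11_12 t2_11_22 G_e2_V1 G_V1_e2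
    · exact g6 B10 B15 B16 B17 B18 B19 B20 B22 B25 B27 B28 B29 B30 B31 B32 B34 B36 f0_0 C_c2 C_Dh C_Dh3 C_Dk C_Dg C_Dp0_a C_Dp0_b C_Dp1_a C_Dp4_c C_Dp5_b C_Dp6_c C_Dp8_d C_Dp9_c C_Dp10_c t2_12_33 t0_11_12 t2_11_22 G_e2_V1 G_V1_e2
    · exact g7 B10 B15 B16 B17 B18 B19 B20 B22 B25 B27 B28 B29 B31 B32 B36 f0_0 f1_0 C_c2 C_Dh C_Dk C_Dp0_a C_Dp1_b C_Dp4_c C_Dp5_b C_Dp6_c C_Dp8_d C_Dp10_c t2_12_33 t0_11_12 t2_11_22 G_e2_V1 G_V1_e2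
  · rcases FB with ⟨f1_0, f1_1, f1_2⟩ | ⟨f1_0, f1_1⟩ | ⟨f1_0, f1_1⟩ | ⟨f1_0, f1_1⟩
    · exact g8 B8 B10 B15 B16 B17 B19 B20 B22 B25 B28 B31 B32 B34 f1_0 f1_1 C_Dh C_Dg C_Dp0_a C_Dp1_a C_Dp3_c C_Dp4_c C_Dp5_b t1_12_13 t0_11_12 t2_11_22 G_V1_e2 G_e2_V1
    · exact g9 B10 B16 B17 B18 B22 B27 B28 B31 B32 B34 f1_1 C_Dh C_Dg C_Dp0_a C_Dp1_b C_Dp2_b C_Dp4_c C_Dp5_b C_Dp6_c C_Dp9_d t1_12_13 t0_11_12 t2_11_22 G_e2_V1 G_V1_e2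
    · exact g10 B10 B14 B15 B16 B17 B18 B19 B20 B22 B25 B27 B28 B31 B32 B34 C_c2 C_Dh C_Dg C_Dp0_a C_Dp1_b C_Dp3_c C_Dp4_c C_Dp5_b C_Dp6_c C_Dp9_d t1_12_13 t0_11_12 t2_11_22 G_e2_V1 G_V1_e2
    · exact g11 B10 B15 B16 B17 B18 B19 B20 B22 B25 B27 B28 B31 B32 B36 f1_0 C_c2 C_Dh C_Dk C_Dp0_a C_Dp1_b C_Dp4_c C_Dp5_b C_Dp6_c C_Dp8_d C_Dp10_c t2_12_33 t0_11_12 t2_11_22 G_e2_V1 G_V1_e2
  · rcases FB with ⟨f1_0, f1_1, f1_2⟩ | ⟨f1_0, f1_1⟩ | ⟨f1_0, f1_1⟩ | ⟨f1_0, f1_1⟩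
    · exact g12 B15 B19 B20 B25 B28 f0_1 C_c2 C_Dp5_b t1_12_13
    · exact g13 B15 B19 B20 B25 B28 f0_1 C_c2 C_Dp5_b t1_12_13
    · exact g14 B15 B19 B20 B25 B28 f0_1 C_c2 C_Dp5_b t1_12_13
    · exact g15 B15 B19 B20 B25 B28 B31 B35 B36 f0_1 f1_0 C_c2 C_Dk C_Dp5_b C_Dp9_c t2_12_33

end WG3.IIN
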