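import Pool.Agent.Work.MP_5465ec_co.Core

set_option linter.all false

namespace WG3.IIP

theorem g0 {a1 a2 a3 b1 b2 b3 d1 g h h3 k n1 n2 n3 p0 p1 p2 p3 p4 p5 p6 p7 x y : ℤ}
    (B1 : 0 ≤ a2)
    (B2 : 0 ≤ a3)
    (B6 : 0 ≤ n1 - a1)
    (B15 : 0 ≤ x + a1 + a2 - b1 - b2)
    (B16 : 0 ≤ -a1 - a2 + b1 + b2 - x)
    (B17 : 0 ≤ x - 1)
    (B18 : 0 ≤ y + a1 + a2 + a3 - b1 - b2 - b3)
    (B19 : 0 ≤ -a1 - a2 - a3 + b1 + b2 + b3 - y)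
    (B20 : 0 ≤ y - 1)
    (B22 : 0 ≤ a1 - b1 - d1)
    (B23 : 0 ≤ d1 - 1)
    (B26 : 0 ≤ n1 - a1 - h)
    (B27 : 0 ≤ a2 - h - 1)
    (B28 : 0 ≤ n1 - a1 - h3)
    (B29 : 0 ≤ a2 + a3 - h3 - 1)
    (B31 : 0 ≤ a3 - k - 1)
    (B32 : 0 ≤ n2 - a2 - g - 1)
    (B33 : 0 ≤ a3 + y - g - 1)
    (B34 : 0 ≤ b1 - 1)
    (B35 : 0 ≤ -x + n2 - b2 - 1)
    (B37 : 0 ≤ -y + n2 - b2 + n3 - b3 - 1)
    (D1 : (0 ≤ a2 - 1 ∧ 0 ≤ n3 - a3 - 1) ∨ (0 ≤ b2 - 1 ∧ 0 ≤ n3 - b3 - 1))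
    (D2 : 0 ≤ h - n1 + a1 ∨ 0 ≤ h - a2 + 1)
    (D3 : 0 ≤ h3 - n1 + a1 ∨ 0 ≤ h3 - a2 - a3 + 1)
    (D4 : 0 ≤ k - n1 + a1 - n2 + a2 ∨ 0 ≤ k - a3 + 1)
    (D5 : 0 ≤ g - n2 + a2 + 1 ∨ 0 ≤ g - a3 - y + 1)
    (D7 : (0 ≤ h - 1 ∧ 0 ≤ -x - p0) ∨ (0 ≤ -h ∧ 0 ≤ p0))
    (D11 : (0 ≤ h - 1 ∧ 0 ≤ -y - p1) ∨ (0 ≤ -h ∧ 0 ≤ p1))
    (D12 : (0 ≤ h ∧ 0 ≤ -p1) ∨ (0 ≤ -h - 1 ∧ 0 ≤ p1 - y))
    (D15 : (0 ≤ h3 - 1 ∧ 0 ≤ -x - p2) ∨ (0 ≤ -h3 ∧ 0 ≤ p2))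
    (D19 : (0 ≤ h3 - 1 ∧ 0 ≤ -y - p3) ∨ (0 ≤ -h3 ∧ 0 ≤ p3))
    (D23 : (0 ≤ h ∧ 0 ≤ -x - p4) ∨ (0 ≤ -h - 1 ∧ 0 ≤ p4))
    (D27 : (0 ≤ h ∧ 0 ≤ -y - p5) ∨ (0 ≤ -h - 1 ∧ 0 ≤ p5))
    (D31 : (0 ≤ h3 ∧ 0 ≤ -x - p6) ∨ (0 ≤ -h3 - 1 ∧ 0 ≤ p6))
    (D34 : (0 ≤ h3 - 1 ∧ 0 ≤ -2 * y - p7) ∨ (0 ≤ -h3 ∧ 0 ≤ p7 + y))
    (D35 : (0 ≤ h3 ∧ 0 ≤ -y - p7) ∨ (0 ≤ -h3 - 1 ∧ 0 ≤ p7))
    (D40 : 0 ≤ -b1 ∨ 0 ≤ -h3 - 1 ∨ 0 ≤ -n2 + b2 - k + x ∨ 0 ≤ -n2 + b2 - n3 + b3 + y + 1)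
    (D41 : 0 ≤ -b1 ∨ 0 ≤ -h - 1 ∨ 0 ≤ -n2 + b2 + x + 1 ∨ 0 ≤ -n2 + b2 - 2 * n3 + b3 + a3 + y + 1)
    (D42 : 0 ≤ -b1 ∨ 0 ≤ -h3 ∨ 0 ≤ -n2 + b2 - k ∨ 0 ≤ -n2 + b2 - n3 + b3 + 1)
    (D43 : 0 ≤ -g + x ∨ 0 ≤ -x - n3 + a3 + y + 1)
    (D44 : 0 ≤ -h - 1 ∨ 0 ≤ -g + x ∨ 0 ≤ -n3 + a3 + 1)
    (D45 : (0 ≤ h ∨ (0 ≤ -h - 1 ∧ 0 ≤ h + 1 ∧ 0 ≤ -p4 - x - 2) ∨ (0 ≤ -h - 1 ∧ 0 ≤ h + 1 ∧ 0 ≤ p4 + x + 1 ∧ 0 ≤ -p4 - x - 1 ∧ 0 ≤ -p5 + n3 - a3 - y - 1)) ∨ (0 ≤ h3 ∨ (0 ≤ -h3 - 1 ∧ 0 ≤ h3 + 1 ∧ 0 ≤ -p6 + k - x - 1) ∨ (0 ≤ -h3 - 1 ∧ 0 ≤ h3 + 1 ∧ 0 ≤ p6 - k + x ∧ 0 ≤ -p6 + k - x ∧ 0 ≤ -p7 - y - 1)) ∨ (0 ≤ g - x - 1))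
    (D46 : ((0 ≤ b1 - 1 ∧ 0 ≤ -x + n2 - b2 - 2)) ∨ (0 ≤ -p0 - 2 ∨ (0 ≤ p0 + 1 ∧ 0 ≤ -p0 - 1 ∧ 0 ≤ h) ∨ (0 ≤ p0 + 1 ∧ 0 ≤ -p0 - 1 ∧ 0 ≤ -h - 1 ∧ 0 ≤ h + 1 ∧ 0 ≤ -p5 + n3 - a3 - y - 1)) ∨ (0 ≤ -p2 + k - 1 ∨ (0 ≤ p2 - k ∧ 0 ≤ -p2 + k ∧ 0 ≤ h3) ∨ (0 ≤ p2 - k ∧ 0 ≤ -p2 + k ∧ 0 ≤ -h3 - 1 ∧ 0 ≤ h3 + 1 ∧ 0 ≤ -p7 - y - 1)) ∨ (0 ≤ -x + g - 1))
    (D47 : ((0 ≤ b1 - 1 ∧ 0 ≤ -y + n2 - b2 + n3 - b3 - 2)) ∨ (0 ≤ -y + x + n3 - a3 - 2) ∨ (0 ≤ -p1 + n3 - a3 - 2 ∨ (0 ≤ p1 - n3 + a3 + 1 ∧ 0 ≤ -p1 + n3 - a3 - 1 ∧ 0 ≤ h) ∨ (0 ≤ p1 - n3 + a3 + 1 ∧ 0 ≤ -p1 + n3 - a3 - 1 ∧ 0 ≤ -h - 1 ∧ 0 ≤ h + 1 ∧ 0 ≤ -p4 - x - 1)) ∨ (0 ≤ -p3 - 2 ∨ (0 ≤ p3 + 1 ∧ 0 ≤ -p3 - 1 ∧ 0 ≤ h3) ∨ (0 ≤ p3 + 1 ∧ 0 ≤ -p3 - 1 ∧ 0 ≤ -h3 - 1 ∧ 0 ≤ h3 + 1 ∧ 0 ≤ -p6 + k - x)))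
    (D48 : (0 ≤ x + n3 - a3 - y - 2) ∨ (0 ≤ h ∨ (0 ≤ -h - 1 ∧ 0 ≤ h + 1 ∧ 0 ≤ -p5 + n3 - a3 - y - 2) ∨ (0 ≤ -h - 1 ∧ 0 ≤ h + 1 ∧ 0 ≤ p5 - n3 + a3 + y + 1 ∧ 0 ≤ -p5 + n3 - a3 - y - 1 ∧ 0 ≤ -p4 - x - 1)) ∨ (0 ≤ h3 ∨ (0 ≤ -h3 - 1 ∧ 0 ≤ h3 + 1 ∧ 0 ≤ -p7 - y - 2) ∨ (0 ≤ -h3 - 1 ∧ 0 ≤ h3 + 1 ∧ 0 ≤ p7 + y + 1 ∧ 0 ≤ -p7 - y - 1 ∧ 0 ≤ -p6 + k - x)))
    (D49 : 0 ≤ -n3 + b3 ∨ 0 ≤ n3 - b3 - 1)
    (D50 : 0 ≤ -n2 + b2 - n3 + b3 + 2 ∨ 0 ≤ n2 - b2 + n3 - b3 - 3) : False := by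
  have E1 := D1
  have E2 := D2
  have E3 := D3
  have E4 := D4
  have E5 := D5
  have E7 := D7
  have E11 := D11
  have E12 := D12
  have E15 := D15
  have E19 := D19
  have E23 := D23
  have E27 := D27
  have E31 := D31
  have E34 := D34
  have E35 := D35
  have E40 : 0 ≤ -h3 - 1 ∨ 0 ≤ -n2 + b2 - k + x ∨ 0 ≤ -n2 + b2 - n3 + b3 + y + 1 := by
    rcases D40 with H40 | H40 | H40 | H40
    · linarith only [B34, H40]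
    · exact Or.inl H40
    · exact Or.inr (Or.inl H40)
    · exact Or.inr (Or.inr H40)
  have E41 : 0 ≤ -h - 1 ∨ 0 ≤ -n2 + b2 + x + 1 ∨ 0 ≤ -n2 + b2 - 2 * n3 + b3 + a3 + y + 1 := by
    rcases D41 with H41 | H41 | H41 | H41
    · linarith only [B34, H41]
    · exact Or.inl H41
    · exact Or.inr (Or.inl H41)
    · exact Or.inr (Or.inr H41)
  have E42 : 0 ≤ -h3 ∨ 0 ≤ -n2 + b2 - k := by
    rcases D42 with H42 | H42 | H42 | H42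
    · linarith only [B34, H42]
    · exact Or.inl H42
    · exact Or.inr H42
    · linarith only [H42, B20, B37]
  have E43 := D43
  have E44 := D44
  have E45 : 0 ≤ h ∨ (0 ≤ -h - 1 ∧ 0 ≤ h + 1 ∧ 0 ≤ -p4 - x - 2) ∨ (0 ≤ -h - 1 ∧ 0 ≤ h + 1 ∧ 0 ≤ p4 + x + 1 ∧ 0 ≤ -p4 - x - 1 ∧ 0 ≤ -p5 + n3 - a3 - y - 1) ∨ 0 ≤ h3 ∨ (0 ≤ -h3 - 1 ∧ 0 ≤ h3 + 1 ∧ 0 ≤ -p6 + k - x - 1) ∨ (0 ≤ -h3 - 1 ∧ 0 ≤ h3 + 1 ∧ 0 ≤ p6 - k + x ∧ 0 ≤ -p6 + k - x ∧ 0 ≤ -p7 - y - 1) ∨ 0 ≤ g - x - 1 := by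
    rcases D45 with (H45 | H45 | H45) | (H45 | H45 | H45) | H45
    · exact Or.inl H45
    · exact Or.inr (Or.inl H45)
    · exact Or.inr (Or.inr (Or.inl H45))
    · exact Or.inr (Or.inr (Or.inr (Or.inl H45)))
    · exact Or.inr (Or.inr (Or.inr (Or.inr (Or.inl H45))))
    · exact Or.inr (Or.inr (Or.inr (Or.inr (Or.inr (Or.inl H45)))))
    · exact Or.inr (Or.inr (Or.inr (Or.inr (Or.inr (Or.inr H45)))))
  have E46 : (0 ≤ b1 - 1 ∧ 0 ≤ -x + n2 - b2 - 2) ∨ 0 ≤ -p0 - 2 ∨ (0 ≤ p0 + 1 ∧ 0 ≤ -p0 - 1 ∧ 0 ≤ h) ∨ (0 ≤ p0 + 1 ∧ 0 ≤ -p0 - 1 ∧ 0 ≤ -h - 1 ∧ 0 ≤ h + 1 ∧ 0 ≤ -p5 + n3 - a3 - y - 1) ∨ 0 ≤ -p2 + k - 1 ∨ (0 ≤ p2 - k ∧ 0 ≤ -p2 + k ∧ 0 ≤ h3) ∨ (0 ≤ p2 - k ∧ 0 ≤ -p2 + k ∧ 0 ≤ -h3 - 1 ∧ 0 ≤ h3 + 1 ∧ 0 ≤ -p7 - y - 1) ∨ 0 ≤ -x + g - 1 := by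
    rcases D46 with H46 | (H46 | H46 | H46) | (H46 | H46 | H46) | H46
    · exact Or.inl H46
    · exact Or.inr (Or.inl H46)
    · exact Or.inr (Or.inr (Or.inl H46))
    · exact Or.inr (Or.inr (Or.inr (Or.inl H46)))
    · exact Or.inr (Or.inr (Or.inr (Or.inr (Or.inl H46))))
    · exact Or.inr (Or.inr (Or.inr (Or.inr (Or.inr (Or.inl H46)))))
    · exact Or.inr (Or.inr (Or.inr (Or.inr (Or.inr (Or.inr (Or.inl H46))))))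
    · exact Or.inr (Or.inr (Or.inr (Or.inr (Or.inr (Or.inr (Or.inr H46))))))
  have E47 : (0 ≤ b1 - 1 ∧ 0 ≤ -y + n2 - b2 + n3 - b3 - 2) ∨ 0 ≤ -y + x + n3 - a3 - 2 ∨ 0 ≤ -p1 + n3 - a3 - 2 ∨ (0 ≤ p1 - n3 + a3 + 1 ∧ 0 ≤ -p1 + n3 - a3 - 1 ∧ 0 ≤ h) ∨ (0 ≤ p1 - n3 + a3 + 1 ∧ 0 ≤ -p1 + n3 - a3 - 1 ∧ 0 ≤ -h - 1 ∧ 0 ≤ h + 1 ∧ 0 ≤ -p4 - x - 1) ∨ 0 ≤ -p3 - 2 ∨ (0 ≤ p3 + 1 ∧ 0 ≤ -p3 - 1 ∧ 0 ≤ h3) ∨ (0 ≤ p3 + 1 ∧ 0 ≤ -p3 - 1 ∧ 0 ≤ -h3 - 1 ∧ 0 ≤ h3 + 1 ∧ 0 ≤ -p6 + k - x) := by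
    rcases D47 with H47 | H47 | (H47 | H47 | H47) | (H47 | H47 | H47)
    · exact Or.inl H47
    · exact Or.inr (Or.inl H47)
    · exact Or.inr (Or.inr (Or.inl H47))
    · exact Or.inr (Or.inr (Or.inr (Or.inl H47)))
    · exact Or.inr (Or.inr (Or.inr (Or.inr (Or.inl H47))))
    · exact Or.inr (Or.inr (Or.inr (Or.inr (Or.inr (Or.inl H47)))))
    · exact Or.inr (Or.inr (Or.inr (Or.inr (Or.inr (Or.inr (Or.inl H47))))))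
    · exact Or.inr (Or.inr (Or.inr (Or.inr (Or.inr (Or.inr (Or.inr H47))))))
  have E48 : 0 ≤ x + n3 - a3 - y - 2 ∨ 0 ≤ h ∨ (0 ≤ -h - 1 ∧ 0 ≤ h + 1 ∧ 0 ≤ -p5 + n3 - a3 - y - 2) ∨ (0 ≤ -h - 1 ∧ 0 ≤ h + 1 ∧ 0 ≤ p5 - n3 + a3 + y + 1 ∧ 0 ≤ -p5 + n3 - a3 - y - 1 ∧ 0 ≤ -p4 - x - 1) ∨ 0 ≤ h3 ∨ (0 ≤ -h3 - 1 ∧ 0 ≤ h3 + 1 ∧ 0 ≤ -p7 - y - 2) ∨ (0 ≤ -h3 - 1 ∧ 0 ≤ h3 + 1 ∧ 0 ≤ p7 + y + 1 ∧ 0 ≤ -p7 - y - 1 ∧ 0 ≤ -p6 + k - x) := by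
    rcases D48 with H48 | (H48 | H48 | H48) | (H48 | H48 | H48)
    · exact Or.inl H48
    · exact Or.inr (Or.inl H48)
    · exact Or.inr (Or.inr (Or.inl H48))
    · exact Or.inr (Or.inr (Or.inr (Or.inl H48)))
    · exact Or.inr (Or.inr (Or.inr (Or.inr (Or.inl H48))))
    · exact Or.inr (Or.inr (Or.inr (Or.inr (Or.inr (Or.inl H48)))))
    · exact Or.inr (Or.inr (Or.inr (Or.inr (Or.inr (Or.inr H48)))))
  have E49 := D49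
  have E50 := D50
  rcases E23 with H23 | H23
  · rcases E34 with H34 | H34
    · rcases E42 with H42 | H42
      · linarith only [H34.1, H42]
      · rcases E4 with H4 | H4
        · linarith only [B16, B23, B35, B28, B22, H34.1, H42, H4, B17]
        · linarith only [B35, H4, H42, B17, B2]
    · rcases E15 with H15 | H15
      · linarith only [H15.1, H34.1]
      · rcases E35 with H35 | H35
        · rcases E11 with H11 | H11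
          · rcases E3 with H3 | H3
            · linarith only [B26, H34.1, H11.1, H3]
            · linarith only [B27, H3, H34.1, H11.1, B2]
          · rcases E7 with H7 | H7
            · linarith only [H7.1, H11.1]
            · rcases E49 with H49 | H49
              · rcases E1 with H1 | H1
                · rcases E41 with H41 | H41 | H41
                  · linarith only [H41, H23.1]
                  · linarith only [B16, H49, B37, H1.2, B18, H41]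
                  · linarith only [H1.2, H41, B37]
                · linarith only [H1.2, H49]
              · rcases E41 with H41 | H41 | H41
                · linarith only [H41, H23.1]
                · rcases E4 with H4 | H4
                  · rcases E5 with H5 | H5
                    · rcases E40 with H40 | H40 | H40
                      · linarith only [H40, H35.1]
                      · linarith only [B16, B35, B22, B6, H40, B23, H4, B17]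
                      · rcases E44 with H44 | H44 | H44
                        · linarith only [H44, H23.1]
                        · linarith only [B16, B35, B22, B23, H44, B17, H5]
                        · linarith only [H44, B19, H49, B15, H40, B35]
                    · linarith only [B31, B32, H5, B6, B20, H4]
                  · rcases E40 with H40 | H40 | H40
                    · linarith only [H40, H35.1]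
                    · rcases E46 with H46 | H46 | H46 | H46 | H46 | H46 | H46 | H46
                      · linarith only [H46.2, H41]
                      · linarith only [H46, H7.2]
                      · linarith only [H46.2.1, H7.2]
                      · linarith only [H46.2.1, H7.2]
                      · linarith only [B35, H40, H46, H15.2]
                      · linarith only [B35, H40, H15.2, H46.2.1]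
                      · linarith only [H35.1, H46.2.2.1]
                      · rcases E43 with H43 | H43
                        · linarith only [H46, H43]
                        · linarith only [H43, B19, B33, B15, H4, H40, H46, B37]
                    · rcases E44 with H44 | H44 | H44
                      · linarith only [H44, H23.1]
                      · rcases E5 with H5 | H5
                        · linarith only [B16, B35, B22, B23, H44, B17, H5]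
                        · rcases E46 with H46 | H46 | H46 | H46 | H46 | H46 | H46 | H46
                          · linarith only [H46.2, H41]
                          · linarith only [H46, H7.2]
                          · linarith only [H46.2.1, H7.2]
                          · linarith only [H46.2.1, H7.2]
                          · linarith only [H49, B31, B35, H5, H44, H15.2, H46, H40]
                          · linarith only [H49, B35, H5, B31, H15.2, H44, H40, H46.2.1]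
                          · linarith only [H46.2.2.1, H35.1]
                          · linarith only [H44, H46]
                      · linarith only [H44, B19, H49, B15, H40, B35]
                · linarith only [H49, B35, H41, B15, B19]
        · rcases E3 with H3 | H3
          · linarith only [H35.1, B6, H3]
          · linarith only [B27, H3, H35.1, H23.1, B2]
  · rcases E27 with H27 | H27
    · linarith only [H23.1, H27.1]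
    · rcases E2 with H2 | H2
      · linarith only [H23.1, B6, H2]
      · rcases E1 with H1 | H1
        · linarith only [H1.1, H23.1, H2]
        · rcases E50 with H50 | H50
          · linarith only [B17, B35, H1.2, H50]
          · rcases E12 with H12 | H12
            · linarith only [H23.1, H12.1]
            · rcases E35 with H35 | H35
              · rcases E15 with H15 | H15
                · rcases E42 with H42 | H42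
                  · linarith only [H15.1, H42]
                  · rcases E4 with H4 | H4
                    · linarith only [B16, B35, B28, B22, H15.1, H42, B23, H4, B17]
                    · linarith only [B29, B35, H4, H23.1, H15.1, H42, B17, H2]
                · rcases E19 with H19 | H19
                  · linarith only [H19.1, H15.1]
                  · rcases E43 with H43 | H43
                    · rcases E5 with H5 | H5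
                      · linarith only [B16, B35, B22, B23, H43, B17, H5]
                      · rcases E4 with H4 | H4
                        · linarith only [B16, B31, B35, B22, H5, B6, B23, H43, B17, B20, H4]
                        · rcases E40 with H40 | H40 | H40
                          · linarith only [H40, H35.1]
                          · linarith only [B29, B35, H4, H23.1, H2, H40, H35.1]
                          · linarith only [H1.2, B35, H23.1, H2, H5, H43, B29, H40, H35.1]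
                    · rcases E47 with H47 | H47 | H47 | H47 | H47 | H47 | H47 | H47
                      · rcases E40 with H40 | H40 | H40
                        · linarith only [H40, H35.1]
                        · rcases E4 with H4 | H4
                          · linarith only [H50, H43, B19, B35, B22, B6, H40, B23, B17, H4]
                          · linarith only [B35, H4, H23.1, H2, H40, B29, H35.1]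
                        · linarith only [H40, H47.2]
                      · linarith only [H47, H43]
                      · linarith only [H47, B17, H12.2, H43]
                      · linarith only [H23.1, H47.2.2]
                      · linarith only [B17, H23.2, H47.2.2.2.2]
                      · linarith only [H47, H19.2]
                      · linarith only [H47.2.1, H19.2]
                      · linarith only [H47.2.1, H19.2]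
              · rcases E3 with H3 | H3
                · linarith only [H35.1, B6, H3]
                · rcases E31 with H31 | H31
                  · linarith only [H35.1, H31.1]
                  · rcases E45 with H45 | H45 | H45 | H45 | H45 | H45 | H45
                    · linarith only [H45, H23.1]
                    · linarith only [B17, H23.2, H45.2.2]
                    · linarith only [B17, H23.2, H45.2.2.2.1]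
                    · linarith only [H35.1, H45]
                    · linarith only [B31, H35.1, B1, H3, B17, H31.2, H45.2.2]
                    · linarith only [B20, H35.2, H45.2.2.2.2]
                    · rcases E43 with H43 | H43
                      · linarith only [H45, H43]
                      · rcases E48 with H48 | H48 | H48 | H48 | H48 | H48 | H48
                        · linarith only [H43, H48]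
                        · linarith only [H48, H23.1]
                        · linarith only [H43, B17, H27.2, H48.2.2]
                        · linarith only [B17, H23.2, H48.2.2.2.2]
                        · linarith only [H35.1, H48]
                        · linarith only [B20, H35.2, H48.2.2]
                        · linarith only [B20, H35.2, H48.2.2.2.1]

theorem g1_l0 {a3 b1 b2 g h h3 k n2 n3 p0 p2 p5 p6 p7 x y : ℤ}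
    (B2 : 0 ≤ a3)
    (B35 : 0 ≤ -x + n2 - b2 - 1)
    (E43 : (0 ≤ b1 - 1 ∧ 0 ≤ -x + n2 - b2 - 2) ∨ 0 ≤ -p0 - 2 ∨ (0 ≤ p0 + 1 ∧ 0 ≤ -p0 - 1 ∧ 0 ≤ h) ∨ (0 ≤ p0 + 1 ∧ 0 ≤ -p0 - 1 ∧ 0 ≤ -h - 1 ∧ 0 ≤ h + 1 ∧ 0 ≤ -p5 + n3 - a3 - y - 1) ∨ 0 ≤ -p2 + k - 1 ∨ (0 ≤ p2 - k ∧ 0 ≤ -p2 + k ∧ 0 ≤ h3) ∨ (0 ≤ p2 - k ∧ 0 ≤ -p2 + k ∧ 0 ≤ -h3 - 1 ∧ 0 ≤ h3 + 1 ∧ 0 ≤ -p7 - y - 1) ∨ 0 ≤ -x + g - 1)
    (H4 : 0 ≤ k - a3 + 1)
    (H7 : 0 ≤ -h ∧ 0 ≤ p0)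
    (H15 : 0 ≤ -h3 ∧ 0 ≤ p2)
    (H31 : 0 ≤ h3 ∧ 0 ≤ -x - p6)
    (H39 : 0 ≤ -n2 + b2 - k + x)
    (H40 : 0 ≤ -g + x) : False := by
  rcases E43 with H43 | H43 | H43 | H43 | H43 | H43 | H43 | H43
  · linarith only [H43.2, H4, H39, B2]
  · linarith only [H43, H7.2]
  · linarith only [H7.2, H43.2.1]
  · linarith only [H7.2, H43.2.1]
  · linarith only [B35, H39, H43, H15.2]
  · linarith only [B35, H39, H43.2.1, H15.2]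
  · linarith only [H31.1, H43.2.2.1]
  · linarith only [H43, H40]

theorem g1 {a1 a2 a3 b1 b2 b3 d1 g h h3 k n1 n2 n3 p0 p2 p4 p5 p6 p7 x y : ℤ}
    (B2 : 0 ≤ a3)
    (B6 : 0 ≤ n1 - a1)
    (B16 : 0 ≤ -a1 - a2 + b1 + b2 - x)
    (B17 : 0 ≤ x - 1)
    (B18 : 0 ≤ y + a1 + a2 + a3 - b1 - b2 - b3)
    (B20 : 0 ≤ y - 1)
    (B22 : 0 ≤ a1 - b1 - d1)
    (B23 : 0 ≤ d1 - 1)
    (B27 : 0 ≤ a2 - h - 1)
    (B28 : 0 ≤ n1 - a1 - h3)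
    (B29 : 0 ≤ a2 + a3 - h3 - 1)
    (B31 : 0 ≤ a3 - k - 1)
    (B34 : 0 ≤ b1 - 1)
    (B35 : 0 ≤ -x + n2 - b2 - 1)
    (B37 : 0 ≤ -y + x + n3 - a3 - 2)
    (D2 : 0 ≤ h - n1 + a1 ∨ 0 ≤ h - a2 + 1)
    (D3 : 0 ≤ h3 - n1 + a1 ∨ 0 ≤ h3 - a2 - a3 + 1)
    (D4 : 0 ≤ k - n1 + a1 - n2 + a2 ∨ 0 ≤ k - a3 + 1)
    (D5 : 0 ≤ g - n2 + a2 + 1 ∨ 0 ≤ g - a3 - y + 1)
    (D7 : (0 ≤ h - 1 ∧ 0 ≤ -x - p0) ∨ (0 ≤ -h ∧ 0 ≤ p0))
    (D15 : (0 ≤ h3 - 1 ∧ 0 ≤ -x - p2) ∨ (0 ≤ -h3 ∧ 0 ≤ p2))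
    (D22 : (0 ≤ h - 1 ∧ 0 ≤ -2 * x - p4) ∨ (0 ≤ -h ∧ 0 ≤ p4 + x))
    (D31 : (0 ≤ h3 ∧ 0 ≤ -x - p6) ∨ (0 ≤ -h3 - 1 ∧ 0 ≤ p6))
    (D39 : 0 ≤ -b1 ∨ 0 ≤ -h3 - 1 ∨ 0 ≤ -n2 + b2 - k + x ∨ 0 ≤ -n2 + b2 - n3 + b3 + y + 1)
    (D40 : 0 ≤ -g + x ∨ 0 ≤ -x - n3 + a3 + y + 1)
    (D41 : 0 ≤ -b1 ∨ 0 ≤ -h ∨ 0 ≤ -n2 + b2 + 1 ∨ 0 ≤ -n2 + b2 - 2 * n3 + b3 + a3 + 1)
    (D42 : (0 ≤ h ∨ (0 ≤ -h - 1 ∧ 0 ≤ h + 1 ∧ 0 ≤ -p4 - x - 2) ∨ (0 ≤ -h - 1 ∧ 0 ≤ h + 1 ∧ 0 ≤ p4 + x + 1 ∧ 0 ≤ -p4 - x - 1 ∧ 0 ≤ -p5 + n3 - a3 - y - 1)) ∨ (0 ≤ h3 ∨ (0 ≤ -h3 - 1 ∧ 0 ≤ h3 + 1 ∧ 0 ≤ -p6 + k - x - 1) ∨ (0 ≤ -h3 - 1 ∧ 0 ≤ h3 + 1 ∧ 0 ≤ p6 - k + x ∧ 0 ≤ -p6 + k - x ∧ 0 ≤ -p7 - y - 1)) ∨ (0 ≤ g - x - 1))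
    (D43 : ((0 ≤ b1 - 1 ∧ 0 ≤ -x + n2 - b2 - 2)) ∨ (0 ≤ -p0 - 2 ∨ (0 ≤ p0 + 1 ∧ 0 ≤ -p0 - 1 ∧ 0 ≤ h) ∨ (0 ≤ p0 + 1 ∧ 0 ≤ -p0 - 1 ∧ 0 ≤ -h - 1 ∧ 0 ≤ h + 1 ∧ 0 ≤ -p5 + n3 - a3 - y - 1)) ∨ (0 ≤ -p2 + k - 1 ∨ (0 ≤ p2 - k ∧ 0 ≤ -p2 + k ∧ 0 ≤ h3) ∨ (0 ≤ p2 - k ∧ 0 ≤ -p2 + k ∧ 0 ≤ -h3 - 1 ∧ 0 ≤ h3 + 1 ∧ 0 ≤ -p7 - y - 1)) ∨ (0 ≤ -x + g - 1)) : False := by
  have E2 := D2
  have E3 := D3
  have E4 := D4
  have E5 := D5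
  have E7 := D7
  have E15 := D15
  have E22 := D22
  have E31 := D31
  have E39 : 0 ≤ -h3 - 1 ∨ 0 ≤ -n2 + b2 - k + x ∨ 0 ≤ -n2 + b2 - n3 + b3 + y + 1 := by
    rcases D39 with H39 | H39 | H39 | H39
    · linarith only [B34, H39]
    · exact Or.inl H39
    · exact Or.inr (Or.inl H39)
    · exact Or.inr (Or.inr H39)
  have E40 : 0 ≤ -g + x := by
    rcases D40 with H40 | H40
    · exact H40
    · linarith only [B37, H40]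
  have E41 : 0 ≤ -h := by
    rcases D41 with H41 | H41 | H41 | H41
    · linarith only [B34, H41]
    · exact H41
    · linarith only [B35, H41, B17]
    · linarith only [B37, B20, H41, B35, B18, B16]
  have E42 : 0 ≤ h ∨ (0 ≤ -h - 1 ∧ 0 ≤ h + 1 ∧ 0 ≤ -p4 - x - 2) ∨ (0 ≤ -h - 1 ∧ 0 ≤ h + 1 ∧ 0 ≤ p4 + x + 1 ∧ 0 ≤ -p4 - x - 1 ∧ 0 ≤ -p5 + n3 - a3 - y - 1) ∨ 0 ≤ h3 ∨ (0 ≤ -h3 - 1 ∧ 0 ≤ h3 + 1 ∧ 0 ≤ -p6 + k - x - 1) ∨ (0 ≤ -h3 - 1 ∧ 0 ≤ h3 + 1 ∧ 0 ≤ p6 - k + x ∧ 0 ≤ -p6 + k - x ∧ 0 ≤ -p7 - y - 1) ∨ 0 ≤ g - x - 1 := by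
    rcases D42 with (H42 | H42 | H42) | (H42 | H42 | H42) | H42
    · exact Or.inl H42
    · exact Or.inr (Or.inl H42)
    · exact Or.inr (Or.inr (Or.inl H42))
    · exact Or.inr (Or.inr (Or.inr (Or.inl H42)))
    · exact Or.inr (Or.inr (Or.inr (Or.inr (Or.inl H42))))
    · exact Or.inr (Or.inr (Or.inr (Or.inr (Or.inr (Or.inl H42)))))
    · exact Or.inr (Or.inr (Or.inr (Or.inr (Or.inr (Or.inr H42)))))
  have E43 : (0 ≤ b1 - 1 ∧ 0 ≤ -x + n2 - b2 - 2) ∨ 0 ≤ -p0 - 2 ∨ (0 ≤ p0 + 1 ∧ 0 ≤ -p0 - 1 ∧ 0 ≤ h) ∨ (0 ≤ p0 + 1 ∧ 0 ≤ -p0 - 1 ∧ 0 ≤ -h - 1 ∧ 0 ≤ h + 1 ∧ 0 ≤ -p5 + n3 - a3 - y - 1) ∨ 0 ≤ -p2 + k - 1 ∨ (0 ≤ p2 - k ∧ 0 ≤ -p2 + k ∧ 0 ≤ h3) ∨ (0 ≤ p2 - k ∧ 0 ≤ -p2 + k ∧ 0 ≤ -h3 - 1 ∧ 0 ≤ h3 + 1 ∧ 0 ≤ -p7 - y - 1) ∨ 0 ≤ -x + g - 1 := by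
    rcases D43 with H43 | (H43 | H43 | H43) | (H43 | H43 | H43) | H43
    · exact Or.inl H43
    · exact Or.inr (Or.inl H43)
    · exact Or.inr (Or.inr (Or.inl H43))
    · exact Or.inr (Or.inr (Or.inr (Or.inl H43)))
    · exact Or.inr (Or.inr (Or.inr (Or.inr (Or.inl H43))))
    · exact Or.inr (Or.inr (Or.inr (Or.inr (Or.inr (Or.inl H43)))))
    · exact Or.inr (Or.inr (Or.inr (Or.inr (Or.inr (Or.inr (Or.inl H43))))))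
    · exact Or.inr (Or.inr (Or.inr (Or.inr (Or.inr (Or.inr (Or.inr H43))))))
  have H41 := E41
  have H40 := E40
  rcases E22 with H22 | H22
  · linarith only [H22.1, H41]
  · rcases E5 with H5 | H5
    · linarith only [B23, B16, B22, B35, H40, B17, H5]
    · rcases E4 with H4 | H4
      · linarith only [B20, B23, B31, B16, B22, H5, B6, B35, H40, B17, H4]
      · rcases E7 with H7 | H7
        · linarith only [H7.1, H41]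
        · rcases E31 with H31 | H31
          · rcases E39 with H39 | H39 | H39
            · linarith only [H39, H31.1]
            · rcases E2 with H2 | H2
              · rcases E15 with H15 | H15
                · linarith only [H41, B28, H15.1, H2]
                · exact g1_l0 B2 B35 E43 H4 H7 H15 H31 H39 H40
              · rcases E15 with H15 | H15
                · linarith only [B29, B35, H4, H41, H15.1, H39, H2]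
                · exact g1_l0 B2 B35 E43 H4 H7 H15 H31 H39 H40
            · linarith only [B37, H39, B16, H5, B35, H40, B18, B2]
          · rcases E42 with H42 | H42 | H42 | H42 | H42 | H42 | H42
            · rcases E3 with H3 | H3
              · linarith only [H31.1, B6, H3]
              · linarith only [B27, B2, H31.1, H3, H42]
            · linarith only [H22.2, H42.2.2]
            · linarith only [H22.2, H42.2.2.2.1]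
            · linarith only [H31.1, H42]
            · linarith only [B20, B31, H5, H40, H31.2, H42.2.2]
            · linarith only [B20, B31, H40, H5, H31.2, H42.2.2.2.1]
            · linarith only [H42, H40]

theorem g2 {a1 a2 a3 b1 b2 b3 d1 g h h3 k n1 n2 n3 p0 p1 p2 p4 p5 p6 p7 x y : ℤ}
    (B1 : 0 ≤ a2)
    (B2 : 0 ≤ a3)
    (B6 : 0 ≤ n1 - a1)
    (B8 : 0 ≤ n3 - a3)
    (B11 : 0 ≤ n3 - b3)
    (B16 : 0 ≤ -a1 - a2 + b1 + b2 - x)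
    (B17 : 0 ≤ x - 1)
    (B18 : 0 ≤ y + a1 + a2 + a3 - b1 - b2 - b3)
    (B20 : 0 ≤ y - 1)
    (B22 : 0 ≤ a1 - b1 - d1)
    (B23 : 0 ≤ d1 - 1)
    (B27 : 0 ≤ a2 - h - 1)
    (B28 : 0 ≤ n1 - a1 - h3)
    (B29 : 0 ≤ a2 + a3 - h3 - 1)
    (B31 : 0 ≤ a3 - k - 1)
    (B34 : 0 ≤ b1 - 1)
    (B35 : 0 ≤ -x + n2 - b2 - 1)
    (D2 : 0 ≤ h - n1 + a1 ∨ 0 ≤ h - a2 + 1)
    (D3 : 0 ≤ h3 - n1 + a1 ∨ 0 ≤ h3 - a2 - a3 + 1)
    (D4 : 0 ≤ k - n1 + a1 - n2 + a2 ∨ 0 ≤ k - a3 + 1)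
    (D5 : 0 ≤ g - n2 + a2 + 1 ∨ 0 ≤ g - a3 - y + 1)
    (D7 : (0 ≤ h - 1 ∧ 0 ≤ -x - p0) ∨ (0 ≤ -h ∧ 0 ≤ p0))
    (D11 : (0 ≤ h - 1 ∧ 0 ≤ -y - p1) ∨ (0 ≤ -h ∧ 0 ≤ p1))
    (D12 : (0 ≤ h ∧ 0 ≤ -p1) ∨ (0 ≤ -h - 1 ∧ 0 ≤ p1 - y))
    (D15 : (0 ≤ h3 - 1 ∧ 0 ≤ -x - p2) ∨ (0 ≤ -h3 ∧ 0 ≤ p2))
    (D22 : (0 ≤ h - 1 ∧ 0 ≤ -2 * x - p4) ∨ (0 ≤ -h ∧ 0 ≤ p4 + x))
    (D23 : (0 ≤ h ∧ 0 ≤ -x - p4) ∨ (0 ≤ -h - 1 ∧ 0 ≤ p4))
    (D27 : (0 ≤ h ∧ 0 ≤ -y - p5) ∨ (0 ≤ -h - 1 ∧ 0 ≤ p5))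
    (D31 : (0 ≤ h3 ∧ 0 ≤ -x - p6) ∨ (0 ≤ -h3 - 1 ∧ 0 ≤ p6))
    (D35 : (0 ≤ h3 ∧ 0 ≤ -y - p7) ∨ (0 ≤ -h3 - 1 ∧ 0 ≤ p7))
    (D39 : 0 ≤ -p1 + n3 - a3 - 2 ∨ 0 ≤ -p0 - 1)
    (D40 : 0 ≤ -b1 ∨ 0 ≤ -h3 - 1 ∨ 0 ≤ -n2 + b2 - k + x ∨ 0 ≤ -n2 + b2 - n3 + b3 + y + 1)
    (D41 : 0 ≤ -h - 1 ∨ 0 ≤ -g + x ∨ 0 ≤ -n3 + a3 + 1)
    (D42 : 0 ≤ -b1 ∨ 0 ≤ -h ∨ 0 ≤ -n2 + b2 + 1 ∨ 0 ≤ -n2 + b2 - 2 * n3 + b3 + a3 + 1)
    (D43 : 0 ≤ -g + x ∨ 0 ≤ -x - n3 + a3 + y + 1)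
    (D44 : ((0 ≤ b1 - 1 ∧ 0 ≤ -x + n2 - b2 - 2)) ∨ (0 ≤ -p0 - 2 ∨ (0 ≤ p0 + 1 ∧ 0 ≤ -p0 - 1 ∧ 0 ≤ h) ∨ (0 ≤ p0 + 1 ∧ 0 ≤ -p0 - 1 ∧ 0 ≤ -h - 1 ∧ 0 ≤ h + 1 ∧ 0 ≤ -p5 + n3 - a3 - y - 1)) ∨ (0 ≤ -p2 + k - 1 ∨ (0 ≤ p2 - k ∧ 0 ≤ -p2 + k ∧ 0 ≤ h3) ∨ (0 ≤ p2 - k ∧ 0 ≤ -p2 + k ∧ 0 ≤ -h3 - 1 ∧ 0 ≤ h3 + 1 ∧ 0 ≤ -p7 - y - 1)) ∨ (0 ≤ -x + g - 1))
    (D45 : (0 ≤ h ∨ (0 ≤ -h - 1 ∧ 0 ≤ h + 1 ∧ 0 ≤ -p4 - x - 2) ∨ (0 ≤ -h - 1 ∧ 0 ≤ h + 1 ∧ 0 ≤ p4 + x + 1 ∧ 0 ≤ -p4 - x - 1 ∧ 0 ≤ -p5 + n3 - a3 - y - 1)) ∨ (0 ≤ h3 ∨ (0 ≤ -h3 - 1 ∧ 0 ≤ h3 + 1 ∧ 0 ≤ -p6 + k - x - 1) ∨ (0 ≤ -h3 - 1 ∧ 0 ≤ h3 + 1 ∧ 0 ≤ p6 - k + x ∧ 0 ≤ -p6 + k - x ∧ 0 ≤ -p7 - y - 1)) ∨ (0 ≤ g - x - 1)) : False := by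
  have E2 := D2
  have E3 := D3
  have E4 := D4
  have E5 := D5
  have E7 := D7
  have E11 := D11
  have E12 := D12
  have E15 := D15
  have E22 := D22
  have E23 := D23
  have E27 := D27
  have E31 := D31
  have E35 := D35
  have E39 := D39
  have E40 : 0 ≤ -h3 - 1 ∨ 0 ≤ -n2 + b2 - k + x ∨ 0 ≤ -n2 + b2 - n3 + b3 + y + 1 := by
    rcases D40 with H40 | H40 | H40 | H40
    · linarith only [B34, H40]
    · exact Or.inl H40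
    · exact Or.inr (Or.inl H40)
    · exact Or.inr (Or.inr H40)
  have E41 := D41
  have E42 : 0 ≤ -h := by
    rcases D42 with H42 | H42 | H42 | H42
    · linarith only [B34, H42]
    · exact H42
    · linarith only [B17, B35, H42]
    · linarith only [B17, B35, H42, B8, B11]
  have E43 := D43
  have E44 : (0 ≤ b1 - 1 ∧ 0 ≤ -x + n2 - b2 - 2) ∨ 0 ≤ -p0 - 2 ∨ (0 ≤ p0 + 1 ∧ 0 ≤ -p0 - 1 ∧ 0 ≤ h) ∨ (0 ≤ p0 + 1 ∧ 0 ≤ -p0 - 1 ∧ 0 ≤ -h - 1 ∧ 0 ≤ h + 1 ∧ 0 ≤ -p5 + n3 - a3 - y - 1) ∨ 0 ≤ -p2 + k - 1 ∨ (0 ≤ p2 - k ∧ 0 ≤ -p2 + k ∧ 0 ≤ h3) ∨ (0 ≤ p2 - k ∧ 0 ≤ -p2 + k ∧ 0 ≤ -h3 - 1 ∧ 0 ≤ h3 + 1 ∧ 0 ≤ -p7 - y - 1) ∨ 0 ≤ -x + g - 1 := by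
    rcases D44 with H44 | (H44 | H44 | H44) | (H44 | H44 | H44) | H44
    · exact Or.inl H44
    · exact Or.inr (Or.inl H44)
    · exact Or.inr (Or.inr (Or.inl H44))
    · exact Or.inr (Or.inr (Or.inr (Or.inl H44)))
    · exact Or.inr (Or.inr (Or.inr (Or.inr (Or.inl H44))))
    · exact Or.inr (Or.inr (Or.inr (Or.inr (Or.inr (Or.inl H44)))))
    · exact Or.inr (Or.inr (Or.inr (Or.inr (Or.inr (Or.inr (Or.inl H44))))))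
    · exact Or.inr (Or.inr (Or.inr (Or.inr (Or.inr (Or.inr (Or.inr H44))))))
  have E45 : 0 ≤ h ∨ (0 ≤ -h - 1 ∧ 0 ≤ h + 1 ∧ 0 ≤ -p4 - x - 2) ∨ (0 ≤ -h - 1 ∧ 0 ≤ h + 1 ∧ 0 ≤ p4 + x + 1 ∧ 0 ≤ -p4 - x - 1 ∧ 0 ≤ -p5 + n3 - a3 - y - 1) ∨ 0 ≤ h3 ∨ (0 ≤ -h3 - 1 ∧ 0 ≤ h3 + 1 ∧ 0 ≤ -p6 + k - x - 1) ∨ (0 ≤ -h3 - 1 ∧ 0 ≤ h3 + 1 ∧ 0 ≤ p6 - k + x ∧ 0 ≤ -p6 + k - x ∧ 0 ≤ -p7 - y - 1) ∨ 0 ≤ g - x - 1 := by
    rcases D45 with (H45 | H45 | H45) | (H45 | H45 | H45) | H45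
    · exact Or.inl H45
    · exact Or.inr (Or.inl H45)
    · exact Or.inr (Or.inr (Or.inl H45))
    · exact Or.inr (Or.inr (Or.inr (Or.inl H45)))
    · exact Or.inr (Or.inr (Or.inr (Or.inr (Or.inl H45))))
    · exact Or.inr (Or.inr (Or.inr (Or.inr (Or.inr (Or.inl H45)))))
    · exact Or.inr (Or.inr (Or.inr (Or.inr (Or.inr (Or.inr H45)))))
  have H42 := E42
  rcases E11 with H11 | H11
  · linarith only [H11.1, H42]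
  · rcases E22 with H22 | H22
    · linarith only [H22.1, H42]
    · rcases E7 with H7 | H7
      · linarith only [H7.1, H42]
      · rcases E39 with H39 | H39
        · rcases E35 with H35 | H35
          · rcases E27 with H27 | H27
            · rcases E41 with H41 | H41 | H41
              · linarith only [H41, H27.1]
              · rcases E5 with H5 | H5
                · linarith only [B16, B23, H41, B22, B35, B17, H5]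
                · rcases E4 with H4 | H4
                  · linarith only [B31, B16, B23, H41, B22, H5, B6, B35, B17, H4, B20]
                  · rcases E15 with H15 | H15
                    · rcases E2 with H2 | H2
                      · linarith only [H42, B28, H15.1, H2]
                      · rcases E40 with H40 | H40 | H40
                        · linarith only [H15.1, H40]
                        · linarith only [B29, B35, H4, H42, H15.1, H40, H2]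
                        · linarith only [B29, B16, H40, H41, H42, H5, H15.1, B35, H11.2, H39, B18, H2]
                    · rcases E40 with H40 | H40 | H40
                      · linarith only [H40, H35.1]
                      · rcases E44 with H44 | H44 | H44 | H44 | H44 | H44 | H44 | H44
                        · linarith only [H44.2, H4, H40, B2]
                        · linarith only [H44, H7.2]
                        · linarith only [H7.2, H44.2.1]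
                        · linarith only [H7.2, H44.2.1]
                        · linarith only [B35, H40, H44, H15.2]
                        · linarith only [B35, H40, H44.2.1, H15.2]
                        · linarith only [H35.1, H44.2.2.1]
                        · linarith only [H44, H41]
                      · rcases E44 with H44 | H44 | H44 | H44 | H44 | H44 | H44 | H44
                        · linarith only [H44.2, B16, H40, H41, H5, B2, H39, H11.2, B18]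
                        · linarith only [H44, H7.2]
                        · linarith only [H7.2, H44.2.1]
                        · linarith only [H7.2, H44.2.1]
                        · linarith only [B31, B16, H40, H41, H5, B35, H11.2, H39, H44, B18, H15.2]
                        · linarith only [B31, B16, H40, H15.2, H41, B35, H11.2, H39, H5, B18, H44.2.1]
                        · linarith only [H35.1, H44.2.2.1]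
                        · linarith only [H44, H41]
              · linarith only [H11.2, H39, H41]
            · rcases E2 with H2 | H2
              · linarith only [H27.1, B6, H2]
              · rcases E12 with H12 | H12
                · linarith only [H27.1, H12.1]
                · rcases E43 with H43 | H43
                  · rcases E5 with H5 | H5
                    · linarith only [B16, B23, H43, B22, B35, B17, H5]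
                    · rcases E4 with H4 | H4
                      · linarith only [B31, B16, B23, H43, B22, H5, B6, B35, B20, B17, H4]
                      · rcases E40 with H40 | H40 | H40
                        · linarith only [H40, H35.1]
                        · linarith only [B29, B35, H4, H27.1, H2, H40, H35.1]
                        · linarith only [B29, B16, H40, H43, H27.1, H2, H5, B35, H12.2, H39, B17, B18, H35.1]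
                  · linarith only [H12.2, H39, B17, H43]
          · rcases E3 with H3 | H3
            · linarith only [H35.1, B6, H3]
            · rcases E23 with H23 | H23
              · linarith only [B27, H3, H35.1, H23.1, B2]
              · rcases E12 with H12 | H12
                · linarith only [H12.1, H23.1]
                · rcases E31 with H31 | H31
                  · linarith only [H35.1, H31.1]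
                  · rcases E43 with H43 | H43
                    · rcases E45 with H45 | H45 | H45 | H45 | H45 | H45 | H45
                      · linarith only [H45, H23.1]
                      · linarith only [H22.2, H45.2.2]
                      · linarith only [B17, H45.2.2.2.1, H23.2]
                      · linarith only [H35.1, H45]
                      · linarith only [B31, H3, H35.1, B1, B17, H31.2, H45.2.2]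
                      · linarith only [B20, H35.2, H45.2.2.2.2]
                      · linarith only [H45, H43]
                    · linarith only [H12.2, H39, B17, H43]
        · linarith only [H7.2, H39]

theorem g3 {a1 a2 a3 b1 b2 b3 d1 h3 k n1 n2 n3 p3 x y : ℤ}
    (B2 : 0 ≤ a3)
    (B11 : 0 ≤ n3 - b3)
    (B16 : 0 ≤ -a1 - a2 + b1 + b2 - x)
    (B17 : 0 ≤ x - 1)
    (B22 : 0 ≤ a1 - b1 - d1)
    (B23 : 0 ≤ d1 - 1)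
    (B28 : 0 ≤ n1 - a1 - h3)
    (B34 : 0 ≤ b1 - 1)
    (B35 : 0 ≤ -x + n2 - b2 - 1)
    (B36 : 0 ≤ -p3 - 1)
    (D4 : 0 ≤ k - n1 + a1 - n2 + a2 ∨ 0 ≤ k - a3 + 1)
    (D19 : (0 ≤ h3 - 1 ∧ 0 ≤ -y - p3) ∨ (0 ≤ -h3 ∧ 0 ≤ p3))
    (D40 : 0 ≤ -b1 ∨ 0 ≤ -h3 ∨ 0 ≤ -n2 + b2 - k ∨ 0 ≤ -n2 + b2 - n3 + b3 + 1) : False := by
  have E4 := D4
  have E19 : (0 ≤ h3 - 1 ∧ 0 ≤ -y - p3) := by
    rcases D19 with H19 | H19
    · exact H19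
    · linarith only [B36, H19.2]
  have E40 : 0 ≤ -h3 ∨ 0 ≤ -n2 + b2 - k := by
    rcases D40 with H40 | H40 | H40 | H40
    · linarith only [B34, H40]
    · exact Or.inl H40
    · exact Or.inr H40
    · linarith only [B17, H40, B35, B11]
  have H19 := E19
  rcases E40 with H40 | H40
  · linarith only [H19.1, H40]
  · rcases E4 with H4 | H4
    · linarith only [B17, B23, B16, B28, B22, H19.1, H40, B35, H4]
    · linarith only [B17, H40, H4, B35, B2]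

theorem g4 {a1 a2 a3 b1 b2 b3 d1 g h h3 k n1 n2 n3 p0 p2 p7 x y : ℤ}
    (B2 : 0 ≤ a3)
    (B5 : 0 ≤ b3)
    (B8 : 0 ≤ n3 - a3)
    (B10 : 0 ≤ n2 - b2)
    (B16 : 0 ≤ -a1 - a2 + b1 + b2 - x)
    (B17 : 0 ≤ x - 1)
    (B18 : 0 ≤ y + a1 + a2 + a3 - b1 - b2 - b3)
    (B20 : 0 ≤ y - 1)
    (B22 : 0 ≤ a1 - b1 - d1)
    (B23 : 0 ≤ d1 - 1)
    (B26 : 0 ≤ n1 - a1 - h)
    (B27 : 0 ≤ a2 - h - 1)
    (B28 : 0 ≤ n1 - a1 - h3)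
    (B29 : 0 ≤ a2 + a3 - h3 - 1)
    (B31 : 0 ≤ a3 - k - 1)
    (B34 : 0 ≤ -p0 - 1)
    (B35 : 0 ≤ b1 - 1)
    (B36 : 0 ≤ -y + n2 - b2 + n3 - b3 - 1)
    (D2 : 0 ≤ h - n1 + a1 ∨ 0 ≤ h - a2 + 1)
    (D3 : 0 ≤ h3 - n1 + a1 ∨ 0 ≤ h3 - a2 - a3 + 1)
    (D4 : 0 ≤ k - n1 + a1 - n2 + a2 ∨ 0 ≤ k - a3 + 1)
    (D5 : 0 ≤ g - n2 + a2 + 1 ∨ 0 ≤ g - a3 - y + 1)
    (D6 : (0 ≤ h - 2 ∧ 0 ≤ -2 * x - p0) ∨ (0 ≤ -h + 1 ∧ 0 ≤ p0 + x))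
    (D7 : (0 ≤ h - 1 ∧ 0 ≤ -x - p0) ∨ (0 ≤ -h ∧ 0 ≤ p0))
    (D14 : (0 ≤ h3 - 2 ∧ 0 ≤ -2 * x - p2) ∨ (0 ≤ -h3 + 1 ∧ 0 ≤ p2 + x))
    (D15 : (0 ≤ h3 - 1 ∧ 0 ≤ -x - p2) ∨ (0 ≤ -h3 ∧ 0 ≤ p2))
    (D34 : (0 ≤ h3 - 1 ∧ 0 ≤ -2 * y - p7) ∨ (0 ≤ -h3 ∧ 0 ≤ p7 + y))
    (D40 : 0 ≤ -b1 ∨ 0 ≤ -h3 ∨ 0 ≤ -n2 + b2 - k ∨ 0 ≤ -n2 + b2 - n3 + b3 + 1)
    (D41 : 0 ≤ -h ∨ 0 ≤ -g ∨ 0 ≤ -n3 + a3 - y + 1)
    (D42 : 0 ≤ -b1 ∨ 0 ≤ -h + 1 ∨ 0 ≤ -n2 + b2 - x + 1 ∨ 0 ≤ -n2 + b2 - 2 * n3 + b3 - y + a3 + 1)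
    (D43 : ((0 ≤ b1 - 1 ∧ 0 ≤ -x + n2 - b2 - 2) ∨ (0 ≤ b1 - 1 ∧ 0 ≤ x - n2 + b2 + 1 ∧ 0 ≤ -x + n2 - b2 - 1 ∧ 0 ≤ n2 - b2 + x - 1)) ∨ (0 ≤ -p0 - 2) ∨ (0 ≤ -p2 + k - 1 ∨ (0 ≤ p2 - k ∧ 0 ≤ -p2 + k ∧ 0 ≤ k)) ∨ (0 ≤ -x + g - 1 ∨ (0 ≤ x - g ∧ 0 ≤ -x + g ∧ 0 ≤ g)))
    (D44 : ((0 ≤ b1 - 1 ∧ 0 ≤ n2 - b2 + x - 2) ∨ (0 ≤ b1 - 1 ∧ 0 ≤ -n2 + b2 - x + 1 ∧ 0 ≤ n2 - b2 + x - 1 ∧ 0 ≤ -x + n2 - b2 - 1)) ∨ (0 ≤ x - 2) ∨ (0 ≤ k - 1 ∨ (0 ≤ -k ∧ 0 ≤ k ∧ 0 ≤ -p2 + k)) ∨ (0 ≤ g - 1 ∨ (0 ≤ -g ∧ 0 ≤ g ∧ 0 ≤ -x + g))) : False := by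
  have E2 := D2
  have E3 := D3
  have E4 := D4
  have E5 := D5
  have E6 := D6
  have E7 : (0 ≤ h - 1 ∧ 0 ≤ -x - p0) := by
    rcases D7 with H7 | H7
    · exact H7
    · linarith only [B34, H7.2]
  have E14 := D14
  have E15 := D15
  have E34 := D34
  have E40 : 0 ≤ -h3 ∨ 0 ≤ -n2 + b2 - k := by
    rcases D40 with H40 | H40 | H40 | H40
    · linarith only [B35, H40]
    · exact Or.inl H40
    · exact Or.inr H40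
    · linarith only [B36, B20, H40]
  have E41 := D41
  have E42 : 0 ≤ -h + 1 ∨ 0 ≤ -n2 + b2 - x + 1 := by
    rcases D42 with H42 | H42 | H42 | H42
    · linarith only [B35, H42]
    · exact Or.inl H42
    · exact Or.inr H42
    · linarith only [B20, H42, B36, B8]
  have E43 : (0 ≤ b1 - 1 ∧ 0 ≤ -x + n2 - b2 - 2) ∨ (0 ≤ b1 - 1 ∧ 0 ≤ x - n2 + b2 + 1 ∧ 0 ≤ -x + n2 - b2 - 1 ∧ 0 ≤ n2 - b2 + x - 1) ∨ 0 ≤ -p0 - 2 ∨ 0 ≤ -p2 + k - 1 ∨ (0 ≤ p2 - k ∧ 0 ≤ -p2 + k ∧ 0 ≤ k) ∨ 0 ≤ -x + g - 1 ∨ (0 ≤ x - g ∧ 0 ≤ -x + g ∧ 0 ≤ g) := by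
    rcases D43 with (H43 | H43) | H43 | (H43 | H43) | (H43 | H43)
    · exact Or.inl H43
    · exact Or.inr (Or.inl H43)
    · exact Or.inr (Or.inr (Or.inl H43))
    · exact Or.inr (Or.inr (Or.inr (Or.inl H43)))
    · exact Or.inr (Or.inr (Or.inr (Or.inr (Or.inl H43))))
    · exact Or.inr (Or.inr (Or.inr (Or.inr (Or.inr (Or.inl H43)))))
    · exact Or.inr (Or.inr (Or.inr (Or.inr (Or.inr (Or.inr H43)))))
  have E44 : (0 ≤ b1 - 1 ∧ 0 ≤ n2 - b2 + x - 2) ∨ 0 ≤ x - 2 ∨ 0 ≤ k - 1 ∨ (0 ≤ -k ∧ 0 ≤ k ∧ 0 ≤ -p2 + k) ∨ 0 ≤ g - 1 := by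
    rcases D44 with (H44 | H44) | H44 | (H44 | H44) | (H44 | H44)
    · exact Or.inl H44
    · linarith only [B17, H44.2.2.2, H44.2.1]
    · exact Or.inr (Or.inl H44)
    · exact Or.inr (Or.inr (Or.inl H44))
    · exact Or.inr (Or.inr (Or.inr (Or.inl H44)))
    · exact Or.inr (Or.inr (Or.inr (Or.inr H44)))
    · linarith only [B17, H44.1, H44.2.2]
  have H7 := E7
  rcases E34 with H34 | H34
  · rcases E15 with H15 | H15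
    · rcases E40 with H40 | H40
      · linarith only [H40, H34.1]
      · rcases E4 with H4 | H4
        · linarith only [B16, B23, B10, B26, B22, H7.1, H40, B17, H4]
        · rcases E41 with H41 | H41 | H41
          · linarith only [H7.1, H41]
          · rcases E5 with H5 | H5
            · linarith only [B16, B10, H41, B22, B23, B17, H5]
            · rcases E44 with H44 | H44 | H44 | H44 | H44
              · rcases E42 with H42 | H42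
                · rcases E6 with H6 | H6
                  · linarith only [H6.1, H42]
                  · rcases E43 with H43 | H43 | H43 | H43 | H43 | H43 | H43
                    · linarith only [H43.2, B17, H4, H40, B2]
                    · linarith only [H43.2.2.1, B17, H4, H40, B2]
                    · linarith only [B16, H6.2, H41, H43, B18, B5, H5]
                    · rcases E14 with H14 | H14
                      · rcases E2 with H2 | H2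
                        · linarith only [H42, B28, H14.1, H2]
                        · linarith only [B20, B29, H41, H42, H14.1, H2, H5]
                      · linarith only [B16, B5, H41, B20, B31, H5, H43, B18, H14.2]
                    · linarith only [H43.1, H44.2, H40, H15.2, H43.2.2]
                    · linarith only [B17, H43, H41]
                    · linarith only [B17, H43.2.1, H41]
                · linarith only [H44.2, H42]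
              · linarith only [B16, H5, B5, H41, H44, B18]
              · linarith only [B31, H5, H41, B20, H44]
              · linarith only [B31, H5, H41, B20, H44.2.1]
              · linarith only [H44, H41]
          · linarith only [H41, H4, H40, B36, B20, B5]
    · linarith only [H15.1, H34.1]
  · rcases E3 with H3 | H3
    · linarith only [B26, H34.1, H7.1, H3]
    · linarith only [H3, H34.1, H7.1, B27, B2]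

theorem g5 {a1 a2 a3 b1 b2 b3 d1 g h h3 k n1 n2 n3 p0 p2 x y : ℤ}
    (B8 : 0 ≤ n3 - a3)
    (B10 : 0 ≤ n2 - b2)
    (B16 : 0 ≤ -a1 - a2 + b1 + b2 - x)
    (B17 : 0 ≤ x - 1)
    (B18 : 0 ≤ y + a1 + a2 + a3 - b1 - b2 - b3)
    (B20 : 0 ≤ y - 1)
    (B22 : 0 ≤ a1 - b1 - d1)
    (B23 : 0 ≤ d1 - 1)
    (B28 : 0 ≤ n1 - a1 - h3)
    (B29 : 0 ≤ a2 + a3 - h3 - 1)
    (B31 : 0 ≤ a3 - k - 1)
    (B34 : 0 ≤ -p0 - 1)
    (B36 : 0 ≤ -y + x + n3 - a3 - 2)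
    (D2 : 0 ≤ h - n1 + a1 ∨ 0 ≤ h - a2 + 1)
    (D5 : 0 ≤ g - n2 + a2 + 1 ∨ 0 ≤ g - a3 - y + 1)
    (D6 : (0 ≤ h - 2 ∧ 0 ≤ -2 * x - p0) ∨ (0 ≤ -h + 1 ∧ 0 ≤ p0 + x))
    (D7 : (0 ≤ h - 1 ∧ 0 ≤ -x - p0) ∨ (0 ≤ -h ∧ 0 ≤ p0))
    (D14 : (0 ≤ h3 - 2 ∧ 0 ≤ -2 * x - p2) ∨ (0 ≤ -h3 + 1 ∧ 0 ≤ p2 + x))
    (D39 : 0 ≤ -h ∨ 0 ≤ -g ∨ 0 ≤ -n3 + a3 - y + 1)
    (D40 : 0 ≤ -h ∨ 0 ≤ -x + 1 ∨ 0 ≤ -x - 2 * n3 + 2 * a3 + 1)
    (D41 : 0 ≤ -b1 ∨ 0 ≤ -h ∨ 0 ≤ -n2 + b2 + 1 ∨ 0 ≤ -n2 + b2 - 2 * n3 + b3 + a3 + 1)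
    (D42 : 0 ≤ -b1 ∨ 0 ≤ -h + 1 ∨ 0 ≤ -n2 + b2 - x + 1 ∨ 0 ≤ -n2 + b2 - 2 * n3 + b3 - y + a3 + 1)
    (D43 : ((0 ≤ b1 - 1 ∧ 0 ≤ n2 - b2 + x - 2) ∨ (0 ≤ b1 - 1 ∧ 0 ≤ -n2 + b2 - x + 1 ∧ 0 ≤ n2 - b2 + x - 1 ∧ 0 ≤ -x + n2 - b2 - 1)) ∨ (0 ≤ x - 2) ∨ (0 ≤ k - 1 ∨ (0 ≤ -k ∧ 0 ≤ k ∧ 0 ≤ -p2 + k)) ∨ (0 ≤ g - 1 ∨ (0 ≤ -g ∧ 0 ≤ g ∧ 0 ≤ -x + g)))
    (D44 : ((0 ≤ b1 - 1 ∧ 0 ≤ -x + n2 - b2 - 2) ∨ (0 ≤ b1 - 1 ∧ 0 ≤ x - n2 + b2 + 1 ∧ 0 ≤ -x + n2 - b2 - 1 ∧ 0 ≤ n2 - b2 + x - 1)) ∨ (0 ≤ -p0 - 2) ∨ (0 ≤ -p2 + k - 1 ∨ (0 ≤ p2 - k ∧ 0 ≤ -p2 + k ∧ 0 ≤ k)) ∨ (0 ≤ -x + g - 1 ∨ (0 ≤ x - g ∧ 0 ≤ -x + g ∧ 0 ≤ g))) : False := by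
  have E2 := D2
  have E5 := D5
  have E6 := D6
  have E7 : (0 ≤ h - 1 ∧ 0 ≤ -x - p0) := by
    rcases D7 with H7 | H7
    · exact H7
    · linarith only [B34, H7.2]
  have E14 := D14
  have E39 := D39
  have E40 : 0 ≤ -h ∨ 0 ≤ -x + 1 := by
    rcases D40 with H40 | H40 | H40
    · exact Or.inl H40
    · exact Or.inr H40
    · linarith only [B36, H40, B20, B8]
  have E41 : 0 ≤ -b1 ∨ 0 ≤ -h ∨ 0 ≤ -n2 + b2 + 1 := by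
    rcases D41 with H41 | H41 | H41 | H41
    · exact Or.inl H41
    · exact Or.inr (Or.inl H41)
    · exact Or.inr (Or.inr H41)
    · linarith only [B36, B10, H41, B8, B18, B16]
  have E42 : 0 ≤ -b1 ∨ 0 ≤ -h + 1 ∨ 0 ≤ -n2 + b2 - x + 1 := by
    rcases D42 with H42 | H42 | H42 | H42
    · exact Or.inl H42
    · exact Or.inr (Or.inl H42)
    · exact Or.inr (Or.inr H42)
    · linarith only [B20, B10, B18, H42, B8, B36, B16]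
  have E43 : (0 ≤ b1 - 1 ∧ 0 ≤ n2 - b2 + x - 2) ∨ 0 ≤ x - 2 ∨ 0 ≤ k - 1 ∨ (0 ≤ -k ∧ 0 ≤ k ∧ 0 ≤ -p2 + k) ∨ 0 ≤ g - 1 := by
    rcases D43 with (H43 | H43) | H43 | (H43 | H43) | (H43 | H43)
    · exact Or.inl H43
    · linarith only [H43.2.2.2, H43.2.1, B17]
    · exact Or.inr (Or.inl H43)
    · exact Or.inr (Or.inr (Or.inl H43))
    · exact Or.inr (Or.inr (Or.inr (Or.inl H43)))
    · exact Or.inr (Or.inr (Or.inr (Or.inr H43)))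
    · linarith only [H43.1, B17, H43.2.2]
  have E44 : (0 ≤ b1 - 1 ∧ 0 ≤ -x + n2 - b2 - 2) ∨ (0 ≤ b1 - 1 ∧ 0 ≤ x - n2 + b2 + 1 ∧ 0 ≤ -x + n2 - b2 - 1 ∧ 0 ≤ n2 - b2 + x - 1) ∨ 0 ≤ -p0 - 2 ∨ 0 ≤ -p2 + k - 1 ∨ (0 ≤ p2 - k ∧ 0 ≤ -p2 + k ∧ 0 ≤ k) ∨ 0 ≤ -x + g - 1 ∨ (0 ≤ x - g ∧ 0 ≤ -x + g ∧ 0 ≤ g) := by
    rcases D44 with (H44 | H44) | H44 | (H44 | H44) | (H44 | H44)
    · exact Or.inl H44
    · exact Or.inr (Or.inl H44)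
    · exact Or.inr (Or.inr (Or.inl H44))
    · exact Or.inr (Or.inr (Or.inr (Or.inl H44)))
    · exact Or.inr (Or.inr (Or.inr (Or.inr (Or.inl H44))))
    · exact Or.inr (Or.inr (Or.inr (Or.inr (Or.inr (Or.inl H44)))))
    · exact Or.inr (Or.inr (Or.inr (Or.inr (Or.inr (Or.inr H44)))))
  have H7 := E7
  rcases E40 with H40 | H40
  · linarith only [H7.1, H40]
  · rcases E39 with H39 | H39 | H39
    · linarith only [H7.1, H39]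
    · rcases E5 with H5 | H5
      · linarith only [B16, B23, H39, B22, B10, B17, H5]
      · rcases E43 with H43 | H43 | H43 | H43 | H43
        · rcases E42 with H42 | H42 | H42
          · linarith only [H43.1, H42]
          · rcases E41 with H41 | H41 | H41
            · linarith only [H43.1, H41]
            · linarith only [H7.1, H41]
            · rcases E6 with H6 | H6
              · linarith only [H6.1, H42]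
              · rcases E44 with H44 | H44 | H44 | H44 | H44 | H44 | H44
                · linarith only [H44.2, B17, H41]
                · linarith only [H44.2.2.1, B17, H41]
                · linarith only [H40, H44, H6.2]
                · rcases E14 with H14 | H14
                  · rcases E2 with H2 | H2
                    · linarith only [H42, B28, H14.1, H2]
                    · linarith only [B29, H39, H42, H5, H14.1, B20, H2]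
                  · linarith only [B31, H40, H39, H5, B20, H44, H14.2]
                · linarith only [B31, H39, H5, B20, H44.2.2]
                · linarith only [H39, B17, H44]
                · linarith only [H39, B17, H44.2.1]
          · linarith only [H43.2, H42]
        · linarith only [H40, H43]
        · linarith only [B31, H39, H5, B20, H43]
        · linarith only [B31, H5, H39, B20, H43.2.1]
        · linarith only [H43, H39]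
    · linarith only [B36, B20, H39, H40]

theorem g6 {a1 a2 a3 b1 b2 b3 d1 g h h3 k n1 n2 n3 p0 p2 x y : ℤ}
    (B2 : 0 ≤ a3)
    (B8 : 0 ≤ n3 - a3)
    (B10 : 0 ≤ n2 - b2)
    (B14 : 0 ≤ n3 - 1)
    (B15 : 0 ≤ x + a1 + a2 - b1 - b2)
    (B16 : 0 ≤ -a1 - a2 + b1 + b2 - x)
    (B17 : 0 ≤ x - 1)
    (B18 : 0 ≤ y + a1 + a2 + a3 - b1 - b2 - b3)
    (B19 : 0 ≤ -a1 - a2 - a3 + b1 + b2 + b3 - y)
    (B20 : 0 ≤ y - 1)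
    (B22 : 0 ≤ a1 - b1 - d1)
    (B23 : 0 ≤ d1 - 1)
    (B26 : 0 ≤ n1 - a1 - h)
    (B27 : 0 ≤ a2 - h - 1)
    (B28 : 0 ≤ n1 - a1 - h3)
    (B29 : 0 ≤ a2 + a3 - h3 - 1)
    (B31 : 0 ≤ a3 - k - 1)
    (B34 : 0 ≤ -p0 - 1)
    (D1 : (0 ≤ a2 - 1 ∧ 0 ≤ n3 - a3 - 1) ∨ (0 ≤ b2 - 1 ∧ 0 ≤ n3 - b3 - 1))
    (D2 : 0 ≤ h - n1 + a1 ∨ 0 ≤ h - a2 + 1)
    (D3 : 0 ≤ h3 - n1 + a1 ∨ 0 ≤ h3 - a2 - a3 + 1)
    (D5 : 0 ≤ g - n2 + a2 + 1 ∨ 0 ≤ g - a3 - y + 1)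
    (D6 : (0 ≤ h - 2 ∧ 0 ≤ -2 * x - p0) ∨ (0 ≤ -h + 1 ∧ 0 ≤ p0 + x))
    (D7 : (0 ≤ h - 1 ∧ 0 ≤ -x - p0) ∨ (0 ≤ -h ∧ 0 ≤ p0))
    (D14 : (0 ≤ h3 - 2 ∧ 0 ≤ -2 * x - p2) ∨ (0 ≤ -h3 + 1 ∧ 0 ≤ p2 + x))
    (D15 : (0 ≤ h3 - 1 ∧ 0 ≤ -x - p2) ∨ (0 ≤ -h3 ∧ 0 ≤ p2))
    (D40 : 0 ≤ -h ∨ 0 ≤ -g ∨ 0 ≤ -n3 + a3 - y + 1)
    (D41 : 0 ≤ -h ∨ 0 ≤ -x + 1 ∨ 0 ≤ -x - 2 * n3 + 2 * a3 + 1)
    (D42 : 0 ≤ -b1 ∨ 0 ≤ -h ∨ 0 ≤ -n2 + b2 + 1 ∨ 0 ≤ -n2 + b2 - 2 * n3 + b3 + a3 + 1)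
    (D43 : 0 ≤ -b1 ∨ 0 ≤ -h + 1 ∨ 0 ≤ -n2 + b2 - x + 1 ∨ 0 ≤ -n2 + b2 - 2 * n3 + b3 - y + a3 + 1)
    (D44 : ((0 ≤ b1 - 1 ∧ 0 ≤ n2 - b2 + x - 2) ∨ (0 ≤ b1 - 1 ∧ 0 ≤ -n2 + b2 - x + 1 ∧ 0 ≤ n2 - b2 + x - 1 ∧ 0 ≤ -x + n2 - b2 - 1)) ∨ (0 ≤ x - 2) ∨ (0 ≤ k - 1 ∨ (0 ≤ -k ∧ 0 ≤ k ∧ 0 ≤ -p2 + k)) ∨ (0 ≤ g - 1 ∨ (0 ≤ -g ∧ 0 ≤ g ∧ 0 ≤ -x + g)))
    (D45 : ((0 ≤ b1 - 1 ∧ 0 ≤ -x + n2 - b2 - 2) ∨ (0 ≤ b1 - 1 ∧ 0 ≤ x - n2 + b2 + 1 ∧ 0 ≤ -x + n2 - b2 - 1 ∧ 0 ≤ n2 - b2 + x - 1)) ∨ (0 ≤ -p0 - 2) ∨ (0 ≤ -p2 + k - 1 ∨ (0 ≤ p2 - k ∧ 0 ≤ -p2 + k ∧ 0 ≤ k)) ∨ (0 ≤ -x + g - 1 ∨ (0 ≤ x - g ∧ 0 ≤ -x + g ∧ 0 ≤ g))) : False := by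
  have E1 := D1
  have E2 := D2
  have E3 := D3
  have E5 := D5
  have E6 := D6
  have E7 : (0 ≤ h - 1 ∧ 0 ≤ -x - p0) := by
    rcases D7 with H7 | H7
    · exact H7
    · linarith only [B34, H7.2]
  have E14 := D14
  have E15 := D15
  have E40 := D40
  have E41 := D41
  have E42 := D42
  have E43 := D43
  have E44 : (0 ≤ b1 - 1 ∧ 0 ≤ n2 - b2 + x - 2) ∨ 0 ≤ x - 2 ∨ 0 ≤ k - 1 ∨ (0 ≤ -k ∧ 0 ≤ k ∧ 0 ≤ -p2 + k) ∨ 0 ≤ g - 1 := by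
    rcases D44 with (H44 | H44) | H44 | (H44 | H44) | (H44 | H44)
    · exact Or.inl H44
    · linarith only [B17, H44.2.2.2, H44.2.1]
    · exact Or.inr (Or.inl H44)
    · exact Or.inr (Or.inr (Or.inl H44))
    · exact Or.inr (Or.inr (Or.inr (Or.inl H44)))
    · exact Or.inr (Or.inr (Or.inr (Or.inr H44)))
    · linarith only [B17, H44.1, H44.2.2]
  have E45 : (0 ≤ b1 - 1 ∧ 0 ≤ -x + n2 - b2 - 2) ∨ (0 ≤ b1 - 1 ∧ 0 ≤ x - n2 + b2 + 1 ∧ 0 ≤ -x + n2 - b2 - 1 ∧ 0 ≤ n2 - b2 + x - 1) ∨ 0 ≤ -p0 - 2 ∨ 0 ≤ -p2 + k - 1 ∨ (0 ≤ p2 - k ∧ 0 ≤ -p2 + k ∧ 0 ≤ k) ∨ 0 ≤ -x + g - 1 ∨ (0 ≤ x - g ∧ 0 ≤ -x + g ∧ 0 ≤ g) := by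
    rcases D45 with (H45 | H45) | H45 | (H45 | H45) | (H45 | H45)
    · exact Or.inl H45
    · exact Or.inr (Or.inl H45)
    · exact Or.inr (Or.inr (Or.inl H45))
    · exact Or.inr (Or.inr (Or.inr (Or.inl H45)))
    · exact Or.inr (Or.inr (Or.inr (Or.inr (Or.inl H45))))
    · exact Or.inr (Or.inr (Or.inr (Or.inr (Or.inr (Or.inl H45)))))
    · exact Or.inr (Or.inr (Or.inr (Or.inr (Or.inr (Or.inr H45)))))
  have H7 := E7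
  rcases E15 with H15 | H15
  · rcases E41 with H41 | H41 | H41
    · linarith only [H7.1, H41]
    · rcases E40 with H40 | H40 | H40
      · linarith only [H7.1, H40]
      · rcases E5 with H5 | H5
        · linarith only [B16, B23, H40, B22, B10, B17, H5]
        · rcases E44 with H44 | H44 | H44 | H44 | H44
          · rcases E42 with H42 | H42 | H42 | H42
            · linarith only [H44.1, H42]
            · linarith only [H7.1, H42]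
            · rcases E43 with H43 | H43 | H43 | H43
              · linarith only [H44.1, H43]
              · rcases E6 with H6 | H6
                · linarith only [H6.1, H43]
                · rcases E45 with H45 | H45 | H45 | H45 | H45 | H45 | H45
                  · linarith only [H45.2, B17, H42]
                  · linarith only [H45.2.2.1, B17, H42]
                  · linarith only [H41, H45, H6.2]
                  · rcases E14 with H14 | H14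
                    · rcases E2 with H2 | H2
                      · linarith only [H43, B28, H14.1, H2]
                      · linarith only [B29, H40, H43, H5, H14.1, B20, H2]
                    · linarith only [B31, H41, H40, H5, H45, B20, H14.2]
                  · linarith only [H45.1, H15.2, B17, H45.2.2]
                  · linarith only [H40, B17, H45]
                  · linarith only [H40, B17, H45.2.1]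
              · linarith only [H44.2, H43]
              · linarith only [H44.2, B16, B14, H40, H5, H43, B20, B18]
            · linarith only [H44.2, B16, B14, H40, H5, H42, B20, B18]
          · linarith only [H41, H44]
          · linarith only [B31, H40, H5, B20, H44]
          · linarith only [B31, H5, H40, B20, H44.2.1]
          · linarith only [H44, H40]
      · rcases E1 with H1 | H1
        · linarith only [H1.2, B20, H40]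
        · linarith only [B19, H1.2, H41, B15, B20, H40]
    · rcases E1 with H1 | H1
      · linarith only [H41, B17, H1.2]
      · linarith only [H41, H1.2, B19, B15, B20, B8]
  · rcases E3 with H3 | H3
    · linarith only [B26, H15.1, H7.1, H3]
    · linarith only [B27, H3, H15.1, H7.1, B2]

theorem g7 {a1 a2 a3 b1 b2 b3 d1 g h h3 k n1 n2 n3 p0 p2 p3 x y : ℤ}
    (B8 : 0 ≤ n3 - a3)
    (B10 : 0 ≤ n2 - b2)
    (B14 : 0 ≤ n3 - 1)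
    (B15 : 0 ≤ x + a1 + a2 - b1 - b2)
    (B16 : 0 ≤ -a1 - a2 + b1 + b2 - x)
    (B17 : 0 ≤ x - 1)
    (B18 : 0 ≤ y + a1 + a2 + a3 - b1 - b2 - b3)
    (B19 : 0 ≤ -a1 - a2 - a3 + b1 + b2 + b3 - y)
    (B20 : 0 ≤ y - 1)
    (B22 : 0 ≤ a1 - b1 - d1)
    (B23 : 0 ≤ d1 - 1)
    (B28 : 0 ≤ n1 - a1 - h3)
    (B29 : 0 ≤ a2 + a3 - h3 - 1)
    (B31 : 0 ≤ a3 - k - 1)
    (B34 : 0 ≤ -p0 - 1)
    (B35 : 0 ≤ -p3 - 1)
    (D1 : (0 ≤ a2 - 1 ∧ 0 ≤ n3 - a3 - 1) ∨ (0 ≤ b2 - 1 ∧ 0 ≤ n3 - b3 - 1))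
    (D2 : 0 ≤ h - n1 + a1 ∨ 0 ≤ h - a2 + 1)
    (D5 : 0 ≤ g - n2 + a2 + 1 ∨ 0 ≤ g - a3 - y + 1)
    (D6 : (0 ≤ h - 2 ∧ 0 ≤ -2 * x - p0) ∨ (0 ≤ -h + 1 ∧ 0 ≤ p0 + x))
    (D7 : (0 ≤ h - 1 ∧ 0 ≤ -x - p0) ∨ (0 ≤ -h ∧ 0 ≤ p0))
    (D14 : (0 ≤ h3 - 2 ∧ 0 ≤ -2 * x - p2) ∨ (0 ≤ -h3 + 1 ∧ 0 ≤ p2 + x))
    (D15 : (0 ≤ h3 - 1 ∧ 0 ≤ -x - p2) ∨ (0 ≤ -h3 ∧ 0 ≤ p2))
    (D19 : (0 ≤ h3 - 1 ∧ 0 ≤ -y - p3) ∨ (0 ≤ -h3 ∧ 0 ≤ p3))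
    (D40 : 0 ≤ -h ∨ 0 ≤ -g ∨ 0 ≤ -n3 + a3 - y + 1)
    (D41 : 0 ≤ -h ∨ 0 ≤ -x + 1 ∨ 0 ≤ -x - 2 * n3 + 2 * a3 + 1)
    (D42 : 0 ≤ -b1 ∨ 0 ≤ -h ∨ 0 ≤ -n2 + b2 + 1 ∨ 0 ≤ -n2 + b2 - 2 * n3 + b3 + a3 + 1)
    (D43 : 0 ≤ -b1 ∨ 0 ≤ -h + 1 ∨ 0 ≤ -n2 + b2 - x + 1 ∨ 0 ≤ -n2 + b2 - 2 * n3 + b3 - y + a3 + 1)
    (D44 : ((0 ≤ b1 - 1 ∧ 0 ≤ n2 - b2 + x - 2) ∨ (0 ≤ b1 - 1 ∧ 0 ≤ -n2 + b2 - x + 1 ∧ 0 ≤ n2 - b2 + x - 1 ∧ 0 ≤ -x + n2 - b2 - 1)) ∨ (0 ≤ x - 2) ∨ (0 ≤ k - 1 ∨ (0 ≤ -k ∧ 0 ≤ k ∧ 0 ≤ -p2 + k)) ∨ (0 ≤ g - 1 ∨ (0 ≤ -g ∧ 0 ≤ g ∧ 0 ≤ -x + g)))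
    (D45 : ((0 ≤ b1 - 1 ∧ 0 ≤ -x + n2 - b2 - 2) ∨ (0 ≤ b1 - 1 ∧ 0 ≤ x - n2 + b2 + 1 ∧ 0 ≤ -x + n2 - b2 - 1 ∧ 0 ≤ n2 - b2 + x - 1)) ∨ (0 ≤ -p0 - 2) ∨ (0 ≤ -p2 + k - 1 ∨ (0 ≤ p2 - k ∧ 0 ≤ -p2 + k ∧ 0 ≤ k)) ∨ (0 ≤ -x + g - 1 ∨ (0 ≤ x - g ∧ 0 ≤ -x + g ∧ 0 ≤ g))) : False := by
  have E1 := D1
  have E2 := D2
  have E5 := D5
  have E6 := D6
  have E7 : (0 ≤ h - 1 ∧ 0 ≤ -x - p0) := by
    rcases D7 with H7 | H7
    · exact H7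
    · linarith only [B34, H7.2]
  have E14 := D14
  have E15 := D15
  have E19 : (0 ≤ h3 - 1 ∧ 0 ≤ -y - p3) := by
    rcases D19 with H19 | H19
    · exact H19
    · linarith only [B35, H19.2]
  have E40 := D40
  have E41 := D41
  have E42 := D42
  have E43 := D43
  have E44 : (0 ≤ b1 - 1 ∧ 0 ≤ n2 - b2 + x - 2) ∨ 0 ≤ x - 2 ∨ 0 ≤ k - 1 ∨ (0 ≤ -k ∧ 0 ≤ k ∧ 0 ≤ -p2 + k) ∨ 0 ≤ g - 1 := by
    rcases D44 with (H44 | H44) | H44 | (H44 | H44) | (H44 | H44)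
    · exact Or.inl H44
    · linarith only [B17, H44.2.2.2, H44.2.1]
    · exact Or.inr (Or.inl H44)
    · exact Or.inr (Or.inr (Or.inl H44))
    · exact Or.inr (Or.inr (Or.inr (Or.inl H44)))
    · exact Or.inr (Or.inr (Or.inr (Or.inr H44)))
    · linarith only [B17, H44.1, H44.2.2]
  have E45 : (0 ≤ b1 - 1 ∧ 0 ≤ -x + n2 - b2 - 2) ∨ (0 ≤ b1 - 1 ∧ 0 ≤ x - n2 + b2 + 1 ∧ 0 ≤ -x + n2 - b2 - 1 ∧ 0 ≤ n2 - b2 + x - 1) ∨ 0 ≤ -p0 - 2 ∨ 0 ≤ -p2 + k - 1 ∨ (0 ≤ p2 - k ∧ 0 ≤ -p2 + k ∧ 0 ≤ k) ∨ 0 ≤ -x + g - 1 ∨ (0 ≤ x - g ∧ 0 ≤ -x + g ∧ 0 ≤ g) := by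
    rcases D45 with (H45 | H45) | H45 | (H45 | H45) | (H45 | H45)
    · exact Or.inl H45
    · exact Or.inr (Or.inl H45)
    · exact Or.inr (Or.inr (Or.inl H45))
    · exact Or.inr (Or.inr (Or.inr (Or.inl H45)))
    · exact Or.inr (Or.inr (Or.inr (Or.inr (Or.inl H45))))
    · exact Or.inr (Or.inr (Or.inr (Or.inr (Or.inr (Or.inl H45)))))
    · exact Or.inr (Or.inr (Or.inr (Or.inr (Or.inr (Or.inr H45)))))
  have H19 := E19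
  rcases E15 with H15 | H15
  · have H7 := E7
    rcases E41 with H41 | H41 | H41
    · linarith only [H41, H7.1]
    · rcases E40 with H40 | H40 | H40
      · linarith only [H40, H7.1]
      · rcases E5 with H5 | H5
        · linarith only [B16, B23, H40, B22, B10, B17, H5]
        · rcases E44 with H44 | H44 | H44 | H44 | H44
          · rcases E42 with H42 | H42 | H42 | H42
            · linarith only [H44.1, H42]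
            · linarith only [H42, H7.1]
            · rcases E43 with H43 | H43 | H43 | H43
              · linarith only [H44.1, H43]
              · rcases E6 with H6 | H6
                · linarith only [H6.1, H43]
                · rcases E45 with H45 | H45 | H45 | H45 | H45 | H45 | H45
                  · linarith only [H45.2, B17, H42]
                  · linarith only [H45.2.2.1, B17, H42]
                  · linarith only [H41, H45, H6.2]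
                  · rcases E14 with H14 | H14
                    · rcases E2 with H2 | H2
                      · linarith only [H43, B28, H14.1, H2]
                      · linarith only [B29, H40, H43, H5, H14.1, B20, H2]
                    · linarith only [B31, H41, H40, H5, H45, B20, H14.2]
                  · linarith only [H45.1, H15.2, B17, H45.2.2]
                  · linarith only [H40, B17, H45]
                  · linarith only [H40, B17, H45.2.1]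
              · linarith only [H44.2, H43]
              · linarith only [H44.2, B16, B14, H40, H5, H43, B20, B18]
            · linarith only [H44.2, B16, B14, H40, H5, H42, B20, B18]
          · linarith only [H41, H44]
          · linarith only [B31, H40, H5, B20, H44]
          · linarith only [B31, H5, H40, B20, H44.2.1]
          · linarith only [H44, H40]
      · rcases E1 with H1 | H1
        · linarith only [H1.2, B20, H40]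
        · linarith only [H40, B19, H1.2, B15, B20, H41]
    · rcases E1 with H1 | H1
      · linarith only [H41, B17, H1.2]
      · linarith only [H41, H1.2, B19, B15, B20, B8]
  · linarith only [H19.1, H15.1]

theorem g8_l0 {a1 a2 a3 b1 b2 b3 d1 g h h3 k n1 n2 n3 p0 p2 p7 x y : ℤ}
    (B2 : 0 ≤ a3)
    (B5 : 0 ≤ b3)
    (B10 : 0 ≤ n2 - b2)
    (B15 : 0 ≤ x + a1 + a2 - b1 - b2)
    (B16 : 0 ≤ -a1 - a2 + b1 + b2 - x)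
    (B17 : 0 ≤ x - 1)
    (B19 : 0 ≤ -a1 - a2 - a3 + b1 + b2 + b3 - y)
    (B20 : 0 ≤ y - 1)
    (B22 : 0 ≤ a1 - b1 - d1)
    (B23 : 0 ≤ d1 - 1)
    (B28 : 0 ≤ n1 - a1 - h3)
    (B29 : 0 ≤ a2 + a3 - h3 - 1)
    (B36 : 0 ≤ -y + n2 - b2 + n3 - b3 - 1)
    (E1 : (0 ≤ a2 - 1 ∧ 0 ≤ n3 - a3 - 1) ∨ (0 ≤ b2 - 1 ∧ 0 ≤ n3 - b3 - 1))
    (E2 : 0 ≤ h - n1 + a1 ∨ 0 ≤ h - a2 + 1)
    (E4 : 0 ≤ k - n1 + a1 - n2 + a2 ∨ 0 ≤ k - a3 + 1)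
    (E5 : 0 ≤ g - n2 + a2 + 1 ∨ 0 ≤ g - a3 - y + 1)
    (E6 : (0 ≤ h - 2 ∧ 0 ≤ -2 * x - p0) ∨ (0 ≤ -h + 1 ∧ 0 ≤ p0 + x))
    (E7 : (0 ≤ h - 1 ∧ 0 ≤ -x - p0) ∨ (0 ≤ -h ∧ 0 ≤ p0))
    (E14 : (0 ≤ h3 - 2 ∧ 0 ≤ -2 * x - p2) ∨ (0 ≤ -h3 + 1 ∧ 0 ≤ p2 + x))
    (E39 : 0 ≤ -y + n2 - b2 + n3 - b3 - 2 ∨ 0 ≤ -x + n2 - b2 - 1)
    (E41 : 0 ≤ -h3 ∨ 0 ≤ -x - k ∨ 0 ≤ -x - n3 + a3 + 1)
    (E43 : 0 ≤ -h ∨ 0 ≤ -n2 + b2 + 1)
    (E46 : 0 ≤ -h ∨ 0 ≤ -g ∨ 0 ≤ -n3 + a3 - y + 1)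
    (E47 : 0 ≤ -h + 1 ∨ 0 ≤ -n2 + b2 - x + 1)
    (E48 : (0 ≤ b1 - 1 ∧ 0 ≤ -x + n2 - b2 - 2) ∨ (0 ≤ b1 - 1 ∧ 0 ≤ x - n2 + b2 + 1 ∧ 0 ≤ -x + n2 - b2 - 1 ∧ 0 ≤ n2 - b2 + x - 1) ∨ 0 ≤ -p0 - 2 ∨ 0 ≤ -p2 + k - 1 ∨ (0 ≤ p2 - k ∧ 0 ≤ -p2 + k ∧ 0 ≤ k) ∨ 0 ≤ -x + g - 1 ∨ (0 ≤ x - g ∧ 0 ≤ -x + g ∧ 0 ≤ g))
    (E50 : (0 ≤ b1 - 1 ∧ 0 ≤ n2 - b2 + x - 2) ∨ 0 ≤ x - 2 ∨ 0 ≤ k - 1 ∨ (0 ≤ -k ∧ 0 ≤ k ∧ 0 ≤ -p2 + k) ∨ 0 ≤ g - 1)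
    (E51 : 0 ≤ -n3 + b3 ∨ 0 ≤ n3 - b3 - 1)
    (E52 : 0 ≤ -n2 + b2 - n3 + b3 + 2 ∨ 0 ≤ n2 - b2 + n3 - b3 - 3)
    (H34 : 0 ≤ h3 - 1 ∧ 0 ≤ -2 * y - p7) : False := by
  rcases E43 with H43 | H43
  · rcases E2 with H2 | H2
    · linarith only [H43, B28, H34.1, H2]
    · rcases E41 with H41 | H41 | H41
      · linarith only [H34.1, H41]
      · rcases E4 with H4 | H4
        · linarith only [B10, B16, B23, B28, B22, H34.1, H4, B17, H41]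
        · linarith only [H4, H43, H34.1, B29, H41, B17, H2]
      · rcases E1 with H1 | H1
        · linarith only [H41, B17, H1.2]
        · linarith only [H41, H1.2, B19, B20, B15]
  · rcases E51 with H51 | H51
    · linarith only [H51, B36, B20, H43]
    · rcases E41 with H41 | H41 | H41
      · linarith only [H34.1, H41]
      · rcases E4 with H4 | H4
        · linarith only [B10, B16, B23, B28, B22, H34.1, H4, B17, H41]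
        · rcases E39 with H39 | H39
          · rcases E52 with H52 | H52
            · linarith only [H39, B20, H52]
            · rcases E7 with H7 | H7
              · rcases E46 with H46 | H46 | H46
                · linarith only [H46, H7.1]
                · rcases E50 with H50 | H50 | H50 | H50 | H50
                  · rcases E5 with H5 | H5
                    · linarith only [B16, H50.2, B22, B23, H5, H46]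
                    · rcases E47 with H47 | H47
                      · rcases E6 with H6 | H6
                        · linarith only [H6.1, H47]
                        · rcases E48 with H48 | H48 | H48 | H48 | H48 | H48 | H48
                          · linarith only [B17, H43, H48.2]
                          · linarith only [H48.2.2.1, B17, H43]
                          · linarith only [B2, H4, H41, H48, H6.2]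
                          · rcases E14 with H14 | H14
                            · rcases E2 with H2 | H2
                              · linarith only [H47, B28, H14.1, H2]
                              · linarith only [B29, H46, H47, H14.1, H2, B20, H5]
                            · linarith only [H41, H48, H14.2]
                          · linarith only [B17, H48.2.2, H41]
                          · linarith only [H48, H46, B17]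
                          · linarith only [H48.2.1, H46, B17]
                      · linarith only [H50.2, H47]
                  · linarith only [H4, H50, H41, B2]
                  · linarith only [H50, B17, H41]
                  · linarith only [H41, B17, H50.2.1]
                  · linarith only [H50, H46]
                · linarith only [H52, H46, B19, B15, H4, H41, B20, H43, B5]
              · rcases E2 with H2 | H2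
                · linarith only [H7.1, B28, H34.1, H2]
                · linarith only [B29, H4, H7.1, H34.1, H41, B17, H2]
          · linarith only [H39, B17, H43]
      · linarith only [H41, H51, B19, B20, B15]

theorem g8 {a1 a2 a3 b1 b2 b3 d1 g h h3 k n1 n2 n3 p0 p1 p2 p3 p4 p6 p7 x y : ℤ}
    (B1 : 0 ≤ a2)
    (B2 : 0 ≤ a3)
    (B5 : 0 ≤ b3)
    (B6 : 0 ≤ n1 - a1)
    (B8 : 0 ≤ n3 - a3)
    (B10 : 0 ≤ n2 - b2)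
    (B15 : 0 ≤ x + a1 + a2 - b1 - b2)
    (B16 : 0 ≤ -a1 - a2 + b1 + b2 - x)
    (B17 : 0 ≤ x - 1)
    (B18 : 0 ≤ y + a1 + a2 + a3 - b1 - b2 - b3)
    (B19 : 0 ≤ -a1 - a2 - a3 + b1 + b2 + b3 - y)
    (B20 : 0 ≤ y - 1)
    (B22 : 0 ≤ a1 - b1 - d1)
    (B23 : 0 ≤ d1 - 1)
    (B27 : 0 ≤ a2 - h - 1)
    (B28 : 0 ≤ n1 - a1 - h3)
    (B29 : 0 ≤ a2 + a3 - h3 - 1)
    (B31 : 0 ≤ a3 - k - 1)
    (B34 : 0 ≤ -p2 + k)
    (B35 : 0 ≤ b1 - 1)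
    (B36 : 0 ≤ -y + n2 - b2 + n3 - b3 - 1)
    (D1 : (0 ≤ a2 - 1 ∧ 0 ≤ n3 - a3 - 1) ∨ (0 ≤ b2 - 1 ∧ 0 ≤ n3 - b3 - 1))
    (D2 : 0 ≤ h - n1 + a1 ∨ 0 ≤ h - a2 + 1)
    (D3 : 0 ≤ h3 - n1 + a1 ∨ 0 ≤ h3 - a2 - a3 + 1)
    (D4 : 0 ≤ k - n1 + a1 - n2 + a2 ∨ 0 ≤ k - a3 + 1)
    (D5 : 0 ≤ g - n2 + a2 + 1 ∨ 0 ≤ g - a3 - y + 1)
    (D6 : (0 ≤ h - 2 ∧ 0 ≤ -2 * x - p0) ∨ (0 ≤ -h + 1 ∧ 0 ≤ p0 + x))
    (D7 : (0 ≤ h - 1 ∧ 0 ≤ -x - p0) ∨ (0 ≤ -h ∧ 0 ≤ p0))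
    (D12 : (0 ≤ h ∧ 0 ≤ -p1) ∨ (0 ≤ -h - 1 ∧ 0 ≤ p1 - y))
    (D14 : (0 ≤ h3 - 2 ∧ 0 ≤ -2 * x - p2) ∨ (0 ≤ -h3 + 1 ∧ 0 ≤ p2 + x))
    (D15 : (0 ≤ h3 - 1 ∧ 0 ≤ -x - p2) ∨ (0 ≤ -h3 ∧ 0 ≤ p2))
    (D16 : (0 ≤ h3 ∧ 0 ≤ -p2) ∨ (0 ≤ -h3 - 1 ∧ 0 ≤ p2 - x))
    (D19 : (0 ≤ h3 - 1 ∧ 0 ≤ -y - p3) ∨ (0 ≤ -h3 ∧ 0 ≤ p3))
    (D23 : (0 ≤ h ∧ 0 ≤ -x - p4) ∨ (0 ≤ -h - 1 ∧ 0 ≤ p4))
    (D34 : (0 ≤ h3 - 1 ∧ 0 ≤ -2 * y - p7) ∨ (0 ≤ -h3 ∧ 0 ≤ p7 + y))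
    (D35 : (0 ≤ h3 ∧ 0 ≤ -y - p7) ∨ (0 ≤ -h3 - 1 ∧ 0 ≤ p7))
    (D38 : 0 ≤ -p2 + k - 1 ∨ 0 ≤ -p3 - 1)
    (D39 : 0 ≤ -y + n2 - b2 + n3 - b3 - 2 ∨ 0 ≤ -x + n2 - b2 - 1)
    (D40 : 0 ≤ -h3 - 1 ∨ 0 ≤ -k ∨ 0 ≤ -x - n3 + a3 + y + 1)
    (D41 : 0 ≤ -h3 ∨ 0 ≤ -x - k ∨ 0 ≤ -x - n3 + a3 + 1)
    (D42 : 0 ≤ -b1 ∨ 0 ≤ -h3 - 1 ∨ 0 ≤ -n2 + b2 - k + x ∨ 0 ≤ -n2 + b2 - n3 + b3 + y + 1)
    (D43 : 0 ≤ -b1 ∨ 0 ≤ -h ∨ 0 ≤ -n2 + b2 + 1 ∨ 0 ≤ -n2 + b2 - 2 * n3 + b3 + a3 + 1)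
    (D44 : 0 ≤ -h - h3 - 1 ∨ 0 ≤ -k ∨ 0 ≤ -n3 + a3 + 1)
    (D45 : 0 ≤ -b1 ∨ 0 ≤ -h - 1 ∨ 0 ≤ -n2 + b2 + x + 1 ∨ 0 ≤ -n2 + b2 - 2 * n3 + b3 + a3 + y + 1)
    (D46 : 0 ≤ -h ∨ 0 ≤ -g ∨ 0 ≤ -n3 + a3 - y + 1)
    (D47 : 0 ≤ -b1 ∨ 0 ≤ -h + 1 ∨ 0 ≤ -n2 + b2 - x + 1 ∨ 0 ≤ -n2 + b2 - 2 * n3 + b3 - y + a3 + 1)
    (D48 : ((0 ≤ b1 - 1 ∧ 0 ≤ -x + n2 - b2 - 2) ∨ (0 ≤ b1 - 1 ∧ 0 ≤ x - n2 + b2 + 1 ∧ 0 ≤ -x + n2 - b2 - 1 ∧ 0 ≤ n2 - b2 + x - 1)) ∨ (0 ≤ -p0 - 2) ∨ (0 ≤ -p2 + k - 1 ∨ (0 ≤ p2 - k ∧ 0 ≤ -p2 + k ∧ 0 ≤ k)) ∨ (0 ≤ -x + g - 1 ∨ (0 ≤ x - g ∧ 0 ≤ -x + g ∧ 0 ≤ g)))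
    (D49 : ((0 ≤ b1 - 1 ∧ 0 ≤ -y + n2 - b2 + n3 - b3 - 2)) ∨ (0 ≤ -y + x + n3 - a3 - 2) ∨ (0 ≤ -p1 + n3 - a3 - 2 ∨ (0 ≤ p1 - n3 + a3 + 1 ∧ 0 ≤ -p1 + n3 - a3 - 1 ∧ 0 ≤ h) ∨ (0 ≤ p1 - n3 + a3 + 1 ∧ 0 ≤ -p1 + n3 - a3 - 1 ∧ 0 ≤ -h - 1 ∧ 0 ≤ h + 1 ∧ 0 ≤ -p4 - x - 1)) ∨ (0 ≤ -p3 - 2 ∨ (0 ≤ p3 + 1 ∧ 0 ≤ -p3 - 1 ∧ 0 ≤ h3) ∨ (0 ≤ p3 + 1 ∧ 0 ≤ -p3 - 1 ∧ 0 ≤ -h3 - 1 ∧ 0 ≤ h3 + 1 ∧ 0 ≤ -p6 + k - x)))
    (D50 : ((0 ≤ b1 - 1 ∧ 0 ≤ n2 - b2 + x - 2) ∨ (0 ≤ b1 - 1 ∧ 0 ≤ -n2 + b2 - x + 1 ∧ 0 ≤ n2 - b2 + x - 1 ∧ 0 ≤ -x + n2 - b2 - 1)) ∨ (0 ≤ x - 2) ∨ (0 ≤ k - 1 ∨ (0 ≤ -k ∧ 0 ≤ k ∧ 0 ≤ -p2 + k)) ∨ (0 ≤ g - 1 ∨ (0 ≤ -g ∧ 0 ≤ g ∧ 0 ≤ -x + g)))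
    (D51 : 0 ≤ -n3 + b3 ∨ 0 ≤ n3 - b3 - 1)
    (D52 : 0 ≤ -n2 + b2 - n3 + b3 + 2 ∨ 0 ≤ n2 - b2 + n3 - b3 - 3) : False := by
  have E1 := D1
  have E2 := D2
  have E3 := D3
  have E4 := D4
  have E5 := D5
  have E6 := D6
  have E7 := D7
  have E12 := D12
  have E14 := D14
  have E15 := D15
  have E16 := D16
  have E19 := D19
  have E23 := D23
  have E34 := D34
  have E35 := D35
  have E38 := D38
  have E39 := D39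
  have E40 := D40
  have E41 := D41
  have E42 : 0 ≤ -h3 - 1 ∨ 0 ≤ -n2 + b2 - k + x ∨ 0 ≤ -n2 + b2 - n3 + b3 + y + 1 := by
    rcases D42 with H42 | H42 | H42 | H42
    · linarith only [B35, H42]
    · exact Or.inl H42
    · exact Or.inr (Or.inl H42)
    · exact Or.inr (Or.inr H42)
  have E43 : 0 ≤ -h ∨ 0 ≤ -n2 + b2 + 1 := by
    rcases D43 with H43 | H43 | H43 | H43
    · linarith only [B35, H43]
    · exact Or.inl H43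
    · exact Or.inr H43
    · linarith only [B36, B20, H43, B8]
  have E44 := D44
  have E45 : 0 ≤ -h - 1 ∨ 0 ≤ -n2 + b2 + x + 1 ∨ 0 ≤ -n2 + b2 - 2 * n3 + b3 + a3 + y + 1 := by
    rcases D45 with H45 | H45 | H45 | H45
    · linarith only [B35, H45]
    · exact Or.inl H45
    · exact Or.inr (Or.inl H45)
    · exact Or.inr (Or.inr H45)
  have E46 := D46
  have E47 : 0 ≤ -h + 1 ∨ 0 ≤ -n2 + b2 - x + 1 := by
    rcases D47 with H47 | H47 | H47 | H47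
    · linarith only [B35, H47]
    · exact Or.inl H47
    · exact Or.inr H47
    · linarith only [B20, H47, B36, B8]
  have E48 : (0 ≤ b1 - 1 ∧ 0 ≤ -x + n2 - b2 - 2) ∨ (0 ≤ b1 - 1 ∧ 0 ≤ x - n2 + b2 + 1 ∧ 0 ≤ -x + n2 - b2 - 1 ∧ 0 ≤ n2 - b2 + x - 1) ∨ 0 ≤ -p0 - 2 ∨ 0 ≤ -p2 + k - 1 ∨ (0 ≤ p2 - k ∧ 0 ≤ -p2 + k ∧ 0 ≤ k) ∨ 0 ≤ -x + g - 1 ∨ (0 ≤ x - g ∧ 0 ≤ -x + g ∧ 0 ≤ g) := by
    rcases D48 with (H48 | H48) | H48 | (H48 | H48) | (H48 | H48)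
    · exact Or.inl H48
    · exact Or.inr (Or.inl H48)
    · exact Or.inr (Or.inr (Or.inl H48))
    · exact Or.inr (Or.inr (Or.inr (Or.inl H48)))
    · exact Or.inr (Or.inr (Or.inr (Or.inr (Or.inl H48))))
    · exact Or.inr (Or.inr (Or.inr (Or.inr (Or.inr (Or.inl H48)))))
    · exact Or.inr (Or.inr (Or.inr (Or.inr (Or.inr (Or.inr H48)))))
  have E49 : (0 ≤ b1 - 1 ∧ 0 ≤ -y + n2 - b2 + n3 - b3 - 2) ∨ 0 ≤ -y + x + n3 - a3 - 2 ∨ 0 ≤ -p1 + n3 - a3 - 2 ∨ (0 ≤ p1 - n3 + a3 + 1 ∧ 0 ≤ -p1 + n3 - a3 - 1 ∧ 0 ≤ h) ∨ (0 ≤ p1 - n3 + a3 + 1 ∧ 0 ≤ -p1 + n3 - a3 - 1 ∧ 0 ≤ -h - 1 ∧ 0 ≤ h + 1 ∧ 0 ≤ -p4 - x - 1) ∨ 0 ≤ -p3 - 2 ∨ (0 ≤ p3 + 1 ∧ 0 ≤ -p3 - 1 ∧ 0 ≤ h3) ∨ (0 ≤ p3 + 1 ∧ 0 ≤ -p3 - 1 ∧ 0 ≤ -h3 - 1 ∧ 0 ≤ h3 + 1 ∧ 0 ≤ -p6 + k - x) := by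
    rcases D49 with H49 | H49 | (H49 | H49 | H49) | (H49 | H49 | H49)
    · exact Or.inl H49
    · exact Or.inr (Or.inl H49)
    · exact Or.inr (Or.inr (Or.inl H49))
    · exact Or.inr (Or.inr (Or.inr (Or.inl H49)))
    · exact Or.inr (Or.inr (Or.inr (Or.inr (Or.inl H49))))
    · exact Or.inr (Or.inr (Or.inr (Or.inr (Or.inr (Or.inl H49)))))
    · exact Or.inr (Or.inr (Or.inr (Or.inr (Or.inr (Or.inr (Or.inl H49))))))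
    · exact Or.inr (Or.inr (Or.inr (Or.inr (Or.inr (Or.inr (Or.inr H49))))))
  have E50 : (0 ≤ b1 - 1 ∧ 0 ≤ n2 - b2 + x - 2) ∨ 0 ≤ x - 2 ∨ 0 ≤ k - 1 ∨ (0 ≤ -k ∧ 0 ≤ k ∧ 0 ≤ -p2 + k) ∨ 0 ≤ g - 1 := by
    rcases D50 with (H50 | H50) | H50 | (H50 | H50) | (H50 | H50)
    · exact Or.inl H50
    · linarith only [B17, H50.2.2.2, H50.2.1]
    · exact Or.inr (Or.inl H50)
    · exact Or.inr (Or.inr (Or.inl H50))
    · exact Or.inr (Or.inr (Or.inr (Or.inl H50)))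
    · exact Or.inr (Or.inr (Or.inr (Or.inr H50)))
    · linarith only [B17, H50.1, H50.2.2]
  have E51 := D51
  have E52 := D52
  rcases E23 with H23 | H23
  · rcases E34 with H34 | H34
    · exact g8_l0 B2 B5 B10 B15 B16 B17 B19 B20 B22 B23 B28 B29 B36 E1 E2 E4 E5 E6 E7 E14 E39 E41 E43 E46 E47 E48 E50 E51 E52 H34
    · rcases E19 with H19 | H19
      · linarith only [H19.1, H34.1]
      · rcases E15 with H15 | H15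
        · linarith only [H15.1, H34.1]
        · rcases E3 with H3 | H3
          · rcases E16 with H16 | H16
            · rcases E38 with H38 | H38
              · rcases E40 with H40 | H40 | H40
                · linarith only [H40, H16.1]
                · linarith only [H40, H38, H15.2]
                · rcases E44 with H44 | H44 | H44
                  · linarith only [H16.1, H23.1, H44]
                  · linarith only [H44, H38, H15.2]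
                  · rcases E1 with H1 | H1
                    · rcases E42 with H42 | H42 | H42
                      · linarith only [H42, H16.1]
                      · linarith only [B19, H1.2, H38, H42, B36, H40, B15, H15.2]
                      · rcases E39 with H39 | H39
                        · linarith only [H39, H42]
                        · rcases E45 with H45 | H45 | H45
                          · linarith only [H45, H23.1]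
                          · rcases E51 with H51 | H51
                            · linarith only [B36, B16, H51, H1.2, B18, H45]
                            · linarith only [H39, H51, B19, B15, H42, H44]
                          · linarith only [H1.2, H45, B36]
                    · rcases E39 with H39 | H39
                      · rcases E42 with H42 | H42 | H42
                        · linarith only [H42, H16.1]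
                        · linarith only [H39, H40, B19, B15, H42, H38, H15.2, B8]
                        · linarith only [H39, H42]
                      · rcases E42 with H42 | H42 | H42
                        · linarith only [H42, H16.1]
                        · linarith only [H39, H42, H38, H15.2]
                        · linarith only [H39, B15, H44, H1.2, H42, B19]
              · linarith only [H19.2, H38]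
            · linarith only [H16.1, B6, H3]
          · linarith only [B31, H3, H34.1, H23.1, B27, B34, H15.2]
  · rcases E12 with H12 | H12
    · linarith only [H23.1, H12.1]
    · rcases E35 with H35 | H35
      · rcases E15 with H15 | H15
        · rcases E34 with H34 | H34
          · exact g8_l0 B2 B5 B10 B15 B16 B17 B19 B20 B22 B23 B28 B29 B36 E1 E2 E4 E5 E6 E7 E14 E39 E41 E43 E46 E47 E48 E50 E51 E52 H34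
          · linarith only [H15.1, H34.1]
        · rcases E19 with H19 | H19
          · linarith only [H19.1, H15.1]
          · rcases E38 with H38 | H38
            · rcases E40 with H40 | H40 | H40
              · linarith only [H40, H35.1]
              · linarith only [H40, H38, H15.2]
              · rcases E49 with H49 | H49 | H49 | H49 | H49 | H49 | H49 | H49
                · rcases E42 with H42 | H42 | H42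
                  · linarith only [H42, H35.1]
                  · linarith only [H49.2, H40, B19, B15, H42, H15.2, H38, B8]
                  · linarith only [H49.2, H42]
                · linarith only [H49, H40]
                · linarith only [H49, B17, H12.2, H40]
                · linarith only [H23.1, H49.2.2]
                · linarith only [B17, H23.2, H49.2.2.2.2]
                · linarith only [H49, H19.2]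
                · linarith only [H49.2.1, H19.2]
                · linarith only [H49.2.1, H19.2]
            · linarith only [H38, H19.2]
      · rcases E3 with H3 | H3
        · linarith only [H35.1, B6, H3]
        · rcases E15 with H15 | H15
          · linarith only [H35.1, H15.1]
          · linarith only [B31, H3, H35.1, B1, B34, H15.2]

theorem g9 {a1 a2 a3 b1 b2 b3 d1 g h h3 k n1 n2 n3 p0 p2 p3 p5 p6 x y : ℤ}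
    (B1 : 0 ≤ a2)
    (B2 : 0 ≤ a3)
    (B5 : 0 ≤ b3)
    (B6 : 0 ≤ n1 - a1)
    (B8 : 0 ≤ n3 - a3)
    (B10 : 0 ≤ n2 - b2)
    (B16 : 0 ≤ -a1 - a2 + b1 + b2 - x)
    (B17 : 0 ≤ x - 1)
    (B18 : 0 ≤ y + a1 + a2 + a3 - b1 - b2 - b3)
    (B20 : 0 ≤ y - 1)
    (B22 : 0 ≤ a1 - b1 - d1)
    (B23 : 0 ≤ d1 - 1)
    (B28 : 0 ≤ n1 - a1 - h3)
    (B29 : 0 ≤ a2 + a3 - h3 - 1)
    (B31 : 0 ≤ a3 - k - 1)
    (B34 : 0 ≤ -p2 + k)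
    (B36 : 0 ≤ -y + x + n3 - a3 - 2)
    (D2 : 0 ≤ h - n1 + a1 ∨ 0 ≤ h - a2 + 1)
    (D3 : 0 ≤ h3 - n1 + a1 ∨ 0 ≤ h3 - a2 - a3 + 1)
    (D4 : 0 ≤ k - n1 + a1 - n2 + a2 ∨ 0 ≤ k - a3 + 1)
    (D6 : (0 ≤ h - 2 ∧ 0 ≤ -2 * x - p0) ∨ (0 ≤ -h + 1 ∧ 0 ≤ p0 + x))
    (D14 : (0 ≤ h3 - 2 ∧ 0 ≤ -2 * x - p2) ∨ (0 ≤ -h3 + 1 ∧ 0 ≤ p2 + x))
    (D15 : (0 ≤ h3 - 1 ∧ 0 ≤ -x - p2) ∨ (0 ≤ -h3 ∧ 0 ≤ p2))
    (D19 : (0 ≤ h3 - 1 ∧ 0 ≤ -y - p3) ∨ (0 ≤ -h3 ∧ 0 ≤ p3))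
    (D26 : (0 ≤ h - 1 ∧ 0 ≤ -2 * y - p5) ∨ (0 ≤ -h ∧ 0 ≤ p5 + y))
    (D31 : (0 ≤ h3 ∧ 0 ≤ -x - p6) ∨ (0 ≤ -h3 - 1 ∧ 0 ≤ p6))
    (D38 : 0 ≤ -p2 + k - 1 ∨ 0 ≤ -p3 - 1)
    (D39 : 0 ≤ -h3 - 1 ∨ 0 ≤ -k ∨ 0 ≤ -x - n3 + a3 + y + 1)
    (D40 : 0 ≤ -h3 ∨ 0 ≤ -x - k ∨ 0 ≤ -x - n3 + a3 + 1)
    (D41 : 0 ≤ -h ∨ 0 ≤ -g ∨ 0 ≤ -n3 + a3 - y + 1)
    (D42 : 0 ≤ -b1 ∨ 0 ≤ -h ∨ 0 ≤ -n2 + b2 + 1 ∨ 0 ≤ -n2 + b2 - 2 * n3 + b3 + a3 + 1)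
    (D43 : 0 ≤ -b1 ∨ 0 ≤ -h + 1 ∨ 0 ≤ -n2 + b2 - x + 1 ∨ 0 ≤ -n2 + b2 - 2 * n3 + b3 - y + a3 + 1)
    (D44 : ((0 ≤ b1 - 1 ∧ 0 ≤ n2 - b2 + x - 2) ∨ (0 ≤ b1 - 1 ∧ 0 ≤ -n2 + b2 - x + 1 ∧ 0 ≤ n2 - b2 + x - 1 ∧ 0 ≤ -x + n2 - b2 - 1)) ∨ (0 ≤ x - 2) ∨ (0 ≤ k - 1 ∨ (0 ≤ -k ∧ 0 ≤ k ∧ 0 ≤ -p2 + k)) ∨ (0 ≤ g - 1 ∨ (0 ≤ -g ∧ 0 ≤ g ∧ 0 ≤ -x + g)))
    (D45 : ((0 ≤ b1 - 1 ∧ 0 ≤ -x + n2 - b2 - 2) ∨ (0 ≤ b1 - 1 ∧ 0 ≤ x - n2 + b2 + 1 ∧ 0 ≤ -x + n2 - b2 - 1 ∧ 0 ≤ n2 - b2 + x - 1)) ∨ (0 ≤ -p0 - 2) ∨ (0 ≤ -p2 + k - 1 ∨ (0 ≤ p2 - k ∧ 0 ≤ -p2 + k ∧ 0 ≤ k)) ∨ (0 ≤ -x + g - 1 ∨ (0 ≤ x - g ∧ 0 ≤ -x + g ∧ 0 ≤ g))) : False := by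
  have E2 := D2
  have E3 := D3
  have E4 := D4
  have E6 := D6
  have E14 := D14
  have E15 := D15
  have E19 := D19
  have E26 := D26
  have E31 := D31
  have E38 := D38
  have E39 : 0 ≤ -h3 - 1 ∨ 0 ≤ -k := by
    rcases D39 with H39 | H39 | H39
    · exact Or.inl H39
    · exact Or.inr H39
    · linarith only [B36, H39]
  have E40 : 0 ≤ -h3 ∨ 0 ≤ -x - k := by
    rcases D40 with H40 | H40 | H40
    · exact Or.inl H40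
    · exact Or.inr H40
    · linarith only [B36, B20, H40]
  have E41 := D41
  have E42 : 0 ≤ -b1 ∨ 0 ≤ -h ∨ 0 ≤ -n2 + b2 + 1 := by
    rcases D42 with H42 | H42 | H42 | H42
    · exact Or.inl H42
    · exact Or.inr (Or.inl H42)
    · exact Or.inr (Or.inr H42)
    · linarith only [B36, B10, H42, B8, B18, B16]
  have E43 : 0 ≤ -b1 ∨ 0 ≤ -h + 1 ∨ 0 ≤ -n2 + b2 - x + 1 := by
    rcases D43 with H43 | H43 | H43 | H43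
    · exact Or.inl H43
    · exact Or.inr (Or.inl H43)
    · exact Or.inr (Or.inr H43)
    · linarith only [B20, B10, B18, H43, B8, B36, B16]
  have E44 : (0 ≤ b1 - 1 ∧ 0 ≤ n2 - b2 + x - 2) ∨ 0 ≤ x - 2 ∨ 0 ≤ k - 1 ∨ (0 ≤ -k ∧ 0 ≤ k ∧ 0 ≤ -p2 + k) ∨ 0 ≤ g - 1 := by
    rcases D44 with (H44 | H44) | H44 | (H44 | H44) | (H44 | H44)
    · exact Or.inl H44
    · linarith only [H44.2.2.2, H44.2.1, B17]
    · exact Or.inr (Or.inl H44)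
    · exact Or.inr (Or.inr (Or.inl H44))
    · exact Or.inr (Or.inr (Or.inr (Or.inl H44)))
    · exact Or.inr (Or.inr (Or.inr (Or.inr H44)))
    · linarith only [H44.1, B17, H44.2.2]
  have E45 : (0 ≤ b1 - 1 ∧ 0 ≤ -x + n2 - b2 - 2) ∨ (0 ≤ b1 - 1 ∧ 0 ≤ x - n2 + b2 + 1 ∧ 0 ≤ -x + n2 - b2 - 1 ∧ 0 ≤ n2 - b2 + x - 1) ∨ 0 ≤ -p0 - 2 ∨ 0 ≤ -p2 + k - 1 ∨ (0 ≤ p2 - k ∧ 0 ≤ -p2 + k ∧ 0 ≤ k) ∨ 0 ≤ -x + g - 1 ∨ (0 ≤ x - g ∧ 0 ≤ -x + g ∧ 0 ≤ g) := by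
    rcases D45 with (H45 | H45) | H45 | (H45 | H45) | (H45 | H45)
    · exact Or.inl H45
    · exact Or.inr (Or.inl H45)
    · exact Or.inr (Or.inr (Or.inl H45))
    · exact Or.inr (Or.inr (Or.inr (Or.inl H45)))
    · exact Or.inr (Or.inr (Or.inr (Or.inr (Or.inl H45))))
    · exact Or.inr (Or.inr (Or.inr (Or.inr (Or.inr (Or.inl H45)))))
    · exact Or.inr (Or.inr (Or.inr (Or.inr (Or.inr (Or.inr H45)))))
  rcases E31 with H31 | H31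
  · rcases E39 with H39 | H39
    · linarith only [H39, H31.1]
    · rcases E4 with H4 | H4
      · linarith only [B23, B16, B22, B6, B10, H39, B17, H4]
      · rcases E15 with H15 | H15
        · rcases E40 with H40 | H40
          · linarith only [H15.1, H40]
          · rcases E26 with H26 | H26
            · rcases E41 with H41 | H41 | H41
              · linarith only [H41, H26.1]
              · rcases E44 with H44 | H44 | H44 | H44 | H44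
                · rcases E42 with H42 | H42 | H42
                  · linarith only [H44.1, H42]
                  · linarith only [H42, H26.1]
                  · rcases E43 with H43 | H43 | H43
                    · linarith only [H44.1, H43]
                    · rcases E6 with H6 | H6
                      · linarith only [H6.1, H43]
                      · rcases E45 with H45 | H45 | H45 | H45 | H45 | H45 | H45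
                        · linarith only [H45.2, B17, H42]
                        · linarith only [H45.2.2.1, B17, H42]
                        · linarith only [H40, H4, H45, H6.2, B2]
                        · rcases E14 with H14 | H14
                          · rcases E2 with H2 | H2
                            · linarith only [H43, B28, H14.1, H2]
                            · linarith only [B29, H40, H4, H43, H14.1, B17, H2]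
                          · linarith only [H40, H45, H14.2]
                        · linarith only [H40, B17, H45.2.2]
                        · linarith only [H45, B17, H41]
                        · linarith only [H45.2.1, B17, H41]
                    · linarith only [H44.2, H43]
                · linarith only [H4, H40, H44, B2]
                · linarith only [H44, B17, H40]
                · linarith only [H44.2.1, B17, H40]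
                · linarith only [H44, H41]
              · linarith only [B16, B5, H4, B36, B18, B20, H41, H40]
            · rcases E2 with H2 | H2
              · linarith only [H26.1, B28, H15.1, H2]
              · linarith only [H40, B29, H4, H26.1, H15.1, B17, H2]
        · rcases E38 with H38 | H38
          · linarith only [H39, H38, H15.2]
          · rcases E19 with H19 | H19
            · linarith only [H19.1, H15.1]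
            · linarith only [H38, H19.2]
  · rcases E3 with H3 | H3
    · linarith only [H31.1, B6, H3]
    · rcases E15 with H15 | H15
      · linarith only [H31.1, H15.1]
      · linarith only [B31, H15.2, H31.1, H3, B34, B1]

theorem g10 {a1 a2 a3 b1 b2 b3 d1 g h h3 k n1 n2 n3 p0 p1 p2 p3 p5 p6 x y : ℤ}
    (B1 : 0 ≤ a2)
    (B2 : 0 ≤ a3)
    (B6 : 0 ≤ n1 - a1)
    (B10 : 0 ≤ n2 - b2)
    (B11 : 0 ≤ n3 - b3)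
    (B14 : 0 ≤ n3 - 1)
    (B15 : 0 ≤ x + a1 + a2 - b1 - b2)
    (B16 : 0 ≤ -a1 - a2 + b1 + b2 - x)
    (B17 : 0 ≤ x - 1)
    (B18 : 0 ≤ y + a1 + a2 + a3 - b1 - b2 - b3)
    (B19 : 0 ≤ -a1 - a2 - a3 + b1 + b2 + b3 - y)
    (B20 : 0 ≤ y - 1)
    (B22 : 0 ≤ a1 - b1 - d1)
    (B23 : 0 ≤ d1 - 1)
    (B26 : 0 ≤ n1 - a1 - h)
    (B27 : 0 ≤ a2 - h - 1)
    (B28 : 0 ≤ n1 - a1 - h3)
    (B29 : 0 ≤ a2 + a3 - h3 - 1)
    (B31 : 0 ≤ a3 - k - 1)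
    (B34 : 0 ≤ -p2 + k)
    (B35 : 0 ≤ -p1 + n3 - a3 - 1)
    (D1 : (0 ≤ a2 - 1 ∧ 0 ≤ n3 - a3 - 1) ∨ (0 ≤ b2 - 1 ∧ 0 ≤ n3 - b3 - 1))
    (D2 : 0 ≤ h - n1 + a1 ∨ 0 ≤ h - a2 + 1)
    (D3 : 0 ≤ h3 - n1 + a1 ∨ 0 ≤ h3 - a2 - a3 + 1)
    (D4 : 0 ≤ k - n1 + a1 - n2 + a2 ∨ 0 ≤ k - a3 + 1)
    (D5 : 0 ≤ g - n2 + a2 + 1 ∨ 0 ≤ g - a3 - y + 1)
    (D6 : (0 ≤ h - 2 ∧ 0 ≤ -2 * x - p0) ∨ (0 ≤ -h + 1 ∧ 0 ≤ p0 + x))
    (D7 : (0 ≤ h - 1 ∧ 0 ≤ -x - p0) ∨ (0 ≤ -h ∧ 0 ≤ p0))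
    (D11 : (0 ≤ h - 1 ∧ 0 ≤ -y - p1) ∨ (0 ≤ -h ∧ 0 ≤ p1))
    (D12 : (0 ≤ h ∧ 0 ≤ -p1) ∨ (0 ≤ -h - 1 ∧ 0 ≤ p1 - y))
    (D14 : (0 ≤ h3 - 2 ∧ 0 ≤ -2 * x - p2) ∨ (0 ≤ -h3 + 1 ∧ 0 ≤ p2 + x))
    (D15 : (0 ≤ h3 - 1 ∧ 0 ≤ -x - p2) ∨ (0 ≤ -h3 ∧ 0 ≤ p2))
    (D19 : (0 ≤ h3 - 1 ∧ 0 ≤ -y - p3) ∨ (0 ≤ -h3 ∧ 0 ≤ p3))
    (D26 : (0 ≤ h - 1 ∧ 0 ≤ -2 * y - p5) ∨ (0 ≤ -h ∧ 0 ≤ p5 + y))
    (D27 : (0 ≤ h ∧ 0 ≤ -y - p5) ∨ (0 ≤ -h - 1 ∧ 0 ≤ p5))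
    (D31 : (0 ≤ h3 ∧ 0 ≤ -x - p6) ∨ (0 ≤ -h3 - 1 ∧ 0 ≤ p6))
    (D38 : 0 ≤ -p2 + k - 1 ∨ 0 ≤ -p3 - 1)
    (D39 : 0 ≤ -p1 + n3 - a3 - 2 ∨ 0 ≤ -p0 - 1)
    (D40 : 0 ≤ -h3 ∨ 0 ≤ -x - k ∨ 0 ≤ -x - n3 + a3 + 1)
    (D41 : 0 ≤ -h - h3 - 1 ∨ 0 ≤ -k ∨ 0 ≤ -n3 + a3 + 1)
    (D42 : 0 ≤ -h ∨ 0 ≤ -g ∨ 0 ≤ -n3 + a3 - y + 1)
    (D43 : 0 ≤ -h3 - 1 ∨ 0 ≤ -k ∨ 0 ≤ -x - n3 + a3 + y + 1)
    (D44 : 0 ≤ -b1 ∨ 0 ≤ -h ∨ 0 ≤ -n2 + b2 + 1 ∨ 0 ≤ -n2 + b2 - 2 * n3 + b3 + a3 + 1)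
    (D45 : 0 ≤ -b1 ∨ 0 ≤ -h + 1 ∨ 0 ≤ -n2 + b2 - x + 1 ∨ 0 ≤ -n2 + b2 - 2 * n3 + b3 - y + a3 + 1)
    (D46 : ((0 ≤ b1 - 1 ∧ 0 ≤ n2 - b2 + x - 2) ∨ (0 ≤ b1 - 1 ∧ 0 ≤ -n2 + b2 - x + 1 ∧ 0 ≤ n2 - b2 + x - 1 ∧ 0 ≤ -x + n2 - b2 - 1)) ∨ (0 ≤ x - 2) ∨ (0 ≤ k - 1 ∨ (0 ≤ -k ∧ 0 ≤ k ∧ 0 ≤ -p2 + k)) ∨ (0 ≤ g - 1 ∨ (0 ≤ -g ∧ 0 ≤ g ∧ 0 ≤ -x + g)))
    (D47 : ((0 ≤ b1 - 1 ∧ 0 ≤ -x + n2 - b2 - 2) ∨ (0 ≤ b1 - 1 ∧ 0 ≤ x - n2 + b2 + 1 ∧ 0 ≤ -x + n2 - b2 - 1 ∧ 0 ≤ n2 - b2 + x - 1)) ∨ (0 ≤ -p0 - 2) ∨ (0 ≤ -p2 + k - 1 ∨ (0 ≤ p2 - k ∧ 0 ≤ -p2 + k ∧ 0 ≤ k)) ∨ (0 ≤ -x + g - 1 ∨ (0 ≤ x - g ∧ 0 ≤ -x + g ∧ 0 ≤ g))) : False := by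
  have E1 := D1
  have E2 := D2
  have E3 := D3
  have E4 := D4
  have E5 := D5
  have E6 := D6
  have E7 := D7
  have E11 := D11
  have E12 := D12
  have E14 := D14
  have E15 := D15
  have E19 := D19
  have E26 := D26
  have E27 := D27
  have E31 := D31
  have E38 := D38
  have E39 := D39
  have E40 := D40
  have E41 := D41
  have E42 := D42
  have E43 := D43
  have E44 := D44
  have E45 := D45
  have E46 : (0 ≤ b1 - 1 ∧ 0 ≤ n2 - b2 + x - 2) ∨ 0 ≤ x - 2 ∨ 0 ≤ k - 1 ∨ (0 ≤ -k ∧ 0 ≤ k ∧ 0 ≤ -p2 + k) ∨ 0 ≤ g - 1 := by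
    rcases D46 with (H46 | H46) | H46 | (H46 | H46) | (H46 | H46)
    · exact Or.inl H46
    · linarith only [B17, H46.2.2.2, H46.2.1]
    · exact Or.inr (Or.inl H46)
    · exact Or.inr (Or.inr (Or.inl H46))
    · exact Or.inr (Or.inr (Or.inr (Or.inl H46)))
    · exact Or.inr (Or.inr (Or.inr (Or.inr H46)))
    · linarith only [B17, H46.1, H46.2.2]
  have E47 : (0 ≤ b1 - 1 ∧ 0 ≤ -x + n2 - b2 - 2) ∨ (0 ≤ b1 - 1 ∧ 0 ≤ x - n2 + b2 + 1 ∧ 0 ≤ -x + n2 - b2 - 1 ∧ 0 ≤ n2 - b2 + x - 1) ∨ 0 ≤ -p0 - 2 ∨ 0 ≤ -p2 + k - 1 ∨ (0 ≤ p2 - k ∧ 0 ≤ -p2 + k ∧ 0 ≤ k) ∨ 0 ≤ -x + g - 1 ∨ (0 ≤ x - g ∧ 0 ≤ -x + g ∧ 0 ≤ g) := by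
    rcases D47 with (H47 | H47) | H47 | (H47 | H47) | (H47 | H47)
    · exact Or.inl H47
    · exact Or.inr (Or.inl H47)
    · exact Or.inr (Or.inr (Or.inl H47))
    · exact Or.inr (Or.inr (Or.inr (Or.inl H47)))
    · exact Or.inr (Or.inr (Or.inr (Or.inr (Or.inl H47))))
    · exact Or.inr (Or.inr (Or.inr (Or.inr (Or.inr (Or.inl H47)))))
    · exact Or.inr (Or.inr (Or.inr (Or.inr (Or.inr (Or.inr H47)))))
  rcases E31 with H31 | H31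
  · rcases E27 with H27 | H27
    · rcases E26 with H26 | H26
      · rcases E15 with H15 | H15
        · rcases E40 with H40 | H40 | H40
          · linarith only [H40, H15.1]
          · rcases E4 with H4 | H4
            · linarith only [B16, B23, B26, B22, H26.1, B10, H4, B17, H40]
            · rcases E42 with H42 | H42 | H42
              · linarith only [H26.1, H42]
              · rcases E46 with H46 | H46 | H46 | H46 | H46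
                · rcases E5 with H5 | H5
                  · linarith only [H46.2, B16, B22, B23, H5, H42]
                  · rcases E44 with H44 | H44 | H44 | H44
                    · linarith only [H46.1, H44]
                    · linarith only [H26.1, H44]
                    · rcases E45 with H45 | H45 | H45 | H45
                      · linarith only [H46.1, H45]
                      · rcases E6 with H6 | H6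
                        · linarith only [H6.1, H45]
                        · rcases E47 with H47 | H47 | H47 | H47 | H47 | H47 | H47
                          · linarith only [H47.2, B17, H44]
                          · linarith only [H47.2.2.1, B17, H44]
                          · linarith only [H4, H47, H40, H6.2, B2]
                          · rcases E14 with H14 | H14
                            · rcases E2 with H2 | H2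
                              · linarith only [H45, B28, H14.1, H2]
                              · linarith only [B29, H4, H45, H14.1, H40, B17, H2]
                            · linarith only [H47, H40, H14.2]
                          · linarith only [H40, B17, H47.2.2]
                          · linarith only [H47, B17, H42]
                          · linarith only [H47.2.1, B17, H42]
                      · linarith only [H46.2, H45]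
                      · linarith only [H46.2, B11, B14, H4, H45, B20, H40]
                    · linarith only [H46.2, H42, B16, B14, H4, H44, B18, H40, B17, H5]
                · linarith only [H4, H40, H46, B2]
                · linarith only [H46, B17, H40]
                · linarith only [H40, B17, H46.2.1]
                · linarith only [H46, H42]
              · linarith only [H4, B14, H40, B20, B17, H42]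
          · rcases E1 with H1 | H1
            · linarith only [H1.2, B17, H40]
            · linarith only [B19, H1.2, B20, B15, H40]
        · rcases E3 with H3 | H3
          · linarith only [B26, H15.1, H26.1, H3]
          · linarith only [B27, B31, H3, H15.1, H26.1, B34, H15.2]
      · rcases E7 with H7 | H7
        · linarith only [H7.1, H26.1]
        · rcases E39 with H39 | H39
          · rcases E11 with H11 | H11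
            · linarith only [H11.1, H26.1]
            · rcases E41 with H41 | H41 | H41
              · linarith only [H27.1, H41, H31.1]
              · rcases E4 with H4 | H4
                · linarith only [B16, B23, B22, B6, B10, H4, B17, H41]
                · rcases E15 with H15 | H15
                  · rcases E2 with H2 | H2
                    · linarith only [H26.1, B28, H15.1, H2]
                    · rcases E40 with H40 | H40 | H40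
                      · linarith only [H15.1, H40]
                      · linarith only [H40, B29, H4, H26.1, H15.1, B17, H2]
                      · linarith only [H11.2, H39, B17, H40]
                  · rcases E19 with H19 | H19
                    · linarith only [H19.1, H15.1]
                    · rcases E38 with H38 | H38
                      · linarith only [H41, H38, H15.2]
                      · linarith only [H38, H19.2]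
              · linarith only [H11.2, H39, H41]
          · linarith only [H39, H7.2]
    · rcases E2 with H2 | H2
      · linarith only [H27.1, B6, H2]
      · rcases E12 with H12 | H12
        · linarith only [H27.1, H12.1]
        · rcases E43 with H43 | H43 | H43
          · linarith only [H43, H31.1]
          · rcases E4 with H4 | H4
            · linarith only [B16, B23, B22, B6, B10, H4, B17, H43]
            · rcases E15 with H15 | H15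
              · linarith only [H43, B29, H4, H27.1, H15.1, H2]
              · rcases E19 with H19 | H19
                · linarith only [H15.1, H19.1]
                · rcases E38 with H38 | H38
                  · linarith only [H43, H38, H15.2]
                  · linarith only [H38, H19.2]
          · linarith only [H12.2, B35, B17, H43]
  · rcases E3 with H3 | H3
    · linarith only [H31.1, B6, H3]
    · rcases E15 with H15 | H15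
      · linarith only [H31.1, H15.1]
      · linarith only [B31, H15.2, H31.1, B34, H3, B1]

theorem g11 {a1 a2 a3 b1 b2 b3 d1 g h h3 k n1 n2 n3 p0 p2 p3 x y : ℤ}
    (B2 : 0 ≤ a3)
    (B10 : 0 ≤ n2 - b2)
    (B11 : 0 ≤ n3 - b3)
    (B14 : 0 ≤ n3 - 1)
    (B15 : 0 ≤ x + a1 + a2 - b1 - b2)
    (B16 : 0 ≤ -a1 - a2 + b1 + b2 - x)
    (B17 : 0 ≤ x - 1)
    (B18 : 0 ≤ y + a1 + a2 + a3 - b1 - b2 - b3)
    (B19 : 0 ≤ -a1 - a2 - a3 + b1 + b2 + b3 - y)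
    (B20 : 0 ≤ y - 1)
    (B22 : 0 ≤ a1 - b1 - d1)
    (B23 : 0 ≤ d1 - 1)
    (B28 : 0 ≤ n1 - a1 - h3)
    (B29 : 0 ≤ a2 + a3 - h3 - 1)
    (B35 : 0 ≤ -p3 - 1)
    (D1 : (0 ≤ a2 - 1 ∧ 0 ≤ n3 - a3 - 1) ∨ (0 ≤ b2 - 1 ∧ 0 ≤ n3 - b3 - 1))
    (D2 : 0 ≤ h - n1 + a1 ∨ 0 ≤ h - a2 + 1)
    (D4 : 0 ≤ k - n1 + a1 - n2 + a2 ∨ 0 ≤ k - a3 + 1)
    (D5 : 0 ≤ g - n2 + a2 + 1 ∨ 0 ≤ g - a3 - y + 1)
    (D6 : (0 ≤ h - 2 ∧ 0 ≤ -2 * x - p0) ∨ (0 ≤ -h + 1 ∧ 0 ≤ p0 + x))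
    (D7 : (0 ≤ h - 1 ∧ 0 ≤ -x - p0) ∨ (0 ≤ -h ∧ 0 ≤ p0))
    (D14 : (0 ≤ h3 - 2 ∧ 0 ≤ -2 * x - p2) ∨ (0 ≤ -h3 + 1 ∧ 0 ≤ p2 + x))
    (D19 : (0 ≤ h3 - 1 ∧ 0 ≤ -y - p3) ∨ (0 ≤ -h3 ∧ 0 ≤ p3))
    (D40 : 0 ≤ -h3 ∨ 0 ≤ -x - k ∨ 0 ≤ -x - n3 + a3 + 1)
    (D41 : 0 ≤ -h ∨ 0 ≤ -g ∨ 0 ≤ -n3 + a3 - y + 1)
    (D42 : 0 ≤ -b1 ∨ 0 ≤ -h ∨ 0 ≤ -n2 + b2 + 1 ∨ 0 ≤ -n2 + b2 - 2 * n3 + b3 + a3 + 1)
    (D43 : 0 ≤ -b1 ∨ 0 ≤ -h + 1 ∨ 0 ≤ -n2 + b2 - x + 1 ∨ 0 ≤ -n2 + b2 - 2 * n3 + b3 - y + a3 + 1)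
    (D44 : ((0 ≤ b1 - 1 ∧ 0 ≤ n2 - b2 + x - 2) ∨ (0 ≤ b1 - 1 ∧ 0 ≤ -n2 + b2 - x + 1 ∧ 0 ≤ n2 - b2 + x - 1 ∧ 0 ≤ -x + n2 - b2 - 1)) ∨ (0 ≤ x - 2) ∨ (0 ≤ k - 1 ∨ (0 ≤ -k ∧ 0 ≤ k ∧ 0 ≤ -p2 + k)) ∨ (0 ≤ g - 1 ∨ (0 ≤ -g ∧ 0 ≤ g ∧ 0 ≤ -x + g)))
    (D45 : ((0 ≤ b1 - 1 ∧ 0 ≤ -x + n2 - b2 - 2) ∨ (0 ≤ b1 - 1 ∧ 0 ≤ x - n2 + b2 + 1 ∧ 0 ≤ -x + n2 - b2 - 1 ∧ 0 ≤ n2 - b2 + x - 1)) ∨ (0 ≤ -p0 - 2) ∨ (0 ≤ -p2 + k - 1 ∨ (0 ≤ p2 - k ∧ 0 ≤ -p2 + k ∧ 0 ≤ k)) ∨ (0 ≤ -x + g - 1 ∨ (0 ≤ x - g ∧ 0 ≤ -x + g ∧ 0 ≤ g))) : False := by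
  have E1 := D1
  have E2 := D2
  have E4 := D4
  have E5 := D5
  have E6 := D6
  have E7 := D7
  have E14 := D14
  have E19 : (0 ≤ h3 - 1 ∧ 0 ≤ -y - p3) := by
    rcases D19 with H19 | H19
    · exact H19
    · linarith only [B35, H19.2]
  have E40 := D40
  have E41 := D41
  have E42 := D42
  have E43 := D43
  have E44 : (0 ≤ b1 - 1 ∧ 0 ≤ n2 - b2 + x - 2) ∨ 0 ≤ x - 2 ∨ 0 ≤ k - 1 ∨ (0 ≤ -k ∧ 0 ≤ k ∧ 0 ≤ -p2 + k) ∨ 0 ≤ g - 1 := by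
    rcases D44 with (H44 | H44) | H44 | (H44 | H44) | (H44 | H44)
    · exact Or.inl H44
    · linarith only [B17, H44.2.2.2, H44.2.1]
    · exact Or.inr (Or.inl H44)
    · exact Or.inr (Or.inr (Or.inl H44))
    · exact Or.inr (Or.inr (Or.inr (Or.inl H44)))
    · exact Or.inr (Or.inr (Or.inr (Or.inr H44)))
    · linarith only [B17, H44.1, H44.2.2]
  have E45 : (0 ≤ b1 - 1 ∧ 0 ≤ -x + n2 - b2 - 2) ∨ (0 ≤ b1 - 1 ∧ 0 ≤ x - n2 + b2 + 1 ∧ 0 ≤ -x + n2 - b2 - 1 ∧ 0 ≤ n2 - b2 + x - 1) ∨ 0 ≤ -p0 - 2 ∨ 0 ≤ -p2 + k - 1 ∨ (0 ≤ p2 - k ∧ 0 ≤ -p2 + k ∧ 0 ≤ k) ∨ 0 ≤ -x + g - 1 ∨ (0 ≤ x - g ∧ 0 ≤ -x + g ∧ 0 ≤ g) := by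
    rcases D45 with (H45 | H45) | H45 | (H45 | H45) | (H45 | H45)
    · exact Or.inl H45
    · exact Or.inr (Or.inl H45)
    · exact Or.inr (Or.inr (Or.inl H45))
    · exact Or.inr (Or.inr (Or.inr (Or.inl H45)))
    · exact Or.inr (Or.inr (Or.inr (Or.inr (Or.inl H45))))
    · exact Or.inr (Or.inr (Or.inr (Or.inr (Or.inr (Or.inl H45)))))
    · exact Or.inr (Or.inr (Or.inr (Or.inr (Or.inr (Or.inr H45)))))
  have H19 := E19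
  rcases E7 with H7 | H7
  · rcases E40 with H40 | H40 | H40
    · linarith only [H19.1, H40]
    · rcases E4 with H4 | H4
      · linarith only [B16, B23, B28, B22, H19.1, B10, H4, B17, H40]
      · rcases E41 with H41 | H41 | H41
        · linarith only [H41, H7.1]
        · rcases E5 with H5 | H5
          · linarith only [B16, B23, B22, B10, H5, B17, H41]
          · rcases E44 with H44 | H44 | H44 | H44 | H44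
            · rcases E42 with H42 | H42 | H42 | H42
              · linarith only [H44.1, H42]
              · linarith only [H42, H7.1]
              · rcases E43 with H43 | H43 | H43 | H43
                · linarith only [H44.1, H43]
                · rcases E6 with H6 | H6
                  · linarith only [H6.1, H43]
                  · rcases E45 with H45 | H45 | H45 | H45 | H45 | H45 | H45
                    · linarith only [H45.2, B17, H42]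
                    · linarith only [H45.2.2.1, B17, H42]
                    · linarith only [H4, H45, H6.2, H40, B2]
                    · rcases E14 with H14 | H14
                      · rcases E2 with H2 | H2
                        · linarith only [H43, B28, H14.1, H2]
                        · linarith only [H40, B29, H4, H43, H14.1, B17, H2]
                      · linarith only [H45, H40, H14.2]
                    · linarith only [H45.2.2, B17, H40]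
                    · linarith only [H45, B17, H41]
                    · linarith only [H45.2.1, B17, H41]
                · linarith only [H44.2, H43]
                · linarith only [H44.2, B11, B14, H4, H43, B20, H40]
              · linarith only [H44.2, H41, B16, B14, H4, H42, B18, B17, H40, H5]
            · linarith only [H4, H44, H40, B2]
            · linarith only [H44, B17, H40]
            · linarith only [H44.2.1, B17, H40]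
            · linarith only [H44, H41]
        · linarith only [H41, H4, B14, B17, B20, H40]
    · rcases E1 with H1 | H1
      · linarith only [H1.2, B17, H40]
      · linarith only [H40, B19, H1.2, B20, B15]
  · rcases E2 with H2 | H2
    · linarith only [H7.1, B28, H19.1, H2]
    · rcases E40 with H40 | H40 | H40
      · linarith only [H19.1, H40]
      · rcases E4 with H4 | H4
        · linarith only [B16, B23, B28, B22, H19.1, B10, H4, B17, H40]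
        · linarith only [H40, B29, H4, H7.1, H19.1, B17, H2]
      · rcases E1 with H1 | H1
        · linarith only [H1.2, B17, H40]
        · linarith only [H40, B19, H1.2, B20, B15]

theorem g12 {a1 a2 a3 b1 b2 b3 d1 g h h3 k n1 n2 n3 p1 p2 p3 p4 p5 p6 p7 x y : ℤ}
    (B6 : 0 ≤ n1 - a1)
    (B10 : 0 ≤ n2 - b2)
    (B11 : 0 ≤ n3 - b3)
    (B15 : 0 ≤ x + a1 + a2 - b1 - b2)
    (B16 : 0 ≤ -a1 - a2 + b1 + b2 - x)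
    (B17 : 0 ≤ x - 1)
    (B18 : 0 ≤ y + a1 + a2 + a3 - b1 - b2 - b3)
    (B19 : 0 ≤ -a1 - a2 - a3 + b1 + b2 + b3 - y)
    (B20 : 0 ≤ y - 1)
    (B21 : 0 ≤ d1 - a1 + b1)
    (B25 : 0 ≤ -d1 + 1)
    (B27 : 0 ≤ a2 - h - 1)
    (B28 : 0 ≤ n1 - a1 - h3)
    (B32 : 0 ≤ n2 - a2 - g - 1)
    (B33 : 0 ≤ a3 + y - g - 1)
    (B35 : 0 ≤ -x + g - 1)
    (B36 : 0 ≤ b1 - 1)
    (B37 : 0 ≤ -y + n2 - b2 + n3 - b3 - 1)
    (D1 : (0 ≤ a2 - 1 ∧ 0 ≤ n3 - a3 - 1) ∨ (0 ≤ b2 - 1 ∧ 0 ≤ n3 - b3 - 1))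
    (D3 : 0 ≤ h3 - n1 + a1 ∨ 0 ≤ h3 - a2 - a3 + 1)
    (D4 : 0 ≤ k - n1 + a1 - n2 + a2 ∨ 0 ≤ k - a3 + 1)
    (D12 : (0 ≤ h ∧ 0 ≤ -p1) ∨ (0 ≤ -h - 1 ∧ 0 ≤ p1 - y))
    (D16 : (0 ≤ h3 ∧ 0 ≤ -p2) ∨ (0 ≤ -h3 - 1 ∧ 0 ≤ p2 - x))
    (D19 : (0 ≤ h3 - 1 ∧ 0 ≤ -y - p3) ∨ (0 ≤ -h3 ∧ 0 ≤ p3))
    (D23 : (0 ≤ h ∧ 0 ≤ -x - p4) ∨ (0 ≤ -h - 1 ∧ 0 ≤ p4))
    (D27 : (0 ≤ h ∧ 0 ≤ -y - p5) ∨ (0 ≤ -h - 1 ∧ 0 ≤ p5))
    (D30 : (0 ≤ h3 - 1 ∧ 0 ≤ -2 * x - p6) ∨ (0 ≤ -h3 ∧ 0 ≤ p6 + x))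
    (D31 : (0 ≤ h3 ∧ 0 ≤ -x - p6) ∨ (0 ≤ -h3 - 1 ∧ 0 ≤ p6))
    (D34 : (0 ≤ h3 - 1 ∧ 0 ≤ -2 * y - p7) ∨ (0 ≤ -h3 ∧ 0 ≤ p7 + y))
    (D38 : 0 ≤ -y + n2 - b2 + n3 - b3 - 2 ∨ 0 ≤ -x + n2 - b2 - 1)
    (D39 : 0 ≤ -b1 ∨ 0 ≤ -h3 - 1 ∨ 0 ≤ -n2 + b2 - k + x ∨ 0 ≤ -n2 + b2 - n3 + b3 + y + 1)
    (D40 : 0 ≤ -g + x ∨ 0 ≤ -x - n3 + a3 + y + 1)
    (D41 : 0 ≤ -h - 1 ∨ 0 ≤ -g + x ∨ 0 ≤ -n3 + a3 + 1)
    (D42 : 0 ≤ -b1 ∨ 0 ≤ -h - 1 ∨ 0 ≤ -n2 + b2 + x + 1 ∨ 0 ≤ -n2 + b2 - 2 * n3 + b3 + a3 + y + 1)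
    (D43 : 0 ≤ -b1 ∨ 0 ≤ -h3 ∨ 0 ≤ -n2 + b2 - k ∨ 0 ≤ -n2 + b2 - n3 + b3 + 1)
    (D44 : ((0 ≤ b1 - 1 ∧ 0 ≤ -y + n2 - b2 + n3 - b3 - 2)) ∨ (0 ≤ -y + x + n3 - a3 - 2) ∨ (0 ≤ -p1 + n3 - a3 - 2 ∨ (0 ≤ p1 - n3 + a3 + 1 ∧ 0 ≤ -p1 + n3 - a3 - 1 ∧ 0 ≤ h) ∨ (0 ≤ p1 - n3 + a3 + 1 ∧ 0 ≤ -p1 + n3 - a3 - 1 ∧ 0 ≤ -h - 1 ∧ 0 ≤ h + 1 ∧ 0 ≤ -p4 - x - 1)) ∨ (0 ≤ -p3 - 2 ∨ (0 ≤ p3 + 1 ∧ 0 ≤ -p3 - 1 ∧ 0 ≤ h3) ∨ (0 ≤ p3 + 1 ∧ 0 ≤ -p3 - 1 ∧ 0 ≤ -h3 - 1 ∧ 0 ≤ h3 + 1 ∧ 0 ≤ -p6 + k - x)))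
    (D45 : (0 ≤ x + n3 - a3 - y - 2) ∨ (0 ≤ h ∨ (0 ≤ -h - 1 ∧ 0 ≤ h + 1 ∧ 0 ≤ -p5 + n3 - a3 - y - 2) ∨ (0 ≤ -h - 1 ∧ 0 ≤ h + 1 ∧ 0 ≤ p5 - n3 + a3 + y + 1 ∧ 0 ≤ -p5 + n3 - a3 - y - 1 ∧ 0 ≤ -p4 - x - 1)) ∨ (0 ≤ h3 ∨ (0 ≤ -h3 - 1 ∧ 0 ≤ h3 + 1 ∧ 0 ≤ -p7 - y - 2) ∨ (0 ≤ -h3 - 1 ∧ 0 ≤ h3 + 1 ∧ 0 ≤ p7 + y + 1 ∧ 0 ≤ -p7 - y - 1 ∧ 0 ≤ -p6 + k - x)))
    (D46 : 0 ≤ -n3 + b3 ∨ 0 ≤ n3 - b3 - 1) : False := by
  have E1 := D1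
  have E3 := D3
  have E4 := D4
  have E12 := D12
  have E16 := D16
  have E19 := D19
  have E23 := D23
  have E27 := D27
  have E30 := D30
  have E31 := D31
  have E34 := D34
  have E38 := D38
  have E39 : 0 ≤ -h3 - 1 ∨ 0 ≤ -n2 + b2 - k + x ∨ 0 ≤ -n2 + b2 - n3 + b3 + y + 1 := by
    rcases D39 with H39 | H39 | H39 | H39
    · linarith only [B36, H39]
    · exact Or.inl H39
    · exact Or.inr (Or.inl H39)
    · exact Or.inr (Or.inr H39)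
  have E40 : 0 ≤ -x - n3 + a3 + y + 1 := by
    rcases D40 with H40 | H40
    · linarith only [B35, H40]
    · exact H40
  have E41 : 0 ≤ -h - 1 ∨ 0 ≤ -n3 + a3 + 1 := by
    rcases D41 with H41 | H41 | H41
    · exact Or.inl H41
    · linarith only [B35, H41]
    · exact Or.inr H41
  have E42 : 0 ≤ -h - 1 ∨ 0 ≤ -n2 + b2 + x + 1 ∨ 0 ≤ -n2 + b2 - 2 * n3 + b3 + a3 + y + 1 := by
    rcases D42 with H42 | H42 | H42 | H42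
    · linarith only [B36, H42]
    · exact Or.inl H42
    · exact Or.inr (Or.inl H42)
    · exact Or.inr (Or.inr H42)
  have E43 : 0 ≤ -h3 ∨ 0 ≤ -n2 + b2 - k := by
    rcases D43 with H43 | H43 | H43 | H43
    · linarith only [B36, H43]
    · exact Or.inl H43
    · exact Or.inr H43
    · linarith only [H43, B20, B37]
  have E44 : (0 ≤ b1 - 1 ∧ 0 ≤ -y + n2 - b2 + n3 - b3 - 2) ∨ 0 ≤ -y + x + n3 - a3 - 2 ∨ 0 ≤ -p1 + n3 - a3 - 2 ∨ (0 ≤ p1 - n3 + a3 + 1 ∧ 0 ≤ -p1 + n3 - a3 - 1 ∧ 0 ≤ h) ∨ (0 ≤ p1 - n3 + a3 + 1 ∧ 0 ≤ -p1 + n3 - a3 - 1 ∧ 0 ≤ -h - 1 ∧ 0 ≤ h + 1 ∧ 0 ≤ -p4 - x - 1) ∨ 0 ≤ -p3 - 2 ∨ (0 ≤ p3 + 1 ∧ 0 ≤ -p3 - 1 ∧ 0 ≤ h3) ∨ (0 ≤ p3 + 1 ∧ 0 ≤ -p3 - 1 ∧ 0 ≤ -h3 - 1 ∧ 0 ≤ h3 + 1 ∧ 0 ≤ -p6 + k - x) := by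
    rcases D44 with H44 | H44 | (H44 | H44 | H44) | (H44 | H44 | H44)
    · exact Or.inl H44
    · exact Or.inr (Or.inl H44)
    · exact Or.inr (Or.inr (Or.inl H44))
    · exact Or.inr (Or.inr (Or.inr (Or.inl H44)))
    · exact Or.inr (Or.inr (Or.inr (Or.inr (Or.inl H44))))
    · exact Or.inr (Or.inr (Or.inr (Or.inr (Or.inr (Or.inl H44)))))
    · exact Or.inr (Or.inr (Or.inr (Or.inr (Or.inr (Or.inr (Or.inl H44))))))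
    · exact Or.inr (Or.inr (Or.inr (Or.inr (Or.inr (Or.inr (Or.inr H44))))))
  have E45 : 0 ≤ x + n3 - a3 - y - 2 ∨ 0 ≤ h ∨ (0 ≤ -h - 1 ∧ 0 ≤ h + 1 ∧ 0 ≤ -p5 + n3 - a3 - y - 2) ∨ (0 ≤ -h - 1 ∧ 0 ≤ h + 1 ∧ 0 ≤ p5 - n3 + a3 + y + 1 ∧ 0 ≤ -p5 + n3 - a3 - y - 1 ∧ 0 ≤ -p4 - x - 1) ∨ 0 ≤ h3 ∨ (0 ≤ -h3 - 1 ∧ 0 ≤ h3 + 1 ∧ 0 ≤ -p7 - y - 2) ∨ (0 ≤ -h3 - 1 ∧ 0 ≤ h3 + 1 ∧ 0 ≤ p7 + y + 1 ∧ 0 ≤ -p7 - y - 1 ∧ 0 ≤ -p6 + k - x) := by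
    rcases D45 with H45 | (H45 | H45 | H45) | (H45 | H45 | H45)
    · exact Or.inl H45
    · exact Or.inr (Or.inl H45)
    · exact Or.inr (Or.inr (Or.inl H45))
    · exact Or.inr (Or.inr (Or.inr (Or.inl H45)))
    · exact Or.inr (Or.inr (Or.inr (Or.inr (Or.inl H45))))
    · exact Or.inr (Or.inr (Or.inr (Or.inr (Or.inr (Or.inl H45)))))
    · exact Or.inr (Or.inr (Or.inr (Or.inr (Or.inr (Or.inr H45)))))
  have E46 := D46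
  have H40 := E40
  rcases E27 with H27 | H27
  · rcases E41 with H41 | H41
    · linarith only [H41, H27.1]
    · rcases E30 with H30 | H30
      · rcases E43 with H43 | H43
        · linarith only [H30.1, H43]
        · rcases E4 with H4 | H4
          · linarith only [B35, B17, B32, B28, H30.1, H43, B10, H4]
          · linarith only [B35, B33, B17, B19, B21, B32, B25, H43, B37, B15, H4, H41]
      · rcases E3 with H3 | H3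
        · rcases E16 with H16 | H16
          · rcases E39 with H39 | H39 | H39
            · linarith only [H39, H16.1]
            · rcases E4 with H4 | H4
              · linarith only [B10, B35, B32, B6, H39, H4]
              · linarith only [B15, B33, B35, B19, H39, B37, H4, H40]
            · rcases E38 with H38 | H38
              · linarith only [H39, H38]
              · rcases E1 with H1 | H1
                · rcases E42 with H42 | H42 | H42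
                  · linarith only [H42, H27.1]
                  · rcases E46 with H46 | H46
                    · linarith only [B37, H46, B16, H1.2, B18, H42]
                    · linarith only [H38, H39, H46, B19, B15, H41]
                  · linarith only [H1.2, H42, B37]
                · linarith only [H38, H39, H41, H1.2, B15, B19]
          · linarith only [H16.1, B6, H3]
        · linarith only [B35, H27.1, B19, H41, B27, H3, B33, B15, H30.1, B11]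
  · rcases E23 with H23 | H23
    · linarith only [H27.1, H23.1]
    · rcases E12 with H12 | H12
      · linarith only [H27.1, H12.1]
      · rcases E31 with H31 | H31
        · rcases E19 with H19 | H19
          · rcases E43 with H43 | H43
            · linarith only [H19.1, H43]
            · rcases E4 with H4 | H4
              · linarith only [B10, B35, B32, B28, H19.1, H43, B17, H4]
              · linarith only [B15, B33, B35, B19, H43, B37, B17, H4, H40]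
          · rcases E44 with H44 | H44 | H44 | H44 | H44 | H44 | H44 | H44
            · rcases E39 with H39 | H39 | H39
              · linarith only [H39, H31.1]
              · rcases E4 with H4 | H4
                · linarith only [B15, H44.2, B35, H40, B32, B6, H39, B19, B20, H4]
                · linarith only [B15, H44.2, B35, B33, H39, B19, H4, H40]
              · linarith only [H39, H44.2]
            · linarith only [H44, H40]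
            · linarith only [H44, B17, H40, H12.2]
            · linarith only [H27.1, H44.2.2]
            · linarith only [B17, H23.2, H44.2.2.2.2]
            · linarith only [H44, H19.2]
            · linarith only [H44.2.1, H19.2]
            · linarith only [H44.2.1, H19.2]
        · rcases E34 with H34 | H34
          · linarith only [H31.1, H34.1]
          · rcases E45 with H45 | H45 | H45 | H45 | H45 | H45 | H45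
            · linarith only [H45, H40]
            · linarith only [H45, H27.1]
            · linarith only [H45.2.2, B17, H27.2, H40]
            · linarith only [B17, H23.2, H45.2.2.2.2]
            · linarith only [H31.1, H45]
            · linarith only [H34.2, H45.2.2]
            · linarith only [H45.2.2.2.1, H34.2]

theorem g13 {a3 g n3 x y : ℤ}
    (B35 : 0 ≤ -x + g - 1)
    (B37 : 0 ≤ -y + x + n3 - a3 - 2)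
    (D38 : 0 ≤ -g + x ∨ 0 ≤ -x - n3 + a3 + y + 1) : False := by
  have E38 : False := by
    rcases D38 with H38 | H38
    · linarith only [B35, H38]
    · linarith only [B37, H38]
  exact E38

theorem g14 {a1 a2 a3 b1 b2 b3 g h h3 k n1 n2 n3 p0 p1 p7 x y : ℤ}
    (B11 : 0 ≤ n3 - b3)
    (B15 : 0 ≤ x + a1 + a2 - b1 - b2)
    (B17 : 0 ≤ x - 1)
    (B19 : 0 ≤ -a1 - a2 - a3 + b1 + b2 + b3 - y)
    (B20 : 0 ≤ y - 1)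
    (B26 : 0 ≤ n1 - a1 - h)
    (B27 : 0 ≤ a2 - h - 1)
    (B28 : 0 ≤ n1 - a1 - h3)
    (B32 : 0 ≤ n2 - a2 - g - 1)
    (B33 : 0 ≤ a3 + y - g - 1)
    (B35 : 0 ≤ -x + g - 1)
    (B36 : 0 ≤ -p1 + n3 - a3 - 1)
    (D1 : (0 ≤ a2 - 1 ∧ 0 ≤ n3 - a3 - 1) ∨ (0 ≤ b2 - 1 ∧ 0 ≤ n3 - b3 - 1))
    (D3 : 0 ≤ h3 - n1 + a1 ∨ 0 ≤ h3 - a2 - a3 + 1)
    (D4 : 0 ≤ k - n1 + a1 - n2 + a2 ∨ 0 ≤ k - a3 + 1)
    (D7 : (0 ≤ h - 1 ∧ 0 ≤ -x - p0) ∨ (0 ≤ -h ∧ 0 ≤ p0))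
    (D11 : (0 ≤ h - 1 ∧ 0 ≤ -y - p1) ∨ (0 ≤ -h ∧ 0 ≤ p1))
    (D12 : (0 ≤ h ∧ 0 ≤ -p1) ∨ (0 ≤ -h - 1 ∧ 0 ≤ p1 - y))
    (D34 : (0 ≤ h3 - 1 ∧ 0 ≤ -2 * y - p7) ∨ (0 ≤ -h3 ∧ 0 ≤ p7 + y))
    (D38 : 0 ≤ -p1 + n3 - a3 - 2 ∨ 0 ≤ -p0 - 1)
    (D39 : 0 ≤ -h - 1 ∨ 0 ≤ -g + x ∨ 0 ≤ -n3 + a3 + 1)
    (D40 : 0 ≤ -g + x ∨ 0 ≤ -x - n3 + a3 + y + 1)
    (D41 : 0 ≤ -h3 ∨ 0 ≤ -x - k ∨ 0 ≤ -x - n3 + a3 + 1) : False := by
  have E1 := D1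
  have E3 := D3
  have E4 := D4
  have E7 := D7
  have E11 := D11
  have E12 := D12
  have E34 := D34
  have E38 := D38
  have E39 : 0 ≤ -h - 1 ∨ 0 ≤ -n3 + a3 + 1 := by
    rcases D39 with H39 | H39 | H39
    · exact Or.inl H39
    · linarith only [B35, H39]
    · exact Or.inr H39
  have E40 : 0 ≤ -x - n3 + a3 + y + 1 := by
    rcases D40 with H40 | H40
    · linarith only [B35, H40]
    · exact H40
  have E41 := D41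
  have H40 := E40
  rcases E12 with H12 | H12
  · rcases E39 with H39 | H39
    · linarith only [H39, H12.1]
    · rcases E34 with H34 | H34
      · rcases E41 with H41 | H41 | H41
        · linarith only [H34.1, H41]
        · rcases E4 with H4 | H4
          · linarith only [B32, B28, H41, H34.1, B35, H4, B17]
          · linarith only [B33, B19, B15, H41, B35, B11, B17, H4, H39]
        · rcases E1 with H1 | H1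
          · linarith only [H1.2, B17, H41]
          · linarith only [B19, B15, H1.2, B20, H41]
      · rcases E3 with H3 | H3
        · rcases E11 with H11 | H11
          · linarith only [B26, H34.1, H11.1, H3]
          · rcases E38 with H38 | H38
            · linarith only [H11.2, H38, H39]
            · rcases E7 with H7 | H7
              · linarith only [H11.1, H7.1]
              · linarith only [H38, H7.2]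
        · linarith only [B35, B27, B33, H3, H12.1, B11, B19, H34.1, B15, H39]
  · linarith only [B17, H12.2, B36, H40]

theorem g15 {a1 a2 a3 b1 b2 b3 g h h3 k n1 n2 n3 p3 p5 x y : ℤ}
    (B11 : 0 ≤ n3 - b3)
    (B15 : 0 ≤ x + a1 + a2 - b1 - b2)
    (B17 : 0 ≤ x - 1)
    (B19 : 0 ≤ -a1 - a2 - a3 + b1 + b2 + b3 - y)
    (B20 : 0 ≤ y - 1)
    (B28 : 0 ≤ n1 - a1 - h3)
    (B29 : 0 ≤ a2 + a3 - h3 - 1)
    (B32 : 0 ≤ n2 - a2 - g - 1)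
    (B33 : 0 ≤ a3 + y - g - 1)
    (B35 : 0 ≤ -x + g - 1)
    (B36 : 0 ≤ -p3 - 1)
    (D1 : (0 ≤ a2 - 1 ∧ 0 ≤ n3 - a3 - 1) ∨ (0 ≤ b2 - 1 ∧ 0 ≤ n3 - b3 - 1))
    (D2 : 0 ≤ h - n1 + a1 ∨ 0 ≤ h - a2 + 1)
    (D4 : 0 ≤ k - n1 + a1 - n2 + a2 ∨ 0 ≤ k - a3 + 1)
    (D19 : (0 ≤ h3 - 1 ∧ 0 ≤ -y - p3) ∨ (0 ≤ -h3 ∧ 0 ≤ p3))
    (D27 : (0 ≤ h ∧ 0 ≤ -y - p5) ∨ (0 ≤ -h - 1 ∧ 0 ≤ p5))
    (D39 : 0 ≤ -h3 ∨ 0 ≤ -x - k ∨ 0 ≤ -x - n3 + a3 + 1)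
    (D40 : 0 ≤ -h - 1 ∨ 0 ≤ -g + x ∨ 0 ≤ -n3 + a3 + 1) : False := by
  have E1 := D1
  have E2 := D2
  have E4 := D4
  have E19 : (0 ≤ h3 - 1 ∧ 0 ≤ -y - p3) := by
    rcases D19 with H19 | H19
    · exact H19
    · linarith only [B36, H19.2]
  have E27 := D27
  have E39 := D39
  have E40 : 0 ≤ -h - 1 ∨ 0 ≤ -n3 + a3 + 1 := by
    rcases D40 with H40 | H40 | H40
    · exact Or.inl H40
    · linarith only [B35, H40]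
    · exact Or.inr H40
  have H19 := E19
  rcases E27 with H27 | H27
  · rcases E40 with H40 | H40
    · linarith only [H40, H27.1]
    · rcases E39 with H39 | H39 | H39
      · linarith only [H19.1, H39]
      · rcases E4 with H4 | H4
        · linarith only [B32, B28, H39, H19.1, B35, H4, B17]
        · linarith only [B33, B19, B15, H39, B35, B11, B17, H4, H40]
      · rcases E1 with H1 | H1
        · linarith only [H1.2, B17, H39]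
        · linarith only [B19, B15, H1.2, B20, H39]
  · rcases E2 with H2 | H2
    · linarith only [H27.1, B28, H19.1, H2]
    · rcases E1 with H1 | H1
      · linarith only [H1.1, H27.1, H2]
      · rcases E39 with H39 | H39 | H39
        · linarith only [H19.1, H39]
        · rcases E4 with H4 | H4
          · linarith only [B32, B28, H39, H19.1, B35, H4, B17]
          · linarith only [B29, H27.1, H39, H19.1, B17, H4, H2]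
        · linarith only [B19, B15, H1.2, B20, H39]

theorem los11 {n1 n2 n3 a1 a2 a3 b1 b2 b3 x y d1 : ℤ}
    (B0 : 0 ≤ a1)
    (B1 : 0 ≤ a2)
    (B2 : 0 ≤ a3)
    (B3 : 0 ≤ b1)
    (B4 : 0 ≤ b2)
    (B5 : 0 ≤ b3)
    (B6 : 0 ≤ n1 - a1)
    (B7 : 0 ≤ n2 - a2)
    (B8 : 0 ≤ n3 - a3)
    (B9 : 0 ≤ n1 - b1)
    (B10 : 0 ≤ n2 - b2)
    (B11 : 0 ≤ n3 - b3)
    (B12 : 0 ≤ n1 - 1)
    (B13 : 0 ≤ n2 - 1)
    (B14 : 0 ≤ n3 - 1)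
    (B15 : 0 ≤ x + a1 + a2 - b1 - b2)
    (B16 : 0 ≤ -a1 - a2 + b1 + b2 - x)
    (B17 : 0 ≤ x - 1)
    (B18 : 0 ≤ y + a1 + a2 + a3 - b1 - b2 - b3)
    (B19 : 0 ≤ -a1 - a2 - a3 + b1 + b2 + b3 - y)
    (B20 : 0 ≤ y - 1)
    (B21 : 0 ≤ d1 - a1 + b1)
    (B22 : 0 ≤ a1 - b1 - d1)
    (B23 : 0 ≤ d1 - 1)
    (B24 : 0 ≤ d1 - 1)
    (B25 : 0 ≤ -d1 + 1)
    (hex : 0 ≤ b1 - 1) :
    LosC n1 n2 n3 a1 a2 a3 b1 b2 b3 (2) (-n2 + b2 - x + 1) (-n2 + b2 - n3 + b3 - y + 1) := by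
  unfold LosC
  refine ⟨?_, ?_, ?_, ?_, ?_, ?_, ?_, ?_⟩ <;> omega

theorem los12 {n1 n2 n3 a1 a2 a3 b1 b2 b3 x y d1 : ℤ}
    (B0 : 0 ≤ a1)
    (B1 : 0 ≤ a2)
    (B2 : 0 ≤ a3)
    (B3 : 0 ≤ b1)
    (B4 : 0 ≤ b2)
    (B5 : 0 ≤ b3)
    (B6 : 0 ≤ n1 - a1)
    (B7 : 0 ≤ n2 - a2)
    (B8 : 0 ≤ n3 - a3)
    (B9 : 0 ≤ n1 - b1)
    (B10 : 0 ≤ n2 - b2)
    (B11 : 0 ≤ n3 - b3)
    (B12 : 0 ≤ n1 - 1)
    (B13 : 0 ≤ n2 - 1)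
    (B14 : 0 ≤ n3 - 1)
    (B15 : 0 ≤ x + a1 + a2 - b1 - b2)
    (B16 : 0 ≤ -a1 - a2 + b1 + b2 - x)
    (B17 : 0 ≤ x - 1)
    (B18 : 0 ≤ y + a1 + a2 + a3 - b1 - b2 - b3)
    (B19 : 0 ≤ -a1 - a2 - a3 + b1 + b2 + b3 - y)
    (B20 : 0 ≤ y - 1)
    (B21 : 0 ≤ d1 - a1 + b1)
    (B22 : 0 ≤ a1 - b1 - d1)
    (B23 : 0 ≤ d1 - 1)
    (B24 : 0 ≤ d1 - 1)
    (B25 : 0 ≤ -d1 + 1) :
    LosC n1 n2 n3 a1 a2 a3 b1 b2 b3 (1) (-x + 1) (-x - n3 + a3 + 1) := by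
  unfold LosC
  refine ⟨?_, ?_, ?_, ?_, ?_, ?_, ?_, ?_⟩ <;> omega

theorem los22 {n1 n2 n3 a1 a2 a3 b1 b2 b3 x y d1 h : ℤ}
    (B0 : 0 ≤ a1)
    (B1 : 0 ≤ a2)
    (B2 : 0 ≤ a3)
    (B3 : 0 ≤ b1)
    (B4 : 0 ≤ b2)
    (B5 : 0 ≤ b3)
    (B6 : 0 ≤ n1 - a1)
    (B7 : 0 ≤ n2 - a2)
    (B8 : 0 ≤ n3 - a3)
    (B9 : 0 ≤ n1 - b1)
    (B10 : 0 ≤ n2 - b2)
    (B11 : 0 ≤ n3 - b3)
    (B12 : 0 ≤ n1 - 1)
    (B13 : 0 ≤ n2 - 1)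
    (B14 : 0 ≤ n3 - 1)
    (B15 : 0 ≤ x + a1 + a2 - b1 - b2)
    (B16 : 0 ≤ -a1 - a2 + b1 + b2 - x)
    (B17 : 0 ≤ x - 1)
    (B18 : 0 ≤ y + a1 + a2 + a3 - b1 - b2 - b3)
    (B19 : 0 ≤ -a1 - a2 - a3 + b1 + b2 + b3 - y)
    (B20 : 0 ≤ y - 1)
    (B21 : 0 ≤ d1 - a1 + b1)
    (B22 : 0 ≤ a1 - b1 - d1)
    (B23 : 0 ≤ d1 - 1)
    (B24 : 0 ≤ d1 - 1)
    (B25 : 0 ≤ -d1 + 1)
    (B26 : 0 ≤ n1 - a1 - h)
    (B27 : 0 ≤ a2 - h - 1)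
    (C_Dh : 0 ≤ h - n1 + a1 ∨ 0 ≤ h - a2 + 1) :
    LosC n1 n2 n3 a1 a2 a3 b1 b2 b3 (-h) (1) (-n3 + a3 + 1) := by
  unfold LosC
  refine ⟨?_, ?_, ?_, ?_, ?_, ?_, ?_, ?_⟩ <;> omega

theorem los33 {n1 n2 n3 a1 a2 a3 b1 b2 b3 x y d1 h3 k : ℤ}
    (B0 : 0 ≤ a1)
    (B1 : 0 ≤ a2)
    (B2 : 0 ≤ a3)
    (B3 : 0 ≤ b1)
    (B4 : 0 ≤ b2)
    (B5 : 0 ≤ b3)
    (B6 : 0 ≤ n1 - a1)
    (B7 : 0 ≤ n2 - a2)
    (B8 : 0 ≤ n3 - a3)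
    (B9 : 0 ≤ n1 - b1)
    (B10 : 0 ≤ n2 - b2)
    (B11 : 0 ≤ n3 - b3)
    (B12 : 0 ≤ n1 - 1)
    (B13 : 0 ≤ n2 - 1)
    (B14 : 0 ≤ n3 - 1)
    (B15 : 0 ≤ x + a1 + a2 - b1 - b2)
    (B16 : 0 ≤ -a1 - a2 + b1 + b2 - x)
    (B17 : 0 ≤ x - 1)
    (B18 : 0 ≤ y + a1 + a2 + a3 - b1 - b2 - b3)
    (B19 : 0 ≤ -a1 - a2 - a3 + b1 + b2 + b3 - y)
    (B20 : 0 ≤ y - 1)
    (B21 : 0 ≤ d1 - a1 + b1)
    (B22 : 0 ≤ a1 - b1 - d1)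
    (B23 : 0 ≤ d1 - 1)
    (B24 : 0 ≤ d1 - 1)
    (B25 : 0 ≤ -d1 + 1)
    (B28 : 0 ≤ n1 - a1 - h3)
    (B29 : 0 ≤ a2 + a3 - h3 - 1)
    (B30 : 0 ≤ n1 - a1 + n2 - a2 - k)
    (B31 : 0 ≤ a3 - k - 1)
    (C_Dh3 : 0 ≤ h3 - n1 + a1 ∨ 0 ≤ h3 - a2 - a3 + 1)
    (C_Dk : 0 ≤ k - n1 + a1 - n2 + a2 ∨ 0 ≤ k - a3 + 1) :
    LosC n1 n2 n3 a1 a2 a3 b1 b2 b3 (-h3) (-k) (1) := by
  unfold LosC
  refine ⟨?_, ?_, ?_, ?_, ?_, ?_, ?_, ?_⟩ <;> omega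

theorem los13 {n1 n2 n3 a1 a2 a3 b1 b2 b3 x y d1 g : ℤ}
    (B0 : 0 ≤ a1)
    (B1 : 0 ≤ a2)
    (B2 : 0 ≤ a3)
    (B3 : 0 ≤ b1)
    (B4 : 0 ≤ b2)
    (B5 : 0 ≤ b3)
    (B6 : 0 ≤ n1 - a1)
    (B7 : 0 ≤ n2 - a2)
    (B8 : 0 ≤ n3 - a3)
    (B9 : 0 ≤ n1 - b1)
    (B10 : 0 ≤ n2 - b2)
    (B11 : 0 ≤ n3 - b3)
    (B12 : 0 ≤ n1 - 1)
    (B13 : 0 ≤ n2 - 1)
    (B14 : 0 ≤ n3 - 1)
    (B15 : 0 ≤ x + a1 + a2 - b1 - b2)
    (B16 : 0 ≤ -a1 - a2 + b1 + b2 - x)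
    (B17 : 0 ≤ x - 1)
    (B18 : 0 ≤ y + a1 + a2 + a3 - b1 - b2 - b3)
    (B19 : 0 ≤ -a1 - a2 - a3 + b1 + b2 + b3 - y)
    (B20 : 0 ≤ y - 1)
    (B21 : 0 ≤ d1 - a1 + b1)
    (B22 : 0 ≤ a1 - b1 - d1)
    (B23 : 0 ≤ d1 - 1)
    (B24 : 0 ≤ d1 - 1)
    (B25 : 0 ≤ -d1 + 1)
    (B32 : 0 ≤ n2 - a2 - g - 1)
    (B33 : 0 ≤ a3 + y - g - 1)
    (C_Dg : 0 ≤ g - n2 + a2 + 1 ∨ 0 ≤ g - a3 - y + 1) :
    LosC n1 n2 n3 a1 a2 a3 b1 b2 b3 (1) (-g) (-y + 1) := by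
  unfold LosC
  refine ⟨?_, ?_, ?_, ?_, ?_, ?_, ?_, ?_⟩ <;> omega

theorem hd {n1 n2 n3 a1 a2 a3 b1 b2 b3 x y d1 h h3 k g : ℤ}
    (B0 : 0 ≤ a1)
    (B1 : 0 ≤ a2)
    (B2 : 0 ≤ a3)
    (B3 : 0 ≤ b1)
    (B4 : 0 ≤ b2)
    (B5 : 0 ≤ b3)
    (B6 : 0 ≤ n1 - a1)
    (B7 : 0 ≤ n2 - a2)
    (B8 : 0 ≤ n3 - a3)
    (B9 : 0 ≤ n1 - b1)
    (B10 : 0 ≤ n2 - b2)
    (B11 : 0 ≤ n3 - b3)
    (B12 : 0 ≤ n1 - 1)
    (B13 : 0 ≤ n2 - 1)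
    (B14 : 0 ≤ n3 - 1)
    (B15 : 0 ≤ x + a1 + a2 - b1 - b2)
    (B16 : 0 ≤ -a1 - a2 + b1 + b2 - x)
    (B17 : 0 ≤ x - 1)
    (B18 : 0 ≤ y + a1 + a2 + a3 - b1 - b2 - b3)
    (B19 : 0 ≤ -a1 - a2 - a3 + b1 + b2 + b3 - y)
    (B20 : 0 ≤ y - 1)
    (B21 : 0 ≤ d1 - a1 + b1)
    (B22 : 0 ≤ a1 - b1 - d1)
    (B23 : 0 ≤ d1 - 1)
    (B24 : 0 ≤ d1 - 1)
    (B25 : 0 ≤ -d1 + 1)
    (B26 : 0 ≤ n1 - a1 - h)
    (B27 : 0 ≤ a2 - h - 1)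
    (B28 : 0 ≤ n1 - a1 - h3)
    (B29 : 0 ≤ a2 + a3 - h3 - 1)
    (B30 : 0 ≤ n1 - a1 + n2 - a2 - k)
    (B31 : 0 ≤ a3 - k - 1)
    (B32 : 0 ≤ n2 - a2 - g - 1)
    (B33 : 0 ≤ a3 + y - g - 1)
    (C_Dh : 0 ≤ h - n1 + a1 ∨ 0 ≤ h - a2 + 1)
    (C_Dh3 : 0 ≤ h3 - n1 + a1 ∨ 0 ≤ h3 - a2 - a3 + 1)
    (C_Dk : 0 ≤ k - n1 + a1 - n2 + a2 ∨ 0 ≤ k - a3 + 1)
    (C_Dg : 0 ≤ g - n2 + a2 + 1 ∨ 0 ≤ g - a3 - y + 1) :
    ∀ c1 c2 c3, LosC n1 n2 n3 a1 a2 a3 b1 b2 b3 c1 c2 c3 →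
      ∃ v ∈ ([⟨0 ≤ b1 - 1, 2, -n2 + b2 - x + 1, -n2 + b2 - n3 + b3 - y + 1⟩, ⟨True, 1, -x + 1, -x - n3 + a3 + 1⟩, ⟨True, -h, 1, -n3 + a3 + 1⟩, ⟨True, -h3, -k, 1⟩, ⟨True, 1, -g, -y + 1⟩] : List LV), v.ex ∧ v.c1 ≤ c1 ∧ v.c2 ≤ c2 ∧ v.c3 ≤ c3 := by
  intro c1 c2 c3 hc
  obtain ⟨q1, q2, q3, q4, q5, q6, qa, qb⟩ := hc
  rcases qb with qb | qb | qb
  · clear qa
    clear C_Dh C_Dh3 C_Dk C_Dg
    refine ⟨_, List.Mem.head _, ?_, ?_, ?_, ?_⟩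
    · show 0 ≤ b1 - 1; omega
    · show 2 ≤ c1; omega
    · show -n2 + b2 - x + 1 ≤ c2; omega
    · show -n2 + b2 - n3 + b3 - y + 1 ≤ c3; omega
  · rcases qa with qa | qa | qa
    · clear C_Dh C_Dh3 C_Dk C_Dg
      refine ⟨_, List.Mem.tail _ (List.Mem.head _), ?_, ?_, ?_, ?_⟩
      · trivial
      · show 1 ≤ c1; omega
      · show -x + 1 ≤ c2; omega
      · show -x - n3 + a3 + 1 ≤ c3; omega
    · clear C_Dh3 C_Dk C_Dg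
      refine ⟨_, List.Mem.tail _ (List.Mem.tail _ (List.Mem.head _)), ?_, ?_, ?_, ?_⟩
      · trivial
      · show -h ≤ c1; omega
      · show 1 ≤ c2; omega
      · show -n3 + a3 + 1 ≤ c3; omega
    · clear C_Dh C_Dg
      refine ⟨_, List.Mem.tail _ (List.Mem.tail _ (List.Mem.tail _ (List.Mem.head _))), ?_, ?_, ?_, ?_⟩
      · trivial
      · show -h3 ≤ c1; omega
      · show -k ≤ c2; omega
      · show 1 ≤ c3; omega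
  · rcases qa with qa | qa | qa
    · clear C_Dh C_Dh3 C_Dk
      refine ⟨_, List.Mem.tail _ (List.Mem.tail _ (List.Mem.tail _ (List.Mem.tail _ (List.Mem.head _)))), ?_, ?_, ?_, ?_⟩
      · trivial
      · show 1 ≤ c1; omega
      · show -g ≤ c2; omega
      · show -y + 1 ≤ c3; omega
    · clear C_Dh3 C_Dk C_Dg
      refine ⟨_, List.Mem.tail _ (List.Mem.tail _ (List.Mem.head _)), ?_, ?_, ?_, ?_⟩
      · trivial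
      · show -h ≤ c1; omega
      · show 1 ≤ c2; omega
      · show -n3 + a3 + 1 ≤ c3; omega
    · clear C_Dh C_Dg
      refine ⟨_, List.Mem.tail _ (List.Mem.tail _ (List.Mem.tail _ (List.Mem.head _))), ?_, ?_, ?_, ?_⟩
      · trivial
      · show -h3 ≤ c1; omega
      · show -k ≤ c2; omega
      · show 1 ≤ c3; omega

theorem cvF_V1_V2_11 {b1 b2 b3 n2 n3 x y : ℤ}
    (hex : 0 ≤ b1 - 1)
    (hf : LexFail ((x) * (2) + (1) * (-n2 + b2 - x + 1) + (0) * (-n2 + b2 - n3 + b3 - y + 1))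
      ((y) * (2) + (0) * (-n2 + b2 - x + 1) + (1) * (-n2 + b2 - n3 + b3 - y + 1))
      ((0) * (2) + (0) * (-n2 + b2 - x + 1) + (0) * (-n2 + b2 - n3 + b3 - y + 1))) :
    0 ≤ b1 - 1 ∧ 0 ≤ -x + n2 - b2 - 1 ∧ (0 ≤ -x + n2 - b2 - 2 ∨ 0 ≤ -y + n2 - b2 + n3 - b3 - 1) := by
  rcases hf with hf | ⟨hf0, hf⟩ | ⟨hf0, hf1, hf⟩
  · exact ⟨by linarith only [hex], by linarith only [hf], Or.inl (by linarith only [hf])⟩
  · exact ⟨by linarith only [hex], by linarith only [hf0], Or.inr (by linarith only [hf])⟩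
  · exact ⟨by linarith only [hex], by linarith only [hf0], Or.inr (by linarith only [hf1])⟩

theorem cvF_V1_V2_12 {a3 n3 x y : ℤ}
    (hf : LexFail ((x) * (1) + (1) * (-x + 1) + (0) * (-x - n3 + a3 + 1))
      ((y) * (1) + (0) * (-x + 1) + (1) * (-x - n3 + a3 + 1))
      ((0) * (1) + (0) * (-x + 1) + (0) * (-x - n3 + a3 + 1))) :
    False := by
  rcases hf with hf | ⟨hf0, hf⟩ | ⟨hf0, hf1, hf⟩
  · exfalso; linarith only [hf]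
  · exfalso; linarith only [hf0]
  · exfalso; linarith only [hf0]

theorem cvF_V1_V2_22 {a3 h n3 p0 p1 x y : ℤ}
    (ep0 : p0 = (x) * (-h))
    (ep1 : p1 = (y) * (-h))
    (hf : LexFail ((x) * (-h) + (1) * (1) + (0) * (-n3 + a3 + 1))
      ((y) * (-h) + (0) * (1) + (1) * (-n3 + a3 + 1))
      ((0) * (-h) + (0) * (1) + (0) * (-n3 + a3 + 1))) :
    0 ≤ -p0 - 1 ∧ (0 ≤ -p0 - 2 ∨ 0 ≤ -p1 + n3 - a3 - 1) := by
  rcases hf with hf | ⟨hf0, hf⟩ | ⟨hf0, hf1, hf⟩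
  · exact ⟨by linarith only [hf, ep0], Or.inl (by linarith only [hf, ep0])⟩
  · exact ⟨by linarith only [hf0, ep0], Or.inr (by linarith only [hf, ep1])⟩
  · exact ⟨by linarith only [hf0, ep0], Or.inr (by linarith only [hf1, ep1])⟩

theorem cvF_V1_V2_33 {h3 k p2 p3 x y : ℤ}
    (ep2 : p2 = (x) * (-h3))
    (ep3 : p3 = (y) * (-h3))
    (hf : LexFail ((x) * (-h3) + (1) * (-k) + (0) * (1))
      ((y) * (-h3) + (0) * (-k) + (1) * (1))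
      ((0) * (-h3) + (0) * (-k) + (0) * (1))) :
    0 ≤ -p2 + k ∧ (0 ≤ -p2 + k - 1 ∨ 0 ≤ -p3 - 1) := by
  rcases hf with hf | ⟨hf0, hf⟩ | ⟨hf0, hf1, hf⟩
  · exact ⟨by linarith only [hf, ep2], Or.inl (by linarith only [hf, ep2])⟩
  · exact ⟨by linarith only [hf0, ep2], Or.inr (by linarith only [hf, ep3])⟩
  · exact ⟨by linarith only [hf0, ep2], Or.inr (by linarith only [hf1, ep3])⟩

theorem cvF_V1_V2_13 {g x y : ℤ}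
    (hf : LexFail ((x) * (1) + (1) * (-g) + (0) * (-y + 1))
      ((y) * (1) + (0) * (-g) + (1) * (-y + 1))
      ((0) * (1) + (0) * (-g) + (0) * (-y + 1))) :
    0 ≤ -x + g ∧ 0 ≤ -x + g - 1 := by
  rcases hf with hf | ⟨hf0, hf⟩ | ⟨hf0, hf1, hf⟩
  · exact ⟨by linarith only [hf], by linarith only [hf]⟩
  · exfalso; linarith only [hf]
  · exfalso; linarith only [hf1]

theorem FAt {n1 n2 n3 a1 a2 a3 b1 b2 b3 x y d1 h h3 k g p0 p1 p2 p3 : ℤ}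
    (B15 : 0 ≤ x + a1 + a2 - b1 - b2)
    (B16 : 0 ≤ -a1 - a2 + b1 + b2 - x)
    (B17 : 0 ≤ x - 1)
    (B18 : 0 ≤ y + a1 + a2 + a3 - b1 - b2 - b3)
    (B19 : 0 ≤ -a1 - a2 - a3 + b1 + b2 + b3 - y)
    (B20 : 0 ≤ y - 1)
    (B21 : 0 ≤ d1 - a1 + b1)
    (B22 : 0 ≤ a1 - b1 - d1)
    (B23 : 0 ≤ d1 - 1)
    (B24 : 0 ≤ d1 - 1)
    (B25 : 0 ≤ -d1 + 1)
    (ep0 : p0 = (x) * (-h))
    (ep1 : p1 = (y) * (-h))
    (ep2 : p2 = (x) * (-h3))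
    (ep3 : p3 = (y) * (-h3))
    (w1 : a1 - b1 = 1) (w2 : a1 + a2 - b1 - b2 = -x) (w3 : a1 + a2 + a3 - b1 - b2 - b3 = -y)
    (hno : ¬ ∃ u1 u2 u3 : ℤ, Good n1 n2 n3 a1 a2 a3 b1 b2 b3 u1 u2 u3)
    (hd : ∀ c1 c2 c3, LosC n1 n2 n3 a1 a2 a3 b1 b2 b3 c1 c2 c3 →
      ∃ v ∈ ([⟨0 ≤ b1 - 1, 2, -n2 + b2 - x + 1, -n2 + b2 - n3 + b3 - y + 1⟩, ⟨True, 1, -x + 1, -x - n3 + a3 + 1⟩, ⟨True, -h, 1, -n3 + a3 + 1⟩, ⟨True, -h3, -k, 1⟩, ⟨True, 1, -g, -y + 1⟩] : List LV), v.ex ∧ v.c1 ≤ c1 ∧ v.c2 ≤ c2 ∧ v.c3 ≤ c3) :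
    (0 ≤ b1 - 1 ∧ 0 ≤ -x + n2 - b2 - 1 ∧ (0 ≤ -x + n2 - b2 - 2 ∨ 0 ≤ -y + n2 - b2 + n3 - b3 - 1)) ∨ (0 ≤ -p0 - 1 ∧ (0 ≤ -p0 - 2 ∨ 0 ≤ -p1 + n3 - a3 - 1)) ∨ (0 ≤ -p2 + k ∧ (0 ≤ -p2 + k - 1 ∨ 0 ≤ -p3 - 1)) ∨ (0 ≤ -x + g ∧ 0 ≤ -x + g - 1) := by
  obtain ⟨v, hv, hex, hf⟩ := failA' w1 w2 w3 hno _ hd (x) (1) (0) (y) (0) (1) (0) (0) (0)
    ⟨by linarith only [B15, B16, B17, B18, B19, B20, B21, B22, B23, B24, B25], zero_le_one, le_refl 0⟩ ⟨by linarith only [B15, B16, B17, B18, B19, B20, B21, B22, B23, B24, B25], le_refl 0, zero_le_one⟩ ⟨le_refl 0, le_refl 0, le_refl 0⟩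
    (Or.inr ⟨by ring, Or.inr ⟨by ring, by linarith only [B15, B16, B17, B18, B19, B20, B21, B22, B23, B24, B25]⟩⟩)
  simp only [List.mem_cons, List.not_mem_nil, or_false] at hv
  rcases hv with rfl | rfl | rfl | rfl | rfl
  · exact Or.inl (cvF_V1_V2_11 hex hf)
  · exact (cvF_V1_V2_12 hf).elim
  · exact Or.inr (Or.inl (cvF_V1_V2_22 ep0 ep1 hf))
  · exact Or.inr (Or.inr (Or.inl (cvF_V1_V2_33 ep2 ep3 hf)))
  · exact Or.inr (Or.inr (Or.inr (cvF_V1_V2_13 hf)))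

theorem cvF_V2_V1_11 {b1 b2 b3 n2 n3 x y : ℤ}
    (hex : 0 ≤ b1 - 1)
    (hf : LexFail ((y) * (2) + (0) * (-n2 + b2 - x + 1) + (1) * (-n2 + b2 - n3 + b3 - y + 1))
      ((x) * (2) + (1) * (-n2 + b2 - x + 1) + (0) * (-n2 + b2 - n3 + b3 - y + 1))
      ((0) * (2) + (0) * (-n2 + b2 - x + 1) + (0) * (-n2 + b2 - n3 + b3 - y + 1))) :
    0 ≤ b1 - 1 ∧ 0 ≤ -y + n2 - b2 + n3 - b3 - 1 ∧ (0 ≤ -y + n2 - b2 + n3 - b3 - 2 ∨ 0 ≤ -x + n2 - b2 - 1) := by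
  rcases hf with hf | ⟨hf0, hf⟩ | ⟨hf0, hf1, hf⟩
  · exact ⟨by linarith only [hex], by linarith only [hf], Or.inl (by linarith only [hf])⟩
  · exact ⟨by linarith only [hex], by linarith only [hf0], Or.inr (by linarith only [hf])⟩
  · exact ⟨by linarith only [hex], by linarith only [hf0], Or.inr (by linarith only [hf1])⟩

theorem cvF_V2_V1_12 {a3 n3 x y : ℤ}
    (hf : LexFail ((y) * (1) + (0) * (-x + 1) + (1) * (-x - n3 + a3 + 1))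
      ((x) * (1) + (1) * (-x + 1) + (0) * (-x - n3 + a3 + 1))
      ((0) * (1) + (0) * (-x + 1) + (0) * (-x - n3 + a3 + 1))) :
    0 ≤ -y + x + n3 - a3 - 1 ∧ 0 ≤ -y + x + n3 - a3 - 2 := by
  rcases hf with hf | ⟨hf0, hf⟩ | ⟨hf0, hf1, hf⟩
  · exact ⟨by linarith only [hf], by linarith only [hf]⟩
  · exfalso; linarith only [hf]
  · exfalso; linarith only [hf1]

theorem cvF_V2_V1_22 {a3 h n3 p0 p1 x y : ℤ}
    (ep0 : p0 = (x) * (-h))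
    (ep1 : p1 = (y) * (-h))
    (hf : LexFail ((y) * (-h) + (0) * (1) + (1) * (-n3 + a3 + 1))
      ((x) * (-h) + (1) * (1) + (0) * (-n3 + a3 + 1))
      ((0) * (-h) + (0) * (1) + (0) * (-n3 + a3 + 1))) :
    0 ≤ -p1 + n3 - a3 - 1 ∧ (0 ≤ -p1 + n3 - a3 - 2 ∨ 0 ≤ -p0 - 1) := by
  rcases hf with hf | ⟨hf0, hf⟩ | ⟨hf0, hf1, hf⟩
  · exact ⟨by linarith only [hf, ep1], Or.inl (by linarith only [hf, ep1])⟩
  · exact ⟨by linarith only [hf0, ep1], Or.inr (by linarith only [hf, ep0])⟩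
  · exact ⟨by linarith only [hf0, ep1], Or.inr (by linarith only [hf1, ep0])⟩

theorem cvF_V2_V1_33 {h3 k p2 p3 x y : ℤ}
    (ep2 : p2 = (x) * (-h3))
    (ep3 : p3 = (y) * (-h3))
    (hf : LexFail ((y) * (-h3) + (0) * (-k) + (1) * (1))
      ((x) * (-h3) + (1) * (-k) + (0) * (1))
      ((0) * (-h3) + (0) * (-k) + (0) * (1))) :
    0 ≤ -p3 - 1 ∧ (0 ≤ -p3 - 2 ∨ 0 ≤ -p2 + k) := by
  rcases hf with hf | ⟨hf0, hf⟩ | ⟨hf0, hf1, hf⟩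
  · exact ⟨by linarith only [hf, ep3], Or.inl (by linarith only [hf, ep3])⟩
  · exact ⟨by linarith only [hf0, ep3], Or.inr (by linarith only [hf, ep2])⟩
  · exact ⟨by linarith only [hf0, ep3], Or.inr (by linarith only [hf1, ep2])⟩

theorem cvF_V2_V1_13 {g x y : ℤ}
    (hf : LexFail ((y) * (1) + (0) * (-g) + (1) * (-y + 1))
      ((x) * (1) + (1) * (-g) + (0) * (-y + 1))
      ((0) * (1) + (0) * (-g) + (0) * (-y + 1))) :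
    False := by
  rcases hf with hf | ⟨hf0, hf⟩ | ⟨hf0, hf1, hf⟩
  · exfalso; linarith only [hf]
  · exfalso; linarith only [hf0]
  · exfalso; linarith only [hf0]

theorem FBt {n1 n2 n3 a1 a2 a3 b1 b2 b3 x y d1 h h3 k g p0 p1 p2 p3 : ℤ}
    (B15 : 0 ≤ x + a1 + a2 - b1 - b2)
    (B16 : 0 ≤ -a1 - a2 + b1 + b2 - x)
    (B17 : 0 ≤ x - 1)
    (B18 : 0 ≤ y + a1 + a2 + a3 - b1 - b2 - b3)
    (B19 : 0 ≤ -a1 - a2 - a3 + b1 + b2 + b3 - y)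
    (B20 : 0 ≤ y - 1)
    (B21 : 0 ≤ d1 - a1 + b1)
    (B22 : 0 ≤ a1 - b1 - d1)
    (B23 : 0 ≤ d1 - 1)
    (B24 : 0 ≤ d1 - 1)
    (B25 : 0 ≤ -d1 + 1)
    (ep0 : p0 = (x) * (-h))
    (ep1 : p1 = (y) * (-h))
    (ep2 : p2 = (x) * (-h3))
    (ep3 : p3 = (y) * (-h3))
    (w1 : a1 - b1 = 1) (w2 : a1 + a2 - b1 - b2 = -x) (w3 : a1 + a2 + a3 - b1 - b2 - b3 = -y)
    (hno : ¬ ∃ u1 u2 u3 : ℤ, Good n1 n2 n3 a1 a2 a3 b1 b2 b3 u1 u2 u3)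
    (hd : ∀ c1 c2 c3, LosC n1 n2 n3 a1 a2 a3 b1 b2 b3 c1 c2 c3 →
      ∃ v ∈ ([⟨0 ≤ b1 - 1, 2, -n2 + b2 - x + 1, -n2 + b2 - n3 + b3 - y + 1⟩, ⟨True, 1, -x + 1, -x - n3 + a3 + 1⟩, ⟨True, -h, 1, -n3 + a3 + 1⟩, ⟨True, -h3, -k, 1⟩, ⟨True, 1, -g, -y + 1⟩] : List LV), v.ex ∧ v.c1 ≤ c1 ∧ v.c2 ≤ c2 ∧ v.c3 ≤ c3) :
    (0 ≤ b1 - 1 ∧ 0 ≤ -y + n2 - b2 + n3 - b3 - 1 ∧ (0 ≤ -y + n2 - b2 + n3 - b3 - 2 ∨ 0 ≤ -x + n2 - b2 - 1)) ∨ (0 ≤ -y + x + n3 - a3 - 1 ∧ 0 ≤ -y + x + n3 - a3 - 2) ∨ (0 ≤ -p1 + n3 - a3 - 1 ∧ (0 ≤ -p1 + n3 - a3 - 2 ∨ 0 ≤ -p0 - 1)) ∨ (0 ≤ -p3 - 1 ∧ (0 ≤ -p3 - 2 ∨ 0 ≤ -p2 + k)) := by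
  obtain ⟨v, hv, hex, hf⟩ := failA' w1 w2 w3 hno _ hd (y) (0) (1) (x) (1) (0) (0) (0) (0)
    ⟨by linarith only [B15, B16, B17, B18, B19, B20, B21, B22, B23, B24, B25], le_refl 0, zero_le_one⟩ ⟨by linarith only [B15, B16, B17, B18, B19, B20, B21, B22, B23, B24, B25], zero_le_one, le_refl 0⟩ ⟨le_refl 0, le_refl 0, le_refl 0⟩
    (Or.inr ⟨by ring, Or.inr ⟨by ring, by linarith only [B15, B16, B17, B18, B19, B20, B21, B22, B23, B24, B25]⟩⟩)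
  simp only [List.mem_cons, List.not_mem_nil, or_false] at hv
  rcases hv with rfl | rfl | rfl | rfl | rfl
  · exact Or.inl (cvF_V2_V1_11 hex hf)
  · exact Or.inr (Or.inl (cvF_V2_V1_12 hf))
  · exact Or.inr (Or.inr (Or.inl (cvF_V2_V1_22 ep0 ep1 hf)))
  · exact Or.inr (Or.inr (Or.inr (cvF_V2_V1_33 ep2 ep3 hf)))
  · exact (cvF_V2_V1_13 hf).elim

theorem cvG_e1_V1_V2_11 {b1 b2 b3 n2 n3 x y : ℤ}
    (hex : 0 ≤ b1 - 1)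
    (hf : LexFail ((1) * (2 - (1)) + (0) * (-n2 + b2 - x + 1 - (-x)) + (0) * (-n2 + b2 - n3 + b3 - y + 1 - (-y)))
      ((x) * (2 - (1)) + (1) * (-n2 + b2 - x + 1 - (-x)) + (0) * (-n2 + b2 - n3 + b3 - y + 1 - (-y)))
      ((y) * (2 - (1)) + (0) * (-n2 + b2 - x + 1 - (-x)) + (1) * (-n2 + b2 - n3 + b3 - y + 1 - (-y)))) :
    False := by
  rcases hf with hf | ⟨hf0, hf⟩ | ⟨hf0, hf1, hf⟩
  · exfalso; linarith only [hf]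
  · exfalso; linarith only [hf0]
  · exfalso; linarith only [hf0]

theorem cvG_e1_V1_V2_12 {a3 n3 x y : ℤ}
    (hf : LexFail ((1) * (1 - (1)) + (0) * (-x + 1 - (-x)) + (0) * (-x - n3 + a3 + 1 - (-y)))
      ((x) * (1 - (1)) + (1) * (-x + 1 - (-x)) + (0) * (-x - n3 + a3 + 1 - (-y)))
      ((y) * (1 - (1)) + (0) * (-x + 1 - (-x)) + (1) * (-x - n3 + a3 + 1 - (-y)))) :
    False := by
  rcases hf with hf | ⟨hf0, hf⟩ | ⟨hf0, hf1, hf⟩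
  · exfalso; linarith only [hf]
  · exfalso; linarith only [hf]
  · exfalso; linarith only [hf1]

theorem cvG_e1_V1_V2_22 {a3 h n3 p4 p5 x y : ℤ}
    (ep4 : p4 = (x) * (-h - 1))
    (ep5 : p5 = (y) * (-h - 1))
    (hf : LexFail ((1) * (-h - (1)) + (0) * (1 - (-x)) + (0) * (-n3 + a3 + 1 - (-y)))
      ((x) * (-h - (1)) + (1) * (1 - (-x)) + (0) * (-n3 + a3 + 1 - (-y)))
      ((y) * (-h - (1)) + (0) * (1 - (-x)) + (1) * (-n3 + a3 + 1 - (-y)))) :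
    0 ≤ h ∨ (0 ≤ -h - 1 ∧ 0 ≤ h + 1 ∧ 0 ≤ -p4 - x - 2) ∨ (0 ≤ -h - 1 ∧ 0 ≤ h + 1 ∧ 0 ≤ p4 + x + 1 ∧ 0 ≤ -p4 - x - 1 ∧ 0 ≤ -p5 + n3 - a3 - y - 1) := by
  rcases hf with hf | ⟨hf0, hf⟩ | ⟨hf0, hf1, hf⟩
  · exact Or.inl (by linarith only [hf])
  · exact Or.inr (Or.inl (⟨by linarith only [hf0], by linarith only [hf0], by linarith only [hf, ep4]⟩))
  · exact Or.inr (Or.inr (⟨by linarith only [hf0], by linarith only [hf0], by linarith only [hf1, ep4], by linarith only [hf1, ep4], by linarith only [hf, ep5]⟩))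

theorem cvG_e1_V1_V2_33 {h3 k p6 p7 x y : ℤ}
    (ep6 : p6 = (x) * (-h3 - 1))
    (ep7 : p7 = (y) * (-h3 - 1))
    (hf : LexFail ((1) * (-h3 - (1)) + (0) * (-k - (-x)) + (0) * (1 - (-y)))
      ((x) * (-h3 - (1)) + (1) * (-k - (-x)) + (0) * (1 - (-y)))
      ((y) * (-h3 - (1)) + (0) * (-k - (-x)) + (1) * (1 - (-y)))) :
    0 ≤ h3 ∨ (0 ≤ -h3 - 1 ∧ 0 ≤ h3 + 1 ∧ 0 ≤ -p6 + k - x - 1) ∨ (0 ≤ -h3 - 1 ∧ 0 ≤ h3 + 1 ∧ 0 ≤ p6 - k + x ∧ 0 ≤ -p6 + k - x ∧ 0 ≤ -p7 - y - 1) := by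
  rcases hf with hf | ⟨hf0, hf⟩ | ⟨hf0, hf1, hf⟩
  · exact Or.inl (by linarith only [hf])
  · exact Or.inr (Or.inl (⟨by linarith only [hf0], by linarith only [hf0], by linarith only [hf, ep6]⟩))
  · exact Or.inr (Or.inr (⟨by linarith only [hf0], by linarith only [hf0], by linarith only [hf1, ep6], by linarith only [hf1, ep6], by linarith only [hf, ep7]⟩))

theorem cvG_e1_V1_V2_13 {g x y : ℤ}
    (hf : LexFail ((1) * (1 - (1)) + (0) * (-g - (-x)) + (0) * (-y + 1 - (-y)))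
      ((x) * (1 - (1)) + (1) * (-g - (-x)) + (0) * (-y + 1 - (-y)))
      ((y) * (1 - (1)) + (0) * (-g - (-x)) + (1) * (-y + 1 - (-y)))) :
    0 ≤ g - x - 1 := by
  rcases hf with hf | ⟨hf0, hf⟩ | ⟨hf0, hf1, hf⟩
  · exfalso; linarith only [hf]
  · exact by linarith only [hf]
  · exfalso; linarith only [hf]

theorem Gt_e1_V1_V2 {n1 n2 n3 a1 a2 a3 b1 b2 b3 x y d1 h h3 k g p4 p5 p6 p7 : ℤ}
    (B15 : 0 ≤ x + a1 + a2 - b1 - b2)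
    (B16 : 0 ≤ -a1 - a2 + b1 + b2 - x)
    (B17 : 0 ≤ x - 1)
    (B18 : 0 ≤ y + a1 + a2 + a3 - b1 - b2 - b3)
    (B19 : 0 ≤ -a1 - a2 - a3 + b1 + b2 + b3 - y)
    (B20 : 0 ≤ y - 1)
    (B21 : 0 ≤ d1 - a1 + b1)
    (B22 : 0 ≤ a1 - b1 - d1)
    (B23 : 0 ≤ d1 - 1)
    (B24 : 0 ≤ d1 - 1)
    (B25 : 0 ≤ -d1 + 1)
    (ep4 : p4 = (x) * (-h - 1))
    (ep5 : p5 = (y) * (-h - 1))
    (ep6 : p6 = (x) * (-h3 - 1))
    (ep7 : p7 = (y) * (-h3 - 1))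
    (w1 : a1 - b1 = 1) (w2 : a1 + a2 - b1 - b2 = -x) (w3 : a1 + a2 + a3 - b1 - b2 - b3 = -y)
    (hno : ¬ ∃ u1 u2 u3 : ℤ, Good n1 n2 n3 a1 a2 a3 b1 b2 b3 u1 u2 u3)
    (hd : ∀ c1 c2 c3, LosC n1 n2 n3 a1 a2 a3 b1 b2 b3 c1 c2 c3 →
      ∃ v ∈ ([⟨0 ≤ b1 - 1, 2, -n2 + b2 - x + 1, -n2 + b2 - n3 + b3 - y + 1⟩, ⟨True, 1, -x + 1, -x - n3 + a3 + 1⟩, ⟨True, -h, 1, -n3 + a3 + 1⟩, ⟨True, -h3, -k, 1⟩, ⟨True, 1, -g, -y + 1⟩] : List LV), v.ex ∧ v.c1 ≤ c1 ∧ v.c2 ≤ c2 ∧ v.c3 ≤ c3) :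
    (0 ≤ h ∨ (0 ≤ -h - 1 ∧ 0 ≤ h + 1 ∧ 0 ≤ -p4 - x - 2) ∨ (0 ≤ -h - 1 ∧ 0 ≤ h + 1 ∧ 0 ≤ p4 + x + 1 ∧ 0 ≤ -p4 - x - 1 ∧ 0 ≤ -p5 + n3 - a3 - y - 1)) ∨ (0 ≤ h3 ∨ (0 ≤ -h3 - 1 ∧ 0 ≤ h3 + 1 ∧ 0 ≤ -p6 + k - x - 1) ∨ (0 ≤ -h3 - 1 ∧ 0 ≤ h3 + 1 ∧ 0 ≤ p6 - k + x ∧ 0 ≤ -p6 + k - x ∧ 0 ≤ -p7 - y - 1)) ∨ (0 ≤ g - x - 1) := by
  obtain ⟨v, hv, hex, hf⟩ := failB' w1 w2 w3 hno _ hd (1) (0) (0) (x) (1) (0) (y) (0) (1)
    ⟨zero_le_one, le_refl 0, le_refl 0⟩ ⟨by linarith only [B15, B16, B17, B18, B19, B20, B21, B22, B23, B24, B25], zero_le_one, le_refl 0⟩ ⟨by linarith only [B15, B16, B17, B18, B19, B20, B21, B22, B23, B24, B25], le_refl 0, zero_le_one⟩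
    (Or.inl (by linarith only [B15, B16, B17, B18, B19, B20, B21, B22, B23, B24, B25]))
  simp only [List.mem_cons, List.not_mem_nil, or_false] at hv
  rcases hv with rfl | rfl | rfl | rfl | rfl
  · exact (cvG_e1_V1_V2_11 hex hf).elim
  · exact (cvG_e1_V1_V2_12 hf).elim
  · exact Or.inl (cvG_e1_V1_V2_22 ep4 ep5 hf)
  · exact Or.inr (Or.inl (cvG_e1_V1_V2_33 ep6 ep7 hf))
  · exact Or.inr (Or.inr (cvG_e1_V1_V2_13 hf))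

theorem cvG_e1_V2_V1_11 {b1 b2 b3 n2 n3 x y : ℤ}
    (hex : 0 ≤ b1 - 1)
    (hf : LexFail ((1) * (2 - (1)) + (0) * (-n2 + b2 - x + 1 - (-x)) + (0) * (-n2 + b2 - n3 + b3 - y + 1 - (-y)))
      ((y) * (2 - (1)) + (0) * (-n2 + b2 - x + 1 - (-x)) + (1) * (-n2 + b2 - n3 + b3 - y + 1 - (-y)))
      ((x) * (2 - (1)) + (1) * (-n2 + b2 - x + 1 - (-x)) + (0) * (-n2 + b2 - n3 + b3 - y + 1 - (-y)))) :
    False := by
  rcases hf with hf | ⟨hf0, hf⟩ | ⟨hf0, hf1, hf⟩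
  · exfalso; linarith only [hf]
  · exfalso; linarith only [hf0]
  · exfalso; linarith only [hf0]

theorem cvG_e1_V2_V1_12 {a3 n3 x y : ℤ}
    (hf : LexFail ((1) * (1 - (1)) + (0) * (-x + 1 - (-x)) + (0) * (-x - n3 + a3 + 1 - (-y)))
      ((y) * (1 - (1)) + (0) * (-x + 1 - (-x)) + (1) * (-x - n3 + a3 + 1 - (-y)))
      ((x) * (1 - (1)) + (1) * (-x + 1 - (-x)) + (0) * (-x - n3 + a3 + 1 - (-y)))) :
    0 ≤ x + n3 - a3 - y - 2 := by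
  rcases hf with hf | ⟨hf0, hf⟩ | ⟨hf0, hf1, hf⟩
  · exfalso; linarith only [hf]
  · exact by linarith only [hf]
  · exfalso; linarith only [hf]

theorem cvG_e1_V2_V1_22 {a3 h n3 p4 p5 x y : ℤ}
    (ep4 : p4 = (x) * (-h - 1))
    (ep5 : p5 = (y) * (-h - 1))
    (hf : LexFail ((1) * (-h - (1)) + (0) * (1 - (-x)) + (0) * (-n3 + a3 + 1 - (-y)))
      ((y) * (-h - (1)) + (0) * (1 - (-x)) + (1) * (-n3 + a3 + 1 - (-y)))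
      ((x) * (-h - (1)) + (1) * (1 - (-x)) + (0) * (-n3 + a3 + 1 - (-y)))) :
    0 ≤ h ∨ (0 ≤ -h - 1 ∧ 0 ≤ h + 1 ∧ 0 ≤ -p5 + n3 - a3 - y - 2) ∨ (0 ≤ -h - 1 ∧ 0 ≤ h + 1 ∧ 0 ≤ p5 - n3 + a3 + y + 1 ∧ 0 ≤ -p5 + n3 - a3 - y - 1 ∧ 0 ≤ -p4 - x - 1) := by
  rcases hf with hf | ⟨hf0, hf⟩ | ⟨hf0, hf1, hf⟩
  · exact Or.inl (by linarith only [hf])
  · exact Or.inr (Or.inl (⟨by linarith only [hf0], by linarith only [hf0], by linarith only [hf, ep5]⟩))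
  · exact Or.inr (Or.inr (⟨by linarith only [hf0], by linarith only [hf0], by linarith only [hf1, ep5], by linarith only [hf1, ep5], by linarith only [hf, ep4]⟩))

theorem cvG_e1_V2_V1_33 {h3 k p6 p7 x y : ℤ}
    (ep6 : p6 = (x) * (-h3 - 1))
    (ep7 : p7 = (y) * (-h3 - 1))
    (hf : LexFail ((1) * (-h3 - (1)) + (0) * (-k - (-x)) + (0) * (1 - (-y)))
      ((y) * (-h3 - (1)) + (0) * (-k - (-x)) + (1) * (1 - (-y)))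
      ((x) * (-h3 - (1)) + (1) * (-k - (-x)) + (0) * (1 - (-y)))) :
    0 ≤ h3 ∨ (0 ≤ -h3 - 1 ∧ 0 ≤ h3 + 1 ∧ 0 ≤ -p7 - y - 2) ∨ (0 ≤ -h3 - 1 ∧ 0 ≤ h3 + 1 ∧ 0 ≤ p7 + y + 1 ∧ 0 ≤ -p7 - y - 1 ∧ 0 ≤ -p6 + k - x) := by
  rcases hf with hf | ⟨hf0, hf⟩ | ⟨hf0, hf1, hf⟩
  · exact Or.inl (by linarith only [hf])
  · exact Or.inr (Or.inl (⟨by linarith only [hf0], by linarith only [hf0], by linarith only [hf, ep7]⟩))
  · exact Or.inr (Or.inr (⟨by linarith only [hf0], by linarith only [hf0], by linarith only [hf1, ep7], by linarith only [hf1, ep7], by linarith only [hf, ep6]⟩))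

theorem cvG_e1_V2_V1_13 {g x y : ℤ}
    (hf : LexFail ((1) * (1 - (1)) + (0) * (-g - (-x)) + (0) * (-y + 1 - (-y)))
      ((y) * (1 - (1)) + (0) * (-g - (-x)) + (1) * (-y + 1 - (-y)))
      ((x) * (1 - (1)) + (1) * (-g - (-x)) + (0) * (-y + 1 - (-y)))) :
    False := by
  rcases hf with hf | ⟨hf0, hf⟩ | ⟨hf0, hf1, hf⟩
  · exfalso; linarith only [hf]
  · exfalso; linarith only [hf]
  · exfalso; linarith only [hf1]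

theorem Gt_e1_V2_V1 {n1 n2 n3 a1 a2 a3 b1 b2 b3 x y d1 h h3 k g p4 p5 p6 p7 : ℤ}
    (B15 : 0 ≤ x + a1 + a2 - b1 - b2)
    (B16 : 0 ≤ -a1 - a2 + b1 + b2 - x)
    (B17 : 0 ≤ x - 1)
    (B18 : 0 ≤ y + a1 + a2 + a3 - b1 - b2 - b3)
    (B19 : 0 ≤ -a1 - a2 - a3 + b1 + b2 + b3 - y)
    (B20 : 0 ≤ y - 1)
    (B21 : 0 ≤ d1 - a1 + b1)
    (B22 : 0 ≤ a1 - b1 - d1)
    (B23 : 0 ≤ d1 - 1)
    (B24 : 0 ≤ d1 - 1)
    (B25 : 0 ≤ -d1 + 1)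
    (ep4 : p4 = (x) * (-h - 1))
    (ep5 : p5 = (y) * (-h - 1))
    (ep6 : p6 = (x) * (-h3 - 1))
    (ep7 : p7 = (y) * (-h3 - 1))
    (w1 : a1 - b1 = 1) (w2 : a1 + a2 - b1 - b2 = -x) (w3 : a1 + a2 + a3 - b1 - b2 - b3 = -y)
    (hno : ¬ ∃ u1 u2 u3 : ℤ, Good n1 n2 n3 a1 a2 a3 b1 b2 b3 u1 u2 u3)
    (hd : ∀ c1 c2 c3, LosC n1 n2 n3 a1 a2 a3 b1 b2 b3 c1 c2 c3 →
      ∃ v ∈ ([⟨0 ≤ b1 - 1, 2, -n2 + b2 - x + 1, -n2 + b2 - n3 + b3 - y + 1⟩, ⟨True, 1, -x + 1, -x - n3 + a3 + 1⟩, ⟨True, -h, 1, -n3 + a3 + 1⟩, ⟨True, -h3, -k, 1⟩, ⟨True, 1, -g, -y + 1⟩] : List LV), v.ex ∧ v.c1 ≤ c1 ∧ v.c2 ≤ c2 ∧ v.c3 ≤ c3) :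
    (0 ≤ x + n3 - a3 - y - 2) ∨ (0 ≤ h ∨ (0 ≤ -h - 1 ∧ 0 ≤ h + 1 ∧ 0 ≤ -p5 + n3 - a3 - y - 2) ∨ (0 ≤ -h - 1 ∧ 0 ≤ h + 1 ∧ 0 ≤ p5 - n3 + a3 + y + 1 ∧ 0 ≤ -p5 + n3 - a3 - y - 1 ∧ 0 ≤ -p4 - x - 1)) ∨ (0 ≤ h3 ∨ (0 ≤ -h3 - 1 ∧ 0 ≤ h3 + 1 ∧ 0 ≤ -p7 - y - 2) ∨ (0 ≤ -h3 - 1 ∧ 0 ≤ h3 + 1 ∧ 0 ≤ p7 + y + 1 ∧ 0 ≤ -p7 - y - 1 ∧ 0 ≤ -p6 + k - x)) := by
  obtain ⟨v, hv, hex, hf⟩ := failB' w1 w2 w3 hno _ hd (1) (0) (0) (y) (0) (1) (x) (1) (0)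
    ⟨zero_le_one, le_refl 0, le_refl 0⟩ ⟨by linarith only [B15, B16, B17, B18, B19, B20, B21, B22, B23, B24, B25], le_refl 0, zero_le_one⟩ ⟨by linarith only [B15, B16, B17, B18, B19, B20, B21, B22, B23, B24, B25], zero_le_one, le_refl 0⟩
    (Or.inl (by linarith only [B15, B16, B17, B18, B19, B20, B21, B22, B23, B24, B25]))
  simp only [List.mem_cons, List.not_mem_nil, or_false] at hv
  rcases hv with rfl | rfl | rfl | rfl | rfl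
  · exact (cvG_e1_V2_V1_11 hex hf).elim
  · exact Or.inl (cvG_e1_V2_V1_12 hf)
  · exact Or.inr (Or.inl (cvG_e1_V2_V1_22 ep4 ep5 hf))
  · exact Or.inr (Or.inr (cvG_e1_V2_V1_33 ep6 ep7 hf))
  · exact (cvG_e1_V2_V1_13 hf).elim

theorem cvG_V1_e1_V2_11 {b1 b2 b3 n2 n3 x y : ℤ}
    (hex : 0 ≤ b1 - 1)
    (hf : LexFail ((x) * (2 - (1)) + (1) * (-n2 + b2 - x + 1 - (-x)) + (0) * (-n2 + b2 - n3 + b3 - y + 1 - (-y)))
      ((1) * (2 - (1)) + (0) * (-n2 + b2 - x + 1 - (-x)) + (0) * (-n2 + b2 - n3 + b3 - y + 1 - (-y)))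
      ((y) * (2 - (1)) + (0) * (-n2 + b2 - x + 1 - (-x)) + (1) * (-n2 + b2 - n3 + b3 - y + 1 - (-y)))) :
    (0 ≤ b1 - 1 ∧ 0 ≤ -x + n2 - b2 - 2) := by
  rcases hf with hf | ⟨hf0, hf⟩ | ⟨hf0, hf1, hf⟩
  · exact ⟨by linarith only [hex], by linarith only [hf]⟩
  · exfalso; linarith only [hf]
  · exfalso; linarith only [hf1]

theorem cvG_V1_e1_V2_12 {a3 n3 x y : ℤ}
    (hf : LexFail ((x) * (1 - (1)) + (1) * (-x + 1 - (-x)) + (0) * (-x - n3 + a3 + 1 - (-y)))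
      ((1) * (1 - (1)) + (0) * (-x + 1 - (-x)) + (0) * (-x - n3 + a3 + 1 - (-y)))
      ((y) * (1 - (1)) + (0) * (-x + 1 - (-x)) + (1) * (-x - n3 + a3 + 1 - (-y)))) :
    False := by
  rcases hf with hf | ⟨hf0, hf⟩ | ⟨hf0, hf1, hf⟩
  · exfalso; linarith only [hf]
  · exfalso; linarith only [hf0]
  · exfalso; linarith only [hf0]

theorem cvG_V1_e1_V2_22 {a3 h n3 p0 p5 x y : ℤ}
    (ep0 : p0 = (x) * (-h))
    (ep5 : p5 = (y) * (-h - 1))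
    (hf : LexFail ((x) * (-h - (1)) + (1) * (1 - (-x)) + (0) * (-n3 + a3 + 1 - (-y)))
      ((1) * (-h - (1)) + (0) * (1 - (-x)) + (0) * (-n3 + a3 + 1 - (-y)))
      ((y) * (-h - (1)) + (0) * (1 - (-x)) + (1) * (-n3 + a3 + 1 - (-y)))) :
    0 ≤ -p0 - 2 ∨ (0 ≤ p0 + 1 ∧ 0 ≤ -p0 - 1 ∧ 0 ≤ h) ∨ (0 ≤ p0 + 1 ∧ 0 ≤ -p0 - 1 ∧ 0 ≤ -h - 1 ∧ 0 ≤ h + 1 ∧ 0 ≤ -p5 + n3 - a3 - y - 1) := by
  rcases hf with hf | ⟨hf0, hf⟩ | ⟨hf0, hf1, hf⟩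
  · exact Or.inl (by linarith only [hf, ep0])
  · exact Or.inr (Or.inl (⟨by linarith only [hf0, ep0], by linarith only [hf0, ep0], by linarith only [hf]⟩))
  · exact Or.inr (Or.inr (⟨by linarith only [hf0, ep0], by linarith only [hf0, ep0], by linarith only [hf1], by linarith only [hf1], by linarith only [hf, ep5]⟩))

theorem cvG_V1_e1_V2_33 {h3 k p2 p7 x y : ℤ}
    (ep2 : p2 = (x) * (-h3))
    (ep7 : p7 = (y) * (-h3 - 1))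
    (hf : LexFail ((x) * (-h3 - (1)) + (1) * (-k - (-x)) + (0) * (1 - (-y)))
      ((1) * (-h3 - (1)) + (0) * (-k - (-x)) + (0) * (1 - (-y)))
      ((y) * (-h3 - (1)) + (0) * (-k - (-x)) + (1) * (1 - (-y)))) :
    0 ≤ -p2 + k - 1 ∨ (0 ≤ p2 - k ∧ 0 ≤ -p2 + k ∧ 0 ≤ h3) ∨ (0 ≤ p2 - k ∧ 0 ≤ -p2 + k ∧ 0 ≤ -h3 - 1 ∧ 0 ≤ h3 + 1 ∧ 0 ≤ -p7 - y - 1) := by
  rcases hf with hf | ⟨hf0, hf⟩ | ⟨hf0, hf1, hf⟩
  · exact Or.inl (by linarith only [hf, ep2])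
  · exact Or.inr (Or.inl (⟨by linarith only [hf0, ep2], by linarith only [hf0, ep2], by linarith only [hf]⟩))
  · exact Or.inr (Or.inr (⟨by linarith only [hf0, ep2], by linarith only [hf0, ep2], by linarith only [hf1], by linarith only [hf1], by linarith only [hf, ep7]⟩))

theorem cvG_V1_e1_V2_13 {g x y : ℤ}
    (hf : LexFail ((x) * (1 - (1)) + (1) * (-g - (-x)) + (0) * (-y + 1 - (-y)))
      ((1) * (1 - (1)) + (0) * (-g - (-x)) + (0) * (-y + 1 - (-y)))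
      ((y) * (1 - (1)) + (0) * (-g - (-x)) + (1) * (-y + 1 - (-y)))) :
    0 ≤ -x + g - 1 := by
  rcases hf with hf | ⟨hf0, hf⟩ | ⟨hf0, hf1, hf⟩
  · exact by linarith only [hf]
  · exfalso; linarith only [hf]
  · exfalso; linarith only [hf]

theorem Gt_V1_e1_V2 {n1 n2 n3 a1 a2 a3 b1 b2 b3 x y d1 h h3 k g p0 p2 p5 p7 : ℤ}
    (B15 : 0 ≤ x + a1 + a2 - b1 - b2)
    (B16 : 0 ≤ -a1 - a2 + b1 + b2 - x)
    (B17 : 0 ≤ x - 1)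
    (B18 : 0 ≤ y + a1 + a2 + a3 - b1 - b2 - b3)
    (B19 : 0 ≤ -a1 - a2 - a3 + b1 + b2 + b3 - y)
    (B20 : 0 ≤ y - 1)
    (B21 : 0 ≤ d1 - a1 + b1)
    (B22 : 0 ≤ a1 - b1 - d1)
    (B23 : 0 ≤ d1 - 1)
    (B24 : 0 ≤ d1 - 1)
    (B25 : 0 ≤ -d1 + 1)
    (ep0 : p0 = (x) * (-h))
    (ep2 : p2 = (x) * (-h3))
    (ep5 : p5 = (y) * (-h - 1))
    (ep7 : p7 = (y) * (-h3 - 1))
    (w1 : a1 - b1 = 1) (w2 : a1 + a2 - b1 - b2 = -x) (w3 : a1 + a2 + a3 - b1 - b2 - b3 = -y)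
    (hno : ¬ ∃ u1 u2 u3 : ℤ, Good n1 n2 n3 a1 a2 a3 b1 b2 b3 u1 u2 u3)
    (hd : ∀ c1 c2 c3, LosC n1 n2 n3 a1 a2 a3 b1 b2 b3 c1 c2 c3 →
      ∃ v ∈ ([⟨0 ≤ b1 - 1, 2, -n2 + b2 - x + 1, -n2 + b2 - n3 + b3 - y + 1⟩, ⟨True, 1, -x + 1, -x - n3 + a3 + 1⟩, ⟨True, -h, 1, -n3 + a3 + 1⟩, ⟨True, -h3, -k, 1⟩, ⟨True, 1, -g, -y + 1⟩] : List LV), v.ex ∧ v.c1 ≤ c1 ∧ v.c2 ≤ c2 ∧ v.c3 ≤ c3) :
    ((0 ≤ b1 - 1 ∧ 0 ≤ -x + n2 - b2 - 2)) ∨ (0 ≤ -p0 - 2 ∨ (0 ≤ p0 + 1 ∧ 0 ≤ -p0 - 1 ∧ 0 ≤ h) ∨ (0 ≤ p0 + 1 ∧ 0 ≤ -p0 - 1 ∧ 0 ≤ -h - 1 ∧ 0 ≤ h + 1 ∧ 0 ≤ -p5 + n3 - a3 - y - 1)) ∨ (0 ≤ -p2 + k - 1 ∨ (0 ≤ p2 - k ∧ 0 ≤ -p2 + k ∧ 0 ≤ h3) ∨ (0 ≤ p2 - k ∧ 0 ≤ -p2 + k ∧ 0 ≤ -h3 - 1 ∧ 0 ≤ h3 + 1 ∧ 0 ≤ -p7 - y - 1)) ∨ (0 ≤ -x + g - 1) := by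
  obtain ⟨v, hv, hex, hf⟩ := failB' w1 w2 w3 hno _ hd (x) (1) (0) (1) (0) (0) (y) (0) (1)
    ⟨by linarith only [B15, B16, B17, B18, B19, B20, B21, B22, B23, B24, B25], zero_le_one, le_refl 0⟩ ⟨zero_le_one, le_refl 0, le_refl 0⟩ ⟨by linarith only [B15, B16, B17, B18, B19, B20, B21, B22, B23, B24, B25], le_refl 0, zero_le_one⟩
    (Or.inr ⟨by ring, Or.inl (by linarith only [B15, B16, B17, B18, B19, B20, B21, B22, B23, B24, B25])⟩)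
  simp only [List.mem_cons, List.not_mem_nil, or_false] at hv
  rcases hv with rfl | rfl | rfl | rfl | rfl
  · exact Or.inl (cvG_V1_e1_V2_11 hex hf)
  · exact (cvG_V1_e1_V2_12 hf).elim
  · exact Or.inr (Or.inl (cvG_V1_e1_V2_22 ep0 ep5 hf))
  · exact Or.inr (Or.inr (Or.inl (cvG_V1_e1_V2_33 ep2 ep7 hf)))
  · exact Or.inr (Or.inr (Or.inr (cvG_V1_e1_V2_13 hf)))

theorem cvG_V2_e1_V1_11 {b1 b2 b3 n2 n3 x y : ℤ}
    (hex : 0 ≤ b1 - 1)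
    (hf : LexFail ((y) * (2 - (1)) + (0) * (-n2 + b2 - x + 1 - (-x)) + (1) * (-n2 + b2 - n3 + b3 - y + 1 - (-y)))
      ((1) * (2 - (1)) + (0) * (-n2 + b2 - x + 1 - (-x)) + (0) * (-n2 + b2 - n3 + b3 - y + 1 - (-y)))
      ((x) * (2 - (1)) + (1) * (-n2 + b2 - x + 1 - (-x)) + (0) * (-n2 + b2 - n3 + b3 - y + 1 - (-y)))) :
    (0 ≤ b1 - 1 ∧ 0 ≤ -y + n2 - b2 + n3 - b3 - 2) := by
  rcases hf with hf | ⟨hf0, hf⟩ | ⟨hf0, hf1, hf⟩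
  · exact ⟨by linarith only [hex], by linarith only [hf]⟩
  · exfalso; linarith only [hf]
  · exfalso; linarith only [hf1]

theorem cvG_V2_e1_V1_12 {a3 n3 x y : ℤ}
    (hf : LexFail ((y) * (1 - (1)) + (0) * (-x + 1 - (-x)) + (1) * (-x - n3 + a3 + 1 - (-y)))
      ((1) * (1 - (1)) + (0) * (-x + 1 - (-x)) + (0) * (-x - n3 + a3 + 1 - (-y)))
      ((x) * (1 - (1)) + (1) * (-x + 1 - (-x)) + (0) * (-x - n3 + a3 + 1 - (-y)))) :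
    0 ≤ -y + x + n3 - a3 - 2 := by
  rcases hf with hf | ⟨hf0, hf⟩ | ⟨hf0, hf1, hf⟩
  · exact by linarith only [hf]
  · exfalso; linarith only [hf]
  · exfalso; linarith only [hf]

theorem cvG_V2_e1_V1_22 {a3 h n3 p1 p4 x y : ℤ}
    (ep1 : p1 = (y) * (-h))
    (ep4 : p4 = (x) * (-h - 1))
    (hf : LexFail ((y) * (-h - (1)) + (0) * (1 - (-x)) + (1) * (-n3 + a3 + 1 - (-y)))
      ((1) * (-h - (1)) + (0) * (1 - (-x)) + (0) * (-n3 + a3 + 1 - (-y)))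
      ((x) * (-h - (1)) + (1) * (1 - (-x)) + (0) * (-n3 + a3 + 1 - (-y)))) :
    0 ≤ -p1 + n3 - a3 - 2 ∨ (0 ≤ p1 - n3 + a3 + 1 ∧ 0 ≤ -p1 + n3 - a3 - 1 ∧ 0 ≤ h) ∨ (0 ≤ p1 - n3 + a3 + 1 ∧ 0 ≤ -p1 + n3 - a3 - 1 ∧ 0 ≤ -h - 1 ∧ 0 ≤ h + 1 ∧ 0 ≤ -p4 - x - 1) := by
  rcases hf with hf | ⟨hf0, hf⟩ | ⟨hf0, hf1, hf⟩
  · exact Or.inl (by linarith only [hf, ep1])
  · exact Or.inr (Or.inl (⟨by linarith only [hf0, ep1], by linarith only [hf0, ep1], by linarith only [hf]⟩))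
  · exact Or.inr (Or.inr (⟨by linarith only [hf0, ep1], by linarith only [hf0, ep1], by linarith only [hf1], by linarith only [hf1], by linarith only [hf, ep4]⟩))

theorem cvG_V2_e1_V1_33 {h3 k p3 p6 x y : ℤ}
    (ep3 : p3 = (y) * (-h3))
    (ep6 : p6 = (x) * (-h3 - 1))
    (hf : LexFail ((y) * (-h3 - (1)) + (0) * (-k - (-x)) + (1) * (1 - (-y)))
      ((1) * (-h3 - (1)) + (0) * (-k - (-x)) + (0) * (1 - (-y)))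
      ((x) * (-h3 - (1)) + (1) * (-k - (-x)) + (0) * (1 - (-y)))) :
    0 ≤ -p3 - 2 ∨ (0 ≤ p3 + 1 ∧ 0 ≤ -p3 - 1 ∧ 0 ≤ h3) ∨ (0 ≤ p3 + 1 ∧ 0 ≤ -p3 - 1 ∧ 0 ≤ -h3 - 1 ∧ 0 ≤ h3 + 1 ∧ 0 ≤ -p6 + k - x) := by
  rcases hf with hf | ⟨hf0, hf⟩ | ⟨hf0, hf1, hf⟩
  · exact Or.inl (by linarith only [hf, ep3])
  · exact Or.inr (Or.inl (⟨by linarith only [hf0, ep3], by linarith only [hf0, ep3], by linarith only [hf]⟩))
  · exact Or.inr (Or.inr (⟨by linarith only [hf0, ep3], by linarith only [hf0, ep3], by linarith only [hf1], by linarith only [hf1], by linarith only [hf, ep6]⟩))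

theorem cvG_V2_e1_V1_13 {g x y : ℤ}
    (hf : LexFail ((y) * (1 - (1)) + (0) * (-g - (-x)) + (1) * (-y + 1 - (-y)))
      ((1) * (1 - (1)) + (0) * (-g - (-x)) + (0) * (-y + 1 - (-y)))
      ((x) * (1 - (1)) + (1) * (-g - (-x)) + (0) * (-y + 1 - (-y)))) :
    False := by
  rcases hf with hf | ⟨hf0, hf⟩ | ⟨hf0, hf1, hf⟩
  · exfalso; linarith only [hf]
  · exfalso; linarith only [hf0]
  · exfalso; linarith only [hf0]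

theorem Gt_V2_e1_V1 {n1 n2 n3 a1 a2 a3 b1 b2 b3 x y d1 h h3 k g p1 p3 p4 p6 : ℤ}
    (B15 : 0 ≤ x + a1 + a2 - b1 - b2)
    (B16 : 0 ≤ -a1 - a2 + b1 + b2 - x)
    (B17 : 0 ≤ x - 1)
    (B18 : 0 ≤ y + a1 + a2 + a3 - b1 - b2 - b3)
    (B19 : 0 ≤ -a1 - a2 - a3 + b1 + b2 + b3 - y)
    (B20 : 0 ≤ y - 1)
    (B21 : 0 ≤ d1 - a1 + b1)
    (B22 : 0 ≤ a1 - b1 - d1)
    (B23 : 0 ≤ d1 - 1)
    (B24 : 0 ≤ d1 - 1)
    (B25 : 0 ≤ -d1 + 1)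
    (ep1 : p1 = (y) * (-h))
    (ep3 : p3 = (y) * (-h3))
    (ep4 : p4 = (x) * (-h - 1))
    (ep6 : p6 = (x) * (-h3 - 1))
    (w1 : a1 - b1 = 1) (w2 : a1 + a2 - b1 - b2 = -x) (w3 : a1 + a2 + a3 - b1 - b2 - b3 = -y)
    (hno : ¬ ∃ u1 u2 u3 : ℤ, Good n1 n2 n3 a1 a2 a3 b1 b2 b3 u1 u2 u3)
    (hd : ∀ c1 c2 c3, LosC n1 n2 n3 a1 a2 a3 b1 b2 b3 c1 c2 c3 →
      ∃ v ∈ ([⟨0 ≤ b1 - 1, 2, -n2 + b2 - x + 1, -n2 + b2 - n3 + b3 - y + 1⟩, ⟨True, 1, -x + 1, -x - n3 + a3 + 1⟩, ⟨True, -h, 1, -n3 + a3 + 1⟩, ⟨True, -h3, -k, 1⟩, ⟨True, 1, -g, -y + 1⟩] : List LV), v.ex ∧ v.c1 ≤ c1 ∧ v.c2 ≤ c2 ∧ v.c3 ≤ c3) :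
    ((0 ≤ b1 - 1 ∧ 0 ≤ -y + n2 - b2 + n3 - b3 - 2)) ∨ (0 ≤ -y + x + n3 - a3 - 2) ∨ (0 ≤ -p1 + n3 - a3 - 2 ∨ (0 ≤ p1 - n3 + a3 + 1 ∧ 0 ≤ -p1 + n3 - a3 - 1 ∧ 0 ≤ h) ∨ (0 ≤ p1 - n3 + a3 + 1 ∧ 0 ≤ -p1 + n3 - a3 - 1 ∧ 0 ≤ -h - 1 ∧ 0 ≤ h + 1 ∧ 0 ≤ -p4 - x - 1)) ∨ (0 ≤ -p3 - 2 ∨ (0 ≤ p3 + 1 ∧ 0 ≤ -p3 - 1 ∧ 0 ≤ h3) ∨ (0 ≤ p3 + 1 ∧ 0 ≤ -p3 - 1 ∧ 0 ≤ -h3 - 1 ∧ 0 ≤ h3 + 1 ∧ 0 ≤ -p6 + k - x)) := by
  obtain ⟨v, hv, hex, hf⟩ := failB' w1 w2 w3 hno _ hd (y) (0) (1) (1) (0) (0) (x) (1) (0)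
    ⟨by linarith only [B15, B16, B17, B18, B19, B20, B21, B22, B23, B24, B25], le_refl 0, zero_le_one⟩ ⟨zero_le_one, le_refl 0, le_refl 0⟩ ⟨by linarith only [B15, B16, B17, B18, B19, B20, B21, B22, B23, B24, B25], zero_le_one, le_refl 0⟩
    (Or.inr ⟨by ring, Or.inl (by linarith only [B15, B16, B17, B18, B19, B20, B21, B22, B23, B24, B25])⟩)
  simp only [List.mem_cons, List.not_mem_nil, or_false] at hv
  rcases hv with rfl | rfl | rfl | rfl | rfl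
  · exact Or.inl (cvG_V2_e1_V1_11 hex hf)
  · exact Or.inr (Or.inl (cvG_V2_e1_V1_12 hf))
  · exact Or.inr (Or.inr (Or.inl (cvG_V2_e1_V1_22 ep1 ep4 hf)))
  · exact Or.inr (Or.inr (Or.inr (cvG_V2_e1_V1_33 ep3 ep6 hf)))
  · exact (cvG_V2_e1_V1_13 hf).elim

theorem cvG_e2_V1_11 {b1 b2 b3 n2 n3 x y : ℤ}
    (hex : 0 ≤ b1 - 1)
    (hf : LexFail ((0) * (2) + (1) * (-n2 + b2 - x + 1) + (0) * (-n2 + b2 - n3 + b3 - y + 1))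
      ((x) * (2) + (1) * (-n2 + b2 - x + 1) + (0) * (-n2 + b2 - n3 + b3 - y + 1))
      ((0) * (2) + (0) * (-n2 + b2 - x + 1) + (0) * (-n2 + b2 - n3 + b3 - y + 1))) :
    (0 ≤ b1 - 1 ∧ 0 ≤ n2 - b2 + x - 2) ∨ (0 ≤ b1 - 1 ∧ 0 ≤ -n2 + b2 - x + 1 ∧ 0 ≤ n2 - b2 + x - 1 ∧ 0 ≤ -x + n2 - b2 - 1) := by
  rcases hf with hf | ⟨hf0, hf⟩ | ⟨hf0, hf1, hf⟩
  · exact Or.inl (⟨by linarith only [hex], by linarith only [hf]⟩)
  · exact Or.inr (⟨by linarith only [hex], by linarith only [hf0], by linarith only [hf0], by linarith only [hf]⟩)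
  · exact Or.inr (⟨by linarith only [hex], by linarith only [hf0], by linarith only [hf0], by linarith only [hf1]⟩)

theorem cvG_e2_V1_12 {a3 n3 x : ℤ}
    (hf : LexFail ((0) * (1) + (1) * (-x + 1) + (0) * (-x - n3 + a3 + 1))
      ((x) * (1) + (1) * (-x + 1) + (0) * (-x - n3 + a3 + 1))
      ((0) * (1) + (0) * (-x + 1) + (0) * (-x - n3 + a3 + 1))) :
    0 ≤ x - 2 := by
  rcases hf with hf | ⟨hf0, hf⟩ | ⟨hf0, hf1, hf⟩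
  · exact by linarith only [hf]
  · exfalso; linarith only [hf]
  · exfalso; linarith only [hf1]

theorem cvG_e2_V1_22 {a3 h n3 p0 x : ℤ}
    (ep0 : p0 = (x) * (-h))
    (hf : LexFail ((0) * (-h) + (1) * (1) + (0) * (-n3 + a3 + 1))
      ((x) * (-h) + (1) * (1) + (0) * (-n3 + a3 + 1))
      ((0) * (-h) + (0) * (1) + (0) * (-n3 + a3 + 1))) :
    False := by
  rcases hf with hf | ⟨hf0, hf⟩ | ⟨hf0, hf1, hf⟩
  · exfalso; linarith only [hf]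
  · exfalso; linarith only [hf0]
  · exfalso; linarith only [hf0]

theorem cvG_e2_V1_33 {h3 k p2 x : ℤ}
    (ep2 : p2 = (x) * (-h3))
    (hf : LexFail ((0) * (-h3) + (1) * (-k) + (0) * (1))
      ((x) * (-h3) + (1) * (-k) + (0) * (1))
      ((0) * (-h3) + (0) * (-k) + (0) * (1))) :
    0 ≤ k - 1 ∨ (0 ≤ -k ∧ 0 ≤ k ∧ 0 ≤ -p2 + k) := by
  rcases hf with hf | ⟨hf0, hf⟩ | ⟨hf0, hf1, hf⟩
  · exact Or.inl (by linarith only [hf])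
  · exact Or.inr (⟨by linarith only [hf0], by linarith only [hf0], by linarith only [hf, ep2]⟩)
  · exact Or.inr (⟨by linarith only [hf0], by linarith only [hf0], by linarith only [hf1, ep2]⟩)

theorem cvG_e2_V1_13 {g x y : ℤ}
    (hf : LexFail ((0) * (1) + (1) * (-g) + (0) * (-y + 1))
      ((x) * (1) + (1) * (-g) + (0) * (-y + 1))
      ((0) * (1) + (0) * (-g) + (0) * (-y + 1))) :
    0 ≤ g - 1 ∨ (0 ≤ -g ∧ 0 ≤ g ∧ 0 ≤ -x + g) := by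
  rcases hf with hf | ⟨hf0, hf⟩ | ⟨hf0, hf1, hf⟩
  · exact Or.inl (by linarith only [hf])
  · exact Or.inr (⟨by linarith only [hf0], by linarith only [hf0], by linarith only [hf]⟩)
  · exact Or.inr (⟨by linarith only [hf0], by linarith only [hf0], by linarith only [hf1]⟩)

theorem Gt_e2_V1 {n1 n2 n3 a1 a2 a3 b1 b2 b3 x y d1 h h3 k g p0 p2 : ℤ}
    (B15 : 0 ≤ x + a1 + a2 - b1 - b2)
    (B16 : 0 ≤ -a1 - a2 + b1 + b2 - x)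
    (B17 : 0 ≤ x - 1)
    (B18 : 0 ≤ y + a1 + a2 + a3 - b1 - b2 - b3)
    (B19 : 0 ≤ -a1 - a2 - a3 + b1 + b2 + b3 - y)
    (B20 : 0 ≤ y - 1)
    (B21 : 0 ≤ d1 - a1 + b1)
    (B22 : 0 ≤ a1 - b1 - d1)
    (B23 : 0 ≤ d1 - 1)
    (B24 : 0 ≤ d1 - 1)
    (B25 : 0 ≤ -d1 + 1)
    (ep0 : p0 = (x) * (-h))
    (ep2 : p2 = (x) * (-h3))
    (w1 : a1 - b1 = 1) (w2 : a1 + a2 - b1 - b2 = -x) (w3 : a1 + a2 + a3 - b1 - b2 - b3 = -y)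
    (hno : ¬ ∃ u1 u2 u3 : ℤ, Good n1 n2 n3 a1 a2 a3 b1 b2 b3 u1 u2 u3)
    (hd : ∀ c1 c2 c3, LosC n1 n2 n3 a1 a2 a3 b1 b2 b3 c1 c2 c3 →
      ∃ v ∈ ([⟨0 ≤ b1 - 1, 2, -n2 + b2 - x + 1, -n2 + b2 - n3 + b3 - y + 1⟩, ⟨True, 1, -x + 1, -x - n3 + a3 + 1⟩, ⟨True, -h, 1, -n3 + a3 + 1⟩, ⟨True, -h3, -k, 1⟩, ⟨True, 1, -g, -y + 1⟩] : List LV), v.ex ∧ v.c1 ≤ c1 ∧ v.c2 ≤ c2 ∧ v.c3 ≤ c3) :
    ((0 ≤ b1 - 1 ∧ 0 ≤ n2 - b2 + x - 2) ∨ (0 ≤ b1 - 1 ∧ 0 ≤ -n2 + b2 - x + 1 ∧ 0 ≤ n2 - b2 + x - 1 ∧ 0 ≤ -x + n2 - b2 - 1)) ∨ (0 ≤ x - 2) ∨ (0 ≤ k - 1 ∨ (0 ≤ -k ∧ 0 ≤ k ∧ 0 ≤ -p2 + k)) ∨ (0 ≤ g - 1 ∨ (0 ≤ -g ∧ 0 ≤ g ∧ 0 ≤ -x + g)) := by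
  obtain ⟨v, hv, hex, hf⟩ := failA' w1 w2 w3 hno _ hd (0) (1) (0) (x) (1) (0) (0) (0) (0)
    ⟨le_refl 0, zero_le_one, le_refl 0⟩ ⟨by linarith only [B15, B16, B17, B18, B19, B20, B21, B22, B23, B24, B25], zero_le_one, le_refl 0⟩ ⟨le_refl 0, le_refl 0, le_refl 0⟩
    (Or.inl (by linarith only [B15, B16, B17, B18, B19, B20, B21, B22, B23, B24, B25]))
  simp only [List.mem_cons, List.not_mem_nil, or_false] at hv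
  rcases hv with rfl | rfl | rfl | rfl | rfl
  · exact Or.inl (cvG_e2_V1_11 hex hf)
  · exact Or.inr (Or.inl (cvG_e2_V1_12 hf))
  · exact (cvG_e2_V1_22 ep0 hf).elim
  · exact Or.inr (Or.inr (Or.inl (cvG_e2_V1_33 ep2 hf)))
  · exact Or.inr (Or.inr (Or.inr (cvG_e2_V1_13 hf)))

theorem cvG_V1_e2_11 {b1 b2 b3 n2 n3 x y : ℤ}
    (hex : 0 ≤ b1 - 1)
    (hf : LexFail ((x) * (2) + (1) * (-n2 + b2 - x + 1) + (0) * (-n2 + b2 - n3 + b3 - y + 1))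
      ((0) * (2) + (1) * (-n2 + b2 - x + 1) + (0) * (-n2 + b2 - n3 + b3 - y + 1))
      ((0) * (2) + (0) * (-n2 + b2 - x + 1) + (0) * (-n2 + b2 - n3 + b3 - y + 1))) :
    (0 ≤ b1 - 1 ∧ 0 ≤ -x + n2 - b2 - 2) ∨ (0 ≤ b1 - 1 ∧ 0 ≤ x - n2 + b2 + 1 ∧ 0 ≤ -x + n2 - b2 - 1 ∧ 0 ≤ n2 - b2 + x - 1) := by
  rcases hf with hf | ⟨hf0, hf⟩ | ⟨hf0, hf1, hf⟩
  · exact Or.inl (⟨by linarith only [hex], by linarith only [hf]⟩)
  · exact Or.inr (⟨by linarith only [hex], by linarith only [hf0], by linarith only [hf0], by linarith only [hf]⟩)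
  · exact Or.inr (⟨by linarith only [hex], by linarith only [hf0], by linarith only [hf0], by linarith only [hf1]⟩)

theorem cvG_V1_e2_12 {a3 n3 x : ℤ}
    (hf : LexFail ((x) * (1) + (1) * (-x + 1) + (0) * (-x - n3 + a3 + 1))
      ((0) * (1) + (1) * (-x + 1) + (0) * (-x - n3 + a3 + 1))
      ((0) * (1) + (0) * (-x + 1) + (0) * (-x - n3 + a3 + 1))) :
    False := by
  rcases hf with hf | ⟨hf0, hf⟩ | ⟨hf0, hf1, hf⟩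
  · exfalso; linarith only [hf]
  · exfalso; linarith only [hf0]
  · exfalso; linarith only [hf0]

theorem cvG_V1_e2_22 {a3 h n3 p0 x : ℤ}
    (ep0 : p0 = (x) * (-h))
    (hf : LexFail ((x) * (-h) + (1) * (1) + (0) * (-n3 + a3 + 1))
      ((0) * (-h) + (1) * (1) + (0) * (-n3 + a3 + 1))
      ((0) * (-h) + (0) * (1) + (0) * (-n3 + a3 + 1))) :
    0 ≤ -p0 - 2 := by
  rcases hf with hf | ⟨hf0, hf⟩ | ⟨hf0, hf1, hf⟩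
  · exact by linarith only [hf, ep0]
  · exfalso; linarith only [hf]
  · exfalso; linarith only [hf1]

theorem cvG_V1_e2_33 {h3 k p2 x : ℤ}
    (ep2 : p2 = (x) * (-h3))
    (hf : LexFail ((x) * (-h3) + (1) * (-k) + (0) * (1))
      ((0) * (-h3) + (1) * (-k) + (0) * (1))
      ((0) * (-h3) + (0) * (-k) + (0) * (1))) :
    0 ≤ -p2 + k - 1 ∨ (0 ≤ p2 - k ∧ 0 ≤ -p2 + k ∧ 0 ≤ k) := by
  rcases hf with hf | ⟨hf0, hf⟩ | ⟨hf0, hf1, hf⟩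
  · exact Or.inl (by linarith only [hf, ep2])
  · exact Or.inr (⟨by linarith only [hf0, ep2], by linarith only [hf0, ep2], by linarith only [hf]⟩)
  · exact Or.inr (⟨by linarith only [hf0, ep2], by linarith only [hf0, ep2], by linarith only [hf1]⟩)

theorem cvG_V1_e2_13 {g x y : ℤ}
    (hf : LexFail ((x) * (1) + (1) * (-g) + (0) * (-y + 1))
      ((0) * (1) + (1) * (-g) + (0) * (-y + 1))
      ((0) * (1) + (0) * (-g) + (0) * (-y + 1))) :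
    0 ≤ -x + g - 1 ∨ (0 ≤ x - g ∧ 0 ≤ -x + g ∧ 0 ≤ g) := by
  rcases hf with hf | ⟨hf0, hf⟩ | ⟨hf0, hf1, hf⟩
  · exact Or.inl (by linarith only [hf])
  · exact Or.inr (⟨by linarith only [hf0], by linarith only [hf0], by linarith only [hf]⟩)
  · exact Or.inr (⟨by linarith only [hf0], by linarith only [hf0], by linarith only [hf1]⟩)

theorem Gt_V1_e2 {n1 n2 n3 a1 a2 a3 b1 b2 b3 x y d1 h h3 k g p0 p2 : ℤ}
    (B15 : 0 ≤ x + a1 + a2 - b1 - b2)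
    (B16 : 0 ≤ -a1 - a2 + b1 + b2 - x)
    (B17 : 0 ≤ x - 1)
    (B18 : 0 ≤ y + a1 + a2 + a3 - b1 - b2 - b3)
    (B19 : 0 ≤ -a1 - a2 - a3 + b1 + b2 + b3 - y)
    (B20 : 0 ≤ y - 1)
    (B21 : 0 ≤ d1 - a1 + b1)
    (B22 : 0 ≤ a1 - b1 - d1)
    (B23 : 0 ≤ d1 - 1)
    (B24 : 0 ≤ d1 - 1)
    (B25 : 0 ≤ -d1 + 1)
    (ep0 : p0 = (x) * (-h))
    (ep2 : p2 = (x) * (-h3))
    (w1 : a1 - b1 = 1) (w2 : a1 + a2 - b1 - b2 = -x) (w3 : a1 + a2 + a3 - b1 - b2 - b3 = -y)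
    (hno : ¬ ∃ u1 u2 u3 : ℤ, Good n1 n2 n3 a1 a2 a3 b1 b2 b3 u1 u2 u3)
    (hd : ∀ c1 c2 c3, LosC n1 n2 n3 a1 a2 a3 b1 b2 b3 c1 c2 c3 →
      ∃ v ∈ ([⟨0 ≤ b1 - 1, 2, -n2 + b2 - x + 1, -n2 + b2 - n3 + b3 - y + 1⟩, ⟨True, 1, -x + 1, -x - n3 + a3 + 1⟩, ⟨True, -h, 1, -n3 + a3 + 1⟩, ⟨True, -h3, -k, 1⟩, ⟨True, 1, -g, -y + 1⟩] : List LV), v.ex ∧ v.c1 ≤ c1 ∧ v.c2 ≤ c2 ∧ v.c3 ≤ c3) :
    ((0 ≤ b1 - 1 ∧ 0 ≤ -x + n2 - b2 - 2) ∨ (0 ≤ b1 - 1 ∧ 0 ≤ x - n2 + b2 + 1 ∧ 0 ≤ -x + n2 - b2 - 1 ∧ 0 ≤ n2 - b2 + x - 1)) ∨ (0 ≤ -p0 - 2) ∨ (0 ≤ -p2 + k - 1 ∨ (0 ≤ p2 - k ∧ 0 ≤ -p2 + k ∧ 0 ≤ k)) ∨ (0 ≤ -x + g - 1 ∨ (0 ≤ x - g ∧ 0 ≤ -x + g ∧ 0 ≤ g)) := by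
  obtain ⟨v, hv, hex, hf⟩ := failA' w1 w2 w3 hno _ hd (x) (1) (0) (0) (1) (0) (0) (0) (0)
    ⟨by linarith only [B15, B16, B17, B18, B19, B20, B21, B22, B23, B24, B25], zero_le_one, le_refl 0⟩ ⟨le_refl 0, zero_le_one, le_refl 0⟩ ⟨le_refl 0, le_refl 0, le_refl 0⟩
    (Or.inr ⟨by ring, Or.inl (by linarith only [B15, B16, B17, B18, B19, B20, B21, B22, B23, B24, B25])⟩)
  simp only [List.mem_cons, List.not_mem_nil, or_false] at hv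
  rcases hv with rfl | rfl | rfl | rfl | rfl
  · exact Or.inl (cvG_V1_e2_11 hex hf)
  · exact (cvG_V1_e2_12 hf).elim
  · exact Or.inr (Or.inl (cvG_V1_e2_22 ep0 hf))
  · exact Or.inr (Or.inr (Or.inl (cvG_V1_e2_33 ep2 hf)))
  · exact Or.inr (Or.inr (Or.inr (cvG_V1_e2_13 hf)))

theorem T0_11_22 {n1 n2 n3 a1 a2 a3 b1 b2 b3 x y h : ℤ}
    (H : NoTr n1 n2 n3 a1 a2 a3 b1 b2 b3)
    (w1 : a1 - b1 = 1) (w2 : a1 + a2 - b1 - b2 = -x) (w3 : a1 + a2 + a3 - b1 - b2 - b3 = -y)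
    (l11 : 0 ≤ b1 - 1 → LosC n1 n2 n3 a1 a2 a3 b1 b2 b3 (2) (-n2 + b2 - x + 1) (-n2 + b2 - n3 + b3 - y + 1))
    (l22 : LosC n1 n2 n3 a1 a2 a3 b1 b2 b3 (-h) (1) (-n3 + a3 + 1))
    : 0 ≤ -b1 ∨ 0 ≤ -h - 1 ∨ 0 ≤ -n2 + b2 + x + 1 ∨ 0 ≤ -n2 + b2 - 2 * n3 + b3 + a3 + y + 1 := by
  rcases le_or_gt (b1) 0 with hb0 | hb0
  · exact Or.inl (by linarith only [hb0])
  rcases H.t0 w1 w2 w3 (l11 (by linarith only [hb0])) l22 with hq | hq | hq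
  · exact Or.inr (Or.inl (by linarith only [hq]))
  · exact Or.inr (Or.inr (Or.inl (by linarith only [hq])))
  · exact Or.inr (Or.inr (Or.inr (by linarith only [hq])))

theorem T1_11_22 {n1 n2 n3 a1 a2 a3 b1 b2 b3 x y h : ℤ}
    (H : NoTr n1 n2 n3 a1 a2 a3 b1 b2 b3)
    (w1 : a1 - b1 = 1) (w2 : a1 + a2 - b1 - b2 = -x) (w3 : a1 + a2 + a3 - b1 - b2 - b3 = -y)
    (l11 : 0 ≤ b1 - 1 → LosC n1 n2 n3 a1 a2 a3 b1 b2 b3 (2) (-n2 + b2 - x + 1) (-n2 + b2 - n3 + b3 - y + 1))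
    (l22 : LosC n1 n2 n3 a1 a2 a3 b1 b2 b3 (-h) (1) (-n3 + a3 + 1))
    : 0 ≤ -b1 ∨ 0 ≤ -h ∨ 0 ≤ -n2 + b2 + 1 ∨ 0 ≤ -n2 + b2 - 2 * n3 + b3 + a3 + 1 := by
  rcases le_or_gt (b1) 0 with hb0 | hb0
  · exact Or.inl (by linarith only [hb0])
  rcases H.t1 w1 w2 w3 (l11 (by linarith only [hb0])) l22 with hq | hq | hq
  · exact Or.inr (Or.inl (by linarith only [hq]))
  · exact Or.inr (Or.inr (Or.inl (by linarith only [hq])))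
  · exact Or.inr (Or.inr (Or.inr (by linarith only [hq])))

theorem T2_11_22 {n1 n2 n3 a1 a2 a3 b1 b2 b3 x y h : ℤ}
    (H : NoTr n1 n2 n3 a1 a2 a3 b1 b2 b3)
    (l11 : 0 ≤ b1 - 1 → LosC n1 n2 n3 a1 a2 a3 b1 b2 b3 (2) (-n2 + b2 - x + 1) (-n2 + b2 - n3 + b3 - y + 1))
    (l22 : LosC n1 n2 n3 a1 a2 a3 b1 b2 b3 (-h) (1) (-n3 + a3 + 1))
    : 0 ≤ -b1 ∨ 0 ≤ -h + 1 ∨ 0 ≤ -n2 + b2 - x + 1 ∨ 0 ≤ -n2 + b2 - 2 * n3 + b3 - y + a3 + 1 := by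
  rcases le_or_gt (b1) 0 with hb0 | hb0
  · exact Or.inl (by linarith only [hb0])
  rcases H.t2 (l11 (by linarith only [hb0])) l22 with hq | hq | hq
  · exact Or.inr (Or.inl (by linarith only [hq]))
  · exact Or.inr (Or.inr (Or.inl (by linarith only [hq])))
  · exact Or.inr (Or.inr (Or.inr (by linarith only [hq])))

theorem T0_11_33 {n1 n2 n3 a1 a2 a3 b1 b2 b3 x y h3 k : ℤ}
    (H : NoTr n1 n2 n3 a1 a2 a3 b1 b2 b3)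
    (w1 : a1 - b1 = 1) (w2 : a1 + a2 - b1 - b2 = -x) (w3 : a1 + a2 + a3 - b1 - b2 - b3 = -y)
    (l11 : 0 ≤ b1 - 1 → LosC n1 n2 n3 a1 a2 a3 b1 b2 b3 (2) (-n2 + b2 - x + 1) (-n2 + b2 - n3 + b3 - y + 1))
    (l33 : LosC n1 n2 n3 a1 a2 a3 b1 b2 b3 (-h3) (-k) (1))
    : 0 ≤ -b1 ∨ 0 ≤ -h3 - 1 ∨ 0 ≤ -n2 + b2 - k + x ∨ 0 ≤ -n2 + b2 - n3 + b3 + y + 1 := by
  rcases le_or_gt (b1) 0 with hb0 | hb0
  · exact Or.inl (by linarith only [hb0])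
  rcases H.t0 w1 w2 w3 (l11 (by linarith only [hb0])) l33 with hq | hq | hq
  · exact Or.inr (Or.inl (by linarith only [hq]))
  · exact Or.inr (Or.inr (Or.inl (by linarith only [hq])))
  · exact Or.inr (Or.inr (Or.inr (by linarith only [hq])))

theorem T1_11_33 {n1 n2 n3 a1 a2 a3 b1 b2 b3 x y h3 k : ℤ}
    (H : NoTr n1 n2 n3 a1 a2 a3 b1 b2 b3)
    (w1 : a1 - b1 = 1) (w2 : a1 + a2 - b1 - b2 = -x) (w3 : a1 + a2 + a3 - b1 - b2 - b3 = -y)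
    (l11 : 0 ≤ b1 - 1 → LosC n1 n2 n3 a1 a2 a3 b1 b2 b3 (2) (-n2 + b2 - x + 1) (-n2 + b2 - n3 + b3 - y + 1))
    (l33 : LosC n1 n2 n3 a1 a2 a3 b1 b2 b3 (-h3) (-k) (1))
    : 0 ≤ -b1 ∨ 0 ≤ -h3 ∨ 0 ≤ -n2 + b2 - k ∨ 0 ≤ -n2 + b2 - n3 + b3 + 1 := by
  rcases le_or_gt (b1) 0 with hb0 | hb0
  · exact Or.inl (by linarith only [hb0])
  rcases H.t1 w1 w2 w3 (l11 (by linarith only [hb0])) l33 with hq | hq | hq
  · exact Or.inr (Or.inl (by linarith only [hq]))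
  · exact Or.inr (Or.inr (Or.inl (by linarith only [hq])))
  · exact Or.inr (Or.inr (Or.inr (by linarith only [hq])))

theorem T2_12_22 {n1 n2 n3 a1 a2 a3 b1 b2 b3 x h : ℤ}
    (H : NoTr n1 n2 n3 a1 a2 a3 b1 b2 b3)
    (l12 : LosC n1 n2 n3 a1 a2 a3 b1 b2 b3 (1) (-x + 1) (-x - n3 + a3 + 1))
    (l22 : LosC n1 n2 n3 a1 a2 a3 b1 b2 b3 (-h) (1) (-n3 + a3 + 1))
    : 0 ≤ -h ∨ 0 ≤ -x + 1 ∨ 0 ≤ -x - 2 * n3 + 2 * a3 + 1 := by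
  rcases H.t2 l12 l22 with hq | hq | hq
  · exact Or.inl (by linarith only [hq])
  · exact Or.inr (Or.inl (by linarith only [hq]))
  · exact Or.inr (Or.inr (by linarith only [hq]))

theorem T1_12_33 {n1 n2 n3 a1 a2 a3 b1 b2 b3 x y h3 k : ℤ}
    (H : NoTr n1 n2 n3 a1 a2 a3 b1 b2 b3)
    (w1 : a1 - b1 = 1) (w2 : a1 + a2 - b1 - b2 = -x) (w3 : a1 + a2 + a3 - b1 - b2 - b3 = -y)
    (l12 : LosC n1 n2 n3 a1 a2 a3 b1 b2 b3 (1) (-x + 1) (-x - n3 + a3 + 1))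
    (l33 : LosC n1 n2 n3 a1 a2 a3 b1 b2 b3 (-h3) (-k) (1))
    : 0 ≤ -h3 - 1 ∨ 0 ≤ -k ∨ 0 ≤ -x - n3 + a3 + y + 1 := by
  rcases H.t1 w1 w2 w3 l12 l33 with hq | hq | hq
  · exact Or.inl (by linarith only [hq])
  · exact Or.inr (Or.inl (by linarith only [hq]))
  · exact Or.inr (Or.inr (by linarith only [hq]))

theorem T2_12_33 {n1 n2 n3 a1 a2 a3 b1 b2 b3 x h3 k : ℤ}
    (H : NoTr n1 n2 n3 a1 a2 a3 b1 b2 b3)
    (l12 : LosC n1 n2 n3 a1 a2 a3 b1 b2 b3 (1) (-x + 1) (-x - n3 + a3 + 1))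
    (l33 : LosC n1 n2 n3 a1 a2 a3 b1 b2 b3 (-h3) (-k) (1))
    : 0 ≤ -h3 ∨ 0 ≤ -x - k ∨ 0 ≤ -x - n3 + a3 + 1 := by
  rcases H.t2 l12 l33 with hq | hq | hq
  · exact Or.inl (by linarith only [hq])
  · exact Or.inr (Or.inl (by linarith only [hq]))
  · exact Or.inr (Or.inr (by linarith only [hq]))

theorem T0_12_13 {n1 n2 n3 a1 a2 a3 b1 b2 b3 x y g : ℤ}
    (H : NoTr n1 n2 n3 a1 a2 a3 b1 b2 b3)
    (w1 : a1 - b1 = 1) (w2 : a1 + a2 - b1 - b2 = -x) (w3 : a1 + a2 + a3 - b1 - b2 - b3 = -y)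
    (l12 : LosC n1 n2 n3 a1 a2 a3 b1 b2 b3 (1) (-x + 1) (-x - n3 + a3 + 1))
    (l13 : LosC n1 n2 n3 a1 a2 a3 b1 b2 b3 (1) (-g) (-y + 1))
    : 0 ≤ -g + x ∨ 0 ≤ -x - n3 + a3 + y + 1 := by
  rcases H.t0 w1 w2 w3 l12 l13 with hq | hq | hq
  · exfalso; linarith only [hq]
  · exact Or.inl (by linarith only [hq])
  · exact Or.inr (by linarith only [hq])

theorem T2_22_33 {n1 n2 n3 a1 a2 a3 b1 b2 b3 h h3 k : ℤ}
    (H : NoTr n1 n2 n3 a1 a2 a3 b1 b2 b3)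
    (l22 : LosC n1 n2 n3 a1 a2 a3 b1 b2 b3 (-h) (1) (-n3 + a3 + 1))
    (l33 : LosC n1 n2 n3 a1 a2 a3 b1 b2 b3 (-h3) (-k) (1))
    : 0 ≤ -h - h3 - 1 ∨ 0 ≤ -k ∨ 0 ≤ -n3 + a3 + 1 := by
  rcases H.t2 l22 l33 with hq | hq | hq
  · exact Or.inl (by linarith only [hq])
  · exact Or.inr (Or.inl (by linarith only [hq]))
  · exact Or.inr (Or.inr (by linarith only [hq]))

theorem T1_22_13 {n1 n2 n3 a1 a2 a3 b1 b2 b3 x y h g : ℤ}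
    (H : NoTr n1 n2 n3 a1 a2 a3 b1 b2 b3)
    (w1 : a1 - b1 = 1) (w2 : a1 + a2 - b1 - b2 = -x) (w3 : a1 + a2 + a3 - b1 - b2 - b3 = -y)
    (l22 : LosC n1 n2 n3 a1 a2 a3 b1 b2 b3 (-h) (1) (-n3 + a3 + 1))
    (l13 : LosC n1 n2 n3 a1 a2 a3 b1 b2 b3 (1) (-g) (-y + 1))
    : 0 ≤ -h - 1 ∨ 0 ≤ -g + x ∨ 0 ≤ -n3 + a3 + 1 := by
  rcases H.t1 w1 w2 w3 l22 l13 with hq | hq | hq
  · exact Or.inl (by linarith only [hq])
  · exact Or.inr (Or.inl (by linarith only [hq]))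
  · exact Or.inr (Or.inr (by linarith only [hq]))

theorem T2_22_13 {n1 n2 n3 a1 a2 a3 b1 b2 b3 y h g : ℤ}
    (H : NoTr n1 n2 n3 a1 a2 a3 b1 b2 b3)
    (l22 : LosC n1 n2 n3 a1 a2 a3 b1 b2 b3 (-h) (1) (-n3 + a3 + 1))
    (l13 : LosC n1 n2 n3 a1 a2 a3 b1 b2 b3 (1) (-g) (-y + 1))
    : 0 ≤ -h ∨ 0 ≤ -g ∨ 0 ≤ -n3 + a3 - y + 1 := by
  rcases H.t2 l22 l13 with hq | hq | hq
  · exact Or.inl (by linarith only [hq])
  · exact Or.inr (Or.inl (by linarith only [hq]))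
  · exact Or.inr (Or.inr (by linarith only [hq]))

theorem main {n1 n2 n3 a1 a2 a3 b1 b2 b3 x y d1 : ℤ}
    (B0 : 0 ≤ a1)
    (B1 : 0 ≤ a2)
    (B2 : 0 ≤ a3)
    (B3 : 0 ≤ b1)
    (B4 : 0 ≤ b2)
    (B5 : 0 ≤ b3)
    (B6 : 0 ≤ n1 - a1)
    (B7 : 0 ≤ n2 - a2)
    (B8 : 0 ≤ n3 - a3)
    (B9 : 0 ≤ n1 - b1)
    (B10 : 0 ≤ n2 - b2)
    (B11 : 0 ≤ n3 - b3)
    (B12 : 0 ≤ n1 - 1)
    (B13 : 0 ≤ n2 - 1)
    (B14 : 0 ≤ n3 - 1)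
    (B15 : 0 ≤ x + a1 + a2 - b1 - b2)
    (B16 : 0 ≤ -a1 - a2 + b1 + b2 - x)
    (B17 : 0 ≤ x - 1)
    (B18 : 0 ≤ y + a1 + a2 + a3 - b1 - b2 - b3)
    (B19 : 0 ≤ -a1 - a2 - a3 + b1 + b2 + b3 - y)
    (B20 : 0 ≤ y - 1)
    (B21 : 0 ≤ d1 - a1 + b1)
    (B22 : 0 ≤ a1 - b1 - d1)
    (B23 : 0 ≤ d1 - 1)
    (B24 : 0 ≤ d1 - 1)
    (B25 : 0 ≤ -d1 + 1)
    (C_c1 : (0 ≤ a1 - 1 ∧ 0 ≤ n2 - a2 - 1) ∨ (0 ≤ b1 - 1 ∧ 0 ≤ n2 - b2 - 1))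
    (C_c2 : (0 ≤ a2 - 1 ∧ 0 ≤ n3 - a3 - 1) ∨ (0 ≤ b2 - 1 ∧ 0 ≤ n3 - b3 - 1))
    (H : NoTr n1 n2 n3 a1 a2 a3 b1 b2 b3)
    (hno : ¬ ∃ u1 u2 u3 : ℤ, Good n1 n2 n3 a1 a2 a3 b1 b2 b3 u1 u2 u3) : False := by
  have w1 : a1 - b1 = 1 := by linarith only [B15, B16, B17, B18, B19, B20, B21, B22, B23, B24, B25]
  have w2 : a1 + a2 - b1 - b2 = -x := by linarith only [B15, B16, B17, B18, B19, B20, B21, B22, B23, B24, B25]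
  have w3 : a1 + a2 + a3 - b1 - b2 - b3 = -y := by linarith only [B15, B16, B17, B18, B19, B20, B21, B22, B23, B24, B25]
  obtain ⟨h, rh1, rh2, rh3⟩ := min_facts (n1 - a1) (a2 - 1)
  have B26 : 0 ≤ n1 - a1 - h := by linarith only [rh1]
  have B27 : 0 ≤ a2 - h - 1 := by linarith only [rh2]
  have C_Dh : 0 ≤ h - n1 + a1 ∨ 0 ≤ h - a2 + 1 := rh3.imp (fun hq => by linarith only [hq]) (fun hq => by linarith only [hq])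
  clear rh1 rh2 rh3
  obtain ⟨h3, rh31, rh32, rh33⟩ := min_facts (n1 - a1) (a2 + a3 - 1)
  have B28 : 0 ≤ n1 - a1 - h3 := by linarith only [rh31]
  have B29 : 0 ≤ a2 + a3 - h3 - 1 := by linarith only [rh32]
  have C_Dh3 : 0 ≤ h3 - n1 + a1 ∨ 0 ≤ h3 - a2 - a3 + 1 := rh33.imp (fun hq => by linarith only [hq]) (fun hq => by linarith only [hq])
  clear rh31 rh32 rh33
  obtain ⟨k, rk1, rk2, rk3⟩ := min_facts (n1 - a1 + n2 - a2) (a3 - 1)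
  have B30 : 0 ≤ n1 - a1 + n2 - a2 - k := by linarith only [rk1]
  have B31 : 0 ≤ a3 - k - 1 := by linarith only [rk2]
  have C_Dk : 0 ≤ k - n1 + a1 - n2 + a2 ∨ 0 ≤ k - a3 + 1 := rk3.imp (fun hq => by linarith only [hq]) (fun hq => by linarith only [hq])
  clear rk1 rk2 rk3
  obtain ⟨g, rg1, rg2, rg3⟩ := min_facts (n2 - a2 - 1) (a3 + y - 1)
  have B32 : 0 ≤ n2 - a2 - g - 1 := by linarith only [rg1]
  have B33 : 0 ≤ a3 + y - g - 1 := by linarith only [rg2]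
  have C_Dg : 0 ≤ g - n2 + a2 + 1 ∨ 0 ≤ g - a3 - y + 1 := rg3.imp (fun hq => by linarith only [hq]) (fun hq => by linarith only [hq])
  clear rg1 rg2 rg3
  have l11 : 0 ≤ b1 - 1 → LosC n1 n2 n3 a1 a2 a3 b1 b2 b3 (2) (-n2 + b2 - x + 1) (-n2 + b2 - n3 + b3 - y + 1) := fun hq => los11 B0 B1 B2 B3 B4 B5 B6 B7 B8 B9 B10 B11 B12 B13 B14 B15 B16 B17 B18 B19 B20 B21 B22 B23 B24 B25 hq
  have l12 : LosC n1 n2 n3 a1 a2 a3 b1 b2 b3 (1) (-x + 1) (-x - n3 + a3 + 1) := los12 B0 B1 B2 B3 B4 B5 B6 B7 B8 B9 B10 B11 B12 B13 B14 B15 B16 B17 B18 B19 B20 B21 B22 B23 B24 B25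
  have l22 : LosC n1 n2 n3 a1 a2 a3 b1 b2 b3 (-h) (1) (-n3 + a3 + 1) := los22 B0 B1 B2 B3 B4 B5 B6 B7 B8 B9 B10 B11 B12 B13 B14 B15 B16 B17 B18 B19 B20 B21 B22 B23 B24 B25 B26 B27 C_Dh
  have l33 : LosC n1 n2 n3 a1 a2 a3 b1 b2 b3 (-h3) (-k) (1) := los33 B0 B1 B2 B3 B4 B5 B6 B7 B8 B9 B10 B11 B12 B13 B14 B15 B16 B17 B18 B19 B20 B21 B22 B23 B24 B25 B28 B29 B30 B31 C_Dh3 C_Dk
  have l13 : LosC n1 n2 n3 a1 a2 a3 b1 b2 b3 (1) (-g) (-y + 1) := los13 B0 B1 B2 B3 B4 B5 B6 B7 B8 B9 B10 B11 B12 B13 B14 B15 B16 B17 B18 B19 B20 B21 B22 B23 B24 B25 B32 B33 C_Dg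
  have hd := hd B0 B1 B2 B3 B4 B5 B6 B7 B8 B9 B10 B11 B12 B13 B14 B15 B16 B17 B18 B19 B20 B21 B22 B23 B24 B25 B26 B27 B28 B29 B30 B31 B32 B33 C_Dh C_Dh3 C_Dk C_Dg
  obtain ⟨p0, ep0⟩ : ∃ p, p = (x) * (-h) := ⟨_, rfl⟩
  have C_Dp0_a : (0 ≤ h - 2 ∧ 0 ≤ -2 * x - p0) ∨ (0 ≤ -h + 1 ∧ 0 ≤ p0 + x) :=
    (prod_split' (-2) ep0 (by linarith only [B15, B16, B17, B18, B19, B20, B21, B22, B23, B24, B25])).imp (fun hq => ⟨by linarith only [hq.1], by linarith only [hq.2]⟩)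
      (fun hq => ⟨by linarith only [hq.1], by linarith only [hq.2]⟩)
  have C_Dp0_b : (0 ≤ h - 1 ∧ 0 ≤ -x - p0) ∨ (0 ≤ -h ∧ 0 ≤ p0) :=
    (prod_split' (-1) ep0 (by linarith only [B15, B16, B17, B18, B19, B20, B21, B22, B23, B24, B25])).imp (fun hq => ⟨by linarith only [hq.1], by linarith only [hq.2]⟩)
      (fun hq => ⟨by linarith only [hq.1], by linarith only [hq.2]⟩)
  obtain ⟨p1, ep1⟩ : ∃ p, p = (y) * (-h) := ⟨_, rfl⟩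
  have C_Dp1_b : (0 ≤ h - 1 ∧ 0 ≤ -y - p1) ∨ (0 ≤ -h ∧ 0 ≤ p1) :=
    (prod_split' (-1) ep1 (by linarith only [B15, B16, B17, B18, B19, B20, B21, B22, B23, B24, B25])).imp (fun hq => ⟨by linarith only [hq.1], by linarith only [hq.2]⟩)
      (fun hq => ⟨by linarith only [hq.1], by linarith only [hq.2]⟩)
  have C_Dp1_c : (0 ≤ h ∧ 0 ≤ -p1) ∨ (0 ≤ -h - 1 ∧ 0 ≤ p1 - y) :=
    (prod_split' (0) ep1 (by linarith only [B15, B16, B17, B18, B19, B20, B21, B22, B23, B24, B25])).imp (fun hq => ⟨by linarith only [hq.1], by linarith only [hq.2]⟩)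
      (fun hq => ⟨by linarith only [hq.1], by linarith only [hq.2]⟩)
  obtain ⟨p2, ep2⟩ : ∃ p, p = (x) * (-h3) := ⟨_, rfl⟩
  have C_Dp2_a : (0 ≤ h3 - 2 ∧ 0 ≤ -2 * x - p2) ∨ (0 ≤ -h3 + 1 ∧ 0 ≤ p2 + x) :=
    (prod_split' (-2) ep2 (by linarith only [B15, B16, B17, B18, B19, B20, B21, B22, B23, B24, B25])).imp (fun hq => ⟨by linarith only [hq.1], by linarith only [hq.2]⟩)
      (fun hq => ⟨by linarith only [hq.1], by linarith only [hq.2]⟩)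
  have C_Dp2_b : (0 ≤ h3 - 1 ∧ 0 ≤ -x - p2) ∨ (0 ≤ -h3 ∧ 0 ≤ p2) :=
    (prod_split' (-1) ep2 (by linarith only [B15, B16, B17, B18, B19, B20, B21, B22, B23, B24, B25])).imp (fun hq => ⟨by linarith only [hq.1], by linarith only [hq.2]⟩)
      (fun hq => ⟨by linarith only [hq.1], by linarith only [hq.2]⟩)
  have C_Dp2_c : (0 ≤ h3 ∧ 0 ≤ -p2) ∨ (0 ≤ -h3 - 1 ∧ 0 ≤ p2 - x) :=
    (prod_split' (0) ep2 (by linarith only [B15, B16, B17, B18, B19, B20, B21, B22, B23, B24, B25])).imp (fun hq => ⟨by linarith only [hq.1], by linarith only [hq.2]⟩)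
      (fun hq => ⟨by linarith only [hq.1], by linarith only [hq.2]⟩)
  obtain ⟨p3, ep3⟩ : ∃ p, p = (y) * (-h3) := ⟨_, rfl⟩
  have C_Dp3_b : (0 ≤ h3 - 1 ∧ 0 ≤ -y - p3) ∨ (0 ≤ -h3 ∧ 0 ≤ p3) :=
    (prod_split' (-1) ep3 (by linarith only [B15, B16, B17, B18, B19, B20, B21, B22, B23, B24, B25])).imp (fun hq => ⟨by linarith only [hq.1], by linarith only [hq.2]⟩)
      (fun hq => ⟨by linarith only [hq.1], by linarith only [hq.2]⟩)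
  obtain ⟨p4, ep4⟩ : ∃ p, p = (x) * (-h - 1) := ⟨_, rfl⟩
  have C_Dp4_a : (0 ≤ h - 1 ∧ 0 ≤ -2 * x - p4) ∨ (0 ≤ -h ∧ 0 ≤ p4 + x) :=
    (prod_split' (-2) ep4 (by linarith only [B15, B16, B17, B18, B19, B20, B21, B22, B23, B24, B25])).imp (fun hq => ⟨by linarith only [hq.1], by linarith only [hq.2]⟩)
      (fun hq => ⟨by linarith only [hq.1], by linarith only [hq.2]⟩)
  have C_Dp4_b : (0 ≤ h ∧ 0 ≤ -x - p4) ∨ (0 ≤ -h - 1 ∧ 0 ≤ p4) :=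
    (prod_split' (-1) ep4 (by linarith only [B15, B16, B17, B18, B19, B20, B21, B22, B23, B24, B25])).imp (fun hq => ⟨by linarith only [hq.1], by linarith only [hq.2]⟩)
      (fun hq => ⟨by linarith only [hq.1], by linarith only [hq.2]⟩)
  obtain ⟨p5, ep5⟩ : ∃ p, p = (y) * (-h - 1) := ⟨_, rfl⟩
  have C_Dp5_a : (0 ≤ h - 1 ∧ 0 ≤ -2 * y - p5) ∨ (0 ≤ -h ∧ 0 ≤ p5 + y) :=
    (prod_split' (-2) ep5 (by linarith only [B15, B16, B17, B18, B19, B20, B21, B22, B23, B24, B25])).imp (fun hq => ⟨by linarith only [hq.1], by linarith only [hq.2]⟩)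
      (fun hq => ⟨by linarith only [hq.1], by linarith only [hq.2]⟩)
  have C_Dp5_b : (0 ≤ h ∧ 0 ≤ -y - p5) ∨ (0 ≤ -h - 1 ∧ 0 ≤ p5) :=
    (prod_split' (-1) ep5 (by linarith only [B15, B16, B17, B18, B19, B20, B21, B22, B23, B24, B25])).imp (fun hq => ⟨by linarith only [hq.1], by linarith only [hq.2]⟩)
      (fun hq => ⟨by linarith only [hq.1], by linarith only [hq.2]⟩)
  obtain ⟨p6, ep6⟩ : ∃ p, p = (x) * (-h3 - 1) := ⟨_, rfl⟩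
  have C_Dp6_a : (0 ≤ h3 - 1 ∧ 0 ≤ -2 * x - p6) ∨ (0 ≤ -h3 ∧ 0 ≤ p6 + x) :=
    (prod_split' (-2) ep6 (by linarith only [B15, B16, B17, B18, B19, B20, B21, B22, B23, B24, B25])).imp (fun hq => ⟨by linarith only [hq.1], by linarith only [hq.2]⟩)
      (fun hq => ⟨by linarith only [hq.1], by linarith only [hq.2]⟩)
  have C_Dp6_b : (0 ≤ h3 ∧ 0 ≤ -x - p6) ∨ (0 ≤ -h3 - 1 ∧ 0 ≤ p6) :=
    (prod_split' (-1) ep6 (by linarith only [B15, B16, B17, B18, B19, B20, B21, B22, B23, B24, B25])).imp (fun hq => ⟨by linarith only [hq.1], by linarith only [hq.2]⟩)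
      (fun hq => ⟨by linarith only [hq.1], by linarith only [hq.2]⟩)
  obtain ⟨p7, ep7⟩ : ∃ p, p = (y) * (-h3 - 1) := ⟨_, rfl⟩
  have C_Dp7_a : (0 ≤ h3 - 1 ∧ 0 ≤ -2 * y - p7) ∨ (0 ≤ -h3 ∧ 0 ≤ p7 + y) :=
    (prod_split' (-2) ep7 (by linarith only [B15, B16, B17, B18, B19, B20, B21, B22, B23, B24, B25])).imp (fun hq => ⟨by linarith only [hq.1], by linarith only [hq.2]⟩)
      (fun hq => ⟨by linarith only [hq.1], by linarith only [hq.2]⟩)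
  have C_Dp7_b : (0 ≤ h3 ∧ 0 ≤ -y - p7) ∨ (0 ≤ -h3 - 1 ∧ 0 ≤ p7) :=
    (prod_split' (-1) ep7 (by linarith only [B15, B16, B17, B18, B19, B20, B21, B22, B23, B24, B25])).imp (fun hq => ⟨by linarith only [hq.1], by linarith only [hq.2]⟩)
      (fun hq => ⟨by linarith only [hq.1], by linarith only [hq.2]⟩)
  have FA := FAt B15 B16 B17 B18 B19 B20 B21 B22 B23 B24 B25 ep0 ep1 ep2 ep3 w1 w2 w3 hno hd
  have FB := FBt B15 B16 B17 B18 B19 B20 B21 B22 B23 B24 B25 ep0 ep1 ep2 ep3 w1 w2 w3 hno hd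
  have G_e1_V1_V2 := Gt_e1_V1_V2 B15 B16 B17 B18 B19 B20 B21 B22 B23 B24 B25 ep4 ep5 ep6 ep7 w1 w2 w3 hno hd
  have G_e1_V2_V1 := Gt_e1_V2_V1 B15 B16 B17 B18 B19 B20 B21 B22 B23 B24 B25 ep4 ep5 ep6 ep7 w1 w2 w3 hno hd
  have G_V1_e1_V2 := Gt_V1_e1_V2 B15 B16 B17 B18 B19 B20 B21 B22 B23 B24 B25 ep0 ep2 ep5 ep7 w1 w2 w3 hno hd
  have G_V2_e1_V1 := Gt_V2_e1_V1 B15 B16 B17 B18 B19 B20 B21 B22 B23 B24 B25 ep1 ep3 ep4 ep6 w1 w2 w3 hno hd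
  have G_e2_V1 := Gt_e2_V1 B15 B16 B17 B18 B19 B20 B21 B22 B23 B24 B25 ep0 ep2 w1 w2 w3 hno hd
  have G_V1_e2 := Gt_V1_e2 B15 B16 B17 B18 B19 B20 B21 B22 B23 B24 B25 ep0 ep2 w1 w2 w3 hno hd
  have t0_11_22 := T0_11_22 H w1 w2 w3 l11 l22
  have t1_11_22 := T1_11_22 H w1 w2 w3 l11 l22
  have t2_11_22 := T2_11_22 H l11 l22
  have t0_11_33 := T0_11_33 H w1 w2 w3 l11 l33
  have t1_11_33 := T1_11_33 H w1 w2 w3 l11 l33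
  have t2_12_22 := T2_12_22 H l12 l22
  have t1_12_33 := T1_12_33 H w1 w2 w3 l12 l33
  have t2_12_33 := T2_12_33 H l12 l33
  have t0_12_13 := T0_12_13 H w1 w2 w3 l12 l13
  have t2_22_33 := T2_22_33 H l22 l33
  have t1_22_13 := T1_22_13 H w1 w2 w3 l22 l13
  have t2_22_13 := T2_22_13 H l22 l13
  have Z_B23_2 : 0 ≤ -n2 + b2 - n3 + b3 + 2 ∨ 0 ≤ n2 - b2 + n3 - b3 - 3 := (le_or_gt (n2 - b2 + n3 - b3) (2)).imp (fun hq => by linarith only [hq]) (fun hq => by linarith only [hq])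
  have Z_B3_0 : 0 ≤ -n3 + b3 ∨ 0 ≤ n3 - b3 - 1 := (le_or_gt (n3 - b3) (0)).imp (fun hq => by linarith only [hq]) (fun hq => by linarith only [hq])
  rcases FA with ⟨f0_0, f0_1, f0_2⟩ | ⟨f0_0, f0_1⟩ | ⟨f0_0, f0_1⟩ | ⟨f0_0, f0_1⟩
  · rcases FB with ⟨f1_0, f1_1, f1_2⟩ | ⟨f1_0, f1_1⟩ | ⟨f1_0, f1_1⟩ | ⟨f1_0, f1_1⟩
    · exact g0 B1 B2 B6 B15 B16 B17 B18 B19 B20 B22 B23 B26 B27 B28 B29 B31 B32 B33 f0_0 f0_1 f1_1 C_c2 C_Dh C_Dh3 C_Dk C_Dg C_Dp0_b C_Dp1_b C_Dp1_c C_Dp2_b C_Dp3_b C_Dp4_b C_Dp5_b C_Dp6_b C_Dp7_a C_Dp7_b t0_11_33 t0_11_22 t1_11_33 t0_12_13 t1_22_13 G_e1_V1_V2 G_V1_e1_V2 G_V2_e1_V1 G_e1_V2_V1 Z_B3_0 Z_B23_2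
    · exact g1 B2 B6 B16 B17 B18 B20 B22 B23 B27 B28 B29 B31 f0_0 f0_1 f1_1 C_Dh C_Dh3 C_Dk C_Dg C_Dp0_b C_Dp2_b C_Dp4_a C_Dp6_b t0_11_33 t0_12_13 t1_11_22 G_e1_V1_V2 G_V1_e1_V2
    · exact g2 B1 B2 B6 B8 B11 B16 B17 B18 B20 B22 B23 B27 B28 B29 B31 f0_0 f0_1 C_Dh C_Dh3 C_Dk C_Dg C_Dp0_b C_Dp1_b C_Dp1_c C_Dp2_b C_Dp4_a C_Dp4_b C_Dp5_b C_Dp6_b C_Dp7_b f1_1 t0_11_33 t1_22_13 t1_11_22 t0_12_13 G_V1_e1_V2 G_e1_V1_V2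
    · exact g3 B2 B11 B16 B17 B22 B23 B28 f0_0 f0_1 f1_0 C_Dk C_Dp3_b t1_11_33
  · rcases FB with ⟨f1_0, f1_1, f1_2⟩ | ⟨f1_0, f1_1⟩ | ⟨f1_0, f1_1⟩ | ⟨f1_0, f1_1⟩
    · exact g4 B2 B5 B8 B10 B16 B17 B18 B20 B22 B23 B26 B27 B28 B29 B31 f0_0 f1_0 f1_1 C_Dh C_Dh3 C_Dk C_Dg C_Dp0_a C_Dp0_b C_Dp2_a C_Dp2_b C_Dp7_a t1_11_33 t2_22_13 t2_11_22 G_V1_e2 G_e2_V1
    · exact g5 B8 B10 B16 B17 B18 B20 B22 B23 B28 B29 B31 f0_0 f1_1 C_Dh C_Dg C_Dp0_a C_Dp0_b C_Dp2_a t2_22_13 t2_12_22 t1_11_22 t2_11_22 G_e2_V1 G_V1_e2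
    · exact g6 B2 B8 B10 B14 B15 B16 B17 B18 B19 B20 B22 B23 B26 B27 B28 B29 B31 f0_0 C_c2 C_Dh C_Dh3 C_Dg C_Dp0_a C_Dp0_b C_Dp2_a C_Dp2_b t2_22_13 t2_12_22 t1_11_22 t2_11_22 G_e2_V1 G_V1_e2
    · exact g7 B8 B10 B14 B15 B16 B17 B18 B19 B20 B22 B23 B28 B29 B31 f0_0 f1_0 C_c2 C_Dh C_Dg C_Dp0_a C_Dp0_b C_Dp2_a C_Dp2_b C_Dp3_b t2_22_13 t2_12_22 t1_11_22 t2_11_22 G_e2_V1 G_V1_e2
  · rcases FB with ⟨f1_0, f1_1, f1_2⟩ | ⟨f1_0, f1_1⟩ | ⟨f1_0, f1_1⟩ | ⟨f1_0, f1_1⟩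
    · exact g8 B1 B2 B5 B6 B8 B10 B15 B16 B17 B18 B19 B20 B22 B23 B27 B28 B29 B31 f0_0 f1_0 f1_1 C_c2 C_Dh C_Dh3 C_Dk C_Dg C_Dp0_a C_Dp0_b C_Dp1_c C_Dp2_a C_Dp2_b C_Dp2_c C_Dp3_b C_Dp4_b C_Dp7_a C_Dp7_b f0_1 f1_2 t1_12_33 t2_12_33 t0_11_33 t1_11_22 t2_22_33 t0_11_22 t2_22_13 t2_11_22 G_V1_e2 G_V2_e1_V1 G_e2_V1 Z_B3_0 Z_B23_2
    · exact g9 B1 B2 B5 B6 B8 B10 B16 B17 B18 B20 B22 B23 B28 B29 B31 f0_0 f1_1 C_Dh C_Dh3 C_Dk C_Dp0_a C_Dp2_a C_Dp2_b C_Dp3_b C_Dp5_a C_Dp6_b f0_1 t1_12_33 t2_12_33 t2_22_13 t1_11_22 t2_11_22 G_e2_V1 G_V1_e2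
    · exact g10 B1 B2 B6 B10 B11 B14 B15 B16 B17 B18 B19 B20 B22 B23 B26 B27 B28 B29 B31 f0_0 f1_0 C_c2 C_Dh C_Dh3 C_Dk C_Dg C_Dp0_a C_Dp0_b C_Dp1_b C_Dp1_c C_Dp2_a C_Dp2_b C_Dp3_b C_Dp5_a C_Dp5_b C_Dp6_b f0_1 f1_1 t2_12_33 t2_22_33 t2_22_13 t1_12_33 t1_11_22 t2_11_22 G_e2_V1 G_V1_e2
    · exact g11 B2 B10 B11 B14 B15 B16 B17 B18 B19 B20 B22 B23 B28 B29 f1_0 C_c2 C_Dh C_Dk C_Dg C_Dp0_a C_Dp0_b C_Dp2_a C_Dp3_b t2_12_33 t2_22_13 t1_11_22 t2_11_22 G_e2_V1 G_V1_e2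
  · rcases FB with ⟨f1_0, f1_1, f1_2⟩ | ⟨f1_0, f1_1⟩ | ⟨f1_0, f1_1⟩ | ⟨f1_0, f1_1⟩
    · exact g12 B6 B10 B11 B15 B16 B17 B18 B19 B20 B21 B25 B27 B28 B32 B33 f0_1 f1_0 f1_1 C_c2 C_Dh3 C_Dk C_Dp1_c C_Dp2_c C_Dp3_b C_Dp4_b C_Dp5_b C_Dp6_a C_Dp6_b C_Dp7_a f1_2 t0_11_33 t0_12_13 t1_22_13 t0_11_22 t1_11_33 G_V2_e1_V1 G_e1_V2_V1 Z_B3_0
    · exact g13 f0_1 f1_1 t0_12_13
    · exact g14 B11 B15 B17 B19 B20 B26 B27 B28 B32 B33 f0_1 f1_0 C_c2 C_Dh3 C_Dk C_Dp0_b C_Dp1_b C_Dp1_c C_Dp7_a f1_1 t1_22_13 t0_12_13 t2_12_33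
    · exact g15 B11 B15 B17 B19 B20 B28 B29 B32 B33 f0_1 f1_0 C_c2 C_Dh C_Dk C_Dp3_b C_Dp5_b t2_12_33 t1_22_13

end WG3.IIP
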