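import Pool.Agent.Work.MP_5465ec_co.Core

set_option linter.all false

namespace WG3.IVN

theorem g0 {a1 a2 a3 b1 b2 b3 d1 e g h m n1 n2 n3 p0 y : ℤ}
    (B2 : 0 ≤ a3)
    (B6 : 0 ≤ n1 - a1)
    (B10 : 0 ≤ n2 - b2)
    (B11 : 0 ≤ n3 - b3)
    (B16 : 0 ≤ a1 + a2 - b1 - b2 - e)
    (B17 : 0 ≤ e - 1)
    (B19 : 0 ≤ -a1 - a2 - a3 + b1 + b2 + b3 - y)
    (B20 : 0 ≤ y - 1)
    (B21 : 0 ≤ d1 - a1 + b1)
    (B23 : 0 ≤ d1 - 1)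
    (B36 : 0 ≤ -m + 1)
    (B38 : 0 ≤ b1 - 1)
    (B39 : 0 ≤ -d1 - p0 - 1)
    (D0 : (0 ≤ a1 - 1 ∧ 0 ≤ n2 - a2 - 1) ∨ (0 ≤ b1 - 1 ∧ 0 ≤ n2 - b2 - 1))
    (D1 : (0 ≤ a2 - 1 ∧ 0 ≤ n3 - a3 - 1) ∨ (0 ≤ b2 - 1 ∧ 0 ≤ n3 - b3 - 1))
    (D2 : 0 ≤ d1 - 2 ∨ 0 ≤ e - 2)
    (D6 : 0 ≤ g - n2 + a2 + 1 ∨ 0 ≤ g - a3)
    (D7 : 0 ≤ h - n1 + a1 ∨ 0 ≤ h - a2 + 1)
    (D8 : 0 ≤ m - 1 ∨ 0 ≤ m - n3 + a3)
    (D9 : (0 ≤ n2 - b2 + n3 - b3 - 2 ∧ 0 ≤ -2 * d1 - p0) ∨ (0 ≤ -n2 + b2 - n3 + b3 + 1 ∧ 0 ≤ p0 + d1))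
    (D35 : 0 ≤ -b1 ∨ 0 ≤ -h - d1 ∨ 0 ≤ -n2 + b2 - e + 1 ∨ 0 ≤ -n2 + b2 - n3 + b3 - m + 2)
    (D36 : 0 ≤ -b1 ∨ 0 ≤ -d1 + 1 ∨ 0 ≤ -n2 + b2 - g - e ∨ 0 ≤ -n2 + b2 - n3 + b3 + 1) : False := by
  have E0 := D0
  have E1 := D1
  have E2 := D2
  have E6 := D6
  have E7 := D7
  have E8 : 0 ≤ m - 1 := by
    rcases D8 with H8 | H8
    · exact H8
    · linarith only [B20, B17, H8, B36, B11, B16, B19]
  have E9 : (0 ≤ n2 - b2 + n3 - b3 - 2 ∧ 0 ≤ -2 * d1 - p0) := by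
    rcases D9 with H9 | H9
    · exact H9
    · linarith only [B39, H9.2]
  have E35 : 0 ≤ -h - d1 ∨ 0 ≤ -n2 + b2 - e + 1 ∨ 0 ≤ -n2 + b2 - n3 + b3 - m + 2 := by
    rcases D35 with H35 | H35 | H35 | H35
    · linarith only [B38, H35]
    · exact Or.inl H35
    · exact Or.inr (Or.inl H35)
    · exact Or.inr (Or.inr H35)
  have E36 : 0 ≤ -d1 + 1 ∨ 0 ≤ -n2 + b2 - g - e ∨ 0 ≤ -n2 + b2 - n3 + b3 + 1 := by
    rcases D36 with H36 | H36 | H36 | H36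
    · linarith only [B38, H36]
    · exact Or.inl H36
    · exact Or.inr (Or.inl H36)
    · exact Or.inr (Or.inr H36)
  have H9 := E9
  have H8 := E8
  rcases E35 with H35 | H35 | H35
  · rcases E7 with H7 | H7
    · linarith only [H35, B6, B23, H7]
    · rcases E1 with H1 | H1
      · linarith only [H1.1, H35, B23, H7]
      · linarith only [H1.1, B16, H35, B21, B17, H7]
  · rcases E0 with H0 | H0
    · rcases E2 with H2 | H2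
      · rcases E36 with H36 | H36 | H36
        · linarith only [H2, H36]
        · rcases E6 with H6 | H6
          · linarith only [H6, H0.2, H36, B17, B10]
          · linarith only [B2, H6, H36, B17, B10]
        · linarith only [H9.1, H36]
      · linarith only [H2, H35, B10]
    · linarith only [H0.2, B17, H35]
  · linarith only [H35, H8, H9.1]

theorem g1 {a1 a2 a3 b1 b2 b3 d1 e g h3 k n1 n2 n3 p0 p3 : ℤ}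
    (B2 : 0 ≤ a3)
    (B4 : 0 ≤ b2)
    (B6 : 0 ≤ n1 - a1)
    (B7 : 0 ≤ n2 - a2)
    (B10 : 0 ≤ n2 - b2)
    (B15 : 0 ≤ e - a1 - a2 + b1 + b2)
    (B16 : 0 ≤ a1 + a2 - b1 - b2 - e)
    (B17 : 0 ≤ e - 1)
    (B21 : 0 ≤ d1 - a1 + b1)
    (B22 : 0 ≤ a1 - b1 - d1)
    (B23 : 0 ≤ d1 - 1)
    (B38 : 0 ≤ b1 - 1)
    (B39 : 0 ≤ -d1 - p0 - 1)
    (B41 : 0 ≤ -e - p3 - 1)
    (D0 : (0 ≤ a1 - 1 ∧ 0 ≤ n2 - a2 - 1) ∨ (0 ≤ b1 - 1 ∧ 0 ≤ n2 - b2 - 1))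
    (D2 : 0 ≤ d1 - 2 ∨ 0 ≤ e - 2)
    (D4 : 0 ≤ h3 - n1 + a1 ∨ 0 ≤ h3 - a2 - a3 + 1)
    (D5 : 0 ≤ k - n1 + a1 - n2 + a2 ∨ 0 ≤ k - a3 + 1)
    (D6 : 0 ≤ g - n2 + a2 + 1 ∨ 0 ≤ g - a3)
    (D9 : (0 ≤ n2 - b2 + n3 - b3 - 2 ∧ 0 ≤ -2 * d1 - p0) ∨ (0 ≤ -n2 + b2 - n3 + b3 + 1 ∧ 0 ≤ p0 + d1))
    (D21 : (0 ≤ n3 - b3 - 2 ∧ 0 ≤ -2 * e - p3) ∨ (0 ≤ -n3 + b3 + 1 ∧ 0 ≤ p3 + e))
    (D35 : 0 ≤ -b1 ∨ 0 ≤ -h3 - d1 ∨ 0 ≤ -n2 + b2 - k - e ∨ 0 ≤ -n2 + b2 - n3 + b3 + 2)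
    (D36 : 0 ≤ -b1 ∨ 0 ≤ -d1 + 1 ∨ 0 ≤ -n2 + b2 - g - e ∨ 0 ≤ -n2 + b2 - n3 + b3 + 1) : False := by
  have E0 := D0
  have E2 := D2
  have E4 := D4
  have E5 := D5
  have E6 := D6
  have E9 : (0 ≤ n2 - b2 + n3 - b3 - 2 ∧ 0 ≤ -2 * d1 - p0) := by
    rcases D9 with H9 | H9
    · exact H9
    · linarith only [B39, H9.2]
  have E21 : (0 ≤ n3 - b3 - 2 ∧ 0 ≤ -2 * e - p3) := by
    rcases D21 with H21 | H21
    · exact H21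
    · linarith only [B41, H21.2]
  have E35 : 0 ≤ -h3 - d1 ∨ 0 ≤ -n2 + b2 - k - e ∨ 0 ≤ -n2 + b2 - n3 + b3 + 2 := by
    rcases D35 with H35 | H35 | H35 | H35
    · linarith only [B38, H35]
    · exact Or.inl H35
    · exact Or.inr (Or.inl H35)
    · exact Or.inr (Or.inr H35)
  have E36 : 0 ≤ -d1 + 1 ∨ 0 ≤ -n2 + b2 - g - e ∨ 0 ≤ -n2 + b2 - n3 + b3 + 1 := by
    rcases D36 with H36 | H36 | H36 | H36
    · linarith only [B38, H36]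
    · exact Or.inl H36
    · exact Or.inr (Or.inl H36)
    · exact Or.inr (Or.inr H36)
  have H9 := E9
  have H21 := E21
  rcases E36 with H36 | H36 | H36
  · rcases E2 with H2 | H2
    · linarith only [H2, H36]
    · rcases E35 with H35 | H35 | H35
      · rcases E4 with H4 | H4
        · linarith only [H4, H35, B23, B6]
        · linarith only [B16, H35, B21, B4, H4, H2, B2]
      · rcases E5 with H5 | H5
        · linarith only [B7, B6, H35, B10, H5, H2]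
        · linarith only [B7, B2, B21, H35, B16, H5, H2, H36]
      · linarith only [B16, B7, H21.1, B21, H2, H35, H36]
  · rcases E6 with H6 | H6
    · rcases E0 with H0 | H0
      · linarith only [H0.2, H36, H6, B17, B10]
      · linarith only [B22, B15, H36, H0.2, B23, H6]
    · linarith only [B2, H6, H36, B17, B10]
  · linarith only [H36, H9.1]

theorem g2 {a1 a2 a3 b1 b2 b3 d1 e g h h3 k m n1 n2 n3 p0 p2 y : ℤ}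
    (B1 : 0 ≤ a2)
    (B4 : 0 ≤ b2)
    (B6 : 0 ≤ n1 - a1)
    (B10 : 0 ≤ n2 - b2)
    (B11 : 0 ≤ n3 - b3)
    (B16 : 0 ≤ a1 + a2 - b1 - b2 - e)
    (B17 : 0 ≤ e - 1)
    (B19 : 0 ≤ -a1 - a2 - a3 + b1 + b2 + b3 - y)
    (B20 : 0 ≤ y - 1)
    (B21 : 0 ≤ d1 - a1 + b1)
    (B23 : 0 ≤ d1 - 1)
    (B30 : 0 ≤ n1 - a1 + n2 - a2 - k)
    (B31 : 0 ≤ a3 - k - 1)
    (B36 : 0 ≤ -m + 1)
    (B38 : 0 ≤ b1 - 1)
    (B39 : 0 ≤ -d1 - p0 - 1)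
    (B40 : 0 ≤ k - e)
    (D1 : (0 ≤ a2 - 1 ∧ 0 ≤ n3 - a3 - 1) ∨ (0 ≤ b2 - 1 ∧ 0 ≤ n3 - b3 - 1))
    (D2 : 0 ≤ d1 - 2 ∨ 0 ≤ e - 2)
    (D4 : 0 ≤ h3 - n1 + a1 ∨ 0 ≤ h3 - a2 - a3 + 1)
    (D6 : 0 ≤ g - n2 + a2 + 1 ∨ 0 ≤ g - a3)
    (D7 : 0 ≤ h - n1 + a1 ∨ 0 ≤ h - a2 + 1)
    (D8 : 0 ≤ m - 1 ∨ 0 ≤ m - n3 + a3)
    (D9 : (0 ≤ n2 - b2 + n3 - b3 - 2 ∧ 0 ≤ -2 * d1 - p0) ∨ (0 ≤ -n2 + b2 - n3 + b3 + 1 ∧ 0 ≤ p0 + d1))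
    (D17 : (0 ≤ n3 - b3 - 2 ∧ 0 ≤ -2 * d1 - p2) ∨ (0 ≤ -n3 + b3 + 1 ∧ 0 ≤ p2 + d1))
    (D34 : 0 ≤ k - e - 1 ∨ 0 ≤ h3 - d1)
    (D35 : 0 ≤ -b1 ∨ 0 ≤ -h - d1 ∨ 0 ≤ -n2 + b2 - e + 1 ∨ 0 ≤ -n2 + b2 - n3 + b3 - m + 2)
    (D36 : 0 ≤ -b1 ∨ 0 ≤ -h3 ∨ 0 ≤ -n2 + b2 - k ∨ 0 ≤ -n2 + b2 - n3 + b3 + 1)
    (D37 : 0 ≤ -b1 ∨ 0 ≤ -d1 + 1 ∨ 0 ≤ -n2 + b2 - g - e ∨ 0 ≤ -n2 + b2 - n3 + b3 + 1) : False := by
  have E1 := D1
  have E2 := D2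
  have E4 := D4
  have E6 := D6
  have E7 := D7
  have E8 : 0 ≤ m - 1 := by
    rcases D8 with H8 | H8
    · exact H8
    · linarith only [B20, B17, H8, B36, B11, B16, B19]
  have E9 : (0 ≤ n2 - b2 + n3 - b3 - 2 ∧ 0 ≤ -2 * d1 - p0) := by
    rcases D9 with H9 | H9
    · exact H9
    · linarith only [B39, H9.2]
  have E17 := D17
  have E34 := D34
  have E35 : 0 ≤ -h - d1 ∨ 0 ≤ -n2 + b2 - e + 1 ∨ 0 ≤ -n2 + b2 - n3 + b3 - m + 2 := by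
    rcases D35 with H35 | H35 | H35 | H35
    · linarith only [B38, H35]
    · exact Or.inl H35
    · exact Or.inr (Or.inl H35)
    · exact Or.inr (Or.inr H35)
  have E36 : 0 ≤ -h3 ∨ 0 ≤ -n2 + b2 - n3 + b3 + 1 := by
    rcases D36 with H36 | H36 | H36 | H36
    · linarith only [B38, H36]
    · exact Or.inl H36
    · linarith only [B17, B40, H36, B10]
    · exact Or.inr H36
  have E37 : 0 ≤ -d1 + 1 ∨ 0 ≤ -n2 + b2 - g - e ∨ 0 ≤ -n2 + b2 - n3 + b3 + 1 := by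
    rcases D37 with H37 | H37 | H37 | H37
    · linarith only [B38, H37]
    · exact Or.inl H37
    · exact Or.inr (Or.inl H37)
    · exact Or.inr (Or.inr H37)
  have H9 := E9
  have H8 := E8
  rcases E36 with H36 | H36
  · rcases E34 with H34 | H34
    · rcases E4 with H4 | H4
      · rcases E17 with H17 | H17
        · rcases E37 with H37 | H37 | H37
          · rcases E2 with H2 | H2
            · linarith only [H2, H37]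
            · rcases E35 with H35 | H35 | H35
              · rcases E7 with H7 | H7
                · linarith only [H35, H7, B23, B6]
                · linarith only [B4, B16, H35, B21, H2, H7]
              · linarith only [B16, B21, B30, H34, H36, H4, H2, H35, H37]
              · linarith only [B16, B21, B30, H35, H34, H36, H17.1, H4, H2, H8, H37]
          · rcases E6 with H6 | H6
            · linarith only [H36, H4, B30, H34, H37, H6, B17, B10]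
            · linarith only [H34, B31, H6, H37, B17, B10]
          · linarith only [H37, H9.1]
        · rcases E35 with H35 | H35 | H35
          · rcases E7 with H7 | H7
            · linarith only [H35, B6, B23, H7]
            · rcases E1 with H1 | H1
              · linarith only [H1.1, H35, B23, H7]
              · linarith only [H1.1, B16, H35, B21, B17, H7]
          · linarith only [H9.1, H35, B17, H17.1]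
          · linarith only [H9.1, H35, H8]
      · linarith only [B31, B1, H34, H36, H4, B17]
    · linarith only [H34, B23, H36]
  · linarith only [H9.1, H36]

theorem g3 {a1 a2 a3 b1 b2 b3 d1 e g h m n1 n2 n3 p0 y : ℤ}
    (B4 : 0 ≤ b2)
    (B6 : 0 ≤ n1 - a1)
    (B10 : 0 ≤ n2 - b2)
    (B11 : 0 ≤ n3 - b3)
    (B16 : 0 ≤ a1 + a2 - b1 - b2 - e)
    (B17 : 0 ≤ e - 1)
    (B19 : 0 ≤ -a1 - a2 - a3 + b1 + b2 + b3 - y)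
    (B20 : 0 ≤ y - 1)
    (B21 : 0 ≤ d1 - a1 + b1)
    (B23 : 0 ≤ d1 - 1)
    (B32 : 0 ≤ n2 - a2 - g - 1)
    (B36 : 0 ≤ -m + 1)
    (B38 : 0 ≤ b1 - 1)
    (B39 : 0 ≤ -d1 - p0 - 1)
    (B41 : 0 ≤ g - 1)
    (D2 : 0 ≤ d1 - 2 ∨ 0 ≤ e - 2)
    (D7 : 0 ≤ h - n1 + a1 ∨ 0 ≤ h - a2 + 1)
    (D8 : 0 ≤ m - 1 ∨ 0 ≤ m - n3 + a3)
    (D9 : (0 ≤ n2 - b2 + n3 - b3 - 2 ∧ 0 ≤ -2 * d1 - p0) ∨ (0 ≤ -n2 + b2 - n3 + b3 + 1 ∧ 0 ≤ p0 + d1))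
    (D34 : 0 ≤ -b1 ∨ 0 ≤ -h - d1 ∨ 0 ≤ -n2 + b2 - e + 1 ∨ 0 ≤ -n2 + b2 - n3 + b3 - m + 2)
    (D35 : 0 ≤ -b1 ∨ 0 ≤ -d1 + 1 ∨ 0 ≤ -n2 + b2 - g - e ∨ 0 ≤ -n2 + b2 - n3 + b3 + 1) : False := by
  have E2 := D2
  have E7 := D7
  have E8 : 0 ≤ m - 1 := by
    rcases D8 with H8 | H8
    · exact H8
    · linarith only [B20, B17, H8, B36, B11, B16, B19]
  have E9 : (0 ≤ n2 - b2 + n3 - b3 - 2 ∧ 0 ≤ -2 * d1 - p0) := by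
    rcases D9 with H9 | H9
    · exact H9
    · linarith only [B39, H9.2]
  have E34 : 0 ≤ -h - d1 ∨ 0 ≤ -n2 + b2 - e + 1 ∨ 0 ≤ -n2 + b2 - n3 + b3 - m + 2 := by
    rcases D34 with H34 | H34 | H34 | H34
    · linarith only [B38, H34]
    · exact Or.inl H34
    · exact Or.inr (Or.inl H34)
    · exact Or.inr (Or.inr H34)
  have E35 : 0 ≤ -d1 + 1 ∨ 0 ≤ -n2 + b2 - n3 + b3 + 1 := by
    rcases D35 with H35 | H35 | H35 | H35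
    · linarith only [B38, H35]
    · exact Or.inl H35
    · linarith only [B41, H35, B17, B10]
    · exact Or.inr H35
  have H9 := E9
  have H8 := E8
  rcases E35 with H35 | H35
  · rcases E34 with H34 | H34 | H34
    · rcases E2 with H2 | H2
      · linarith only [H2, H35]
      · rcases E7 with H7 | H7
        · linarith only [H34, B6, B23, H7]
        · linarith only [B4, B16, H7, B21, H2, H34]
    · linarith only [H34, B16, B32, B41, B21, B17, H35]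
    · linarith only [H34, H8, H9.1]
  · linarith only [H35, H9.1]

theorem g4 {e m p5 : ℤ}
    (B36 : 0 ≤ -m + 1)
    (B40 : 0 ≤ -p5 - 1)
    (D30 : (0 ≤ m - 2 ∧ 0 ≤ -e - p5) ∨ (0 ≤ -m + 1 ∧ 0 ≤ p5)) : False := by
  have E30 : False := by
    rcases D30 with H30 | H30
    · linarith only [B36, H30.1]
    · linarith only [B40, H30.2]
  exact E30

theorem g5_l0 {a1 a2 a3 b1 b2 b3 d1 e g n2 n3 p0 : ℤ}
    (B2 : 0 ≤ a3)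
    (B10 : 0 ≤ n2 - b2)
    (B17 : 0 ≤ e - 1)
    (E0 : (0 ≤ a1 - 1 ∧ 0 ≤ n2 - a2 - 1) ∨ (0 ≤ b1 - 1 ∧ 0 ≤ n2 - b2 - 1))
    (E2 : 0 ≤ d1 - 2 ∨ 0 ≤ e - 2)
    (E6 : 0 ≤ g - n2 + a2 + 1 ∨ 0 ≤ g - a3)
    (E36 : 0 ≤ -d1 + 1 ∨ 0 ≤ -n2 + b2 - g - e ∨ 0 ≤ -n2 + b2 - n3 + b3 + 1)
    (H9 : 0 ≤ n2 - b2 + n3 - b3 - 2 ∧ 0 ≤ -2 * d1 - p0)
    (H35 : 0 ≤ -n2 + b2 - e + 1) : False := by
  rcases E0 with H0 | H0
  · rcases E2 with H2 | H2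
    · rcases E36 with H36 | H36 | H36
      · linarith only [H2, H36]
      · rcases E6 with H6 | H6
        · linarith only [H0.2, H36, B10, B17, H6]
        · linarith only [B2, H6, H36, B17, B10]
      · linarith only [H9.1, H36]
    · linarith only [H35, H2, B10]
  · linarith only [H0.2, B17, H35]

theorem g5_l1 {a1 a2 a3 b1 b2 b3 d1 e g h m n1 n2 n3 p0 : ℤ}
    (B2 : 0 ≤ a3)
    (B6 : 0 ≤ n1 - a1)
    (B10 : 0 ≤ n2 - b2)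
    (B16 : 0 ≤ a1 + a2 - b1 - b2 - e)
    (B17 : 0 ≤ e - 1)
    (B21 : 0 ≤ d1 - a1 + b1)
    (B23 : 0 ≤ d1 - 1)
    (E0 : (0 ≤ a1 - 1 ∧ 0 ≤ n2 - a2 - 1) ∨ (0 ≤ b1 - 1 ∧ 0 ≤ n2 - b2 - 1))
    (E1 : (0 ≤ a2 - 1 ∧ 0 ≤ n3 - a3 - 1) ∨ (0 ≤ b2 - 1 ∧ 0 ≤ n3 - b3 - 1))
    (E2 : 0 ≤ d1 - 2 ∨ 0 ≤ e - 2)
    (E6 : 0 ≤ g - n2 + a2 + 1 ∨ 0 ≤ g - a3)
    (E7 : 0 ≤ h - n1 + a1 ∨ 0 ≤ h - a2 + 1)
    (E35 : 0 ≤ -h - d1 ∨ 0 ≤ -n2 + b2 - e + 1 ∨ 0 ≤ -n2 + b2 - n3 + b3 - m + 2)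
    (E36 : 0 ≤ -d1 + 1 ∨ 0 ≤ -n2 + b2 - g - e ∨ 0 ≤ -n2 + b2 - n3 + b3 + 1)
    (H8 : 0 ≤ m - 1)
    (H9 : 0 ≤ n2 - b2 + n3 - b3 - 2 ∧ 0 ≤ -2 * d1 - p0) : False := by
  rcases E7 with H7 | H7
  · rcases E35 with H35 | H35 | H35
    · linarith only [B6, H35, B23, H7]
    · exact g5_l0 B2 B10 B17 E0 E2 E6 E36 H9 H35
    · linarith only [H35, H8, H9.1]
  · rcases E35 with H35 | H35 | H35
    · rcases E1 with H1 | H1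
      · linarith only [H35, H7, B23, H1.1]
      · linarith only [H35, B21, B16, H7, B17, H1.1]
    · exact g5_l0 B2 B10 B17 E0 E2 E6 E36 H9 H35
    · linarith only [H35, H8, H9.1]

theorem g5 {a1 a2 a3 b1 b2 b3 d1 e g h m n1 n2 n3 p0 p1 y : ℤ}
    (B2 : 0 ≤ a3)
    (B6 : 0 ≤ n1 - a1)
    (B10 : 0 ≤ n2 - b2)
    (B11 : 0 ≤ n3 - b3)
    (B16 : 0 ≤ a1 + a2 - b1 - b2 - e)
    (B17 : 0 ≤ e - 1)
    (B19 : 0 ≤ -a1 - a2 - a3 + b1 + b2 + b3 - y)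
    (B20 : 0 ≤ y - 1)
    (B21 : 0 ≤ d1 - a1 + b1)
    (B23 : 0 ≤ d1 - 1)
    (B36 : 0 ≤ -m + 1)
    (B40 : 0 ≤ b1 - 1)
    (D0 : (0 ≤ a1 - 1 ∧ 0 ≤ n2 - a2 - 1) ∨ (0 ≤ b1 - 1 ∧ 0 ≤ n2 - b2 - 1))
    (D1 : (0 ≤ a2 - 1 ∧ 0 ≤ n3 - a3 - 1) ∨ (0 ≤ b2 - 1 ∧ 0 ≤ n3 - b3 - 1))
    (D2 : 0 ≤ d1 - 2 ∨ 0 ≤ e - 2)
    (D6 : 0 ≤ g - n2 + a2 + 1 ∨ 0 ≤ g - a3)
    (D7 : 0 ≤ h - n1 + a1 ∨ 0 ≤ h - a2 + 1)
    (D8 : 0 ≤ m - 1 ∨ 0 ≤ m - n3 + a3)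
    (D9 : (0 ≤ n2 - b2 + n3 - b3 - 2 ∧ 0 ≤ -2 * d1 - p0) ∨ (0 ≤ -n2 + b2 - n3 + b3 + 1 ∧ 0 ≤ p0 + d1))
    (D13 : (0 ≤ n2 - b2 + n3 - b3 - 2 ∧ 0 ≤ -2 * e - p1) ∨ (0 ≤ -n2 + b2 - n3 + b3 + 1 ∧ 0 ≤ p1 + e))
    (D34 : 0 ≤ n2 - b2 - e - p1 - 2 ∨ 0 ≤ -d1 - p0 - 1)
    (D35 : 0 ≤ -b1 ∨ 0 ≤ -h - d1 ∨ 0 ≤ -n2 + b2 - e + 1 ∨ 0 ≤ -n2 + b2 - n3 + b3 - m + 2)
    (D36 : 0 ≤ -b1 ∨ 0 ≤ -d1 + 1 ∨ 0 ≤ -n2 + b2 - g - e ∨ 0 ≤ -n2 + b2 - n3 + b3 + 1) : False := by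
  have E0 := D0
  have E1 := D1
  have E2 := D2
  have E6 := D6
  have E7 := D7
  have E8 : 0 ≤ m - 1 := by
    rcases D8 with H8 | H8
    · exact H8
    · linarith only [B20, B17, H8, B36, B11, B16, B19]
  have E9 := D9
  have E13 := D13
  have E34 := D34
  have E35 : 0 ≤ -h - d1 ∨ 0 ≤ -n2 + b2 - e + 1 ∨ 0 ≤ -n2 + b2 - n3 + b3 - m + 2 := by
    rcases D35 with H35 | H35 | H35 | H35
    · linarith only [B40, H35]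
    · exact Or.inl H35
    · exact Or.inr (Or.inl H35)
    · exact Or.inr (Or.inr H35)
  have E36 : 0 ≤ -d1 + 1 ∨ 0 ≤ -n2 + b2 - g - e ∨ 0 ≤ -n2 + b2 - n3 + b3 + 1 := by
    rcases D36 with H36 | H36 | H36 | H36
    · linarith only [B40, H36]
    · exact Or.inl H36
    · exact Or.inr (Or.inl H36)
    · exact Or.inr (Or.inr H36)
  have H8 := E8
  rcases E13 with H13 | H13
  · rcases E9 with H9 | H9
    · exact g5_l1 B2 B6 B10 B16 B17 B21 B23 E0 E1 E2 E6 E7 E35 E36 H8 H9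
    · linarith only [H13.1, H9.1]
  · rcases E9 with H9 | H9
    · linarith only [H9.1, H13.1]
    · rcases E34 with H34 | H34
      · linarith only [H13.2, B11, H34, H13.1]
      · linarith only [H34, H9.2]

theorem g6 {a1 a2 a3 b1 b2 b3 d1 e g h3 hp k n1 n2 n3 p3 : ℤ}
    (B2 : 0 ≤ a3)
    (B4 : 0 ≤ b2)
    (B6 : 0 ≤ n1 - a1)
    (B7 : 0 ≤ n2 - a2)
    (B13 : 0 ≤ n2 - 1)
    (B15 : 0 ≤ e - a1 - a2 + b1 + b2)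
    (B16 : 0 ≤ a1 + a2 - b1 - b2 - e)
    (B17 : 0 ≤ e - 1)
    (B21 : 0 ≤ d1 - a1 + b1)
    (B22 : 0 ≤ a1 - b1 - d1)
    (B23 : 0 ≤ d1 - 1)
    (B38 : 0 ≤ b1 + b2 - 1)
    (B41 : 0 ≤ -e - p3 - 1)
    (D0 : (0 ≤ a1 - 1 ∧ 0 ≤ n2 - a2 - 1) ∨ (0 ≤ b1 - 1 ∧ 0 ≤ n2 - b2 - 1))
    (D1 : (0 ≤ a2 - 1 ∧ 0 ≤ n3 - a3 - 1) ∨ (0 ≤ b2 - 1 ∧ 0 ≤ n3 - b3 - 1))
    (D2 : 0 ≤ d1 - 2 ∨ 0 ≤ e - 2)
    (D3 : 0 ≤ hp - n1 + b1 ∨ 0 ≤ hp - b2 + 1)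
    (D4 : 0 ≤ h3 - n1 + a1 ∨ 0 ≤ h3 - a2 - a3 + 1)
    (D5 : 0 ≤ k - n1 + a1 - n2 + a2 ∨ 0 ≤ k - a3 + 1)
    (D6 : 0 ≤ g - n2 + a2 + 1 ∨ 0 ≤ g - a3)
    (D21 : (0 ≤ n3 - b3 - 2 ∧ 0 ≤ -2 * e - p3) ∨ (0 ≤ -n3 + b3 + 1 ∧ 0 ≤ p3 + e))
    (D35 : 0 ≤ -b1 - b2 ∨ 0 ≤ -hp - d1 ∨ 0 ≤ -g - e ∨ 0 ≤ -n3 + b3 + 1)
    (D36 : 0 ≤ -b1 ∨ 0 ≤ -h3 - d1 ∨ 0 ≤ -n2 + b2 - k - e ∨ 0 ≤ -n2 + b2 - n3 + b3 + 2) : False := by
  have E0 := D0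
  have E1 := D1
  have E2 := D2
  have E3 := D3
  have E4 := D4
  have E5 := D5
  have E6 := D6
  have E21 : (0 ≤ n3 - b3 - 2 ∧ 0 ≤ -2 * e - p3) := by
    rcases D21 with H21 | H21
    · exact H21
    · linarith only [B41, H21.2]
  have E35 : 0 ≤ -hp - d1 ∨ 0 ≤ -g - e ∨ 0 ≤ -n3 + b3 + 1 := by
    rcases D35 with H35 | H35 | H35 | H35
    · linarith only [H35, B38]
    · exact Or.inl H35
    · exact Or.inr (Or.inl H35)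
    · exact Or.inr (Or.inr H35)
  have E36 := D36
  have H21 := E21
  rcases E35 with H35 | H35 | H35
  · rcases E3 with H3 | H3
    · linarith only [B6, B22, H35, B23, H3]
    · rcases E1 with H1 | H1
      · rcases E2 with H2 | H2
        · linarith only [H35, H3, H2, B4]
        · rcases E36 with H36 | H36 | H36 | H36
          · linarith only [B38, H3, H36, B23, H35]
          · rcases E4 with H4 | H4
            · linarith only [H4, H36, B23, B6]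
            · linarith only [H1.1, H36, H4, B2, B23]
          · rcases E5 with H5 | H5
            · linarith only [B7, H3, H35, B21, B6, H36, B16, H5, H2, B13]
            · linarith only [B7, B2, H3, H35, B21, H36, B16, H5, H2, B13]
          · linarith only [H21.1, B13, H3, B21, B7, B16, H36, H2, H35]
      · linarith only [H35, H3, B23, H1.1]
  · rcases E6 with H6 | H6
    · rcases E0 with H0 | H0
      · linarith only [H35, H0.2, B17, H6]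
      · linarith only [B15, H0.2, B22, H35, B23, H6]
    · linarith only [B2, H6, B17, H35]
  · linarith only [H21.1, H35]

theorem g7_l0 {b1 b2 b3 d1 e g h h3 hp k m n2 n3 p0 p1 p2 p3 p4 p5 : ℤ}
    (B17 : 0 ≤ e - 1)
    (B23 : 0 ≤ d1 - 1)
    (E34 : 0 ≤ k - e - 1 ∨ 0 ≤ h3 - d1)
    (E39 : 0 ≤ -b1 ∨ 0 ≤ -h3 ∨ 0 ≤ -n2 + b2 - n3 + b3 + 1)
    (E45 : (0 ≤ b1 - 1 ∧ 0 ≤ n2 - b2 - e - p1 - 2) ∨ (0 ≤ b1 - 1 ∧ 0 ≤ -n2 + b2 + e + p1 + 1 ∧ 0 ≤ n2 - b2 - e - p1 - 1 ∧ 0 ≤ n2 - b2 + n3 - b3 - 1) ∨ (0 ≤ b1 - 1 ∧ 0 ≤ -n2 + b2 + e + p1 + 1 ∧ 0 ≤ n2 - b2 - e - p1 - 1 ∧ 0 ≤ -n2 + b2 - n3 + b3 ∧ 0 ≤ n2 - b2 + n3 - b3 ∧ 0 ≤ -d1 - p0 - 1) ∨ (0 ≤ b1 + b2 - 1 ∧ 0 ≤ -e - p3 - 2) ∨ (0 ≤ b1 + b2 - 1 ∧ 0 ≤ e + p3 + 1 ∧ 0 ≤ -e - p3 - 1 ∧ 0 ≤ n3 - b3 - 1) ∨ (0 ≤ b1 + b2 - 1 ∧ 0 ≤ e + p3 + 1 ∧ 0 ≤ -e - p3 - 1 ∧ 0 ≤ -n3 + b3 ∧ 0 ≤ n3 - b3 ∧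 0 ≤ hp - d1 - p2) ∨ 0 ≤ k - e - 1 ∨ 0 ≤ g - 1 ∨ 0 ≤ -p5 - 2 ∨ (0 ≤ p5 + 1 ∧ 0 ≤ -p5 - 1 ∧ 0 ≤ -m + 1 ∧ 0 ≤ m - 1 ∧ 0 ≤ h - p4))
    (H13 : 0 ≤ n2 - b2 + n3 - b3 - 2 ∧ 0 ≤ -2 * e - p1)
    (H21 : 0 ≤ -n3 + b3 + 1 ∧ 0 ≤ p3 + e)
    (H22 : 0 ≤ n3 - b3 - 1 ∧ 0 ≤ -e - p3)
    (H30 : 0 ≤ -m + 1 ∧ 0 ≤ p5)
    (H36 : 0 ≤ -g)
    (H37 : 0 ≤ e - k) : False := by
  rcases E45 with H45 | H45 | H45 | H45 | H45 | H45 | H45 | H45 | H45 | H45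
  · rcases E34 with H34 | H34
    · linarith only [H37, H34]
    · rcases E39 with H39 | H39 | H39
      · linarith only [H45.1, H39]
      · linarith only [H34, B23, H39]
      · linarith only [H13.1, H39]
  · linarith only [H13.1, H13.2, H45.2.1, B17, H21.1]
  · linarith only [H13.1, H45.2.2.2.1]
  · linarith only [H45.2, H21.2]
  · linarith only [H45.2.2.1, H21.2]
  · linarith only [H45.2.2.2.1, H22.1]
  · linarith only [H37, H45]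
  · linarith only [H45, H36]
  · linarith only [H30.2, H45]
  · linarith only [H30.2, H45.2.1]

theorem g7_l1 {a1 a2 b1 b2 b3 d1 e g h hp m n1 n3 p2 : ℤ}
    (B16 : 0 ≤ a1 + a2 - b1 - b2 - e)
    (B17 : 0 ≤ e - 1)
    (B21 : 0 ≤ d1 - a1 + b1)
    (B26 : 0 ≤ n1 - b1 - hp)
    (B27 : 0 ≤ b2 - hp - 1)
    (E7 : 0 ≤ h - n1 + a1 ∨ 0 ≤ h - a2 + 1)
    (E41 : 0 ≤ -h ∨ 0 ≤ -g ∨ 0 ≤ -m)
    (H8 : 0 ≤ m - 1)
    (H18 : 0 ≤ -n3 + b3 ∧ 0 ≤ p2)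
    (H33 : 0 ≤ hp - d1 - p2 - 1)
    (H44 : 0 ≤ g - 1) : False := by
  rcases E41 with H41 | H41 | H41
  · rcases E7 with H7 | H7
    · linarith only [B21, H41, B26, H18.2, H33, H7]
    · linarith only [B27, B17, B21, H7, H41, H18.2, H33, B16]
  · linarith only [H44, H41]
  · linarith only [H41, H8]

theorem g7 {a1 a2 a3 b1 b2 b3 d1 e g h h3 hp k m n1 n2 n3 p0 p1 p2 p3 p4 p5 y : ℤ}
    (B1 : 0 ≤ a2)
    (B6 : 0 ≤ n1 - a1)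
    (B10 : 0 ≤ n2 - b2)
    (B11 : 0 ≤ n3 - b3)
    (B12 : 0 ≤ n1 - 1)
    (B13 : 0 ≤ n2 - 1)
    (B15 : 0 ≤ e - a1 - a2 + b1 + b2)
    (B16 : 0 ≤ a1 + a2 - b1 - b2 - e)
    (B17 : 0 ≤ e - 1)
    (B18 : 0 ≤ y + a1 + a2 + a3 - b1 - b2 - b3)
    (B19 : 0 ≤ -a1 - a2 - a3 + b1 + b2 + b3 - y)
    (B20 : 0 ≤ y - 1)
    (B21 : 0 ≤ d1 - a1 + b1)
    (B22 : 0 ≤ a1 - b1 - d1)
    (B23 : 0 ≤ d1 - 1)
    (B25 : 0 ≤ -y + 1)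
    (B26 : 0 ≤ n1 - b1 - hp)
    (B27 : 0 ≤ b2 - hp - 1)
    (B28 : 0 ≤ n1 - a1 - h3)
    (B30 : 0 ≤ n1 - a1 + n2 - a2 - k)
    (B31 : 0 ≤ a3 - k - 1)
    (B35 : 0 ≤ a2 - h - 1)
    (B36 : 0 ≤ -m + 1)
    (B38 : 0 ≤ b1 + b2 - 1)
    (B40 : 0 ≤ k - e)
    (D3 : 0 ≤ hp - n1 + b1 ∨ 0 ≤ hp - b2 + 1)
    (D4 : 0 ≤ h3 - n1 + a1 ∨ 0 ≤ h3 - a2 - a3 + 1)
    (D6 : 0 ≤ g - n2 + a2 + 1 ∨ 0 ≤ g - a3)
    (D7 : 0 ≤ h - n1 + a1 ∨ 0 ≤ h - a2 + 1)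
    (D8 : 0 ≤ m - 1 ∨ 0 ≤ m - n3 + a3)
    (D9 : (0 ≤ n2 - b2 + n3 - b3 - 2 ∧ 0 ≤ -2 * d1 - p0) ∨ (0 ≤ -n2 + b2 - n3 + b3 + 1 ∧ 0 ≤ p0 + d1))
    (D13 : (0 ≤ n2 - b2 + n3 - b3 - 2 ∧ 0 ≤ -2 * e - p1) ∨ (0 ≤ -n2 + b2 - n3 + b3 + 1 ∧ 0 ≤ p1 + e))
    (D14 : (0 ≤ n2 - b2 + n3 - b3 - 1 ∧ 0 ≤ -e - p1) ∨ (0 ≤ -n2 + b2 - n3 + b3 ∧ 0 ≤ p1))
    (D17 : (0 ≤ n3 - b3 - 2 ∧ 0 ≤ -2 * d1 - p2) ∨ (0 ≤ -n3 + b3 + 1 ∧ 0 ≤ p2 + d1))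
    (D18 : (0 ≤ n3 - b3 - 1 ∧ 0 ≤ -d1 - p2) ∨ (0 ≤ -n3 + b3 ∧ 0 ≤ p2))
    (D21 : (0 ≤ n3 - b3 - 2 ∧ 0 ≤ -2 * e - p3) ∨ (0 ≤ -n3 + b3 + 1 ∧ 0 ≤ p3 + e))
    (D22 : (0 ≤ n3 - b3 - 1 ∧ 0 ≤ -e - p3) ∨ (0 ≤ -n3 + b3 ∧ 0 ≤ p3))
    (D30 : (0 ≤ m - 2 ∧ 0 ≤ -e - p5) ∨ (0 ≤ -m + 1 ∧ 0 ≤ p5))
    (D33 : 0 ≤ hp - d1 - p2 - 1 ∨ 0 ≤ -e - p3 - 1)
    (D34 : 0 ≤ k - e - 1 ∨ 0 ≤ h3 - d1)
    (D35 : 0 ≤ -b1 - b2 ∨ 0 ≤ -hp - h3 - 1 ∨ 0 ≤ -k ∨ 0 ≤ -n3 + b3 + 1)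
    (D36 : 0 ≤ -b1 - b2 ∨ 0 ≤ -hp ∨ 0 ≤ -g ∨ 0 ≤ -n3 + b3)
    (D37 : 0 ≤ -b1 - b2 ∨ 0 ≤ -hp + d1 - h3 - 1 ∨ 0 ≤ e - k ∨ 0 ≤ -n3 + b3)
    (D38 : 0 ≤ -b1 ∨ 0 ≤ -h3 - d1 ∨ 0 ≤ -n2 + b2 - k - e ∨ 0 ≤ -n2 + b2 - n3 + b3 + 2)
    (D39 : 0 ≤ -b1 ∨ 0 ≤ -h3 ∨ 0 ≤ -n2 + b2 - k ∨ 0 ≤ -n2 + b2 - n3 + b3 + 1)
    (D40 : 0 ≤ -b1 - b2 ∨ 0 ≤ -hp + d1 ∨ 0 ≤ e - g ∨ 0 ≤ -n3 + b3 - 1)
    (D41 : 0 ≤ -h ∨ 0 ≤ -g ∨ 0 ≤ -m)
    (D42 : 0 ≤ -b1 ∨ 0 ≤ d1 - h3 ∨ 0 ≤ -n2 + b2 + e - k ∨ 0 ≤ -n2 + b2 - n3 + b3)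
    (D43 : ((0 ≤ b1 - 1 ∧ 0 ≤ n2 - b2 - e - p1 - 2) ∨ (0 ≤ b1 - 1 ∧ 0 ≤ -n2 + b2 + e + p1 + 1 ∧ 0 ≤ n2 - b2 - e - p1 - 1 ∧ 0 ≤ -d1 - p0 - 2) ∨ (0 ≤ b1 - 1 ∧ 0 ≤ -n2 + b2 + e + p1 + 1 ∧ 0 ≤ n2 - b2 - e - p1 - 1 ∧ 0 ≤ d1 + p0 + 1 ∧ 0 ≤ -d1 - p0 - 1 ∧ 0 ≤ n2 - b2 + n3 - b3)) ∨ ((0 ≤ b1 + b2 - 1 ∧ 0 ≤ -e - p3 - 2) ∨ (0 ≤ b1 + b2 - 1 ∧ 0 ≤ e + p3 + 1 ∧ 0 ≤ -e - p3 - 1 ∧ 0 ≤ hp - d1 - p2 - 1) ∨ (0 ≤ b1 + b2 - 1 ∧ 0 ≤ e + p3 + 1 ∧ 0 ≤ -e - p3 - 1 ∧ 0 ≤ -hp + d1 + p2 ∧ 0 ≤ hp - d1 - p2 ∧ 0 ≤ n3 - b3)) ∨ (0 ≤ k - e - 1 ∨ (0 ≤ -k + e ∧ 0 ≤ k - e ∧ 0 ≤ h3 - d1 - 1)) ∨ (0 ≤ g - 1) ∨ (0 ≤ -p5 - 2 ∨ (0 ≤ p5 + 1 ∧ 0 ≤ -p5 - 1 ∧ 0 ≤ h - p4 - 1) ∨ (0 ≤ p5 + 1 ∧ 0 ≤ -p5 - 1 ∧ 0 ≤ -h + p4 ∧ 0 ≤ h - p4 ∧ 0 ≤ m - 1)))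
    (D44 : ((0 ≤ b1 - 1 ∧ 0 ≤ n2 - b2 + n3 - b3 - 1) ∨ (0 ≤ b1 - 1 ∧ 0 ≤ -n2 + b2 - n3 + b3 ∧ 0 ≤ n2 - b2 + n3 - b3 ∧ 0 ≤ n2 - b2 - e - p1 - 2) ∨ (0 ≤ b1 - 1 ∧ 0 ≤ -n2 + b2 - n3 + b3 ∧ 0 ≤ n2 - b2 + n3 - b3 ∧ 0 ≤ -n2 + b2 + e + p1 + 1 ∧ 0 ≤ n2 - b2 - e - p1 - 1 ∧ 0 ≤ -d1 - p0 - 1)) ∨ ((0 ≤ b1 + b2 - 1 ∧ 0 ≤ n3 - b3 - 1) ∨ (0 ≤ b1 + b2 - 1 ∧ 0 ≤ -n3 + b3 ∧ 0 ≤ n3 - b3 ∧ 0 ≤ -e - p3 - 2) ∨ (0 ≤ b1 + b2 - 1 ∧ 0 ≤ -n3 + b3 ∧ 0 ≤ n3 - b3 ∧ 0 ≤ e + p3 + 1 ∧ 0 ≤ -e - p3 - 1 ∧ 0 ≤ hp - d1 - p2)) ∨ (0 ≤ g - 1) ∨ (0 ≤ m - 2 ∨ (0 ≤ -m + 1 ∧ 0 ≤ m - 1 ∧ 0 ≤ -p5 - 2) ∨ (0 ≤ -m + 1 ∧ 0 ≤ m - 1 ∧ 0 ≤ p5 + 1 ∧ 0 ≤ -p5 - 1 ∧ 0 ≤ h - p4)))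
    (D45 : ((0 ≤ b1 - 1 ∧ 0 ≤ n2 - b2 - e - p1 - 2) ∨ (0 ≤ b1 - 1 ∧ 0 ≤ -n2 + b2 + e + p1 + 1 ∧ 0 ≤ n2 - b2 - e - p1 - 1 ∧ 0 ≤ n2 - b2 + n3 - b3 - 1) ∨ (0 ≤ b1 - 1 ∧ 0 ≤ -n2 + b2 + e + p1 + 1 ∧ 0 ≤ n2 - b2 - e - p1 - 1 ∧ 0 ≤ -n2 + b2 - n3 + b3 ∧ 0 ≤ n2 - b2 + n3 - b3 ∧ 0 ≤ -d1 - p0 - 1)) ∨ ((0 ≤ b1 + b2 - 1 ∧ 0 ≤ -e - p3 - 2) ∨ (0 ≤ b1 + b2 - 1 ∧ 0 ≤ e + p3 + 1 ∧ 0 ≤ -e - p3 - 1 ∧ 0 ≤ n3 - b3 - 1) ∨ (0 ≤ b1 + b2 - 1 ∧ 0 ≤ e + p3 + 1 ∧ 0 ≤ -e - p3 - 1 ∧ 0 ≤ -n3 + b3 ∧ 0 ≤ n3 - b3 ∧ 0 ≤ hp - d1 - p2)) ∨ (0 ≤ k - e - 1) ∨ (0 ≤ g - 1) ∨ (0 ≤ -p5 - 2 ∨ (0 ≤ p5 + 1 ∧ 0 ≤ -p5 - 1 ∧ 0 ≤ m - 2) ∨ (0 ≤ p5 + 1 ∧ 0 ≤ -p5 - 1 ∧ 0 ≤ -m + 1 ∧ 0 ≤ m - 1 ∧ 0 ≤ h - p4)))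
    (D46 : 0 ≤ -n1 - b1 + 2 * a1 - 1 ∨ 0 ≤ n1 + b1 - 2 * a1 - 1 ∨ 0 ≤ n2 - a2 - 2 ∨ 0 ≤ -n2 + a2 ∨ 0 ≤ n3 - a3 - n1 + a1 - 2 ∨ 0 ≤ -n3 + a3 + n1 - a1 ∨ 0 ≤ n2 - b2 - 2 ∨ 0 ≤ -n2 + b2 ∨ 0 ≤ n3 - b3 - 1 ∨ 0 ≤ -b1 ∨ 0 ≤ -n2 + 2 ∨ 0 ≤ 2 * n1 - 2 * a1 - n3 + 2 ∨ 0 ≤ -n1 + a1) : False := by
  have E3 := D3
  have E4 := D4
  have E6 := D6
  have E7 := D7
  have E8 : 0 ≤ m - 1 := by
    rcases D8 with H8 | H8
    · exact H8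
    · linarith only [B20, B17, H8, B36, B11, B16, B19]
  have E9 := D9
  have E13 := D13
  have E14 := D14
  have E17 := D17
  have E18 := D18
  have E21 := D21
  have E22 := D22
  have E30 : (0 ≤ -m + 1 ∧ 0 ≤ p5) := by
    rcases D30 with H30 | H30
    · linarith only [B36, H30.1]
    · exact H30
  have E33 := D33
  have E34 := D34
  have E35 : 0 ≤ -hp - h3 - 1 ∨ 0 ≤ -n3 + b3 + 1 := by
    rcases D35 with H35 | H35 | H35 | H35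
    · linarith only [H35, B38]
    · exact Or.inl H35
    · linarith only [B17, B40, H35]
    · exact Or.inr H35
  have E36 : 0 ≤ -hp ∨ 0 ≤ -g ∨ 0 ≤ -n3 + b3 := by
    rcases D36 with H36 | H36 | H36 | H36
    · linarith only [H36, B38]
    · exact Or.inl H36
    · exact Or.inr (Or.inl H36)
    · exact Or.inr (Or.inr H36)
  have E37 : 0 ≤ -hp + d1 - h3 - 1 ∨ 0 ≤ e - k ∨ 0 ≤ -n3 + b3 := by
    rcases D37 with H37 | H37 | H37 | H37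
    · linarith only [H37, B38]
    · exact Or.inl H37
    · exact Or.inr (Or.inl H37)
    · exact Or.inr (Or.inr H37)
  have E38 : 0 ≤ -b1 ∨ 0 ≤ -h3 - d1 ∨ 0 ≤ -n2 + b2 - n3 + b3 + 2 := by
    rcases D38 with H38 | H38 | H38 | H38
    · exact Or.inl H38
    · exact Or.inr (Or.inl H38)
    · linarith only [B40, B17, H38, B10]
    · exact Or.inr (Or.inr H38)
  have E39 : 0 ≤ -b1 ∨ 0 ≤ -h3 ∨ 0 ≤ -n2 + b2 - n3 + b3 + 1 := by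
    rcases D39 with H39 | H39 | H39 | H39
    · exact Or.inl H39
    · exact Or.inr (Or.inl H39)
    · linarith only [B17, B40, H39, B10]
    · exact Or.inr (Or.inr H39)
  have E40 : 0 ≤ -hp + d1 ∨ 0 ≤ e - g := by
    rcases D40 with H40 | H40 | H40 | H40
    · linarith only [H40, B38]
    · exact Or.inl H40
    · exact Or.inr H40
    · linarith only [B11, H40]
  have E41 := D41
  have E42 := D42
  have E43 : (0 ≤ b1 - 1 ∧ 0 ≤ n2 - b2 - e - p1 - 2) ∨ (0 ≤ b1 - 1 ∧ 0 ≤ -n2 + b2 + e + p1 + 1 ∧ 0 ≤ n2 - b2 - e - p1 - 1 ∧ 0 ≤ -d1 - p0 - 2) ∨ (0 ≤ b1 - 1 ∧ 0 ≤ -n2 + b2 + e + p1 + 1 ∧ 0 ≤ n2 - b2 - e - p1 - 1 ∧ 0 ≤ d1 + p0 + 1 ∧ 0 ≤ -d1 - p0 - 1 ∧ 0 ≤ n2 - b2 + n3 - b3) ∨ (0 ≤ b1 + b2 - 1 ∧ 0 ≤ -e - p3 - 2) ∨ (0 ≤ b1 + b2 - 1 ∧ 0 ≤ e + p3 + 1 ∧ 0 ≤ -e - p3 - 1 ∧ 0 ≤ hp - d1 - p2 - 1) ∨ (0 ≤ b1 + b2 - 1 ∧ 0 ≤ e + p3 +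 1 ∧ 0 ≤ -e - p3 - 1 ∧ 0 ≤ -hp + d1 + p2 ∧ 0 ≤ hp - d1 - p2 ∧ 0 ≤ n3 - b3) ∨ 0 ≤ k - e - 1 ∨ (0 ≤ -k + e ∧ 0 ≤ k - e ∧ 0 ≤ h3 - d1 - 1) ∨ 0 ≤ g - 1 ∨ 0 ≤ -p5 - 2 ∨ (0 ≤ p5 + 1 ∧ 0 ≤ -p5 - 1 ∧ 0 ≤ h - p4 - 1) ∨ (0 ≤ p5 + 1 ∧ 0 ≤ -p5 - 1 ∧ 0 ≤ -h + p4 ∧ 0 ≤ h - p4 ∧ 0 ≤ m - 1) := by
    rcases D43 with (H43 | H43 | H43) | (H43 | H43 | H43) | (H43 | H43) | H43 | (H43 | H43 | H43)
    · exact Or.inl H43
    · exact Or.inr (Or.inl H43)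
    · exact Or.inr (Or.inr (Or.inl H43))
    · exact Or.inr (Or.inr (Or.inr (Or.inl H43)))
    · exact Or.inr (Or.inr (Or.inr (Or.inr (Or.inl H43))))
    · exact Or.inr (Or.inr (Or.inr (Or.inr (Or.inr (Or.inl H43)))))
    · exact Or.inr (Or.inr (Or.inr (Or.inr (Or.inr (Or.inr (Or.inl H43))))))
    · exact Or.inr (Or.inr (Or.inr (Or.inr (Or.inr (Or.inr (Or.inr (Or.inl H43)))))))
    · exact Or.inr (Or.inr (Or.inr (Or.inr (Or.inr (Or.inr (Or.inr (Or.inr (Or.inl H43))))))))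
    · exact Or.inr (Or.inr (Or.inr (Or.inr (Or.inr (Or.inr (Or.inr (Or.inr (Or.inr (Or.inl H43)))))))))
    · exact Or.inr (Or.inr (Or.inr (Or.inr (Or.inr (Or.inr (Or.inr (Or.inr (Or.inr (Or.inr (Or.inl H43))))))))))
    · exact Or.inr (Or.inr (Or.inr (Or.inr (Or.inr (Or.inr (Or.inr (Or.inr (Or.inr (Or.inr (Or.inr H43))))))))))
  have E44 : (0 ≤ b1 - 1 ∧ 0 ≤ n2 - b2 + n3 - b3 - 1) ∨ (0 ≤ b1 - 1 ∧ 0 ≤ -n2 + b2 - n3 + b3 ∧ 0 ≤ n2 - b2 + n3 - b3 ∧ 0 ≤ n2 - b2 - e - p1 - 2) ∨ (0 ≤ b1 - 1 ∧ 0 ≤ -n2 + b2 - n3 + b3 ∧ 0 ≤ n2 - b2 + n3 - b3 ∧ 0 ≤ -n2 + b2 + e + p1 + 1 ∧ 0 ≤ n2 - b2 - e - p1 - 1 ∧ 0 ≤ -d1 - p0 - 1) ∨ (0 ≤ b1 + b2 - 1 ∧ 0 ≤ n3 - b3 - 1) ∨ (0 ≤ b1 + b2 - 1 ∧ 0 ≤ -n3 + b3 ∧ 0 ≤ n3 - b3 ∧ 0 ≤ -e - p3 - 2) ∨ (0 ≤ b1 + b2 - 1 ∧ 0 ≤ -n3 + b3 ∧ 0 ≤ n3 - b3 ∧ 0 ≤ e + p3 + 1 ∧ 0 ≤ -e - p3 - 1 ∧ 0 ≤ hp - d1 - p2) ∨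 0 ≤ g - 1 ∨ (0 ≤ -m + 1 ∧ 0 ≤ m - 1 ∧ 0 ≤ -p5 - 2) ∨ (0 ≤ -m + 1 ∧ 0 ≤ m - 1 ∧ 0 ≤ p5 + 1 ∧ 0 ≤ -p5 - 1 ∧ 0 ≤ h - p4) := by
    rcases D44 with (H44 | H44 | H44) | (H44 | H44 | H44) | H44 | (H44 | H44 | H44)
    · exact Or.inl H44
    · exact Or.inr (Or.inl H44)
    · exact Or.inr (Or.inr (Or.inl H44))
    · exact Or.inr (Or.inr (Or.inr (Or.inl H44)))
    · exact Or.inr (Or.inr (Or.inr (Or.inr (Or.inl H44))))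
    · exact Or.inr (Or.inr (Or.inr (Or.inr (Or.inr (Or.inl H44)))))
    · exact Or.inr (Or.inr (Or.inr (Or.inr (Or.inr (Or.inr (Or.inl H44))))))
    · linarith only [B36, H44]
    · exact Or.inr (Or.inr (Or.inr (Or.inr (Or.inr (Or.inr (Or.inr (Or.inl H44)))))))
    · exact Or.inr (Or.inr (Or.inr (Or.inr (Or.inr (Or.inr (Or.inr (Or.inr H44)))))))
  have E45 : (0 ≤ b1 - 1 ∧ 0 ≤ n2 - b2 - e - p1 - 2) ∨ (0 ≤ b1 - 1 ∧ 0 ≤ -n2 + b2 + e + p1 + 1 ∧ 0 ≤ n2 - b2 - e - p1 - 1 ∧ 0 ≤ n2 - b2 + n3 - b3 - 1) ∨ (0 ≤ b1 - 1 ∧ 0 ≤ -n2 + b2 + e + p1 + 1 ∧ 0 ≤ n2 - b2 - e - p1 - 1 ∧ 0 ≤ -n2 + b2 - n3 + b3 ∧ 0 ≤ n2 - b2 + n3 - b3 ∧ 0 ≤ -d1 - p0 - 1) ∨ (0 ≤ b1 + b2 - 1 ∧ 0 ≤ -e - p3 - 2) ∨ (0 ≤ b1 + b2 - 1 ∧ 0 ≤ e + p3 + 1 ∧ 0 ≤ -e - p3 - 1 ∧ 0 ≤ n3 - b3 - 1) ∨ (0 ≤ b1 + b2 - 1 ∧ 0 ≤ e + p3 + 1 ∧ 0 ≤ -e - p3 - 1 ∧ 0 ≤ -n3 + b3 ∧ 0 ≤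 n3 - b3 ∧ 0 ≤ hp - d1 - p2) ∨ 0 ≤ k - e - 1 ∨ 0 ≤ g - 1 ∨ 0 ≤ -p5 - 2 ∨ (0 ≤ p5 + 1 ∧ 0 ≤ -p5 - 1 ∧ 0 ≤ -m + 1 ∧ 0 ≤ m - 1 ∧ 0 ≤ h - p4) := by
    rcases D45 with (H45 | H45 | H45) | (H45 | H45 | H45) | H45 | H45 | (H45 | H45 | H45)
    · exact Or.inl H45
    · exact Or.inr (Or.inl H45)
    · exact Or.inr (Or.inr (Or.inl H45))
    · exact Or.inr (Or.inr (Or.inr (Or.inl H45)))
    · exact Or.inr (Or.inr (Or.inr (Or.inr (Or.inl H45))))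
    · exact Or.inr (Or.inr (Or.inr (Or.inr (Or.inr (Or.inl H45)))))
    · exact Or.inr (Or.inr (Or.inr (Or.inr (Or.inr (Or.inr (Or.inl H45))))))
    · exact Or.inr (Or.inr (Or.inr (Or.inr (Or.inr (Or.inr (Or.inr (Or.inl H45)))))))
    · exact Or.inr (Or.inr (Or.inr (Or.inr (Or.inr (Or.inr (Or.inr (Or.inr (Or.inl H45))))))))
    · linarith only [B36, H45.2.2]
    · exact Or.inr (Or.inr (Or.inr (Or.inr (Or.inr (Or.inr (Or.inr (Or.inr (Or.inr H45))))))))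
  have E46 := D46
  have H30 := E30
  have H8 := E8
  rcases E22 with H22 | H22
  · rcases E21 with H21 | H21
    · rcases E35 with H35 | H35
      · rcases E9 with H9 | H9
        · rcases E39 with H39 | H39 | H39
          · rcases E4 with H4 | H4
            · rcases E3 with H3 | H3
              · linarith only [B12, H3, H39, H35, H4, B6]
              · linarith only [H39, H4, H3, H35, B38, B6]
            · rcases E3 with H3 | H3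
              · linarith only [B12, H3, H39, B31, B6, B40, H4, H35, B27, B16, B17]
              · linarith only [H39, B31, B40, H3, B38, H4, H35, B17, B1]
          · rcases E4 with H4 | H4
            · rcases E3 with H3 | H3
              · linarith only [B22, H3, B6, H35, B23, H4]
              · rcases E38 with H38 | H38 | H38
                · linarith only [H38, H4, H3, H35, B38, B6]
                · linarith only [H38, B6, B23, H4]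
                · linarith only [H21.1, H38, B6, H3, H35, H4, B13]
            · linarith only [B31, H4, B40, H39, B17, B1]
          · linarith only [H39, H9.1]
        · linarith only [H21.1, H9.1, B10]
      · linarith only [H21.1, H35]
    · rcases E33 with H33 | H33
      · rcases E17 with H17 | H17
        · linarith only [H17.1, H21.1]
        · rcases E36 with H36 | H36 | H36
          · linarith only [H36, H33, H17.2]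
          · rcases E6 with H6 | H6
            · rcases E13 with H13 | H13
              · rcases E4 with H4 | H4
                · rcases E37 with H37 | H37 | H37
                  · linarith only [H13.1, H36, B22, H17.2, B15, B30, H37, B40, H6, H4, H33, H21.1]
                  · exact g7_l0 B17 B23 E34 E39 E45 H13 H21 H22 H30 H36 H37
                  · linarith only [H22.1, H37]
                · rcases E37 with H37 | H37 | H37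
                  · linarith only [H13.1, B31, H21.1, B22, B40, H36, B27, H37, H17.2, H4, B15, H33, H6]
                  · exact g7_l0 B17 B23 E34 E39 E45 H13 H21 H22 H30 H36 H37
                  · linarith only [H37, H22.1]
              · rcases E45 with H45 | H45 | H45 | H45 | H45 | H45 | H45 | H45 | H45 | H45
                · linarith only [H45.2, H13.1, H22.1, H13.2]
                · linarith only [H45.2.2.1, H22.1, H13.1, H13.2]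
                · linarith only [H45.2.2.1, H45.2.2.2.1, H22.1, H13.2]
                · linarith only [H45.2, H21.2]
                · linarith only [H45.2.2.1, H21.2]
                · linarith only [H45.2.2.1, H21.2]
                · rcases E37 with H37 | H37 | H37
                  · rcases E4 with H4 | H4
                    · linarith only [B15, B22, H17.2, H36, B30, H37, H45, H6, H33, H4, B10]
                    · linarith only [B31, B15, B22, H4, H17.2, H36, H37, H45, H6, H33, B27, B10]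
                  · linarith only [H45, H37]
                  · linarith only [H22.1, H37]
                · linarith only [H45, H36]
                · linarith only [H30.2, H45]
                · linarith only [H30.2, H45.2.1]
            · linarith only [B31, B17, H6, B40, H36]
          · linarith only [H22.1, H36]
      · linarith only [H33, H21.2]
  · rcases E33 with H33 | H33
    · rcases E18 with H18 | H18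
      · linarith only [H18.1, H22.1]
      · rcases E40 with H40 | H40
        · linarith only [H18.2, H33, H40]
        · rcases E6 with H6 | H6
          · rcases E14 with H14 | H14
            · rcases E4 with H4 | H4
              · rcases E39 with H39 | H39 | H39
                · rcases E44 with H44 | H44 | H44 | H44 | H44 | H44 | H44 | H44 | H44
                  · linarith only [H44.1, H39]
                  · linarith only [H44.2.1, H14.1]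
                  · linarith only [H44.2.1, H14.1]
                  · linarith only [H44.2, H22.1]
                  · linarith only [H44.2.2.2, B17, H22.2]
                  · linarith only [B17, H44.2.2.2.2.1, H22.2]
                  · exact g7_l1 B16 B17 B21 B26 B27 E7 E41 H8 H18 H33 H44
                  · linarith only [H30.2, H44.2.2]
                  · linarith only [H30.2, H44.2.2.2.1]
                · linarith only [B21, H39, B26, H18.2, H33, H4]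
                · rcases E9 with H9 | H9
                  · linarith only [H9.1, H39]
                  · rcases E13 with H13 | H13
                    · linarith only [H13.1, H39]
                    · rcases E41 with H41 | H41 | H41
                      · rcases E7 with H7 | H7
                        · linarith only [B21, H41, B26, H18.2, H33, H7]
                        · linarith only [B27, B17, B21, H7, H41, H18.2, H33, B16]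
                      · rcases E44 with H44 | H44 | H44 | H44 | H44 | H44 | H44 | H44 | H44
                        · rcases E42 with H42 | H42 | H42 | H42
                          · linarith only [H44.1, H42]
                          · rcases E43 with H43 | H43 | H43 | H43 | H43 | H43 | H43 | H43 | H43 | H43 | H43 | H43
                            · linarith only [H43.2, H39, B11, H13.2]
                            · linarith only [H43.2.2.2, H9.2]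
                            · linarith only [H43.2.2.2.2.1, H9.2]
                            · linarith only [H43.2, B17, H22.2]
                            · linarith only [B17, H43.2.2.1, H22.2]
                            · linarith only [B17, H43.2.2.1, H22.2]
                            · rcases E46 with H46 | H46 | H46 | H46 | H46 | H46 | H46 | H46 | H46 | H46 | H46 | H46 | H46
                              · linarith only [H46, H14.1, H43, H41, B30, B15, H22.1, H6]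
                              · linarith only [H46, H42, B22, H4]
                              · linarith only [H41, H46, H6]
                              · linarith only [H14.1, B15, H42, H22.1, B30, H43, H46, H4, B22]
                              · linarith only [B25, H22.1, B15, H41, B30, H43, H46, B18, H6]
                              · linarith only [H14.1, B20, B19, H41, H42, B22, H4, H46, H6]
                              · linarith only [H46, B11, H39]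
                              · linarith only [H14.1, H46, H22.1]
                              · linarith only [H46, H22.1]
                              · linarith only [H44.1, H46]
                              · linarith only [H14.1, B27, H46, B23, H18.2, H33, H22.1]
                              · linarith only [H46, H22.1, H43, B19, H41, B15, H42, B22, H14.1, B31, H4, B20, H6]
                              · linarith only [H46, B21, B26, H33, H18.2]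
                            · linarith only [H43.2.2, H42]
                            · linarith only [H43, H41]
                            · linarith only [H30.2, H43]
                            · linarith only [H30.2, H43.2.1]
                            · linarith only [H30.2, H43.2.1]
                          · linarith only [H14.1, H22.1, H42, B40]
                          · linarith only [H14.1, H42]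
                        · linarith only [H44.2.2.2, H44.2.1, B11, H13.2]
                        · linarith only [H44.2.1, H14.1]
                        · linarith only [H44.2, H22.1]
                        · linarith only [H44.2.2.2, B17, H22.2]
                        · linarith only [B17, H44.2.2.2.2.1, H22.2]
                        · linarith only [H44, H41]
                        · linarith only [H30.2, H44.2.2]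
                        · linarith only [H30.2, H44.2.2.2.1]
                      · linarith only [H41, H8]
              · rcases E7 with H7 | H7
                · linarith only [B31, B17, B35, B28, B40, H4, H7]
                · rcases E42 with H42 | H42 | H42 | H42
                  · rcases E41 with H41 | H41 | H41
                    · linarith only [H18.2, B17, B21, B27, H41, B16, H33, H7]
                    · rcases E44 with H44 | H44 | H44 | H44 | H44 | H44 | H44 | H44 | H44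
                      · linarith only [H44.1, H42]
                      · linarith only [H44.2.1, H14.1]
                      · linarith only [H44.2.1, H14.1]
                      · linarith only [H44.2, H22.1]
                      · linarith only [H44.2.2.2, B17, H22.2]
                      · linarith only [B17, H44.2.2.2.2.1, H22.2]
                      · linarith only [H44, H41]
                      · linarith only [H30.2, H44.2.2]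
                      · linarith only [H30.2, H44.2.2.2.1]
                    · linarith only [H41, H8]
                  · linarith only [H14.1, B31, H18.2, B27, H40, H22.1, B40, H4, H33, H42, H6]
                  · linarith only [H14.1, B40, H42, H22.1]
                  · linarith only [H14.1, H42]
            · rcases E44 with H44 | H44 | H44 | H44 | H44 | H44 | H44 | H44 | H44
              · linarith only [H44.2, H14.1]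
              · linarith only [B17, H44.2.2.2, H14.1, B11, H14.2]
              · linarith only [B17, H44.2.2.2.2.1, H14.1, B11, H14.2]
              · linarith only [H44.2, H22.1]
              · linarith only [H44.2.2.2, B17, H22.2]
              · linarith only [B17, H44.2.2.2.2.1, H22.2]
              · exact g7_l1 B16 B17 B21 B26 B27 E7 E41 H8 H18 H33 H44
              · linarith only [H30.2, H44.2.2]
              · linarith only [H30.2, H44.2.2.2.1]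
          · linarith only [B31, H6, B40, H40]
    · linarith only [B17, H33, H22.2]

theorem g8 {a1 a2 a3 b1 b2 b3 d1 e g h h3 hp k m n1 n2 n3 p2 p3 y : ℤ}
    (B4 : 0 ≤ b2)
    (B6 : 0 ≤ n1 - a1)
    (B11 : 0 ≤ n3 - b3)
    (B16 : 0 ≤ a1 + a2 - b1 - b2 - e)
    (B17 : 0 ≤ e - 1)
    (B19 : 0 ≤ -a1 - a2 - a3 + b1 + b2 + b3 - y)
    (B20 : 0 ≤ y - 1)
    (B21 : 0 ≤ d1 - a1 + b1)
    (B22 : 0 ≤ a1 - b1 - d1)
    (B23 : 0 ≤ d1 - 1)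
    (B26 : 0 ≤ n1 - b1 - hp)
    (B27 : 0 ≤ b2 - hp - 1)
    (B32 : 0 ≤ n2 - a2 - g - 1)
    (B33 : 0 ≤ a3 - g)
    (B36 : 0 ≤ -m + 1)
    (B38 : 0 ≤ b1 + b2 - 1)
    (B41 : 0 ≤ g - 1)
    (D1 : (0 ≤ a2 - 1 ∧ 0 ≤ n3 - a3 - 1) ∨ (0 ≤ b2 - 1 ∧ 0 ≤ n3 - b3 - 1))
    (D2 : 0 ≤ d1 - 2 ∨ 0 ≤ e - 2)
    (D3 : 0 ≤ hp - n1 + b1 ∨ 0 ≤ hp - b2 + 1)
    (D4 : 0 ≤ h3 - n1 + a1 ∨ 0 ≤ h3 - a2 - a3 + 1)
    (D5 : 0 ≤ k - n1 + a1 - n2 + a2 ∨ 0 ≤ k - a3 + 1)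
    (D7 : 0 ≤ h - n1 + a1 ∨ 0 ≤ h - a2 + 1)
    (D8 : 0 ≤ m - 1 ∨ 0 ≤ m - n3 + a3)
    (D17 : (0 ≤ n3 - b3 - 2 ∧ 0 ≤ -2 * d1 - p2) ∨ (0 ≤ -n3 + b3 + 1 ∧ 0 ≤ p2 + d1))
    (D18 : (0 ≤ n3 - b3 - 1 ∧ 0 ≤ -d1 - p2) ∨ (0 ≤ -n3 + b3 ∧ 0 ≤ p2))
    (D21 : (0 ≤ n3 - b3 - 2 ∧ 0 ≤ -2 * e - p3) ∨ (0 ≤ -n3 + b3 + 1 ∧ 0 ≤ p3 + e))
    (D22 : (0 ≤ n3 - b3 - 1 ∧ 0 ≤ -e - p3) ∨ (0 ≤ -n3 + b3 ∧ 0 ≤ p3))
    (D33 : 0 ≤ hp - d1 - p2 - 1 ∨ 0 ≤ -e - p3 - 1)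
    (D34 : 0 ≤ -b1 - b2 ∨ 0 ≤ -hp ∨ 0 ≤ -g ∨ 0 ≤ -n3 + b3)
    (D35 : 0 ≤ -b1 - b2 ∨ 0 ≤ -hp - d1 ∨ 0 ≤ -g - e ∨ 0 ≤ -n3 + b3 + 1)
    (D36 : 0 ≤ -h ∨ 0 ≤ -g ∨ 0 ≤ -m)
    (D37 : 0 ≤ -b1 ∨ 0 ≤ -h3 - d1 ∨ 0 ≤ -n2 + b2 - k - e ∨ 0 ≤ -n2 + b2 - n3 + b3 + 2) : False := by
  have E1 := D1
  have E2 := D2
  have E3 := D3
  have E4 := D4
  have E5 := D5
  have E7 := D7
  have E8 : 0 ≤ m - 1 := by
    rcases D8 with H8 | H8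
    · exact H8
    · linarith only [B20, B17, H8, B36, B11, B16, B19]
  have E17 := D17
  have E18 := D18
  have E21 := D21
  have E22 := D22
  have E33 := D33
  have E34 : 0 ≤ -hp ∨ 0 ≤ -n3 + b3 := by
    rcases D34 with H34 | H34 | H34 | H34
    · linarith only [H34, B38]
    · exact Or.inl H34
    · linarith only [B41, H34]
    · exact Or.inr H34
  have E35 : 0 ≤ -hp - d1 ∨ 0 ≤ -n3 + b3 + 1 := by
    rcases D35 with H35 | H35 | H35 | H35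
    · linarith only [H35, B38]
    · exact Or.inl H35
    · linarith only [B17, B41, H35]
    · exact Or.inr H35
  have E36 : 0 ≤ -h ∨ 0 ≤ -m := by
    rcases D36 with H36 | H36 | H36
    · exact Or.inl H36
    · linarith only [B41, H36]
    · exact Or.inr H36
  have E37 := D37
  have H8 := E8
  rcases E36 with H36 | H36
  · rcases E18 with H18 | H18
    · rcases E34 with H34 | H34
      · rcases E3 with H3 | H3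
        · linarith only [B22, B6, H3, B23, H34]
        · rcases E17 with H17 | H17
          · rcases E35 with H35 | H35
            · rcases E1 with H1 | H1
              · rcases E2 with H2 | H2
                · linarith only [H3, H2, H35, B4]
                · rcases E37 with H37 | H37 | H37 | H37
                  · linarith only [B38, H37, B23, H3, H35]
                  · rcases E4 with H4 | H4
                    · linarith only [H37, B6, B23, H4]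
                    · linarith only [H1.1, H4, B33, B41, B23, H37]
                  · rcases E5 with H5 | H5
                    · linarith only [B16, H1.1, B41, H35, B32, B21, B6, H37, H5, H3, H2]
                    · linarith only [B16, B41, B33, B32, H3, B21, H37, H5, H2, H1.1, H35]
                  · linarith only [H1.1, H37, B16, B32, B41, H17.1, B21, H2, H3, H35]
              · linarith only [H1.1, B23, H3, H35]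
            · linarith only [H17.1, H35]
          · rcases E21 with H21 | H21
            · linarith only [H21.1, H17.1]
            · rcases E33 with H33 | H33
              · linarith only [H34, H33, H17.2]
              · linarith only [H33, H21.2]
      · linarith only [H18.1, H34]
    · rcases E22 with H22 | H22
      · linarith only [H22.1, H18.1]
      · rcases E33 with H33 | H33
        · rcases E7 with H7 | H7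
          · linarith only [B21, H36, B26, H18.2, H33, H7]
          · linarith only [B27, B17, B21, H7, H36, H18.2, H33, B16]
        · linarith only [B17, H33, H22.2]
  · linarith only [H36, H8]

theorem g9 {e m p5 : ℤ}
    (B36 : 0 ≤ -m + 1)
    (B40 : 0 ≤ -p5 - 1)
    (D30 : (0 ≤ m - 2 ∧ 0 ≤ -e - p5) ∨ (0 ≤ -m + 1 ∧ 0 ≤ p5)) : False := by
  have E30 : False := by
    rcases D30 with H30 | H30
    · linarith only [B36, H30.1]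
    · linarith only [B40, H30.2]
  exact E30

theorem g10 {a1 a2 a3 b1 b2 b3 d1 e g h h3 k m n1 n2 n3 p0 p1 y : ℤ}
    (B2 : 0 ≤ a3)
    (B7 : 0 ≤ n2 - a2)
    (B10 : 0 ≤ n2 - b2)
    (B11 : 0 ≤ n3 - b3)
    (B16 : 0 ≤ a1 + a2 - b1 - b2 - e)
    (B17 : 0 ≤ e - 1)
    (B19 : 0 ≤ -a1 - a2 - a3 + b1 + b2 + b3 - y)
    (B20 : 0 ≤ y - 1)
    (B23 : 0 ≤ d1 - 1)
    (B28 : 0 ≤ n1 - a1 - h3)
    (B29 : 0 ≤ a2 + a3 - h3 - 1)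
    (B36 : 0 ≤ -m + 1)
    (B38 : 0 ≤ h3 - d1)
    (B39 : 0 ≤ b1 - 1)
    (D0 : (0 ≤ a1 - 1 ∧ 0 ≤ n2 - a2 - 1) ∨ (0 ≤ b1 - 1 ∧ 0 ≤ n2 - b2 - 1))
    (D2 : 0 ≤ d1 - 2 ∨ 0 ≤ e - 2)
    (D5 : 0 ≤ k - n1 + a1 - n2 + a2 ∨ 0 ≤ k - a3 + 1)
    (D6 : 0 ≤ g - n2 + a2 + 1 ∨ 0 ≤ g - a3)
    (D7 : 0 ≤ h - n1 + a1 ∨ 0 ≤ h - a2 + 1)
    (D8 : 0 ≤ m - 1 ∨ 0 ≤ m - n3 + a3)
    (D9 : (0 ≤ n2 - b2 + n3 - b3 - 2 ∧ 0 ≤ -2 * d1 - p0) ∨ (0 ≤ -n2 + b2 - n3 + b3 + 1 ∧ 0 ≤ p0 + d1))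
    (D13 : (0 ≤ n2 - b2 + n3 - b3 - 2 ∧ 0 ≤ -2 * e - p1) ∨ (0 ≤ -n2 + b2 - n3 + b3 + 1 ∧ 0 ≤ p1 + e))
    (D33 : 0 ≤ h3 - d1 - 1 ∨ 0 ≤ k - e)
    (D34 : 0 ≤ n2 - b2 - e - p1 - 2 ∨ 0 ≤ -d1 - p0 - 1)
    (D35 : 0 ≤ -b1 ∨ 0 ≤ -h - d1 ∨ 0 ≤ -n2 + b2 - e + 1 ∨ 0 ≤ -n2 + b2 - n3 + b3 - m + 2)
    (D36 : 0 ≤ -b1 ∨ 0 ≤ -h3 ∨ 0 ≤ -n2 + b2 - k ∨ 0 ≤ -n2 + b2 - n3 + b3 + 1)
    (D37 : 0 ≤ -b1 ∨ 0 ≤ -d1 + 1 ∨ 0 ≤ -n2 + b2 - g - e ∨ 0 ≤ -n2 + b2 - n3 + b3 + 1) : False := by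
  have E0 := D0
  have E2 := D2
  have E5 := D5
  have E6 := D6
  have E7 := D7
  have E8 : 0 ≤ m - 1 := by
    rcases D8 with H8 | H8
    · exact H8
    · linarith only [B20, B17, H8, B36, B11, B16, B19]
  have E9 := D9
  have E13 := D13
  have E33 := D33
  have E34 := D34
  have E35 : 0 ≤ -h - d1 ∨ 0 ≤ -n2 + b2 - e + 1 ∨ 0 ≤ -n2 + b2 - n3 + b3 - m + 2 := by
    rcases D35 with H35 | H35 | H35 | H35
    · linarith only [B39, H35]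
    · exact Or.inl H35
    · exact Or.inr (Or.inl H35)
    · exact Or.inr (Or.inr H35)
  have E36 : 0 ≤ -n2 + b2 - k ∨ 0 ≤ -n2 + b2 - n3 + b3 + 1 := by
    rcases D36 with H36 | H36 | H36 | H36
    · linarith only [B39, H36]
    · linarith only [B23, B38, H36]
    · exact Or.inl H36
    · exact Or.inr H36
  have E37 : 0 ≤ -d1 + 1 ∨ 0 ≤ -n2 + b2 - g - e ∨ 0 ≤ -n2 + b2 - n3 + b3 + 1 := by
    rcases D37 with H37 | H37 | H37 | H37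
    · linarith only [B39, H37]
    · exact Or.inl H37
    · exact Or.inr (Or.inl H37)
    · exact Or.inr (Or.inr H37)
  have H8 := E8
  rcases E13 with H13 | H13
  · rcases E36 with H36 | H36
    · rcases E33 with H33 | H33
      · rcases E5 with H5 | H5
        · linarith only [B28, B7, H33, H36, B10, B23, H5]
        · rcases E35 with H35 | H35 | H35
          · rcases E7 with H7 | H7
            · linarith only [H35, B28, H33, B23, H7]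
            · linarith only [H5, B10, B29, H35, H33, H36, B23, H7]
          · rcases E0 with H0 | H0
            · rcases E2 with H2 | H2
              · rcases E37 with H37 | H37 | H37
                · linarith only [H2, H37]
                · rcases E6 with H6 | H6
                  · linarith only [H0.2, H37, B10, H6, B17]
                  · linarith only [B2, H6, H37, B17, B10]
                · linarith only [H13.1, H37]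
              · linarith only [H35, H2, B10]
            · linarith only [H0.2, B17, H35]
          · linarith only [H13.1, H35, H8]
      · linarith only [H33, H36, B17, B10]
    · linarith only [H13.1, H36]
  · rcases E34 with H34 | H34
    · linarith only [H13.2, B11, H34, H13.1]
    · rcases E9 with H9 | H9
      · linarith only [H9.1, H13.1]
      · linarith only [H34, H9.2]

theorem g11 {a1 a2 a3 b1 b2 b3 d1 e g h3 hp k n1 n2 n3 p3 : ℤ}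
    (B2 : 0 ≤ a3)
    (B4 : 0 ≤ b2)
    (B7 : 0 ≤ n2 - a2)
    (B13 : 0 ≤ n2 - 1)
    (B15 : 0 ≤ e - a1 - a2 + b1 + b2)
    (B16 : 0 ≤ a1 + a2 - b1 - b2 - e)
    (B17 : 0 ≤ e - 1)
    (B21 : 0 ≤ d1 - a1 + b1)
    (B22 : 0 ≤ a1 - b1 - d1)
    (B23 : 0 ≤ d1 - 1)
    (B28 : 0 ≤ n1 - a1 - h3)
    (B29 : 0 ≤ a2 + a3 - h3 - 1)
    (B38 : 0 ≤ h3 - d1)
    (B39 : 0 ≤ b1 + b2 - 1)
    (B40 : 0 ≤ -e - p3 - 1)
    (D0 : (0 ≤ a1 - 1 ∧ 0 ≤ n2 - a2 - 1) ∨ (0 ≤ b1 - 1 ∧ 0 ≤ n2 - b2 - 1))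
    (D2 : 0 ≤ d1 - 2 ∨ 0 ≤ e - 2)
    (D3 : 0 ≤ hp - n1 + b1 ∨ 0 ≤ hp - b2 + 1)
    (D5 : 0 ≤ k - n1 + a1 - n2 + a2 ∨ 0 ≤ k - a3 + 1)
    (D6 : 0 ≤ g - n2 + a2 + 1 ∨ 0 ≤ g - a3)
    (D21 : (0 ≤ n3 - b3 - 2 ∧ 0 ≤ -2 * e - p3) ∨ (0 ≤ -n3 + b3 + 1 ∧ 0 ≤ p3 + e))
    (D35 : 0 ≤ -b1 - b2 ∨ 0 ≤ -hp - d1 ∨ 0 ≤ -g - e ∨ 0 ≤ -n3 + b3 + 1)
    (D36 : 0 ≤ -b1 ∨ 0 ≤ -h3 - d1 ∨ 0 ≤ -n2 + b2 - k - e ∨ 0 ≤ -n2 + b2 - n3 + b3 + 2) : False := by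
  have E0 := D0
  have E2 := D2
  have E3 := D3
  have E5 := D5
  have E6 := D6
  have E21 : (0 ≤ n3 - b3 - 2 ∧ 0 ≤ -2 * e - p3) := by
    rcases D21 with H21 | H21
    · exact H21
    · linarith only [B40, H21.2]
  have E35 : 0 ≤ -hp - d1 ∨ 0 ≤ -g - e ∨ 0 ≤ -n3 + b3 + 1 := by
    rcases D35 with H35 | H35 | H35 | H35
    · linarith only [H35, B39]
    · exact Or.inl H35
    · exact Or.inr (Or.inl H35)
    · exact Or.inr (Or.inr H35)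
  have E36 : 0 ≤ -b1 ∨ 0 ≤ -n2 + b2 - k - e ∨ 0 ≤ -n2 + b2 - n3 + b3 + 2 := by
    rcases D36 with H36 | H36 | H36 | H36
    · exact Or.inl H36
    · linarith only [B23, B38, H36]
    · exact Or.inr (Or.inl H36)
    · exact Or.inr (Or.inr H36)
  have H21 := E21
  rcases E35 with H35 | H35 | H35
  · rcases E3 with H3 | H3
    · linarith only [B38, B28, B22, H35, B23, H3]
    · rcases E2 with H2 | H2
      · linarith only [H35, H3, H2, B4]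
      · rcases E36 with H36 | H36 | H36
        · linarith only [B39, H36, H35, B23, H3]
        · rcases E5 with H5 | H5
          · linarith only [B7, B38, B21, B28, H36, B16, H5, H2]
          · linarith only [B29, B7, B23, H3, H35, H36, H5, H2, B38]
        · linarith only [H21.1, H3, H35, B21, B7, B16, H36, H2, B13]
  · rcases E6 with H6 | H6
    · rcases E0 with H0 | H0
      · linarith only [H35, H0.2, B17, H6]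
      · linarith only [B15, H0.2, B22, H35, B23, H6]
    · linarith only [B2, H6, B17, H35]
  · linarith only [H21.1, H35]

theorem g12 {a1 a2 a3 b1 b2 b3 d1 e g h h3 hp k m n1 n2 n3 p0 p1 p2 p3 p4 p5 y : ℤ}
    (B1 : 0 ≤ a2)
    (B3 : 0 ≤ b1)
    (B4 : 0 ≤ b2)
    (B10 : 0 ≤ n2 - b2)
    (B11 : 0 ≤ n3 - b3)
    (B12 : 0 ≤ n1 - 1)
    (B13 : 0 ≤ n2 - 1)
    (B15 : 0 ≤ e - a1 - a2 + b1 + b2)
    (B16 : 0 ≤ a1 + a2 - b1 - b2 - e)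
    (B17 : 0 ≤ e - 1)
    (B18 : 0 ≤ y + a1 + a2 + a3 - b1 - b2 - b3)
    (B19 : 0 ≤ -a1 - a2 - a3 + b1 + b2 + b3 - y)
    (B20 : 0 ≤ y - 1)
    (B21 : 0 ≤ d1 - a1 + b1)
    (B22 : 0 ≤ a1 - b1 - d1)
    (B23 : 0 ≤ d1 - 1)
    (B25 : 0 ≤ -y + 1)
    (B27 : 0 ≤ b2 - hp - 1)
    (B28 : 0 ≤ n1 - a1 - h3)
    (B29 : 0 ≤ a2 + a3 - h3 - 1)
    (B30 : 0 ≤ n1 - a1 + n2 - a2 - k)
    (B31 : 0 ≤ a3 - k - 1)
    (B32 : 0 ≤ n2 - a2 - g - 1)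
    (B35 : 0 ≤ a2 - h - 1)
    (B36 : 0 ≤ -m + 1)
    (B38 : 0 ≤ h3 - d1)
    (B39 : 0 ≤ k - e)
    (D0 : (0 ≤ a1 - 1 ∧ 0 ≤ n2 - a2 - 1) ∨ (0 ≤ b1 - 1 ∧ 0 ≤ n2 - b2 - 1))
    (D1 : (0 ≤ a2 - 1 ∧ 0 ≤ n3 - a3 - 1) ∨ (0 ≤ b2 - 1 ∧ 0 ≤ n3 - b3 - 1))
    (D3 : 0 ≤ hp - n1 + b1 ∨ 0 ≤ hp - b2 + 1)
    (D4 : 0 ≤ h3 - n1 + a1 ∨ 0 ≤ h3 - a2 - a3 + 1)
    (D5 : 0 ≤ k - n1 + a1 - n2 + a2 ∨ 0 ≤ k - a3 + 1)
    (D6 : 0 ≤ g - n2 + a2 + 1 ∨ 0 ≤ g - a3)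
    (D7 : 0 ≤ h - n1 + a1 ∨ 0 ≤ h - a2 + 1)
    (D8 : 0 ≤ m - 1 ∨ 0 ≤ m - n3 + a3)
    (D9 : (0 ≤ n2 - b2 + n3 - b3 - 2 ∧ 0 ≤ -2 * d1 - p0) ∨ (0 ≤ -n2 + b2 - n3 + b3 + 1 ∧ 0 ≤ p0 + d1))
    (D10 : (0 ≤ n2 - b2 + n3 - b3 - 1 ∧ 0 ≤ -d1 - p0) ∨ (0 ≤ -n2 + b2 - n3 + b3 ∧ 0 ≤ p0))
    (D13 : (0 ≤ n2 - b2 + n3 - b3 - 2 ∧ 0 ≤ -2 * e - p1) ∨ (0 ≤ -n2 + b2 - n3 + b3 + 1 ∧ 0 ≤ p1 + e))
    (D14 : (0 ≤ n2 - b2 + n3 - b3 - 1 ∧ 0 ≤ -e - p1) ∨ (0 ≤ -n2 + b2 - n3 + b3 ∧ 0 ≤ p1))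
    (D17 : (0 ≤ n3 - b3 - 2 ∧ 0 ≤ -2 * d1 - p2) ∨ (0 ≤ -n3 + b3 + 1 ∧ 0 ≤ p2 + d1))
    (D18 : (0 ≤ n3 - b3 - 1 ∧ 0 ≤ -d1 - p2) ∨ (0 ≤ -n3 + b3 ∧ 0 ≤ p2))
    (D21 : (0 ≤ n3 - b3 - 2 ∧ 0 ≤ -2 * e - p3) ∨ (0 ≤ -n3 + b3 + 1 ∧ 0 ≤ p3 + e))
    (D22 : (0 ≤ n3 - b3 - 1 ∧ 0 ≤ -e - p3) ∨ (0 ≤ -n3 + b3 ∧ 0 ≤ p3))
    (D26 : (0 ≤ m - 2 ∧ 0 ≤ -d1 - p4) ∨ (0 ≤ -m + 1 ∧ 0 ≤ p4))
    (D30 : (0 ≤ m - 2 ∧ 0 ≤ -e - p5) ∨ (0 ≤ -m + 1 ∧ 0 ≤ p5))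
    (D35 : 0 ≤ -b1 ∨ 0 ≤ -h3 ∨ 0 ≤ -n2 + b2 - k ∨ 0 ≤ -n2 + b2 - n3 + b3 + 1)
    (D36 : 0 ≤ -b1 - b2 ∨ 0 ≤ -hp + d1 - h3 - 1 ∨ 0 ≤ e - k ∨ 0 ≤ -n3 + b3)
    (D37 : 0 ≤ -b1 ∨ 0 ≤ d1 - h3 ∨ 0 ≤ -n2 + b2 + e - k ∨ 0 ≤ -n2 + b2 - n3 + b3)
    (D38 : 0 ≤ -h ∨ 0 ≤ -g ∨ 0 ≤ -m)
    (D39 : 0 ≤ -b1 - b2 ∨ 0 ≤ -hp - h3 - 1 ∨ 0 ≤ -k ∨ 0 ≤ -n3 + b3 + 1)
    (D40 : 0 ≤ -b1 - b2 ∨ 0 ≤ -hp ∨ 0 ≤ -g ∨ 0 ≤ -n3 + b3)
    (D41 : ((0 ≤ b1 - 1 ∧ 0 ≤ n2 - b2 + n3 - b3 - 1) ∨ (0 ≤ b1 - 1 ∧ 0 ≤ -n2 + b2 - n3 + b3 ∧ 0 ≤ n2 - b2 + n3 - b3 ∧ 0 ≤ -d1 - p0 - 2) ∨ (0 ≤ b1 - 1 ∧ 0 ≤ -n2 + b2 - n3 + b3 ∧ 0 ≤ n2 - b2 + n3 - b3 ∧ 0 ≤ d1 + p0 + 1 ∧ 0 ≤ -d1 - p0 - 1 ∧ 0 ≤ n2 - b2 - e - p1 - 1)) ∨ ((0 ≤ b1 + b2 - 1 ∧ 0 ≤ n3 - b3 - 1) ∨ (0 ≤ b1 + b2 - 1 ∧ 0 ≤ -n3 + b3 ∧ 0 ≤ n3 - b3 ∧ 0 ≤ hp - d1 - p2 - 1) ∨ (0 ≤ b1 + b2 - 1 ∧ 0 ≤ -n3 + b3 ∧ 0 ≤ n3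 - b3 ∧ 0 ≤ -hp + d1 + p2 ∧ 0 ≤ hp - d1 - p2 ∧ 0 ≤ -e - p3 - 1)) ∨ (0 ≤ m - 2 ∨ (0 ≤ -m + 1 ∧ 0 ≤ m - 1 ∧ 0 ≤ h - p4 - 1) ∨ (0 ≤ -m + 1 ∧ 0 ≤ m - 1 ∧ 0 ≤ -h + p4 ∧ 0 ≤ h - p4 ∧ 0 ≤ -p5 - 1)))
    (D42 : ((0 ≤ b1 - 1 ∧ 0 ≤ n2 - b2 - e - p1 - 2) ∨ (0 ≤ b1 - 1 ∧ 0 ≤ -n2 + b2 + e + p1 + 1 ∧ 0 ≤ n2 - b2 - e - p1 - 1 ∧ 0 ≤ n2 - b2 + n3 - b3 - 1) ∨ (0 ≤ b1 - 1 ∧ 0 ≤ -n2 + b2 + e + p1 + 1 ∧ 0 ≤ n2 - b2 - e - p1 - 1 ∧ 0 ≤ -n2 + b2 - n3 + b3 ∧ 0 ≤ n2 - b2 + n3 - b3 ∧ 0 ≤ -d1 - p0 - 1)) ∨ ((0 ≤ b1 + b2 - 1 ∧ 0 ≤ -e - p3 - 2) ∨ (0 ≤ b1 + b2 - 1 ∧ 0 ≤ e + p3 + 1 ∧ 0 ≤ -e - p3 - 1 ∧ 0 ≤ n3 - b3 - 1) ∨ (0 ≤ b1 + b2 - 1 ∧ 0 ≤ e + p3 + 1 ∧ 0 ≤ -e - p3 - 1 ∧ 0 ≤ -n3 + b3 ∧ 0 ≤ n3 - b3 ∧ 0 ≤ hp - d1 - p2)) ∨ (0 ≤ k - e - 1) ∨ (0 ≤ g - 1) ∨ (0 ≤ -p5 - 2 ∨ (0 ≤ p5 + 1 ∧ 0 ≤ -p5 - 1 ∧ 0 ≤ m - 2) ∨ (0 ≤ p5 + 1 ∧ 0 ≤ -p5 - 1 ∧ 0 ≤ -m +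 1 ∧ 0 ≤ m - 1 ∧ 0 ≤ h - p4)))
    (D43 : ((0 ≤ b1 - 1 ∧ 0 ≤ -d1 - p0 - 2) ∨ (0 ≤ b1 - 1 ∧ 0 ≤ d1 + p0 + 1 ∧ 0 ≤ -d1 - p0 - 1 ∧ 0 ≤ n2 - b2 - e - p1 - 2) ∨ (0 ≤ b1 - 1 ∧ 0 ≤ d1 + p0 + 1 ∧ 0 ≤ -d1 - p0 - 1 ∧ 0 ≤ -n2 + b2 + e + p1 + 1 ∧ 0 ≤ n2 - b2 - e - p1 - 1 ∧ 0 ≤ n2 - b2 + n3 - b3)) ∨ ((0 ≤ b1 + b2 - 1 ∧ 0 ≤ hp - d1 - p2 - 1) ∨ (0 ≤ b1 + b2 - 1 ∧ 0 ≤ -hp + d1 + p2 ∧ 0 ≤ hp - d1 - p2 ∧ 0 ≤ -e - p3 - 2) ∨ (0 ≤ b1 + b2 - 1 ∧ 0 ≤ -hp + d1 + p2 ∧ 0 ≤ hp - d1 - p2 ∧ 0 ≤ e + p3 + 1 ∧ 0 ≤ -e - p3 - 1 ∧ 0 ≤ n3 - b3)) ∨ (0 ≤ h3 - d1 - 1 ∨ (0 ≤ -h3 + d1 ∧ 0 ≤ h3 - d1 ∧ 0 ≤ k - e - 1)) ∨ (0 ≤ h - p4 - 1 ∨ (0 ≤ -h + p4 ∧ 0 ≤ h - p4 ∧ 0 ≤ -p5 - 2) ∨ (0 ≤ -h + p4 ∧ 0 ≤ h - p4 ∧ 0 ≤ p5 + 1 ∧ 0 ≤ -p5 - 1 ∧ 0 ≤ m - 1)))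
    (D44 : ((0 ≤ b1 - 1 ∧ 0 ≤ n2 - b2 + n3 - b3 - 1) ∨ (0 ≤ b1 - 1 ∧ 0 ≤ -n2 + b2 - n3 + b3 ∧ 0 ≤ n2 - b2 + n3 - b3 ∧ 0 ≤ n2 - b2 - e - p1 - 2) ∨ (0 ≤ b1 - 1 ∧ 0 ≤ -n2 + b2 - n3 + b3 ∧ 0 ≤ n2 - b2 + n3 - b3 ∧ 0 ≤ -n2 + b2 + e + p1 + 1 ∧ 0 ≤ n2 - b2 - e - p1 - 1 ∧ 0 ≤ -d1 - p0 - 1)) ∨ ((0 ≤ b1 + b2 - 1 ∧ 0 ≤ n3 - b3 - 1) ∨ (0 ≤ b1 + b2 - 1 ∧ 0 ≤ -n3 + b3 ∧ 0 ≤ n3 - b3 ∧ 0 ≤ -e - p3 - 2) ∨ (0 ≤ b1 + b2 - 1 ∧ 0 ≤ -n3 + b3 ∧ 0 ≤ n3 - b3 ∧ 0 ≤ e + p3 + 1 ∧ 0 ≤ -e - p3 - 1 ∧ 0 ≤ hp - d1 - p2)) ∨ (0 ≤ g - 1) ∨ (0 ≤ m - 2 ∨ (0 ≤ -m + 1 ∧ 0 ≤ m - 1 ∧ 0 ≤ -p5 - 2) ∨ (0 ≤ -m + 1 ∧ 0 ≤ m - 1 ∧ 0 ≤ p5 + 1 ∧ 0 ≤ -p5 - 1 ∧ 0 ≤ h - p4)))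
    (D45 : ((0 ≤ b1 - 1 ∧ 0 ≤ n2 - b2 - e - p1 - 2) ∨ (0 ≤ b1 - 1 ∧ 0 ≤ -n2 + b2 + e + p1 + 1 ∧ 0 ≤ n2 - b2 - e - p1 - 1 ∧ 0 ≤ -d1 - p0 - 2) ∨ (0 ≤ b1 - 1 ∧ 0 ≤ -n2 + b2 + e + p1 + 1 ∧ 0 ≤ n2 - b2 - e - p1 - 1 ∧ 0 ≤ d1 + p0 + 1 ∧ 0 ≤ -d1 - p0 - 1 ∧ 0 ≤ n2 - b2 + n3 - b3)) ∨ ((0 ≤ b1 + b2 - 1 ∧ 0 ≤ -e - p3 - 2) ∨ (0 ≤ b1 + b2 - 1 ∧ 0 ≤ e + p3 + 1 ∧ 0 ≤ -e - p3 - 1 ∧ 0 ≤ hp - d1 - p2 - 1) ∨ (0 ≤ b1 + b2 - 1 ∧ 0 ≤ e + p3 + 1 ∧ 0 ≤ -e - p3 - 1 ∧ 0 ≤ -hp + d1 + p2 ∧ 0 ≤ hp - d1 - p2 ∧ 0 ≤ n3 - b3)) ∨ (0 ≤ k - e - 1 ∨ (0 ≤ -k + e ∧ 0 ≤ k - e ∧ 0 ≤ h3 - d1 - 1)) ∨ (0 ≤ g - 1) ∨ (0 ≤ -p5 - 2 ∨ (0 ≤ p5 + 1 ∧ 0 ≤ -p5 - 1 ∧ 0 ≤ h - p4 - 1) ∨ (0 ≤ p5 + 1 ∧ 0 ≤ -p5 - 1 ∧ 0 ≤ -h + p4 ∧ 0 ≤ h - p4 ∧ 0 ≤ m - 1)))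
    (D46 : ((0 ≤ b1 - 1 ∧ 0 ≤ -d1 - p0 - 2) ∨ (0 ≤ b1 - 1 ∧ 0 ≤ d1 + p0 + 1 ∧ 0 ≤ -d1 - p0 - 1 ∧ 0 ≤ n2 - b2 + n3 - b3 - 1) ∨ (0 ≤ b1 - 1 ∧ 0 ≤ d1 + p0 + 1 ∧ 0 ≤ -d1 - p0 - 1 ∧ 0 ≤ -n2 + b2 - n3 + b3 ∧ 0 ≤ n2 - b2 + n3 - b3 ∧ 0 ≤ n2 - b2 - e - p1 - 1)) ∨ ((0 ≤ b1 + b2 - 1 ∧ 0 ≤ hp - d1 - p2 - 1) ∨ (0 ≤ b1 + b2 - 1 ∧ 0 ≤ -hp + d1 + p2 ∧ 0 ≤ hp - d1 - p2 ∧ 0 ≤ n3 - b3 - 1) ∨ (0 ≤ b1 + b2 - 1 ∧ 0 ≤ -hp + d1 + p2 ∧ 0 ≤ hp - d1 - p2 ∧ 0 ≤ -n3 + b3 ∧ 0 ≤ n3 - b3 ∧ 0 ≤ -e - p3 - 1)) ∨ (0 ≤ h3 - d1 - 1) ∨ (0 ≤ h - p4 - 1 ∨ (0 ≤ -h + p4 ∧ 0 ≤ h - p4 ∧ 0 ≤ m - 2) ∨ (0 ≤ -h + p4 ∧ 0 ≤ h - p4 ∧ 0 ≤ -m + 1 ∧ 0 ≤ m - 1 ∧ 0 ≤ -p5 - 1)))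
    (D47 : 0 ≤ -n1 - b1 + 2 * a1 - 1 ∨ 0 ≤ n1 + b1 - 2 * a1 - 1 ∨ 0 ≤ n2 - a2 - 2 ∨ 0 ≤ -n2 + a2 ∨ 0 ≤ n3 - a3 - n1 + a1 - 2 ∨ 0 ≤ -n3 + a3 + n1 - a1 ∨ 0 ≤ n2 - b2 - 2 ∨ 0 ≤ -n2 + b2 ∨ 0 ≤ n3 - b3 - 1 ∨ 0 ≤ -b1 ∨ 0 ≤ -n2 + 2 ∨ 0 ≤ 2 * n1 - 2 * a1 - n3 + 2 ∨ 0 ≤ -n1 + a1)
    (D48 : 0 ≤ a2 - 2 ∨ 0 ≤ -a2 ∨ 0 ≤ a3 - a1 - 2 ∨ 0 ≤ -a3 + a1 ∨ 0 ≤ b1 - 1 ∨ 0 ≤ b2 - 2 ∨ 0 ≤ -b2 ∨ 0 ≤ b3 - 2 * a1 - 3 ∨ 0 ≤ -b3 + 2 * a1 + 1 ∨ 0 ≤ n3 - 2 * a1 - 4 ∨ 0 ≤ -n3 + 2 * a1 + 2 ∨ 0 ≤ 2 * a1 - n1 ∨ 0 ≤ -n2 + 2 ∨ 0 ≤ -a1) : False := by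
  have E0 := D0
  have E1 := D1
  have E3 := D3
  have E4 := D4
  have E5 := D5
  have E6 := D6
  have E7 := D7
  have E8 : 0 ≤ m - 1 := by
    rcases D8 with H8 | H8
    · exact H8
    · linarith only [B20, B17, H8, B36, B11, B16, B19]
  have E9 := D9
  have E10 := D10
  have E13 := D13
  have E14 := D14
  have E17 := D17
  have E18 := D18
  have E21 := D21
  have E22 := D22
  have E26 : (0 ≤ -m + 1 ∧ 0 ≤ p4) := by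
    rcases D26 with H26 | H26
    · linarith only [B36, H26.1]
    · exact H26
  have E30 : (0 ≤ -m + 1 ∧ 0 ≤ p5) := by
    rcases D30 with H30 | H30
    · linarith only [B36, H30.1]
    · exact H30
  have E35 : 0 ≤ -b1 ∨ 0 ≤ -n2 + b2 - n3 + b3 + 1 := by
    rcases D35 with H35 | H35 | H35 | H35
    · exact Or.inl H35
    · linarith only [B23, B38, H35]
    · linarith only [B17, B10, H35, B39]
    · exact Or.inr H35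
  have E36 := D36
  have E37 := D37
  have E38 := D38
  have E39 : 0 ≤ -b1 - b2 ∨ 0 ≤ -hp - h3 - 1 ∨ 0 ≤ -n3 + b3 + 1 := by
    rcases D39 with H39 | H39 | H39 | H39
    · exact Or.inl H39
    · exact Or.inr (Or.inl H39)
    · linarith only [B17, H39, B39]
    · exact Or.inr (Or.inr H39)
  have E40 := D40
  have E41 : (0 ≤ b1 - 1 ∧ 0 ≤ n2 - b2 + n3 - b3 - 1) ∨ (0 ≤ b1 - 1 ∧ 0 ≤ -n2 + b2 - n3 + b3 ∧ 0 ≤ n2 - b2 + n3 - b3 ∧ 0 ≤ -d1 - p0 - 2) ∨ (0 ≤ b1 - 1 ∧ 0 ≤ -n2 + b2 - n3 + b3 ∧ 0 ≤ n2 - b2 + n3 - b3 ∧ 0 ≤ d1 + p0 + 1 ∧ 0 ≤ -d1 - p0 - 1 ∧ 0 ≤ n2 - b2 - e - p1 - 1) ∨ (0 ≤ b1 + b2 - 1 ∧ 0 ≤ n3 - b3 - 1) ∨ (0 ≤ b1 + b2 - 1 ∧ 0 ≤ -n3 + b3 ∧ 0 ≤ n3 - b3 ∧ 0 ≤ hp - d1 - p2 - 1) ∨ (0 ≤ b1 + b2 - 1 ∧ 0 ≤ -n3 + b3 ∧ 0 ≤ n3 - b3 ∧ 0 ≤ -hp + d1 + p2 ∧ 0 ≤ hp - d1 - p2 ∧ 0 ≤ -e - p3 - 1) ∨ (0 ≤ -m + 1 ∧ 0 ≤ m - 1 ∧ 0 ≤ h -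 p4 - 1) ∨ (0 ≤ -m + 1 ∧ 0 ≤ m - 1 ∧ 0 ≤ -h + p4 ∧ 0 ≤ h - p4 ∧ 0 ≤ -p5 - 1) := by
    rcases D41 with (H41 | H41 | H41) | (H41 | H41 | H41) | (H41 | H41 | H41)
    · exact Or.inl H41
    · exact Or.inr (Or.inl H41)
    · exact Or.inr (Or.inr (Or.inl H41))
    · exact Or.inr (Or.inr (Or.inr (Or.inl H41)))
    · exact Or.inr (Or.inr (Or.inr (Or.inr (Or.inl H41))))
    · exact Or.inr (Or.inr (Or.inr (Or.inr (Or.inr (Or.inl H41)))))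
    · linarith only [B36, H41]
    · exact Or.inr (Or.inr (Or.inr (Or.inr (Or.inr (Or.inr (Or.inl H41))))))
    · exact Or.inr (Or.inr (Or.inr (Or.inr (Or.inr (Or.inr (Or.inr H41))))))
  have E42 : (0 ≤ b1 - 1 ∧ 0 ≤ n2 - b2 - e - p1 - 2) ∨ (0 ≤ b1 - 1 ∧ 0 ≤ -n2 + b2 + e + p1 + 1 ∧ 0 ≤ n2 - b2 - e - p1 - 1 ∧ 0 ≤ n2 - b2 + n3 - b3 - 1) ∨ (0 ≤ b1 - 1 ∧ 0 ≤ -n2 + b2 + e + p1 + 1 ∧ 0 ≤ n2 - b2 - e - p1 - 1 ∧ 0 ≤ -n2 + b2 - n3 + b3 ∧ 0 ≤ n2 - b2 + n3 - b3 ∧ 0 ≤ -d1 - p0 - 1) ∨ (0 ≤ b1 + b2 - 1 ∧ 0 ≤ -e - p3 - 2) ∨ (0 ≤ b1 + b2 - 1 ∧ 0 ≤ e + p3 + 1 ∧ 0 ≤ -e - p3 - 1 ∧ 0 ≤ n3 - b3 - 1) ∨ (0 ≤ b1 + b2 - 1 ∧ 0 ≤ e + p3 + 1 ∧ 0 ≤ -e - p3 - 1 ∧ 0 ≤ -n3 + b3 ∧ 0 ≤ n3 - b3 ∧ 0 ≤ hp - d1 - p2) ∨ 0 ≤ k - e - 1 ∨ 0 ≤ g - 1 ∨ 0 ≤ -p5 - 2 ∨ (0 ≤ p5 + 1 ∧ 0 ≤ -p5 - 1 ∧ 0 ≤ -m + 1 ∧ 0 ≤ m - 1 ∧ 0 ≤ h - p4) := by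
    rcases D42 with (H42 | H42 | H42) | (H42 | H42 | H42) | H42 | H42 | (H42 | H42 | H42)
    · exact Or.inl H42
    · exact Or.inr (Or.inl H42)
    · exact Or.inr (Or.inr (Or.inl H42))
    · exact Or.inr (Or.inr (Or.inr (Or.inl H42)))
    · exact Or.inr (Or.inr (Or.inr (Or.inr (Or.inl H42))))
    · exact Or.inr (Or.inr (Or.inr (Or.inr (Or.inr (Or.inl H42)))))
    · exact Or.inr (Or.inr (Or.inr (Or.inr (Or.inr (Or.inr (Or.inl H42))))))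
    · exact Or.inr (Or.inr (Or.inr (Or.inr (Or.inr (Or.inr (Or.inr (Or.inl H42)))))))
    · exact Or.inr (Or.inr (Or.inr (Or.inr (Or.inr (Or.inr (Or.inr (Or.inr (Or.inl H42))))))))
    · linarith only [B36, H42.2.2]
    · exact Or.inr (Or.inr (Or.inr (Or.inr (Or.inr (Or.inr (Or.inr (Or.inr (Or.inr H42))))))))
  have E43 : (0 ≤ b1 - 1 ∧ 0 ≤ -d1 - p0 - 2) ∨ (0 ≤ b1 - 1 ∧ 0 ≤ d1 + p0 + 1 ∧ 0 ≤ -d1 - p0 - 1 ∧ 0 ≤ n2 - b2 - e - p1 - 2) ∨ (0 ≤ b1 - 1 ∧ 0 ≤ d1 + p0 + 1 ∧ 0 ≤ -d1 - p0 - 1 ∧ 0 ≤ -n2 + b2 + e + p1 + 1 ∧ 0 ≤ n2 - b2 - e - p1 - 1 ∧ 0 ≤ n2 - b2 + n3 - b3) ∨ (0 ≤ b1 + b2 - 1 ∧ 0 ≤ hp - d1 - p2 - 1) ∨ (0 ≤ b1 + b2 - 1 ∧ 0 ≤ -hp + d1 + p2 ∧ 0 ≤ hp - d1 - p2 ∧ 0 ≤ -e - p3 - 2) ∨ (0 ≤ b1 + b2 - 1 ∧ 0 ≤ -hp + d1 + p2 ∧ 0 ≤ hp - d1 - p2 ∧ 0 ≤ e + p3 + 1 ∧ 0 ≤ -e - p3 - 1 ∧ 0 ≤ n3 - b3) ∨ 0 ≤ h3 - d1 - 1 ∨ (0 ≤ -h3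 + d1 ∧ 0 ≤ h3 - d1 ∧ 0 ≤ k - e - 1) ∨ 0 ≤ h - p4 - 1 ∨ (0 ≤ -h + p4 ∧ 0 ≤ h - p4 ∧ 0 ≤ -p5 - 2) ∨ (0 ≤ -h + p4 ∧ 0 ≤ h - p4 ∧ 0 ≤ p5 + 1 ∧ 0 ≤ -p5 - 1 ∧ 0 ≤ m - 1) := by
    rcases D43 with (H43 | H43 | H43) | (H43 | H43 | H43) | (H43 | H43) | (H43 | H43 | H43)
    · exact Or.inl H43
    · exact Or.inr (Or.inl H43)
    · exact Or.inr (Or.inr (Or.inl H43))
    · exact Or.inr (Or.inr (Or.inr (Or.inl H43)))
    · exact Or.inr (Or.inr (Or.inr (Or.inr (Or.inl H43))))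
    · exact Or.inr (Or.inr (Or.inr (Or.inr (Or.inr (Or.inl H43)))))
    · exact Or.inr (Or.inr (Or.inr (Or.inr (Or.inr (Or.inr (Or.inl H43))))))
    · exact Or.inr (Or.inr (Or.inr (Or.inr (Or.inr (Or.inr (Or.inr (Or.inl H43)))))))
    · exact Or.inr (Or.inr (Or.inr (Or.inr (Or.inr (Or.inr (Or.inr (Or.inr (Or.inl H43))))))))
    · exact Or.inr (Or.inr (Or.inr (Or.inr (Or.inr (Or.inr (Or.inr (Or.inr (Or.inr (Or.inl H43)))))))))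
    · exact Or.inr (Or.inr (Or.inr (Or.inr (Or.inr (Or.inr (Or.inr (Or.inr (Or.inr (Or.inr H43)))))))))
  have E44 : (0 ≤ b1 - 1 ∧ 0 ≤ n2 - b2 + n3 - b3 - 1) ∨ (0 ≤ b1 - 1 ∧ 0 ≤ -n2 + b2 - n3 + b3 ∧ 0 ≤ n2 - b2 + n3 - b3 ∧ 0 ≤ n2 - b2 - e - p1 - 2) ∨ (0 ≤ b1 - 1 ∧ 0 ≤ -n2 + b2 - n3 + b3 ∧ 0 ≤ n2 - b2 + n3 - b3 ∧ 0 ≤ -n2 + b2 + e + p1 + 1 ∧ 0 ≤ n2 - b2 - e - p1 - 1 ∧ 0 ≤ -d1 - p0 - 1) ∨ (0 ≤ b1 + b2 - 1 ∧ 0 ≤ n3 - b3 - 1) ∨ (0 ≤ b1 + b2 - 1 ∧ 0 ≤ -n3 + b3 ∧ 0 ≤ n3 - b3 ∧ 0 ≤ -e - p3 - 2) ∨ (0 ≤ b1 + b2 - 1 ∧ 0 ≤ -n3 + b3 ∧ 0 ≤ n3 - b3 ∧ 0 ≤ e + p3 + 1 ∧ 0 ≤ -e - p3 - 1 ∧ 0 ≤ hp - d1 - p2) ∨ 0 ≤ g - 1 ∨ (0 ≤ -m + 1 ∧ 0 ≤ m - 1 ∧ 0 ≤ -p5 - 2) ∨ (0 ≤ -m + 1 ∧ 0 ≤ m - 1 ∧ 0 ≤ p5 + 1 ∧ 0 ≤ -p5 - 1 ∧ 0 ≤ h - p4) := by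
    rcases D44 with (H44 | H44 | H44) | (H44 | H44 | H44) | H44 | (H44 | H44 | H44)
    · exact Or.inl H44
    · exact Or.inr (Or.inl H44)
    · exact Or.inr (Or.inr (Or.inl H44))
    · exact Or.inr (Or.inr (Or.inr (Or.inl H44)))
    · exact Or.inr (Or.inr (Or.inr (Or.inr (Or.inl H44))))
    · exact Or.inr (Or.inr (Or.inr (Or.inr (Or.inr (Or.inl H44)))))
    · exact Or.inr (Or.inr (Or.inr (Or.inr (Or.inr (Or.inr (Or.inl H44))))))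
    · linarith only [B36, H44]
    · exact Or.inr (Or.inr (Or.inr (Or.inr (Or.inr (Or.inr (Or.inr (Or.inl H44)))))))
    · exact Or.inr (Or.inr (Or.inr (Or.inr (Or.inr (Or.inr (Or.inr (Or.inr H44)))))))
  have E45 : (0 ≤ b1 - 1 ∧ 0 ≤ n2 - b2 - e - p1 - 2) ∨ (0 ≤ b1 - 1 ∧ 0 ≤ -n2 + b2 + e + p1 + 1 ∧ 0 ≤ n2 - b2 - e - p1 - 1 ∧ 0 ≤ -d1 - p0 - 2) ∨ (0 ≤ b1 - 1 ∧ 0 ≤ -n2 + b2 + e + p1 + 1 ∧ 0 ≤ n2 - b2 - e - p1 - 1 ∧ 0 ≤ d1 + p0 + 1 ∧ 0 ≤ -d1 - p0 - 1 ∧ 0 ≤ n2 - b2 + n3 - b3) ∨ (0 ≤ b1 + b2 - 1 ∧ 0 ≤ -e - p3 - 2) ∨ (0 ≤ b1 + b2 - 1 ∧ 0 ≤ e + p3 + 1 ∧ 0 ≤ -e - p3 - 1 ∧ 0 ≤ hp - d1 - p2 - 1) ∨ (0 ≤ b1 + b2 - 1 ∧ 0 ≤ e + p3 + 1 ∧ 0 ≤ -e - p3 - 1 ∧ 0 ≤ -hp + d1 + p2 ∧ 0 ≤ hp - d1 - p2 ∧ 0 ≤ n3 - b3) ∨ 0 ≤ k - e - 1 ∨ (0 ≤ -k + e ∧ 0 ≤ k - e ∧ 0 ≤ h3 - d1 - 1) ∨ 0 ≤ g - 1 ∨ 0 ≤ -p5 - 2 ∨ (0 ≤ p5 + 1 ∧ 0 ≤ -p5 - 1 ∧ 0 ≤ h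 - p4 - 1) ∨ (0 ≤ p5 + 1 ∧ 0 ≤ -p5 - 1 ∧ 0 ≤ -h + p4 ∧ 0 ≤ h - p4 ∧ 0 ≤ m - 1) := by
    rcases D45 with (H45 | H45 | H45) | (H45 | H45 | H45) | (H45 | H45) | H45 | (H45 | H45 | H45)
    · exact Or.inl H45
    · exact Or.inr (Or.inl H45)
    · exact Or.inr (Or.inr (Or.inl H45))
    · exact Or.inr (Or.inr (Or.inr (Or.inl H45)))
    · exact Or.inr (Or.inr (Or.inr (Or.inr (Or.inl H45))))
    · exact Or.inr (Or.inr (Or.inr (Or.inr (Or.inr (Or.inl H45)))))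
    · exact Or.inr (Or.inr (Or.inr (Or.inr (Or.inr (Or.inr (Or.inl H45))))))
    · exact Or.inr (Or.inr (Or.inr (Or.inr (Or.inr (Or.inr (Or.inr (Or.inl H45)))))))
    · exact Or.inr (Or.inr (Or.inr (Or.inr (Or.inr (Or.inr (Or.inr (Or.inr (Or.inl H45))))))))
    · exact Or.inr (Or.inr (Or.inr (Or.inr (Or.inr (Or.inr (Or.inr (Or.inr (Or.inr (Or.inl H45)))))))))
    · exact Or.inr (Or.inr (Or.inr (Or.inr (Or.inr (Or.inr (Or.inr (Or.inr (Or.inr (Or.inr (Or.inl H45))))))))))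
    · exact Or.inr (Or.inr (Or.inr (Or.inr (Or.inr (Or.inr (Or.inr (Or.inr (Or.inr (Or.inr (Or.inr H45))))))))))
  have E46 : (0 ≤ b1 - 1 ∧ 0 ≤ -d1 - p0 - 2) ∨ (0 ≤ b1 - 1 ∧ 0 ≤ d1 + p0 + 1 ∧ 0 ≤ -d1 - p0 - 1 ∧ 0 ≤ n2 - b2 + n3 - b3 - 1) ∨ (0 ≤ b1 - 1 ∧ 0 ≤ d1 + p0 + 1 ∧ 0 ≤ -d1 - p0 - 1 ∧ 0 ≤ -n2 + b2 - n3 + b3 ∧ 0 ≤ n2 - b2 + n3 - b3 ∧ 0 ≤ n2 - b2 - e - p1 - 1) ∨ (0 ≤ b1 + b2 - 1 ∧ 0 ≤ hp - d1 - p2 - 1) ∨ (0 ≤ b1 + b2 - 1 ∧ 0 ≤ -hp + d1 + p2 ∧ 0 ≤ hp - d1 - p2 ∧ 0 ≤ n3 - b3 - 1) ∨ (0 ≤ b1 + b2 - 1 ∧ 0 ≤ -hp + d1 + p2 ∧ 0 ≤ hp - d1 - p2 ∧ 0 ≤ -n3 + b3 ∧ 0 ≤ n3 - b3 ∧ 0 ≤ -e - p3 - 1) ∨ 0 ≤ h3 - d1 - 1 ∨ 0 ≤ h - p4 - 1 ∨ (0 ≤ -h + p4 ∧ 0 ≤ h - p4 ∧ 0 ≤ -m + 1 ∧ 0 ≤ m - 1 ∧ 0 ≤ -p5 - 1) := by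
    rcases D46 with (H46 | H46 | H46) | (H46 | H46 | H46) | H46 | (H46 | H46 | H46)
    · exact Or.inl H46
    · exact Or.inr (Or.inl H46)
    · exact Or.inr (Or.inr (Or.inl H46))
    · exact Or.inr (Or.inr (Or.inr (Or.inl H46)))
    · exact Or.inr (Or.inr (Or.inr (Or.inr (Or.inl H46))))
    · exact Or.inr (Or.inr (Or.inr (Or.inr (Or.inr (Or.inl H46)))))
    · exact Or.inr (Or.inr (Or.inr (Or.inr (Or.inr (Or.inr (Or.inl H46))))))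
    · exact Or.inr (Or.inr (Or.inr (Or.inr (Or.inr (Or.inr (Or.inr (Or.inl H46)))))))
    · linarith only [B36, H46.2.2]
    · exact Or.inr (Or.inr (Or.inr (Or.inr (Or.inr (Or.inr (Or.inr (Or.inr H46)))))))
  have E47 : 0 ≤ n1 + b1 - 2 * a1 - 1 ∨ 0 ≤ n2 - a2 - 2 ∨ 0 ≤ -n2 + a2 ∨ 0 ≤ n3 - a3 - n1 + a1 - 2 ∨ 0 ≤ -n3 + a3 + n1 - a1 ∨ 0 ≤ n2 - b2 - 2 ∨ 0 ≤ -n2 + b2 ∨ 0 ≤ n3 - b3 - 1 ∨ 0 ≤ -b1 ∨ 0 ≤ -n2 + 2 ∨ 0 ≤ 2 * n1 - 2 * a1 - n3 + 2 := by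
    rcases D47 with H47 | H47 | H47 | H47 | H47 | H47 | H47 | H47 | H47 | H47 | H47 | H47 | H47
    · linarith only [H47, B21, B28, B38]
    · exact Or.inl H47
    · exact Or.inr (Or.inl H47)
    · exact Or.inr (Or.inr (Or.inl H47))
    · exact Or.inr (Or.inr (Or.inr (Or.inl H47)))
    · exact Or.inr (Or.inr (Or.inr (Or.inr (Or.inl H47))))
    · exact Or.inr (Or.inr (Or.inr (Or.inr (Or.inr (Or.inl H47)))))
    · exact Or.inr (Or.inr (Or.inr (Or.inr (Or.inr (Or.inr (Or.inl H47))))))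
    · exact Or.inr (Or.inr (Or.inr (Or.inr (Or.inr (Or.inr (Or.inr (Or.inl H47)))))))
    · exact Or.inr (Or.inr (Or.inr (Or.inr (Or.inr (Or.inr (Or.inr (Or.inr (Or.inl H47))))))))
    · exact Or.inr (Or.inr (Or.inr (Or.inr (Or.inr (Or.inr (Or.inr (Or.inr (Or.inr (Or.inl H47)))))))))
    · exact Or.inr (Or.inr (Or.inr (Or.inr (Or.inr (Or.inr (Or.inr (Or.inr (Or.inr (Or.inr H47)))))))))
    · linarith only [B23, B28, B38, H47]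
  have E48 : 0 ≤ a2 - 2 ∨ 0 ≤ -a2 ∨ 0 ≤ a3 - a1 - 2 ∨ 0 ≤ -a3 + a1 ∨ 0 ≤ b1 - 1 ∨ 0 ≤ b2 - 2 ∨ 0 ≤ -b2 ∨ 0 ≤ b3 - 2 * a1 - 3 ∨ 0 ≤ -b3 + 2 * a1 + 1 ∨ 0 ≤ n3 - 2 * a1 - 4 ∨ 0 ≤ -n3 + 2 * a1 + 2 ∨ 0 ≤ 2 * a1 - n1 ∨ 0 ≤ -n2 + 2 := by
    rcases D48 with H48 | H48 | H48 | H48 | H48 | H48 | H48 | H48 | H48 | H48 | H48 | H48 | H48 | H48
    · exact Or.inl H48
    · exact Or.inr (Or.inl H48)
    · exact Or.inr (Or.inr (Or.inl H48))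
    · exact Or.inr (Or.inr (Or.inr (Or.inl H48)))
    · exact Or.inr (Or.inr (Or.inr (Or.inr (Or.inl H48))))
    · exact Or.inr (Or.inr (Or.inr (Or.inr (Or.inr (Or.inl H48)))))
    · exact Or.inr (Or.inr (Or.inr (Or.inr (Or.inr (Or.inr (Or.inl H48))))))
    · exact Or.inr (Or.inr (Or.inr (Or.inr (Or.inr (Or.inr (Or.inr (Or.inl H48)))))))
    · exact Or.inr (Or.inr (Or.inr (Or.inr (Or.inr (Or.inr (Or.inr (Or.inr (Or.inl H48))))))))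
    · exact Or.inr (Or.inr (Or.inr (Or.inr (Or.inr (Or.inr (Or.inr (Or.inr (Or.inr (Or.inl H48)))))))))
    · exact Or.inr (Or.inr (Or.inr (Or.inr (Or.inr (Or.inr (Or.inr (Or.inr (Or.inr (Or.inr (Or.inl H48))))))))))
    · exact Or.inr (Or.inr (Or.inr (Or.inr (Or.inr (Or.inr (Or.inr (Or.inr (Or.inr (Or.inr (Or.inr (Or.inl H48)))))))))))
    · exact Or.inr (Or.inr (Or.inr (Or.inr (Or.inr (Or.inr (Or.inr (Or.inr (Or.inr (Or.inr (Or.inr (Or.inr H48)))))))))))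
    · linarith only [B3, B23, H48, B22]
  have H30 := E30
  have H8 := E8
  have H26 := E26
  rcases E22 with H22 | H22
  · rcases E14 with H14 | H14
    · rcases E35 with H35 | H35
      · rcases E0 with H0 | H0
        · rcases E21 with H21 | H21
          · rcases E9 with H9 | H9
            · rcases E39 with H39 | H39 | H39
              · rcases E44 with H44 | H44 | H44 | H44 | H44 | H44 | H44 | H44 | H44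
                · linarith only [H35, H44.1]
                · linarith only [H9.1, H44.2.1]
                · linarith only [H9.1, H44.2.1]
                · linarith only [H39, H44.1]
                · linarith only [H21.1, H44.2.1]
                · linarith only [H21.1, H44.2.1]
                · rcases E41 with H41 | H41 | H41 | H41 | H41 | H41 | H41 | H41
                  · linarith only [H35, H41.1]
                  · linarith only [H9.1, H41.2.1]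
                  · linarith only [H9.1, H41.2.1]
                  · linarith only [H39, H41.1]
                  · linarith only [H21.1, H41.2.1]
                  · linarith only [H21.1, H41.2.1]
                  · rcases E38 with H38 | H38 | H38
                    · linarith only [H41.2.2, H26.2, H38]
                    · linarith only [H38, H44]
                    · linarith only [H38, H8]
                  · linarith only [H30.2, H41.2.2.2.2]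
                · linarith only [H30.2, H44.2.2]
                · linarith only [H30.2, H44.2.2.2.1]
              · rcases E3 with H3 | H3
                · linarith only [B12, H3, H35, B38, H39, B23]
                · linarith only [B38, H3, H39, B23, B4]
              · linarith only [H21.1, H39]
            · linarith only [H9.1, H21.1, B10]
          · rcases E17 with H17 | H17
            · linarith only [H17.1, H21.1]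
            · rcases E38 with H38 | H38 | H38
              · rcases E41 with H41 | H41 | H41 | H41 | H41 | H41 | H41 | H41
                · linarith only [H41.1, H35]
                · linarith only [H41.2.1, H14.1]
                · linarith only [H41.2.1, H14.1]
                · rcases E7 with H7 | H7
                  · linarith only [B23, H38, B28, B38, H7]
                  · rcases E3 with H3 | H3
                    · linarith only [B27, B23, B17, H7, H38, B28, B16, B38, H3]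
                    · rcases E36 with H36 | H36 | H36 | H36
                      · linarith only [H36, H41.1]
                      · linarith only [H3, B38, H35, H36, H41.1]
                      · rcases E5 with H5 | H5
                        · linarith only [H41.1, H36, B21, H7, H38, B28, B16, H35, B38, H0.2, H5]
                        · rcases E42 with H42 | H42 | H42 | H42 | H42 | H42 | H42 | H42 | H42 | H42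
                          · linarith only [H42.1, H35]
                          · linarith only [H42.1, H35]
                          · linarith only [H42.2.2.2.1, H14.1]
                          · linarith only [H42.2, H21.2]
                          · linarith only [H42.2.2.1, H21.2]
                          · linarith only [H42.2.2.1, H21.2]
                          · linarith only [H42, H36]
                          · rcases E40 with H40 | H40 | H40 | H40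
                            · linarith only [H40, H41.1]
                            · rcases E43 with H43 | H43 | H43 | H43 | H43 | H43 | H43 | H43 | H43 | H43 | H43
                              · linarith only [H43.1, H35]
                              · linarith only [H43.1, H35]
                              · linarith only [H43.1, H35]
                              · linarith only [H43.2, H40, H17.2]
                              · linarith only [H43.2.2.2, H21.2]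
                              · linarith only [H43.2.2.2.2.1, H21.2]
                              · rcases E48 with H48 | H48 | H48 | H48 | H48 | H48 | H48 | H48 | H48 | H48 | H48 | H48 | H48
                                · linarith only [H48, H38, H7]
                                · linarith only [H41.1, B29, H35, B16, H48, H36, H43, B21, H5]
                                · linarith only [B16, H38, H7, H36, H48, H5, H41.1]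
                                · linarith only [H48, B15, B31, H35, H3, H40, B21, H43, B39, B29]
                                · linarith only [H48, H35]
                                · linarith only [H48, H40, H3]
                                · linarith only [H41.1, H48, H35]
                                · linarith only [H48, H5, H7, B25, B16, H36, H38, B18, H41.1]
                                · linarith only [H48, B20, H35, H3, H40, H43, B19, B21, B29]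
                                · linarith only [H48, B16, H7, H41.1, B25, H5, H36, H38, B18, H21.1]
                                · linarith only [H48, B19, H43, H35, H3, H40, B20, H22.1, B21, B29]
                                · linarith only [H48, H43, B28, H35, B21]
                                · linarith only [H41.1, B29, H35, B16, B32, H48, H36, H43, H42, B21, H5]
                              · linarith only [H36, H43.2.2]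
                              · linarith only [H43, H26.2, H38]
                              · linarith only [H30.2, H43.2.2]
                              · linarith only [H30.2, H43.2.2.2.1]
                            · linarith only [H42, H40]
                            · linarith only [H22.1, H40]
                          · linarith only [H30.2, H42]
                          · linarith only [H30.2, H42.2.1]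
                      · linarith only [H22.1, H36]
                · linarith only [H22.1, H41.2.1]
                · linarith only [H41.2.2.2.2.2, H21.2]
                · linarith only [H38, H26.2, H41.2.2]
                · linarith only [H30.2, H41.2.2.2.2]
              · rcases E44 with H44 | H44 | H44 | H44 | H44 | H44 | H44 | H44 | H44
                · linarith only [H44.1, H35]
                · linarith only [H44.2.1, H14.1]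
                · linarith only [H44.2.1, H14.1]
                · rcases E42 with H42 | H42 | H42 | H42 | H42 | H42 | H42 | H42 | H42 | H42
                  · linarith only [H42.1, H35]
                  · linarith only [H42.1, H35]
                  · linarith only [H42.2.2.2.1, H14.1]
                  · linarith only [H42.2, H21.2]
                  · linarith only [H42.2.2.1, H21.2]
                  · linarith only [H42.2.2.1, H21.2]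
                  · rcases E36 with H36 | H36 | H36 | H36
                    · linarith only [H36, H44.1]
                    · rcases E3 with H3 | H3
                      · linarith only [B12, H3, H35, H36, B38]
                      · linarith only [H3, B38, H35, H36, H44.1]
                    · linarith only [H42, H36]
                    · linarith only [H22.1, H36]
                  · linarith only [H42, H38]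
                  · linarith only [H30.2, H42]
                  · linarith only [H30.2, H42.2.1]
                · linarith only [H44.2.2.2, H21.2]
                · linarith only [H44.2.2.2.2.1, H21.2]
                · linarith only [H44, H38]
                · linarith only [H30.2, H44.2.2]
                · linarith only [H30.2, H44.2.2.2.1]
              · linarith only [H38, H8]
        · linarith only [H0.1, H35]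
      · rcases E0 with H0 | H0
        · rcases E13 with H13 | H13
          · linarith only [H13.1, H35]
          · rcases E17 with H17 | H17
            · linarith only [H17.1, H35, B10]
            · rcases E21 with H21 | H21
              · linarith only [H21.1, H17.1]
              · rcases E3 with H3 | H3
                · rcases E40 with H40 | H40 | H40 | H40
                  · linarith only [B12, B27, H40, H3]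
                  · linarith only [B23, B17, H40, H35, B28, B16, B38, H0.2, H22.1, H3]
                  · rcases E42 with H42 | H42 | H42 | H42 | H42 | H42 | H42 | H42 | H42 | H42
                    · linarith only [H42.2, H35, H22.1, H13.2]
                    · linarith only [H42.2.2.1, H22.1, H35, H13.2]
                    · linarith only [H42.2.2.1, H42.2.2.2.1, H22.1, H13.2]
                    · linarith only [H42.2, H21.2]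
                    · linarith only [H42.2.2.1, H21.2]
                    · linarith only [H42.2.2.1, H21.2]
                    · rcases E36 with H36 | H36 | H36 | H36
                      · linarith only [B27, H36, B12, H3]
                      · linarith only [H42, H35, H3, B30, H36, H22.1, B17, B16, B38]
                      · linarith only [H42, H36]
                      · linarith only [H22.1, H36]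
                    · linarith only [H42, H40]
                    · linarith only [H30.2, H42]
                    · linarith only [H30.2, H42.2.1]
                  · linarith only [H22.1, H40]
                · rcases E36 with H36 | H36 | H36 | H36
                  · linarith only [H35, H36, B3, H22.1, B13]
                  · linarith only [H35, H3, B38, H36, H22.1, B13]
                  · rcases E42 with H42 | H42 | H42 | H42 | H42 | H42 | H42 | H42 | H42 | H42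
                    · linarith only [H42.2, H35, H22.1, H13.2]
                    · linarith only [H42.2.2.1, H22.1, H35, H13.2]
                    · linarith only [H42.2.2.1, H42.2.2.2.1, H22.1, H13.2]
                    · linarith only [H42.2, H21.2]
                    · linarith only [H42.2.2.1, H21.2]
                    · linarith only [H42.2.2.1, H21.2]
                    · linarith only [H42, H36]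
                    · rcases E40 with H40 | H40 | H40 | H40
                      · linarith only [B3, H35, B32, H40, H42, H22.1, B1]
                      · linarith only [H35, B32, H3, H40, H42, H22.1, B1]
                      · linarith only [H42, H40]
                      · linarith only [H22.1, H40]
                    · linarith only [H30.2, H42]
                    · linarith only [H30.2, H42.2.1]
                  · linarith only [H22.1, H36]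
        · linarith only [H0.2, H22.1, H35]
    · linarith only [H14.1, H22.1, B10]
  · rcases E1 with H1 | H1
    · rcases E18 with H18 | H18
      · linarith only [H18.1, H22.1]
      · rcases E9 with H9 | H9
        · rcases E35 with H35 | H35
          · rcases E44 with H44 | H44 | H44 | H44 | H44 | H44 | H44 | H44 | H44
            · linarith only [H44.1, H35]
            · linarith only [H9.1, H44.2.1]
            · linarith only [H9.1, H44.2.1]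
            · linarith only [H44.2, H22.1]
            · linarith only [H44.2.2.2, B17, H22.2]
            · linarith only [B17, H44.2.2.2.2.1, H22.2]
            · rcases E38 with H38 | H38 | H38
              · rcases E41 with H41 | H41 | H41 | H41 | H41 | H41 | H41 | H41
                · linarith only [H41.1, H35]
                · linarith only [H9.1, H41.2.1]
                · linarith only [H9.1, H41.2.1]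
                · linarith only [H41.2, H22.1]
                · rcases E7 with H7 | H7
                  · linarith only [B28, H38, B23, H7, B38]
                  · linarith only [B16, B17, B27, B21, H41.2.2.2, H38, H7, H18.2]
                · linarith only [B17, H41.2.2.2.2.2, H22.2]
                · linarith only [H38, H26.2, H41.2.2]
                · linarith only [H30.2, H41.2.2.2.2]
              · linarith only [H38, H44]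
              · linarith only [H38, H8]
            · linarith only [H30.2, H44.2.2]
            · linarith only [H30.2, H44.2.2.2.1]
          · linarith only [H9.1, H35]
        · rcases E13 with H13 | H13
          · linarith only [H13.1, H9.1]
          · rcases E10 with H10 | H10
            · rcases E37 with H37 | H37 | H37 | H37
              · rcases E44 with H44 | H44 | H44 | H44 | H44 | H44 | H44 | H44 | H44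
                · linarith only [H44.1, H37]
                · linarith only [H44.2.2.2, H44.2.1, B11, H13.2]
                · linarith only [H44.2.2.2.2.2, H9.2]
                · linarith only [H44.2, H22.1]
                · linarith only [H44.2.2.2, B17, H22.2]
                · linarith only [B17, H44.2.2.2.2.1, H22.2]
                · rcases E38 with H38 | H38 | H38
                  · rcases E7 with H7 | H7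
                    · linarith only [H38, B28, B38, B23, H7]
                    · rcases E41 with H41 | H41 | H41 | H41 | H41 | H41 | H41 | H41
                      · linarith only [H41.1, H37]
                      · linarith only [H41.2.2.2, H9.2]
                      · linarith only [H41.2.2.2.2.1, H9.2]
                      · linarith only [H41.2, H22.1]
                      · linarith only [B27, B21, H38, H41.2.2.2, B17, H7, B16, H18.2]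
                      · linarith only [B17, H41.2.2.2.2.2, H22.2]
                      · linarith only [H38, H41.2.2, H26.2]
                      · linarith only [H30.2, H41.2.2.2.2]
                  · linarith only [H44, H38]
                  · linarith only [H38, H8]
                · linarith only [H30.2, H44.2.2]
                · linarith only [H30.2, H44.2.2.2.1]
              · rcases E4 with H4 | H4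
                · rcases E38 with H38 | H38 | H38
                  · rcases E46 with H46 | H46 | H46 | H46 | H46 | H46 | H46 | H46 | H46
                    · linarith only [H46.2, H9.2]
                    · linarith only [H46.2.2.1, H9.2]
                    · linarith only [H46.2.2.1, H9.2]
                    · rcases E7 with H7 | H7
                      · linarith only [H38, B28, H7, B23, B38]
                      · linarith only [B27, B17, B21, H7, H38, H46.2, B16, H18.2]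
                    · linarith only [H46.2.2.2, H22.1]
                    · linarith only [B17, H46.2.2.2.2.2, H22.2]
                    · linarith only [H46, H37]
                    · linarith only [H46, H38, H26.2]
                    · linarith only [H30.2, H46.2.2.2.2]
                  · rcases E45 with H45 | H45 | H45 | H45 | H45 | H45 | H45 | H45 | H45 | H45 | H45 | H45
                    · linarith only [H45.2, H9.1, B11, H13.2]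
                    · linarith only [H45.2.2.2, H9.2]
                    · linarith only [H45.2.2.2.2.1, H9.2]
                    · linarith only [H45.2, B17, H22.2]
                    · linarith only [B17, H45.2.2.1, H22.2]
                    · linarith only [B17, H45.2.2.1, H22.2]
                    · rcases E44 with H44 | H44 | H44 | H44 | H44 | H44 | H44 | H44 | H44
                      · rcases E6 with H6 | H6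
                        · rcases E47 with H47 | H47 | H47 | H47 | H47 | H47 | H47 | H47 | H47 | H47 | H47
                          · linarith only [H47, H37, B22, H4]
                          · linarith only [H38, H47, H6]
                          · linarith only [H10.1, B15, H37, H22.1, B30, H45, H47, H4, B22]
                          · linarith only [B38, B25, H22.1, B21, B15, B28, B30, H45, H47, B18, H9.1]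
                          · linarith only [H10.1, B20, B19, H37, H38, B22, H4, H47, H6]
                          · linarith only [H47, B11, H9.1]
                          · linarith only [H10.1, H47, H22.1]
                          · linarith only [H47, H22.1]
                          · linarith only [H44.1, H47]
                          · rcases E46 with H46 | H46 | H46 | H46 | H46 | H46 | H46 | H46 | H46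
                            · linarith only [H46.2, H9.2]
                            · linarith only [H46.2.2.1, H9.2]
                            · linarith only [H46.2.2.1, H9.2]
                            · linarith only [H10.1, B27, B23, H47, H18.2, H46.2, H22.1]
                            · linarith only [H46.2.2.2, H22.1]
                            · linarith only [B17, H46.2.2.2.2.2, H22.2]
                            · linarith only [H37, H46]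
                            · linarith only [H10.1, B15, H37, B35, H22.1, H47, B30, H45, H46, H26.2, H4, B22]
                            · linarith only [H30.2, H46.2.2.2.2]
                          · linarith only [H47, H22.1, H45, B19, H38, B15, H37, B22, H10.1, B31, H4, B20, H6]
                        · linarith only [B31, B17, H6, H45, H38]
                      · linarith only [H44.2.2.2, H44.2.1, B11, H13.2]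
                      · linarith only [H44.2.2.2.2.2, H9.2]
                      · linarith only [H44.2, H22.1]
                      · linarith only [H44.2.2.2, B17, H22.2]
                      · linarith only [B17, H44.2.2.2.2.1, H22.2]
                      · linarith only [H44, H38]
                      · linarith only [H30.2, H44.2.2]
                      · linarith only [H30.2, H44.2.2.2.1]
                    · linarith only [H45.2.2, H37]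
                    · linarith only [H45, H38]
                    · linarith only [H30.2, H45]
                    · linarith only [H30.2, H45.2.1]
                    · linarith only [H30.2, H45.2.1]
                  · linarith only [H38, H8]
                · rcases E7 with H7 | H7
                  · linarith only [B31, B17, B35, B28, B39, H4, H7]
                  · rcases E6 with H6 | H6
                    · rcases E38 with H38 | H38 | H38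
                      · rcases E46 with H46 | H46 | H46 | H46 | H46 | H46 | H46 | H46 | H46
                        · linarith only [H46.2, H9.2]
                        · linarith only [H46.2.2.1, H9.2]
                        · linarith only [H46.2.2.1, H9.2]
                        · linarith only [H18.2, B17, B21, B27, H38, B16, H46.2, H7]
                        · linarith only [H46.2.2.2, H22.1]
                        · linarith only [B17, H46.2.2.2.2.2, H22.2]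
                        · linarith only [H37, H46]
                        · linarith only [H26.2, H46, H38]
                        · linarith only [H30.2, H46.2.2.2.2]
                      · linarith only [H10.1, B31, H1.1, B15, B22, H38, H22.1, B39, H4, H37, H6]
                      · linarith only [H38, H8]
                    · rcases E38 with H38 | H38 | H38
                      · linarith only [H7, B38, B17, B21, H6, B32, H38, B16, H9.1, B11, B29]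
                      · linarith only [B31, B17, H6, B39, H38]
                      · linarith only [H38, H8]
              · linarith only [H10.1, H22.1, H37, B39]
              · linarith only [H10.1, H37]
            · rcases E44 with H44 | H44 | H44 | H44 | H44 | H44 | H44 | H44 | H44
              · linarith only [H44.2, H10.1]
              · linarith only [H44.2.2.2, H10.1, B11, H13.2]
              · linarith only [B23, H44.2.2.2.2.2, H10.2]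
              · linarith only [H44.2, H22.1]
              · linarith only [H44.2.2.2, B17, H22.2]
              · linarith only [B17, H44.2.2.2.2.1, H22.2]
              · rcases E38 with H38 | H38 | H38
                · rcases E41 with H41 | H41 | H41 | H41 | H41 | H41 | H41 | H41
                  · linarith only [H10.1, H41.2]
                  · linarith only [H41.2.2.2, B23, H10.2]
                  · linarith only [H41.2.2.2.2.1, B23, H10.2]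
                  · linarith only [H41.2, H22.1]
                  · rcases E7 with H7 | H7
                    · linarith only [H10.1, B21, H38, B32, B16, B28, B11, H44, B17, H7, B38]
                    · linarith only [B27, H41.2.2.2, B21, H38, B16, B17, H7, H18.2]
                  · linarith only [B17, H41.2.2.2.2.2, H22.2]
                  · linarith only [H38, H26.2, H41.2.2]
                  · linarith only [H30.2, H41.2.2.2.2]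
                · linarith only [H44, H38]
                · linarith only [H38, H8]
              · linarith only [H30.2, H44.2.2]
              · linarith only [H30.2, H44.2.2.2.1]
    · linarith only [H1.2, H22.1]

theorem g13 {a1 a2 a3 b1 b2 b3 d1 e g h h3 hp k m n1 n2 n3 p0 p1 p2 p3 p4 p5 y : ℤ}
    (B1 : 0 ≤ a2)
    (B3 : 0 ≤ b1)
    (B6 : 0 ≤ n1 - a1)
    (B10 : 0 ≤ n2 - b2)
    (B11 : 0 ≤ n3 - b3)
    (B16 : 0 ≤ a1 + a2 - b1 - b2 - e)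
    (B17 : 0 ≤ e - 1)
    (B18 : 0 ≤ y + a1 + a2 + a3 - b1 - b2 - b3)
    (B19 : 0 ≤ -a1 - a2 - a3 + b1 + b2 + b3 - y)
    (B20 : 0 ≤ y - 1)
    (B21 : 0 ≤ d1 - a1 + b1)
    (B22 : 0 ≤ a1 - b1 - d1)
    (B23 : 0 ≤ d1 - 1)
    (B25 : 0 ≤ -y + 1)
    (B27 : 0 ≤ b2 - hp - 1)
    (B28 : 0 ≤ n1 - a1 - h3)
    (B29 : 0 ≤ a2 + a3 - h3 - 1)
    (B32 : 0 ≤ n2 - a2 - g - 1)
    (B33 : 0 ≤ a3 - g)
    (B36 : 0 ≤ -m + 1)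
    (B38 : 0 ≤ h3 - d1)
    (B40 : 0 ≤ g - 1)
    (D1 : (0 ≤ a2 - 1 ∧ 0 ≤ n3 - a3 - 1) ∨ (0 ≤ b2 - 1 ∧ 0 ≤ n3 - b3 - 1))
    (D2 : 0 ≤ d1 - 2 ∨ 0 ≤ e - 2)
    (D3 : 0 ≤ hp - n1 + b1 ∨ 0 ≤ hp - b2 + 1)
    (D5 : 0 ≤ k - n1 + a1 - n2 + a2 ∨ 0 ≤ k - a3 + 1)
    (D7 : 0 ≤ h - n1 + a1 ∨ 0 ≤ h - a2 + 1)
    (D8 : 0 ≤ m - 1 ∨ 0 ≤ m - n3 + a3)
    (D9 : (0 ≤ n2 - b2 + n3 - b3 - 2 ∧ 0 ≤ -2 * d1 - p0) ∨ (0 ≤ -n2 + b2 - n3 + b3 + 1 ∧ 0 ≤ p0 + d1))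
    (D14 : (0 ≤ n2 - b2 + n3 - b3 - 1 ∧ 0 ≤ -e - p1) ∨ (0 ≤ -n2 + b2 - n3 + b3 ∧ 0 ≤ p1))
    (D17 : (0 ≤ n3 - b3 - 2 ∧ 0 ≤ -2 * d1 - p2) ∨ (0 ≤ -n3 + b3 + 1 ∧ 0 ≤ p2 + d1))
    (D18 : (0 ≤ n3 - b3 - 1 ∧ 0 ≤ -d1 - p2) ∨ (0 ≤ -n3 + b3 ∧ 0 ≤ p2))
    (D21 : (0 ≤ n3 - b3 - 2 ∧ 0 ≤ -2 * e - p3) ∨ (0 ≤ -n3 + b3 + 1 ∧ 0 ≤ p3 + e))
    (D22 : (0 ≤ n3 - b3 - 1 ∧ 0 ≤ -e - p3) ∨ (0 ≤ -n3 + b3 ∧ 0 ≤ p3))
    (D26 : (0 ≤ m - 2 ∧ 0 ≤ -d1 - p4) ∨ (0 ≤ -m + 1 ∧ 0 ≤ p4))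
    (D30 : (0 ≤ m - 2 ∧ 0 ≤ -e - p5) ∨ (0 ≤ -m + 1 ∧ 0 ≤ p5))
    (D34 : 0 ≤ -h ∨ 0 ≤ -g ∨ 0 ≤ -m)
    (D35 : 0 ≤ -b1 ∨ 0 ≤ -h3 - d1 ∨ 0 ≤ -n2 + b2 - k - e ∨ 0 ≤ -n2 + b2 - n3 + b3 + 2)
    (D36 : 0 ≤ -b1 - b2 ∨ 0 ≤ -hp + d1 - h3 - 1 ∨ 0 ≤ e - k ∨ 0 ≤ -n3 + b3)
    (D37 : 0 ≤ -b1 - b2 ∨ 0 ≤ -hp ∨ 0 ≤ -g ∨ 0 ≤ -n3 + b3)
    (D38 : 0 ≤ -b1 - b2 ∨ 0 ≤ -hp - h3 - 1 ∨ 0 ≤ -k ∨ 0 ≤ -n3 + b3 + 1)
    (D39 : 0 ≤ -b1 ∨ 0 ≤ -h3 ∨ 0 ≤ -n2 + b2 - k ∨ 0 ≤ -n2 + b2 - n3 + b3 + 1)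
    (D40 : 0 ≤ -b1 ∨ 0 ≤ d1 - h3 ∨ 0 ≤ -n2 + b2 + e - k ∨ 0 ≤ -n2 + b2 - n3 + b3)
    (D41 : ((0 ≤ b1 - 1 ∧ 0 ≤ n2 - b2 + n3 - b3 - 1) ∨ (0 ≤ b1 - 1 ∧ 0 ≤ -n2 + b2 - n3 + b3 ∧ 0 ≤ n2 - b2 + n3 - b3 ∧ 0 ≤ -d1 - p0 - 2) ∨ (0 ≤ b1 - 1 ∧ 0 ≤ -n2 + b2 - n3 + b3 ∧ 0 ≤ n2 - b2 + n3 - b3 ∧ 0 ≤ d1 + p0 + 1 ∧ 0 ≤ -d1 - p0 - 1 ∧ 0 ≤ n2 - b2 - e - p1 - 1)) ∨ ((0 ≤ b1 + b2 - 1 ∧ 0 ≤ n3 - b3 - 1) ∨ (0 ≤ b1 + b2 - 1 ∧ 0 ≤ -n3 + b3 ∧ 0 ≤ n3 - b3 ∧ 0 ≤ hp - d1 - p2 - 1) ∨ (0 ≤ b1 + b2 - 1 ∧ 0 ≤ -n3 + b3 ∧ 0 ≤ n3 - b3 ∧ 0 ≤ -hp + d1 + p2 ∧ 0 ≤ hp - d1 - p2 ∧ 0 ≤ -e - p3 - 1)) ∨ (0 ≤ m - 2 ∨ (0 ≤ -m + 1 ∧ 0 ≤ m - 1 ∧ 0 ≤ h - p4 - 1) ∨ (0 ≤ -m + 1 ∧ 0 ≤ m - 1 ∧ 0 ≤ -h + p4 ∧ 0 ≤ h - p4 ∧ 0 ≤ -p5 - 1)))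
    (D42 : ((0 ≤ b1 - 1 ∧ 0 ≤ -d1 - p0 - 2) ∨ (0 ≤ b1 - 1 ∧ 0 ≤ d1 + p0 + 1 ∧ 0 ≤ -d1 - p0 - 1 ∧ 0 ≤ n2 - b2 - e - p1 - 2) ∨ (0 ≤ b1 - 1 ∧ 0 ≤ d1 + p0 + 1 ∧ 0 ≤ -d1 - p0 - 1 ∧ 0 ≤ -n2 + b2 + e + p1 + 1 ∧ 0 ≤ n2 - b2 - e - p1 - 1 ∧ 0 ≤ n2 - b2 + n3 - b3)) ∨ ((0 ≤ b1 + b2 - 1 ∧ 0 ≤ hp - d1 - p2 - 1) ∨ (0 ≤ b1 + b2 - 1 ∧ 0 ≤ -hp + d1 + p2 ∧ 0 ≤ hp - d1 - p2 ∧ 0 ≤ -e - p3 - 2) ∨ (0 ≤ b1 + b2 - 1 ∧ 0 ≤ -hp + d1 + p2 ∧ 0 ≤ hp - d1 - p2 ∧ 0 ≤ e + p3 + 1 ∧ 0 ≤ -e - p3 - 1 ∧ 0 ≤ n3 - b3)) ∨ (0 ≤ h3 - d1 - 1 ∨ (0 ≤ -h3 + d1 ∧ 0 ≤ h3 - d1 ∧ 0 ≤ k - e - 1)) ∨ (0 ≤ h - p4 - 1 ∨ (0 ≤ -h + p4 ∧ 0 ≤ h - p4 ∧ 0 ≤ -p5 - 2) ∨ (0 ≤ -h + p4 ∧ 0 ≤ h - p4 ∧ 0 ≤ p5 + 1 ∧ 0 ≤ -p5 - 1 ∧ 0 ≤ m - 1)))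
    (D43 : ((0 ≤ b1 - 1 ∧ 0 ≤ -d1 - p0 - 2) ∨ (0 ≤ b1 - 1 ∧ 0 ≤ d1 + p0 + 1 ∧ 0 ≤ -d1 - p0 - 1 ∧ 0 ≤ n2 - b2 + n3 - b3 - 1) ∨ (0 ≤ b1 - 1 ∧ 0 ≤ d1 + p0 + 1 ∧ 0 ≤ -d1 - p0 - 1 ∧ 0 ≤ -n2 + b2 - n3 + b3 ∧ 0 ≤ n2 - b2 + n3 - b3 ∧ 0 ≤ n2 - b2 - e - p1 - 1)) ∨ ((0 ≤ b1 + b2 - 1 ∧ 0 ≤ hp - d1 - p2 - 1) ∨ (0 ≤ b1 + b2 - 1 ∧ 0 ≤ -hp + d1 + p2 ∧ 0 ≤ hp - d1 - p2 ∧ 0 ≤ n3 - b3 - 1) ∨ (0 ≤ b1 + b2 - 1 ∧ 0 ≤ -hp + d1 + p2 ∧ 0 ≤ hp - d1 - p2 ∧ 0 ≤ -n3 + b3 ∧ 0 ≤ n3 - b3 ∧ 0 ≤ -e - p3 - 1)) ∨ (0 ≤ h3 - d1 - 1) ∨ (0 ≤ h - p4 - 1 ∨ (0 ≤ -h + p4 ∧ 0 ≤ h - p4 ∧ 0 ≤ m - 2) ∨ (0 ≤ -h + p4 ∧ 0 ≤ h - p4 ∧ 0 ≤ -m + 1 ∧ 0 ≤ m - 1 ∧ 0 ≤ -p5 - 1)))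
    (D45 : 0 ≤ a2 - 2 ∨ 0 ≤ -a2 ∨ 0 ≤ a3 - a1 - 2 ∨ 0 ≤ -a3 + a1 ∨ 0 ≤ b1 - 1 ∨ 0 ≤ b2 - 2 ∨ 0 ≤ -b2 ∨ 0 ≤ b3 - 2 * a1 - 3 ∨ 0 ≤ -b3 + 2 * a1 + 1 ∨ 0 ≤ n3 - 2 * a1 - 4 ∨ 0 ≤ -n3 + 2 * a1 + 2 ∨ 0 ≤ 2 * a1 - n1 ∨ 0 ≤ -n2 + 2 ∨ 0 ≤ -a1) : False := by
  have E1 := D1
  have E2 := D2
  have E3 := D3
  have E5 := D5
  have E7 := D7
  have E8 : 0 ≤ m - 1 := by
    rcases D8 with H8 | H8
    · exact H8
    · linarith only [B20, B17, H8, B36, B11, B16, B19]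
  have E9 := D9
  have E14 := D14
  have E17 := D17
  have E18 := D18
  have E21 := D21
  have E22 := D22
  have E26 : (0 ≤ -m + 1 ∧ 0 ≤ p4) := by
    rcases D26 with H26 | H26
    · linarith only [B36, H26.1]
    · exact H26
  have E30 : (0 ≤ -m + 1 ∧ 0 ≤ p5) := by
    rcases D30 with H30 | H30
    · linarith only [B36, H30.1]
    · exact H30
  have E34 : 0 ≤ -h ∨ 0 ≤ -m := by
    rcases D34 with H34 | H34 | H34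
    · exact Or.inl H34
    · linarith only [B40, H34]
    · exact Or.inr H34
  have E35 : 0 ≤ -b1 ∨ 0 ≤ -n2 + b2 - k - e ∨ 0 ≤ -n2 + b2 - n3 + b3 + 2 := by
    rcases D35 with H35 | H35 | H35 | H35
    · exact Or.inl H35
    · linarith only [B23, B38, H35]
    · exact Or.inr (Or.inl H35)
    · exact Or.inr (Or.inr H35)
  have E36 := D36
  have E37 : 0 ≤ -b1 - b2 ∨ 0 ≤ -hp ∨ 0 ≤ -n3 + b3 := by
    rcases D37 with H37 | H37 | H37 | H37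
    · exact Or.inl H37
    · exact Or.inr (Or.inl H37)
    · linarith only [B40, H37]
    · exact Or.inr (Or.inr H37)
  have E38 := D38
  have E39 : 0 ≤ -b1 ∨ 0 ≤ -n2 + b2 - k ∨ 0 ≤ -n2 + b2 - n3 + b3 + 1 := by
    rcases D39 with H39 | H39 | H39 | H39
    · exact Or.inl H39
    · linarith only [B23, B38, H39]
    · exact Or.inr (Or.inl H39)
    · exact Or.inr (Or.inr H39)
  have E40 := D40
  have E41 : (0 ≤ b1 - 1 ∧ 0 ≤ n2 - b2 + n3 - b3 - 1) ∨ (0 ≤ b1 - 1 ∧ 0 ≤ -n2 + b2 - n3 + b3 ∧ 0 ≤ n2 - b2 + n3 - b3 ∧ 0 ≤ -d1 - p0 - 2) ∨ (0 ≤ b1 - 1 ∧ 0 ≤ -n2 + b2 - n3 + b3 ∧ 0 ≤ n2 - b2 + n3 - b3 ∧ 0 ≤ d1 + p0 + 1 ∧ 0 ≤ -d1 - p0 - 1 ∧ 0 ≤ n2 - b2 - e - p1 - 1) ∨ (0 ≤ b1 + b2 - 1 ∧ 0 ≤ n3 - b3 - 1) ∨ (0 ≤ b1 + b2 - 1 ∧ 0 ≤ -n3 + b3 ∧ 0 ≤ n3 - b3 ∧ 0 ≤ hp - d1 - p2 - 1) ∨ (0 ≤ b1 + b2 - 1 ∧ 0 ≤ -n3 + b3 ∧ 0 ≤ n3 - b3 ∧ 0 ≤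 -hp + d1 + p2 ∧ 0 ≤ hp - d1 - p2 ∧ 0 ≤ -e - p3 - 1) ∨ (0 ≤ -m + 1 ∧ 0 ≤ m - 1 ∧ 0 ≤ h - p4 - 1) ∨ (0 ≤ -m + 1 ∧ 0 ≤ m - 1 ∧ 0 ≤ -h + p4 ∧ 0 ≤ h - p4 ∧ 0 ≤ -p5 - 1) := by
    rcases D41 with (H41 | H41 | H41) | (H41 | H41 | H41) | (H41 | H41 | H41)
    · exact Or.inl H41
    · exact Or.inr (Or.inl H41)
    · exact Or.inr (Or.inr (Or.inl H41))
    · exact Or.inr (Or.inr (Or.inr (Or.inl H41)))
    · exact Or.inr (Or.inr (Or.inr (Or.inr (Or.inl H41))))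
    · exact Or.inr (Or.inr (Or.inr (Or.inr (Or.inr (Or.inl H41)))))
    · linarith only [B36, H41]
    · exact Or.inr (Or.inr (Or.inr (Or.inr (Or.inr (Or.inr (Or.inl H41))))))
    · exact Or.inr (Or.inr (Or.inr (Or.inr (Or.inr (Or.inr (Or.inr H41))))))
  have E42 : (0 ≤ b1 - 1 ∧ 0 ≤ -d1 - p0 - 2) ∨ (0 ≤ b1 - 1 ∧ 0 ≤ d1 + p0 + 1 ∧ 0 ≤ -d1 - p0 - 1 ∧ 0 ≤ n2 - b2 - e - p1 - 2) ∨ (0 ≤ b1 - 1 ∧ 0 ≤ d1 + p0 + 1 ∧ 0 ≤ -d1 - p0 - 1 ∧ 0 ≤ -n2 + b2 + e + p1 + 1 ∧ 0 ≤ n2 - b2 - e - p1 - 1 ∧ 0 ≤ n2 - b2 + n3 - b3) ∨ (0 ≤ b1 + b2 - 1 ∧ 0 ≤ hp - d1 - p2 - 1) ∨ (0 ≤ b1 + b2 - 1 ∧ 0 ≤ -hp + d1 + p2 ∧ 0 ≤ hp - d1 - p2 ∧ 0 ≤ -e - p3 - 2) ∨ (0 ≤ b1 + b2 - 1 ∧ 0 ≤ -hp + d1 + p2 ∧ 0 ≤ hp - d1 - p2 ∧ 0 ≤ e + p3 + 1 ∧ 0 ≤ -e - p3 - 1 ∧ 0 ≤ n3 - b3) ∨ 0 ≤ h3 - d1 - 1 ∨ (0 ≤ -h3 + d1 ∧ 0 ≤ h3 - d1 ∧ 0 ≤ k - e - 1) ∨ 0 ≤ h - p4 - 1 ∨ (0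 ≤ -h + p4 ∧ 0 ≤ h - p4 ∧ 0 ≤ -p5 - 2) ∨ (0 ≤ -h + p4 ∧ 0 ≤ h - p4 ∧ 0 ≤ p5 + 1 ∧ 0 ≤ -p5 - 1 ∧ 0 ≤ m - 1) := by
    rcases D42 with (H42 | H42 | H42) | (H42 | H42 | H42) | (H42 | H42) | (H42 | H42 | H42)
    · exact Or.inl H42
    · exact Or.inr (Or.inl H42)
    · exact Or.inr (Or.inr (Or.inl H42))
    · exact Or.inr (Or.inr (Or.inr (Or.inl H42)))
    · exact Or.inr (Or.inr (Or.inr (Or.inr (Or.inl H42))))
    · exact Or.inr (Or.inr (Or.inr (Or.inr (Or.inr (Or.inl H42)))))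
    · exact Or.inr (Or.inr (Or.inr (Or.inr (Or.inr (Or.inr (Or.inl H42))))))
    · exact Or.inr (Or.inr (Or.inr (Or.inr (Or.inr (Or.inr (Or.inr (Or.inl H42)))))))
    · exact Or.inr (Or.inr (Or.inr (Or.inr (Or.inr (Or.inr (Or.inr (Or.inr (Or.inl H42))))))))
    · exact Or.inr (Or.inr (Or.inr (Or.inr (Or.inr (Or.inr (Or.inr (Or.inr (Or.inr (Or.inl H42)))))))))
    · exact Or.inr (Or.inr (Or.inr (Or.inr (Or.inr (Or.inr (Or.inr (Or.inr (Or.inr (Or.inr H42)))))))))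
  have E43 : (0 ≤ b1 - 1 ∧ 0 ≤ -d1 - p0 - 2) ∨ (0 ≤ b1 - 1 ∧ 0 ≤ d1 + p0 + 1 ∧ 0 ≤ -d1 - p0 - 1 ∧ 0 ≤ n2 - b2 + n3 - b3 - 1) ∨ (0 ≤ b1 - 1 ∧ 0 ≤ d1 + p0 + 1 ∧ 0 ≤ -d1 - p0 - 1 ∧ 0 ≤ -n2 + b2 - n3 + b3 ∧ 0 ≤ n2 - b2 + n3 - b3 ∧ 0 ≤ n2 - b2 - e - p1 - 1) ∨ (0 ≤ b1 + b2 - 1 ∧ 0 ≤ hp - d1 - p2 - 1) ∨ (0 ≤ b1 + b2 - 1 ∧ 0 ≤ -hp + d1 + p2 ∧ 0 ≤ hp - d1 - p2 ∧ 0 ≤ n3 - b3 - 1) ∨ (0 ≤ b1 + b2 - 1 ∧ 0 ≤ -hp + d1 + p2 ∧ 0 ≤ hp - d1 - p2 ∧ 0 ≤ -n3 + b3 ∧ 0 ≤ n3 - b3 ∧ 0 ≤ -e - p3 - 1) ∨ 0 ≤ h3 - d1 - 1 ∨ 0 ≤ h - p4 - 1 ∨ (0 ≤ -h + p4 ∧ 0 ≤ h - p4 ∧ 0 ≤ -m + 1 ∧ 0 ≤ m - 1 ∧ 0 ≤ -p5 - 1) := by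
    rcases D43 with (H43 | H43 | H43) | (H43 | H43 | H43) | H43 | (H43 | H43 | H43)
    · exact Or.inl H43
    · exact Or.inr (Or.inl H43)
    · exact Or.inr (Or.inr (Or.inl H43))
    · exact Or.inr (Or.inr (Or.inr (Or.inl H43)))
    · exact Or.inr (Or.inr (Or.inr (Or.inr (Or.inl H43))))
    · exact Or.inr (Or.inr (Or.inr (Or.inr (Or.inr (Or.inl H43)))))
    · exact Or.inr (Or.inr (Or.inr (Or.inr (Or.inr (Or.inr (Or.inl H43))))))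
    · exact Or.inr (Or.inr (Or.inr (Or.inr (Or.inr (Or.inr (Or.inr (Or.inl H43)))))))
    · linarith only [B36, H43.2.2]
    · exact Or.inr (Or.inr (Or.inr (Or.inr (Or.inr (Or.inr (Or.inr (Or.inr H43)))))))
  have E45 : 0 ≤ a2 - 2 ∨ 0 ≤ -a2 ∨ 0 ≤ a3 - a1 - 2 ∨ 0 ≤ -a3 + a1 ∨ 0 ≤ b1 - 1 ∨ 0 ≤ b2 - 2 ∨ 0 ≤ -b2 ∨ 0 ≤ b3 - 2 * a1 - 3 ∨ 0 ≤ -b3 + 2 * a1 + 1 ∨ 0 ≤ n3 - 2 * a1 - 4 ∨ 0 ≤ -n3 + 2 * a1 + 2 ∨ 0 ≤ 2 * a1 - n1 ∨ 0 ≤ -n2 + 2 := by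
    rcases D45 with H45 | H45 | H45 | H45 | H45 | H45 | H45 | H45 | H45 | H45 | H45 | H45 | H45 | H45
    · exact Or.inl H45
    · exact Or.inr (Or.inl H45)
    · exact Or.inr (Or.inr (Or.inl H45))
    · exact Or.inr (Or.inr (Or.inr (Or.inl H45)))
    · exact Or.inr (Or.inr (Or.inr (Or.inr (Or.inl H45))))
    · exact Or.inr (Or.inr (Or.inr (Or.inr (Or.inr (Or.inl H45)))))
    · exact Or.inr (Or.inr (Or.inr (Or.inr (Or.inr (Or.inr (Or.inl H45))))))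
    · exact Or.inr (Or.inr (Or.inr (Or.inr (Or.inr (Or.inr (Or.inr (Or.inl H45)))))))
    · exact Or.inr (Or.inr (Or.inr (Or.inr (Or.inr (Or.inr (Or.inr (Or.inr (Or.inl H45))))))))
    · exact Or.inr (Or.inr (Or.inr (Or.inr (Or.inr (Or.inr (Or.inr (Or.inr (Or.inr (Or.inl H45)))))))))
    · exact Or.inr (Or.inr (Or.inr (Or.inr (Or.inr (Or.inr (Or.inr (Or.inr (Or.inr (Or.inr (Or.inl H45))))))))))
    · exact Or.inr (Or.inr (Or.inr (Or.inr (Or.inr (Or.inr (Or.inr (Or.inr (Or.inr (Or.inr (Or.inr (Or.inl H45)))))))))))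
    · exact Or.inr (Or.inr (Or.inr (Or.inr (Or.inr (Or.inr (Or.inr (Or.inr (Or.inr (Or.inr (Or.inr (Or.inr H45)))))))))))
    · linarith only [B3, B23, H45, B22]
  have H26 := E26
  have H30 := E30
  have H8 := E8
  rcases E34 with H34 | H34
  · rcases E7 with H7 | H7
    · linarith only [B23, H34, B28, B38, H7]
    · rcases E3 with H3 | H3
      · linarith only [B27, B23, B17, H7, H34, B28, B16, B38, H3]
      · rcases E18 with H18 | H18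
        · rcases E14 with H14 | H14
          · rcases E35 with H35 | H35 | H35
            · rcases E41 with H41 | H41 | H41 | H41 | H41 | H41 | H41 | H41
              · linarith only [H41.1, H35]
              · linarith only [H41.2.1, H14.1]
              · linarith only [H41.2.1, H14.1]
              · rcases E37 with H37 | H37 | H37
                · linarith only [H37, H41.1]
                · rcases E36 with H36 | H36 | H36 | H36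
                  · linarith only [H36, H41.1]
                  · linarith only [H41.1, H35, B38, H36, H3]
                  · rcases E5 with H5 | H5
                    · linarith only [H41.1, H36, B21, H7, B32, H34, B28, B16, B38, B40, H5, H35]
                    · rcases E17 with H17 | H17
                      · rcases E38 with H38 | H38 | H38 | H38
                        · linarith only [H38, H41.1]
                        · linarith only [H35, H3, B38, H38, B23, H41.1]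
                        · rcases E2 with H2 | H2
                          · linarith only [H34, B29, H38, B38, H2, H5, H7]
                          · linarith only [H41.1, B29, H35, B16, B38, H7, H38, B21, H34, H2, H5]
                        · linarith only [H17.1, H38]
                      · rcases E21 with H21 | H21
                        · linarith only [H21.1, H17.1]
                        · rcases E42 with H42 | H42 | H42 | H42 | H42 | H42 | H42 | H42 | H42 | H42 | H42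
                          · linarith only [H42.1, H35]
                          · linarith only [H42.1, H35]
                          · linarith only [H42.1, H35]
                          · linarith only [H42.2, H37, H17.2]
                          · linarith only [H42.2.2.2, H21.2]
                          · linarith only [H42.2.2.2.2.1, H21.2]
                          · rcases E45 with H45 | H45 | H45 | H45 | H45 | H45 | H45 | H45 | H45 | H45 | H45 | H45 | H45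
                            · linarith only [H45, H34, H7]
                            · linarith only [H41.1, B29, H35, B16, H45, H36, H42, B21, H5]
                            · linarith only [H34, B16, H5, H7, H36, H45, H41.1]
                            · linarith only [H45, H34, H35, B21, H42, B29, H7]
                            · linarith only [H45, H35]
                            · linarith only [H45, H37, H3]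
                            · linarith only [H41.1, H45, H35]
                            · linarith only [H45, H7, H5, H34, B25, H36, H41.1, B18, B16]
                            · linarith only [H45, B20, H35, H3, H37, H42, B19, B21, B29]
                            · linarith only [H45, H34, H7, H41.1, B25, H5, H36, B16, B18, H17.1]
                            · linarith only [H45, B19, H42, H35, H3, H37, B20, H18.1, B21, B29]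
                            · linarith only [H45, H42, B28, H35, B21]
                            · linarith only [H41.1, B29, H35, B16, B32, H45, H36, H42, B40, B21, H5]
                          · linarith only [H36, H42.2.2]
                          · linarith only [H34, H26.2, H42]
                          · linarith only [H30.2, H42.2.2]
                          · linarith only [H30.2, H42.2.2.2.1]
                  · linarith only [H18.1, H36]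
                · linarith only [H18.1, H37]
              · linarith only [H18.1, H41.2.1]
              · linarith only [H18.1, H41.2.1]
              · linarith only [H34, H26.2, H41.2.2]
              · linarith only [H30.2, H41.2.2.2.2]
            · rcases E5 with H5 | H5
              · linarith only [B40, B17, B21, B38, B32, B28, B16, H35, H5]
              · linarith only [B40, B17, B21, B38, B32, H34, H7, B16, H5, H35, B29]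
            · rcases E37 with H37 | H37 | H37
              · linarith only [B3, H35, H37, B32, B40, H18.1, B1]
              · rcases E1 with H1 | H1
                · linarith only [H35, H37, B32, H3, B40, H18.1, H1.1]
                · rcases E36 with H36 | H36 | H36 | H36
                  · linarith only [B3, H36, H1.1]
                  · linarith only [H1.1, H3, B38, H36]
                  · rcases E5 with H5 | H5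
                    · linarith only [H35, B16, B32, B28, H36, B40, H18.1, B21, H5, B38]
                    · linarith only [B29, H35, B16, B32, H3, H37, H36, B38, B40, H18.1, B21, H5]
                  · linarith only [H18.1, H36]
              · linarith only [H18.1, H37]
          · linarith only [H14.1, H18.1, B10]
        · rcases E22 with H22 | H22
          · linarith only [H22.1, H18.1]
          · rcases E9 with H9 | H9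
            · rcases E41 with H41 | H41 | H41 | H41 | H41 | H41 | H41 | H41
              · rcases E39 with H39 | H39 | H39
                · linarith only [H39, H41.1]
                · rcases E5 with H5 | H5
                  · linarith only [H9.1, B40, B32, H18.1, B6, H39, H5]
                  · linarith only [H9.1, B40, H39, H5, B33, H18.1]
                · linarith only [H39, H9.1]
              · linarith only [H41.2.1, H9.1]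
              · linarith only [H41.2.1, H9.1]
              · linarith only [H41.2, H18.1]
              · linarith only [B27, H41.2.2.2, H7, H34, B21, B16, B17, H18.2]
              · linarith only [H22.2, B17, H41.2.2.2.2.2]
              · linarith only [H34, H26.2, H41.2.2]
              · linarith only [H30.2, H41.2.2.2.2]
            · rcases E43 with H43 | H43 | H43 | H43 | H43 | H43 | H43 | H43 | H43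
              · linarith only [H43.2, H9.2]
              · linarith only [H43.2.2.1, H9.2]
              · linarith only [H43.2.2.1, H9.2]
              · linarith only [B27, B21, H34, B16, H7, H43.2, B17, H18.2]
              · linarith only [H43.2.2.2, H18.1]
              · linarith only [H22.2, B17, H43.2.2.2.2.2]
              · rcases E41 with H41 | H41 | H41 | H41 | H41 | H41 | H41 | H41
                · rcases E40 with H40 | H40 | H40 | H40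
                  · linarith only [H41.1, H40]
                  · linarith only [H43, H40]
                  · rcases E5 with H5 | H5
                    · linarith only [B40, B21, H43, B32, B28, B16, H40, H5]
                    · linarith only [B40, B29, B21, H43, B32, H34, H7, B16, H40, H5]
                  · linarith only [H40, H41.2]
                · linarith only [H41.2.2.2, H9.2]
                · linarith only [H41.2.2.2.2.1, H9.2]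
                · linarith only [H41.2, H18.1]
                · linarith only [B27, B21, H34, B16, H7, H41.2.2.2, B17, H18.2]
                · linarith only [H22.2, B17, H41.2.2.2.2.2]
                · linarith only [H34, H26.2, H41.2.2]
                · linarith only [H30.2, H41.2.2.2.2]
              · linarith only [H34, H26.2, H43]
              · linarith only [H30.2, H43.2.2.2.2]
  · linarith only [H34, H8]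

theorem g14 {e m p5 : ℤ}
    (B36 : 0 ≤ -m + 1)
    (B39 : 0 ≤ -p5 - 1)
    (D30 : (0 ≤ m - 2 ∧ 0 ≤ -e - p5) ∨ (0 ≤ -m + 1 ∧ 0 ≤ p5)) : False := by
  have E30 : False := by
    rcases D30 with H30 | H30
    · linarith only [B36, H30.1]
    · linarith only [B39, H30.2]
  exact E30

theorem g15 {a1 a2 a3 b1 b2 b3 d1 e g h m n2 n3 p0 p1 p4 p5 y : ℤ}
    (B2 : 0 ≤ a3)
    (B10 : 0 ≤ n2 - b2)
    (B11 : 0 ≤ n3 - b3)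
    (B16 : 0 ≤ a1 + a2 - b1 - b2 - e)
    (B17 : 0 ≤ e - 1)
    (B19 : 0 ≤ -a1 - a2 - a3 + b1 + b2 + b3 - y)
    (B20 : 0 ≤ y - 1)
    (B23 : 0 ≤ d1 - 1)
    (B36 : 0 ≤ -m + 1)
    (B39 : 0 ≤ b1 - 1)
    (B40 : 0 ≤ n2 - b2 - e - p1 - 1)
    (D0 : (0 ≤ a1 - 1 ∧ 0 ≤ n2 - a2 - 1) ∨ (0 ≤ b1 - 1 ∧ 0 ≤ n2 - b2 - 1))
    (D2 : 0 ≤ d1 - 2 ∨ 0 ≤ e - 2)
    (D6 : 0 ≤ g - n2 + a2 + 1 ∨ 0 ≤ g - a3)
    (D8 : 0 ≤ m - 1 ∨ 0 ≤ m - n3 + a3)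
    (D9 : (0 ≤ n2 - b2 + n3 - b3 - 2 ∧ 0 ≤ -2 * d1 - p0) ∨ (0 ≤ -n2 + b2 - n3 + b3 + 1 ∧ 0 ≤ p0 + d1))
    (D13 : (0 ≤ n2 - b2 + n3 - b3 - 2 ∧ 0 ≤ -2 * e - p1) ∨ (0 ≤ -n2 + b2 - n3 + b3 + 1 ∧ 0 ≤ p1 + e))
    (D26 : (0 ≤ m - 2 ∧ 0 ≤ -d1 - p4) ∨ (0 ≤ -m + 1 ∧ 0 ≤ p4))
    (D30 : (0 ≤ m - 2 ∧ 0 ≤ -e - p5) ∨ (0 ≤ -m + 1 ∧ 0 ≤ p5))
    (D33 : 0 ≤ h - p4 - 1 ∨ 0 ≤ -p5 - 1)
    (D34 : 0 ≤ n2 - b2 - e - p1 - 2 ∨ 0 ≤ -d1 - p0 - 1)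
    (D35 : 0 ≤ -b1 ∨ 0 ≤ -h - d1 ∨ 0 ≤ -n2 + b2 - e + 1 ∨ 0 ≤ -n2 + b2 - n3 + b3 - m + 2)
    (D36 : 0 ≤ -b1 ∨ 0 ≤ -d1 + 1 ∨ 0 ≤ -n2 + b2 - g - e ∨ 0 ≤ -n2 + b2 - n3 + b3 + 1) : False := by
  have E0 := D0
  have E2 := D2
  have E6 := D6
  have E8 : 0 ≤ m - 1 := by
    rcases D8 with H8 | H8
    · exact H8
    · linarith only [B20, B17, H8, B36, B11, B16, B19]
  have E9 := D9
  have E13 := D13
  have E26 : (0 ≤ -m + 1 ∧ 0 ≤ p4) := by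
    rcases D26 with H26 | H26
    · linarith only [B36, H26.1]
    · exact H26
  have E30 : (0 ≤ -m + 1 ∧ 0 ≤ p5) := by
    rcases D30 with H30 | H30
    · linarith only [B36, H30.1]
    · exact H30
  have E33 := D33
  have E34 := D34
  have E35 : 0 ≤ -h - d1 ∨ 0 ≤ -n2 + b2 - e + 1 ∨ 0 ≤ -n2 + b2 - n3 + b3 - m + 2 := by
    rcases D35 with H35 | H35 | H35 | H35
    · linarith only [B39, H35]
    · exact Or.inl H35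
    · exact Or.inr (Or.inl H35)
    · exact Or.inr (Or.inr H35)
  have E36 : 0 ≤ -d1 + 1 ∨ 0 ≤ -n2 + b2 - g - e ∨ 0 ≤ -n2 + b2 - n3 + b3 + 1 := by
    rcases D36 with H36 | H36 | H36 | H36
    · linarith only [B39, H36]
    · exact Or.inl H36
    · exact Or.inr (Or.inl H36)
    · exact Or.inr (Or.inr H36)
  have H30 := E30
  rcases E33 with H33 | H33
  · have H26 := E26
    have H8 := E8
    rcases E35 with H35 | H35 | H35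
    · linarith only [H26.2, B23, H33, H35]
    · rcases E0 with H0 | H0
      · rcases E2 with H2 | H2
        · rcases E13 with H13 | H13
          · rcases E36 with H36 | H36 | H36
            · linarith only [H2, H36]
            · rcases E6 with H6 | H6
              · linarith only [H0.2, B17, H36, H6, B10]
              · linarith only [B2, H6, H36, B17, B10]
            · linarith only [H13.1, H36]
          · linarith only [B17, H35, B40, H13.2]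
        · linarith only [H2, H35, B10]
      · linarith only [B17, H35, H0.2]
    · rcases E9 with H9 | H9
      · linarith only [H9.1, H35, H8]
      · rcases E13 with H13 | H13
        · linarith only [H13.1, H9.1]
        · rcases E34 with H34 | H34
          · linarith only [H13.2, B11, H34, H9.1]
          · linarith only [H34, H9.2]
  · linarith only [H30.2, H33]

theorem g16 {a1 a2 a3 b1 b2 b3 d1 e g h h3 hp k m n1 n2 n3 p3 p4 p5 : ℤ}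
    (B2 : 0 ≤ a3)
    (B4 : 0 ≤ b2)
    (B6 : 0 ≤ n1 - a1)
    (B15 : 0 ≤ e - a1 - a2 + b1 + b2)
    (B16 : 0 ≤ a1 + a2 - b1 - b2 - e)
    (B17 : 0 ≤ e - 1)
    (B21 : 0 ≤ d1 - a1 + b1)
    (B22 : 0 ≤ a1 - b1 - d1)
    (B23 : 0 ≤ d1 - 1)
    (B34 : 0 ≤ n1 - a1 - h)
    (B35 : 0 ≤ a2 - h - 1)
    (B36 : 0 ≤ -m + 1)
    (B39 : 0 ≤ b1 + b2 - 1)
    (B40 : 0 ≤ -e - p3 - 1)
    (D0 : (0 ≤ a1 - 1 ∧ 0 ≤ n2 - a2 - 1) ∨ (0 ≤ b1 - 1 ∧ 0 ≤ n2 - b2 - 1))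
    (D1 : (0 ≤ a2 - 1 ∧ 0 ≤ n3 - a3 - 1) ∨ (0 ≤ b2 - 1 ∧ 0 ≤ n3 - b3 - 1))
    (D2 : 0 ≤ d1 - 2 ∨ 0 ≤ e - 2)
    (D3 : 0 ≤ hp - n1 + b1 ∨ 0 ≤ hp - b2 + 1)
    (D4 : 0 ≤ h3 - n1 + a1 ∨ 0 ≤ h3 - a2 - a3 + 1)
    (D5 : 0 ≤ k - n1 + a1 - n2 + a2 ∨ 0 ≤ k - a3 + 1)
    (D6 : 0 ≤ g - n2 + a2 + 1 ∨ 0 ≤ g - a3)
    (D21 : (0 ≤ n3 - b3 - 2 ∧ 0 ≤ -2 * e - p3) ∨ (0 ≤ -n3 + b3 + 1 ∧ 0 ≤ p3 + e))
    (D26 : (0 ≤ m - 2 ∧ 0 ≤ -d1 - p4) ∨ (0 ≤ -m + 1 ∧ 0 ≤ p4))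
    (D30 : (0 ≤ m - 2 ∧ 0 ≤ -e - p5) ∨ (0 ≤ -m + 1 ∧ 0 ≤ p5))
    (D33 : 0 ≤ h - p4 - 1 ∨ 0 ≤ -p5 - 1)
    (D35 : 0 ≤ -b1 - b2 ∨ 0 ≤ -hp - d1 ∨ 0 ≤ -g - e ∨ 0 ≤ -n3 + b3 + 1)
    (D36 : 0 ≤ -b1 ∨ 0 ≤ -h3 - d1 ∨ 0 ≤ -n2 + b2 - k - e ∨ 0 ≤ -n2 + b2 - n3 + b3 + 2) : False := by
  have E0 := D0
  have E1 := D1
  have E2 := D2
  have E3 := D3
  have E4 := D4
  have E5 := D5
  have E6 := D6
  have E21 : (0 ≤ n3 - b3 - 2 ∧ 0 ≤ -2 * e - p3) := by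
    rcases D21 with H21 | H21
    · exact H21
    · linarith only [B40, H21.2]
  have E26 : (0 ≤ -m + 1 ∧ 0 ≤ p4) := by
    rcases D26 with H26 | H26
    · linarith only [B36, H26.1]
    · exact H26
  have E30 : (0 ≤ -m + 1 ∧ 0 ≤ p5) := by
    rcases D30 with H30 | H30
    · linarith only [B36, H30.1]
    · exact H30
  have E33 := D33
  have E35 : 0 ≤ -hp - d1 ∨ 0 ≤ -g - e ∨ 0 ≤ -n3 + b3 + 1 := by
    rcases D35 with H35 | H35 | H35 | H35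
    · linarith only [H35, B39]
    · exact Or.inl H35
    · exact Or.inr (Or.inl H35)
    · exact Or.inr (Or.inr H35)
  have E36 := D36
  have H26 := E26
  have H30 := E30
  rcases E33 with H33 | H33
  · have H21 := E21
    rcases E0 with H0 | H0
    · rcases E35 with H35 | H35 | H35
      · rcases E3 with H3 | H3
        · linarith only [H26.2, B34, B22, H35, B23, H33, H3]
        · rcases E1 with H1 | H1
          · rcases E2 with H2 | H2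
            · linarith only [H35, H3, H2, B4]
            · rcases E36 with H36 | H36 | H36 | H36
              · linarith only [H3, H36, H35, B23, B39]
              · rcases E4 with H4 | H4
                · linarith only [H26.2, B34, H36, B23, H33, H4]
                · linarith only [B35, H26.2, H36, H4, B23, H33, B2]
              · rcases E5 with H5 | H5
                · linarith only [H0.2, H1.1, H3, H35, B21, B6, H36, B16, H5, H2]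
                · linarith only [H0.2, B2, B35, H3, H35, B21, H36, B16, H5, H2, H33, H26.2]
              · linarith only [B35, H21.1, H3, H35, B21, H0.2, B16, H36, H2, H33, H26.2]
          · linarith only [H35, H3, B23, H1.1]
      · rcases E6 with H6 | H6
        · linarith only [H35, H0.2, B17, H6]
        · linarith only [B2, H6, B17, H35]
      · linarith only [H21.1, H35]
    · rcases E36 with H36 | H36 | H36 | H36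
      · linarith only [H0.1, H36]
      · rcases E4 with H4 | H4
        · linarith only [H26.2, B34, H36, B23, H33, H4]
        · linarith only [B35, H26.2, H36, H4, B23, H33, B2]
      · rcases E5 with H5 | H5
        · linarith only [B22, B34, B15, H26.2, H36, B23, H5, H33, H0.2]
        · linarith only [H0.2, B2, H36, B17, H5]
      · linarith only [H21.1, H0.2, H36]
  · linarith only [H33, H30.2]

theorem g17_l0 {a1 a2 a3 b1 b2 d1 e g h h3 hp k m n1 n2 p4 : ℤ}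
    (B15 : 0 ≤ e - a1 - a2 + b1 + b2)
    (B17 : 0 ≤ e - 1)
    (B22 : 0 ≤ a1 - b1 - d1)
    (B28 : 0 ≤ n1 - a1 - h3)
    (B30 : 0 ≤ n1 - a1 + n2 - a2 - k)
    (B31 : 0 ≤ a3 - k - 1)
    (B34 : 0 ≤ n1 - a1 - h)
    (B35 : 0 ≤ a2 - h - 1)
    (E3 : 0 ≤ hp - n1 + b1 ∨ 0 ≤ hp - b2 + 1)
    (E4 : 0 ≤ h3 - n1 + a1 ∨ 0 ≤ h3 - a2 - a3 + 1)
    (H6 : 0 ≤ g - n2 + a2 + 1)
    (H26 : 0 ≤ -m + 1 ∧ 0 ≤ p4)
    (H33 : 0 ≤ h - p4 - 1)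
    (H35 : 0 ≤ -g)
    (H36 : 0 ≤ -hp + d1 - h3 - 1)
    (H42 : 0 ≤ k - e - 1) : False := by
  rcases E3 with H3 | H3
  · rcases E4 with H4 | H4
    · linarith only [H26.2, B22, B34, H3, H36, H4, H33]
    · linarith only [B31, B35, H3, H42, B28, H26.2, H36, B22, H4, B17, H33]
  · rcases E4 with H4 | H4
    · linarith only [B35, H3, B22, H4, B15, H35, B30, H36, H42, H26.2, H33, H6]
    · linarith only [B31, B35, H3, H42, H26.2, H36, B22, H4, H33, B15]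

theorem g17 {a1 a2 a3 b1 b2 b3 d1 e g h h3 hp k m n1 n2 n3 p0 p1 p2 p3 p4 p5 y : ℤ}
    (B3 : 0 ≤ b1)
    (B10 : 0 ≤ n2 - b2)
    (B11 : 0 ≤ n3 - b3)
    (B12 : 0 ≤ n1 - 1)
    (B15 : 0 ≤ e - a1 - a2 + b1 + b2)
    (B16 : 0 ≤ a1 + a2 - b1 - b2 - e)
    (B17 : 0 ≤ e - 1)
    (B18 : 0 ≤ y + a1 + a2 + a3 - b1 - b2 - b3)
    (B19 : 0 ≤ -a1 - a2 - a3 + b1 + b2 + b3 - y)
    (B20 : 0 ≤ y - 1)
    (B22 : 0 ≤ a1 - b1 - d1)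
    (B25 : 0 ≤ -y + 1)
    (B28 : 0 ≤ n1 - a1 - h3)
    (B30 : 0 ≤ n1 - a1 + n2 - a2 - k)
    (B31 : 0 ≤ a3 - k - 1)
    (B34 : 0 ≤ n1 - a1 - h)
    (B35 : 0 ≤ a2 - h - 1)
    (B36 : 0 ≤ -m + 1)
    (B39 : 0 ≤ k - e)
    (D0 : (0 ≤ a1 - 1 ∧ 0 ≤ n2 - a2 - 1) ∨ (0 ≤ b1 - 1 ∧ 0 ≤ n2 - b2 - 1))
    (D3 : 0 ≤ hp - n1 + b1 ∨ 0 ≤ hp - b2 + 1)
    (D4 : 0 ≤ h3 - n1 + a1 ∨ 0 ≤ h3 - a2 - a3 + 1)
    (D6 : 0 ≤ g - n2 + a2 + 1 ∨ 0 ≤ g - a3)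
    (D8 : 0 ≤ m - 1 ∨ 0 ≤ m - n3 + a3)
    (D9 : (0 ≤ n2 - b2 + n3 - b3 - 2 ∧ 0 ≤ -2 * d1 - p0) ∨ (0 ≤ -n2 + b2 - n3 + b3 + 1 ∧ 0 ≤ p0 + d1))
    (D13 : (0 ≤ n2 - b2 + n3 - b3 - 2 ∧ 0 ≤ -2 * e - p1) ∨ (0 ≤ -n2 + b2 - n3 + b3 + 1 ∧ 0 ≤ p1 + e))
    (D21 : (0 ≤ n3 - b3 - 2 ∧ 0 ≤ -2 * e - p3) ∨ (0 ≤ -n3 + b3 + 1 ∧ 0 ≤ p3 + e))
    (D22 : (0 ≤ n3 - b3 - 1 ∧ 0 ≤ -e - p3) ∨ (0 ≤ -n3 + b3 ∧ 0 ≤ p3))
    (D26 : (0 ≤ m - 2 ∧ 0 ≤ -d1 - p4) ∨ (0 ≤ -m + 1 ∧ 0 ≤ p4))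
    (D30 : (0 ≤ m - 2 ∧ 0 ≤ -e - p5) ∨ (0 ≤ -m + 1 ∧ 0 ≤ p5))
    (D33 : 0 ≤ h - p4 - 1 ∨ 0 ≤ -p5 - 1)
    (D35 : 0 ≤ -h ∨ 0 ≤ -g ∨ 0 ≤ -m)
    (D36 : 0 ≤ -b1 - b2 ∨ 0 ≤ -hp + d1 - h3 - 1 ∨ 0 ≤ e - k ∨ 0 ≤ -n3 + b3)
    (D37 : 0 ≤ -b1 ∨ 0 ≤ -h3 ∨ 0 ≤ -n2 + b2 - k ∨ 0 ≤ -n2 + b2 - n3 + b3 + 1)
    (D38 : 0 ≤ -b1 ∨ 0 ≤ d1 - h3 ∨ 0 ≤ -n2 + b2 + e - k ∨ 0 ≤ -n2 + b2 - n3 + b3)
    (D39 : 0 ≤ -b1 - b2 ∨ 0 ≤ -hp - h3 - 1 ∨ 0 ≤ -k ∨ 0 ≤ -n3 + b3 + 1)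
    (D40 : ((0 ≤ b1 - 1 ∧ 0 ≤ n2 - b2 + n3 - b3 - 1) ∨ (0 ≤ b1 - 1 ∧ 0 ≤ -n2 + b2 - n3 + b3 ∧ 0 ≤ n2 - b2 + n3 - b3 ∧ 0 ≤ n2 - b2 - e - p1 - 2) ∨ (0 ≤ b1 - 1 ∧ 0 ≤ -n2 + b2 - n3 + b3 ∧ 0 ≤ n2 - b2 + n3 - b3 ∧ 0 ≤ -n2 + b2 + e + p1 + 1 ∧ 0 ≤ n2 - b2 - e - p1 - 1 ∧ 0 ≤ -d1 - p0 - 1)) ∨ ((0 ≤ b1 + b2 - 1 ∧ 0 ≤ n3 - b3 - 1) ∨ (0 ≤ b1 + b2 - 1 ∧ 0 ≤ -n3 + b3 ∧ 0 ≤ n3 - b3 ∧ 0 ≤ -e - p3 - 2) ∨ (0 ≤ b1 + b2 - 1 ∧ 0 ≤ -n3 + b3 ∧ 0 ≤ n3 - b3 ∧ 0 ≤ e + p3 + 1 ∧ 0 ≤ -e - p3 - 1 ∧ 0 ≤ hp - d1 - p2)) ∨ (0 ≤ g - 1) ∨ (0 ≤ m - 2 ∨ (0 ≤ -m + 1 ∧ 0 ≤ m - 1 ∧ 0 ≤ -p5 - 2) ∨ (0 ≤ -m + 1 ∧ 0 ≤ m - 1 ∧ 0 ≤ p5 + 1 ∧ 0 ≤ -p5 - 1 ∧ 0 ≤ h - p4)))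
    (D41 : ((0 ≤ b1 - 1 ∧ 0 ≤ n2 - b2 - e - p1 - 2) ∨ (0 ≤ b1 - 1 ∧ 0 ≤ -n2 + b2 + e + p1 + 1 ∧ 0 ≤ n2 - b2 - e - p1 - 1 ∧ 0 ≤ -d1 - p0 - 2) ∨ (0 ≤ b1 - 1 ∧ 0 ≤ -n2 + b2 + e + p1 + 1 ∧ 0 ≤ n2 - b2 - e - p1 - 1 ∧ 0 ≤ d1 + p0 + 1 ∧ 0 ≤ -d1 - p0 - 1 ∧ 0 ≤ n2 - b2 + n3 - b3)) ∨ ((0 ≤ b1 + b2 - 1 ∧ 0 ≤ -e - p3 - 2) ∨ (0 ≤ b1 + b2 - 1 ∧ 0 ≤ e + p3 + 1 ∧ 0 ≤ -e - p3 - 1 ∧ 0 ≤ hp - d1 - p2 - 1) ∨ (0 ≤ b1 + b2 - 1 ∧ 0 ≤ e + p3 + 1 ∧ 0 ≤ -e - p3 - 1 ∧ 0 ≤ -hp + d1 + p2 ∧ 0 ≤ hp - d1 - p2 ∧ 0 ≤ n3 - b3)) ∨ (0 ≤ k - e - 1 ∨ (0 ≤ -k + e ∧ 0 ≤ k - e ∧ 0 ≤ h3 - d1 - 1)) ∨ (0 ≤ g - 1) ∨ (0 ≤ -p5 - 2 ∨ (0 ≤ p5 + 1 ∧ 0 ≤ -p5 - 1 ∧ 0 ≤ h - p4 - 1) ∨ (0 ≤ p5 + 1 ∧ 0 ≤ -p5 - 1 ∧ 0 ≤ -h + p4 ∧ 0 ≤ h - p4 ∧ 0 ≤ m - 1)))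
    (D42 : ((0 ≤ b1 - 1 ∧ 0 ≤ n2 - b2 - e - p1 - 2) ∨ (0 ≤ b1 - 1 ∧ 0 ≤ -n2 + b2 + e + p1 + 1 ∧ 0 ≤ n2 - b2 - e - p1 - 1 ∧ 0 ≤ n2 - b2 + n3 - b3 - 1) ∨ (0 ≤ b1 - 1 ∧ 0 ≤ -n2 + b2 + e + p1 + 1 ∧ 0 ≤ n2 - b2 - e - p1 - 1 ∧ 0 ≤ -n2 + b2 - n3 + b3 ∧ 0 ≤ n2 - b2 + n3 - b3 ∧ 0 ≤ -d1 - p0 - 1)) ∨ ((0 ≤ b1 + b2 - 1 ∧ 0 ≤ -e - p3 - 2) ∨ (0 ≤ b1 + b2 - 1 ∧ 0 ≤ e + p3 + 1 ∧ 0 ≤ -e - p3 - 1 ∧ 0 ≤ n3 - b3 - 1) ∨ (0 ≤ b1 + b2 - 1 ∧ 0 ≤ e + p3 + 1 ∧ 0 ≤ -e - p3 - 1 ∧ 0 ≤ -n3 + b3 ∧ 0 ≤ n3 - b3 ∧ 0 ≤ hp - d1 - p2)) ∨ (0 ≤ k - e - 1) ∨ (0 ≤ g - 1) ∨ (0 ≤ -p5 - 2 ∨ (0 ≤ p5 + 1 ∧ 0 ≤ -p5 - 1 ∧ 0 ≤ m - 2) ∨ (0 ≤ p5 + 1 ∧ 0 ≤ -p5 - 1 ∧ 0 ≤ -m + 1 ∧ 0 ≤ m - 1 ∧ 0 ≤ h - p4)))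
    (D43 : 0 ≤ -n1 - b1 + 2 * a1 - 1 ∨ 0 ≤ n1 + b1 - 2 * a1 - 1 ∨ 0 ≤ n2 - a2 - 2 ∨ 0 ≤ -n2 + a2 ∨ 0 ≤ n3 - a3 - n1 + a1 - 2 ∨ 0 ≤ -n3 + a3 + n1 - a1 ∨ 0 ≤ n2 - b2 - 2 ∨ 0 ≤ -n2 + b2 ∨ 0 ≤ n3 - b3 - 1 ∨ 0 ≤ -b1 ∨ 0 ≤ -n2 + 2 ∨ 0 ≤ 2 * n1 - 2 * a1 - n3 + 2 ∨ 0 ≤ -n1 + a1) : False := by
  have E0 := D0
  have E3 := D3
  have E4 := D4
  have E6 := D6
  have E8 : 0 ≤ m - 1 := by
    rcases D8 with H8 | H8
    · exact H8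
    · linarith only [B20, B17, H8, B36, B11, B16, B19]
  have E9 := D9
  have E13 := D13
  have E21 := D21
  have E22 := D22
  have E26 : (0 ≤ -m + 1 ∧ 0 ≤ p4) := by
    rcases D26 with H26 | H26
    · linarith only [B36, H26.1]
    · exact H26
  have E30 : (0 ≤ -m + 1 ∧ 0 ≤ p5) := by
    rcases D30 with H30 | H30
    · linarith only [B36, H30.1]
    · exact H30
  have E33 := D33
  have E35 := D35
  have E36 := D36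
  have E37 : 0 ≤ -b1 ∨ 0 ≤ -h3 ∨ 0 ≤ -n2 + b2 - n3 + b3 + 1 := by
    rcases D37 with H37 | H37 | H37 | H37
    · exact Or.inl H37
    · exact Or.inr (Or.inl H37)
    · linarith only [B17, B39, H37, B10]
    · exact Or.inr (Or.inr H37)
  have E38 := D38
  have E39 : 0 ≤ -b1 - b2 ∨ 0 ≤ -hp - h3 - 1 ∨ 0 ≤ -n3 + b3 + 1 := by
    rcases D39 with H39 | H39 | H39 | H39
    · exact Or.inl H39
    · exact Or.inr (Or.inl H39)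
    · linarith only [B17, B39, H39]
    · exact Or.inr (Or.inr H39)
  have E40 : (0 ≤ b1 - 1 ∧ 0 ≤ n2 - b2 + n3 - b3 - 1) ∨ (0 ≤ b1 - 1 ∧ 0 ≤ -n2 + b2 - n3 + b3 ∧ 0 ≤ n2 - b2 + n3 - b3 ∧ 0 ≤ n2 - b2 - e - p1 - 2) ∨ (0 ≤ b1 - 1 ∧ 0 ≤ -n2 + b2 - n3 + b3 ∧ 0 ≤ n2 - b2 + n3 - b3 ∧ 0 ≤ -n2 + b2 + e + p1 + 1 ∧ 0 ≤ n2 - b2 - e - p1 - 1 ∧ 0 ≤ -d1 - p0 - 1) ∨ (0 ≤ b1 + b2 - 1 ∧ 0 ≤ n3 - b3 - 1) ∨ (0 ≤ b1 + b2 - 1 ∧ 0 ≤ -n3 + b3 ∧ 0 ≤ n3 - b3 ∧ 0 ≤ -e - p3 - 2) ∨ (0 ≤ b1 + b2 - 1 ∧ 0 ≤ -n3 + b3 ∧ 0 ≤ n3 - b3 ∧ 0 ≤ e + p3 + 1 ∧ 0 ≤ -e - p3 - 1 ∧ 0 ≤ hp - d1 - p2) ∨ 0 ≤ g - 1 ∨ (0 ≤ -m + 1 ∧ 0 ≤ m - 1 ∧ 0 ≤ -p5 - 2) ∨ (0 ≤ -m + 1 ∧ 0 ≤ m - 1 ∧ 0 ≤ p5 + 1 ∧ 0 ≤ -p5 - 1 ∧ 0 ≤ h - p4) := by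
    rcases D40 with (H40 | H40 | H40) | (H40 | H40 | H40) | H40 | (H40 | H40 | H40)
    · exact Or.inl H40
    · exact Or.inr (Or.inl H40)
    · exact Or.inr (Or.inr (Or.inl H40))
    · exact Or.inr (Or.inr (Or.inr (Or.inl H40)))
    · exact Or.inr (Or.inr (Or.inr (Or.inr (Or.inl H40))))
    · exact Or.inr (Or.inr (Or.inr (Or.inr (Or.inr (Or.inl H40)))))
    · exact Or.inr (Or.inr (Or.inr (Or.inr (Or.inr (Or.inr (Or.inl H40))))))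
    · linarith only [B36, H40]
    · exact Or.inr (Or.inr (Or.inr (Or.inr (Or.inr (Or.inr (Or.inr (Or.inl H40)))))))
    · exact Or.inr (Or.inr (Or.inr (Or.inr (Or.inr (Or.inr (Or.inr (Or.inr H40)))))))
  have E41 : (0 ≤ b1 - 1 ∧ 0 ≤ n2 - b2 - e - p1 - 2) ∨ (0 ≤ b1 - 1 ∧ 0 ≤ -n2 + b2 + e + p1 + 1 ∧ 0 ≤ n2 - b2 - e - p1 - 1 ∧ 0 ≤ -d1 - p0 - 2) ∨ (0 ≤ b1 - 1 ∧ 0 ≤ -n2 + b2 + e + p1 + 1 ∧ 0 ≤ n2 - b2 - e - p1 - 1 ∧ 0 ≤ d1 + p0 + 1 ∧ 0 ≤ -d1 - p0 - 1 ∧ 0 ≤ n2 - b2 + n3 - b3) ∨ (0 ≤ b1 + b2 - 1 ∧ 0 ≤ -e - p3 - 2) ∨ (0 ≤ b1 + b2 - 1 ∧ 0 ≤ e + p3 + 1 ∧ 0 ≤ -e - p3 - 1 ∧ 0 ≤ hp - d1 - p2 - 1) ∨ (0 ≤ b1 + b2 - 1 ∧ 0 ≤ e + p3 + 1 ∧ 0 ≤ -e - p3 - 1 ∧ 0 ≤ -hp + d1 + p2 ∧ 0 ≤ hp - d1 - p2 ∧ 0 ≤ n3 - b3) ∨ 0 ≤ k - e - 1 ∨ (0 ≤ -k + e ∧ 0 ≤ k - e ∧ 0 ≤ h3 - d1 - 1) ∨ 0 ≤ g - 1 ∨ 0 ≤ -p5 - 2 ∨ (0 ≤ p5 + 1 ∧ 0 ≤ -p5 - 1 ∧ 0 ≤ h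 - p4 - 1) ∨ (0 ≤ p5 + 1 ∧ 0 ≤ -p5 - 1 ∧ 0 ≤ -h + p4 ∧ 0 ≤ h - p4 ∧ 0 ≤ m - 1) := by
    rcases D41 with (H41 | H41 | H41) | (H41 | H41 | H41) | (H41 | H41) | H41 | (H41 | H41 | H41)
    · exact Or.inl H41
    · exact Or.inr (Or.inl H41)
    · exact Or.inr (Or.inr (Or.inl H41))
    · exact Or.inr (Or.inr (Or.inr (Or.inl H41)))
    · exact Or.inr (Or.inr (Or.inr (Or.inr (Or.inl H41))))
    · exact Or.inr (Or.inr (Or.inr (Or.inr (Or.inr (Or.inl H41)))))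
    · exact Or.inr (Or.inr (Or.inr (Or.inr (Or.inr (Or.inr (Or.inl H41))))))
    · exact Or.inr (Or.inr (Or.inr (Or.inr (Or.inr (Or.inr (Or.inr (Or.inl H41)))))))
    · exact Or.inr (Or.inr (Or.inr (Or.inr (Or.inr (Or.inr (Or.inr (Or.inr (Or.inl H41))))))))
    · exact Or.inr (Or.inr (Or.inr (Or.inr (Or.inr (Or.inr (Or.inr (Or.inr (Or.inr (Or.inl H41)))))))))
    · exact Or.inr (Or.inr (Or.inr (Or.inr (Or.inr (Or.inr (Or.inr (Or.inr (Or.inr (Or.inr (Or.inl H41))))))))))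
    · exact Or.inr (Or.inr (Or.inr (Or.inr (Or.inr (Or.inr (Or.inr (Or.inr (Or.inr (Or.inr (Or.inr H41))))))))))
  have E42 : (0 ≤ b1 - 1 ∧ 0 ≤ n2 - b2 - e - p1 - 2) ∨ (0 ≤ b1 - 1 ∧ 0 ≤ -n2 + b2 + e + p1 + 1 ∧ 0 ≤ n2 - b2 - e - p1 - 1 ∧ 0 ≤ n2 - b2 + n3 - b3 - 1) ∨ (0 ≤ b1 - 1 ∧ 0 ≤ -n2 + b2 + e + p1 + 1 ∧ 0 ≤ n2 - b2 - e - p1 - 1 ∧ 0 ≤ -n2 + b2 - n3 + b3 ∧ 0 ≤ n2 - b2 + n3 - b3 ∧ 0 ≤ -d1 - p0 - 1) ∨ (0 ≤ b1 + b2 - 1 ∧ 0 ≤ -e - p3 - 2) ∨ (0 ≤ b1 + b2 - 1 ∧ 0 ≤ e + p3 + 1 ∧ 0 ≤ -e - p3 - 1 ∧ 0 ≤ n3 - b3 - 1) ∨ (0 ≤ b1 + b2 - 1 ∧ 0 ≤ e + p3 + 1 ∧ 0 ≤ -e - p3 - 1 ∧ 0 ≤ -n3 + b3 ∧ 0 ≤ n3 - b3 ∧ 0 ≤ hp - d1 - p2) ∨ 0 ≤ k - e - 1 ∨ 0 ≤ g - 1 ∨ 0 ≤ -p5 - 2 ∨ (0 ≤ p5 + 1 ∧ 0 ≤ -p5 - 1 ∧ 0 ≤ -m + 1 ∧ 0 ≤ m - 1 ∧ 0 ≤ h - p4) := by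
    rcases D42 with (H42 | H42 | H42) | (H42 | H42 | H42) | H42 | H42 | (H42 | H42 | H42)
    · exact Or.inl H42
    · exact Or.inr (Or.inl H42)
    · exact Or.inr (Or.inr (Or.inl H42))
    · exact Or.inr (Or.inr (Or.inr (Or.inl H42)))
    · exact Or.inr (Or.inr (Or.inr (Or.inr (Or.inl H42))))
    · exact Or.inr (Or.inr (Or.inr (Or.inr (Or.inr (Or.inl H42)))))
    · exact Or.inr (Or.inr (Or.inr (Or.inr (Or.inr (Or.inr (Or.inl H42))))))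
    · exact Or.inr (Or.inr (Or.inr (Or.inr (Or.inr (Or.inr (Or.inr (Or.inl H42)))))))
    · exact Or.inr (Or.inr (Or.inr (Or.inr (Or.inr (Or.inr (Or.inr (Or.inr (Or.inl H42))))))))
    · linarith only [B36, H42.2.2]
    · exact Or.inr (Or.inr (Or.inr (Or.inr (Or.inr (Or.inr (Or.inr (Or.inr (Or.inr H42))))))))
  have E43 := D43
  have H26 := E26
  have H30 := E30
  rcases E33 with H33 | H33
  · have H8 := E8
    rcases E35 with H35 | H35 | H35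
    · linarith only [H26.2, H33, H35]
    · rcases E6 with H6 | H6
      · rcases E22 with H22 | H22
        · rcases E21 with H21 | H21
          · rcases E13 with H13 | H13
            · rcases E37 with H37 | H37 | H37
              · rcases E40 with H40 | H40 | H40 | H40 | H40 | H40 | H40 | H40 | H40
                · linarith only [H40.1, H37]
                · linarith only [H40.2.1, H13.1]
                · linarith only [H40.2.1, H13.1]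
                · rcases E39 with H39 | H39 | H39
                  · linarith only [H39, H40.1]
                  · rcases E3 with H3 | H3
                    · rcases E4 with H4 | H4
                      · linarith only [B12, H3, H37, B34, H39, H4, H33, H26.2]
                      · linarith only [B12, H3, H37, B31, H26.2, B35, B39, H4, H39, H33, B17]
                    · rcases E4 with H4 | H4
                      · linarith only [B34, H37, H4, H3, H39, H40.1, H26.2, H33]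
                      · linarith only [B35, H37, B31, B39, H3, H40.1, H4, H39, B17, H33, H26.2]
                  · linarith only [H21.1, H39]
                · linarith only [H21.1, H40.2.1]
                · linarith only [H21.1, H40.2.1]
                · linarith only [H40, H35]
                · linarith only [H30.2, H40.2.2]
                · linarith only [H30.2, H40.2.2.2.1]
              · rcases E4 with H4 | H4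
                · linarith only [H26.2, B34, H37, H33, H4]
                · linarith only [B35, B39, B31, H4, H37, B17, H33, H26.2]
              · linarith only [H37, H13.1]
            · linarith only [H13.1, H21.1, B10]
          · rcases E13 with H13 | H13
            · rcases E37 with H37 | H37 | H37
              · rcases E40 with H40 | H40 | H40 | H40 | H40 | H40 | H40 | H40 | H40
                · linarith only [H40.1, H37]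
                · linarith only [H13.1, H40.2.1]
                · linarith only [H13.1, H40.2.1]
                · rcases E42 with H42 | H42 | H42 | H42 | H42 | H42 | H42 | H42 | H42 | H42
                  · linarith only [H42.1, H37]
                  · linarith only [H42.1, H37]
                  · linarith only [H13.1, H42.2.2.2.1]
                  · linarith only [H42.2, H21.2]
                  · linarith only [H42.2.2.1, H21.2]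
                  · linarith only [H42.2.2.1, H21.2]
                  · rcases E36 with H36 | H36 | H36 | H36
                    · linarith only [H36, H40.1]
                    · exact g17_l0 B15 B17 B22 B28 B30 B31 B34 B35 E3 E4 H6 H26 H33 H35 H36 H42
                    · linarith only [H36, H42]
                    · linarith only [H36, H22.1]
                  · linarith only [H35, H42]
                  · linarith only [H30.2, H42]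
                  · linarith only [H30.2, H42.2.1]
                · linarith only [H40.2.2.2, H21.2]
                · linarith only [H40.2.2.2.2.1, H21.2]
                · linarith only [H35, H40]
                · linarith only [H30.2, H40.2.2]
                · linarith only [H30.2, H40.2.2.2.1]
              · rcases E4 with H4 | H4
                · linarith only [B34, H37, H26.2, H33, H4]
                · linarith only [B31, B35, B39, H37, H4, B17, H33, H26.2]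
              · linarith only [H13.1, H37]
            · rcases E0 with H0 | H0
              · rcases E42 with H42 | H42 | H42 | H42 | H42 | H42 | H42 | H42 | H42 | H42
                · linarith only [H42.2, H13.1, H22.1, H13.2]
                · linarith only [H42.2.2.1, H22.1, H13.1, H13.2]
                · linarith only [H42.2.2.1, H42.2.2.2.1, H22.1, H13.2]
                · linarith only [H42.2, H21.2]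
                · linarith only [H42.2.2.1, H21.2]
                · linarith only [H42.2.2.1, H21.2]
                · rcases E36 with H36 | H36 | H36 | H36
                  · linarith only [H13.1, H26.2, H36, B35, B3, H22.1, H33, H0.2]
                  · exact g17_l0 B15 B17 B22 B28 B30 B31 B34 B35 E3 E4 H6 H26 H33 H35 H36 H42
                  · linarith only [H42, H36]
                  · linarith only [H22.1, H36]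
                · linarith only [H42, H35]
                · linarith only [H30.2, H42]
                · linarith only [H30.2, H42.2.1]
              · linarith only [H13.1, H22.1, H0.2]
        · rcases E13 with H13 | H13
          · rcases E40 with H40 | H40 | H40 | H40 | H40 | H40 | H40 | H40 | H40
            · rcases E38 with H38 | H38 | H38 | H38
              · linarith only [H40.1, H38]
              · rcases E4 with H4 | H4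
                · rcases E37 with H37 | H37 | H37
                  · linarith only [H40.1, H37]
                  · linarith only [H26.2, B34, H37, H33, H4]
                  · linarith only [H13.1, H37]
                · linarith only [H13.1, B31, B35, H22.1, B15, B39, H6, B22, H26.2, H4, H35, H33, H38]
              · linarith only [H13.1, H38, H22.1, B39]
              · linarith only [H13.1, H38]
            · linarith only [H13.1, H40.2.1]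
            · linarith only [H13.1, H40.2.1]
            · linarith only [H22.1, H40.2]
            · linarith only [B17, H40.2.2.2, H22.2]
            · linarith only [B17, H40.2.2.2.2.1, H22.2]
            · linarith only [H35, H40]
            · linarith only [H30.2, H40.2.2]
            · linarith only [H30.2, H40.2.2.2.1]
          · rcases E40 with H40 | H40 | H40 | H40 | H40 | H40 | H40 | H40 | H40
            · rcases E38 with H38 | H38 | H38 | H38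
              · linarith only [H40.1, H38]
              · rcases E4 with H4 | H4
                · rcases E9 with H9 | H9
                  · linarith only [H9.1, H13.1]
                  · rcases E41 with H41 | H41 | H41 | H41 | H41 | H41 | H41 | H41 | H41 | H41 | H41 | H41
                    · linarith only [H41.2, H13.1, B11, H13.2]
                    · linarith only [H41.2.2.2, H9.2]
                    · linarith only [H9.2, H41.2.2.2.2.1]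
                    · linarith only [H41.2, B17, H22.2]
                    · linarith only [H41.2.2.1, B17, H22.2]
                    · linarith only [H41.2.2.1, B17, H22.2]
                    · rcases E43 with H43 | H43 | H43 | H43 | H43 | H43 | H43 | H43 | H43 | H43 | H43 | H43 | H43
                      · linarith only [H43, H41, H35, B30, H6, H22.1, B15, H40.2]
                      · linarith only [H43, B22, H38, H4]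
                      · linarith only [H35, H43, H6]
                      · linarith only [H40.2, B15, H22.1, H38, B30, H41, H43, H4, B22]
                      · linarith only [H35, H22.1, B15, B25, B30, H41, H43, B18, H6]
                      · linarith only [H40.2, B20, B19, H35, H38, B22, H4, H43, H6]
                      · linarith only [H43, B11, H13.1]
                      · linarith only [H40.2, H43, H22.1]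
                      · linarith only [H43, H22.1]
                      · linarith only [H40.1, H43]
                      · linarith only [H40.2, B15, B35, H22.1, H38, H43, B30, H41, H26.2, H4, H33, B22]
                      · linarith only [H43, B20, H41, B19, H35, H6, H38, H22.1, B22, H4, H40.2, B31, B15]
                      · linarith only [H43, B34, H33, H26.2]
                    · linarith only [H41.2.2, H38]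
                    · linarith only [H41, H35]
                    · linarith only [H30.2, H41]
                    · linarith only [H30.2, H41.2.1]
                    · linarith only [H30.2, H41.2.1]
                · linarith only [H40.2, B31, B15, B39, H35, B35, H22.1, B22, H26.2, H38, H4, H33, H6]
              · linarith only [H40.2, H22.1, H38, B39]
              · linarith only [H40.2, H38]
            · linarith only [H40.2.2.2, H40.2.1, B11, H13.2]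
            · linarith only [H40.2.2.2.2.1, H40.2.1, B11, H13.2]
            · linarith only [H40.2, H22.1]
            · linarith only [H40.2.2.2, B17, H22.2]
            · linarith only [H40.2.2.2.2.1, B17, H22.2]
            · linarith only [H40, H35]
            · linarith only [H30.2, H40.2.2]
            · linarith only [H30.2, H40.2.2.2.1]
      · linarith only [B31, B17, H6, B39, H35]
    · linarith only [H35, H8]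
  · linarith only [H30.2, H33]

theorem g18 {a1 a2 a3 b1 b2 b3 d1 e g h m n3 p4 p5 y : ℤ}
    (B11 : 0 ≤ n3 - b3)
    (B16 : 0 ≤ a1 + a2 - b1 - b2 - e)
    (B17 : 0 ≤ e - 1)
    (B19 : 0 ≤ -a1 - a2 - a3 + b1 + b2 + b3 - y)
    (B20 : 0 ≤ y - 1)
    (B36 : 0 ≤ -m + 1)
    (B40 : 0 ≤ g - 1)
    (D8 : 0 ≤ m - 1 ∨ 0 ≤ m - n3 + a3)
    (D26 : (0 ≤ m - 2 ∧ 0 ≤ -d1 - p4) ∨ (0 ≤ -m + 1 ∧ 0 ≤ p4))
    (D30 : (0 ≤ m - 2 ∧ 0 ≤ -e - p5) ∨ (0 ≤ -m + 1 ∧ 0 ≤ p5))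
    (D33 : 0 ≤ h - p4 - 1 ∨ 0 ≤ -p5 - 1)
    (D34 : 0 ≤ -h ∨ 0 ≤ -g ∨ 0 ≤ -m) : False := by
  have E8 : 0 ≤ m - 1 := by
    rcases D8 with H8 | H8
    · exact H8
    · linarith only [B20, B17, H8, B36, B11, B16, B19]
  have E26 : (0 ≤ -m + 1 ∧ 0 ≤ p4) := by
    rcases D26 with H26 | H26
    · linarith only [B36, H26.1]
    · exact H26
  have E30 : (0 ≤ -m + 1 ∧ 0 ≤ p5) := by
    rcases D30 with H30 | H30
    · linarith only [B36, H30.1]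
    · exact H30
  have E33 := D33
  have E34 : 0 ≤ -h ∨ 0 ≤ -m := by
    rcases D34 with H34 | H34 | H34
    · exact Or.inl H34
    · linarith only [B40, H34]
    · exact Or.inr H34
  have H26 := E26
  have H30 := E30
  rcases E33 with H33 | H33
  · rcases E34 with H34 | H34
    · linarith only [H26.2, H33, H34]
    · have H8 := E8
      linarith only [H34, H8]
  · linarith only [H30.2, H33]

theorem g19 {e m p5 : ℤ}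
    (B36 : 0 ≤ -m + 1)
    (B39 : 0 ≤ -p5 - 1)
    (D30 : (0 ≤ m - 2 ∧ 0 ≤ -e - p5) ∨ (0 ≤ -m + 1 ∧ 0 ≤ p5)) : False := by
  have E30 : False := by
    rcases D30 with H30 | H30
    · linarith only [B36, H30.1]
    · linarith only [B39, H30.2]
  exact E30

theorem los11 {n1 n2 n3 a1 a2 a3 b1 b2 b3 e y d1 : ℤ}
    (B0 : 0 ≤ a1)
    (B1 : 0 ≤ a2)
    (B2 : 0 ≤ a3)
    (B3 : 0 ≤ b1)
    (B4 : 0 ≤ b2)
    (B5 : 0 ≤ b3)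
    (B6 : 0 ≤ n1 - a1)
    (B7 : 0 ≤ n2 - a2)
    (B8 : 0 ≤ n3 - a3)
    (B9 : 0 ≤ n1 - b1)
    (B10 : 0 ≤ n2 - b2)
    (B11 : 0 ≤ n3 - b3)
    (B12 : 0 ≤ n1 - 1)
    (B13 : 0 ≤ n2 - 1)
    (B14 : 0 ≤ n3 - 1)
    (B15 : 0 ≤ e - a1 - a2 + b1 + b2)
    (B16 : 0 ≤ a1 + a2 - b1 - b2 - e)
    (B17 : 0 ≤ e - 1)
    (B18 : 0 ≤ y + a1 + a2 + a3 - b1 - b2 - b3)
    (B19 : 0 ≤ -a1 - a2 - a3 + b1 + b2 + b3 - y)
    (B20 : 0 ≤ y - 1)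
    (B21 : 0 ≤ d1 - a1 + b1)
    (B22 : 0 ≤ a1 - b1 - d1)
    (B23 : 0 ≤ d1 - 1)
    (B24 : 0 ≤ y - 1)
    (B25 : 0 ≤ -y + 1)
    (hex : 0 ≤ b1 - 1) :
    LosC n1 n2 n3 a1 a2 a3 b1 b2 b3 (d1 + 1) (-n2 + b2 + e + 1) (-n2 + b2 - n3 + b3) := by
  unfold LosC
  refine ⟨?_, ?_, ?_, ?_, ?_, ?_, ?_, ?_⟩ <;> omega

theorem los22 {n1 n2 n3 a1 a2 a3 b1 b2 b3 e y d1 hp : ℤ}
    (B0 : 0 ≤ a1)
    (B1 : 0 ≤ a2)
    (B2 : 0 ≤ a3)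
    (B3 : 0 ≤ b1)
    (B4 : 0 ≤ b2)
    (B5 : 0 ≤ b3)
    (B6 : 0 ≤ n1 - a1)
    (B7 : 0 ≤ n2 - a2)
    (B8 : 0 ≤ n3 - a3)
    (B9 : 0 ≤ n1 - b1)
    (B10 : 0 ≤ n2 - b2)
    (B11 : 0 ≤ n3 - b3)
    (B12 : 0 ≤ n1 - 1)
    (B13 : 0 ≤ n2 - 1)
    (B14 : 0 ≤ n3 - 1)
    (B15 : 0 ≤ e - a1 - a2 + b1 + b2)
    (B16 : 0 ≤ a1 + a2 - b1 - b2 - e)
    (B17 : 0 ≤ e - 1)
    (B18 : 0 ≤ y + a1 + a2 + a3 - b1 - b2 - b3)
    (B19 : 0 ≤ -a1 - a2 - a3 + b1 + b2 + b3 - y)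
    (B20 : 0 ≤ y - 1)
    (B21 : 0 ≤ d1 - a1 + b1)
    (B22 : 0 ≤ a1 - b1 - d1)
    (B23 : 0 ≤ d1 - 1)
    (B24 : 0 ≤ y - 1)
    (B25 : 0 ≤ -y + 1)
    (B26 : 0 ≤ n1 - b1 - hp)
    (B27 : 0 ≤ b2 - hp - 1)
    (C_Dhp : 0 ≤ hp - n1 + b1 ∨ 0 ≤ hp - b2 + 1)
    (hex : 0 ≤ b1 + b2 - 1) :
    LosC n1 n2 n3 a1 a2 a3 b1 b2 b3 (-hp + d1) (e + 1) (-n3 + b3) := by
  unfold LosC
  refine ⟨?_, ?_, ?_, ?_, ?_, ?_, ?_, ?_⟩ <;> omega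

theorem los33 {n1 n2 n3 a1 a2 a3 b1 b2 b3 e y d1 h3 k : ℤ}
    (B0 : 0 ≤ a1)
    (B1 : 0 ≤ a2)
    (B2 : 0 ≤ a3)
    (B3 : 0 ≤ b1)
    (B4 : 0 ≤ b2)
    (B5 : 0 ≤ b3)
    (B6 : 0 ≤ n1 - a1)
    (B7 : 0 ≤ n2 - a2)
    (B8 : 0 ≤ n3 - a3)
    (B9 : 0 ≤ n1 - b1)
    (B10 : 0 ≤ n2 - b2)
    (B11 : 0 ≤ n3 - b3)
    (B12 : 0 ≤ n1 - 1)
    (B13 : 0 ≤ n2 - 1)
    (B14 : 0 ≤ n3 - 1)
    (B15 : 0 ≤ e - a1 - a2 + b1 + b2)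
    (B16 : 0 ≤ a1 + a2 - b1 - b2 - e)
    (B17 : 0 ≤ e - 1)
    (B18 : 0 ≤ y + a1 + a2 + a3 - b1 - b2 - b3)
    (B19 : 0 ≤ -a1 - a2 - a3 + b1 + b2 + b3 - y)
    (B20 : 0 ≤ y - 1)
    (B21 : 0 ≤ d1 - a1 + b1)
    (B22 : 0 ≤ a1 - b1 - d1)
    (B23 : 0 ≤ d1 - 1)
    (B24 : 0 ≤ y - 1)
    (B25 : 0 ≤ -y + 1)
    (B28 : 0 ≤ n1 - a1 - h3)
    (B29 : 0 ≤ a2 + a3 - h3 - 1)
    (B30 : 0 ≤ n1 - a1 + n2 - a2 - k)
    (B31 : 0 ≤ a3 - k - 1)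
    (C_Dh3 : 0 ≤ h3 - n1 + a1 ∨ 0 ≤ h3 - a2 - a3 + 1)
    (C_Dk : 0 ≤ k - n1 + a1 - n2 + a2 ∨ 0 ≤ k - a3 + 1) :
    LosC n1 n2 n3 a1 a2 a3 b1 b2 b3 (-h3) (-k) (1) := by
  unfold LosC
  refine ⟨?_, ?_, ?_, ?_, ?_, ?_, ?_, ?_⟩ <;> omega

theorem los13 {n1 n2 n3 a1 a2 a3 b1 b2 b3 e y d1 g : ℤ}
    (B0 : 0 ≤ a1)
    (B1 : 0 ≤ a2)
    (B2 : 0 ≤ a3)
    (B3 : 0 ≤ b1)
    (B4 : 0 ≤ b2)
    (B5 : 0 ≤ b3)
    (B6 : 0 ≤ n1 - a1)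
    (B7 : 0 ≤ n2 - a2)
    (B8 : 0 ≤ n3 - a3)
    (B9 : 0 ≤ n1 - b1)
    (B10 : 0 ≤ n2 - b2)
    (B11 : 0 ≤ n3 - b3)
    (B12 : 0 ≤ n1 - 1)
    (B13 : 0 ≤ n2 - 1)
    (B14 : 0 ≤ n3 - 1)
    (B15 : 0 ≤ e - a1 - a2 + b1 + b2)
    (B16 : 0 ≤ a1 + a2 - b1 - b2 - e)
    (B17 : 0 ≤ e - 1)
    (B18 : 0 ≤ y + a1 + a2 + a3 - b1 - b2 - b3)
    (B19 : 0 ≤ -a1 - a2 - a3 + b1 + b2 + b3 - y)
    (B20 : 0 ≤ y - 1)
    (B21 : 0 ≤ d1 - a1 + b1)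
    (B22 : 0 ≤ a1 - b1 - d1)
    (B23 : 0 ≤ d1 - 1)
    (B24 : 0 ≤ y - 1)
    (B25 : 0 ≤ -y + 1)
    (B32 : 0 ≤ n2 - a2 - g - 1)
    (B33 : 0 ≤ a3 - g)
    (C_Dg : 0 ≤ g - n2 + a2 + 1 ∨ 0 ≤ g - a3) :
    LosC n1 n2 n3 a1 a2 a3 b1 b2 b3 (1) (-g) (0) := by
  unfold LosC
  refine ⟨?_, ?_, ?_, ?_, ?_, ?_, ?_, ?_⟩ <;> omega

theorem los23 {n1 n2 n3 a1 a2 a3 b1 b2 b3 e y d1 h m : ℤ}
    (B0 : 0 ≤ a1)
    (B1 : 0 ≤ a2)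
    (B2 : 0 ≤ a3)
    (B3 : 0 ≤ b1)
    (B4 : 0 ≤ b2)
    (B5 : 0 ≤ b3)
    (B6 : 0 ≤ n1 - a1)
    (B7 : 0 ≤ n2 - a2)
    (B8 : 0 ≤ n3 - a3)
    (B9 : 0 ≤ n1 - b1)
    (B10 : 0 ≤ n2 - b2)
    (B11 : 0 ≤ n3 - b3)
    (B12 : 0 ≤ n1 - 1)
    (B13 : 0 ≤ n2 - 1)
    (B14 : 0 ≤ n3 - 1)
    (B15 : 0 ≤ e - a1 - a2 + b1 + b2)
    (B16 : 0 ≤ a1 + a2 - b1 - b2 - e)
    (B17 : 0 ≤ e - 1)
    (B18 : 0 ≤ y + a1 + a2 + a3 - b1 - b2 - b3)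
    (B19 : 0 ≤ -a1 - a2 - a3 + b1 + b2 + b3 - y)
    (B20 : 0 ≤ y - 1)
    (B21 : 0 ≤ d1 - a1 + b1)
    (B22 : 0 ≤ a1 - b1 - d1)
    (B23 : 0 ≤ d1 - 1)
    (B24 : 0 ≤ y - 1)
    (B25 : 0 ≤ -y + 1)
    (B34 : 0 ≤ n1 - a1 - h)
    (B35 : 0 ≤ a2 - h - 1)
    (B36 : 0 ≤ -m + 1)
    (B37 : 0 ≤ n3 - a3 - m)
    (C_Dh : 0 ≤ h - n1 + a1 ∨ 0 ≤ h - a2 + 1)
    (C_Dm : 0 ≤ m - 1 ∨ 0 ≤ m - n3 + a3) :
    LosC n1 n2 n3 a1 a2 a3 b1 b2 b3 (-h) (1) (-m + 1) := by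
  unfold LosC
  refine ⟨?_, ?_, ?_, ?_, ?_, ?_, ?_, ?_⟩ <;> omega

theorem hd {n1 n2 n3 a1 a2 a3 b1 b2 b3 e y d1 hp h3 k g h m : ℤ}
    (B0 : 0 ≤ a1)
    (B1 : 0 ≤ a2)
    (B2 : 0 ≤ a3)
    (B3 : 0 ≤ b1)
    (B4 : 0 ≤ b2)
    (B5 : 0 ≤ b3)
    (B6 : 0 ≤ n1 - a1)
    (B7 : 0 ≤ n2 - a2)
    (B8 : 0 ≤ n3 - a3)
    (B9 : 0 ≤ n1 - b1)
    (B10 : 0 ≤ n2 - b2)
    (B11 : 0 ≤ n3 - b3)
    (B12 : 0 ≤ n1 - 1)
    (B13 : 0 ≤ n2 - 1)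
    (B14 : 0 ≤ n3 - 1)
    (B15 : 0 ≤ e - a1 - a2 + b1 + b2)
    (B16 : 0 ≤ a1 + a2 - b1 - b2 - e)
    (B17 : 0 ≤ e - 1)
    (B18 : 0 ≤ y + a1 + a2 + a3 - b1 - b2 - b3)
    (B19 : 0 ≤ -a1 - a2 - a3 + b1 + b2 + b3 - y)
    (B20 : 0 ≤ y - 1)
    (B21 : 0 ≤ d1 - a1 + b1)
    (B22 : 0 ≤ a1 - b1 - d1)
    (B23 : 0 ≤ d1 - 1)
    (B24 : 0 ≤ y - 1)
    (B25 : 0 ≤ -y + 1)
    (B26 : 0 ≤ n1 - b1 - hp)
    (B27 : 0 ≤ b2 - hp - 1)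
    (B28 : 0 ≤ n1 - a1 - h3)
    (B29 : 0 ≤ a2 + a3 - h3 - 1)
    (B30 : 0 ≤ n1 - a1 + n2 - a2 - k)
    (B31 : 0 ≤ a3 - k - 1)
    (B32 : 0 ≤ n2 - a2 - g - 1)
    (B33 : 0 ≤ a3 - g)
    (B34 : 0 ≤ n1 - a1 - h)
    (B35 : 0 ≤ a2 - h - 1)
    (B36 : 0 ≤ -m + 1)
    (B37 : 0 ≤ n3 - a3 - m)
    (C_Dhp : 0 ≤ hp - n1 + b1 ∨ 0 ≤ hp - b2 + 1)
    (C_Dh3 : 0 ≤ h3 - n1 + a1 ∨ 0 ≤ h3 - a2 - a3 + 1)
    (C_Dk : 0 ≤ k - n1 + a1 - n2 + a2 ∨ 0 ≤ k - a3 + 1)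
    (C_Dg : 0 ≤ g - n2 + a2 + 1 ∨ 0 ≤ g - a3)
    (C_Dh : 0 ≤ h - n1 + a1 ∨ 0 ≤ h - a2 + 1)
    (C_Dm : 0 ≤ m - 1 ∨ 0 ≤ m - n3 + a3) :
    ∀ c1 c2 c3, LosC n1 n2 n3 a1 a2 a3 b1 b2 b3 c1 c2 c3 →
      ∃ v ∈ ([⟨0 ≤ b1 - 1, d1 + 1, -n2 + b2 + e + 1, -n2 + b2 - n3 + b3⟩, ⟨0 ≤ b1 + b2 - 1, -hp + d1, e + 1, -n3 + b3⟩, ⟨True, -h3, -k, 1⟩, ⟨True, 1, -g, 0⟩, ⟨True, -h, 1, -m + 1⟩] : List LV), v.ex ∧ v.c1 ≤ c1 ∧ v.c2 ≤ c2 ∧ v.c3 ≤ c3 := by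
  intro c1 c2 c3 hc
  obtain ⟨q1, q2, q3, q4, q5, q6, qa, qb⟩ := hc
  rcases qb with qb | qb | qb
  · clear qa
    clear C_Dhp C_Dh3 C_Dk C_Dg C_Dh C_Dm
    refine ⟨_, List.Mem.head _, ?_, ?_, ?_, ?_⟩
    · show 0 ≤ b1 - 1; omega
    · show d1 + 1 ≤ c1; omega
    · show -n2 + b2 + e + 1 ≤ c2; omega
    · show -n2 + b2 - n3 + b3 ≤ c3; omega
  · clear qa
    clear C_Dh3 C_Dk C_Dg C_Dh C_Dm
    refine ⟨_, List.Mem.tail _ (List.Mem.head _), ?_, ?_, ?_, ?_⟩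
    · show 0 ≤ b1 + b2 - 1; omega
    · show -hp + d1 ≤ c1; omega
    · show e + 1 ≤ c2; omega
    · show -n3 + b3 ≤ c3; omega
  · rcases qa with qa | qa | qa
    · clear C_Dhp C_Dh3 C_Dk C_Dh C_Dm
      refine ⟨_, List.Mem.tail _ (List.Mem.tail _ (List.Mem.tail _ (List.Mem.head _))), ?_, ?_, ?_, ?_⟩
      · trivial
      · show 1 ≤ c1; omega
      · show -g ≤ c2; omega
      · show 0 ≤ c3; omega
    · clear C_Dhp C_Dh3 C_Dk C_Dg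
      refine ⟨_, List.Mem.tail _ (List.Mem.tail _ (List.Mem.tail _ (List.Mem.tail _ (List.Mem.head _)))), ?_, ?_, ?_, ?_⟩
      · trivial
      · show -h ≤ c1; omega
      · show 1 ≤ c2; omega
      · show -m + 1 ≤ c3; omega
    · clear C_Dhp C_Dg C_Dh C_Dm
      refine ⟨_, List.Mem.tail _ (List.Mem.tail _ (List.Mem.head _)), ?_, ?_, ?_, ?_⟩
      · trivial
      · show -h3 ≤ c1; omega
      · show -k ≤ c2; omega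
      · show 1 ≤ c3; omega

theorem cvF_V2_V3_11 {b1 b2 b3 d1 e n2 n3 p0 p1 : ℤ}
    (ep0 : p0 = (d1) * (-n2 + b2 - n3 + b3))
    (ep1 : p1 = (e) * (-n2 + b2 - n3 + b3))
    (hex : 0 ≤ b1 - 1)
    (hf : LexFail ((1) * (d1 + 1) + (0) * (-n2 + b2 + e + 1) + (d1) * (-n2 + b2 - n3 + b3))
      ((0) * (d1 + 1) + (1) * (-n2 + b2 + e + 1) + (e) * (-n2 + b2 - n3 + b3))
      ((0) * (d1 + 1) + (0) * (-n2 + b2 + e + 1) + (0) * (-n2 + b2 - n3 + b3))) :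
    0 ≤ b1 - 1 ∧ 0 ≤ -d1 - p0 - 1 ∧ (0 ≤ -d1 - p0 - 2 ∨ 0 ≤ n2 - b2 - e - p1 - 1) := by
  rcases hf with hf | ⟨hf0, hf⟩ | ⟨hf0, hf1, hf⟩
  · exact ⟨by linarith only [hex], by linarith only [hf, ep0], Or.inl (by linarith only [hf, ep0])⟩
  · exact ⟨by linarith only [hex], by linarith only [hf0, ep0], Or.inr (by linarith only [hf, ep1])⟩
  · exact ⟨by linarith only [hex], by linarith only [hf0, ep0], Or.inr (by linarith only [hf1, ep1])⟩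

theorem cvF_V2_V3_22 {b1 b2 b3 d1 e hp n3 p2 p3 : ℤ}
    (ep2 : p2 = (d1) * (-n3 + b3))
    (ep3 : p3 = (e) * (-n3 + b3))
    (hex : 0 ≤ b1 + b2 - 1)
    (hf : LexFail ((1) * (-hp + d1) + (0) * (e + 1) + (d1) * (-n3 + b3))
      ((0) * (-hp + d1) + (1) * (e + 1) + (e) * (-n3 + b3))
      ((0) * (-hp + d1) + (0) * (e + 1) + (0) * (-n3 + b3))) :
    0 ≤ b1 + b2 - 1 ∧ 0 ≤ hp - d1 - p2 ∧ (0 ≤ hp - d1 - p2 - 1 ∨ 0 ≤ -e - p3 - 1) := by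
  rcases hf with hf | ⟨hf0, hf⟩ | ⟨hf0, hf1, hf⟩
  · exact ⟨by linarith only [hex], by linarith only [hf, ep2], Or.inl (by linarith only [hf, ep2])⟩
  · exact ⟨by linarith only [hex], by linarith only [hf0, ep2], Or.inr (by linarith only [hf, ep3])⟩
  · exact ⟨by linarith only [hex], by linarith only [hf0, ep2], Or.inr (by linarith only [hf1, ep3])⟩

theorem cvF_V2_V3_33 {d1 e h3 k : ℤ}
    (hf : LexFail ((1) * (-h3) + (0) * (-k) + (d1) * (1))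
      ((0) * (-h3) + (1) * (-k) + (e) * (1))
      ((0) * (-h3) + (0) * (-k) + (0) * (1))) :
    0 ≤ h3 - d1 ∧ (0 ≤ h3 - d1 - 1 ∨ 0 ≤ k - e) := by
  rcases hf with hf | ⟨hf0, hf⟩ | ⟨hf0, hf1, hf⟩
  · exact ⟨by linarith only [hf], Or.inl (by linarith only [hf])⟩
  · exact ⟨by linarith only [hf0], Or.inr (by linarith only [hf])⟩
  · exact ⟨by linarith only [hf0], Or.inr (by linarith only [hf1])⟩

theorem cvF_V2_V3_13 {d1 e g : ℤ}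
    (hf : LexFail ((1) * (1) + (0) * (-g) + (d1) * (0))
      ((0) * (1) + (1) * (-g) + (e) * (0))
      ((0) * (1) + (0) * (-g) + (0) * (0))) :
    False := by
  rcases hf with hf | ⟨hf0, hf⟩ | ⟨hf0, hf1, hf⟩
  · exfalso; linarith only [hf]
  · exfalso; linarith only [hf0]
  · exfalso; linarith only [hf0]

theorem cvF_V2_V3_23 {d1 e h m p4 p5 : ℤ}
    (ep4 : p4 = (d1) * (-m + 1))
    (ep5 : p5 = (e) * (-m + 1))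
    (hf : LexFail ((1) * (-h) + (0) * (1) + (d1) * (-m + 1))
      ((0) * (-h) + (1) * (1) + (e) * (-m + 1))
      ((0) * (-h) + (0) * (1) + (0) * (-m + 1))) :
    0 ≤ h - p4 ∧ (0 ≤ h - p4 - 1 ∨ 0 ≤ -p5 - 1) := by
  rcases hf with hf | ⟨hf0, hf⟩ | ⟨hf0, hf1, hf⟩
  · exact ⟨by linarith only [hf, ep4], Or.inl (by linarith only [hf, ep4])⟩
  · exact ⟨by linarith only [hf0, ep4], Or.inr (by linarith only [hf, ep5])⟩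
  · exact ⟨by linarith only [hf0, ep4], Or.inr (by linarith only [hf1, ep5])⟩

theorem FAt {n1 n2 n3 a1 a2 a3 b1 b2 b3 e y d1 hp h3 k g h m p0 p1 p2 p3 p4 p5 : ℤ}
    (B15 : 0 ≤ e - a1 - a2 + b1 + b2)
    (B16 : 0 ≤ a1 + a2 - b1 - b2 - e)
    (B17 : 0 ≤ e - 1)
    (B18 : 0 ≤ y + a1 + a2 + a3 - b1 - b2 - b3)
    (B19 : 0 ≤ -a1 - a2 - a3 + b1 + b2 + b3 - y)
    (B20 : 0 ≤ y - 1)
    (B21 : 0 ≤ d1 - a1 + b1)
    (B22 : 0 ≤ a1 - b1 - d1)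
    (B23 : 0 ≤ d1 - 1)
    (B24 : 0 ≤ y - 1)
    (B25 : 0 ≤ -y + 1)
    (ep0 : p0 = (d1) * (-n2 + b2 - n3 + b3))
    (ep1 : p1 = (e) * (-n2 + b2 - n3 + b3))
    (ep2 : p2 = (d1) * (-n3 + b3))
    (ep3 : p3 = (e) * (-n3 + b3))
    (ep4 : p4 = (d1) * (-m + 1))
    (ep5 : p5 = (e) * (-m + 1))
    (w1 : a1 - b1 = d1) (w2 : a1 + a2 - b1 - b2 = e) (w3 : a1 + a2 + a3 - b1 - b2 - b3 = -1)
    (hno : ¬ ∃ u1 u2 u3 : ℤ, Good n1 n2 n3 a1 a2 a3 b1 b2 b3 u1 u2 u3)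
    (hd : ∀ c1 c2 c3, LosC n1 n2 n3 a1 a2 a3 b1 b2 b3 c1 c2 c3 →
      ∃ v ∈ ([⟨0 ≤ b1 - 1, d1 + 1, -n2 + b2 + e + 1, -n2 + b2 - n3 + b3⟩, ⟨0 ≤ b1 + b2 - 1, -hp + d1, e + 1, -n3 + b3⟩, ⟨True, -h3, -k, 1⟩, ⟨True, 1, -g, 0⟩, ⟨True, -h, 1, -m + 1⟩] : List LV), v.ex ∧ v.c1 ≤ c1 ∧ v.c2 ≤ c2 ∧ v.c3 ≤ c3) :
    (0 ≤ b1 - 1 ∧ 0 ≤ -d1 - p0 - 1 ∧ (0 ≤ -d1 - p0 - 2 ∨ 0 ≤ n2 - b2 - e - p1 - 1)) ∨ (0 ≤ b1 + b2 - 1 ∧ 0 ≤ hp - d1 - p2 ∧ (0 ≤ hp - d1 - p2 - 1 ∨ 0 ≤ -e - p3 - 1)) ∨ (0 ≤ h3 - d1 ∧ (0 ≤ h3 - d1 - 1 ∨ 0 ≤ k - e)) ∨ (0 ≤ h - p4 ∧ (0 ≤ h - p4 - 1 ∨ 0 ≤ -p5 - 1)) := by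
  obtain ⟨v, hv, hex, hf⟩ := failA' w1 w2 w3 hno _ hd (1) (0) (d1) (0) (1) (e) (0) (0) (0)
    ⟨zero_le_one, le_refl 0, by linarith only [B15, B16, B17, B18, B19, B20, B21, B22, B23, B24, B25]⟩ ⟨le_refl 0, zero_le_one, by linarith only [B15, B16, B17, B18, B19, B20, B21, B22, B23, B24, B25]⟩ ⟨le_refl 0, le_refl 0, le_refl 0⟩
    (Or.inr ⟨by ring, Or.inr ⟨by ring, by linarith only [B15, B16, B17, B18, B19, B20, B21, B22, B23, B24, B25]⟩⟩)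
  simp only [List.mem_cons, List.not_mem_nil, or_false] at hv
  rcases hv with rfl | rfl | rfl | rfl | rfl
  · exact Or.inl (cvF_V2_V3_11 ep0 ep1 hex hf)
  · exact Or.inr (Or.inl (cvF_V2_V3_22 ep2 ep3 hex hf))
  · exact Or.inr (Or.inr (Or.inl (cvF_V2_V3_33 hf)))
  · exact (cvF_V2_V3_13 hf).elim
  · exact Or.inr (Or.inr (Or.inr (cvF_V2_V3_23 ep4 ep5 hf)))

theorem cvF_V3_V2_11 {b1 b2 b3 d1 e n2 n3 p0 p1 : ℤ}
    (ep0 : p0 = (d1) * (-n2 + b2 - n3 + b3))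
    (ep1 : p1 = (e) * (-n2 + b2 - n3 + b3))
    (hex : 0 ≤ b1 - 1)
    (hf : LexFail ((0) * (d1 + 1) + (1) * (-n2 + b2 + e + 1) + (e) * (-n2 + b2 - n3 + b3))
      ((1) * (d1 + 1) + (0) * (-n2 + b2 + e + 1) + (d1) * (-n2 + b2 - n3 + b3))
      ((0) * (d1 + 1) + (0) * (-n2 + b2 + e + 1) + (0) * (-n2 + b2 - n3 + b3))) :
    0 ≤ b1 - 1 ∧ 0 ≤ n2 - b2 - e - p1 - 1 ∧ (0 ≤ n2 - b2 - e - p1 - 2 ∨ 0 ≤ -d1 - p0 - 1) := by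
  rcases hf with hf | ⟨hf0, hf⟩ | ⟨hf0, hf1, hf⟩
  · exact ⟨by linarith only [hex], by linarith only [hf, ep1], Or.inl (by linarith only [hf, ep1])⟩
  · exact ⟨by linarith only [hex], by linarith only [hf0, ep1], Or.inr (by linarith only [hf, ep0])⟩
  · exact ⟨by linarith only [hex], by linarith only [hf0, ep1], Or.inr (by linarith only [hf1, ep0])⟩

theorem cvF_V3_V2_22 {b1 b2 b3 d1 e hp n3 p2 p3 : ℤ}
    (ep2 : p2 = (d1) * (-n3 + b3))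
    (ep3 : p3 = (e) * (-n3 + b3))
    (hex : 0 ≤ b1 + b2 - 1)
    (hf : LexFail ((0) * (-hp + d1) + (1) * (e + 1) + (e) * (-n3 + b3))
      ((1) * (-hp + d1) + (0) * (e + 1) + (d1) * (-n3 + b3))
      ((0) * (-hp + d1) + (0) * (e + 1) + (0) * (-n3 + b3))) :
    0 ≤ b1 + b2 - 1 ∧ 0 ≤ -e - p3 - 1 ∧ (0 ≤ -e - p3 - 2 ∨ 0 ≤ hp - d1 - p2) := by
  rcases hf with hf | ⟨hf0, hf⟩ | ⟨hf0, hf1, hf⟩
  · exact ⟨by linarith only [hex], by linarith only [hf, ep3], Or.inl (by linarith only [hf, ep3])⟩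
  · exact ⟨by linarith only [hex], by linarith only [hf0, ep3], Or.inr (by linarith only [hf, ep2])⟩
  · exact ⟨by linarith only [hex], by linarith only [hf0, ep3], Or.inr (by linarith only [hf1, ep2])⟩

theorem cvF_V3_V2_33 {d1 e h3 k : ℤ}
    (hf : LexFail ((0) * (-h3) + (1) * (-k) + (e) * (1))
      ((1) * (-h3) + (0) * (-k) + (d1) * (1))
      ((0) * (-h3) + (0) * (-k) + (0) * (1))) :
    0 ≤ k - e ∧ (0 ≤ k - e - 1 ∨ 0 ≤ h3 - d1) := by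
  rcases hf with hf | ⟨hf0, hf⟩ | ⟨hf0, hf1, hf⟩
  · exact ⟨by linarith only [hf], Or.inl (by linarith only [hf])⟩
  · exact ⟨by linarith only [hf0], Or.inr (by linarith only [hf])⟩
  · exact ⟨by linarith only [hf0], Or.inr (by linarith only [hf1])⟩

theorem cvF_V3_V2_13 {d1 e g : ℤ}
    (hf : LexFail ((0) * (1) + (1) * (-g) + (e) * (0))
      ((1) * (1) + (0) * (-g) + (d1) * (0))
      ((0) * (1) + (0) * (-g) + (0) * (0))) :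
    0 ≤ g ∧ 0 ≤ g - 1 := by
  rcases hf with hf | ⟨hf0, hf⟩ | ⟨hf0, hf1, hf⟩
  · exact ⟨by linarith only [hf], by linarith only [hf]⟩
  · exfalso; linarith only [hf]
  · exfalso; linarith only [hf1]

theorem cvF_V3_V2_23 {d1 e h m p4 p5 : ℤ}
    (ep4 : p4 = (d1) * (-m + 1))
    (ep5 : p5 = (e) * (-m + 1))
    (hf : LexFail ((0) * (-h) + (1) * (1) + (e) * (-m + 1))
      ((1) * (-h) + (0) * (1) + (d1) * (-m + 1))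
      ((0) * (-h) + (0) * (1) + (0) * (-m + 1))) :
    0 ≤ -p5 - 1 ∧ (0 ≤ -p5 - 2 ∨ 0 ≤ h - p4) := by
  rcases hf with hf | ⟨hf0, hf⟩ | ⟨hf0, hf1, hf⟩
  · exact ⟨by linarith only [hf, ep5], Or.inl (by linarith only [hf, ep5])⟩
  · exact ⟨by linarith only [hf0, ep5], Or.inr (by linarith only [hf, ep4])⟩
  · exact ⟨by linarith only [hf0, ep5], Or.inr (by linarith only [hf1, ep4])⟩

theorem FBt {n1 n2 n3 a1 a2 a3 b1 b2 b3 e y d1 hp h3 k g h m p0 p1 p2 p3 p4 p5 : ℤ}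
    (B15 : 0 ≤ e - a1 - a2 + b1 + b2)
    (B16 : 0 ≤ a1 + a2 - b1 - b2 - e)
    (B17 : 0 ≤ e - 1)
    (B18 : 0 ≤ y + a1 + a2 + a3 - b1 - b2 - b3)
    (B19 : 0 ≤ -a1 - a2 - a3 + b1 + b2 + b3 - y)
    (B20 : 0 ≤ y - 1)
    (B21 : 0 ≤ d1 - a1 + b1)
    (B22 : 0 ≤ a1 - b1 - d1)
    (B23 : 0 ≤ d1 - 1)
    (B24 : 0 ≤ y - 1)
    (B25 : 0 ≤ -y + 1)
    (ep0 : p0 = (d1) * (-n2 + b2 - n3 + b3))
    (ep1 : p1 = (e) * (-n2 + b2 - n3 + b3))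
    (ep2 : p2 = (d1) * (-n3 + b3))
    (ep3 : p3 = (e) * (-n3 + b3))
    (ep4 : p4 = (d1) * (-m + 1))
    (ep5 : p5 = (e) * (-m + 1))
    (w1 : a1 - b1 = d1) (w2 : a1 + a2 - b1 - b2 = e) (w3 : a1 + a2 + a3 - b1 - b2 - b3 = -1)
    (hno : ¬ ∃ u1 u2 u3 : ℤ, Good n1 n2 n3 a1 a2 a3 b1 b2 b3 u1 u2 u3)
    (hd : ∀ c1 c2 c3, LosC n1 n2 n3 a1 a2 a3 b1 b2 b3 c1 c2 c3 →
      ∃ v ∈ ([⟨0 ≤ b1 - 1, d1 + 1, -n2 + b2 + e + 1, -n2 + b2 - n3 + b3⟩, ⟨0 ≤ b1 + b2 - 1, -hp + d1, e + 1, -n3 + b3⟩, ⟨True, -h3, -k, 1⟩, ⟨True, 1, -g, 0⟩, ⟨True, -h, 1, -m + 1⟩] : List LV), v.ex ∧ v.c1 ≤ c1 ∧ v.c2 ≤ c2 ∧ v.c3 ≤ c3) :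
    (0 ≤ b1 - 1 ∧ 0 ≤ n2 - b2 - e - p1 - 1 ∧ (0 ≤ n2 - b2 - e - p1 - 2 ∨ 0 ≤ -d1 - p0 - 1)) ∨ (0 ≤ b1 + b2 - 1 ∧ 0 ≤ -e - p3 - 1 ∧ (0 ≤ -e - p3 - 2 ∨ 0 ≤ hp - d1 - p2)) ∨ (0 ≤ k - e ∧ (0 ≤ k - e - 1 ∨ 0 ≤ h3 - d1)) ∨ (0 ≤ g ∧ 0 ≤ g - 1) ∨ (0 ≤ -p5 - 1 ∧ (0 ≤ -p5 - 2 ∨ 0 ≤ h - p4)) := by
  obtain ⟨v, hv, hex, hf⟩ := failA' w1 w2 w3 hno _ hd (0) (1) (e) (1) (0) (d1) (0) (0) (0)
    ⟨le_refl 0, zero_le_one, by linarith only [B15, B16, B17, B18, B19, B20, B21, B22, B23, B24, B25]⟩ ⟨zero_le_one, le_refl 0, by linarith only [B15, B16, B17, B18, B19, B20, B21, B22, B23, B24, B25]⟩ ⟨le_refl 0, le_refl 0, le_refl 0⟩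
    (Or.inr ⟨by ring, Or.inr ⟨by ring, by linarith only [B15, B16, B17, B18, B19, B20, B21, B22, B23, B24, B25]⟩⟩)
  simp only [List.mem_cons, List.not_mem_nil, or_false] at hv
  rcases hv with rfl | rfl | rfl | rfl | rfl
  · exact Or.inl (cvF_V3_V2_11 ep0 ep1 hex hf)
  · exact Or.inr (Or.inl (cvF_V3_V2_22 ep2 ep3 hex hf))
  · exact Or.inr (Or.inr (Or.inl (cvF_V3_V2_33 hf)))
  · exact Or.inr (Or.inr (Or.inr (Or.inl (cvF_V3_V2_13 hf))))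
  · exact Or.inr (Or.inr (Or.inr (Or.inr (cvF_V3_V2_23 ep4 ep5 hf))))

theorem cvG_V3_V2_e3_11 {b1 b2 b3 d1 e n2 n3 p0 p1 : ℤ}
    (ep0 : p0 = (d1) * (-n2 + b2 - n3 + b3))
    (ep1 : p1 = (e) * (-n2 + b2 - n3 + b3))
    (hex : 0 ≤ b1 - 1)
    (hf : LexFail ((0) * (d1 + 1) + (1) * (-n2 + b2 + e + 1) + (e) * (-n2 + b2 - n3 + b3))
      ((1) * (d1 + 1) + (0) * (-n2 + b2 + e + 1) + (d1) * (-n2 + b2 - n3 + b3))
      ((0) * (d1 + 1) + (0) * (-n2 + b2 + e + 1) + (1) * (-n2 + b2 - n3 + b3))) :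
    (0 ≤ b1 - 1 ∧ 0 ≤ n2 - b2 - e - p1 - 2) ∨ (0 ≤ b1 - 1 ∧ 0 ≤ -n2 + b2 + e + p1 + 1 ∧ 0 ≤ n2 - b2 - e - p1 - 1 ∧ 0 ≤ -d1 - p0 - 2) ∨ (0 ≤ b1 - 1 ∧ 0 ≤ -n2 + b2 + e + p1 + 1 ∧ 0 ≤ n2 - b2 - e - p1 - 1 ∧ 0 ≤ d1 + p0 + 1 ∧ 0 ≤ -d1 - p0 - 1 ∧ 0 ≤ n2 - b2 + n3 - b3) := by
  rcases hf with hf | ⟨hf0, hf⟩ | ⟨hf0, hf1, hf⟩
  · exact Or.inl (⟨by linarith only [hex], by linarith only [hf, ep1]⟩)
  · exact Or.inr (Or.inl (⟨by linarith only [hex], by linarith only [hf0, ep1], by linarith only [hf0, ep1], by linarith only [hf, ep0]⟩))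
  · exact Or.inr (Or.inr (⟨by linarith only [hex], by linarith only [hf0, ep1], by linarith only [hf0, ep1], by linarith only [hf1, ep0], by linarith only [hf1, ep0], by linarith only [hf]⟩))

theorem cvG_V3_V2_e3_22 {b1 b2 b3 d1 e hp n3 p2 p3 : ℤ}
    (ep2 : p2 = (d1) * (-n3 + b3))
    (ep3 : p3 = (e) * (-n3 + b3))
    (hex : 0 ≤ b1 + b2 - 1)
    (hf : LexFail ((0) * (-hp + d1) + (1) * (e + 1) + (e) * (-n3 + b3))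
      ((1) * (-hp + d1) + (0) * (e + 1) + (d1) * (-n3 + b3))
      ((0) * (-hp + d1) + (0) * (e + 1) + (1) * (-n3 + b3))) :
    (0 ≤ b1 + b2 - 1 ∧ 0 ≤ -e - p3 - 2) ∨ (0 ≤ b1 + b2 - 1 ∧ 0 ≤ e + p3 + 1 ∧ 0 ≤ -e - p3 - 1 ∧ 0 ≤ hp - d1 - p2 - 1) ∨ (0 ≤ b1 + b2 - 1 ∧ 0 ≤ e + p3 + 1 ∧ 0 ≤ -e - p3 - 1 ∧ 0 ≤ -hp + d1 + p2 ∧ 0 ≤ hp - d1 - p2 ∧ 0 ≤ n3 - b3) := by
  rcases hf with hf | ⟨hf0, hf⟩ | ⟨hf0, hf1, hf⟩
  · exact Or.inl (⟨by linarith only [hex], by linarith only [hf, ep3]⟩)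
  · exact Or.inr (Or.inl (⟨by linarith only [hex], by linarith only [hf0, ep3], by linarith only [hf0, ep3], by linarith only [hf, ep2]⟩))
  · exact Or.inr (Or.inr (⟨by linarith only [hex], by linarith only [hf0, ep3], by linarith only [hf0, ep3], by linarith only [hf1, ep2], by linarith only [hf1, ep2], by linarith only [hf]⟩))

theorem cvG_V3_V2_e3_33 {d1 e h3 k : ℤ}
    (hf : LexFail ((0) * (-h3) + (1) * (-k) + (e) * (1))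
      ((1) * (-h3) + (0) * (-k) + (d1) * (1))
      ((0) * (-h3) + (0) * (-k) + (1) * (1))) :
    0 ≤ k - e - 1 ∨ (0 ≤ -k + e ∧ 0 ≤ k - e ∧ 0 ≤ h3 - d1 - 1) := by
  rcases hf with hf | ⟨hf0, hf⟩ | ⟨hf0, hf1, hf⟩
  · exact Or.inl (by linarith only [hf])
  · exact Or.inr (⟨by linarith only [hf0], by linarith only [hf0], by linarith only [hf]⟩)
  · exfalso; linarith only [hf]

theorem cvG_V3_V2_e3_13 {d1 e g : ℤ}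
    (hf : LexFail ((0) * (1) + (1) * (-g) + (e) * (0))
      ((1) * (1) + (0) * (-g) + (d1) * (0))
      ((0) * (1) + (0) * (-g) + (1) * (0))) :
    0 ≤ g - 1 := by
  rcases hf with hf | ⟨hf0, hf⟩ | ⟨hf0, hf1, hf⟩
  · exact by linarith only [hf]
  · exfalso; linarith only [hf]
  · exfalso; linarith only [hf1]

theorem cvG_V3_V2_e3_23 {d1 e h m p4 p5 : ℤ}
    (ep4 : p4 = (d1) * (-m + 1))
    (ep5 : p5 = (e) * (-m + 1))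
    (hf : LexFail ((0) * (-h) + (1) * (1) + (e) * (-m + 1))
      ((1) * (-h) + (0) * (1) + (d1) * (-m + 1))
      ((0) * (-h) + (0) * (1) + (1) * (-m + 1))) :
    0 ≤ -p5 - 2 ∨ (0 ≤ p5 + 1 ∧ 0 ≤ -p5 - 1 ∧ 0 ≤ h - p4 - 1) ∨ (0 ≤ p5 + 1 ∧ 0 ≤ -p5 - 1 ∧ 0 ≤ -h + p4 ∧ 0 ≤ h - p4 ∧ 0 ≤ m - 1) := by
  rcases hf with hf | ⟨hf0, hf⟩ | ⟨hf0, hf1, hf⟩
  · exact Or.inl (by linarith only [hf, ep5])
  · exact Or.inr (Or.inl (⟨by linarith only [hf0, ep5], by linarith only [hf0, ep5], by linarith only [hf, ep4]⟩))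
  · exact Or.inr (Or.inr (⟨by linarith only [hf0, ep5], by linarith only [hf0, ep5], by linarith only [hf1, ep4], by linarith only [hf1, ep4], by linarith only [hf]⟩))

theorem Gt_V3_V2_e3 {n1 n2 n3 a1 a2 a3 b1 b2 b3 e y d1 hp h3 k g h m p0 p1 p2 p3 p4 p5 : ℤ}
    (B15 : 0 ≤ e - a1 - a2 + b1 + b2)
    (B16 : 0 ≤ a1 + a2 - b1 - b2 - e)
    (B17 : 0 ≤ e - 1)
    (B18 : 0 ≤ y + a1 + a2 + a3 - b1 - b2 - b3)
    (B19 : 0 ≤ -a1 - a2 - a3 + b1 + b2 + b3 - y)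
    (B20 : 0 ≤ y - 1)
    (B21 : 0 ≤ d1 - a1 + b1)
    (B22 : 0 ≤ a1 - b1 - d1)
    (B23 : 0 ≤ d1 - 1)
    (B24 : 0 ≤ y - 1)
    (B25 : 0 ≤ -y + 1)
    (ep0 : p0 = (d1) * (-n2 + b2 - n3 + b3))
    (ep1 : p1 = (e) * (-n2 + b2 - n3 + b3))
    (ep2 : p2 = (d1) * (-n3 + b3))
    (ep3 : p3 = (e) * (-n3 + b3))
    (ep4 : p4 = (d1) * (-m + 1))
    (ep5 : p5 = (e) * (-m + 1))
    (w1 : a1 - b1 = d1) (w2 : a1 + a2 - b1 - b2 = e) (w3 : a1 + a2 + a3 - b1 - b2 - b3 = -1)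
    (hno : ¬ ∃ u1 u2 u3 : ℤ, Good n1 n2 n3 a1 a2 a3 b1 b2 b3 u1 u2 u3)
    (hd : ∀ c1 c2 c3, LosC n1 n2 n3 a1 a2 a3 b1 b2 b3 c1 c2 c3 →
      ∃ v ∈ ([⟨0 ≤ b1 - 1, d1 + 1, -n2 + b2 + e + 1, -n2 + b2 - n3 + b3⟩, ⟨0 ≤ b1 + b2 - 1, -hp + d1, e + 1, -n3 + b3⟩, ⟨True, -h3, -k, 1⟩, ⟨True, 1, -g, 0⟩, ⟨True, -h, 1, -m + 1⟩] : List LV), v.ex ∧ v.c1 ≤ c1 ∧ v.c2 ≤ c2 ∧ v.c3 ≤ c3) :
    ((0 ≤ b1 - 1 ∧ 0 ≤ n2 - b2 - e - p1 - 2) ∨ (0 ≤ b1 - 1 ∧ 0 ≤ -n2 + b2 + e + p1 + 1 ∧ 0 ≤ n2 - b2 - e - p1 - 1 ∧ 0 ≤ -d1 - p0 - 2) ∨ (0 ≤ b1 - 1 ∧ 0 ≤ -n2 + b2 + e + p1 + 1 ∧ 0 ≤ n2 - b2 - e - p1 - 1 ∧ 0 ≤ d1 + p0 + 1 ∧ 0 ≤ -d1 - p0 - 1 ∧ 0 ≤ n2 - b2 + n3 - b3)) ∨ ((0 ≤ b1 + b2 - 1 ∧ 0 ≤ -e - p3 - 2) ∨ (0 ≤ b1 + b2 - 1 ∧ 0 ≤ e + p3 + 1 ∧ 0 ≤ -e - p3 - 1 ∧ 0 ≤ hp - d1 - p2 - 1) ∨ (0 ≤ b1 + b2 - 1 ∧ 0 ≤ e + p3 + 1 ∧ 0 ≤ -e - p3 - 1 ∧ 0 ≤ -hp + d1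 + p2 ∧ 0 ≤ hp - d1 - p2 ∧ 0 ≤ n3 - b3)) ∨ (0 ≤ k - e - 1 ∨ (0 ≤ -k + e ∧ 0 ≤ k - e ∧ 0 ≤ h3 - d1 - 1)) ∨ (0 ≤ g - 1) ∨ (0 ≤ -p5 - 2 ∨ (0 ≤ p5 + 1 ∧ 0 ≤ -p5 - 1 ∧ 0 ≤ h - p4 - 1) ∨ (0 ≤ p5 + 1 ∧ 0 ≤ -p5 - 1 ∧ 0 ≤ -h + p4 ∧ 0 ≤ h - p4 ∧ 0 ≤ m - 1)) := by
  obtain ⟨v, hv, hex, hf⟩ := failA' w1 w2 w3 hno _ hd (0) (1) (e) (1) (0) (d1) (0) (0) (1)
    ⟨le_refl 0, zero_le_one, by linarith only [B15, B16, B17, B18, B19, B20, B21, B22, B23, B24, B25]⟩ ⟨zero_le_one, le_refl 0, by linarith only [B15, B16, B17, B18, B19, B20, B21, B22, B23, B24, B25]⟩ ⟨le_refl 0, le_refl 0, zero_le_one⟩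
    (Or.inr ⟨by ring, Or.inr ⟨by ring, by linarith only [B15, B16, B17, B18, B19, B20, B21, B22, B23, B24, B25]⟩⟩)
  simp only [List.mem_cons, List.not_mem_nil, or_false] at hv
  rcases hv with rfl | rfl | rfl | rfl | rfl
  · exact Or.inl (cvG_V3_V2_e3_11 ep0 ep1 hex hf)
  · exact Or.inr (Or.inl (cvG_V3_V2_e3_22 ep2 ep3 hex hf))
  · exact Or.inr (Or.inr (Or.inl (cvG_V3_V2_e3_33 hf)))
  · exact Or.inr (Or.inr (Or.inr (Or.inl (cvG_V3_V2_e3_13 hf))))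
  · exact Or.inr (Or.inr (Or.inr (Or.inr (cvG_V3_V2_e3_23 ep4 ep5 hf))))

theorem cvG_V2_V3_e3_11 {b1 b2 b3 d1 e n2 n3 p0 p1 : ℤ}
    (ep0 : p0 = (d1) * (-n2 + b2 - n3 + b3))
    (ep1 : p1 = (e) * (-n2 + b2 - n3 + b3))
    (hex : 0 ≤ b1 - 1)
    (hf : LexFail ((1) * (d1 + 1) + (0) * (-n2 + b2 + e + 1) + (d1) * (-n2 + b2 - n3 + b3))
      ((0) * (d1 + 1) + (1) * (-n2 + b2 + e + 1) + (e) * (-n2 + b2 - n3 + b3))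
      ((0) * (d1 + 1) + (0) * (-n2 + b2 + e + 1) + (1) * (-n2 + b2 - n3 + b3))) :
    (0 ≤ b1 - 1 ∧ 0 ≤ -d1 - p0 - 2) ∨ (0 ≤ b1 - 1 ∧ 0 ≤ d1 + p0 + 1 ∧ 0 ≤ -d1 - p0 - 1 ∧ 0 ≤ n2 - b2 - e - p1 - 2) ∨ (0 ≤ b1 - 1 ∧ 0 ≤ d1 + p0 + 1 ∧ 0 ≤ -d1 - p0 - 1 ∧ 0 ≤ -n2 + b2 + e + p1 + 1 ∧ 0 ≤ n2 - b2 - e - p1 - 1 ∧ 0 ≤ n2 - b2 + n3 - b3) := by
  rcases hf with hf | ⟨hf0, hf⟩ | ⟨hf0, hf1, hf⟩
  · exact Or.inl (⟨by linarith only [hex], by linarith only [hf, ep0]⟩)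
  · exact Or.inr (Or.inl (⟨by linarith only [hex], by linarith only [hf0, ep0], by linarith only [hf0, ep0], by linarith only [hf, ep1]⟩))
  · exact Or.inr (Or.inr (⟨by linarith only [hex], by linarith only [hf0, ep0], by linarith only [hf0, ep0], by linarith only [hf1, ep1], by linarith only [hf1, ep1], by linarith only [hf]⟩))

theorem cvG_V2_V3_e3_22 {b1 b2 b3 d1 e hp n3 p2 p3 : ℤ}
    (ep2 : p2 = (d1) * (-n3 + b3))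
    (ep3 : p3 = (e) * (-n3 + b3))
    (hex : 0 ≤ b1 + b2 - 1)
    (hf : LexFail ((1) * (-hp + d1) + (0) * (e + 1) + (d1) * (-n3 + b3))
      ((0) * (-hp + d1) + (1) * (e + 1) + (e) * (-n3 + b3))
      ((0) * (-hp + d1) + (0) * (e + 1) + (1) * (-n3 + b3))) :
    (0 ≤ b1 + b2 - 1 ∧ 0 ≤ hp - d1 - p2 - 1) ∨ (0 ≤ b1 + b2 - 1 ∧ 0 ≤ -hp + d1 + p2 ∧ 0 ≤ hp - d1 - p2 ∧ 0 ≤ -e - p3 - 2) ∨ (0 ≤ b1 + b2 - 1 ∧ 0 ≤ -hp + d1 + p2 ∧ 0 ≤ hp - d1 - p2 ∧ 0 ≤ e + p3 + 1 ∧ 0 ≤ -e - p3 - 1 ∧ 0 ≤ n3 - b3) := by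
  rcases hf with hf | ⟨hf0, hf⟩ | ⟨hf0, hf1, hf⟩
  · exact Or.inl (⟨by linarith only [hex], by linarith only [hf, ep2]⟩)
  · exact Or.inr (Or.inl (⟨by linarith only [hex], by linarith only [hf0, ep2], by linarith only [hf0, ep2], by linarith only [hf, ep3]⟩))
  · exact Or.inr (Or.inr (⟨by linarith only [hex], by linarith only [hf0, ep2], by linarith only [hf0, ep2], by linarith only [hf1, ep3], by linarith only [hf1, ep3], by linarith only [hf]⟩))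

theorem cvG_V2_V3_e3_33 {d1 e h3 k : ℤ}
    (hf : LexFail ((1) * (-h3) + (0) * (-k) + (d1) * (1))
      ((0) * (-h3) + (1) * (-k) + (e) * (1))
      ((0) * (-h3) + (0) * (-k) + (1) * (1))) :
    0 ≤ h3 - d1 - 1 ∨ (0 ≤ -h3 + d1 ∧ 0 ≤ h3 - d1 ∧ 0 ≤ k - e - 1) := by
  rcases hf with hf | ⟨hf0, hf⟩ | ⟨hf0, hf1, hf⟩
  · exact Or.inl (by linarith only [hf])
  · exact Or.inr (⟨by linarith only [hf0], by linarith only [hf0], by linarith only [hf]⟩)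
  · exfalso; linarith only [hf]

theorem cvG_V2_V3_e3_13 {d1 e g : ℤ}
    (hf : LexFail ((1) * (1) + (0) * (-g) + (d1) * (0))
      ((0) * (1) + (1) * (-g) + (e) * (0))
      ((0) * (1) + (0) * (-g) + (1) * (0))) :
    False := by
  rcases hf with hf | ⟨hf0, hf⟩ | ⟨hf0, hf1, hf⟩
  · exfalso; linarith only [hf]
  · exfalso; linarith only [hf0]
  · exfalso; linarith only [hf0]

theorem cvG_V2_V3_e3_23 {d1 e h m p4 p5 : ℤ}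
    (ep4 : p4 = (d1) * (-m + 1))
    (ep5 : p5 = (e) * (-m + 1))
    (hf : LexFail ((1) * (-h) + (0) * (1) + (d1) * (-m + 1))
      ((0) * (-h) + (1) * (1) + (e) * (-m + 1))
      ((0) * (-h) + (0) * (1) + (1) * (-m + 1))) :
    0 ≤ h - p4 - 1 ∨ (0 ≤ -h + p4 ∧ 0 ≤ h - p4 ∧ 0 ≤ -p5 - 2) ∨ (0 ≤ -h + p4 ∧ 0 ≤ h - p4 ∧ 0 ≤ p5 + 1 ∧ 0 ≤ -p5 - 1 ∧ 0 ≤ m - 1) := by
  rcases hf with hf | ⟨hf0, hf⟩ | ⟨hf0, hf1, hf⟩
  · exact Or.inl (by linarith only [hf, ep4])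
  · exact Or.inr (Or.inl (⟨by linarith only [hf0, ep4], by linarith only [hf0, ep4], by linarith only [hf, ep5]⟩))
  · exact Or.inr (Or.inr (⟨by linarith only [hf0, ep4], by linarith only [hf0, ep4], by linarith only [hf1, ep5], by linarith only [hf1, ep5], by linarith only [hf]⟩))

theorem Gt_V2_V3_e3 {n1 n2 n3 a1 a2 a3 b1 b2 b3 e y d1 hp h3 k g h m p0 p1 p2 p3 p4 p5 : ℤ}
    (B15 : 0 ≤ e - a1 - a2 + b1 + b2)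
    (B16 : 0 ≤ a1 + a2 - b1 - b2 - e)
    (B17 : 0 ≤ e - 1)
    (B18 : 0 ≤ y + a1 + a2 + a3 - b1 - b2 - b3)
    (B19 : 0 ≤ -a1 - a2 - a3 + b1 + b2 + b3 - y)
    (B20 : 0 ≤ y - 1)
    (B21 : 0 ≤ d1 - a1 + b1)
    (B22 : 0 ≤ a1 - b1 - d1)
    (B23 : 0 ≤ d1 - 1)
    (B24 : 0 ≤ y - 1)
    (B25 : 0 ≤ -y + 1)
    (ep0 : p0 = (d1) * (-n2 + b2 - n3 + b3))
    (ep1 : p1 = (e) * (-n2 + b2 - n3 + b3))
    (ep2 : p2 = (d1) * (-n3 + b3))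
    (ep3 : p3 = (e) * (-n3 + b3))
    (ep4 : p4 = (d1) * (-m + 1))
    (ep5 : p5 = (e) * (-m + 1))
    (w1 : a1 - b1 = d1) (w2 : a1 + a2 - b1 - b2 = e) (w3 : a1 + a2 + a3 - b1 - b2 - b3 = -1)
    (hno : ¬ ∃ u1 u2 u3 : ℤ, Good n1 n2 n3 a1 a2 a3 b1 b2 b3 u1 u2 u3)
    (hd : ∀ c1 c2 c3, LosC n1 n2 n3 a1 a2 a3 b1 b2 b3 c1 c2 c3 →
      ∃ v ∈ ([⟨0 ≤ b1 - 1, d1 + 1, -n2 + b2 + e + 1, -n2 + b2 - n3 + b3⟩, ⟨0 ≤ b1 + b2 - 1, -hp + d1, e + 1, -n3 + b3⟩, ⟨True, -h3, -k, 1⟩, ⟨True, 1, -g, 0⟩, ⟨True, -h, 1, -m + 1⟩] : List LV), v.ex ∧ v.c1 ≤ c1 ∧ v.c2 ≤ c2 ∧ v.c3 ≤ c3) :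
    ((0 ≤ b1 - 1 ∧ 0 ≤ -d1 - p0 - 2) ∨ (0 ≤ b1 - 1 ∧ 0 ≤ d1 + p0 + 1 ∧ 0 ≤ -d1 - p0 - 1 ∧ 0 ≤ n2 - b2 - e - p1 - 2) ∨ (0 ≤ b1 - 1 ∧ 0 ≤ d1 + p0 + 1 ∧ 0 ≤ -d1 - p0 - 1 ∧ 0 ≤ -n2 + b2 + e + p1 + 1 ∧ 0 ≤ n2 - b2 - e - p1 - 1 ∧ 0 ≤ n2 - b2 + n3 - b3)) ∨ ((0 ≤ b1 + b2 - 1 ∧ 0 ≤ hp - d1 - p2 - 1) ∨ (0 ≤ b1 + b2 - 1 ∧ 0 ≤ -hp + d1 + p2 ∧ 0 ≤ hp - d1 - p2 ∧ 0 ≤ -e - p3 - 2) ∨ (0 ≤ b1 + b2 - 1 ∧ 0 ≤ -hp + d1 + p2 ∧ 0 ≤ hp - d1 - p2 ∧ 0 ≤ e + p3 + 1 ∧ 0 ≤ -e - p3 - 1 ∧ 0 ≤ n3 - b3)) ∨ (0 ≤ h3 - d1 - 1 ∨ (0 ≤ -h3 + d1 ∧ 0 ≤ h3 - d1 ∧ 0 ≤ k - e - 1)) ∨ (0 ≤ h - p4 - 1 ∨ (0 ≤ -h + p4 ∧ 0 ≤ h - p4 ∧ 0 ≤ -p5 - 2) ∨ (0 ≤ -h + p4 ∧ 0 ≤ h - p4 ∧ 0 ≤ p5 + 1 ∧ 0 ≤ -p5 - 1 ∧ 0 ≤ m - 1)) := by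
  obtain ⟨v, hv, hex, hf⟩ := failA' w1 w2 w3 hno _ hd (1) (0) (d1) (0) (1) (e) (0) (0) (1)
    ⟨zero_le_one, le_refl 0, by linarith only [B15, B16, B17, B18, B19, B20, B21, B22, B23, B24, B25]⟩ ⟨le_refl 0, zero_le_one, by linarith only [B15, B16, B17, B18, B19, B20, B21, B22, B23, B24, B25]⟩ ⟨le_refl 0, le_refl 0, zero_le_one⟩
    (Or.inr ⟨by ring, Or.inr ⟨by ring, by linarith only [B15, B16, B17, B18, B19, B20, B21, B22, B23, B24, B25]⟩⟩)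
  simp only [List.mem_cons, List.not_mem_nil, or_false] at hv
  rcases hv with rfl | rfl | rfl | rfl | rfl
  · exact Or.inl (cvG_V2_V3_e3_11 ep0 ep1 hex hf)
  · exact Or.inr (Or.inl (cvG_V2_V3_e3_22 ep2 ep3 hex hf))
  · exact Or.inr (Or.inr (Or.inl (cvG_V2_V3_e3_33 hf)))
  · exact (cvG_V2_V3_e3_13 hf).elim
  · exact Or.inr (Or.inr (Or.inr (cvG_V2_V3_e3_23 ep4 ep5 hf)))

theorem cvG_e3_V2_V3_11 {b1 b2 b3 d1 e n2 n3 p0 p1 : ℤ}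
    (ep0 : p0 = (d1) * (-n2 + b2 - n3 + b3))
    (ep1 : p1 = (e) * (-n2 + b2 - n3 + b3))
    (hex : 0 ≤ b1 - 1)
    (hf : LexFail ((0) * (d1 + 1) + (0) * (-n2 + b2 + e + 1) + (1) * (-n2 + b2 - n3 + b3))
      ((1) * (d1 + 1) + (0) * (-n2 + b2 + e + 1) + (d1) * (-n2 + b2 - n3 + b3))
      ((0) * (d1 + 1) + (1) * (-n2 + b2 + e + 1) + (e) * (-n2 + b2 - n3 + b3))) :
    (0 ≤ b1 - 1 ∧ 0 ≤ n2 - b2 + n3 - b3 - 1) ∨ (0 ≤ b1 - 1 ∧ 0 ≤ -n2 + b2 - n3 + b3 ∧ 0 ≤ n2 - b2 + n3 - b3 ∧ 0 ≤ -d1 - p0 - 2) ∨ (0 ≤ b1 - 1 ∧ 0 ≤ -n2 + b2 - n3 + b3 ∧ 0 ≤ n2 - b2 + n3 - b3 ∧ 0 ≤ d1 + p0 + 1 ∧ 0 ≤ -d1 - p0 - 1 ∧ 0 ≤ n2 - b2 - e - p1 - 1) := by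
  rcases hf with hf | ⟨hf0, hf⟩ | ⟨hf0, hf1, hf⟩
  · exact Or.inl (⟨by linarith only [hex], by linarith only [hf]⟩)
  · exact Or.inr (Or.inl (⟨by linarith only [hex], by linarith only [hf0], by linarith only [hf0], by linarith only [hf, ep0]⟩))
  · exact Or.inr (Or.inr (⟨by linarith only [hex], by linarith only [hf0], by linarith only [hf0], by linarith only [hf1, ep0], by linarith only [hf1, ep0], by linarith only [hf, ep1]⟩))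

theorem cvG_e3_V2_V3_22 {b1 b2 b3 d1 e hp n3 p2 p3 : ℤ}
    (ep2 : p2 = (d1) * (-n3 + b3))
    (ep3 : p3 = (e) * (-n3 + b3))
    (hex : 0 ≤ b1 + b2 - 1)
    (hf : LexFail ((0) * (-hp + d1) + (0) * (e + 1) + (1) * (-n3 + b3))
      ((1) * (-hp + d1) + (0) * (e + 1) + (d1) * (-n3 + b3))
      ((0) * (-hp + d1) + (1) * (e + 1) + (e) * (-n3 + b3))) :
    (0 ≤ b1 + b2 - 1 ∧ 0 ≤ n3 - b3 - 1) ∨ (0 ≤ b1 + b2 - 1 ∧ 0 ≤ -n3 + b3 ∧ 0 ≤ n3 - b3 ∧ 0 ≤ hp - d1 - p2 - 1) ∨ (0 ≤ b1 + b2 - 1 ∧ 0 ≤ -n3 + b3 ∧ 0 ≤ n3 - b3 ∧ 0 ≤ -hp + d1 + p2 ∧ 0 ≤ hp - d1 - p2 ∧ 0 ≤ -e - p3 - 1) := by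
  rcases hf with hf | ⟨hf0, hf⟩ | ⟨hf0, hf1, hf⟩
  · exact Or.inl (⟨by linarith only [hex], by linarith only [hf]⟩)
  · exact Or.inr (Or.inl (⟨by linarith only [hex], by linarith only [hf0], by linarith only [hf0], by linarith only [hf, ep2]⟩))
  · exact Or.inr (Or.inr (⟨by linarith only [hex], by linarith only [hf0], by linarith only [hf0], by linarith only [hf1, ep2], by linarith only [hf1, ep2], by linarith only [hf, ep3]⟩))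

theorem cvG_e3_V2_V3_33 {d1 e h3 k : ℤ}
    (hf : LexFail ((0) * (-h3) + (0) * (-k) + (1) * (1))
      ((1) * (-h3) + (0) * (-k) + (d1) * (1))
      ((0) * (-h3) + (1) * (-k) + (e) * (1))) :
    False := by
  rcases hf with hf | ⟨hf0, hf⟩ | ⟨hf0, hf1, hf⟩
  · exfalso; linarith only [hf]
  · exfalso; linarith only [hf0]
  · exfalso; linarith only [hf0]

theorem cvG_e3_V2_V3_13 {d1 e g : ℤ}
    (hf : LexFail ((0) * (1) + (0) * (-g) + (1) * (0))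
      ((1) * (1) + (0) * (-g) + (d1) * (0))
      ((0) * (1) + (1) * (-g) + (e) * (0))) :
    False := by
  rcases hf with hf | ⟨hf0, hf⟩ | ⟨hf0, hf1, hf⟩
  · exfalso; linarith only [hf]
  · exfalso; linarith only [hf]
  · exfalso; linarith only [hf1]

theorem cvG_e3_V2_V3_23 {d1 e h m p4 p5 : ℤ}
    (ep4 : p4 = (d1) * (-m + 1))
    (ep5 : p5 = (e) * (-m + 1))
    (hf : LexFail ((0) * (-h) + (0) * (1) + (1) * (-m + 1))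
      ((1) * (-h) + (0) * (1) + (d1) * (-m + 1))
      ((0) * (-h) + (1) * (1) + (e) * (-m + 1))) :
    0 ≤ m - 2 ∨ (0 ≤ -m + 1 ∧ 0 ≤ m - 1 ∧ 0 ≤ h - p4 - 1) ∨ (0 ≤ -m + 1 ∧ 0 ≤ m - 1 ∧ 0 ≤ -h + p4 ∧ 0 ≤ h - p4 ∧ 0 ≤ -p5 - 1) := by
  rcases hf with hf | ⟨hf0, hf⟩ | ⟨hf0, hf1, hf⟩
  · exact Or.inl (by linarith only [hf])
  · exact Or.inr (Or.inl (⟨by linarith only [hf0], by linarith only [hf0], by linarith only [hf, ep4]⟩))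
  · exact Or.inr (Or.inr (⟨by linarith only [hf0], by linarith only [hf0], by linarith only [hf1, ep4], by linarith only [hf1, ep4], by linarith only [hf, ep5]⟩))

theorem Gt_e3_V2_V3 {n1 n2 n3 a1 a2 a3 b1 b2 b3 e y d1 hp h3 k g h m p0 p1 p2 p3 p4 p5 : ℤ}
    (B15 : 0 ≤ e - a1 - a2 + b1 + b2)
    (B16 : 0 ≤ a1 + a2 - b1 - b2 - e)
    (B17 : 0 ≤ e - 1)
    (B18 : 0 ≤ y + a1 + a2 + a3 - b1 - b2 - b3)
    (B19 : 0 ≤ -a1 - a2 - a3 + b1 + b2 + b3 - y)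
    (B20 : 0 ≤ y - 1)
    (B21 : 0 ≤ d1 - a1 + b1)
    (B22 : 0 ≤ a1 - b1 - d1)
    (B23 : 0 ≤ d1 - 1)
    (B24 : 0 ≤ y - 1)
    (B25 : 0 ≤ -y + 1)
    (ep0 : p0 = (d1) * (-n2 + b2 - n3 + b3))
    (ep1 : p1 = (e) * (-n2 + b2 - n3 + b3))
    (ep2 : p2 = (d1) * (-n3 + b3))
    (ep3 : p3 = (e) * (-n3 + b3))
    (ep4 : p4 = (d1) * (-m + 1))
    (ep5 : p5 = (e) * (-m + 1))
    (w1 : a1 - b1 = d1) (w2 : a1 + a2 - b1 - b2 = e) (w3 : a1 + a2 + a3 - b1 - b2 - b3 = -1)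
    (hno : ¬ ∃ u1 u2 u3 : ℤ, Good n1 n2 n3 a1 a2 a3 b1 b2 b3 u1 u2 u3)
    (hd : ∀ c1 c2 c3, LosC n1 n2 n3 a1 a2 a3 b1 b2 b3 c1 c2 c3 →
      ∃ v ∈ ([⟨0 ≤ b1 - 1, d1 + 1, -n2 + b2 + e + 1, -n2 + b2 - n3 + b3⟩, ⟨0 ≤ b1 + b2 - 1, -hp + d1, e + 1, -n3 + b3⟩, ⟨True, -h3, -k, 1⟩, ⟨True, 1, -g, 0⟩, ⟨True, -h, 1, -m + 1⟩] : List LV), v.ex ∧ v.c1 ≤ c1 ∧ v.c2 ≤ c2 ∧ v.c3 ≤ c3) :
    ((0 ≤ b1 - 1 ∧ 0 ≤ n2 - b2 + n3 - b3 - 1) ∨ (0 ≤ b1 - 1 ∧ 0 ≤ -n2 + b2 - n3 + b3 ∧ 0 ≤ n2 - b2 + n3 - b3 ∧ 0 ≤ -d1 - p0 - 2) ∨ (0 ≤ b1 - 1 ∧ 0 ≤ -n2 + b2 - n3 + b3 ∧ 0 ≤ n2 - b2 + n3 - b3 ∧ 0 ≤ d1 + p0 + 1 ∧ 0 ≤ -d1 - p0 - 1 ∧ 0 ≤ n2 - b2 - e - p1 - 1)) ∨ ((0 ≤ b1 + b2 - 1 ∧ 0 ≤ n3 - b3 - 1) ∨ (0 ≤ b1 + b2 - 1 ∧ 0 ≤ -n3 + b3 ∧ 0 ≤ n3 - b3 ∧ 0 ≤ hp - d1 - p2 - 1) ∨ (0 ≤ b1 + b2 - 1 ∧ 0 ≤ -n3 + b3 ∧ 0 ≤ n3 - b3 ∧ 0 ≤ -hp + d1 + p2 ∧ 0 ≤ hp - d1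 - p2 ∧ 0 ≤ -e - p3 - 1)) ∨ (0 ≤ m - 2 ∨ (0 ≤ -m + 1 ∧ 0 ≤ m - 1 ∧ 0 ≤ h - p4 - 1) ∨ (0 ≤ -m + 1 ∧ 0 ≤ m - 1 ∧ 0 ≤ -h + p4 ∧ 0 ≤ h - p4 ∧ 0 ≤ -p5 - 1)) := by
  obtain ⟨v, hv, hex, hf⟩ := failA' w1 w2 w3 hno _ hd (0) (0) (1) (1) (0) (d1) (0) (1) (e)
    ⟨le_refl 0, le_refl 0, zero_le_one⟩ ⟨zero_le_one, le_refl 0, by linarith only [B15, B16, B17, B18, B19, B20, B21, B22, B23, B24, B25]⟩ ⟨le_refl 0, zero_le_one, by linarith only [B15, B16, B17, B18, B19, B20, B21, B22, B23, B24, B25]⟩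
    (Or.inl (by linarith only [B15, B16, B17, B18, B19, B20, B21, B22, B23, B24, B25]))
  simp only [List.mem_cons, List.not_mem_nil, or_false] at hv
  rcases hv with rfl | rfl | rfl | rfl | rfl
  · exact Or.inl (cvG_e3_V2_V3_11 ep0 ep1 hex hf)
  · exact Or.inr (Or.inl (cvG_e3_V2_V3_22 ep2 ep3 hex hf))
  · exact (cvG_e3_V2_V3_33 hf).elim
  · exact (cvG_e3_V2_V3_13 hf).elim
  · exact Or.inr (Or.inr (cvG_e3_V2_V3_23 ep4 ep5 hf))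

theorem cvG_e3_V3_V2_11 {b1 b2 b3 d1 e n2 n3 p0 p1 : ℤ}
    (ep0 : p0 = (d1) * (-n2 + b2 - n3 + b3))
    (ep1 : p1 = (e) * (-n2 + b2 - n3 + b3))
    (hex : 0 ≤ b1 - 1)
    (hf : LexFail ((0) * (d1 + 1) + (0) * (-n2 + b2 + e + 1) + (1) * (-n2 + b2 - n3 + b3))
      ((0) * (d1 + 1) + (1) * (-n2 + b2 + e + 1) + (e) * (-n2 + b2 - n3 + b3))
      ((1) * (d1 + 1) + (0) * (-n2 + b2 + e + 1) + (d1) * (-n2 + b2 - n3 + b3))) :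
    (0 ≤ b1 - 1 ∧ 0 ≤ n2 - b2 + n3 - b3 - 1) ∨ (0 ≤ b1 - 1 ∧ 0 ≤ -n2 + b2 - n3 + b3 ∧ 0 ≤ n2 - b2 + n3 - b3 ∧ 0 ≤ n2 - b2 - e - p1 - 2) ∨ (0 ≤ b1 - 1 ∧ 0 ≤ -n2 + b2 - n3 + b3 ∧ 0 ≤ n2 - b2 + n3 - b3 ∧ 0 ≤ -n2 + b2 + e + p1 + 1 ∧ 0 ≤ n2 - b2 - e - p1 - 1 ∧ 0 ≤ -d1 - p0 - 1) := by
  rcases hf with hf | ⟨hf0, hf⟩ | ⟨hf0, hf1, hf⟩
  · exact Or.inl (⟨by linarith only [hex], by linarith only [hf]⟩)
  · exact Or.inr (Or.inl (⟨by linarith only [hex], by linarith only [hf0], by linarith only [hf0], by linarith only [hf, ep1]⟩))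
  · exact Or.inr (Or.inr (⟨by linarith only [hex], by linarith only [hf0], by linarith only [hf0], by linarith only [hf1, ep1], by linarith only [hf1, ep1], by linarith only [hf, ep0]⟩))

theorem cvG_e3_V3_V2_22 {b1 b2 b3 d1 e hp n3 p2 p3 : ℤ}
    (ep2 : p2 = (d1) * (-n3 + b3))
    (ep3 : p3 = (e) * (-n3 + b3))
    (hex : 0 ≤ b1 + b2 - 1)
    (hf : LexFail ((0) * (-hp + d1) + (0) * (e + 1) + (1) * (-n3 + b3))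
      ((0) * (-hp + d1) + (1) * (e + 1) + (e) * (-n3 + b3))
      ((1) * (-hp + d1) + (0) * (e + 1) + (d1) * (-n3 + b3))) :
    (0 ≤ b1 + b2 - 1 ∧ 0 ≤ n3 - b3 - 1) ∨ (0 ≤ b1 + b2 - 1 ∧ 0 ≤ -n3 + b3 ∧ 0 ≤ n3 - b3 ∧ 0 ≤ -e - p3 - 2) ∨ (0 ≤ b1 + b2 - 1 ∧ 0 ≤ -n3 + b3 ∧ 0 ≤ n3 - b3 ∧ 0 ≤ e + p3 + 1 ∧ 0 ≤ -e - p3 - 1 ∧ 0 ≤ hp - d1 - p2) := by
  rcases hf with hf | ⟨hf0, hf⟩ | ⟨hf0, hf1, hf⟩
  · exact Or.inl (⟨by linarith only [hex], by linarith only [hf]⟩)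
  · exact Or.inr (Or.inl (⟨by linarith only [hex], by linarith only [hf0], by linarith only [hf0], by linarith only [hf, ep3]⟩))
  · exact Or.inr (Or.inr (⟨by linarith only [hex], by linarith only [hf0], by linarith only [hf0], by linarith only [hf1, ep3], by linarith only [hf1, ep3], by linarith only [hf, ep2]⟩))

theorem cvG_e3_V3_V2_33 {d1 e h3 k : ℤ}
    (hf : LexFail ((0) * (-h3) + (0) * (-k) + (1) * (1))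
      ((0) * (-h3) + (1) * (-k) + (e) * (1))
      ((1) * (-h3) + (0) * (-k) + (d1) * (1))) :
    False := by
  rcases hf with hf | ⟨hf0, hf⟩ | ⟨hf0, hf1, hf⟩
  · exfalso; linarith only [hf]
  · exfalso; linarith only [hf0]
  · exfalso; linarith only [hf0]

theorem cvG_e3_V3_V2_13 {d1 e g : ℤ}
    (hf : LexFail ((0) * (1) + (0) * (-g) + (1) * (0))
      ((0) * (1) + (1) * (-g) + (e) * (0))
      ((1) * (1) + (0) * (-g) + (d1) * (0))) :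
    0 ≤ g - 1 := by
  rcases hf with hf | ⟨hf0, hf⟩ | ⟨hf0, hf1, hf⟩
  · exfalso; linarith only [hf]
  · exact by linarith only [hf]
  · exfalso; linarith only [hf]

theorem cvG_e3_V3_V2_23 {d1 e h m p4 p5 : ℤ}
    (ep4 : p4 = (d1) * (-m + 1))
    (ep5 : p5 = (e) * (-m + 1))
    (hf : LexFail ((0) * (-h) + (0) * (1) + (1) * (-m + 1))
      ((0) * (-h) + (1) * (1) + (e) * (-m + 1))
      ((1) * (-h) + (0) * (1) + (d1) * (-m + 1))) :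
    0 ≤ m - 2 ∨ (0 ≤ -m + 1 ∧ 0 ≤ m - 1 ∧ 0 ≤ -p5 - 2) ∨ (0 ≤ -m + 1 ∧ 0 ≤ m - 1 ∧ 0 ≤ p5 + 1 ∧ 0 ≤ -p5 - 1 ∧ 0 ≤ h - p4) := by
  rcases hf with hf | ⟨hf0, hf⟩ | ⟨hf0, hf1, hf⟩
  · exact Or.inl (by linarith only [hf])
  · exact Or.inr (Or.inl (⟨by linarith only [hf0], by linarith only [hf0], by linarith only [hf, ep5]⟩))
  · exact Or.inr (Or.inr (⟨by linarith only [hf0], by linarith only [hf0], by linarith only [hf1, ep5], by linarith only [hf1, ep5], by linarith only [hf, ep4]⟩))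

theorem Gt_e3_V3_V2 {n1 n2 n3 a1 a2 a3 b1 b2 b3 e y d1 hp h3 k g h m p0 p1 p2 p3 p4 p5 : ℤ}
    (B15 : 0 ≤ e - a1 - a2 + b1 + b2)
    (B16 : 0 ≤ a1 + a2 - b1 - b2 - e)
    (B17 : 0 ≤ e - 1)
    (B18 : 0 ≤ y + a1 + a2 + a3 - b1 - b2 - b3)
    (B19 : 0 ≤ -a1 - a2 - a3 + b1 + b2 + b3 - y)
    (B20 : 0 ≤ y - 1)
    (B21 : 0 ≤ d1 - a1 + b1)
    (B22 : 0 ≤ a1 - b1 - d1)
    (B23 : 0 ≤ d1 - 1)
    (B24 : 0 ≤ y - 1)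
    (B25 : 0 ≤ -y + 1)
    (ep0 : p0 = (d1) * (-n2 + b2 - n3 + b3))
    (ep1 : p1 = (e) * (-n2 + b2 - n3 + b3))
    (ep2 : p2 = (d1) * (-n3 + b3))
    (ep3 : p3 = (e) * (-n3 + b3))
    (ep4 : p4 = (d1) * (-m + 1))
    (ep5 : p5 = (e) * (-m + 1))
    (w1 : a1 - b1 = d1) (w2 : a1 + a2 - b1 - b2 = e) (w3 : a1 + a2 + a3 - b1 - b2 - b3 = -1)
    (hno : ¬ ∃ u1 u2 u3 : ℤ, Good n1 n2 n3 a1 a2 a3 b1 b2 b3 u1 u2 u3)
    (hd : ∀ c1 c2 c3, LosC n1 n2 n3 a1 a2 a3 b1 b2 b3 c1 c2 c3 →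
      ∃ v ∈ ([⟨0 ≤ b1 - 1, d1 + 1, -n2 + b2 + e + 1, -n2 + b2 - n3 + b3⟩, ⟨0 ≤ b1 + b2 - 1, -hp + d1, e + 1, -n3 + b3⟩, ⟨True, -h3, -k, 1⟩, ⟨True, 1, -g, 0⟩, ⟨True, -h, 1, -m + 1⟩] : List LV), v.ex ∧ v.c1 ≤ c1 ∧ v.c2 ≤ c2 ∧ v.c3 ≤ c3) :
    ((0 ≤ b1 - 1 ∧ 0 ≤ n2 - b2 + n3 - b3 - 1) ∨ (0 ≤ b1 - 1 ∧ 0 ≤ -n2 + b2 - n3 + b3 ∧ 0 ≤ n2 - b2 + n3 - b3 ∧ 0 ≤ n2 - b2 - e - p1 - 2) ∨ (0 ≤ b1 - 1 ∧ 0 ≤ -n2 + b2 - n3 + b3 ∧ 0 ≤ n2 - b2 + n3 - b3 ∧ 0 ≤ -n2 + b2 + e + p1 + 1 ∧ 0 ≤ n2 - b2 - e - p1 - 1 ∧ 0 ≤ -d1 - p0 - 1)) ∨ ((0 ≤ b1 + b2 - 1 ∧ 0 ≤ n3 - b3 - 1) ∨ (0 ≤ b1 + b2 - 1 ∧ 0 ≤ -n3 + b3 ∧ 0 ≤ n3 - b3 ∧ 0 ≤ -e - p3 - 2) ∨ (0 ≤ b1 + b2 - 1 ∧ 0 ≤ -n3 + b3 ∧ 0 ≤ n3 - b3 ∧ 0 ≤ e + p3 + 1 ∧ 0 ≤ -e - p3 - 1 ∧ 0 ≤ hp - d1 - p2)) ∨ (0 ≤ g - 1) ∨ (0 ≤ m - 2 ∨ (0 ≤ -m + 1 ∧ 0 ≤ m - 1 ∧ 0 ≤ -p5 - 2) ∨ (0 ≤ -m + 1 ∧ 0 ≤ m - 1 ∧ 0 ≤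 p5 + 1 ∧ 0 ≤ -p5 - 1 ∧ 0 ≤ h - p4)) := by
  obtain ⟨v, hv, hex, hf⟩ := failA' w1 w2 w3 hno _ hd (0) (0) (1) (0) (1) (e) (1) (0) (d1)
    ⟨le_refl 0, le_refl 0, zero_le_one⟩ ⟨le_refl 0, zero_le_one, by linarith only [B15, B16, B17, B18, B19, B20, B21, B22, B23, B24, B25]⟩ ⟨zero_le_one, le_refl 0, by linarith only [B15, B16, B17, B18, B19, B20, B21, B22, B23, B24, B25]⟩
    (Or.inl (by linarith only [B15, B16, B17, B18, B19, B20, B21, B22, B23, B24, B25]))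
  simp only [List.mem_cons, List.not_mem_nil, or_false] at hv
  rcases hv with rfl | rfl | rfl | rfl | rfl
  · exact Or.inl (cvG_e3_V3_V2_11 ep0 ep1 hex hf)
  · exact Or.inr (Or.inl (cvG_e3_V3_V2_22 ep2 ep3 hex hf))
  · exact (cvG_e3_V3_V2_33 hf).elim
  · exact Or.inr (Or.inr (Or.inl (cvG_e3_V3_V2_13 hf)))
  · exact Or.inr (Or.inr (Or.inr (cvG_e3_V3_V2_23 ep4 ep5 hf)))

theorem cvG_V3_e3_V2_11 {b1 b2 b3 d1 e n2 n3 p0 p1 : ℤ}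
    (ep0 : p0 = (d1) * (-n2 + b2 - n3 + b3))
    (ep1 : p1 = (e) * (-n2 + b2 - n3 + b3))
    (hex : 0 ≤ b1 - 1)
    (hf : LexFail ((0) * (d1 + 1) + (1) * (-n2 + b2 + e + 1) + (e) * (-n2 + b2 - n3 + b3))
      ((0) * (d1 + 1) + (0) * (-n2 + b2 + e + 1) + (1) * (-n2 + b2 - n3 + b3))
      ((1) * (d1 + 1) + (0) * (-n2 + b2 + e + 1) + (d1) * (-n2 + b2 - n3 + b3))) :
    (0 ≤ b1 - 1 ∧ 0 ≤ n2 - b2 - e - p1 - 2) ∨ (0 ≤ b1 - 1 ∧ 0 ≤ -n2 + b2 + e + p1 + 1 ∧ 0 ≤ n2 - b2 - e - p1 - 1 ∧ 0 ≤ n2 - b2 + n3 - b3 - 1) ∨ (0 ≤ b1 - 1 ∧ 0 ≤ -n2 + b2 + e + p1 + 1 ∧ 0 ≤ n2 - b2 - e - p1 - 1 ∧ 0 ≤ -n2 + b2 - n3 + b3 ∧ 0 ≤ n2 - b2 + n3 - b3 ∧ 0 ≤ -d1 - p0 - 1) := by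
  rcases hf with hf | ⟨hf0, hf⟩ | ⟨hf0, hf1, hf⟩
  · exact Or.inl (⟨by linarith only [hex], by linarith only [hf, ep1]⟩)
  · exact Or.inr (Or.inl (⟨by linarith only [hex], by linarith only [hf0, ep1], by linarith only [hf0, ep1], by linarith only [hf]⟩))
  · exact Or.inr (Or.inr (⟨by linarith only [hex], by linarith only [hf0, ep1], by linarith only [hf0, ep1], by linarith only [hf1], by linarith only [hf1], by linarith only [hf, ep0]⟩))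

theorem cvG_V3_e3_V2_22 {b1 b2 b3 d1 e hp n3 p2 p3 : ℤ}
    (ep2 : p2 = (d1) * (-n3 + b3))
    (ep3 : p3 = (e) * (-n3 + b3))
    (hex : 0 ≤ b1 + b2 - 1)
    (hf : LexFail ((0) * (-hp + d1) + (1) * (e + 1) + (e) * (-n3 + b3))
      ((0) * (-hp + d1) + (0) * (e + 1) + (1) * (-n3 + b3))
      ((1) * (-hp + d1) + (0) * (e + 1) + (d1) * (-n3 + b3))) :
    (0 ≤ b1 + b2 - 1 ∧ 0 ≤ -e - p3 - 2) ∨ (0 ≤ b1 + b2 - 1 ∧ 0 ≤ e + p3 + 1 ∧ 0 ≤ -e - p3 - 1 ∧ 0 ≤ n3 - b3 - 1) ∨ (0 ≤ b1 + b2 - 1 ∧ 0 ≤ e + p3 + 1 ∧ 0 ≤ -e - p3 - 1 ∧ 0 ≤ -n3 + b3 ∧ 0 ≤ n3 - b3 ∧ 0 ≤ hp - d1 - p2) := by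
  rcases hf with hf | ⟨hf0, hf⟩ | ⟨hf0, hf1, hf⟩
  · exact Or.inl (⟨by linarith only [hex], by linarith only [hf, ep3]⟩)
  · exact Or.inr (Or.inl (⟨by linarith only [hex], by linarith only [hf0, ep3], by linarith only [hf0, ep3], by linarith only [hf]⟩))
  · exact Or.inr (Or.inr (⟨by linarith only [hex], by linarith only [hf0, ep3], by linarith only [hf0, ep3], by linarith only [hf1], by linarith only [hf1], by linarith only [hf, ep2]⟩))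

theorem cvG_V3_e3_V2_33 {d1 e h3 k : ℤ}
    (hf : LexFail ((0) * (-h3) + (1) * (-k) + (e) * (1))
      ((0) * (-h3) + (0) * (-k) + (1) * (1))
      ((1) * (-h3) + (0) * (-k) + (d1) * (1))) :
    0 ≤ k - e - 1 := by
  rcases hf with hf | ⟨hf0, hf⟩ | ⟨hf0, hf1, hf⟩
  · exact by linarith only [hf]
  · exfalso; linarith only [hf]
  · exfalso; linarith only [hf1]

theorem cvG_V3_e3_V2_13 {d1 e g : ℤ}
    (hf : LexFail ((0) * (1) + (1) * (-g) + (e) * (0))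
      ((0) * (1) + (0) * (-g) + (1) * (0))
      ((1) * (1) + (0) * (-g) + (d1) * (0))) :
    0 ≤ g - 1 := by
  rcases hf with hf | ⟨hf0, hf⟩ | ⟨hf0, hf1, hf⟩
  · exact by linarith only [hf]
  · exfalso; linarith only [hf]
  · exfalso; linarith only [hf]

theorem cvG_V3_e3_V2_23 {d1 e h m p4 p5 : ℤ}
    (ep4 : p4 = (d1) * (-m + 1))
    (ep5 : p5 = (e) * (-m + 1))
    (hf : LexFail ((0) * (-h) + (1) * (1) + (e) * (-m + 1))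
      ((0) * (-h) + (0) * (1) + (1) * (-m + 1))
      ((1) * (-h) + (0) * (1) + (d1) * (-m + 1))) :
    0 ≤ -p5 - 2 ∨ (0 ≤ p5 + 1 ∧ 0 ≤ -p5 - 1 ∧ 0 ≤ m - 2) ∨ (0 ≤ p5 + 1 ∧ 0 ≤ -p5 - 1 ∧ 0 ≤ -m + 1 ∧ 0 ≤ m - 1 ∧ 0 ≤ h - p4) := by
  rcases hf with hf | ⟨hf0, hf⟩ | ⟨hf0, hf1, hf⟩
  · exact Or.inl (by linarith only [hf, ep5])
  · exact Or.inr (Or.inl (⟨by linarith only [hf0, ep5], by linarith only [hf0, ep5], by linarith only [hf]⟩))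
  · exact Or.inr (Or.inr (⟨by linarith only [hf0, ep5], by linarith only [hf0, ep5], by linarith only [hf1], by linarith only [hf1], by linarith only [hf, ep4]⟩))

theorem Gt_V3_e3_V2 {n1 n2 n3 a1 a2 a3 b1 b2 b3 e y d1 hp h3 k g h m p0 p1 p2 p3 p4 p5 : ℤ}
    (B15 : 0 ≤ e - a1 - a2 + b1 + b2)
    (B16 : 0 ≤ a1 + a2 - b1 - b2 - e)
    (B17 : 0 ≤ e - 1)
    (B18 : 0 ≤ y + a1 + a2 + a3 - b1 - b2 - b3)
    (B19 : 0 ≤ -a1 - a2 - a3 + b1 + b2 + b3 - y)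
    (B20 : 0 ≤ y - 1)
    (B21 : 0 ≤ d1 - a1 + b1)
    (B22 : 0 ≤ a1 - b1 - d1)
    (B23 : 0 ≤ d1 - 1)
    (B24 : 0 ≤ y - 1)
    (B25 : 0 ≤ -y + 1)
    (ep0 : p0 = (d1) * (-n2 + b2 - n3 + b3))
    (ep1 : p1 = (e) * (-n2 + b2 - n3 + b3))
    (ep2 : p2 = (d1) * (-n3 + b3))
    (ep3 : p3 = (e) * (-n3 + b3))
    (ep4 : p4 = (d1) * (-m + 1))
    (ep5 : p5 = (e) * (-m + 1))
    (w1 : a1 - b1 = d1) (w2 : a1 + a2 - b1 - b2 = e) (w3 : a1 + a2 + a3 - b1 - b2 - b3 = -1)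
    (hno : ¬ ∃ u1 u2 u3 : ℤ, Good n1 n2 n3 a1 a2 a3 b1 b2 b3 u1 u2 u3)
    (hd : ∀ c1 c2 c3, LosC n1 n2 n3 a1 a2 a3 b1 b2 b3 c1 c2 c3 →
      ∃ v ∈ ([⟨0 ≤ b1 - 1, d1 + 1, -n2 + b2 + e + 1, -n2 + b2 - n3 + b3⟩, ⟨0 ≤ b1 + b2 - 1, -hp + d1, e + 1, -n3 + b3⟩, ⟨True, -h3, -k, 1⟩, ⟨True, 1, -g, 0⟩, ⟨True, -h, 1, -m + 1⟩] : List LV), v.ex ∧ v.c1 ≤ c1 ∧ v.c2 ≤ c2 ∧ v.c3 ≤ c3) :
    ((0 ≤ b1 - 1 ∧ 0 ≤ n2 - b2 - e - p1 - 2) ∨ (0 ≤ b1 - 1 ∧ 0 ≤ -n2 + b2 + e + p1 + 1 ∧ 0 ≤ n2 - b2 - e - p1 - 1 ∧ 0 ≤ n2 - b2 + n3 - b3 - 1) ∨ (0 ≤ b1 - 1 ∧ 0 ≤ -n2 + b2 + e + p1 + 1 ∧ 0 ≤ n2 - b2 - e - p1 - 1 ∧ 0 ≤ -n2 + b2 - n3 + b3 ∧ 0 ≤ n2 - b2 + n3 - b3 ∧ 0 ≤ -d1 - p0 - 1)) ∨ ((0 ≤ b1 + b2 - 1 ∧ 0 ≤ -e - p3 - 2) ∨ (0 ≤ b1 + b2 - 1 ∧ 0 ≤ e + p3 + 1 ∧ 0 ≤ -e - p3 - 1 ∧ 0 ≤ n3 - b3 - 1) ∨ (0 ≤ b1 + b2 - 1 ∧ 0 ≤ e + p3 + 1 ∧ 0 ≤ -e - p3 - 1 ∧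 0 ≤ -n3 + b3 ∧ 0 ≤ n3 - b3 ∧ 0 ≤ hp - d1 - p2)) ∨ (0 ≤ k - e - 1) ∨ (0 ≤ g - 1) ∨ (0 ≤ -p5 - 2 ∨ (0 ≤ p5 + 1 ∧ 0 ≤ -p5 - 1 ∧ 0 ≤ m - 2) ∨ (0 ≤ p5 + 1 ∧ 0 ≤ -p5 - 1 ∧ 0 ≤ -m + 1 ∧ 0 ≤ m - 1 ∧ 0 ≤ h - p4)) := by
  obtain ⟨v, hv, hex, hf⟩ := failA' w1 w2 w3 hno _ hd (0) (1) (e) (0) (0) (1) (1) (0) (d1)
    ⟨le_refl 0, zero_le_one, by linarith only [B15, B16, B17, B18, B19, B20, B21, B22, B23, B24, B25]⟩ ⟨le_refl 0, le_refl 0, zero_le_one⟩ ⟨zero_le_one, le_refl 0, by linarith only [B15, B16, B17, B18, B19, B20, B21, B22, B23, B24, B25]⟩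
    (Or.inr ⟨by ring, Or.inl (by linarith only [B15, B16, B17, B18, B19, B20, B21, B22, B23, B24, B25])⟩)
  simp only [List.mem_cons, List.not_mem_nil, or_false] at hv
  rcases hv with rfl | rfl | rfl | rfl | rfl
  · exact Or.inl (cvG_V3_e3_V2_11 ep0 ep1 hex hf)
  · exact Or.inr (Or.inl (cvG_V3_e3_V2_22 ep2 ep3 hex hf))
  · exact Or.inr (Or.inr (Or.inl (cvG_V3_e3_V2_33 hf)))
  · exact Or.inr (Or.inr (Or.inr (Or.inl (cvG_V3_e3_V2_13 hf))))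
  · exact Or.inr (Or.inr (Or.inr (Or.inr (cvG_V3_e3_V2_23 ep4 ep5 hf))))

theorem cvG_V2_e3_V3_11 {b1 b2 b3 d1 e n2 n3 p0 p1 : ℤ}
    (ep0 : p0 = (d1) * (-n2 + b2 - n3 + b3))
    (ep1 : p1 = (e) * (-n2 + b2 - n3 + b3))
    (hex : 0 ≤ b1 - 1)
    (hf : LexFail ((1) * (d1 + 1) + (0) * (-n2 + b2 + e + 1) + (d1) * (-n2 + b2 - n3 + b3))
      ((0) * (d1 + 1) + (0) * (-n2 + b2 + e + 1) + (1) * (-n2 + b2 - n3 + b3))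
      ((0) * (d1 + 1) + (1) * (-n2 + b2 + e + 1) + (e) * (-n2 + b2 - n3 + b3))) :
    (0 ≤ b1 - 1 ∧ 0 ≤ -d1 - p0 - 2) ∨ (0 ≤ b1 - 1 ∧ 0 ≤ d1 + p0 + 1 ∧ 0 ≤ -d1 - p0 - 1 ∧ 0 ≤ n2 - b2 + n3 - b3 - 1) ∨ (0 ≤ b1 - 1 ∧ 0 ≤ d1 + p0 + 1 ∧ 0 ≤ -d1 - p0 - 1 ∧ 0 ≤ -n2 + b2 - n3 + b3 ∧ 0 ≤ n2 - b2 + n3 - b3 ∧ 0 ≤ n2 - b2 - e - p1 - 1) := by
  rcases hf with hf | ⟨hf0, hf⟩ | ⟨hf0, hf1, hf⟩
  · exact Or.inl (⟨by linarith only [hex], by linarith only [hf, ep0]⟩)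
  · exact Or.inr (Or.inl (⟨by linarith only [hex], by linarith only [hf0, ep0], by linarith only [hf0, ep0], by linarith only [hf]⟩))
  · exact Or.inr (Or.inr (⟨by linarith only [hex], by linarith only [hf0, ep0], by linarith only [hf0, ep0], by linarith only [hf1], by linarith only [hf1], by linarith only [hf, ep1]⟩))

theorem cvG_V2_e3_V3_22 {b1 b2 b3 d1 e hp n3 p2 p3 : ℤ}
    (ep2 : p2 = (d1) * (-n3 + b3))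
    (ep3 : p3 = (e) * (-n3 + b3))
    (hex : 0 ≤ b1 + b2 - 1)
    (hf : LexFail ((1) * (-hp + d1) + (0) * (e + 1) + (d1) * (-n3 + b3))
      ((0) * (-hp + d1) + (0) * (e + 1) + (1) * (-n3 + b3))
      ((0) * (-hp + d1) + (1) * (e + 1) + (e) * (-n3 + b3))) :
    (0 ≤ b1 + b2 - 1 ∧ 0 ≤ hp - d1 - p2 - 1) ∨ (0 ≤ b1 + b2 - 1 ∧ 0 ≤ -hp + d1 + p2 ∧ 0 ≤ hp - d1 - p2 ∧ 0 ≤ n3 - b3 - 1) ∨ (0 ≤ b1 + b2 - 1 ∧ 0 ≤ -hp + d1 + p2 ∧ 0 ≤ hp - d1 - p2 ∧ 0 ≤ -n3 + b3 ∧ 0 ≤ n3 - b3 ∧ 0 ≤ -e - p3 - 1) := by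
  rcases hf with hf | ⟨hf0, hf⟩ | ⟨hf0, hf1, hf⟩
  · exact Or.inl (⟨by linarith only [hex], by linarith only [hf, ep2]⟩)
  · exact Or.inr (Or.inl (⟨by linarith only [hex], by linarith only [hf0, ep2], by linarith only [hf0, ep2], by linarith only [hf]⟩))
  · exact Or.inr (Or.inr (⟨by linarith only [hex], by linarith only [hf0, ep2], by linarith only [hf0, ep2], by linarith only [hf1], by linarith only [hf1], by linarith only [hf, ep3]⟩))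

theorem cvG_V2_e3_V3_33 {d1 e h3 k : ℤ}
    (hf : LexFail ((1) * (-h3) + (0) * (-k) + (d1) * (1))
      ((0) * (-h3) + (0) * (-k) + (1) * (1))
      ((0) * (-h3) + (1) * (-k) + (e) * (1))) :
    0 ≤ h3 - d1 - 1 := by
  rcases hf with hf | ⟨hf0, hf⟩ | ⟨hf0, hf1, hf⟩
  · exact by linarith only [hf]
  · exfalso; linarith only [hf]
  · exfalso; linarith only [hf1]

theorem cvG_V2_e3_V3_13 {d1 e g : ℤ}
    (hf : LexFail ((1) * (1) + (0) * (-g) + (d1) * (0))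
      ((0) * (1) + (0) * (-g) + (1) * (0))
      ((0) * (1) + (1) * (-g) + (e) * (0))) :
    False := by
  rcases hf with hf | ⟨hf0, hf⟩ | ⟨hf0, hf1, hf⟩
  · exfalso; linarith only [hf]
  · exfalso; linarith only [hf0]
  · exfalso; linarith only [hf0]

theorem cvG_V2_e3_V3_23 {d1 e h m p4 p5 : ℤ}
    (ep4 : p4 = (d1) * (-m + 1))
    (ep5 : p5 = (e) * (-m + 1))
    (hf : LexFail ((1) * (-h) + (0) * (1) + (d1) * (-m + 1))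
      ((0) * (-h) + (0) * (1) + (1) * (-m + 1))
      ((0) * (-h) + (1) * (1) + (e) * (-m + 1))) :
    0 ≤ h - p4 - 1 ∨ (0 ≤ -h + p4 ∧ 0 ≤ h - p4 ∧ 0 ≤ m - 2) ∨ (0 ≤ -h + p4 ∧ 0 ≤ h - p4 ∧ 0 ≤ -m + 1 ∧ 0 ≤ m - 1 ∧ 0 ≤ -p5 - 1) := by
  rcases hf with hf | ⟨hf0, hf⟩ | ⟨hf0, hf1, hf⟩
  · exact Or.inl (by linarith only [hf, ep4])
  · exact Or.inr (Or.inl (⟨by linarith only [hf0, ep4], by linarith only [hf0, ep4], by linarith only [hf]⟩))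
  · exact Or.inr (Or.inr (⟨by linarith only [hf0, ep4], by linarith only [hf0, ep4], by linarith only [hf1], by linarith only [hf1], by linarith only [hf, ep5]⟩))

theorem Gt_V2_e3_V3 {n1 n2 n3 a1 a2 a3 b1 b2 b3 e y d1 hp h3 k g h m p0 p1 p2 p3 p4 p5 : ℤ}
    (B15 : 0 ≤ e - a1 - a2 + b1 + b2)
    (B16 : 0 ≤ a1 + a2 - b1 - b2 - e)
    (B17 : 0 ≤ e - 1)
    (B18 : 0 ≤ y + a1 + a2 + a3 - b1 - b2 - b3)
    (B19 : 0 ≤ -a1 - a2 - a3 + b1 + b2 + b3 - y)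
    (B20 : 0 ≤ y - 1)
    (B21 : 0 ≤ d1 - a1 + b1)
    (B22 : 0 ≤ a1 - b1 - d1)
    (B23 : 0 ≤ d1 - 1)
    (B24 : 0 ≤ y - 1)
    (B25 : 0 ≤ -y + 1)
    (ep0 : p0 = (d1) * (-n2 + b2 - n3 + b3))
    (ep1 : p1 = (e) * (-n2 + b2 - n3 + b3))
    (ep2 : p2 = (d1) * (-n3 + b3))
    (ep3 : p3 = (e) * (-n3 + b3))
    (ep4 : p4 = (d1) * (-m + 1))
    (ep5 : p5 = (e) * (-m + 1))
    (w1 : a1 - b1 = d1) (w2 : a1 + a2 - b1 - b2 = e) (w3 : a1 + a2 + a3 - b1 - b2 - b3 = -1)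
    (hno : ¬ ∃ u1 u2 u3 : ℤ, Good n1 n2 n3 a1 a2 a3 b1 b2 b3 u1 u2 u3)
    (hd : ∀ c1 c2 c3, LosC n1 n2 n3 a1 a2 a3 b1 b2 b3 c1 c2 c3 →
      ∃ v ∈ ([⟨0 ≤ b1 - 1, d1 + 1, -n2 + b2 + e + 1, -n2 + b2 - n3 + b3⟩, ⟨0 ≤ b1 + b2 - 1, -hp + d1, e + 1, -n3 + b3⟩, ⟨True, -h3, -k, 1⟩, ⟨True, 1, -g, 0⟩, ⟨True, -h, 1, -m + 1⟩] : List LV), v.ex ∧ v.c1 ≤ c1 ∧ v.c2 ≤ c2 ∧ v.c3 ≤ c3) :
    ((0 ≤ b1 - 1 ∧ 0 ≤ -d1 - p0 - 2) ∨ (0 ≤ b1 - 1 ∧ 0 ≤ d1 + p0 + 1 ∧ 0 ≤ -d1 - p0 - 1 ∧ 0 ≤ n2 - b2 + n3 - b3 - 1) ∨ (0 ≤ b1 - 1 ∧ 0 ≤ d1 + p0 + 1 ∧ 0 ≤ -d1 - p0 - 1 ∧ 0 ≤ -n2 + b2 - n3 + b3 ∧ 0 ≤ n2 - b2 + n3 - b3 ∧ 0 ≤ n2 - b2 - e - p1 - 1)) ∨ ((0 ≤ b1 + b2 - 1 ∧ 0 ≤ hp - d1 - p2 - 1) ∨ (0 ≤ b1 + b2 - 1 ∧ 0 ≤ -hp + d1 + p2 ∧ 0 ≤ hp - d1 - p2 ∧ 0 ≤ n3 - b3 - 1) ∨ (0 ≤ b1 + b2 - 1 ∧ 0 ≤ -hp + d1 + p2 ∧ 0 ≤ hp - d1 - p2 ∧ 0 ≤ -n3 + b3 ∧ 0 ≤ n3 -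 b3 ∧ 0 ≤ -e - p3 - 1)) ∨ (0 ≤ h3 - d1 - 1) ∨ (0 ≤ h - p4 - 1 ∨ (0 ≤ -h + p4 ∧ 0 ≤ h - p4 ∧ 0 ≤ m - 2) ∨ (0 ≤ -h + p4 ∧ 0 ≤ h - p4 ∧ 0 ≤ -m + 1 ∧ 0 ≤ m - 1 ∧ 0 ≤ -p5 - 1)) := by
  obtain ⟨v, hv, hex, hf⟩ := failA' w1 w2 w3 hno _ hd (1) (0) (d1) (0) (0) (1) (0) (1) (e)
    ⟨zero_le_one, le_refl 0, by linarith only [B15, B16, B17, B18, B19, B20, B21, B22, B23, B24, B25]⟩ ⟨le_refl 0, le_refl 0, zero_le_one⟩ ⟨le_refl 0, zero_le_one, by linarith only [B15, B16, B17, B18, B19, B20, B21, B22, B23, B24, B25]⟩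
    (Or.inr ⟨by ring, Or.inl (by linarith only [B15, B16, B17, B18, B19, B20, B21, B22, B23, B24, B25])⟩)
  simp only [List.mem_cons, List.not_mem_nil, or_false] at hv
  rcases hv with rfl | rfl | rfl | rfl | rfl
  · exact Or.inl (cvG_V2_e3_V3_11 ep0 ep1 hex hf)
  · exact Or.inr (Or.inl (cvG_V2_e3_V3_22 ep2 ep3 hex hf))
  · exact Or.inr (Or.inr (Or.inl (cvG_V2_e3_V3_33 hf)))
  · exact (cvG_V2_e3_V3_13 hf).elim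
  · exact Or.inr (Or.inr (Or.inr (cvG_V2_e3_V3_23 ep4 ep5 hf)))

theorem T0_11_33 {n1 n2 n3 a1 a2 a3 b1 b2 b3 e d1 h3 k : ℤ}
    (H : NoTr n1 n2 n3 a1 a2 a3 b1 b2 b3)
    (w1 : a1 - b1 = d1) (w2 : a1 + a2 - b1 - b2 = e) (w3 : a1 + a2 + a3 - b1 - b2 - b3 = -1)
    (l11 : 0 ≤ b1 - 1 → LosC n1 n2 n3 a1 a2 a3 b1 b2 b3 (d1 + 1) (-n2 + b2 + e + 1) (-n2 + b2 - n3 + b3))
    (l33 : LosC n1 n2 n3 a1 a2 a3 b1 b2 b3 (-h3) (-k) (1))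
    : 0 ≤ -b1 ∨ 0 ≤ -h3 - d1 ∨ 0 ≤ -n2 + b2 - k - e ∨ 0 ≤ -n2 + b2 - n3 + b3 + 2 := by
  rcases le_or_gt (b1) 0 with hb0 | hb0
  · exact Or.inl (by linarith only [hb0])
  rcases H.t0 w1 w2 w3 (l11 (by linarith only [hb0])) l33 with hq | hq | hq
  · exact Or.inr (Or.inl (by linarith only [hq]))
  · exact Or.inr (Or.inr (Or.inl (by linarith only [hq])))
  · exact Or.inr (Or.inr (Or.inr (by linarith only [hq])))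

theorem T1_11_33 {n1 n2 n3 a1 a2 a3 b1 b2 b3 e d1 h3 k : ℤ}
    (H : NoTr n1 n2 n3 a1 a2 a3 b1 b2 b3)
    (w1 : a1 - b1 = d1) (w2 : a1 + a2 - b1 - b2 = e) (w3 : a1 + a2 + a3 - b1 - b2 - b3 = -1)
    (l11 : 0 ≤ b1 - 1 → LosC n1 n2 n3 a1 a2 a3 b1 b2 b3 (d1 + 1) (-n2 + b2 + e + 1) (-n2 + b2 - n3 + b3))
    (l33 : LosC n1 n2 n3 a1 a2 a3 b1 b2 b3 (-h3) (-k) (1))
    : 0 ≤ -b1 ∨ 0 ≤ -h3 ∨ 0 ≤ -n2 + b2 - k ∨ 0 ≤ -n2 + b2 - n3 + b3 + 1 := by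
  rcases le_or_gt (b1) 0 with hb0 | hb0
  · exact Or.inl (by linarith only [hb0])
  rcases H.t1 w1 w2 w3 (l11 (by linarith only [hb0])) l33 with hq | hq | hq
  · exact Or.inr (Or.inl (by linarith only [hq]))
  · exact Or.inr (Or.inr (Or.inl (by linarith only [hq])))
  · exact Or.inr (Or.inr (Or.inr (by linarith only [hq])))

theorem T2_11_33 {n1 n2 n3 a1 a2 a3 b1 b2 b3 e d1 h3 k : ℤ}
    (H : NoTr n1 n2 n3 a1 a2 a3 b1 b2 b3)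
    (l11 : 0 ≤ b1 - 1 → LosC n1 n2 n3 a1 a2 a3 b1 b2 b3 (d1 + 1) (-n2 + b2 + e + 1) (-n2 + b2 - n3 + b3))
    (l33 : LosC n1 n2 n3 a1 a2 a3 b1 b2 b3 (-h3) (-k) (1))
    : 0 ≤ -b1 ∨ 0 ≤ d1 - h3 ∨ 0 ≤ -n2 + b2 + e - k ∨ 0 ≤ -n2 + b2 - n3 + b3 := by
  rcases le_or_gt (b1) 0 with hb0 | hb0
  · exact Or.inl (by linarith only [hb0])
  rcases H.t2 (l11 (by linarith only [hb0])) l33 with hq | hq | hq
  · exact Or.inr (Or.inl (by linarith only [hq]))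
  · exact Or.inr (Or.inr (Or.inl (by linarith only [hq])))
  · exact Or.inr (Or.inr (Or.inr (by linarith only [hq])))

theorem T0_11_13 {n1 n2 n3 a1 a2 a3 b1 b2 b3 e d1 g : ℤ}
    (H : NoTr n1 n2 n3 a1 a2 a3 b1 b2 b3)
    (w1 : a1 - b1 = d1) (w2 : a1 + a2 - b1 - b2 = e) (w3 : a1 + a2 + a3 - b1 - b2 - b3 = -1)
    (l11 : 0 ≤ b1 - 1 → LosC n1 n2 n3 a1 a2 a3 b1 b2 b3 (d1 + 1) (-n2 + b2 + e + 1) (-n2 + b2 - n3 + b3))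
    (l13 : LosC n1 n2 n3 a1 a2 a3 b1 b2 b3 (1) (-g) (0))
    : 0 ≤ -b1 ∨ 0 ≤ -d1 + 1 ∨ 0 ≤ -n2 + b2 - g - e ∨ 0 ≤ -n2 + b2 - n3 + b3 + 1 := by
  rcases le_or_gt (b1) 0 with hb0 | hb0
  · exact Or.inl (by linarith only [hb0])
  rcases H.t0 w1 w2 w3 (l11 (by linarith only [hb0])) l13 with hq | hq | hq
  · exact Or.inr (Or.inl (by linarith only [hq]))
  · exact Or.inr (Or.inr (Or.inl (by linarith only [hq])))
  · exact Or.inr (Or.inr (Or.inr (by linarith only [hq])))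

theorem T0_11_23 {n1 n2 n3 a1 a2 a3 b1 b2 b3 e d1 h m : ℤ}
    (H : NoTr n1 n2 n3 a1 a2 a3 b1 b2 b3)
    (w1 : a1 - b1 = d1) (w2 : a1 + a2 - b1 - b2 = e) (w3 : a1 + a2 + a3 - b1 - b2 - b3 = -1)
    (l11 : 0 ≤ b1 - 1 → LosC n1 n2 n3 a1 a2 a3 b1 b2 b3 (d1 + 1) (-n2 + b2 + e + 1) (-n2 + b2 - n3 + b3))
    (l23 : LosC n1 n2 n3 a1 a2 a3 b1 b2 b3 (-h) (1) (-m + 1))
    : 0 ≤ -b1 ∨ 0 ≤ -h - d1 ∨ 0 ≤ -n2 + b2 - e + 1 ∨ 0 ≤ -n2 + b2 - n3 + b3 - m + 2 := by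
  rcases le_or_gt (b1) 0 with hb0 | hb0
  · exact Or.inl (by linarith only [hb0])
  rcases H.t0 w1 w2 w3 (l11 (by linarith only [hb0])) l23 with hq | hq | hq
  · exact Or.inr (Or.inl (by linarith only [hq]))
  · exact Or.inr (Or.inr (Or.inl (by linarith only [hq])))
  · exact Or.inr (Or.inr (Or.inr (by linarith only [hq])))

theorem T1_22_33 {n1 n2 n3 a1 a2 a3 b1 b2 b3 e d1 hp h3 k : ℤ}
    (H : NoTr n1 n2 n3 a1 a2 a3 b1 b2 b3)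
    (w1 : a1 - b1 = d1) (w2 : a1 + a2 - b1 - b2 = e) (w3 : a1 + a2 + a3 - b1 - b2 - b3 = -1)
    (l22 : 0 ≤ b1 + b2 - 1 → LosC n1 n2 n3 a1 a2 a3 b1 b2 b3 (-hp + d1) (e + 1) (-n3 + b3))
    (l33 : LosC n1 n2 n3 a1 a2 a3 b1 b2 b3 (-h3) (-k) (1))
    : 0 ≤ -b1 - b2 ∨ 0 ≤ -hp - h3 - 1 ∨ 0 ≤ -k ∨ 0 ≤ -n3 + b3 + 1 := by
  rcases le_or_gt (b1 + b2) 0 with hb0 | hb0
  · exact Or.inl (by linarith only [hb0])
  rcases H.t1 w1 w2 w3 (l22 (by linarith only [hb0])) l33 with hq | hq | hq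
  · exact Or.inr (Or.inl (by linarith only [hq]))
  · exact Or.inr (Or.inr (Or.inl (by linarith only [hq])))
  · exact Or.inr (Or.inr (Or.inr (by linarith only [hq])))

theorem T2_22_33 {n1 n2 n3 a1 a2 a3 b1 b2 b3 e d1 hp h3 k : ℤ}
    (H : NoTr n1 n2 n3 a1 a2 a3 b1 b2 b3)
    (l22 : 0 ≤ b1 + b2 - 1 → LosC n1 n2 n3 a1 a2 a3 b1 b2 b3 (-hp + d1) (e + 1) (-n3 + b3))
    (l33 : LosC n1 n2 n3 a1 a2 a3 b1 b2 b3 (-h3) (-k) (1))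
    : 0 ≤ -b1 - b2 ∨ 0 ≤ -hp + d1 - h3 - 1 ∨ 0 ≤ e - k ∨ 0 ≤ -n3 + b3 := by
  rcases le_or_gt (b1 + b2) 0 with hb0 | hb0
  · exact Or.inl (by linarith only [hb0])
  rcases H.t2 (l22 (by linarith only [hb0])) l33 with hq | hq | hq
  · exact Or.inr (Or.inl (by linarith only [hq]))
  · exact Or.inr (Or.inr (Or.inl (by linarith only [hq])))
  · exact Or.inr (Or.inr (Or.inr (by linarith only [hq])))

theorem T0_22_13 {n1 n2 n3 a1 a2 a3 b1 b2 b3 e d1 hp g : ℤ}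
    (H : NoTr n1 n2 n3 a1 a2 a3 b1 b2 b3)
    (w1 : a1 - b1 = d1) (w2 : a1 + a2 - b1 - b2 = e) (w3 : a1 + a2 + a3 - b1 - b2 - b3 = -1)
    (l22 : 0 ≤ b1 + b2 - 1 → LosC n1 n2 n3 a1 a2 a3 b1 b2 b3 (-hp + d1) (e + 1) (-n3 + b3))
    (l13 : LosC n1 n2 n3 a1 a2 a3 b1 b2 b3 (1) (-g) (0))
    : 0 ≤ -b1 - b2 ∨ 0 ≤ -hp - d1 ∨ 0 ≤ -g - e ∨ 0 ≤ -n3 + b3 + 1 := by
  rcases le_or_gt (b1 + b2) 0 with hb0 | hb0
  · exact Or.inl (by linarith only [hb0])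
  rcases H.t0 w1 w2 w3 (l22 (by linarith only [hb0])) l13 with hq | hq | hq
  · exact Or.inr (Or.inl (by linarith only [hq]))
  · exact Or.inr (Or.inr (Or.inl (by linarith only [hq])))
  · exact Or.inr (Or.inr (Or.inr (by linarith only [hq])))

theorem T1_22_13 {n1 n2 n3 a1 a2 a3 b1 b2 b3 e d1 hp g : ℤ}
    (H : NoTr n1 n2 n3 a1 a2 a3 b1 b2 b3)
    (w1 : a1 - b1 = d1) (w2 : a1 + a2 - b1 - b2 = e) (w3 : a1 + a2 + a3 - b1 - b2 - b3 = -1)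
    (l22 : 0 ≤ b1 + b2 - 1 → LosC n1 n2 n3 a1 a2 a3 b1 b2 b3 (-hp + d1) (e + 1) (-n3 + b3))
    (l13 : LosC n1 n2 n3 a1 a2 a3 b1 b2 b3 (1) (-g) (0))
    : 0 ≤ -b1 - b2 ∨ 0 ≤ -hp ∨ 0 ≤ -g ∨ 0 ≤ -n3 + b3 := by
  rcases le_or_gt (b1 + b2) 0 with hb0 | hb0
  · exact Or.inl (by linarith only [hb0])
  rcases H.t1 w1 w2 w3 (l22 (by linarith only [hb0])) l13 with hq | hq | hq
  · exact Or.inr (Or.inl (by linarith only [hq]))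
  · exact Or.inr (Or.inr (Or.inl (by linarith only [hq])))
  · exact Or.inr (Or.inr (Or.inr (by linarith only [hq])))

theorem T2_22_13 {n1 n2 n3 a1 a2 a3 b1 b2 b3 e d1 hp g : ℤ}
    (H : NoTr n1 n2 n3 a1 a2 a3 b1 b2 b3)
    (l22 : 0 ≤ b1 + b2 - 1 → LosC n1 n2 n3 a1 a2 a3 b1 b2 b3 (-hp + d1) (e + 1) (-n3 + b3))
    (l13 : LosC n1 n2 n3 a1 a2 a3 b1 b2 b3 (1) (-g) (0))
    : 0 ≤ -b1 - b2 ∨ 0 ≤ -hp + d1 ∨ 0 ≤ e - g ∨ 0 ≤ -n3 + b3 - 1 := by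
  rcases le_or_gt (b1 + b2) 0 with hb0 | hb0
  · exact Or.inl (by linarith only [hb0])
  rcases H.t2 (l22 (by linarith only [hb0])) l13 with hq | hq | hq
  · exact Or.inr (Or.inl (by linarith only [hq]))
  · exact Or.inr (Or.inr (Or.inl (by linarith only [hq])))
  · exact Or.inr (Or.inr (Or.inr (by linarith only [hq])))

theorem T2_13_23 {n1 n2 n3 a1 a2 a3 b1 b2 b3 g h m : ℤ}
    (H : NoTr n1 n2 n3 a1 a2 a3 b1 b2 b3)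
    (l13 : LosC n1 n2 n3 a1 a2 a3 b1 b2 b3 (1) (-g) (0))
    (l23 : LosC n1 n2 n3 a1 a2 a3 b1 b2 b3 (-h) (1) (-m + 1))
    : 0 ≤ -h ∨ 0 ≤ -g ∨ 0 ≤ -m := by
  rcases H.t2 l13 l23 with hq | hq | hq
  · exact Or.inl (by linarith only [hq])
  · exact Or.inr (Or.inl (by linarith only [hq]))
  · exact Or.inr (Or.inr (by linarith only [hq]))

theorem main {n1 n2 n3 a1 a2 a3 b1 b2 b3 e y d1 : ℤ}
    (B0 : 0 ≤ a1)
    (B1 : 0 ≤ a2)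
    (B2 : 0 ≤ a3)
    (B3 : 0 ≤ b1)
    (B4 : 0 ≤ b2)
    (B5 : 0 ≤ b3)
    (B6 : 0 ≤ n1 - a1)
    (B7 : 0 ≤ n2 - a2)
    (B8 : 0 ≤ n3 - a3)
    (B9 : 0 ≤ n1 - b1)
    (B10 : 0 ≤ n2 - b2)
    (B11 : 0 ≤ n3 - b3)
    (B12 : 0 ≤ n1 - 1)
    (B13 : 0 ≤ n2 - 1)
    (B14 : 0 ≤ n3 - 1)
    (B15 : 0 ≤ e - a1 - a2 + b1 + b2)
    (B16 : 0 ≤ a1 + a2 - b1 - b2 - e)
    (B17 : 0 ≤ e - 1)
    (B18 : 0 ≤ y + a1 + a2 + a3 - b1 - b2 - b3)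
    (B19 : 0 ≤ -a1 - a2 - a3 + b1 + b2 + b3 - y)
    (B20 : 0 ≤ y - 1)
    (B21 : 0 ≤ d1 - a1 + b1)
    (B22 : 0 ≤ a1 - b1 - d1)
    (B23 : 0 ≤ d1 - 1)
    (B24 : 0 ≤ y - 1)
    (B25 : 0 ≤ -y + 1)
    (C_c1 : (0 ≤ a1 - 1 ∧ 0 ≤ n2 - a2 - 1) ∨ (0 ≤ b1 - 1 ∧ 0 ≤ n2 - b2 - 1))
    (C_c2 : (0 ≤ a2 - 1 ∧ 0 ≤ n3 - a3 - 1) ∨ (0 ≤ b2 - 1 ∧ 0 ≤ n3 - b3 - 1))
    (C_Sub : 0 ≤ d1 - 2 ∨ 0 ≤ e - 2)
    (nF1 : 0 ≤ -n1 - b1 + 2 * a1 - 1 ∨ 0 ≤ n1 + b1 - 2 * a1 - 1 ∨ 0 ≤ n2 - a2 - 2 ∨ 0 ≤ -n2 + a2 ∨ 0 ≤ n3 - a3 - n1 + a1 - 2 ∨ 0 ≤ -n3 + a3 + n1 - a1 ∨ 0 ≤ n2 - b2 - 2 ∨ 0 ≤ -n2 + b2 ∨ 0 ≤ n3 - b3 - 1 ∨ 0 ≤ -b1 ∨ 0 ≤ -n2 + 2 ∨ 0 ≤ 2 * n1 - 2 * a1 - n3 + 2 ∨ 0 ≤ -n1 + a1)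
    (nF2 : 0 ≤ a2 - 2 ∨ 0 ≤ -a2 ∨ 0 ≤ a3 - a1 - 2 ∨ 0 ≤ -a3 + a1 ∨ 0 ≤ b1 - 1 ∨ 0 ≤ b2 - 2 ∨ 0 ≤ -b2 ∨ 0 ≤ b3 - 2 * a1 - 3 ∨ 0 ≤ -b3 + 2 * a1 + 1 ∨ 0 ≤ n3 - 2 * a1 - 4 ∨ 0 ≤ -n3 + 2 * a1 + 2 ∨ 0 ≤ 2 * a1 - n1 ∨ 0 ≤ -n2 + 2 ∨ 0 ≤ -a1)
    (H : NoTr n1 n2 n3 a1 a2 a3 b1 b2 b3)
    (hno : ¬ ∃ u1 u2 u3 : ℤ, Good n1 n2 n3 a1 a2 a3 b1 b2 b3 u1 u2 u3) : False := by
  have w1 : a1 - b1 = d1 := by linarith only [B15, B16, B17, B18, B19, B20, B21, B22, B23, B24, B25]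
  have w2 : a1 + a2 - b1 - b2 = e := by linarith only [B15, B16, B17, B18, B19, B20, B21, B22, B23, B24, B25]
  have w3 : a1 + a2 + a3 - b1 - b2 - b3 = -1 := by linarith only [B15, B16, B17, B18, B19, B20, B21, B22, B23, B24, B25]
  obtain ⟨hp, rhp1, rhp2, rhp3⟩ := min_facts (n1 - b1) (b2 - 1)
  have B26 : 0 ≤ n1 - b1 - hp := by linarith only [rhp1]
  have B27 : 0 ≤ b2 - hp - 1 := by linarith only [rhp2]
  have C_Dhp : 0 ≤ hp - n1 + b1 ∨ 0 ≤ hp - b2 + 1 := rhp3.imp (fun hq => by linarith only [hq]) (fun hq => by linarith only [hq])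
  clear rhp1 rhp2 rhp3
  obtain ⟨h3, rh31, rh32, rh33⟩ := min_facts (n1 - a1) (a2 + a3 - 1)
  have B28 : 0 ≤ n1 - a1 - h3 := by linarith only [rh31]
  have B29 : 0 ≤ a2 + a3 - h3 - 1 := by linarith only [rh32]
  have C_Dh3 : 0 ≤ h3 - n1 + a1 ∨ 0 ≤ h3 - a2 - a3 + 1 := rh33.imp (fun hq => by linarith only [hq]) (fun hq => by linarith only [hq])
  clear rh31 rh32 rh33
  obtain ⟨k, rk1, rk2, rk3⟩ := min_facts (n1 - a1 + n2 - a2) (a3 - 1)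
  have B30 : 0 ≤ n1 - a1 + n2 - a2 - k := by linarith only [rk1]
  have B31 : 0 ≤ a3 - k - 1 := by linarith only [rk2]
  have C_Dk : 0 ≤ k - n1 + a1 - n2 + a2 ∨ 0 ≤ k - a3 + 1 := rk3.imp (fun hq => by linarith only [hq]) (fun hq => by linarith only [hq])
  clear rk1 rk2 rk3
  obtain ⟨g, rg1, rg2, rg3⟩ := min_facts (n2 - a2 - 1) (a3)
  have B32 : 0 ≤ n2 - a2 - g - 1 := by linarith only [rg1]
  have B33 : 0 ≤ a3 - g := by linarith only [rg2]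
  have C_Dg : 0 ≤ g - n2 + a2 + 1 ∨ 0 ≤ g - a3 := rg3.imp (fun hq => by linarith only [hq]) (fun hq => by linarith only [hq])
  clear rg1 rg2 rg3
  obtain ⟨h, rh1, rh2, rh3⟩ := min_facts (n1 - a1) (a2 - 1)
  have B34 : 0 ≤ n1 - a1 - h := by linarith only [rh1]
  have B35 : 0 ≤ a2 - h - 1 := by linarith only [rh2]
  have C_Dh : 0 ≤ h - n1 + a1 ∨ 0 ≤ h - a2 + 1 := rh3.imp (fun hq => by linarith only [hq]) (fun hq => by linarith only [hq])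
  clear rh1 rh2 rh3
  obtain ⟨m, rm1, rm2, rm3⟩ := min_facts (1) (n3 - a3)
  have B36 : 0 ≤ -m + 1 := by linarith only [rm1]
  have B37 : 0 ≤ n3 - a3 - m := by linarith only [rm2]
  have C_Dm : 0 ≤ m - 1 ∨ 0 ≤ m - n3 + a3 := rm3.imp (fun hq => by linarith only [hq]) (fun hq => by linarith only [hq])
  clear rm1 rm2 rm3
  have l11 : 0 ≤ b1 - 1 → LosC n1 n2 n3 a1 a2 a3 b1 b2 b3 (d1 + 1) (-n2 + b2 + e + 1) (-n2 + b2 - n3 + b3) := fun hq => los11 B0 B1 B2 B3 B4 B5 B6 B7 B8 B9 B10 B11 B12 B13 B14 B15 B16 B17 B18 B19 B20 B21 B22 B23 B24 B25 hq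
  have l22 : 0 ≤ b1 + b2 - 1 → LosC n1 n2 n3 a1 a2 a3 b1 b2 b3 (-hp + d1) (e + 1) (-n3 + b3) := fun hq => los22 B0 B1 B2 B3 B4 B5 B6 B7 B8 B9 B10 B11 B12 B13 B14 B15 B16 B17 B18 B19 B20 B21 B22 B23 B24 B25 B26 B27 C_Dhp hq
  have l33 : LosC n1 n2 n3 a1 a2 a3 b1 b2 b3 (-h3) (-k) (1) := los33 B0 B1 B2 B3 B4 B5 B6 B7 B8 B9 B10 B11 B12 B13 B14 B15 B16 B17 B18 B19 B20 B21 B22 B23 B24 B25 B28 B29 B30 B31 C_Dh3 C_Dk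
  have l13 : LosC n1 n2 n3 a1 a2 a3 b1 b2 b3 (1) (-g) (0) := los13 B0 B1 B2 B3 B4 B5 B6 B7 B8 B9 B10 B11 B12 B13 B14 B15 B16 B17 B18 B19 B20 B21 B22 B23 B24 B25 B32 B33 C_Dg
  have l23 : LosC n1 n2 n3 a1 a2 a3 b1 b2 b3 (-h) (1) (-m + 1) := los23 B0 B1 B2 B3 B4 B5 B6 B7 B8 B9 B10 B11 B12 B13 B14 B15 B16 B17 B18 B19 B20 B21 B22 B23 B24 B25 B34 B35 B36 B37 C_Dh C_Dm
  have hd := hd B0 B1 B2 B3 B4 B5 B6 B7 B8 B9 B10 B11 B12 B13 B14 B15 B16 B17 B18 B19 B20 B21 B22 B23 B24 B25 B26 B27 B28 B29 B30 B31 B32 B33 B34 B35 B36 B37 C_Dhp C_Dh3 C_Dk C_Dg C_Dh C_Dm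
  obtain ⟨p0, ep0⟩ : ∃ p, p = (d1) * (-n2 + b2 - n3 + b3) := ⟨_, rfl⟩
  have C_Dp0_a : (0 ≤ n2 - b2 + n3 - b3 - 2 ∧ 0 ≤ -2 * d1 - p0) ∨ (0 ≤ -n2 + b2 - n3 + b3 + 1 ∧ 0 ≤ p0 + d1) :=
    (prod_split' (-2) ep0 (by linarith only [B15, B16, B17, B18, B19, B20, B21, B22, B23, B24, B25])).imp (fun hq => ⟨by linarith only [hq.1], by linarith only [hq.2]⟩)
      (fun hq => ⟨by linarith only [hq.1], by linarith only [hq.2]⟩)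
  have C_Dp0_b : (0 ≤ n2 - b2 + n3 - b3 - 1 ∧ 0 ≤ -d1 - p0) ∨ (0 ≤ -n2 + b2 - n3 + b3 ∧ 0 ≤ p0) :=
    (prod_split' (-1) ep0 (by linarith only [B15, B16, B17, B18, B19, B20, B21, B22, B23, B24, B25])).imp (fun hq => ⟨by linarith only [hq.1], by linarith only [hq.2]⟩)
      (fun hq => ⟨by linarith only [hq.1], by linarith only [hq.2]⟩)
  obtain ⟨p1, ep1⟩ : ∃ p, p = (e) * (-n2 + b2 - n3 + b3) := ⟨_, rfl⟩
  have C_Dp1_a : (0 ≤ n2 - b2 + n3 - b3 - 2 ∧ 0 ≤ -2 * e - p1) ∨ (0 ≤ -n2 + b2 - n3 + b3 + 1 ∧ 0 ≤ p1 + e) :=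
    (prod_split' (-2) ep1 (by linarith only [B15, B16, B17, B18, B19, B20, B21, B22, B23, B24, B25])).imp (fun hq => ⟨by linarith only [hq.1], by linarith only [hq.2]⟩)
      (fun hq => ⟨by linarith only [hq.1], by linarith only [hq.2]⟩)
  have C_Dp1_b : (0 ≤ n2 - b2 + n3 - b3 - 1 ∧ 0 ≤ -e - p1) ∨ (0 ≤ -n2 + b2 - n3 + b3 ∧ 0 ≤ p1) :=
    (prod_split' (-1) ep1 (by linarith only [B15, B16, B17, B18, B19, B20, B21, B22, B23, B24, B25])).imp (fun hq => ⟨by linarith only [hq.1], by linarith only [hq.2]⟩)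
      (fun hq => ⟨by linarith only [hq.1], by linarith only [hq.2]⟩)
  obtain ⟨p2, ep2⟩ : ∃ p, p = (d1) * (-n3 + b3) := ⟨_, rfl⟩
  have C_Dp2_a : (0 ≤ n3 - b3 - 2 ∧ 0 ≤ -2 * d1 - p2) ∨ (0 ≤ -n3 + b3 + 1 ∧ 0 ≤ p2 + d1) :=
    (prod_split' (-2) ep2 (by linarith only [B15, B16, B17, B18, B19, B20, B21, B22, B23, B24, B25])).imp (fun hq => ⟨by linarith only [hq.1], by linarith only [hq.2]⟩)
      (fun hq => ⟨by linarith only [hq.1], by linarith only [hq.2]⟩)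
  have C_Dp2_b : (0 ≤ n3 - b3 - 1 ∧ 0 ≤ -d1 - p2) ∨ (0 ≤ -n3 + b3 ∧ 0 ≤ p2) :=
    (prod_split' (-1) ep2 (by linarith only [B15, B16, B17, B18, B19, B20, B21, B22, B23, B24, B25])).imp (fun hq => ⟨by linarith only [hq.1], by linarith only [hq.2]⟩)
      (fun hq => ⟨by linarith only [hq.1], by linarith only [hq.2]⟩)
  obtain ⟨p3, ep3⟩ : ∃ p, p = (e) * (-n3 + b3) := ⟨_, rfl⟩
  have C_Dp3_a : (0 ≤ n3 - b3 - 2 ∧ 0 ≤ -2 * e - p3) ∨ (0 ≤ -n3 + b3 + 1 ∧ 0 ≤ p3 + e) :=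
    (prod_split' (-2) ep3 (by linarith only [B15, B16, B17, B18, B19, B20, B21, B22, B23, B24, B25])).imp (fun hq => ⟨by linarith only [hq.1], by linarith only [hq.2]⟩)
      (fun hq => ⟨by linarith only [hq.1], by linarith only [hq.2]⟩)
  have C_Dp3_b : (0 ≤ n3 - b3 - 1 ∧ 0 ≤ -e - p3) ∨ (0 ≤ -n3 + b3 ∧ 0 ≤ p3) :=
    (prod_split' (-1) ep3 (by linarith only [B15, B16, B17, B18, B19, B20, B21, B22, B23, B24, B25])).imp (fun hq => ⟨by linarith only [hq.1], by linarith only [hq.2]⟩)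
      (fun hq => ⟨by linarith only [hq.1], by linarith only [hq.2]⟩)
  obtain ⟨p4, ep4⟩ : ∃ p, p = (d1) * (-m + 1) := ⟨_, rfl⟩
  have C_Dp4_b : (0 ≤ m - 2 ∧ 0 ≤ -d1 - p4) ∨ (0 ≤ -m + 1 ∧ 0 ≤ p4) :=
    (prod_split' (-1) ep4 (by linarith only [B15, B16, B17, B18, B19, B20, B21, B22, B23, B24, B25])).imp (fun hq => ⟨by linarith only [hq.1], by linarith only [hq.2]⟩)
      (fun hq => ⟨by linarith only [hq.1], by linarith only [hq.2]⟩)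
  obtain ⟨p5, ep5⟩ : ∃ p, p = (e) * (-m + 1) := ⟨_, rfl⟩
  have C_Dp5_b : (0 ≤ m - 2 ∧ 0 ≤ -e - p5) ∨ (0 ≤ -m + 1 ∧ 0 ≤ p5) :=
    (prod_split' (-1) ep5 (by linarith only [B15, B16, B17, B18, B19, B20, B21, B22, B23, B24, B25])).imp (fun hq => ⟨by linarith only [hq.1], by linarith only [hq.2]⟩)
      (fun hq => ⟨by linarith only [hq.1], by linarith only [hq.2]⟩)
  have FA := FAt B15 B16 B17 B18 B19 B20 B21 B22 B23 B24 B25 ep0 ep1 ep2 ep3 ep4 ep5 w1 w2 w3 hno hd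
  have FB := FBt B15 B16 B17 B18 B19 B20 B21 B22 B23 B24 B25 ep0 ep1 ep2 ep3 ep4 ep5 w1 w2 w3 hno hd
  have G_V3_V2_e3 := Gt_V3_V2_e3 B15 B16 B17 B18 B19 B20 B21 B22 B23 B24 B25 ep0 ep1 ep2 ep3 ep4 ep5 w1 w2 w3 hno hd
  have G_V2_V3_e3 := Gt_V2_V3_e3 B15 B16 B17 B18 B19 B20 B21 B22 B23 B24 B25 ep0 ep1 ep2 ep3 ep4 ep5 w1 w2 w3 hno hd
  have G_e3_V2_V3 := Gt_e3_V2_V3 B15 B16 B17 B18 B19 B20 B21 B22 B23 B24 B25 ep0 ep1 ep2 ep3 ep4 ep5 w1 w2 w3 hno hd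
  have G_e3_V3_V2 := Gt_e3_V3_V2 B15 B16 B17 B18 B19 B20 B21 B22 B23 B24 B25 ep0 ep1 ep2 ep3 ep4 ep5 w1 w2 w3 hno hd
  have G_V3_e3_V2 := Gt_V3_e3_V2 B15 B16 B17 B18 B19 B20 B21 B22 B23 B24 B25 ep0 ep1 ep2 ep3 ep4 ep5 w1 w2 w3 hno hd
  have G_V2_e3_V3 := Gt_V2_e3_V3 B15 B16 B17 B18 B19 B20 B21 B22 B23 B24 B25 ep0 ep1 ep2 ep3 ep4 ep5 w1 w2 w3 hno hd
  have t0_11_33 := T0_11_33 H w1 w2 w3 l11 l33
  have t1_11_33 := T1_11_33 H w1 w2 w3 l11 l33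
  have t2_11_33 := T2_11_33 H l11 l33
  have t0_11_13 := T0_11_13 H w1 w2 w3 l11 l13
  have t0_11_23 := T0_11_23 H w1 w2 w3 l11 l23
  have t1_22_33 := T1_22_33 H w1 w2 w3 l22 l33
  have t2_22_33 := T2_22_33 H l22 l33
  have t0_22_13 := T0_22_13 H w1 w2 w3 l22 l13
  have t1_22_13 := T1_22_13 H w1 w2 w3 l22 l13
  have t2_22_13 := T2_22_13 H l22 l13
  have t2_13_23 := T2_13_23 H l13 l23
  rcases FA with ⟨f0_0, f0_1, f0_2⟩ | ⟨f0_0, f0_1, f0_2⟩ | ⟨f0_0, f0_1⟩ | ⟨f0_0, f0_1⟩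
  · rcases FB with ⟨f1_0, f1_1, f1_2⟩ | ⟨f1_0, f1_1, f1_2⟩ | ⟨f1_0, f1_1⟩ | ⟨f1_0, f1_1⟩ | ⟨f1_0, f1_1⟩
    · exact g0 B2 B6 B10 B11 B16 B17 B19 B20 B21 B23 B36 f0_0 f0_1 C_c1 C_c2 C_Sub C_Dg C_Dh C_Dm C_Dp0_a t0_11_23 t0_11_13
    · exact g1 B2 B4 B6 B7 B10 B15 B16 B17 B21 B22 B23 f0_0 f0_1 f1_1 C_c1 C_Sub C_Dh3 C_Dk C_Dg C_Dp0_a C_Dp3_a t0_11_33 t0_11_13
    · exact g2 B1 B4 B6 B10 B11 B16 B17 B19 B20 B21 B23 B30 B31 B36 f0_0 f0_1 f1_0 C_c2 C_Sub C_Dh3 C_Dg C_Dh C_Dm C_Dp0_a C_Dp2_a f1_1 t0_11_23 t1_11_33 t0_11_13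
    · exact g3 B4 B6 B10 B11 B16 B17 B19 B20 B21 B23 B32 B36 f0_0 f0_1 f1_1 C_Sub C_Dh C_Dm C_Dp0_a t0_11_23 t0_11_13
    · exact g4 B36 f1_0 C_Dp5_b
  · rcases FB with ⟨f1_0, f1_1, f1_2⟩ | ⟨f1_0, f1_1, f1_2⟩ | ⟨f1_0, f1_1⟩ | ⟨f1_0, f1_1⟩ | ⟨f1_0, f1_1⟩
    · exact g5 B2 B6 B10 B11 B16 B17 B19 B20 B21 B23 B36 f1_0 C_c1 C_c2 C_Sub C_Dg C_Dh C_Dm C_Dp0_a C_Dp1_a f1_2 t0_11_23 t0_11_13
    · exact g6 B2 B4 B6 B7 B13 B15 B16 B17 B21 B22 B23 f0_0 f1_1 C_c1 C_c2 C_Sub C_Dhp C_Dh3 C_Dk C_Dg C_Dp3_a t0_22_13 t0_11_33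
    · exact g7 B1 B6 B10 B11 B12 B13 B15 B16 B17 B18 B19 B20 B21 B22 B23 B25 B26 B27 B28 B30 B31 B35 B36 f0_0 f1_0 C_Dhp C_Dh3 C_Dg C_Dh C_Dm C_Dp0_a C_Dp1_a C_Dp1_b C_Dp2_a C_Dp2_b C_Dp3_a C_Dp3_b C_Dp5_b f0_2 f1_1 t1_22_33 t1_22_13 t2_22_33 t0_11_33 t1_11_33 t2_22_13 t2_13_23 t2_11_33 G_V3_V2_e3 G_e3_V3_V2 G_V3_e3_V2 nF1
    · exact g8 B4 B6 B11 B16 B17 B19 B20 B21 B22 B23 B26 B27 B32 B33 B36 f0_0 f1_1 C_c2 C_Sub C_Dhp C_Dh3 C_Dk C_Dh C_Dm C_Dp2_a C_Dp2_b C_Dp3_a C_Dp3_b f0_2 t1_22_13 t0_22_13 t2_13_23 t0_11_33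
    · exact g9 B36 f1_0 C_Dp5_b
  · rcases FB with ⟨f1_0, f1_1, f1_2⟩ | ⟨f1_0, f1_1, f1_2⟩ | ⟨f1_0, f1_1⟩ | ⟨f1_0, f1_1⟩ | ⟨f1_0, f1_1⟩
    · exact g10 B2 B7 B10 B11 B16 B17 B19 B20 B23 B28 B29 B36 f0_0 f1_0 C_c1 C_Sub C_Dk C_Dg C_Dh C_Dm C_Dp0_a C_Dp1_a f0_1 f1_2 t0_11_23 t1_11_33 t0_11_13
    · exact g11 B2 B4 B7 B13 B15 B16 B17 B21 B22 B23 B28 B29 f0_0 f1_0 f1_1 C_c1 C_Sub C_Dhp C_Dk C_Dg C_Dp3_a t0_22_13 t0_11_33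
    · exact g12 B1 B3 B4 B10 B11 B12 B13 B15 B16 B17 B18 B19 B20 B21 B22 B23 B25 B27 B28 B29 B30 B31 B32 B35 B36 f0_0 f1_0 C_c1 C_c2 C_Dhp C_Dh3 C_Dk C_Dg C_Dh C_Dm C_Dp0_a C_Dp0_b C_Dp1_a C_Dp1_b C_Dp2_a C_Dp2_b C_Dp3_a C_Dp3_b C_Dp4_b C_Dp5_b t1_11_33 t2_22_33 t2_11_33 t2_13_23 t1_22_33 t1_22_13 G_e3_V2_V3 G_V3_e3_V2 G_V2_V3_e3 G_e3_V3_V2 G_V3_V2_e3 G_V2_e3_V3 nF1 nF2
    · exact g13 B1 B3 B6 B10 B11 B16 B17 B18 B19 B20 B21 B22 B23 B25 B27 B28 B29 B32 B33 B36 f0_0 f1_1 C_c2 C_Sub C_Dhp C_Dk C_Dh C_Dm C_Dp0_a C_Dp1_b C_Dp2_a C_Dp2_b C_Dp3_a C_Dp3_b C_Dp4_b C_Dp5_b t2_13_23 t0_11_33 t2_22_33 t1_22_13 t1_22_33 t1_11_33 t2_11_33 G_e3_V2_V3 G_V2_V3_e3 G_V2_e3_V3 nF2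
    · exact g14 B36 f1_0 C_Dp5_b
  · rcases FB with ⟨f1_0, f1_1, f1_2⟩ | ⟨f1_0, f1_1, f1_2⟩ | ⟨f1_0, f1_1⟩ | ⟨f1_0, f1_1⟩ | ⟨f1_0, f1_1⟩
    · exact g15 B2 B10 B11 B16 B17 B19 B20 B23 B36 f1_0 f1_1 C_c1 C_Sub C_Dg C_Dm C_Dp0_a C_Dp1_a C_Dp4_b C_Dp5_b f0_1 f1_2 t0_11_23 t0_11_13
    · exact g16 B2 B4 B6 B15 B16 B17 B21 B22 B23 B34 B35 B36 f1_0 f1_1 C_c1 C_c2 C_Sub C_Dhp C_Dh3 C_Dk C_Dg C_Dp3_a C_Dp4_b C_Dp5_b f0_1 t0_22_13 t0_11_33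
    · exact g17 B3 B10 B11 B12 B15 B16 B17 B18 B19 B20 B22 B25 B28 B30 B31 B34 B35 B36 f1_0 C_c1 C_Dhp C_Dh3 C_Dg C_Dm C_Dp0_a C_Dp1_a C_Dp3_a C_Dp3_b C_Dp4_b C_Dp5_b f0_1 t2_13_23 t2_22_33 t1_11_33 t2_11_33 t1_22_33 G_e3_V3_V2 G_V3_V2_e3 G_V3_e3_V2 nF1
    · exact g18 B11 B16 B17 B19 B20 B36 f1_1 C_Dm C_Dp4_b C_Dp5_b f0_1 t2_13_23
    · exact g19 B36 f1_0 C_Dp5_b

end WG3.IVN
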