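import Pool.Agent.Work.MP_5465ec_co.Core

set_option linter.all false

namespace WG3.IVP

theorem g0 {a1 a2 a3 b1 b2 b3 d1 e h m n1 n2 n3 p5 y : ℤ}
    (B6 : 0 ≤ n1 - a1)
    (B11 : 0 ≤ n3 - b3)
    (B16 : 0 ≤ a1 + a2 - b1 - b2 - e)
    (B17 : 0 ≤ e - 1)
    (B19 : 0 ≤ -a1 - a2 - a3 + b1 + b2 + b3 - y)
    (B20 : 0 ≤ y - 1)
    (B21 : 0 ≤ d1 - a1 + b1)
    (B25 : 0 ≤ -d1 + 1)
    (B38 : 0 ≤ y - m)
    (B40 : 0 ≤ b1 - 1)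
    (B41 : 0 ≤ -y + n2 - b2 + n3 - b3 - 1)
    (D0 : (0 ≤ a1 - 1 ∧ 0 ≤ n2 - a2 - 1) ∨ (0 ≤ b1 - 1 ∧ 0 ≤ n2 - b2 - 1))
    (D1 : (0 ≤ a2 - 1 ∧ 0 ≤ n3 - a3 - 1) ∨ (0 ≤ b2 - 1 ∧ 0 ≤ n3 - b3 - 1))
    (D6 : 0 ≤ h - n1 + a1 ∨ 0 ≤ h - a2 + 1)
    (D7 : 0 ≤ m - y ∨ 0 ≤ m - n3 + a3)
    (D30 : (0 ≤ h ∧ 0 ≤ -p5) ∨ (0 ≤ -h - 1 ∧ 0 ≤ p5 - y))
    (D34 : 0 ≤ -b1 ∨ 0 ≤ -h - 1 ∨ 0 ≤ -n2 + b2 ∨ 0 ≤ -n2 + b2 - n3 + b3 - m + y + 1) : False := by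
  have E0 := D0
  have E1 := D1
  have E6 := D6
  have E7 : 0 ≤ m - y := by
    rcases D7 with H7 | H7
    · exact H7
    · linarith only [B17, H7, B38, B11, B16, B19]
  have E30 := D30
  have E34 : 0 ≤ -h - 1 ∨ 0 ≤ -n2 + b2 ∨ 0 ≤ -n2 + b2 - n3 + b3 - m + y + 1 := by
    rcases D34 with H34 | H34 | H34 | H34
    · linarith only [B40, H34]
    · exact Or.inl H34
    · exact Or.inr (Or.inl H34)
    · exact Or.inr (Or.inr H34)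
  have H7 := E7
  rcases E30 with H30 | H30
  · rcases E34 with H34 | H34 | H34
    · linarith only [H34, H30.1]
    · rcases E0 with H0 | H0
      · linarith only [B17, B21, H0.2, B16, H34, B25]
      · linarith only [H34, H0.2]
    · linarith only [B41, B20, H34, H7]
  · rcases E6 with H6 | H6
    · linarith only [H30.1, B6, H6]
    · rcases E1 with H1 | H1
      · linarith only [H6, H30.1, H1.1]
      · linarith only [B17, H1.1, B21, H6, H30.1, B16, B25]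

theorem g1 {a1 a2 a3 b1 b2 b3 d1 e g h3 k n1 n2 n3 p0 p4 y : ℤ}
    (B2 : 0 ≤ a3)
    (B6 : 0 ≤ n1 - a1)
    (B15 : 0 ≤ e - a1 - a2 + b1 + b2)
    (B16 : 0 ≤ a1 + a2 - b1 - b2 - e)
    (B17 : 0 ≤ e - 1)
    (B20 : 0 ≤ y - 1)
    (B21 : 0 ≤ d1 - a1 + b1)
    (B22 : 0 ≤ a1 - b1 - d1)
    (B23 : 0 ≤ d1 - 1)
    (B25 : 0 ≤ -d1 + 1)
    (B27 : 0 ≤ -e + 1)
    (B34 : 0 ≤ n2 - a2 - g - 1)
    (B40 : 0 ≤ b1 - 1)
    (B43 : 0 ≤ -y + n3 - b3 - 1)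
    (D0 : (0 ≤ a1 - 1 ∧ 0 ≤ n2 - a2 - 1) ∨ (0 ≤ b1 - 1 ∧ 0 ≤ n2 - b2 - 1))
    (D1 : (0 ≤ a2 - 1 ∧ 0 ≤ n3 - a3 - 1) ∨ (0 ≤ b2 - 1 ∧ 0 ≤ n3 - b3 - 1))
    (D3 : 0 ≤ h3 - n1 + a1 ∨ 0 ≤ h3 - a2 - a3 + 1)
    (D4 : 0 ≤ k - n1 + a1 - n2 + a2 ∨ 0 ≤ k - a3 + 1)
    (D5 : 0 ≤ g - n2 + a2 + 1 ∨ 0 ≤ g - a3 - y + 1)
    (D11 : (0 ≤ n2 - b2 - 1 ∧ 0 ≤ y - p0) ∨ (0 ≤ -n2 + b2 ∧ 0 ≤ p0 - 2 * y))
    (D26 : (0 ≤ g ∧ 0 ≤ -p4) ∨ (0 ≤ -g - 1 ∧ 0 ≤ p4 - y))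
    (D34 : 0 ≤ -b1 ∨ 0 ≤ -h3 - 1 ∨ 0 ≤ -n2 + b2 - k - 1 ∨ 0 ≤ -n2 + b2 - n3 + b3 + y + 1) : False := by
  have E0 := D0
  have E1 := D1
  have E3 := D3
  have E4 := D4
  have E5 := D5
  have E11 := D11
  have E26 := D26
  have E34 : 0 ≤ -h3 - 1 ∨ 0 ≤ -n2 + b2 - k - 1 ∨ 0 ≤ -n2 + b2 - n3 + b3 + y + 1 := by
    rcases D34 with H34 | H34 | H34 | H34
    · linarith only [B40, H34]
    · exact Or.inl H34
    · exact Or.inr (Or.inl H34)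
    · exact Or.inr (Or.inr H34)
  rcases E26 with H26 | H26
  · rcases E11 with H11 | H11
    · rcases E34 with H34 | H34 | H34
      · rcases E3 with H3 | H3
        · linarith only [H34, B6, H3]
        · rcases E1 with H1 | H1
          · linarith only [H3, B2, H34, H1.1]
          · linarith only [B25, B17, H3, B2, H34, B16, B21, H1.1]
      · rcases E4 with H4 | H4
        · linarith only [H11.1, H26.1, B34, B6, H34, H4]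
        · linarith only [H11.1, B2, H34, H4]
      · linarith only [H11.1, B43, H34]
    · linarith only [B25, B17, B21, H26.1, B34, B16, H11.1]
  · rcases E5 with H5 | H5
    · rcases E0 with H0 | H0
      · linarith only [H0.2, H26.1, H5]
      · linarith only [H0.2, H26.1, B27, B15, B22, B23, H5]
    · linarith only [B20, B2, H5, H26.1]

theorem g2 {a1 a2 a3 b1 b2 b3 d1 e h m n1 n2 n3 y : ℤ}
    (B6 : 0 ≤ n1 - a1)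
    (B11 : 0 ≤ n3 - b3)
    (B16 : 0 ≤ a1 + a2 - b1 - b2 - e)
    (B17 : 0 ≤ e - 1)
    (B19 : 0 ≤ -a1 - a2 - a3 + b1 + b2 + b3 - y)
    (B20 : 0 ≤ y - 1)
    (B21 : 0 ≤ d1 - a1 + b1)
    (B25 : 0 ≤ -d1 + 1)
    (B38 : 0 ≤ y - m)
    (B40 : 0 ≤ b1 - 1)
    (B41 : 0 ≤ -y + n2 - b2 + n3 - b3 - 1)
    (D0 : (0 ≤ a1 - 1 ∧ 0 ≤ n2 - a2 - 1) ∨ (0 ≤ b1 - 1 ∧ 0 ≤ n2 - b2 - 1))
    (D1 : (0 ≤ a2 - 1 ∧ 0 ≤ n3 - a3 - 1) ∨ (0 ≤ b2 - 1 ∧ 0 ≤ n3 - b3 - 1))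
    (D6 : 0 ≤ h - n1 + a1 ∨ 0 ≤ h - a2 + 1)
    (D7 : 0 ≤ m - y ∨ 0 ≤ m - n3 + a3)
    (D34 : 0 ≤ -b1 ∨ 0 ≤ -h - 1 ∨ 0 ≤ -n2 + b2 ∨ 0 ≤ -n2 + b2 - n3 + b3 - m + y + 1) : False := by
  have E0 := D0
  have E1 := D1
  have E6 := D6
  have E7 : 0 ≤ m - y := by
    rcases D7 with H7 | H7
    · exact H7
    · linarith only [B17, H7, B38, B11, B16, B19]
  have E34 : 0 ≤ -h - 1 ∨ 0 ≤ -n2 + b2 ∨ 0 ≤ -n2 + b2 - n3 + b3 - m + y + 1 := by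
    rcases D34 with H34 | H34 | H34 | H34
    · linarith only [B40, H34]
    · exact Or.inl H34
    · exact Or.inr (Or.inl H34)
    · exact Or.inr (Or.inr H34)
  have H7 := E7
  rcases E34 with H34 | H34 | H34
  · rcases E6 with H6 | H6
    · linarith only [H34, B6, H6]
    · rcases E1 with H1 | H1
      · linarith only [H6, H34, H1.1]
      · linarith only [B17, H1.1, B21, H6, H34, B16, B25]
  · rcases E0 with H0 | H0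
    · linarith only [B17, B21, H0.2, B16, H34, B25]
    · linarith only [H34, H0.2]
  · linarith only [B41, B20, H34, H7]

theorem g3 {a1 a2 a3 b1 b2 b3 d1 e g h m n1 n2 n3 p0 p4 y : ℤ}
    (B6 : 0 ≤ n1 - a1)
    (B11 : 0 ≤ n3 - b3)
    (B16 : 0 ≤ a1 + a2 - b1 - b2 - e)
    (B17 : 0 ≤ e - 1)
    (B19 : 0 ≤ -a1 - a2 - a3 + b1 + b2 + b3 - y)
    (B20 : 0 ≤ y - 1)
    (B21 : 0 ≤ d1 - a1 + b1)
    (B25 : 0 ≤ -d1 + 1)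
    (B34 : 0 ≤ n2 - a2 - g - 1)
    (B38 : 0 ≤ y - m)
    (B40 : 0 ≤ b1 - 1)
    (B41 : 0 ≤ -y + n2 - b2 + n3 - b3 - 1)
    (B43 : 0 ≤ -p4 + y - 2)
    (D1 : (0 ≤ a2 - 1 ∧ 0 ≤ n3 - a3 - 1) ∨ (0 ≤ b2 - 1 ∧ 0 ≤ n3 - b3 - 1))
    (D6 : 0 ≤ h - n1 + a1 ∨ 0 ≤ h - a2 + 1)
    (D7 : 0 ≤ m - y ∨ 0 ≤ m - n3 + a3)
    (D11 : (0 ≤ n2 - b2 - 1 ∧ 0 ≤ y - p0) ∨ (0 ≤ -n2 + b2 ∧ 0 ≤ p0 - 2 * y))
    (D26 : (0 ≤ g ∧ 0 ≤ -p4) ∨ (0 ≤ -g - 1 ∧ 0 ≤ p4 - y))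
    (D33 : 0 ≤ -b1 ∨ 0 ≤ -h - 1 ∨ 0 ≤ -n2 + b2 ∨ 0 ≤ -n2 + b2 - n3 + b3 - m + y + 1) : False := by
  have E1 := D1
  have E6 := D6
  have E7 : 0 ≤ m - y := by
    rcases D7 with H7 | H7
    · exact H7
    · linarith only [B17, H7, B38, B11, B16, B19]
  have E11 := D11
  have E26 : (0 ≤ g ∧ 0 ≤ -p4) := by
    rcases D26 with H26 | H26
    · exact H26
    · linarith only [B43, H26.2]
  have E33 : 0 ≤ -h - 1 ∨ 0 ≤ -n2 + b2 ∨ 0 ≤ -n2 + b2 - n3 + b3 - m + y + 1 := by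
    rcases D33 with H33 | H33 | H33 | H33
    · linarith only [B40, H33]
    · exact Or.inl H33
    · exact Or.inr (Or.inl H33)
    · exact Or.inr (Or.inr H33)
  have H26 := E26
  rcases E11 with H11 | H11
  · have H7 := E7
    rcases E33 with H33 | H33 | H33
    · rcases E6 with H6 | H6
      · linarith only [H33, B6, H6]
      · rcases E1 with H1 | H1
        · linarith only [H6, H33, H1.1]
        · linarith only [B17, H1.1, B21, H6, H33, B16, B25]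
    · linarith only [H11.1, H33]
    · linarith only [B41, B20, H33, H7]
  · linarith only [B17, B21, H26.1, B34, B16, H11.1, B25]

theorem g4 {m y : ℤ}
    (B38 : 0 ≤ y - m)
    (B42 : 0 ≤ -y + m - 1) : False := by
  linarith only [B38, B42]

theorem g5 {a1 a2 a3 b1 b2 b3 d1 e h m n1 n2 n3 p0 p5 y : ℤ}
    (B6 : 0 ≤ n1 - a1)
    (B11 : 0 ≤ n3 - b3)
    (B16 : 0 ≤ a1 + a2 - b1 - b2 - e)
    (B17 : 0 ≤ e - 1)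
    (B19 : 0 ≤ -a1 - a2 - a3 + b1 + b2 + b3 - y)
    (B20 : 0 ≤ y - 1)
    (B21 : 0 ≤ d1 - a1 + b1)
    (B25 : 0 ≤ -d1 + 1)
    (B38 : 0 ≤ y - m)
    (B42 : 0 ≤ b1 - 1)
    (D0 : (0 ≤ a1 - 1 ∧ 0 ≤ n2 - a2 - 1) ∨ (0 ≤ b1 - 1 ∧ 0 ≤ n2 - b2 - 1))
    (D1 : (0 ≤ a2 - 1 ∧ 0 ≤ n3 - a3 - 1) ∨ (0 ≤ b2 - 1 ∧ 0 ≤ n3 - b3 - 1))
    (D6 : 0 ≤ h - n1 + a1 ∨ 0 ≤ h - a2 + 1)
    (D7 : 0 ≤ m - y ∨ 0 ≤ m - n3 + a3)
    (D10 : (0 ≤ n2 - b2 - 2 ∧ 0 ≤ -p0) ∨ (0 ≤ -n2 + b2 + 1 ∧ 0 ≤ p0 - y))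
    (D30 : (0 ≤ h ∧ 0 ≤ -p5) ∨ (0 ≤ -h - 1 ∧ 0 ≤ p5 - y))
    (D33 : 0 ≤ -p0 + n2 - b2 + n3 - b3 + y - 2 ∨ 0 ≤ -y + n2 - b2 + n3 - b3 - 1)
    (D34 : 0 ≤ -b1 ∨ 0 ≤ -h - 1 ∨ 0 ≤ -n2 + b2 ∨ 0 ≤ -n2 + b2 - n3 + b3 - m + y + 1) : False := by
  have E0 := D0
  have E1 := D1
  have E6 := D6
  have E7 : 0 ≤ m - y := by
    rcases D7 with H7 | H7
    · exact H7
    · linarith only [B17, H7, B38, B11, B16, B19]
  have E10 := D10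
  have E30 := D30
  have E33 := D33
  have E34 : 0 ≤ -h - 1 ∨ 0 ≤ -n2 + b2 ∨ 0 ≤ -n2 + b2 - n3 + b3 - m + y + 1 := by
    rcases D34 with H34 | H34 | H34 | H34
    · linarith only [B42, H34]
    · exact Or.inl H34
    · exact Or.inr (Or.inl H34)
    · exact Or.inr (Or.inr H34)
  have H7 := E7
  rcases E30 with H30 | H30
  · rcases E34 with H34 | H34 | H34
    · linarith only [H34, H30.1]
    · rcases E0 with H0 | H0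
      · linarith only [B16, B17, B21, H34, H0.2, B25]
      · linarith only [H0.2, H34]
    · rcases E33 with H33 | H33
      · rcases E10 with H10 | H10
        · linarith only [H10.1, H34, B11, H7]
        · linarith only [H10.2, H34, H33, H7]
      · linarith only [H33, B20, H34, H7]
  · rcases E6 with H6 | H6
    · linarith only [H30.1, B6, H6]
    · rcases E1 with H1 | H1
      · linarith only [H6, H30.1, H1.1]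
      · linarith only [B17, H1.1, B21, H6, H30.1, B16, B25]

theorem g6 {a1 a2 a3 b1 b2 b3 d1 e g hp n1 n2 n3 p4 y : ℤ}
    (B2 : 0 ≤ a3)
    (B6 : 0 ≤ n1 - a1)
    (B15 : 0 ≤ e - a1 - a2 + b1 + b2)
    (B20 : 0 ≤ y - 1)
    (B22 : 0 ≤ a1 - b1 - d1)
    (B23 : 0 ≤ d1 - 1)
    (B27 : 0 ≤ -e + 1)
    (B40 : 0 ≤ b1 + b2 - 1)
    (B43 : 0 ≤ -y + n3 - b3 - 1)
    (D0 : (0 ≤ a1 - 1 ∧ 0 ≤ n2 - a2 - 1) ∨ (0 ≤ b1 - 1 ∧ 0 ≤ n2 - b2 - 1))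
    (D1 : (0 ≤ a2 - 1 ∧ 0 ≤ n3 - a3 - 1) ∨ (0 ≤ b2 - 1 ∧ 0 ≤ n3 - b3 - 1))
    (D2 : 0 ≤ hp - n1 + b1 ∨ 0 ≤ hp - b2 + 1)
    (D5 : 0 ≤ g - n2 + a2 + 1 ∨ 0 ≤ g - a3 - y + 1)
    (D26 : (0 ≤ g ∧ 0 ≤ -p4) ∨ (0 ≤ -g - 1 ∧ 0 ≤ p4 - y))
    (D34 : 0 ≤ -b1 - b2 ∨ 0 ≤ -hp - 1 ∨ 0 ≤ -g - 1 ∨ 0 ≤ -n3 + b3 + 1) : False := by
  have E0 := D0
  have E1 := D1
  have E2 := D2
  have E5 := D5
  have E26 := D26
  have E34 : 0 ≤ -hp - 1 ∨ 0 ≤ -g - 1 := by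
    rcases D34 with H34 | H34 | H34 | H34
    · linarith only [H34, B40]
    · exact Or.inl H34
    · exact Or.inr H34
    · linarith only [B20, B43, H34]
  rcases E26 with H26 | H26
  · rcases E34 with H34 | H34
    · rcases E2 with H2 | H2
      · linarith only [B23, H34, B22, B6, H2]
      · rcases E1 with H1 | H1
        · linarith only [B27, B23, H34, B15, H2, B22, H1.1]
        · linarith only [H34, H2, H1.1]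
    · linarith only [H26.1, H34]
  · rcases E5 with H5 | H5
    · rcases E0 with H0 | H0
      · linarith only [H26.1, H0.2, H5]
      · linarith only [B23, H26.1, B27, B15, B22, H0.2, H5]
    · linarith only [B20, H5, B2, H26.1]

theorem g7_l0 {a1 a2 a3 b1 b2 b3 d1 e h3 hp k n3 p1 p2 p3 y : ℤ}
    (B15 : 0 ≤ e - a1 - a2 + b1 + b2)
    (B20 : 0 ≤ y - 1)
    (B22 : 0 ≤ a1 - b1 - d1)
    (B23 : 0 ≤ d1 - 1)
    (B27 : 0 ≤ -e + 1)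
    (E1 : (0 ≤ a2 - 1 ∧ 0 ≤ n3 - a3 - 1) ∨ (0 ≤ b2 - 1 ∧ 0 ≤ n3 - b3 - 1))
    (E15 : (0 ≤ hp ∧ 0 ≤ y - p1) ∨ (0 ≤ -hp - 1 ∧ 0 ≤ p1 - 2 * y))
    (E32 : 0 ≤ -p1 + n3 - b3 + y - 2 ∨ 0 ≤ -y + n3 - b3 - 1)
    (E35 : 0 ≤ -hp - h3 - 1 ∨ 0 ≤ -k ∨ 0 ≤ -n3 + b3 + 1)
    (H2 : 0 ≤ hp - b2 + 1)
    (H14 : 0 ≤ -hp ∧ 0 ≤ p1 - y)
    (H18 : 0 ≤ h3 ∧ 0 ≤ -p2)
    (H21 : 0 ≤ k - 1 ∧ 0 ≤ -y - p3) : False := by
  rcases E15 with H15 | H15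
  · rcases E35 with H35 | H35 | H35
    · linarith only [H18.1, H35, H15.1]
    · linarith only [H21.1, H35]
    · rcases E32 with H32 | H32
      · linarith only [H14.2, H32, H35]
      · linarith only [H32, B20, H35]
  · rcases E1 with H1 | H1
    · linarith only [B27, B23, H15.1, B15, H2, B22, H1.1]
    · linarith only [H15.1, H2, H1.1]

theorem g7 {a1 a2 a3 b1 b2 b3 d1 e g h h3 hp k m n1 n2 n3 p0 p1 p2 p3 p4 p5 y : ℤ}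
    (B1 : 0 ≤ a2)
    (B4 : 0 ≤ b2)
    (B6 : 0 ≤ n1 - a1)
    (B11 : 0 ≤ n3 - b3)
    (B15 : 0 ≤ e - a1 - a2 + b1 + b2)
    (B16 : 0 ≤ a1 + a2 - b1 - b2 - e)
    (B17 : 0 ≤ e - 1)
    (B18 : 0 ≤ y + a1 + a2 + a3 - b1 - b2 - b3)
    (B19 : 0 ≤ -a1 - a2 - a3 + b1 + b2 + b3 - y)
    (B20 : 0 ≤ y - 1)
    (B21 : 0 ≤ d1 - a1 + b1)
    (B22 : 0 ≤ a1 - b1 - d1)
    (B23 : 0 ≤ d1 - 1)
    (B25 : 0 ≤ -d1 + 1)
    (B27 : 0 ≤ -e + 1)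
    (B28 : 0 ≤ n1 - b1 - hp)
    (B29 : 0 ≤ b2 - hp - 1)
    (B30 : 0 ≤ n1 - a1 - h3)
    (B32 : 0 ≤ n1 - a1 + n2 - a2 - k)
    (B33 : 0 ≤ a3 - k - 1)
    (B34 : 0 ≤ n2 - a2 - g - 1)
    (B37 : 0 ≤ a2 - h - 1)
    (B38 : 0 ≤ y - m)
    (B40 : 0 ≤ b1 + b2 - 1)
    (B42 : 0 ≤ -p3 - 1)
    (D0 : (0 ≤ a1 - 1 ∧ 0 ≤ n2 - a2 - 1) ∨ (0 ≤ b1 - 1 ∧ 0 ≤ n2 - b2 - 1))
    (D1 : (0 ≤ a2 - 1 ∧ 0 ≤ n3 - a3 - 1) ∨ (0 ≤ b2 - 1 ∧ 0 ≤ n3 - b3 - 1))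
    (D2 : 0 ≤ hp - n1 + b1 ∨ 0 ≤ hp - b2 + 1)
    (D3 : 0 ≤ h3 - n1 + a1 ∨ 0 ≤ h3 - a2 - a3 + 1)
    (D5 : 0 ≤ g - n2 + a2 + 1 ∨ 0 ≤ g - a3 - y + 1)
    (D6 : 0 ≤ h - n1 + a1 ∨ 0 ≤ h - a2 + 1)
    (D7 : 0 ≤ m - y ∨ 0 ≤ m - n3 + a3)
    (D10 : (0 ≤ n2 - b2 - 2 ∧ 0 ≤ -p0) ∨ (0 ≤ -n2 + b2 + 1 ∧ 0 ≤ p0 - y))
    (D11 : (0 ≤ n2 - b2 - 1 ∧ 0 ≤ y - p0) ∨ (0 ≤ -n2 + b2 ∧ 0 ≤ p0 - 2 * y))
    (D12 : (0 ≤ hp - 3 ∧ 0 ≤ -2 * y - p1) ∨ (0 ≤ -hp + 2 ∧ 0 ≤ p1 + y))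
    (D13 : (0 ≤ hp - 2 ∧ 0 ≤ -y - p1) ∨ (0 ≤ -hp + 1 ∧ 0 ≤ p1))
    (D14 : (0 ≤ hp - 1 ∧ 0 ≤ -p1) ∨ (0 ≤ -hp ∧ 0 ≤ p1 - y))
    (D15 : (0 ≤ hp ∧ 0 ≤ y - p1) ∨ (0 ≤ -hp - 1 ∧ 0 ≤ p1 - 2 * y))
    (D16 : (0 ≤ h3 - 2 ∧ 0 ≤ -2 * y - p2) ∨ (0 ≤ -h3 + 1 ∧ 0 ≤ p2 + y))
    (D17 : (0 ≤ h3 - 1 ∧ 0 ≤ -y - p2) ∨ (0 ≤ -h3 ∧ 0 ≤ p2))
    (D18 : (0 ≤ h3 ∧ 0 ≤ -p2) ∨ (0 ≤ -h3 - 1 ∧ 0 ≤ p2 - y))
    (D20 : (0 ≤ k - 2 ∧ 0 ≤ -2 * y - p3) ∨ (0 ≤ -k + 1 ∧ 0 ≤ p3 + y))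
    (D21 : (0 ≤ k - 1 ∧ 0 ≤ -y - p3) ∨ (0 ≤ -k ∧ 0 ≤ p3))
    (D25 : (0 ≤ g - 1 ∧ 0 ≤ -y - p4) ∨ (0 ≤ -g ∧ 0 ≤ p4))
    (D26 : (0 ≤ g ∧ 0 ≤ -p4) ∨ (0 ≤ -g - 1 ∧ 0 ≤ p4 - y))
    (D29 : (0 ≤ h - 1 ∧ 0 ≤ -y - p5) ∨ (0 ≤ -h ∧ 0 ≤ p5))
    (D32 : 0 ≤ -p1 + n3 - b3 + y - 2 ∨ 0 ≤ -y + n3 - b3 - 1)
    (D33 : 0 ≤ -p3 - 2 ∨ 0 ≤ -p2 - 1)
    (D34 : 0 ≤ -h3 - h - 1 ∨ 0 ≤ -k ∨ 0 ≤ -m + 1)
    (D35 : 0 ≤ -b1 - b2 ∨ 0 ≤ -hp - h3 - 1 ∨ 0 ≤ -k ∨ 0 ≤ -n3 + b3 + 1)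
    (D36 : 0 ≤ -h ∨ 0 ≤ -g ∨ 0 ≤ -y - m + 1)
    (D37 : 0 ≤ -b1 - b2 ∨ 0 ≤ -hp - h3 ∨ 0 ≤ -k + 1 ∨ 0 ≤ -n3 + b3 - y + 1)
    (D38 : 0 ≤ -b1 ∨ 0 ≤ -h3 ∨ 0 ≤ -n2 + b2 - k ∨ 0 ≤ -n2 + b2 - n3 + b3 + 1)
    (D39 : 0 ≤ -b1 ∨ 0 ≤ -h3 + 1 ∨ 0 ≤ -n2 + b2 - k + 1 ∨ 0 ≤ -n2 + b2 - n3 + b3 - y + 1)
    (D40 : ((0 ≤ b1 - 1 ∧ 0 ≤ -p0 + n2 - b2 + n3 - b3 + y - 2) ∨ (0 ≤ b1 - 1 ∧ 0 ≤ p0 - n2 + b2 - n3 + b3 - y + 1 ∧ 0 ≤ -p0 + n2 - b2 + n3 - b3 + y - 1 ∧ 0 ≤ n2 - b2 + n3 - b3 + y - 2) ∨ (0 ≤ b1 - 1 ∧ 0 ≤ p0 - n2 + b2 - n3 + b3 - y + 1 ∧ 0 ≤ -p0 + n2 - b2 + n3 - b3 + y - 1 ∧ 0 ≤ -n2 + b2 - n3 + b3 - y + 1 ∧ 0 ≤ n2 - b2 + n3 - b3 + y - 1 ∧ 0 ≤ -y + n2 - b2 + n3 - b3 - 1)) ∨ ((0 ≤ b1 + b2 - 1 ∧ 0 ≤ -y + n3 - b3 - 2) ∨ (0 ≤ b1 + b2 - 1 ∧ 0 ≤ y - n3 + b3 + 1 ∧ 0 ≤ -y + n3 - b3 - 1 ∧ 0 ≤ n3 - b3 + y - 2) ∨ (0 ≤ b1 + b2 - 1 ∧ 0 ≤ y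 - n3 + b3 + 1 ∧ 0 ≤ -y + n3 - b3 - 1 ∧ 0 ≤ -n3 + b3 - y + 1 ∧ 0 ≤ n3 - b3 + y - 1 ∧ 0 ≤ -p1 + n3 - b3 + y - 1)) ∨ (0 ≤ -p3 - 2) ∨ (0 ≤ -p4 + y - 2 ∨ (0 ≤ p4 - y + 1 ∧ 0 ≤ -p4 + y - 1 ∧ 0 ≤ y - 2)) ∨ (0 ≤ -y + m - 2 ∨ (0 ≤ y - m + 1 ∧ 0 ≤ -y + m - 1 ∧ 0 ≤ m - 2) ∨ (0 ≤ y - m + 1 ∧ 0 ≤ -y + m - 1 ∧ 0 ≤ -m + 1 ∧ 0 ≤ m - 1 ∧ 0 ≤ -p5 + m - 1)))
    (D41 : ((0 ≤ b1 - 1 ∧ 0 ≤ n2 - b2 + n3 - b3 + y - 2) ∨ (0 ≤ b1 - 1 ∧ 0 ≤ -n2 + b2 - n3 + b3 - y + 1 ∧ 0 ≤ n2 - b2 + n3 - b3 + y - 1 ∧ 0 ≤ -p0 + n2 - b2 + n3 - b3 + y - 2) ∨ (0 ≤ b1 - 1 ∧ 0 ≤ -n2 + b2 - n3 + b3 - y + 1 ∧ 0 ≤ n2 - b2 + n3 - b3 + y - 1 ∧ 0 ≤ p0 - n2 + b2 - n3 + b3 - y + 1 ∧ 0 ≤ -p0 + n2 - b2 + n3 - b3 + y - 1 ∧ 0 ≤ -y + n2 - b2 + n3 - b3 - 1)) ∨ ((0 ≤ b1 + b2 - 1 ∧ 0 ≤ n3 - b3 + y - 2) ∨ (0 ≤ b1 + b2 - 1 ∧ 0 ≤ -n3 + b3 - y + 1 ∧ 0 ≤ n3 - b3 + y - 1 ∧ 0 ≤ -y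 + n3 - b3 - 2) ∨ (0 ≤ b1 + b2 - 1 ∧ 0 ≤ -n3 + b3 - y + 1 ∧ 0 ≤ n3 - b3 + y - 1 ∧ 0 ≤ y - n3 + b3 + 1 ∧ 0 ≤ -y + n3 - b3 - 1 ∧ 0 ≤ -p1 + n3 - b3 + y - 1)) ∨ (0 ≤ y - 2 ∨ (0 ≤ -y + 1 ∧ 0 ≤ y - 1 ∧ 0 ≤ -p4 + y - 2)) ∨ (0 ≤ m - 2 ∨ (0 ≤ -m + 1 ∧ 0 ≤ m - 1 ∧ 0 ≤ -y + m - 2) ∨ (0 ≤ -m + 1 ∧ 0 ≤ m - 1 ∧ 0 ≤ y - m + 1 ∧ 0 ≤ -y + m - 1 ∧ 0 ≤ -p5 + m - 1)))
    (D42 : ((0 ≤ b1 - 1 ∧ 0 ≤ -p0 + n2 - b2 + n3 - b3 + y - 2) ∨ (0 ≤ b1 - 1 ∧ 0 ≤ p0 - n2 + b2 - n3 + b3 - y + 1 ∧ 0 ≤ -p0 + n2 - b2 + n3 - b3 + y - 1 ∧ 0 ≤ -y + n2 - b2 + n3 - b3 - 2) ∨ (0 ≤ b1 - 1 ∧ 0 ≤ p0 - n2 + b2 - n3 + b3 - y + 1 ∧ 0 ≤ -p0 + n2 - b2 + n3 - b3 + y - 1 ∧ 0 ≤ y - n2 + b2 - n3 + b3 + 1 ∧ 0 ≤ -y + n2 - b2 + n3 - b3 - 1 ∧ 0 ≤ n2 - b2 + n3 - b3 + y - 1)) ∨ ((0 ≤ b1 + b2 - 1 ∧ 0 ≤ -y + n3 - b3 - 2) ∨ (0 ≤ b1 + b2 - 1 ∧ 0 ≤ y - n3 + b3 + 1 ∧ 0 ≤ -y +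 n3 - b3 - 1 ∧ 0 ≤ -p1 + n3 - b3 + y - 2) ∨ (0 ≤ b1 + b2 - 1 ∧ 0 ≤ y - n3 + b3 + 1 ∧ 0 ≤ -y + n3 - b3 - 1 ∧ 0 ≤ p1 - n3 + b3 - y + 1 ∧ 0 ≤ -p1 + n3 - b3 + y - 1 ∧ 0 ≤ n3 - b3 + y - 1)) ∨ (0 ≤ -p3 - 2 ∨ (0 ≤ p3 + 1 ∧ 0 ≤ -p3 - 1 ∧ 0 ≤ -p2 - 2)) ∨ (0 ≤ -p4 + y - 2) ∨ (0 ≤ -y + m - 2 ∨ (0 ≤ y - m + 1 ∧ 0 ≤ -y + m - 1 ∧ 0 ≤ -p5 + m - 2) ∨ (0 ≤ y - m + 1 ∧ 0 ≤ -y + m - 1 ∧ 0 ≤ p5 - m + 1 ∧ 0 ≤ -p5 + m - 1 ∧ 0 ≤ m - 1)))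
    (D43 : 0 ≤ -n1 - b1 + 2 * a1 - 1 ∨ 0 ≤ n1 + b1 - 2 * a1 - 1 ∨ 0 ≤ n2 - a2 - 2 ∨ 0 ≤ -n2 + a2 ∨ 0 ≤ n3 - a3 - n1 + a1 - 2 ∨ 0 ≤ -n3 + a3 + n1 - a1 ∨ 0 ≤ n2 - b2 - 2 ∨ 0 ≤ -n2 + b2 ∨ 0 ≤ n3 - b3 - 1 ∨ 0 ≤ -b1 ∨ 0 ≤ -n2 + 2 ∨ 0 ≤ 2 * n1 - 2 * a1 - n3 + 2 ∨ 0 ≤ -n1 + a1) : False := by
  have E0 := D0
  have E1 := D1
  have E2 := D2
  have E3 := D3
  have E5 := D5
  have E6 := D6
  have E7 : 0 ≤ m - y := by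
    rcases D7 with H7 | H7
    · exact H7
    · linarith only [B17, H7, B38, B11, B16, B19]
  have E10 := D10
  have E11 := D11
  have E12 := D12
  have E13 := D13
  have E14 := D14
  have E15 := D15
  have E16 := D16
  have E17 := D17
  have E18 := D18
  have E20 := D20
  have E21 : (0 ≤ k - 1 ∧ 0 ≤ -y - p3) := by
    rcases D21 with H21 | H21
    · exact H21
    · linarith only [B42, H21.2]
  have E25 := D25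
  have E26 := D26
  have E29 := D29
  have E32 := D32
  have E33 := D33
  have E34 := D34
  have E35 : 0 ≤ -hp - h3 - 1 ∨ 0 ≤ -k ∨ 0 ≤ -n3 + b3 + 1 := by
    rcases D35 with H35 | H35 | H35 | H35
    · linarith only [H35, B40]
    · exact Or.inl H35
    · exact Or.inr (Or.inl H35)
    · exact Or.inr (Or.inr H35)
  have E36 := D36
  have E37 : 0 ≤ -hp - h3 ∨ 0 ≤ -k + 1 ∨ 0 ≤ -n3 + b3 - y + 1 := by
    rcases D37 with H37 | H37 | H37 | H37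
    · linarith only [H37, B40]
    · exact Or.inl H37
    · exact Or.inr (Or.inl H37)
    · exact Or.inr (Or.inr H37)
  have E38 := D38
  have E39 := D39
  have E40 : (0 ≤ b1 - 1 ∧ 0 ≤ -p0 + n2 - b2 + n3 - b3 + y - 2) ∨ (0 ≤ b1 - 1 ∧ 0 ≤ p0 - n2 + b2 - n3 + b3 - y + 1 ∧ 0 ≤ -p0 + n2 - b2 + n3 - b3 + y - 1 ∧ 0 ≤ n2 - b2 + n3 - b3 + y - 2) ∨ (0 ≤ b1 + b2 - 1 ∧ 0 ≤ -y + n3 - b3 - 2) ∨ (0 ≤ b1 + b2 - 1 ∧ 0 ≤ y - n3 + b3 + 1 ∧ 0 ≤ -y + n3 - b3 - 1 ∧ 0 ≤ n3 - b3 + y - 2) ∨ 0 ≤ -p3 - 2 ∨ 0 ≤ -p4 + y - 2 ∨ (0 ≤ p4 - y + 1 ∧ 0 ≤ -p4 + y - 1 ∧ 0 ≤ y - 2) := by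
    rcases D40 with (H40 | H40 | H40) | (H40 | H40 | H40) | H40 | (H40 | H40) | (H40 | H40 | H40)
    · exact Or.inl H40
    · exact Or.inr (Or.inl H40)
    · linarith only [H40.2.2.2.2.2, B20, H40.2.2.2.1]
    · exact Or.inr (Or.inr (Or.inl H40))
    · exact Or.inr (Or.inr (Or.inr (Or.inl H40)))
    · linarith only [B20, H40.2.2.1, H40.2.2.2.1]
    · exact Or.inr (Or.inr (Or.inr (Or.inr (Or.inl H40))))
    · exact Or.inr (Or.inr (Or.inr (Or.inr (Or.inr (Or.inl H40)))))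
    · exact Or.inr (Or.inr (Or.inr (Or.inr (Or.inr (Or.inr H40)))))
    · linarith only [B38, H40]
    · linarith only [B38, H40.2.1]
    · linarith only [B38, H40.2.1]
  have E41 : (0 ≤ b1 - 1 ∧ 0 ≤ n2 - b2 + n3 - b3 + y - 2) ∨ (0 ≤ b1 - 1 ∧ 0 ≤ -n2 + b2 - n3 + b3 - y + 1 ∧ 0 ≤ n2 - b2 + n3 - b3 + y - 1 ∧ 0 ≤ -p0 + n2 - b2 + n3 - b3 + y - 2) ∨ (0 ≤ b1 + b2 - 1 ∧ 0 ≤ n3 - b3 + y - 2) ∨ 0 ≤ y - 2 ∨ (0 ≤ -y + 1 ∧ 0 ≤ y - 1 ∧ 0 ≤ -p4 + y - 2) ∨ 0 ≤ m - 2 := by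
    rcases D41 with (H41 | H41 | H41) | (H41 | H41 | H41) | (H41 | H41) | (H41 | H41 | H41)
    · exact Or.inl H41
    · exact Or.inr (Or.inl H41)
    · linarith only [H41.2.2.2.2.2, B20, H41.2.1]
    · exact Or.inr (Or.inr (Or.inl H41))
    · linarith only [H41.2.2.2, B20, H41.2.1]
    · linarith only [B20, H41.2.2.2.2.1, H41.2.1]
    · exact Or.inr (Or.inr (Or.inr (Or.inl H41)))
    · exact Or.inr (Or.inr (Or.inr (Or.inr (Or.inl H41))))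
    · exact Or.inr (Or.inr (Or.inr (Or.inr (Or.inr H41))))
    · linarith only [B38, H41.2.2]
    · linarith only [B38, H41.2.2.2.1]
  have E42 : (0 ≤ b1 - 1 ∧ 0 ≤ -p0 + n2 - b2 + n3 - b3 + y - 2) ∨ (0 ≤ b1 - 1 ∧ 0 ≤ p0 - n2 + b2 - n3 + b3 - y + 1 ∧ 0 ≤ -p0 + n2 - b2 + n3 - b3 + y - 1 ∧ 0 ≤ -y + n2 - b2 + n3 - b3 - 2) ∨ (0 ≤ b1 - 1 ∧ 0 ≤ p0 - n2 + b2 - n3 + b3 - y + 1 ∧ 0 ≤ -p0 + n2 - b2 + n3 - b3 + y - 1 ∧ 0 ≤ y - n2 + b2 - n3 + b3 + 1 ∧ 0 ≤ -y + n2 - b2 + n3 - b3 - 1 ∧ 0 ≤ n2 - b2 + n3 - b3 + y - 1) ∨ (0 ≤ b1 + b2 - 1 ∧ 0 ≤ -y + n3 - b3 - 2) ∨ (0 ≤ b1 + b2 - 1 ∧ 0 ≤ y - n3 + b3 + 1 ∧ 0 ≤ -y + n3 - b3 - 1 ∧ 0 ≤ -p1 + n3 - b3 + y - 2) ∨ (0 ≤ b1 + b2 - 1 ∧ 0 ≤ y - n3 + b3 + 1 ∧ 0 ≤ -y + n3 - b3 - 1 ∧ 0 ≤ p1 - n3 + b3 - y + 1 ∧ 0 ≤ -p1 + n3 - b3 + y - 1 ∧ 0 ≤ n3 - b3 + y - 1) ∨ 0 ≤ -p3 - 2 ∨ (0 ≤ p3 + 1 ∧ 0 ≤ -p3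 - 1 ∧ 0 ≤ -p2 - 2) ∨ 0 ≤ -p4 + y - 2 := by
    rcases D42 with (H42 | H42 | H42) | (H42 | H42 | H42) | (H42 | H42) | H42 | (H42 | H42 | H42)
    · exact Or.inl H42
    · exact Or.inr (Or.inl H42)
    · exact Or.inr (Or.inr (Or.inl H42))
    · exact Or.inr (Or.inr (Or.inr (Or.inl H42)))
    · exact Or.inr (Or.inr (Or.inr (Or.inr (Or.inl H42))))
    · exact Or.inr (Or.inr (Or.inr (Or.inr (Or.inr (Or.inl H42)))))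
    · exact Or.inr (Or.inr (Or.inr (Or.inr (Or.inr (Or.inr (Or.inl H42))))))
    · exact Or.inr (Or.inr (Or.inr (Or.inr (Or.inr (Or.inr (Or.inr (Or.inl H42)))))))
    · exact Or.inr (Or.inr (Or.inr (Or.inr (Or.inr (Or.inr (Or.inr (Or.inr H42)))))))
    · linarith only [B38, H42]
    · linarith only [B38, H42.2.1]
    · linarith only [B38, H42.2.1]
  have E43 := D43
  have H21 := E21
  have H7 := E7
  rcases E26 with H26 | H26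
  · rcases E11 with H11 | H11
    · rcases E36 with H36 | H36 | H36
      · rcases E17 with H17 | H17
        · rcases E6 with H6 | H6
          · linarith only [H17.1, H36, B30, H6]
          · rcases E2 with H2 | H2
            · linarith only [H17.1, B29, B17, H6, H36, B30, B16, H2]
            · rcases E35 with H35 | H35 | H35
              · linarith only [H2, H17.1, H35, B4]
              · linarith only [H21.1, H35]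
              · rcases E32 with H32 | H32
                · rcases E14 with H14 | H14
                  · linarith only [B29, H14.1, B17, B21, H6, H36, B16, B25]
                  · linarith only [H14.2, H32, H35]
                · linarith only [B20, H32, H35]
        · rcases E3 with H3 | H3
          · rcases E33 with H33 | H33
            · rcases E13 with H13 | H13
              · linarith only [H13.1, B21, B25, H17.1, B28, H3]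
              · rcases E18 with H18 | H18
                · rcases E14 with H14 | H14
                  · rcases E35 with H35 | H35 | H35
                    · linarith only [H14.1, H18.1, H35]
                    · linarith only [H21.1, H35]
                    · rcases E32 with H32 | H32
                      · rcases E37 with H37 | H37 | H37
                        · linarith only [H18.1, H14.1, H37]
                        · rcases E6 with H6 | H6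
                          · rcases E34 with H34 | H34 | H34
                            · linarith only [H18.1, B6, H34, H6]
                            · linarith only [H21.1, H34]
                            · rcases E20 with H20 | H20
                              · linarith only [H20.1, H37]
                              · linarith only [H34, H20.2, H33, H7]
                          · linarith only [H14.1, B17, B29, B21, H6, B16, B25, H36]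
                        · linarith only [H13.2, H32, H37]
                      · linarith only [H32, B20, H35]
                  · rcases E2 with H2 | H2
                    · linarith only [B23, B6, B22, H14.1, H2]
                    · exact g7_l0 B15 B20 B22 B23 B27 E1 E15 E32 E35 H2 H14 H18 H21
                · linarith only [B6, H18.1, H3]
            · linarith only [H17.2, H33]
          · linarith only [B33, H3, H21.1, H17.1, B1]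
      · rcases E5 with H5 | H5
        · rcases E10 with H10 | H10
          · linarith only [H10.1, B23, B27, B15, B22, H36, H5]
          · rcases E25 with H25 | H25
            · linarith only [H25.1, H36]
            · rcases E17 with H17 | H17
              · rcases E18 with H18 | H18
                · rcases E29 with H29 | H29
                  · rcases E34 with H34 | H34 | H34
                    · linarith only [H17.1, H34, H29.1]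
                    · linarith only [H21.1, H34]
                    · rcases E35 with H35 | H35 | H35
                      · rcases E2 with H2 | H2
                        · linarith only [H17.1, B30, B22, H35, B23, H2]
                        · linarith only [B37, H2, H17.1, H10.1, B34, H26.1, H35, H29.1]
                      · linarith only [H21.1, H35]
                      · rcases E32 with H32 | H32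
                        · rcases E14 with H14 | H14
                          · rcases E38 with H38 | H38 | H38 | H38
                            · rcases E41 with H41 | H41 | H41 | H41 | H41 | H41
                              · linarith only [H41.1, H38]
                              · linarith only [H41.2.2.2, B20, H10.2, H41.2.1]
                              · rcases E40 with H40 | H40 | H40 | H40 | H40 | H40 | H40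
                                · linarith only [H40.1, H38]
                                · linarith only [H40.1, H38]
                                · linarith only [H40.2, B20, H35]
                                · linarith only [H40.2.2.1, B20, H35]
                                · rcases E20 with H20 | H20
                                  · rcases E37 with H37 | H37 | H37
                                    · linarith only [H14.1, H37, H17.1]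
                                    · linarith only [H20.1, H37]
                                    · linarith only [H41.2, H37]
                                  · linarith only [H34, H20.2, H40, H7]
                                · linarith only [H34, H25.2, H40, H7]
                                · linarith only [H34, H40.2.2, H7]
                              · linarith only [H34, H41, H7]
                              · linarith only [H25.2, H41.2.2, H41.1]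
                              · linarith only [H41, H34]
                            · linarith only [H17.1, H38]
                            · linarith only [H11.1, H21.1, H38]
                            · rcases E41 with H41 | H41 | H41 | H41 | H41 | H41
                              · rcases E39 with H39 | H39 | H39 | H39
                                · linarith only [H41.1, H39]
                                · rcases E3 with H3 | H3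
                                  · rcases E12 with H12 | H12
                                    · linarith only [H12.1, B21, H3, B28, H39, B25]
                                    · rcases E13 with H13 | H13
                                      · rcases E16 with H16 | H16
                                        · linarith only [H39, H16.1]
                                        · rcases E42 with H42 | H42 | H42 | H42 | H42 | H42 | H42 | H42 | H42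
                                          · linarith only [H42.2, H10.2, H38]
                                          · linarith only [H42.2.2.2, B20, H38]
                                          · linarith only [H42.2.2.2.2.1, B20, H38]
                                          · linarith only [H11.1, H42.2, B20, H38]
                                          · linarith only [H42.2.2.1, H11.1, B20, H38]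
                                          · linarith only [H42.2.2.1, B20, H13.2, H42.2.2.2.1]
                                          · rcases E20 with H20 | H20
                                            · rcases E43 with H43 | H43 | H43 | H43 | H43 | H43 | H43 | H43 | H43 | H43 | H43 | H43 | H43
                                              · linarith only [H43, B21, B25, B30, H17.1]
                                              · linarith only [H43, B23, H39, B22, H3]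
                                              · linarith only [H5, H36, H43]
                                              · linarith only [B34, H43, H26.1]
                                              · linarith only [H20.1, B25, B32, B21, H34, H43, B18, H38, H7]
                                              · linarith only [B19, B17, B11, H3, H39, H12.2, B16, H32, H43]
                                              · linarith only [H43, H10.1]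
                                              · linarith only [H11.1, H43]
                                              · linarith only [H11.1, H43, H38]
                                              · linarith only [H41.1, H43]
                                              · linarith only [H13.1, H43, B29, H11.1]
                                              · linarith only [H43, B19, B17, B33, B11, H39, B16, H3, H12.2, H32, H20.1]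
                                              · linarith only [H17.1, B30, H43]
                                            · linarith only [H34, H20.2, H42, H7]
                                          · linarith only [H16.2, H34, H42.2.2, H7]
                                          · linarith only [H34, H25.2, H42, H7]
                                      · linarith only [H11.1, H34, H13.2, H38, H32, H7]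
                                  · linarith only [B33, B37, H21.1, H29.1, H3, H39]
                                · linarith only [H11.1, H39, H21.1]
                                · linarith only [H41.2, H39]
                              · linarith only [H41.2.2.2, B20, H10.2, H41.2.1]
                              · linarith only [H41.2, H38, H34, H11.1, H7]
                              · linarith only [H34, H41, H7]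
                              · linarith only [H25.2, H41.2.2, H41.1]
                              · linarith only [H41, H34]
                          · linarith only [H14.2, H32, H35]
                        · linarith only [H32, B20, H35]
                  · rcases E6 with H6 | H6
                    · linarith only [H17.1, H29.1, B30, H6]
                    · rcases E2 with H2 | H2
                      · linarith only [H17.1, B17, B29, H6, H29.1, B30, B16, H2]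
                      · rcases E14 with H14 | H14
                        · linarith only [B29, H14.1, H6, H11.1, H29.1, H36, H5]
                        · exact g7_l0 B15 B20 B22 B23 B27 E1 E15 E32 E35 H2 H14 H18 H21
                · linarith only [H18.1, H17.1]
              · rcases E3 with H3 | H3
                · rcases E33 with H33 | H33
                  · rcases E18 with H18 | H18
                    · rcases E20 with H20 | H20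
                      · linarith only [H3, H36, B32, H20.1, H17.1, H5]
                      · rcases E34 with H34 | H34 | H34
                        · rcases E6 with H6 | H6
                          · linarith only [H18.1, B6, H34, H6]
                          · rcases E1 with H1 | H1
                            · linarith only [H6, H18.1, H34, H1.1]
                            · linarith only [H1.1, H6, H36, H18.1, H5, H11.1, H34]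
                        · linarith only [H21.1, H34]
                        · linarith only [H34, H20.2, H33, H7]
                    · linarith only [B6, H18.1, H3]
                  · linarith only [H17.2, H33]
                · linarith only [B33, H21.1, H17.1, H3, B1]
        · linarith only [B33, B20, H5, H21.1, H36]
      · linarith only [B20, H36, H7]
    · linarith only [H11.1, B16, B17, B21, H26.1, B34, B25]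
  · rcases E5 with H5 | H5
    · rcases E0 with H0 | H0
      · linarith only [H26.1, H0.2, H5]
      · linarith only [H26.1, H0.2, B23, B27, B15, B22, H5]
    · linarith only [B33, H5, H21.1, B20, H26.1]

theorem g8 {a1 a2 a3 b1 b2 b3 d1 e g h hp m n1 n3 p1 p4 y : ℤ}
    (B6 : 0 ≤ n1 - a1)
    (B11 : 0 ≤ n3 - b3)
    (B15 : 0 ≤ e - a1 - a2 + b1 + b2)
    (B16 : 0 ≤ a1 + a2 - b1 - b2 - e)
    (B17 : 0 ≤ e - 1)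
    (B19 : 0 ≤ -a1 - a2 - a3 + b1 + b2 + b3 - y)
    (B20 : 0 ≤ y - 1)
    (B21 : 0 ≤ d1 - a1 + b1)
    (B22 : 0 ≤ a1 - b1 - d1)
    (B23 : 0 ≤ d1 - 1)
    (B25 : 0 ≤ -d1 + 1)
    (B27 : 0 ≤ -e + 1)
    (B28 : 0 ≤ n1 - b1 - hp)
    (B29 : 0 ≤ b2 - hp - 1)
    (B38 : 0 ≤ y - m)
    (B40 : 0 ≤ b1 + b2 - 1)
    (B43 : 0 ≤ -p4 + y - 2)
    (D1 : (0 ≤ a2 - 1 ∧ 0 ≤ n3 - a3 - 1) ∨ (0 ≤ b2 - 1 ∧ 0 ≤ n3 - b3 - 1))
    (D2 : 0 ≤ hp - n1 + b1 ∨ 0 ≤ hp - b2 + 1)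
    (D6 : 0 ≤ h - n1 + a1 ∨ 0 ≤ h - a2 + 1)
    (D7 : 0 ≤ m - y ∨ 0 ≤ m - n3 + a3)
    (D13 : (0 ≤ hp - 2 ∧ 0 ≤ -y - p1) ∨ (0 ≤ -hp + 1 ∧ 0 ≤ p1))
    (D14 : (0 ≤ hp - 1 ∧ 0 ≤ -p1) ∨ (0 ≤ -hp ∧ 0 ≤ p1 - y))
    (D25 : (0 ≤ g - 1 ∧ 0 ≤ -y - p4) ∨ (0 ≤ -g ∧ 0 ≤ p4))
    (D26 : (0 ≤ g ∧ 0 ≤ -p4) ∨ (0 ≤ -g - 1 ∧ 0 ≤ p4 - y))
    (D32 : 0 ≤ -p1 + n3 - b3 + y - 2 ∨ 0 ≤ -y + n3 - b3 - 1)
    (D33 : 0 ≤ -h - 1 ∨ 0 ≤ -g - 1 ∨ 0 ≤ -m + 1)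
    (D34 : 0 ≤ -b1 - b2 ∨ 0 ≤ -hp - 1 ∨ 0 ≤ -g - 1 ∨ 0 ≤ -n3 + b3 + 1)
    (D35 : 0 ≤ -b1 - b2 ∨ 0 ≤ -hp ∨ 0 ≤ -g ∨ 0 ≤ -n3 + b3 - y + 1)
    (D36 : 0 ≤ -h ∨ 0 ≤ -g ∨ 0 ≤ -y - m + 1) : False := by
  have E1 := D1
  have E2 := D2
  have E6 := D6
  have E7 : 0 ≤ m - y := by
    rcases D7 with H7 | H7
    · exact H7
    · linarith only [B17, H7, B38, B11, B16, B19]
  have E13 := D13
  have E14 := D14
  have E25 := D25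
  have E26 : (0 ≤ g ∧ 0 ≤ -p4) := by
    rcases D26 with H26 | H26
    · exact H26
    · linarith only [B43, H26.2]
  have E32 := D32
  have E33 := D33
  have E34 : 0 ≤ -hp - 1 ∨ 0 ≤ -g - 1 ∨ 0 ≤ -n3 + b3 + 1 := by
    rcases D34 with H34 | H34 | H34 | H34
    · linarith only [H34, B40]
    · exact Or.inl H34
    · exact Or.inr (Or.inl H34)
    · exact Or.inr (Or.inr H34)
  have E35 : 0 ≤ -hp ∨ 0 ≤ -g ∨ 0 ≤ -n3 + b3 - y + 1 := by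
    rcases D35 with H35 | H35 | H35 | H35
    · linarith only [H35, B40]
    · exact Or.inl H35
    · exact Or.inr (Or.inl H35)
    · exact Or.inr (Or.inr H35)
  have E36 := D36
  have H26 := E26
  have H7 := E7
  rcases E34 with H34 | H34 | H34
  · rcases E2 with H2 | H2
    · linarith only [B23, H34, B22, B6, H2]
    · rcases E1 with H1 | H1
      · linarith only [B27, B23, H34, B15, H2, B22, H1.1]
      · linarith only [H34, H2, H1.1]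
  · linarith only [H26.1, H34]
  · rcases E32 with H32 | H32
    · rcases E14 with H14 | H14
      · rcases E35 with H35 | H35 | H35
        · linarith only [H35, H14.1]
        · rcases E25 with H25 | H25
          · linarith only [H25.1, H35]
          · rcases E33 with H33 | H33 | H33
            · rcases E6 with H6 | H6
              · linarith only [H33, B6, H6]
              · linarith only [B29, H14.1, B17, B21, H6, H33, B16, B25]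
            · linarith only [H26.1, H33]
            · linarith only [H25.2, H33, B43, H7]
        · rcases E25 with H25 | H25
          · rcases E36 with H36 | H36 | H36
            · rcases E6 with H6 | H6
              · rcases E13 with H13 | H13
                · linarith only [H13.1, B21, H36, B28, B25, H6]
                · linarith only [H13.2, H32, H35]
              · linarith only [B29, H36, B17, B21, H6, B16, H14.1, B25]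
            · linarith only [H25.1, H36]
            · linarith only [H36, H7, B20]
          · linarith only [H25.2, B11, B43, H35]
      · linarith only [H14.2, H32, H34]
    · linarith only [B20, H32, H34]

theorem g9 {m y : ℤ}
    (B38 : 0 ≤ y - m)
    (B42 : 0 ≤ -y + m - 1) : False := by
  linarith only [B38, B42]

theorem g10 {a1 a2 a3 b1 b2 b3 d1 e h h3 m n1 n2 n3 p0 p2 p5 y : ℤ}
    (B11 : 0 ≤ n3 - b3)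
    (B16 : 0 ≤ a1 + a2 - b1 - b2 - e)
    (B17 : 0 ≤ e - 1)
    (B19 : 0 ≤ -a1 - a2 - a3 + b1 + b2 + b3 - y)
    (B20 : 0 ≤ y - 1)
    (B21 : 0 ≤ d1 - a1 + b1)
    (B25 : 0 ≤ -d1 + 1)
    (B30 : 0 ≤ n1 - a1 - h3)
    (B38 : 0 ≤ y - m)
    (B40 : 0 ≤ -p2 - 1)
    (B41 : 0 ≤ b1 - 1)
    (D0 : (0 ≤ a1 - 1 ∧ 0 ≤ n2 - a2 - 1) ∨ (0 ≤ b1 - 1 ∧ 0 ≤ n2 - b2 - 1))
    (D1 : (0 ≤ a2 - 1 ∧ 0 ≤ n3 - a3 - 1) ∨ (0 ≤ b2 - 1 ∧ 0 ≤ n3 - b3 - 1))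
    (D6 : 0 ≤ h - n1 + a1 ∨ 0 ≤ h - a2 + 1)
    (D7 : 0 ≤ m - y ∨ 0 ≤ m - n3 + a3)
    (D10 : (0 ≤ n2 - b2 - 2 ∧ 0 ≤ -p0) ∨ (0 ≤ -n2 + b2 + 1 ∧ 0 ≤ p0 - y))
    (D17 : (0 ≤ h3 - 1 ∧ 0 ≤ -y - p2) ∨ (0 ≤ -h3 ∧ 0 ≤ p2))
    (D30 : (0 ≤ h ∧ 0 ≤ -p5) ∨ (0 ≤ -h - 1 ∧ 0 ≤ p5 - y))
    (D33 : 0 ≤ -p0 + n2 - b2 + n3 - b3 + y - 2 ∨ 0 ≤ -y + n2 - b2 + n3 - b3 - 1)
    (D34 : 0 ≤ -b1 ∨ 0 ≤ -h - 1 ∨ 0 ≤ -n2 + b2 ∨ 0 ≤ -n2 + b2 - n3 + b3 - m + y + 1) : False := by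
  have E0 := D0
  have E1 := D1
  have E6 := D6
  have E7 : 0 ≤ m - y := by
    rcases D7 with H7 | H7
    · exact H7
    · linarith only [B17, H7, B38, B11, B16, B19]
  have E10 := D10
  have E17 : (0 ≤ h3 - 1 ∧ 0 ≤ -y - p2) := by
    rcases D17 with H17 | H17
    · exact H17
    · linarith only [B40, H17.2]
  have E30 := D30
  have E33 := D33
  have E34 : 0 ≤ -h - 1 ∨ 0 ≤ -n2 + b2 ∨ 0 ≤ -n2 + b2 - n3 + b3 - m + y + 1 := by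
    rcases D34 with H34 | H34 | H34 | H34
    · linarith only [B41, H34]
    · exact Or.inl H34
    · exact Or.inr (Or.inl H34)
    · exact Or.inr (Or.inr H34)
  have H17 := E17
  have H7 := E7
  rcases E30 with H30 | H30
  · rcases E34 with H34 | H34 | H34
    · linarith only [H34, H30.1]
    · rcases E0 with H0 | H0
      · linarith only [B16, B17, B21, H34, H0.2, B25]
      · linarith only [H0.2, H34]
    · rcases E33 with H33 | H33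
      · rcases E10 with H10 | H10
        · linarith only [H10.1, H34, B11, H7]
        · linarith only [H10.2, H34, H33, H7]
      · linarith only [H33, B20, H34, H7]
  · rcases E6 with H6 | H6
    · linarith only [H30.1, B30, H17.1, H6]
    · rcases E1 with H1 | H1
      · linarith only [H6, H30.1, H1.1]
      · linarith only [B17, H1.1, B21, H6, H30.1, B16, B25]

theorem g11 {a1 a2 a3 b1 b2 b3 d1 e g h3 hp n1 n2 n3 p2 y : ℤ}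
    (B2 : 0 ≤ a3)
    (B15 : 0 ≤ e - a1 - a2 + b1 + b2)
    (B20 : 0 ≤ y - 1)
    (B22 : 0 ≤ a1 - b1 - d1)
    (B23 : 0 ≤ d1 - 1)
    (B27 : 0 ≤ -e + 1)
    (B30 : 0 ≤ n1 - a1 - h3)
    (B40 : 0 ≤ -p2 - 1)
    (B41 : 0 ≤ b1 + b2 - 1)
    (B42 : 0 ≤ -y + n3 - b3 - 1)
    (D0 : (0 ≤ a1 - 1 ∧ 0 ≤ n2 - a2 - 1) ∨ (0 ≤ b1 - 1 ∧ 0 ≤ n2 - b2 - 1))
    (D1 : (0 ≤ a2 - 1 ∧ 0 ≤ n3 - a3 - 1) ∨ (0 ≤ b2 - 1 ∧ 0 ≤ n3 - b3 - 1))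
    (D2 : 0 ≤ hp - n1 + b1 ∨ 0 ≤ hp - b2 + 1)
    (D5 : 0 ≤ g - n2 + a2 + 1 ∨ 0 ≤ g - a3 - y + 1)
    (D17 : (0 ≤ h3 - 1 ∧ 0 ≤ -y - p2) ∨ (0 ≤ -h3 ∧ 0 ≤ p2))
    (D34 : 0 ≤ -b1 - b2 ∨ 0 ≤ -hp - 1 ∨ 0 ≤ -g - 1 ∨ 0 ≤ -n3 + b3 + 1) : False := by
  have E0 := D0
  have E1 := D1
  have E2 := D2
  have E5 := D5
  have E17 : (0 ≤ h3 - 1 ∧ 0 ≤ -y - p2) := by
    rcases D17 with H17 | H17
    · exact H17
    · linarith only [B40, H17.2]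
  have E34 : 0 ≤ -hp - 1 ∨ 0 ≤ -g - 1 := by
    rcases D34 with H34 | H34 | H34 | H34
    · linarith only [H34, B41]
    · exact Or.inl H34
    · exact Or.inr H34
    · linarith only [B20, B42, H34]
  have H17 := E17
  rcases E34 with H34 | H34
  · rcases E2 with H2 | H2
    · linarith only [B23, H34, B30, B22, H17.1, H2]
    · rcases E1 with H1 | H1
      · linarith only [B27, B23, H34, B15, H2, B22, H1.1]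
      · linarith only [H34, H2, H1.1]
  · rcases E5 with H5 | H5
    · rcases E0 with H0 | H0
      · linarith only [H34, H0.2, H5]
      · linarith only [B23, H34, B27, B15, B22, H0.2, H5]
    · linarith only [B20, H5, B2, H34]

theorem g12 {a1 a2 a3 b1 b2 b3 d1 e g h h3 hp k m n1 n2 n3 p0 p1 p2 p3 p4 p5 y : ℤ}
    (B3 : 0 ≤ b1)
    (B11 : 0 ≤ n3 - b3)
    (B15 : 0 ≤ e - a1 - a2 + b1 + b2)
    (B16 : 0 ≤ a1 + a2 - b1 - b2 - e)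
    (B17 : 0 ≤ e - 1)
    (B18 : 0 ≤ y + a1 + a2 + a3 - b1 - b2 - b3)
    (B19 : 0 ≤ -a1 - a2 - a3 + b1 + b2 + b3 - y)
    (B20 : 0 ≤ y - 1)
    (B21 : 0 ≤ d1 - a1 + b1)
    (B22 : 0 ≤ a1 - b1 - d1)
    (B23 : 0 ≤ d1 - 1)
    (B25 : 0 ≤ -d1 + 1)
    (B27 : 0 ≤ -e + 1)
    (B29 : 0 ≤ b2 - hp - 1)
    (B30 : 0 ≤ n1 - a1 - h3)
    (B31 : 0 ≤ a2 + a3 - h3 - 1)
    (B32 : 0 ≤ n1 - a1 + n2 - a2 - k)
    (B33 : 0 ≤ a3 - k - 1)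
    (B34 : 0 ≤ n2 - a2 - g - 1)
    (B37 : 0 ≤ a2 - h - 1)
    (B38 : 0 ≤ y - m)
    (B40 : 0 ≤ -p2 - 1)
    (B41 : 0 ≤ -p3 - 1)
    (D0 : (0 ≤ a1 - 1 ∧ 0 ≤ n2 - a2 - 1) ∨ (0 ≤ b1 - 1 ∧ 0 ≤ n2 - b2 - 1))
    (D1 : (0 ≤ a2 - 1 ∧ 0 ≤ n3 - a3 - 1) ∨ (0 ≤ b2 - 1 ∧ 0 ≤ n3 - b3 - 1))
    (D2 : 0 ≤ hp - n1 + b1 ∨ 0 ≤ hp - b2 + 1)
    (D3 : 0 ≤ h3 - n1 + a1 ∨ 0 ≤ h3 - a2 - a3 + 1)
    (D4 : 0 ≤ k - n1 + a1 - n2 + a2 ∨ 0 ≤ k - a3 + 1)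
    (D5 : 0 ≤ g - n2 + a2 + 1 ∨ 0 ≤ g - a3 - y + 1)
    (D6 : 0 ≤ h - n1 + a1 ∨ 0 ≤ h - a2 + 1)
    (D7 : 0 ≤ m - y ∨ 0 ≤ m - n3 + a3)
    (D10 : (0 ≤ n2 - b2 - 2 ∧ 0 ≤ -p0) ∨ (0 ≤ -n2 + b2 + 1 ∧ 0 ≤ p0 - y))
    (D11 : (0 ≤ n2 - b2 - 1 ∧ 0 ≤ y - p0) ∨ (0 ≤ -n2 + b2 ∧ 0 ≤ p0 - 2 * y))
    (D13 : (0 ≤ hp - 2 ∧ 0 ≤ -y - p1) ∨ (0 ≤ -hp + 1 ∧ 0 ≤ p1))
    (D14 : (0 ≤ hp - 1 ∧ 0 ≤ -p1) ∨ (0 ≤ -hp ∧ 0 ≤ p1 - y))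
    (D15 : (0 ≤ hp ∧ 0 ≤ y - p1) ∨ (0 ≤ -hp - 1 ∧ 0 ≤ p1 - 2 * y))
    (D16 : (0 ≤ h3 - 2 ∧ 0 ≤ -2 * y - p2) ∨ (0 ≤ -h3 + 1 ∧ 0 ≤ p2 + y))
    (D17 : (0 ≤ h3 - 1 ∧ 0 ≤ -y - p2) ∨ (0 ≤ -h3 ∧ 0 ≤ p2))
    (D20 : (0 ≤ k - 2 ∧ 0 ≤ -2 * y - p3) ∨ (0 ≤ -k + 1 ∧ 0 ≤ p3 + y))
    (D21 : (0 ≤ k - 1 ∧ 0 ≤ -y - p3) ∨ (0 ≤ -k ∧ 0 ≤ p3))
    (D25 : (0 ≤ g - 1 ∧ 0 ≤ -y - p4) ∨ (0 ≤ -g ∧ 0 ≤ p4))
    (D26 : (0 ≤ g ∧ 0 ≤ -p4) ∨ (0 ≤ -g - 1 ∧ 0 ≤ p4 - y))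
    (D29 : (0 ≤ h - 1 ∧ 0 ≤ -y - p5) ∨ (0 ≤ -h ∧ 0 ≤ p5))
    (D30 : (0 ≤ h ∧ 0 ≤ -p5) ∨ (0 ≤ -h - 1 ∧ 0 ≤ p5 - y))
    (D34 : 0 ≤ -h3 ∨ 0 ≤ -k - g - 1 ∨ 0 ≤ -y + 1)
    (D35 : 0 ≤ -b1 ∨ 0 ≤ -h3 ∨ 0 ≤ -n2 + b2 - k ∨ 0 ≤ -n2 + b2 - n3 + b3 + 1)
    (D36 : 0 ≤ -b1 - b2 ∨ 0 ≤ -hp - h3 - 1 ∨ 0 ≤ -k ∨ 0 ≤ -n3 + b3 + 1)
    (D37 : 0 ≤ -h ∨ 0 ≤ -g ∨ 0 ≤ -y - m + 1)
    (D38 : 0 ≤ -b1 ∨ 0 ≤ -h3 + 1 ∨ 0 ≤ -n2 + b2 - k + 1 ∨ 0 ≤ -n2 + b2 - n3 + b3 - y + 1)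
    (D39 : 0 ≤ -b1 - b2 ∨ 0 ≤ -hp - h3 ∨ 0 ≤ -k + 1 ∨ 0 ≤ -n3 + b3 - y + 1)
    (D40 : ((0 ≤ b1 - 1 ∧ 0 ≤ n2 - b2 + n3 - b3 + y - 2) ∨ (0 ≤ b1 - 1 ∧ 0 ≤ -n2 + b2 - n3 + b3 - y + 1 ∧ 0 ≤ n2 - b2 + n3 - b3 + y - 1 ∧ 0 ≤ -y + n2 - b2 + n3 - b3 - 2) ∨ (0 ≤ b1 - 1 ∧ 0 ≤ -n2 + b2 - n3 + b3 - y + 1 ∧ 0 ≤ n2 - b2 + n3 - b3 + y - 1 ∧ 0 ≤ y - n2 + b2 - n3 + b3 + 1 ∧ 0 ≤ -y + n2 - b2 + n3 - b3 - 1 ∧ 0 ≤ -p0 + n2 - b2 + n3 - b3 + y - 1)) ∨ ((0 ≤ b1 + b2 - 1 ∧ 0 ≤ n3 - b3 + y - 2) ∨ (0 ≤ b1 + b2 - 1 ∧ 0 ≤ -n3 + b3 - y + 1 ∧ 0 ≤ n3 - b3 + y - 1 ∧ 0 ≤ -p1 + n3 - b3 + y - 2) ∨ (0 ≤ b1 + b2 - 1 ∧ 0 ≤ -n3 + b3 - y + 1 ∧ 0 ≤ n3 - b3 + y - 1 ∧ 0 ≤ p1 - n3 + b3 - y + 1 ∧ 0 ≤ -p1 + n3 - b3 + y - 1 ∧ 0 ≤ -y + n3 - b3 - 1)) ∨ (0 ≤ y - 2) ∨ (0 ≤ m - 2 ∨ (0 ≤ -m + 1 ∧ 0 ≤ m - 1 ∧ 0 ≤ -p5 + m - 2) ∨ (0 ≤ -m + 1 ∧ 0 ≤ m - 1 ∧ 0 ≤ p5 - m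 + 1 ∧ 0 ≤ -p5 + m - 1 ∧ 0 ≤ -y + m - 1)))
    (D41 : ((0 ≤ b1 - 1 ∧ 0 ≤ n2 - b2 + n3 - b3 + y - 2) ∨ (0 ≤ b1 - 1 ∧ 0 ≤ -n2 + b2 - n3 + b3 - y + 1 ∧ 0 ≤ n2 - b2 + n3 - b3 + y - 1 ∧ 0 ≤ -p0 + n2 - b2 + n3 - b3 + y - 2) ∨ (0 ≤ b1 - 1 ∧ 0 ≤ -n2 + b2 - n3 + b3 - y + 1 ∧ 0 ≤ n2 - b2 + n3 - b3 + y - 1 ∧ 0 ≤ p0 - n2 + b2 - n3 + b3 - y + 1 ∧ 0 ≤ -p0 + n2 - b2 + n3 - b3 + y - 1 ∧ 0 ≤ -y + n2 - b2 + n3 - b3 - 1)) ∨ ((0 ≤ b1 + b2 - 1 ∧ 0 ≤ n3 - b3 + y - 2) ∨ (0 ≤ b1 + b2 - 1 ∧ 0 ≤ -n3 + b3 - y + 1 ∧ 0 ≤ n3 - b3 + y - 1 ∧ 0 ≤ -y + n3 - b3 - 2) ∨ (0 ≤ b1 + b2 - 1 ∧ 0 ≤ -n3 + b3 - y + 1 ∧ 0 ≤ n3 - b3 + y - 1 ∧ 0 ≤ y - n3 + b3 + 1 ∧ 0 ≤ -y + n3 - b3 - 1 ∧ 0 ≤ -p1 + n3 - b3 + y - 1)) ∨ (0 ≤ y - 2 ∨ (0 ≤ -y + 1 ∧ 0 ≤ y - 1 ∧ 0 ≤ -p4 + y - 2)) ∨ (0 ≤ m - 2 ∨ (0 ≤ -m + 1 ∧ 0 ≤ m - 1 ∧ 0 ≤ -y + m - 2) ∨ (0 ≤ -m + 1 ∧ 0 ≤ m - 1 ∧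 0 ≤ y - m + 1 ∧ 0 ≤ -y + m - 1 ∧ 0 ≤ -p5 + m - 1)))
    (D42 : ((0 ≤ b1 - 1 ∧ 0 ≤ -p0 + n2 - b2 + n3 - b3 + y - 2) ∨ (0 ≤ b1 - 1 ∧ 0 ≤ p0 - n2 + b2 - n3 + b3 - y + 1 ∧ 0 ≤ -p0 + n2 - b2 + n3 - b3 + y - 1 ∧ 0 ≤ -y + n2 - b2 + n3 - b3 - 2) ∨ (0 ≤ b1 - 1 ∧ 0 ≤ p0 - n2 + b2 - n3 + b3 - y + 1 ∧ 0 ≤ -p0 + n2 - b2 + n3 - b3 + y - 1 ∧ 0 ≤ y - n2 + b2 - n3 + b3 + 1 ∧ 0 ≤ -y + n2 - b2 + n3 - b3 - 1 ∧ 0 ≤ n2 - b2 + n3 - b3 + y - 1)) ∨ ((0 ≤ b1 + b2 - 1 ∧ 0 ≤ -y + n3 - b3 - 2) ∨ (0 ≤ b1 + b2 - 1 ∧ 0 ≤ y - n3 + b3 + 1 ∧ 0 ≤ -y + n3 - b3 - 1 ∧ 0 ≤ -p1 + n3 - b3 + y - 2) ∨ (0 ≤ b1 + b2 - 1 ∧ 0 ≤ y - n3 + b3 + 1 ∧ 0 ≤ -y + n3 - b3 - 1 ∧ 0 ≤ p1 - n3 + b3 - y + 1 ∧ 0 ≤ -p1 + n3 - b3 + y - 1 ∧ 0 ≤ n3 - b3 + y - 1)) ∨ (0 ≤ -p3 - 2 ∨ (0 ≤ p3 + 1 ∧ 0 ≤ -p3 - 1 ∧ 0 ≤ -p2 - 2)) ∨ (0 ≤ -p4 + y - 2) ∨ (0 ≤ -y + m - 2 ∨ (0 ≤ y - m + 1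 ∧ 0 ≤ -y + m - 1 ∧ 0 ≤ -p5 + m - 2) ∨ (0 ≤ y - m + 1 ∧ 0 ≤ -y + m - 1 ∧ 0 ≤ p5 - m + 1 ∧ 0 ≤ -p5 + m - 1 ∧ 0 ≤ m - 1)))
    (D43 : ((0 ≤ b1 - 1 ∧ 0 ≤ -p0 + n2 - b2 + n3 - b3 + y - 2) ∨ (0 ≤ b1 - 1 ∧ 0 ≤ p0 - n2 + b2 - n3 + b3 - y + 1 ∧ 0 ≤ -p0 + n2 - b2 + n3 - b3 + y - 1 ∧ 0 ≤ n2 - b2 + n3 - b3 + y - 2) ∨ (0 ≤ b1 - 1 ∧ 0 ≤ p0 - n2 + b2 - n3 + b3 - y + 1 ∧ 0 ≤ -p0 + n2 - b2 + n3 - b3 + y - 1 ∧ 0 ≤ -n2 + b2 - n3 + b3 - y + 1 ∧ 0 ≤ n2 - b2 + n3 - b3 + y - 1 ∧ 0 ≤ -y + n2 - b2 + n3 - b3 - 1)) ∨ ((0 ≤ b1 + b2 - 1 ∧ 0 ≤ -y + n3 - b3 - 2) ∨ (0 ≤ b1 + b2 - 1 ∧ 0 ≤ y - n3 + b3 + 1 ∧ 0 ≤ -y + n3 - b3 - 1 ∧ 0 ≤ n3 - b3 + y - 2) ∨ (0 ≤ b1 + b2 - 1 ∧ 0 ≤ y - n3 + b3 + 1 ∧ 0 ≤ -y + n3 - b3 - 1 ∧ 0 ≤ -n3 + b3 - y + 1 ∧ 0 ≤ n3 - b3 + y - 1 ∧ 0 ≤ -p1 + n3 - b3 + y - 1)) ∨ (0 ≤ -p3 - 2) ∨ (0 ≤ -p4 + y - 2 ∨ (0 ≤ p4 - y + 1 ∧ 0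 ≤ -p4 + y - 1 ∧ 0 ≤ y - 2)) ∨ (0 ≤ -y + m - 2 ∨ (0 ≤ y - m + 1 ∧ 0 ≤ -y + m - 1 ∧ 0 ≤ m - 2) ∨ (0 ≤ y - m + 1 ∧ 0 ≤ -y + m - 1 ∧ 0 ≤ -m + 1 ∧ 0 ≤ m - 1 ∧ 0 ≤ -p5 + m - 1)))
    (D44 : ((0 ≤ b1 - 1 ∧ 0 ≤ -y + n2 - b2 + n3 - b3 - 2) ∨ (0 ≤ b1 - 1 ∧ 0 ≤ y - n2 + b2 - n3 + b3 + 1 ∧ 0 ≤ -y + n2 - b2 + n3 - b3 - 1 ∧ 0 ≤ n2 - b2 + n3 - b3 + y - 2) ∨ (0 ≤ b1 - 1 ∧ 0 ≤ y - n2 + b2 - n3 + b3 + 1 ∧ 0 ≤ -y + n2 - b2 + n3 - b3 - 1 ∧ 0 ≤ -n2 + b2 - n3 + b3 - y + 1 ∧ 0 ≤ n2 - b2 + n3 - b3 + y - 1 ∧ 0 ≤ -p0 + n2 - b2 + n3 - b3 + y - 1)) ∨ ((0 ≤ b1 + b2 - 1 ∧ 0 ≤ -p1 + n3 - b3 + y - 2) ∨ (0 ≤ b1 + b2 - 1 ∧ 0 ≤ p1 - n3 + b3 - y + 1 ∧ 0 ≤ -p1 + n3 - b3 + y - 1 ∧ 0 ≤ n3 - b3 + y - 2) ∨ (0 ≤ b1 + b2 - 1 ∧ 0 ≤ p1 - n3 + b3 - y + 1 ∧ 0 ≤ -p1 + n3 - b3 + y - 1 ∧ 0 ≤ -n3 + b3 - y + 1 ∧ 0 ≤ n3 - b3 + y - 1 ∧ 0 ≤ -y + n3 - b3 - 1)) ∨ (0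 ≤ -p2 - 2) ∨ (0 ≤ -p5 + m - 2 ∨ (0 ≤ p5 - m + 1 ∧ 0 ≤ -p5 + m - 1 ∧ 0 ≤ m - 2) ∨ (0 ≤ p5 - m + 1 ∧ 0 ≤ -p5 + m - 1 ∧ 0 ≤ -m + 1 ∧ 0 ≤ m - 1 ∧ 0 ≤ -y + m - 1)))
    (D45 : ((0 ≤ b1 - 1 ∧ 0 ≤ -y + n2 - b2 + n3 - b3 - 2) ∨ (0 ≤ b1 - 1 ∧ 0 ≤ y - n2 + b2 - n3 + b3 + 1 ∧ 0 ≤ -y + n2 - b2 + n3 - b3 - 1 ∧ 0 ≤ -p0 + n2 - b2 + n3 - b3 + y - 2) ∨ (0 ≤ b1 - 1 ∧ 0 ≤ y - n2 + b2 - n3 + b3 + 1 ∧ 0 ≤ -y + n2 - b2 + n3 - b3 - 1 ∧ 0 ≤ p0 - n2 + b2 - n3 + b3 - y + 1 ∧ 0 ≤ -p0 + n2 - b2 + n3 - b3 + y - 1 ∧ 0 ≤ n2 - b2 + n3 - b3 + y - 1)) ∨ ((0 ≤ b1 + b2 - 1 ∧ 0 ≤ -p1 + n3 - b3 + y - 2) ∨ (0 ≤ b1 + b2 - 1 ∧ 0 ≤ p1 - n3 + b3 - y + 1 ∧ 0 ≤ -p1 + n3 - b3 + y - 1 ∧ 0 ≤ -y + n3 - b3 - 2) ∨ (0 ≤ b1 + b2 - 1 ∧ 0 ≤ p1 - n3 + b3 - y + 1 ∧ 0 ≤ -p1 + n3 - b3 + y - 1 ∧ 0 ≤ y - n3 + b3 + 1 ∧ 0 ≤ -y + n3 - b3 - 1 ∧ 0 ≤ n3 - b3 + y - 1)) ∨ (0 ≤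 -p2 - 2 ∨ (0 ≤ p2 + 1 ∧ 0 ≤ -p2 - 1 ∧ 0 ≤ -p3 - 2)) ∨ (0 ≤ -p5 + m - 2 ∨ (0 ≤ p5 - m + 1 ∧ 0 ≤ -p5 + m - 1 ∧ 0 ≤ -y + m - 2) ∨ (0 ≤ p5 - m + 1 ∧ 0 ≤ -p5 + m - 1 ∧ 0 ≤ y - m + 1 ∧ 0 ≤ -y + m - 1 ∧ 0 ≤ m - 1)))
    (D46 : 0 ≤ -n1 - b1 + 2 * a1 - 1 ∨ 0 ≤ n1 + b1 - 2 * a1 - 1 ∨ 0 ≤ n2 - a2 - 2 ∨ 0 ≤ -n2 + a2 ∨ 0 ≤ n3 - a3 - n1 + a1 - 2 ∨ 0 ≤ -n3 + a3 + n1 - a1 ∨ 0 ≤ n2 - b2 - 2 ∨ 0 ≤ -n2 + b2 ∨ 0 ≤ n3 - b3 - 1 ∨ 0 ≤ -b1 ∨ 0 ≤ -n2 + 2 ∨ 0 ≤ 2 * n1 - 2 * a1 - n3 + 2 ∨ 0 ≤ -n1 + a1)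
    (D47 : 0 ≤ a2 - 2 ∨ 0 ≤ -a2 ∨ 0 ≤ a3 - a1 - 2 ∨ 0 ≤ -a3 + a1 ∨ 0 ≤ b1 - 1 ∨ 0 ≤ b2 - 2 ∨ 0 ≤ -b2 ∨ 0 ≤ b3 - 2 * a1 - 3 ∨ 0 ≤ -b3 + 2 * a1 + 1 ∨ 0 ≤ n3 - 2 * a1 - 4 ∨ 0 ≤ -n3 + 2 * a1 + 2 ∨ 0 ≤ 2 * a1 - n1 ∨ 0 ≤ -n2 + 2 ∨ 0 ≤ -a1) : False := by
  have E0 := D0
  have E1 := D1
  have E2 := D2
  have E3 := D3
  have E4 := D4
  have E5 := D5
  have E6 := D6
  have E7 : 0 ≤ m - y := by
    rcases D7 with H7 | H7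
    · exact H7
    · linarith only [B17, H7, B38, B11, B16, B19]
  have E10 := D10
  have E11 := D11
  have E13 := D13
  have E14 := D14
  have E15 := D15
  have E16 := D16
  have E17 : (0 ≤ h3 - 1 ∧ 0 ≤ -y - p2) := by
    rcases D17 with H17 | H17
    · exact H17
    · linarith only [B40, H17.2]
  have E20 := D20
  have E21 : (0 ≤ k - 1 ∧ 0 ≤ -y - p3) := by
    rcases D21 with H21 | H21
    · exact H21
    · linarith only [B41, H21.2]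
  have E25 := D25
  have E26 := D26
  have E29 := D29
  have E30 := D30
  have E34 := D34
  have E35 := D35
  have E36 := D36
  have E37 := D37
  have E38 := D38
  have E39 := D39
  have E40 : (0 ≤ b1 - 1 ∧ 0 ≤ n2 - b2 + n3 - b3 + y - 2) ∨ (0 ≤ b1 + b2 - 1 ∧ 0 ≤ n3 - b3 + y - 2) ∨ (0 ≤ b1 + b2 - 1 ∧ 0 ≤ -n3 + b3 - y + 1 ∧ 0 ≤ n3 - b3 + y - 1 ∧ 0 ≤ -p1 + n3 - b3 + y - 2) ∨ 0 ≤ y - 2 ∨ 0 ≤ m - 2 ∨ (0 ≤ -m + 1 ∧ 0 ≤ m - 1 ∧ 0 ≤ -p5 + m - 2) := by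
    rcases D40 with (H40 | H40 | H40) | (H40 | H40 | H40) | H40 | (H40 | H40 | H40)
    · exact Or.inl H40
    · linarith only [H40.2.2.2, B20, H40.2.1]
    · linarith only [H40.2.2.2.2.1, B20, H40.2.1]
    · exact Or.inr (Or.inl H40)
    · exact Or.inr (Or.inr (Or.inl H40))
    · linarith only [B20, H40.2.2.2.2.2, H40.2.1]
    · exact Or.inr (Or.inr (Or.inr (Or.inl H40)))
    · exact Or.inr (Or.inr (Or.inr (Or.inr (Or.inl H40))))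
    · exact Or.inr (Or.inr (Or.inr (Or.inr (Or.inr H40))))
    · linarith only [B38, H40.2.2.2.2]
  have E41 : (0 ≤ b1 - 1 ∧ 0 ≤ n2 - b2 + n3 - b3 + y - 2) ∨ (0 ≤ b1 - 1 ∧ 0 ≤ -n2 + b2 - n3 + b3 - y + 1 ∧ 0 ≤ n2 - b2 + n3 - b3 + y - 1 ∧ 0 ≤ -p0 + n2 - b2 + n3 - b3 + y - 2) ∨ (0 ≤ b1 + b2 - 1 ∧ 0 ≤ n3 - b3 + y - 2) ∨ 0 ≤ y - 2 ∨ (0 ≤ -y + 1 ∧ 0 ≤ y - 1 ∧ 0 ≤ -p4 + y - 2) ∨ 0 ≤ m - 2 := by
    rcases D41 with (H41 | H41 | H41) | (H41 | H41 | H41) | (H41 | H41) | (H41 | H41 | H41)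
    · exact Or.inl H41
    · exact Or.inr (Or.inl H41)
    · linarith only [H41.2.2.2.2.2, B20, H41.2.1]
    · exact Or.inr (Or.inr (Or.inl H41))
    · linarith only [H41.2.2.2, B20, H41.2.1]
    · linarith only [B20, H41.2.2.2.2.1, H41.2.1]
    · exact Or.inr (Or.inr (Or.inr (Or.inl H41)))
    · exact Or.inr (Or.inr (Or.inr (Or.inr (Or.inl H41))))
    · exact Or.inr (Or.inr (Or.inr (Or.inr (Or.inr H41))))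
    · linarith only [B38, H41.2.2]
    · linarith only [B38, H41.2.2.2.1]
  have E42 : (0 ≤ b1 - 1 ∧ 0 ≤ -p0 + n2 - b2 + n3 - b3 + y - 2) ∨ (0 ≤ b1 - 1 ∧ 0 ≤ p0 - n2 + b2 - n3 + b3 - y + 1 ∧ 0 ≤ -p0 + n2 - b2 + n3 - b3 + y - 1 ∧ 0 ≤ -y + n2 - b2 + n3 - b3 - 2) ∨ (0 ≤ b1 - 1 ∧ 0 ≤ p0 - n2 + b2 - n3 + b3 - y + 1 ∧ 0 ≤ -p0 + n2 - b2 + n3 - b3 + y - 1 ∧ 0 ≤ y - n2 + b2 - n3 + b3 + 1 ∧ 0 ≤ -y + n2 - b2 + n3 - b3 - 1 ∧ 0 ≤ n2 - b2 + n3 - b3 + y - 1) ∨ (0 ≤ b1 + b2 - 1 ∧ 0 ≤ -y + n3 - b3 - 2) ∨ (0 ≤ b1 + b2 - 1 ∧ 0 ≤ y - n3 + b3 + 1 ∧ 0 ≤ -y + n3 - b3 - 1 ∧ 0 ≤ -p1 + n3 - b3 + y - 2) ∨ (0 ≤ b1 + b2 - 1 ∧ 0 ≤ y - n3 + b3 + 1 ∧ 0 ≤ -y + n3 - b3 - 1 ∧ 0 ≤ p1 - n3 + b3 - y + 1 ∧ 0 ≤ -p1 + n3 - b3 + y - 1 ∧ 0 ≤ n3 - b3 + y - 1) ∨ 0 ≤ -p3 - 2 ∨ (0 ≤ p3 + 1 ∧ 0 ≤ -p3 - 1 ∧ 0 ≤ -p2 - 2) ∨ 0 ≤ -p4 + y - 2 := by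
    rcases D42 with (H42 | H42 | H42) | (H42 | H42 | H42) | (H42 | H42) | H42 | (H42 | H42 | H42)
    · exact Or.inl H42
    · exact Or.inr (Or.inl H42)
    · exact Or.inr (Or.inr (Or.inl H42))
    · exact Or.inr (Or.inr (Or.inr (Or.inl H42)))
    · exact Or.inr (Or.inr (Or.inr (Or.inr (Or.inl H42))))
    · exact Or.inr (Or.inr (Or.inr (Or.inr (Or.inr (Or.inl H42)))))
    · exact Or.inr (Or.inr (Or.inr (Or.inr (Or.inr (Or.inr (Or.inl H42))))))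
    · exact Or.inr (Or.inr (Or.inr (Or.inr (Or.inr (Or.inr (Or.inr (Or.inl H42)))))))
    · exact Or.inr (Or.inr (Or.inr (Or.inr (Or.inr (Or.inr (Or.inr (Or.inr H42)))))))
    · linarith only [B38, H42]
    · linarith only [B38, H42.2.1]
    · linarith only [B38, H42.2.1]
  have E43 : (0 ≤ b1 - 1 ∧ 0 ≤ -p0 + n2 - b2 + n3 - b3 + y - 2) ∨ (0 ≤ b1 - 1 ∧ 0 ≤ p0 - n2 + b2 - n3 + b3 - y + 1 ∧ 0 ≤ -p0 + n2 - b2 + n3 - b3 + y - 1 ∧ 0 ≤ n2 - b2 + n3 - b3 + y - 2) ∨ (0 ≤ b1 + b2 - 1 ∧ 0 ≤ -y + n3 - b3 - 2) ∨ (0 ≤ b1 + b2 - 1 ∧ 0 ≤ y - n3 + b3 + 1 ∧ 0 ≤ -y + n3 - b3 - 1 ∧ 0 ≤ n3 - b3 + y - 2) ∨ 0 ≤ -p3 - 2 ∨ 0 ≤ -p4 + y - 2 ∨ (0 ≤ p4 - y + 1 ∧ 0 ≤ -p4 + y - 1 ∧ 0 ≤ y - 2) := by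
    rcases D43 with (H43 | H43 | H43) | (H43 | H43 | H43) | H43 | (H43 | H43) | (H43 | H43 | H43)
    · exact Or.inl H43
    · exact Or.inr (Or.inl H43)
    · linarith only [H43.2.2.2.2.2, B20, H43.2.2.2.1]
    · exact Or.inr (Or.inr (Or.inl H43))
    · exact Or.inr (Or.inr (Or.inr (Or.inl H43)))
    · linarith only [B20, H43.2.2.1, H43.2.2.2.1]
    · exact Or.inr (Or.inr (Or.inr (Or.inr (Or.inl H43))))
    · exact Or.inr (Or.inr (Or.inr (Or.inr (Or.inr (Or.inl H43)))))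
    · exact Or.inr (Or.inr (Or.inr (Or.inr (Or.inr (Or.inr H43)))))
    · linarith only [B38, H43]
    · linarith only [B38, H43.2.1]
    · linarith only [B38, H43.2.1]
  have E44 : (0 ≤ b1 - 1 ∧ 0 ≤ -y + n2 - b2 + n3 - b3 - 2) ∨ (0 ≤ b1 - 1 ∧ 0 ≤ y - n2 + b2 - n3 + b3 + 1 ∧ 0 ≤ -y + n2 - b2 + n3 - b3 - 1 ∧ 0 ≤ n2 - b2 + n3 - b3 + y - 2) ∨ (0 ≤ b1 + b2 - 1 ∧ 0 ≤ -p1 + n3 - b3 + y - 2) ∨ (0 ≤ b1 + b2 - 1 ∧ 0 ≤ p1 - n3 + b3 - y + 1 ∧ 0 ≤ -p1 + n3 - b3 + y - 1 ∧ 0 ≤ n3 - b3 + y - 2) ∨ 0 ≤ -p2 - 2 ∨ 0 ≤ -p5 + m - 2 ∨ (0 ≤ p5 - m + 1 ∧ 0 ≤ -p5 + m - 1 ∧ 0 ≤ m - 2) := by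
    rcases D44 with (H44 | H44 | H44) | (H44 | H44 | H44) | H44 | (H44 | H44 | H44)
    · exact Or.inl H44
    · exact Or.inr (Or.inl H44)
    · linarith only [H44.2.2.1, B20, H44.2.2.2.1]
    · exact Or.inr (Or.inr (Or.inl H44))
    · exact Or.inr (Or.inr (Or.inr (Or.inl H44)))
    · linarith only [B20, H44.2.2.2.2.2, H44.2.2.2.1]
    · exact Or.inr (Or.inr (Or.inr (Or.inr (Or.inl H44))))
    · exact Or.inr (Or.inr (Or.inr (Or.inr (Or.inr (Or.inl H44)))))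
    · exact Or.inr (Or.inr (Or.inr (Or.inr (Or.inr (Or.inr H44)))))
    · linarith only [B38, H44.2.2.2.2]
  have E45 : (0 ≤ b1 - 1 ∧ 0 ≤ -y + n2 - b2 + n3 - b3 - 2) ∨ (0 ≤ b1 - 1 ∧ 0 ≤ y - n2 + b2 - n3 + b3 + 1 ∧ 0 ≤ -y + n2 - b2 + n3 - b3 - 1 ∧ 0 ≤ -p0 + n2 - b2 + n3 - b3 + y - 2) ∨ (0 ≤ b1 - 1 ∧ 0 ≤ y - n2 + b2 - n3 + b3 + 1 ∧ 0 ≤ -y + n2 - b2 + n3 - b3 - 1 ∧ 0 ≤ p0 - n2 + b2 - n3 + b3 - y + 1 ∧ 0 ≤ -p0 + n2 - b2 + n3 - b3 + y - 1 ∧ 0 ≤ n2 - b2 + n3 - b3 + y - 1) ∨ (0 ≤ b1 + b2 - 1 ∧ 0 ≤ -p1 + n3 - b3 + y - 2) ∨ (0 ≤ b1 + b2 - 1 ∧ 0 ≤ p1 - n3 + b3 - y + 1 ∧ 0 ≤ -p1 + n3 - b3 + y - 1 ∧ 0 ≤ -y + n3 - b3 - 2) ∨ (0 ≤ b1 + b2 - 1 ∧ 0 ≤ p1 - n3 + b3 - y + 1 ∧ 0 ≤ -p1 + n3 - b3 + y - 1 ∧ 0 ≤ y - n3 + b3 + 1 ∧ 0 ≤ -y + n3 - b3 - 1 ∧ 0 ≤ n3 - b3 + y - 1) ∨ 0 ≤ -p2 - 2 ∨ (0 ≤ p2 + 1 ∧ 0 ≤ -p2 - 1 ∧ 0 ≤ -p3 - 2) ∨ 0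 ≤ -p5 + m - 2 := by
    rcases D45 with (H45 | H45 | H45) | (H45 | H45 | H45) | (H45 | H45) | (H45 | H45 | H45)
    · exact Or.inl H45
    · exact Or.inr (Or.inl H45)
    · exact Or.inr (Or.inr (Or.inl H45))
    · exact Or.inr (Or.inr (Or.inr (Or.inl H45)))
    · exact Or.inr (Or.inr (Or.inr (Or.inr (Or.inl H45))))
    · exact Or.inr (Or.inr (Or.inr (Or.inr (Or.inr (Or.inl H45)))))
    · exact Or.inr (Or.inr (Or.inr (Or.inr (Or.inr (Or.inr (Or.inl H45))))))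
    · exact Or.inr (Or.inr (Or.inr (Or.inr (Or.inr (Or.inr (Or.inr (Or.inl H45)))))))
    · exact Or.inr (Or.inr (Or.inr (Or.inr (Or.inr (Or.inr (Or.inr (Or.inr H45)))))))
    · linarith only [B38, H45.2.2]
    · linarith only [B38, H45.2.2.2.1]
  have E46 := D46
  have E47 : 0 ≤ a2 - 2 ∨ 0 ≤ -a2 ∨ 0 ≤ a3 - a1 - 2 ∨ 0 ≤ -a3 + a1 ∨ 0 ≤ b1 - 1 ∨ 0 ≤ b2 - 2 ∨ 0 ≤ -b2 ∨ 0 ≤ b3 - 2 * a1 - 3 ∨ 0 ≤ -b3 + 2 * a1 + 1 ∨ 0 ≤ n3 - 2 * a1 - 4 ∨ 0 ≤ -n3 + 2 * a1 + 2 ∨ 0 ≤ 2 * a1 - n1 ∨ 0 ≤ -n2 + 2 := by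
    rcases D47 with H47 | H47 | H47 | H47 | H47 | H47 | H47 | H47 | H47 | H47 | H47 | H47 | H47 | H47
    · exact Or.inl H47
    · exact Or.inr (Or.inl H47)
    · exact Or.inr (Or.inr (Or.inl H47))
    · exact Or.inr (Or.inr (Or.inr (Or.inl H47)))
    · exact Or.inr (Or.inr (Or.inr (Or.inr (Or.inl H47))))
    · exact Or.inr (Or.inr (Or.inr (Or.inr (Or.inr (Or.inl H47)))))
    · exact Or.inr (Or.inr (Or.inr (Or.inr (Or.inr (Or.inr (Or.inl H47))))))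
    · exact Or.inr (Or.inr (Or.inr (Or.inr (Or.inr (Or.inr (Or.inr (Or.inl H47)))))))
    · exact Or.inr (Or.inr (Or.inr (Or.inr (Or.inr (Or.inr (Or.inr (Or.inr (Or.inl H47))))))))
    · exact Or.inr (Or.inr (Or.inr (Or.inr (Or.inr (Or.inr (Or.inr (Or.inr (Or.inr (Or.inl H47)))))))))
    · exact Or.inr (Or.inr (Or.inr (Or.inr (Or.inr (Or.inr (Or.inr (Or.inr (Or.inr (Or.inr (Or.inl H47))))))))))
    · exact Or.inr (Or.inr (Or.inr (Or.inr (Or.inr (Or.inr (Or.inr (Or.inr (Or.inr (Or.inr (Or.inr (Or.inl H47)))))))))))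
    · exact Or.inr (Or.inr (Or.inr (Or.inr (Or.inr (Or.inr (Or.inr (Or.inr (Or.inr (Or.inr (Or.inr (Or.inr H47)))))))))))
    · linarith only [B23, B3, H47, B22]
  have H17 := E17
  have H21 := E21
  have H7 := E7
  rcases E26 with H26 | H26
  · rcases E34 with H34 | H34 | H34
    · linarith only [H17.1, H34]
    · linarith only [H26.1, H34, H21.1]
    · rcases E11 with H11 | H11
      · rcases E35 with H35 | H35 | H35 | H35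
        · rcases E0 with H0 | H0
          · rcases E15 with H15 | H15
            · rcases E36 with H36 | H36 | H36 | H36
              · linarith only [B29, H36, B3, H15.1]
              · linarith only [H17.1, H36, H15.1]
              · linarith only [H36, H21.1]
              · rcases E29 with H29 | H29
                · rcases E37 with H37 | H37 | H37
                  · linarith only [H37, H29.1]
                  · rcases E5 with H5 | H5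
                    · rcases E10 with H10 | H10
                      · linarith only [H10.1, B23, B27, B15, B22, H37, H5]
                      · rcases E25 with H25 | H25
                        · linarith only [H25.1, H37]
                        · rcases E43 with H43 | H43 | H43 | H43 | H43 | H43 | H43
                          · linarith only [H43.1, H35]
                          · linarith only [H43.1, H35]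
                          · linarith only [H43.2, B20, H36]
                          · linarith only [H43.2.2.1, B20, H36]
                          · rcases E41 with H41 | H41 | H41 | H41 | H41 | H41
                            · linarith only [H41.1, H35]
                            · linarith only [H41.2.2.2, B20, H10.2, H41.2.1]
                            · rcases E39 with H39 | H39 | H39 | H39
                              · linarith only [H39, H41.1]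
                              · linarith only [H17.1, H39, H15.1]
                              · rcases E20 with H20 | H20
                                · linarith only [H20.1, H39]
                                · linarith only [H20.2, H43, H34]
                              · linarith only [H41.2, H39]
                            · linarith only [H41, H34]
                            · linarith only [H25.2, H41.2.2, H34]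
                            · linarith only [B38, H41, H34]
                          · linarith only [H25.2, H43, H34]
                          · linarith only [H43.2.2, H34]
                    · linarith only [B33, B20, H5, H21.1, H37]
                  · linarith only [B20, H37, H7]
                · rcases E6 with H6 | H6
                  · linarith only [H29.1, B30, H17.1, H6]
                  · rcases E2 with H2 | H2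
                    · linarith only [B29, B17, H6, H29.1, B30, B16, H17.1, H2]
                    · rcases E13 with H13 | H13
                      · linarith only [H13.1, B29, B21, H6, B25, H29.1, B17, B16]
                      · rcases E40 with H40 | H40 | H40 | H40 | H40 | H40
                        · linarith only [H40.1, H35]
                        · rcases E39 with H39 | H39 | H39 | H39
                          · linarith only [H40.1, H39]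
                          · linarith only [H17.1, H39, H15.1]
                          · rcases E4 with H4 | H4
                            · linarith only [H0.2, B30, H39, H17.1, H4]
                            · rcases E14 with H14 | H14
                              · linarith only [B29, H14.1, B21, H6, H29.1, B16, B17, B25]
                              · rcases E20 with H20 | H20
                                · linarith only [H20.1, H39]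
                                · rcases E45 with H45 | H45 | H45 | H45 | H45 | H45 | H45 | H45 | H45
                                  · linarith only [H45.1, H35]
                                  · linarith only [H45.1, H35]
                                  · linarith only [H45.1, H35]
                                  · linarith only [H45.2, H14.2, H36]
                                  · linarith only [H45.2.2.2, B20, H36]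
                                  · linarith only [H45.2.2.2.2.1, B20, H36]
                                  · rcases E43 with H43 | H43 | H43 | H43 | H43 | H43 | H43
                                    · linarith only [H43.1, H35]
                                    · linarith only [H43.1, H35]
                                    · linarith only [H43.2, B20, H36]
                                    · linarith only [H43.2.2.1, B20, H36]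
                                    · linarith only [H20.2, H43, H34]
                                    · rcases E16 with H16 | H16
                                      · rcases E30 with H30 | H30
                                        · rcases E47 with H47 | H47 | H47 | H47 | H47 | H47 | H47 | H47 | H47 | H47 | H47 | H47 | H47
                                          · linarith only [H29.1, H47, H6]
                                          · linarith only [H47, B37, H30.1]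
                                          · linarith only [H0.1, H47, H39, H4]
                                          · linarith only [H47, B21, B33, H21.1, H35, B25]
                                          · linarith only [H47, H35]
                                          · linarith only [H14.1, H47, H2]
                                          · linarith only [H40.1, H47, H35]
                                          · linarith only [H47, H0.1, B18, H29.1, H40.1, H4, H39, H6, H34]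
                                          · linarith only [H47, B31, B19, B21, H14.1, H35, H2, B25, H16.1, B20]
                                          · linarith only [H47, B27, H39, B18, B15, H0.1, H4, H36, H34]
                                          · linarith only [H47, B25, B19, B31, B21, H14.1, H35, H2, H16.1, H40.2]
                                          · linarith only [H47, H35, B21, B30, H16.1, B25]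
                                          · rcases E25 with H25 | H25
                                            · linarith only [B34, H47, H30.1, H25.1, B37]
                                            · linarith only [H25.2, H43, H34]
                                        · linarith only [B31, H6, H30.1, H4, H39, H16.1]
                                      · linarith only [H16.2, H45, H34]
                                    · linarith only [H43.2.2, H34]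
                                  · linarith only [H20.2, H45.2.2, H34]
                                  · linarith only [B38, H45, H29.2, H34]
                          · linarith only [H40.2, H39]
                        · linarith only [H40.2.2.2, H13.2, H40.2.1]
                        · linarith only [H40, H34]
                        · linarith only [B38, H40, H34]
                        · linarith only [H40.1, H40.2.2, H29.2]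
            · rcases E2 with H2 | H2
              · linarith only [B23, H15.1, B30, B22, H17.1, H2]
              · rcases E1 with H1 | H1
                · linarith only [B27, B23, H15.1, B15, H2, B22, H1.1]
                · linarith only [H15.1, H2, H1.1]
          · linarith only [H0.1, H35]
        · linarith only [H17.1, H35]
        · linarith only [H11.1, H35, H21.1]
        · rcases E1 with H1 | H1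
          · rcases E5 with H5 | H5
            · rcases E10 with H10 | H10
              · linarith only [H10.1, B11, H35]
              · rcases E25 with H25 | H25
                · linarith only [B17, B21, B25, B34, H25.1, H10.1, B16]
                · rcases E41 with H41 | H41 | H41 | H41 | H41 | H41
                  · rcases E38 with H38 | H38 | H38 | H38
                    · linarith only [H41.1, H38]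
                    · rcases E3 with H3 | H3
                      · rcases E16 with H16 | H16
                        · linarith only [H16.1, H38]
                        · rcases E42 with H42 | H42 | H42 | H42 | H42 | H42 | H42 | H42 | H42
                          · linarith only [H42.2, H10.2, H35]
                          · linarith only [H42.2.2.2, B20, H35]
                          · linarith only [H42.2.2.2.2.1, B20, H35]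
                          · linarith only [H11.1, H42.2, B20, H35]
                          · linarith only [H11.1, B20, H42.2.2.1, H35]
                          · linarith only [H11.1, H42.2.2.1, B20, H35]
                          · rcases E20 with H20 | H20
                            · rcases E46 with H46 | H46 | H46 | H46 | H46 | H46 | H46 | H46 | H46 | H46 | H46 | H46 | H46
                              · linarith only [H46, B21, B25, B30, H17.1]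
                              · linarith only [H46, B23, H38, B22, H3]
                              · linarith only [H25.1, H5, H46]
                              · linarith only [H26.1, B34, H46]
                              · linarith only [B25, B21, H20.1, H46, B32, B18, H35, H34]
                              · linarith only [H41.2, B19, B17, H38, B16, H46, H10.1, H3]
                              · linarith only [H10.1, H46]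
                              · linarith only [H11.1, H46]
                              · linarith only [H11.1, H46, H35]
                              · linarith only [H41.1, H46]
                              · rcases E14 with H14 | H14
                                · linarith only [B29, H11.1, H46, H14.1]
                                · rcases E29 with H29 | H29
                                  · linarith only [B37, B34, H46, H29.1, H26.1]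
                                  · rcases E44 with H44 | H44 | H44 | H44 | H44 | H44 | H44
                                    · linarith only [H44.2, B20, H35]
                                    · linarith only [H44.2.2.1, B20, H35]
                                    · linarith only [H11.1, H44.2, H14.2, H35]
                                    · linarith only [H11.1, H44.2.2.2, H35, H34]
                                    · linarith only [H16.2, H44, H34]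
                                    · linarith only [B38, H44, H29.2, H34]
                                    · linarith only [B38, H44.2.2, H34]
                              · linarith only [H46, H20.1, B19, B17, B11, H38, B16, B33, B20, H3]
                              · linarith only [B30, H17.1, H46]
                            · linarith only [H20.2, H42, H34]
                          · linarith only [H16.2, H42.2.2, H34]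
                          · linarith only [H25.2, H42, H34]
                      · linarith only [B33, H21.1, H1.1, H3, H38]
                    · linarith only [H11.1, H38, H21.1]
                    · linarith only [H41.2, H38]
                  · linarith only [H41.2.2.2, B20, H10.2, H41.2.1]
                  · linarith only [H41.2, H35, H11.1, H34]
                  · linarith only [H41, H34]
                  · linarith only [H25.2, H41.2.2, H34]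
                  · linarith only [B38, H41, H34]
            · linarith only [B33, B20, B16, B17, B21, H35, B34, H5, H21.1, B11, B25]
          · linarith only [H11.1, H35, H1.2]
      · linarith only [B16, B17, B21, H11.1, B34, H26.1, B25]
  · rcases E5 with H5 | H5
    · rcases E0 with H0 | H0
      · linarith only [H26.1, H0.2, H5]
      · linarith only [B23, H26.1, B27, B15, B22, H0.2, H5]
    · linarith only [B33, B20, H5, H21.1, H26.1]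

theorem g13 {a1 a2 a3 b1 b2 b3 d1 e g h h3 hp k m n1 n2 n3 p0 p1 p2 p3 p4 p5 y : ℤ}
    (B3 : 0 ≤ b1)
    (B11 : 0 ≤ n3 - b3)
    (B15 : 0 ≤ e - a1 - a2 + b1 + b2)
    (B16 : 0 ≤ a1 + a2 - b1 - b2 - e)
    (B17 : 0 ≤ e - 1)
    (B18 : 0 ≤ y + a1 + a2 + a3 - b1 - b2 - b3)
    (B19 : 0 ≤ -a1 - a2 - a3 + b1 + b2 + b3 - y)
    (B20 : 0 ≤ y - 1)
    (B21 : 0 ≤ d1 - a1 + b1)
    (B22 : 0 ≤ a1 - b1 - d1)
    (B23 : 0 ≤ d1 - 1)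
    (B25 : 0 ≤ -d1 + 1)
    (B27 : 0 ≤ -e + 1)
    (B29 : 0 ≤ b2 - hp - 1)
    (B30 : 0 ≤ n1 - a1 - h3)
    (B31 : 0 ≤ a2 + a3 - h3 - 1)
    (B33 : 0 ≤ a3 - k - 1)
    (B34 : 0 ≤ n2 - a2 - g - 1)
    (B37 : 0 ≤ a2 - h - 1)
    (B38 : 0 ≤ y - m)
    (B40 : 0 ≤ -p2 - 1)
    (B42 : 0 ≤ -p4 + y - 2)
    (D0 : (0 ≤ a1 - 1 ∧ 0 ≤ n2 - a2 - 1) ∨ (0 ≤ b1 - 1 ∧ 0 ≤ n2 - b2 - 1))
    (D1 : (0 ≤ a2 - 1 ∧ 0 ≤ n3 - a3 - 1) ∨ (0 ≤ b2 - 1 ∧ 0 ≤ n3 - b3 - 1))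
    (D2 : 0 ≤ hp - n1 + b1 ∨ 0 ≤ hp - b2 + 1)
    (D4 : 0 ≤ k - n1 + a1 - n2 + a2 ∨ 0 ≤ k - a3 + 1)
    (D6 : 0 ≤ h - n1 + a1 ∨ 0 ≤ h - a2 + 1)
    (D7 : 0 ≤ m - y ∨ 0 ≤ m - n3 + a3)
    (D10 : (0 ≤ n2 - b2 - 2 ∧ 0 ≤ -p0) ∨ (0 ≤ -n2 + b2 + 1 ∧ 0 ≤ p0 - y))
    (D14 : (0 ≤ hp - 1 ∧ 0 ≤ -p1) ∨ (0 ≤ -hp ∧ 0 ≤ p1 - y))
    (D15 : (0 ≤ hp ∧ 0 ≤ y - p1) ∨ (0 ≤ -hp - 1 ∧ 0 ≤ p1 - 2 * y))
    (D16 : (0 ≤ h3 - 2 ∧ 0 ≤ -2 * y - p2) ∨ (0 ≤ -h3 + 1 ∧ 0 ≤ p2 + y))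
    (D17 : (0 ≤ h3 - 1 ∧ 0 ≤ -y - p2) ∨ (0 ≤ -h3 ∧ 0 ≤ p2))
    (D20 : (0 ≤ k - 2 ∧ 0 ≤ -2 * y - p3) ∨ (0 ≤ -k + 1 ∧ 0 ≤ p3 + y))
    (D21 : (0 ≤ k - 1 ∧ 0 ≤ -y - p3) ∨ (0 ≤ -k ∧ 0 ≤ p3))
    (D25 : (0 ≤ g - 1 ∧ 0 ≤ -y - p4) ∨ (0 ≤ -g ∧ 0 ≤ p4))
    (D26 : (0 ≤ g ∧ 0 ≤ -p4) ∨ (0 ≤ -g - 1 ∧ 0 ≤ p4 - y))
    (D29 : (0 ≤ h - 1 ∧ 0 ≤ -y - p5) ∨ (0 ≤ -h ∧ 0 ≤ p5))
    (D30 : (0 ≤ h ∧ 0 ≤ -p5) ∨ (0 ≤ -h - 1 ∧ 0 ≤ p5 - y))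
    (D32 : 0 ≤ -p2 - 2 ∨ 0 ≤ -p3 - 1)
    (D33 : 0 ≤ -h - 1 ∨ 0 ≤ -g - 1 ∨ 0 ≤ -m + 1)
    (D34 : 0 ≤ -h ∨ 0 ≤ -g ∨ 0 ≤ -y - m + 1)
    (D35 : 0 ≤ -b1 ∨ 0 ≤ -h3 ∨ 0 ≤ -n2 + b2 - k ∨ 0 ≤ -n2 + b2 - n3 + b3 + 1)
    (D36 : 0 ≤ -b1 - b2 ∨ 0 ≤ -hp - h3 - 1 ∨ 0 ≤ -k ∨ 0 ≤ -n3 + b3 + 1)
    (D37 : 0 ≤ -b1 - b2 ∨ 0 ≤ -hp - h3 ∨ 0 ≤ -k + 1 ∨ 0 ≤ -n3 + b3 - y + 1)
    (D38 : ((0 ≤ b1 - 1 ∧ 0 ≤ n2 - b2 + n3 - b3 + y - 2) ∨ (0 ≤ b1 - 1 ∧ 0 ≤ -n2 + b2 - n3 + b3 - y + 1 ∧ 0 ≤ n2 - b2 + n3 - b3 + y - 1 ∧ 0 ≤ -y + n2 - b2 + n3 - b3 - 2) ∨ (0 ≤ b1 - 1 ∧ 0 ≤ -n2 + b2 - n3 + b3 - y + 1 ∧ 0 ≤ n2 - b2 + n3 - b3 + y - 1 ∧ 0 ≤ y - n2 + b2 - n3 + b3 + 1 ∧ 0 ≤ -y + n2 - b2 + n3 - b3 - 1 ∧ 0 ≤ -p0 + n2 - b2 + n3 - b3 + y - 1)) ∨ ((0 ≤ b1 + b2 - 1 ∧ 0 ≤ n3 - b3 + y - 2) ∨ (0 ≤ b1 + b2 - 1 ∧ 0 ≤ -n3 + b3 - y + 1 ∧ 0 ≤ n3 - b3 + y - 1 ∧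 0 ≤ -p1 + n3 - b3 + y - 2) ∨ (0 ≤ b1 + b2 - 1 ∧ 0 ≤ -n3 + b3 - y + 1 ∧ 0 ≤ n3 - b3 + y - 1 ∧ 0 ≤ p1 - n3 + b3 - y + 1 ∧ 0 ≤ -p1 + n3 - b3 + y - 1 ∧ 0 ≤ -y + n3 - b3 - 1)) ∨ (0 ≤ y - 2) ∨ (0 ≤ m - 2 ∨ (0 ≤ -m + 1 ∧ 0 ≤ m - 1 ∧ 0 ≤ -p5 + m - 2) ∨ (0 ≤ -m + 1 ∧ 0 ≤ m - 1 ∧ 0 ≤ p5 - m + 1 ∧ 0 ≤ -p5 + m - 1 ∧ 0 ≤ -y + m - 1)))
    (D39 : ((0 ≤ b1 - 1 ∧ 0 ≤ -y + n2 - b2 + n3 - b3 - 2) ∨ (0 ≤ b1 - 1 ∧ 0 ≤ y - n2 + b2 - n3 + b3 + 1 ∧ 0 ≤ -y + n2 - b2 + n3 - b3 - 1 ∧ 0 ≤ -p0 + n2 - b2 + n3 - b3 + y - 2) ∨ (0 ≤ b1 - 1 ∧ 0 ≤ y - n2 + b2 - n3 + b3 + 1 ∧ 0 ≤ -y + n2 - b2 + n3 - b3 - 1 ∧ 0 ≤ p0 - n2 + b2 - n3 + b3 - y + 1 ∧ 0 ≤ -p0 + n2 - b2 + n3 - b3 + y - 1 ∧ 0 ≤ n2 - b2 + n3 - b3 + y - 1)) ∨ ((0 ≤ b1 + b2 - 1 ∧ 0 ≤ -p1 + n3 - b3 + y - 2) ∨ (0 ≤ b1 + b2 - 1 ∧ 0 ≤ p1 - n3 + b3 - y + 1 ∧ 0 ≤ -p1 + n3 - b3 + y - 1 ∧ 0 ≤ -y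 + n3 - b3 - 2) ∨ (0 ≤ b1 + b2 - 1 ∧ 0 ≤ p1 - n3 + b3 - y + 1 ∧ 0 ≤ -p1 + n3 - b3 + y - 1 ∧ 0 ≤ y - n3 + b3 + 1 ∧ 0 ≤ -y + n3 - b3 - 1 ∧ 0 ≤ n3 - b3 + y - 1)) ∨ (0 ≤ -p2 - 2 ∨ (0 ≤ p2 + 1 ∧ 0 ≤ -p2 - 1 ∧ 0 ≤ -p3 - 2)) ∨ (0 ≤ -p5 + m - 2 ∨ (0 ≤ p5 - m + 1 ∧ 0 ≤ -p5 + m - 1 ∧ 0 ≤ -y + m - 2) ∨ (0 ≤ p5 - m + 1 ∧ 0 ≤ -p5 + m - 1 ∧ 0 ≤ y - m + 1 ∧ 0 ≤ -y + m - 1 ∧ 0 ≤ m - 1)))
    (D41 : 0 ≤ a2 - 2 ∨ 0 ≤ -a2 ∨ 0 ≤ a3 - a1 - 2 ∨ 0 ≤ -a3 + a1 ∨ 0 ≤ b1 - 1 ∨ 0 ≤ b2 - 2 ∨ 0 ≤ -b2 ∨ 0 ≤ b3 - 2 * a1 - 3 ∨ 0 ≤ -b3 + 2 * a1 + 1 ∨ 0 ≤ n3 - 2 * a1 - 4 ∨ 0 ≤ -n3 + 2 * a1 + 2 ∨ 0 ≤ 2 * a1 - n1 ∨ 0 ≤ -n2 + 2 ∨ 0 ≤ -a1) : False := by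
  have E0 := D0
  have E1 := D1
  have E2 := D2
  have E4 := D4
  have E6 := D6
  have E7 : 0 ≤ m - y := by
    rcases D7 with H7 | H7
    · exact H7
    · linarith only [B17, H7, B38, B11, B16, B19]
  have E10 := D10
  have E14 := D14
  have E15 := D15
  have E16 := D16
  have E17 : (0 ≤ h3 - 1 ∧ 0 ≤ -y - p2) := by
    rcases D17 with H17 | H17
    · exact H17
    · linarith only [B40, H17.2]
  have E20 := D20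
  have E21 := D21
  have E25 := D25
  have E26 : (0 ≤ g ∧ 0 ≤ -p4) := by
    rcases D26 with H26 | H26
    · exact H26
    · linarith only [B42, H26.2]
  have E29 := D29
  have E30 := D30
  have E32 := D32
  have E33 := D33
  have E34 := D34
  have E35 := D35
  have E36 := D36
  have E37 := D37
  have E38 : (0 ≤ b1 - 1 ∧ 0 ≤ n2 - b2 + n3 - b3 + y - 2) ∨ (0 ≤ b1 + b2 - 1 ∧ 0 ≤ n3 - b3 + y - 2) ∨ (0 ≤ b1 + b2 - 1 ∧ 0 ≤ -n3 + b3 - y + 1 ∧ 0 ≤ n3 - b3 + y - 1 ∧ 0 ≤ -p1 + n3 - b3 + y - 2) ∨ 0 ≤ y - 2 ∨ 0 ≤ m - 2 ∨ (0 ≤ -m + 1 ∧ 0 ≤ m - 1 ∧ 0 ≤ -p5 + m - 2) := by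
    rcases D38 with (H38 | H38 | H38) | (H38 | H38 | H38) | H38 | (H38 | H38 | H38)
    · exact Or.inl H38
    · linarith only [H38.2.2.2, B20, H38.2.1]
    · linarith only [H38.2.2.2.2.1, B20, H38.2.1]
    · exact Or.inr (Or.inl H38)
    · exact Or.inr (Or.inr (Or.inl H38))
    · linarith only [B20, H38.2.2.2.2.2, H38.2.1]
    · exact Or.inr (Or.inr (Or.inr (Or.inl H38)))
    · exact Or.inr (Or.inr (Or.inr (Or.inr (Or.inl H38))))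
    · exact Or.inr (Or.inr (Or.inr (Or.inr (Or.inr H38))))
    · linarith only [B38, H38.2.2.2.2]
  have E39 : (0 ≤ b1 - 1 ∧ 0 ≤ -y + n2 - b2 + n3 - b3 - 2) ∨ (0 ≤ b1 - 1 ∧ 0 ≤ y - n2 + b2 - n3 + b3 + 1 ∧ 0 ≤ -y + n2 - b2 + n3 - b3 - 1 ∧ 0 ≤ -p0 + n2 - b2 + n3 - b3 + y - 2) ∨ (0 ≤ b1 - 1 ∧ 0 ≤ y - n2 + b2 - n3 + b3 + 1 ∧ 0 ≤ -y + n2 - b2 + n3 - b3 - 1 ∧ 0 ≤ p0 - n2 + b2 - n3 + b3 - y + 1 ∧ 0 ≤ -p0 + n2 - b2 + n3 - b3 + y - 1 ∧ 0 ≤ n2 - b2 + n3 - b3 + y - 1) ∨ (0 ≤ b1 + b2 - 1 ∧ 0 ≤ -p1 + n3 - b3 + y - 2) ∨ (0 ≤ b1 + b2 - 1 ∧ 0 ≤ p1 - n3 + b3 - y + 1 ∧ 0 ≤ -p1 + n3 - b3 + y - 1 ∧ 0 ≤ -y + n3 - b3 - 2) ∨ (0 ≤ b1 + b2 - 1 ∧ 0 ≤ p1 - n3 + b3 - y + 1 ∧ 0 ≤ -p1 + n3 - b3 + y - 1 ∧ 0 ≤ y - n3 + b3 + 1 ∧ 0 ≤ -y + n3 - b3 - 1 ∧ 0 ≤ n3 - b3 + y - 1) ∨ 0 ≤ -p2 - 2 ∨ (0 ≤ p2 + 1 ∧ 0 ≤ -p2 - 1 ∧ 0 ≤ -p3 - 2) ∨ 0 ≤ -p5 + m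 - 2 := by
    rcases D39 with (H39 | H39 | H39) | (H39 | H39 | H39) | (H39 | H39) | (H39 | H39 | H39)
    · exact Or.inl H39
    · exact Or.inr (Or.inl H39)
    · exact Or.inr (Or.inr (Or.inl H39))
    · exact Or.inr (Or.inr (Or.inr (Or.inl H39)))
    · exact Or.inr (Or.inr (Or.inr (Or.inr (Or.inl H39))))
    · exact Or.inr (Or.inr (Or.inr (Or.inr (Or.inr (Or.inl H39)))))
    · exact Or.inr (Or.inr (Or.inr (Or.inr (Or.inr (Or.inr (Or.inl H39))))))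
    · exact Or.inr (Or.inr (Or.inr (Or.inr (Or.inr (Or.inr (Or.inr (Or.inl H39)))))))
    · exact Or.inr (Or.inr (Or.inr (Or.inr (Or.inr (Or.inr (Or.inr (Or.inr H39)))))))
    · linarith only [B38, H39.2.2]
    · linarith only [B38, H39.2.2.2.1]
  have E41 : 0 ≤ a2 - 2 ∨ 0 ≤ -a2 ∨ 0 ≤ a3 - a1 - 2 ∨ 0 ≤ -a3 + a1 ∨ 0 ≤ b1 - 1 ∨ 0 ≤ b2 - 2 ∨ 0 ≤ -b2 ∨ 0 ≤ b3 - 2 * a1 - 3 ∨ 0 ≤ -b3 + 2 * a1 + 1 ∨ 0 ≤ n3 - 2 * a1 - 4 ∨ 0 ≤ -n3 + 2 * a1 + 2 ∨ 0 ≤ 2 * a1 - n1 ∨ 0 ≤ -n2 + 2 := by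
    rcases D41 with H41 | H41 | H41 | H41 | H41 | H41 | H41 | H41 | H41 | H41 | H41 | H41 | H41 | H41
    · exact Or.inl H41
    · exact Or.inr (Or.inl H41)
    · exact Or.inr (Or.inr (Or.inl H41))
    · exact Or.inr (Or.inr (Or.inr (Or.inl H41)))
    · exact Or.inr (Or.inr (Or.inr (Or.inr (Or.inl H41))))
    · exact Or.inr (Or.inr (Or.inr (Or.inr (Or.inr (Or.inl H41)))))
    · exact Or.inr (Or.inr (Or.inr (Or.inr (Or.inr (Or.inr (Or.inl H41))))))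
    · exact Or.inr (Or.inr (Or.inr (Or.inr (Or.inr (Or.inr (Or.inr (Or.inl H41)))))))
    · exact Or.inr (Or.inr (Or.inr (Or.inr (Or.inr (Or.inr (Or.inr (Or.inr (Or.inl H41))))))))
    · exact Or.inr (Or.inr (Or.inr (Or.inr (Or.inr (Or.inr (Or.inr (Or.inr (Or.inr (Or.inl H41)))))))))
    · exact Or.inr (Or.inr (Or.inr (Or.inr (Or.inr (Or.inr (Or.inr (Or.inr (Or.inr (Or.inr (Or.inl H41))))))))))
    · exact Or.inr (Or.inr (Or.inr (Or.inr (Or.inr (Or.inr (Or.inr (Or.inr (Or.inr (Or.inr (Or.inr (Or.inl H41)))))))))))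
    · exact Or.inr (Or.inr (Or.inr (Or.inr (Or.inr (Or.inr (Or.inr (Or.inr (Or.inr (Or.inr (Or.inr (Or.inr H41)))))))))))
    · linarith only [B23, B3, H41, B22]
  have H17 := E17
  have H26 := E26
  have H7 := E7
  rcases E30 with H30 | H30
  · rcases E33 with H33 | H33 | H33
    · linarith only [H33, H30.1]
    · linarith only [H26.1, H33]
    · rcases E25 with H25 | H25
      · rcases E34 with H34 | H34 | H34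
        · rcases E29 with H29 | H29
          · linarith only [H34, H29.1]
          · rcases E6 with H6 | H6
            · linarith only [H34, B30, H17.1, H6]
            · rcases E2 with H2 | H2
              · linarith only [B29, B17, H6, H34, B30, B16, H17.1, H2]
              · rcases E10 with H10 | H10
                · rcases E14 with H14 | H14
                  · linarith only [B29, H14.1, B17, B21, H6, H34, B16, B25]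
                  · rcases E15 with H15 | H15
                    · rcases E21 with H21 | H21
                      · rcases E36 with H36 | H36 | H36 | H36
                        · linarith only [B3, B29, H36, H15.1]
                        · linarith only [H17.1, H15.1, H36]
                        · linarith only [H36, H21.1]
                        · rcases E35 with H35 | H35 | H35 | H35
                          · rcases E0 with H0 | H0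
                            · rcases E38 with H38 | H38 | H38 | H38 | H38 | H38
                              · linarith only [H38.1, H35]
                              · rcases E37 with H37 | H37 | H37 | H37
                                · linarith only [H38.1, H37]
                                · linarith only [H17.1, H15.1, H37]
                                · rcases E4 with H4 | H4
                                  · linarith only [B34, B30, H37, H17.1, H25.1, H4]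
                                  · rcases E20 with H20 | H20
                                    · linarith only [H37, H20.1]
                                    · rcases E39 with H39 | H39 | H39 | H39 | H39 | H39 | H39 | H39 | H39
                                      · linarith only [H39.1, H35]
                                      · linarith only [H39.1, H35]
                                      · linarith only [H39.2.2.2.1, H38.2, H10.1, H10.2]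
                                      · linarith only [H39.2, H14.2, H36]
                                      · linarith only [H39.2.2.2, B20, H36]
                                      · linarith only [B20, H36, H39.2.2.2.2.1]
                                      · rcases E16 with H16 | H16
                                        · rcases E41 with H41 | H41 | H41 | H41 | H41 | H41 | H41 | H41 | H41 | H41 | H41 | H41 | H41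
                                          · linarith only [H41, H34, H6]
                                          · linarith only [H41, B37, H30.1]
                                          · linarith only [H0.1, H41, H37, H4]
                                          · linarith only [H41, H21.1, B33, H35, B25, B21]
                                          · linarith only [H41, H35]
                                          · linarith only [H14.1, H41, H2]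
                                          · linarith only [B29, H41, H15.1]
                                          · linarith only [H41, B18, H38.1, H34, H0.1, H33, H4, H37, H6, H7]
                                          · linarith only [H41, B31, B19, H35, B25, B21, H14.1, H2, H16.1, B20]
                                          · linarith only [H41, H38.1, H37, B18, H34, H6, H33, H4, H0.1, H36, H7]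
                                          · linarith only [H41, B25, B19, B31, B21, H14.1, H35, H2, H16.1, H38.2]
                                          · linarith only [H41, H16.1, B21, B30, H35, B25]
                                          · linarith only [B29, H41, H15.1, H10.1]
                                        · linarith only [H33, H16.2, H39, H7]
                                      · linarith only [H33, H7, H39.2.2, H20.2]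
                                      · linarith only [H29.2, H39, H33]
                                · linarith only [H38.2, H37]
                              · linarith only [H38.2.2.2, B20, H14.2, H38.2.1]
                              · linarith only [H33, H38, H7]
                              · linarith only [H38, H33]
                              · linarith only [H29.2, H38.2.2, H33]
                            · linarith only [H0.1, H35]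
                          · linarith only [H17.1, H35]
                          · linarith only [H10.1, H35, H21.1]
                          · linarith only [H35, B11, H10.1]
                      · rcases E4 with H4 | H4
                        · linarith only [B34, B30, H21.1, H17.1, H25.1, H4]
                        · rcases E16 with H16 | H16
                          · linarith only [B31, H4, H34, H21.1, H16.1, H6]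
                          · rcases E32 with H32 | H32
                            · linarith only [H33, H16.2, H32, H7]
                            · linarith only [H21.2, H32]
                    · linarith only [B27, B23, B37, H15.1, B15, H2, B22, H30.1]
                · linarith only [H10.1, B17, B21, B25, B34, H25.1, B16]
        · linarith only [H25.1, H34]
        · linarith only [H34, H7, B20]
      · linarith only [H25.2, H33, B42, H7]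
  · rcases E6 with H6 | H6
    · linarith only [H30.1, B30, H17.1, H6]
    · rcases E1 with H1 | H1
      · linarith only [H6, H30.1, H1.1]
      · linarith only [B17, H1.1, B21, H6, H30.1, B16, B25]

theorem g14 {m y : ℤ}
    (B38 : 0 ≤ y - m)
    (B41 : 0 ≤ -y + m - 1) : False := by
  linarith only [B38, B41]

theorem g15 {a1 a2 a3 b1 b2 b3 d1 e h m n2 n3 p0 p5 y : ℤ}
    (B11 : 0 ≤ n3 - b3)
    (B16 : 0 ≤ a1 + a2 - b1 - b2 - e)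
    (B17 : 0 ≤ e - 1)
    (B19 : 0 ≤ -a1 - a2 - a3 + b1 + b2 + b3 - y)
    (B20 : 0 ≤ y - 1)
    (B21 : 0 ≤ d1 - a1 + b1)
    (B25 : 0 ≤ -d1 + 1)
    (B38 : 0 ≤ y - m)
    (B40 : 0 ≤ -p5 + m - 1)
    (B41 : 0 ≤ b1 - 1)
    (D0 : (0 ≤ a1 - 1 ∧ 0 ≤ n2 - a2 - 1) ∨ (0 ≤ b1 - 1 ∧ 0 ≤ n2 - b2 - 1))
    (D7 : 0 ≤ m - y ∨ 0 ≤ m - n3 + a3)
    (D10 : (0 ≤ n2 - b2 - 2 ∧ 0 ≤ -p0) ∨ (0 ≤ -n2 + b2 + 1 ∧ 0 ≤ p0 - y))
    (D30 : (0 ≤ h ∧ 0 ≤ -p5) ∨ (0 ≤ -h - 1 ∧ 0 ≤ p5 - y))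
    (D33 : 0 ≤ -p0 + n2 - b2 + n3 - b3 + y - 2 ∨ 0 ≤ -y + n2 - b2 + n3 - b3 - 1)
    (D34 : 0 ≤ -b1 ∨ 0 ≤ -h - 1 ∨ 0 ≤ -n2 + b2 ∨ 0 ≤ -n2 + b2 - n3 + b3 - m + y + 1) : False := by
  have E0 := D0
  have E7 : 0 ≤ m - y := by
    rcases D7 with H7 | H7
    · exact H7
    · linarith only [B17, H7, B38, B11, B16, B19]
  have E10 := D10
  have E30 : (0 ≤ h ∧ 0 ≤ -p5) := by
    rcases D30 with H30 | H30
    · exact H30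
    · linarith only [B38, B40, H30.2]
  have E33 := D33
  have E34 : 0 ≤ -h - 1 ∨ 0 ≤ -n2 + b2 ∨ 0 ≤ -n2 + b2 - n3 + b3 - m + y + 1 := by
    rcases D34 with H34 | H34 | H34 | H34
    · linarith only [B41, H34]
    · exact Or.inl H34
    · exact Or.inr (Or.inl H34)
    · exact Or.inr (Or.inr H34)
  have H30 := E30
  have H7 := E7
  rcases E34 with H34 | H34 | H34
  · linarith only [H34, H30.1]
  · rcases E0 with H0 | H0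
    · linarith only [B16, B17, B21, H34, H0.2, B25]
    · linarith only [H0.2, H34]
  · rcases E33 with H33 | H33
    · rcases E10 with H10 | H10
      · linarith only [H10.1, H34, B11, H7]
      · linarith only [H10.2, H34, H33, H7]
    · linarith only [H33, B20, H34, H7]

theorem g16 {a1 a2 a3 b1 b2 b3 d1 e g h hp m n1 n2 n3 p5 y : ℤ}
    (B2 : 0 ≤ a3)
    (B6 : 0 ≤ n1 - a1)
    (B15 : 0 ≤ e - a1 - a2 + b1 + b2)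
    (B20 : 0 ≤ y - 1)
    (B22 : 0 ≤ a1 - b1 - d1)
    (B23 : 0 ≤ d1 - 1)
    (B27 : 0 ≤ -e + 1)
    (B37 : 0 ≤ a2 - h - 1)
    (B38 : 0 ≤ y - m)
    (B40 : 0 ≤ -p5 + m - 1)
    (B41 : 0 ≤ b1 + b2 - 1)
    (B42 : 0 ≤ -y + n3 - b3 - 1)
    (D0 : (0 ≤ a1 - 1 ∧ 0 ≤ n2 - a2 - 1) ∨ (0 ≤ b1 - 1 ∧ 0 ≤ n2 - b2 - 1))
    (D2 : 0 ≤ hp - n1 + b1 ∨ 0 ≤ hp - b2 + 1)
    (D5 : 0 ≤ g - n2 + a2 + 1 ∨ 0 ≤ g - a3 - y + 1)
    (D30 : (0 ≤ h ∧ 0 ≤ -p5) ∨ (0 ≤ -h - 1 ∧ 0 ≤ p5 - y))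
    (D34 : 0 ≤ -b1 - b2 ∨ 0 ≤ -hp - 1 ∨ 0 ≤ -g - 1 ∨ 0 ≤ -n3 + b3 + 1) : False := by
  have E0 := D0
  have E2 := D2
  have E5 := D5
  have E30 : (0 ≤ h ∧ 0 ≤ -p5) := by
    rcases D30 with H30 | H30
    · exact H30
    · linarith only [B38, B40, H30.2]
  have E34 : 0 ≤ -hp - 1 ∨ 0 ≤ -g - 1 := by
    rcases D34 with H34 | H34 | H34 | H34
    · linarith only [H34, B41]
    · exact Or.inl H34
    · exact Or.inr H34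
    · linarith only [B20, B42, H34]
  have H30 := E30
  rcases E34 with H34 | H34
  · rcases E2 with H2 | H2
    · linarith only [B23, H34, B22, B6, H2]
    · linarith only [B27, B23, B37, H34, B15, H2, B22, H30.1]
  · rcases E5 with H5 | H5
    · rcases E0 with H0 | H0
      · linarith only [H34, H0.2, H5]
      · linarith only [B23, H34, B27, B15, B22, H0.2, H5]
    · linarith only [B20, H5, B2, H34]

theorem g17_l0 {b1 b2 b3 g k m n2 n3 p0 p3 p4 y : ℤ}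
    (B20 : 0 ≤ y - 1)
    (E42 : (0 ≤ b1 - 1 ∧ 0 ≤ -p0 + n2 - b2 + n3 - b3 + y - 2) ∨ (0 ≤ b1 - 1 ∧ 0 ≤ p0 - n2 + b2 - n3 + b3 - y + 1 ∧ 0 ≤ -p0 + n2 - b2 + n3 - b3 + y - 1 ∧ 0 ≤ n2 - b2 + n3 - b3 + y - 2) ∨ (0 ≤ b1 + b2 - 1 ∧ 0 ≤ -y + n3 - b3 - 2) ∨ (0 ≤ b1 + b2 - 1 ∧ 0 ≤ y - n3 + b3 + 1 ∧ 0 ≤ -y + n3 - b3 - 1 ∧ 0 ≤ n3 - b3 + y - 2) ∨ 0 ≤ -p3 - 2 ∨ 0 ≤ -p4 + y - 2 ∨ (0 ≤ p4 - y + 1 ∧ 0 ≤ -p4 + y - 1 ∧ 0 ≤ y - 2))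
    (H7 : 0 ≤ m - y)
    (H20 : 0 ≤ -k + 1 ∧ 0 ≤ p3 + y)
    (H25 : 0 ≤ -g ∧ 0 ≤ p4)
    (H34 : 0 ≤ -m + 1)
    (H36 : 0 ≤ -n3 + b3 + 1)
    (H39 : 0 ≤ -b1) : False := by
  rcases E42 with H42 | H42 | H42 | H42 | H42 | H42 | H42
  · linarith only [H42.1, H39]
  · linarith only [H42.1, H39]
  · linarith only [H42.2, H36, B20]
  · linarith only [B20, H42.2.2.1, H36]
  · linarith only [H20.2, H42, H7, H34]
  · linarith only [H42, H34, H7, H25.2]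
  · linarith only [H42.2.2, H7, H34]

theorem g17 {a1 a2 a3 b1 b2 b3 d1 e g h h3 hp k m n1 n2 n3 p0 p1 p2 p3 p4 p5 y : ℤ}
    (B3 : 0 ≤ b1)
    (B6 : 0 ≤ n1 - a1)
    (B11 : 0 ≤ n3 - b3)
    (B12 : 0 ≤ n1 - 1)
    (B15 : 0 ≤ e - a1 - a2 + b1 + b2)
    (B16 : 0 ≤ a1 + a2 - b1 - b2 - e)
    (B17 : 0 ≤ e - 1)
    (B18 : 0 ≤ y + a1 + a2 + a3 - b1 - b2 - b3)
    (B19 : 0 ≤ -a1 - a2 - a3 + b1 + b2 + b3 - y)
    (B20 : 0 ≤ y - 1)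
    (B21 : 0 ≤ d1 - a1 + b1)
    (B22 : 0 ≤ a1 - b1 - d1)
    (B23 : 0 ≤ d1 - 1)
    (B25 : 0 ≤ -d1 + 1)
    (B27 : 0 ≤ -e + 1)
    (B29 : 0 ≤ b2 - hp - 1)
    (B30 : 0 ≤ n1 - a1 - h3)
    (B33 : 0 ≤ a3 - k - 1)
    (B34 : 0 ≤ n2 - a2 - g - 1)
    (B36 : 0 ≤ n1 - a1 - h)
    (B37 : 0 ≤ a2 - h - 1)
    (B38 : 0 ≤ y - m)
    (B40 : 0 ≤ -p5 + m - 1)
    (B41 : 0 ≤ -p3 - 1)
    (D0 : (0 ≤ a1 - 1 ∧ 0 ≤ n2 - a2 - 1) ∨ (0 ≤ b1 - 1 ∧ 0 ≤ n2 - b2 - 1))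
    (D2 : 0 ≤ hp - n1 + b1 ∨ 0 ≤ hp - b2 + 1)
    (D3 : 0 ≤ h3 - n1 + a1 ∨ 0 ≤ h3 - a2 - a3 + 1)
    (D5 : 0 ≤ g - n2 + a2 + 1 ∨ 0 ≤ g - a3 - y + 1)
    (D7 : 0 ≤ m - y ∨ 0 ≤ m - n3 + a3)
    (D10 : (0 ≤ n2 - b2 - 2 ∧ 0 ≤ -p0) ∨ (0 ≤ -n2 + b2 + 1 ∧ 0 ≤ p0 - y))
    (D11 : (0 ≤ n2 - b2 - 1 ∧ 0 ≤ y - p0) ∨ (0 ≤ -n2 + b2 ∧ 0 ≤ p0 - 2 * y))
    (D13 : (0 ≤ hp - 2 ∧ 0 ≤ -y - p1) ∨ (0 ≤ -hp + 1 ∧ 0 ≤ p1))
    (D16 : (0 ≤ h3 - 2 ∧ 0 ≤ -2 * y - p2) ∨ (0 ≤ -h3 + 1 ∧ 0 ≤ p2 + y))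
    (D17 : (0 ≤ h3 - 1 ∧ 0 ≤ -y - p2) ∨ (0 ≤ -h3 ∧ 0 ≤ p2))
    (D20 : (0 ≤ k - 2 ∧ 0 ≤ -2 * y - p3) ∨ (0 ≤ -k + 1 ∧ 0 ≤ p3 + y))
    (D21 : (0 ≤ k - 1 ∧ 0 ≤ -y - p3) ∨ (0 ≤ -k ∧ 0 ≤ p3))
    (D25 : (0 ≤ g - 1 ∧ 0 ≤ -y - p4) ∨ (0 ≤ -g ∧ 0 ≤ p4))
    (D26 : (0 ≤ g ∧ 0 ≤ -p4) ∨ (0 ≤ -g - 1 ∧ 0 ≤ p4 - y))
    (D29 : (0 ≤ h - 1 ∧ 0 ≤ -y - p5) ∨ (0 ≤ -h ∧ 0 ≤ p5))
    (D30 : (0 ≤ h ∧ 0 ≤ -p5) ∨ (0 ≤ -h - 1 ∧ 0 ≤ p5 - y))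
    (D32 : 0 ≤ -p5 + m - 2 ∨ 0 ≤ -y + m - 1)
    (D34 : 0 ≤ -h3 - h - 1 ∨ 0 ≤ -k ∨ 0 ≤ -m + 1)
    (D35 : 0 ≤ -h ∨ 0 ≤ -g ∨ 0 ≤ -y - m + 1)
    (D36 : 0 ≤ -b1 - b2 ∨ 0 ≤ -hp - h3 - 1 ∨ 0 ≤ -k ∨ 0 ≤ -n3 + b3 + 1)
    (D37 : 0 ≤ -b1 ∨ 0 ≤ -h3 + 1 ∨ 0 ≤ -n2 + b2 - k + 1 ∨ 0 ≤ -n2 + b2 - n3 + b3 - y + 1)
    (D38 : 0 ≤ -b1 - b2 ∨ 0 ≤ -hp - h3 ∨ 0 ≤ -k + 1 ∨ 0 ≤ -n3 + b3 - y + 1)
    (D39 : 0 ≤ -b1 ∨ 0 ≤ -h3 ∨ 0 ≤ -n2 + b2 - k ∨ 0 ≤ -n2 + b2 - n3 + b3 + 1)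
    (D40 : ((0 ≤ b1 - 1 ∧ 0 ≤ n2 - b2 + n3 - b3 + y - 2) ∨ (0 ≤ b1 - 1 ∧ 0 ≤ -n2 + b2 - n3 + b3 - y + 1 ∧ 0 ≤ n2 - b2 + n3 - b3 + y - 1 ∧ 0 ≤ -p0 + n2 - b2 + n3 - b3 + y - 2) ∨ (0 ≤ b1 - 1 ∧ 0 ≤ -n2 + b2 - n3 + b3 - y + 1 ∧ 0 ≤ n2 - b2 + n3 - b3 + y - 1 ∧ 0 ≤ p0 - n2 + b2 - n3 + b3 - y + 1 ∧ 0 ≤ -p0 + n2 - b2 + n3 - b3 + y - 1 ∧ 0 ≤ -y + n2 - b2 + n3 - b3 - 1)) ∨ ((0 ≤ b1 + b2 - 1 ∧ 0 ≤ n3 - b3 + y - 2) ∨ (0 ≤ b1 + b2 - 1 ∧ 0 ≤ -n3 + b3 - y + 1 ∧ 0 ≤ n3 - b3 + y - 1 ∧ 0 ≤ -y + n3 - b3 - 2) ∨ (0 ≤ b1 + b2 - 1 ∧ 0 ≤ -n3 + b3 - y + 1 ∧ 0 ≤ n3 - b3 + y - 1 ∧ 0 ≤ y - n3 + b3 + 1 ∧ 0 ≤ -y + n3 - b3 - 1 ∧ 0 ≤ -p1 + n3 - b3 + y - 1)) ∨ (0 ≤ y - 2 ∨ (0 ≤ -y + 1 ∧ 0 ≤ y - 1 ∧ 0 ≤ -p4 + y - 2)) ∨ (0 ≤ m - 2 ∨ (0 ≤ -m + 1 ∧ 0 ≤ m - 1 ∧ 0 ≤ -y + m - 2) ∨ (0 ≤ -m + 1 ∧ 0 ≤ m - 1 ∧ 0 ≤ y - m + 1 ∧ 0 ≤ -y + m - 1 ∧ 0 ≤ -p5 +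 m - 1)))
    (D41 : ((0 ≤ b1 - 1 ∧ 0 ≤ -p0 + n2 - b2 + n3 - b3 + y - 2) ∨ (0 ≤ b1 - 1 ∧ 0 ≤ p0 - n2 + b2 - n3 + b3 - y + 1 ∧ 0 ≤ -p0 + n2 - b2 + n3 - b3 + y - 1 ∧ 0 ≤ -y + n2 - b2 + n3 - b3 - 2) ∨ (0 ≤ b1 - 1 ∧ 0 ≤ p0 - n2 + b2 - n3 + b3 - y + 1 ∧ 0 ≤ -p0 + n2 - b2 + n3 - b3 + y - 1 ∧ 0 ≤ y - n2 + b2 - n3 + b3 + 1 ∧ 0 ≤ -y + n2 - b2 + n3 - b3 - 1 ∧ 0 ≤ n2 - b2 + n3 - b3 + y - 1)) ∨ ((0 ≤ b1 + b2 - 1 ∧ 0 ≤ -y + n3 - b3 - 2) ∨ (0 ≤ b1 + b2 - 1 ∧ 0 ≤ y - n3 + b3 + 1 ∧ 0 ≤ -y + n3 - b3 - 1 ∧ 0 ≤ -p1 + n3 - b3 + y - 2) ∨ (0 ≤ b1 + b2 - 1 ∧ 0 ≤ y - n3 + b3 + 1 ∧ 0 ≤ -y + n3 - b3 - 1 ∧ 0 ≤ p1 - n3 + b3 - y + 1 ∧ 0 ≤ -p1 + n3 - b3 + y - 1 ∧ 0 ≤ n3 - b3 + y - 1)) ∨ (0 ≤ -p3 - 2 ∨ (0 ≤ p3 + 1 ∧ 0 ≤ -p3 - 1 ∧ 0 ≤ -p2 - 2)) ∨ (0 ≤ -p4 + y - 2) ∨ (0 ≤ -y + m - 2 ∨ (0 ≤ y - m + 1 ∧ 0 ≤ -y + m - 1 ∧ 0 ≤ -p5 + m - 2) ∨ (0 ≤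 y - m + 1 ∧ 0 ≤ -y + m - 1 ∧ 0 ≤ p5 - m + 1 ∧ 0 ≤ -p5 + m - 1 ∧ 0 ≤ m - 1)))
    (D42 : ((0 ≤ b1 - 1 ∧ 0 ≤ -p0 + n2 - b2 + n3 - b3 + y - 2) ∨ (0 ≤ b1 - 1 ∧ 0 ≤ p0 - n2 + b2 - n3 + b3 - y + 1 ∧ 0 ≤ -p0 + n2 - b2 + n3 - b3 + y - 1 ∧ 0 ≤ n2 - b2 + n3 - b3 + y - 2) ∨ (0 ≤ b1 - 1 ∧ 0 ≤ p0 - n2 + b2 - n3 + b3 - y + 1 ∧ 0 ≤ -p0 + n2 - b2 + n3 - b3 + y - 1 ∧ 0 ≤ -n2 + b2 - n3 + b3 - y + 1 ∧ 0 ≤ n2 - b2 + n3 - b3 + y - 1 ∧ 0 ≤ -y + n2 - b2 + n3 - b3 - 1)) ∨ ((0 ≤ b1 + b2 - 1 ∧ 0 ≤ -y + n3 - b3 - 2) ∨ (0 ≤ b1 + b2 - 1 ∧ 0 ≤ y - n3 + b3 + 1 ∧ 0 ≤ -y + n3 - b3 - 1 ∧ 0 ≤ n3 - b3 + y - 2) ∨ (0 ≤ b1 + b2 - 1 ∧ 0 ≤ y - n3 + b3 + 1 ∧ 0 ≤ -y + n3 - b3 - 1 ∧ 0 ≤ -n3 + b3 - y + 1 ∧ 0 ≤ n3 - b3 + y - 1 ∧ 0 ≤ -p1 + n3 - b3 + y - 1)) ∨ (0 ≤ -p3 - 2) ∨ (0 ≤ -p4 + y - 2 ∨ (0 ≤ p4 - y + 1 ∧ 0 ≤ -p4 + y - 1 ∧ 0 ≤ y - 2)) ∨ (0 ≤ -y + m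 - 2 ∨ (0 ≤ y - m + 1 ∧ 0 ≤ -y + m - 1 ∧ 0 ≤ m - 2) ∨ (0 ≤ y - m + 1 ∧ 0 ≤ -y + m - 1 ∧ 0 ≤ -m + 1 ∧ 0 ≤ m - 1 ∧ 0 ≤ -p5 + m - 1)))
    (D43 : 0 ≤ -n1 - b1 + 2 * a1 - 1 ∨ 0 ≤ n1 + b1 - 2 * a1 - 1 ∨ 0 ≤ n2 - a2 - 2 ∨ 0 ≤ -n2 + a2 ∨ 0 ≤ n3 - a3 - n1 + a1 - 2 ∨ 0 ≤ -n3 + a3 + n1 - a1 ∨ 0 ≤ n2 - b2 - 2 ∨ 0 ≤ -n2 + b2 ∨ 0 ≤ n3 - b3 - 1 ∨ 0 ≤ -b1 ∨ 0 ≤ -n2 + 2 ∨ 0 ≤ 2 * n1 - 2 * a1 - n3 + 2 ∨ 0 ≤ -n1 + a1) : False := by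
  have E0 := D0
  have E2 := D2
  have E3 := D3
  have E5 := D5
  have E7 : 0 ≤ m - y := by
    rcases D7 with H7 | H7
    · exact H7
    · linarith only [B17, H7, B38, B11, B16, B19]
  have E10 := D10
  have E11 := D11
  have E13 := D13
  have E16 := D16
  have E17 := D17
  have E20 := D20
  have E21 : (0 ≤ k - 1 ∧ 0 ≤ -y - p3) := by
    rcases D21 with H21 | H21
    · exact H21
    · linarith only [B41, H21.2]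
  have E25 := D25
  have E26 := D26
  have E29 := D29
  have E30 : (0 ≤ h ∧ 0 ≤ -p5) := by
    rcases D30 with H30 | H30
    · exact H30
    · linarith only [B38, B40, H30.2]
  have E32 : 0 ≤ -p5 + m - 2 := by
    rcases D32 with H32 | H32
    · exact H32
    · linarith only [B38, H32]
  have E34 := D34
  have E35 := D35
  have E36 := D36
  have E37 := D37
  have E38 := D38
  have E39 := D39
  have E40 : (0 ≤ b1 - 1 ∧ 0 ≤ n2 - b2 + n3 - b3 + y - 2) ∨ (0 ≤ b1 - 1 ∧ 0 ≤ -n2 + b2 - n3 + b3 - y + 1 ∧ 0 ≤ n2 - b2 + n3 - b3 + y - 1 ∧ 0 ≤ -p0 + n2 - b2 + n3 - b3 + y - 2) ∨ (0 ≤ b1 + b2 - 1 ∧ 0 ≤ n3 - b3 + y - 2) ∨ 0 ≤ y - 2 ∨ (0 ≤ -y + 1 ∧ 0 ≤ y - 1 ∧ 0 ≤ -p4 + y - 2) ∨ 0 ≤ m - 2 := by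
    rcases D40 with (H40 | H40 | H40) | (H40 | H40 | H40) | (H40 | H40) | (H40 | H40 | H40)
    · exact Or.inl H40
    · exact Or.inr (Or.inl H40)
    · linarith only [H40.2.2.2.2.2, B20, H40.2.1]
    · exact Or.inr (Or.inr (Or.inl H40))
    · linarith only [H40.2.2.2, B20, H40.2.1]
    · linarith only [B20, H40.2.2.2.2.1, H40.2.1]
    · exact Or.inr (Or.inr (Or.inr (Or.inl H40)))
    · exact Or.inr (Or.inr (Or.inr (Or.inr (Or.inl H40))))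
    · exact Or.inr (Or.inr (Or.inr (Or.inr (Or.inr H40))))
    · linarith only [B38, H40.2.2]
    · linarith only [B38, H40.2.2.2.1]
  have E41 : (0 ≤ b1 - 1 ∧ 0 ≤ -p0 + n2 - b2 + n3 - b3 + y - 2) ∨ (0 ≤ b1 - 1 ∧ 0 ≤ p0 - n2 + b2 - n3 + b3 - y + 1 ∧ 0 ≤ -p0 + n2 - b2 + n3 - b3 + y - 1 ∧ 0 ≤ -y + n2 - b2 + n3 - b3 - 2) ∨ (0 ≤ b1 - 1 ∧ 0 ≤ p0 - n2 + b2 - n3 + b3 - y + 1 ∧ 0 ≤ -p0 + n2 - b2 + n3 - b3 + y - 1 ∧ 0 ≤ y - n2 + b2 - n3 + b3 + 1 ∧ 0 ≤ -y + n2 - b2 + n3 - b3 - 1 ∧ 0 ≤ n2 - b2 + n3 - b3 + y - 1) ∨ (0 ≤ b1 + b2 - 1 ∧ 0 ≤ -y + n3 - b3 - 2) ∨ (0 ≤ b1 + b2 - 1 ∧ 0 ≤ y - n3 + b3 + 1 ∧ 0 ≤ -y + n3 - b3 - 1 ∧ 0 ≤ -p1 + n3 - b3 + y - 2) ∨ (0 ≤ b1 + b2 - 1 ∧ 0 ≤ y - n3 + b3 + 1 ∧ 0 ≤ -y + n3 - b3 - 1 ∧ 0 ≤ p1 - n3 + b3 - y + 1 ∧ 0 ≤ -p1 + n3 - b3 + y - 1 ∧ 0 ≤ n3 - b3 + y - 1) ∨ 0 ≤ -p3 - 2 ∨ (0 ≤ p3 + 1 ∧ 0 ≤ -p3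 - 1 ∧ 0 ≤ -p2 - 2) ∨ 0 ≤ -p4 + y - 2 := by
    rcases D41 with (H41 | H41 | H41) | (H41 | H41 | H41) | (H41 | H41) | H41 | (H41 | H41 | H41)
    · exact Or.inl H41
    · exact Or.inr (Or.inl H41)
    · exact Or.inr (Or.inr (Or.inl H41))
    · exact Or.inr (Or.inr (Or.inr (Or.inl H41)))
    · exact Or.inr (Or.inr (Or.inr (Or.inr (Or.inl H41))))
    · exact Or.inr (Or.inr (Or.inr (Or.inr (Or.inr (Or.inl H41)))))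
    · exact Or.inr (Or.inr (Or.inr (Or.inr (Or.inr (Or.inr (Or.inl H41))))))
    · exact Or.inr (Or.inr (Or.inr (Or.inr (Or.inr (Or.inr (Or.inr (Or.inl H41)))))))
    · exact Or.inr (Or.inr (Or.inr (Or.inr (Or.inr (Or.inr (Or.inr (Or.inr H41)))))))
    · linarith only [B38, H41]
    · linarith only [B38, H41.2.1]
    · linarith only [B38, H41.2.1]
  have E42 : (0 ≤ b1 - 1 ∧ 0 ≤ -p0 + n2 - b2 + n3 - b3 + y - 2) ∨ (0 ≤ b1 - 1 ∧ 0 ≤ p0 - n2 + b2 - n3 + b3 - y + 1 ∧ 0 ≤ -p0 + n2 - b2 + n3 - b3 + y - 1 ∧ 0 ≤ n2 - b2 + n3 - b3 + y - 2) ∨ (0 ≤ b1 + b2 - 1 ∧ 0 ≤ -y + n3 - b3 - 2) ∨ (0 ≤ b1 + b2 - 1 ∧ 0 ≤ y - n3 + b3 + 1 ∧ 0 ≤ -y + n3 - b3 - 1 ∧ 0 ≤ n3 - b3 + y - 2) ∨ 0 ≤ -p3 - 2 ∨ 0 ≤ -p4 + y - 2 ∨ (0 ≤ p4 - y + 1 ∧ 0 ≤ -p4 + y - 1 ∧ 0 ≤ y - 2) := by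
    rcases D42 with (H42 | H42 | H42) | (H42 | H42 | H42) | H42 | (H42 | H42) | (H42 | H42 | H42)
    · exact Or.inl H42
    · exact Or.inr (Or.inl H42)
    · linarith only [H42.2.2.2.2.2, B20, H42.2.2.2.1]
    · exact Or.inr (Or.inr (Or.inl H42))
    · exact Or.inr (Or.inr (Or.inr (Or.inl H42)))
    · linarith only [B20, H42.2.2.1, H42.2.2.2.1]
    · exact Or.inr (Or.inr (Or.inr (Or.inr (Or.inl H42))))
    · exact Or.inr (Or.inr (Or.inr (Or.inr (Or.inr (Or.inl H42)))))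
    · exact Or.inr (Or.inr (Or.inr (Or.inr (Or.inr (Or.inr H42)))))
    · linarith only [B38, H42]
    · linarith only [B38, H42.2.1]
    · linarith only [B38, H42.2.1]
  have E43 := D43
  have H32 := E32
  have H30 := E30
  have H7 := E7
  have H21 := E21
  rcases E26 with H26 | H26
  · rcases E11 with H11 | H11
    · rcases E17 with H17 | H17
      · rcases E34 with H34 | H34 | H34
        · linarith only [H17.1, H34, H30.1]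
        · linarith only [H21.1, H34]
        · rcases E29 with H29 | H29
          · rcases E35 with H35 | H35 | H35
            · linarith only [H35, H29.1]
            · rcases E5 with H5 | H5
              · rcases E10 with H10 | H10
                · linarith only [H10.1, B23, B15, B27, B22, H35, H5]
                · rcases E25 with H25 | H25
                  · linarith only [H25.1, H35]
                  · rcases E39 with H39 | H39 | H39 | H39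
                    · rcases E0 with H0 | H0
                      · rcases E40 with H40 | H40 | H40 | H40 | H40 | H40
                        · linarith only [H40.1, H39]
                        · linarith only [H40.2.2.2, H40.2.1, H10.2, B20]
                        · rcases E2 with H2 | H2
                          · rcases E38 with H38 | H38 | H38 | H38
                            · linarith only [B12, H2, B29, H38]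
                            · linarith only [H2, B23, B30, B22, H38, H17.1]
                            · rcases E13 with H13 | H13
                              · rcases E20 with H20 | H20
                                · linarith only [H38, H20.1]
                                · rcases E36 with H36 | H36 | H36 | H36
                                  · linarith only [H13.1, B3, B29, H36]
                                  · linarith only [H13.1, H36, H17.1]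
                                  · linarith only [H36, H21.1]
                                  · exact g17_l0 B20 E42 H7 H20 H25 H34 H36 H39
                              · linarith only [H2, B23, B30, B22, H17.1, H13.1]
                            · linarith only [H40.2, H38]
                          · rcases E38 with H38 | H38 | H38 | H38
                            · linarith only [H40.1, H38]
                            · linarith only [B37, H0.2, H2, H38, H10.1, H17.1, H29.1]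
                            · rcases E36 with H36 | H36 | H36 | H36
                              · linarith only [H40.1, H36]
                              · linarith only [B37, H29.1, H0.2, H2, H17.1, H36, H10.1]
                              · linarith only [H36, H21.1]
                              · rcases E20 with H20 | H20
                                · linarith only [H20.1, H38]
                                · exact g17_l0 B20 E42 H7 H20 H25 H34 H36 H39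
                            · linarith only [H40.2, H38]
                        · linarith only [H40, H7, H34]
                        · linarith only [H40.2.2, H40.1, H25.2]
                        · linarith only [H40, H34]
                      · linarith only [H0.1, H39]
                    · linarith only [H17.1, H39]
                    · linarith only [H11.1, H21.1, H39]
                    · rcases E40 with H40 | H40 | H40 | H40 | H40 | H40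
                      · rcases E37 with H37 | H37 | H37 | H37
                        · linarith only [H40.1, H37]
                        · rcases E3 with H3 | H3
                          · rcases E43 with H43 | H43 | H43 | H43 | H43 | H43 | H43 | H43 | H43 | H43 | H43 | H43 | H43
                            · linarith only [H43, B21, B30, H17.1, B25]
                            · linarith only [H43, H37, B22, B23, H3]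
                            · linarith only [H35, H43, H5]
                            · linarith only [H26.1, B34, H43]
                            · linarith only [B18, H39, H11.1, B15, B30, B27, H17.1, H43, H7, H34]
                            · linarith only [B19, B17, H37, B11, B16, H43, H3, B20]
                            · linarith only [H43, H10.1]
                            · linarith only [H11.1, H43]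
                            · linarith only [H11.1, H43, H39]
                            · linarith only [H40.1, H43]
                            · linarith only [B37, B34, H43, H29.1, H26.1]
                            · rcases E16 with H16 | H16
                              · linarith only [H16.1, H37]
                              · rcases E20 with H20 | H20
                                · linarith only [H43, H20.1, B19, B17, B11, H37, B16, B33, H3, B20]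
                                · rcases E41 with H41 | H41 | H41 | H41 | H41 | H41 | H41 | H41 | H41
                                  · linarith only [H41.2, H39, H10.2]
                                  · linarith only [H41.2.2.2, H39, B20]
                                  · linarith only [B20, H41.2.2.2.2.1, H39]
                                  · linarith only [H41.2, H39, B20, H11.1]
                                  · linarith only [H41.2.2.1, H11.1, B20, H39]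
                                  · linarith only [H41.2.2.1, H11.1, B20, H39]
                                  · linarith only [H20.2, H41, H7, H34]
                                  · linarith only [H16.2, H41.2.2, H7, H34]
                                  · linarith only [H25.2, H41, H7, H34]
                            · linarith only [B30, H17.1, H43]
                          · linarith only [B33, B37, H21.1, H29.1, H3, H37]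
                        · linarith only [H11.1, H37, H21.1]
                        · linarith only [H40.2, H37]
                      · linarith only [H40.2.2.2, H40.2.1, H10.2, B20]
                      · linarith only [H40.2, H39, H11.1, H7, H34]
                      · linarith only [H40, H7, H34]
                      · linarith only [H40.2.2, H40.1, H25.2]
                      · linarith only [H40, H34]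
              · linarith only [B33, H5, H21.1, H35, B20]
            · linarith only [B20, H35, H7]
          · linarith only [H29.2, H32, H34]
      · rcases E3 with H3 | H3
        · rcases E34 with H34 | H34 | H34
          · linarith only [H3, B6, H34, H30.1]
          · linarith only [H21.1, H34]
          · rcases E29 with H29 | H29
            · linarith only [H29.1, B36, H17.1, H3]
            · linarith only [H29.2, H32, H34]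
        · linarith only [H30.1, B33, H3, B37, H21.1, H17.1]
    · linarith only [H11.1, B16, B17, B21, H26.1, B34, B25]
  · rcases E5 with H5 | H5
    · rcases E0 with H0 | H0
      · linarith only [H26.1, H0.2, H5]
      · linarith only [H26.1, B23, H0.2, B27, B15, B22, H5]
    · linarith only [B33, B20, H5, H21.1, H26.1]

theorem g18 {a1 a2 a3 b1 b2 b3 e g h m n3 p4 p5 y : ℤ}
    (B11 : 0 ≤ n3 - b3)
    (B16 : 0 ≤ a1 + a2 - b1 - b2 - e)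
    (B17 : 0 ≤ e - 1)
    (B19 : 0 ≤ -a1 - a2 - a3 + b1 + b2 + b3 - y)
    (B20 : 0 ≤ y - 1)
    (B38 : 0 ≤ y - m)
    (B40 : 0 ≤ -p5 + m - 1)
    (B42 : 0 ≤ -p4 + y - 2)
    (D7 : 0 ≤ m - y ∨ 0 ≤ m - n3 + a3)
    (D25 : (0 ≤ g - 1 ∧ 0 ≤ -y - p4) ∨ (0 ≤ -g ∧ 0 ≤ p4))
    (D26 : (0 ≤ g ∧ 0 ≤ -p4) ∨ (0 ≤ -g - 1 ∧ 0 ≤ p4 - y))
    (D29 : (0 ≤ h - 1 ∧ 0 ≤ -y - p5) ∨ (0 ≤ -h ∧ 0 ≤ p5))
    (D30 : (0 ≤ h ∧ 0 ≤ -p5) ∨ (0 ≤ -h - 1 ∧ 0 ≤ p5 - y))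
    (D32 : 0 ≤ -p5 + m - 2 ∨ 0 ≤ -y + m - 1)
    (D33 : 0 ≤ -h - 1 ∨ 0 ≤ -g - 1 ∨ 0 ≤ -m + 1)
    (D34 : 0 ≤ -h ∨ 0 ≤ -g ∨ 0 ≤ -y - m + 1) : False := by
  have E7 : 0 ≤ m - y := by
    rcases D7 with H7 | H7
    · exact H7
    · linarith only [B17, H7, B38, B11, B16, B19]
  have E25 := D25
  have E26 : (0 ≤ g ∧ 0 ≤ -p4) := by
    rcases D26 with H26 | H26
    · exact H26
    · linarith only [B42, H26.2]
  have E29 := D29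
  have E30 : (0 ≤ h ∧ 0 ≤ -p5) := by
    rcases D30 with H30 | H30
    · exact H30
    · linarith only [B38, B40, H30.2]
  have E32 : 0 ≤ -p5 + m - 2 := by
    rcases D32 with H32 | H32
    · exact H32
    · linarith only [B38, H32]
  have E33 := D33
  have E34 := D34
  have H32 := E32
  have H30 := E30
  have H26 := E26
  rcases E33 with H33 | H33 | H33
  · linarith only [H33, H30.1]
  · linarith only [H26.1, H33]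
  · rcases E29 with H29 | H29
    · have H7 := E7
      rcases E34 with H34 | H34 | H34
      · linarith only [H29.1, H34]
      · rcases E25 with H25 | H25
        · linarith only [H25.1, H34]
        · linarith only [H25.2, B42, H7, H33]
      · linarith only [B20, H34, H7]
    · linarith only [H29.2, H32, H33]

theorem g19 {m y : ℤ}
    (B38 : 0 ≤ y - m)
    (B41 : 0 ≤ -y + m - 1) : False := by
  linarith only [B38, B41]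

theorem los11 {n1 n2 n3 a1 a2 a3 b1 b2 b3 e y d1 : ℤ}
    (B0 : 0 ≤ a1)
    (B1 : 0 ≤ a2)
    (B2 : 0 ≤ a3)
    (B3 : 0 ≤ b1)
    (B4 : 0 ≤ b2)
    (B5 : 0 ≤ b3)
    (B6 : 0 ≤ n1 - a1)
    (B7 : 0 ≤ n2 - a2)
    (B8 : 0 ≤ n3 - a3)
    (B9 : 0 ≤ n1 - b1)
    (B10 : 0 ≤ n2 - b2)
    (B11 : 0 ≤ n3 - b3)
    (B12 : 0 ≤ n1 - 1)
    (B13 : 0 ≤ n2 - 1)
    (B14 : 0 ≤ n3 - 1)
    (B15 : 0 ≤ e - a1 - a2 + b1 + b2)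
    (B16 : 0 ≤ a1 + a2 - b1 - b2 - e)
    (B17 : 0 ≤ e - 1)
    (B18 : 0 ≤ y + a1 + a2 + a3 - b1 - b2 - b3)
    (B19 : 0 ≤ -a1 - a2 - a3 + b1 + b2 + b3 - y)
    (B20 : 0 ≤ y - 1)
    (B21 : 0 ≤ d1 - a1 + b1)
    (B22 : 0 ≤ a1 - b1 - d1)
    (B23 : 0 ≤ d1 - 1)
    (B24 : 0 ≤ d1 - 1)
    (B25 : 0 ≤ -d1 + 1)
    (B26 : 0 ≤ e - 1)
    (B27 : 0 ≤ -e + 1)
    (hex : 0 ≤ b1 - 1) :
    LosC n1 n2 n3 a1 a2 a3 b1 b2 b3 (2) (-n2 + b2 + 2) (-n2 + b2 - n3 + b3 - y + 1) := by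
  unfold LosC
  refine ⟨?_, ?_, ?_, ?_, ?_, ?_, ?_, ?_⟩ <;> omega

theorem los22 {n1 n2 n3 a1 a2 a3 b1 b2 b3 e y d1 hp : ℤ}
    (B0 : 0 ≤ a1)
    (B1 : 0 ≤ a2)
    (B2 : 0 ≤ a3)
    (B3 : 0 ≤ b1)
    (B4 : 0 ≤ b2)
    (B5 : 0 ≤ b3)
    (B6 : 0 ≤ n1 - a1)
    (B7 : 0 ≤ n2 - a2)
    (B8 : 0 ≤ n3 - a3)
    (B9 : 0 ≤ n1 - b1)
    (B10 : 0 ≤ n2 - b2)
    (B11 : 0 ≤ n3 - b3)
    (B12 : 0 ≤ n1 - 1)
    (B13 : 0 ≤ n2 - 1)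
    (B14 : 0 ≤ n3 - 1)
    (B15 : 0 ≤ e - a1 - a2 + b1 + b2)
    (B16 : 0 ≤ a1 + a2 - b1 - b2 - e)
    (B17 : 0 ≤ e - 1)
    (B18 : 0 ≤ y + a1 + a2 + a3 - b1 - b2 - b3)
    (B19 : 0 ≤ -a1 - a2 - a3 + b1 + b2 + b3 - y)
    (B20 : 0 ≤ y - 1)
    (B21 : 0 ≤ d1 - a1 + b1)
    (B22 : 0 ≤ a1 - b1 - d1)
    (B23 : 0 ≤ d1 - 1)
    (B24 : 0 ≤ d1 - 1)
    (B25 : 0 ≤ -d1 + 1)
    (B26 : 0 ≤ e - 1)
    (B27 : 0 ≤ -e + 1)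
    (B28 : 0 ≤ n1 - b1 - hp)
    (B29 : 0 ≤ b2 - hp - 1)
    (C_Dhp : 0 ≤ hp - n1 + b1 ∨ 0 ≤ hp - b2 + 1)
    (hex : 0 ≤ b1 + b2 - 1) :
    LosC n1 n2 n3 a1 a2 a3 b1 b2 b3 (-hp + 1) (2) (-n3 + b3 - y + 1) := by
  unfold LosC
  refine ⟨?_, ?_, ?_, ?_, ?_, ?_, ?_, ?_⟩ <;> omega

theorem los33 {n1 n2 n3 a1 a2 a3 b1 b2 b3 e y d1 h3 k : ℤ}
    (B0 : 0 ≤ a1)
    (B1 : 0 ≤ a2)
    (B2 : 0 ≤ a3)
    (B3 : 0 ≤ b1)
    (B4 : 0 ≤ b2)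
    (B5 : 0 ≤ b3)
    (B6 : 0 ≤ n1 - a1)
    (B7 : 0 ≤ n2 - a2)
    (B8 : 0 ≤ n3 - a3)
    (B9 : 0 ≤ n1 - b1)
    (B10 : 0 ≤ n2 - b2)
    (B11 : 0 ≤ n3 - b3)
    (B12 : 0 ≤ n1 - 1)
    (B13 : 0 ≤ n2 - 1)
    (B14 : 0 ≤ n3 - 1)
    (B15 : 0 ≤ e - a1 - a2 + b1 + b2)
    (B16 : 0 ≤ a1 + a2 - b1 - b2 - e)
    (B17 : 0 ≤ e - 1)
    (B18 : 0 ≤ y + a1 + a2 + a3 - b1 - b2 - b3)
    (B19 : 0 ≤ -a1 - a2 - a3 + b1 + b2 + b3 - y)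
    (B20 : 0 ≤ y - 1)
    (B21 : 0 ≤ d1 - a1 + b1)
    (B22 : 0 ≤ a1 - b1 - d1)
    (B23 : 0 ≤ d1 - 1)
    (B24 : 0 ≤ d1 - 1)
    (B25 : 0 ≤ -d1 + 1)
    (B26 : 0 ≤ e - 1)
    (B27 : 0 ≤ -e + 1)
    (B30 : 0 ≤ n1 - a1 - h3)
    (B31 : 0 ≤ a2 + a3 - h3 - 1)
    (B32 : 0 ≤ n1 - a1 + n2 - a2 - k)
    (B33 : 0 ≤ a3 - k - 1)
    (C_Dh3 : 0 ≤ h3 - n1 + a1 ∨ 0 ≤ h3 - a2 - a3 + 1)
    (C_Dk : 0 ≤ k - n1 + a1 - n2 + a2 ∨ 0 ≤ k - a3 + 1) :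
    LosC n1 n2 n3 a1 a2 a3 b1 b2 b3 (-h3) (-k) (1) := by
  unfold LosC
  refine ⟨?_, ?_, ?_, ?_, ?_, ?_, ?_, ?_⟩ <;> omega

theorem los13 {n1 n2 n3 a1 a2 a3 b1 b2 b3 e y d1 g : ℤ}
    (B0 : 0 ≤ a1)
    (B1 : 0 ≤ a2)
    (B2 : 0 ≤ a3)
    (B3 : 0 ≤ b1)
    (B4 : 0 ≤ b2)
    (B5 : 0 ≤ b3)
    (B6 : 0 ≤ n1 - a1)
    (B7 : 0 ≤ n2 - a2)
    (B8 : 0 ≤ n3 - a3)
    (B9 : 0 ≤ n1 - b1)
    (B10 : 0 ≤ n2 - b2)
    (B11 : 0 ≤ n3 - b3)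
    (B12 : 0 ≤ n1 - 1)
    (B13 : 0 ≤ n2 - 1)
    (B14 : 0 ≤ n3 - 1)
    (B15 : 0 ≤ e - a1 - a2 + b1 + b2)
    (B16 : 0 ≤ a1 + a2 - b1 - b2 - e)
    (B17 : 0 ≤ e - 1)
    (B18 : 0 ≤ y + a1 + a2 + a3 - b1 - b2 - b3)
    (B19 : 0 ≤ -a1 - a2 - a3 + b1 + b2 + b3 - y)
    (B20 : 0 ≤ y - 1)
    (B21 : 0 ≤ d1 - a1 + b1)
    (B22 : 0 ≤ a1 - b1 - d1)
    (B23 : 0 ≤ d1 - 1)
    (B24 : 0 ≤ d1 - 1)
    (B25 : 0 ≤ -d1 + 1)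
    (B26 : 0 ≤ e - 1)
    (B27 : 0 ≤ -e + 1)
    (B34 : 0 ≤ n2 - a2 - g - 1)
    (B35 : 0 ≤ a3 + y - g - 1)
    (C_Dg : 0 ≤ g - n2 + a2 + 1 ∨ 0 ≤ g - a3 - y + 1) :
    LosC n1 n2 n3 a1 a2 a3 b1 b2 b3 (1) (-g) (-y + 1) := by
  unfold LosC
  refine ⟨?_, ?_, ?_, ?_, ?_, ?_, ?_, ?_⟩ <;> omega

theorem los23 {n1 n2 n3 a1 a2 a3 b1 b2 b3 e y d1 h m : ℤ}
    (B0 : 0 ≤ a1)
    (B1 : 0 ≤ a2)
    (B2 : 0 ≤ a3)
    (B3 : 0 ≤ b1)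
    (B4 : 0 ≤ b2)
    (B5 : 0 ≤ b3)
    (B6 : 0 ≤ n1 - a1)
    (B7 : 0 ≤ n2 - a2)
    (B8 : 0 ≤ n3 - a3)
    (B9 : 0 ≤ n1 - b1)
    (B10 : 0 ≤ n2 - b2)
    (B11 : 0 ≤ n3 - b3)
    (B12 : 0 ≤ n1 - 1)
    (B13 : 0 ≤ n2 - 1)
    (B14 : 0 ≤ n3 - 1)
    (B15 : 0 ≤ e - a1 - a2 + b1 + b2)
    (B16 : 0 ≤ a1 + a2 - b1 - b2 - e)
    (B17 : 0 ≤ e - 1)
    (B18 : 0 ≤ y + a1 + a2 + a3 - b1 - b2 - b3)
    (B19 : 0 ≤ -a1 - a2 - a3 + b1 + b2 + b3 - y)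
    (B20 : 0 ≤ y - 1)
    (B21 : 0 ≤ d1 - a1 + b1)
    (B22 : 0 ≤ a1 - b1 - d1)
    (B23 : 0 ≤ d1 - 1)
    (B24 : 0 ≤ d1 - 1)
    (B25 : 0 ≤ -d1 + 1)
    (B26 : 0 ≤ e - 1)
    (B27 : 0 ≤ -e + 1)
    (B36 : 0 ≤ n1 - a1 - h)
    (B37 : 0 ≤ a2 - h - 1)
    (B38 : 0 ≤ y - m)
    (B39 : 0 ≤ n3 - a3 - m)
    (C_Dh : 0 ≤ h - n1 + a1 ∨ 0 ≤ h - a2 + 1)
    (C_Dm : 0 ≤ m - y ∨ 0 ≤ m - n3 + a3) :
    LosC n1 n2 n3 a1 a2 a3 b1 b2 b3 (-h) (1) (-m + 1) := by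
  unfold LosC
  refine ⟨?_, ?_, ?_, ?_, ?_, ?_, ?_, ?_⟩ <;> omega

theorem hd {n1 n2 n3 a1 a2 a3 b1 b2 b3 e y d1 hp h3 k g h m : ℤ}
    (B0 : 0 ≤ a1)
    (B1 : 0 ≤ a2)
    (B2 : 0 ≤ a3)
    (B3 : 0 ≤ b1)
    (B4 : 0 ≤ b2)
    (B5 : 0 ≤ b3)
    (B6 : 0 ≤ n1 - a1)
    (B7 : 0 ≤ n2 - a2)
    (B8 : 0 ≤ n3 - a3)
    (B9 : 0 ≤ n1 - b1)
    (B10 : 0 ≤ n2 - b2)
    (B11 : 0 ≤ n3 - b3)
    (B12 : 0 ≤ n1 - 1)
    (B13 : 0 ≤ n2 - 1)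
    (B14 : 0 ≤ n3 - 1)
    (B15 : 0 ≤ e - a1 - a2 + b1 + b2)
    (B16 : 0 ≤ a1 + a2 - b1 - b2 - e)
    (B17 : 0 ≤ e - 1)
    (B18 : 0 ≤ y + a1 + a2 + a3 - b1 - b2 - b3)
    (B19 : 0 ≤ -a1 - a2 - a3 + b1 + b2 + b3 - y)
    (B20 : 0 ≤ y - 1)
    (B21 : 0 ≤ d1 - a1 + b1)
    (B22 : 0 ≤ a1 - b1 - d1)
    (B23 : 0 ≤ d1 - 1)
    (B24 : 0 ≤ d1 - 1)
    (B25 : 0 ≤ -d1 + 1)
    (B26 : 0 ≤ e - 1)
    (B27 : 0 ≤ -e + 1)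
    (B28 : 0 ≤ n1 - b1 - hp)
    (B29 : 0 ≤ b2 - hp - 1)
    (B30 : 0 ≤ n1 - a1 - h3)
    (B31 : 0 ≤ a2 + a3 - h3 - 1)
    (B32 : 0 ≤ n1 - a1 + n2 - a2 - k)
    (B33 : 0 ≤ a3 - k - 1)
    (B34 : 0 ≤ n2 - a2 - g - 1)
    (B35 : 0 ≤ a3 + y - g - 1)
    (B36 : 0 ≤ n1 - a1 - h)
    (B37 : 0 ≤ a2 - h - 1)
    (B38 : 0 ≤ y - m)
    (B39 : 0 ≤ n3 - a3 - m)
    (C_Dhp : 0 ≤ hp - n1 + b1 ∨ 0 ≤ hp - b2 + 1)
    (C_Dh3 : 0 ≤ h3 - n1 + a1 ∨ 0 ≤ h3 - a2 - a3 + 1)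
    (C_Dk : 0 ≤ k - n1 + a1 - n2 + a2 ∨ 0 ≤ k - a3 + 1)
    (C_Dg : 0 ≤ g - n2 + a2 + 1 ∨ 0 ≤ g - a3 - y + 1)
    (C_Dh : 0 ≤ h - n1 + a1 ∨ 0 ≤ h - a2 + 1)
    (C_Dm : 0 ≤ m - y ∨ 0 ≤ m - n3 + a3) :
    ∀ c1 c2 c3, LosC n1 n2 n3 a1 a2 a3 b1 b2 b3 c1 c2 c3 →
      ∃ v ∈ ([⟨0 ≤ b1 - 1, 2, -n2 + b2 + 2, -n2 + b2 - n3 + b3 - y + 1⟩, ⟨0 ≤ b1 + b2 - 1, -hp + 1, 2, -n3 + b3 - y + 1⟩, ⟨True, -h3, -k, 1⟩, ⟨True, 1, -g, -y + 1⟩, ⟨True, -h, 1, -m + 1⟩] : List LV), v.ex ∧ v.c1 ≤ c1 ∧ v.c2 ≤ c2 ∧ v.c3 ≤ c3 := by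
  intro c1 c2 c3 hc
  obtain ⟨q1, q2, q3, q4, q5, q6, qa, qb⟩ := hc
  rcases qb with qb | qb | qb
  · clear qa
    clear C_Dhp C_Dh3 C_Dk C_Dg C_Dh C_Dm
    refine ⟨_, List.Mem.head _, ?_, ?_, ?_, ?_⟩
    · show 0 ≤ b1 - 1; omega
    · show 2 ≤ c1; omega
    · show -n2 + b2 + 2 ≤ c2; omega
    · show -n2 + b2 - n3 + b3 - y + 1 ≤ c3; omega
  · clear qa
    clear C_Dh3 C_Dk C_Dg C_Dh C_Dm
    refine ⟨_, List.Mem.tail _ (List.Mem.head _), ?_, ?_, ?_, ?_⟩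
    · show 0 ≤ b1 + b2 - 1; omega
    · show -hp + 1 ≤ c1; omega
    · show 2 ≤ c2; omega
    · show -n3 + b3 - y + 1 ≤ c3; omega
  · rcases qa with qa | qa | qa
    · clear C_Dhp C_Dh3 C_Dk C_Dh C_Dm
      refine ⟨_, List.Mem.tail _ (List.Mem.tail _ (List.Mem.tail _ (List.Mem.head _))), ?_, ?_, ?_, ?_⟩
      · trivial
      · show 1 ≤ c1; omega
      · show -g ≤ c2; omega
      · show -y + 1 ≤ c3; omega
    · clear C_Dhp C_Dh3 C_Dk C_Dg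
      refine ⟨_, List.Mem.tail _ (List.Mem.tail _ (List.Mem.tail _ (List.Mem.tail _ (List.Mem.head _)))), ?_, ?_, ?_, ?_⟩
      · trivial
      · show -h ≤ c1; omega
      · show 1 ≤ c2; omega
      · show -m + 1 ≤ c3; omega
    · clear C_Dhp C_Dg C_Dh C_Dm
      refine ⟨_, List.Mem.tail _ (List.Mem.tail _ (List.Mem.head _)), ?_, ?_, ?_, ?_⟩
      · trivial
      · show -h3 ≤ c1; omega
      · show -k ≤ c2; omega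
      · show 1 ≤ c3; omega

theorem cvF_V2_V3_11 {b1 b2 b3 n2 n3 p0 y : ℤ}
    (ep0 : p0 = (y) * (-n2 + b2 + 2))
    (hex : 0 ≤ b1 - 1)
    (hf : LexFail ((y) * (2) + (0) * (-n2 + b2 + 2) + (1) * (-n2 + b2 - n3 + b3 - y + 1))
      ((0) * (2) + (y) * (-n2 + b2 + 2) + (1) * (-n2 + b2 - n3 + b3 - y + 1))
      ((0) * (2) + (0) * (-n2 + b2 + 2) + (0) * (-n2 + b2 - n3 + b3 - y + 1))) :
    0 ≤ b1 - 1 ∧ 0 ≤ -y + n2 - b2 + n3 - b3 - 1 ∧ (0 ≤ -y + n2 - b2 + n3 - b3 - 2 ∨ 0 ≤ -p0 + n2 - b2 + n3 - b3 + y - 1) := by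
  rcases hf with hf | ⟨hf0, hf⟩ | ⟨hf0, hf1, hf⟩
  · exact ⟨by linarith only [hex], by linarith only [hf], Or.inl (by linarith only [hf])⟩
  · exact ⟨by linarith only [hex], by linarith only [hf0], Or.inr (by linarith only [hf, ep0])⟩
  · exact ⟨by linarith only [hex], by linarith only [hf0], Or.inr (by linarith only [hf1, ep0])⟩

theorem cvF_V2_V3_22 {b1 b2 b3 hp n3 p1 y : ℤ}
    (ep1 : p1 = (y) * (-hp + 1))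
    (hex : 0 ≤ b1 + b2 - 1)
    (hf : LexFail ((y) * (-hp + 1) + (0) * (2) + (1) * (-n3 + b3 - y + 1))
      ((0) * (-hp + 1) + (y) * (2) + (1) * (-n3 + b3 - y + 1))
      ((0) * (-hp + 1) + (0) * (2) + (0) * (-n3 + b3 - y + 1))) :
    0 ≤ b1 + b2 - 1 ∧ 0 ≤ -p1 + n3 - b3 + y - 1 ∧ (0 ≤ -p1 + n3 - b3 + y - 2 ∨ 0 ≤ -y + n3 - b3 - 1) := by
  rcases hf with hf | ⟨hf0, hf⟩ | ⟨hf0, hf1, hf⟩
  · exact ⟨by linarith only [hex], by linarith only [hf, ep1], Or.inl (by linarith only [hf, ep1])⟩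
  · exact ⟨by linarith only [hex], by linarith only [hf0, ep1], Or.inr (by linarith only [hf])⟩
  · exact ⟨by linarith only [hex], by linarith only [hf0, ep1], Or.inr (by linarith only [hf1])⟩

theorem cvF_V2_V3_33 {h3 k p2 p3 y : ℤ}
    (ep2 : p2 = (y) * (-h3))
    (ep3 : p3 = (y) * (-k))
    (hf : LexFail ((y) * (-h3) + (0) * (-k) + (1) * (1))
      ((0) * (-h3) + (y) * (-k) + (1) * (1))
      ((0) * (-h3) + (0) * (-k) + (0) * (1))) :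
    0 ≤ -p2 - 1 ∧ (0 ≤ -p2 - 2 ∨ 0 ≤ -p3 - 1) := by
  rcases hf with hf | ⟨hf0, hf⟩ | ⟨hf0, hf1, hf⟩
  · exact ⟨by linarith only [hf, ep2], Or.inl (by linarith only [hf, ep2])⟩
  · exact ⟨by linarith only [hf0, ep2], Or.inr (by linarith only [hf, ep3])⟩
  · exact ⟨by linarith only [hf0, ep2], Or.inr (by linarith only [hf1, ep3])⟩

theorem cvF_V2_V3_13 {g p4 y : ℤ}
    (ep4 : p4 = (y) * (-g))
    (hf : LexFail ((y) * (1) + (0) * (-g) + (1) * (-y + 1))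
      ((0) * (1) + (y) * (-g) + (1) * (-y + 1))
      ((0) * (1) + (0) * (-g) + (0) * (-y + 1))) :
    False := by
  rcases hf with hf | ⟨hf0, hf⟩ | ⟨hf0, hf1, hf⟩
  · exfalso; linarith only [hf]
  · exfalso; linarith only [hf0]
  · exfalso; linarith only [hf0]

theorem cvF_V2_V3_23 {h m p5 y : ℤ}
    (ep5 : p5 = (y) * (-h))
    (hf : LexFail ((y) * (-h) + (0) * (1) + (1) * (-m + 1))
      ((0) * (-h) + (y) * (1) + (1) * (-m + 1))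
      ((0) * (-h) + (0) * (1) + (0) * (-m + 1))) :
    0 ≤ -p5 + m - 1 ∧ (0 ≤ -p5 + m - 2 ∨ 0 ≤ -y + m - 1) := by
  rcases hf with hf | ⟨hf0, hf⟩ | ⟨hf0, hf1, hf⟩
  · exact ⟨by linarith only [hf, ep5], Or.inl (by linarith only [hf, ep5])⟩
  · exact ⟨by linarith only [hf0, ep5], Or.inr (by linarith only [hf])⟩
  · exact ⟨by linarith only [hf0, ep5], Or.inr (by linarith only [hf1])⟩

theorem FAt {n1 n2 n3 a1 a2 a3 b1 b2 b3 e y d1 hp h3 k g h m p0 p1 p2 p3 p4 p5 : ℤ}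
    (B15 : 0 ≤ e - a1 - a2 + b1 + b2)
    (B16 : 0 ≤ a1 + a2 - b1 - b2 - e)
    (B17 : 0 ≤ e - 1)
    (B18 : 0 ≤ y + a1 + a2 + a3 - b1 - b2 - b3)
    (B19 : 0 ≤ -a1 - a2 - a3 + b1 + b2 + b3 - y)
    (B20 : 0 ≤ y - 1)
    (B21 : 0 ≤ d1 - a1 + b1)
    (B22 : 0 ≤ a1 - b1 - d1)
    (B23 : 0 ≤ d1 - 1)
    (B24 : 0 ≤ d1 - 1)
    (B25 : 0 ≤ -d1 + 1)
    (B26 : 0 ≤ e - 1)
    (B27 : 0 ≤ -e + 1)
    (ep0 : p0 = (y) * (-n2 + b2 + 2))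
    (ep1 : p1 = (y) * (-hp + 1))
    (ep2 : p2 = (y) * (-h3))
    (ep3 : p3 = (y) * (-k))
    (ep4 : p4 = (y) * (-g))
    (ep5 : p5 = (y) * (-h))
    (w1 : a1 - b1 = 1) (w2 : a1 + a2 - b1 - b2 = 1) (w3 : a1 + a2 + a3 - b1 - b2 - b3 = -y)
    (hno : ¬ ∃ u1 u2 u3 : ℤ, Good n1 n2 n3 a1 a2 a3 b1 b2 b3 u1 u2 u3)
    (hd : ∀ c1 c2 c3, LosC n1 n2 n3 a1 a2 a3 b1 b2 b3 c1 c2 c3 →
      ∃ v ∈ ([⟨0 ≤ b1 - 1, 2, -n2 + b2 + 2, -n2 + b2 - n3 + b3 - y + 1⟩, ⟨0 ≤ b1 + b2 - 1, -hp + 1, 2, -n3 + b3 - y + 1⟩, ⟨True, -h3, -k, 1⟩, ⟨True, 1, -g, -y + 1⟩, ⟨True, -h, 1, -m + 1⟩] : List LV), v.ex ∧ v.c1 ≤ c1 ∧ v.c2 ≤ c2 ∧ v.c3 ≤ c3) :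
    (0 ≤ b1 - 1 ∧ 0 ≤ -y + n2 - b2 + n3 - b3 - 1 ∧ (0 ≤ -y + n2 - b2 + n3 - b3 - 2 ∨ 0 ≤ -p0 + n2 - b2 + n3 - b3 + y - 1)) ∨ (0 ≤ b1 + b2 - 1 ∧ 0 ≤ -p1 + n3 - b3 + y - 1 ∧ (0 ≤ -p1 + n3 - b3 + y - 2 ∨ 0 ≤ -y + n3 - b3 - 1)) ∨ (0 ≤ -p2 - 1 ∧ (0 ≤ -p2 - 2 ∨ 0 ≤ -p3 - 1)) ∨ (0 ≤ -p5 + m - 1 ∧ (0 ≤ -p5 + m - 2 ∨ 0 ≤ -y + m - 1)) := by
  obtain ⟨v, hv, hex, hf⟩ := failA' w1 w2 w3 hno _ hd (y) (0) (1) (0) (y) (1) (0) (0) (0)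
    ⟨by linarith only [B15, B16, B17, B18, B19, B20, B21, B22, B23, B24, B25, B26, B27], le_refl 0, zero_le_one⟩ ⟨le_refl 0, by linarith only [B15, B16, B17, B18, B19, B20, B21, B22, B23, B24, B25, B26, B27], zero_le_one⟩ ⟨le_refl 0, le_refl 0, le_refl 0⟩
    (Or.inr ⟨by ring, Or.inr ⟨by ring, by linarith only [B15, B16, B17, B18, B19, B20, B21, B22, B23, B24, B25, B26, B27]⟩⟩)
  simp only [List.mem_cons, List.not_mem_nil, or_false] at hv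
  rcases hv with rfl | rfl | rfl | rfl | rfl
  · exact Or.inl (cvF_V2_V3_11 ep0 hex hf)
  · exact Or.inr (Or.inl (cvF_V2_V3_22 ep1 hex hf))
  · exact Or.inr (Or.inr (Or.inl (cvF_V2_V3_33 ep2 ep3 hf)))
  · exact (cvF_V2_V3_13 ep4 hf).elim
  · exact Or.inr (Or.inr (Or.inr (cvF_V2_V3_23 ep5 hf)))

theorem cvF_V3_V2_11 {b1 b2 b3 n2 n3 p0 y : ℤ}
    (ep0 : p0 = (y) * (-n2 + b2 + 2))
    (hex : 0 ≤ b1 - 1)
    (hf : LexFail ((0) * (2) + (y) * (-n2 + b2 + 2) + (1) * (-n2 + b2 - n3 + b3 - y + 1))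
      ((y) * (2) + (0) * (-n2 + b2 + 2) + (1) * (-n2 + b2 - n3 + b3 - y + 1))
      ((0) * (2) + (0) * (-n2 + b2 + 2) + (0) * (-n2 + b2 - n3 + b3 - y + 1))) :
    0 ≤ b1 - 1 ∧ 0 ≤ -p0 + n2 - b2 + n3 - b3 + y - 1 ∧ (0 ≤ -p0 + n2 - b2 + n3 - b3 + y - 2 ∨ 0 ≤ -y + n2 - b2 + n3 - b3 - 1) := by
  rcases hf with hf | ⟨hf0, hf⟩ | ⟨hf0, hf1, hf⟩
  · exact ⟨by linarith only [hex], by linarith only [hf, ep0], Or.inl (by linarith only [hf, ep0])⟩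
  · exact ⟨by linarith only [hex], by linarith only [hf0, ep0], Or.inr (by linarith only [hf])⟩
  · exact ⟨by linarith only [hex], by linarith only [hf0, ep0], Or.inr (by linarith only [hf1])⟩

theorem cvF_V3_V2_22 {b1 b2 b3 hp n3 p1 y : ℤ}
    (ep1 : p1 = (y) * (-hp + 1))
    (hex : 0 ≤ b1 + b2 - 1)
    (hf : LexFail ((0) * (-hp + 1) + (y) * (2) + (1) * (-n3 + b3 - y + 1))
      ((y) * (-hp + 1) + (0) * (2) + (1) * (-n3 + b3 - y + 1))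
      ((0) * (-hp + 1) + (0) * (2) + (0) * (-n3 + b3 - y + 1))) :
    0 ≤ b1 + b2 - 1 ∧ 0 ≤ -y + n3 - b3 - 1 ∧ (0 ≤ -y + n3 - b3 - 2 ∨ 0 ≤ -p1 + n3 - b3 + y - 1) := by
  rcases hf with hf | ⟨hf0, hf⟩ | ⟨hf0, hf1, hf⟩
  · exact ⟨by linarith only [hex], by linarith only [hf], Or.inl (by linarith only [hf])⟩
  · exact ⟨by linarith only [hex], by linarith only [hf0], Or.inr (by linarith only [hf, ep1])⟩
  · exact ⟨by linarith only [hex], by linarith only [hf0], Or.inr (by linarith only [hf1, ep1])⟩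

theorem cvF_V3_V2_33 {h3 k p2 p3 y : ℤ}
    (ep2 : p2 = (y) * (-h3))
    (ep3 : p3 = (y) * (-k))
    (hf : LexFail ((0) * (-h3) + (y) * (-k) + (1) * (1))
      ((y) * (-h3) + (0) * (-k) + (1) * (1))
      ((0) * (-h3) + (0) * (-k) + (0) * (1))) :
    0 ≤ -p3 - 1 ∧ (0 ≤ -p3 - 2 ∨ 0 ≤ -p2 - 1) := by
  rcases hf with hf | ⟨hf0, hf⟩ | ⟨hf0, hf1, hf⟩
  · exact ⟨by linarith only [hf, ep3], Or.inl (by linarith only [hf, ep3])⟩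
  · exact ⟨by linarith only [hf0, ep3], Or.inr (by linarith only [hf, ep2])⟩
  · exact ⟨by linarith only [hf0, ep3], Or.inr (by linarith only [hf1, ep2])⟩

theorem cvF_V3_V2_13 {g p4 y : ℤ}
    (ep4 : p4 = (y) * (-g))
    (hf : LexFail ((0) * (1) + (y) * (-g) + (1) * (-y + 1))
      ((y) * (1) + (0) * (-g) + (1) * (-y + 1))
      ((0) * (1) + (0) * (-g) + (0) * (-y + 1))) :
    0 ≤ -p4 + y - 1 ∧ 0 ≤ -p4 + y - 2 := by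
  rcases hf with hf | ⟨hf0, hf⟩ | ⟨hf0, hf1, hf⟩
  · exact ⟨by linarith only [hf, ep4], by linarith only [hf, ep4]⟩
  · exfalso; linarith only [hf]
  · exfalso; linarith only [hf1]

theorem cvF_V3_V2_23 {h m p5 y : ℤ}
    (ep5 : p5 = (y) * (-h))
    (hf : LexFail ((0) * (-h) + (y) * (1) + (1) * (-m + 1))
      ((y) * (-h) + (0) * (1) + (1) * (-m + 1))
      ((0) * (-h) + (0) * (1) + (0) * (-m + 1))) :
    0 ≤ -y + m - 1 ∧ (0 ≤ -y + m - 2 ∨ 0 ≤ -p5 + m - 1) := by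
  rcases hf with hf | ⟨hf0, hf⟩ | ⟨hf0, hf1, hf⟩
  · exact ⟨by linarith only [hf], Or.inl (by linarith only [hf])⟩
  · exact ⟨by linarith only [hf0], Or.inr (by linarith only [hf, ep5])⟩
  · exact ⟨by linarith only [hf0], Or.inr (by linarith only [hf1, ep5])⟩

theorem FBt {n1 n2 n3 a1 a2 a3 b1 b2 b3 e y d1 hp h3 k g h m p0 p1 p2 p3 p4 p5 : ℤ}
    (B15 : 0 ≤ e - a1 - a2 + b1 + b2)
    (B16 : 0 ≤ a1 + a2 - b1 - b2 - e)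
    (B17 : 0 ≤ e - 1)
    (B18 : 0 ≤ y + a1 + a2 + a3 - b1 - b2 - b3)
    (B19 : 0 ≤ -a1 - a2 - a3 + b1 + b2 + b3 - y)
    (B20 : 0 ≤ y - 1)
    (B21 : 0 ≤ d1 - a1 + b1)
    (B22 : 0 ≤ a1 - b1 - d1)
    (B23 : 0 ≤ d1 - 1)
    (B24 : 0 ≤ d1 - 1)
    (B25 : 0 ≤ -d1 + 1)
    (B26 : 0 ≤ e - 1)
    (B27 : 0 ≤ -e + 1)
    (ep0 : p0 = (y) * (-n2 + b2 + 2))
    (ep1 : p1 = (y) * (-hp + 1))
    (ep2 : p2 = (y) * (-h3))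
    (ep3 : p3 = (y) * (-k))
    (ep4 : p4 = (y) * (-g))
    (ep5 : p5 = (y) * (-h))
    (w1 : a1 - b1 = 1) (w2 : a1 + a2 - b1 - b2 = 1) (w3 : a1 + a2 + a3 - b1 - b2 - b3 = -y)
    (hno : ¬ ∃ u1 u2 u3 : ℤ, Good n1 n2 n3 a1 a2 a3 b1 b2 b3 u1 u2 u3)
    (hd : ∀ c1 c2 c3, LosC n1 n2 n3 a1 a2 a3 b1 b2 b3 c1 c2 c3 →
      ∃ v ∈ ([⟨0 ≤ b1 - 1, 2, -n2 + b2 + 2, -n2 + b2 - n3 + b3 - y + 1⟩, ⟨0 ≤ b1 + b2 - 1, -hp + 1, 2, -n3 + b3 - y + 1⟩, ⟨True, -h3, -k, 1⟩, ⟨True, 1, -g, -y + 1⟩, ⟨True, -h, 1, -m + 1⟩] : List LV), v.ex ∧ v.c1 ≤ c1 ∧ v.c2 ≤ c2 ∧ v.c3 ≤ c3) :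
    (0 ≤ b1 - 1 ∧ 0 ≤ -p0 + n2 - b2 + n3 - b3 + y - 1 ∧ (0 ≤ -p0 + n2 - b2 + n3 - b3 + y - 2 ∨ 0 ≤ -y + n2 - b2 + n3 - b3 - 1)) ∨ (0 ≤ b1 + b2 - 1 ∧ 0 ≤ -y + n3 - b3 - 1 ∧ (0 ≤ -y + n3 - b3 - 2 ∨ 0 ≤ -p1 + n3 - b3 + y - 1)) ∨ (0 ≤ -p3 - 1 ∧ (0 ≤ -p3 - 2 ∨ 0 ≤ -p2 - 1)) ∨ (0 ≤ -p4 + y - 1 ∧ 0 ≤ -p4 + y - 2) ∨ (0 ≤ -y + m - 1 ∧ (0 ≤ -y + m - 2 ∨ 0 ≤ -p5 + m - 1)) := by
  obtain ⟨v, hv, hex, hf⟩ := failA' w1 w2 w3 hno _ hd (0) (y) (1) (y) (0) (1) (0) (0) (0)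
    ⟨le_refl 0, by linarith only [B15, B16, B17, B18, B19, B20, B21, B22, B23, B24, B25, B26, B27], zero_le_one⟩ ⟨by linarith only [B15, B16, B17, B18, B19, B20, B21, B22, B23, B24, B25, B26, B27], le_refl 0, zero_le_one⟩ ⟨le_refl 0, le_refl 0, le_refl 0⟩
    (Or.inr ⟨by ring, Or.inr ⟨by ring, by linarith only [B15, B16, B17, B18, B19, B20, B21, B22, B23, B24, B25, B26, B27]⟩⟩)
  simp only [List.mem_cons, List.not_mem_nil, or_false] at hv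
  rcases hv with rfl | rfl | rfl | rfl | rfl
  · exact Or.inl (cvF_V3_V2_11 ep0 hex hf)
  · exact Or.inr (Or.inl (cvF_V3_V2_22 ep1 hex hf))
  · exact Or.inr (Or.inr (Or.inl (cvF_V3_V2_33 ep2 ep3 hf)))
  · exact Or.inr (Or.inr (Or.inr (Or.inl (cvF_V3_V2_13 ep4 hf))))
  · exact Or.inr (Or.inr (Or.inr (Or.inr (cvF_V3_V2_23 ep5 hf))))

theorem cvG_V3_V2_e3_11 {b1 b2 b3 n2 n3 p0 y : ℤ}
    (ep0 : p0 = (y) * (-n2 + b2 + 2))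
    (hex : 0 ≤ b1 - 1)
    (hf : LexFail ((0) * (2) + (y) * (-n2 + b2 + 2) + (1) * (-n2 + b2 - n3 + b3 - y + 1))
      ((y) * (2) + (0) * (-n2 + b2 + 2) + (1) * (-n2 + b2 - n3 + b3 - y + 1))
      ((0) * (2) + (0) * (-n2 + b2 + 2) + (1) * (-n2 + b2 - n3 + b3 - y + 1))) :
    (0 ≤ b1 - 1 ∧ 0 ≤ -p0 + n2 - b2 + n3 - b3 + y - 2) ∨ (0 ≤ b1 - 1 ∧ 0 ≤ p0 - n2 + b2 - n3 + b3 - y + 1 ∧ 0 ≤ -p0 + n2 - b2 + n3 - b3 + y - 1 ∧ 0 ≤ -y + n2 - b2 + n3 - b3 - 2) ∨ (0 ≤ b1 - 1 ∧ 0 ≤ p0 - n2 + b2 - n3 + b3 - y + 1 ∧ 0 ≤ -p0 + n2 - b2 + n3 - b3 + y - 1 ∧ 0 ≤ y - n2 + b2 - n3 + b3 + 1 ∧ 0 ≤ -y + n2 - b2 + n3 - b3 - 1 ∧ 0 ≤ n2 - b2 + n3 - b3 + y - 1) := by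
  rcases hf with hf | ⟨hf0, hf⟩ | ⟨hf0, hf1, hf⟩
  · exact Or.inl (⟨by linarith only [hex], by linarith only [hf, ep0]⟩)
  · exact Or.inr (Or.inl (⟨by linarith only [hex], by linarith only [hf0, ep0], by linarith only [hf0, ep0], by linarith only [hf]⟩))
  · exact Or.inr (Or.inr (⟨by linarith only [hex], by linarith only [hf0, ep0], by linarith only [hf0, ep0], by linarith only [hf1], by linarith only [hf1], by linarith only [hf]⟩))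

theorem cvG_V3_V2_e3_22 {b1 b2 b3 hp n3 p1 y : ℤ}
    (ep1 : p1 = (y) * (-hp + 1))
    (hex : 0 ≤ b1 + b2 - 1)
    (hf : LexFail ((0) * (-hp + 1) + (y) * (2) + (1) * (-n3 + b3 - y + 1))
      ((y) * (-hp + 1) + (0) * (2) + (1) * (-n3 + b3 - y + 1))
      ((0) * (-hp + 1) + (0) * (2) + (1) * (-n3 + b3 - y + 1))) :
    (0 ≤ b1 + b2 - 1 ∧ 0 ≤ -y + n3 - b3 - 2) ∨ (0 ≤ b1 + b2 - 1 ∧ 0 ≤ y - n3 + b3 + 1 ∧ 0 ≤ -y + n3 - b3 - 1 ∧ 0 ≤ -p1 + n3 - b3 + y - 2) ∨ (0 ≤ b1 + b2 - 1 ∧ 0 ≤ y - n3 + b3 + 1 ∧ 0 ≤ -y + n3 - b3 - 1 ∧ 0 ≤ p1 - n3 + b3 - y + 1 ∧ 0 ≤ -p1 + n3 - b3 + y - 1 ∧ 0 ≤ n3 - b3 + y - 1) := by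
  rcases hf with hf | ⟨hf0, hf⟩ | ⟨hf0, hf1, hf⟩
  · exact Or.inl (⟨by linarith only [hex], by linarith only [hf]⟩)
  · exact Or.inr (Or.inl (⟨by linarith only [hex], by linarith only [hf0], by linarith only [hf0], by linarith only [hf, ep1]⟩))
  · exact Or.inr (Or.inr (⟨by linarith only [hex], by linarith only [hf0], by linarith only [hf0], by linarith only [hf1, ep1], by linarith only [hf1, ep1], by linarith only [hf]⟩))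

theorem cvG_V3_V2_e3_33 {h3 k p2 p3 y : ℤ}
    (ep2 : p2 = (y) * (-h3))
    (ep3 : p3 = (y) * (-k))
    (hf : LexFail ((0) * (-h3) + (y) * (-k) + (1) * (1))
      ((y) * (-h3) + (0) * (-k) + (1) * (1))
      ((0) * (-h3) + (0) * (-k) + (1) * (1))) :
    0 ≤ -p3 - 2 ∨ (0 ≤ p3 + 1 ∧ 0 ≤ -p3 - 1 ∧ 0 ≤ -p2 - 2) := by
  rcases hf with hf | ⟨hf0, hf⟩ | ⟨hf0, hf1, hf⟩
  · exact Or.inl (by linarith only [hf, ep3])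
  · exact Or.inr (⟨by linarith only [hf0, ep3], by linarith only [hf0, ep3], by linarith only [hf, ep2]⟩)
  · exfalso; linarith only [hf]

theorem cvG_V3_V2_e3_13 {g p4 y : ℤ}
    (ep4 : p4 = (y) * (-g))
    (hf : LexFail ((0) * (1) + (y) * (-g) + (1) * (-y + 1))
      ((y) * (1) + (0) * (-g) + (1) * (-y + 1))
      ((0) * (1) + (0) * (-g) + (1) * (-y + 1))) :
    0 ≤ -p4 + y - 2 := by
  rcases hf with hf | ⟨hf0, hf⟩ | ⟨hf0, hf1, hf⟩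
  · exact by linarith only [hf, ep4]
  · exfalso; linarith only [hf]
  · exfalso; linarith only [hf1]

theorem cvG_V3_V2_e3_23 {h m p5 y : ℤ}
    (ep5 : p5 = (y) * (-h))
    (hf : LexFail ((0) * (-h) + (y) * (1) + (1) * (-m + 1))
      ((y) * (-h) + (0) * (1) + (1) * (-m + 1))
      ((0) * (-h) + (0) * (1) + (1) * (-m + 1))) :
    0 ≤ -y + m - 2 ∨ (0 ≤ y - m + 1 ∧ 0 ≤ -y + m - 1 ∧ 0 ≤ -p5 + m - 2) ∨ (0 ≤ y - m + 1 ∧ 0 ≤ -y + m - 1 ∧ 0 ≤ p5 - m + 1 ∧ 0 ≤ -p5 + m - 1 ∧ 0 ≤ m - 1) := by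
  rcases hf with hf | ⟨hf0, hf⟩ | ⟨hf0, hf1, hf⟩
  · exact Or.inl (by linarith only [hf])
  · exact Or.inr (Or.inl (⟨by linarith only [hf0], by linarith only [hf0], by linarith only [hf, ep5]⟩))
  · exact Or.inr (Or.inr (⟨by linarith only [hf0], by linarith only [hf0], by linarith only [hf1, ep5], by linarith only [hf1, ep5], by linarith only [hf]⟩))

theorem Gt_V3_V2_e3 {n1 n2 n3 a1 a2 a3 b1 b2 b3 e y d1 hp h3 k g h m p0 p1 p2 p3 p4 p5 : ℤ}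
    (B15 : 0 ≤ e - a1 - a2 + b1 + b2)
    (B16 : 0 ≤ a1 + a2 - b1 - b2 - e)
    (B17 : 0 ≤ e - 1)
    (B18 : 0 ≤ y + a1 + a2 + a3 - b1 - b2 - b3)
    (B19 : 0 ≤ -a1 - a2 - a3 + b1 + b2 + b3 - y)
    (B20 : 0 ≤ y - 1)
    (B21 : 0 ≤ d1 - a1 + b1)
    (B22 : 0 ≤ a1 - b1 - d1)
    (B23 : 0 ≤ d1 - 1)
    (B24 : 0 ≤ d1 - 1)
    (B25 : 0 ≤ -d1 + 1)
    (B26 : 0 ≤ e - 1)
    (B27 : 0 ≤ -e + 1)
    (ep0 : p0 = (y) * (-n2 + b2 + 2))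
    (ep1 : p1 = (y) * (-hp + 1))
    (ep2 : p2 = (y) * (-h3))
    (ep3 : p3 = (y) * (-k))
    (ep4 : p4 = (y) * (-g))
    (ep5 : p5 = (y) * (-h))
    (w1 : a1 - b1 = 1) (w2 : a1 + a2 - b1 - b2 = 1) (w3 : a1 + a2 + a3 - b1 - b2 - b3 = -y)
    (hno : ¬ ∃ u1 u2 u3 : ℤ, Good n1 n2 n3 a1 a2 a3 b1 b2 b3 u1 u2 u3)
    (hd : ∀ c1 c2 c3, LosC n1 n2 n3 a1 a2 a3 b1 b2 b3 c1 c2 c3 →
      ∃ v ∈ ([⟨0 ≤ b1 - 1, 2, -n2 + b2 + 2, -n2 + b2 - n3 + b3 - y + 1⟩, ⟨0 ≤ b1 + b2 - 1, -hp + 1, 2, -n3 + b3 - y + 1⟩, ⟨True, -h3, -k, 1⟩, ⟨True, 1, -g, -y + 1⟩, ⟨True, -h, 1, -m + 1⟩] : List LV), v.ex ∧ v.c1 ≤ c1 ∧ v.c2 ≤ c2 ∧ v.c3 ≤ c3) :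
    ((0 ≤ b1 - 1 ∧ 0 ≤ -p0 + n2 - b2 + n3 - b3 + y - 2) ∨ (0 ≤ b1 - 1 ∧ 0 ≤ p0 - n2 + b2 - n3 + b3 - y + 1 ∧ 0 ≤ -p0 + n2 - b2 + n3 - b3 + y - 1 ∧ 0 ≤ -y + n2 - b2 + n3 - b3 - 2) ∨ (0 ≤ b1 - 1 ∧ 0 ≤ p0 - n2 + b2 - n3 + b3 - y + 1 ∧ 0 ≤ -p0 + n2 - b2 + n3 - b3 + y - 1 ∧ 0 ≤ y - n2 + b2 - n3 + b3 + 1 ∧ 0 ≤ -y + n2 - b2 + n3 - b3 - 1 ∧ 0 ≤ n2 - b2 + n3 - b3 + y - 1)) ∨ ((0 ≤ b1 + b2 - 1 ∧ 0 ≤ -y + n3 - b3 - 2) ∨ (0 ≤ b1 + b2 - 1 ∧ 0 ≤ y - n3 + b3 + 1 ∧ 0 ≤ -y + n3 - b3 - 1 ∧ 0 ≤ -p1 + n3 - b3 + y - 2) ∨ (0 ≤ b1 + b2 - 1 ∧ 0 ≤ y - n3 + b3 + 1 ∧ 0 ≤ -y + n3 - b3 - 1 ∧ 0 ≤ p1 - n3 + b3 - y + 1 ∧ 0 ≤ -p1 + n3 - b3 + y - 1 ∧ 0 ≤ n3 - b3 + y - 1)) ∨ (0 ≤ -p3 - 2 ∨ (0 ≤ p3 + 1 ∧ 0 ≤ -p3 - 1 ∧ 0 ≤ -p2 - 2)) ∨ (0 ≤ -p4 + y - 2) ∨ (0 ≤ -y + m - 2 ∨ (0 ≤ y - m + 1 ∧ 0 ≤ -y + m - 1 ∧ 0 ≤ -p5 + m - 2) ∨ (0 ≤ y - m + 1 ∧ 0 ≤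 -y + m - 1 ∧ 0 ≤ p5 - m + 1 ∧ 0 ≤ -p5 + m - 1 ∧ 0 ≤ m - 1)) := by
  obtain ⟨v, hv, hex, hf⟩ := failA' w1 w2 w3 hno _ hd (0) (y) (1) (y) (0) (1) (0) (0) (1)
    ⟨le_refl 0, by linarith only [B15, B16, B17, B18, B19, B20, B21, B22, B23, B24, B25, B26, B27], zero_le_one⟩ ⟨by linarith only [B15, B16, B17, B18, B19, B20, B21, B22, B23, B24, B25, B26, B27], le_refl 0, zero_le_one⟩ ⟨le_refl 0, le_refl 0, zero_le_one⟩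
    (Or.inr ⟨by ring, Or.inr ⟨by ring, by linarith only [B15, B16, B17, B18, B19, B20, B21, B22, B23, B24, B25, B26, B27]⟩⟩)
  simp only [List.mem_cons, List.not_mem_nil, or_false] at hv
  rcases hv with rfl | rfl | rfl | rfl | rfl
  · exact Or.inl (cvG_V3_V2_e3_11 ep0 hex hf)
  · exact Or.inr (Or.inl (cvG_V3_V2_e3_22 ep1 hex hf))
  · exact Or.inr (Or.inr (Or.inl (cvG_V3_V2_e3_33 ep2 ep3 hf)))
  · exact Or.inr (Or.inr (Or.inr (Or.inl (cvG_V3_V2_e3_13 ep4 hf))))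
  · exact Or.inr (Or.inr (Or.inr (Or.inr (cvG_V3_V2_e3_23 ep5 hf))))

theorem cvG_V2_V3_e3_11 {b1 b2 b3 n2 n3 p0 y : ℤ}
    (ep0 : p0 = (y) * (-n2 + b2 + 2))
    (hex : 0 ≤ b1 - 1)
    (hf : LexFail ((y) * (2) + (0) * (-n2 + b2 + 2) + (1) * (-n2 + b2 - n3 + b3 - y + 1))
      ((0) * (2) + (y) * (-n2 + b2 + 2) + (1) * (-n2 + b2 - n3 + b3 - y + 1))
      ((0) * (2) + (0) * (-n2 + b2 + 2) + (1) * (-n2 + b2 - n3 + b3 - y + 1))) :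
    (0 ≤ b1 - 1 ∧ 0 ≤ -y + n2 - b2 + n3 - b3 - 2) ∨ (0 ≤ b1 - 1 ∧ 0 ≤ y - n2 + b2 - n3 + b3 + 1 ∧ 0 ≤ -y + n2 - b2 + n3 - b3 - 1 ∧ 0 ≤ -p0 + n2 - b2 + n3 - b3 + y - 2) ∨ (0 ≤ b1 - 1 ∧ 0 ≤ y - n2 + b2 - n3 + b3 + 1 ∧ 0 ≤ -y + n2 - b2 + n3 - b3 - 1 ∧ 0 ≤ p0 - n2 + b2 - n3 + b3 - y + 1 ∧ 0 ≤ -p0 + n2 - b2 + n3 - b3 + y - 1 ∧ 0 ≤ n2 - b2 + n3 - b3 + y - 1) := by
  rcases hf with hf | ⟨hf0, hf⟩ | ⟨hf0, hf1, hf⟩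
  · exact Or.inl (⟨by linarith only [hex], by linarith only [hf]⟩)
  · exact Or.inr (Or.inl (⟨by linarith only [hex], by linarith only [hf0], by linarith only [hf0], by linarith only [hf, ep0]⟩))
  · exact Or.inr (Or.inr (⟨by linarith only [hex], by linarith only [hf0], by linarith only [hf0], by linarith only [hf1, ep0], by linarith only [hf1, ep0], by linarith only [hf]⟩))

theorem cvG_V2_V3_e3_22 {b1 b2 b3 hp n3 p1 y : ℤ}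
    (ep1 : p1 = (y) * (-hp + 1))
    (hex : 0 ≤ b1 + b2 - 1)
    (hf : LexFail ((y) * (-hp + 1) + (0) * (2) + (1) * (-n3 + b3 - y + 1))
      ((0) * (-hp + 1) + (y) * (2) + (1) * (-n3 + b3 - y + 1))
      ((0) * (-hp + 1) + (0) * (2) + (1) * (-n3 + b3 - y + 1))) :
    (0 ≤ b1 + b2 - 1 ∧ 0 ≤ -p1 + n3 - b3 + y - 2) ∨ (0 ≤ b1 + b2 - 1 ∧ 0 ≤ p1 - n3 + b3 - y + 1 ∧ 0 ≤ -p1 + n3 - b3 + y - 1 ∧ 0 ≤ -y + n3 - b3 - 2) ∨ (0 ≤ b1 + b2 - 1 ∧ 0 ≤ p1 - n3 + b3 - y + 1 ∧ 0 ≤ -p1 + n3 - b3 + y - 1 ∧ 0 ≤ y - n3 + b3 + 1 ∧ 0 ≤ -y + n3 - b3 - 1 ∧ 0 ≤ n3 - b3 + y - 1) := by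
  rcases hf with hf | ⟨hf0, hf⟩ | ⟨hf0, hf1, hf⟩
  · exact Or.inl (⟨by linarith only [hex], by linarith only [hf, ep1]⟩)
  · exact Or.inr (Or.inl (⟨by linarith only [hex], by linarith only [hf0, ep1], by linarith only [hf0, ep1], by linarith only [hf]⟩))
  · exact Or.inr (Or.inr (⟨by linarith only [hex], by linarith only [hf0, ep1], by linarith only [hf0, ep1], by linarith only [hf1], by linarith only [hf1], by linarith only [hf]⟩))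

theorem cvG_V2_V3_e3_33 {h3 k p2 p3 y : ℤ}
    (ep2 : p2 = (y) * (-h3))
    (ep3 : p3 = (y) * (-k))
    (hf : LexFail ((y) * (-h3) + (0) * (-k) + (1) * (1))
      ((0) * (-h3) + (y) * (-k) + (1) * (1))
      ((0) * (-h3) + (0) * (-k) + (1) * (1))) :
    0 ≤ -p2 - 2 ∨ (0 ≤ p2 + 1 ∧ 0 ≤ -p2 - 1 ∧ 0 ≤ -p3 - 2) := by
  rcases hf with hf | ⟨hf0, hf⟩ | ⟨hf0, hf1, hf⟩
  · exact Or.inl (by linarith only [hf, ep2])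
  · exact Or.inr (⟨by linarith only [hf0, ep2], by linarith only [hf0, ep2], by linarith only [hf, ep3]⟩)
  · exfalso; linarith only [hf]

theorem cvG_V2_V3_e3_13 {g p4 y : ℤ}
    (ep4 : p4 = (y) * (-g))
    (hf : LexFail ((y) * (1) + (0) * (-g) + (1) * (-y + 1))
      ((0) * (1) + (y) * (-g) + (1) * (-y + 1))
      ((0) * (1) + (0) * (-g) + (1) * (-y + 1))) :
    False := by
  rcases hf with hf | ⟨hf0, hf⟩ | ⟨hf0, hf1, hf⟩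
  · exfalso; linarith only [hf]
  · exfalso; linarith only [hf0]
  · exfalso; linarith only [hf0]

theorem cvG_V2_V3_e3_23 {h m p5 y : ℤ}
    (ep5 : p5 = (y) * (-h))
    (hf : LexFail ((y) * (-h) + (0) * (1) + (1) * (-m + 1))
      ((0) * (-h) + (y) * (1) + (1) * (-m + 1))
      ((0) * (-h) + (0) * (1) + (1) * (-m + 1))) :
    0 ≤ -p5 + m - 2 ∨ (0 ≤ p5 - m + 1 ∧ 0 ≤ -p5 + m - 1 ∧ 0 ≤ -y + m - 2) ∨ (0 ≤ p5 - m + 1 ∧ 0 ≤ -p5 + m - 1 ∧ 0 ≤ y - m + 1 ∧ 0 ≤ -y + m - 1 ∧ 0 ≤ m - 1) := by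
  rcases hf with hf | ⟨hf0, hf⟩ | ⟨hf0, hf1, hf⟩
  · exact Or.inl (by linarith only [hf, ep5])
  · exact Or.inr (Or.inl (⟨by linarith only [hf0, ep5], by linarith only [hf0, ep5], by linarith only [hf]⟩))
  · exact Or.inr (Or.inr (⟨by linarith only [hf0, ep5], by linarith only [hf0, ep5], by linarith only [hf1], by linarith only [hf1], by linarith only [hf]⟩))

theorem Gt_V2_V3_e3 {n1 n2 n3 a1 a2 a3 b1 b2 b3 e y d1 hp h3 k g h m p0 p1 p2 p3 p4 p5 : ℤ}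
    (B15 : 0 ≤ e - a1 - a2 + b1 + b2)
    (B16 : 0 ≤ a1 + a2 - b1 - b2 - e)
    (B17 : 0 ≤ e - 1)
    (B18 : 0 ≤ y + a1 + a2 + a3 - b1 - b2 - b3)
    (B19 : 0 ≤ -a1 - a2 - a3 + b1 + b2 + b3 - y)
    (B20 : 0 ≤ y - 1)
    (B21 : 0 ≤ d1 - a1 + b1)
    (B22 : 0 ≤ a1 - b1 - d1)
    (B23 : 0 ≤ d1 - 1)
    (B24 : 0 ≤ d1 - 1)
    (B25 : 0 ≤ -d1 + 1)
    (B26 : 0 ≤ e - 1)
    (B27 : 0 ≤ -e + 1)
    (ep0 : p0 = (y) * (-n2 + b2 + 2))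
    (ep1 : p1 = (y) * (-hp + 1))
    (ep2 : p2 = (y) * (-h3))
    (ep3 : p3 = (y) * (-k))
    (ep4 : p4 = (y) * (-g))
    (ep5 : p5 = (y) * (-h))
    (w1 : a1 - b1 = 1) (w2 : a1 + a2 - b1 - b2 = 1) (w3 : a1 + a2 + a3 - b1 - b2 - b3 = -y)
    (hno : ¬ ∃ u1 u2 u3 : ℤ, Good n1 n2 n3 a1 a2 a3 b1 b2 b3 u1 u2 u3)
    (hd : ∀ c1 c2 c3, LosC n1 n2 n3 a1 a2 a3 b1 b2 b3 c1 c2 c3 →
      ∃ v ∈ ([⟨0 ≤ b1 - 1, 2, -n2 + b2 + 2, -n2 + b2 - n3 + b3 - y + 1⟩, ⟨0 ≤ b1 + b2 - 1, -hp + 1, 2, -n3 + b3 - y + 1⟩, ⟨True, -h3, -k, 1⟩, ⟨True, 1, -g, -y + 1⟩, ⟨True, -h, 1, -m + 1⟩] : List LV), v.ex ∧ v.c1 ≤ c1 ∧ v.c2 ≤ c2 ∧ v.c3 ≤ c3) :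
    ((0 ≤ b1 - 1 ∧ 0 ≤ -y + n2 - b2 + n3 - b3 - 2) ∨ (0 ≤ b1 - 1 ∧ 0 ≤ y - n2 + b2 - n3 + b3 + 1 ∧ 0 ≤ -y + n2 - b2 + n3 - b3 - 1 ∧ 0 ≤ -p0 + n2 - b2 + n3 - b3 + y - 2) ∨ (0 ≤ b1 - 1 ∧ 0 ≤ y - n2 + b2 - n3 + b3 + 1 ∧ 0 ≤ -y + n2 - b2 + n3 - b3 - 1 ∧ 0 ≤ p0 - n2 + b2 - n3 + b3 - y + 1 ∧ 0 ≤ -p0 + n2 - b2 + n3 - b3 + y - 1 ∧ 0 ≤ n2 - b2 + n3 - b3 + y - 1)) ∨ ((0 ≤ b1 + b2 - 1 ∧ 0 ≤ -p1 + n3 - b3 + y - 2) ∨ (0 ≤ b1 + b2 - 1 ∧ 0 ≤ p1 - n3 + b3 - y + 1 ∧ 0 ≤ -p1 + n3 - b3 + y - 1 ∧ 0 ≤ -y + n3 - b3 - 2) ∨ (0 ≤ b1 + b2 - 1 ∧ 0 ≤ p1 - n3 + b3 - y + 1 ∧ 0 ≤ -p1 + n3 - b3 + y - 1 ∧ 0 ≤ y - n3 + b3 + 1 ∧ 0 ≤ -y + n3 - b3 - 1 ∧ 0 ≤ n3 - b3 + y - 1)) ∨ (0 ≤ -p2 - 2 ∨ (0 ≤ p2 + 1 ∧ 0 ≤ -p2 - 1 ∧ 0 ≤ -p3 - 2)) ∨ (0 ≤ -p5 + m - 2 ∨ (0 ≤ p5 - m + 1 ∧ 0 ≤ -p5 + m - 1 ∧ 0 ≤ -y + m - 2) ∨ (0 ≤ p5 - m + 1 ∧ 0 ≤ -p5 + m - 1 ∧ 0 ≤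 y - m + 1 ∧ 0 ≤ -y + m - 1 ∧ 0 ≤ m - 1)) := by
  obtain ⟨v, hv, hex, hf⟩ := failA' w1 w2 w3 hno _ hd (y) (0) (1) (0) (y) (1) (0) (0) (1)
    ⟨by linarith only [B15, B16, B17, B18, B19, B20, B21, B22, B23, B24, B25, B26, B27], le_refl 0, zero_le_one⟩ ⟨le_refl 0, by linarith only [B15, B16, B17, B18, B19, B20, B21, B22, B23, B24, B25, B26, B27], zero_le_one⟩ ⟨le_refl 0, le_refl 0, zero_le_one⟩
    (Or.inr ⟨by ring, Or.inr ⟨by ring, by linarith only [B15, B16, B17, B18, B19, B20, B21, B22, B23, B24, B25, B26, B27]⟩⟩)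
  simp only [List.mem_cons, List.not_mem_nil, or_false] at hv
  rcases hv with rfl | rfl | rfl | rfl | rfl
  · exact Or.inl (cvG_V2_V3_e3_11 ep0 hex hf)
  · exact Or.inr (Or.inl (cvG_V2_V3_e3_22 ep1 hex hf))
  · exact Or.inr (Or.inr (Or.inl (cvG_V2_V3_e3_33 ep2 ep3 hf)))
  · exact (cvG_V2_V3_e3_13 ep4 hf).elim
  · exact Or.inr (Or.inr (Or.inr (cvG_V2_V3_e3_23 ep5 hf)))

theorem cvG_e3_V2_V3_11 {b1 b2 b3 n2 n3 p0 y : ℤ}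
    (ep0 : p0 = (y) * (-n2 + b2 + 2))
    (hex : 0 ≤ b1 - 1)
    (hf : LexFail ((0) * (2) + (0) * (-n2 + b2 + 2) + (1) * (-n2 + b2 - n3 + b3 - y + 1))
      ((y) * (2) + (0) * (-n2 + b2 + 2) + (1) * (-n2 + b2 - n3 + b3 - y + 1))
      ((0) * (2) + (y) * (-n2 + b2 + 2) + (1) * (-n2 + b2 - n3 + b3 - y + 1))) :
    (0 ≤ b1 - 1 ∧ 0 ≤ n2 - b2 + n3 - b3 + y - 2) ∨ (0 ≤ b1 - 1 ∧ 0 ≤ -n2 + b2 - n3 + b3 - y + 1 ∧ 0 ≤ n2 - b2 + n3 - b3 + y - 1 ∧ 0 ≤ -y + n2 - b2 + n3 - b3 - 2) ∨ (0 ≤ b1 - 1 ∧ 0 ≤ -n2 + b2 - n3 + b3 - y + 1 ∧ 0 ≤ n2 - b2 + n3 - b3 + y - 1 ∧ 0 ≤ y - n2 + b2 - n3 + b3 + 1 ∧ 0 ≤ -y + n2 - b2 + n3 - b3 - 1 ∧ 0 ≤ -p0 + n2 - b2 + n3 - b3 + y - 1) := by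
  rcases hf with hf | ⟨hf0, hf⟩ | ⟨hf0, hf1, hf⟩
  · exact Or.inl (⟨by linarith only [hex], by linarith only [hf]⟩)
  · exact Or.inr (Or.inl (⟨by linarith only [hex], by linarith only [hf0], by linarith only [hf0], by linarith only [hf]⟩))
  · exact Or.inr (Or.inr (⟨by linarith only [hex], by linarith only [hf0], by linarith only [hf0], by linarith only [hf1], by linarith only [hf1], by linarith only [hf, ep0]⟩))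

theorem cvG_e3_V2_V3_22 {b1 b2 b3 hp n3 p1 y : ℤ}
    (ep1 : p1 = (y) * (-hp + 1))
    (hex : 0 ≤ b1 + b2 - 1)
    (hf : LexFail ((0) * (-hp + 1) + (0) * (2) + (1) * (-n3 + b3 - y + 1))
      ((y) * (-hp + 1) + (0) * (2) + (1) * (-n3 + b3 - y + 1))
      ((0) * (-hp + 1) + (y) * (2) + (1) * (-n3 + b3 - y + 1))) :
    (0 ≤ b1 + b2 - 1 ∧ 0 ≤ n3 - b3 + y - 2) ∨ (0 ≤ b1 + b2 - 1 ∧ 0 ≤ -n3 + b3 - y + 1 ∧ 0 ≤ n3 - b3 + y - 1 ∧ 0 ≤ -p1 + n3 - b3 + y - 2) ∨ (0 ≤ b1 + b2 - 1 ∧ 0 ≤ -n3 + b3 - y + 1 ∧ 0 ≤ n3 - b3 + y - 1 ∧ 0 ≤ p1 - n3 + b3 - y + 1 ∧ 0 ≤ -p1 + n3 - b3 + y - 1 ∧ 0 ≤ -y + n3 - b3 - 1) := by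
  rcases hf with hf | ⟨hf0, hf⟩ | ⟨hf0, hf1, hf⟩
  · exact Or.inl (⟨by linarith only [hex], by linarith only [hf]⟩)
  · exact Or.inr (Or.inl (⟨by linarith only [hex], by linarith only [hf0], by linarith only [hf0], by linarith only [hf, ep1]⟩))
  · exact Or.inr (Or.inr (⟨by linarith only [hex], by linarith only [hf0], by linarith only [hf0], by linarith only [hf1, ep1], by linarith only [hf1, ep1], by linarith only [hf]⟩))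

theorem cvG_e3_V2_V3_33 {h3 k p2 p3 y : ℤ}
    (ep2 : p2 = (y) * (-h3))
    (ep3 : p3 = (y) * (-k))
    (hf : LexFail ((0) * (-h3) + (0) * (-k) + (1) * (1))
      ((y) * (-h3) + (0) * (-k) + (1) * (1))
      ((0) * (-h3) + (y) * (-k) + (1) * (1))) :
    False := by
  rcases hf with hf | ⟨hf0, hf⟩ | ⟨hf0, hf1, hf⟩
  · exfalso; linarith only [hf]
  · exfalso; linarith only [hf0]
  · exfalso; linarith only [hf0]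

theorem cvG_e3_V2_V3_13 {g p4 y : ℤ}
    (ep4 : p4 = (y) * (-g))
    (hf : LexFail ((0) * (1) + (0) * (-g) + (1) * (-y + 1))
      ((y) * (1) + (0) * (-g) + (1) * (-y + 1))
      ((0) * (1) + (y) * (-g) + (1) * (-y + 1))) :
    0 ≤ y - 2 := by
  rcases hf with hf | ⟨hf0, hf⟩ | ⟨hf0, hf1, hf⟩
  · exact by linarith only [hf]
  · exfalso; linarith only [hf]
  · exfalso; linarith only [hf1]

theorem cvG_e3_V2_V3_23 {h m p5 y : ℤ}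
    (ep5 : p5 = (y) * (-h))
    (hf : LexFail ((0) * (-h) + (0) * (1) + (1) * (-m + 1))
      ((y) * (-h) + (0) * (1) + (1) * (-m + 1))
      ((0) * (-h) + (y) * (1) + (1) * (-m + 1))) :
    0 ≤ m - 2 ∨ (0 ≤ -m + 1 ∧ 0 ≤ m - 1 ∧ 0 ≤ -p5 + m - 2) ∨ (0 ≤ -m + 1 ∧ 0 ≤ m - 1 ∧ 0 ≤ p5 - m + 1 ∧ 0 ≤ -p5 + m - 1 ∧ 0 ≤ -y + m - 1) := by
  rcases hf with hf | ⟨hf0, hf⟩ | ⟨hf0, hf1, hf⟩
  · exact Or.inl (by linarith only [hf])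
  · exact Or.inr (Or.inl (⟨by linarith only [hf0], by linarith only [hf0], by linarith only [hf, ep5]⟩))
  · exact Or.inr (Or.inr (⟨by linarith only [hf0], by linarith only [hf0], by linarith only [hf1, ep5], by linarith only [hf1, ep5], by linarith only [hf]⟩))

theorem Gt_e3_V2_V3 {n1 n2 n3 a1 a2 a3 b1 b2 b3 e y d1 hp h3 k g h m p0 p1 p2 p3 p4 p5 : ℤ}
    (B15 : 0 ≤ e - a1 - a2 + b1 + b2)
    (B16 : 0 ≤ a1 + a2 - b1 - b2 - e)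
    (B17 : 0 ≤ e - 1)
    (B18 : 0 ≤ y + a1 + a2 + a3 - b1 - b2 - b3)
    (B19 : 0 ≤ -a1 - a2 - a3 + b1 + b2 + b3 - y)
    (B20 : 0 ≤ y - 1)
    (B21 : 0 ≤ d1 - a1 + b1)
    (B22 : 0 ≤ a1 - b1 - d1)
    (B23 : 0 ≤ d1 - 1)
    (B24 : 0 ≤ d1 - 1)
    (B25 : 0 ≤ -d1 + 1)
    (B26 : 0 ≤ e - 1)
    (B27 : 0 ≤ -e + 1)
    (ep0 : p0 = (y) * (-n2 + b2 + 2))
    (ep1 : p1 = (y) * (-hp + 1))
    (ep2 : p2 = (y) * (-h3))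
    (ep3 : p3 = (y) * (-k))
    (ep4 : p4 = (y) * (-g))
    (ep5 : p5 = (y) * (-h))
    (w1 : a1 - b1 = 1) (w2 : a1 + a2 - b1 - b2 = 1) (w3 : a1 + a2 + a3 - b1 - b2 - b3 = -y)
    (hno : ¬ ∃ u1 u2 u3 : ℤ, Good n1 n2 n3 a1 a2 a3 b1 b2 b3 u1 u2 u3)
    (hd : ∀ c1 c2 c3, LosC n1 n2 n3 a1 a2 a3 b1 b2 b3 c1 c2 c3 →
      ∃ v ∈ ([⟨0 ≤ b1 - 1, 2, -n2 + b2 + 2, -n2 + b2 - n3 + b3 - y + 1⟩, ⟨0 ≤ b1 + b2 - 1, -hp + 1, 2, -n3 + b3 - y + 1⟩, ⟨True, -h3, -k, 1⟩, ⟨True, 1, -g, -y + 1⟩, ⟨True, -h, 1, -m + 1⟩] : List LV), v.ex ∧ v.c1 ≤ c1 ∧ v.c2 ≤ c2 ∧ v.c3 ≤ c3) :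
    ((0 ≤ b1 - 1 ∧ 0 ≤ n2 - b2 + n3 - b3 + y - 2) ∨ (0 ≤ b1 - 1 ∧ 0 ≤ -n2 + b2 - n3 + b3 - y + 1 ∧ 0 ≤ n2 - b2 + n3 - b3 + y - 1 ∧ 0 ≤ -y + n2 - b2 + n3 - b3 - 2) ∨ (0 ≤ b1 - 1 ∧ 0 ≤ -n2 + b2 - n3 + b3 - y + 1 ∧ 0 ≤ n2 - b2 + n3 - b3 + y - 1 ∧ 0 ≤ y - n2 + b2 - n3 + b3 + 1 ∧ 0 ≤ -y + n2 - b2 + n3 - b3 - 1 ∧ 0 ≤ -p0 + n2 - b2 + n3 - b3 + y - 1)) ∨ ((0 ≤ b1 + b2 - 1 ∧ 0 ≤ n3 - b3 + y - 2) ∨ (0 ≤ b1 + b2 - 1 ∧ 0 ≤ -n3 + b3 - y + 1 ∧ 0 ≤ n3 - b3 + y - 1 ∧ 0 ≤ -p1 + n3 - b3 + y - 2) ∨ (0 ≤ b1 + b2 - 1 ∧ 0 ≤ -n3 + b3 - y + 1 ∧ 0 ≤ n3 - b3 + y - 1 ∧ 0 ≤ p1 - n3 + b3 - y + 1 ∧ 0 ≤ -p1 + n3 - b3 + y - 1 ∧ 0 ≤ -y + n3 - b3 - 1)) ∨ (0 ≤ y - 2) ∨ (0 ≤ m - 2 ∨ (0 ≤ -m + 1 ∧ 0 ≤ m - 1 ∧ 0 ≤ -p5 + m - 2) ∨ (0 ≤ -m + 1 ∧ 0 ≤ m - 1 ∧ 0 ≤ p5 - m + 1 ∧ 0 ≤ -p5 + m - 1 ∧ 0 ≤ -y + m - 1)) := by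
  obtain ⟨v, hv, hex, hf⟩ := failA' w1 w2 w3 hno _ hd (0) (0) (1) (y) (0) (1) (0) (y) (1)
    ⟨le_refl 0, le_refl 0, zero_le_one⟩ ⟨by linarith only [B15, B16, B17, B18, B19, B20, B21, B22, B23, B24, B25, B26, B27], le_refl 0, zero_le_one⟩ ⟨le_refl 0, by linarith only [B15, B16, B17, B18, B19, B20, B21, B22, B23, B24, B25, B26, B27], zero_le_one⟩
    (Or.inl (by linarith only [B15, B16, B17, B18, B19, B20, B21, B22, B23, B24, B25, B26, B27]))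
  simp only [List.mem_cons, List.not_mem_nil, or_false] at hv
  rcases hv with rfl | rfl | rfl | rfl | rfl
  · exact Or.inl (cvG_e3_V2_V3_11 ep0 hex hf)
  · exact Or.inr (Or.inl (cvG_e3_V2_V3_22 ep1 hex hf))
  · exact (cvG_e3_V2_V3_33 ep2 ep3 hf).elim
  · exact Or.inr (Or.inr (Or.inl (cvG_e3_V2_V3_13 ep4 hf)))
  · exact Or.inr (Or.inr (Or.inr (cvG_e3_V2_V3_23 ep5 hf)))

theorem cvG_e3_V3_V2_11 {b1 b2 b3 n2 n3 p0 y : ℤ}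
    (ep0 : p0 = (y) * (-n2 + b2 + 2))
    (hex : 0 ≤ b1 - 1)
    (hf : LexFail ((0) * (2) + (0) * (-n2 + b2 + 2) + (1) * (-n2 + b2 - n3 + b3 - y + 1))
      ((0) * (2) + (y) * (-n2 + b2 + 2) + (1) * (-n2 + b2 - n3 + b3 - y + 1))
      ((y) * (2) + (0) * (-n2 + b2 + 2) + (1) * (-n2 + b2 - n3 + b3 - y + 1))) :
    (0 ≤ b1 - 1 ∧ 0 ≤ n2 - b2 + n3 - b3 + y - 2) ∨ (0 ≤ b1 - 1 ∧ 0 ≤ -n2 + b2 - n3 + b3 - y + 1 ∧ 0 ≤ n2 - b2 + n3 - b3 + y - 1 ∧ 0 ≤ -p0 + n2 - b2 + n3 - b3 + y - 2) ∨ (0 ≤ b1 - 1 ∧ 0 ≤ -n2 + b2 - n3 + b3 - y + 1 ∧ 0 ≤ n2 - b2 + n3 - b3 + y - 1 ∧ 0 ≤ p0 - n2 + b2 - n3 + b3 - y + 1 ∧ 0 ≤ -p0 + n2 - b2 + n3 - b3 + y - 1 ∧ 0 ≤ -y + n2 - b2 + n3 - b3 - 1) := by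
  rcases hf with hf | ⟨hf0, hf⟩ | ⟨hf0, hf1, hf⟩
  · exact Or.inl (⟨by linarith only [hex], by linarith only [hf]⟩)
  · exact Or.inr (Or.inl (⟨by linarith only [hex], by linarith only [hf0], by linarith only [hf0], by linarith only [hf, ep0]⟩))
  · exact Or.inr (Or.inr (⟨by linarith only [hex], by linarith only [hf0], by linarith only [hf0], by linarith only [hf1, ep0], by linarith only [hf1, ep0], by linarith only [hf]⟩))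

theorem cvG_e3_V3_V2_22 {b1 b2 b3 hp n3 p1 y : ℤ}
    (ep1 : p1 = (y) * (-hp + 1))
    (hex : 0 ≤ b1 + b2 - 1)
    (hf : LexFail ((0) * (-hp + 1) + (0) * (2) + (1) * (-n3 + b3 - y + 1))
      ((0) * (-hp + 1) + (y) * (2) + (1) * (-n3 + b3 - y + 1))
      ((y) * (-hp + 1) + (0) * (2) + (1) * (-n3 + b3 - y + 1))) :
    (0 ≤ b1 + b2 - 1 ∧ 0 ≤ n3 - b3 + y - 2) ∨ (0 ≤ b1 + b2 - 1 ∧ 0 ≤ -n3 + b3 - y + 1 ∧ 0 ≤ n3 - b3 + y - 1 ∧ 0 ≤ -y + n3 - b3 - 2) ∨ (0 ≤ b1 + b2 - 1 ∧ 0 ≤ -n3 + b3 - y + 1 ∧ 0 ≤ n3 - b3 + y - 1 ∧ 0 ≤ y - n3 + b3 + 1 ∧ 0 ≤ -y + n3 - b3 - 1 ∧ 0 ≤ -p1 + n3 - b3 + y - 1) := by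
  rcases hf with hf | ⟨hf0, hf⟩ | ⟨hf0, hf1, hf⟩
  · exact Or.inl (⟨by linarith only [hex], by linarith only [hf]⟩)
  · exact Or.inr (Or.inl (⟨by linarith only [hex], by linarith only [hf0], by linarith only [hf0], by linarith only [hf]⟩))
  · exact Or.inr (Or.inr (⟨by linarith only [hex], by linarith only [hf0], by linarith only [hf0], by linarith only [hf1], by linarith only [hf1], by linarith only [hf, ep1]⟩))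

theorem cvG_e3_V3_V2_33 {h3 k p2 p3 y : ℤ}
    (ep2 : p2 = (y) * (-h3))
    (ep3 : p3 = (y) * (-k))
    (hf : LexFail ((0) * (-h3) + (0) * (-k) + (1) * (1))
      ((0) * (-h3) + (y) * (-k) + (1) * (1))
      ((y) * (-h3) + (0) * (-k) + (1) * (1))) :
    False := by
  rcases hf with hf | ⟨hf0, hf⟩ | ⟨hf0, hf1, hf⟩
  · exfalso; linarith only [hf]
  · exfalso; linarith only [hf0]
  · exfalso; linarith only [hf0]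

theorem cvG_e3_V3_V2_13 {g p4 y : ℤ}
    (ep4 : p4 = (y) * (-g))
    (hf : LexFail ((0) * (1) + (0) * (-g) + (1) * (-y + 1))
      ((0) * (1) + (y) * (-g) + (1) * (-y + 1))
      ((y) * (1) + (0) * (-g) + (1) * (-y + 1))) :
    0 ≤ y - 2 ∨ (0 ≤ -y + 1 ∧ 0 ≤ y - 1 ∧ 0 ≤ -p4 + y - 2) := by
  rcases hf with hf | ⟨hf0, hf⟩ | ⟨hf0, hf1, hf⟩
  · exact Or.inl (by linarith only [hf])
  · exact Or.inr (⟨by linarith only [hf0], by linarith only [hf0], by linarith only [hf, ep4]⟩)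
  · exfalso; linarith only [hf]

theorem cvG_e3_V3_V2_23 {h m p5 y : ℤ}
    (ep5 : p5 = (y) * (-h))
    (hf : LexFail ((0) * (-h) + (0) * (1) + (1) * (-m + 1))
      ((0) * (-h) + (y) * (1) + (1) * (-m + 1))
      ((y) * (-h) + (0) * (1) + (1) * (-m + 1))) :
    0 ≤ m - 2 ∨ (0 ≤ -m + 1 ∧ 0 ≤ m - 1 ∧ 0 ≤ -y + m - 2) ∨ (0 ≤ -m + 1 ∧ 0 ≤ m - 1 ∧ 0 ≤ y - m + 1 ∧ 0 ≤ -y + m - 1 ∧ 0 ≤ -p5 + m - 1) := by
  rcases hf with hf | ⟨hf0, hf⟩ | ⟨hf0, hf1, hf⟩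
  · exact Or.inl (by linarith only [hf])
  · exact Or.inr (Or.inl (⟨by linarith only [hf0], by linarith only [hf0], by linarith only [hf]⟩))
  · exact Or.inr (Or.inr (⟨by linarith only [hf0], by linarith only [hf0], by linarith only [hf1], by linarith only [hf1], by linarith only [hf, ep5]⟩))

theorem Gt_e3_V3_V2 {n1 n2 n3 a1 a2 a3 b1 b2 b3 e y d1 hp h3 k g h m p0 p1 p2 p3 p4 p5 : ℤ}
    (B15 : 0 ≤ e - a1 - a2 + b1 + b2)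
    (B16 : 0 ≤ a1 + a2 - b1 - b2 - e)
    (B17 : 0 ≤ e - 1)
    (B18 : 0 ≤ y + a1 + a2 + a3 - b1 - b2 - b3)
    (B19 : 0 ≤ -a1 - a2 - a3 + b1 + b2 + b3 - y)
    (B20 : 0 ≤ y - 1)
    (B21 : 0 ≤ d1 - a1 + b1)
    (B22 : 0 ≤ a1 - b1 - d1)
    (B23 : 0 ≤ d1 - 1)
    (B24 : 0 ≤ d1 - 1)
    (B25 : 0 ≤ -d1 + 1)
    (B26 : 0 ≤ e - 1)
    (B27 : 0 ≤ -e + 1)
    (ep0 : p0 = (y) * (-n2 + b2 + 2))
    (ep1 : p1 = (y) * (-hp + 1))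
    (ep2 : p2 = (y) * (-h3))
    (ep3 : p3 = (y) * (-k))
    (ep4 : p4 = (y) * (-g))
    (ep5 : p5 = (y) * (-h))
    (w1 : a1 - b1 = 1) (w2 : a1 + a2 - b1 - b2 = 1) (w3 : a1 + a2 + a3 - b1 - b2 - b3 = -y)
    (hno : ¬ ∃ u1 u2 u3 : ℤ, Good n1 n2 n3 a1 a2 a3 b1 b2 b3 u1 u2 u3)
    (hd : ∀ c1 c2 c3, LosC n1 n2 n3 a1 a2 a3 b1 b2 b3 c1 c2 c3 →
      ∃ v ∈ ([⟨0 ≤ b1 - 1, 2, -n2 + b2 + 2, -n2 + b2 - n3 + b3 - y + 1⟩, ⟨0 ≤ b1 + b2 - 1, -hp + 1, 2, -n3 + b3 - y + 1⟩, ⟨True, -h3, -k, 1⟩, ⟨True, 1, -g, -y + 1⟩, ⟨True, -h, 1, -m + 1⟩] : List LV), v.ex ∧ v.c1 ≤ c1 ∧ v.c2 ≤ c2 ∧ v.c3 ≤ c3) :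
    ((0 ≤ b1 - 1 ∧ 0 ≤ n2 - b2 + n3 - b3 + y - 2) ∨ (0 ≤ b1 - 1 ∧ 0 ≤ -n2 + b2 - n3 + b3 - y + 1 ∧ 0 ≤ n2 - b2 + n3 - b3 + y - 1 ∧ 0 ≤ -p0 + n2 - b2 + n3 - b3 + y - 2) ∨ (0 ≤ b1 - 1 ∧ 0 ≤ -n2 + b2 - n3 + b3 - y + 1 ∧ 0 ≤ n2 - b2 + n3 - b3 + y - 1 ∧ 0 ≤ p0 - n2 + b2 - n3 + b3 - y + 1 ∧ 0 ≤ -p0 + n2 - b2 + n3 - b3 + y - 1 ∧ 0 ≤ -y + n2 - b2 + n3 - b3 - 1)) ∨ ((0 ≤ b1 + b2 - 1 ∧ 0 ≤ n3 - b3 + y - 2) ∨ (0 ≤ b1 + b2 - 1 ∧ 0 ≤ -n3 + b3 - y + 1 ∧ 0 ≤ n3 - b3 + y - 1 ∧ 0 ≤ -y + n3 - b3 - 2) ∨ (0 ≤ b1 + b2 - 1 ∧ 0 ≤ -n3 + b3 - y + 1 ∧ 0 ≤ n3 - b3 + y - 1 ∧ 0 ≤ y - n3 + b3 + 1 ∧ 0 ≤ -y + n3 - b3 - 1 ∧ 0 ≤ -p1 + n3 - b3 + y - 1)) ∨ (0 ≤ y - 2 ∨ (0 ≤ -y + 1 ∧ 0 ≤ y - 1 ∧ 0 ≤ -p4 + y - 2)) ∨ (0 ≤ m - 2 ∨ (0 ≤ -m + 1 ∧ 0 ≤ m - 1 ∧ 0 ≤ -y + m - 2) ∨ (0 ≤ -m + 1 ∧ 0 ≤ m - 1 ∧ 0 ≤ y - m + 1 ∧ 0 ≤ -y + m - 1 ∧ 0 ≤ -p5 + m - 1))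 := by
  obtain ⟨v, hv, hex, hf⟩ := failA' w1 w2 w3 hno _ hd (0) (0) (1) (0) (y) (1) (y) (0) (1)
    ⟨le_refl 0, le_refl 0, zero_le_one⟩ ⟨le_refl 0, by linarith only [B15, B16, B17, B18, B19, B20, B21, B22, B23, B24, B25, B26, B27], zero_le_one⟩ ⟨by linarith only [B15, B16, B17, B18, B19, B20, B21, B22, B23, B24, B25, B26, B27], le_refl 0, zero_le_one⟩
    (Or.inl (by linarith only [B15, B16, B17, B18, B19, B20, B21, B22, B23, B24, B25, B26, B27]))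
  simp only [List.mem_cons, List.not_mem_nil, or_false] at hv
  rcases hv with rfl | rfl | rfl | rfl | rfl
  · exact Or.inl (cvG_e3_V3_V2_11 ep0 hex hf)
  · exact Or.inr (Or.inl (cvG_e3_V3_V2_22 ep1 hex hf))
  · exact (cvG_e3_V3_V2_33 ep2 ep3 hf).elim
  · exact Or.inr (Or.inr (Or.inl (cvG_e3_V3_V2_13 ep4 hf)))
  · exact Or.inr (Or.inr (Or.inr (cvG_e3_V3_V2_23 ep5 hf)))

theorem cvG_V3_e3_V2_11 {b1 b2 b3 n2 n3 p0 y : ℤ}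
    (ep0 : p0 = (y) * (-n2 + b2 + 2))
    (hex : 0 ≤ b1 - 1)
    (hf : LexFail ((0) * (2) + (y) * (-n2 + b2 + 2) + (1) * (-n2 + b2 - n3 + b3 - y + 1))
      ((0) * (2) + (0) * (-n2 + b2 + 2) + (1) * (-n2 + b2 - n3 + b3 - y + 1))
      ((y) * (2) + (0) * (-n2 + b2 + 2) + (1) * (-n2 + b2 - n3 + b3 - y + 1))) :
    (0 ≤ b1 - 1 ∧ 0 ≤ -p0 + n2 - b2 + n3 - b3 + y - 2) ∨ (0 ≤ b1 - 1 ∧ 0 ≤ p0 - n2 + b2 - n3 + b3 - y + 1 ∧ 0 ≤ -p0 + n2 - b2 + n3 - b3 + y - 1 ∧ 0 ≤ n2 - b2 + n3 - b3 + y - 2) ∨ (0 ≤ b1 - 1 ∧ 0 ≤ p0 - n2 + b2 - n3 + b3 - y + 1 ∧ 0 ≤ -p0 + n2 - b2 + n3 - b3 + y - 1 ∧ 0 ≤ -n2 + b2 - n3 + b3 - y + 1 ∧ 0 ≤ n2 - b2 + n3 - b3 + y - 1 ∧ 0 ≤ -y + n2 - b2 + n3 - b3 - 1) := by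
  rcases hf with hf | ⟨hf0, hf⟩ | ⟨hf0, hf1, hf⟩
  · exact Or.inl (⟨by linarith only [hex], by linarith only [hf, ep0]⟩)
  · exact Or.inr (Or.inl (⟨by linarith only [hex], by linarith only [hf0, ep0], by linarith only [hf0, ep0], by linarith only [hf]⟩))
  · exact Or.inr (Or.inr (⟨by linarith only [hex], by linarith only [hf0, ep0], by linarith only [hf0, ep0], by linarith only [hf1], by linarith only [hf1], by linarith only [hf]⟩))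

theorem cvG_V3_e3_V2_22 {b1 b2 b3 hp n3 p1 y : ℤ}
    (ep1 : p1 = (y) * (-hp + 1))
    (hex : 0 ≤ b1 + b2 - 1)
    (hf : LexFail ((0) * (-hp + 1) + (y) * (2) + (1) * (-n3 + b3 - y + 1))
      ((0) * (-hp + 1) + (0) * (2) + (1) * (-n3 + b3 - y + 1))
      ((y) * (-hp + 1) + (0) * (2) + (1) * (-n3 + b3 - y + 1))) :
    (0 ≤ b1 + b2 - 1 ∧ 0 ≤ -y + n3 - b3 - 2) ∨ (0 ≤ b1 + b2 - 1 ∧ 0 ≤ y - n3 + b3 + 1 ∧ 0 ≤ -y + n3 - b3 - 1 ∧ 0 ≤ n3 - b3 + y - 2) ∨ (0 ≤ b1 + b2 - 1 ∧ 0 ≤ y - n3 + b3 + 1 ∧ 0 ≤ -y + n3 - b3 - 1 ∧ 0 ≤ -n3 + b3 - y + 1 ∧ 0 ≤ n3 - b3 + y - 1 ∧ 0 ≤ -p1 + n3 - b3 + y - 1) := by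
  rcases hf with hf | ⟨hf0, hf⟩ | ⟨hf0, hf1, hf⟩
  · exact Or.inl (⟨by linarith only [hex], by linarith only [hf]⟩)
  · exact Or.inr (Or.inl (⟨by linarith only [hex], by linarith only [hf0], by linarith only [hf0], by linarith only [hf]⟩))
  · exact Or.inr (Or.inr (⟨by linarith only [hex], by linarith only [hf0], by linarith only [hf0], by linarith only [hf1], by linarith only [hf1], by linarith only [hf, ep1]⟩))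

theorem cvG_V3_e3_V2_33 {h3 k p2 p3 y : ℤ}
    (ep2 : p2 = (y) * (-h3))
    (ep3 : p3 = (y) * (-k))
    (hf : LexFail ((0) * (-h3) + (y) * (-k) + (1) * (1))
      ((0) * (-h3) + (0) * (-k) + (1) * (1))
      ((y) * (-h3) + (0) * (-k) + (1) * (1))) :
    0 ≤ -p3 - 2 := by
  rcases hf with hf | ⟨hf0, hf⟩ | ⟨hf0, hf1, hf⟩
  · exact by linarith only [hf, ep3]
  · exfalso; linarith only [hf]
  · exfalso; linarith only [hf1]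

theorem cvG_V3_e3_V2_13 {g p4 y : ℤ}
    (ep4 : p4 = (y) * (-g))
    (hf : LexFail ((0) * (1) + (y) * (-g) + (1) * (-y + 1))
      ((0) * (1) + (0) * (-g) + (1) * (-y + 1))
      ((y) * (1) + (0) * (-g) + (1) * (-y + 1))) :
    0 ≤ -p4 + y - 2 ∨ (0 ≤ p4 - y + 1 ∧ 0 ≤ -p4 + y - 1 ∧ 0 ≤ y - 2) := by
  rcases hf with hf | ⟨hf0, hf⟩ | ⟨hf0, hf1, hf⟩
  · exact Or.inl (by linarith only [hf, ep4])
  · exact Or.inr (⟨by linarith only [hf0, ep4], by linarith only [hf0, ep4], by linarith only [hf]⟩)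
  · exfalso; linarith only [hf]

theorem cvG_V3_e3_V2_23 {h m p5 y : ℤ}
    (ep5 : p5 = (y) * (-h))
    (hf : LexFail ((0) * (-h) + (y) * (1) + (1) * (-m + 1))
      ((0) * (-h) + (0) * (1) + (1) * (-m + 1))
      ((y) * (-h) + (0) * (1) + (1) * (-m + 1))) :
    0 ≤ -y + m - 2 ∨ (0 ≤ y - m + 1 ∧ 0 ≤ -y + m - 1 ∧ 0 ≤ m - 2) ∨ (0 ≤ y - m + 1 ∧ 0 ≤ -y + m - 1 ∧ 0 ≤ -m + 1 ∧ 0 ≤ m - 1 ∧ 0 ≤ -p5 + m - 1) := by
  rcases hf with hf | ⟨hf0, hf⟩ | ⟨hf0, hf1, hf⟩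
  · exact Or.inl (by linarith only [hf])
  · exact Or.inr (Or.inl (⟨by linarith only [hf0], by linarith only [hf0], by linarith only [hf]⟩))
  · exact Or.inr (Or.inr (⟨by linarith only [hf0], by linarith only [hf0], by linarith only [hf1], by linarith only [hf1], by linarith only [hf, ep5]⟩))

theorem Gt_V3_e3_V2 {n1 n2 n3 a1 a2 a3 b1 b2 b3 e y d1 hp h3 k g h m p0 p1 p2 p3 p4 p5 : ℤ}
    (B15 : 0 ≤ e - a1 - a2 + b1 + b2)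
    (B16 : 0 ≤ a1 + a2 - b1 - b2 - e)
    (B17 : 0 ≤ e - 1)
    (B18 : 0 ≤ y + a1 + a2 + a3 - b1 - b2 - b3)
    (B19 : 0 ≤ -a1 - a2 - a3 + b1 + b2 + b3 - y)
    (B20 : 0 ≤ y - 1)
    (B21 : 0 ≤ d1 - a1 + b1)
    (B22 : 0 ≤ a1 - b1 - d1)
    (B23 : 0 ≤ d1 - 1)
    (B24 : 0 ≤ d1 - 1)
    (B25 : 0 ≤ -d1 + 1)
    (B26 : 0 ≤ e - 1)
    (B27 : 0 ≤ -e + 1)
    (ep0 : p0 = (y) * (-n2 + b2 + 2))
    (ep1 : p1 = (y) * (-hp + 1))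
    (ep2 : p2 = (y) * (-h3))
    (ep3 : p3 = (y) * (-k))
    (ep4 : p4 = (y) * (-g))
    (ep5 : p5 = (y) * (-h))
    (w1 : a1 - b1 = 1) (w2 : a1 + a2 - b1 - b2 = 1) (w3 : a1 + a2 + a3 - b1 - b2 - b3 = -y)
    (hno : ¬ ∃ u1 u2 u3 : ℤ, Good n1 n2 n3 a1 a2 a3 b1 b2 b3 u1 u2 u3)
    (hd : ∀ c1 c2 c3, LosC n1 n2 n3 a1 a2 a3 b1 b2 b3 c1 c2 c3 →
      ∃ v ∈ ([⟨0 ≤ b1 - 1, 2, -n2 + b2 + 2, -n2 + b2 - n3 + b3 - y + 1⟩, ⟨0 ≤ b1 + b2 - 1, -hp + 1, 2, -n3 + b3 - y + 1⟩, ⟨True, -h3, -k, 1⟩, ⟨True, 1, -g, -y + 1⟩, ⟨True, -h, 1, -m + 1⟩] : List LV), v.ex ∧ v.c1 ≤ c1 ∧ v.c2 ≤ c2 ∧ v.c3 ≤ c3) :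
    ((0 ≤ b1 - 1 ∧ 0 ≤ -p0 + n2 - b2 + n3 - b3 + y - 2) ∨ (0 ≤ b1 - 1 ∧ 0 ≤ p0 - n2 + b2 - n3 + b3 - y + 1 ∧ 0 ≤ -p0 + n2 - b2 + n3 - b3 + y - 1 ∧ 0 ≤ n2 - b2 + n3 - b3 + y - 2) ∨ (0 ≤ b1 - 1 ∧ 0 ≤ p0 - n2 + b2 - n3 + b3 - y + 1 ∧ 0 ≤ -p0 + n2 - b2 + n3 - b3 + y - 1 ∧ 0 ≤ -n2 + b2 - n3 + b3 - y + 1 ∧ 0 ≤ n2 - b2 + n3 - b3 + y - 1 ∧ 0 ≤ -y + n2 - b2 + n3 - b3 - 1)) ∨ ((0 ≤ b1 + b2 - 1 ∧ 0 ≤ -y + n3 - b3 - 2) ∨ (0 ≤ b1 + b2 - 1 ∧ 0 ≤ y - n3 + b3 + 1 ∧ 0 ≤ -y + n3 - b3 - 1 ∧ 0 ≤ n3 - b3 + y - 2) ∨ (0 ≤ b1 + b2 - 1 ∧ 0 ≤ y - n3 + b3 + 1 ∧ 0 ≤ -y + n3 - b3 - 1 ∧ 0 ≤ -n3 + b3 - y + 1 ∧ 0 ≤ n3 - b3 + y - 1 ∧ 0 ≤ -p1 + n3 - b3 + y - 1)) ∨ (0 ≤ -p3 - 2) ∨ (0 ≤ -p4 + y - 2 ∨ (0 ≤ p4 - y + 1 ∧ 0 ≤ -p4 + y - 1 ∧ 0 ≤ y - 2)) ∨ (0 ≤ -y + m - 2 ∨ (0 ≤ y - m + 1 ∧ 0 ≤ -y + m - 1 ∧ 0 ≤ m - 2) ∨ (0 ≤ y - m + 1 ∧ 0 ≤ -y + m - 1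 ∧ 0 ≤ -m + 1 ∧ 0 ≤ m - 1 ∧ 0 ≤ -p5 + m - 1)) := by
  obtain ⟨v, hv, hex, hf⟩ := failA' w1 w2 w3 hno _ hd (0) (y) (1) (0) (0) (1) (y) (0) (1)
    ⟨le_refl 0, by linarith only [B15, B16, B17, B18, B19, B20, B21, B22, B23, B24, B25, B26, B27], zero_le_one⟩ ⟨le_refl 0, le_refl 0, zero_le_one⟩ ⟨by linarith only [B15, B16, B17, B18, B19, B20, B21, B22, B23, B24, B25, B26, B27], le_refl 0, zero_le_one⟩
    (Or.inr ⟨by ring, Or.inl (by linarith only [B15, B16, B17, B18, B19, B20, B21, B22, B23, B24, B25, B26, B27])⟩)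
  simp only [List.mem_cons, List.not_mem_nil, or_false] at hv
  rcases hv with rfl | rfl | rfl | rfl | rfl
  · exact Or.inl (cvG_V3_e3_V2_11 ep0 hex hf)
  · exact Or.inr (Or.inl (cvG_V3_e3_V2_22 ep1 hex hf))
  · exact Or.inr (Or.inr (Or.inl (cvG_V3_e3_V2_33 ep2 ep3 hf)))
  · exact Or.inr (Or.inr (Or.inr (Or.inl (cvG_V3_e3_V2_13 ep4 hf))))
  · exact Or.inr (Or.inr (Or.inr (Or.inr (cvG_V3_e3_V2_23 ep5 hf))))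

theorem cvG_V2_e3_V3_11 {b1 b2 b3 n2 n3 p0 y : ℤ}
    (ep0 : p0 = (y) * (-n2 + b2 + 2))
    (hex : 0 ≤ b1 - 1)
    (hf : LexFail ((y) * (2) + (0) * (-n2 + b2 + 2) + (1) * (-n2 + b2 - n3 + b3 - y + 1))
      ((0) * (2) + (0) * (-n2 + b2 + 2) + (1) * (-n2 + b2 - n3 + b3 - y + 1))
      ((0) * (2) + (y) * (-n2 + b2 + 2) + (1) * (-n2 + b2 - n3 + b3 - y + 1))) :
    (0 ≤ b1 - 1 ∧ 0 ≤ -y + n2 - b2 + n3 - b3 - 2) ∨ (0 ≤ b1 - 1 ∧ 0 ≤ y - n2 + b2 - n3 + b3 + 1 ∧ 0 ≤ -y + n2 - b2 + n3 - b3 - 1 ∧ 0 ≤ n2 - b2 + n3 - b3 + y - 2) ∨ (0 ≤ b1 - 1 ∧ 0 ≤ y - n2 + b2 - n3 + b3 + 1 ∧ 0 ≤ -y + n2 - b2 + n3 - b3 - 1 ∧ 0 ≤ -n2 + b2 - n3 + b3 - y + 1 ∧ 0 ≤ n2 - b2 + n3 - b3 + y - 1 ∧ 0 ≤ -p0 + n2 - b2 + n3 - b3 + y - 1) := by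
  rcases hf with hf | ⟨hf0, hf⟩ | ⟨hf0, hf1, hf⟩
  · exact Or.inl (⟨by linarith only [hex], by linarith only [hf]⟩)
  · exact Or.inr (Or.inl (⟨by linarith only [hex], by linarith only [hf0], by linarith only [hf0], by linarith only [hf]⟩))
  · exact Or.inr (Or.inr (⟨by linarith only [hex], by linarith only [hf0], by linarith only [hf0], by linarith only [hf1], by linarith only [hf1], by linarith only [hf, ep0]⟩))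

theorem cvG_V2_e3_V3_22 {b1 b2 b3 hp n3 p1 y : ℤ}
    (ep1 : p1 = (y) * (-hp + 1))
    (hex : 0 ≤ b1 + b2 - 1)
    (hf : LexFail ((y) * (-hp + 1) + (0) * (2) + (1) * (-n3 + b3 - y + 1))
      ((0) * (-hp + 1) + (0) * (2) + (1) * (-n3 + b3 - y + 1))
      ((0) * (-hp + 1) + (y) * (2) + (1) * (-n3 + b3 - y + 1))) :
    (0 ≤ b1 + b2 - 1 ∧ 0 ≤ -p1 + n3 - b3 + y - 2) ∨ (0 ≤ b1 + b2 - 1 ∧ 0 ≤ p1 - n3 + b3 - y + 1 ∧ 0 ≤ -p1 + n3 - b3 + y - 1 ∧ 0 ≤ n3 - b3 + y - 2) ∨ (0 ≤ b1 + b2 - 1 ∧ 0 ≤ p1 - n3 + b3 - y + 1 ∧ 0 ≤ -p1 + n3 - b3 + y - 1 ∧ 0 ≤ -n3 + b3 - y + 1 ∧ 0 ≤ n3 - b3 + y - 1 ∧ 0 ≤ -y + n3 - b3 - 1) := by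
  rcases hf with hf | ⟨hf0, hf⟩ | ⟨hf0, hf1, hf⟩
  · exact Or.inl (⟨by linarith only [hex], by linarith only [hf, ep1]⟩)
  · exact Or.inr (Or.inl (⟨by linarith only [hex], by linarith only [hf0, ep1], by linarith only [hf0, ep1], by linarith only [hf]⟩))
  · exact Or.inr (Or.inr (⟨by linarith only [hex], by linarith only [hf0, ep1], by linarith only [hf0, ep1], by linarith only [hf1], by linarith only [hf1], by linarith only [hf]⟩))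

theorem cvG_V2_e3_V3_33 {h3 k p2 p3 y : ℤ}
    (ep2 : p2 = (y) * (-h3))
    (ep3 : p3 = (y) * (-k))
    (hf : LexFail ((y) * (-h3) + (0) * (-k) + (1) * (1))
      ((0) * (-h3) + (0) * (-k) + (1) * (1))
      ((0) * (-h3) + (y) * (-k) + (1) * (1))) :
    0 ≤ -p2 - 2 := by
  rcases hf with hf | ⟨hf0, hf⟩ | ⟨hf0, hf1, hf⟩
  · exact by linarith only [hf, ep2]
  · exfalso; linarith only [hf]
  · exfalso; linarith only [hf1]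

theorem cvG_V2_e3_V3_13 {g p4 y : ℤ}
    (ep4 : p4 = (y) * (-g))
    (hf : LexFail ((y) * (1) + (0) * (-g) + (1) * (-y + 1))
      ((0) * (1) + (0) * (-g) + (1) * (-y + 1))
      ((0) * (1) + (y) * (-g) + (1) * (-y + 1))) :
    False := by
  rcases hf with hf | ⟨hf0, hf⟩ | ⟨hf0, hf1, hf⟩
  · exfalso; linarith only [hf]
  · exfalso; linarith only [hf0]
  · exfalso; linarith only [hf0]

theorem cvG_V2_e3_V3_23 {h m p5 y : ℤ}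
    (ep5 : p5 = (y) * (-h))
    (hf : LexFail ((y) * (-h) + (0) * (1) + (1) * (-m + 1))
      ((0) * (-h) + (0) * (1) + (1) * (-m + 1))
      ((0) * (-h) + (y) * (1) + (1) * (-m + 1))) :
    0 ≤ -p5 + m - 2 ∨ (0 ≤ p5 - m + 1 ∧ 0 ≤ -p5 + m - 1 ∧ 0 ≤ m - 2) ∨ (0 ≤ p5 - m + 1 ∧ 0 ≤ -p5 + m - 1 ∧ 0 ≤ -m + 1 ∧ 0 ≤ m - 1 ∧ 0 ≤ -y + m - 1) := by
  rcases hf with hf | ⟨hf0, hf⟩ | ⟨hf0, hf1, hf⟩
  · exact Or.inl (by linarith only [hf, ep5])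
  · exact Or.inr (Or.inl (⟨by linarith only [hf0, ep5], by linarith only [hf0, ep5], by linarith only [hf]⟩))
  · exact Or.inr (Or.inr (⟨by linarith only [hf0, ep5], by linarith only [hf0, ep5], by linarith only [hf1], by linarith only [hf1], by linarith only [hf]⟩))

theorem Gt_V2_e3_V3 {n1 n2 n3 a1 a2 a3 b1 b2 b3 e y d1 hp h3 k g h m p0 p1 p2 p3 p4 p5 : ℤ}
    (B15 : 0 ≤ e - a1 - a2 + b1 + b2)
    (B16 : 0 ≤ a1 + a2 - b1 - b2 - e)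
    (B17 : 0 ≤ e - 1)
    (B18 : 0 ≤ y + a1 + a2 + a3 - b1 - b2 - b3)
    (B19 : 0 ≤ -a1 - a2 - a3 + b1 + b2 + b3 - y)
    (B20 : 0 ≤ y - 1)
    (B21 : 0 ≤ d1 - a1 + b1)
    (B22 : 0 ≤ a1 - b1 - d1)
    (B23 : 0 ≤ d1 - 1)
    (B24 : 0 ≤ d1 - 1)
    (B25 : 0 ≤ -d1 + 1)
    (B26 : 0 ≤ e - 1)
    (B27 : 0 ≤ -e + 1)
    (ep0 : p0 = (y) * (-n2 + b2 + 2))
    (ep1 : p1 = (y) * (-hp + 1))
    (ep2 : p2 = (y) * (-h3))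
    (ep3 : p3 = (y) * (-k))
    (ep4 : p4 = (y) * (-g))
    (ep5 : p5 = (y) * (-h))
    (w1 : a1 - b1 = 1) (w2 : a1 + a2 - b1 - b2 = 1) (w3 : a1 + a2 + a3 - b1 - b2 - b3 = -y)
    (hno : ¬ ∃ u1 u2 u3 : ℤ, Good n1 n2 n3 a1 a2 a3 b1 b2 b3 u1 u2 u3)
    (hd : ∀ c1 c2 c3, LosC n1 n2 n3 a1 a2 a3 b1 b2 b3 c1 c2 c3 →
      ∃ v ∈ ([⟨0 ≤ b1 - 1, 2, -n2 + b2 + 2, -n2 + b2 - n3 + b3 - y + 1⟩, ⟨0 ≤ b1 + b2 - 1, -hp + 1, 2, -n3 + b3 - y + 1⟩, ⟨True, -h3, -k, 1⟩, ⟨True, 1, -g, -y + 1⟩, ⟨True, -h, 1, -m + 1⟩] : List LV), v.ex ∧ v.c1 ≤ c1 ∧ v.c2 ≤ c2 ∧ v.c3 ≤ c3) :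
    ((0 ≤ b1 - 1 ∧ 0 ≤ -y + n2 - b2 + n3 - b3 - 2) ∨ (0 ≤ b1 - 1 ∧ 0 ≤ y - n2 + b2 - n3 + b3 + 1 ∧ 0 ≤ -y + n2 - b2 + n3 - b3 - 1 ∧ 0 ≤ n2 - b2 + n3 - b3 + y - 2) ∨ (0 ≤ b1 - 1 ∧ 0 ≤ y - n2 + b2 - n3 + b3 + 1 ∧ 0 ≤ -y + n2 - b2 + n3 - b3 - 1 ∧ 0 ≤ -n2 + b2 - n3 + b3 - y + 1 ∧ 0 ≤ n2 - b2 + n3 - b3 + y - 1 ∧ 0 ≤ -p0 + n2 - b2 + n3 - b3 + y - 1)) ∨ ((0 ≤ b1 + b2 - 1 ∧ 0 ≤ -p1 + n3 - b3 + y - 2) ∨ (0 ≤ b1 + b2 - 1 ∧ 0 ≤ p1 - n3 + b3 - y + 1 ∧ 0 ≤ -p1 + n3 - b3 + y - 1 ∧ 0 ≤ n3 - b3 + y - 2) ∨ (0 ≤ b1 + b2 - 1 ∧ 0 ≤ p1 - n3 + b3 - y + 1 ∧ 0 ≤ -p1 + n3 - b3 + y - 1 ∧ 0 ≤ -n3 + b3 - y + 1 ∧ 0 ≤ n3 - b3 + y - 1 ∧ 0 ≤ -y + n3 - b3 - 1)) ∨ (0 ≤ -p2 - 2) ∨ (0 ≤ -p5 + m - 2 ∨ (0 ≤ p5 - m + 1 ∧ 0 ≤ -p5 + m - 1 ∧ 0 ≤ m - 2) ∨ (0 ≤ p5 - m + 1 ∧ 0 ≤ -p5 + m - 1 ∧ 0 ≤ -m + 1 ∧ 0 ≤ m - 1 ∧ 0 ≤ -y + m - 1)) := by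
  obtain ⟨v, hv, hex, hf⟩ := failA' w1 w2 w3 hno _ hd (y) (0) (1) (0) (0) (1) (0) (y) (1)
    ⟨by linarith only [B15, B16, B17, B18, B19, B20, B21, B22, B23, B24, B25, B26, B27], le_refl 0, zero_le_one⟩ ⟨le_refl 0, le_refl 0, zero_le_one⟩ ⟨le_refl 0, by linarith only [B15, B16, B17, B18, B19, B20, B21, B22, B23, B24, B25, B26, B27], zero_le_one⟩
    (Or.inr ⟨by ring, Or.inl (by linarith only [B15, B16, B17, B18, B19, B20, B21, B22, B23, B24, B25, B26, B27])⟩)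
  simp only [List.mem_cons, List.not_mem_nil, or_false] at hv
  rcases hv with rfl | rfl | rfl | rfl | rfl
  · exact Or.inl (cvG_V2_e3_V3_11 ep0 hex hf)
  · exact Or.inr (Or.inl (cvG_V2_e3_V3_22 ep1 hex hf))
  · exact Or.inr (Or.inr (Or.inl (cvG_V2_e3_V3_33 ep2 ep3 hf)))
  · exact (cvG_V2_e3_V3_13 ep4 hf).elim
  · exact Or.inr (Or.inr (Or.inr (cvG_V2_e3_V3_23 ep5 hf)))

theorem T0_11_33 {n1 n2 n3 a1 a2 a3 b1 b2 b3 y h3 k : ℤ}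
    (H : NoTr n1 n2 n3 a1 a2 a3 b1 b2 b3)
    (w1 : a1 - b1 = 1) (w2 : a1 + a2 - b1 - b2 = 1) (w3 : a1 + a2 + a3 - b1 - b2 - b3 = -y)
    (l11 : 0 ≤ b1 - 1 → LosC n1 n2 n3 a1 a2 a3 b1 b2 b3 (2) (-n2 + b2 + 2) (-n2 + b2 - n3 + b3 - y + 1))
    (l33 : LosC n1 n2 n3 a1 a2 a3 b1 b2 b3 (-h3) (-k) (1))
    : 0 ≤ -b1 ∨ 0 ≤ -h3 - 1 ∨ 0 ≤ -n2 + b2 - k - 1 ∨ 0 ≤ -n2 + b2 - n3 + b3 + y + 1 := by
  rcases le_or_gt (b1) 0 with hb0 | hb0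
  · exact Or.inl (by linarith only [hb0])
  rcases H.t0 w1 w2 w3 (l11 (by linarith only [hb0])) l33 with hq | hq | hq
  · exact Or.inr (Or.inl (by linarith only [hq]))
  · exact Or.inr (Or.inr (Or.inl (by linarith only [hq])))
  · exact Or.inr (Or.inr (Or.inr (by linarith only [hq])))

theorem T1_11_33 {n1 n2 n3 a1 a2 a3 b1 b2 b3 y h3 k : ℤ}
    (H : NoTr n1 n2 n3 a1 a2 a3 b1 b2 b3)
    (w1 : a1 - b1 = 1) (w2 : a1 + a2 - b1 - b2 = 1) (w3 : a1 + a2 + a3 - b1 - b2 - b3 = -y)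
    (l11 : 0 ≤ b1 - 1 → LosC n1 n2 n3 a1 a2 a3 b1 b2 b3 (2) (-n2 + b2 + 2) (-n2 + b2 - n3 + b3 - y + 1))
    (l33 : LosC n1 n2 n3 a1 a2 a3 b1 b2 b3 (-h3) (-k) (1))
    : 0 ≤ -b1 ∨ 0 ≤ -h3 ∨ 0 ≤ -n2 + b2 - k ∨ 0 ≤ -n2 + b2 - n3 + b3 + 1 := by
  rcases le_or_gt (b1) 0 with hb0 | hb0
  · exact Or.inl (by linarith only [hb0])
  rcases H.t1 w1 w2 w3 (l11 (by linarith only [hb0])) l33 with hq | hq | hq
  · exact Or.inr (Or.inl (by linarith only [hq]))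
  · exact Or.inr (Or.inr (Or.inl (by linarith only [hq])))
  · exact Or.inr (Or.inr (Or.inr (by linarith only [hq])))

theorem T2_11_33 {n1 n2 n3 a1 a2 a3 b1 b2 b3 y h3 k : ℤ}
    (H : NoTr n1 n2 n3 a1 a2 a3 b1 b2 b3)
    (l11 : 0 ≤ b1 - 1 → LosC n1 n2 n3 a1 a2 a3 b1 b2 b3 (2) (-n2 + b2 + 2) (-n2 + b2 - n3 + b3 - y + 1))
    (l33 : LosC n1 n2 n3 a1 a2 a3 b1 b2 b3 (-h3) (-k) (1))
    : 0 ≤ -b1 ∨ 0 ≤ -h3 + 1 ∨ 0 ≤ -n2 + b2 - k + 1 ∨ 0 ≤ -n2 + b2 - n3 + b3 - y + 1 := by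
  rcases le_or_gt (b1) 0 with hb0 | hb0
  · exact Or.inl (by linarith only [hb0])
  rcases H.t2 (l11 (by linarith only [hb0])) l33 with hq | hq | hq
  · exact Or.inr (Or.inl (by linarith only [hq]))
  · exact Or.inr (Or.inr (Or.inl (by linarith only [hq])))
  · exact Or.inr (Or.inr (Or.inr (by linarith only [hq])))

theorem T0_11_23 {n1 n2 n3 a1 a2 a3 b1 b2 b3 y h m : ℤ}
    (H : NoTr n1 n2 n3 a1 a2 a3 b1 b2 b3)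
    (w1 : a1 - b1 = 1) (w2 : a1 + a2 - b1 - b2 = 1) (w3 : a1 + a2 + a3 - b1 - b2 - b3 = -y)
    (l11 : 0 ≤ b1 - 1 → LosC n1 n2 n3 a1 a2 a3 b1 b2 b3 (2) (-n2 + b2 + 2) (-n2 + b2 - n3 + b3 - y + 1))
    (l23 : LosC n1 n2 n3 a1 a2 a3 b1 b2 b3 (-h) (1) (-m + 1))
    : 0 ≤ -b1 ∨ 0 ≤ -h - 1 ∨ 0 ≤ -n2 + b2 ∨ 0 ≤ -n2 + b2 - n3 + b3 - m + y + 1 := by
  rcases le_or_gt (b1) 0 with hb0 | hb0
  · exact Or.inl (by linarith only [hb0])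
  rcases H.t0 w1 w2 w3 (l11 (by linarith only [hb0])) l23 with hq | hq | hq
  · exact Or.inr (Or.inl (by linarith only [hq]))
  · exact Or.inr (Or.inr (Or.inl (by linarith only [hq])))
  · exact Or.inr (Or.inr (Or.inr (by linarith only [hq])))

theorem T1_22_33 {n1 n2 n3 a1 a2 a3 b1 b2 b3 y hp h3 k : ℤ}
    (H : NoTr n1 n2 n3 a1 a2 a3 b1 b2 b3)
    (w1 : a1 - b1 = 1) (w2 : a1 + a2 - b1 - b2 = 1) (w3 : a1 + a2 + a3 - b1 - b2 - b3 = -y)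
    (l22 : 0 ≤ b1 + b2 - 1 → LosC n1 n2 n3 a1 a2 a3 b1 b2 b3 (-hp + 1) (2) (-n3 + b3 - y + 1))
    (l33 : LosC n1 n2 n3 a1 a2 a3 b1 b2 b3 (-h3) (-k) (1))
    : 0 ≤ -b1 - b2 ∨ 0 ≤ -hp - h3 - 1 ∨ 0 ≤ -k ∨ 0 ≤ -n3 + b3 + 1 := by
  rcases le_or_gt (b1 + b2) 0 with hb0 | hb0
  · exact Or.inl (by linarith only [hb0])
  rcases H.t1 w1 w2 w3 (l22 (by linarith only [hb0])) l33 with hq | hq | hq
  · exact Or.inr (Or.inl (by linarith only [hq]))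
  · exact Or.inr (Or.inr (Or.inl (by linarith only [hq])))
  · exact Or.inr (Or.inr (Or.inr (by linarith only [hq])))

theorem T2_22_33 {n1 n2 n3 a1 a2 a3 b1 b2 b3 y hp h3 k : ℤ}
    (H : NoTr n1 n2 n3 a1 a2 a3 b1 b2 b3)
    (l22 : 0 ≤ b1 + b2 - 1 → LosC n1 n2 n3 a1 a2 a3 b1 b2 b3 (-hp + 1) (2) (-n3 + b3 - y + 1))
    (l33 : LosC n1 n2 n3 a1 a2 a3 b1 b2 b3 (-h3) (-k) (1))
    : 0 ≤ -b1 - b2 ∨ 0 ≤ -hp - h3 ∨ 0 ≤ -k + 1 ∨ 0 ≤ -n3 + b3 - y + 1 := by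
  rcases le_or_gt (b1 + b2) 0 with hb0 | hb0
  · exact Or.inl (by linarith only [hb0])
  rcases H.t2 (l22 (by linarith only [hb0])) l33 with hq | hq | hq
  · exact Or.inr (Or.inl (by linarith only [hq]))
  · exact Or.inr (Or.inr (Or.inl (by linarith only [hq])))
  · exact Or.inr (Or.inr (Or.inr (by linarith only [hq])))

theorem T0_22_13 {n1 n2 n3 a1 a2 a3 b1 b2 b3 y hp g : ℤ}
    (H : NoTr n1 n2 n3 a1 a2 a3 b1 b2 b3)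
    (w1 : a1 - b1 = 1) (w2 : a1 + a2 - b1 - b2 = 1) (w3 : a1 + a2 + a3 - b1 - b2 - b3 = -y)
    (l22 : 0 ≤ b1 + b2 - 1 → LosC n1 n2 n3 a1 a2 a3 b1 b2 b3 (-hp + 1) (2) (-n3 + b3 - y + 1))
    (l13 : LosC n1 n2 n3 a1 a2 a3 b1 b2 b3 (1) (-g) (-y + 1))
    : 0 ≤ -b1 - b2 ∨ 0 ≤ -hp - 1 ∨ 0 ≤ -g - 1 ∨ 0 ≤ -n3 + b3 + 1 := by
  rcases le_or_gt (b1 + b2) 0 with hb0 | hb0
  · exact Or.inl (by linarith only [hb0])
  rcases H.t0 w1 w2 w3 (l22 (by linarith only [hb0])) l13 with hq | hq | hq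
  · exact Or.inr (Or.inl (by linarith only [hq]))
  · exact Or.inr (Or.inr (Or.inl (by linarith only [hq])))
  · exact Or.inr (Or.inr (Or.inr (by linarith only [hq])))

theorem T1_22_13 {n1 n2 n3 a1 a2 a3 b1 b2 b3 y hp g : ℤ}
    (H : NoTr n1 n2 n3 a1 a2 a3 b1 b2 b3)
    (w1 : a1 - b1 = 1) (w2 : a1 + a2 - b1 - b2 = 1) (w3 : a1 + a2 + a3 - b1 - b2 - b3 = -y)
    (l22 : 0 ≤ b1 + b2 - 1 → LosC n1 n2 n3 a1 a2 a3 b1 b2 b3 (-hp + 1) (2) (-n3 + b3 - y + 1))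
    (l13 : LosC n1 n2 n3 a1 a2 a3 b1 b2 b3 (1) (-g) (-y + 1))
    : 0 ≤ -b1 - b2 ∨ 0 ≤ -hp ∨ 0 ≤ -g ∨ 0 ≤ -n3 + b3 - y + 1 := by
  rcases le_or_gt (b1 + b2) 0 with hb0 | hb0
  · exact Or.inl (by linarith only [hb0])
  rcases H.t1 w1 w2 w3 (l22 (by linarith only [hb0])) l13 with hq | hq | hq
  · exact Or.inr (Or.inl (by linarith only [hq]))
  · exact Or.inr (Or.inr (Or.inl (by linarith only [hq])))
  · exact Or.inr (Or.inr (Or.inr (by linarith only [hq])))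

theorem T2_33_13 {n1 n2 n3 a1 a2 a3 b1 b2 b3 y h3 k g : ℤ}
    (H : NoTr n1 n2 n3 a1 a2 a3 b1 b2 b3)
    (l33 : LosC n1 n2 n3 a1 a2 a3 b1 b2 b3 (-h3) (-k) (1))
    (l13 : LosC n1 n2 n3 a1 a2 a3 b1 b2 b3 (1) (-g) (-y + 1))
    : 0 ≤ -h3 ∨ 0 ≤ -k - g - 1 ∨ 0 ≤ -y + 1 := by
  rcases H.t2 l33 l13 with hq | hq | hq
  · exact Or.inl (by linarith only [hq])
  · exact Or.inr (Or.inl (by linarith only [hq]))
  · exact Or.inr (Or.inr (by linarith only [hq]))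

theorem T2_33_23 {n1 n2 n3 a1 a2 a3 b1 b2 b3 h3 k h m : ℤ}
    (H : NoTr n1 n2 n3 a1 a2 a3 b1 b2 b3)
    (l33 : LosC n1 n2 n3 a1 a2 a3 b1 b2 b3 (-h3) (-k) (1))
    (l23 : LosC n1 n2 n3 a1 a2 a3 b1 b2 b3 (-h) (1) (-m + 1))
    : 0 ≤ -h3 - h - 1 ∨ 0 ≤ -k ∨ 0 ≤ -m + 1 := by
  rcases H.t2 l33 l23 with hq | hq | hq
  · exact Or.inl (by linarith only [hq])
  · exact Or.inr (Or.inl (by linarith only [hq]))
  · exact Or.inr (Or.inr (by linarith only [hq]))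

theorem T1_13_23 {n1 n2 n3 a1 a2 a3 b1 b2 b3 y g h m : ℤ}
    (H : NoTr n1 n2 n3 a1 a2 a3 b1 b2 b3)
    (w1 : a1 - b1 = 1) (w2 : a1 + a2 - b1 - b2 = 1) (w3 : a1 + a2 + a3 - b1 - b2 - b3 = -y)
    (l13 : LosC n1 n2 n3 a1 a2 a3 b1 b2 b3 (1) (-g) (-y + 1))
    (l23 : LosC n1 n2 n3 a1 a2 a3 b1 b2 b3 (-h) (1) (-m + 1))
    : 0 ≤ -h - 1 ∨ 0 ≤ -g - 1 ∨ 0 ≤ -m + 1 := by
  rcases H.t1 w1 w2 w3 l13 l23 with hq | hq | hq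
  · exact Or.inl (by linarith only [hq])
  · exact Or.inr (Or.inl (by linarith only [hq]))
  · exact Or.inr (Or.inr (by linarith only [hq]))

theorem T2_13_23 {n1 n2 n3 a1 a2 a3 b1 b2 b3 y g h m : ℤ}
    (H : NoTr n1 n2 n3 a1 a2 a3 b1 b2 b3)
    (l13 : LosC n1 n2 n3 a1 a2 a3 b1 b2 b3 (1) (-g) (-y + 1))
    (l23 : LosC n1 n2 n3 a1 a2 a3 b1 b2 b3 (-h) (1) (-m + 1))
    : 0 ≤ -h ∨ 0 ≤ -g ∨ 0 ≤ -y - m + 1 := by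
  rcases H.t2 l13 l23 with hq | hq | hq
  · exact Or.inl (by linarith only [hq])
  · exact Or.inr (Or.inl (by linarith only [hq]))
  · exact Or.inr (Or.inr (by linarith only [hq]))

theorem main {n1 n2 n3 a1 a2 a3 b1 b2 b3 e y d1 : ℤ}
    (B0 : 0 ≤ a1)
    (B1 : 0 ≤ a2)
    (B2 : 0 ≤ a3)
    (B3 : 0 ≤ b1)
    (B4 : 0 ≤ b2)
    (B5 : 0 ≤ b3)
    (B6 : 0 ≤ n1 - a1)
    (B7 : 0 ≤ n2 - a2)
    (B8 : 0 ≤ n3 - a3)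
    (B9 : 0 ≤ n1 - b1)
    (B10 : 0 ≤ n2 - b2)
    (B11 : 0 ≤ n3 - b3)
    (B12 : 0 ≤ n1 - 1)
    (B13 : 0 ≤ n2 - 1)
    (B14 : 0 ≤ n3 - 1)
    (B15 : 0 ≤ e - a1 - a2 + b1 + b2)
    (B16 : 0 ≤ a1 + a2 - b1 - b2 - e)
    (B17 : 0 ≤ e - 1)
    (B18 : 0 ≤ y + a1 + a2 + a3 - b1 - b2 - b3)
    (B19 : 0 ≤ -a1 - a2 - a3 + b1 + b2 + b3 - y)
    (B20 : 0 ≤ y - 1)
    (B21 : 0 ≤ d1 - a1 + b1)
    (B22 : 0 ≤ a1 - b1 - d1)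
    (B23 : 0 ≤ d1 - 1)
    (B24 : 0 ≤ d1 - 1)
    (B25 : 0 ≤ -d1 + 1)
    (B26 : 0 ≤ e - 1)
    (B27 : 0 ≤ -e + 1)
    (C_c1 : (0 ≤ a1 - 1 ∧ 0 ≤ n2 - a2 - 1) ∨ (0 ≤ b1 - 1 ∧ 0 ≤ n2 - b2 - 1))
    (C_c2 : (0 ≤ a2 - 1 ∧ 0 ≤ n3 - a3 - 1) ∨ (0 ≤ b2 - 1 ∧ 0 ≤ n3 - b3 - 1))
    (nF1 : 0 ≤ -n1 - b1 + 2 * a1 - 1 ∨ 0 ≤ n1 + b1 - 2 * a1 - 1 ∨ 0 ≤ n2 - a2 - 2 ∨ 0 ≤ -n2 + a2 ∨ 0 ≤ n3 - a3 - n1 + a1 - 2 ∨ 0 ≤ -n3 + a3 + n1 - a1 ∨ 0 ≤ n2 - b2 - 2 ∨ 0 ≤ -n2 + b2 ∨ 0 ≤ n3 - b3 - 1 ∨ 0 ≤ -b1 ∨ 0 ≤ -n2 + 2 ∨ 0 ≤ 2 * n1 - 2 * a1 - n3 + 2 ∨ 0 ≤ -n1 + a1)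
    (nF2 : 0 ≤ a2 - 2 ∨ 0 ≤ -a2 ∨ 0 ≤ a3 - a1 - 2 ∨ 0 ≤ -a3 + a1 ∨ 0 ≤ b1 - 1 ∨ 0 ≤ b2 - 2 ∨ 0 ≤ -b2 ∨ 0 ≤ b3 - 2 * a1 - 3 ∨ 0 ≤ -b3 + 2 * a1 + 1 ∨ 0 ≤ n3 - 2 * a1 - 4 ∨ 0 ≤ -n3 + 2 * a1 + 2 ∨ 0 ≤ 2 * a1 - n1 ∨ 0 ≤ -n2 + 2 ∨ 0 ≤ -a1)
    (H : NoTr n1 n2 n3 a1 a2 a3 b1 b2 b3)
    (hno : ¬ ∃ u1 u2 u3 : ℤ, Good n1 n2 n3 a1 a2 a3 b1 b2 b3 u1 u2 u3) : False := by
  have w1 : a1 - b1 = 1 := by linarith only [B15, B16, B17, B18, B19, B20, B21, B22, B23, B24, B25, B26, B27]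
  have w2 : a1 + a2 - b1 - b2 = 1 := by linarith only [B15, B16, B17, B18, B19, B20, B21, B22, B23, B24, B25, B26, B27]
  have w3 : a1 + a2 + a3 - b1 - b2 - b3 = -y := by linarith only [B15, B16, B17, B18, B19, B20, B21, B22, B23, B24, B25, B26, B27]
  obtain ⟨hp, rhp1, rhp2, rhp3⟩ := min_facts (n1 - b1) (b2 - 1)
  have B28 : 0 ≤ n1 - b1 - hp := by linarith only [rhp1]
  have B29 : 0 ≤ b2 - hp - 1 := by linarith only [rhp2]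
  have C_Dhp : 0 ≤ hp - n1 + b1 ∨ 0 ≤ hp - b2 + 1 := rhp3.imp (fun hq => by linarith only [hq]) (fun hq => by linarith only [hq])
  clear rhp1 rhp2 rhp3
  obtain ⟨h3, rh31, rh32, rh33⟩ := min_facts (n1 - a1) (a2 + a3 - 1)
  have B30 : 0 ≤ n1 - a1 - h3 := by linarith only [rh31]
  have B31 : 0 ≤ a2 + a3 - h3 - 1 := by linarith only [rh32]
  have C_Dh3 : 0 ≤ h3 - n1 + a1 ∨ 0 ≤ h3 - a2 - a3 + 1 := rh33.imp (fun hq => by linarith only [hq]) (fun hq => by linarith only [hq])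
  clear rh31 rh32 rh33
  obtain ⟨k, rk1, rk2, rk3⟩ := min_facts (n1 - a1 + n2 - a2) (a3 - 1)
  have B32 : 0 ≤ n1 - a1 + n2 - a2 - k := by linarith only [rk1]
  have B33 : 0 ≤ a3 - k - 1 := by linarith only [rk2]
  have C_Dk : 0 ≤ k - n1 + a1 - n2 + a2 ∨ 0 ≤ k - a3 + 1 := rk3.imp (fun hq => by linarith only [hq]) (fun hq => by linarith only [hq])
  clear rk1 rk2 rk3
  obtain ⟨g, rg1, rg2, rg3⟩ := min_facts (n2 - a2 - 1) (a3 + y - 1)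
  have B34 : 0 ≤ n2 - a2 - g - 1 := by linarith only [rg1]
  have B35 : 0 ≤ a3 + y - g - 1 := by linarith only [rg2]
  have C_Dg : 0 ≤ g - n2 + a2 + 1 ∨ 0 ≤ g - a3 - y + 1 := rg3.imp (fun hq => by linarith only [hq]) (fun hq => by linarith only [hq])
  clear rg1 rg2 rg3
  obtain ⟨h, rh1, rh2, rh3⟩ := min_facts (n1 - a1) (a2 - 1)
  have B36 : 0 ≤ n1 - a1 - h := by linarith only [rh1]
  have B37 : 0 ≤ a2 - h - 1 := by linarith only [rh2]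
  have C_Dh : 0 ≤ h - n1 + a1 ∨ 0 ≤ h - a2 + 1 := rh3.imp (fun hq => by linarith only [hq]) (fun hq => by linarith only [hq])
  clear rh1 rh2 rh3
  obtain ⟨m, rm1, rm2, rm3⟩ := min_facts (y) (n3 - a3)
  have B38 : 0 ≤ y - m := by linarith only [rm1]
  have B39 : 0 ≤ n3 - a3 - m := by linarith only [rm2]
  have C_Dm : 0 ≤ m - y ∨ 0 ≤ m - n3 + a3 := rm3.imp (fun hq => by linarith only [hq]) (fun hq => by linarith only [hq])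
  clear rm1 rm2 rm3
  have l11 : 0 ≤ b1 - 1 → LosC n1 n2 n3 a1 a2 a3 b1 b2 b3 (2) (-n2 + b2 + 2) (-n2 + b2 - n3 + b3 - y + 1) := fun hq => los11 B0 B1 B2 B3 B4 B5 B6 B7 B8 B9 B10 B11 B12 B13 B14 B15 B16 B17 B18 B19 B20 B21 B22 B23 B24 B25 B26 B27 hq
  have l22 : 0 ≤ b1 + b2 - 1 → LosC n1 n2 n3 a1 a2 a3 b1 b2 b3 (-hp + 1) (2) (-n3 + b3 - y + 1) := fun hq => los22 B0 B1 B2 B3 B4 B5 B6 B7 B8 B9 B10 B11 B12 B13 B14 B15 B16 B17 B18 B19 B20 B21 B22 B23 B24 B25 B26 B27 B28 B29 C_Dhp hq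
  have l33 : LosC n1 n2 n3 a1 a2 a3 b1 b2 b3 (-h3) (-k) (1) := los33 B0 B1 B2 B3 B4 B5 B6 B7 B8 B9 B10 B11 B12 B13 B14 B15 B16 B17 B18 B19 B20 B21 B22 B23 B24 B25 B26 B27 B30 B31 B32 B33 C_Dh3 C_Dk
  have l13 : LosC n1 n2 n3 a1 a2 a3 b1 b2 b3 (1) (-g) (-y + 1) := los13 B0 B1 B2 B3 B4 B5 B6 B7 B8 B9 B10 B11 B12 B13 B14 B15 B16 B17 B18 B19 B20 B21 B22 B23 B24 B25 B26 B27 B34 B35 C_Dg
  have l23 : LosC n1 n2 n3 a1 a2 a3 b1 b2 b3 (-h) (1) (-m + 1) := los23 B0 B1 B2 B3 B4 B5 B6 B7 B8 B9 B10 B11 B12 B13 B14 B15 B16 B17 B18 B19 B20 B21 B22 B23 B24 B25 B26 B27 B36 B37 B38 B39 C_Dh C_Dm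
  have hd := hd B0 B1 B2 B3 B4 B5 B6 B7 B8 B9 B10 B11 B12 B13 B14 B15 B16 B17 B18 B19 B20 B21 B22 B23 B24 B25 B26 B27 B28 B29 B30 B31 B32 B33 B34 B35 B36 B37 B38 B39 C_Dhp C_Dh3 C_Dk C_Dg C_Dh C_Dm
  obtain ⟨p0, ep0⟩ : ∃ p, p = (y) * (-n2 + b2 + 2) := ⟨_, rfl⟩
  have C_Dp0_c : (0 ≤ n2 - b2 - 2 ∧ 0 ≤ -p0) ∨ (0 ≤ -n2 + b2 + 1 ∧ 0 ≤ p0 - y) :=
    (prod_split' (0) ep0 (by linarith only [B15, B16, B17, B18, B19, B20, B21, B22, B23, B24, B25, B26, B27])).imp (fun hq => ⟨by linarith only [hq.1], by linarith only [hq.2]⟩)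
      (fun hq => ⟨by linarith only [hq.1], by linarith only [hq.2]⟩)
  have C_Dp0_d : (0 ≤ n2 - b2 - 1 ∧ 0 ≤ y - p0) ∨ (0 ≤ -n2 + b2 ∧ 0 ≤ p0 - 2 * y) :=
    (prod_split' (1) ep0 (by linarith only [B15, B16, B17, B18, B19, B20, B21, B22, B23, B24, B25, B26, B27])).imp (fun hq => ⟨by linarith only [hq.1], by linarith only [hq.2]⟩)
      (fun hq => ⟨by linarith only [hq.1], by linarith only [hq.2]⟩)
  obtain ⟨p1, ep1⟩ : ∃ p, p = (y) * (-hp + 1) := ⟨_, rfl⟩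
  have C_Dp1_a : (0 ≤ hp - 3 ∧ 0 ≤ -2 * y - p1) ∨ (0 ≤ -hp + 2 ∧ 0 ≤ p1 + y) :=
    (prod_split' (-2) ep1 (by linarith only [B15, B16, B17, B18, B19, B20, B21, B22, B23, B24, B25, B26, B27])).imp (fun hq => ⟨by linarith only [hq.1], by linarith only [hq.2]⟩)
      (fun hq => ⟨by linarith only [hq.1], by linarith only [hq.2]⟩)
  have C_Dp1_b : (0 ≤ hp - 2 ∧ 0 ≤ -y - p1) ∨ (0 ≤ -hp + 1 ∧ 0 ≤ p1) :=
    (prod_split' (-1) ep1 (by linarith only [B15, B16, B17, B18, B19, B20, B21, B22, B23, B24, B25, B26, B27])).imp (fun hq => ⟨by linarith only [hq.1], by linarith only [hq.2]⟩)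
      (fun hq => ⟨by linarith only [hq.1], by linarith only [hq.2]⟩)
  have C_Dp1_c : (0 ≤ hp - 1 ∧ 0 ≤ -p1) ∨ (0 ≤ -hp ∧ 0 ≤ p1 - y) :=
    (prod_split' (0) ep1 (by linarith only [B15, B16, B17, B18, B19, B20, B21, B22, B23, B24, B25, B26, B27])).imp (fun hq => ⟨by linarith only [hq.1], by linarith only [hq.2]⟩)
      (fun hq => ⟨by linarith only [hq.1], by linarith only [hq.2]⟩)
  have C_Dp1_d : (0 ≤ hp ∧ 0 ≤ y - p1) ∨ (0 ≤ -hp - 1 ∧ 0 ≤ p1 - 2 * y) :=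
    (prod_split' (1) ep1 (by linarith only [B15, B16, B17, B18, B19, B20, B21, B22, B23, B24, B25, B26, B27])).imp (fun hq => ⟨by linarith only [hq.1], by linarith only [hq.2]⟩)
      (fun hq => ⟨by linarith only [hq.1], by linarith only [hq.2]⟩)
  obtain ⟨p2, ep2⟩ : ∃ p, p = (y) * (-h3) := ⟨_, rfl⟩
  have C_Dp2_a : (0 ≤ h3 - 2 ∧ 0 ≤ -2 * y - p2) ∨ (0 ≤ -h3 + 1 ∧ 0 ≤ p2 + y) :=
    (prod_split' (-2) ep2 (by linarith only [B15, B16, B17, B18, B19, B20, B21, B22, B23, B24, B25, B26, B27])).imp (fun hq => ⟨by linarith only [hq.1], by linarith only [hq.2]⟩)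
      (fun hq => ⟨by linarith only [hq.1], by linarith only [hq.2]⟩)
  have C_Dp2_b : (0 ≤ h3 - 1 ∧ 0 ≤ -y - p2) ∨ (0 ≤ -h3 ∧ 0 ≤ p2) :=
    (prod_split' (-1) ep2 (by linarith only [B15, B16, B17, B18, B19, B20, B21, B22, B23, B24, B25, B26, B27])).imp (fun hq => ⟨by linarith only [hq.1], by linarith only [hq.2]⟩)
      (fun hq => ⟨by linarith only [hq.1], by linarith only [hq.2]⟩)
  have C_Dp2_c : (0 ≤ h3 ∧ 0 ≤ -p2) ∨ (0 ≤ -h3 - 1 ∧ 0 ≤ p2 - y) :=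
    (prod_split' (0) ep2 (by linarith only [B15, B16, B17, B18, B19, B20, B21, B22, B23, B24, B25, B26, B27])).imp (fun hq => ⟨by linarith only [hq.1], by linarith only [hq.2]⟩)
      (fun hq => ⟨by linarith only [hq.1], by linarith only [hq.2]⟩)
  obtain ⟨p3, ep3⟩ : ∃ p, p = (y) * (-k) := ⟨_, rfl⟩
  have C_Dp3_a : (0 ≤ k - 2 ∧ 0 ≤ -2 * y - p3) ∨ (0 ≤ -k + 1 ∧ 0 ≤ p3 + y) :=
    (prod_split' (-2) ep3 (by linarith only [B15, B16, B17, B18, B19, B20, B21, B22, B23, B24, B25, B26, B27])).imp (fun hq => ⟨by linarith only [hq.1], by linarith only [hq.2]⟩)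
      (fun hq => ⟨by linarith only [hq.1], by linarith only [hq.2]⟩)
  have C_Dp3_b : (0 ≤ k - 1 ∧ 0 ≤ -y - p3) ∨ (0 ≤ -k ∧ 0 ≤ p3) :=
    (prod_split' (-1) ep3 (by linarith only [B15, B16, B17, B18, B19, B20, B21, B22, B23, B24, B25, B26, B27])).imp (fun hq => ⟨by linarith only [hq.1], by linarith only [hq.2]⟩)
      (fun hq => ⟨by linarith only [hq.1], by linarith only [hq.2]⟩)
  obtain ⟨p4, ep4⟩ : ∃ p, p = (y) * (-g) := ⟨_, rfl⟩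
  have C_Dp4_b : (0 ≤ g - 1 ∧ 0 ≤ -y - p4) ∨ (0 ≤ -g ∧ 0 ≤ p4) :=
    (prod_split' (-1) ep4 (by linarith only [B15, B16, B17, B18, B19, B20, B21, B22, B23, B24, B25, B26, B27])).imp (fun hq => ⟨by linarith only [hq.1], by linarith only [hq.2]⟩)
      (fun hq => ⟨by linarith only [hq.1], by linarith only [hq.2]⟩)
  have C_Dp4_c : (0 ≤ g ∧ 0 ≤ -p4) ∨ (0 ≤ -g - 1 ∧ 0 ≤ p4 - y) :=
    (prod_split' (0) ep4 (by linarith only [B15, B16, B17, B18, B19, B20, B21, B22, B23, B24, B25, B26, B27])).imp (fun hq => ⟨by linarith only [hq.1], by linarith only [hq.2]⟩)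
      (fun hq => ⟨by linarith only [hq.1], by linarith only [hq.2]⟩)
  obtain ⟨p5, ep5⟩ : ∃ p, p = (y) * (-h) := ⟨_, rfl⟩
  have C_Dp5_b : (0 ≤ h - 1 ∧ 0 ≤ -y - p5) ∨ (0 ≤ -h ∧ 0 ≤ p5) :=
    (prod_split' (-1) ep5 (by linarith only [B15, B16, B17, B18, B19, B20, B21, B22, B23, B24, B25, B26, B27])).imp (fun hq => ⟨by linarith only [hq.1], by linarith only [hq.2]⟩)
      (fun hq => ⟨by linarith only [hq.1], by linarith only [hq.2]⟩)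
  have C_Dp5_c : (0 ≤ h ∧ 0 ≤ -p5) ∨ (0 ≤ -h - 1 ∧ 0 ≤ p5 - y) :=
    (prod_split' (0) ep5 (by linarith only [B15, B16, B17, B18, B19, B20, B21, B22, B23, B24, B25, B26, B27])).imp (fun hq => ⟨by linarith only [hq.1], by linarith only [hq.2]⟩)
      (fun hq => ⟨by linarith only [hq.1], by linarith only [hq.2]⟩)
  have FA := FAt B15 B16 B17 B18 B19 B20 B21 B22 B23 B24 B25 B26 B27 ep0 ep1 ep2 ep3 ep4 ep5 w1 w2 w3 hno hd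
  have FB := FBt B15 B16 B17 B18 B19 B20 B21 B22 B23 B24 B25 B26 B27 ep0 ep1 ep2 ep3 ep4 ep5 w1 w2 w3 hno hd
  have G_V3_V2_e3 := Gt_V3_V2_e3 B15 B16 B17 B18 B19 B20 B21 B22 B23 B24 B25 B26 B27 ep0 ep1 ep2 ep3 ep4 ep5 w1 w2 w3 hno hd
  have G_V2_V3_e3 := Gt_V2_V3_e3 B15 B16 B17 B18 B19 B20 B21 B22 B23 B24 B25 B26 B27 ep0 ep1 ep2 ep3 ep4 ep5 w1 w2 w3 hno hd
  have G_e3_V2_V3 := Gt_e3_V2_V3 B15 B16 B17 B18 B19 B20 B21 B22 B23 B24 B25 B26 B27 ep0 ep1 ep2 ep3 ep4 ep5 w1 w2 w3 hno hd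
  have G_e3_V3_V2 := Gt_e3_V3_V2 B15 B16 B17 B18 B19 B20 B21 B22 B23 B24 B25 B26 B27 ep0 ep1 ep2 ep3 ep4 ep5 w1 w2 w3 hno hd
  have G_V3_e3_V2 := Gt_V3_e3_V2 B15 B16 B17 B18 B19 B20 B21 B22 B23 B24 B25 B26 B27 ep0 ep1 ep2 ep3 ep4 ep5 w1 w2 w3 hno hd
  have G_V2_e3_V3 := Gt_V2_e3_V3 B15 B16 B17 B18 B19 B20 B21 B22 B23 B24 B25 B26 B27 ep0 ep1 ep2 ep3 ep4 ep5 w1 w2 w3 hno hd
  have t0_11_33 := T0_11_33 H w1 w2 w3 l11 l33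
  have t1_11_33 := T1_11_33 H w1 w2 w3 l11 l33
  have t2_11_33 := T2_11_33 H l11 l33
  have t0_11_23 := T0_11_23 H w1 w2 w3 l11 l23
  have t1_22_33 := T1_22_33 H w1 w2 w3 l22 l33
  have t2_22_33 := T2_22_33 H l22 l33
  have t0_22_13 := T0_22_13 H w1 w2 w3 l22 l13
  have t1_22_13 := T1_22_13 H w1 w2 w3 l22 l13
  have t2_33_13 := T2_33_13 H l33 l13
  have t2_33_23 := T2_33_23 H l33 l23
  have t1_13_23 := T1_13_23 H w1 w2 w3 l13 l23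
  have t2_13_23 := T2_13_23 H l13 l23
  rcases FA with ⟨f0_0, f0_1, f0_2⟩ | ⟨f0_0, f0_1, f0_2⟩ | ⟨f0_0, f0_1⟩ | ⟨f0_0, f0_1⟩
  · rcases FB with ⟨f1_0, f1_1, f1_2⟩ | ⟨f1_0, f1_1, f1_2⟩ | ⟨f1_0, f1_1⟩ | ⟨f1_0, f1_1⟩ | ⟨f1_0, f1_1⟩
    · exact g0 B6 B11 B16 B17 B19 B20 B21 B25 B38 f0_0 f0_1 C_c1 C_c2 C_Dh C_Dm C_Dp5_c t0_11_23
    · exact g1 B2 B6 B15 B16 B17 B20 B21 B22 B23 B25 B27 B34 f0_0 f1_1 C_c1 C_c2 C_Dh3 C_Dk C_Dg C_Dp0_d C_Dp4_c t0_11_33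
    · exact g2 B6 B11 B16 B17 B19 B20 B21 B25 B38 f0_0 f0_1 C_c1 C_c2 C_Dh C_Dm t0_11_23
    · exact g3 B6 B11 B16 B17 B19 B20 B21 B25 B34 B38 f0_0 f0_1 f1_1 C_c2 C_Dh C_Dm C_Dp0_d C_Dp4_c t0_11_23
    · exact g4 B38 f1_0
  · rcases FB with ⟨f1_0, f1_1, f1_2⟩ | ⟨f1_0, f1_1, f1_2⟩ | ⟨f1_0, f1_1⟩ | ⟨f1_0, f1_1⟩ | ⟨f1_0, f1_1⟩
    · exact g5 B6 B11 B16 B17 B19 B20 B21 B25 B38 f1_0 C_c1 C_c2 C_Dh C_Dm C_Dp0_c C_Dp5_c f1_2 t0_11_23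
    · exact g6 B2 B6 B15 B20 B22 B23 B27 f0_0 f1_1 C_c1 C_c2 C_Dhp C_Dg C_Dp4_c t0_22_13
    · exact g7 B1 B4 B6 B11 B15 B16 B17 B18 B19 B20 B21 B22 B23 B25 B27 B28 B29 B30 B32 B33 B34 B37 B38 f0_0 f1_0 C_c1 C_c2 C_Dhp C_Dh3 C_Dg C_Dh C_Dm C_Dp0_c C_Dp0_d C_Dp1_a C_Dp1_b C_Dp1_c C_Dp1_d C_Dp2_a C_Dp2_b C_Dp2_c C_Dp3_a C_Dp3_b C_Dp4_b C_Dp4_c C_Dp5_b f0_2 f1_1 t2_33_23 t1_22_33 t2_13_23 t2_22_33 t1_11_33 t2_11_33 G_V3_e3_V2 G_e3_V3_V2 G_V3_V2_e3 nF1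
    · exact g8 B6 B11 B15 B16 B17 B19 B20 B21 B22 B23 B25 B27 B28 B29 B38 f0_0 f1_1 C_c2 C_Dhp C_Dh C_Dm C_Dp1_b C_Dp1_c C_Dp4_b C_Dp4_c f0_2 t1_13_23 t0_22_13 t1_22_13 t2_13_23
    · exact g9 B38 f1_0
  · rcases FB with ⟨f1_0, f1_1, f1_2⟩ | ⟨f1_0, f1_1, f1_2⟩ | ⟨f1_0, f1_1⟩ | ⟨f1_0, f1_1⟩ | ⟨f1_0, f1_1⟩
    · exact g10 B11 B16 B17 B19 B20 B21 B25 B30 B38 f0_0 f1_0 C_c1 C_c2 C_Dh C_Dm C_Dp0_c C_Dp2_b C_Dp5_c f1_2 t0_11_23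
    · exact g11 B2 B15 B20 B22 B23 B27 B30 f0_0 f1_0 f1_1 C_c1 C_c2 C_Dhp C_Dg C_Dp2_b t0_22_13
    · exact g12 B3 B11 B15 B16 B17 B18 B19 B20 B21 B22 B23 B25 B27 B29 B30 B31 B32 B33 B34 B37 B38 f0_0 f1_0 C_c1 C_c2 C_Dhp C_Dh3 C_Dk C_Dg C_Dh C_Dm C_Dp0_c C_Dp0_d C_Dp1_b C_Dp1_c C_Dp1_d C_Dp2_a C_Dp2_b C_Dp3_a C_Dp3_b C_Dp4_b C_Dp4_c C_Dp5_b C_Dp5_c t2_33_13 t1_11_33 t1_22_33 t2_13_23 t2_11_33 t2_22_33 G_e3_V2_V3 G_e3_V3_V2 G_V3_V2_e3 G_V3_e3_V2 G_V2_e3_V3 G_V2_V3_e3 nF1 nF2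
    · exact g13 B3 B11 B15 B16 B17 B18 B19 B20 B21 B22 B23 B25 B27 B29 B30 B31 B33 B34 B37 B38 f0_0 f1_1 C_c1 C_c2 C_Dhp C_Dk C_Dh C_Dm C_Dp0_c C_Dp1_c C_Dp1_d C_Dp2_a C_Dp2_b C_Dp3_a C_Dp3_b C_Dp4_b C_Dp4_c C_Dp5_b C_Dp5_c f0_1 t1_13_23 t2_13_23 t1_11_33 t1_22_33 t2_22_33 G_e3_V2_V3 G_V2_V3_e3 nF2
    · exact g14 B38 f1_0
  · rcases FB with ⟨f1_0, f1_1, f1_2⟩ | ⟨f1_0, f1_1, f1_2⟩ | ⟨f1_0, f1_1⟩ | ⟨f1_0, f1_1⟩ | ⟨f1_0, f1_1⟩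
    · exact g15 B11 B16 B17 B19 B20 B21 B25 B38 f0_0 f1_0 C_c1 C_Dm C_Dp0_c C_Dp5_c f1_2 t0_11_23
    · exact g16 B2 B6 B15 B20 B22 B23 B27 B37 B38 f0_0 f1_0 f1_1 C_c1 C_Dhp C_Dg C_Dp5_c t0_22_13
    · exact g17 B3 B6 B11 B12 B15 B16 B17 B18 B19 B20 B21 B22 B23 B25 B27 B29 B30 B33 B34 B36 B37 B38 f0_0 f1_0 C_c1 C_Dhp C_Dh3 C_Dg C_Dm C_Dp0_c C_Dp0_d C_Dp1_b C_Dp2_a C_Dp2_b C_Dp3_a C_Dp3_b C_Dp4_b C_Dp4_c C_Dp5_b C_Dp5_c f0_1 t2_33_23 t2_13_23 t1_22_33 t2_11_33 t2_22_33 t1_11_33 G_e3_V3_V2 G_V3_V2_e3 G_V3_e3_V2 nF1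
    · exact g18 B11 B16 B17 B19 B20 B38 f0_0 f1_1 C_Dm C_Dp4_b C_Dp4_c C_Dp5_b C_Dp5_c f0_1 t1_13_23 t2_13_23
    · exact g19 B38 f1_0

end WG3.IVP
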