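import Pool.Agent.Work.MP_5465ec_co.Core

set_option linter.all false

namespace WG3.IpN

theorem g0 {a1 a2 a3 b1 b2 b3 d1 h3 k n1 n2 n3 p0 p2 x z : ℤ}
    (B1 : 0 ≤ a2)
    (B5 : 0 ≤ b3)
    (B6 : 0 ≤ n1 - a1)
    (B8 : 0 ≤ n3 - a3)
    (B9 : 0 ≤ n1 - b1)
    (B10 : 0 ≤ n2 - b2)
    (B16 : 0 ≤ -a1 - a2 + b1 + b2 - x)
    (B17 : 0 ≤ x - 1)
    (B19 : 0 ≤ a1 + a2 + a3 - b1 - b2 - b3 - z)
    (B20 : 0 ≤ z - 1)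
    (B22 : 0 ≤ a1 - b1 - d1)
    (B23 : 0 ≤ d1 - 1)
    (B28 : 0 ≤ n1 - b1 - h3)
    (B31 : 0 ≤ b3 - k - 1)
    (B36 : 0 ≤ b1 - 1)
    (B37 : 0 ≤ -d1 - p0 - 1)
    (D4 : 0 ≤ h3 - n1 + b1 ∨ 0 ≤ h3 - b2 - b3 + 1)
    (D5 : 0 ≤ k - n1 + b1 - n2 + b2 ∨ 0 ≤ k - b3 + 1)
    (D8 : (0 ≤ n2 - b2 - 2 ∧ 0 ≤ -2 * d1 - p0) ∨ (0 ≤ -n2 + b2 + 1 ∧ 0 ≤ p0 + d1))
    (D18 : (0 ≤ k + 1 ∧ 0 ≤ -p2) ∨ (0 ≤ -k - 2 ∧ 0 ≤ p2 - d1))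
    (D26 : 0 ≤ -b1 ∨ 0 ≤ -h3 ∨ 0 ≤ -n2 + b2 - k ∨ 0 ≤ -n2 + b2 - n3 + b3 + 1) : False := by
  have E4 := D4
  have E5 := D5
  have E8 : (0 ≤ n2 - b2 - 2 ∧ 0 ≤ -2 * d1 - p0) := by
    rcases D8 with H8 | H8
    · exact H8
    · linarith only [B37, H8.2]
  have E18 := D18
  have E26 : 0 ≤ -h3 ∨ 0 ≤ -n2 + b2 - k := by
    rcases D26 with H26 | H26 | H26 | H26
    · linarith only [B36, H26]
    · exact Or.inl H26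
    · exact Or.inr H26
    · linarith only [B20, B17, B10, B8, H26, B16, B19]
  have H8 := E8
  rcases E5 with H5 | H5
  · rcases E4 with H4 | H4
    · rcases E26 with H26 | H26
      · linarith only [H26, B6, B22, B23, H4]
      · linarith only [H8.1, B9, H26, H5]
    · linarith only [H8.1, B17, B31, H5, B16, B28, B1, B22, H4, B23]
  · rcases E18 with H18 | H18
    · rcases E26 with H26 | H26
      · rcases E4 with H4 | H4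
        · linarith only [H26, B6, B22, B23, H4]
        · linarith only [B17, B16, B1, B5, B22, B23, H4, H26]
      · linarith only [H8.1, H26, H18.1]
    · linarith only [H18.1, H5, B5]

theorem g1 {a1 a2 a3 b1 b2 b3 d1 h3 k n1 n2 n3 p0 p2 x z : ℤ}
    (B1 : 0 ≤ a2)
    (B5 : 0 ≤ b3)
    (B6 : 0 ≤ n1 - a1)
    (B9 : 0 ≤ n1 - b1)
    (B10 : 0 ≤ n2 - b2)
    (B16 : 0 ≤ -a1 - a2 + b1 + b2 - x)
    (B17 : 0 ≤ x - 1)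
    (B19 : 0 ≤ a1 + a2 + a3 - b1 - b2 - b3 - z)
    (B20 : 0 ≤ z - 1)
    (B22 : 0 ≤ a1 - b1 - d1)
    (B23 : 0 ≤ d1 - 1)
    (B28 : 0 ≤ n1 - b1 - h3)
    (B31 : 0 ≤ b3 - k - 1)
    (B36 : 0 ≤ b1 - 1)
    (B37 : 0 ≤ -d1 - p0 - 1)
    (B39 : 0 ≤ n3 - a3 - 1)
    (D4 : 0 ≤ h3 - n1 + b1 ∨ 0 ≤ h3 - b2 - b3 + 1)
    (D5 : 0 ≤ k - n1 + b1 - n2 + b2 ∨ 0 ≤ k - b3 + 1)
    (D8 : (0 ≤ n2 - b2 - 2 ∧ 0 ≤ -2 * d1 - p0) ∨ (0 ≤ -n2 + b2 + 1 ∧ 0 ≤ p0 + d1))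
    (D18 : (0 ≤ k + 1 ∧ 0 ≤ -p2) ∨ (0 ≤ -k - 2 ∧ 0 ≤ p2 - d1))
    (D25 : 0 ≤ -b1 ∨ 0 ≤ -h3 ∨ 0 ≤ -n2 + b2 - k ∨ 0 ≤ -n2 + b2 - n3 + b3 + 1) : False := by
  have E4 := D4
  have E5 := D5
  have E8 : (0 ≤ n2 - b2 - 2 ∧ 0 ≤ -2 * d1 - p0) := by
    rcases D8 with H8 | H8
    · exact H8
    · linarith only [B37, H8.2]
  have E18 := D18
  have E25 : 0 ≤ -h3 ∨ 0 ≤ -n2 + b2 - k := by
    rcases D25 with H25 | H25 | H25 | H25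
    · linarith only [B36, H25]
    · exact Or.inl H25
    · exact Or.inr H25
    · linarith only [B20, B17, B10, B39, H25, B16, B19]
  have H8 := E8
  rcases E5 with H5 | H5
  · rcases E4 with H4 | H4
    · rcases E25 with H25 | H25
      · linarith only [H25, B6, B22, B23, H4]
      · linarith only [H8.1, B9, H25, H5]
    · linarith only [H8.1, B17, B31, H5, B16, B28, B1, B22, H4, B23]
  · rcases E18 with H18 | H18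
    · rcases E25 with H25 | H25
      · rcases E4 with H4 | H4
        · linarith only [H25, B6, B22, B23, H4]
        · linarith only [B17, B16, B1, B5, B22, B23, H4, H25]
      · linarith only [H8.1, H18.1, H25]
    · linarith only [H18.1, B5, H5]

theorem g2 {a1 a2 a3 b1 b2 b3 d1 h3 k n1 n2 n3 p0 p2 x z : ℤ}
    (B1 : 0 ≤ a2)
    (B5 : 0 ≤ b3)
    (B6 : 0 ≤ n1 - a1)
    (B9 : 0 ≤ n1 - b1)
    (B10 : 0 ≤ n2 - b2)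
    (B16 : 0 ≤ -a1 - a2 + b1 + b2 - x)
    (B17 : 0 ≤ x - 1)
    (B19 : 0 ≤ a1 + a2 + a3 - b1 - b2 - b3 - z)
    (B20 : 0 ≤ z - 1)
    (B22 : 0 ≤ a1 - b1 - d1)
    (B23 : 0 ≤ d1 - 1)
    (B28 : 0 ≤ n1 - b1 - h3)
    (B31 : 0 ≤ b3 - k - 1)
    (B36 : 0 ≤ b1 - 1)
    (B37 : 0 ≤ -d1 - p0 - 1)
    (B38 : 0 ≤ -z + n3 - a3 - 1)
    (D4 : 0 ≤ h3 - n1 + b1 ∨ 0 ≤ h3 - b2 - b3 + 1)
    (D5 : 0 ≤ k - n1 + b1 - n2 + b2 ∨ 0 ≤ k - b3 + 1)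
    (D8 : (0 ≤ n2 - b2 - 2 ∧ 0 ≤ -2 * d1 - p0) ∨ (0 ≤ -n2 + b2 + 1 ∧ 0 ≤ p0 + d1))
    (D18 : (0 ≤ k + 1 ∧ 0 ≤ -p2) ∨ (0 ≤ -k - 2 ∧ 0 ≤ p2 - d1))
    (D27 : 0 ≤ -b1 ∨ 0 ≤ -h3 ∨ 0 ≤ -n2 + b2 - k ∨ 0 ≤ -n2 + b2 - n3 + b3 + 1) : False := by
  have E4 := D4
  have E5 := D5
  have E8 : (0 ≤ n2 - b2 - 2 ∧ 0 ≤ -2 * d1 - p0) := by
    rcases D8 with H8 | H8
    · exact H8
    · linarith only [B37, H8.2]
  have E18 := D18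
  have E27 : 0 ≤ -h3 ∨ 0 ≤ -n2 + b2 - k := by
    rcases D27 with H27 | H27 | H27 | H27
    · linarith only [B36, H27]
    · exact Or.inl H27
    · exact Or.inr H27
    · linarith only [B20, B17, B10, B38, H27, B16, B19]
  have H8 := E8
  rcases E5 with H5 | H5
  · rcases E4 with H4 | H4
    · rcases E27 with H27 | H27
      · linarith only [H27, B6, B22, B23, H4]
      · linarith only [H8.1, B9, H27, H5]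
    · linarith only [H8.1, B17, B31, H5, B16, B28, B1, B22, H4, B23]
  · rcases E18 with H18 | H18
    · rcases E27 with H27 | H27
      · rcases E4 with H4 | H4
        · linarith only [H27, B6, B22, B23, H4]
        · linarith only [B17, B16, B1, B5, B22, B23, H4, H27]
      · linarith only [H8.1, H18.1, H27]
    · linarith only [H18.1, B5, H5]

theorem g3 {a1 a2 a3 b1 b2 b3 d1 h3 k n1 n2 n3 p3 x z : ℤ}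
    (B1 : 0 ≤ a2)
    (B6 : 0 ≤ n1 - a1)
    (B8 : 0 ≤ n3 - a3)
    (B10 : 0 ≤ n2 - b2)
    (B16 : 0 ≤ -a1 - a2 + b1 + b2 - x)
    (B17 : 0 ≤ x - 1)
    (B19 : 0 ≤ a1 + a2 + a3 - b1 - b2 - b3 - z)
    (B20 : 0 ≤ z - 1)
    (B22 : 0 ≤ a1 - b1 - d1)
    (B23 : 0 ≤ d1 - 1)
    (B31 : 0 ≤ b3 - k - 1)
    (B36 : 0 ≤ b1 - 1)
    (B38 : 0 ≤ -p3 - z - 1)
    (D4 : 0 ≤ h3 - n1 + b1 ∨ 0 ≤ h3 - b2 - b3 + 1)
    (D20 : (0 ≤ k - 1 ∧ 0 ≤ -2 * z - p3) ∨ (0 ≤ -k ∧ 0 ≤ p3 + z))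
    (D26 : 0 ≤ -b1 ∨ 0 ≤ -h3 ∨ 0 ≤ -n2 + b2 - k ∨ 0 ≤ -n2 + b2 - n3 + b3 + 1) : False := by
  have E4 := D4
  have E20 : (0 ≤ k - 1 ∧ 0 ≤ -2 * z - p3) := by
    rcases D20 with H20 | H20
    · exact H20
    · linarith only [B38, H20.2]
  have E26 : 0 ≤ -h3 ∨ 0 ≤ -n2 + b2 - k := by
    rcases D26 with H26 | H26 | H26 | H26
    · linarith only [B36, H26]
    · exact Or.inl H26
    · exact Or.inr H26
    · linarith only [B20, B17, B10, B8, H26, B16, B19]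
  have H20 := E20
  rcases E26 with H26 | H26
  · rcases E4 with H4 | H4
    · linarith only [B23, H26, B22, B6, H4]
    · linarith only [B1, B17, B23, B31, B16, B22, H20.1, H4, H26]
  · linarith only [B10, H26, H20.1]

theorem g4 {m z : ℤ}
    (B34 : 0 ≤ z - m)
    (B38 : 0 ≤ m - z - 1) : False := by
  linarith only [B34, B38]

theorem g5 {a1 a2 a3 b1 b2 b3 d1 h h3 hp k m n1 n2 n3 p0 p1 p3 x z : ℤ}
    (B5 : 0 ≤ b3)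
    (B8 : 0 ≤ n3 - a3)
    (B10 : 0 ≤ n2 - b2)
    (B16 : 0 ≤ -a1 - a2 + b1 + b2 - x)
    (B17 : 0 ≤ x - 1)
    (B19 : 0 ≤ a1 + a2 + a3 - b1 - b2 - b3 - z)
    (B20 : 0 ≤ z - 1)
    (B22 : 0 ≤ a1 - b1 - d1)
    (B23 : 0 ≤ d1 - 1)
    (B26 : 0 ≤ n1 - a1 - h)
    (B27 : 0 ≤ a2 - h - 1)
    (B28 : 0 ≤ n1 - b1 - h3)
    (B31 : 0 ≤ b3 - k - 1)
    (B34 : 0 ≤ z - m)
    (B36 : 0 ≤ h - d1)
    (B37 : 0 ≤ b1 - 1)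
    (D4 : 0 ≤ h3 - n1 + b1 ∨ 0 ≤ h3 - b2 - b3 + 1)
    (D5 : 0 ≤ k - n1 + b1 - n2 + b2 ∨ 0 ≤ k - b3 + 1)
    (D6 : 0 ≤ hp - n1 + b1 ∨ 0 ≤ hp - b2 + 1)
    (D7 : 0 ≤ m - z ∨ 0 ≤ m - n3 + b3)
    (D8 : (0 ≤ n2 - b2 - 2 ∧ 0 ≤ -2 * d1 - p0) ∨ (0 ≤ -n2 + b2 + 1 ∧ 0 ≤ p0 + d1))
    (D13 : (0 ≤ n2 - b2 - 1 ∧ 0 ≤ -z - p1) ∨ (0 ≤ -n2 + b2 ∧ 0 ≤ p1))
    (D21 : (0 ≤ k ∧ 0 ≤ -z - p3) ∨ (0 ≤ -k - 1 ∧ 0 ≤ p3))
    (D22 : (0 ≤ k + 1 ∧ 0 ≤ -p3) ∨ (0 ≤ -k - 2 ∧ 0 ≤ p3 - z))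
    (D24 : 0 ≤ h - d1 - 1 ∨ 0 ≤ -z + n3 - a3 - 1)
    (D25 : 0 ≤ -p1 + n2 - b2 + n3 - b3 - z - 2 ∨ 0 ≤ -d1 - p0 - 1)
    (D27 : 0 ≤ -b1 ∨ 0 ≤ -h ∨ 0 ≤ -n2 + b2 + 1 ∨ 0 ≤ -n2 + b2 - 2 * n3 + b3 + a3 + 1)
    (D28 : 0 ≤ -b1 ∨ 0 ≤ d1 - h ∨ 0 ≤ -n2 + b2 ∨ 0 ≤ -n2 + b2 - 2 * n3 + b3 + z + a3 + 1)
    (D29 : 0 ≤ -b1 ∨ 0 ≤ -h3 ∨ 0 ≤ -n2 + b2 - k ∨ 0 ≤ -n2 + b2 - n3 + b3 + 1)
    (D30 : 0 ≤ -b1 ∨ 0 ≤ d1 - h3 ∨ 0 ≤ -n2 + b2 - k - 1 ∨ 0 ≤ -n2 + b2 - n3 + b3 + z + 1)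
    (D31 : 0 ≤ -b1 ∨ 0 ≤ 2 * d1 - hp ∨ 0 ≤ -n2 + b2 - 1 ∨ 0 ≤ -n2 + b2 - n3 + b3 + 2 * z - m + 1)
    (D32 : 0 ≤ -h3 + d1 ∨ 0 ≤ -k - 2 ∨ 0 ≤ -n3 + a3 + z) : False := by
  have E4 := D4
  have E5 := D5
  have E6 := D6
  have E7 : 0 ≤ m - z := by
    rcases D7 with H7 | H7
    · exact H7
    · linarith only [B17, B34, B8, H7, B16, B19]
  have E8 := D8
  have E13 := D13
  have E21 := D21
  have E22 := D22
  have E24 := D24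
  have E25 := D25
  have E27 : 0 ≤ -n2 + b2 + 1 := by
    rcases D27 with H27 | H27 | H27 | H27
    · linarith only [B37, H27]
    · linarith only [B23, B36, H27]
    · exact H27
    · linarith only [B20, B17, B10, H27, B8, B16, B19]
  have E28 : 0 ≤ d1 - h ∨ 0 ≤ -n2 + b2 ∨ 0 ≤ -n2 + b2 - 2 * n3 + b3 + z + a3 + 1 := by
    rcases D28 with H28 | H28 | H28 | H28
    · linarith only [B37, H28]
    · exact Or.inl H28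
    · exact Or.inr (Or.inl H28)
    · exact Or.inr (Or.inr H28)
  have E29 : 0 ≤ -h3 ∨ 0 ≤ -n2 + b2 - k := by
    rcases D29 with H29 | H29 | H29 | H29
    · linarith only [B37, H29]
    · exact Or.inl H29
    · exact Or.inr H29
    · linarith only [B20, B17, B10, B8, H29, B16, B19]
  have E30 : 0 ≤ d1 - h3 ∨ 0 ≤ -n2 + b2 - k - 1 ∨ 0 ≤ -n2 + b2 - n3 + b3 + z + 1 := by
    rcases D30 with H30 | H30 | H30 | H30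
    · linarith only [B37, H30]
    · exact Or.inl H30
    · exact Or.inr (Or.inl H30)
    · exact Or.inr (Or.inr H30)
  have E31 : 0 ≤ 2 * d1 - hp ∨ 0 ≤ -n2 + b2 - n3 + b3 + 2 * z - m + 1 := by
    rcases D31 with H31 | H31 | H31 | H31
    · linarith only [B37, H31]
    · exact Or.inl H31
    · linarith only [B10, H31]
    · exact Or.inr H31
  have E32 := D32
  have H27 := E27
  have H7 := E7
  rcases E8 with H8 | H8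
  · linarith only [H8.1, H27]
  · rcases E25 with H25 | H25
    · rcases E21 with H21 | H21
      · rcases E13 with H13 | H13
        · rcases E31 with H31 | H31
          · rcases E6 with H6 | H6
            · rcases E4 with H4 | H4
              · rcases E29 with H29 | H29
                · linarith only [B23, H4, B26, H29, B22, B36]
                · linarith only [H13.1, H29, H21.1]
              · linarith only [B17, B31, H31, B16, B28, H21.1, B36, B22, B27, H4, H6]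
            · linarith only [B17, H31, H6, B16, B22, B27, B36]
          · linarith only [B17, H13.1, H31, B16, B19, B8, H7]
        · rcases E31 with H31 | H31
          · rcases E6 with H6 | H6
            · rcases E4 with H4 | H4
              · rcases E30 with H30 | H30 | H30
                · linarith only [B23, H4, B26, H30, B22, B36]
                · linarith only [B10, H30, H21.1]
                · linarith only [H25, H30, H13.2]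
              · linarith only [B17, B31, H31, B16, B28, H21.1, B36, B22, B27, H4, H6]
            · linarith only [B17, H31, B16, B22, B27, H6, B36]
          · linarith only [H31, H25, H7, H13.2]
      · rcases E5 with H5 | H5
        · linarith only [B10, H21.1, B26, B22, B36, B23, H5]
        · rcases E22 with H22 | H22
          · rcases E13 with H13 | H13
            · rcases E28 with H28 | H28 | H28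
              · rcases E24 with H24 | H24
                · linarith only [H24, H28]
                · rcases E30 with H30 | H30 | H30
                  · rcases E4 with H4 | H4
                    · linarith only [B26, H30, B22, B36, B23, H4]
                    · linarith only [B17, B16, B5, B22, B36, B27, B23, H4, H30]
                  · linarith only [H22.1, H30, H13.1]
                  · linarith only [B20, B17, H13.1, B16, B19, H24, H30]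
              · linarith only [H13.1, H28]
              · linarith only [B16, B19, H28, B17, H13.1, B8]
            · rcases E31 with H31 | H31
              · rcases E6 with H6 | H6
                · rcases E4 with H4 | H4
                  · rcases E24 with H24 | H24
                    · linarith only [H31, B26, H24, B22, H6]
                    · rcases E32 with H32 | H32 | H32
                      · linarith only [B23, H4, B26, H32, B22, B36]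
                      · linarith only [H32, H22.1]
                      · linarith only [H24, H32]
                  · linarith only [B17, H31, B16, B28, B5, B36, B22, B27, H4, H6]
                · linarith only [B17, H31, B16, B22, B27, H6, B36]
              · linarith only [H31, H25, H7, H13.2]
          · linarith only [H22.1, B5, H5]
    · linarith only [H8.2, H25]

theorem g6 {a1 a2 a3 b1 b2 b3 d1 h hp m n1 n3 x z : ℤ}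
    (B16 : 0 ≤ -a1 - a2 + b1 + b2 - x)
    (B17 : 0 ≤ x - 1)
    (B19 : 0 ≤ a1 + a2 + a3 - b1 - b2 - b3 - z)
    (B22 : 0 ≤ a1 - b1 - d1)
    (B23 : 0 ≤ d1 - 1)
    (B26 : 0 ≤ n1 - a1 - h)
    (B27 : 0 ≤ a2 - h - 1)
    (B34 : 0 ≤ z - m)
    (B36 : 0 ≤ h - d1)
    (B38 : 0 ≤ n3 - a3 - 1)
    (D6 : 0 ≤ hp - n1 + b1 ∨ 0 ≤ hp - b2 + 1)
    (D7 : 0 ≤ m - z ∨ 0 ≤ m - n3 + b3)
    (D25 : 0 ≤ -hp + d1 ∨ 0 ≤ -n3 + a3 - m + z) : False := by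
  have E6 := D6
  have E7 : 0 ≤ m - z := by
    rcases D7 with H7 | H7
    · exact H7
    · linarith only [B17, B34, B38, H7, B16, B19]
  have E25 := D25
  have H7 := E7
  rcases E25 with H25 | H25
  · rcases E6 with H6 | H6
    · linarith only [B23, H25, B26, B22, B36, H6]
    · linarith only [B27, B17, B23, H25, B22, B36, H6, B16]
  · linarith only [H25, B38, H7]

theorem g7 {a1 a2 a3 b1 b2 b3 d1 h h3 k n1 n2 n3 p3 x z : ℤ}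
    (B5 : 0 ≤ b3)
    (B10 : 0 ≤ n2 - b2)
    (B16 : 0 ≤ -a1 - a2 + b1 + b2 - x)
    (B17 : 0 ≤ x - 1)
    (B22 : 0 ≤ a1 - b1 - d1)
    (B23 : 0 ≤ d1 - 1)
    (B26 : 0 ≤ n1 - a1 - h)
    (B27 : 0 ≤ a2 - h - 1)
    (B31 : 0 ≤ b3 - k - 1)
    (B36 : 0 ≤ h - d1)
    (B37 : 0 ≤ -z + n3 - a3 - 1)
    (D4 : 0 ≤ h3 - n1 + b1 ∨ 0 ≤ h3 - b2 - b3 + 1)
    (D5 : 0 ≤ k - n1 + b1 - n2 + b2 ∨ 0 ≤ k - b3 + 1)
    (D21 : (0 ≤ k ∧ 0 ≤ -z - p3) ∨ (0 ≤ -k - 1 ∧ 0 ≤ p3))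
    (D26 : 0 ≤ -h3 + d1 ∨ 0 ≤ -k - 2 ∨ 0 ≤ -n3 + a3 + z) : False := by
  have E4 := D4
  have E5 := D5
  have E21 := D21
  have E26 : 0 ≤ -h3 + d1 ∨ 0 ≤ -k - 2 := by
    rcases D26 with H26 | H26 | H26
    · exact Or.inl H26
    · exact Or.inr H26
    · linarith only [B37, H26]
  rcases E21 with H21 | H21
  · rcases E26 with H26 | H26
    · rcases E4 with H4 | H4
      · linarith only [B23, H26, B26, B22, B36, H4]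
      · linarith only [B27, B17, B23, B31, B16, H21.1, B22, B36, H4, H26]
    · linarith only [H26, H21.1]
  · rcases E5 with H5 | H5
    · linarith only [B23, H21.1, B26, B22, B36, B10, H5]
    · rcases E26 with H26 | H26
      · rcases E4 with H4 | H4
        · linarith only [B23, B26, H26, B22, B36, H4]
        · linarith only [B27, B17, B23, B16, H26, B22, B36, H4, B5]
      · linarith only [H26, B5, H5]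

theorem g8 {a1 a2 a3 b1 b2 b3 d1 h h3 k n1 n3 p3 x z : ℤ}
    (B8 : 0 ≤ n3 - a3)
    (B16 : 0 ≤ -a1 - a2 + b1 + b2 - x)
    (B17 : 0 ≤ x - 1)
    (B20 : 0 ≤ z - 1)
    (B22 : 0 ≤ a1 - b1 - d1)
    (B23 : 0 ≤ d1 - 1)
    (B26 : 0 ≤ n1 - a1 - h)
    (B27 : 0 ≤ a2 - h - 1)
    (B31 : 0 ≤ b3 - k - 1)
    (B36 : 0 ≤ h - d1)
    (B37 : 0 ≤ -p3 - z - 1)
    (D4 : 0 ≤ h3 - n1 + b1 ∨ 0 ≤ h3 - b2 - b3 + 1)
    (D20 : (0 ≤ k - 1 ∧ 0 ≤ -2 * z - p3) ∨ (0 ≤ -k ∧ 0 ≤ p3 + z))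
    (D26 : 0 ≤ -d1 - h3 ∨ 0 ≤ -k ∨ 0 ≤ -n3 + a3 - z) : False := by
  have E4 := D4
  have E20 : (0 ≤ k - 1 ∧ 0 ≤ -2 * z - p3) := by
    rcases D20 with H20 | H20
    · exact H20
    · linarith only [B37, H20.2]
  have E26 : 0 ≤ -d1 - h3 ∨ 0 ≤ -k := by
    rcases D26 with H26 | H26 | H26
    · exact Or.inl H26
    · exact Or.inr H26
    · linarith only [B20, B8, H26]
  have H20 := E20
  rcases E26 with H26 | H26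
  · rcases E4 with H4 | H4
    · linarith only [B23, H26, B26, B22, B36, H4]
    · linarith only [B36, B17, B23, B31, H26, B27, B22, B16, H4, H20.1]
  · linarith only [H26, H20.1]

theorem g9 {m z : ℤ}
    (B34 : 0 ≤ z - m)
    (B37 : 0 ≤ m - z - 1) : False := by
  linarith only [B34, B37]

theorem g10 {a1 a2 a3 b1 b2 b3 d1 h3 hp k m n1 n2 n3 p0 p1 p2 p3 x z : ℤ}
    (B1 : 0 ≤ a2)
    (B5 : 0 ≤ b3)
    (B6 : 0 ≤ n1 - a1)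
    (B8 : 0 ≤ n3 - a3)
    (B10 : 0 ≤ n2 - b2)
    (B15 : 0 ≤ x + a1 + a2 - b1 - b2)
    (B16 : 0 ≤ -a1 - a2 + b1 + b2 - x)
    (B17 : 0 ≤ x - 1)
    (B18 : 0 ≤ z - a1 - a2 - a3 + b1 + b2 + b3)
    (B19 : 0 ≤ a1 + a2 + a3 - b1 - b2 - b3 - z)
    (B20 : 0 ≤ z - 1)
    (B22 : 0 ≤ a1 - b1 - d1)
    (B23 : 0 ≤ d1 - 1)
    (B25 : 0 ≤ -x + 1)
    (B28 : 0 ≤ n1 - b1 - h3)
    (B29 : 0 ≤ b2 + b3 - h3 - 1)
    (B31 : 0 ≤ b3 - k - 1)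
    (B34 : 0 ≤ z - m)
    (B36 : 0 ≤ h3 - d1 - p2)
    (B37 : 0 ≤ b1 - 1)
    (D4 : 0 ≤ h3 - n1 + b1 ∨ 0 ≤ h3 - b2 - b3 + 1)
    (D5 : 0 ≤ k - n1 + b1 - n2 + b2 ∨ 0 ≤ k - b3 + 1)
    (D6 : 0 ≤ hp - n1 + b1 ∨ 0 ≤ hp - b2 + 1)
    (D7 : 0 ≤ m - z ∨ 0 ≤ m - n3 + b3)
    (D8 : (0 ≤ n2 - b2 - 2 ∧ 0 ≤ -2 * d1 - p0) ∨ (0 ≤ -n2 + b2 + 1 ∧ 0 ≤ p0 + d1))
    (D9 : (0 ≤ n2 - b2 - 1 ∧ 0 ≤ -d1 - p0) ∨ (0 ≤ -n2 + b2 ∧ 0 ≤ p0))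
    (D13 : (0 ≤ n2 - b2 - 1 ∧ 0 ≤ -z - p1) ∨ (0 ≤ -n2 + b2 ∧ 0 ≤ p1))
    (D16 : (0 ≤ k - 1 ∧ 0 ≤ -2 * d1 - p2) ∨ (0 ≤ -k ∧ 0 ≤ p2 + d1))
    (D17 : (0 ≤ k ∧ 0 ≤ -d1 - p2) ∨ (0 ≤ -k - 1 ∧ 0 ≤ p2))
    (D20 : (0 ≤ k - 1 ∧ 0 ≤ -2 * z - p3) ∨ (0 ≤ -k ∧ 0 ≤ p3 + z))
    (D21 : (0 ≤ k ∧ 0 ≤ -z - p3) ∨ (0 ≤ -k - 1 ∧ 0 ≤ p3))
    (D22 : (0 ≤ k + 1 ∧ 0 ≤ -p3) ∨ (0 ≤ -k - 2 ∧ 0 ≤ p3 - z))
    (D24 : 0 ≤ h3 - d1 - p2 - 1 ∨ 0 ≤ -p3 - z - 1)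
    (D25 : 0 ≤ -p1 + n2 - b2 + n3 - b3 - z - 2 ∨ 0 ≤ -d1 - p0 - 1)
    (D26 : 0 ≤ -b1 ∨ 0 ≤ -h3 ∨ 0 ≤ -n2 + b2 - k ∨ 0 ≤ -n2 + b2 - n3 + b3 + 1)
    (D27 : 0 ≤ -h3 ∨ 0 ≤ -k - 1 ∨ 0 ≤ -n3 + a3)
    (D28 : 0 ≤ -hp + d1 ∨ 0 ≤ -n3 + a3 - m + z)
    (D29 : 0 ≤ -b1 ∨ 0 ≤ d1 - h3 ∨ 0 ≤ -n2 + b2 - k - 1 ∨ 0 ≤ -n2 + b2 - n3 + b3 + z + 1) : False := by
  have E4 := D4
  have E5 := D5
  have E6 := D6
  have E7 : 0 ≤ m - z := by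
    rcases D7 with H7 | H7
    · exact H7
    · linarith only [B17, B34, B8, H7, B16, B19]
  have E8 := D8
  have E9 := D9
  have E13 := D13
  have E16 := D16
  have E17 := D17
  have E20 := D20
  have E21 := D21
  have E22 := D22
  have E24 := D24
  have E25 := D25
  have E26 : 0 ≤ -h3 ∨ 0 ≤ -n2 + b2 - k := by
    rcases D26 with H26 | H26 | H26 | H26
    · linarith only [B37, H26]
    · exact Or.inl H26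
    · exact Or.inr H26
    · linarith only [B20, B17, B10, B8, H26, B16, B19]
  have E27 := D27
  have E28 := D28
  have E29 : 0 ≤ d1 - h3 ∨ 0 ≤ -n2 + b2 - k - 1 ∨ 0 ≤ -n2 + b2 - n3 + b3 + z + 1 := by
    rcases D29 with H29 | H29 | H29 | H29
    · linarith only [B37, H29]
    · exact Or.inl H29
    · exact Or.inr (Or.inl H29)
    · exact Or.inr (Or.inr H29)
  have H7 := E7
  rcases E17 with H17 | H17
  · rcases E26 with H26 | H26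
    · rcases E4 with H4 | H4
      · linarith only [B23, B22, B6, H4, H26]
      · linarith only [B17, B23, B31, B16, B22, B1, H17.1, H4, H26]
    · rcases E9 with H9 | H9
      · linarith only [H9.1, H26, H17.1]
      · rcases E13 with H13 | H13
        · linarith only [H13.1, H9.1]
        · rcases E16 with H16 | H16
          · linarith only [H16.1, H26, B10]
          · rcases E20 with H20 | H20
            · linarith only [H16.1, H20.1]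
            · rcases E24 with H24 | H24
              · rcases E25 with H25 | H25
                · rcases E27 with H27 | H27 | H27
                  · linarith only [H27, H24, H16.2]
                  · linarith only [H27, H17.1]
                  · linarith only [B18, H27, B25, H25, B15, H9.1, H13.2]
                · linarith only [B23, H25, H9.2]
              · linarith only [H24, H20.2]
  · rcases E26 with H26 | H26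
    · linarith only [B23, H26, B36, H17.2]
    · rcases E5 with H5 | H5
      · linarith only [B23, H17.1, B22, B6, H5, B10]
      · rcases E22 with H22 | H22
        · rcases E21 with H21 | H21
          · linarith only [H17.1, H21.1]
          · rcases E24 with H24 | H24
            · rcases E8 with H8 | H8
              · linarith only [H8.1, H26, H22.1]
              · rcases E25 with H25 | H25
                · rcases E13 with H13 | H13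
                  · rcases E29 with H29 | H29 | H29
                    · linarith only [H17.2, H24, H29]
                    · linarith only [H22.1, H13.1, H29]
                    · linarith only [B16, H29, B8, B19, B17, H13.1]
                  · rcases E28 with H28 | H28
                    · rcases E6 with H6 | H6
                      · linarith only [B28, H28, H17.2, H24, H6]
                      · linarith only [B29, H17.1, H6, H28, H17.2, H24, H5]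
                    · linarith only [H28, B18, H13.1, B25, B15, H25, H7, H13.2]
                · linarith only [H25, H8.2]
            · linarith only [B20, H24, H21.2]
        · linarith only [H22.1, H5, B5]

theorem g11 {a1 a2 a3 b1 b2 b3 d1 h3 hp k m n1 n2 n3 p2 p3 x z : ℤ}
    (B1 : 0 ≤ a2)
    (B6 : 0 ≤ n1 - a1)
    (B10 : 0 ≤ n2 - b2)
    (B16 : 0 ≤ -a1 - a2 + b1 + b2 - x)
    (B17 : 0 ≤ x - 1)
    (B19 : 0 ≤ a1 + a2 + a3 - b1 - b2 - b3 - z)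
    (B20 : 0 ≤ z - 1)
    (B22 : 0 ≤ a1 - b1 - d1)
    (B23 : 0 ≤ d1 - 1)
    (B28 : 0 ≤ n1 - b1 - h3)
    (B29 : 0 ≤ b2 + b3 - h3 - 1)
    (B31 : 0 ≤ b3 - k - 1)
    (B34 : 0 ≤ z - m)
    (B38 : 0 ≤ n3 - a3 - 1)
    (D4 : 0 ≤ h3 - n1 + b1 ∨ 0 ≤ h3 - b2 - b3 + 1)
    (D5 : 0 ≤ k - n1 + b1 - n2 + b2 ∨ 0 ≤ k - b3 + 1)
    (D6 : 0 ≤ hp - n1 + b1 ∨ 0 ≤ hp - b2 + 1)
    (D7 : 0 ≤ m - z ∨ 0 ≤ m - n3 + b3)
    (D17 : (0 ≤ k ∧ 0 ≤ -d1 - p2) ∨ (0 ≤ -k - 1 ∧ 0 ≤ p2))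
    (D21 : (0 ≤ k ∧ 0 ≤ -z - p3) ∨ (0 ≤ -k - 1 ∧ 0 ≤ p3))
    (D24 : 0 ≤ h3 - d1 - p2 - 1 ∨ 0 ≤ -p3 - z - 1)
    (D25 : 0 ≤ -h3 ∨ 0 ≤ -k - 1 ∨ 0 ≤ -n3 + a3)
    (D26 : 0 ≤ -hp + d1 ∨ 0 ≤ -n3 + a3 - m + z) : False := by
  have E4 := D4
  have E5 := D5
  have E6 := D6
  have E7 : 0 ≤ m - z := by
    rcases D7 with H7 | H7
    · exact H7
    · linarith only [B17, B34, B38, H7, B16, B19]
  have E17 := D17
  have E21 := D21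
  have E24 := D24
  have E25 : 0 ≤ -h3 ∨ 0 ≤ -k - 1 := by
    rcases D25 with H25 | H25 | H25
    · exact Or.inl H25
    · exact Or.inr H25
    · linarith only [B38, H25]
  have E26 := D26
  have H7 := E7
  rcases E26 with H26 | H26
  · rcases E21 with H21 | H21
    · rcases E25 with H25 | H25
      · rcases E4 with H4 | H4
        · linarith only [B23, H25, B22, B6, H4]
        · linarith only [B17, B23, B31, B16, H21.1, B22, B1, H4, H25]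
      · linarith only [H25, H21.1]
    · rcases E24 with H24 | H24
      · rcases E5 with H5 | H5
        · linarith only [B23, H21.1, B22, B6, B10, H5]
        · rcases E17 with H17 | H17
          · linarith only [H21.1, H17.1]
          · rcases E6 with H6 | H6
            · linarith only [B28, H26, H17.2, H24, H6]
            · linarith only [B29, H21.1, H26, H17.2, H24, H6, H5]
      · linarith only [B20, H21.2, H24]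
  · linarith only [H26, B38, H7]

theorem g12 {a1 a2 a3 b1 b2 b3 d1 h3 k n1 n2 n3 p2 p3 x z : ℤ}
    (B1 : 0 ≤ a2)
    (B5 : 0 ≤ b3)
    (B6 : 0 ≤ n1 - a1)
    (B10 : 0 ≤ n2 - b2)
    (B16 : 0 ≤ -a1 - a2 + b1 + b2 - x)
    (B17 : 0 ≤ x - 1)
    (B20 : 0 ≤ z - 1)
    (B22 : 0 ≤ a1 - b1 - d1)
    (B23 : 0 ≤ d1 - 1)
    (B31 : 0 ≤ b3 - k - 1)
    (B37 : 0 ≤ -z + n3 - a3 - 1)
    (D4 : 0 ≤ h3 - n1 + b1 ∨ 0 ≤ h3 - b2 - b3 + 1)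
    (D5 : 0 ≤ k - n1 + b1 - n2 + b2 ∨ 0 ≤ k - b3 + 1)
    (D17 : (0 ≤ k ∧ 0 ≤ -d1 - p2) ∨ (0 ≤ -k - 1 ∧ 0 ≤ p2))
    (D21 : (0 ≤ k ∧ 0 ≤ -z - p3) ∨ (0 ≤ -k - 1 ∧ 0 ≤ p3))
    (D24 : 0 ≤ h3 - d1 - p2 - 1 ∨ 0 ≤ -p3 - z - 1)
    (D26 : 0 ≤ -h3 ∨ 0 ≤ -k - 1 ∨ 0 ≤ -n3 + a3)
    (D27 : 0 ≤ -h3 + d1 ∨ 0 ≤ -k - 2 ∨ 0 ≤ -n3 + a3 + z) : False := by
  have E4 := D4
  have E5 := D5
  have E17 := D17
  have E21 := D21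
  have E24 := D24
  have E26 : 0 ≤ -h3 ∨ 0 ≤ -k - 1 := by
    rcases D26 with H26 | H26 | H26
    · exact Or.inl H26
    · exact Or.inr H26
    · linarith only [B20, B37, H26]
  have E27 : 0 ≤ -h3 + d1 ∨ 0 ≤ -k - 2 := by
    rcases D27 with H27 | H27 | H27
    · exact Or.inl H27
    · exact Or.inr H27
    · linarith only [B37, H27]
  rcases E21 with H21 | H21
  · rcases E26 with H26 | H26
    · rcases E4 with H4 | H4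
      · linarith only [B23, H26, B22, B6, H4]
      · linarith only [B17, B23, B31, B16, H21.1, B22, B1, H4, H26]
    · linarith only [H26, H21.1]
  · rcases E24 with H24 | H24
    · rcases E5 with H5 | H5
      · linarith only [B23, H21.1, B22, B6, B10, H5]
      · rcases E27 with H27 | H27
        · rcases E17 with H17 | H17
          · linarith only [H21.1, H17.1]
          · linarith only [H17.2, H24, H27]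
        · linarith only [H27, B5, H5]
    · linarith only [B20, H21.2, H24]

theorem g13 {a1 a2 a3 b1 b2 b3 d1 h3 k n1 n3 p3 x z : ℤ}
    (B1 : 0 ≤ a2)
    (B6 : 0 ≤ n1 - a1)
    (B8 : 0 ≤ n3 - a3)
    (B16 : 0 ≤ -a1 - a2 + b1 + b2 - x)
    (B17 : 0 ≤ x - 1)
    (B20 : 0 ≤ z - 1)
    (B22 : 0 ≤ a1 - b1 - d1)
    (B23 : 0 ≤ d1 - 1)
    (B31 : 0 ≤ b3 - k - 1)
    (B37 : 0 ≤ -p3 - z - 1)
    (D4 : 0 ≤ h3 - n1 + b1 ∨ 0 ≤ h3 - b2 - b3 + 1)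
    (D20 : (0 ≤ k - 1 ∧ 0 ≤ -2 * z - p3) ∨ (0 ≤ -k ∧ 0 ≤ p3 + z))
    (D26 : 0 ≤ -d1 - h3 ∨ 0 ≤ -k ∨ 0 ≤ -n3 + a3 - z) : False := by
  have E4 := D4
  have E20 : (0 ≤ k - 1 ∧ 0 ≤ -2 * z - p3) := by
    rcases D20 with H20 | H20
    · exact H20
    · linarith only [B37, H20.2]
  have E26 : 0 ≤ -d1 - h3 ∨ 0 ≤ -k := by
    rcases D26 with H26 | H26 | H26
    · exact Or.inl H26
    · exact Or.inr H26
    · linarith only [B20, B8, H26]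
  have H20 := E20
  rcases E26 with H26 | H26
  · rcases E4 with H4 | H4
    · linarith only [B23, H26, B22, B6, H4]
    · linarith only [B1, B17, B23, B31, H26, B22, B16, H4, H20.1]
  · linarith only [H26, H20.1]

theorem g14 {m z : ℤ}
    (B34 : 0 ≤ z - m)
    (B37 : 0 ≤ m - z - 1) : False := by
  linarith only [B34, B37]

theorem g15_l0 {a1 a2 a3 b1 b2 b3 d1 m n2 n3 p0 p1 x z : ℤ}
    (B15 : 0 ≤ x + a1 + a2 - b1 - b2)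
    (B18 : 0 ≤ z - a1 - a2 - a3 + b1 + b2 + b3)
    (B23 : 0 ≤ d1 - 1)
    (B25 : 0 ≤ -x + 1)
    (E13 : (0 ≤ n2 - b2 - 1 ∧ 0 ≤ -z - p1) ∨ (0 ≤ -n2 + b2 ∧ 0 ≤ p1))
    (E25 : 0 ≤ -p1 + n2 - b2 + n3 - b3 - z - 2 ∨ 0 ≤ -d1 - p0 - 1)
    (H7 : 0 ≤ m - z)
    (H9 : 0 ≤ -n2 + b2 ∧ 0 ≤ p0)
    (H27 : 0 ≤ -n3 + a3 - m + z) : False := by
  rcases E13 with H13 | H13
  · linarith only [H13.1, H9.1]
  · rcases E25 with H25 | H25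
    · linarith only [H9.1, H27, B25, B18, H25, B15, H7, H13.2]
    · linarith only [B23, H25, H9.2]

theorem g15 {a1 a2 a3 b1 b2 b3 d1 h3 hp k m n1 n2 n3 p0 p1 p3 x z : ℤ}
    (B5 : 0 ≤ b3)
    (B8 : 0 ≤ n3 - a3)
    (B10 : 0 ≤ n2 - b2)
    (B15 : 0 ≤ x + a1 + a2 - b1 - b2)
    (B16 : 0 ≤ -a1 - a2 + b1 + b2 - x)
    (B17 : 0 ≤ x - 1)
    (B18 : 0 ≤ z - a1 - a2 - a3 + b1 + b2 + b3)
    (B19 : 0 ≤ a1 + a2 + a3 - b1 - b2 - b3 - z)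
    (B23 : 0 ≤ d1 - 1)
    (B25 : 0 ≤ -x + 1)
    (B31 : 0 ≤ b3 - k - 1)
    (B32 : 0 ≤ n1 - b1 - hp)
    (B33 : 0 ≤ b2 - hp - 1)
    (B34 : 0 ≤ z - m)
    (B37 : 0 ≤ b1 - 1)
    (D4 : 0 ≤ h3 - n1 + b1 ∨ 0 ≤ h3 - b2 - b3 + 1)
    (D5 : 0 ≤ k - n1 + b1 - n2 + b2 ∨ 0 ≤ k - b3 + 1)
    (D7 : 0 ≤ m - z ∨ 0 ≤ m - n3 + b3)
    (D9 : (0 ≤ n2 - b2 - 1 ∧ 0 ≤ -d1 - p0) ∨ (0 ≤ -n2 + b2 ∧ 0 ≤ p0))
    (D13 : (0 ≤ n2 - b2 - 1 ∧ 0 ≤ -z - p1) ∨ (0 ≤ -n2 + b2 ∧ 0 ≤ p1))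
    (D21 : (0 ≤ k ∧ 0 ≤ -z - p3) ∨ (0 ≤ -k - 1 ∧ 0 ≤ p3))
    (D22 : (0 ≤ k + 1 ∧ 0 ≤ -p3) ∨ (0 ≤ -k - 2 ∧ 0 ≤ p3 - z))
    (D24 : 0 ≤ hp - d1 - 1 ∨ 0 ≤ m - z - 1)
    (D25 : 0 ≤ -p1 + n2 - b2 + n3 - b3 - z - 2 ∨ 0 ≤ -d1 - p0 - 1)
    (D26 : 0 ≤ -b1 ∨ 0 ≤ d1 - h3 ∨ 0 ≤ -n2 + b2 - k - 1 ∨ 0 ≤ -n2 + b2 - n3 + b3 + z + 1)
    (D27 : 0 ≤ -hp + d1 ∨ 0 ≤ -n3 + a3 - m + z) : False := by
  have E4 := D4
  have E5 := D5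
  have E7 : 0 ≤ m - z := by
    rcases D7 with H7 | H7
    · exact H7
    · linarith only [B17, B34, B8, H7, B16, B19]
  have E9 := D9
  have E13 := D13
  have E21 := D21
  have E22 := D22
  have E24 : 0 ≤ hp - d1 - 1 := by
    rcases D24 with H24 | H24
    · exact H24
    · linarith only [B34, H24]
  have E25 := D25
  have E26 : 0 ≤ d1 - h3 ∨ 0 ≤ -n2 + b2 - k - 1 ∨ 0 ≤ -n2 + b2 - n3 + b3 + z + 1 := by
    rcases D26 with H26 | H26 | H26 | H26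
    · linarith only [B37, H26]
    · exact Or.inl H26
    · exact Or.inr (Or.inl H26)
    · exact Or.inr (Or.inr H26)
  have E27 := D27
  have H24 := E24
  rcases E27 with H27 | H27
  · linarith only [H24, H27]
  · have H7 := E7
    rcases E21 with H21 | H21
    · rcases E9 with H9 | H9
      · rcases E26 with H26 | H26 | H26
        · rcases E4 with H4 | H4
          · linarith only [H26, B32, H24, H4]
          · linarith only [B33, B31, H4, H24, H21.1, H26]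
        · linarith only [H21.1, H26, H9.1]
        · linarith only [B17, H26, B16, B19, H9.1, B8]
      · exact g15_l0 B15 B18 B23 B25 E13 E25 H7 H9 H27
    · rcases E5 with H5 | H5
      · linarith only [H21.1, B23, B32, H24, H5, B10]
      · rcases E22 with H22 | H22
        · rcases E9 with H9 | H9
          · rcases E26 with H26 | H26 | H26
            · rcases E4 with H4 | H4
              · linarith only [H26, B32, H24, H4]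
              · linarith only [B33, H4, H24, H26, B5]
            · linarith only [H9.1, H26, H22.1]
            · linarith only [H26, B19, B16, B17, H9.1, B8]
          · exact g15_l0 B15 B18 B23 B25 E13 E25 H7 H9 H27
        · linarith only [H22.1, B5, H5]

theorem g16 {a1 a2 a3 b1 b2 b3 d1 hp m n3 x z : ℤ}
    (B16 : 0 ≤ -a1 - a2 + b1 + b2 - x)
    (B17 : 0 ≤ x - 1)
    (B19 : 0 ≤ a1 + a2 + a3 - b1 - b2 - b3 - z)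
    (B34 : 0 ≤ z - m)
    (B38 : 0 ≤ n3 - a3 - 1)
    (D7 : 0 ≤ m - z ∨ 0 ≤ m - n3 + b3)
    (D24 : 0 ≤ hp - d1 - 1 ∨ 0 ≤ m - z - 1)
    (D25 : 0 ≤ -hp + d1 ∨ 0 ≤ -n3 + a3 - m + z) : False := by
  have E7 : 0 ≤ m - z := by
    rcases D7 with H7 | H7
    · exact H7
    · linarith only [B17, B34, B38, H7, B16, B19]
  have E24 : 0 ≤ hp - d1 - 1 := by
    rcases D24 with H24 | H24
    · exact H24
    · linarith only [B34, H24]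
  have E25 := D25
  have H24 := E24
  rcases E25 with H25 | H25
  · linarith only [H24, H25]
  · have H7 := E7
    linarith only [H25, B38, H7]

theorem g17 {a3 b1 b2 b3 d1 h3 hp k m n1 n2 n3 p3 z : ℤ}
    (B5 : 0 ≤ b3)
    (B10 : 0 ≤ n2 - b2)
    (B23 : 0 ≤ d1 - 1)
    (B31 : 0 ≤ b3 - k - 1)
    (B32 : 0 ≤ n1 - b1 - hp)
    (B33 : 0 ≤ b2 - hp - 1)
    (B34 : 0 ≤ z - m)
    (B37 : 0 ≤ -z + n3 - a3 - 1)
    (D4 : 0 ≤ h3 - n1 + b1 ∨ 0 ≤ h3 - b2 - b3 + 1)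
    (D5 : 0 ≤ k - n1 + b1 - n2 + b2 ∨ 0 ≤ k - b3 + 1)
    (D21 : (0 ≤ k ∧ 0 ≤ -z - p3) ∨ (0 ≤ -k - 1 ∧ 0 ≤ p3))
    (D24 : 0 ≤ hp - d1 - 1 ∨ 0 ≤ m - z - 1)
    (D26 : 0 ≤ -h3 + d1 ∨ 0 ≤ -k - 2 ∨ 0 ≤ -n3 + a3 + z) : False := by
  have E4 := D4
  have E5 := D5
  have E21 := D21
  have E24 : 0 ≤ hp - d1 - 1 := by
    rcases D24 with H24 | H24
    · exact H24
    · linarith only [B34, H24]
  have E26 : 0 ≤ -h3 + d1 ∨ 0 ≤ -k - 2 := by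
    rcases D26 with H26 | H26 | H26
    · exact Or.inl H26
    · exact Or.inr H26
    · linarith only [B37, H26]
  have H24 := E24
  rcases E21 with H21 | H21
  · rcases E26 with H26 | H26
    · rcases E4 with H4 | H4
      · linarith only [H26, B32, H24, H4]
      · linarith only [B31, H21.1, B33, H24, H4, H26]
    · linarith only [H26, H21.1]
  · rcases E5 with H5 | H5
    · linarith only [B23, H21.1, B32, H24, B10, H5]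
    · rcases E26 with H26 | H26
      · rcases E4 with H4 | H4
        · linarith only [H26, B32, H24, H4]
        · linarith only [B33, H26, H24, H4, B5]
      · linarith only [H26, B5, H5]

theorem g18 {a3 b1 b2 b3 d1 h3 hp k m n1 n3 p3 z : ℤ}
    (B8 : 0 ≤ n3 - a3)
    (B20 : 0 ≤ z - 1)
    (B23 : 0 ≤ d1 - 1)
    (B31 : 0 ≤ b3 - k - 1)
    (B32 : 0 ≤ n1 - b1 - hp)
    (B33 : 0 ≤ b2 - hp - 1)
    (B34 : 0 ≤ z - m)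
    (B37 : 0 ≤ -p3 - z - 1)
    (D4 : 0 ≤ h3 - n1 + b1 ∨ 0 ≤ h3 - b2 - b3 + 1)
    (D20 : (0 ≤ k - 1 ∧ 0 ≤ -2 * z - p3) ∨ (0 ≤ -k ∧ 0 ≤ p3 + z))
    (D24 : 0 ≤ hp - d1 - 1 ∨ 0 ≤ m - z - 1)
    (D26 : 0 ≤ -d1 - h3 ∨ 0 ≤ -k ∨ 0 ≤ -n3 + a3 - z) : False := by
  have E4 := D4
  have E20 : (0 ≤ k - 1 ∧ 0 ≤ -2 * z - p3) := by
    rcases D20 with H20 | H20
    · exact H20
    · linarith only [B37, H20.2]
  have E24 : 0 ≤ hp - d1 - 1 := by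
    rcases D24 with H24 | H24
    · exact H24
    · linarith only [B34, H24]
  have E26 : 0 ≤ -d1 - h3 ∨ 0 ≤ -k := by
    rcases D26 with H26 | H26 | H26
    · exact Or.inl H26
    · exact Or.inr H26
    · linarith only [B20, B8, H26]
  have H24 := E24
  have H20 := E20
  rcases E26 with H26 | H26
  · rcases E4 with H4 | H4
    · linarith only [B23, H26, H24, B32, H4]
    · linarith only [B23, B31, H26, H24, B33, H4, H20.1]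
  · linarith only [H26, H20.1]

theorem g19 {m z : ℤ}
    (B34 : 0 ≤ z - m)
    (B37 : 0 ≤ m - z - 1) : False := by
  linarith only [B34, B37]

theorem los11 {n1 n2 n3 a1 a2 a3 b1 b2 b3 x z d1 : ℤ}
    (B0 : 0 ≤ a1)
    (B1 : 0 ≤ a2)
    (B2 : 0 ≤ a3)
    (B3 : 0 ≤ b1)
    (B4 : 0 ≤ b2)
    (B5 : 0 ≤ b3)
    (B6 : 0 ≤ n1 - a1)
    (B7 : 0 ≤ n2 - a2)
    (B8 : 0 ≤ n3 - a3)
    (B9 : 0 ≤ n1 - b1)
    (B10 : 0 ≤ n2 - b2)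
    (B11 : 0 ≤ n3 - b3)
    (B12 : 0 ≤ n1 - 1)
    (B13 : 0 ≤ n2 - 1)
    (B14 : 0 ≤ n3 - 1)
    (B15 : 0 ≤ x + a1 + a2 - b1 - b2)
    (B16 : 0 ≤ -a1 - a2 + b1 + b2 - x)
    (B17 : 0 ≤ x - 1)
    (B18 : 0 ≤ z - a1 - a2 - a3 + b1 + b2 + b3)
    (B19 : 0 ≤ a1 + a2 + a3 - b1 - b2 - b3 - z)
    (B20 : 0 ≤ z - 1)
    (B21 : 0 ≤ d1 - a1 + b1)
    (B22 : 0 ≤ a1 - b1 - d1)
    (B23 : 0 ≤ d1 - 1)
    (B24 : 0 ≤ x - 1)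
    (B25 : 0 ≤ -x + 1)
    (hex : 0 ≤ b1 - 1) :
    LosC n1 n2 n3 a1 a2 a3 b1 b2 b3 (d1 + 1) (-n2 + b2) (-n2 + b2 - n3 + b3 + z + 1) := by
  unfold LosC
  refine ⟨?_, ?_, ?_, ?_, ?_, ?_, ?_, ?_⟩ <;> omega

theorem los12 {n1 n2 n3 a1 a2 a3 b1 b2 b3 x z d1 : ℤ}
    (B0 : 0 ≤ a1)
    (B1 : 0 ≤ a2)
    (B2 : 0 ≤ a3)
    (B3 : 0 ≤ b1)
    (B4 : 0 ≤ b2)
    (B5 : 0 ≤ b3)
    (B6 : 0 ≤ n1 - a1)
    (B7 : 0 ≤ n2 - a2)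
    (B8 : 0 ≤ n3 - a3)
    (B9 : 0 ≤ n1 - b1)
    (B10 : 0 ≤ n2 - b2)
    (B11 : 0 ≤ n3 - b3)
    (B12 : 0 ≤ n1 - 1)
    (B13 : 0 ≤ n2 - 1)
    (B14 : 0 ≤ n3 - 1)
    (B15 : 0 ≤ x + a1 + a2 - b1 - b2)
    (B16 : 0 ≤ -a1 - a2 + b1 + b2 - x)
    (B17 : 0 ≤ x - 1)
    (B18 : 0 ≤ z - a1 - a2 - a3 + b1 + b2 + b3)
    (B19 : 0 ≤ a1 + a2 + a3 - b1 - b2 - b3 - z)
    (B20 : 0 ≤ z - 1)
    (B21 : 0 ≤ d1 - a1 + b1)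
    (B22 : 0 ≤ a1 - b1 - d1)
    (B23 : 0 ≤ d1 - 1)
    (B24 : 0 ≤ x - 1)
    (B25 : 0 ≤ -x + 1) :
    LosC n1 n2 n3 a1 a2 a3 b1 b2 b3 (1) (0) (-n3 + a3) := by
  unfold LosC
  refine ⟨?_, ?_, ?_, ?_, ?_, ?_, ?_, ?_⟩ <;> omega

theorem los22 {n1 n2 n3 a1 a2 a3 b1 b2 b3 x z d1 h : ℤ}
    (B0 : 0 ≤ a1)
    (B1 : 0 ≤ a2)
    (B2 : 0 ≤ a3)
    (B3 : 0 ≤ b1)
    (B4 : 0 ≤ b2)
    (B5 : 0 ≤ b3)
    (B6 : 0 ≤ n1 - a1)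
    (B7 : 0 ≤ n2 - a2)
    (B8 : 0 ≤ n3 - a3)
    (B9 : 0 ≤ n1 - b1)
    (B10 : 0 ≤ n2 - b2)
    (B11 : 0 ≤ n3 - b3)
    (B12 : 0 ≤ n1 - 1)
    (B13 : 0 ≤ n2 - 1)
    (B14 : 0 ≤ n3 - 1)
    (B15 : 0 ≤ x + a1 + a2 - b1 - b2)
    (B16 : 0 ≤ -a1 - a2 + b1 + b2 - x)
    (B17 : 0 ≤ x - 1)
    (B18 : 0 ≤ z - a1 - a2 - a3 + b1 + b2 + b3)
    (B19 : 0 ≤ a1 + a2 + a3 - b1 - b2 - b3 - z)
    (B20 : 0 ≤ z - 1)
    (B21 : 0 ≤ d1 - a1 + b1)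
    (B22 : 0 ≤ a1 - b1 - d1)
    (B23 : 0 ≤ d1 - 1)
    (B24 : 0 ≤ x - 1)
    (B25 : 0 ≤ -x + 1)
    (B26 : 0 ≤ n1 - a1 - h)
    (B27 : 0 ≤ a2 - h - 1)
    (C_Dh : 0 ≤ h - n1 + a1 ∨ 0 ≤ h - a2 + 1) :
    LosC n1 n2 n3 a1 a2 a3 b1 b2 b3 (-h) (1) (-n3 + a3 + 1) := by
  unfold LosC
  refine ⟨?_, ?_, ?_, ?_, ?_, ?_, ?_, ?_⟩ <;> omega

theorem los33 {n1 n2 n3 a1 a2 a3 b1 b2 b3 x z d1 h3 k : ℤ}
    (B0 : 0 ≤ a1)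
    (B1 : 0 ≤ a2)
    (B2 : 0 ≤ a3)
    (B3 : 0 ≤ b1)
    (B4 : 0 ≤ b2)
    (B5 : 0 ≤ b3)
    (B6 : 0 ≤ n1 - a1)
    (B7 : 0 ≤ n2 - a2)
    (B8 : 0 ≤ n3 - a3)
    (B9 : 0 ≤ n1 - b1)
    (B10 : 0 ≤ n2 - b2)
    (B11 : 0 ≤ n3 - b3)
    (B12 : 0 ≤ n1 - 1)
    (B13 : 0 ≤ n2 - 1)
    (B14 : 0 ≤ n3 - 1)
    (B15 : 0 ≤ x + a1 + a2 - b1 - b2)
    (B16 : 0 ≤ -a1 - a2 + b1 + b2 - x)
    (B17 : 0 ≤ x - 1)
    (B18 : 0 ≤ z - a1 - a2 - a3 + b1 + b2 + b3)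
    (B19 : 0 ≤ a1 + a2 + a3 - b1 - b2 - b3 - z)
    (B20 : 0 ≤ z - 1)
    (B21 : 0 ≤ d1 - a1 + b1)
    (B22 : 0 ≤ a1 - b1 - d1)
    (B23 : 0 ≤ d1 - 1)
    (B24 : 0 ≤ x - 1)
    (B25 : 0 ≤ -x + 1)
    (B28 : 0 ≤ n1 - b1 - h3)
    (B29 : 0 ≤ b2 + b3 - h3 - 1)
    (B30 : 0 ≤ n1 - b1 + n2 - b2 - k)
    (B31 : 0 ≤ b3 - k - 1)
    (C_Dh3 : 0 ≤ h3 - n1 + b1 ∨ 0 ≤ h3 - b2 - b3 + 1)
    (C_Dk : 0 ≤ k - n1 + b1 - n2 + b2 ∨ 0 ≤ k - b3 + 1) :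
    LosC n1 n2 n3 a1 a2 a3 b1 b2 b3 (-h3 + d1) (-k - 1) (z + 1) := by
  unfold LosC
  refine ⟨?_, ?_, ?_, ?_, ?_, ?_, ?_, ?_⟩ <;> omega

theorem los32 {n1 n2 n3 a1 a2 a3 b1 b2 b3 x z d1 hp m : ℤ}
    (B0 : 0 ≤ a1)
    (B1 : 0 ≤ a2)
    (B2 : 0 ≤ a3)
    (B3 : 0 ≤ b1)
    (B4 : 0 ≤ b2)
    (B5 : 0 ≤ b3)
    (B6 : 0 ≤ n1 - a1)
    (B7 : 0 ≤ n2 - a2)
    (B8 : 0 ≤ n3 - a3)
    (B9 : 0 ≤ n1 - b1)
    (B10 : 0 ≤ n2 - b2)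
    (B11 : 0 ≤ n3 - b3)
    (B12 : 0 ≤ n1 - 1)
    (B13 : 0 ≤ n2 - 1)
    (B14 : 0 ≤ n3 - 1)
    (B15 : 0 ≤ x + a1 + a2 - b1 - b2)
    (B16 : 0 ≤ -a1 - a2 + b1 + b2 - x)
    (B17 : 0 ≤ x - 1)
    (B18 : 0 ≤ z - a1 - a2 - a3 + b1 + b2 + b3)
    (B19 : 0 ≤ a1 + a2 + a3 - b1 - b2 - b3 - z)
    (B20 : 0 ≤ z - 1)
    (B21 : 0 ≤ d1 - a1 + b1)
    (B22 : 0 ≤ a1 - b1 - d1)
    (B23 : 0 ≤ d1 - 1)
    (B24 : 0 ≤ x - 1)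
    (B25 : 0 ≤ -x + 1)
    (B32 : 0 ≤ n1 - b1 - hp)
    (B33 : 0 ≤ b2 - hp - 1)
    (B34 : 0 ≤ z - m)
    (B35 : 0 ≤ n3 - b3 - m)
    (C_Dhp : 0 ≤ hp - n1 + b1 ∨ 0 ≤ hp - b2 + 1)
    (C_Dm : 0 ≤ m - z ∨ 0 ≤ m - n3 + b3) :
    LosC n1 n2 n3 a1 a2 a3 b1 b2 b3 (-hp + d1) (0) (-m + z + 1) := by
  unfold LosC
  refine ⟨?_, ?_, ?_, ?_, ?_, ?_, ?_, ?_⟩ <;> omega

theorem hd {n1 n2 n3 a1 a2 a3 b1 b2 b3 x z d1 h h3 k hp m : ℤ}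
    (B0 : 0 ≤ a1)
    (B1 : 0 ≤ a2)
    (B2 : 0 ≤ a3)
    (B3 : 0 ≤ b1)
    (B4 : 0 ≤ b2)
    (B5 : 0 ≤ b3)
    (B6 : 0 ≤ n1 - a1)
    (B7 : 0 ≤ n2 - a2)
    (B8 : 0 ≤ n3 - a3)
    (B9 : 0 ≤ n1 - b1)
    (B10 : 0 ≤ n2 - b2)
    (B11 : 0 ≤ n3 - b3)
    (B12 : 0 ≤ n1 - 1)
    (B13 : 0 ≤ n2 - 1)
    (B14 : 0 ≤ n3 - 1)
    (B15 : 0 ≤ x + a1 + a2 - b1 - b2)
    (B16 : 0 ≤ -a1 - a2 + b1 + b2 - x)
    (B17 : 0 ≤ x - 1)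
    (B18 : 0 ≤ z - a1 - a2 - a3 + b1 + b2 + b3)
    (B19 : 0 ≤ a1 + a2 + a3 - b1 - b2 - b3 - z)
    (B20 : 0 ≤ z - 1)
    (B21 : 0 ≤ d1 - a1 + b1)
    (B22 : 0 ≤ a1 - b1 - d1)
    (B23 : 0 ≤ d1 - 1)
    (B24 : 0 ≤ x - 1)
    (B25 : 0 ≤ -x + 1)
    (B26 : 0 ≤ n1 - a1 - h)
    (B27 : 0 ≤ a2 - h - 1)
    (B28 : 0 ≤ n1 - b1 - h3)
    (B29 : 0 ≤ b2 + b3 - h3 - 1)
    (B30 : 0 ≤ n1 - b1 + n2 - b2 - k)
    (B31 : 0 ≤ b3 - k - 1)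
    (B32 : 0 ≤ n1 - b1 - hp)
    (B33 : 0 ≤ b2 - hp - 1)
    (B34 : 0 ≤ z - m)
    (B35 : 0 ≤ n3 - b3 - m)
    (C_Dh : 0 ≤ h - n1 + a1 ∨ 0 ≤ h - a2 + 1)
    (C_Dh3 : 0 ≤ h3 - n1 + b1 ∨ 0 ≤ h3 - b2 - b3 + 1)
    (C_Dk : 0 ≤ k - n1 + b1 - n2 + b2 ∨ 0 ≤ k - b3 + 1)
    (C_Dhp : 0 ≤ hp - n1 + b1 ∨ 0 ≤ hp - b2 + 1)
    (C_Dm : 0 ≤ m - z ∨ 0 ≤ m - n3 + b3) :
    ∀ c1 c2 c3, LosC n1 n2 n3 a1 a2 a3 b1 b2 b3 c1 c2 c3 →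
      ∃ v ∈ ([⟨0 ≤ b1 - 1, d1 + 1, -n2 + b2, -n2 + b2 - n3 + b3 + z + 1⟩, ⟨True, 1, 0, -n3 + a3⟩, ⟨True, -h, 1, -n3 + a3 + 1⟩, ⟨True, -h3 + d1, -k - 1, z + 1⟩, ⟨True, -hp + d1, 0, -m + z + 1⟩] : List LV), v.ex ∧ v.c1 ≤ c1 ∧ v.c2 ≤ c2 ∧ v.c3 ≤ c3 := by
  intro c1 c2 c3 hc
  obtain ⟨q1, q2, q3, q4, q5, q6, qa, qb⟩ := hc
  rcases qb with qb | qb | qb
  · clear qa
    clear C_Dh C_Dh3 C_Dk C_Dhp C_Dm
    refine ⟨_, List.Mem.head _, ?_, ?_, ?_, ?_⟩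
    · show 0 ≤ b1 - 1; omega
    · show d1 + 1 ≤ c1; omega
    · show -n2 + b2 ≤ c2; omega
    · show -n2 + b2 - n3 + b3 + z + 1 ≤ c3; omega
  · rcases qa with qa | qa | qa
    · clear C_Dh C_Dh3 C_Dk C_Dhp C_Dm
      refine ⟨_, List.Mem.tail _ (List.Mem.head _), ?_, ?_, ?_, ?_⟩
      · trivial
      · show 1 ≤ c1; omega
      · show 0 ≤ c2; omega
      · show -n3 + a3 ≤ c3; omega
    · clear C_Dh3 C_Dk C_Dhp C_Dm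
      refine ⟨_, List.Mem.tail _ (List.Mem.tail _ (List.Mem.head _)), ?_, ?_, ?_, ?_⟩
      · trivial
      · show -h ≤ c1; omega
      · show 1 ≤ c2; omega
      · show -n3 + a3 + 1 ≤ c3; omega
    · clear C_Dh C_Dh3 C_Dk
      refine ⟨_, List.Mem.tail _ (List.Mem.tail _ (List.Mem.tail _ (List.Mem.tail _ (List.Mem.head _)))), ?_, ?_, ?_, ?_⟩
      · trivial
      · show -hp + d1 ≤ c1; omega
      · show 0 ≤ c2; omega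
      · show -m + z + 1 ≤ c3; omega
  · clear qa
    clear C_Dh C_Dhp C_Dm
    refine ⟨_, List.Mem.tail _ (List.Mem.tail _ (List.Mem.tail _ (List.Mem.head _))), ?_, ?_, ?_, ?_⟩
    · trivial
    · show -h3 + d1 ≤ c1; omega
    · show -k - 1 ≤ c2; omega
    · show z + 1 ≤ c3; omega

theorem cvF_V1_V3_11 {b1 b2 b3 d1 n2 n3 p0 p1 z : ℤ}
    (ep0 : p0 = (d1) * (-n2 + b2))
    (ep1 : p1 = (z) * (-n2 + b2))
    (hex : 0 ≤ b1 - 1)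
    (hf : LexFail ((1) * (d1 + 1) + (d1) * (-n2 + b2) + (0) * (-n2 + b2 - n3 + b3 + z + 1))
      ((0) * (d1 + 1) + (z) * (-n2 + b2) + (1) * (-n2 + b2 - n3 + b3 + z + 1))
      ((0) * (d1 + 1) + (0) * (-n2 + b2) + (0) * (-n2 + b2 - n3 + b3 + z + 1))) :
    0 ≤ b1 - 1 ∧ 0 ≤ -d1 - p0 - 1 ∧ (0 ≤ -d1 - p0 - 2 ∨ 0 ≤ -p1 + n2 - b2 + n3 - b3 - z - 1) := by
  rcases hf with hf | ⟨hf0, hf⟩ | ⟨hf0, hf1, hf⟩
  · exact ⟨by linarith only [hex], by linarith only [hf, ep0], Or.inl (by linarith only [hf, ep0])⟩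
  · exact ⟨by linarith only [hex], by linarith only [hf0, ep0], Or.inr (by linarith only [hf, ep1])⟩
  · exact ⟨by linarith only [hex], by linarith only [hf0, ep0], Or.inr (by linarith only [hf1, ep1])⟩

theorem cvF_V1_V3_12 {a3 d1 n3 z : ℤ}
    (hf : LexFail ((1) * (1) + (d1) * (0) + (0) * (-n3 + a3))
      ((0) * (1) + (z) * (0) + (1) * (-n3 + a3))
      ((0) * (1) + (0) * (0) + (0) * (-n3 + a3))) :
    False := by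
  rcases hf with hf | ⟨hf0, hf⟩ | ⟨hf0, hf1, hf⟩
  · exfalso; linarith only [hf]
  · exfalso; linarith only [hf0]
  · exfalso; linarith only [hf0]

theorem cvF_V1_V3_22 {a3 d1 h n3 z : ℤ}
    (hf : LexFail ((1) * (-h) + (d1) * (1) + (0) * (-n3 + a3 + 1))
      ((0) * (-h) + (z) * (1) + (1) * (-n3 + a3 + 1))
      ((0) * (-h) + (0) * (1) + (0) * (-n3 + a3 + 1))) :
    0 ≤ h - d1 ∧ (0 ≤ h - d1 - 1 ∨ 0 ≤ -z + n3 - a3 - 1) := by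
  rcases hf with hf | ⟨hf0, hf⟩ | ⟨hf0, hf1, hf⟩
  · exact ⟨by linarith only [hf], Or.inl (by linarith only [hf])⟩
  · exact ⟨by linarith only [hf0], Or.inr (by linarith only [hf])⟩
  · exact ⟨by linarith only [hf0], Or.inr (by linarith only [hf1])⟩

theorem cvF_V1_V3_33 {d1 h3 k p2 p3 z : ℤ}
    (ep2 : p2 = (d1) * (-k - 1))
    (ep3 : p3 = (z) * (-k - 1))
    (hf : LexFail ((1) * (-h3 + d1) + (d1) * (-k - 1) + (0) * (z + 1))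
      ((0) * (-h3 + d1) + (z) * (-k - 1) + (1) * (z + 1))
      ((0) * (-h3 + d1) + (0) * (-k - 1) + (0) * (z + 1))) :
    0 ≤ h3 - d1 - p2 ∧ (0 ≤ h3 - d1 - p2 - 1 ∨ 0 ≤ -p3 - z - 1) := by
  rcases hf with hf | ⟨hf0, hf⟩ | ⟨hf0, hf1, hf⟩
  · exact ⟨by linarith only [hf, ep2], Or.inl (by linarith only [hf, ep2])⟩
  · exact ⟨by linarith only [hf0, ep2], Or.inr (by linarith only [hf, ep3])⟩
  · exact ⟨by linarith only [hf0, ep2], Or.inr (by linarith only [hf1, ep3])⟩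

theorem cvF_V1_V3_32 {d1 hp m z : ℤ}
    (hf : LexFail ((1) * (-hp + d1) + (d1) * (0) + (0) * (-m + z + 1))
      ((0) * (-hp + d1) + (z) * (0) + (1) * (-m + z + 1))
      ((0) * (-hp + d1) + (0) * (0) + (0) * (-m + z + 1))) :
    0 ≤ hp - d1 ∧ (0 ≤ hp - d1 - 1 ∨ 0 ≤ m - z - 1) := by
  rcases hf with hf | ⟨hf0, hf⟩ | ⟨hf0, hf1, hf⟩
  · exact ⟨by linarith only [hf], Or.inl (by linarith only [hf])⟩
  · exact ⟨by linarith only [hf0], Or.inr (by linarith only [hf])⟩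
  · exact ⟨by linarith only [hf0], Or.inr (by linarith only [hf1])⟩

theorem FAt {n1 n2 n3 a1 a2 a3 b1 b2 b3 x z d1 h h3 k hp m p0 p1 p2 p3 : ℤ}
    (B15 : 0 ≤ x + a1 + a2 - b1 - b2)
    (B16 : 0 ≤ -a1 - a2 + b1 + b2 - x)
    (B17 : 0 ≤ x - 1)
    (B18 : 0 ≤ z - a1 - a2 - a3 + b1 + b2 + b3)
    (B19 : 0 ≤ a1 + a2 + a3 - b1 - b2 - b3 - z)
    (B20 : 0 ≤ z - 1)
    (B21 : 0 ≤ d1 - a1 + b1)
    (B22 : 0 ≤ a1 - b1 - d1)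
    (B23 : 0 ≤ d1 - 1)
    (B24 : 0 ≤ x - 1)
    (B25 : 0 ≤ -x + 1)
    (ep0 : p0 = (d1) * (-n2 + b2))
    (ep1 : p1 = (z) * (-n2 + b2))
    (ep2 : p2 = (d1) * (-k - 1))
    (ep3 : p3 = (z) * (-k - 1))
    (w1 : a1 - b1 = d1) (w2 : a1 + a2 - b1 - b2 = -1) (w3 : a1 + a2 + a3 - b1 - b2 - b3 = z)
    (hno : ¬ ∃ u1 u2 u3 : ℤ, Good n1 n2 n3 a1 a2 a3 b1 b2 b3 u1 u2 u3)
    (hd : ∀ c1 c2 c3, LosC n1 n2 n3 a1 a2 a3 b1 b2 b3 c1 c2 c3 →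
      ∃ v ∈ ([⟨0 ≤ b1 - 1, d1 + 1, -n2 + b2, -n2 + b2 - n3 + b3 + z + 1⟩, ⟨True, 1, 0, -n3 + a3⟩, ⟨True, -h, 1, -n3 + a3 + 1⟩, ⟨True, -h3 + d1, -k - 1, z + 1⟩, ⟨True, -hp + d1, 0, -m + z + 1⟩] : List LV), v.ex ∧ v.c1 ≤ c1 ∧ v.c2 ≤ c2 ∧ v.c3 ≤ c3) :
    (0 ≤ b1 - 1 ∧ 0 ≤ -d1 - p0 - 1 ∧ (0 ≤ -d1 - p0 - 2 ∨ 0 ≤ -p1 + n2 - b2 + n3 - b3 - z - 1)) ∨ (0 ≤ h - d1 ∧ (0 ≤ h - d1 - 1 ∨ 0 ≤ -z + n3 - a3 - 1)) ∨ (0 ≤ h3 - d1 - p2 ∧ (0 ≤ h3 - d1 - p2 - 1 ∨ 0 ≤ -p3 - z - 1)) ∨ (0 ≤ hp - d1 ∧ (0 ≤ hp - d1 - 1 ∨ 0 ≤ m - z - 1)) := by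
  obtain ⟨v, hv, hex, hf⟩ := failA' w1 w2 w3 hno _ hd (1) (d1) (0) (0) (z) (1) (0) (0) (0)
    ⟨zero_le_one, by linarith only [B15, B16, B17, B18, B19, B20, B21, B22, B23, B24, B25], le_refl 0⟩ ⟨le_refl 0, by linarith only [B15, B16, B17, B18, B19, B20, B21, B22, B23, B24, B25], zero_le_one⟩ ⟨le_refl 0, le_refl 0, le_refl 0⟩
    (Or.inr ⟨by ring, Or.inr ⟨by ring, by linarith only [B15, B16, B17, B18, B19, B20, B21, B22, B23, B24, B25]⟩⟩)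
  simp only [List.mem_cons, List.not_mem_nil, or_false] at hv
  rcases hv with rfl | rfl | rfl | rfl | rfl
  · exact Or.inl (cvF_V1_V3_11 ep0 ep1 hex hf)
  · exact (cvF_V1_V3_12 hf).elim
  · exact Or.inr (Or.inl (cvF_V1_V3_22 hf))
  · exact Or.inr (Or.inr (Or.inl (cvF_V1_V3_33 ep2 ep3 hf)))
  · exact Or.inr (Or.inr (Or.inr (cvF_V1_V3_32 hf)))

theorem cvF_V3_V1_11 {b1 b2 b3 d1 n2 n3 p0 p1 z : ℤ}
    (ep0 : p0 = (d1) * (-n2 + b2))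
    (ep1 : p1 = (z) * (-n2 + b2))
    (hex : 0 ≤ b1 - 1)
    (hf : LexFail ((0) * (d1 + 1) + (z) * (-n2 + b2) + (1) * (-n2 + b2 - n3 + b3 + z + 1))
      ((1) * (d1 + 1) + (d1) * (-n2 + b2) + (0) * (-n2 + b2 - n3 + b3 + z + 1))
      ((0) * (d1 + 1) + (0) * (-n2 + b2) + (0) * (-n2 + b2 - n3 + b3 + z + 1))) :
    0 ≤ b1 - 1 ∧ 0 ≤ -p1 + n2 - b2 + n3 - b3 - z - 1 ∧ (0 ≤ -p1 + n2 - b2 + n3 - b3 - z - 2 ∨ 0 ≤ -d1 - p0 - 1) := by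
  rcases hf with hf | ⟨hf0, hf⟩ | ⟨hf0, hf1, hf⟩
  · exact ⟨by linarith only [hex], by linarith only [hf, ep1], Or.inl (by linarith only [hf, ep1])⟩
  · exact ⟨by linarith only [hex], by linarith only [hf0, ep1], Or.inr (by linarith only [hf, ep0])⟩
  · exact ⟨by linarith only [hex], by linarith only [hf0, ep1], Or.inr (by linarith only [hf1, ep0])⟩

theorem cvF_V3_V1_12 {a3 d1 n3 z : ℤ}
    (hf : LexFail ((0) * (1) + (z) * (0) + (1) * (-n3 + a3))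
      ((1) * (1) + (d1) * (0) + (0) * (-n3 + a3))
      ((0) * (1) + (0) * (0) + (0) * (-n3 + a3))) :
    0 ≤ n3 - a3 ∧ 0 ≤ n3 - a3 - 1 := by
  rcases hf with hf | ⟨hf0, hf⟩ | ⟨hf0, hf1, hf⟩
  · exact ⟨by linarith only [hf], by linarith only [hf]⟩
  · exfalso; linarith only [hf]
  · exfalso; linarith only [hf1]

theorem cvF_V3_V1_22 {a3 d1 h n3 z : ℤ}
    (hf : LexFail ((0) * (-h) + (z) * (1) + (1) * (-n3 + a3 + 1))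
      ((1) * (-h) + (d1) * (1) + (0) * (-n3 + a3 + 1))
      ((0) * (-h) + (0) * (1) + (0) * (-n3 + a3 + 1))) :
    0 ≤ -z + n3 - a3 - 1 ∧ (0 ≤ -z + n3 - a3 - 2 ∨ 0 ≤ h - d1) := by
  rcases hf with hf | ⟨hf0, hf⟩ | ⟨hf0, hf1, hf⟩
  · exact ⟨by linarith only [hf], Or.inl (by linarith only [hf])⟩
  · exact ⟨by linarith only [hf0], Or.inr (by linarith only [hf])⟩
  · exact ⟨by linarith only [hf0], Or.inr (by linarith only [hf1])⟩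

theorem cvF_V3_V1_33 {d1 h3 k p2 p3 z : ℤ}
    (ep2 : p2 = (d1) * (-k - 1))
    (ep3 : p3 = (z) * (-k - 1))
    (hf : LexFail ((0) * (-h3 + d1) + (z) * (-k - 1) + (1) * (z + 1))
      ((1) * (-h3 + d1) + (d1) * (-k - 1) + (0) * (z + 1))
      ((0) * (-h3 + d1) + (0) * (-k - 1) + (0) * (z + 1))) :
    0 ≤ -p3 - z - 1 ∧ (0 ≤ -p3 - z - 2 ∨ 0 ≤ h3 - d1 - p2) := by
  rcases hf with hf | ⟨hf0, hf⟩ | ⟨hf0, hf1, hf⟩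
  · exact ⟨by linarith only [hf, ep3], Or.inl (by linarith only [hf, ep3])⟩
  · exact ⟨by linarith only [hf0, ep3], Or.inr (by linarith only [hf, ep2])⟩
  · exact ⟨by linarith only [hf0, ep3], Or.inr (by linarith only [hf1, ep2])⟩

theorem cvF_V3_V1_32 {d1 hp m z : ℤ}
    (hf : LexFail ((0) * (-hp + d1) + (z) * (0) + (1) * (-m + z + 1))
      ((1) * (-hp + d1) + (d1) * (0) + (0) * (-m + z + 1))
      ((0) * (-hp + d1) + (0) * (0) + (0) * (-m + z + 1))) :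
    0 ≤ m - z - 1 ∧ (0 ≤ m - z - 2 ∨ 0 ≤ hp - d1) := by
  rcases hf with hf | ⟨hf0, hf⟩ | ⟨hf0, hf1, hf⟩
  · exact ⟨by linarith only [hf], Or.inl (by linarith only [hf])⟩
  · exact ⟨by linarith only [hf0], Or.inr (by linarith only [hf])⟩
  · exact ⟨by linarith only [hf0], Or.inr (by linarith only [hf1])⟩

theorem FBt {n1 n2 n3 a1 a2 a3 b1 b2 b3 x z d1 h h3 k hp m p0 p1 p2 p3 : ℤ}
    (B15 : 0 ≤ x + a1 + a2 - b1 - b2)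
    (B16 : 0 ≤ -a1 - a2 + b1 + b2 - x)
    (B17 : 0 ≤ x - 1)
    (B18 : 0 ≤ z - a1 - a2 - a3 + b1 + b2 + b3)
    (B19 : 0 ≤ a1 + a2 + a3 - b1 - b2 - b3 - z)
    (B20 : 0 ≤ z - 1)
    (B21 : 0 ≤ d1 - a1 + b1)
    (B22 : 0 ≤ a1 - b1 - d1)
    (B23 : 0 ≤ d1 - 1)
    (B24 : 0 ≤ x - 1)
    (B25 : 0 ≤ -x + 1)
    (ep0 : p0 = (d1) * (-n2 + b2))
    (ep1 : p1 = (z) * (-n2 + b2))
    (ep2 : p2 = (d1) * (-k - 1))
    (ep3 : p3 = (z) * (-k - 1))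
    (w1 : a1 - b1 = d1) (w2 : a1 + a2 - b1 - b2 = -1) (w3 : a1 + a2 + a3 - b1 - b2 - b3 = z)
    (hno : ¬ ∃ u1 u2 u3 : ℤ, Good n1 n2 n3 a1 a2 a3 b1 b2 b3 u1 u2 u3)
    (hd : ∀ c1 c2 c3, LosC n1 n2 n3 a1 a2 a3 b1 b2 b3 c1 c2 c3 →
      ∃ v ∈ ([⟨0 ≤ b1 - 1, d1 + 1, -n2 + b2, -n2 + b2 - n3 + b3 + z + 1⟩, ⟨True, 1, 0, -n3 + a3⟩, ⟨True, -h, 1, -n3 + a3 + 1⟩, ⟨True, -h3 + d1, -k - 1, z + 1⟩, ⟨True, -hp + d1, 0, -m + z + 1⟩] : List LV), v.ex ∧ v.c1 ≤ c1 ∧ v.c2 ≤ c2 ∧ v.c3 ≤ c3) :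
    (0 ≤ b1 - 1 ∧ 0 ≤ -p1 + n2 - b2 + n3 - b3 - z - 1 ∧ (0 ≤ -p1 + n2 - b2 + n3 - b3 - z - 2 ∨ 0 ≤ -d1 - p0 - 1)) ∨ (0 ≤ n3 - a3 ∧ 0 ≤ n3 - a3 - 1) ∨ (0 ≤ -z + n3 - a3 - 1 ∧ (0 ≤ -z + n3 - a3 - 2 ∨ 0 ≤ h - d1)) ∨ (0 ≤ -p3 - z - 1 ∧ (0 ≤ -p3 - z - 2 ∨ 0 ≤ h3 - d1 - p2)) ∨ (0 ≤ m - z - 1 ∧ (0 ≤ m - z - 2 ∨ 0 ≤ hp - d1)) := by
  obtain ⟨v, hv, hex, hf⟩ := failA' w1 w2 w3 hno _ hd (0) (z) (1) (1) (d1) (0) (0) (0) (0)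
    ⟨le_refl 0, by linarith only [B15, B16, B17, B18, B19, B20, B21, B22, B23, B24, B25], zero_le_one⟩ ⟨zero_le_one, by linarith only [B15, B16, B17, B18, B19, B20, B21, B22, B23, B24, B25], le_refl 0⟩ ⟨le_refl 0, le_refl 0, le_refl 0⟩
    (Or.inr ⟨by ring, Or.inr ⟨by ring, by linarith only [B15, B16, B17, B18, B19, B20, B21, B22, B23, B24, B25]⟩⟩)
  simp only [List.mem_cons, List.not_mem_nil, or_false] at hv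
  rcases hv with rfl | rfl | rfl | rfl | rfl
  · exact Or.inl (cvF_V3_V1_11 ep0 ep1 hex hf)
  · exact Or.inr (Or.inl (cvF_V3_V1_12 hf))
  · exact Or.inr (Or.inr (Or.inl (cvF_V3_V1_22 hf)))
  · exact Or.inr (Or.inr (Or.inr (Or.inl (cvF_V3_V1_33 ep2 ep3 hf))))
  · exact Or.inr (Or.inr (Or.inr (Or.inr (cvF_V3_V1_32 hf))))

theorem T1_11_22 {n1 n2 n3 a1 a2 a3 b1 b2 b3 z d1 h : ℤ}
    (H : NoTr n1 n2 n3 a1 a2 a3 b1 b2 b3)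
    (w1 : a1 - b1 = d1) (w2 : a1 + a2 - b1 - b2 = -1) (w3 : a1 + a2 + a3 - b1 - b2 - b3 = z)
    (l11 : 0 ≤ b1 - 1 → LosC n1 n2 n3 a1 a2 a3 b1 b2 b3 (d1 + 1) (-n2 + b2) (-n2 + b2 - n3 + b3 + z + 1))
    (l22 : LosC n1 n2 n3 a1 a2 a3 b1 b2 b3 (-h) (1) (-n3 + a3 + 1))
    : 0 ≤ -b1 ∨ 0 ≤ -h ∨ 0 ≤ -n2 + b2 + 1 ∨ 0 ≤ -n2 + b2 - 2 * n3 + b3 + a3 + 1 := by
  rcases le_or_gt (b1) 0 with hb0 | hb0
  · exact Or.inl (by linarith only [hb0])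
  rcases H.t1 w1 w2 w3 (l11 (by linarith only [hb0])) l22 with hq | hq | hq
  · exact Or.inr (Or.inl (by linarith only [hq]))
  · exact Or.inr (Or.inr (Or.inl (by linarith only [hq])))
  · exact Or.inr (Or.inr (Or.inr (by linarith only [hq])))

theorem T2_11_22 {n1 n2 n3 a1 a2 a3 b1 b2 b3 z d1 h : ℤ}
    (H : NoTr n1 n2 n3 a1 a2 a3 b1 b2 b3)
    (l11 : 0 ≤ b1 - 1 → LosC n1 n2 n3 a1 a2 a3 b1 b2 b3 (d1 + 1) (-n2 + b2) (-n2 + b2 - n3 + b3 + z + 1))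
    (l22 : LosC n1 n2 n3 a1 a2 a3 b1 b2 b3 (-h) (1) (-n3 + a3 + 1))
    : 0 ≤ -b1 ∨ 0 ≤ d1 - h ∨ 0 ≤ -n2 + b2 ∨ 0 ≤ -n2 + b2 - 2 * n3 + b3 + z + a3 + 1 := by
  rcases le_or_gt (b1) 0 with hb0 | hb0
  · exact Or.inl (by linarith only [hb0])
  rcases H.t2 (l11 (by linarith only [hb0])) l22 with hq | hq | hq
  · exact Or.inr (Or.inl (by linarith only [hq]))
  · exact Or.inr (Or.inr (Or.inl (by linarith only [hq])))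
  · exact Or.inr (Or.inr (Or.inr (by linarith only [hq])))

theorem T0_11_33 {n1 n2 n3 a1 a2 a3 b1 b2 b3 z d1 h3 k : ℤ}
    (H : NoTr n1 n2 n3 a1 a2 a3 b1 b2 b3)
    (w1 : a1 - b1 = d1) (w2 : a1 + a2 - b1 - b2 = -1) (w3 : a1 + a2 + a3 - b1 - b2 - b3 = z)
    (l11 : 0 ≤ b1 - 1 → LosC n1 n2 n3 a1 a2 a3 b1 b2 b3 (d1 + 1) (-n2 + b2) (-n2 + b2 - n3 + b3 + z + 1))
    (l33 : LosC n1 n2 n3 a1 a2 a3 b1 b2 b3 (-h3 + d1) (-k - 1) (z + 1))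
    : 0 ≤ -b1 ∨ 0 ≤ -h3 ∨ 0 ≤ -n2 + b2 - k ∨ 0 ≤ -n2 + b2 - n3 + b3 + 1 := by
  rcases le_or_gt (b1) 0 with hb0 | hb0
  · exact Or.inl (by linarith only [hb0])
  rcases H.t0 w1 w2 w3 (l11 (by linarith only [hb0])) l33 with hq | hq | hq
  · exact Or.inr (Or.inl (by linarith only [hq]))
  · exact Or.inr (Or.inr (Or.inl (by linarith only [hq])))
  · exact Or.inr (Or.inr (Or.inr (by linarith only [hq])))

theorem T1_11_33 {n1 n2 n3 a1 a2 a3 b1 b2 b3 z d1 h3 k : ℤ}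
    (H : NoTr n1 n2 n3 a1 a2 a3 b1 b2 b3)
    (w1 : a1 - b1 = d1) (w2 : a1 + a2 - b1 - b2 = -1) (w3 : a1 + a2 + a3 - b1 - b2 - b3 = z)
    (l11 : 0 ≤ b1 - 1 → LosC n1 n2 n3 a1 a2 a3 b1 b2 b3 (d1 + 1) (-n2 + b2) (-n2 + b2 - n3 + b3 + z + 1))
    (l33 : LosC n1 n2 n3 a1 a2 a3 b1 b2 b3 (-h3 + d1) (-k - 1) (z + 1))
    : 0 ≤ -b1 ∨ 0 ≤ d1 - h3 ∨ 0 ≤ -n2 + b2 - k - 1 ∨ 0 ≤ -n2 + b2 - n3 + b3 + z + 1 := by
  rcases le_or_gt (b1) 0 with hb0 | hb0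
  · exact Or.inl (by linarith only [hb0])
  rcases H.t1 w1 w2 w3 (l11 (by linarith only [hb0])) l33 with hq | hq | hq
  · exact Or.inr (Or.inl (by linarith only [hq]))
  · exact Or.inr (Or.inr (Or.inl (by linarith only [hq])))
  · exact Or.inr (Or.inr (Or.inr (by linarith only [hq])))

theorem T2_11_32 {n1 n2 n3 a1 a2 a3 b1 b2 b3 z d1 hp m : ℤ}
    (H : NoTr n1 n2 n3 a1 a2 a3 b1 b2 b3)
    (l11 : 0 ≤ b1 - 1 → LosC n1 n2 n3 a1 a2 a3 b1 b2 b3 (d1 + 1) (-n2 + b2) (-n2 + b2 - n3 + b3 + z + 1))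
    (l32 : LosC n1 n2 n3 a1 a2 a3 b1 b2 b3 (-hp + d1) (0) (-m + z + 1))
    : 0 ≤ -b1 ∨ 0 ≤ 2 * d1 - hp ∨ 0 ≤ -n2 + b2 - 1 ∨ 0 ≤ -n2 + b2 - n3 + b3 + 2 * z - m + 1 := by
  rcases le_or_gt (b1) 0 with hb0 | hb0
  · exact Or.inl (by linarith only [hb0])
  rcases H.t2 (l11 (by linarith only [hb0])) l32 with hq | hq | hq
  · exact Or.inr (Or.inl (by linarith only [hq]))
  · exact Or.inr (Or.inr (Or.inl (by linarith only [hq])))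
  · exact Or.inr (Or.inr (Or.inr (by linarith only [hq])))

theorem T0_12_33 {n1 n2 n3 a1 a2 a3 b1 b2 b3 z d1 h3 k : ℤ}
    (H : NoTr n1 n2 n3 a1 a2 a3 b1 b2 b3)
    (w1 : a1 - b1 = d1) (w2 : a1 + a2 - b1 - b2 = -1) (w3 : a1 + a2 + a3 - b1 - b2 - b3 = z)
    (l12 : LosC n1 n2 n3 a1 a2 a3 b1 b2 b3 (1) (0) (-n3 + a3))
    (l33 : LosC n1 n2 n3 a1 a2 a3 b1 b2 b3 (-h3 + d1) (-k - 1) (z + 1))
    : 0 ≤ -d1 - h3 ∨ 0 ≤ -k ∨ 0 ≤ -n3 + a3 - z := by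
  rcases H.t0 w1 w2 w3 l12 l33 with hq | hq | hq
  · exact Or.inl (by linarith only [hq])
  · exact Or.inr (Or.inl (by linarith only [hq]))
  · exact Or.inr (Or.inr (by linarith only [hq]))

theorem T1_12_33 {n1 n2 n3 a1 a2 a3 b1 b2 b3 z d1 h3 k : ℤ}
    (H : NoTr n1 n2 n3 a1 a2 a3 b1 b2 b3)
    (w1 : a1 - b1 = d1) (w2 : a1 + a2 - b1 - b2 = -1) (w3 : a1 + a2 + a3 - b1 - b2 - b3 = z)
    (l12 : LosC n1 n2 n3 a1 a2 a3 b1 b2 b3 (1) (0) (-n3 + a3))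
    (l33 : LosC n1 n2 n3 a1 a2 a3 b1 b2 b3 (-h3 + d1) (-k - 1) (z + 1))
    : 0 ≤ -h3 ∨ 0 ≤ -k - 1 ∨ 0 ≤ -n3 + a3 := by
  rcases H.t1 w1 w2 w3 l12 l33 with hq | hq | hq
  · exact Or.inl (by linarith only [hq])
  · exact Or.inr (Or.inl (by linarith only [hq]))
  · exact Or.inr (Or.inr (by linarith only [hq]))

theorem T2_12_33 {n1 n2 n3 a1 a2 a3 b1 b2 b3 z d1 h3 k : ℤ}
    (H : NoTr n1 n2 n3 a1 a2 a3 b1 b2 b3)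
    (l12 : LosC n1 n2 n3 a1 a2 a3 b1 b2 b3 (1) (0) (-n3 + a3))
    (l33 : LosC n1 n2 n3 a1 a2 a3 b1 b2 b3 (-h3 + d1) (-k - 1) (z + 1))
    : 0 ≤ -h3 + d1 ∨ 0 ≤ -k - 2 ∨ 0 ≤ -n3 + a3 + z := by
  rcases H.t2 l12 l33 with hq | hq | hq
  · exact Or.inl (by linarith only [hq])
  · exact Or.inr (Or.inl (by linarith only [hq]))
  · exact Or.inr (Or.inr (by linarith only [hq]))

theorem T2_12_32 {n1 n2 n3 a1 a2 a3 b1 b2 b3 z d1 hp m : ℤ}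
    (H : NoTr n1 n2 n3 a1 a2 a3 b1 b2 b3)
    (l12 : LosC n1 n2 n3 a1 a2 a3 b1 b2 b3 (1) (0) (-n3 + a3))
    (l32 : LosC n1 n2 n3 a1 a2 a3 b1 b2 b3 (-hp + d1) (0) (-m + z + 1))
    : 0 ≤ -hp + d1 ∨ 0 ≤ -n3 + a3 - m + z := by
  rcases H.t2 l12 l32 with hq | hq | hq
  · exact Or.inl (by linarith only [hq])
  · exfalso; linarith only [hq]
  · exact Or.inr (by linarith only [hq])

theorem main {n1 n2 n3 a1 a2 a3 b1 b2 b3 x z d1 : ℤ}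
    (B0 : 0 ≤ a1)
    (B1 : 0 ≤ a2)
    (B2 : 0 ≤ a3)
    (B3 : 0 ≤ b1)
    (B4 : 0 ≤ b2)
    (B5 : 0 ≤ b3)
    (B6 : 0 ≤ n1 - a1)
    (B7 : 0 ≤ n2 - a2)
    (B8 : 0 ≤ n3 - a3)
    (B9 : 0 ≤ n1 - b1)
    (B10 : 0 ≤ n2 - b2)
    (B11 : 0 ≤ n3 - b3)
    (B12 : 0 ≤ n1 - 1)
    (B13 : 0 ≤ n2 - 1)
    (B14 : 0 ≤ n3 - 1)
    (B15 : 0 ≤ x + a1 + a2 - b1 - b2)
    (B16 : 0 ≤ -a1 - a2 + b1 + b2 - x)
    (B17 : 0 ≤ x - 1)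
    (B18 : 0 ≤ z - a1 - a2 - a3 + b1 + b2 + b3)
    (B19 : 0 ≤ a1 + a2 + a3 - b1 - b2 - b3 - z)
    (B20 : 0 ≤ z - 1)
    (B21 : 0 ≤ d1 - a1 + b1)
    (B22 : 0 ≤ a1 - b1 - d1)
    (B23 : 0 ≤ d1 - 1)
    (B24 : 0 ≤ x - 1)
    (B25 : 0 ≤ -x + 1)
    (C_c1 : (0 ≤ a1 - 1 ∧ 0 ≤ n2 - a2 - 1) ∨ (0 ≤ b1 - 1 ∧ 0 ≤ n2 - b2 - 1))
    (C_c2 : (0 ≤ a2 - 1 ∧ 0 ≤ n3 - a3 - 1) ∨ (0 ≤ b2 - 1 ∧ 0 ≤ n3 - b3 - 1))
    (C_Sub : 0 ≤ d1 - 2 ∨ 0 ≤ z - 2)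
    (H : NoTr n1 n2 n3 a1 a2 a3 b1 b2 b3)
    (hno : ¬ ∃ u1 u2 u3 : ℤ, Good n1 n2 n3 a1 a2 a3 b1 b2 b3 u1 u2 u3) : False := by
  have w1 : a1 - b1 = d1 := by linarith only [B15, B16, B17, B18, B19, B20, B21, B22, B23, B24, B25]
  have w2 : a1 + a2 - b1 - b2 = -1 := by linarith only [B15, B16, B17, B18, B19, B20, B21, B22, B23, B24, B25]
  have w3 : a1 + a2 + a3 - b1 - b2 - b3 = z := by linarith only [B15, B16, B17, B18, B19, B20, B21, B22, B23, B24, B25]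
  obtain ⟨h, rh1, rh2, rh3⟩ := min_facts (n1 - a1) (a2 - 1)
  have B26 : 0 ≤ n1 - a1 - h := by linarith only [rh1]
  have B27 : 0 ≤ a2 - h - 1 := by linarith only [rh2]
  have C_Dh : 0 ≤ h - n1 + a1 ∨ 0 ≤ h - a2 + 1 := rh3.imp (fun hq => by linarith only [hq]) (fun hq => by linarith only [hq])
  clear rh1 rh2 rh3
  obtain ⟨h3, rh31, rh32, rh33⟩ := min_facts (n1 - b1) (b2 + b3 - 1)
  have B28 : 0 ≤ n1 - b1 - h3 := by linarith only [rh31]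
  have B29 : 0 ≤ b2 + b3 - h3 - 1 := by linarith only [rh32]
  have C_Dh3 : 0 ≤ h3 - n1 + b1 ∨ 0 ≤ h3 - b2 - b3 + 1 := rh33.imp (fun hq => by linarith only [hq]) (fun hq => by linarith only [hq])
  clear rh31 rh32 rh33
  obtain ⟨k, rk1, rk2, rk3⟩ := min_facts (n1 - b1 + n2 - b2) (b3 - 1)
  have B30 : 0 ≤ n1 - b1 + n2 - b2 - k := by linarith only [rk1]
  have B31 : 0 ≤ b3 - k - 1 := by linarith only [rk2]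
  have C_Dk : 0 ≤ k - n1 + b1 - n2 + b2 ∨ 0 ≤ k - b3 + 1 := rk3.imp (fun hq => by linarith only [hq]) (fun hq => by linarith only [hq])
  clear rk1 rk2 rk3
  obtain ⟨hp, rhp1, rhp2, rhp3⟩ := min_facts (n1 - b1) (b2 - 1)
  have B32 : 0 ≤ n1 - b1 - hp := by linarith only [rhp1]
  have B33 : 0 ≤ b2 - hp - 1 := by linarith only [rhp2]
  have C_Dhp : 0 ≤ hp - n1 + b1 ∨ 0 ≤ hp - b2 + 1 := rhp3.imp (fun hq => by linarith only [hq]) (fun hq => by linarith only [hq])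
  clear rhp1 rhp2 rhp3
  obtain ⟨m, rm1, rm2, rm3⟩ := min_facts (z) (n3 - b3)
  have B34 : 0 ≤ z - m := by linarith only [rm1]
  have B35 : 0 ≤ n3 - b3 - m := by linarith only [rm2]
  have C_Dm : 0 ≤ m - z ∨ 0 ≤ m - n3 + b3 := rm3.imp (fun hq => by linarith only [hq]) (fun hq => by linarith only [hq])
  clear rm1 rm2 rm3
  have l11 : 0 ≤ b1 - 1 → LosC n1 n2 n3 a1 a2 a3 b1 b2 b3 (d1 + 1) (-n2 + b2) (-n2 + b2 - n3 + b3 + z + 1) := fun hq => los11 B0 B1 B2 B3 B4 B5 B6 B7 B8 B9 B10 B11 B12 B13 B14 B15 B16 B17 B18 B19 B20 B21 B22 B23 B24 B25 hq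
  have l12 : LosC n1 n2 n3 a1 a2 a3 b1 b2 b3 (1) (0) (-n3 + a3) := los12 B0 B1 B2 B3 B4 B5 B6 B7 B8 B9 B10 B11 B12 B13 B14 B15 B16 B17 B18 B19 B20 B21 B22 B23 B24 B25
  have l22 : LosC n1 n2 n3 a1 a2 a3 b1 b2 b3 (-h) (1) (-n3 + a3 + 1) := los22 B0 B1 B2 B3 B4 B5 B6 B7 B8 B9 B10 B11 B12 B13 B14 B15 B16 B17 B18 B19 B20 B21 B22 B23 B24 B25 B26 B27 C_Dh
  have l33 : LosC n1 n2 n3 a1 a2 a3 b1 b2 b3 (-h3 + d1) (-k - 1) (z + 1) := los33 B0 B1 B2 B3 B4 B5 B6 B7 B8 B9 B10 B11 B12 B13 B14 B15 B16 B17 B18 B19 B20 B21 B22 B23 B24 B25 B28 B29 B30 B31 C_Dh3 C_Dk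
  have l32 : LosC n1 n2 n3 a1 a2 a3 b1 b2 b3 (-hp + d1) (0) (-m + z + 1) := los32 B0 B1 B2 B3 B4 B5 B6 B7 B8 B9 B10 B11 B12 B13 B14 B15 B16 B17 B18 B19 B20 B21 B22 B23 B24 B25 B32 B33 B34 B35 C_Dhp C_Dm
  have hd := hd B0 B1 B2 B3 B4 B5 B6 B7 B8 B9 B10 B11 B12 B13 B14 B15 B16 B17 B18 B19 B20 B21 B22 B23 B24 B25 B26 B27 B28 B29 B30 B31 B32 B33 B34 B35 C_Dh C_Dh3 C_Dk C_Dhp C_Dm
  obtain ⟨p0, ep0⟩ : ∃ p, p = (d1) * (-n2 + b2) := ⟨_, rfl⟩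
  have C_Dp0_a : (0 ≤ n2 - b2 - 2 ∧ 0 ≤ -2 * d1 - p0) ∨ (0 ≤ -n2 + b2 + 1 ∧ 0 ≤ p0 + d1) :=
    (prod_split' (-2) ep0 (by linarith only [B15, B16, B17, B18, B19, B20, B21, B22, B23, B24, B25])).imp (fun hq => ⟨by linarith only [hq.1], by linarith only [hq.2]⟩)
      (fun hq => ⟨by linarith only [hq.1], by linarith only [hq.2]⟩)
  have C_Dp0_b : (0 ≤ n2 - b2 - 1 ∧ 0 ≤ -d1 - p0) ∨ (0 ≤ -n2 + b2 ∧ 0 ≤ p0) :=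
    (prod_split' (-1) ep0 (by linarith only [B15, B16, B17, B18, B19, B20, B21, B22, B23, B24, B25])).imp (fun hq => ⟨by linarith only [hq.1], by linarith only [hq.2]⟩)
      (fun hq => ⟨by linarith only [hq.1], by linarith only [hq.2]⟩)
  obtain ⟨p1, ep1⟩ : ∃ p, p = (z) * (-n2 + b2) := ⟨_, rfl⟩
  have C_Dp1_b : (0 ≤ n2 - b2 - 1 ∧ 0 ≤ -z - p1) ∨ (0 ≤ -n2 + b2 ∧ 0 ≤ p1) :=
    (prod_split' (-1) ep1 (by linarith only [B15, B16, B17, B18, B19, B20, B21, B22, B23, B24, B25])).imp (fun hq => ⟨by linarith only [hq.1], by linarith only [hq.2]⟩)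
      (fun hq => ⟨by linarith only [hq.1], by linarith only [hq.2]⟩)
  obtain ⟨p2, ep2⟩ : ∃ p, p = (d1) * (-k - 1) := ⟨_, rfl⟩
  have C_Dp2_a : (0 ≤ k - 1 ∧ 0 ≤ -2 * d1 - p2) ∨ (0 ≤ -k ∧ 0 ≤ p2 + d1) :=
    (prod_split' (-2) ep2 (by linarith only [B15, B16, B17, B18, B19, B20, B21, B22, B23, B24, B25])).imp (fun hq => ⟨by linarith only [hq.1], by linarith only [hq.2]⟩)
      (fun hq => ⟨by linarith only [hq.1], by linarith only [hq.2]⟩)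
  have C_Dp2_b : (0 ≤ k ∧ 0 ≤ -d1 - p2) ∨ (0 ≤ -k - 1 ∧ 0 ≤ p2) :=
    (prod_split' (-1) ep2 (by linarith only [B15, B16, B17, B18, B19, B20, B21, B22, B23, B24, B25])).imp (fun hq => ⟨by linarith only [hq.1], by linarith only [hq.2]⟩)
      (fun hq => ⟨by linarith only [hq.1], by linarith only [hq.2]⟩)
  have C_Dp2_c : (0 ≤ k + 1 ∧ 0 ≤ -p2) ∨ (0 ≤ -k - 2 ∧ 0 ≤ p2 - d1) :=
    (prod_split' (0) ep2 (by linarith only [B15, B16, B17, B18, B19, B20, B21, B22, B23, B24, B25])).imp (fun hq => ⟨by linarith only [hq.1], by linarith only [hq.2]⟩)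
      (fun hq => ⟨by linarith only [hq.1], by linarith only [hq.2]⟩)
  obtain ⟨p3, ep3⟩ : ∃ p, p = (z) * (-k - 1) := ⟨_, rfl⟩
  have C_Dp3_a : (0 ≤ k - 1 ∧ 0 ≤ -2 * z - p3) ∨ (0 ≤ -k ∧ 0 ≤ p3 + z) :=
    (prod_split' (-2) ep3 (by linarith only [B15, B16, B17, B18, B19, B20, B21, B22, B23, B24, B25])).imp (fun hq => ⟨by linarith only [hq.1], by linarith only [hq.2]⟩)
      (fun hq => ⟨by linarith only [hq.1], by linarith only [hq.2]⟩)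
  have C_Dp3_b : (0 ≤ k ∧ 0 ≤ -z - p3) ∨ (0 ≤ -k - 1 ∧ 0 ≤ p3) :=
    (prod_split' (-1) ep3 (by linarith only [B15, B16, B17, B18, B19, B20, B21, B22, B23, B24, B25])).imp (fun hq => ⟨by linarith only [hq.1], by linarith only [hq.2]⟩)
      (fun hq => ⟨by linarith only [hq.1], by linarith only [hq.2]⟩)
  have C_Dp3_c : (0 ≤ k + 1 ∧ 0 ≤ -p3) ∨ (0 ≤ -k - 2 ∧ 0 ≤ p3 - z) :=
    (prod_split' (0) ep3 (by linarith only [B15, B16, B17, B18, B19, B20, B21, B22, B23, B24, B25])).imp (fun hq => ⟨by linarith only [hq.1], by linarith only [hq.2]⟩)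
      (fun hq => ⟨by linarith only [hq.1], by linarith only [hq.2]⟩)
  have FA := FAt B15 B16 B17 B18 B19 B20 B21 B22 B23 B24 B25 ep0 ep1 ep2 ep3 w1 w2 w3 hno hd
  have FB := FBt B15 B16 B17 B18 B19 B20 B21 B22 B23 B24 B25 ep0 ep1 ep2 ep3 w1 w2 w3 hno hd
  have t1_11_22 := T1_11_22 H w1 w2 w3 l11 l22
  have t2_11_22 := T2_11_22 H l11 l22
  have t0_11_33 := T0_11_33 H w1 w2 w3 l11 l33
  have t1_11_33 := T1_11_33 H w1 w2 w3 l11 l33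
  have t2_11_32 := T2_11_32 H l11 l32
  have t0_12_33 := T0_12_33 H w1 w2 w3 l12 l33
  have t1_12_33 := T1_12_33 H w1 w2 w3 l12 l33
  have t2_12_33 := T2_12_33 H l12 l33
  have t2_12_32 := T2_12_32 H l12 l32
  rcases FA with ⟨f0_0, f0_1, f0_2⟩ | ⟨f0_0, f0_1⟩ | ⟨f0_0, f0_1⟩ | ⟨f0_0, f0_1⟩
  · rcases FB with ⟨f1_0, f1_1, f1_2⟩ | ⟨f1_0, f1_1⟩ | ⟨f1_0, f1_1⟩ | ⟨f1_0, f1_1⟩ | ⟨f1_0, f1_1⟩
    · exact g0 B1 B5 B6 B8 B9 B10 B16 B17 B19 B20 B22 B23 B28 B31 f0_0 f0_1 C_Dh3 C_Dk C_Dp0_a C_Dp2_c t0_11_33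
    · exact g1 B1 B5 B6 B9 B10 B16 B17 B19 B20 B22 B23 B28 B31 f0_0 f0_1 f1_1 C_Dh3 C_Dk C_Dp0_a C_Dp2_c t0_11_33
    · exact g2 B1 B5 B6 B9 B10 B16 B17 B19 B20 B22 B23 B28 B31 f0_0 f0_1 f1_0 C_Dh3 C_Dk C_Dp0_a C_Dp2_c t0_11_33
    · exact g3 B1 B6 B8 B10 B16 B17 B19 B20 B22 B23 B31 f0_0 f1_0 C_Dh3 C_Dp3_a t0_11_33
    · exact g4 B34 f1_0
  · rcases FB with ⟨f1_0, f1_1, f1_2⟩ | ⟨f1_0, f1_1⟩ | ⟨f1_0, f1_1⟩ | ⟨f1_0, f1_1⟩ | ⟨f1_0, f1_1⟩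
    · exact g5 B5 B8 B10 B16 B17 B19 B20 B22 B23 B26 B27 B28 B31 B34 f0_0 f1_0 C_Dh3 C_Dk C_Dhp C_Dm C_Dp0_a C_Dp1_b C_Dp3_b C_Dp3_c f0_1 f1_2 t1_11_22 t2_11_22 t0_11_33 t1_11_33 t2_11_32 t2_12_33
    · exact g6 B16 B17 B19 B22 B23 B26 B27 B34 f0_0 f1_1 C_Dhp C_Dm t2_12_32
    · exact g7 B5 B10 B16 B17 B22 B23 B26 B27 B31 f0_0 f1_0 C_Dh3 C_Dk C_Dp3_b t2_12_33
    · exact g8 B8 B16 B17 B20 B22 B23 B26 B27 B31 f0_0 f1_0 C_Dh3 C_Dp3_a t0_12_33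
    · exact g9 B34 f1_0
  · rcases FB with ⟨f1_0, f1_1, f1_2⟩ | ⟨f1_0, f1_1⟩ | ⟨f1_0, f1_1⟩ | ⟨f1_0, f1_1⟩ | ⟨f1_0, f1_1⟩
    · exact g10 B1 B5 B6 B8 B10 B15 B16 B17 B18 B19 B20 B22 B23 B25 B28 B29 B31 B34 f0_0 f1_0 C_Dh3 C_Dk C_Dhp C_Dm C_Dp0_a C_Dp0_b C_Dp1_b C_Dp2_a C_Dp2_b C_Dp3_a C_Dp3_b C_Dp3_c f0_1 f1_2 t0_11_33 t1_12_33 t2_12_32 t1_11_33
    · exact g11 B1 B6 B10 B16 B17 B19 B20 B22 B23 B28 B29 B31 B34 f1_1 C_Dh3 C_Dk C_Dhp C_Dm C_Dp2_b C_Dp3_b f0_1 t1_12_33 t2_12_32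
    · exact g12 B1 B5 B6 B10 B16 B17 B20 B22 B23 B31 f1_0 C_Dh3 C_Dk C_Dp2_b C_Dp3_b f0_1 t1_12_33 t2_12_33
    · exact g13 B1 B6 B8 B16 B17 B20 B22 B23 B31 f1_0 C_Dh3 C_Dp3_a t0_12_33
    · exact g14 B34 f1_0
  · rcases FB with ⟨f1_0, f1_1, f1_2⟩ | ⟨f1_0, f1_1⟩ | ⟨f1_0, f1_1⟩ | ⟨f1_0, f1_1⟩ | ⟨f1_0, f1_1⟩
    · exact g15 B5 B8 B10 B15 B16 B17 B18 B19 B23 B25 B31 B32 B33 B34 f1_0 C_Dh3 C_Dk C_Dm C_Dp0_b C_Dp1_b C_Dp3_b C_Dp3_c f0_1 f1_2 t1_11_33 t2_12_32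
    · exact g16 B16 B17 B19 B34 f1_1 C_Dm f0_1 t2_12_32
    · exact g17 B5 B10 B23 B31 B32 B33 B34 f1_0 C_Dh3 C_Dk C_Dp3_b f0_1 t2_12_33
    · exact g18 B8 B20 B23 B31 B32 B33 B34 f1_0 C_Dh3 C_Dp3_a f0_1 t0_12_33
    · exact g19 B34 f1_0

end WG3.IpN
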