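import Pool.Agent.Work.MP_5465ec_co.Core

set_option linter.all false

namespace WG3.IpP

theorem g0 {a1 a2 a3 b1 b2 b3 d1 h3 k n1 n2 n3 x z : ℤ}
    (B1 : 0 ≤ a2)
    (B5 : 0 ≤ b3)
    (B6 : 0 ≤ n1 - a1)
    (B8 : 0 ≤ n3 - a3)
    (B9 : 0 ≤ n1 - b1)
    (B16 : 0 ≤ -a1 - a2 + b1 + b2 - x)
    (B17 : 0 ≤ x - 1)
    (B19 : 0 ≤ a1 + a2 + a3 - b1 - b2 - b3 - z)
    (B20 : 0 ≤ z - 1)
    (B22 : 0 ≤ a1 - b1 - d1)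
    (B23 : 0 ≤ d1 - 1)
    (B38 : 0 ≤ b1 - 1)
    (B39 : 0 ≤ -x + n2 - b2 - 1)
    (D3 : 0 ≤ h3 - n1 + b1 ∨ 0 ≤ h3 - b2 - b3 + 1)
    (D4 : 0 ≤ k - n1 + b1 - n2 + b2 ∨ 0 ≤ k - b3 + 1)
    (D37 : 0 ≤ -b1 ∨ 0 ≤ -h3 ∨ 0 ≤ -n2 + b2 - k ∨ 0 ≤ -n2 + b2 - n3 + b3 + 1) : False := by
  have E3 := D3
  have E4 := D4
  have E37 : 0 ≤ -h3 ∨ 0 ≤ -n2 + b2 - k := by
    rcases D37 with H37 | H37 | H37 | H37
    · linarith only [B38, H37]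
    · exact Or.inl H37
    · exact Or.inr H37
    · linarith only [B20, B17, B39, B8, H37, B16, B19]
  rcases E37 with H37 | H37
  · rcases E3 with H3 | H3
    · linarith only [H37, B22, B6, B23, H3]
    · linarith only [B16, B22, H37, B5, B23, H3, B17, B1]
  · rcases E4 with H4 | H4
    · linarith only [B39, B9, H37, H4, B17]
    · linarith only [B5, B39, H37, B17, H4]

theorem g1 {a1 a2 a3 b1 b2 b3 d1 h3 k n1 n2 n3 x z : ℤ}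
    (B1 : 0 ≤ a2)
    (B5 : 0 ≤ b3)
    (B6 : 0 ≤ n1 - a1)
    (B8 : 0 ≤ n3 - a3)
    (B9 : 0 ≤ n1 - b1)
    (B16 : 0 ≤ -a1 - a2 + b1 + b2 - x)
    (B17 : 0 ≤ x - 1)
    (B19 : 0 ≤ a1 + a2 + a3 - b1 - b2 - b3 - z)
    (B20 : 0 ≤ z - 1)
    (B22 : 0 ≤ a1 - b1 - d1)
    (B23 : 0 ≤ d1 - 1)
    (B38 : 0 ≤ b1 - 1)
    (B39 : 0 ≤ -x + n2 - b2 - 1)
    (D3 : 0 ≤ h3 - n1 + b1 ∨ 0 ≤ h3 - b2 - b3 + 1)
    (D4 : 0 ≤ k - n1 + b1 - n2 + b2 ∨ 0 ≤ k - b3 + 1)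
    (D36 : 0 ≤ -b1 ∨ 0 ≤ -h3 ∨ 0 ≤ -n2 + b2 - k ∨ 0 ≤ -n2 + b2 - n3 + b3 + 1) : False := by
  have E3 := D3
  have E4 := D4
  have E36 : 0 ≤ -h3 ∨ 0 ≤ -n2 + b2 - k := by
    rcases D36 with H36 | H36 | H36 | H36
    · linarith only [B38, H36]
    · exact Or.inl H36
    · exact Or.inr H36
    · linarith only [B20, B17, B39, B8, H36, B16, B19]
  rcases E36 with H36 | H36
  · rcases E3 with H3 | H3
    · linarith only [H36, B22, B6, B23, H3]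
    · linarith only [B16, B22, H36, B5, B23, H3, B17, B1]
  · rcases E4 with H4 | H4
    · linarith only [B39, B9, H36, H4, B17]
    · linarith only [B5, B39, H36, B17, H4]

theorem g2 {a1 a2 a3 b1 b2 b3 d1 h3 k n1 n2 n3 x z : ℤ}
    (B1 : 0 ≤ a2)
    (B5 : 0 ≤ b3)
    (B6 : 0 ≤ n1 - a1)
    (B8 : 0 ≤ n3 - a3)
    (B9 : 0 ≤ n1 - b1)
    (B16 : 0 ≤ -a1 - a2 + b1 + b2 - x)
    (B17 : 0 ≤ x - 1)
    (B19 : 0 ≤ a1 + a2 + a3 - b1 - b2 - b3 - z)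
    (B20 : 0 ≤ z - 1)
    (B22 : 0 ≤ a1 - b1 - d1)
    (B23 : 0 ≤ d1 - 1)
    (B38 : 0 ≤ b1 - 1)
    (B39 : 0 ≤ -x + n2 - b2 - 1)
    (D3 : 0 ≤ h3 - n1 + b1 ∨ 0 ≤ h3 - b2 - b3 + 1)
    (D4 : 0 ≤ k - n1 + b1 - n2 + b2 ∨ 0 ≤ k - b3 + 1)
    (D37 : 0 ≤ -b1 ∨ 0 ≤ -h3 ∨ 0 ≤ -n2 + b2 - k ∨ 0 ≤ -n2 + b2 - n3 + b3 + 1) : False := by
  have E3 := D3
  have E4 := D4
  have E37 : 0 ≤ -h3 ∨ 0 ≤ -n2 + b2 - k := by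
    rcases D37 with H37 | H37 | H37 | H37
    · linarith only [B38, H37]
    · exact Or.inl H37
    · exact Or.inr H37
    · linarith only [B20, B17, B39, B8, H37, B16, B19]
  rcases E37 with H37 | H37
  · rcases E3 with H3 | H3
    · linarith only [H37, B22, B6, B23, H3]
    · linarith only [B16, B22, H37, B5, B23, H3, B17, B1]
  · rcases E4 with H4 | H4
    · linarith only [B39, B9, H37, H4, B17]
    · linarith only [B5, B39, H37, B17, H4]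

theorem g3 {a1 a2 a3 b1 b2 b3 d1 h3 k n1 n2 n3 x z : ℤ}
    (B1 : 0 ≤ a2)
    (B6 : 0 ≤ n1 - a1)
    (B8 : 0 ≤ n3 - a3)
    (B16 : 0 ≤ -a1 - a2 + b1 + b2 - x)
    (B17 : 0 ≤ x - 1)
    (B19 : 0 ≤ a1 + a2 + a3 - b1 - b2 - b3 - z)
    (B20 : 0 ≤ z - 1)
    (B22 : 0 ≤ a1 - b1 - d1)
    (B23 : 0 ≤ d1 - 1)
    (B33 : 0 ≤ b3 - k - 1)
    (B38 : 0 ≤ b1 - 1)
    (B39 : 0 ≤ -x + n2 - b2 - 1)
    (B40 : 0 ≤ k - x)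
    (D3 : 0 ≤ h3 - n1 + b1 ∨ 0 ≤ h3 - b2 - b3 + 1)
    (D37 : 0 ≤ -b1 ∨ 0 ≤ -h3 ∨ 0 ≤ -n2 + b2 - k ∨ 0 ≤ -n2 + b2 - n3 + b3 + 1) : False := by
  have E3 := D3
  have E37 : 0 ≤ -h3 := by
    rcases D37 with H37 | H37 | H37 | H37
    · linarith only [B38, H37]
    · exact H37
    · linarith only [B17, B39, H37, B40]
    · linarith only [B20, B17, B39, B8, H37, B16, B19]
  have H37 := E37
  rcases E3 with H3 | H3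
  · linarith only [B23, H37, B22, B6, H3]
  · linarith only [B1, B17, B23, B33, B16, B22, B40, H3, H37]

theorem g4 {m p6 x : ℤ}
    (B36 : 0 ≤ -m + 1)
    (B40 : 0 ≤ x - p6 - 1)
    (D33 : (0 ≤ m - 2 ∧ 0 ≤ -p6) ∨ (0 ≤ -m + 1 ∧ 0 ≤ p6 - x)) : False := by
  have E33 : False := by
    rcases D33 with H33 | H33
    · linarith only [B36, H33.1]
    · linarith only [B40, H33.2]
  exact E33

theorem g5 {a1 a2 a3 b1 b2 b3 d1 h hp m n1 n2 n3 p0 p1 p2 p3 x z : ℤ}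
    (B8 : 0 ≤ n3 - a3)
    (B15 : 0 ≤ x + a1 + a2 - b1 - b2)
    (B16 : 0 ≤ -a1 - a2 + b1 + b2 - x)
    (B17 : 0 ≤ x - 1)
    (B18 : 0 ≤ z - a1 - a2 - a3 + b1 + b2 + b3)
    (B19 : 0 ≤ a1 + a2 + a3 - b1 - b2 - b3 - z)
    (B20 : 0 ≤ z - 1)
    (B22 : 0 ≤ a1 - b1 - d1)
    (B23 : 0 ≤ d1 - 1)
    (B27 : 0 ≤ -z + 1)
    (B28 : 0 ≤ n1 - a1 - h)
    (B29 : 0 ≤ a2 - h - 1)
    (B36 : 0 ≤ -m + 1)
    (B38 : 0 ≤ -p2 - 1)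
    (B39 : 0 ≤ b1 - 1)
    (D5 : 0 ≤ hp - n1 + b1 ∨ 0 ≤ hp - b2 + 1)
    (D6 : 0 ≤ m - 1 ∨ 0 ≤ m - n3 + b3)
    (D8 : (0 ≤ n2 - b2 + n3 - b3 - 3 ∧ 0 ≤ -x - p0) ∨ (0 ≤ -n2 + b2 - n3 + b3 + 2 ∧ 0 ≤ p0))
    (D12 : (0 ≤ x + n3 - a3 - 2 ∧ 0 ≤ -x - p1) ∨ (0 ≤ -x - n3 + a3 + 1 ∧ 0 ≤ p1))
    (D13 : (0 ≤ x + n3 - a3 - 1 ∧ 0 ≤ -p1) ∨ (0 ≤ -x - n3 + a3 ∧ 0 ≤ p1 - x))
    (D15 : (0 ≤ h - 2 ∧ 0 ≤ -2 * x - p2) ∨ (0 ≤ -h + 1 ∧ 0 ≤ p2 + x))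
    (D16 : (0 ≤ h - 1 ∧ 0 ≤ -x - p2) ∨ (0 ≤ -h ∧ 0 ≤ p2))
    (D20 : (0 ≤ n3 - a3 - 2 ∧ 0 ≤ -x - p3) ∨ (0 ≤ -n3 + a3 + 1 ∧ 0 ≤ p3))
    (D21 : (0 ≤ n3 - a3 - 1 ∧ 0 ≤ -p3) ∨ (0 ≤ -n3 + a3 ∧ 0 ≤ p3 - x))
    (D35 : 0 ≤ -p2 - 2 ∨ 0 ≤ -p3 - 1)
    (D36 : 0 ≤ n2 - b2 + x - p0 - 2 ∨ 0 ≤ -x + n2 - b2 - 1)
    (D37 : 0 ≤ -hp + 1 ∨ 0 ≤ -2 * x + 1 ∨ 0 ≤ -x - n3 + a3 - m + 2)
    (D38 : 0 ≤ -b1 ∨ 0 ≤ -h + 1 ∨ 0 ≤ -n2 + b2 - x + 1 ∨ 0 ≤ -n2 + b2 - 2 * n3 + b3 + a3 + 2) : False := by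
  have E5 := D5
  have E6 : 0 ≤ m - 1 := by
    rcases D6 with H6 | H6
    · exact H6
    · linarith only [B20, B17, B36, B8, H6, B16, B19]
  have E8 := D8
  have E12 := D12
  have E13 : (0 ≤ x + n3 - a3 - 1 ∧ 0 ≤ -p1) := by
    rcases D13 with H13 | H13
    · exact H13
    · linarith only [B17, B8, H13.1]
  have E15 := D15
  have E16 : (0 ≤ h - 1 ∧ 0 ≤ -x - p2) := by
    rcases D16 with H16 | H16
    · exact H16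
    · linarith only [B38, H16.2]
  have E20 := D20
  have E21 := D21
  have E35 := D35
  have E36 := D36
  have E37 : 0 ≤ -hp + 1 ∨ 0 ≤ -x - n3 + a3 - m + 2 := by
    rcases D37 with H37 | H37 | H37
    · exact Or.inl H37
    · linarith only [H37, B17]
    · exact Or.inr H37
  have E38 : 0 ≤ -h + 1 ∨ 0 ≤ -n2 + b2 - x + 1 ∨ 0 ≤ -n2 + b2 - 2 * n3 + b3 + a3 + 2 := by
    rcases D38 with H38 | H38 | H38 | H38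
    · linarith only [B39, H38]
    · exact Or.inl H38
    · exact Or.inr (Or.inl H38)
    · exact Or.inr (Or.inr H38)
  have H16 := E16
  have H13 := E13
  have H6 := E6
  rcases E37 with H37 | H37
  · rcases E5 with H5 | H5
    · linarith only [B23, H37, B28, B22, H16.1, H5]
    · linarith only [B16, B23, H37, B22, H16.1, B29, B17, H5]
  · rcases E12 with H12 | H12
    · linarith only [H37, H12.1, H6]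
    · rcases E20 with H20 | H20
      · linarith only [B17, H20.1, H12.1]
      · rcases E35 with H35 | H35
        · rcases E15 with H15 | H15
          · rcases E21 with H21 | H21
            · linarith only [B17, H21.1, H12.1]
            · rcases E38 with H38 | H38 | H38
              · linarith only [H15.1, H38]
              · rcases E8 with H8 | H8
                · linarith only [H8.1, H38, H21.1, B27, B18, B15]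
                · rcases E36 with H36 | H36
                  · linarith only [H8.2, H36, H38]
                  · linarith only [H36, B17, H38]
              · rcases E8 with H8 | H8
                · linarith only [H8.1, H38, B8]
                · rcases E36 with H36 | H36
                  · linarith only [H8.2, B20, B16, H8.1, H36, B8, B19]
                  · linarith only [B20, B16, H38, H36, H13.1, B19]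
          · linarith only [H35, H15.2, B8, H12.1]
        · linarith only [H35, H20.2]

theorem g6 {a1 a2 a3 b1 b2 b3 d1 h hp m n1 n3 p1 p2 x z : ℤ}
    (B8 : 0 ≤ n3 - a3)
    (B16 : 0 ≤ -a1 - a2 + b1 + b2 - x)
    (B17 : 0 ≤ x - 1)
    (B19 : 0 ≤ a1 + a2 + a3 - b1 - b2 - b3 - z)
    (B20 : 0 ≤ z - 1)
    (B22 : 0 ≤ a1 - b1 - d1)
    (B23 : 0 ≤ d1 - 1)
    (B28 : 0 ≤ n1 - a1 - h)
    (B29 : 0 ≤ a2 - h - 1)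
    (B36 : 0 ≤ -m + 1)
    (B38 : 0 ≤ -p2 - 1)
    (B40 : 0 ≤ x - p1 - 2)
    (D5 : 0 ≤ hp - n1 + b1 ∨ 0 ≤ hp - b2 + 1)
    (D6 : 0 ≤ m - 1 ∨ 0 ≤ m - n3 + b3)
    (D12 : (0 ≤ x + n3 - a3 - 2 ∧ 0 ≤ -x - p1) ∨ (0 ≤ -x - n3 + a3 + 1 ∧ 0 ≤ p1))
    (D16 : (0 ≤ h - 1 ∧ 0 ≤ -x - p2) ∨ (0 ≤ -h ∧ 0 ≤ p2))
    (D36 : 0 ≤ -hp + 1 ∨ 0 ≤ -2 * x + 1 ∨ 0 ≤ -x - n3 + a3 - m + 2) : False := by
  have E5 := D5
  have E6 : 0 ≤ m - 1 := by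
    rcases D6 with H6 | H6
    · exact H6
    · linarith only [B20, B17, B36, B8, H6, B16, B19]
  have E12 : (0 ≤ x + n3 - a3 - 2 ∧ 0 ≤ -x - p1) := by
    rcases D12 with H12 | H12
    · exact H12
    · linarith only [H12.2, B8, B40, H12.1]
  have E16 : (0 ≤ h - 1 ∧ 0 ≤ -x - p2) := by
    rcases D16 with H16 | H16
    · exact H16
    · linarith only [B38, H16.2]
  have E36 : 0 ≤ -hp + 1 ∨ 0 ≤ -x - n3 + a3 - m + 2 := by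
    rcases D36 with H36 | H36 | H36
    · exact Or.inl H36
    · linarith only [H36, B17]
    · exact Or.inr H36
  have H16 := E16
  have H6 := E6
  have H12 := E12
  rcases E36 with H36 | H36
  · rcases E5 with H5 | H5
    · linarith only [B23, H36, B28, B22, H16.1, H5]
    · linarith only [B16, B23, H36, B22, H16.1, B29, B17, H5]
  · linarith only [H36, H12.1, H6]

theorem g7 {a1 a2 a3 b1 b2 b3 d1 h h3 k n1 n2 n3 p1 p2 p3 x : ℤ}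
    (B5 : 0 ≤ b3)
    (B10 : 0 ≤ n2 - b2)
    (B16 : 0 ≤ -a1 - a2 + b1 + b2 - x)
    (B17 : 0 ≤ x - 1)
    (B22 : 0 ≤ a1 - b1 - d1)
    (B23 : 0 ≤ d1 - 1)
    (B28 : 0 ≤ n1 - a1 - h)
    (B29 : 0 ≤ a2 - h - 1)
    (B38 : 0 ≤ -p2 - 1)
    (B39 : 0 ≤ -p3 - 1)
    (D3 : 0 ≤ h3 - n1 + b1 ∨ 0 ≤ h3 - b2 - b3 + 1)
    (D4 : 0 ≤ k - n1 + b1 - n2 + b2 ∨ 0 ≤ k - b3 + 1)
    (D11 : (0 ≤ x + n3 - a3 - 3 ∧ 0 ≤ -2 * x - p1) ∨ (0 ≤ -x - n3 + a3 + 2 ∧ 0 ≤ p1 + x))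
    (D16 : (0 ≤ h - 1 ∧ 0 ≤ -x - p2) ∨ (0 ≤ -h ∧ 0 ≤ p2))
    (D20 : (0 ≤ n3 - a3 - 2 ∧ 0 ≤ -x - p3) ∨ (0 ≤ -n3 + a3 + 1 ∧ 0 ≤ p3))
    (D37 : 0 ≤ -h3 + 1 ∨ 0 ≤ -2 * x - k ∨ 0 ≤ -x - n3 + a3 + 2) : False := by
  have E3 := D3
  have E4 := D4
  have E11 := D11
  have E16 : (0 ≤ h - 1 ∧ 0 ≤ -x - p2) := by
    rcases D16 with H16 | H16
    · exact H16
    · linarith only [B38, H16.2]
  have E20 : (0 ≤ n3 - a3 - 2 ∧ 0 ≤ -x - p3) := by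
    rcases D20 with H20 | H20
    · exact H20
    · linarith only [B39, H20.2]
  have E37 := D37
  have H20 := E20
  rcases E11 with H11 | H11
  · have H16 := E16
    rcases E37 with H37 | H37 | H37
    · rcases E3 with H3 | H3
      · linarith only [H37, B28, B22, H16.1, B23, H3]
      · linarith only [B29, B16, B22, H16.1, B5, B23, H3, B17, H37]
    · rcases E4 with H4 | H4
      · linarith only [B10, B28, B22, H16.1, B23, H37, B17, H4]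
      · linarith only [B5, H37, B17, H4]
    · linarith only [H11.1, H37]
  · linarith only [B17, H20.1, H11.1]

theorem g8 {a1 a2 a3 b1 b2 b3 d1 h3 k n1 n3 x : ℤ}
    (B1 : 0 ≤ a2)
    (B6 : 0 ≤ n1 - a1)
    (B8 : 0 ≤ n3 - a3)
    (B16 : 0 ≤ -a1 - a2 + b1 + b2 - x)
    (B17 : 0 ≤ x - 1)
    (B22 : 0 ≤ a1 - b1 - d1)
    (B23 : 0 ≤ d1 - 1)
    (B33 : 0 ≤ b3 - k - 1)
    (B39 : 0 ≤ k - x)
    (D3 : 0 ≤ h3 - n1 + b1 ∨ 0 ≤ h3 - b2 - b3 + 1)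
    (D37 : 0 ≤ -h3 - 1 ∨ 0 ≤ -k ∨ 0 ≤ -x - n3 + a3) : False := by
  have E3 := D3
  have E37 : 0 ≤ -h3 - 1 := by
    rcases D37 with H37 | H37 | H37
    · exact H37
    · linarith only [B17, H37, B39]
    · linarith only [B17, B8, H37]
  have H37 := E37
  rcases E3 with H3 | H3
  · linarith only [B23, H37, B22, B6, H3]
  · linarith only [B17, B23, B33, B16, B22, B1, B39, H3, H37]

theorem g9 {m p6 x : ℤ}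
    (B36 : 0 ≤ -m + 1)
    (B39 : 0 ≤ x - p6 - 1)
    (D33 : (0 ≤ m - 2 ∧ 0 ≤ -p6) ∨ (0 ≤ -m + 1 ∧ 0 ≤ p6 - x)) : False := by
  have E33 : False := by
    rcases D33 with H33 | H33
    · linarith only [B36, H33.1]
    · linarith only [B39, H33.2]
  exact E33

theorem g10 {a1 a2 a3 b1 b2 b3 d1 h3 hp k m n1 n2 n3 p0 p1 p3 p4 x z : ℤ}
    (B1 : 0 ≤ a2)
    (B5 : 0 ≤ b3)
    (B6 : 0 ≤ n1 - a1)
    (B8 : 0 ≤ n3 - a3)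
    (B10 : 0 ≤ n2 - b2)
    (B15 : 0 ≤ x + a1 + a2 - b1 - b2)
    (B16 : 0 ≤ -a1 - a2 + b1 + b2 - x)
    (B17 : 0 ≤ x - 1)
    (B18 : 0 ≤ z - a1 - a2 - a3 + b1 + b2 + b3)
    (B19 : 0 ≤ a1 + a2 + a3 - b1 - b2 - b3 - z)
    (B20 : 0 ≤ z - 1)
    (B22 : 0 ≤ a1 - b1 - d1)
    (B23 : 0 ≤ d1 - 1)
    (B27 : 0 ≤ -z + 1)
    (B30 : 0 ≤ n1 - b1 - h3)
    (B31 : 0 ≤ b2 + b3 - h3 - 1)
    (B36 : 0 ≤ -m + 1)
    (B39 : 0 ≤ b1 - 1)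
    (D3 : 0 ≤ h3 - n1 + b1 ∨ 0 ≤ h3 - b2 - b3 + 1)
    (D4 : 0 ≤ k - n1 + b1 - n2 + b2 ∨ 0 ≤ k - b3 + 1)
    (D5 : 0 ≤ hp - n1 + b1 ∨ 0 ≤ hp - b2 + 1)
    (D6 : 0 ≤ m - 1 ∨ 0 ≤ m - n3 + b3)
    (D8 : (0 ≤ n2 - b2 + n3 - b3 - 3 ∧ 0 ≤ -x - p0) ∨ (0 ≤ -n2 + b2 - n3 + b3 + 2 ∧ 0 ≤ p0))
    (D12 : (0 ≤ x + n3 - a3 - 2 ∧ 0 ≤ -x - p1) ∨ (0 ≤ -x - n3 + a3 + 1 ∧ 0 ≤ p1))
    (D21 : (0 ≤ n3 - a3 - 1 ∧ 0 ≤ -p3) ∨ (0 ≤ -n3 + a3 ∧ 0 ≤ p3 - x))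
    (D24 : (0 ≤ h3 - 2 ∧ 0 ≤ -x - p4) ∨ (0 ≤ -h3 + 1 ∧ 0 ≤ p4))
    (D25 : (0 ≤ h3 - 1 ∧ 0 ≤ -p4) ∨ (0 ≤ -h3 ∧ 0 ≤ p4 - x))
    (D35 : 0 ≤ -p4 + k + x - 1 ∨ 0 ≤ k - x)
    (D36 : 0 ≤ n2 - b2 + x - p0 - 2 ∨ 0 ≤ -x + n2 - b2 - 1)
    (D37 : 0 ≤ -h3 ∨ 0 ≤ -x - k ∨ 0 ≤ -x - n3 + a3 + 1)
    (D38 : 0 ≤ -b1 ∨ 0 ≤ -h3 ∨ 0 ≤ -n2 + b2 - k ∨ 0 ≤ -n2 + b2 - n3 + b3 + 1)
    (D39 : 0 ≤ -hp + 1 ∨ 0 ≤ -2 * x + 1 ∨ 0 ≤ -x - n3 + a3 - m + 2)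
    (D40 : 0 ≤ -b1 ∨ 0 ≤ -h3 + 1 ∨ 0 ≤ -n2 + b2 - x - k ∨ 0 ≤ -n2 + b2 - n3 + b3 + 2) : False := by
  have E3 := D3
  have E4 := D4
  have E5 := D5
  have E6 : 0 ≤ m - 1 := by
    rcases D6 with H6 | H6
    · exact H6
    · linarith only [B20, B17, B36, B8, H6, B16, B19]
  have E8 := D8
  have E12 := D12
  have E21 := D21
  have E24 := D24
  have E25 := D25
  have E35 := D35
  have E36 := D36
  have E37 := D37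
  have E38 : 0 ≤ -h3 ∨ 0 ≤ -n2 + b2 - k := by
    rcases D38 with H38 | H38 | H38 | H38
    · linarith only [B39, H38]
    · exact Or.inl H38
    · exact Or.inr H38
    · linarith only [B20, B17, B10, B8, H38, B16, B19]
  have E39 : 0 ≤ -hp + 1 ∨ 0 ≤ -x - n3 + a3 - m + 2 := by
    rcases D39 with H39 | H39 | H39
    · exact Or.inl H39
    · linarith only [H39, B17]
    · exact Or.inr H39
  have E40 : 0 ≤ -h3 + 1 ∨ 0 ≤ -n2 + b2 - x - k ∨ 0 ≤ -n2 + b2 - n3 + b3 + 2 := by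
    rcases D40 with H40 | H40 | H40 | H40
    · linarith only [B39, H40]
    · exact Or.inl H40
    · exact Or.inr (Or.inl H40)
    · exact Or.inr (Or.inr H40)
  have H6 := E6
  rcases E21 with H21 | H21
  · rcases E39 with H39 | H39
    · rcases E12 with H12 | H12
      · rcases E37 with H37 | H37 | H37
        · rcases E3 with H3 | H3
          · linarith only [B23, H37, B22, B6, H3]
          · linarith only [B23, H3, B16, B22, H37, B5, B17, B1]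
        · rcases E4 with H4 | H4
          · linarith only [B10, B23, H37, B22, B6, B17, H4]
          · rcases E35 with H35 | H35
            · rcases E24 with H24 | H24
              · rcases E5 with H5 | H5
                · linarith only [H24.1, B30, H39, H5]
                · linarith only [H24.1, B31, H5, H39, H37, B17, H4]
              · linarith only [H37, H35, H24.2]
            · linarith only [H37, B17, H35]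
        · linarith only [H37, H12.1]
      · linarith only [H12.1, B17, H21.1]
    · linarith only [H39, B17, H21.1, H6]
  · rcases E38 with H38 | H38
    · rcases E3 with H3 | H3
      · linarith only [B23, H38, B22, B6, H3]
      · linarith only [B23, B5, H3, B22, H38, B1, B17, B16]
    · rcases E4 with H4 | H4
      · linarith only [B23, B22, B6, H38, H4, B10]
      · rcases E36 with H36 | H36
        · rcases E35 with H35 | H35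
          · rcases E8 with H8 | H8
            · rcases E40 with H40 | H40 | H40
              · rcases E25 with H25 | H25
                · rcases E24 with H24 | H24
                  · linarith only [H24.1, H40]
                  · rcases E37 with H37 | H37 | H37
                    · linarith only [H37, H25.1]
                    · linarith only [H35, H24.2, H37]
                    · linarith only [H8.1, B27, H37, H38, B15, H35, H24.2, B18, B8]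
                · linarith only [H38, H35, H25.2, B10]
              · linarith only [H8.1, B27, B5, H21.1, H40, B15, B18, H4]
              · linarith only [H8.1, H40]
            · linarith only [B20, B19, H8.1, H8.2, H36, B16, B8]
          · linarith only [H38, B10, B17, H35]
        · linarith only [B5, H38, H36, B17, H4]

theorem g11 {a1 a2 a3 b1 b2 b3 d1 h3 hp k m n1 n2 n3 p1 p4 x z : ℤ}
    (B1 : 0 ≤ a2)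
    (B5 : 0 ≤ b3)
    (B6 : 0 ≤ n1 - a1)
    (B8 : 0 ≤ n3 - a3)
    (B10 : 0 ≤ n2 - b2)
    (B16 : 0 ≤ -a1 - a2 + b1 + b2 - x)
    (B17 : 0 ≤ x - 1)
    (B19 : 0 ≤ a1 + a2 + a3 - b1 - b2 - b3 - z)
    (B20 : 0 ≤ z - 1)
    (B22 : 0 ≤ a1 - b1 - d1)
    (B23 : 0 ≤ d1 - 1)
    (B30 : 0 ≤ n1 - b1 - h3)
    (B31 : 0 ≤ b2 + b3 - h3 - 1)
    (B36 : 0 ≤ -m + 1)
    (B40 : 0 ≤ x - p1 - 2)
    (D3 : 0 ≤ h3 - n1 + b1 ∨ 0 ≤ h3 - b2 - b3 + 1)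
    (D4 : 0 ≤ k - n1 + b1 - n2 + b2 ∨ 0 ≤ k - b3 + 1)
    (D5 : 0 ≤ hp - n1 + b1 ∨ 0 ≤ hp - b2 + 1)
    (D6 : 0 ≤ m - 1 ∨ 0 ≤ m - n3 + b3)
    (D12 : (0 ≤ x + n3 - a3 - 2 ∧ 0 ≤ -x - p1) ∨ (0 ≤ -x - n3 + a3 + 1 ∧ 0 ≤ p1))
    (D24 : (0 ≤ h3 - 2 ∧ 0 ≤ -x - p4) ∨ (0 ≤ -h3 + 1 ∧ 0 ≤ p4))
    (D35 : 0 ≤ -p4 + k + x - 1 ∨ 0 ≤ k - x)
    (D36 : 0 ≤ -h3 ∨ 0 ≤ -x - k ∨ 0 ≤ -x - n3 + a3 + 1)
    (D37 : 0 ≤ -hp + 1 ∨ 0 ≤ -2 * x + 1 ∨ 0 ≤ -x - n3 + a3 - m + 2) : False := by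
  have E3 := D3
  have E4 := D4
  have E5 := D5
  have E6 : 0 ≤ m - 1 := by
    rcases D6 with H6 | H6
    · exact H6
    · linarith only [B20, B17, B36, B8, H6, B16, B19]
  have E12 : (0 ≤ x + n3 - a3 - 2 ∧ 0 ≤ -x - p1) := by
    rcases D12 with H12 | H12
    · exact H12
    · linarith only [H12.2, B8, B40, H12.1]
  have E24 := D24
  have E35 := D35
  have E36 := D36
  have E37 : 0 ≤ -hp + 1 ∨ 0 ≤ -x - n3 + a3 - m + 2 := by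
    rcases D37 with H37 | H37 | H37
    · exact Or.inl H37
    · linarith only [H37, B17]
    · exact Or.inr H37
  have H6 := E6
  have H12 := E12
  rcases E37 with H37 | H37
  · rcases E36 with H36 | H36 | H36
    · rcases E3 with H3 | H3
      · linarith only [B23, H36, B22, B6, H3]
      · linarith only [B23, H3, B16, B22, H36, B5, B17, B1]
    · rcases E35 with H35 | H35
      · rcases E24 with H24 | H24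
        · rcases E4 with H4 | H4
          · linarith only [B10, H24.1, B30, H36, H4, B17]
          · rcases E5 with H5 | H5
            · linarith only [H24.1, B30, H37, H5]
            · linarith only [B31, H24.1, H5, H37, H36, B17, H4]
        · linarith only [H36, H35, H24.2]
      · linarith only [H36, B17, H35]
    · linarith only [H36, H12.1]
  · linarith only [H37, H12.1, H6]

theorem g12 {a1 a2 a3 b1 b2 b3 d1 h3 k n1 n2 n3 p1 p3 p4 x : ℤ}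
    (B1 : 0 ≤ a2)
    (B5 : 0 ≤ b3)
    (B6 : 0 ≤ n1 - a1)
    (B10 : 0 ≤ n2 - b2)
    (B16 : 0 ≤ -a1 - a2 + b1 + b2 - x)
    (B17 : 0 ≤ x - 1)
    (B22 : 0 ≤ a1 - b1 - d1)
    (B23 : 0 ≤ d1 - 1)
    (B39 : 0 ≤ -p3 - 1)
    (D3 : 0 ≤ h3 - n1 + b1 ∨ 0 ≤ h3 - b2 - b3 + 1)
    (D4 : 0 ≤ k - n1 + b1 - n2 + b2 ∨ 0 ≤ k - b3 + 1)
    (D11 : (0 ≤ x + n3 - a3 - 3 ∧ 0 ≤ -2 * x - p1) ∨ (0 ≤ -x - n3 + a3 + 2 ∧ 0 ≤ p1 + x))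
    (D20 : (0 ≤ n3 - a3 - 2 ∧ 0 ≤ -x - p3) ∨ (0 ≤ -n3 + a3 + 1 ∧ 0 ≤ p3))
    (D24 : (0 ≤ h3 - 2 ∧ 0 ≤ -x - p4) ∨ (0 ≤ -h3 + 1 ∧ 0 ≤ p4))
    (D35 : 0 ≤ -p4 + k + x - 1 ∨ 0 ≤ k - x)
    (D37 : 0 ≤ -h3 ∨ 0 ≤ -x - k ∨ 0 ≤ -x - n3 + a3 + 1)
    (D38 : 0 ≤ -h3 + 1 ∨ 0 ≤ -2 * x - k ∨ 0 ≤ -x - n3 + a3 + 2) : False := by
  have E3 := D3
  have E4 := D4
  have E11 := D11
  have E20 : (0 ≤ n3 - a3 - 2 ∧ 0 ≤ -x - p3) := by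
    rcases D20 with H20 | H20
    · exact H20
    · linarith only [B39, H20.2]
  have E24 := D24
  have E35 := D35
  have E37 := D37
  have E38 := D38
  have H20 := E20
  rcases E11 with H11 | H11
  · rcases E37 with H37 | H37 | H37
    · rcases E3 with H3 | H3
      · linarith only [H37, B22, B6, B23, H3]
      · linarith only [B16, B22, H37, B5, B23, H3, B17, B1]
    · rcases E35 with H35 | H35
      · rcases E4 with H4 | H4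
        · linarith only [B10, B22, B6, B23, H37, B17, H4]
        · rcases E38 with H38 | H38 | H38
          · rcases E24 with H24 | H24
            · linarith only [H24.1, H38]
            · linarith only [H37, H35, H24.2]
          · linarith only [B5, H38, B17, H4]
          · linarith only [H38, H11.1]
      · linarith only [H37, B17, H35]
    · linarith only [H11.1, H37]
  · linarith only [H20.1, B17, H11.1]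

theorem g13 {a1 a2 a3 b1 b2 b3 d1 h3 k n1 n3 x : ℤ}
    (B1 : 0 ≤ a2)
    (B6 : 0 ≤ n1 - a1)
    (B8 : 0 ≤ n3 - a3)
    (B16 : 0 ≤ -a1 - a2 + b1 + b2 - x)
    (B17 : 0 ≤ x - 1)
    (B22 : 0 ≤ a1 - b1 - d1)
    (B23 : 0 ≤ d1 - 1)
    (B33 : 0 ≤ b3 - k - 1)
    (B39 : 0 ≤ k - x)
    (D3 : 0 ≤ h3 - n1 + b1 ∨ 0 ≤ h3 - b2 - b3 + 1)
    (D37 : 0 ≤ -h3 - 1 ∨ 0 ≤ -k ∨ 0 ≤ -x - n3 + a3) : False := by
  have E3 := D3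
  have E37 : 0 ≤ -h3 - 1 := by
    rcases D37 with H37 | H37 | H37
    · exact H37
    · linarith only [B17, H37, B39]
    · linarith only [B17, B8, H37]
  have H37 := E37
  rcases E3 with H3 | H3
  · linarith only [B23, H37, B22, B6, H3]
  · linarith only [B1, B17, B23, B33, H37, B22, B16, H3, B39]

theorem g14 {m p6 x : ℤ}
    (B36 : 0 ≤ -m + 1)
    (B39 : 0 ≤ x - p6 - 1)
    (D33 : (0 ≤ m - 2 ∧ 0 ≤ -p6) ∨ (0 ≤ -m + 1 ∧ 0 ≤ p6 - x)) : False := by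
  have E33 : False := by
    rcases D33 with H33 | H33
    · linarith only [B36, H33.1]
    · linarith only [B39, H33.2]
  exact E33

theorem g15_l0 {a1 a2 a3 b1 b2 b3 k n2 n3 p0 p3 x z : ℤ}
    (B5 : 0 ≤ b3)
    (B14 : 0 ≤ n3 - 1)
    (B15 : 0 ≤ x + a1 + a2 - b1 - b2)
    (B17 : 0 ≤ x - 1)
    (B18 : 0 ≤ z - a1 - a2 - a3 + b1 + b2 + b3)
    (B27 : 0 ≤ -z + 1)
    (E8 : (0 ≤ n2 - b2 + n3 - b3 - 3 ∧ 0 ≤ -x - p0) ∨ (0 ≤ -n2 + b2 - n3 + b3 + 2 ∧ 0 ≤ p0))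
    (E36 : 0 ≤ n2 - b2 + x - p0 - 2 ∨ 0 ≤ -x + n2 - b2 - 1)
    (H4 : 0 ≤ k - b3 + 1)
    (H21 : 0 ≤ -n3 + a3 ∧ 0 ≤ p3 - x)
    (H38 : 0 ≤ -n2 + b2 - x - k) : False := by
  rcases E8 with H8 | H8
  · linarith only [H8.1, B27, B5, H21.1, H38, B15, B18, H4]
  · rcases E36 with H36 | H36
    · linarith only [B5, H38, H8.2, H36, H4]
    · linarith only [H4, B14, H38, H36, B17, H8.1]

theorem g15_l1 {a1 a2 a3 b1 b2 b3 n2 n3 p0 p1 x z : ℤ}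
    (B8 : 0 ≤ n3 - a3)
    (B16 : 0 ≤ -a1 - a2 + b1 + b2 - x)
    (B17 : 0 ≤ x - 1)
    (B19 : 0 ≤ a1 + a2 + a3 - b1 - b2 - b3 - z)
    (B20 : 0 ≤ z - 1)
    (E8 : (0 ≤ n2 - b2 + n3 - b3 - 3 ∧ 0 ≤ -x - p0) ∨ (0 ≤ -n2 + b2 - n3 + b3 + 2 ∧ 0 ≤ p0))
    (E36 : 0 ≤ n2 - b2 + x - p0 - 2 ∨ 0 ≤ -x + n2 - b2 - 1)
    (H13 : 0 ≤ x + n3 - a3 - 1 ∧ 0 ≤ -p1)
    (H38 : 0 ≤ -n2 + b2 - n3 + b3 + 2) : False := by
  rcases E8 with H8 | H8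
  · linarith only [H8.1, H38]
  · rcases E36 with H36 | H36
    · linarith only [B19, H8.2, B16, B8, H36, B20, H38]
    · linarith only [B19, B16, H13.1, H36, B17, B20, H38]

theorem g15 {a1 a2 a3 b1 b2 b3 d1 h3 hp k m n1 n2 n3 p0 p1 p3 p4 p5 p6 x z : ℤ}
    (B1 : 0 ≤ a2)
    (B5 : 0 ≤ b3)
    (B8 : 0 ≤ n3 - a3)
    (B10 : 0 ≤ n2 - b2)
    (B14 : 0 ≤ n3 - 1)
    (B15 : 0 ≤ x + a1 + a2 - b1 - b2)
    (B16 : 0 ≤ -a1 - a2 + b1 + b2 - x)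
    (B17 : 0 ≤ x - 1)
    (B18 : 0 ≤ z - a1 - a2 - a3 + b1 + b2 + b3)
    (B19 : 0 ≤ a1 + a2 + a3 - b1 - b2 - b3 - z)
    (B20 : 0 ≤ z - 1)
    (B22 : 0 ≤ a1 - b1 - d1)
    (B23 : 0 ≤ d1 - 1)
    (B27 : 0 ≤ -z + 1)
    (B30 : 0 ≤ n1 - b1 - h3)
    (B34 : 0 ≤ n1 - b1 - hp)
    (B35 : 0 ≤ b2 - hp - 1)
    (B36 : 0 ≤ -m + 1)
    (B38 : 0 ≤ -p5 + x - 1)
    (B39 : 0 ≤ b1 - 1)
    (D3 : 0 ≤ h3 - n1 + b1 ∨ 0 ≤ h3 - b2 - b3 + 1)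
    (D4 : 0 ≤ k - n1 + b1 - n2 + b2 ∨ 0 ≤ k - b3 + 1)
    (D5 : 0 ≤ hp - n1 + b1 ∨ 0 ≤ hp - b2 + 1)
    (D6 : 0 ≤ m - 1 ∨ 0 ≤ m - n3 + b3)
    (D8 : (0 ≤ n2 - b2 + n3 - b3 - 3 ∧ 0 ≤ -x - p0) ∨ (0 ≤ -n2 + b2 - n3 + b3 + 2 ∧ 0 ≤ p0))
    (D13 : (0 ≤ x + n3 - a3 - 1 ∧ 0 ≤ -p1) ∨ (0 ≤ -x - n3 + a3 ∧ 0 ≤ p1 - x))
    (D21 : (0 ≤ n3 - a3 - 1 ∧ 0 ≤ -p3) ∨ (0 ≤ -n3 + a3 ∧ 0 ≤ p3 - x))
    (D24 : (0 ≤ h3 - 2 ∧ 0 ≤ -x - p4) ∨ (0 ≤ -h3 + 1 ∧ 0 ≤ p4))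
    (D28 : (0 ≤ hp - 2 ∧ 0 ≤ -x - p5) ∨ (0 ≤ -hp + 1 ∧ 0 ≤ p5))
    (D29 : (0 ≤ hp - 1 ∧ 0 ≤ -p5) ∨ (0 ≤ -hp ∧ 0 ≤ p5 - x))
    (D33 : (0 ≤ m - 2 ∧ 0 ≤ -p6) ∨ (0 ≤ -m + 1 ∧ 0 ≤ p6 - x))
    (D35 : 0 ≤ -p5 + x - 2 ∨ 0 ≤ x - p6 - 1)
    (D36 : 0 ≤ n2 - b2 + x - p0 - 2 ∨ 0 ≤ -x + n2 - b2 - 1)
    (D37 : 0 ≤ -h3 ∨ 0 ≤ -x - k ∨ 0 ≤ -x - n3 + a3 + 1)
    (D38 : 0 ≤ -b1 ∨ 0 ≤ -h3 + 1 ∨ 0 ≤ -n2 + b2 - x - k ∨ 0 ≤ -n2 + b2 - n3 + b3 + 2)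
    (D39 : 0 ≤ -hp + 1 ∨ 0 ≤ -2 * x + 1 ∨ 0 ≤ -x - n3 + a3 - m + 2) : False := by
  have E3 := D3
  have E4 := D4
  have E5 := D5
  have E6 : 0 ≤ m - 1 := by
    rcases D6 with H6 | H6
    · exact H6
    · linarith only [B20, B17, B36, B8, H6, B16, B19]
  have E8 := D8
  have E13 : (0 ≤ x + n3 - a3 - 1 ∧ 0 ≤ -p1) := by
    rcases D13 with H13 | H13
    · exact H13
    · linarith only [B17, B8, H13.1]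
  have E21 := D21
  have E24 := D24
  have E28 := D28
  have E29 : (0 ≤ hp - 1 ∧ 0 ≤ -p5) := by
    rcases D29 with H29 | H29
    · exact H29
    · linarith only [B38, H29.2]
  have E33 : (0 ≤ -m + 1 ∧ 0 ≤ p6 - x) := by
    rcases D33 with H33 | H33
    · linarith only [B36, H33.1]
    · exact H33
  have E35 := D35
  have E36 := D36
  have E37 := D37
  have E38 : 0 ≤ -h3 + 1 ∨ 0 ≤ -n2 + b2 - x - k ∨ 0 ≤ -n2 + b2 - n3 + b3 + 2 := by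
    rcases D38 with H38 | H38 | H38 | H38
    · linarith only [B39, H38]
    · exact Or.inl H38
    · exact Or.inr (Or.inl H38)
    · exact Or.inr (Or.inr H38)
  have E39 : 0 ≤ -hp + 1 ∨ 0 ≤ -x - n3 + a3 - m + 2 := by
    rcases D39 with H39 | H39 | H39
    · exact Or.inl H39
    · linarith only [H39, B17]
    · exact Or.inr H39
  have H29 := E29
  have H33 := E33
  rcases E35 with H35 | H35
  · have H6 := E6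
    have H13 := E13
    rcases E21 with H21 | H21
    · rcases E39 with H39 | H39
      · rcases E28 with H28 | H28
        · linarith only [H28.1, H39]
        · rcases E5 with H5 | H5
          · rcases E3 with H3 | H3
            · rcases E37 with H37 | H37 | H37
              · linarith only [H37, B34, H29.1, H3]
              · rcases E4 with H4 | H4
                · linarith only [B10, H37, B34, H29.1, H35, H28.2, H4]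
                · linarith only [B5, H37, H35, H28.2, H4]
              · linarith only [H35, H28.2, H21.1, H37]
            · linarith only [B16, B23, H3, B22, B30, B5, H39, B1, H35, H28.2, H5]
          · linarith only [B16, B23, H39, H5, B1, H35, H28.2, B22]
      · linarith only [H39, B17, H21.1, H6]
    · rcases E24 with H24 | H24
      · rcases E38 with H38 | H38 | H38
        · linarith only [H24.1, H38]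
        · rcases E4 with H4 | H4
          · linarith only [H24.1, B30, H38, B17, H4, B10]
          · exact g15_l0 B5 B14 B15 B17 B18 B27 E8 E36 H4 H21 H38
        · exact g15_l1 B8 B16 B17 B19 B20 E8 E36 H13 H38
      · rcases E28 with H28 | H28
        · rcases E3 with H3 | H3
          · linarith only [H28.1, H24.1, B34, H3]
          · linarith only [H28.1, H3, H24.1, B35, B5]
        · rcases E3 with H3 | H3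
          · rcases E37 with H37 | H37 | H37
            · linarith only [H37, B34, H29.1, H3]
            · rcases E4 with H4 | H4
              · linarith only [B10, H37, B34, H29.1, H35, H28.2, H4]
              · linarith only [B5, H37, H35, H28.2, H4]
            · linarith only [H37, H35, H28.2, B8]
          · linarith only [B23, H3, B22, B1, B5, H35, H28.2, B16, H24.1]
  · linarith only [H33.2, H35]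

theorem g16 {a1 a2 a3 b1 b2 b3 d1 h3 hp k m n1 n2 n3 p1 p5 p6 x z : ℤ}
    (B1 : 0 ≤ a2)
    (B5 : 0 ≤ b3)
    (B8 : 0 ≤ n3 - a3)
    (B10 : 0 ≤ n2 - b2)
    (B16 : 0 ≤ -a1 - a2 + b1 + b2 - x)
    (B17 : 0 ≤ x - 1)
    (B19 : 0 ≤ a1 + a2 + a3 - b1 - b2 - b3 - z)
    (B20 : 0 ≤ z - 1)
    (B22 : 0 ≤ a1 - b1 - d1)
    (B23 : 0 ≤ d1 - 1)
    (B30 : 0 ≤ n1 - b1 - h3)
    (B34 : 0 ≤ n1 - b1 - hp)
    (B36 : 0 ≤ -m + 1)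
    (B38 : 0 ≤ -p5 + x - 1)
    (B40 : 0 ≤ x - p1 - 2)
    (D3 : 0 ≤ h3 - n1 + b1 ∨ 0 ≤ h3 - b2 - b3 + 1)
    (D4 : 0 ≤ k - n1 + b1 - n2 + b2 ∨ 0 ≤ k - b3 + 1)
    (D5 : 0 ≤ hp - n1 + b1 ∨ 0 ≤ hp - b2 + 1)
    (D6 : 0 ≤ m - 1 ∨ 0 ≤ m - n3 + b3)
    (D12 : (0 ≤ x + n3 - a3 - 2 ∧ 0 ≤ -x - p1) ∨ (0 ≤ -x - n3 + a3 + 1 ∧ 0 ≤ p1))
    (D28 : (0 ≤ hp - 2 ∧ 0 ≤ -x - p5) ∨ (0 ≤ -hp + 1 ∧ 0 ≤ p5))
    (D29 : (0 ≤ hp - 1 ∧ 0 ≤ -p5) ∨ (0 ≤ -hp ∧ 0 ≤ p5 - x))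
    (D33 : (0 ≤ m - 2 ∧ 0 ≤ -p6) ∨ (0 ≤ -m + 1 ∧ 0 ≤ p6 - x))
    (D35 : 0 ≤ -p5 + x - 2 ∨ 0 ≤ x - p6 - 1)
    (D36 : 0 ≤ -h3 ∨ 0 ≤ -x - k ∨ 0 ≤ -x - n3 + a3 + 1)
    (D37 : 0 ≤ -hp + 1 ∨ 0 ≤ -2 * x + 1 ∨ 0 ≤ -x - n3 + a3 - m + 2) : False := by
  have E3 := D3
  have E4 := D4
  have E5 := D5
  have E6 : 0 ≤ m - 1 := by
    rcases D6 with H6 | H6
    · exact H6
    · linarith only [B20, B17, B36, B8, H6, B16, B19]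
  have E12 : (0 ≤ x + n3 - a3 - 2 ∧ 0 ≤ -x - p1) := by
    rcases D12 with H12 | H12
    · exact H12
    · linarith only [H12.2, B8, B40, H12.1]
  have E28 := D28
  have E29 : (0 ≤ hp - 1 ∧ 0 ≤ -p5) := by
    rcases D29 with H29 | H29
    · exact H29
    · linarith only [B38, H29.2]
  have E33 : (0 ≤ -m + 1 ∧ 0 ≤ p6 - x) := by
    rcases D33 with H33 | H33
    · linarith only [B36, H33.1]
    · exact H33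
  have E35 := D35
  have E36 := D36
  have E37 : 0 ≤ -hp + 1 ∨ 0 ≤ -x - n3 + a3 - m + 2 := by
    rcases D37 with H37 | H37 | H37
    · exact Or.inl H37
    · linarith only [H37, B17]
    · exact Or.inr H37
  have H29 := E29
  have H33 := E33
  rcases E35 with H35 | H35
  · have H6 := E6
    have H12 := E12
    rcases E37 with H37 | H37
    · rcases E28 with H28 | H28
      · linarith only [H28.1, H37]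
      · rcases E5 with H5 | H5
        · rcases E3 with H3 | H3
          · rcases E36 with H36 | H36 | H36
            · linarith only [H36, B34, H29.1, H3]
            · rcases E4 with H4 | H4
              · linarith only [B10, H36, B34, H29.1, H35, H28.2, H4]
              · linarith only [B5, H36, H35, H28.2, H4]
            · linarith only [H12.1, H36]
          · linarith only [B16, B23, H3, B22, B30, B5, H37, B1, H35, H28.2, H5]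
        · linarith only [B16, B23, H37, H5, B1, H35, H28.2, B22]
    · linarith only [H37, H12.1, H6]
  · linarith only [H33.2, H35]

theorem g17 {a3 b1 b2 b3 h3 hp k m n1 n2 n3 p1 p3 p4 p5 p6 x : ℤ}
    (B5 : 0 ≤ b3)
    (B10 : 0 ≤ n2 - b2)
    (B17 : 0 ≤ x - 1)
    (B34 : 0 ≤ n1 - b1 - hp)
    (B35 : 0 ≤ b2 - hp - 1)
    (B36 : 0 ≤ -m + 1)
    (B38 : 0 ≤ -p5 + x - 1)
    (B39 : 0 ≤ -p3 - 1)
    (D3 : 0 ≤ h3 - n1 + b1 ∨ 0 ≤ h3 - b2 - b3 + 1)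
    (D4 : 0 ≤ k - n1 + b1 - n2 + b2 ∨ 0 ≤ k - b3 + 1)
    (D11 : (0 ≤ x + n3 - a3 - 3 ∧ 0 ≤ -2 * x - p1) ∨ (0 ≤ -x - n3 + a3 + 2 ∧ 0 ≤ p1 + x))
    (D20 : (0 ≤ n3 - a3 - 2 ∧ 0 ≤ -x - p3) ∨ (0 ≤ -n3 + a3 + 1 ∧ 0 ≤ p3))
    (D25 : (0 ≤ h3 - 1 ∧ 0 ≤ -p4) ∨ (0 ≤ -h3 ∧ 0 ≤ p4 - x))
    (D28 : (0 ≤ hp - 2 ∧ 0 ≤ -x - p5) ∨ (0 ≤ -hp + 1 ∧ 0 ≤ p5))
    (D29 : (0 ≤ hp - 1 ∧ 0 ≤ -p5) ∨ (0 ≤ -hp ∧ 0 ≤ p5 - x))
    (D33 : (0 ≤ m - 2 ∧ 0 ≤ -p6) ∨ (0 ≤ -m + 1 ∧ 0 ≤ p6 - x))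
    (D35 : 0 ≤ -p5 + x - 2 ∨ 0 ≤ x - p6 - 1)
    (D37 : 0 ≤ -h3 ∨ 0 ≤ -x - k ∨ 0 ≤ -x - n3 + a3 + 1)
    (D38 : 0 ≤ -h3 + 1 ∨ 0 ≤ -2 * x - k ∨ 0 ≤ -x - n3 + a3 + 2) : False := by
  have E3 := D3
  have E4 := D4
  have E11 := D11
  have E20 : (0 ≤ n3 - a3 - 2 ∧ 0 ≤ -x - p3) := by
    rcases D20 with H20 | H20
    · exact H20
    · linarith only [B39, H20.2]
  have E25 := D25
  have E28 := D28
  have E29 : (0 ≤ hp - 1 ∧ 0 ≤ -p5) := by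
    rcases D29 with H29 | H29
    · exact H29
    · linarith only [B38, H29.2]
  have E33 : (0 ≤ -m + 1 ∧ 0 ≤ p6 - x) := by
    rcases D33 with H33 | H33
    · linarith only [B36, H33.1]
    · exact H33
  have E35 := D35
  have E37 := D37
  have E38 := D38
  have H29 := E29
  have H20 := E20
  have H33 := E33
  rcases E35 with H35 | H35
  · rcases E11 with H11 | H11
    · rcases E25 with H25 | H25
      · rcases E37 with H37 | H37 | H37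
        · linarith only [H37, H25.1]
        · rcases E4 with H4 | H4
          · linarith only [B10, B34, H29.1, H37, B17, H4]
          · rcases E38 with H38 | H38 | H38
            · rcases E28 with H28 | H28
              · rcases E3 with H3 | H3
                · linarith only [H38, B34, H28.1, H3]
                · linarith only [H38, B35, H28.1, H3, B5]
              · linarith only [B5, H37, H28.2, H35, H4]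
            · linarith only [B5, H38, B17, H4]
            · linarith only [H38, H11.1]
        · linarith only [H11.1, H37]
      · rcases E3 with H3 | H3
        · linarith only [H25.1, B34, H29.1, H3]
        · linarith only [H25.1, B5, B35, H3, H29.1]
    · linarith only [H20.1, B17, H11.1]
  · linarith only [H35, H33.2]

theorem g18 {a3 b1 b2 b3 h3 hp k n1 n3 p5 x : ℤ}
    (B8 : 0 ≤ n3 - a3)
    (B17 : 0 ≤ x - 1)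
    (B33 : 0 ≤ b3 - k - 1)
    (B34 : 0 ≤ n1 - b1 - hp)
    (B35 : 0 ≤ b2 - hp - 1)
    (B38 : 0 ≤ -p5 + x - 1)
    (B39 : 0 ≤ k - x)
    (D3 : 0 ≤ h3 - n1 + b1 ∨ 0 ≤ h3 - b2 - b3 + 1)
    (D29 : (0 ≤ hp - 1 ∧ 0 ≤ -p5) ∨ (0 ≤ -hp ∧ 0 ≤ p5 - x))
    (D37 : 0 ≤ -h3 - 1 ∨ 0 ≤ -k ∨ 0 ≤ -x - n3 + a3) : False := by
  have E3 := D3
  have E29 : (0 ≤ hp - 1 ∧ 0 ≤ -p5) := by
    rcases D29 with H29 | H29
    · exact H29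
    · linarith only [B38, H29.2]
  have E37 : 0 ≤ -h3 - 1 := by
    rcases D37 with H37 | H37 | H37
    · exact H37
    · linarith only [B17, H37, B39]
    · linarith only [B17, B8, H37]
  have H29 := E29
  have H37 := E37
  rcases E3 with H3 | H3
  · linarith only [H37, B34, H29.1, H3]
  · linarith only [H29.1, B17, B33, H37, B35, H3, B39]

theorem g19 {m p6 x : ℤ}
    (B36 : 0 ≤ -m + 1)
    (B39 : 0 ≤ x - p6 - 1)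
    (D33 : (0 ≤ m - 2 ∧ 0 ≤ -p6) ∨ (0 ≤ -m + 1 ∧ 0 ≤ p6 - x)) : False := by
  have E33 : False := by
    rcases D33 with H33 | H33
    · linarith only [B36, H33.1]
    · linarith only [B39, H33.2]
  exact E33

theorem los11 {n1 n2 n3 a1 a2 a3 b1 b2 b3 x z d1 : ℤ}
    (B0 : 0 ≤ a1)
    (B1 : 0 ≤ a2)
    (B2 : 0 ≤ a3)
    (B3 : 0 ≤ b1)
    (B4 : 0 ≤ b2)
    (B5 : 0 ≤ b3)
    (B6 : 0 ≤ n1 - a1)
    (B7 : 0 ≤ n2 - a2)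
    (B8 : 0 ≤ n3 - a3)
    (B9 : 0 ≤ n1 - b1)
    (B10 : 0 ≤ n2 - b2)
    (B11 : 0 ≤ n3 - b3)
    (B12 : 0 ≤ n1 - 1)
    (B13 : 0 ≤ n2 - 1)
    (B14 : 0 ≤ n3 - 1)
    (B15 : 0 ≤ x + a1 + a2 - b1 - b2)
    (B16 : 0 ≤ -a1 - a2 + b1 + b2 - x)
    (B17 : 0 ≤ x - 1)
    (B18 : 0 ≤ z - a1 - a2 - a3 + b1 + b2 + b3)
    (B19 : 0 ≤ a1 + a2 + a3 - b1 - b2 - b3 - z)
    (B20 : 0 ≤ z - 1)
    (B21 : 0 ≤ d1 - a1 + b1)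
    (B22 : 0 ≤ a1 - b1 - d1)
    (B23 : 0 ≤ d1 - 1)
    (B24 : 0 ≤ d1 - 1)
    (B25 : 0 ≤ -d1 + 1)
    (B26 : 0 ≤ z - 1)
    (B27 : 0 ≤ -z + 1)
    (hex : 0 ≤ b1 - 1) :
    LosC n1 n2 n3 a1 a2 a3 b1 b2 b3 (2) (-n2 + b2 - x + 1) (-n2 + b2 - n3 + b3 + 2) := by
  unfold LosC
  refine ⟨?_, ?_, ?_, ?_, ?_, ?_, ?_, ?_⟩ <;> omega

theorem los12 {n1 n2 n3 a1 a2 a3 b1 b2 b3 x z d1 : ℤ}
    (B0 : 0 ≤ a1)
    (B1 : 0 ≤ a2)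
    (B2 : 0 ≤ a3)
    (B3 : 0 ≤ b1)
    (B4 : 0 ≤ b2)
    (B5 : 0 ≤ b3)
    (B6 : 0 ≤ n1 - a1)
    (B7 : 0 ≤ n2 - a2)
    (B8 : 0 ≤ n3 - a3)
    (B9 : 0 ≤ n1 - b1)
    (B10 : 0 ≤ n2 - b2)
    (B11 : 0 ≤ n3 - b3)
    (B12 : 0 ≤ n1 - 1)
    (B13 : 0 ≤ n2 - 1)
    (B14 : 0 ≤ n3 - 1)
    (B15 : 0 ≤ x + a1 + a2 - b1 - b2)
    (B16 : 0 ≤ -a1 - a2 + b1 + b2 - x)
    (B17 : 0 ≤ x - 1)
    (B18 : 0 ≤ z - a1 - a2 - a3 + b1 + b2 + b3)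
    (B19 : 0 ≤ a1 + a2 + a3 - b1 - b2 - b3 - z)
    (B20 : 0 ≤ z - 1)
    (B21 : 0 ≤ d1 - a1 + b1)
    (B22 : 0 ≤ a1 - b1 - d1)
    (B23 : 0 ≤ d1 - 1)
    (B24 : 0 ≤ d1 - 1)
    (B25 : 0 ≤ -d1 + 1)
    (B26 : 0 ≤ z - 1)
    (B27 : 0 ≤ -z + 1) :
    LosC n1 n2 n3 a1 a2 a3 b1 b2 b3 (1) (-x + 1) (-x - n3 + a3 + 1) := by
  unfold LosC
  refine ⟨?_, ?_, ?_, ?_, ?_, ?_, ?_, ?_⟩ <;> omega

theorem los22 {n1 n2 n3 a1 a2 a3 b1 b2 b3 x z d1 h : ℤ}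
    (B0 : 0 ≤ a1)
    (B1 : 0 ≤ a2)
    (B2 : 0 ≤ a3)
    (B3 : 0 ≤ b1)
    (B4 : 0 ≤ b2)
    (B5 : 0 ≤ b3)
    (B6 : 0 ≤ n1 - a1)
    (B7 : 0 ≤ n2 - a2)
    (B8 : 0 ≤ n3 - a3)
    (B9 : 0 ≤ n1 - b1)
    (B10 : 0 ≤ n2 - b2)
    (B11 : 0 ≤ n3 - b3)
    (B12 : 0 ≤ n1 - 1)
    (B13 : 0 ≤ n2 - 1)
    (B14 : 0 ≤ n3 - 1)
    (B15 : 0 ≤ x + a1 + a2 - b1 - b2)
    (B16 : 0 ≤ -a1 - a2 + b1 + b2 - x)
    (B17 : 0 ≤ x - 1)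
    (B18 : 0 ≤ z - a1 - a2 - a3 + b1 + b2 + b3)
    (B19 : 0 ≤ a1 + a2 + a3 - b1 - b2 - b3 - z)
    (B20 : 0 ≤ z - 1)
    (B21 : 0 ≤ d1 - a1 + b1)
    (B22 : 0 ≤ a1 - b1 - d1)
    (B23 : 0 ≤ d1 - 1)
    (B24 : 0 ≤ d1 - 1)
    (B25 : 0 ≤ -d1 + 1)
    (B26 : 0 ≤ z - 1)
    (B27 : 0 ≤ -z + 1)
    (B28 : 0 ≤ n1 - a1 - h)
    (B29 : 0 ≤ a2 - h - 1)
    (C_Dh : 0 ≤ h - n1 + a1 ∨ 0 ≤ h - a2 + 1) :
    LosC n1 n2 n3 a1 a2 a3 b1 b2 b3 (-h) (1) (-n3 + a3 + 1) := by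
  unfold LosC
  refine ⟨?_, ?_, ?_, ?_, ?_, ?_, ?_, ?_⟩ <;> omega

theorem los33 {n1 n2 n3 a1 a2 a3 b1 b2 b3 x z d1 h3 k : ℤ}
    (B0 : 0 ≤ a1)
    (B1 : 0 ≤ a2)
    (B2 : 0 ≤ a3)
    (B3 : 0 ≤ b1)
    (B4 : 0 ≤ b2)
    (B5 : 0 ≤ b3)
    (B6 : 0 ≤ n1 - a1)
    (B7 : 0 ≤ n2 - a2)
    (B8 : 0 ≤ n3 - a3)
    (B9 : 0 ≤ n1 - b1)
    (B10 : 0 ≤ n2 - b2)
    (B11 : 0 ≤ n3 - b3)
    (B12 : 0 ≤ n1 - 1)
    (B13 : 0 ≤ n2 - 1)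
    (B14 : 0 ≤ n3 - 1)
    (B15 : 0 ≤ x + a1 + a2 - b1 - b2)
    (B16 : 0 ≤ -a1 - a2 + b1 + b2 - x)
    (B17 : 0 ≤ x - 1)
    (B18 : 0 ≤ z - a1 - a2 - a3 + b1 + b2 + b3)
    (B19 : 0 ≤ a1 + a2 + a3 - b1 - b2 - b3 - z)
    (B20 : 0 ≤ z - 1)
    (B21 : 0 ≤ d1 - a1 + b1)
    (B22 : 0 ≤ a1 - b1 - d1)
    (B23 : 0 ≤ d1 - 1)
    (B24 : 0 ≤ d1 - 1)
    (B25 : 0 ≤ -d1 + 1)
    (B26 : 0 ≤ z - 1)
    (B27 : 0 ≤ -z + 1)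
    (B30 : 0 ≤ n1 - b1 - h3)
    (B31 : 0 ≤ b2 + b3 - h3 - 1)
    (B32 : 0 ≤ n1 - b1 + n2 - b2 - k)
    (B33 : 0 ≤ b3 - k - 1)
    (C_Dh3 : 0 ≤ h3 - n1 + b1 ∨ 0 ≤ h3 - b2 - b3 + 1)
    (C_Dk : 0 ≤ k - n1 + b1 - n2 + b2 ∨ 0 ≤ k - b3 + 1) :
    LosC n1 n2 n3 a1 a2 a3 b1 b2 b3 (-h3 + 1) (-k - x) (2) := by
  unfold LosC
  refine ⟨?_, ?_, ?_, ?_, ?_, ?_, ?_, ?_⟩ <;> omega

theorem los32 {n1 n2 n3 a1 a2 a3 b1 b2 b3 x z d1 hp m : ℤ}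
    (B0 : 0 ≤ a1)
    (B1 : 0 ≤ a2)
    (B2 : 0 ≤ a3)
    (B3 : 0 ≤ b1)
    (B4 : 0 ≤ b2)
    (B5 : 0 ≤ b3)
    (B6 : 0 ≤ n1 - a1)
    (B7 : 0 ≤ n2 - a2)
    (B8 : 0 ≤ n3 - a3)
    (B9 : 0 ≤ n1 - b1)
    (B10 : 0 ≤ n2 - b2)
    (B11 : 0 ≤ n3 - b3)
    (B12 : 0 ≤ n1 - 1)
    (B13 : 0 ≤ n2 - 1)
    (B14 : 0 ≤ n3 - 1)
    (B15 : 0 ≤ x + a1 + a2 - b1 - b2)
    (B16 : 0 ≤ -a1 - a2 + b1 + b2 - x)
    (B17 : 0 ≤ x - 1)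
    (B18 : 0 ≤ z - a1 - a2 - a3 + b1 + b2 + b3)
    (B19 : 0 ≤ a1 + a2 + a3 - b1 - b2 - b3 - z)
    (B20 : 0 ≤ z - 1)
    (B21 : 0 ≤ d1 - a1 + b1)
    (B22 : 0 ≤ a1 - b1 - d1)
    (B23 : 0 ≤ d1 - 1)
    (B24 : 0 ≤ d1 - 1)
    (B25 : 0 ≤ -d1 + 1)
    (B26 : 0 ≤ z - 1)
    (B27 : 0 ≤ -z + 1)
    (B34 : 0 ≤ n1 - b1 - hp)
    (B35 : 0 ≤ b2 - hp - 1)
    (B36 : 0 ≤ -m + 1)
    (B37 : 0 ≤ n3 - b3 - m)
    (C_Dhp : 0 ≤ hp - n1 + b1 ∨ 0 ≤ hp - b2 + 1)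
    (C_Dm : 0 ≤ m - 1 ∨ 0 ≤ m - n3 + b3) :
    LosC n1 n2 n3 a1 a2 a3 b1 b2 b3 (-hp + 1) (-x + 1) (-m + 2) := by
  unfold LosC
  refine ⟨?_, ?_, ?_, ?_, ?_, ?_, ?_, ?_⟩ <;> omega

theorem hd {n1 n2 n3 a1 a2 a3 b1 b2 b3 x z d1 h h3 k hp m : ℤ}
    (B0 : 0 ≤ a1)
    (B1 : 0 ≤ a2)
    (B2 : 0 ≤ a3)
    (B3 : 0 ≤ b1)
    (B4 : 0 ≤ b2)
    (B5 : 0 ≤ b3)
    (B6 : 0 ≤ n1 - a1)
    (B7 : 0 ≤ n2 - a2)
    (B8 : 0 ≤ n3 - a3)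
    (B9 : 0 ≤ n1 - b1)
    (B10 : 0 ≤ n2 - b2)
    (B11 : 0 ≤ n3 - b3)
    (B12 : 0 ≤ n1 - 1)
    (B13 : 0 ≤ n2 - 1)
    (B14 : 0 ≤ n3 - 1)
    (B15 : 0 ≤ x + a1 + a2 - b1 - b2)
    (B16 : 0 ≤ -a1 - a2 + b1 + b2 - x)
    (B17 : 0 ≤ x - 1)
    (B18 : 0 ≤ z - a1 - a2 - a3 + b1 + b2 + b3)
    (B19 : 0 ≤ a1 + a2 + a3 - b1 - b2 - b3 - z)
    (B20 : 0 ≤ z - 1)
    (B21 : 0 ≤ d1 - a1 + b1)
    (B22 : 0 ≤ a1 - b1 - d1)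
    (B23 : 0 ≤ d1 - 1)
    (B24 : 0 ≤ d1 - 1)
    (B25 : 0 ≤ -d1 + 1)
    (B26 : 0 ≤ z - 1)
    (B27 : 0 ≤ -z + 1)
    (B28 : 0 ≤ n1 - a1 - h)
    (B29 : 0 ≤ a2 - h - 1)
    (B30 : 0 ≤ n1 - b1 - h3)
    (B31 : 0 ≤ b2 + b3 - h3 - 1)
    (B32 : 0 ≤ n1 - b1 + n2 - b2 - k)
    (B33 : 0 ≤ b3 - k - 1)
    (B34 : 0 ≤ n1 - b1 - hp)
    (B35 : 0 ≤ b2 - hp - 1)
    (B36 : 0 ≤ -m + 1)
    (B37 : 0 ≤ n3 - b3 - m)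
    (C_Dh : 0 ≤ h - n1 + a1 ∨ 0 ≤ h - a2 + 1)
    (C_Dh3 : 0 ≤ h3 - n1 + b1 ∨ 0 ≤ h3 - b2 - b3 + 1)
    (C_Dk : 0 ≤ k - n1 + b1 - n2 + b2 ∨ 0 ≤ k - b3 + 1)
    (C_Dhp : 0 ≤ hp - n1 + b1 ∨ 0 ≤ hp - b2 + 1)
    (C_Dm : 0 ≤ m - 1 ∨ 0 ≤ m - n3 + b3) :
    ∀ c1 c2 c3, LosC n1 n2 n3 a1 a2 a3 b1 b2 b3 c1 c2 c3 →
      ∃ v ∈ ([⟨0 ≤ b1 - 1, 2, -n2 + b2 - x + 1, -n2 + b2 - n3 + b3 + 2⟩, ⟨True, 1, -x + 1, -x - n3 + a3 + 1⟩, ⟨True, -h, 1, -n3 + a3 + 1⟩, ⟨True, -h3 + 1, -k - x, 2⟩, ⟨True, -hp + 1, -x + 1, -m + 2⟩] : List LV), v.ex ∧ v.c1 ≤ c1 ∧ v.c2 ≤ c2 ∧ v.c3 ≤ c3 := by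
  intro c1 c2 c3 hc
  obtain ⟨q1, q2, q3, q4, q5, q6, qa, qb⟩ := hc
  rcases qb with qb | qb | qb
  · clear qa
    clear C_Dh C_Dh3 C_Dk C_Dhp C_Dm
    refine ⟨_, List.Mem.head _, ?_, ?_, ?_, ?_⟩
    · show 0 ≤ b1 - 1; omega
    · show 2 ≤ c1; omega
    · show -n2 + b2 - x + 1 ≤ c2; omega
    · show -n2 + b2 - n3 + b3 + 2 ≤ c3; omega
  · rcases qa with qa | qa | qa
    · clear C_Dh C_Dh3 C_Dk C_Dhp C_Dm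
      refine ⟨_, List.Mem.tail _ (List.Mem.head _), ?_, ?_, ?_, ?_⟩
      · trivial
      · show 1 ≤ c1; omega
      · show -x + 1 ≤ c2; omega
      · show -x - n3 + a3 + 1 ≤ c3; omega
    · clear C_Dh3 C_Dk C_Dhp C_Dm
      refine ⟨_, List.Mem.tail _ (List.Mem.tail _ (List.Mem.head _)), ?_, ?_, ?_, ?_⟩
      · trivial
      · show -h ≤ c1; omega
      · show 1 ≤ c2; omega
      · show -n3 + a3 + 1 ≤ c3; omega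
    · clear C_Dh C_Dh3 C_Dk
      refine ⟨_, List.Mem.tail _ (List.Mem.tail _ (List.Mem.tail _ (List.Mem.tail _ (List.Mem.head _)))), ?_, ?_, ?_, ?_⟩
      · trivial
      · show -hp + 1 ≤ c1; omega
      · show -x + 1 ≤ c2; omega
      · show -m + 2 ≤ c3; omega
  · clear qa
    clear C_Dh C_Dhp C_Dm
    refine ⟨_, List.Mem.tail _ (List.Mem.tail _ (List.Mem.tail _ (List.Mem.head _))), ?_, ?_, ?_, ?_⟩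
    · trivial
    · show -h3 + 1 ≤ c1; omega
    · show -k - x ≤ c2; omega
    · show 2 ≤ c3; omega

theorem cvF_V1_V3_11 {b1 b2 b3 n2 n3 p0 x : ℤ}
    (ep0 : p0 = (x) * (-n2 + b2 - n3 + b3 + 2))
    (hex : 0 ≤ b1 - 1)
    (hf : LexFail ((x) * (2) + (1) * (-n2 + b2 - x + 1) + (0) * (-n2 + b2 - n3 + b3 + 2))
      ((0) * (2) + (1) * (-n2 + b2 - x + 1) + (x) * (-n2 + b2 - n3 + b3 + 2))
      ((0) * (2) + (0) * (-n2 + b2 - x + 1) + (0) * (-n2 + b2 - n3 + b3 + 2))) :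
    0 ≤ b1 - 1 ∧ 0 ≤ -x + n2 - b2 - 1 ∧ (0 ≤ -x + n2 - b2 - 2 ∨ 0 ≤ n2 - b2 + x - p0 - 1) := by
  rcases hf with hf | ⟨hf0, hf⟩ | ⟨hf0, hf1, hf⟩
  · exact ⟨by linarith only [hex], by linarith only [hf], Or.inl (by linarith only [hf])⟩
  · exact ⟨by linarith only [hex], by linarith only [hf0], Or.inr (by linarith only [hf, ep0])⟩
  · exact ⟨by linarith only [hex], by linarith only [hf0], Or.inr (by linarith only [hf1, ep0])⟩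

theorem cvF_V1_V3_12 {a3 n3 p1 x : ℤ}
    (ep1 : p1 = (x) * (-x - n3 + a3 + 1))
    (hf : LexFail ((x) * (1) + (1) * (-x + 1) + (0) * (-x - n3 + a3 + 1))
      ((0) * (1) + (1) * (-x + 1) + (x) * (-x - n3 + a3 + 1))
      ((0) * (1) + (0) * (-x + 1) + (0) * (-x - n3 + a3 + 1))) :
    False := by
  rcases hf with hf | ⟨hf0, hf⟩ | ⟨hf0, hf1, hf⟩
  · exfalso; linarith only [hf]
  · exfalso; linarith only [hf0]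
  · exfalso; linarith only [hf0]

theorem cvF_V1_V3_22 {a3 h n3 p2 p3 x : ℤ}
    (ep2 : p2 = (x) * (-h))
    (ep3 : p3 = (x) * (-n3 + a3 + 1))
    (hf : LexFail ((x) * (-h) + (1) * (1) + (0) * (-n3 + a3 + 1))
      ((0) * (-h) + (1) * (1) + (x) * (-n3 + a3 + 1))
      ((0) * (-h) + (0) * (1) + (0) * (-n3 + a3 + 1))) :
    0 ≤ -p2 - 1 ∧ (0 ≤ -p2 - 2 ∨ 0 ≤ -p3 - 1) := by
  rcases hf with hf | ⟨hf0, hf⟩ | ⟨hf0, hf1, hf⟩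
  · exact ⟨by linarith only [hf, ep2], Or.inl (by linarith only [hf, ep2])⟩
  · exact ⟨by linarith only [hf0, ep2], Or.inr (by linarith only [hf, ep3])⟩
  · exact ⟨by linarith only [hf0, ep2], Or.inr (by linarith only [hf1, ep3])⟩

theorem cvF_V1_V3_33 {h3 k p4 x : ℤ}
    (ep4 : p4 = (x) * (-h3 + 1))
    (hf : LexFail ((x) * (-h3 + 1) + (1) * (-k - x) + (0) * (2))
      ((0) * (-h3 + 1) + (1) * (-k - x) + (x) * (2))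
      ((0) * (-h3 + 1) + (0) * (-k - x) + (0) * (2))) :
    0 ≤ -p4 + k + x ∧ (0 ≤ -p4 + k + x - 1 ∨ 0 ≤ k - x) := by
  rcases hf with hf | ⟨hf0, hf⟩ | ⟨hf0, hf1, hf⟩
  · exact ⟨by linarith only [hf, ep4], Or.inl (by linarith only [hf, ep4])⟩
  · exact ⟨by linarith only [hf0, ep4], Or.inr (by linarith only [hf])⟩
  · exact ⟨by linarith only [hf0, ep4], Or.inr (by linarith only [hf1])⟩

theorem cvF_V1_V3_32 {hp m p5 p6 x : ℤ}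
    (ep5 : p5 = (x) * (-hp + 1))
    (ep6 : p6 = (x) * (-m + 2))
    (hf : LexFail ((x) * (-hp + 1) + (1) * (-x + 1) + (0) * (-m + 2))
      ((0) * (-hp + 1) + (1) * (-x + 1) + (x) * (-m + 2))
      ((0) * (-hp + 1) + (0) * (-x + 1) + (0) * (-m + 2))) :
    0 ≤ -p5 + x - 1 ∧ (0 ≤ -p5 + x - 2 ∨ 0 ≤ x - p6 - 1) := by
  rcases hf with hf | ⟨hf0, hf⟩ | ⟨hf0, hf1, hf⟩
  · exact ⟨by linarith only [hf, ep5], Or.inl (by linarith only [hf, ep5])⟩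
  · exact ⟨by linarith only [hf0, ep5], Or.inr (by linarith only [hf, ep6])⟩
  · exact ⟨by linarith only [hf0, ep5], Or.inr (by linarith only [hf1, ep6])⟩

theorem FAt {n1 n2 n3 a1 a2 a3 b1 b2 b3 x z d1 h h3 k hp m p0 p1 p2 p3 p4 p5 p6 : ℤ}
    (B15 : 0 ≤ x + a1 + a2 - b1 - b2)
    (B16 : 0 ≤ -a1 - a2 + b1 + b2 - x)
    (B17 : 0 ≤ x - 1)
    (B18 : 0 ≤ z - a1 - a2 - a3 + b1 + b2 + b3)
    (B19 : 0 ≤ a1 + a2 + a3 - b1 - b2 - b3 - z)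
    (B20 : 0 ≤ z - 1)
    (B21 : 0 ≤ d1 - a1 + b1)
    (B22 : 0 ≤ a1 - b1 - d1)
    (B23 : 0 ≤ d1 - 1)
    (B24 : 0 ≤ d1 - 1)
    (B25 : 0 ≤ -d1 + 1)
    (B26 : 0 ≤ z - 1)
    (B27 : 0 ≤ -z + 1)
    (ep0 : p0 = (x) * (-n2 + b2 - n3 + b3 + 2))
    (ep1 : p1 = (x) * (-x - n3 + a3 + 1))
    (ep2 : p2 = (x) * (-h))
    (ep3 : p3 = (x) * (-n3 + a3 + 1))
    (ep4 : p4 = (x) * (-h3 + 1))
    (ep5 : p5 = (x) * (-hp + 1))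
    (ep6 : p6 = (x) * (-m + 2))
    (w1 : a1 - b1 = 1) (w2 : a1 + a2 - b1 - b2 = -x) (w3 : a1 + a2 + a3 - b1 - b2 - b3 = 1)
    (hno : ¬ ∃ u1 u2 u3 : ℤ, Good n1 n2 n3 a1 a2 a3 b1 b2 b3 u1 u2 u3)
    (hd : ∀ c1 c2 c3, LosC n1 n2 n3 a1 a2 a3 b1 b2 b3 c1 c2 c3 →
      ∃ v ∈ ([⟨0 ≤ b1 - 1, 2, -n2 + b2 - x + 1, -n2 + b2 - n3 + b3 + 2⟩, ⟨True, 1, -x + 1, -x - n3 + a3 + 1⟩, ⟨True, -h, 1, -n3 + a3 + 1⟩, ⟨True, -h3 + 1, -k - x, 2⟩, ⟨True, -hp + 1, -x + 1, -m + 2⟩] : List LV), v.ex ∧ v.c1 ≤ c1 ∧ v.c2 ≤ c2 ∧ v.c3 ≤ c3) :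
    (0 ≤ b1 - 1 ∧ 0 ≤ -x + n2 - b2 - 1 ∧ (0 ≤ -x + n2 - b2 - 2 ∨ 0 ≤ n2 - b2 + x - p0 - 1)) ∨ (0 ≤ -p2 - 1 ∧ (0 ≤ -p2 - 2 ∨ 0 ≤ -p3 - 1)) ∨ (0 ≤ -p4 + k + x ∧ (0 ≤ -p4 + k + x - 1 ∨ 0 ≤ k - x)) ∨ (0 ≤ -p5 + x - 1 ∧ (0 ≤ -p5 + x - 2 ∨ 0 ≤ x - p6 - 1)) := by
  obtain ⟨v, hv, hex, hf⟩ := failA' w1 w2 w3 hno _ hd (x) (1) (0) (0) (1) (x) (0) (0) (0)
    ⟨by linarith only [B15, B16, B17, B18, B19, B20, B21, B22, B23, B24, B25, B26, B27], zero_le_one, le_refl 0⟩ ⟨le_refl 0, zero_le_one, by linarith only [B15, B16, B17, B18, B19, B20, B21, B22, B23, B24, B25, B26, B27]⟩ ⟨le_refl 0, le_refl 0, le_refl 0⟩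
    (Or.inr ⟨by ring, Or.inr ⟨by ring, by linarith only [B15, B16, B17, B18, B19, B20, B21, B22, B23, B24, B25, B26, B27]⟩⟩)
  simp only [List.mem_cons, List.not_mem_nil, or_false] at hv
  rcases hv with rfl | rfl | rfl | rfl | rfl
  · exact Or.inl (cvF_V1_V3_11 ep0 hex hf)
  · exact (cvF_V1_V3_12 ep1 hf).elim
  · exact Or.inr (Or.inl (cvF_V1_V3_22 ep2 ep3 hf))
  · exact Or.inr (Or.inr (Or.inl (cvF_V1_V3_33 ep4 hf)))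
  · exact Or.inr (Or.inr (Or.inr (cvF_V1_V3_32 ep5 ep6 hf)))

theorem cvF_V3_V1_11 {b1 b2 b3 n2 n3 p0 x : ℤ}
    (ep0 : p0 = (x) * (-n2 + b2 - n3 + b3 + 2))
    (hex : 0 ≤ b1 - 1)
    (hf : LexFail ((0) * (2) + (1) * (-n2 + b2 - x + 1) + (x) * (-n2 + b2 - n3 + b3 + 2))
      ((x) * (2) + (1) * (-n2 + b2 - x + 1) + (0) * (-n2 + b2 - n3 + b3 + 2))
      ((0) * (2) + (0) * (-n2 + b2 - x + 1) + (0) * (-n2 + b2 - n3 + b3 + 2))) :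
    0 ≤ b1 - 1 ∧ 0 ≤ n2 - b2 + x - p0 - 1 ∧ (0 ≤ n2 - b2 + x - p0 - 2 ∨ 0 ≤ -x + n2 - b2 - 1) := by
  rcases hf with hf | ⟨hf0, hf⟩ | ⟨hf0, hf1, hf⟩
  · exact ⟨by linarith only [hex], by linarith only [hf, ep0], Or.inl (by linarith only [hf, ep0])⟩
  · exact ⟨by linarith only [hex], by linarith only [hf0, ep0], Or.inr (by linarith only [hf])⟩
  · exact ⟨by linarith only [hex], by linarith only [hf0, ep0], Or.inr (by linarith only [hf1])⟩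

theorem cvF_V3_V1_12 {a3 n3 p1 x : ℤ}
    (ep1 : p1 = (x) * (-x - n3 + a3 + 1))
    (hf : LexFail ((0) * (1) + (1) * (-x + 1) + (x) * (-x - n3 + a3 + 1))
      ((x) * (1) + (1) * (-x + 1) + (0) * (-x - n3 + a3 + 1))
      ((0) * (1) + (0) * (-x + 1) + (0) * (-x - n3 + a3 + 1))) :
    0 ≤ x - p1 - 1 ∧ 0 ≤ x - p1 - 2 := by
  rcases hf with hf | ⟨hf0, hf⟩ | ⟨hf0, hf1, hf⟩
  · exact ⟨by linarith only [hf, ep1], by linarith only [hf, ep1]⟩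
  · exfalso; linarith only [hf]
  · exfalso; linarith only [hf1]

theorem cvF_V3_V1_22 {a3 h n3 p2 p3 x : ℤ}
    (ep2 : p2 = (x) * (-h))
    (ep3 : p3 = (x) * (-n3 + a3 + 1))
    (hf : LexFail ((0) * (-h) + (1) * (1) + (x) * (-n3 + a3 + 1))
      ((x) * (-h) + (1) * (1) + (0) * (-n3 + a3 + 1))
      ((0) * (-h) + (0) * (1) + (0) * (-n3 + a3 + 1))) :
    0 ≤ -p3 - 1 ∧ (0 ≤ -p3 - 2 ∨ 0 ≤ -p2 - 1) := by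
  rcases hf with hf | ⟨hf0, hf⟩ | ⟨hf0, hf1, hf⟩
  · exact ⟨by linarith only [hf, ep3], Or.inl (by linarith only [hf, ep3])⟩
  · exact ⟨by linarith only [hf0, ep3], Or.inr (by linarith only [hf, ep2])⟩
  · exact ⟨by linarith only [hf0, ep3], Or.inr (by linarith only [hf1, ep2])⟩

theorem cvF_V3_V1_33 {h3 k p4 x : ℤ}
    (ep4 : p4 = (x) * (-h3 + 1))
    (hf : LexFail ((0) * (-h3 + 1) + (1) * (-k - x) + (x) * (2))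
      ((x) * (-h3 + 1) + (1) * (-k - x) + (0) * (2))
      ((0) * (-h3 + 1) + (0) * (-k - x) + (0) * (2))) :
    0 ≤ k - x ∧ (0 ≤ k - x - 1 ∨ 0 ≤ -p4 + k + x) := by
  rcases hf with hf | ⟨hf0, hf⟩ | ⟨hf0, hf1, hf⟩
  · exact ⟨by linarith only [hf], Or.inl (by linarith only [hf])⟩
  · exact ⟨by linarith only [hf0], Or.inr (by linarith only [hf, ep4])⟩
  · exact ⟨by linarith only [hf0], Or.inr (by linarith only [hf1, ep4])⟩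

theorem cvF_V3_V1_32 {hp m p5 p6 x : ℤ}
    (ep5 : p5 = (x) * (-hp + 1))
    (ep6 : p6 = (x) * (-m + 2))
    (hf : LexFail ((0) * (-hp + 1) + (1) * (-x + 1) + (x) * (-m + 2))
      ((x) * (-hp + 1) + (1) * (-x + 1) + (0) * (-m + 2))
      ((0) * (-hp + 1) + (0) * (-x + 1) + (0) * (-m + 2))) :
    0 ≤ x - p6 - 1 ∧ (0 ≤ x - p6 - 2 ∨ 0 ≤ -p5 + x - 1) := by
  rcases hf with hf | ⟨hf0, hf⟩ | ⟨hf0, hf1, hf⟩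
  · exact ⟨by linarith only [hf, ep6], Or.inl (by linarith only [hf, ep6])⟩
  · exact ⟨by linarith only [hf0, ep6], Or.inr (by linarith only [hf, ep5])⟩
  · exact ⟨by linarith only [hf0, ep6], Or.inr (by linarith only [hf1, ep5])⟩

theorem FBt {n1 n2 n3 a1 a2 a3 b1 b2 b3 x z d1 h h3 k hp m p0 p1 p2 p3 p4 p5 p6 : ℤ}
    (B15 : 0 ≤ x + a1 + a2 - b1 - b2)
    (B16 : 0 ≤ -a1 - a2 + b1 + b2 - x)
    (B17 : 0 ≤ x - 1)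
    (B18 : 0 ≤ z - a1 - a2 - a3 + b1 + b2 + b3)
    (B19 : 0 ≤ a1 + a2 + a3 - b1 - b2 - b3 - z)
    (B20 : 0 ≤ z - 1)
    (B21 : 0 ≤ d1 - a1 + b1)
    (B22 : 0 ≤ a1 - b1 - d1)
    (B23 : 0 ≤ d1 - 1)
    (B24 : 0 ≤ d1 - 1)
    (B25 : 0 ≤ -d1 + 1)
    (B26 : 0 ≤ z - 1)
    (B27 : 0 ≤ -z + 1)
    (ep0 : p0 = (x) * (-n2 + b2 - n3 + b3 + 2))
    (ep1 : p1 = (x) * (-x - n3 + a3 + 1))
    (ep2 : p2 = (x) * (-h))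
    (ep3 : p3 = (x) * (-n3 + a3 + 1))
    (ep4 : p4 = (x) * (-h3 + 1))
    (ep5 : p5 = (x) * (-hp + 1))
    (ep6 : p6 = (x) * (-m + 2))
    (w1 : a1 - b1 = 1) (w2 : a1 + a2 - b1 - b2 = -x) (w3 : a1 + a2 + a3 - b1 - b2 - b3 = 1)
    (hno : ¬ ∃ u1 u2 u3 : ℤ, Good n1 n2 n3 a1 a2 a3 b1 b2 b3 u1 u2 u3)
    (hd : ∀ c1 c2 c3, LosC n1 n2 n3 a1 a2 a3 b1 b2 b3 c1 c2 c3 →
      ∃ v ∈ ([⟨0 ≤ b1 - 1, 2, -n2 + b2 - x + 1, -n2 + b2 - n3 + b3 + 2⟩, ⟨True, 1, -x + 1, -x - n3 + a3 + 1⟩, ⟨True, -h, 1, -n3 + a3 + 1⟩, ⟨True, -h3 + 1, -k - x, 2⟩, ⟨True, -hp + 1, -x + 1, -m + 2⟩] : List LV), v.ex ∧ v.c1 ≤ c1 ∧ v.c2 ≤ c2 ∧ v.c3 ≤ c3) :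
    (0 ≤ b1 - 1 ∧ 0 ≤ n2 - b2 + x - p0 - 1 ∧ (0 ≤ n2 - b2 + x - p0 - 2 ∨ 0 ≤ -x + n2 - b2 - 1)) ∨ (0 ≤ x - p1 - 1 ∧ 0 ≤ x - p1 - 2) ∨ (0 ≤ -p3 - 1 ∧ (0 ≤ -p3 - 2 ∨ 0 ≤ -p2 - 1)) ∨ (0 ≤ k - x ∧ (0 ≤ k - x - 1 ∨ 0 ≤ -p4 + k + x)) ∨ (0 ≤ x - p6 - 1 ∧ (0 ≤ x - p6 - 2 ∨ 0 ≤ -p5 + x - 1)) := by
  obtain ⟨v, hv, hex, hf⟩ := failA' w1 w2 w3 hno _ hd (0) (1) (x) (x) (1) (0) (0) (0) (0)
    ⟨le_refl 0, zero_le_one, by linarith only [B15, B16, B17, B18, B19, B20, B21, B22, B23, B24, B25, B26, B27]⟩ ⟨by linarith only [B15, B16, B17, B18, B19, B20, B21, B22, B23, B24, B25, B26, B27], zero_le_one, le_refl 0⟩ ⟨le_refl 0, le_refl 0, le_refl 0⟩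
    (Or.inr ⟨by ring, Or.inr ⟨by ring, by linarith only [B15, B16, B17, B18, B19, B20, B21, B22, B23, B24, B25, B26, B27]⟩⟩)
  simp only [List.mem_cons, List.not_mem_nil, or_false] at hv
  rcases hv with rfl | rfl | rfl | rfl | rfl
  · exact Or.inl (cvF_V3_V1_11 ep0 hex hf)
  · exact Or.inr (Or.inl (cvF_V3_V1_12 ep1 hf))
  · exact Or.inr (Or.inr (Or.inl (cvF_V3_V1_22 ep2 ep3 hf)))
  · exact Or.inr (Or.inr (Or.inr (Or.inl (cvF_V3_V1_33 ep4 hf))))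
  · exact Or.inr (Or.inr (Or.inr (Or.inr (cvF_V3_V1_32 ep5 ep6 hf))))

theorem T2_11_22 {n1 n2 n3 a1 a2 a3 b1 b2 b3 x h : ℤ}
    (H : NoTr n1 n2 n3 a1 a2 a3 b1 b2 b3)
    (l11 : 0 ≤ b1 - 1 → LosC n1 n2 n3 a1 a2 a3 b1 b2 b3 (2) (-n2 + b2 - x + 1) (-n2 + b2 - n3 + b3 + 2))
    (l22 : LosC n1 n2 n3 a1 a2 a3 b1 b2 b3 (-h) (1) (-n3 + a3 + 1))
    : 0 ≤ -b1 ∨ 0 ≤ -h + 1 ∨ 0 ≤ -n2 + b2 - x + 1 ∨ 0 ≤ -n2 + b2 - 2 * n3 + b3 + a3 + 2 := by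
  rcases le_or_gt (b1) 0 with hb0 | hb0
  · exact Or.inl (by linarith only [hb0])
  rcases H.t2 (l11 (by linarith only [hb0])) l22 with hq | hq | hq
  · exact Or.inr (Or.inl (by linarith only [hq]))
  · exact Or.inr (Or.inr (Or.inl (by linarith only [hq])))
  · exact Or.inr (Or.inr (Or.inr (by linarith only [hq])))

theorem T0_11_33 {n1 n2 n3 a1 a2 a3 b1 b2 b3 x h3 k : ℤ}
    (H : NoTr n1 n2 n3 a1 a2 a3 b1 b2 b3)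
    (w1 : a1 - b1 = 1) (w2 : a1 + a2 - b1 - b2 = -x) (w3 : a1 + a2 + a3 - b1 - b2 - b3 = 1)
    (l11 : 0 ≤ b1 - 1 → LosC n1 n2 n3 a1 a2 a3 b1 b2 b3 (2) (-n2 + b2 - x + 1) (-n2 + b2 - n3 + b3 + 2))
    (l33 : LosC n1 n2 n3 a1 a2 a3 b1 b2 b3 (-h3 + 1) (-k - x) (2))
    : 0 ≤ -b1 ∨ 0 ≤ -h3 ∨ 0 ≤ -n2 + b2 - k ∨ 0 ≤ -n2 + b2 - n3 + b3 + 1 := by
  rcases le_or_gt (b1) 0 with hb0 | hb0
  · exact Or.inl (by linarith only [hb0])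
  rcases H.t0 w1 w2 w3 (l11 (by linarith only [hb0])) l33 with hq | hq | hq
  · exact Or.inr (Or.inl (by linarith only [hq]))
  · exact Or.inr (Or.inr (Or.inl (by linarith only [hq])))
  · exact Or.inr (Or.inr (Or.inr (by linarith only [hq])))

theorem T1_11_33 {n1 n2 n3 a1 a2 a3 b1 b2 b3 x h3 k : ℤ}
    (H : NoTr n1 n2 n3 a1 a2 a3 b1 b2 b3)
    (w1 : a1 - b1 = 1) (w2 : a1 + a2 - b1 - b2 = -x) (w3 : a1 + a2 + a3 - b1 - b2 - b3 = 1)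
    (l11 : 0 ≤ b1 - 1 → LosC n1 n2 n3 a1 a2 a3 b1 b2 b3 (2) (-n2 + b2 - x + 1) (-n2 + b2 - n3 + b3 + 2))
    (l33 : LosC n1 n2 n3 a1 a2 a3 b1 b2 b3 (-h3 + 1) (-k - x) (2))
    : 0 ≤ -b1 ∨ 0 ≤ -h3 + 1 ∨ 0 ≤ -n2 + b2 - x - k ∨ 0 ≤ -n2 + b2 - n3 + b3 + 2 := by
  rcases le_or_gt (b1) 0 with hb0 | hb0
  · exact Or.inl (by linarith only [hb0])
  rcases H.t1 w1 w2 w3 (l11 (by linarith only [hb0])) l33 with hq | hq | hq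
  · exact Or.inr (Or.inl (by linarith only [hq]))
  · exact Or.inr (Or.inr (Or.inl (by linarith only [hq])))
  · exact Or.inr (Or.inr (Or.inr (by linarith only [hq])))

theorem T0_12_33 {n1 n2 n3 a1 a2 a3 b1 b2 b3 x h3 k : ℤ}
    (H : NoTr n1 n2 n3 a1 a2 a3 b1 b2 b3)
    (w1 : a1 - b1 = 1) (w2 : a1 + a2 - b1 - b2 = -x) (w3 : a1 + a2 + a3 - b1 - b2 - b3 = 1)
    (l12 : LosC n1 n2 n3 a1 a2 a3 b1 b2 b3 (1) (-x + 1) (-x - n3 + a3 + 1))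
    (l33 : LosC n1 n2 n3 a1 a2 a3 b1 b2 b3 (-h3 + 1) (-k - x) (2))
    : 0 ≤ -h3 - 1 ∨ 0 ≤ -k ∨ 0 ≤ -x - n3 + a3 := by
  rcases H.t0 w1 w2 w3 l12 l33 with hq | hq | hq
  · exact Or.inl (by linarith only [hq])
  · exact Or.inr (Or.inl (by linarith only [hq]))
  · exact Or.inr (Or.inr (by linarith only [hq]))

theorem T1_12_33 {n1 n2 n3 a1 a2 a3 b1 b2 b3 x h3 k : ℤ}
    (H : NoTr n1 n2 n3 a1 a2 a3 b1 b2 b3)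
    (w1 : a1 - b1 = 1) (w2 : a1 + a2 - b1 - b2 = -x) (w3 : a1 + a2 + a3 - b1 - b2 - b3 = 1)
    (l12 : LosC n1 n2 n3 a1 a2 a3 b1 b2 b3 (1) (-x + 1) (-x - n3 + a3 + 1))
    (l33 : LosC n1 n2 n3 a1 a2 a3 b1 b2 b3 (-h3 + 1) (-k - x) (2))
    : 0 ≤ -h3 ∨ 0 ≤ -x - k ∨ 0 ≤ -x - n3 + a3 + 1 := by
  rcases H.t1 w1 w2 w3 l12 l33 with hq | hq | hq
  · exact Or.inl (by linarith only [hq])
  · exact Or.inr (Or.inl (by linarith only [hq]))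
  · exact Or.inr (Or.inr (by linarith only [hq]))

theorem T2_12_33 {n1 n2 n3 a1 a2 a3 b1 b2 b3 x h3 k : ℤ}
    (H : NoTr n1 n2 n3 a1 a2 a3 b1 b2 b3)
    (l12 : LosC n1 n2 n3 a1 a2 a3 b1 b2 b3 (1) (-x + 1) (-x - n3 + a3 + 1))
    (l33 : LosC n1 n2 n3 a1 a2 a3 b1 b2 b3 (-h3 + 1) (-k - x) (2))
    : 0 ≤ -h3 + 1 ∨ 0 ≤ -2 * x - k ∨ 0 ≤ -x - n3 + a3 + 2 := by
  rcases H.t2 l12 l33 with hq | hq | hq
  · exact Or.inl (by linarith only [hq])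
  · exact Or.inr (Or.inl (by linarith only [hq]))
  · exact Or.inr (Or.inr (by linarith only [hq]))

theorem T2_12_32 {n1 n2 n3 a1 a2 a3 b1 b2 b3 x hp m : ℤ}
    (H : NoTr n1 n2 n3 a1 a2 a3 b1 b2 b3)
    (l12 : LosC n1 n2 n3 a1 a2 a3 b1 b2 b3 (1) (-x + 1) (-x - n3 + a3 + 1))
    (l32 : LosC n1 n2 n3 a1 a2 a3 b1 b2 b3 (-hp + 1) (-x + 1) (-m + 2))
    : 0 ≤ -hp + 1 ∨ 0 ≤ -2 * x + 1 ∨ 0 ≤ -x - n3 + a3 - m + 2 := by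
  rcases H.t2 l12 l32 with hq | hq | hq
  · exact Or.inl (by linarith only [hq])
  · exact Or.inr (Or.inl (by linarith only [hq]))
  · exact Or.inr (Or.inr (by linarith only [hq]))

theorem main {n1 n2 n3 a1 a2 a3 b1 b2 b3 x z d1 : ℤ}
    (B0 : 0 ≤ a1)
    (B1 : 0 ≤ a2)
    (B2 : 0 ≤ a3)
    (B3 : 0 ≤ b1)
    (B4 : 0 ≤ b2)
    (B5 : 0 ≤ b3)
    (B6 : 0 ≤ n1 - a1)
    (B7 : 0 ≤ n2 - a2)
    (B8 : 0 ≤ n3 - a3)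
    (B9 : 0 ≤ n1 - b1)
    (B10 : 0 ≤ n2 - b2)
    (B11 : 0 ≤ n3 - b3)
    (B12 : 0 ≤ n1 - 1)
    (B13 : 0 ≤ n2 - 1)
    (B14 : 0 ≤ n3 - 1)
    (B15 : 0 ≤ x + a1 + a2 - b1 - b2)
    (B16 : 0 ≤ -a1 - a2 + b1 + b2 - x)
    (B17 : 0 ≤ x - 1)
    (B18 : 0 ≤ z - a1 - a2 - a3 + b1 + b2 + b3)
    (B19 : 0 ≤ a1 + a2 + a3 - b1 - b2 - b3 - z)
    (B20 : 0 ≤ z - 1)
    (B21 : 0 ≤ d1 - a1 + b1)
    (B22 : 0 ≤ a1 - b1 - d1)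
    (B23 : 0 ≤ d1 - 1)
    (B24 : 0 ≤ d1 - 1)
    (B25 : 0 ≤ -d1 + 1)
    (B26 : 0 ≤ z - 1)
    (B27 : 0 ≤ -z + 1)
    (C_c1 : (0 ≤ a1 - 1 ∧ 0 ≤ n2 - a2 - 1) ∨ (0 ≤ b1 - 1 ∧ 0 ≤ n2 - b2 - 1))
    (C_c2 : (0 ≤ a2 - 1 ∧ 0 ≤ n3 - a3 - 1) ∨ (0 ≤ b2 - 1 ∧ 0 ≤ n3 - b3 - 1))
    (H : NoTr n1 n2 n3 a1 a2 a3 b1 b2 b3)
    (hno : ¬ ∃ u1 u2 u3 : ℤ, Good n1 n2 n3 a1 a2 a3 b1 b2 b3 u1 u2 u3) : False := by
  have w1 : a1 - b1 = 1 := by linarith only [B15, B16, B17, B18, B19, B20, B21, B22, B23, B24, B25, B26, B27]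
  have w2 : a1 + a2 - b1 - b2 = -x := by linarith only [B15, B16, B17, B18, B19, B20, B21, B22, B23, B24, B25, B26, B27]
  have w3 : a1 + a2 + a3 - b1 - b2 - b3 = 1 := by linarith only [B15, B16, B17, B18, B19, B20, B21, B22, B23, B24, B25, B26, B27]
  obtain ⟨h, rh1, rh2, rh3⟩ := min_facts (n1 - a1) (a2 - 1)
  have B28 : 0 ≤ n1 - a1 - h := by linarith only [rh1]
  have B29 : 0 ≤ a2 - h - 1 := by linarith only [rh2]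
  have C_Dh : 0 ≤ h - n1 + a1 ∨ 0 ≤ h - a2 + 1 := rh3.imp (fun hq => by linarith only [hq]) (fun hq => by linarith only [hq])
  clear rh1 rh2 rh3
  obtain ⟨h3, rh31, rh32, rh33⟩ := min_facts (n1 - b1) (b2 + b3 - 1)
  have B30 : 0 ≤ n1 - b1 - h3 := by linarith only [rh31]
  have B31 : 0 ≤ b2 + b3 - h3 - 1 := by linarith only [rh32]
  have C_Dh3 : 0 ≤ h3 - n1 + b1 ∨ 0 ≤ h3 - b2 - b3 + 1 := rh33.imp (fun hq => by linarith only [hq]) (fun hq => by linarith only [hq])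
  clear rh31 rh32 rh33
  obtain ⟨k, rk1, rk2, rk3⟩ := min_facts (n1 - b1 + n2 - b2) (b3 - 1)
  have B32 : 0 ≤ n1 - b1 + n2 - b2 - k := by linarith only [rk1]
  have B33 : 0 ≤ b3 - k - 1 := by linarith only [rk2]
  have C_Dk : 0 ≤ k - n1 + b1 - n2 + b2 ∨ 0 ≤ k - b3 + 1 := rk3.imp (fun hq => by linarith only [hq]) (fun hq => by linarith only [hq])
  clear rk1 rk2 rk3
  obtain ⟨hp, rhp1, rhp2, rhp3⟩ := min_facts (n1 - b1) (b2 - 1)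
  have B34 : 0 ≤ n1 - b1 - hp := by linarith only [rhp1]
  have B35 : 0 ≤ b2 - hp - 1 := by linarith only [rhp2]
  have C_Dhp : 0 ≤ hp - n1 + b1 ∨ 0 ≤ hp - b2 + 1 := rhp3.imp (fun hq => by linarith only [hq]) (fun hq => by linarith only [hq])
  clear rhp1 rhp2 rhp3
  obtain ⟨m, rm1, rm2, rm3⟩ := min_facts (1) (n3 - b3)
  have B36 : 0 ≤ -m + 1 := by linarith only [rm1]
  have B37 : 0 ≤ n3 - b3 - m := by linarith only [rm2]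
  have C_Dm : 0 ≤ m - 1 ∨ 0 ≤ m - n3 + b3 := rm3.imp (fun hq => by linarith only [hq]) (fun hq => by linarith only [hq])
  clear rm1 rm2 rm3
  have l11 : 0 ≤ b1 - 1 → LosC n1 n2 n3 a1 a2 a3 b1 b2 b3 (2) (-n2 + b2 - x + 1) (-n2 + b2 - n3 + b3 + 2) := fun hq => los11 B0 B1 B2 B3 B4 B5 B6 B7 B8 B9 B10 B11 B12 B13 B14 B15 B16 B17 B18 B19 B20 B21 B22 B23 B24 B25 B26 B27 hq
  have l12 : LosC n1 n2 n3 a1 a2 a3 b1 b2 b3 (1) (-x + 1) (-x - n3 + a3 + 1) := los12 B0 B1 B2 B3 B4 B5 B6 B7 B8 B9 B10 B11 B12 B13 B14 B15 B16 B17 B18 B19 B20 B21 B22 B23 B24 B25 B26 B27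
  have l22 : LosC n1 n2 n3 a1 a2 a3 b1 b2 b3 (-h) (1) (-n3 + a3 + 1) := los22 B0 B1 B2 B3 B4 B5 B6 B7 B8 B9 B10 B11 B12 B13 B14 B15 B16 B17 B18 B19 B20 B21 B22 B23 B24 B25 B26 B27 B28 B29 C_Dh
  have l33 : LosC n1 n2 n3 a1 a2 a3 b1 b2 b3 (-h3 + 1) (-k - x) (2) := los33 B0 B1 B2 B3 B4 B5 B6 B7 B8 B9 B10 B11 B12 B13 B14 B15 B16 B17 B18 B19 B20 B21 B22 B23 B24 B25 B26 B27 B30 B31 B32 B33 C_Dh3 C_Dk
  have l32 : LosC n1 n2 n3 a1 a2 a3 b1 b2 b3 (-hp + 1) (-x + 1) (-m + 2) := los32 B0 B1 B2 B3 B4 B5 B6 B7 B8 B9 B10 B11 B12 B13 B14 B15 B16 B17 B18 B19 B20 B21 B22 B23 B24 B25 B26 B27 B34 B35 B36 B37 C_Dhp C_Dm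
  have hd := hd B0 B1 B2 B3 B4 B5 B6 B7 B8 B9 B10 B11 B12 B13 B14 B15 B16 B17 B18 B19 B20 B21 B22 B23 B24 B25 B26 B27 B28 B29 B30 B31 B32 B33 B34 B35 B36 B37 C_Dh C_Dh3 C_Dk C_Dhp C_Dm
  obtain ⟨p0, ep0⟩ : ∃ p, p = (x) * (-n2 + b2 - n3 + b3 + 2) := ⟨_, rfl⟩
  have C_Dp0_b : (0 ≤ n2 - b2 + n3 - b3 - 3 ∧ 0 ≤ -x - p0) ∨ (0 ≤ -n2 + b2 - n3 + b3 + 2 ∧ 0 ≤ p0) :=
    (prod_split' (-1) ep0 (by linarith only [B15, B16, B17, B18, B19, B20, B21, B22, B23, B24, B25, B26, B27])).imp (fun hq => ⟨by linarith only [hq.1], by linarith only [hq.2]⟩)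
      (fun hq => ⟨by linarith only [hq.1], by linarith only [hq.2]⟩)
  obtain ⟨p1, ep1⟩ : ∃ p, p = (x) * (-x - n3 + a3 + 1) := ⟨_, rfl⟩
  have C_Dp1_a : (0 ≤ x + n3 - a3 - 3 ∧ 0 ≤ -2 * x - p1) ∨ (0 ≤ -x - n3 + a3 + 2 ∧ 0 ≤ p1 + x) :=
    (prod_split' (-2) ep1 (by linarith only [B15, B16, B17, B18, B19, B20, B21, B22, B23, B24, B25, B26, B27])).imp (fun hq => ⟨by linarith only [hq.1], by linarith only [hq.2]⟩)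
      (fun hq => ⟨by linarith only [hq.1], by linarith only [hq.2]⟩)
  have C_Dp1_b : (0 ≤ x + n3 - a3 - 2 ∧ 0 ≤ -x - p1) ∨ (0 ≤ -x - n3 + a3 + 1 ∧ 0 ≤ p1) :=
    (prod_split' (-1) ep1 (by linarith only [B15, B16, B17, B18, B19, B20, B21, B22, B23, B24, B25, B26, B27])).imp (fun hq => ⟨by linarith only [hq.1], by linarith only [hq.2]⟩)
      (fun hq => ⟨by linarith only [hq.1], by linarith only [hq.2]⟩)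
  have C_Dp1_c : (0 ≤ x + n3 - a3 - 1 ∧ 0 ≤ -p1) ∨ (0 ≤ -x - n3 + a3 ∧ 0 ≤ p1 - x) :=
    (prod_split' (0) ep1 (by linarith only [B15, B16, B17, B18, B19, B20, B21, B22, B23, B24, B25, B26, B27])).imp (fun hq => ⟨by linarith only [hq.1], by linarith only [hq.2]⟩)
      (fun hq => ⟨by linarith only [hq.1], by linarith only [hq.2]⟩)
  obtain ⟨p2, ep2⟩ : ∃ p, p = (x) * (-h) := ⟨_, rfl⟩
  have C_Dp2_a : (0 ≤ h - 2 ∧ 0 ≤ -2 * x - p2) ∨ (0 ≤ -h + 1 ∧ 0 ≤ p2 + x) :=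
    (prod_split' (-2) ep2 (by linarith only [B15, B16, B17, B18, B19, B20, B21, B22, B23, B24, B25, B26, B27])).imp (fun hq => ⟨by linarith only [hq.1], by linarith only [hq.2]⟩)
      (fun hq => ⟨by linarith only [hq.1], by linarith only [hq.2]⟩)
  have C_Dp2_b : (0 ≤ h - 1 ∧ 0 ≤ -x - p2) ∨ (0 ≤ -h ∧ 0 ≤ p2) :=
    (prod_split' (-1) ep2 (by linarith only [B15, B16, B17, B18, B19, B20, B21, B22, B23, B24, B25, B26, B27])).imp (fun hq => ⟨by linarith only [hq.1], by linarith only [hq.2]⟩)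
      (fun hq => ⟨by linarith only [hq.1], by linarith only [hq.2]⟩)
  obtain ⟨p3, ep3⟩ : ∃ p, p = (x) * (-n3 + a3 + 1) := ⟨_, rfl⟩
  have C_Dp3_b : (0 ≤ n3 - a3 - 2 ∧ 0 ≤ -x - p3) ∨ (0 ≤ -n3 + a3 + 1 ∧ 0 ≤ p3) :=
    (prod_split' (-1) ep3 (by linarith only [B15, B16, B17, B18, B19, B20, B21, B22, B23, B24, B25, B26, B27])).imp (fun hq => ⟨by linarith only [hq.1], by linarith only [hq.2]⟩)
      (fun hq => ⟨by linarith only [hq.1], by linarith only [hq.2]⟩)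
  have C_Dp3_c : (0 ≤ n3 - a3 - 1 ∧ 0 ≤ -p3) ∨ (0 ≤ -n3 + a3 ∧ 0 ≤ p3 - x) :=
    (prod_split' (0) ep3 (by linarith only [B15, B16, B17, B18, B19, B20, B21, B22, B23, B24, B25, B26, B27])).imp (fun hq => ⟨by linarith only [hq.1], by linarith only [hq.2]⟩)
      (fun hq => ⟨by linarith only [hq.1], by linarith only [hq.2]⟩)
  obtain ⟨p4, ep4⟩ : ∃ p, p = (x) * (-h3 + 1) := ⟨_, rfl⟩
  have C_Dp4_b : (0 ≤ h3 - 2 ∧ 0 ≤ -x - p4) ∨ (0 ≤ -h3 + 1 ∧ 0 ≤ p4) :=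
    (prod_split' (-1) ep4 (by linarith only [B15, B16, B17, B18, B19, B20, B21, B22, B23, B24, B25, B26, B27])).imp (fun hq => ⟨by linarith only [hq.1], by linarith only [hq.2]⟩)
      (fun hq => ⟨by linarith only [hq.1], by linarith only [hq.2]⟩)
  have C_Dp4_c : (0 ≤ h3 - 1 ∧ 0 ≤ -p4) ∨ (0 ≤ -h3 ∧ 0 ≤ p4 - x) :=
    (prod_split' (0) ep4 (by linarith only [B15, B16, B17, B18, B19, B20, B21, B22, B23, B24, B25, B26, B27])).imp (fun hq => ⟨by linarith only [hq.1], by linarith only [hq.2]⟩)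
      (fun hq => ⟨by linarith only [hq.1], by linarith only [hq.2]⟩)
  obtain ⟨p5, ep5⟩ : ∃ p, p = (x) * (-hp + 1) := ⟨_, rfl⟩
  have C_Dp5_b : (0 ≤ hp - 2 ∧ 0 ≤ -x - p5) ∨ (0 ≤ -hp + 1 ∧ 0 ≤ p5) :=
    (prod_split' (-1) ep5 (by linarith only [B15, B16, B17, B18, B19, B20, B21, B22, B23, B24, B25, B26, B27])).imp (fun hq => ⟨by linarith only [hq.1], by linarith only [hq.2]⟩)
      (fun hq => ⟨by linarith only [hq.1], by linarith only [hq.2]⟩)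
  have C_Dp5_c : (0 ≤ hp - 1 ∧ 0 ≤ -p5) ∨ (0 ≤ -hp ∧ 0 ≤ p5 - x) :=
    (prod_split' (0) ep5 (by linarith only [B15, B16, B17, B18, B19, B20, B21, B22, B23, B24, B25, B26, B27])).imp (fun hq => ⟨by linarith only [hq.1], by linarith only [hq.2]⟩)
      (fun hq => ⟨by linarith only [hq.1], by linarith only [hq.2]⟩)
  obtain ⟨p6, ep6⟩ : ∃ p, p = (x) * (-m + 2) := ⟨_, rfl⟩
  have C_Dp6_c : (0 ≤ m - 2 ∧ 0 ≤ -p6) ∨ (0 ≤ -m + 1 ∧ 0 ≤ p6 - x) :=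
    (prod_split' (0) ep6 (by linarith only [B15, B16, B17, B18, B19, B20, B21, B22, B23, B24, B25, B26, B27])).imp (fun hq => ⟨by linarith only [hq.1], by linarith only [hq.2]⟩)
      (fun hq => ⟨by linarith only [hq.1], by linarith only [hq.2]⟩)
  have FA := FAt B15 B16 B17 B18 B19 B20 B21 B22 B23 B24 B25 B26 B27 ep0 ep1 ep2 ep3 ep4 ep5 ep6 w1 w2 w3 hno hd
  have FB := FBt B15 B16 B17 B18 B19 B20 B21 B22 B23 B24 B25 B26 B27 ep0 ep1 ep2 ep3 ep4 ep5 ep6 w1 w2 w3 hno hd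
  have t2_11_22 := T2_11_22 H l11 l22
  have t0_11_33 := T0_11_33 H w1 w2 w3 l11 l33
  have t1_11_33 := T1_11_33 H w1 w2 w3 l11 l33
  have t0_12_33 := T0_12_33 H w1 w2 w3 l12 l33
  have t1_12_33 := T1_12_33 H w1 w2 w3 l12 l33
  have t2_12_33 := T2_12_33 H l12 l33
  have t2_12_32 := T2_12_32 H l12 l32
  rcases FA with ⟨f0_0, f0_1, f0_2⟩ | ⟨f0_0, f0_1⟩ | ⟨f0_0, f0_1⟩ | ⟨f0_0, f0_1⟩
  · rcases FB with ⟨f1_0, f1_1, f1_2⟩ | ⟨f1_0, f1_1⟩ | ⟨f1_0, f1_1⟩ | ⟨f1_0, f1_1⟩ | ⟨f1_0, f1_1⟩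
    · exact g0 B1 B5 B6 B8 B9 B16 B17 B19 B20 B22 B23 f0_0 f0_1 C_Dh3 C_Dk t0_11_33
    · exact g1 B1 B5 B6 B8 B9 B16 B17 B19 B20 B22 B23 f0_0 f0_1 C_Dh3 C_Dk t0_11_33
    · exact g2 B1 B5 B6 B8 B9 B16 B17 B19 B20 B22 B23 f0_0 f0_1 C_Dh3 C_Dk t0_11_33
    · exact g3 B1 B6 B8 B16 B17 B19 B20 B22 B23 B33 f0_0 f0_1 f1_0 C_Dh3 t0_11_33
    · exact g4 B36 f1_0 C_Dp6_c
  · rcases FB with ⟨f1_0, f1_1, f1_2⟩ | ⟨f1_0, f1_1⟩ | ⟨f1_0, f1_1⟩ | ⟨f1_0, f1_1⟩ | ⟨f1_0, f1_1⟩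
    · exact g5 B8 B15 B16 B17 B18 B19 B20 B22 B23 B27 B28 B29 B36 f0_0 f1_0 C_Dhp C_Dm C_Dp0_b C_Dp1_b C_Dp1_c C_Dp2_a C_Dp2_b C_Dp3_b C_Dp3_c f0_1 f1_2 t2_12_32 t2_11_22
    · exact g6 B8 B16 B17 B19 B20 B22 B23 B28 B29 B36 f0_0 f1_1 C_Dhp C_Dm C_Dp1_b C_Dp2_b t2_12_32
    · exact g7 B5 B10 B16 B17 B22 B23 B28 B29 f0_0 f1_0 C_Dh3 C_Dk C_Dp1_a C_Dp2_b C_Dp3_b t2_12_33
    · exact g8 B1 B6 B8 B16 B17 B22 B23 B33 f1_0 C_Dh3 t0_12_33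
    · exact g9 B36 f1_0 C_Dp6_c
  · rcases FB with ⟨f1_0, f1_1, f1_2⟩ | ⟨f1_0, f1_1⟩ | ⟨f1_0, f1_1⟩ | ⟨f1_0, f1_1⟩ | ⟨f1_0, f1_1⟩
    · exact g10 B1 B5 B6 B8 B10 B15 B16 B17 B18 B19 B20 B22 B23 B27 B30 B31 B36 f1_0 C_Dh3 C_Dk C_Dhp C_Dm C_Dp0_b C_Dp1_b C_Dp3_c C_Dp4_b C_Dp4_c f0_1 f1_2 t1_12_33 t0_11_33 t2_12_32 t1_11_33
    · exact g11 B1 B5 B6 B8 B10 B16 B17 B19 B20 B22 B23 B30 B31 B36 f1_1 C_Dh3 C_Dk C_Dhp C_Dm C_Dp1_b C_Dp4_b f0_1 t1_12_33 t2_12_32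
    · exact g12 B1 B5 B6 B10 B16 B17 B22 B23 f1_0 C_Dh3 C_Dk C_Dp1_a C_Dp3_b C_Dp4_b f0_1 t1_12_33 t2_12_33
    · exact g13 B1 B6 B8 B16 B17 B22 B23 B33 f1_0 C_Dh3 t0_12_33
    · exact g14 B36 f1_0 C_Dp6_c
  · rcases FB with ⟨f1_0, f1_1, f1_2⟩ | ⟨f1_0, f1_1⟩ | ⟨f1_0, f1_1⟩ | ⟨f1_0, f1_1⟩ | ⟨f1_0, f1_1⟩
    · exact g15 B1 B5 B8 B10 B14 B15 B16 B17 B18 B19 B20 B22 B23 B27 B30 B34 B35 B36 f0_0 f1_0 C_Dh3 C_Dk C_Dhp C_Dm C_Dp0_b C_Dp1_c C_Dp3_c C_Dp4_b C_Dp5_b C_Dp5_c C_Dp6_c f0_1 f1_2 t1_12_33 t1_11_33 t2_12_32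
    · exact g16 B1 B5 B8 B10 B16 B17 B19 B20 B22 B23 B30 B34 B36 f0_0 f1_1 C_Dh3 C_Dk C_Dhp C_Dm C_Dp1_b C_Dp5_b C_Dp5_c C_Dp6_c f0_1 t1_12_33 t2_12_32
    · exact g17 B5 B10 B17 B34 B35 B36 f0_0 f1_0 C_Dh3 C_Dk C_Dp1_a C_Dp3_b C_Dp4_c C_Dp5_b C_Dp5_c C_Dp6_c f0_1 t1_12_33 t2_12_33
    · exact g18 B8 B17 B33 B34 B35 f0_0 f1_0 C_Dh3 C_Dp5_c t0_12_33
    · exact g19 B36 f1_0 C_Dp6_c

end WG3.IpP
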