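import Pool.Agent.Work.MP_5465ec_co.Core

set_option linter.all false

namespace WG3.VN

theorem g0 {a1 a2 a3 b1 b2 b3 e h h3 hp k m n1 n2 n3 p1 y : ℤ}
    (B2 : 0 ≤ a3)
    (B6 : 0 ≤ n1 - a1)
    (B7 : 0 ≤ n2 - a2)
    (B11 : 0 ≤ n3 - b3)
    (B16 : 0 ≤ a1 + a2 - b1 - b2 - e)
    (B19 : 0 ≤ -a1 - a2 - a3 + b1 + b2 + b3 - y)
    (B20 : 0 ≤ y - 1)
    (B22 : 0 ≤ -a1 + b1)
    (B25 : 0 ≤ e - 2)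
    (B26 : 0 ≤ n1 - b1 - hp)
    (B27 : 0 ≤ b2 - hp - 1)
    (B34 : 0 ≤ -m + 1)
    (B36 : 0 ≤ b1 + b2 - 1)
    (B37 : 0 ≤ hp)
    (B38 : 0 ≤ b1 - 1)
    (D3 : 0 ≤ h3 - n1 + a1 ∨ 0 ≤ h3 - a2 - a3 + 1)
    (D4 : 0 ≤ k - n1 + a1 - n2 + a2 ∨ 0 ≤ k - a3 + 1)
    (D5 : 0 ≤ h - n1 + a1 ∨ 0 ≤ h - a2 + 1)
    (D6 : 0 ≤ m - 1 ∨ 0 ≤ m - n3 + a3)
    (D11 : (0 ≤ n3 - b3 - 2 ∧ 0 ≤ -2 * e - p1) ∨ (0 ≤ -n3 + b3 + 1 ∧ 0 ≤ p1 + e))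
    (D31 : 0 ≤ hp - 1 ∨ 0 ≤ -e - p1 - 1)
    (D32 : 0 ≤ -b1 ∨ 0 ≤ -h3 ∨ 0 ≤ -n2 + b2 - k ∨ 0 ≤ -n2 + b2 - n3 + b3 + 1)
    (D33 : 0 ≤ -b1 - b2 ∨ 0 ≤ -hp - h - 1 ∨ 0 ≤ -e + 1 ∨ 0 ≤ -n3 + b3 - m + 2) : False := by
  have E3 := D3
  have E4 := D4
  have E5 := D5
  have E6 : 0 ≤ m - 1 := by
    rcases D6 with H6 | H6
    · exact H6
    · linarith only [B25, B20, H6, B34, B11, B16, B19]
  have E11 := D11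
  have E31 := D31
  have E32 : 0 ≤ -h3 ∨ 0 ≤ -n2 + b2 - k := by
    rcases D32 with H32 | H32 | H32 | H32
    · linarith only [H32, B38]
    · exact Or.inl H32
    · exact Or.inr H32
    · linarith only [B25, H32, B22, B7, B11, B16]
  have E33 : 0 ≤ -hp - h - 1 ∨ 0 ≤ -n3 + b3 - m + 2 := by
    rcases D33 with H33 | H33 | H33 | H33
    · linarith only [H33, B36]
    · exact Or.inl H33
    · linarith only [B25, H33]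
    · exact Or.inr H33
  have H6 := E6
  rcases E11 with H11 | H11
  · rcases E33 with H33 | H33
    · rcases E5 with H5 | H5
      · linarith only [H5, H33, B37, B6]
      · linarith only [B22, B16, B27, H33, B37, B25, H5]
    · linarith only [H33, H11.1, H6]
  · rcases E31 with H31 | H31
    · rcases E32 with H32 | H32
      · rcases E3 with H3 | H3
        · linarith only [B22, B26, H31, H32, H3]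
        · linarith only [B16, B27, B2, B22, H31, H3, B25, H32]
      · rcases E4 with H4 | H4
        · linarith only [B16, B26, B7, B22, H32, H31, B25, H4]
        · linarith only [B16, B2, B7, B22, H32, B25, H4]
    · linarith only [H31, H11.2]

theorem g1 {a1 a2 a3 b1 b2 b3 e h hp m n1 n3 p1 y : ℤ}
    (B6 : 0 ≤ n1 - a1)
    (B11 : 0 ≤ n3 - b3)
    (B16 : 0 ≤ a1 + a2 - b1 - b2 - e)
    (B19 : 0 ≤ -a1 - a2 - a3 + b1 + b2 + b3 - y)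
    (B20 : 0 ≤ y - 1)
    (B22 : 0 ≤ -a1 + b1)
    (B25 : 0 ≤ e - 2)
    (B27 : 0 ≤ b2 - hp - 1)
    (B34 : 0 ≤ -m + 1)
    (B36 : 0 ≤ b1 + b2 - 1)
    (B37 : 0 ≤ hp)
    (B39 : 0 ≤ -e - p1 - 1)
    (D5 : 0 ≤ h - n1 + a1 ∨ 0 ≤ h - a2 + 1)
    (D6 : 0 ≤ m - 1 ∨ 0 ≤ m - n3 + a3)
    (D11 : (0 ≤ n3 - b3 - 2 ∧ 0 ≤ -2 * e - p1) ∨ (0 ≤ -n3 + b3 + 1 ∧ 0 ≤ p1 + e))
    (D33 : 0 ≤ -b1 - b2 ∨ 0 ≤ -hp - h - 1 ∨ 0 ≤ -e + 1 ∨ 0 ≤ -n3 + b3 - m + 2) : False := by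
  have E5 := D5
  have E6 : 0 ≤ m - 1 := by
    rcases D6 with H6 | H6
    · exact H6
    · linarith only [B25, B20, H6, B34, B11, B16, B19]
  have E11 : (0 ≤ n3 - b3 - 2 ∧ 0 ≤ -2 * e - p1) := by
    rcases D11 with H11 | H11
    · exact H11
    · linarith only [B39, H11.2]
  have E33 : 0 ≤ -hp - h - 1 ∨ 0 ≤ -n3 + b3 - m + 2 := by
    rcases D33 with H33 | H33 | H33 | H33
    · linarith only [H33, B36]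
    · exact Or.inl H33
    · linarith only [B25, H33]
    · exact Or.inr H33
  have H11 := E11
  have H6 := E6
  rcases E33 with H33 | H33
  · rcases E5 with H5 | H5
    · linarith only [H5, H33, B37, B6]
    · linarith only [B22, B16, B27, H33, B37, B25, H5]
  · linarith only [H33, H11.1, H6]

theorem g2 {a1 a2 a3 b1 b2 b3 e h3 hp k n1 n2 n3 p1 : ℤ}
    (B6 : 0 ≤ n1 - a1)
    (B7 : 0 ≤ n2 - a2)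
    (B11 : 0 ≤ n3 - b3)
    (B16 : 0 ≤ a1 + a2 - b1 - b2 - e)
    (B22 : 0 ≤ -a1 + b1)
    (B25 : 0 ≤ e - 2)
    (B27 : 0 ≤ b2 - hp - 1)
    (B31 : 0 ≤ a3 - k - 1)
    (B36 : 0 ≤ b1 + b2 - 1)
    (B37 : 0 ≤ hp)
    (B38 : 0 ≤ k - e)
    (D0 : (0 ≤ a1 - 1 ∧ 0 ≤ n2 - a2 - 1) ∨ (0 ≤ b1 - 1 ∧ 0 ≤ n2 - b2 - 1))
    (D3 : 0 ≤ h3 - n1 + a1 ∨ 0 ≤ h3 - a2 - a3 + 1)
    (D11 : (0 ≤ n3 - b3 - 2 ∧ 0 ≤ -2 * e - p1) ∨ (0 ≤ -n3 + b3 + 1 ∧ 0 ≤ p1 + e))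
    (D31 : 0 ≤ hp - 1 ∨ 0 ≤ -e - p1 - 1)
    (D33 : 0 ≤ -b1 ∨ 0 ≤ -b1 - b2 ∨ 0 ≤ -hp ∨ 0 ≤ -n2 + b2 + 1 ∨ 0 ≤ -n2 + b2 - 2 * n3 + 2 * b3 + 1)
    (D35 : 0 ≤ -b1 - b2 ∨ 0 ≤ -hp - h3 - 1 ∨ 0 ≤ -k ∨ 0 ≤ -n3 + b3 + 1) : False := by
  have E0 := D0
  have E3 := D3
  have E11 := D11
  have E31 := D31
  have E33 : 0 ≤ -b1 ∨ 0 ≤ -hp := by
    rcases D33 with H33 | H33 | H33 | H33 | H33
    · exact Or.inl H33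
    · linarith only [H33, B36]
    · exact Or.inr H33
    · linarith only [B25, H33, B22, B7, B16]
    · linarith only [B25, B11, B16, H33, B7, B22]
  have E35 : 0 ≤ -hp - h3 - 1 ∨ 0 ≤ -n3 + b3 + 1 := by
    rcases D35 with H35 | H35 | H35 | H35
    · linarith only [H35, B36]
    · exact Or.inl H35
    · linarith only [B25, B38, H35]
    · exact Or.inr H35
  rcases E11 with H11 | H11
  · rcases E35 with H35 | H35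
    · rcases E3 with H3 | H3
      · linarith only [H3, B37, H35, B6]
      · linarith only [B31, B16, B38, B27, H35, B37, H3, B25, B22]
    · linarith only [H11.1, H35]
  · rcases E31 with H31 | H31
    · rcases E33 with H33 | H33
      · rcases E0 with H0 | H0
        · linarith only [B22, H0.1, H33]
        · linarith only [H0.1, H33]
      · linarith only [H31, H33]
    · linarith only [H31, H11.2]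

theorem g3 {e m p2 : ℤ}
    (B34 : 0 ≤ -m + 1)
    (B38 : 0 ≤ -p2 - 1)
    (D16 : (0 ≤ m - 2 ∧ 0 ≤ -e - p2) ∨ (0 ≤ -m + 1 ∧ 0 ≤ p2)) : False := by
  have E16 : False := by
    rcases D16 with H16 | H16
    · linarith only [B34, H16.1]
    · linarith only [B38, H16.2]
  exact E16

theorem g4 {a1 a2 a3 b1 b2 b3 e h h3 hp k m n1 n2 n3 p1 p2 : ℤ}
    (B2 : 0 ≤ a3)
    (B4 : 0 ≤ b2)
    (B6 : 0 ≤ n1 - a1)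
    (B7 : 0 ≤ n2 - a2)
    (B11 : 0 ≤ n3 - b3)
    (B16 : 0 ≤ a1 + a2 - b1 - b2 - e)
    (B22 : 0 ≤ -a1 + b1)
    (B25 : 0 ≤ e - 2)
    (B26 : 0 ≤ n1 - b1 - hp)
    (B32 : 0 ≤ n1 - a1 - h)
    (B34 : 0 ≤ -m + 1)
    (B36 : 0 ≤ h3)
    (B37 : 0 ≤ b1 - 1)
    (D3 : 0 ≤ h3 - n1 + a1 ∨ 0 ≤ h3 - a2 - a3 + 1)
    (D4 : 0 ≤ k - n1 + a1 - n2 + a2 ∨ 0 ≤ k - a3 + 1)
    (D11 : (0 ≤ n3 - b3 - 2 ∧ 0 ≤ -2 * e - p1) ∨ (0 ≤ -n3 + b3 + 1 ∧ 0 ≤ p1 + e))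
    (D16 : (0 ≤ m - 2 ∧ 0 ≤ -e - p2) ∨ (0 ≤ -m + 1 ∧ 0 ≤ p2))
    (D31 : 0 ≤ h3 - 1 ∨ 0 ≤ k - e)
    (D32 : 0 ≤ -b1 ∨ 0 ≤ -h3 ∨ 0 ≤ -n2 + b2 - k ∨ 0 ≤ -n2 + b2 - n3 + b3 + 1)
    (D34 : 0 ≤ -b1 - b2 ∨ 0 ≤ -hp - h3 - 1 ∨ 0 ≤ -k ∨ 0 ≤ -n3 + b3 + 1)
    (D35 : 0 ≤ -b1 - b2 ∨ 0 ≤ -hp - h3 - 1 ∨ 0 ≤ e - k ∨ 0 ≤ -n3 + b3)
    (D36 : ((0 ≤ b1 + b2 - 1 ∧ 0 ≤ hp - 1) ∨ (0 ≤ b1 + b2 - 1 ∧ 0 ≤ -hp ∧ 0 ≤ hp ∧ 0 ≤ -e - p1 - 2) ∨ (0 ≤ b1 + b2 - 1 ∧ 0 ≤ -hp ∧ 0 ≤ hp ∧ 0 ≤ e + p1 + 1 ∧ 0 ≤ -e - p1 - 1 ∧ 0 ≤ n3 - b3)) ∨ (0 ≤ h3 - 1 ∨ (0 ≤ -h3 ∧ 0 ≤ h3 ∧ 0 ≤ k - e - 1)) ∨ (0 ≤ h - 1 ∨ (0 ≤ -h ∧ 0 ≤ h ∧ 0 ≤ -p2 - 2) ∨ (0 ≤ -h ∧ 0 ≤ h ∧ 0 ≤ p2 + 1 ∧ 0 ≤ -p2 - 1 ∧ 0 ≤ m - 1)))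
    (D37 : ((0 ≤ b1 + b2 - 1 ∧ 0 ≤ hp - 1) ∨ (0 ≤ b1 + b2 - 1 ∧ 0 ≤ -hp ∧ 0 ≤ hp ∧ 0 ≤ n3 - b3 - 1) ∨ (0 ≤ b1 + b2 - 1 ∧ 0 ≤ -hp ∧ 0 ≤ hp ∧ 0 ≤ -n3 + b3 ∧ 0 ≤ n3 - b3 ∧ 0 ≤ -e - p1 - 1)) ∨ (0 ≤ h3 - 1) ∨ (0 ≤ h - 1 ∨ (0 ≤ -h ∧ 0 ≤ h ∧ 0 ≤ m - 2) ∨ (0 ≤ -h ∧ 0 ≤ h ∧ 0 ≤ -m + 1 ∧ 0 ≤ m - 1 ∧ 0 ≤ -p2 - 1))) : False := by
  have E3 := D3
  have E4 := D4
  have E11 := D11
  have E16 : (0 ≤ -m + 1 ∧ 0 ≤ p2) := by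
    rcases D16 with H16 | H16
    · linarith only [B34, H16.1]
    · exact H16
  have E31 := D31
  have E32 : 0 ≤ -h3 ∨ 0 ≤ -n2 + b2 - k := by
    rcases D32 with H32 | H32 | H32 | H32
    · linarith only [H32, B37]
    · exact Or.inl H32
    · exact Or.inr H32
    · linarith only [B25, H32, B22, B7, B11, B16]
  have E34 : 0 ≤ -hp - h3 - 1 ∨ 0 ≤ -k ∨ 0 ≤ -n3 + b3 + 1 := by
    rcases D34 with H34 | H34 | H34 | H34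
    · linarith only [B4, H34, B37]
    · exact Or.inl H34
    · exact Or.inr (Or.inl H34)
    · exact Or.inr (Or.inr H34)
  have E35 : 0 ≤ -hp - h3 - 1 ∨ 0 ≤ e - k ∨ 0 ≤ -n3 + b3 := by
    rcases D35 with H35 | H35 | H35 | H35
    · linarith only [B4, H35, B37]
    · exact Or.inl H35
    · exact Or.inr (Or.inl H35)
    · exact Or.inr (Or.inr H35)
  have E36 : (0 ≤ b1 + b2 - 1 ∧ 0 ≤ hp - 1) ∨ (0 ≤ b1 + b2 - 1 ∧ 0 ≤ -hp ∧ 0 ≤ hp ∧ 0 ≤ -e - p1 - 2) ∨ (0 ≤ b1 + b2 - 1 ∧ 0 ≤ -hp ∧ 0 ≤ hp ∧ 0 ≤ e + p1 + 1 ∧ 0 ≤ -e - p1 - 1 ∧ 0 ≤ n3 - b3) ∨ 0 ≤ h3 - 1 ∨ (0 ≤ -h3 ∧ 0 ≤ h3 ∧ 0 ≤ k - e - 1) ∨ 0 ≤ h - 1 ∨ (0 ≤ -h ∧ 0 ≤ h ∧ 0 ≤ -p2 - 2) ∨ (0 ≤ -h ∧ 0 ≤ h ∧ 0 ≤ p2 + 1 ∧ 0 ≤ -p2 - 1 ∧ 0 ≤ m - 1) := by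
    rcases D36 with (H36 | H36 | H36) | (H36 | H36) | (H36 | H36 | H36)
    · exact Or.inl H36
    · exact Or.inr (Or.inl H36)
    · exact Or.inr (Or.inr (Or.inl H36))
    · exact Or.inr (Or.inr (Or.inr (Or.inl H36)))
    · exact Or.inr (Or.inr (Or.inr (Or.inr (Or.inl H36))))
    · exact Or.inr (Or.inr (Or.inr (Or.inr (Or.inr (Or.inl H36)))))
    · exact Or.inr (Or.inr (Or.inr (Or.inr (Or.inr (Or.inr (Or.inl H36))))))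
    · exact Or.inr (Or.inr (Or.inr (Or.inr (Or.inr (Or.inr (Or.inr H36))))))
  have E37 : (0 ≤ b1 + b2 - 1 ∧ 0 ≤ hp - 1) ∨ (0 ≤ b1 + b2 - 1 ∧ 0 ≤ -hp ∧ 0 ≤ hp ∧ 0 ≤ n3 - b3 - 1) ∨ (0 ≤ b1 + b2 - 1 ∧ 0 ≤ -hp ∧ 0 ≤ hp ∧ 0 ≤ -n3 + b3 ∧ 0 ≤ n3 - b3 ∧ 0 ≤ -e - p1 - 1) ∨ 0 ≤ h3 - 1 ∨ 0 ≤ h - 1 ∨ (0 ≤ -h ∧ 0 ≤ h ∧ 0 ≤ -m + 1 ∧ 0 ≤ m - 1 ∧ 0 ≤ -p2 - 1) := by
    rcases D37 with (H37 | H37 | H37) | H37 | (H37 | H37 | H37)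
    · exact Or.inl H37
    · exact Or.inr (Or.inl H37)
    · exact Or.inr (Or.inr (Or.inl H37))
    · exact Or.inr (Or.inr (Or.inr (Or.inl H37)))
    · exact Or.inr (Or.inr (Or.inr (Or.inr (Or.inl H37))))
    · linarith only [B34, H37.2.2]
    · exact Or.inr (Or.inr (Or.inr (Or.inr (Or.inr H37))))
  have H16 := E16
  rcases E11 with H11 | H11
  · rcases E32 with H32 | H32
    · rcases E3 with H3 | H3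
      · rcases E31 with H31 | H31
        · linarith only [H32, H31]
        · rcases E34 with H34 | H34 | H34
          · rcases E37 with H37 | H37 | H37 | H37 | H37 | H37
            · linarith only [H37.2, B36, H34]
            · linarith only [H37.2.2.1, H34, B36]
            · linarith only [H11.1, H37.2.2.2.1]
            · linarith only [H32, H37]
            · linarith only [H3, B32, H32, H37]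
            · linarith only [H37.2.2.2.2, H16.2]
          · linarith only [H34, B25, H31]
          · linarith only [H11.1, H34]
      · linarith only [B22, H32, B4, B16, H3, B25, B2]
    · rcases E4 with H4 | H4
      · linarith only [H4, B7, B22, H32, B16, B25, B6]
      · linarith only [B2, B7, B22, H32, B16, B25, H4]
  · rcases E32 with H32 | H32
    · rcases E3 with H3 | H3
      · rcases E36 with H36 | H36 | H36 | H36 | H36 | H36 | H36 | H36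
        · linarith only [H3, B22, H36.2, H32, B26]
        · linarith only [H36.2.2.2, H11.2]
        · linarith only [H36.2.2.2.2.1, H11.2]
        · linarith only [H32, H36]
        · rcases E37 with H37 | H37 | H37 | H37 | H37 | H37
          · linarith only [H3, B22, H37.2, H32, B26]
          · rcases E35 with H35 | H35 | H35
            · linarith only [H37.2.2.1, H35, B36]
            · linarith only [H35, H36.2.2]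
            · linarith only [H37.2.2.2, H35]
          · linarith only [H37.2.2.2.2.2, H11.2]
          · linarith only [H32, H37]
          · linarith only [H3, B32, H32, H37]
          · linarith only [H37.2.2.2.2, H16.2]
        · linarith only [H3, B32, H32, H36]
        · linarith only [H36.2.2, H16.2]
        · linarith only [H36.2.2.2.1, H16.2]
      · linarith only [B16, B2, B4, B22, H3, B25, H32]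
    · rcases E4 with H4 | H4
      · linarith only [B16, B22, B6, H32, B7, B25, H4]
      · linarith only [B16, B2, B22, H32, B7, B25, H4]

theorem g5 {a1 a2 a3 b1 b2 b3 e h h3 hp k m n1 n2 n3 p1 p2 p3 : ℤ}
    (B2 : 0 ≤ a3)
    (B4 : 0 ≤ b2)
    (B6 : 0 ≤ n1 - a1)
    (B7 : 0 ≤ n2 - a2)
    (B16 : 0 ≤ a1 + a2 - b1 - b2 - e)
    (B22 : 0 ≤ -a1 + b1)
    (B25 : 0 ≤ e - 2)
    (B32 : 0 ≤ n1 - a1 - h)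
    (B34 : 0 ≤ -m + 1)
    (B36 : 0 ≤ h3)
    (B37 : 0 ≤ b1 + b2 - 1)
    (B38 : 0 ≤ -e - p1 - 1)
    (D0 : (0 ≤ a1 - 1 ∧ 0 ≤ n2 - a2 - 1) ∨ (0 ≤ b1 - 1 ∧ 0 ≤ n2 - b2 - 1))
    (D3 : 0 ≤ h3 - n1 + a1 ∨ 0 ≤ h3 - a2 - a3 + 1)
    (D4 : 0 ≤ k - n1 + a1 - n2 + a2 ∨ 0 ≤ k - a3 + 1)
    (D11 : (0 ≤ n3 - b3 - 2 ∧ 0 ≤ -2 * e - p1) ∨ (0 ≤ -n3 + b3 + 1 ∧ 0 ≤ p1 + e))
    (D16 : (0 ≤ m - 2 ∧ 0 ≤ -e - p2) ∨ (0 ≤ -m + 1 ∧ 0 ≤ p2))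
    (D19 : (0 ≤ n2 - b2 + n3 - b3 - 3 ∧ 0 ≤ -2 * e - p3) ∨ (0 ≤ -n2 + b2 - n3 + b3 + 2 ∧ 0 ≤ p3 + e))
    (D31 : 0 ≤ h3 - 1 ∨ 0 ≤ k - e)
    (D33 : 0 ≤ -b1 ∨ 0 ≤ -h3 ∨ 0 ≤ -n2 + b2 - k - e ∨ 0 ≤ -n2 + b2 - n3 + b3 + 2)
    (D35 : 0 ≤ -b1 - b2 ∨ 0 ≤ -hp - h3 - 1 ∨ 0 ≤ -k ∨ 0 ≤ -n3 + b3 + 1)
    (D37 : ((0 ≤ b1 + b2 - 1 ∧ 0 ≤ hp - 1) ∨ (0 ≤ b1 + b2 - 1 ∧ 0 ≤ -hp ∧ 0 ≤ hp ∧ 0 ≤ n3 - b3 - 1) ∨ (0 ≤ b1 + b2 - 1 ∧ 0 ≤ -hp ∧ 0 ≤ hp ∧ 0 ≤ -n3 + b3 ∧ 0 ≤ n3 - b3 ∧ 0 ≤ -e - p1 - 1)) ∨ (0 ≤ h3 - 1) ∨ (0 ≤ h - 1 ∨ (0 ≤ -h ∧ 0 ≤ h ∧ 0 ≤ m - 2) ∨ (0 ≤ -h ∧ 0 ≤ h ∧ 0 ≤ -m + 1 ∧ 0 ≤ m - 1 ∧ 0 ≤ -p2 - 1))) : False := by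
  have E0 := D0
  have E3 := D3
  have E4 := D4
  have E11 : (0 ≤ n3 - b3 - 2 ∧ 0 ≤ -2 * e - p1) := by
    rcases D11 with H11 | H11
    · exact H11
    · linarith only [B38, H11.2]
  have E16 : (0 ≤ -m + 1 ∧ 0 ≤ p2) := by
    rcases D16 with H16 | H16
    · linarith only [B34, H16.1]
    · exact H16
  have E19 := D19
  have E31 := D31
  have E33 := D33
  have E35 : 0 ≤ -hp - h3 - 1 ∨ 0 ≤ -k ∨ 0 ≤ -n3 + b3 + 1 := by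
    rcases D35 with H35 | H35 | H35 | H35
    · linarith only [H35, B37]
    · exact Or.inl H35
    · exact Or.inr (Or.inl H35)
    · exact Or.inr (Or.inr H35)
  have E37 : (0 ≤ b1 + b2 - 1 ∧ 0 ≤ hp - 1) ∨ (0 ≤ b1 + b2 - 1 ∧ 0 ≤ -hp ∧ 0 ≤ hp ∧ 0 ≤ n3 - b3 - 1) ∨ (0 ≤ b1 + b2 - 1 ∧ 0 ≤ -hp ∧ 0 ≤ hp ∧ 0 ≤ -n3 + b3 ∧ 0 ≤ n3 - b3 ∧ 0 ≤ -e - p1 - 1) ∨ 0 ≤ h3 - 1 ∨ 0 ≤ h - 1 ∨ (0 ≤ -h ∧ 0 ≤ h ∧ 0 ≤ -m + 1 ∧ 0 ≤ m - 1 ∧ 0 ≤ -p2 - 1) := by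
    rcases D37 with (H37 | H37 | H37) | H37 | (H37 | H37 | H37)
    · exact Or.inl H37
    · exact Or.inr (Or.inl H37)
    · exact Or.inr (Or.inr (Or.inl H37))
    · exact Or.inr (Or.inr (Or.inr (Or.inl H37)))
    · exact Or.inr (Or.inr (Or.inr (Or.inr (Or.inl H37))))
    · linarith only [B34, H37.2.2]
    · exact Or.inr (Or.inr (Or.inr (Or.inr (Or.inr H37))))
  have H11 := E11
  have H16 := E16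
  rcases E19 with H19 | H19
  · rcases E33 with H33 | H33 | H33 | H33
    · rcases E0 with H0 | H0
      · linarith only [B22, H33, H0.1]
      · linarith only [H33, H0.1]
    · rcases E3 with H3 | H3
      · rcases E31 with H31 | H31
        · linarith only [H33, H31]
        · rcases E35 with H35 | H35 | H35
          · rcases E37 with H37 | H37 | H37 | H37 | H37 | H37
            · linarith only [H37.2, B36, H35]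
            · linarith only [H37.2.2.1, H35, B36]
            · linarith only [H11.1, H37.2.2.2.1]
            · linarith only [H33, H37]
            · linarith only [H3, B32, H33, H37]
            · linarith only [H16.2, H37.2.2.2.2]
          · linarith only [H35, B25, H31]
          · linarith only [H11.1, H35]
      · linarith only [B16, H33, B22, B4, H3, B25, B2]
    · rcases E4 with H4 | H4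
      · linarith only [B7, B22, B6, H33, B16, B25, H4]
      · linarith only [B7, B2, B22, H33, B16, B25, H4]
    · linarith only [H19.1, H33]
  · linarith only [B16, H19.1, B7, H11.1, B25, B22]

theorem g6 {a1 a2 a3 b1 b2 b3 e h h3 hp k m n1 n2 n3 p1 p2 : ℤ}
    (B4 : 0 ≤ b2)
    (B7 : 0 ≤ n2 - a2)
    (B11 : 0 ≤ n3 - b3)
    (B12 : 0 ≤ n1 - 1)
    (B16 : 0 ≤ a1 + a2 - b1 - b2 - e)
    (B22 : 0 ≤ -a1 + b1)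
    (B25 : 0 ≤ e - 2)
    (B26 : 0 ≤ n1 - b1 - hp)
    (B31 : 0 ≤ a3 - k - 1)
    (B32 : 0 ≤ n1 - a1 - h)
    (B34 : 0 ≤ -m + 1)
    (B36 : 0 ≤ h3)
    (B37 : 0 ≤ k - e)
    (D0 : (0 ≤ a1 - 1 ∧ 0 ≤ n2 - a2 - 1) ∨ (0 ≤ b1 - 1 ∧ 0 ≤ n2 - b2 - 1))
    (D3 : 0 ≤ h3 - n1 + a1 ∨ 0 ≤ h3 - a2 - a3 + 1)
    (D11 : (0 ≤ n3 - b3 - 2 ∧ 0 ≤ -2 * e - p1) ∨ (0 ≤ -n3 + b3 + 1 ∧ 0 ≤ p1 + e))
    (D16 : (0 ≤ m - 2 ∧ 0 ≤ -e - p2) ∨ (0 ≤ -m + 1 ∧ 0 ≤ p2))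
    (D33 : 0 ≤ -b1 ∨ 0 ≤ -h3 ∨ 0 ≤ -n2 + b2 - k ∨ 0 ≤ -n2 + b2 - n3 + b3 + 1)
    (D35 : 0 ≤ -b1 - b2 ∨ 0 ≤ -hp - h3 - 1 ∨ 0 ≤ -k ∨ 0 ≤ -n3 + b3 + 1)
    (D36 : 0 ≤ -b1 - b2 ∨ 0 ≤ -hp - h3 - 1 ∨ 0 ≤ e - k ∨ 0 ≤ -n3 + b3)
    (D37 : ((0 ≤ b1 + b2 - 1 ∧ 0 ≤ hp - 1) ∨ (0 ≤ b1 + b2 - 1 ∧ 0 ≤ -hp ∧ 0 ≤ hp ∧ 0 ≤ -e - p1 - 2) ∨ (0 ≤ b1 + b2 - 1 ∧ 0 ≤ -hp ∧ 0 ≤ hp ∧ 0 ≤ e + p1 + 1 ∧ 0 ≤ -e - p1 - 1 ∧ 0 ≤ n3 - b3)) ∨ (0 ≤ h3 - 1 ∨ (0 ≤ -h3 ∧ 0 ≤ h3 ∧ 0 ≤ k - e - 1)) ∨ (0 ≤ h - 1 ∨ (0 ≤ -h ∧ 0 ≤ h ∧ 0 ≤ -p2 - 2) ∨ (0 ≤ -h ∧ 0 ≤ h ∧ 0 ≤ p2 + 1 ∧ 0 ≤ -p2 - 1 ∧ 0 ≤ m - 1)))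
    (D38 : ((0 ≤ b1 + b2 - 1 ∧ 0 ≤ hp - 1) ∨ (0 ≤ b1 + b2 - 1 ∧ 0 ≤ -hp ∧ 0 ≤ hp ∧ 0 ≤ n3 - b3 - 1) ∨ (0 ≤ b1 + b2 - 1 ∧ 0 ≤ -hp ∧ 0 ≤ hp ∧ 0 ≤ -n3 + b3 ∧ 0 ≤ n3 - b3 ∧ 0 ≤ -e - p1 - 1)) ∨ (0 ≤ h3 - 1) ∨ (0 ≤ h - 1 ∨ (0 ≤ -h ∧ 0 ≤ h ∧ 0 ≤ m - 2) ∨ (0 ≤ -h ∧ 0 ≤ h ∧ 0 ≤ -m + 1 ∧ 0 ≤ m - 1 ∧ 0 ≤ -p2 - 1))) : False := by
  have E0 := D0
  have E3 := D3
  have E11 := D11
  have E16 : (0 ≤ -m + 1 ∧ 0 ≤ p2) := by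
    rcases D16 with H16 | H16
    · linarith only [B34, H16.1]
    · exact H16
  have E33 : 0 ≤ -b1 ∨ 0 ≤ -h3 := by
    rcases D33 with H33 | H33 | H33 | H33
    · exact Or.inl H33
    · exact Or.inr H33
    · linarith only [B25, B37, B7, B22, H33, B16]
    · linarith only [B25, H33, B22, B7, B11, B16]
  have E35 : 0 ≤ -b1 - b2 ∨ 0 ≤ -hp - h3 - 1 ∨ 0 ≤ -n3 + b3 + 1 := by
    rcases D35 with H35 | H35 | H35 | H35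
    · exact Or.inl H35
    · exact Or.inr (Or.inl H35)
    · linarith only [B25, B37, H35]
    · exact Or.inr (Or.inr H35)
  have E36 := D36
  have E37 : (0 ≤ b1 + b2 - 1 ∧ 0 ≤ hp - 1) ∨ (0 ≤ b1 + b2 - 1 ∧ 0 ≤ -hp ∧ 0 ≤ hp ∧ 0 ≤ -e - p1 - 2) ∨ (0 ≤ b1 + b2 - 1 ∧ 0 ≤ -hp ∧ 0 ≤ hp ∧ 0 ≤ e + p1 + 1 ∧ 0 ≤ -e - p1 - 1 ∧ 0 ≤ n3 - b3) ∨ 0 ≤ h3 - 1 ∨ (0 ≤ -h3 ∧ 0 ≤ h3 ∧ 0 ≤ k - e - 1) ∨ 0 ≤ h - 1 ∨ (0 ≤ -h ∧ 0 ≤ h ∧ 0 ≤ -p2 - 2) ∨ (0 ≤ -h ∧ 0 ≤ h ∧ 0 ≤ p2 + 1 ∧ 0 ≤ -p2 - 1 ∧ 0 ≤ m - 1) := by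
    rcases D37 with (H37 | H37 | H37) | (H37 | H37) | (H37 | H37 | H37)
    · exact Or.inl H37
    · exact Or.inr (Or.inl H37)
    · exact Or.inr (Or.inr (Or.inl H37))
    · exact Or.inr (Or.inr (Or.inr (Or.inl H37)))
    · exact Or.inr (Or.inr (Or.inr (Or.inr (Or.inl H37))))
    · exact Or.inr (Or.inr (Or.inr (Or.inr (Or.inr (Or.inl H37)))))
    · exact Or.inr (Or.inr (Or.inr (Or.inr (Or.inr (Or.inr (Or.inl H37))))))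
    · exact Or.inr (Or.inr (Or.inr (Or.inr (Or.inr (Or.inr (Or.inr H37))))))
  have E38 : (0 ≤ b1 + b2 - 1 ∧ 0 ≤ hp - 1) ∨ (0 ≤ b1 + b2 - 1 ∧ 0 ≤ -hp ∧ 0 ≤ hp ∧ 0 ≤ n3 - b3 - 1) ∨ (0 ≤ b1 + b2 - 1 ∧ 0 ≤ -hp ∧ 0 ≤ hp ∧ 0 ≤ -n3 + b3 ∧ 0 ≤ n3 - b3 ∧ 0 ≤ -e - p1 - 1) ∨ 0 ≤ h3 - 1 ∨ 0 ≤ h - 1 ∨ (0 ≤ -h ∧ 0 ≤ h ∧ 0 ≤ -m + 1 ∧ 0 ≤ m - 1 ∧ 0 ≤ -p2 - 1) := by
    rcases D38 with (H38 | H38 | H38) | H38 | (H38 | H38 | H38)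
    · exact Or.inl H38
    · exact Or.inr (Or.inl H38)
    · exact Or.inr (Or.inr (Or.inl H38))
    · exact Or.inr (Or.inr (Or.inr (Or.inl H38)))
    · exact Or.inr (Or.inr (Or.inr (Or.inr (Or.inl H38))))
    · linarith only [B34, H38.2.2]
    · exact Or.inr (Or.inr (Or.inr (Or.inr (Or.inr H38))))
  have H16 := E16
  rcases E11 with H11 | H11
  · rcases E33 with H33 | H33
    · rcases E0 with H0 | H0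
      · linarith only [H0.1, B22, H33]
      · linarith only [H0.1, H33]
    · rcases E3 with H3 | H3
      · rcases E35 with H35 | H35 | H35
        · linarith only [H33, H3, H35, B22, B12, B4]
        · rcases E38 with H38 | H38 | H38 | H38 | H38 | H38
          · linarith only [H38.2, B36, H35]
          · linarith only [H38.2.2.1, H35, B36]
          · linarith only [H11.1, H38.2.2.2.1]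
          · linarith only [H33, H38]
          · linarith only [H3, B32, H33, H38]
          · linarith only [H16.2, H38.2.2.2.2]
        · linarith only [H11.1, H35]
      · linarith only [B31, B16, B37, B22, B4, H3, B25, H33]
  · rcases E33 with H33 | H33
    · rcases E0 with H0 | H0
      · linarith only [H33, H0.1, B22]
      · linarith only [H33, H0.1]
    · rcases E3 with H3 | H3
      · rcases E37 with H37 | H37 | H37 | H37 | H37 | H37 | H37 | H37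
        · linarith only [H3, B22, H37.2, H33, B26]
        · linarith only [H37.2.2.2, H11.2]
        · linarith only [H37.2.2.2.2.1, H11.2]
        · linarith only [H33, H37]
        · rcases E38 with H38 | H38 | H38 | H38 | H38 | H38
          · linarith only [H3, B22, H38.2, H33, B26]
          · rcases E36 with H36 | H36 | H36 | H36
            · linarith only [H36, H38.1]
            · linarith only [H38.2.2.1, H36, B36]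
            · linarith only [H36, H37.2.2]
            · linarith only [H38.2.2.2, H36]
          · linarith only [H38.2.2.2.2.2, H11.2]
          · linarith only [H33, H38]
          · linarith only [H3, B32, H33, H38]
          · linarith only [H16.2, H38.2.2.2.2]
        · linarith only [H3, B32, H33, H37]
        · linarith only [H16.2, H37.2.2]
        · linarith only [H16.2, H37.2.2.2.1]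
      · linarith only [B16, B37, B4, B22, H3, B31, B25, H33]

theorem g7 {e m p2 : ℤ}
    (B34 : 0 ≤ -m + 1)
    (B37 : 0 ≤ -p2 - 1)
    (D16 : (0 ≤ m - 2 ∧ 0 ≤ -e - p2) ∨ (0 ≤ -m + 1 ∧ 0 ≤ p2)) : False := by
  have E16 : False := by
    rcases D16 with H16 | H16
    · linarith only [B34, H16.1]
    · linarith only [B37, H16.2]
  exact E16

theorem g8 {a1 a2 a3 b1 b2 b3 e h h3 k m n1 n2 n3 p2 : ℤ}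
    (B2 : 0 ≤ a3)
    (B7 : 0 ≤ n2 - a2)
    (B11 : 0 ≤ n3 - b3)
    (B16 : 0 ≤ a1 + a2 - b1 - b2 - e)
    (B22 : 0 ≤ -a1 + b1)
    (B25 : 0 ≤ e - 2)
    (B32 : 0 ≤ n1 - a1 - h)
    (B33 : 0 ≤ a2 - h - 1)
    (B34 : 0 ≤ -m + 1)
    (B37 : 0 ≤ b1 - 1)
    (D3 : 0 ≤ h3 - n1 + a1 ∨ 0 ≤ h3 - a2 - a3 + 1)
    (D4 : 0 ≤ k - n1 + a1 - n2 + a2 ∨ 0 ≤ k - a3 + 1)
    (D16 : (0 ≤ m - 2 ∧ 0 ≤ -e - p2) ∨ (0 ≤ -m + 1 ∧ 0 ≤ p2))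
    (D31 : 0 ≤ h - 1 ∨ 0 ≤ -p2 - 1)
    (D32 : 0 ≤ -b1 ∨ 0 ≤ -h3 ∨ 0 ≤ -n2 + b2 - k ∨ 0 ≤ -n2 + b2 - n3 + b3 + 1) : False := by
  have E3 := D3
  have E4 := D4
  have E16 : (0 ≤ -m + 1 ∧ 0 ≤ p2) := by
    rcases D16 with H16 | H16
    · linarith only [B34, H16.1]
    · exact H16
  have E31 := D31
  have E32 : 0 ≤ -h3 ∨ 0 ≤ -n2 + b2 - k := by
    rcases D32 with H32 | H32 | H32 | H32
    · linarith only [H32, B37]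
    · exact Or.inl H32
    · exact Or.inr H32
    · linarith only [B25, H32, B22, B7, B11, B16]
  have H16 := E16
  rcases E31 with H31 | H31
  · rcases E32 with H32 | H32
    · rcases E3 with H3 | H3
      · linarith only [B32, H32, H31, H3]
      · linarith only [B2, B33, H31, H3, H32]
    · rcases E4 with H4 | H4
      · linarith only [B16, B32, B22, H31, H32, B7, B25, H4]
      · linarith only [B16, B2, B22, H32, B7, B25, H4]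
  · linarith only [H31, H16.2]

theorem g9 {a1 a2 a3 b1 b2 b3 e h h3 k m n1 n2 n3 p1 p2 p3 : ℤ}
    (B2 : 0 ≤ a3)
    (B7 : 0 ≤ n2 - a2)
    (B16 : 0 ≤ a1 + a2 - b1 - b2 - e)
    (B22 : 0 ≤ -a1 + b1)
    (B25 : 0 ≤ e - 2)
    (B32 : 0 ≤ n1 - a1 - h)
    (B33 : 0 ≤ a2 - h - 1)
    (B34 : 0 ≤ -m + 1)
    (B38 : 0 ≤ -e - p1 - 1)
    (D0 : (0 ≤ a1 - 1 ∧ 0 ≤ n2 - a2 - 1) ∨ (0 ≤ b1 - 1 ∧ 0 ≤ n2 - b2 - 1))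
    (D3 : 0 ≤ h3 - n1 + a1 ∨ 0 ≤ h3 - a2 - a3 + 1)
    (D4 : 0 ≤ k - n1 + a1 - n2 + a2 ∨ 0 ≤ k - a3 + 1)
    (D11 : (0 ≤ n3 - b3 - 2 ∧ 0 ≤ -2 * e - p1) ∨ (0 ≤ -n3 + b3 + 1 ∧ 0 ≤ p1 + e))
    (D16 : (0 ≤ m - 2 ∧ 0 ≤ -e - p2) ∨ (0 ≤ -m + 1 ∧ 0 ≤ p2))
    (D19 : (0 ≤ n2 - b2 + n3 - b3 - 3 ∧ 0 ≤ -2 * e - p3) ∨ (0 ≤ -n2 + b2 - n3 + b3 + 2 ∧ 0 ≤ p3 + e))
    (D31 : 0 ≤ h - 1 ∨ 0 ≤ -p2 - 1)
    (D33 : 0 ≤ -b1 ∨ 0 ≤ -h3 ∨ 0 ≤ -n2 + b2 - k - e ∨ 0 ≤ -n2 + b2 - n3 + b3 + 2) : False := by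
  have E0 := D0
  have E3 := D3
  have E4 := D4
  have E11 : (0 ≤ n3 - b3 - 2 ∧ 0 ≤ -2 * e - p1) := by
    rcases D11 with H11 | H11
    · exact H11
    · linarith only [B38, H11.2]
  have E16 : (0 ≤ -m + 1 ∧ 0 ≤ p2) := by
    rcases D16 with H16 | H16
    · linarith only [B34, H16.1]
    · exact H16
  have E19 := D19
  have E31 := D31
  have E33 := D33
  have H11 := E11
  have H16 := E16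
  rcases E31 with H31 | H31
  · rcases E19 with H19 | H19
    · rcases E33 with H33 | H33 | H33 | H33
      · rcases E0 with H0 | H0
        · linarith only [B22, H33, H0.1]
        · linarith only [H33, H0.1]
      · rcases E3 with H3 | H3
        · linarith only [H3, B32, H33, H31]
        · linarith only [B33, H33, H31, H3, B2]
      · rcases E4 with H4 | H4
        · linarith only [B7, B32, B22, H31, H33, B16, B25, H4]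
        · linarith only [B7, B2, B22, H33, B16, B25, H4]
      · linarith only [H19.1, H33]
    · linarith only [B16, H19.1, B7, H11.1, B25, B22]
  · linarith only [H16.2, H31]

theorem g10 {a1 a2 a3 b1 b2 b3 e h h3 k m n1 n2 n3 p2 : ℤ}
    (B7 : 0 ≤ n2 - a2)
    (B11 : 0 ≤ n3 - b3)
    (B16 : 0 ≤ a1 + a2 - b1 - b2 - e)
    (B22 : 0 ≤ -a1 + b1)
    (B25 : 0 ≤ e - 2)
    (B31 : 0 ≤ a3 - k - 1)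
    (B32 : 0 ≤ n1 - a1 - h)
    (B33 : 0 ≤ a2 - h - 1)
    (B34 : 0 ≤ -m + 1)
    (B37 : 0 ≤ k - e)
    (D0 : (0 ≤ a1 - 1 ∧ 0 ≤ n2 - a2 - 1) ∨ (0 ≤ b1 - 1 ∧ 0 ≤ n2 - b2 - 1))
    (D3 : 0 ≤ h3 - n1 + a1 ∨ 0 ≤ h3 - a2 - a3 + 1)
    (D16 : (0 ≤ m - 2 ∧ 0 ≤ -e - p2) ∨ (0 ≤ -m + 1 ∧ 0 ≤ p2))
    (D31 : 0 ≤ h - 1 ∨ 0 ≤ -p2 - 1)
    (D33 : 0 ≤ -b1 ∨ 0 ≤ -h3 ∨ 0 ≤ -n2 + b2 - k ∨ 0 ≤ -n2 + b2 - n3 + b3 + 1) : False := by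
  have E0 := D0
  have E3 := D3
  have E16 : (0 ≤ -m + 1 ∧ 0 ≤ p2) := by
    rcases D16 with H16 | H16
    · linarith only [B34, H16.1]
    · exact H16
  have E31 := D31
  have E33 : 0 ≤ -b1 ∨ 0 ≤ -h3 := by
    rcases D33 with H33 | H33 | H33 | H33
    · exact Or.inl H33
    · exact Or.inr H33
    · linarith only [B25, B37, B7, B22, H33, B16]
    · linarith only [B25, H33, B22, B7, B11, B16]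
  have H16 := E16
  rcases E31 with H31 | H31
  · rcases E33 with H33 | H33
    · rcases E0 with H0 | H0
      · linarith only [H33, H0.1, B22]
      · linarith only [H33, H0.1]
    · rcases E3 with H3 | H3
      · linarith only [H3, B32, H33, H31]
      · linarith only [B37, H31, B33, H3, B31, B25, H33]
  · linarith only [H16.2, H31]

theorem g11 {e m p2 : ℤ}
    (B34 : 0 ≤ -m + 1)
    (B37 : 0 ≤ -p2 - 1)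
    (D16 : (0 ≤ m - 2 ∧ 0 ≤ -e - p2) ∨ (0 ≤ -m + 1 ∧ 0 ≤ p2)) : False := by
  have E16 : False := by
    rcases D16 with H16 | H16
    · linarith only [B34, H16.1]
    · linarith only [B37, H16.2]
  exact E16

theorem los11 {n1 n2 n3 a1 a2 a3 b1 b2 b3 e y : ℤ}
    (B0 : 0 ≤ a1)
    (B1 : 0 ≤ a2)
    (B2 : 0 ≤ a3)
    (B3 : 0 ≤ b1)
    (B4 : 0 ≤ b2)
    (B5 : 0 ≤ b3)
    (B6 : 0 ≤ n1 - a1)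
    (B7 : 0 ≤ n2 - a2)
    (B8 : 0 ≤ n3 - a3)
    (B9 : 0 ≤ n1 - b1)
    (B10 : 0 ≤ n2 - b2)
    (B11 : 0 ≤ n3 - b3)
    (B12 : 0 ≤ n1 - 1)
    (B13 : 0 ≤ n2 - 1)
    (B14 : 0 ≤ n3 - 1)
    (B15 : 0 ≤ e - a1 - a2 + b1 + b2)
    (B16 : 0 ≤ a1 + a2 - b1 - b2 - e)
    (B17 : 0 ≤ e - 1)
    (B18 : 0 ≤ y + a1 + a2 + a3 - b1 - b2 - b3)
    (B19 : 0 ≤ -a1 - a2 - a3 + b1 + b2 + b3 - y)
    (B20 : 0 ≤ y - 1)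
    (B21 : 0 ≤ a1 - b1)
    (B22 : 0 ≤ -a1 + b1)
    (B23 : 0 ≤ y - 1)
    (B24 : 0 ≤ -y + 1)
    (B25 : 0 ≤ e - 2)
    (hex : 0 ≤ b1 - 1) :
    LosC n1 n2 n3 a1 a2 a3 b1 b2 b3 (1) (-n2 + b2 + e + 1) (-n2 + b2 - n3 + b3) := by
  unfold LosC
  refine ⟨?_, ?_, ?_, ?_, ?_, ?_, ?_, ?_⟩ <;> omega

theorem los22 {n1 n2 n3 a1 a2 a3 b1 b2 b3 e y hp : ℤ}
    (B0 : 0 ≤ a1)
    (B1 : 0 ≤ a2)
    (B2 : 0 ≤ a3)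
    (B3 : 0 ≤ b1)
    (B4 : 0 ≤ b2)
    (B5 : 0 ≤ b3)
    (B6 : 0 ≤ n1 - a1)
    (B7 : 0 ≤ n2 - a2)
    (B8 : 0 ≤ n3 - a3)
    (B9 : 0 ≤ n1 - b1)
    (B10 : 0 ≤ n2 - b2)
    (B11 : 0 ≤ n3 - b3)
    (B12 : 0 ≤ n1 - 1)
    (B13 : 0 ≤ n2 - 1)
    (B14 : 0 ≤ n3 - 1)
    (B15 : 0 ≤ e - a1 - a2 + b1 + b2)
    (B16 : 0 ≤ a1 + a2 - b1 - b2 - e)
    (B17 : 0 ≤ e - 1)
    (B18 : 0 ≤ y + a1 + a2 + a3 - b1 - b2 - b3)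
    (B19 : 0 ≤ -a1 - a2 - a3 + b1 + b2 + b3 - y)
    (B20 : 0 ≤ y - 1)
    (B21 : 0 ≤ a1 - b1)
    (B22 : 0 ≤ -a1 + b1)
    (B23 : 0 ≤ y - 1)
    (B24 : 0 ≤ -y + 1)
    (B25 : 0 ≤ e - 2)
    (B26 : 0 ≤ n1 - b1 - hp)
    (B27 : 0 ≤ b2 - hp - 1)
    (C_Dhp : 0 ≤ hp - n1 + b1 ∨ 0 ≤ hp - b2 + 1)
    (hex : 0 ≤ b1 + b2 - 1) :
    LosC n1 n2 n3 a1 a2 a3 b1 b2 b3 (-hp) (e + 1) (-n3 + b3) := by
  unfold LosC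
  refine ⟨?_, ?_, ?_, ?_, ?_, ?_, ?_, ?_⟩ <;> omega

theorem los33 {n1 n2 n3 a1 a2 a3 b1 b2 b3 e y h3 k : ℤ}
    (B0 : 0 ≤ a1)
    (B1 : 0 ≤ a2)
    (B2 : 0 ≤ a3)
    (B3 : 0 ≤ b1)
    (B4 : 0 ≤ b2)
    (B5 : 0 ≤ b3)
    (B6 : 0 ≤ n1 - a1)
    (B7 : 0 ≤ n2 - a2)
    (B8 : 0 ≤ n3 - a3)
    (B9 : 0 ≤ n1 - b1)
    (B10 : 0 ≤ n2 - b2)
    (B11 : 0 ≤ n3 - b3)
    (B12 : 0 ≤ n1 - 1)
    (B13 : 0 ≤ n2 - 1)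
    (B14 : 0 ≤ n3 - 1)
    (B15 : 0 ≤ e - a1 - a2 + b1 + b2)
    (B16 : 0 ≤ a1 + a2 - b1 - b2 - e)
    (B17 : 0 ≤ e - 1)
    (B18 : 0 ≤ y + a1 + a2 + a3 - b1 - b2 - b3)
    (B19 : 0 ≤ -a1 - a2 - a3 + b1 + b2 + b3 - y)
    (B20 : 0 ≤ y - 1)
    (B21 : 0 ≤ a1 - b1)
    (B22 : 0 ≤ -a1 + b1)
    (B23 : 0 ≤ y - 1)
    (B24 : 0 ≤ -y + 1)
    (B25 : 0 ≤ e - 2)
    (B28 : 0 ≤ n1 - a1 - h3)
    (B29 : 0 ≤ a2 + a3 - h3 - 1)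
    (B30 : 0 ≤ n1 - a1 + n2 - a2 - k)
    (B31 : 0 ≤ a3 - k - 1)
    (C_Dh3 : 0 ≤ h3 - n1 + a1 ∨ 0 ≤ h3 - a2 - a3 + 1)
    (C_Dk : 0 ≤ k - n1 + a1 - n2 + a2 ∨ 0 ≤ k - a3 + 1) :
    LosC n1 n2 n3 a1 a2 a3 b1 b2 b3 (-h3) (-k) (1) := by
  unfold LosC
  refine ⟨?_, ?_, ?_, ?_, ?_, ?_, ?_, ?_⟩ <;> omega

theorem los23 {n1 n2 n3 a1 a2 a3 b1 b2 b3 e y h m : ℤ}
    (B0 : 0 ≤ a1)
    (B1 : 0 ≤ a2)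
    (B2 : 0 ≤ a3)
    (B3 : 0 ≤ b1)
    (B4 : 0 ≤ b2)
    (B5 : 0 ≤ b3)
    (B6 : 0 ≤ n1 - a1)
    (B7 : 0 ≤ n2 - a2)
    (B8 : 0 ≤ n3 - a3)
    (B9 : 0 ≤ n1 - b1)
    (B10 : 0 ≤ n2 - b2)
    (B11 : 0 ≤ n3 - b3)
    (B12 : 0 ≤ n1 - 1)
    (B13 : 0 ≤ n2 - 1)
    (B14 : 0 ≤ n3 - 1)
    (B15 : 0 ≤ e - a1 - a2 + b1 + b2)
    (B16 : 0 ≤ a1 + a2 - b1 - b2 - e)
    (B17 : 0 ≤ e - 1)
    (B18 : 0 ≤ y + a1 + a2 + a3 - b1 - b2 - b3)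
    (B19 : 0 ≤ -a1 - a2 - a3 + b1 + b2 + b3 - y)
    (B20 : 0 ≤ y - 1)
    (B21 : 0 ≤ a1 - b1)
    (B22 : 0 ≤ -a1 + b1)
    (B23 : 0 ≤ y - 1)
    (B24 : 0 ≤ -y + 1)
    (B25 : 0 ≤ e - 2)
    (B32 : 0 ≤ n1 - a1 - h)
    (B33 : 0 ≤ a2 - h - 1)
    (B34 : 0 ≤ -m + 1)
    (B35 : 0 ≤ n3 - a3 - m)
    (C_Dh : 0 ≤ h - n1 + a1 ∨ 0 ≤ h - a2 + 1)
    (C_Dm : 0 ≤ m - 1 ∨ 0 ≤ m - n3 + a3) :
    LosC n1 n2 n3 a1 a2 a3 b1 b2 b3 (-h) (1) (-m + 1) := by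
  unfold LosC
  refine ⟨?_, ?_, ?_, ?_, ?_, ?_, ?_, ?_⟩ <;> omega

theorem hd {n1 n2 n3 a1 a2 a3 b1 b2 b3 e y hp h3 k h m : ℤ}
    (B0 : 0 ≤ a1)
    (B1 : 0 ≤ a2)
    (B2 : 0 ≤ a3)
    (B3 : 0 ≤ b1)
    (B4 : 0 ≤ b2)
    (B5 : 0 ≤ b3)
    (B6 : 0 ≤ n1 - a1)
    (B7 : 0 ≤ n2 - a2)
    (B8 : 0 ≤ n3 - a3)
    (B9 : 0 ≤ n1 - b1)
    (B10 : 0 ≤ n2 - b2)
    (B11 : 0 ≤ n3 - b3)
    (B12 : 0 ≤ n1 - 1)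
    (B13 : 0 ≤ n2 - 1)
    (B14 : 0 ≤ n3 - 1)
    (B15 : 0 ≤ e - a1 - a2 + b1 + b2)
    (B16 : 0 ≤ a1 + a2 - b1 - b2 - e)
    (B17 : 0 ≤ e - 1)
    (B18 : 0 ≤ y + a1 + a2 + a3 - b1 - b2 - b3)
    (B19 : 0 ≤ -a1 - a2 - a3 + b1 + b2 + b3 - y)
    (B20 : 0 ≤ y - 1)
    (B21 : 0 ≤ a1 - b1)
    (B22 : 0 ≤ -a1 + b1)
    (B23 : 0 ≤ y - 1)
    (B24 : 0 ≤ -y + 1)
    (B25 : 0 ≤ e - 2)
    (B26 : 0 ≤ n1 - b1 - hp)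
    (B27 : 0 ≤ b2 - hp - 1)
    (B28 : 0 ≤ n1 - a1 - h3)
    (B29 : 0 ≤ a2 + a3 - h3 - 1)
    (B30 : 0 ≤ n1 - a1 + n2 - a2 - k)
    (B31 : 0 ≤ a3 - k - 1)
    (B32 : 0 ≤ n1 - a1 - h)
    (B33 : 0 ≤ a2 - h - 1)
    (B34 : 0 ≤ -m + 1)
    (B35 : 0 ≤ n3 - a3 - m)
    (C_Dhp : 0 ≤ hp - n1 + b1 ∨ 0 ≤ hp - b2 + 1)
    (C_Dh3 : 0 ≤ h3 - n1 + a1 ∨ 0 ≤ h3 - a2 - a3 + 1)
    (C_Dk : 0 ≤ k - n1 + a1 - n2 + a2 ∨ 0 ≤ k - a3 + 1)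
    (C_Dh : 0 ≤ h - n1 + a1 ∨ 0 ≤ h - a2 + 1)
    (C_Dm : 0 ≤ m - 1 ∨ 0 ≤ m - n3 + a3) :
    ∀ c1 c2 c3, LosC n1 n2 n3 a1 a2 a3 b1 b2 b3 c1 c2 c3 →
      ∃ v ∈ ([⟨0 ≤ b1 - 1, 1, -n2 + b2 + e + 1, -n2 + b2 - n3 + b3⟩, ⟨0 ≤ b1 + b2 - 1, -hp, e + 1, -n3 + b3⟩, ⟨True, -h3, -k, 1⟩, ⟨True, -h, 1, -m + 1⟩] : List LV), v.ex ∧ v.c1 ≤ c1 ∧ v.c2 ≤ c2 ∧ v.c3 ≤ c3 := by
  intro c1 c2 c3 hc
  obtain ⟨q1, q2, q3, q4, q5, q6, qa, qb⟩ := hc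
  rcases qb with qb | qb | qb
  · clear qa
    clear C_Dhp C_Dh3 C_Dk C_Dh C_Dm
    refine ⟨_, List.Mem.head _, ?_, ?_, ?_, ?_⟩
    · show 0 ≤ b1 - 1; omega
    · show 1 ≤ c1; omega
    · show -n2 + b2 + e + 1 ≤ c2; omega
    · show -n2 + b2 - n3 + b3 ≤ c3; omega
  · clear qa
    clear C_Dh3 C_Dk C_Dh C_Dm
    refine ⟨_, List.Mem.tail _ (List.Mem.head _), ?_, ?_, ?_, ?_⟩
    · show 0 ≤ b1 + b2 - 1; omega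
    · show -hp ≤ c1; omega
    · show e + 1 ≤ c2; omega
    · show -n3 + b3 ≤ c3; omega
  · rcases qa with qa | qa | qa
    · clear C_Dhp C_Dh3 C_Dk C_Dh C_Dm
      refine ⟨_, List.Mem.head _, ?_, ?_, ?_, ?_⟩
      · show 0 ≤ b1 - 1; omega
      · show 1 ≤ c1; omega
      · show -n2 + b2 + e + 1 ≤ c2; omega
      · show -n2 + b2 - n3 + b3 ≤ c3; omega
    · clear C_Dhp C_Dh3 C_Dk
      refine ⟨_, List.Mem.tail _ (List.Mem.tail _ (List.Mem.tail _ (List.Mem.head _))), ?_, ?_, ?_, ?_⟩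
      · trivial
      · show -h ≤ c1; omega
      · show 1 ≤ c2; omega
      · show -m + 1 ≤ c3; omega
    · clear C_Dhp C_Dh C_Dm
      refine ⟨_, List.Mem.tail _ (List.Mem.tail _ (List.Mem.head _)), ?_, ?_, ?_, ?_⟩
      · trivial
      · show -h3 ≤ c1; omega
      · show -k ≤ c2; omega
      · show 1 ≤ c3; omega

theorem cvF_V2_V3_11 {b1 b2 b3 e n2 n3 p0 : ℤ}
    (ep0 : p0 = (e) * (-n2 + b2 - n3 + b3))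
    (hex : 0 ≤ b1 - 1)
    (hf : LexFail ((1) * (1) + (0) * (-n2 + b2 + e + 1) + (0) * (-n2 + b2 - n3 + b3))
      ((0) * (1) + (1) * (-n2 + b2 + e + 1) + (e) * (-n2 + b2 - n3 + b3))
      ((0) * (1) + (0) * (-n2 + b2 + e + 1) + (0) * (-n2 + b2 - n3 + b3))) :
    False := by
  rcases hf with hf | ⟨hf0, hf⟩ | ⟨hf0, hf1, hf⟩
  · exfalso; linarith only [hf]
  · exfalso; linarith only [hf0]
  · exfalso; linarith only [hf0]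

theorem cvF_V2_V3_22 {b1 b2 b3 e hp n3 p1 : ℤ}
    (ep1 : p1 = (e) * (-n3 + b3))
    (hex : 0 ≤ b1 + b2 - 1)
    (hf : LexFail ((1) * (-hp) + (0) * (e + 1) + (0) * (-n3 + b3))
      ((0) * (-hp) + (1) * (e + 1) + (e) * (-n3 + b3))
      ((0) * (-hp) + (0) * (e + 1) + (0) * (-n3 + b3))) :
    0 ≤ b1 + b2 - 1 ∧ 0 ≤ hp ∧ (0 ≤ hp - 1 ∨ 0 ≤ -e - p1 - 1) := by
  rcases hf with hf | ⟨hf0, hf⟩ | ⟨hf0, hf1, hf⟩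
  · exact ⟨by linarith only [hex], by linarith only [hf], Or.inl (by linarith only [hf])⟩
  · exact ⟨by linarith only [hex], by linarith only [hf0], Or.inr (by linarith only [hf, ep1])⟩
  · exact ⟨by linarith only [hex], by linarith only [hf0], Or.inr (by linarith only [hf1, ep1])⟩

theorem cvF_V2_V3_33 {e h3 k : ℤ}
    (hf : LexFail ((1) * (-h3) + (0) * (-k) + (0) * (1))
      ((0) * (-h3) + (1) * (-k) + (e) * (1))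
      ((0) * (-h3) + (0) * (-k) + (0) * (1))) :
    0 ≤ h3 ∧ (0 ≤ h3 - 1 ∨ 0 ≤ k - e) := by
  rcases hf with hf | ⟨hf0, hf⟩ | ⟨hf0, hf1, hf⟩
  · exact ⟨by linarith only [hf], Or.inl (by linarith only [hf])⟩
  · exact ⟨by linarith only [hf0], Or.inr (by linarith only [hf])⟩
  · exact ⟨by linarith only [hf0], Or.inr (by linarith only [hf1])⟩

theorem cvF_V2_V3_23 {e h m p2 : ℤ}
    (ep2 : p2 = (e) * (-m + 1))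
    (hf : LexFail ((1) * (-h) + (0) * (1) + (0) * (-m + 1))
      ((0) * (-h) + (1) * (1) + (e) * (-m + 1))
      ((0) * (-h) + (0) * (1) + (0) * (-m + 1))) :
    0 ≤ h ∧ (0 ≤ h - 1 ∨ 0 ≤ -p2 - 1) := by
  rcases hf with hf | ⟨hf0, hf⟩ | ⟨hf0, hf1, hf⟩
  · exact ⟨by linarith only [hf], Or.inl (by linarith only [hf])⟩
  · exact ⟨by linarith only [hf0], Or.inr (by linarith only [hf, ep2])⟩
  · exact ⟨by linarith only [hf0], Or.inr (by linarith only [hf1, ep2])⟩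

theorem FAt {n1 n2 n3 a1 a2 a3 b1 b2 b3 e y hp h3 k h m p0 p1 p2 : ℤ}
    (B15 : 0 ≤ e - a1 - a2 + b1 + b2)
    (B16 : 0 ≤ a1 + a2 - b1 - b2 - e)
    (B17 : 0 ≤ e - 1)
    (B18 : 0 ≤ y + a1 + a2 + a3 - b1 - b2 - b3)
    (B19 : 0 ≤ -a1 - a2 - a3 + b1 + b2 + b3 - y)
    (B20 : 0 ≤ y - 1)
    (B21 : 0 ≤ a1 - b1)
    (B22 : 0 ≤ -a1 + b1)
    (B23 : 0 ≤ y - 1)
    (B24 : 0 ≤ -y + 1)
    (B25 : 0 ≤ e - 2)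
    (ep0 : p0 = (e) * (-n2 + b2 - n3 + b3))
    (ep1 : p1 = (e) * (-n3 + b3))
    (ep2 : p2 = (e) * (-m + 1))
    (w1 : a1 - b1 = 0) (w2 : a1 + a2 - b1 - b2 = e) (w3 : a1 + a2 + a3 - b1 - b2 - b3 = -1)
    (hno : ¬ ∃ u1 u2 u3 : ℤ, Good n1 n2 n3 a1 a2 a3 b1 b2 b3 u1 u2 u3)
    (hd : ∀ c1 c2 c3, LosC n1 n2 n3 a1 a2 a3 b1 b2 b3 c1 c2 c3 →
      ∃ v ∈ ([⟨0 ≤ b1 - 1, 1, -n2 + b2 + e + 1, -n2 + b2 - n3 + b3⟩, ⟨0 ≤ b1 + b2 - 1, -hp, e + 1, -n3 + b3⟩, ⟨True, -h3, -k, 1⟩, ⟨True, -h, 1, -m + 1⟩] : List LV), v.ex ∧ v.c1 ≤ c1 ∧ v.c2 ≤ c2 ∧ v.c3 ≤ c3) :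
    (0 ≤ b1 + b2 - 1 ∧ 0 ≤ hp ∧ (0 ≤ hp - 1 ∨ 0 ≤ -e - p1 - 1)) ∨ (0 ≤ h3 ∧ (0 ≤ h3 - 1 ∨ 0 ≤ k - e)) ∨ (0 ≤ h ∧ (0 ≤ h - 1 ∨ 0 ≤ -p2 - 1)) := by
  obtain ⟨v, hv, hex, hf⟩ := failA' w1 w2 w3 hno _ hd (1) (0) (0) (0) (1) (e) (0) (0) (0)
    ⟨zero_le_one, le_refl 0, le_refl 0⟩ ⟨le_refl 0, zero_le_one, by linarith only [B15, B16, B17, B18, B19, B20, B21, B22, B23, B24, B25]⟩ ⟨le_refl 0, le_refl 0, le_refl 0⟩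
    (Or.inr ⟨by ring, Or.inr ⟨by ring, by linarith only [B15, B16, B17, B18, B19, B20, B21, B22, B23, B24, B25]⟩⟩)
  simp only [List.mem_cons, List.not_mem_nil, or_false] at hv
  rcases hv with rfl | rfl | rfl | rfl
  · exact (cvF_V2_V3_11 ep0 hex hf).elim
  · exact Or.inl (cvF_V2_V3_22 ep1 hex hf)
  · exact Or.inr (Or.inl (cvF_V2_V3_33 hf))
  · exact Or.inr (Or.inr (cvF_V2_V3_23 ep2 hf))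

theorem cvF_V3_V2_11 {b1 b2 b3 e n2 n3 p0 : ℤ}
    (ep0 : p0 = (e) * (-n2 + b2 - n3 + b3))
    (hex : 0 ≤ b1 - 1)
    (hf : LexFail ((0) * (1) + (1) * (-n2 + b2 + e + 1) + (e) * (-n2 + b2 - n3 + b3))
      ((1) * (1) + (0) * (-n2 + b2 + e + 1) + (0) * (-n2 + b2 - n3 + b3))
      ((0) * (1) + (0) * (-n2 + b2 + e + 1) + (0) * (-n2 + b2 - n3 + b3))) :
    0 ≤ b1 - 1 ∧ 0 ≤ n2 - b2 - e - p0 - 1 ∧ 0 ≤ n2 - b2 - e - p0 - 2 := by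
  rcases hf with hf | ⟨hf0, hf⟩ | ⟨hf0, hf1, hf⟩
  · exact ⟨by linarith only [hex], by linarith only [hf, ep0], by linarith only [hf, ep0]⟩
  · exfalso; linarith only [hf]
  · exfalso; linarith only [hf1]

theorem cvF_V3_V2_22 {b1 b2 b3 e hp n3 p1 : ℤ}
    (ep1 : p1 = (e) * (-n3 + b3))
    (hex : 0 ≤ b1 + b2 - 1)
    (hf : LexFail ((0) * (-hp) + (1) * (e + 1) + (e) * (-n3 + b3))
      ((1) * (-hp) + (0) * (e + 1) + (0) * (-n3 + b3))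
      ((0) * (-hp) + (0) * (e + 1) + (0) * (-n3 + b3))) :
    0 ≤ b1 + b2 - 1 ∧ 0 ≤ -e - p1 - 1 ∧ (0 ≤ -e - p1 - 2 ∨ 0 ≤ hp) := by
  rcases hf with hf | ⟨hf0, hf⟩ | ⟨hf0, hf1, hf⟩
  · exact ⟨by linarith only [hex], by linarith only [hf, ep1], Or.inl (by linarith only [hf, ep1])⟩
  · exact ⟨by linarith only [hex], by linarith only [hf0, ep1], Or.inr (by linarith only [hf])⟩
  · exact ⟨by linarith only [hex], by linarith only [hf0, ep1], Or.inr (by linarith only [hf1])⟩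

theorem cvF_V3_V2_33 {e h3 k : ℤ}
    (hf : LexFail ((0) * (-h3) + (1) * (-k) + (e) * (1))
      ((1) * (-h3) + (0) * (-k) + (0) * (1))
      ((0) * (-h3) + (0) * (-k) + (0) * (1))) :
    0 ≤ k - e ∧ (0 ≤ k - e - 1 ∨ 0 ≤ h3) := by
  rcases hf with hf | ⟨hf0, hf⟩ | ⟨hf0, hf1, hf⟩
  · exact ⟨by linarith only [hf], Or.inl (by linarith only [hf])⟩
  · exact ⟨by linarith only [hf0], Or.inr (by linarith only [hf])⟩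
  · exact ⟨by linarith only [hf0], Or.inr (by linarith only [hf1])⟩

theorem cvF_V3_V2_23 {e h m p2 : ℤ}
    (ep2 : p2 = (e) * (-m + 1))
    (hf : LexFail ((0) * (-h) + (1) * (1) + (e) * (-m + 1))
      ((1) * (-h) + (0) * (1) + (0) * (-m + 1))
      ((0) * (-h) + (0) * (1) + (0) * (-m + 1))) :
    0 ≤ -p2 - 1 ∧ (0 ≤ -p2 - 2 ∨ 0 ≤ h) := by
  rcases hf with hf | ⟨hf0, hf⟩ | ⟨hf0, hf1, hf⟩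
  · exact ⟨by linarith only [hf, ep2], Or.inl (by linarith only [hf, ep2])⟩
  · exact ⟨by linarith only [hf0, ep2], Or.inr (by linarith only [hf])⟩
  · exact ⟨by linarith only [hf0, ep2], Or.inr (by linarith only [hf1])⟩

theorem FBt {n1 n2 n3 a1 a2 a3 b1 b2 b3 e y hp h3 k h m p0 p1 p2 : ℤ}
    (B15 : 0 ≤ e - a1 - a2 + b1 + b2)
    (B16 : 0 ≤ a1 + a2 - b1 - b2 - e)
    (B17 : 0 ≤ e - 1)
    (B18 : 0 ≤ y + a1 + a2 + a3 - b1 - b2 - b3)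
    (B19 : 0 ≤ -a1 - a2 - a3 + b1 + b2 + b3 - y)
    (B20 : 0 ≤ y - 1)
    (B21 : 0 ≤ a1 - b1)
    (B22 : 0 ≤ -a1 + b1)
    (B23 : 0 ≤ y - 1)
    (B24 : 0 ≤ -y + 1)
    (B25 : 0 ≤ e - 2)
    (ep0 : p0 = (e) * (-n2 + b2 - n3 + b3))
    (ep1 : p1 = (e) * (-n3 + b3))
    (ep2 : p2 = (e) * (-m + 1))
    (w1 : a1 - b1 = 0) (w2 : a1 + a2 - b1 - b2 = e) (w3 : a1 + a2 + a3 - b1 - b2 - b3 = -1)
    (hno : ¬ ∃ u1 u2 u3 : ℤ, Good n1 n2 n3 a1 a2 a3 b1 b2 b3 u1 u2 u3)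
    (hd : ∀ c1 c2 c3, LosC n1 n2 n3 a1 a2 a3 b1 b2 b3 c1 c2 c3 →
      ∃ v ∈ ([⟨0 ≤ b1 - 1, 1, -n2 + b2 + e + 1, -n2 + b2 - n3 + b3⟩, ⟨0 ≤ b1 + b2 - 1, -hp, e + 1, -n3 + b3⟩, ⟨True, -h3, -k, 1⟩, ⟨True, -h, 1, -m + 1⟩] : List LV), v.ex ∧ v.c1 ≤ c1 ∧ v.c2 ≤ c2 ∧ v.c3 ≤ c3) :
    (0 ≤ b1 - 1 ∧ 0 ≤ n2 - b2 - e - p0 - 1 ∧ 0 ≤ n2 - b2 - e - p0 - 2) ∨ (0 ≤ b1 + b2 - 1 ∧ 0 ≤ -e - p1 - 1 ∧ (0 ≤ -e - p1 - 2 ∨ 0 ≤ hp)) ∨ (0 ≤ k - e ∧ (0 ≤ k - e - 1 ∨ 0 ≤ h3)) ∨ (0 ≤ -p2 - 1 ∧ (0 ≤ -p2 - 2 ∨ 0 ≤ h)) := by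
  obtain ⟨v, hv, hex, hf⟩ := failA' w1 w2 w3 hno _ hd (0) (1) (e) (1) (0) (0) (0) (0) (0)
    ⟨le_refl 0, zero_le_one, by linarith only [B15, B16, B17, B18, B19, B20, B21, B22, B23, B24, B25]⟩ ⟨zero_le_one, le_refl 0, le_refl 0⟩ ⟨le_refl 0, le_refl 0, le_refl 0⟩
    (Or.inr ⟨by ring, Or.inr ⟨by ring, by linarith only [B15, B16, B17, B18, B19, B20, B21, B22, B23, B24, B25]⟩⟩)
  simp only [List.mem_cons, List.not_mem_nil, or_false] at hv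
  rcases hv with rfl | rfl | rfl | rfl
  · exact Or.inl (cvF_V3_V2_11 ep0 hex hf)
  · exact Or.inr (Or.inl (cvF_V3_V2_22 ep1 hex hf))
  · exact Or.inr (Or.inr (Or.inl (cvF_V3_V2_33 hf)))
  · exact Or.inr (Or.inr (Or.inr (cvF_V3_V2_23 ep2 hf)))

theorem cvG_V2_V3_e3_11 {b1 b2 b3 e n2 n3 p0 : ℤ}
    (ep0 : p0 = (e) * (-n2 + b2 - n3 + b3))
    (hex : 0 ≤ b1 - 1)
    (hf : LexFail ((1) * (1) + (0) * (-n2 + b2 + e + 1) + (0) * (-n2 + b2 - n3 + b3))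
      ((0) * (1) + (1) * (-n2 + b2 + e + 1) + (e) * (-n2 + b2 - n3 + b3))
      ((0) * (1) + (0) * (-n2 + b2 + e + 1) + (1) * (-n2 + b2 - n3 + b3))) :
    False := by
  rcases hf with hf | ⟨hf0, hf⟩ | ⟨hf0, hf1, hf⟩
  · exfalso; linarith only [hf]
  · exfalso; linarith only [hf0]
  · exfalso; linarith only [hf0]

theorem cvG_V2_V3_e3_22 {b1 b2 b3 e hp n3 p1 : ℤ}
    (ep1 : p1 = (e) * (-n3 + b3))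
    (hex : 0 ≤ b1 + b2 - 1)
    (hf : LexFail ((1) * (-hp) + (0) * (e + 1) + (0) * (-n3 + b3))
      ((0) * (-hp) + (1) * (e + 1) + (e) * (-n3 + b3))
      ((0) * (-hp) + (0) * (e + 1) + (1) * (-n3 + b3))) :
    (0 ≤ b1 + b2 - 1 ∧ 0 ≤ hp - 1) ∨ (0 ≤ b1 + b2 - 1 ∧ 0 ≤ -hp ∧ 0 ≤ hp ∧ 0 ≤ -e - p1 - 2) ∨ (0 ≤ b1 + b2 - 1 ∧ 0 ≤ -hp ∧ 0 ≤ hp ∧ 0 ≤ e + p1 + 1 ∧ 0 ≤ -e - p1 - 1 ∧ 0 ≤ n3 - b3) := by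
  rcases hf with hf | ⟨hf0, hf⟩ | ⟨hf0, hf1, hf⟩
  · exact Or.inl (⟨by linarith only [hex], by linarith only [hf]⟩)
  · exact Or.inr (Or.inl (⟨by linarith only [hex], by linarith only [hf0], by linarith only [hf0], by linarith only [hf, ep1]⟩))
  · exact Or.inr (Or.inr (⟨by linarith only [hex], by linarith only [hf0], by linarith only [hf0], by linarith only [hf1, ep1], by linarith only [hf1, ep1], by linarith only [hf]⟩))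

theorem cvG_V2_V3_e3_33 {e h3 k : ℤ}
    (hf : LexFail ((1) * (-h3) + (0) * (-k) + (0) * (1))
      ((0) * (-h3) + (1) * (-k) + (e) * (1))
      ((0) * (-h3) + (0) * (-k) + (1) * (1))) :
    0 ≤ h3 - 1 ∨ (0 ≤ -h3 ∧ 0 ≤ h3 ∧ 0 ≤ k - e - 1) := by
  rcases hf with hf | ⟨hf0, hf⟩ | ⟨hf0, hf1, hf⟩
  · exact Or.inl (by linarith only [hf])
  · exact Or.inr (⟨by linarith only [hf0], by linarith only [hf0], by linarith only [hf]⟩)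
  · exfalso; linarith only [hf]

theorem cvG_V2_V3_e3_23 {e h m p2 : ℤ}
    (ep2 : p2 = (e) * (-m + 1))
    (hf : LexFail ((1) * (-h) + (0) * (1) + (0) * (-m + 1))
      ((0) * (-h) + (1) * (1) + (e) * (-m + 1))
      ((0) * (-h) + (0) * (1) + (1) * (-m + 1))) :
    0 ≤ h - 1 ∨ (0 ≤ -h ∧ 0 ≤ h ∧ 0 ≤ -p2 - 2) ∨ (0 ≤ -h ∧ 0 ≤ h ∧ 0 ≤ p2 + 1 ∧ 0 ≤ -p2 - 1 ∧ 0 ≤ m - 1) := by
  rcases hf with hf | ⟨hf0, hf⟩ | ⟨hf0, hf1, hf⟩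
  · exact Or.inl (by linarith only [hf])
  · exact Or.inr (Or.inl (⟨by linarith only [hf0], by linarith only [hf0], by linarith only [hf, ep2]⟩))
  · exact Or.inr (Or.inr (⟨by linarith only [hf0], by linarith only [hf0], by linarith only [hf1, ep2], by linarith only [hf1, ep2], by linarith only [hf]⟩))

theorem Gt_V2_V3_e3 {n1 n2 n3 a1 a2 a3 b1 b2 b3 e y hp h3 k h m p0 p1 p2 : ℤ}
    (B15 : 0 ≤ e - a1 - a2 + b1 + b2)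
    (B16 : 0 ≤ a1 + a2 - b1 - b2 - e)
    (B17 : 0 ≤ e - 1)
    (B18 : 0 ≤ y + a1 + a2 + a3 - b1 - b2 - b3)
    (B19 : 0 ≤ -a1 - a2 - a3 + b1 + b2 + b3 - y)
    (B20 : 0 ≤ y - 1)
    (B21 : 0 ≤ a1 - b1)
    (B22 : 0 ≤ -a1 + b1)
    (B23 : 0 ≤ y - 1)
    (B24 : 0 ≤ -y + 1)
    (B25 : 0 ≤ e - 2)
    (ep0 : p0 = (e) * (-n2 + b2 - n3 + b3))
    (ep1 : p1 = (e) * (-n3 + b3))
    (ep2 : p2 = (e) * (-m + 1))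
    (w1 : a1 - b1 = 0) (w2 : a1 + a2 - b1 - b2 = e) (w3 : a1 + a2 + a3 - b1 - b2 - b3 = -1)
    (hno : ¬ ∃ u1 u2 u3 : ℤ, Good n1 n2 n3 a1 a2 a3 b1 b2 b3 u1 u2 u3)
    (hd : ∀ c1 c2 c3, LosC n1 n2 n3 a1 a2 a3 b1 b2 b3 c1 c2 c3 →
      ∃ v ∈ ([⟨0 ≤ b1 - 1, 1, -n2 + b2 + e + 1, -n2 + b2 - n3 + b3⟩, ⟨0 ≤ b1 + b2 - 1, -hp, e + 1, -n3 + b3⟩, ⟨True, -h3, -k, 1⟩, ⟨True, -h, 1, -m + 1⟩] : List LV), v.ex ∧ v.c1 ≤ c1 ∧ v.c2 ≤ c2 ∧ v.c3 ≤ c3) :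
    ((0 ≤ b1 + b2 - 1 ∧ 0 ≤ hp - 1) ∨ (0 ≤ b1 + b2 - 1 ∧ 0 ≤ -hp ∧ 0 ≤ hp ∧ 0 ≤ -e - p1 - 2) ∨ (0 ≤ b1 + b2 - 1 ∧ 0 ≤ -hp ∧ 0 ≤ hp ∧ 0 ≤ e + p1 + 1 ∧ 0 ≤ -e - p1 - 1 ∧ 0 ≤ n3 - b3)) ∨ (0 ≤ h3 - 1 ∨ (0 ≤ -h3 ∧ 0 ≤ h3 ∧ 0 ≤ k - e - 1)) ∨ (0 ≤ h - 1 ∨ (0 ≤ -h ∧ 0 ≤ h ∧ 0 ≤ -p2 - 2) ∨ (0 ≤ -h ∧ 0 ≤ h ∧ 0 ≤ p2 + 1 ∧ 0 ≤ -p2 - 1 ∧ 0 ≤ m - 1)) := by
  obtain ⟨v, hv, hex, hf⟩ := failA' w1 w2 w3 hno _ hd (1) (0) (0) (0) (1) (e) (0) (0) (1)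
    ⟨zero_le_one, le_refl 0, le_refl 0⟩ ⟨le_refl 0, zero_le_one, by linarith only [B15, B16, B17, B18, B19, B20, B21, B22, B23, B24, B25]⟩ ⟨le_refl 0, le_refl 0, zero_le_one⟩
    (Or.inr ⟨by ring, Or.inr ⟨by ring, by linarith only [B15, B16, B17, B18, B19, B20, B21, B22, B23, B24, B25]⟩⟩)
  simp only [List.mem_cons, List.not_mem_nil, or_false] at hv
  rcases hv with rfl | rfl | rfl | rfl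
  · exact (cvG_V2_V3_e3_11 ep0 hex hf).elim
  · exact Or.inl (cvG_V2_V3_e3_22 ep1 hex hf)
  · exact Or.inr (Or.inl (cvG_V2_V3_e3_33 hf))
  · exact Or.inr (Or.inr (cvG_V2_V3_e3_23 ep2 hf))

theorem cvG_V2_e3_V3_11 {b1 b2 b3 e n2 n3 p0 : ℤ}
    (ep0 : p0 = (e) * (-n2 + b2 - n3 + b3))
    (hex : 0 ≤ b1 - 1)
    (hf : LexFail ((1) * (1) + (0) * (-n2 + b2 + e + 1) + (0) * (-n2 + b2 - n3 + b3))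
      ((0) * (1) + (0) * (-n2 + b2 + e + 1) + (1) * (-n2 + b2 - n3 + b3))
      ((0) * (1) + (1) * (-n2 + b2 + e + 1) + (e) * (-n2 + b2 - n3 + b3))) :
    False := by
  rcases hf with hf | ⟨hf0, hf⟩ | ⟨hf0, hf1, hf⟩
  · exfalso; linarith only [hf]
  · exfalso; linarith only [hf0]
  · exfalso; linarith only [hf0]

theorem cvG_V2_e3_V3_22 {b1 b2 b3 e hp n3 p1 : ℤ}
    (ep1 : p1 = (e) * (-n3 + b3))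
    (hex : 0 ≤ b1 + b2 - 1)
    (hf : LexFail ((1) * (-hp) + (0) * (e + 1) + (0) * (-n3 + b3))
      ((0) * (-hp) + (0) * (e + 1) + (1) * (-n3 + b3))
      ((0) * (-hp) + (1) * (e + 1) + (e) * (-n3 + b3))) :
    (0 ≤ b1 + b2 - 1 ∧ 0 ≤ hp - 1) ∨ (0 ≤ b1 + b2 - 1 ∧ 0 ≤ -hp ∧ 0 ≤ hp ∧ 0 ≤ n3 - b3 - 1) ∨ (0 ≤ b1 + b2 - 1 ∧ 0 ≤ -hp ∧ 0 ≤ hp ∧ 0 ≤ -n3 + b3 ∧ 0 ≤ n3 - b3 ∧ 0 ≤ -e - p1 - 1) := by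
  rcases hf with hf | ⟨hf0, hf⟩ | ⟨hf0, hf1, hf⟩
  · exact Or.inl (⟨by linarith only [hex], by linarith only [hf]⟩)
  · exact Or.inr (Or.inl (⟨by linarith only [hex], by linarith only [hf0], by linarith only [hf0], by linarith only [hf]⟩))
  · exact Or.inr (Or.inr (⟨by linarith only [hex], by linarith only [hf0], by linarith only [hf0], by linarith only [hf1], by linarith only [hf1], by linarith only [hf, ep1]⟩))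

theorem cvG_V2_e3_V3_33 {e h3 k : ℤ}
    (hf : LexFail ((1) * (-h3) + (0) * (-k) + (0) * (1))
      ((0) * (-h3) + (0) * (-k) + (1) * (1))
      ((0) * (-h3) + (1) * (-k) + (e) * (1))) :
    0 ≤ h3 - 1 := by
  rcases hf with hf | ⟨hf0, hf⟩ | ⟨hf0, hf1, hf⟩
  · exact by linarith only [hf]
  · exfalso; linarith only [hf]
  · exfalso; linarith only [hf1]

theorem cvG_V2_e3_V3_23 {e h m p2 : ℤ}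
    (ep2 : p2 = (e) * (-m + 1))
    (hf : LexFail ((1) * (-h) + (0) * (1) + (0) * (-m + 1))
      ((0) * (-h) + (0) * (1) + (1) * (-m + 1))
      ((0) * (-h) + (1) * (1) + (e) * (-m + 1))) :
    0 ≤ h - 1 ∨ (0 ≤ -h ∧ 0 ≤ h ∧ 0 ≤ m - 2) ∨ (0 ≤ -h ∧ 0 ≤ h ∧ 0 ≤ -m + 1 ∧ 0 ≤ m - 1 ∧ 0 ≤ -p2 - 1) := by
  rcases hf with hf | ⟨hf0, hf⟩ | ⟨hf0, hf1, hf⟩
  · exact Or.inl (by linarith only [hf])
  · exact Or.inr (Or.inl (⟨by linarith only [hf0], by linarith only [hf0], by linarith only [hf]⟩))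
  · exact Or.inr (Or.inr (⟨by linarith only [hf0], by linarith only [hf0], by linarith only [hf1], by linarith only [hf1], by linarith only [hf, ep2]⟩))

theorem Gt_V2_e3_V3 {n1 n2 n3 a1 a2 a3 b1 b2 b3 e y hp h3 k h m p0 p1 p2 : ℤ}
    (B15 : 0 ≤ e - a1 - a2 + b1 + b2)
    (B16 : 0 ≤ a1 + a2 - b1 - b2 - e)
    (B17 : 0 ≤ e - 1)
    (B18 : 0 ≤ y + a1 + a2 + a3 - b1 - b2 - b3)
    (B19 : 0 ≤ -a1 - a2 - a3 + b1 + b2 + b3 - y)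
    (B20 : 0 ≤ y - 1)
    (B21 : 0 ≤ a1 - b1)
    (B22 : 0 ≤ -a1 + b1)
    (B23 : 0 ≤ y - 1)
    (B24 : 0 ≤ -y + 1)
    (B25 : 0 ≤ e - 2)
    (ep0 : p0 = (e) * (-n2 + b2 - n3 + b3))
    (ep1 : p1 = (e) * (-n3 + b3))
    (ep2 : p2 = (e) * (-m + 1))
    (w1 : a1 - b1 = 0) (w2 : a1 + a2 - b1 - b2 = e) (w3 : a1 + a2 + a3 - b1 - b2 - b3 = -1)
    (hno : ¬ ∃ u1 u2 u3 : ℤ, Good n1 n2 n3 a1 a2 a3 b1 b2 b3 u1 u2 u3)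
    (hd : ∀ c1 c2 c3, LosC n1 n2 n3 a1 a2 a3 b1 b2 b3 c1 c2 c3 →
      ∃ v ∈ ([⟨0 ≤ b1 - 1, 1, -n2 + b2 + e + 1, -n2 + b2 - n3 + b3⟩, ⟨0 ≤ b1 + b2 - 1, -hp, e + 1, -n3 + b3⟩, ⟨True, -h3, -k, 1⟩, ⟨True, -h, 1, -m + 1⟩] : List LV), v.ex ∧ v.c1 ≤ c1 ∧ v.c2 ≤ c2 ∧ v.c3 ≤ c3) :
    ((0 ≤ b1 + b2 - 1 ∧ 0 ≤ hp - 1) ∨ (0 ≤ b1 + b2 - 1 ∧ 0 ≤ -hp ∧ 0 ≤ hp ∧ 0 ≤ n3 - b3 - 1) ∨ (0 ≤ b1 + b2 - 1 ∧ 0 ≤ -hp ∧ 0 ≤ hp ∧ 0 ≤ -n3 + b3 ∧ 0 ≤ n3 - b3 ∧ 0 ≤ -e - p1 - 1)) ∨ (0 ≤ h3 - 1) ∨ (0 ≤ h - 1 ∨ (0 ≤ -h ∧ 0 ≤ h ∧ 0 ≤ m - 2) ∨ (0 ≤ -h ∧ 0 ≤ h ∧ 0 ≤ -m + 1 ∧ 0 ≤ m - 1 ∧ 0 ≤ -p2 - 1)) := by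
  obtain ⟨v, hv, hex, hf⟩ := failA' w1 w2 w3 hno _ hd (1) (0) (0) (0) (0) (1) (0) (1) (e)
    ⟨zero_le_one, le_refl 0, le_refl 0⟩ ⟨le_refl 0, le_refl 0, zero_le_one⟩ ⟨le_refl 0, zero_le_one, by linarith only [B15, B16, B17, B18, B19, B20, B21, B22, B23, B24, B25]⟩
    (Or.inr ⟨by ring, Or.inl (by linarith only [B15, B16, B17, B18, B19, B20, B21, B22, B23, B24, B25])⟩)
  simp only [List.mem_cons, List.not_mem_nil, or_false] at hv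
  rcases hv with rfl | rfl | rfl | rfl
  · exact (cvG_V2_e3_V3_11 ep0 hex hf).elim
  · exact Or.inl (cvG_V2_e3_V3_22 ep1 hex hf)
  · exact Or.inr (Or.inl (cvG_V2_e3_V3_33 hf))
  · exact Or.inr (Or.inr (cvG_V2_e3_V3_23 ep2 hf))

theorem T0_11_22 {n1 n2 n3 a1 a2 a3 b1 b2 b3 e hp : ℤ}
    (H : NoTr n1 n2 n3 a1 a2 a3 b1 b2 b3)
    (w1 : a1 - b1 = 0) (w2 : a1 + a2 - b1 - b2 = e) (w3 : a1 + a2 + a3 - b1 - b2 - b3 = -1)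
    (l11 : 0 ≤ b1 - 1 → LosC n1 n2 n3 a1 a2 a3 b1 b2 b3 (1) (-n2 + b2 + e + 1) (-n2 + b2 - n3 + b3))
    (l22 : 0 ≤ b1 + b2 - 1 → LosC n1 n2 n3 a1 a2 a3 b1 b2 b3 (-hp) (e + 1) (-n3 + b3))
    : 0 ≤ -b1 ∨ 0 ≤ -b1 - b2 ∨ 0 ≤ -hp ∨ 0 ≤ -n2 + b2 + 1 ∨ 0 ≤ -n2 + b2 - 2 * n3 + 2 * b3 + 1 := by
  rcases le_or_gt (b1) 0 with hb0 | hb0
  · exact Or.inl (by linarith only [hb0])
  rcases le_or_gt (b1 + b2) 0 with hb1 | hb1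
  · exact Or.inr (Or.inl (by linarith only [hb1]))
  rcases H.t0 w1 w2 w3 (l11 (by linarith only [hb0])) (l22 (by linarith only [hb1])) with hq | hq | hq
  · exact Or.inr (Or.inr (Or.inl (by linarith only [hq])))
  · exact Or.inr (Or.inr (Or.inr (Or.inl (by linarith only [hq]))))
  · exact Or.inr (Or.inr (Or.inr (Or.inr (by linarith only [hq]))))

theorem T0_11_33 {n1 n2 n3 a1 a2 a3 b1 b2 b3 e h3 k : ℤ}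
    (H : NoTr n1 n2 n3 a1 a2 a3 b1 b2 b3)
    (w1 : a1 - b1 = 0) (w2 : a1 + a2 - b1 - b2 = e) (w3 : a1 + a2 + a3 - b1 - b2 - b3 = -1)
    (l11 : 0 ≤ b1 - 1 → LosC n1 n2 n3 a1 a2 a3 b1 b2 b3 (1) (-n2 + b2 + e + 1) (-n2 + b2 - n3 + b3))
    (l33 : LosC n1 n2 n3 a1 a2 a3 b1 b2 b3 (-h3) (-k) (1))
    : 0 ≤ -b1 ∨ 0 ≤ -h3 ∨ 0 ≤ -n2 + b2 - k - e ∨ 0 ≤ -n2 + b2 - n3 + b3 + 2 := by
  rcases le_or_gt (b1) 0 with hb0 | hb0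
  · exact Or.inl (by linarith only [hb0])
  rcases H.t0 w1 w2 w3 (l11 (by linarith only [hb0])) l33 with hq | hq | hq
  · exact Or.inr (Or.inl (by linarith only [hq]))
  · exact Or.inr (Or.inr (Or.inl (by linarith only [hq])))
  · exact Or.inr (Or.inr (Or.inr (by linarith only [hq])))

theorem T1_11_33 {n1 n2 n3 a1 a2 a3 b1 b2 b3 e h3 k : ℤ}
    (H : NoTr n1 n2 n3 a1 a2 a3 b1 b2 b3)
    (w1 : a1 - b1 = 0) (w2 : a1 + a2 - b1 - b2 = e) (w3 : a1 + a2 + a3 - b1 - b2 - b3 = -1)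
    (l11 : 0 ≤ b1 - 1 → LosC n1 n2 n3 a1 a2 a3 b1 b2 b3 (1) (-n2 + b2 + e + 1) (-n2 + b2 - n3 + b3))
    (l33 : LosC n1 n2 n3 a1 a2 a3 b1 b2 b3 (-h3) (-k) (1))
    : 0 ≤ -b1 ∨ 0 ≤ -h3 ∨ 0 ≤ -n2 + b2 - k ∨ 0 ≤ -n2 + b2 - n3 + b3 + 1 := by
  rcases le_or_gt (b1) 0 with hb0 | hb0
  · exact Or.inl (by linarith only [hb0])
  rcases H.t1 w1 w2 w3 (l11 (by linarith only [hb0])) l33 with hq | hq | hq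
  · exact Or.inr (Or.inl (by linarith only [hq]))
  · exact Or.inr (Or.inr (Or.inl (by linarith only [hq])))
  · exact Or.inr (Or.inr (Or.inr (by linarith only [hq])))

theorem T1_22_33 {n1 n2 n3 a1 a2 a3 b1 b2 b3 e hp h3 k : ℤ}
    (H : NoTr n1 n2 n3 a1 a2 a3 b1 b2 b3)
    (w1 : a1 - b1 = 0) (w2 : a1 + a2 - b1 - b2 = e) (w3 : a1 + a2 + a3 - b1 - b2 - b3 = -1)
    (l22 : 0 ≤ b1 + b2 - 1 → LosC n1 n2 n3 a1 a2 a3 b1 b2 b3 (-hp) (e + 1) (-n3 + b3))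
    (l33 : LosC n1 n2 n3 a1 a2 a3 b1 b2 b3 (-h3) (-k) (1))
    : 0 ≤ -b1 - b2 ∨ 0 ≤ -hp - h3 - 1 ∨ 0 ≤ -k ∨ 0 ≤ -n3 + b3 + 1 := by
  rcases le_or_gt (b1 + b2) 0 with hb0 | hb0
  · exact Or.inl (by linarith only [hb0])
  rcases H.t1 w1 w2 w3 (l22 (by linarith only [hb0])) l33 with hq | hq | hq
  · exact Or.inr (Or.inl (by linarith only [hq]))
  · exact Or.inr (Or.inr (Or.inl (by linarith only [hq])))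
  · exact Or.inr (Or.inr (Or.inr (by linarith only [hq])))

theorem T2_22_33 {n1 n2 n3 a1 a2 a3 b1 b2 b3 e hp h3 k : ℤ}
    (H : NoTr n1 n2 n3 a1 a2 a3 b1 b2 b3)
    (l22 : 0 ≤ b1 + b2 - 1 → LosC n1 n2 n3 a1 a2 a3 b1 b2 b3 (-hp) (e + 1) (-n3 + b3))
    (l33 : LosC n1 n2 n3 a1 a2 a3 b1 b2 b3 (-h3) (-k) (1))
    : 0 ≤ -b1 - b2 ∨ 0 ≤ -hp - h3 - 1 ∨ 0 ≤ e - k ∨ 0 ≤ -n3 + b3 := by
  rcases le_or_gt (b1 + b2) 0 with hb0 | hb0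
  · exact Or.inl (by linarith only [hb0])
  rcases H.t2 (l22 (by linarith only [hb0])) l33 with hq | hq | hq
  · exact Or.inr (Or.inl (by linarith only [hq]))
  · exact Or.inr (Or.inr (Or.inl (by linarith only [hq])))
  · exact Or.inr (Or.inr (Or.inr (by linarith only [hq])))

theorem T0_22_23 {n1 n2 n3 a1 a2 a3 b1 b2 b3 e hp h m : ℤ}
    (H : NoTr n1 n2 n3 a1 a2 a3 b1 b2 b3)
    (w1 : a1 - b1 = 0) (w2 : a1 + a2 - b1 - b2 = e) (w3 : a1 + a2 + a3 - b1 - b2 - b3 = -1)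
    (l22 : 0 ≤ b1 + b2 - 1 → LosC n1 n2 n3 a1 a2 a3 b1 b2 b3 (-hp) (e + 1) (-n3 + b3))
    (l23 : LosC n1 n2 n3 a1 a2 a3 b1 b2 b3 (-h) (1) (-m + 1))
    : 0 ≤ -b1 - b2 ∨ 0 ≤ -hp - h - 1 ∨ 0 ≤ -e + 1 ∨ 0 ≤ -n3 + b3 - m + 2 := by
  rcases le_or_gt (b1 + b2) 0 with hb0 | hb0
  · exact Or.inl (by linarith only [hb0])
  rcases H.t0 w1 w2 w3 (l22 (by linarith only [hb0])) l23 with hq | hq | hq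
  · exact Or.inr (Or.inl (by linarith only [hq]))
  · exact Or.inr (Or.inr (Or.inl (by linarith only [hq])))
  · exact Or.inr (Or.inr (Or.inr (by linarith only [hq])))

theorem main {n1 n2 n3 a1 a2 a3 b1 b2 b3 e y : ℤ}
    (B0 : 0 ≤ a1)
    (B1 : 0 ≤ a2)
    (B2 : 0 ≤ a3)
    (B3 : 0 ≤ b1)
    (B4 : 0 ≤ b2)
    (B5 : 0 ≤ b3)
    (B6 : 0 ≤ n1 - a1)
    (B7 : 0 ≤ n2 - a2)
    (B8 : 0 ≤ n3 - a3)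
    (B9 : 0 ≤ n1 - b1)
    (B10 : 0 ≤ n2 - b2)
    (B11 : 0 ≤ n3 - b3)
    (B12 : 0 ≤ n1 - 1)
    (B13 : 0 ≤ n2 - 1)
    (B14 : 0 ≤ n3 - 1)
    (B15 : 0 ≤ e - a1 - a2 + b1 + b2)
    (B16 : 0 ≤ a1 + a2 - b1 - b2 - e)
    (B17 : 0 ≤ e - 1)
    (B18 : 0 ≤ y + a1 + a2 + a3 - b1 - b2 - b3)
    (B19 : 0 ≤ -a1 - a2 - a3 + b1 + b2 + b3 - y)
    (B20 : 0 ≤ y - 1)
    (B21 : 0 ≤ a1 - b1)
    (B22 : 0 ≤ -a1 + b1)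
    (B23 : 0 ≤ y - 1)
    (B24 : 0 ≤ -y + 1)
    (B25 : 0 ≤ e - 2)
    (C_c1 : (0 ≤ a1 - 1 ∧ 0 ≤ n2 - a2 - 1) ∨ (0 ≤ b1 - 1 ∧ 0 ≤ n2 - b2 - 1))
    (C_c2 : (0 ≤ a2 - 1 ∧ 0 ≤ n3 - a3 - 1) ∨ (0 ≤ b2 - 1 ∧ 0 ≤ n3 - b3 - 1))
    (H : NoTr n1 n2 n3 a1 a2 a3 b1 b2 b3)
    (hno : ¬ ∃ u1 u2 u3 : ℤ, Good n1 n2 n3 a1 a2 a3 b1 b2 b3 u1 u2 u3) : False := by
  have w1 : a1 - b1 = 0 := by linarith only [B15, B16, B17, B18, B19, B20, B21, B22, B23, B24, B25]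
  have w2 : a1 + a2 - b1 - b2 = e := by linarith only [B15, B16, B17, B18, B19, B20, B21, B22, B23, B24, B25]
  have w3 : a1 + a2 + a3 - b1 - b2 - b3 = -1 := by linarith only [B15, B16, B17, B18, B19, B20, B21, B22, B23, B24, B25]
  obtain ⟨hp, rhp1, rhp2, rhp3⟩ := min_facts (n1 - b1) (b2 - 1)
  have B26 : 0 ≤ n1 - b1 - hp := by linarith only [rhp1]
  have B27 : 0 ≤ b2 - hp - 1 := by linarith only [rhp2]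
  have C_Dhp : 0 ≤ hp - n1 + b1 ∨ 0 ≤ hp - b2 + 1 := rhp3.imp (fun hq => by linarith only [hq]) (fun hq => by linarith only [hq])
  clear rhp1 rhp2 rhp3
  obtain ⟨h3, rh31, rh32, rh33⟩ := min_facts (n1 - a1) (a2 + a3 - 1)
  have B28 : 0 ≤ n1 - a1 - h3 := by linarith only [rh31]
  have B29 : 0 ≤ a2 + a3 - h3 - 1 := by linarith only [rh32]
  have C_Dh3 : 0 ≤ h3 - n1 + a1 ∨ 0 ≤ h3 - a2 - a3 + 1 := rh33.imp (fun hq => by linarith only [hq]) (fun hq => by linarith only [hq])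
  clear rh31 rh32 rh33
  obtain ⟨k, rk1, rk2, rk3⟩ := min_facts (n1 - a1 + n2 - a2) (a3 - 1)
  have B30 : 0 ≤ n1 - a1 + n2 - a2 - k := by linarith only [rk1]
  have B31 : 0 ≤ a3 - k - 1 := by linarith only [rk2]
  have C_Dk : 0 ≤ k - n1 + a1 - n2 + a2 ∨ 0 ≤ k - a3 + 1 := rk3.imp (fun hq => by linarith only [hq]) (fun hq => by linarith only [hq])
  clear rk1 rk2 rk3
  obtain ⟨h, rh1, rh2, rh3⟩ := min_facts (n1 - a1) (a2 - 1)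
  have B32 : 0 ≤ n1 - a1 - h := by linarith only [rh1]
  have B33 : 0 ≤ a2 - h - 1 := by linarith only [rh2]
  have C_Dh : 0 ≤ h - n1 + a1 ∨ 0 ≤ h - a2 + 1 := rh3.imp (fun hq => by linarith only [hq]) (fun hq => by linarith only [hq])
  clear rh1 rh2 rh3
  obtain ⟨m, rm1, rm2, rm3⟩ := min_facts (1) (n3 - a3)
  have B34 : 0 ≤ -m + 1 := by linarith only [rm1]
  have B35 : 0 ≤ n3 - a3 - m := by linarith only [rm2]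
  have C_Dm : 0 ≤ m - 1 ∨ 0 ≤ m - n3 + a3 := rm3.imp (fun hq => by linarith only [hq]) (fun hq => by linarith only [hq])
  clear rm1 rm2 rm3
  have l11 : 0 ≤ b1 - 1 → LosC n1 n2 n3 a1 a2 a3 b1 b2 b3 (1) (-n2 + b2 + e + 1) (-n2 + b2 - n3 + b3) := fun hq => los11 B0 B1 B2 B3 B4 B5 B6 B7 B8 B9 B10 B11 B12 B13 B14 B15 B16 B17 B18 B19 B20 B21 B22 B23 B24 B25 hq
  have l22 : 0 ≤ b1 + b2 - 1 → LosC n1 n2 n3 a1 a2 a3 b1 b2 b3 (-hp) (e + 1) (-n3 + b3) := fun hq => los22 B0 B1 B2 B3 B4 B5 B6 B7 B8 B9 B10 B11 B12 B13 B14 B15 B16 B17 B18 B19 B20 B21 B22 B23 B24 B25 B26 B27 C_Dhp hq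
  have l33 : LosC n1 n2 n3 a1 a2 a3 b1 b2 b3 (-h3) (-k) (1) := los33 B0 B1 B2 B3 B4 B5 B6 B7 B8 B9 B10 B11 B12 B13 B14 B15 B16 B17 B18 B19 B20 B21 B22 B23 B24 B25 B28 B29 B30 B31 C_Dh3 C_Dk
  have l23 : LosC n1 n2 n3 a1 a2 a3 b1 b2 b3 (-h) (1) (-m + 1) := los23 B0 B1 B2 B3 B4 B5 B6 B7 B8 B9 B10 B11 B12 B13 B14 B15 B16 B17 B18 B19 B20 B21 B22 B23 B24 B25 B32 B33 B34 B35 C_Dh C_Dm
  have hd := hd B0 B1 B2 B3 B4 B5 B6 B7 B8 B9 B10 B11 B12 B13 B14 B15 B16 B17 B18 B19 B20 B21 B22 B23 B24 B25 B26 B27 B28 B29 B30 B31 B32 B33 B34 B35 C_Dhp C_Dh3 C_Dk C_Dh C_Dm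
  obtain ⟨p0, ep0⟩ : ∃ p, p = (e) * (-n2 + b2 - n3 + b3) := ⟨_, rfl⟩
  obtain ⟨p1, ep1⟩ : ∃ p, p = (e) * (-n3 + b3) := ⟨_, rfl⟩
  have C_Dp1_a : (0 ≤ n3 - b3 - 2 ∧ 0 ≤ -2 * e - p1) ∨ (0 ≤ -n3 + b3 + 1 ∧ 0 ≤ p1 + e) :=
    (prod_split' (-2) ep1 (by linarith only [B15, B16, B17, B18, B19, B20, B21, B22, B23, B24, B25])).imp (fun hq => ⟨by linarith only [hq.1], by linarith only [hq.2]⟩)
      (fun hq => ⟨by linarith only [hq.1], by linarith only [hq.2]⟩)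
  obtain ⟨p2, ep2⟩ : ∃ p, p = (e) * (-m + 1) := ⟨_, rfl⟩
  have C_Dp2_b : (0 ≤ m - 2 ∧ 0 ≤ -e - p2) ∨ (0 ≤ -m + 1 ∧ 0 ≤ p2) :=
    (prod_split' (-1) ep2 (by linarith only [B15, B16, B17, B18, B19, B20, B21, B22, B23, B24, B25])).imp (fun hq => ⟨by linarith only [hq.1], by linarith only [hq.2]⟩)
      (fun hq => ⟨by linarith only [hq.1], by linarith only [hq.2]⟩)
  obtain ⟨p3, ep3⟩ : ∃ p, p = (e) * (-n2 + b2 - n3 + b3 + 1) := ⟨_, rfl⟩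
  have C_Dp3_a : (0 ≤ n2 - b2 + n3 - b3 - 3 ∧ 0 ≤ -2 * e - p3) ∨ (0 ≤ -n2 + b2 - n3 + b3 + 2 ∧ 0 ≤ p3 + e) :=
    (prod_split' (-2) ep3 (by linarith only [B15, B16, B17, B18, B19, B20, B21, B22, B23, B24, B25])).imp (fun hq => ⟨by linarith only [hq.1], by linarith only [hq.2]⟩)
      (fun hq => ⟨by linarith only [hq.1], by linarith only [hq.2]⟩)
  obtain ⟨p4, ep4⟩ : ∃ p, p = (e) * (-n3 + b3 + 1) := ⟨_, rfl⟩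
  obtain ⟨p5, ep5⟩ : ∃ p, p = (e) * (-m + 2) := ⟨_, rfl⟩
  have FA := FAt B15 B16 B17 B18 B19 B20 B21 B22 B23 B24 B25 ep0 ep1 ep2 w1 w2 w3 hno hd
  have FB := FBt B15 B16 B17 B18 B19 B20 B21 B22 B23 B24 B25 ep0 ep1 ep2 w1 w2 w3 hno hd
  have G_V2_V3_e3 := Gt_V2_V3_e3 B15 B16 B17 B18 B19 B20 B21 B22 B23 B24 B25 ep0 ep1 ep2 w1 w2 w3 hno hd
  have G_V2_e3_V3 := Gt_V2_e3_V3 B15 B16 B17 B18 B19 B20 B21 B22 B23 B24 B25 ep0 ep1 ep2 w1 w2 w3 hno hd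
  have t0_11_22 := T0_11_22 H w1 w2 w3 l11 l22
  have t0_11_33 := T0_11_33 H w1 w2 w3 l11 l33
  have t1_11_33 := T1_11_33 H w1 w2 w3 l11 l33
  have t1_22_33 := T1_22_33 H w1 w2 w3 l22 l33
  have t2_22_33 := T2_22_33 H l22 l33
  have t0_22_23 := T0_22_23 H w1 w2 w3 l22 l23
  rcases FA with ⟨f0_0, f0_1, f0_2⟩ | ⟨f0_0, f0_1⟩ | ⟨f0_0, f0_1⟩
  · rcases FB with ⟨f1_0, f1_1, f1_2⟩ | ⟨f1_0, f1_1, f1_2⟩ | ⟨f1_0, f1_1⟩ | ⟨f1_0, f1_1⟩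
    · exact g0 B2 B6 B7 B11 B16 B19 B20 B22 B25 B26 B27 B34 f0_0 f0_1 f1_0 C_Dh3 C_Dk C_Dh C_Dm C_Dp1_a f0_2 t1_11_33 t0_22_23
    · exact g1 B6 B11 B16 B19 B20 B22 B25 B27 B34 f0_0 f0_1 f1_1 C_Dh C_Dm C_Dp1_a t0_22_23
    · exact g2 B6 B7 B11 B16 B22 B25 B27 B31 f0_0 f0_1 f1_0 C_c1 C_Dh3 C_Dp1_a f0_2 t0_11_22 t1_22_33
    · exact g3 B34 f1_0 C_Dp2_b
  · rcases FB with ⟨f1_0, f1_1, f1_2⟩ | ⟨f1_0, f1_1, f1_2⟩ | ⟨f1_0, f1_1⟩ | ⟨f1_0, f1_1⟩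
    · exact g4 B2 B4 B6 B7 B11 B16 B22 B25 B26 B32 B34 f0_0 f1_0 C_Dh3 C_Dk C_Dp1_a C_Dp2_b f0_1 t1_11_33 t1_22_33 t2_22_33 G_V2_V3_e3 G_V2_e3_V3
    · exact g5 B2 B4 B6 B7 B16 B22 B25 B32 B34 f0_0 f1_0 f1_1 C_c1 C_Dh3 C_Dk C_Dp1_a C_Dp2_b C_Dp3_a f0_1 t0_11_33 t1_22_33 G_V2_e3_V3
    · exact g6 B4 B7 B11 B12 B16 B22 B25 B26 B31 B32 B34 f0_0 f1_0 C_c1 C_Dh3 C_Dp1_a C_Dp2_b t1_11_33 t1_22_33 t2_22_33 G_V2_V3_e3 G_V2_e3_V3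
    · exact g7 B34 f1_0 C_Dp2_b
  · rcases FB with ⟨f1_0, f1_1, f1_2⟩ | ⟨f1_0, f1_1, f1_2⟩ | ⟨f1_0, f1_1⟩ | ⟨f1_0, f1_1⟩
    · exact g8 B2 B7 B11 B16 B22 B25 B32 B33 B34 f1_0 C_Dh3 C_Dk C_Dp2_b f0_1 t1_11_33
    · exact g9 B2 B7 B16 B22 B25 B32 B33 B34 f1_1 C_c1 C_Dh3 C_Dk C_Dp1_a C_Dp2_b C_Dp3_a f0_1 t0_11_33
    · exact g10 B7 B11 B16 B22 B25 B31 B32 B33 B34 f1_0 C_c1 C_Dh3 C_Dp2_b f0_1 t1_11_33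
    · exact g11 B34 f1_0 C_Dp2_b

end WG3.VN
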