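import Pool.Agent.Work.MP_5465ec_co.Core

set_option linter.all false

namespace WG3.VP

theorem g0_l0 {a1 a2 a3 b1 b2 b3 e h h3 hp k n1 n3 p1 p3 y : ℤ}
    (B6 : 0 ≤ n1 - a1)
    (B16 : 0 ≤ a1 + a2 - b1 - b2 - e)
    (B17 : 0 ≤ e - 1)
    (B20 : 0 ≤ y - 1)
    (B22 : 0 ≤ -a1 + b1)
    (B25 : 0 ≤ n1 - b1 - hp)
    (B26 : 0 ≤ b2 - hp - 1)
    (B27 : 0 ≤ n1 - a1 - h3)
    (B30 : 0 ≤ a3 - k - 1)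
    (B36 : 0 ≤ hp)
    (E3 : 0 ≤ h3 - n1 + a1 ∨ 0 ≤ h3 - a2 - a3 + 1)
    (E5 : 0 ≤ h - n1 + a1 ∨ 0 ≤ h - a2 + 1)
    (E12 : (0 ≤ k - 1 ∧ 0 ≤ -y - p1) ∨ (0 ≤ -k ∧ 0 ≤ p1))
    (E23 : 0 ≤ hp - 1 ∨ 0 ≤ -y + n3 - b3 - 1)
    (E25 : 0 ≤ -hp - h3 - 1 ∨ 0 ≤ -k - 1 ∨ 0 ≤ -n3 + b3 + y + 1)
    (E26 : 0 ≤ -hp - h3 - 1 ∨ 0 ≤ -k ∨ 0 ≤ -n3 + b3 + 1)
    (E28 : (0 ≤ b1 + b2 - 1 ∧ 0 ≤ hp - 1) ∨ (0 ≤ b1 + b2 - 1 ∧ 0 ≤ -hp ∧ 0 ≤ hp ∧ 0 ≤ -y + n3 - b3 - 2) ∨ 0 ≤ h3 - 1 ∨ (0 ≤ -h3 ∧ 0 ≤ h3 ∧ 0 ≤ -p1 - 2) ∨ (0 ≤ -h3 ∧ 0 ≤ h3 ∧ 0 ≤ p1 + 1 ∧ 0 ≤ -p1 - 1 ∧ 0 ≤ k + 1) ∨ 0 ≤ h - 1)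
    (H20 : 0 ≤ k ∧ 0 ≤ -y - p3)
    (H24 : 0 ≤ -h) : False := by
  rcases E5 with H5 | H5
  · rcases E3 with H3 | H3
    · rcases E23 with H23 | H23
      · linarith only [H23, B22, B25, H24, H5]
      · rcases E25 with H25 | H25 | H25
        · linarith only [B36, B6, H25, H3]
        · linarith only [H25, H20.1]
        · rcases E26 with H26 | H26 | H26
          · linarith only [B36, B6, H26, H3]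
          · rcases E12 with H12 | H12
            · linarith only [H26, H12.1]
            · rcases E28 with H28 | H28 | H28 | H28 | H28 | H28
              · linarith only [H28.2, B22, B25, H24, H5]
              · linarith only [H28.2.2.2, H25]
              · linarith only [H28, H24, B27, H5]
              · linarith only [H28.2.2, H12.2]
              · linarith only [H28.2.2.2.1, H12.2]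
              · linarith only [H28, H24]
          · linarith only [H23, B20, H26]
    · linarith only [B30, B26, B36, H20.1, B22, B27, B16, H3, H24, B17, H5]
  · linarith only [B26, B36, H5, B16, H24, B17, B22]

theorem g0_l1 {a1 a2 b1 b2 e h h3 hp k n1 p3 y : ℤ}
    (B16 : 0 ≤ a1 + a2 - b1 - b2 - e)
    (B17 : 0 ≤ e - 1)
    (B20 : 0 ≤ y - 1)
    (B22 : 0 ≤ -a1 + b1)
    (B25 : 0 ≤ n1 - b1 - hp)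
    (B26 : 0 ≤ b2 - hp - 1)
    (B27 : 0 ≤ n1 - a1 - h3)
    (B36 : 0 ≤ hp)
    (E5 : 0 ≤ h - n1 + a1 ∨ 0 ≤ h - a2 + 1)
    (E27 : (0 ≤ b1 + b2 - 1 ∧ 0 ≤ hp - 1) ∨ 0 ≤ h3 - 1 ∨ (0 ≤ -h3 ∧ 0 ≤ h3 ∧ 0 ≤ k) ∨ (0 ≤ -h3 ∧ 0 ≤ h3 ∧ 0 ≤ -k - 1 ∧ 0 ≤ k + 1 ∧ 0 ≤ -p3 - y - 1) ∨ 0 ≤ h - 1)
    (H20 : 0 ≤ -k - 1 ∧ 0 ≤ p3)
    (H24 : 0 ≤ -h) : False := by
  rcases E5 with H5 | H5
  · rcases E27 with H27 | H27 | H27 | H27 | H27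
    · linarith only [H27.2, B22, B25, H24, H5]
    · linarith only [H27, H24, B27, H5]
    · linarith only [H20.1, H27.2.2]
    · linarith only [B20, H20.2, H27.2.2.2.2]
    · linarith only [H27, H24]
  · linarith only [B26, B36, H5, B17, B16, H24, B22]

theorem g0 {a1 a2 a3 b1 b2 b3 e h h3 hp k m n1 n2 n3 p0 p1 p3 y : ℤ}
    (B6 : 0 ≤ n1 - a1)
    (B7 : 0 ≤ n2 - a2)
    (B11 : 0 ≤ n3 - b3)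
    (B16 : 0 ≤ a1 + a2 - b1 - b2 - e)
    (B17 : 0 ≤ e - 1)
    (B19 : 0 ≤ -a1 - a2 - a3 + b1 + b2 + b3 - y)
    (B20 : 0 ≤ y - 1)
    (B22 : 0 ≤ -a1 + b1)
    (B25 : 0 ≤ n1 - b1 - hp)
    (B26 : 0 ≤ b2 - hp - 1)
    (B27 : 0 ≤ n1 - a1 - h3)
    (B30 : 0 ≤ a3 - k - 1)
    (B33 : 0 ≤ y - m)
    (B35 : 0 ≤ b1 + b2 - 1)
    (B36 : 0 ≤ hp)
    (B37 : 0 ≤ b1 - 1)
    (B39 : 0 ≤ -p0 + n2 - b2 + n3 - b3 + y - 2)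
    (D3 : 0 ≤ h3 - n1 + a1 ∨ 0 ≤ h3 - a2 - a3 + 1)
    (D5 : 0 ≤ h - n1 + a1 ∨ 0 ≤ h - a2 + 1)
    (D6 : 0 ≤ m - y ∨ 0 ≤ m - n3 + a3)
    (D9 : (0 ≤ n2 - b2 - 2 ∧ 0 ≤ -p0) ∨ (0 ≤ -n2 + b2 + 1 ∧ 0 ≤ p0 - y))
    (D12 : (0 ≤ k - 1 ∧ 0 ≤ -y - p1) ∨ (0 ≤ -k ∧ 0 ≤ p1))
    (D20 : (0 ≤ k ∧ 0 ≤ -y - p3) ∨ (0 ≤ -k - 1 ∧ 0 ≤ p3))
    (D23 : 0 ≤ hp - 1 ∨ 0 ≤ -y + n3 - b3 - 1)
    (D24 : 0 ≤ -b1 ∨ 0 ≤ -h ∨ 0 ≤ -n2 + b2 ∨ 0 ≤ -n2 + b2 - n3 + b3 - m + y + 1)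
    (D25 : 0 ≤ -b1 - b2 ∨ 0 ≤ -hp - h3 - 1 ∨ 0 ≤ -k - 1 ∨ 0 ≤ -n3 + b3 + y + 1)
    (D26 : 0 ≤ -b1 - b2 ∨ 0 ≤ -hp - h3 - 1 ∨ 0 ≤ -k ∨ 0 ≤ -n3 + b3 + 1)
    (D27 : ((0 ≤ b1 + b2 - 1 ∧ 0 ≤ hp - 1)) ∨ (0 ≤ h3 - 1 ∨ (0 ≤ -h3 ∧ 0 ≤ h3 ∧ 0 ≤ k) ∨ (0 ≤ -h3 ∧ 0 ≤ h3 ∧ 0 ≤ -k - 1 ∧ 0 ≤ k + 1 ∧ 0 ≤ -p3 - y - 1)) ∨ (0 ≤ h - 1 ∨ (0 ≤ -h ∧ 0 ≤ h ∧ 0 ≤ m - y - 1)))
    (D28 : ((0 ≤ b1 + b2 - 1 ∧ 0 ≤ hp - 1) ∨ (0 ≤ b1 + b2 - 1 ∧ 0 ≤ -hp ∧ 0 ≤ hp ∧ 0 ≤ -y + n3 - b3 - 2)) ∨ (0 ≤ h3 - 1 ∨ (0 ≤ -h3 ∧ 0 ≤ h3 ∧ 0 ≤ -p1 - 2) ∨ (0 ≤ -h3 ∧ 0 ≤ h3 ∧ 0 ≤ p1 + 1 ∧ 0 ≤ -p1 - 1 ∧ 0 ≤ k + 1)) ∨ (0 ≤ h - 1 ∨ (0 ≤ -h ∧ 0 ≤ h ∧ 0 ≤ -y + m - 2) ∨ (0 ≤ -h ∧ 0 ≤ h ∧ 0 ≤ y - m + 1 ∧ 0 ≤ -y + m - 1))) : False := by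
  have E3 := D3
  have E5 := D5
  have E6 : 0 ≤ m - y := by
    rcases D6 with H6 | H6
    · exact H6
    · linarith only [B17, H6, B33, B11, B16, B19]
  have E9 := D9
  have E12 := D12
  have E20 := D20
  have E23 := D23
  have E24 : 0 ≤ -h ∨ 0 ≤ -n2 + b2 - n3 + b3 - m + y + 1 := by
    rcases D24 with H24 | H24 | H24 | H24
    · linarith only [H24, B37]
    · exact Or.inl H24
    · linarith only [H24, B17, B22, B7, B16]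
    · exact Or.inr H24
  have E25 : 0 ≤ -hp - h3 - 1 ∨ 0 ≤ -k - 1 ∨ 0 ≤ -n3 + b3 + y + 1 := by
    rcases D25 with H25 | H25 | H25 | H25
    · linarith only [H25, B35]
    · exact Or.inl H25
    · exact Or.inr (Or.inl H25)
    · exact Or.inr (Or.inr H25)
  have E26 : 0 ≤ -hp - h3 - 1 ∨ 0 ≤ -k ∨ 0 ≤ -n3 + b3 + 1 := by
    rcases D26 with H26 | H26 | H26 | H26
    · linarith only [H26, B35]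
    · exact Or.inl H26
    · exact Or.inr (Or.inl H26)
    · exact Or.inr (Or.inr H26)
  have E27 : (0 ≤ b1 + b2 - 1 ∧ 0 ≤ hp - 1) ∨ 0 ≤ h3 - 1 ∨ (0 ≤ -h3 ∧ 0 ≤ h3 ∧ 0 ≤ k) ∨ (0 ≤ -h3 ∧ 0 ≤ h3 ∧ 0 ≤ -k - 1 ∧ 0 ≤ k + 1 ∧ 0 ≤ -p3 - y - 1) ∨ 0 ≤ h - 1 := by
    rcases D27 with H27 | (H27 | H27 | H27) | (H27 | H27)
    · exact Or.inl H27
    · exact Or.inr (Or.inl H27)
    · exact Or.inr (Or.inr (Or.inl H27))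
    · exact Or.inr (Or.inr (Or.inr (Or.inl H27)))
    · exact Or.inr (Or.inr (Or.inr (Or.inr H27)))
    · linarith only [B33, H27.2.2]
  have E28 : (0 ≤ b1 + b2 - 1 ∧ 0 ≤ hp - 1) ∨ (0 ≤ b1 + b2 - 1 ∧ 0 ≤ -hp ∧ 0 ≤ hp ∧ 0 ≤ -y + n3 - b3 - 2) ∨ 0 ≤ h3 - 1 ∨ (0 ≤ -h3 ∧ 0 ≤ h3 ∧ 0 ≤ -p1 - 2) ∨ (0 ≤ -h3 ∧ 0 ≤ h3 ∧ 0 ≤ p1 + 1 ∧ 0 ≤ -p1 - 1 ∧ 0 ≤ k + 1) ∨ 0 ≤ h - 1 := by
    rcases D28 with (H28 | H28) | (H28 | H28 | H28) | (H28 | H28 | H28)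
    · exact Or.inl H28
    · exact Or.inr (Or.inl H28)
    · exact Or.inr (Or.inr (Or.inl H28))
    · exact Or.inr (Or.inr (Or.inr (Or.inl H28)))
    · exact Or.inr (Or.inr (Or.inr (Or.inr (Or.inl H28))))
    · exact Or.inr (Or.inr (Or.inr (Or.inr (Or.inr H28))))
    · linarith only [B33, H28.2.2]
    · linarith only [B33, H28.2.2.2]
  have H6 := E6
  rcases E20 with H20 | H20
  · rcases E9 with H9 | H9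
    · rcases E24 with H24 | H24
      · exact g0_l0 B6 B16 B17 B20 B22 B25 B26 B27 B30 B36 E3 E5 E12 E23 E25 E26 E28 H20 H24
      · linarith only [H9.1, H24, B11, H6]
    · rcases E24 with H24 | H24
      · exact g0_l0 B6 B16 B17 B20 B22 B25 B26 B27 B30 B36 E3 E5 E12 E23 E25 E26 E28 H20 H24
      · linarith only [H24, H9.2, B39, H6]
  · rcases E24 with H24 | H24
    · exact g0_l1 B16 B17 B20 B22 B25 B26 B27 B36 E5 E27 H20 H24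
    · rcases E9 with H9 | H9
      · linarith only [H9.1, H24, B11, H6]
      · linarith only [H24, H9.2, B39, H6]

theorem g1_l0 {a1 a2 a3 b1 b2 b3 e h h3 hp k n1 n3 p1 y : ℤ}
    (B6 : 0 ≤ n1 - a1)
    (B16 : 0 ≤ a1 + a2 - b1 - b2 - e)
    (B17 : 0 ≤ e - 1)
    (B22 : 0 ≤ -a1 + b1)
    (B25 : 0 ≤ n1 - b1 - hp)
    (B26 : 0 ≤ b2 - hp - 1)
    (B30 : 0 ≤ a3 - k - 1)
    (B31 : 0 ≤ n1 - a1 - h)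
    (B36 : 0 ≤ hp)
    (E3 : 0 ≤ h3 - n1 + a1 ∨ 0 ≤ h3 - a2 - a3 + 1)
    (E26 : 0 ≤ -hp - h3 - 1 ∨ 0 ≤ -k - 1 ∨ 0 ≤ -n3 + b3 + y + 1)
    (E29 : (0 ≤ b1 + b2 - 1 ∧ 0 ≤ hp - 1) ∨ (0 ≤ b1 + b2 - 1 ∧ 0 ≤ -hp ∧ 0 ≤ hp ∧ 0 ≤ -y + n3 - b3 - 2) ∨ 0 ≤ h3 - 1 ∨ (0 ≤ -h3 ∧ 0 ≤ h3 ∧ 0 ≤ -p1 - 2) ∨ (0 ≤ -h3 ∧ 0 ≤ h3 ∧ 0 ≤ p1 + 1 ∧ 0 ≤ -p1 - 1 ∧ 0 ≤ k + 1) ∨ 0 ≤ h - 1)
    (H12 : 0 ≤ -k ∧ 0 ≤ p1)
    (H13 : 0 ≤ k ∧ 0 ≤ -p1)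
    (H25 : 0 ≤ -h3) : False := by
  rcases E3 with H3 | H3
  · rcases E26 with H26 | H26 | H26
    · linarith only [B36, B6, H26, H3]
    · linarith only [H26, H13.1]
    · rcases E29 with H29 | H29 | H29 | H29 | H29 | H29
      · linarith only [H29.2, B22, B25, H25, H3]
      · linarith only [H29.2.2.2, H26]
      · linarith only [H29, H25]
      · linarith only [H29.2.2, H12.2]
      · linarith only [H29.2.2.2.1, H12.2]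
      · linarith only [H29, B31, H25, H3]
  · linarith only [B30, B36, B17, B26, B16, H3, H25, B22, H13.1]

theorem g1_l1 {a1 a2 a3 b1 b2 e h h3 hp k n1 p1 p3 y : ℤ}
    (B2 : 0 ≤ a3)
    (B16 : 0 ≤ a1 + a2 - b1 - b2 - e)
    (B17 : 0 ≤ e - 1)
    (B20 : 0 ≤ y - 1)
    (B22 : 0 ≤ -a1 + b1)
    (B25 : 0 ≤ n1 - b1 - hp)
    (B26 : 0 ≤ b2 - hp - 1)
    (B31 : 0 ≤ n1 - a1 - h)
    (B36 : 0 ≤ hp)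
    (E3 : 0 ≤ h3 - n1 + a1 ∨ 0 ≤ h3 - a2 - a3 + 1)
    (E28 : (0 ≤ b1 + b2 - 1 ∧ 0 ≤ hp - 1) ∨ 0 ≤ h3 - 1 ∨ (0 ≤ -h3 ∧ 0 ≤ h3 ∧ 0 ≤ k) ∨ (0 ≤ -h3 ∧ 0 ≤ h3 ∧ 0 ≤ -k - 1 ∧ 0 ≤ k + 1 ∧ 0 ≤ -p3 - y - 1) ∨ 0 ≤ h - 1)
    (H13 : 0 ≤ -k - 1 ∧ 0 ≤ p1 - y)
    (H20 : 0 ≤ -k - 1 ∧ 0 ≤ p3)
    (H25 : 0 ≤ -h3) : False := by
  rcases E3 with H3 | H3
  · rcases E28 with H28 | H28 | H28 | H28 | H28
    · linarith only [H28.2, B22, B25, H25, H3]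
    · linarith only [H28, H25]
    · linarith only [H13.1, H28.2.2]
    · linarith only [B20, H28.2.2.2.2, H20.2]
    · linarith only [H28, B31, H25, H3]
  · linarith only [B26, B36, H3, B17, B16, H25, B22, B2]

theorem g1 {a1 a2 a3 b1 b2 b3 e h h3 hp k m n1 n2 n3 p1 p2 p3 y : ℤ}
    (B2 : 0 ≤ a3)
    (B6 : 0 ≤ n1 - a1)
    (B7 : 0 ≤ n2 - a2)
    (B16 : 0 ≤ a1 + a2 - b1 - b2 - e)
    (B17 : 0 ≤ e - 1)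
    (B20 : 0 ≤ y - 1)
    (B22 : 0 ≤ -a1 + b1)
    (B25 : 0 ≤ n1 - b1 - hp)
    (B26 : 0 ≤ b2 - hp - 1)
    (B30 : 0 ≤ a3 - k - 1)
    (B31 : 0 ≤ n1 - a1 - h)
    (B33 : 0 ≤ y - m)
    (B35 : 0 ≤ b1 + b2 - 1)
    (B36 : 0 ≤ hp)
    (B38 : 0 ≤ -y + n3 - b3 - 1)
    (D0 : (0 ≤ a1 - 1 ∧ 0 ≤ n2 - a2 - 1) ∨ (0 ≤ b1 - 1 ∧ 0 ≤ n2 - b2 - 1))
    (D3 : 0 ≤ h3 - n1 + a1 ∨ 0 ≤ h3 - a2 - a3 + 1)
    (D4 : 0 ≤ k - n1 + a1 - n2 + a2 ∨ 0 ≤ k - a3 + 1)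
    (D12 : (0 ≤ k - 1 ∧ 0 ≤ -y - p1) ∨ (0 ≤ -k ∧ 0 ≤ p1))
    (D13 : (0 ≤ k ∧ 0 ≤ -p1) ∨ (0 ≤ -k - 1 ∧ 0 ≤ p1 - y))
    (D16 : (0 ≤ n2 - b2 - 2 ∧ 0 ≤ -y - p2) ∨ (0 ≤ -n2 + b2 + 1 ∧ 0 ≤ p2))
    (D17 : (0 ≤ n2 - b2 - 1 ∧ 0 ≤ -p2) ∨ (0 ≤ -n2 + b2 ∧ 0 ≤ p2 - y))
    (D20 : (0 ≤ k ∧ 0 ≤ -y - p3) ∨ (0 ≤ -k - 1 ∧ 0 ≤ p3))
    (D21 : (0 ≤ k + 1 ∧ 0 ≤ -p3) ∨ (0 ≤ -k - 2 ∧ 0 ≤ p3 - y))
    (D25 : 0 ≤ -b1 ∨ 0 ≤ -h3 ∨ 0 ≤ -n2 + b2 - k - 1 ∨ 0 ≤ -n2 + b2 - n3 + b3 + y + 1)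
    (D26 : 0 ≤ -b1 - b2 ∨ 0 ≤ -hp - h3 - 1 ∨ 0 ≤ -k - 1 ∨ 0 ≤ -n3 + b3 + y + 1)
    (D27 : 0 ≤ -b1 - b2 ∨ 0 ≤ -hp - h3 - 1 ∨ 0 ≤ -k ∨ 0 ≤ -n3 + b3 + 1)
    (D28 : ((0 ≤ b1 + b2 - 1 ∧ 0 ≤ hp - 1)) ∨ (0 ≤ h3 - 1 ∨ (0 ≤ -h3 ∧ 0 ≤ h3 ∧ 0 ≤ k) ∨ (0 ≤ -h3 ∧ 0 ≤ h3 ∧ 0 ≤ -k - 1 ∧ 0 ≤ k + 1 ∧ 0 ≤ -p3 - y - 1)) ∨ (0 ≤ h - 1 ∨ (0 ≤ -h ∧ 0 ≤ h ∧ 0 ≤ m - y - 1)))
    (D29 : ((0 ≤ b1 + b2 - 1 ∧ 0 ≤ hp - 1) ∨ (0 ≤ b1 + b2 - 1 ∧ 0 ≤ -hp ∧ 0 ≤ hp ∧ 0 ≤ -y + n3 - b3 - 2)) ∨ (0 ≤ h3 - 1 ∨ (0 ≤ -h3 ∧ 0 ≤ h3 ∧ 0 ≤ -p1 - 2) ∨ (0 ≤ -h3 ∧ 0 ≤ h3 ∧ 0 ≤ p1 + 1 ∧ 0 ≤ -p1 - 1 ∧ 0 ≤ k + 1)) ∨ (0 ≤ h - 1 ∨ (0 ≤ -h ∧ 0 ≤ h ∧ 0 ≤ -y + m - 2) ∨ (0 ≤ -h ∧ 0 ≤ h ∧ 0 ≤ y - m + 1 ∧ 0 ≤ -y + m - 1))) : False := by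
  have E0 := D0
  have E3 := D3
  have E4 := D4
  have E12 := D12
  have E13 := D13
  have E16 := D16
  have E17 : (0 ≤ n2 - b2 - 1 ∧ 0 ≤ -p2) := by
    rcases D17 with H17 | H17
    · exact H17
    · linarith only [H17.1, B17, B22, B7, B16]
  have E20 := D20
  have E21 := D21
  have E25 : 0 ≤ -b1 ∨ 0 ≤ -h3 ∨ 0 ≤ -n2 + b2 - k - 1 := by
    rcases D25 with H25 | H25 | H25 | H25
    · exact Or.inl H25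
    · exact Or.inr (Or.inl H25)
    · exact Or.inr (Or.inr H25)
    · linarith only [H25, B17, B22, B7, B38, B16]
  have E26 : 0 ≤ -hp - h3 - 1 ∨ 0 ≤ -k - 1 ∨ 0 ≤ -n3 + b3 + y + 1 := by
    rcases D26 with H26 | H26 | H26 | H26
    · linarith only [H26, B35]
    · exact Or.inl H26
    · exact Or.inr (Or.inl H26)
    · exact Or.inr (Or.inr H26)
  have E27 : 0 ≤ -hp - h3 - 1 ∨ 0 ≤ -k := by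
    rcases D27 with H27 | H27 | H27 | H27
    · linarith only [H27, B35]
    · exact Or.inl H27
    · exact Or.inr H27
    · linarith only [B20, B38, H27]
  have E28 : (0 ≤ b1 + b2 - 1 ∧ 0 ≤ hp - 1) ∨ 0 ≤ h3 - 1 ∨ (0 ≤ -h3 ∧ 0 ≤ h3 ∧ 0 ≤ k) ∨ (0 ≤ -h3 ∧ 0 ≤ h3 ∧ 0 ≤ -k - 1 ∧ 0 ≤ k + 1 ∧ 0 ≤ -p3 - y - 1) ∨ 0 ≤ h - 1 := by
    rcases D28 with H28 | (H28 | H28 | H28) | (H28 | H28)
    · exact Or.inl H28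
    · exact Or.inr (Or.inl H28)
    · exact Or.inr (Or.inr (Or.inl H28))
    · exact Or.inr (Or.inr (Or.inr (Or.inl H28)))
    · exact Or.inr (Or.inr (Or.inr (Or.inr H28)))
    · linarith only [B33, H28.2.2]
  have E29 : (0 ≤ b1 + b2 - 1 ∧ 0 ≤ hp - 1) ∨ (0 ≤ b1 + b2 - 1 ∧ 0 ≤ -hp ∧ 0 ≤ hp ∧ 0 ≤ -y + n3 - b3 - 2) ∨ 0 ≤ h3 - 1 ∨ (0 ≤ -h3 ∧ 0 ≤ h3 ∧ 0 ≤ -p1 - 2) ∨ (0 ≤ -h3 ∧ 0 ≤ h3 ∧ 0 ≤ p1 + 1 ∧ 0 ≤ -p1 - 1 ∧ 0 ≤ k + 1) ∨ 0 ≤ h - 1 := by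
    rcases D29 with (H29 | H29) | (H29 | H29 | H29) | (H29 | H29 | H29)
    · exact Or.inl H29
    · exact Or.inr (Or.inl H29)
    · exact Or.inr (Or.inr (Or.inl H29))
    · exact Or.inr (Or.inr (Or.inr (Or.inl H29)))
    · exact Or.inr (Or.inr (Or.inr (Or.inr (Or.inl H29))))
    · exact Or.inr (Or.inr (Or.inr (Or.inr (Or.inr H29))))
    · linarith only [B33, H29.2.2]
    · linarith only [B33, H29.2.2.2]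
  have H17 := E17
  rcases E13 with H13 | H13
  · rcases E27 with H27 | H27
    · rcases E3 with H3 | H3
      · linarith only [B36, B6, H27, H3]
      · linarith only [B30, H13.1, B16, B22, B36, H3, H27, B17, B26]
    · rcases E12 with H12 | H12
      · linarith only [H12.1, H27]
      · rcases E16 with H16 | H16
        · rcases E25 with H25 | H25 | H25
          · rcases E0 with H0 | H0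
            · linarith only [H25, H0.1, B22]
            · linarith only [H25, H0.1]
          · exact g1_l0 B6 B16 B17 B22 B25 B26 B30 B31 B36 E3 E26 E29 H12 H13 H25
          · linarith only [H16.1, H25, H13.1]
        · rcases E0 with H0 | H0
          · linarith only [B17, H16.1, B22, H0.2, B16]
          · rcases E25 with H25 | H25 | H25
            · linarith only [H25, H0.1]
            · exact g1_l0 B6 B16 B17 B22 B25 B26 B30 B31 B36 E3 E26 E29 H12 H13 H25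
            · linarith only [H17.1, H25, H13.1]
  · rcases E4 with H4 | H4
    · linarith only [H13.1, B6, B7, H4]
    · rcases E21 with H21 | H21
      · rcases E20 with H20 | H20
        · linarith only [H13.1, H20.1]
        · rcases E25 with H25 | H25 | H25
          · rcases E0 with H0 | H0
            · linarith only [H25, B22, H0.1]
            · linarith only [H25, H0.1]
          · exact g1_l1 B2 B16 B17 B20 B22 B25 B26 B31 B36 E3 E28 H13 H20 H25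
          · linarith only [H21.1, H17.1, H25]
      · linarith only [B2, H21.1, H4]

theorem g2 {a1 a2 a3 b1 b2 b3 e h3 hp k n1 n2 n3 p1 p2 y : ℤ}
    (B6 : 0 ≤ n1 - a1)
    (B7 : 0 ≤ n2 - a2)
    (B11 : 0 ≤ n3 - b3)
    (B16 : 0 ≤ a1 + a2 - b1 - b2 - e)
    (B17 : 0 ≤ e - 1)
    (B20 : 0 ≤ y - 1)
    (B22 : 0 ≤ -a1 + b1)
    (B25 : 0 ≤ n1 - b1 - hp)
    (B26 : 0 ≤ b2 - hp - 1)
    (B30 : 0 ≤ a3 - k - 1)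
    (B35 : 0 ≤ b1 + b2 - 1)
    (B36 : 0 ≤ hp)
    (B37 : 0 ≤ -p1 - 1)
    (D0 : (0 ≤ a1 - 1 ∧ 0 ≤ n2 - a2 - 1) ∨ (0 ≤ b1 - 1 ∧ 0 ≤ n2 - b2 - 1))
    (D3 : 0 ≤ h3 - n1 + a1 ∨ 0 ≤ h3 - a2 - a3 + 1)
    (D12 : (0 ≤ k - 1 ∧ 0 ≤ -y - p1) ∨ (0 ≤ -k ∧ 0 ≤ p1))
    (D17 : (0 ≤ n2 - b2 - 1 ∧ 0 ≤ -p2) ∨ (0 ≤ -n2 + b2 ∧ 0 ≤ p2 - y))
    (D23 : 0 ≤ hp - 1 ∨ 0 ≤ -y + n3 - b3 - 1)
    (D25 : 0 ≤ -b1 ∨ 0 ≤ -h3 ∨ 0 ≤ -n2 + b2 - k + 1 ∨ 0 ≤ -n2 + b2 - n3 + b3 - y + 1)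
    (D26 : 0 ≤ -b1 - b2 ∨ 0 ≤ -hp - h3 - 1 ∨ 0 ≤ -k ∨ 0 ≤ -n3 + b3 + 1) : False := by
  have E0 := D0
  have E3 := D3
  have E12 : (0 ≤ k - 1 ∧ 0 ≤ -y - p1) := by
    rcases D12 with H12 | H12
    · exact H12
    · linarith only [B37, H12.2]
  have E17 : (0 ≤ n2 - b2 - 1 ∧ 0 ≤ -p2) := by
    rcases D17 with H17 | H17
    · exact H17
    · linarith only [H17.1, B17, B22, B7, B16]
  have E23 := D23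
  have E25 : 0 ≤ -b1 ∨ 0 ≤ -h3 ∨ 0 ≤ -n2 + b2 - k + 1 := by
    rcases D25 with H25 | H25 | H25 | H25
    · exact Or.inl H25
    · exact Or.inr (Or.inl H25)
    · exact Or.inr (Or.inr H25)
    · linarith only [B20, H25, B17, B22, B7, B11, B16]
  have E26 : 0 ≤ -hp - h3 - 1 ∨ 0 ≤ -k ∨ 0 ≤ -n3 + b3 + 1 := by
    rcases D26 with H26 | H26 | H26 | H26
    · linarith only [H26, B35]
    · exact Or.inl H26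
    · exact Or.inr (Or.inl H26)
    · exact Or.inr (Or.inr H26)
  have H17 := E17
  have H12 := E12
  rcases E3 with H3 | H3
  · rcases E26 with H26 | H26 | H26
    · linarith only [B36, B6, H26, H3]
    · linarith only [H12.1, H26]
    · rcases E23 with H23 | H23
      · rcases E25 with H25 | H25 | H25
        · rcases E0 with H0 | H0
          · linarith only [H0.1, B22, H25]
          · linarith only [H0.1, H25]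
        · linarith only [H23, H25, B25, B22, H3]
        · linarith only [H17.1, H25, H12.1]
      · linarith only [H23, B20, H26]
  · rcases E25 with H25 | H25 | H25
    · rcases E0 with H0 | H0
      · linarith only [H25, H0.1, B22]
      · linarith only [H25, H0.1]
    · linarith only [B17, B26, B36, B30, B16, B22, H12.1, H3, H25]
    · linarith only [H12.1, H25, H17.1]

theorem g3 {m y : ℤ}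
    (B33 : 0 ≤ y - m)
    (B37 : 0 ≤ -y + m - 1) : False := by
  linarith only [B33, B37]

theorem g4_l0 {a1 a2 a3 b1 b2 b3 e h h3 hp k m n1 n3 p1 y : ℤ}
    (B4 : 0 ≤ b2)
    (B6 : 0 ≤ n1 - a1)
    (B16 : 0 ≤ a1 + a2 - b1 - b2 - e)
    (B17 : 0 ≤ e - 1)
    (B20 : 0 ≤ y - 1)
    (B22 : 0 ≤ -a1 + b1)
    (B25 : 0 ≤ n1 - b1 - hp)
    (B26 : 0 ≤ b2 - hp - 1)
    (B30 : 0 ≤ a3 - k - 1)
    (B35 : 0 ≤ h3)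
    (E3 : 0 ≤ h3 - n1 + a1 ∨ 0 ≤ h3 - a2 - a3 + 1)
    (E5 : 0 ≤ h - n1 + a1 ∨ 0 ≤ h - a2 + 1)
    (E11 : (0 ≤ k - 2 ∧ 0 ≤ -2 * y - p1) ∨ (0 ≤ -k + 1 ∧ 0 ≤ p1 + y))
    (E12 : (0 ≤ k - 1 ∧ 0 ≤ -y - p1) ∨ (0 ≤ -k ∧ 0 ≤ p1))
    (E23 : 0 ≤ h3 - 1 ∨ 0 ≤ -p1 - 1)
    (E26 : 0 ≤ -h3 - h - 1 ∨ 0 ≤ -k ∨ 0 ≤ -m + 1)
    (E27 : 0 ≤ -hp - h3 - 1 ∨ 0 ≤ -k ∨ 0 ≤ -n3 + b3 + 1)
    (E28 : 0 ≤ -hp - h3 - 1 ∨ 0 ≤ -k + 1 ∨ 0 ≤ -n3 + b3 - y + 1)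
    (E29 : (0 ≤ b1 + b2 - 1 ∧ 0 ≤ hp - 1) ∨ (0 ≤ b1 + b2 - 1 ∧ 0 ≤ -hp ∧ 0 ≤ hp ∧ 0 ≤ n3 - b3 + y - 2) ∨ 0 ≤ h3 - 1 ∨ 0 ≤ h - 1 ∨ (0 ≤ -h ∧ 0 ≤ h ∧ 0 ≤ m - 2))
    (E30 : (0 ≤ b1 + b2 - 1 ∧ 0 ≤ hp - 1) ∨ (0 ≤ b1 + b2 - 1 ∧ 0 ≤ -hp ∧ 0 ≤ hp ∧ 0 ≤ -y + n3 - b3 - 2) ∨ (0 ≤ b1 + b2 - 1 ∧ 0 ≤ -hp ∧ 0 ≤ hp ∧ 0 ≤ y - n3 + b3 + 1 ∧ 0 ≤ -y + n3 - b3 - 1 ∧ 0 ≤ n3 - b3 + y - 1) ∨ 0 ≤ h3 - 1 ∨ (0 ≤ -h3 ∧ 0 ≤ h3 ∧ 0 ≤ -p1 - 2) ∨ 0 ≤ h - 1)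
    (H6 : 0 ≤ m - y)
    (H13 : 0 ≤ k ∧ 0 ≤ -p1)
    (H24 : 0 ≤ -h3)
    (H25 : 0 ≤ -h) : False := by
  rcases E23 with H23 | H23
  · linarith only [H23, H24]
  · rcases E3 with H3 | H3
    · rcases E12 with H12 | H12
      · rcases E29 with H29 | H29 | H29 | H29 | H29
        · linarith only [H29.2, B22, H24, B25, H3]
        · rcases E5 with H5 | H5
          · rcases E26 with H26 | H26 | H26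
            · linarith only [B35, B6, H26, H5]
            · linarith only [H26, H12.1]
            · rcases E27 with H27 | H27 | H27
              · linarith only [H29.2.2.1, H27, B35]
              · linarith only [H27, H12.1]
              · rcases E28 with H28 | H28 | H28
                · linarith only [H29.2.2.1, H28, B35]
                · rcases E11 with H11 | H11
                  · linarith only [H11.1, H28]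
                  · rcases E30 with H30 | H30 | H30 | H30 | H30 | H30
                    · linarith only [H29.2.1, H30.2]
                    · linarith only [H30.2.2.2, B20, H27]
                    · linarith only [H30.2.2.2.2.1, B20, H27]
                    · linarith only [H30, H24]
                    · linarith only [H26, H30.2.2, H11.2, H6]
                    · linarith only [H30, H25]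
                · linarith only [H29.2.2.2, H28]
          · linarith only [B26, H29.2.2.1, H5, B16, H25, B17, B22]
        · linarith only [H29, H24]
        · linarith only [H29, H25]
        · rcases E26 with H26 | H26 | H26
          · linarith only [B35, H26, H29.2.1]
          · linarith only [H26, H12.1]
          · linarith only [H29.2.2, H26]
      · linarith only [H23, H12.2]
    · linarith only [B30, B4, H13.1, B16, H3, H24, B17, B22]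

theorem g4 {a1 a2 a3 b1 b2 b3 e h h3 hp k m n1 n2 n3 p0 p1 p2 p3 y : ℤ}
    (B2 : 0 ≤ a3)
    (B4 : 0 ≤ b2)
    (B6 : 0 ≤ n1 - a1)
    (B7 : 0 ≤ n2 - a2)
    (B11 : 0 ≤ n3 - b3)
    (B16 : 0 ≤ a1 + a2 - b1 - b2 - e)
    (B17 : 0 ≤ e - 1)
    (B19 : 0 ≤ -a1 - a2 - a3 + b1 + b2 + b3 - y)
    (B20 : 0 ≤ y - 1)
    (B22 : 0 ≤ -a1 + b1)
    (B25 : 0 ≤ n1 - b1 - hp)
    (B26 : 0 ≤ b2 - hp - 1)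
    (B27 : 0 ≤ n1 - a1 - h3)
    (B28 : 0 ≤ a2 + a3 - h3 - 1)
    (B30 : 0 ≤ a3 - k - 1)
    (B33 : 0 ≤ y - m)
    (B35 : 0 ≤ h3)
    (B36 : 0 ≤ b1 - 1)
    (B38 : 0 ≤ -p0 + n2 - b2 + n3 - b3 + y - 2)
    (D3 : 0 ≤ h3 - n1 + a1 ∨ 0 ≤ h3 - a2 - a3 + 1)
    (D4 : 0 ≤ k - n1 + a1 - n2 + a2 ∨ 0 ≤ k - a3 + 1)
    (D5 : 0 ≤ h - n1 + a1 ∨ 0 ≤ h - a2 + 1)
    (D6 : 0 ≤ m - y ∨ 0 ≤ m - n3 + a3)
    (D9 : (0 ≤ n2 - b2 - 2 ∧ 0 ≤ -p0) ∨ (0 ≤ -n2 + b2 + 1 ∧ 0 ≤ p0 - y))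
    (D11 : (0 ≤ k - 2 ∧ 0 ≤ -2 * y - p1) ∨ (0 ≤ -k + 1 ∧ 0 ≤ p1 + y))
    (D12 : (0 ≤ k - 1 ∧ 0 ≤ -y - p1) ∨ (0 ≤ -k ∧ 0 ≤ p1))
    (D13 : (0 ≤ k ∧ 0 ≤ -p1) ∨ (0 ≤ -k - 1 ∧ 0 ≤ p1 - y))
    (D17 : (0 ≤ n2 - b2 - 1 ∧ 0 ≤ -p2) ∨ (0 ≤ -n2 + b2 ∧ 0 ≤ p2 - y))
    (D21 : (0 ≤ k + 1 ∧ 0 ≤ -p3) ∨ (0 ≤ -k - 2 ∧ 0 ≤ p3 - y))
    (D23 : 0 ≤ h3 - 1 ∨ 0 ≤ -p1 - 1)
    (D24 : 0 ≤ -b1 ∨ 0 ≤ -h3 ∨ 0 ≤ -n2 + b2 - k ∨ 0 ≤ -n2 + b2 - n3 + b3 + 1)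
    (D25 : 0 ≤ -b1 ∨ 0 ≤ -h ∨ 0 ≤ -n2 + b2 ∨ 0 ≤ -n2 + b2 - n3 + b3 - m + y + 1)
    (D26 : 0 ≤ -h3 - h - 1 ∨ 0 ≤ -k ∨ 0 ≤ -m + 1)
    (D27 : 0 ≤ -b1 - b2 ∨ 0 ≤ -hp - h3 - 1 ∨ 0 ≤ -k ∨ 0 ≤ -n3 + b3 + 1)
    (D28 : 0 ≤ -b1 - b2 ∨ 0 ≤ -hp - h3 - 1 ∨ 0 ≤ -k + 1 ∨ 0 ≤ -n3 + b3 - y + 1)
    (D29 : ((0 ≤ b1 + b2 - 1 ∧ 0 ≤ hp - 1) ∨ (0 ≤ b1 + b2 - 1 ∧ 0 ≤ -hp ∧ 0 ≤ hp ∧ 0 ≤ n3 - b3 + y - 2) ∨ (0 ≤ b1 + b2 - 1 ∧ 0 ≤ -hp ∧ 0 ≤ hp ∧ 0 ≤ -n3 + b3 - y + 1 ∧ 0 ≤ n3 - b3 + y - 1 ∧ 0 ≤ -y + n3 - b3 - 1)) ∨ (0 ≤ h3 - 1) ∨ (0 ≤ h - 1 ∨ (0 ≤ -h ∧ 0 ≤ h ∧ 0 ≤ m - 2) ∨ (0 ≤ -h ∧ 0 ≤ h ∧ 0 ≤ -m + 1 ∧ 0 ≤ m - 1 ∧ 0 ≤ -y + m - 1)))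
    (D30 : ((0 ≤ b1 + b2 - 1 ∧ 0 ≤ hp - 1) ∨ (0 ≤ b1 + b2 - 1 ∧ 0 ≤ -hp ∧ 0 ≤ hp ∧ 0 ≤ -y + n3 - b3 - 2) ∨ (0 ≤ b1 + b2 - 1 ∧ 0 ≤ -hp ∧ 0 ≤ hp ∧ 0 ≤ y - n3 + b3 + 1 ∧ 0 ≤ -y + n3 - b3 - 1 ∧ 0 ≤ n3 - b3 + y - 1)) ∨ (0 ≤ h3 - 1 ∨ (0 ≤ -h3 ∧ 0 ≤ h3 ∧ 0 ≤ -p1 - 2)) ∨ (0 ≤ h - 1 ∨ (0 ≤ -h ∧ 0 ≤ h ∧ 0 ≤ -y + m - 2) ∨ (0 ≤ -h ∧ 0 ≤ h ∧ 0 ≤ y - m + 1 ∧ 0 ≤ -y + m - 1 ∧ 0 ≤ m - 1))) : False := by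
  have E3 := D3
  have E4 := D4
  have E5 := D5
  have E6 : 0 ≤ m - y := by
    rcases D6 with H6 | H6
    · exact H6
    · linarith only [B17, H6, B33, B11, B16, B19]
  have E9 := D9
  have E11 := D11
  have E12 := D12
  have E13 := D13
  have E17 : (0 ≤ n2 - b2 - 1 ∧ 0 ≤ -p2) := by
    rcases D17 with H17 | H17
    · exact H17
    · linarith only [H17.1, B17, B22, B7, B16]
  have E21 := D21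
  have E23 := D23
  have E24 : 0 ≤ -h3 ∨ 0 ≤ -n2 + b2 - k ∨ 0 ≤ -n2 + b2 - n3 + b3 + 1 := by
    rcases D24 with H24 | H24 | H24 | H24
    · linarith only [H24, B36]
    · exact Or.inl H24
    · exact Or.inr (Or.inl H24)
    · exact Or.inr (Or.inr H24)
  have E25 : 0 ≤ -h ∨ 0 ≤ -n2 + b2 - n3 + b3 - m + y + 1 := by
    rcases D25 with H25 | H25 | H25 | H25
    · linarith only [H25, B36]
    · exact Or.inl H25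
    · linarith only [H25, B17, B22, B7, B16]
    · exact Or.inr H25
  have E26 := D26
  have E27 : 0 ≤ -hp - h3 - 1 ∨ 0 ≤ -k ∨ 0 ≤ -n3 + b3 + 1 := by
    rcases D27 with H27 | H27 | H27 | H27
    · linarith only [B4, H27, B36]
    · exact Or.inl H27
    · exact Or.inr (Or.inl H27)
    · exact Or.inr (Or.inr H27)
  have E28 : 0 ≤ -hp - h3 - 1 ∨ 0 ≤ -k + 1 ∨ 0 ≤ -n3 + b3 - y + 1 := by
    rcases D28 with H28 | H28 | H28 | H28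
    · linarith only [B4, H28, B36]
    · exact Or.inl H28
    · exact Or.inr (Or.inl H28)
    · exact Or.inr (Or.inr H28)
  have E29 : (0 ≤ b1 + b2 - 1 ∧ 0 ≤ hp - 1) ∨ (0 ≤ b1 + b2 - 1 ∧ 0 ≤ -hp ∧ 0 ≤ hp ∧ 0 ≤ n3 - b3 + y - 2) ∨ 0 ≤ h3 - 1 ∨ 0 ≤ h - 1 ∨ (0 ≤ -h ∧ 0 ≤ h ∧ 0 ≤ m - 2) := by
    rcases D29 with (H29 | H29 | H29) | H29 | (H29 | H29 | H29)
    · exact Or.inl H29
    · exact Or.inr (Or.inl H29)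
    · linarith only [B20, H29.2.2.2.2.2, H29.2.2.2.1]
    · exact Or.inr (Or.inr (Or.inl H29))
    · exact Or.inr (Or.inr (Or.inr (Or.inl H29)))
    · exact Or.inr (Or.inr (Or.inr (Or.inr H29)))
    · linarith only [B33, H29.2.2.2.2]
  have E30 : (0 ≤ b1 + b2 - 1 ∧ 0 ≤ hp - 1) ∨ (0 ≤ b1 + b2 - 1 ∧ 0 ≤ -hp ∧ 0 ≤ hp ∧ 0 ≤ -y + n3 - b3 - 2) ∨ (0 ≤ b1 + b2 - 1 ∧ 0 ≤ -hp ∧ 0 ≤ hp ∧ 0 ≤ y - n3 + b3 + 1 ∧ 0 ≤ -y + n3 - b3 - 1 ∧ 0 ≤ n3 - b3 + y - 1) ∨ 0 ≤ h3 - 1 ∨ (0 ≤ -h3 ∧ 0 ≤ h3 ∧ 0 ≤ -p1 - 2) ∨ 0 ≤ h - 1 := by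
    rcases D30 with (H30 | H30 | H30) | (H30 | H30) | (H30 | H30 | H30)
    · exact Or.inl H30
    · exact Or.inr (Or.inl H30)
    · exact Or.inr (Or.inr (Or.inl H30))
    · exact Or.inr (Or.inr (Or.inr (Or.inl H30)))
    · exact Or.inr (Or.inr (Or.inr (Or.inr (Or.inl H30))))
    · exact Or.inr (Or.inr (Or.inr (Or.inr (Or.inr H30))))
    · linarith only [B33, H30.2.2]
    · linarith only [B33, H30.2.2.2.1]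
  have H6 := E6
  have H17 := E17
  rcases E13 with H13 | H13
  · rcases E9 with H9 | H9
    · rcases E25 with H25 | H25
      · rcases E24 with H24 | H24 | H24
        · exact g4_l0 B4 B6 B16 B17 B20 B22 B25 B26 B30 B35 E3 E5 E11 E12 E23 E26 E27 E28 E29 E30 H6 H13 H24 H25
        · linarith only [H9.1, H24, H13.1]
        · linarith only [H9.1, B11, H24]
      · linarith only [H9.1, H25, B11, H6]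
    · rcases E25 with H25 | H25
      · rcases E24 with H24 | H24 | H24
        · exact g4_l0 B4 B6 B16 B17 B20 B22 B25 B26 B30 B35 E3 E5 E11 E12 E23 E26 E27 E28 E29 E30 H6 H13 H24 H25
        · linarith only [H17.1, H24, H13.1]
        · linarith only [H9.2, B38, H24]
      · linarith only [H25, H9.2, B38, H6]
  · rcases E23 with H23 | H23
    · rcases E4 with H4 | H4
      · linarith only [B27, H13.1, H23, B7, H4]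
      · rcases E21 with H21 | H21
        · rcases E9 with H9 | H9
          · rcases E24 with H24 | H24 | H24
            · linarith only [H23, H24]
            · linarith only [H9.1, H21.1, H24]
            · linarith only [H9.1, B11, H24]
          · rcases E25 with H25 | H25
            · rcases E5 with H5 | H5
              · linarith only [H25, B27, H23, H5]
              · linarith only [B28, H13.1, H25, H5, H23, H4]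
            · linarith only [H25, H9.2, B38, H6]
        · linarith only [B2, H21.1, H4]
    · linarith only [B20, H13.2, H23]

theorem g5 {a1 a2 a3 b1 b2 b3 e h h3 hp k m n1 n2 n3 p0 p1 p2 y : ℤ}
    (B2 : 0 ≤ a3)
    (B4 : 0 ≤ b2)
    (B7 : 0 ≤ n2 - a2)
    (B9 : 0 ≤ n1 - b1)
    (B12 : 0 ≤ n1 - 1)
    (B16 : 0 ≤ a1 + a2 - b1 - b2 - e)
    (B17 : 0 ≤ e - 1)
    (B20 : 0 ≤ y - 1)
    (B22 : 0 ≤ -a1 + b1)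
    (B27 : 0 ≤ n1 - a1 - h3)
    (B29 : 0 ≤ n1 - a1 + n2 - a2 - k)
    (B30 : 0 ≤ a3 - k - 1)
    (B31 : 0 ≤ n1 - a1 - h)
    (B33 : 0 ≤ y - m)
    (B35 : 0 ≤ h3)
    (B36 : 0 ≤ b1 + b2 - 1)
    (B37 : 0 ≤ -y + n3 - b3 - 1)
    (D0 : (0 ≤ a1 - 1 ∧ 0 ≤ n2 - a2 - 1) ∨ (0 ≤ b1 - 1 ∧ 0 ≤ n2 - b2 - 1))
    (D1 : (0 ≤ a2 - 1 ∧ 0 ≤ n3 - a3 - 1) ∨ (0 ≤ b2 - 1 ∧ 0 ≤ n3 - b3 - 1))
    (D2 : 0 ≤ hp - n1 + b1 ∨ 0 ≤ hp - b2 + 1)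
    (D3 : 0 ≤ h3 - n1 + a1 ∨ 0 ≤ h3 - a2 - a3 + 1)
    (D4 : 0 ≤ k - n1 + a1 - n2 + a2 ∨ 0 ≤ k - a3 + 1)
    (D9 : (0 ≤ n2 - b2 - 2 ∧ 0 ≤ -p0) ∨ (0 ≤ -n2 + b2 + 1 ∧ 0 ≤ p0 - y))
    (D12 : (0 ≤ k - 1 ∧ 0 ≤ -y - p1) ∨ (0 ≤ -k ∧ 0 ≤ p1))
    (D13 : (0 ≤ k ∧ 0 ≤ -p1) ∨ (0 ≤ -k - 1 ∧ 0 ≤ p1 - y))
    (D17 : (0 ≤ n2 - b2 - 1 ∧ 0 ≤ -p2) ∨ (0 ≤ -n2 + b2 ∧ 0 ≤ p2 - y))
    (D23 : 0 ≤ h3 - 1 ∨ 0 ≤ -p1 - 1)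
    (D25 : 0 ≤ -b1 ∨ 0 ≤ -h3 ∨ 0 ≤ -n2 + b2 - k - 1 ∨ 0 ≤ -n2 + b2 - n3 + b3 + y + 1)
    (D26 : 0 ≤ -b1 - b2 ∨ 0 ≤ -hp - h3 - 1 ∨ 0 ≤ -k ∨ 0 ≤ -n3 + b3 + 1)
    (D27 : 0 ≤ -h3 - h - 1 ∨ 0 ≤ -k ∨ 0 ≤ -m + 1)
    (D28 : ((0 ≤ b1 + b2 - 1 ∧ 0 ≤ hp - 1) ∨ (0 ≤ b1 + b2 - 1 ∧ 0 ≤ -hp ∧ 0 ≤ hp ∧ 0 ≤ n3 - b3 + y - 2) ∨ (0 ≤ b1 + b2 - 1 ∧ 0 ≤ -hp ∧ 0 ≤ hp ∧ 0 ≤ -n3 + b3 - y + 1 ∧ 0 ≤ n3 - b3 + y - 1 ∧ 0 ≤ -y + n3 - b3 - 1)) ∨ (0 ≤ h3 - 1) ∨ (0 ≤ h - 1 ∨ (0 ≤ -h ∧ 0 ≤ h ∧ 0 ≤ m - 2) ∨ (0 ≤ -h ∧ 0 ≤ h ∧ 0 ≤ -m + 1 ∧ 0 ≤ m - 1 ∧ 0 ≤ -y + m - 1))) : False := by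
  have E0 := D0
  have E1 := D1
  have E2 := D2
  have E3 := D3
  have E4 := D4
  have E9 := D9
  have E12 := D12
  have E13 := D13
  have E17 : (0 ≤ n2 - b2 - 1 ∧ 0 ≤ -p2) := by
    rcases D17 with H17 | H17
    · exact H17
    · linarith only [H17.1, B17, B22, B7, B16]
  have E23 := D23
  have E25 : 0 ≤ -b1 ∨ 0 ≤ -h3 ∨ 0 ≤ -n2 + b2 - k - 1 := by
    rcases D25 with H25 | H25 | H25 | H25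
    · exact Or.inl H25
    · exact Or.inr (Or.inl H25)
    · exact Or.inr (Or.inr H25)
    · linarith only [H25, B17, B22, B7, B37, B16]
  have E26 : 0 ≤ -hp - h3 - 1 ∨ 0 ≤ -k := by
    rcases D26 with H26 | H26 | H26 | H26
    · linarith only [H26, B36]
    · exact Or.inl H26
    · exact Or.inr H26
    · linarith only [B20, B37, H26]
  have E27 := D27
  have E28 : (0 ≤ b1 + b2 - 1 ∧ 0 ≤ hp - 1) ∨ (0 ≤ b1 + b2 - 1 ∧ 0 ≤ -hp ∧ 0 ≤ hp ∧ 0 ≤ n3 - b3 + y - 2) ∨ 0 ≤ h3 - 1 ∨ 0 ≤ h - 1 ∨ (0 ≤ -h ∧ 0 ≤ h ∧ 0 ≤ m - 2) := by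
    rcases D28 with (H28 | H28 | H28) | H28 | (H28 | H28 | H28)
    · exact Or.inl H28
    · exact Or.inr (Or.inl H28)
    · linarith only [B20, B37, H28.2.2.2.1]
    · exact Or.inr (Or.inr (Or.inl H28))
    · exact Or.inr (Or.inr (Or.inr (Or.inl H28)))
    · exact Or.inr (Or.inr (Or.inr (Or.inr H28)))
    · linarith only [B33, H28.2.2.2.2]
  have H17 := E17
  rcases E13 with H13 | H13
  · rcases E26 with H26 | H26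
    · rcases E2 with H2 | H2
      · linarith only [B9, H2, H26, B35]
      · rcases E1 with H1 | H1
        · rcases E3 with H3 | H3
          · rcases E23 with H23 | H23
            · linarith only [H23, H2, H26, B4]
            · rcases E12 with H12 | H12
              · rcases E9 with H9 | H9
                · rcases E25 with H25 | H25 | H25
                  · linarith only [B12, H25, H3, B22, H26, H2, B36]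
                  · rcases E28 with H28 | H28 | H28 | H28 | H28
                    · linarith only [H28.2, B35, H26]
                    · linarith only [H28.2.2.1, H26, B35]
                    · linarith only [H28, H25]
                    · linarith only [H25, B31, H28, H3]
                    · rcases E27 with H27 | H27 | H27
                      · linarith only [B35, H27, H28.2.1]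
                      · linarith only [H27, H12.1]
                      · linarith only [H28.2.2, H27]
                  · linarith only [H9.1, H25, H12.1]
                · linarith only [H12.1, H9.1, H3, H2, B29, H26, H1.1]
              · linarith only [H23, H12.2]
          · linarith only [B30, H2, H13.1, H3, H26, H1.1, B4]
        · linarith only [H1.1, H2, H26, B35]
    · rcases E12 with H12 | H12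
      · linarith only [H12.1, H26]
      · rcases E23 with H23 | H23
        · rcases E25 with H25 | H25 | H25
          · rcases E0 with H0 | H0
            · linarith only [H25, B22, H0.1]
            · linarith only [H25, H0.1]
          · linarith only [H23, H25]
          · linarith only [H17.1, H25, H13.1]
        · linarith only [H23, H12.2]
  · rcases E23 with H23 | H23
    · rcases E4 with H4 | H4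
      · linarith only [B27, H13.1, H23, B7, H4]
      · rcases E25 with H25 | H25 | H25
        · rcases E0 with H0 | H0
          · linarith only [H25, B22, H0.1]
          · linarith only [H25, H0.1]
        · linarith only [H23, H25]
        · linarith only [B2, H17.1, H25, H4]
    · linarith only [B20, H13.2, H23]

theorem g6 {a1 a2 a3 b1 b2 b3 e h h3 hp k m n1 n2 n3 p1 p2 y : ℤ}
    (B4 : 0 ≤ b2)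
    (B6 : 0 ≤ n1 - a1)
    (B7 : 0 ≤ n2 - a2)
    (B11 : 0 ≤ n3 - b3)
    (B16 : 0 ≤ a1 + a2 - b1 - b2 - e)
    (B17 : 0 ≤ e - 1)
    (B19 : 0 ≤ -a1 - a2 - a3 + b1 + b2 + b3 - y)
    (B20 : 0 ≤ y - 1)
    (B22 : 0 ≤ -a1 + b1)
    (B25 : 0 ≤ n1 - b1 - hp)
    (B26 : 0 ≤ b2 - hp - 1)
    (B30 : 0 ≤ a3 - k - 1)
    (B31 : 0 ≤ n1 - a1 - h)
    (B33 : 0 ≤ y - m)
    (B35 : 0 ≤ h3)
    (B36 : 0 ≤ -p1 - 1)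
    (D0 : (0 ≤ a1 - 1 ∧ 0 ≤ n2 - a2 - 1) ∨ (0 ≤ b1 - 1 ∧ 0 ≤ n2 - b2 - 1))
    (D3 : 0 ≤ h3 - n1 + a1 ∨ 0 ≤ h3 - a2 - a3 + 1)
    (D5 : 0 ≤ h - n1 + a1 ∨ 0 ≤ h - a2 + 1)
    (D6 : 0 ≤ m - y ∨ 0 ≤ m - n3 + a3)
    (D11 : (0 ≤ k - 2 ∧ 0 ≤ -2 * y - p1) ∨ (0 ≤ -k + 1 ∧ 0 ≤ p1 + y))
    (D12 : (0 ≤ k - 1 ∧ 0 ≤ -y - p1) ∨ (0 ≤ -k ∧ 0 ≤ p1))
    (D17 : (0 ≤ n2 - b2 - 1 ∧ 0 ≤ -p2) ∨ (0 ≤ -n2 + b2 ∧ 0 ≤ p2 - y))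
    (D25 : 0 ≤ -b1 ∨ 0 ≤ -h3 ∨ 0 ≤ -n2 + b2 - k + 1 ∨ 0 ≤ -n2 + b2 - n3 + b3 - y + 1)
    (D26 : 0 ≤ -h3 - h - 1 ∨ 0 ≤ -k ∨ 0 ≤ -m + 1)
    (D27 : 0 ≤ -b1 - b2 ∨ 0 ≤ -hp - h3 - 1 ∨ 0 ≤ -k ∨ 0 ≤ -n3 + b3 + 1)
    (D28 : 0 ≤ -b1 - b2 ∨ 0 ≤ -hp - h3 - 1 ∨ 0 ≤ -k + 1 ∨ 0 ≤ -n3 + b3 - y + 1)
    (D29 : ((0 ≤ b1 + b2 - 1 ∧ 0 ≤ hp - 1) ∨ (0 ≤ b1 + b2 - 1 ∧ 0 ≤ -hp ∧ 0 ≤ hp ∧ 0 ≤ n3 - b3 + y - 2) ∨ (0 ≤ b1 + b2 - 1 ∧ 0 ≤ -hp ∧ 0 ≤ hp ∧ 0 ≤ -n3 + b3 - y + 1 ∧ 0 ≤ n3 - b3 + y - 1 ∧ 0 ≤ -y + n3 - b3 - 1)) ∨ (0 ≤ h3 - 1) ∨ (0 ≤ h - 1 ∨ (0 ≤ -h ∧ 0 ≤ h ∧ 0 ≤ m - 2) ∨ (0 ≤ -h ∧ 0 ≤ h ∧ 0 ≤ -m + 1 ∧ 0 ≤ m - 1 ∧ 0 ≤ -y + m - 1)))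
    (D30 : ((0 ≤ b1 + b2 - 1 ∧ 0 ≤ hp - 1) ∨ (0 ≤ b1 + b2 - 1 ∧ 0 ≤ -hp ∧ 0 ≤ hp ∧ 0 ≤ -y + n3 - b3 - 2) ∨ (0 ≤ b1 + b2 - 1 ∧ 0 ≤ -hp ∧ 0 ≤ hp ∧ 0 ≤ y - n3 + b3 + 1 ∧ 0 ≤ -y + n3 - b3 - 1 ∧ 0 ≤ n3 - b3 + y - 1)) ∨ (0 ≤ h3 - 1 ∨ (0 ≤ -h3 ∧ 0 ≤ h3 ∧ 0 ≤ -p1 - 2)) ∨ (0 ≤ h - 1 ∨ (0 ≤ -h ∧ 0 ≤ h ∧ 0 ≤ -y + m - 2) ∨ (0 ≤ -h ∧ 0 ≤ h ∧ 0 ≤ y - m + 1 ∧ 0 ≤ -y + m - 1 ∧ 0 ≤ m - 1))) : False := by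
  have E0 := D0
  have E3 := D3
  have E5 := D5
  have E6 : 0 ≤ m - y := by
    rcases D6 with H6 | H6
    · exact H6
    · linarith only [B17, H6, B33, B11, B16, B19]
  have E11 := D11
  have E12 : (0 ≤ k - 1 ∧ 0 ≤ -y - p1) := by
    rcases D12 with H12 | H12
    · exact H12
    · linarith only [B36, H12.2]
  have E17 : (0 ≤ n2 - b2 - 1 ∧ 0 ≤ -p2) := by
    rcases D17 with H17 | H17
    · exact H17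
    · linarith only [H17.1, B17, B22, B7, B16]
  have E25 : 0 ≤ -b1 ∨ 0 ≤ -h3 ∨ 0 ≤ -n2 + b2 - k + 1 := by
    rcases D25 with H25 | H25 | H25 | H25
    · exact Or.inl H25
    · exact Or.inr (Or.inl H25)
    · exact Or.inr (Or.inr H25)
    · linarith only [B20, H25, B17, B22, B7, B11, B16]
  have E26 := D26
  have E27 := D27
  have E28 := D28
  have E29 : (0 ≤ b1 + b2 - 1 ∧ 0 ≤ hp - 1) ∨ (0 ≤ b1 + b2 - 1 ∧ 0 ≤ -hp ∧ 0 ≤ hp ∧ 0 ≤ n3 - b3 + y - 2) ∨ 0 ≤ h3 - 1 ∨ 0 ≤ h - 1 ∨ (0 ≤ -h ∧ 0 ≤ h ∧ 0 ≤ m - 2) := by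
    rcases D29 with (H29 | H29 | H29) | H29 | (H29 | H29 | H29)
    · exact Or.inl H29
    · exact Or.inr (Or.inl H29)
    · linarith only [B20, H29.2.2.2.2.2, H29.2.2.2.1]
    · exact Or.inr (Or.inr (Or.inl H29))
    · exact Or.inr (Or.inr (Or.inr (Or.inl H29)))
    · exact Or.inr (Or.inr (Or.inr (Or.inr H29)))
    · linarith only [B33, H29.2.2.2.2]
  have E30 : (0 ≤ b1 + b2 - 1 ∧ 0 ≤ hp - 1) ∨ (0 ≤ b1 + b2 - 1 ∧ 0 ≤ -hp ∧ 0 ≤ hp ∧ 0 ≤ -y + n3 - b3 - 2) ∨ (0 ≤ b1 + b2 - 1 ∧ 0 ≤ -hp ∧ 0 ≤ hp ∧ 0 ≤ y - n3 + b3 + 1 ∧ 0 ≤ -y + n3 - b3 - 1 ∧ 0 ≤ n3 - b3 + y - 1) ∨ 0 ≤ h3 - 1 ∨ (0 ≤ -h3 ∧ 0 ≤ h3 ∧ 0 ≤ -p1 - 2) ∨ 0 ≤ h - 1 := by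
    rcases D30 with (H30 | H30 | H30) | (H30 | H30) | (H30 | H30 | H30)
    · exact Or.inl H30
    · exact Or.inr (Or.inl H30)
    · exact Or.inr (Or.inr (Or.inl H30))
    · exact Or.inr (Or.inr (Or.inr (Or.inl H30)))
    · exact Or.inr (Or.inr (Or.inr (Or.inr (Or.inl H30))))
    · exact Or.inr (Or.inr (Or.inr (Or.inr (Or.inr H30))))
    · linarith only [B33, H30.2.2]
    · linarith only [B33, H30.2.2.2.1]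
  have H6 := E6
  have H17 := E17
  have H12 := E12
  rcases E25 with H25 | H25 | H25
  · rcases E0 with H0 | H0
    · linarith only [H25, B22, H0.1]
    · linarith only [H25, H0.1]
  · rcases E3 with H3 | H3
    · rcases E29 with H29 | H29 | H29 | H29 | H29
      · linarith only [H29.2, B22, B25, H25, H3]
      · rcases E5 with H5 | H5
        · rcases E26 with H26 | H26 | H26
          · linarith only [B35, B6, H26, H5]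
          · linarith only [H26, H12.1]
          · rcases E27 with H27 | H27 | H27 | H27
            · linarith only [H29.1, H27]
            · linarith only [H29.2.2.1, H27, B35]
            · linarith only [H27, H12.1]
            · rcases E28 with H28 | H28 | H28 | H28
              · linarith only [H29.1, H28]
              · linarith only [H29.2.2.1, H28, B35]
              · rcases E11 with H11 | H11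
                · linarith only [H11.1, H28]
                · rcases E30 with H30 | H30 | H30 | H30 | H30 | H30
                  · linarith only [H30.2, H29.2.1]
                  · linarith only [H30.2.2.2, B20, H27]
                  · linarith only [H30.2.2.2.2.1, B20, H27]
                  · linarith only [H30, H25]
                  · linarith only [H26, H30.2.2, H11.2, H6]
                  · linarith only [H30, B31, H25, H3]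
              · linarith only [H29.2.2.2, H28]
        · linarith only [B26, H29.2.2.1, H5, B31, B22, B16, H25, B17, H3]
      · linarith only [H29, H25]
      · linarith only [H29, B31, H25, H3]
      · rcases E26 with H26 | H26 | H26
        · linarith only [B35, H26, H29.2.1]
        · linarith only [H26, H12.1]
        · linarith only [H29.2.2, H26]
    · linarith only [B17, B4, B30, B16, H12.1, H25, H3, B22]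
  · linarith only [H12.1, H17.1, H25]

theorem g7 {m y : ℤ}
    (B33 : 0 ≤ y - m)
    (B36 : 0 ≤ -y + m - 1) : False := by
  linarith only [B33, B36]

theorem g8 {a1 a2 a3 b1 b2 b3 e h m n2 n3 p0 y : ℤ}
    (B7 : 0 ≤ n2 - a2)
    (B11 : 0 ≤ n3 - b3)
    (B16 : 0 ≤ a1 + a2 - b1 - b2 - e)
    (B17 : 0 ≤ e - 1)
    (B19 : 0 ≤ -a1 - a2 - a3 + b1 + b2 + b3 - y)
    (B22 : 0 ≤ -a1 + b1)
    (B33 : 0 ≤ y - m)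
    (B36 : 0 ≤ b1 - 1)
    (B38 : 0 ≤ -p0 + n2 - b2 + n3 - b3 + y - 2)
    (D6 : 0 ≤ m - y ∨ 0 ≤ m - n3 + a3)
    (D9 : (0 ≤ n2 - b2 - 2 ∧ 0 ≤ -p0) ∨ (0 ≤ -n2 + b2 + 1 ∧ 0 ≤ p0 - y))
    (D23 : 0 ≤ h - 1 ∨ 0 ≤ -y + m - 1)
    (D24 : 0 ≤ -b1 ∨ 0 ≤ -h ∨ 0 ≤ -n2 + b2 ∨ 0 ≤ -n2 + b2 - n3 + b3 - m + y + 1) : False := by
  have E6 : 0 ≤ m - y := by
    rcases D6 with H6 | H6
    · exact H6
    · linarith only [B17, H6, B33, B11, B16, B19]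
  have E9 := D9
  have E23 : 0 ≤ h - 1 := by
    rcases D23 with H23 | H23
    · exact H23
    · linarith only [B33, H23]
  have E24 : 0 ≤ -h ∨ 0 ≤ -n2 + b2 - n3 + b3 - m + y + 1 := by
    rcases D24 with H24 | H24 | H24 | H24
    · linarith only [H24, B36]
    · exact Or.inl H24
    · linarith only [H24, B17, B22, B7, B16]
    · exact Or.inr H24
  have H23 := E23
  rcases E24 with H24 | H24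
  · linarith only [H23, H24]
  · have H6 := E6
    rcases E9 with H9 | H9
    · linarith only [H9.1, H24, B11, H6]
    · linarith only [H9.2, H24, B38, H6]

theorem g9 {a1 a2 a3 b1 b2 b3 e h h3 k m n1 n2 n3 p2 p3 y : ℤ}
    (B2 : 0 ≤ a3)
    (B7 : 0 ≤ n2 - a2)
    (B16 : 0 ≤ a1 + a2 - b1 - b2 - e)
    (B17 : 0 ≤ e - 1)
    (B22 : 0 ≤ -a1 + b1)
    (B30 : 0 ≤ a3 - k - 1)
    (B31 : 0 ≤ n1 - a1 - h)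
    (B32 : 0 ≤ a2 - h - 1)
    (B33 : 0 ≤ y - m)
    (B37 : 0 ≤ -y + n3 - b3 - 1)
    (D0 : (0 ≤ a1 - 1 ∧ 0 ≤ n2 - a2 - 1) ∨ (0 ≤ b1 - 1 ∧ 0 ≤ n2 - b2 - 1))
    (D3 : 0 ≤ h3 - n1 + a1 ∨ 0 ≤ h3 - a2 - a3 + 1)
    (D4 : 0 ≤ k - n1 + a1 - n2 + a2 ∨ 0 ≤ k - a3 + 1)
    (D17 : (0 ≤ n2 - b2 - 1 ∧ 0 ≤ -p2) ∨ (0 ≤ -n2 + b2 ∧ 0 ≤ p2 - y))
    (D20 : (0 ≤ k ∧ 0 ≤ -y - p3) ∨ (0 ≤ -k - 1 ∧ 0 ≤ p3))
    (D21 : (0 ≤ k + 1 ∧ 0 ≤ -p3) ∨ (0 ≤ -k - 2 ∧ 0 ≤ p3 - y))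
    (D23 : 0 ≤ h - 1 ∨ 0 ≤ -y + m - 1)
    (D25 : 0 ≤ -b1 ∨ 0 ≤ -h3 ∨ 0 ≤ -n2 + b2 - k - 1 ∨ 0 ≤ -n2 + b2 - n3 + b3 + y + 1) : False := by
  have E0 := D0
  have E3 := D3
  have E4 := D4
  have E17 : (0 ≤ n2 - b2 - 1 ∧ 0 ≤ -p2) := by
    rcases D17 with H17 | H17
    · exact H17
    · linarith only [H17.1, B17, B22, B7, B16]
  have E20 := D20
  have E21 := D21
  have E23 : 0 ≤ h - 1 := by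
    rcases D23 with H23 | H23
    · exact H23
    · linarith only [B33, H23]
  have E25 : 0 ≤ -b1 ∨ 0 ≤ -h3 ∨ 0 ≤ -n2 + b2 - k - 1 := by
    rcases D25 with H25 | H25 | H25 | H25
    · exact Or.inl H25
    · exact Or.inr (Or.inl H25)
    · exact Or.inr (Or.inr H25)
    · linarith only [H25, B17, B22, B7, B37, B16]
  have H23 := E23
  have H17 := E17
  rcases E20 with H20 | H20
  · rcases E25 with H25 | H25 | H25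
    · rcases E0 with H0 | H0
      · linarith only [H25, B22, H0.1]
      · linarith only [H25, H0.1]
    · rcases E3 with H3 | H3
      · linarith only [B31, H25, H23, H3]
      · linarith only [B30, H3, H20.1, B32, H23, H25]
    · linarith only [H17.1, H25, H20.1]
  · rcases E4 with H4 | H4
    · linarith only [B31, H20.1, H23, B7, H4]
    · rcases E21 with H21 | H21
      · rcases E25 with H25 | H25 | H25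
        · rcases E0 with H0 | H0
          · linarith only [H25, B22, H0.1]
          · linarith only [H25, H0.1]
        · rcases E3 with H3 | H3
          · linarith only [B31, H25, H23, H3]
          · linarith only [H3, H25, B32, H23, B2]
        · linarith only [H21.1, H17.1, H25]
      · linarith only [B2, H21.1, H4]

theorem g10 {a1 a2 a3 b1 b2 b3 e h h3 k m n1 n2 n3 p1 p2 y : ℤ}
    (B7 : 0 ≤ n2 - a2)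
    (B11 : 0 ≤ n3 - b3)
    (B16 : 0 ≤ a1 + a2 - b1 - b2 - e)
    (B17 : 0 ≤ e - 1)
    (B20 : 0 ≤ y - 1)
    (B22 : 0 ≤ -a1 + b1)
    (B30 : 0 ≤ a3 - k - 1)
    (B31 : 0 ≤ n1 - a1 - h)
    (B32 : 0 ≤ a2 - h - 1)
    (B33 : 0 ≤ y - m)
    (B36 : 0 ≤ -p1 - 1)
    (D0 : (0 ≤ a1 - 1 ∧ 0 ≤ n2 - a2 - 1) ∨ (0 ≤ b1 - 1 ∧ 0 ≤ n2 - b2 - 1))
    (D3 : 0 ≤ h3 - n1 + a1 ∨ 0 ≤ h3 - a2 - a3 + 1)
    (D12 : (0 ≤ k - 1 ∧ 0 ≤ -y - p1) ∨ (0 ≤ -k ∧ 0 ≤ p1))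
    (D17 : (0 ≤ n2 - b2 - 1 ∧ 0 ≤ -p2) ∨ (0 ≤ -n2 + b2 ∧ 0 ≤ p2 - y))
    (D23 : 0 ≤ h - 1 ∨ 0 ≤ -y + m - 1)
    (D25 : 0 ≤ -b1 ∨ 0 ≤ -h3 ∨ 0 ≤ -n2 + b2 - k + 1 ∨ 0 ≤ -n2 + b2 - n3 + b3 - y + 1) : False := by
  have E0 := D0
  have E3 := D3
  have E12 : (0 ≤ k - 1 ∧ 0 ≤ -y - p1) := by
    rcases D12 with H12 | H12
    · exact H12
    · linarith only [B36, H12.2]
  have E17 : (0 ≤ n2 - b2 - 1 ∧ 0 ≤ -p2) := by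
    rcases D17 with H17 | H17
    · exact H17
    · linarith only [H17.1, B17, B22, B7, B16]
  have E23 : 0 ≤ h - 1 := by
    rcases D23 with H23 | H23
    · exact H23
    · linarith only [B33, H23]
  have E25 : 0 ≤ -b1 ∨ 0 ≤ -h3 ∨ 0 ≤ -n2 + b2 - k + 1 := by
    rcases D25 with H25 | H25 | H25 | H25
    · exact Or.inl H25
    · exact Or.inr (Or.inl H25)
    · exact Or.inr (Or.inr H25)
    · linarith only [B20, H25, B17, B22, B7, B11, B16]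
  have H23 := E23
  have H17 := E17
  have H12 := E12
  rcases E25 with H25 | H25 | H25
  · rcases E0 with H0 | H0
    · linarith only [H25, B22, H0.1]
    · linarith only [H25, H0.1]
  · rcases E3 with H3 | H3
    · linarith only [B31, H25, H23, H3]
    · linarith only [B30, B32, H12.1, H25, H3, H23]
  · linarith only [H17.1, H25, H12.1]

theorem g11 {m y : ℤ}
    (B33 : 0 ≤ y - m)
    (B36 : 0 ≤ -y + m - 1) : False := by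
  linarith only [B33, B36]

theorem los11 {n1 n2 n3 a1 a2 a3 b1 b2 b3 e y : ℤ}
    (B0 : 0 ≤ a1)
    (B1 : 0 ≤ a2)
    (B2 : 0 ≤ a3)
    (B3 : 0 ≤ b1)
    (B4 : 0 ≤ b2)
    (B5 : 0 ≤ b3)
    (B6 : 0 ≤ n1 - a1)
    (B7 : 0 ≤ n2 - a2)
    (B8 : 0 ≤ n3 - a3)
    (B9 : 0 ≤ n1 - b1)
    (B10 : 0 ≤ n2 - b2)
    (B11 : 0 ≤ n3 - b3)
    (B12 : 0 ≤ n1 - 1)
    (B13 : 0 ≤ n2 - 1)
    (B14 : 0 ≤ n3 - 1)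
    (B15 : 0 ≤ e - a1 - a2 + b1 + b2)
    (B16 : 0 ≤ a1 + a2 - b1 - b2 - e)
    (B17 : 0 ≤ e - 1)
    (B18 : 0 ≤ y + a1 + a2 + a3 - b1 - b2 - b3)
    (B19 : 0 ≤ -a1 - a2 - a3 + b1 + b2 + b3 - y)
    (B20 : 0 ≤ y - 1)
    (B21 : 0 ≤ a1 - b1)
    (B22 : 0 ≤ -a1 + b1)
    (B23 : 0 ≤ e - 1)
    (B24 : 0 ≤ -e + 1)
    (hex : 0 ≤ b1 - 1) :
    LosC n1 n2 n3 a1 a2 a3 b1 b2 b3 (1) (-n2 + b2 + 2) (-n2 + b2 - n3 + b3 - y + 1) := by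
  unfold LosC
  refine ⟨?_, ?_, ?_, ?_, ?_, ?_, ?_, ?_⟩ <;> omega

theorem los22 {n1 n2 n3 a1 a2 a3 b1 b2 b3 e y hp : ℤ}
    (B0 : 0 ≤ a1)
    (B1 : 0 ≤ a2)
    (B2 : 0 ≤ a3)
    (B3 : 0 ≤ b1)
    (B4 : 0 ≤ b2)
    (B5 : 0 ≤ b3)
    (B6 : 0 ≤ n1 - a1)
    (B7 : 0 ≤ n2 - a2)
    (B8 : 0 ≤ n3 - a3)
    (B9 : 0 ≤ n1 - b1)
    (B10 : 0 ≤ n2 - b2)
    (B11 : 0 ≤ n3 - b3)
    (B12 : 0 ≤ n1 - 1)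
    (B13 : 0 ≤ n2 - 1)
    (B14 : 0 ≤ n3 - 1)
    (B15 : 0 ≤ e - a1 - a2 + b1 + b2)
    (B16 : 0 ≤ a1 + a2 - b1 - b2 - e)
    (B17 : 0 ≤ e - 1)
    (B18 : 0 ≤ y + a1 + a2 + a3 - b1 - b2 - b3)
    (B19 : 0 ≤ -a1 - a2 - a3 + b1 + b2 + b3 - y)
    (B20 : 0 ≤ y - 1)
    (B21 : 0 ≤ a1 - b1)
    (B22 : 0 ≤ -a1 + b1)
    (B23 : 0 ≤ e - 1)
    (B24 : 0 ≤ -e + 1)
    (B25 : 0 ≤ n1 - b1 - hp)
    (B26 : 0 ≤ b2 - hp - 1)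
    (C_Dhp : 0 ≤ hp - n1 + b1 ∨ 0 ≤ hp - b2 + 1)
    (hex : 0 ≤ b1 + b2 - 1) :
    LosC n1 n2 n3 a1 a2 a3 b1 b2 b3 (-hp) (2) (-n3 + b3 - y + 1) := by
  unfold LosC
  refine ⟨?_, ?_, ?_, ?_, ?_, ?_, ?_, ?_⟩ <;> omega

theorem los33 {n1 n2 n3 a1 a2 a3 b1 b2 b3 e y h3 k : ℤ}
    (B0 : 0 ≤ a1)
    (B1 : 0 ≤ a2)
    (B2 : 0 ≤ a3)
    (B3 : 0 ≤ b1)
    (B4 : 0 ≤ b2)
    (B5 : 0 ≤ b3)
    (B6 : 0 ≤ n1 - a1)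
    (B7 : 0 ≤ n2 - a2)
    (B8 : 0 ≤ n3 - a3)
    (B9 : 0 ≤ n1 - b1)
    (B10 : 0 ≤ n2 - b2)
    (B11 : 0 ≤ n3 - b3)
    (B12 : 0 ≤ n1 - 1)
    (B13 : 0 ≤ n2 - 1)
    (B14 : 0 ≤ n3 - 1)
    (B15 : 0 ≤ e - a1 - a2 + b1 + b2)
    (B16 : 0 ≤ a1 + a2 - b1 - b2 - e)
    (B17 : 0 ≤ e - 1)
    (B18 : 0 ≤ y + a1 + a2 + a3 - b1 - b2 - b3)
    (B19 : 0 ≤ -a1 - a2 - a3 + b1 + b2 + b3 - y)
    (B20 : 0 ≤ y - 1)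
    (B21 : 0 ≤ a1 - b1)
    (B22 : 0 ≤ -a1 + b1)
    (B23 : 0 ≤ e - 1)
    (B24 : 0 ≤ -e + 1)
    (B27 : 0 ≤ n1 - a1 - h3)
    (B28 : 0 ≤ a2 + a3 - h3 - 1)
    (B29 : 0 ≤ n1 - a1 + n2 - a2 - k)
    (B30 : 0 ≤ a3 - k - 1)
    (C_Dh3 : 0 ≤ h3 - n1 + a1 ∨ 0 ≤ h3 - a2 - a3 + 1)
    (C_Dk : 0 ≤ k - n1 + a1 - n2 + a2 ∨ 0 ≤ k - a3 + 1) :
    LosC n1 n2 n3 a1 a2 a3 b1 b2 b3 (-h3) (-k) (1) := by
  unfold LosC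
  refine ⟨?_, ?_, ?_, ?_, ?_, ?_, ?_, ?_⟩ <;> omega

theorem los23 {n1 n2 n3 a1 a2 a3 b1 b2 b3 e y h m : ℤ}
    (B0 : 0 ≤ a1)
    (B1 : 0 ≤ a2)
    (B2 : 0 ≤ a3)
    (B3 : 0 ≤ b1)
    (B4 : 0 ≤ b2)
    (B5 : 0 ≤ b3)
    (B6 : 0 ≤ n1 - a1)
    (B7 : 0 ≤ n2 - a2)
    (B8 : 0 ≤ n3 - a3)
    (B9 : 0 ≤ n1 - b1)
    (B10 : 0 ≤ n2 - b2)
    (B11 : 0 ≤ n3 - b3)
    (B12 : 0 ≤ n1 - 1)
    (B13 : 0 ≤ n2 - 1)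
    (B14 : 0 ≤ n3 - 1)
    (B15 : 0 ≤ e - a1 - a2 + b1 + b2)
    (B16 : 0 ≤ a1 + a2 - b1 - b2 - e)
    (B17 : 0 ≤ e - 1)
    (B18 : 0 ≤ y + a1 + a2 + a3 - b1 - b2 - b3)
    (B19 : 0 ≤ -a1 - a2 - a3 + b1 + b2 + b3 - y)
    (B20 : 0 ≤ y - 1)
    (B21 : 0 ≤ a1 - b1)
    (B22 : 0 ≤ -a1 + b1)
    (B23 : 0 ≤ e - 1)
    (B24 : 0 ≤ -e + 1)
    (B31 : 0 ≤ n1 - a1 - h)
    (B32 : 0 ≤ a2 - h - 1)
    (B33 : 0 ≤ y - m)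
    (B34 : 0 ≤ n3 - a3 - m)
    (C_Dh : 0 ≤ h - n1 + a1 ∨ 0 ≤ h - a2 + 1)
    (C_Dm : 0 ≤ m - y ∨ 0 ≤ m - n3 + a3) :
    LosC n1 n2 n3 a1 a2 a3 b1 b2 b3 (-h) (1) (-m + 1) := by
  unfold LosC
  refine ⟨?_, ?_, ?_, ?_, ?_, ?_, ?_, ?_⟩ <;> omega

theorem hd {n1 n2 n3 a1 a2 a3 b1 b2 b3 e y hp h3 k h m : ℤ}
    (B0 : 0 ≤ a1)
    (B1 : 0 ≤ a2)
    (B2 : 0 ≤ a3)
    (B3 : 0 ≤ b1)
    (B4 : 0 ≤ b2)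
    (B5 : 0 ≤ b3)
    (B6 : 0 ≤ n1 - a1)
    (B7 : 0 ≤ n2 - a2)
    (B8 : 0 ≤ n3 - a3)
    (B9 : 0 ≤ n1 - b1)
    (B10 : 0 ≤ n2 - b2)
    (B11 : 0 ≤ n3 - b3)
    (B12 : 0 ≤ n1 - 1)
    (B13 : 0 ≤ n2 - 1)
    (B14 : 0 ≤ n3 - 1)
    (B15 : 0 ≤ e - a1 - a2 + b1 + b2)
    (B16 : 0 ≤ a1 + a2 - b1 - b2 - e)
    (B17 : 0 ≤ e - 1)
    (B18 : 0 ≤ y + a1 + a2 + a3 - b1 - b2 - b3)
    (B19 : 0 ≤ -a1 - a2 - a3 + b1 + b2 + b3 - y)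
    (B20 : 0 ≤ y - 1)
    (B21 : 0 ≤ a1 - b1)
    (B22 : 0 ≤ -a1 + b1)
    (B23 : 0 ≤ e - 1)
    (B24 : 0 ≤ -e + 1)
    (B25 : 0 ≤ n1 - b1 - hp)
    (B26 : 0 ≤ b2 - hp - 1)
    (B27 : 0 ≤ n1 - a1 - h3)
    (B28 : 0 ≤ a2 + a3 - h3 - 1)
    (B29 : 0 ≤ n1 - a1 + n2 - a2 - k)
    (B30 : 0 ≤ a3 - k - 1)
    (B31 : 0 ≤ n1 - a1 - h)
    (B32 : 0 ≤ a2 - h - 1)
    (B33 : 0 ≤ y - m)
    (B34 : 0 ≤ n3 - a3 - m)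
    (C_Dhp : 0 ≤ hp - n1 + b1 ∨ 0 ≤ hp - b2 + 1)
    (C_Dh3 : 0 ≤ h3 - n1 + a1 ∨ 0 ≤ h3 - a2 - a3 + 1)
    (C_Dk : 0 ≤ k - n1 + a1 - n2 + a2 ∨ 0 ≤ k - a3 + 1)
    (C_Dh : 0 ≤ h - n1 + a1 ∨ 0 ≤ h - a2 + 1)
    (C_Dm : 0 ≤ m - y ∨ 0 ≤ m - n3 + a3) :
    ∀ c1 c2 c3, LosC n1 n2 n3 a1 a2 a3 b1 b2 b3 c1 c2 c3 →
      ∃ v ∈ ([⟨0 ≤ b1 - 1, 1, -n2 + b2 + 2, -n2 + b2 - n3 + b3 - y + 1⟩, ⟨0 ≤ b1 + b2 - 1, -hp, 2, -n3 + b3 - y + 1⟩, ⟨True, -h3, -k, 1⟩, ⟨True, -h, 1, -m + 1⟩] : List LV), v.ex ∧ v.c1 ≤ c1 ∧ v.c2 ≤ c2 ∧ v.c3 ≤ c3 := by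
  intro c1 c2 c3 hc
  obtain ⟨q1, q2, q3, q4, q5, q6, qa, qb⟩ := hc
  rcases qb with qb | qb | qb
  · clear qa
    clear C_Dhp C_Dh3 C_Dk C_Dh C_Dm
    refine ⟨_, List.Mem.head _, ?_, ?_, ?_, ?_⟩
    · show 0 ≤ b1 - 1; omega
    · show 1 ≤ c1; omega
    · show -n2 + b2 + 2 ≤ c2; omega
    · show -n2 + b2 - n3 + b3 - y + 1 ≤ c3; omega
  · clear qa
    clear C_Dh3 C_Dk C_Dh C_Dm
    refine ⟨_, List.Mem.tail _ (List.Mem.head _), ?_, ?_, ?_, ?_⟩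
    · show 0 ≤ b1 + b2 - 1; omega
    · show -hp ≤ c1; omega
    · show 2 ≤ c2; omega
    · show -n3 + b3 - y + 1 ≤ c3; omega
  · rcases qa with qa | qa | qa
    · clear C_Dhp C_Dh3 C_Dk C_Dh C_Dm
      refine ⟨_, List.Mem.head _, ?_, ?_, ?_, ?_⟩
      · show 0 ≤ b1 - 1; omega
      · show 1 ≤ c1; omega
      · show -n2 + b2 + 2 ≤ c2; omega
      · show -n2 + b2 - n3 + b3 - y + 1 ≤ c3; omega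
    · clear C_Dhp C_Dh3 C_Dk
      refine ⟨_, List.Mem.tail _ (List.Mem.tail _ (List.Mem.tail _ (List.Mem.head _))), ?_, ?_, ?_, ?_⟩
      · trivial
      · show -h ≤ c1; omega
      · show 1 ≤ c2; omega
      · show -m + 1 ≤ c3; omega
    · clear C_Dhp C_Dh C_Dm
      refine ⟨_, List.Mem.tail _ (List.Mem.tail _ (List.Mem.head _)), ?_, ?_, ?_, ?_⟩
      · trivial
      · show -h3 ≤ c1; omega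
      · show -k ≤ c2; omega
      · show 1 ≤ c3; omega

theorem cvF_V2_V3_11 {b1 b2 b3 n2 n3 p0 y : ℤ}
    (ep0 : p0 = (y) * (-n2 + b2 + 2))
    (hex : 0 ≤ b1 - 1)
    (hf : LexFail ((1) * (1) + (0) * (-n2 + b2 + 2) + (0) * (-n2 + b2 - n3 + b3 - y + 1))
      ((0) * (1) + (y) * (-n2 + b2 + 2) + (1) * (-n2 + b2 - n3 + b3 - y + 1))
      ((0) * (1) + (0) * (-n2 + b2 + 2) + (0) * (-n2 + b2 - n3 + b3 - y + 1))) :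
    False := by
  rcases hf with hf | ⟨hf0, hf⟩ | ⟨hf0, hf1, hf⟩
  · exfalso; linarith only [hf]
  · exfalso; linarith only [hf0]
  · exfalso; linarith only [hf0]

theorem cvF_V2_V3_22 {b1 b2 b3 hp n3 y : ℤ}
    (hex : 0 ≤ b1 + b2 - 1)
    (hf : LexFail ((1) * (-hp) + (0) * (2) + (0) * (-n3 + b3 - y + 1))
      ((0) * (-hp) + (y) * (2) + (1) * (-n3 + b3 - y + 1))
      ((0) * (-hp) + (0) * (2) + (0) * (-n3 + b3 - y + 1))) :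
    0 ≤ b1 + b2 - 1 ∧ 0 ≤ hp ∧ (0 ≤ hp - 1 ∨ 0 ≤ -y + n3 - b3 - 1) := by
  rcases hf with hf | ⟨hf0, hf⟩ | ⟨hf0, hf1, hf⟩
  · exact ⟨by linarith only [hex], by linarith only [hf], Or.inl (by linarith only [hf])⟩
  · exact ⟨by linarith only [hex], by linarith only [hf0], Or.inr (by linarith only [hf])⟩
  · exact ⟨by linarith only [hex], by linarith only [hf0], Or.inr (by linarith only [hf1])⟩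

theorem cvF_V2_V3_33 {h3 k p1 y : ℤ}
    (ep1 : p1 = (y) * (-k))
    (hf : LexFail ((1) * (-h3) + (0) * (-k) + (0) * (1))
      ((0) * (-h3) + (y) * (-k) + (1) * (1))
      ((0) * (-h3) + (0) * (-k) + (0) * (1))) :
    0 ≤ h3 ∧ (0 ≤ h3 - 1 ∨ 0 ≤ -p1 - 1) := by
  rcases hf with hf | ⟨hf0, hf⟩ | ⟨hf0, hf1, hf⟩
  · exact ⟨by linarith only [hf], Or.inl (by linarith only [hf])⟩
  · exact ⟨by linarith only [hf0], Or.inr (by linarith only [hf, ep1])⟩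
  · exact ⟨by linarith only [hf0], Or.inr (by linarith only [hf1, ep1])⟩

theorem cvF_V2_V3_23 {h m y : ℤ}
    (hf : LexFail ((1) * (-h) + (0) * (1) + (0) * (-m + 1))
      ((0) * (-h) + (y) * (1) + (1) * (-m + 1))
      ((0) * (-h) + (0) * (1) + (0) * (-m + 1))) :
    0 ≤ h ∧ (0 ≤ h - 1 ∨ 0 ≤ -y + m - 1) := by
  rcases hf with hf | ⟨hf0, hf⟩ | ⟨hf0, hf1, hf⟩
  · exact ⟨by linarith only [hf], Or.inl (by linarith only [hf])⟩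
  · exact ⟨by linarith only [hf0], Or.inr (by linarith only [hf])⟩
  · exact ⟨by linarith only [hf0], Or.inr (by linarith only [hf1])⟩

theorem FAt {n1 n2 n3 a1 a2 a3 b1 b2 b3 e y hp h3 k h m p0 p1 : ℤ}
    (B15 : 0 ≤ e - a1 - a2 + b1 + b2)
    (B16 : 0 ≤ a1 + a2 - b1 - b2 - e)
    (B17 : 0 ≤ e - 1)
    (B18 : 0 ≤ y + a1 + a2 + a3 - b1 - b2 - b3)
    (B19 : 0 ≤ -a1 - a2 - a3 + b1 + b2 + b3 - y)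
    (B20 : 0 ≤ y - 1)
    (B21 : 0 ≤ a1 - b1)
    (B22 : 0 ≤ -a1 + b1)
    (B23 : 0 ≤ e - 1)
    (B24 : 0 ≤ -e + 1)
    (ep0 : p0 = (y) * (-n2 + b2 + 2))
    (ep1 : p1 = (y) * (-k))
    (w1 : a1 - b1 = 0) (w2 : a1 + a2 - b1 - b2 = 1) (w3 : a1 + a2 + a3 - b1 - b2 - b3 = -y)
    (hno : ¬ ∃ u1 u2 u3 : ℤ, Good n1 n2 n3 a1 a2 a3 b1 b2 b3 u1 u2 u3)
    (hd : ∀ c1 c2 c3, LosC n1 n2 n3 a1 a2 a3 b1 b2 b3 c1 c2 c3 →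
      ∃ v ∈ ([⟨0 ≤ b1 - 1, 1, -n2 + b2 + 2, -n2 + b2 - n3 + b3 - y + 1⟩, ⟨0 ≤ b1 + b2 - 1, -hp, 2, -n3 + b3 - y + 1⟩, ⟨True, -h3, -k, 1⟩, ⟨True, -h, 1, -m + 1⟩] : List LV), v.ex ∧ v.c1 ≤ c1 ∧ v.c2 ≤ c2 ∧ v.c3 ≤ c3) :
    (0 ≤ b1 + b2 - 1 ∧ 0 ≤ hp ∧ (0 ≤ hp - 1 ∨ 0 ≤ -y + n3 - b3 - 1)) ∨ (0 ≤ h3 ∧ (0 ≤ h3 - 1 ∨ 0 ≤ -p1 - 1)) ∨ (0 ≤ h ∧ (0 ≤ h - 1 ∨ 0 ≤ -y + m - 1)) := by
  obtain ⟨v, hv, hex, hf⟩ := failA' w1 w2 w3 hno _ hd (1) (0) (0) (0) (y) (1) (0) (0) (0)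
    ⟨zero_le_one, le_refl 0, le_refl 0⟩ ⟨le_refl 0, by linarith only [B15, B16, B17, B18, B19, B20, B21, B22, B23, B24], zero_le_one⟩ ⟨le_refl 0, le_refl 0, le_refl 0⟩
    (Or.inr ⟨by ring, Or.inr ⟨by ring, by linarith only [B15, B16, B17, B18, B19, B20, B21, B22, B23, B24]⟩⟩)
  simp only [List.mem_cons, List.not_mem_nil, or_false] at hv
  rcases hv with rfl | rfl | rfl | rfl
  · exact (cvF_V2_V3_11 ep0 hex hf).elim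
  · exact Or.inl (cvF_V2_V3_22 hex hf)
  · exact Or.inr (Or.inl (cvF_V2_V3_33 ep1 hf))
  · exact Or.inr (Or.inr (cvF_V2_V3_23 hf))

theorem cvF_V3_V2_11 {b1 b2 b3 n2 n3 p0 y : ℤ}
    (ep0 : p0 = (y) * (-n2 + b2 + 2))
    (hex : 0 ≤ b1 - 1)
    (hf : LexFail ((0) * (1) + (y) * (-n2 + b2 + 2) + (1) * (-n2 + b2 - n3 + b3 - y + 1))
      ((1) * (1) + (0) * (-n2 + b2 + 2) + (0) * (-n2 + b2 - n3 + b3 - y + 1))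
      ((0) * (1) + (0) * (-n2 + b2 + 2) + (0) * (-n2 + b2 - n3 + b3 - y + 1))) :
    0 ≤ b1 - 1 ∧ 0 ≤ -p0 + n2 - b2 + n3 - b3 + y - 1 ∧ 0 ≤ -p0 + n2 - b2 + n3 - b3 + y - 2 := by
  rcases hf with hf | ⟨hf0, hf⟩ | ⟨hf0, hf1, hf⟩
  · exact ⟨by linarith only [hex], by linarith only [hf, ep0], by linarith only [hf, ep0]⟩
  · exfalso; linarith only [hf]
  · exfalso; linarith only [hf1]

theorem cvF_V3_V2_22 {b1 b2 b3 hp n3 y : ℤ}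
    (hex : 0 ≤ b1 + b2 - 1)
    (hf : LexFail ((0) * (-hp) + (y) * (2) + (1) * (-n3 + b3 - y + 1))
      ((1) * (-hp) + (0) * (2) + (0) * (-n3 + b3 - y + 1))
      ((0) * (-hp) + (0) * (2) + (0) * (-n3 + b3 - y + 1))) :
    0 ≤ b1 + b2 - 1 ∧ 0 ≤ -y + n3 - b3 - 1 ∧ (0 ≤ -y + n3 - b3 - 2 ∨ 0 ≤ hp) := by
  rcases hf with hf | ⟨hf0, hf⟩ | ⟨hf0, hf1, hf⟩
  · exact ⟨by linarith only [hex], by linarith only [hf], Or.inl (by linarith only [hf])⟩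
  · exact ⟨by linarith only [hex], by linarith only [hf0], Or.inr (by linarith only [hf])⟩
  · exact ⟨by linarith only [hex], by linarith only [hf0], Or.inr (by linarith only [hf1])⟩

theorem cvF_V3_V2_33 {h3 k p1 y : ℤ}
    (ep1 : p1 = (y) * (-k))
    (hf : LexFail ((0) * (-h3) + (y) * (-k) + (1) * (1))
      ((1) * (-h3) + (0) * (-k) + (0) * (1))
      ((0) * (-h3) + (0) * (-k) + (0) * (1))) :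
    0 ≤ -p1 - 1 ∧ (0 ≤ -p1 - 2 ∨ 0 ≤ h3) := by
  rcases hf with hf | ⟨hf0, hf⟩ | ⟨hf0, hf1, hf⟩
  · exact ⟨by linarith only [hf, ep1], Or.inl (by linarith only [hf, ep1])⟩
  · exact ⟨by linarith only [hf0, ep1], Or.inr (by linarith only [hf])⟩
  · exact ⟨by linarith only [hf0, ep1], Or.inr (by linarith only [hf1])⟩

theorem cvF_V3_V2_23 {h m y : ℤ}
    (hf : LexFail ((0) * (-h) + (y) * (1) + (1) * (-m + 1))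
      ((1) * (-h) + (0) * (1) + (0) * (-m + 1))
      ((0) * (-h) + (0) * (1) + (0) * (-m + 1))) :
    0 ≤ -y + m - 1 ∧ (0 ≤ -y + m - 2 ∨ 0 ≤ h) := by
  rcases hf with hf | ⟨hf0, hf⟩ | ⟨hf0, hf1, hf⟩
  · exact ⟨by linarith only [hf], Or.inl (by linarith only [hf])⟩
  · exact ⟨by linarith only [hf0], Or.inr (by linarith only [hf])⟩
  · exact ⟨by linarith only [hf0], Or.inr (by linarith only [hf1])⟩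

theorem FBt {n1 n2 n3 a1 a2 a3 b1 b2 b3 e y hp h3 k h m p0 p1 : ℤ}
    (B15 : 0 ≤ e - a1 - a2 + b1 + b2)
    (B16 : 0 ≤ a1 + a2 - b1 - b2 - e)
    (B17 : 0 ≤ e - 1)
    (B18 : 0 ≤ y + a1 + a2 + a3 - b1 - b2 - b3)
    (B19 : 0 ≤ -a1 - a2 - a3 + b1 + b2 + b3 - y)
    (B20 : 0 ≤ y - 1)
    (B21 : 0 ≤ a1 - b1)
    (B22 : 0 ≤ -a1 + b1)
    (B23 : 0 ≤ e - 1)
    (B24 : 0 ≤ -e + 1)
    (ep0 : p0 = (y) * (-n2 + b2 + 2))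
    (ep1 : p1 = (y) * (-k))
    (w1 : a1 - b1 = 0) (w2 : a1 + a2 - b1 - b2 = 1) (w3 : a1 + a2 + a3 - b1 - b2 - b3 = -y)
    (hno : ¬ ∃ u1 u2 u3 : ℤ, Good n1 n2 n3 a1 a2 a3 b1 b2 b3 u1 u2 u3)
    (hd : ∀ c1 c2 c3, LosC n1 n2 n3 a1 a2 a3 b1 b2 b3 c1 c2 c3 →
      ∃ v ∈ ([⟨0 ≤ b1 - 1, 1, -n2 + b2 + 2, -n2 + b2 - n3 + b3 - y + 1⟩, ⟨0 ≤ b1 + b2 - 1, -hp, 2, -n3 + b3 - y + 1⟩, ⟨True, -h3, -k, 1⟩, ⟨True, -h, 1, -m + 1⟩] : List LV), v.ex ∧ v.c1 ≤ c1 ∧ v.c2 ≤ c2 ∧ v.c3 ≤ c3) :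
    (0 ≤ b1 - 1 ∧ 0 ≤ -p0 + n2 - b2 + n3 - b3 + y - 1 ∧ 0 ≤ -p0 + n2 - b2 + n3 - b3 + y - 2) ∨ (0 ≤ b1 + b2 - 1 ∧ 0 ≤ -y + n3 - b3 - 1 ∧ (0 ≤ -y + n3 - b3 - 2 ∨ 0 ≤ hp)) ∨ (0 ≤ -p1 - 1 ∧ (0 ≤ -p1 - 2 ∨ 0 ≤ h3)) ∨ (0 ≤ -y + m - 1 ∧ (0 ≤ -y + m - 2 ∨ 0 ≤ h)) := by
  obtain ⟨v, hv, hex, hf⟩ := failA' w1 w2 w3 hno _ hd (0) (y) (1) (1) (0) (0) (0) (0) (0)
    ⟨le_refl 0, by linarith only [B15, B16, B17, B18, B19, B20, B21, B22, B23, B24], zero_le_one⟩ ⟨zero_le_one, le_refl 0, le_refl 0⟩ ⟨le_refl 0, le_refl 0, le_refl 0⟩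
    (Or.inr ⟨by ring, Or.inr ⟨by ring, by linarith only [B15, B16, B17, B18, B19, B20, B21, B22, B23, B24]⟩⟩)
  simp only [List.mem_cons, List.not_mem_nil, or_false] at hv
  rcases hv with rfl | rfl | rfl | rfl
  · exact Or.inl (cvF_V3_V2_11 ep0 hex hf)
  · exact Or.inr (Or.inl (cvF_V3_V2_22 hex hf))
  · exact Or.inr (Or.inr (Or.inl (cvF_V3_V2_33 ep1 hf)))
  · exact Or.inr (Or.inr (Or.inr (cvF_V3_V2_23 hf)))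

theorem cvG_V2_V3_e3_11 {b1 b2 b3 n2 n3 p0 y : ℤ}
    (ep0 : p0 = (y) * (-n2 + b2 + 2))
    (hex : 0 ≤ b1 - 1)
    (hf : LexFail ((1) * (1) + (0) * (-n2 + b2 + 2) + (0) * (-n2 + b2 - n3 + b3 - y + 1))
      ((0) * (1) + (y) * (-n2 + b2 + 2) + (1) * (-n2 + b2 - n3 + b3 - y + 1))
      ((0) * (1) + (0) * (-n2 + b2 + 2) + (1) * (-n2 + b2 - n3 + b3 - y + 1))) :
    False := by
  rcases hf with hf | ⟨hf0, hf⟩ | ⟨hf0, hf1, hf⟩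
  · exfalso; linarith only [hf]
  · exfalso; linarith only [hf0]
  · exfalso; linarith only [hf0]

theorem cvG_V2_V3_e3_22 {b1 b2 b3 hp n3 y : ℤ}
    (hex : 0 ≤ b1 + b2 - 1)
    (hf : LexFail ((1) * (-hp) + (0) * (2) + (0) * (-n3 + b3 - y + 1))
      ((0) * (-hp) + (y) * (2) + (1) * (-n3 + b3 - y + 1))
      ((0) * (-hp) + (0) * (2) + (1) * (-n3 + b3 - y + 1))) :
    (0 ≤ b1 + b2 - 1 ∧ 0 ≤ hp - 1) ∨ (0 ≤ b1 + b2 - 1 ∧ 0 ≤ -hp ∧ 0 ≤ hp ∧ 0 ≤ -y + n3 - b3 - 2) ∨ (0 ≤ b1 + b2 - 1 ∧ 0 ≤ -hp ∧ 0 ≤ hp ∧ 0 ≤ y - n3 + b3 + 1 ∧ 0 ≤ -y + n3 - b3 - 1 ∧ 0 ≤ n3 - b3 + y - 1) := by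
  rcases hf with hf | ⟨hf0, hf⟩ | ⟨hf0, hf1, hf⟩
  · exact Or.inl (⟨by linarith only [hex], by linarith only [hf]⟩)
  · exact Or.inr (Or.inl (⟨by linarith only [hex], by linarith only [hf0], by linarith only [hf0], by linarith only [hf]⟩))
  · exact Or.inr (Or.inr (⟨by linarith only [hex], by linarith only [hf0], by linarith only [hf0], by linarith only [hf1], by linarith only [hf1], by linarith only [hf]⟩))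

theorem cvG_V2_V3_e3_33 {h3 k p1 y : ℤ}
    (ep1 : p1 = (y) * (-k))
    (hf : LexFail ((1) * (-h3) + (0) * (-k) + (0) * (1))
      ((0) * (-h3) + (y) * (-k) + (1) * (1))
      ((0) * (-h3) + (0) * (-k) + (1) * (1))) :
    0 ≤ h3 - 1 ∨ (0 ≤ -h3 ∧ 0 ≤ h3 ∧ 0 ≤ -p1 - 2) := by
  rcases hf with hf | ⟨hf0, hf⟩ | ⟨hf0, hf1, hf⟩
  · exact Or.inl (by linarith only [hf])
  · exact Or.inr (⟨by linarith only [hf0], by linarith only [hf0], by linarith only [hf, ep1]⟩)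
  · exfalso; linarith only [hf]

theorem cvG_V2_V3_e3_23 {h m y : ℤ}
    (hf : LexFail ((1) * (-h) + (0) * (1) + (0) * (-m + 1))
      ((0) * (-h) + (y) * (1) + (1) * (-m + 1))
      ((0) * (-h) + (0) * (1) + (1) * (-m + 1))) :
    0 ≤ h - 1 ∨ (0 ≤ -h ∧ 0 ≤ h ∧ 0 ≤ -y + m - 2) ∨ (0 ≤ -h ∧ 0 ≤ h ∧ 0 ≤ y - m + 1 ∧ 0 ≤ -y + m - 1 ∧ 0 ≤ m - 1) := by
  rcases hf with hf | ⟨hf0, hf⟩ | ⟨hf0, hf1, hf⟩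
  · exact Or.inl (by linarith only [hf])
  · exact Or.inr (Or.inl (⟨by linarith only [hf0], by linarith only [hf0], by linarith only [hf]⟩))
  · exact Or.inr (Or.inr (⟨by linarith only [hf0], by linarith only [hf0], by linarith only [hf1], by linarith only [hf1], by linarith only [hf]⟩))

theorem Gt_V2_V3_e3 {n1 n2 n3 a1 a2 a3 b1 b2 b3 e y hp h3 k h m p0 p1 : ℤ}
    (B15 : 0 ≤ e - a1 - a2 + b1 + b2)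
    (B16 : 0 ≤ a1 + a2 - b1 - b2 - e)
    (B17 : 0 ≤ e - 1)
    (B18 : 0 ≤ y + a1 + a2 + a3 - b1 - b2 - b3)
    (B19 : 0 ≤ -a1 - a2 - a3 + b1 + b2 + b3 - y)
    (B20 : 0 ≤ y - 1)
    (B21 : 0 ≤ a1 - b1)
    (B22 : 0 ≤ -a1 + b1)
    (B23 : 0 ≤ e - 1)
    (B24 : 0 ≤ -e + 1)
    (ep0 : p0 = (y) * (-n2 + b2 + 2))
    (ep1 : p1 = (y) * (-k))
    (w1 : a1 - b1 = 0) (w2 : a1 + a2 - b1 - b2 = 1) (w3 : a1 + a2 + a3 - b1 - b2 - b3 = -y)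
    (hno : ¬ ∃ u1 u2 u3 : ℤ, Good n1 n2 n3 a1 a2 a3 b1 b2 b3 u1 u2 u3)
    (hd : ∀ c1 c2 c3, LosC n1 n2 n3 a1 a2 a3 b1 b2 b3 c1 c2 c3 →
      ∃ v ∈ ([⟨0 ≤ b1 - 1, 1, -n2 + b2 + 2, -n2 + b2 - n3 + b3 - y + 1⟩, ⟨0 ≤ b1 + b2 - 1, -hp, 2, -n3 + b3 - y + 1⟩, ⟨True, -h3, -k, 1⟩, ⟨True, -h, 1, -m + 1⟩] : List LV), v.ex ∧ v.c1 ≤ c1 ∧ v.c2 ≤ c2 ∧ v.c3 ≤ c3) :
    ((0 ≤ b1 + b2 - 1 ∧ 0 ≤ hp - 1) ∨ (0 ≤ b1 + b2 - 1 ∧ 0 ≤ -hp ∧ 0 ≤ hp ∧ 0 ≤ -y + n3 - b3 - 2) ∨ (0 ≤ b1 + b2 - 1 ∧ 0 ≤ -hp ∧ 0 ≤ hp ∧ 0 ≤ y - n3 + b3 + 1 ∧ 0 ≤ -y + n3 - b3 - 1 ∧ 0 ≤ n3 - b3 + y - 1)) ∨ (0 ≤ h3 - 1 ∨ (0 ≤ -h3 ∧ 0 ≤ h3 ∧ 0 ≤ -p1 - 2)) ∨ (0 ≤ h - 1 ∨ (0 ≤ -h ∧ 0 ≤ h ∧ 0 ≤ -y + m - 2) ∨ (0 ≤ -h ∧ 0 ≤ h ∧ 0 ≤ y - m + 1 ∧ 0 ≤ -y + m - 1 ∧ 0 ≤ m - 1)) := by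
  obtain ⟨v, hv, hex, hf⟩ := failA' w1 w2 w3 hno _ hd (1) (0) (0) (0) (y) (1) (0) (0) (1)
    ⟨zero_le_one, le_refl 0, le_refl 0⟩ ⟨le_refl 0, by linarith only [B15, B16, B17, B18, B19, B20, B21, B22, B23, B24], zero_le_one⟩ ⟨le_refl 0, le_refl 0, zero_le_one⟩
    (Or.inr ⟨by ring, Or.inr ⟨by ring, by linarith only [B15, B16, B17, B18, B19, B20, B21, B22, B23, B24]⟩⟩)
  simp only [List.mem_cons, List.not_mem_nil, or_false] at hv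
  rcases hv with rfl | rfl | rfl | rfl
  · exact (cvG_V2_V3_e3_11 ep0 hex hf).elim
  · exact Or.inl (cvG_V2_V3_e3_22 hex hf)
  · exact Or.inr (Or.inl (cvG_V2_V3_e3_33 ep1 hf))
  · exact Or.inr (Or.inr (cvG_V2_V3_e3_23 hf))

theorem cvG_V2_e2_V3_11 {b1 b2 b3 n2 n3 p2 y : ℤ}
    (ep2 : p2 = (y) * (-n2 + b2 + 1))
    (hex : 0 ≤ b1 - 1)
    (hf : LexFail ((1) * (1 - (0)) + (0) * (-n2 + b2 + 2 - (1)) + (0) * (-n2 + b2 - n3 + b3 - y + 1 - (-y)))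
      ((0) * (1 - (0)) + (1) * (-n2 + b2 + 2 - (1)) + (0) * (-n2 + b2 - n3 + b3 - y + 1 - (-y)))
      ((0) * (1 - (0)) + (y) * (-n2 + b2 + 2 - (1)) + (1) * (-n2 + b2 - n3 + b3 - y + 1 - (-y)))) :
    False := by
  rcases hf with hf | ⟨hf0, hf⟩ | ⟨hf0, hf1, hf⟩
  · exfalso; linarith only [hf]
  · exfalso; linarith only [hf0]
  · exfalso; linarith only [hf0]

theorem cvG_V2_e2_V3_22 {b1 b2 b3 hp n3 y : ℤ}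
    (hex : 0 ≤ b1 + b2 - 1)
    (hf : LexFail ((1) * (-hp - (0)) + (0) * (2 - (1)) + (0) * (-n3 + b3 - y + 1 - (-y)))
      ((0) * (-hp - (0)) + (1) * (2 - (1)) + (0) * (-n3 + b3 - y + 1 - (-y)))
      ((0) * (-hp - (0)) + (y) * (2 - (1)) + (1) * (-n3 + b3 - y + 1 - (-y)))) :
    (0 ≤ b1 + b2 - 1 ∧ 0 ≤ hp - 1) := by
  rcases hf with hf | ⟨hf0, hf⟩ | ⟨hf0, hf1, hf⟩
  · exact ⟨by linarith only [hex], by linarith only [hf]⟩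
  · exfalso; linarith only [hf]
  · exfalso; linarith only [hf1]

theorem cvG_V2_e2_V3_33 {h3 k p3 y : ℤ}
    (ep3 : p3 = (y) * (-k - 1))
    (hf : LexFail ((1) * (-h3 - (0)) + (0) * (-k - (1)) + (0) * (1 - (-y)))
      ((0) * (-h3 - (0)) + (1) * (-k - (1)) + (0) * (1 - (-y)))
      ((0) * (-h3 - (0)) + (y) * (-k - (1)) + (1) * (1 - (-y)))) :
    0 ≤ h3 - 1 ∨ (0 ≤ -h3 ∧ 0 ≤ h3 ∧ 0 ≤ k) ∨ (0 ≤ -h3 ∧ 0 ≤ h3 ∧ 0 ≤ -k - 1 ∧ 0 ≤ k + 1 ∧ 0 ≤ -p3 - y - 1) := by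
  rcases hf with hf | ⟨hf0, hf⟩ | ⟨hf0, hf1, hf⟩
  · exact Or.inl (by linarith only [hf])
  · exact Or.inr (Or.inl (⟨by linarith only [hf0], by linarith only [hf0], by linarith only [hf]⟩))
  · exact Or.inr (Or.inr (⟨by linarith only [hf0], by linarith only [hf0], by linarith only [hf1], by linarith only [hf1], by linarith only [hf, ep3]⟩))

theorem cvG_V2_e2_V3_23 {h m y : ℤ}
    (hf : LexFail ((1) * (-h - (0)) + (0) * (1 - (1)) + (0) * (-m + 1 - (-y)))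
      ((0) * (-h - (0)) + (1) * (1 - (1)) + (0) * (-m + 1 - (-y)))
      ((0) * (-h - (0)) + (y) * (1 - (1)) + (1) * (-m + 1 - (-y)))) :
    0 ≤ h - 1 ∨ (0 ≤ -h ∧ 0 ≤ h ∧ 0 ≤ m - y - 1) := by
  rcases hf with hf | ⟨hf0, hf⟩ | ⟨hf0, hf1, hf⟩
  · exact Or.inl (by linarith only [hf])
  · exfalso; linarith only [hf]
  · exact Or.inr (⟨by linarith only [hf0], by linarith only [hf0], by linarith only [hf]⟩)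

theorem Gt_V2_e2_V3 {n1 n2 n3 a1 a2 a3 b1 b2 b3 e y hp h3 k h m p2 p3 : ℤ}
    (B15 : 0 ≤ e - a1 - a2 + b1 + b2)
    (B16 : 0 ≤ a1 + a2 - b1 - b2 - e)
    (B17 : 0 ≤ e - 1)
    (B18 : 0 ≤ y + a1 + a2 + a3 - b1 - b2 - b3)
    (B19 : 0 ≤ -a1 - a2 - a3 + b1 + b2 + b3 - y)
    (B20 : 0 ≤ y - 1)
    (B21 : 0 ≤ a1 - b1)
    (B22 : 0 ≤ -a1 + b1)
    (B23 : 0 ≤ e - 1)
    (B24 : 0 ≤ -e + 1)
    (ep2 : p2 = (y) * (-n2 + b2 + 1))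
    (ep3 : p3 = (y) * (-k - 1))
    (w1 : a1 - b1 = 0) (w2 : a1 + a2 - b1 - b2 = 1) (w3 : a1 + a2 + a3 - b1 - b2 - b3 = -y)
    (hno : ¬ ∃ u1 u2 u3 : ℤ, Good n1 n2 n3 a1 a2 a3 b1 b2 b3 u1 u2 u3)
    (hd : ∀ c1 c2 c3, LosC n1 n2 n3 a1 a2 a3 b1 b2 b3 c1 c2 c3 →
      ∃ v ∈ ([⟨0 ≤ b1 - 1, 1, -n2 + b2 + 2, -n2 + b2 - n3 + b3 - y + 1⟩, ⟨0 ≤ b1 + b2 - 1, -hp, 2, -n3 + b3 - y + 1⟩, ⟨True, -h3, -k, 1⟩, ⟨True, -h, 1, -m + 1⟩] : List LV), v.ex ∧ v.c1 ≤ c1 ∧ v.c2 ≤ c2 ∧ v.c3 ≤ c3) :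
    ((0 ≤ b1 + b2 - 1 ∧ 0 ≤ hp - 1)) ∨ (0 ≤ h3 - 1 ∨ (0 ≤ -h3 ∧ 0 ≤ h3 ∧ 0 ≤ k) ∨ (0 ≤ -h3 ∧ 0 ≤ h3 ∧ 0 ≤ -k - 1 ∧ 0 ≤ k + 1 ∧ 0 ≤ -p3 - y - 1)) ∨ (0 ≤ h - 1 ∨ (0 ≤ -h ∧ 0 ≤ h ∧ 0 ≤ m - y - 1)) := by
  obtain ⟨v, hv, hex, hf⟩ := failB' w1 w2 w3 hno _ hd (1) (0) (0) (0) (1) (0) (0) (y) (1)
    ⟨zero_le_one, le_refl 0, le_refl 0⟩ ⟨le_refl 0, zero_le_one, le_refl 0⟩ ⟨le_refl 0, by linarith only [B15, B16, B17, B18, B19, B20, B21, B22, B23, B24], zero_le_one⟩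
    (Or.inr ⟨by ring, Or.inl (by linarith only [B15, B16, B17, B18, B19, B20, B21, B22, B23, B24])⟩)
  simp only [List.mem_cons, List.not_mem_nil, or_false] at hv
  rcases hv with rfl | rfl | rfl | rfl
  · exact (cvG_V2_e2_V3_11 ep2 hex hf).elim
  · exact Or.inl (cvG_V2_e2_V3_22 hex hf)
  · exact Or.inr (Or.inl (cvG_V2_e2_V3_33 ep3 hf))
  · exact Or.inr (Or.inr (cvG_V2_e2_V3_23 hf))

theorem cvG_V2_e3_V3_11 {b1 b2 b3 n2 n3 p0 y : ℤ}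
    (ep0 : p0 = (y) * (-n2 + b2 + 2))
    (hex : 0 ≤ b1 - 1)
    (hf : LexFail ((1) * (1) + (0) * (-n2 + b2 + 2) + (0) * (-n2 + b2 - n3 + b3 - y + 1))
      ((0) * (1) + (0) * (-n2 + b2 + 2) + (1) * (-n2 + b2 - n3 + b3 - y + 1))
      ((0) * (1) + (y) * (-n2 + b2 + 2) + (1) * (-n2 + b2 - n3 + b3 - y + 1))) :
    False := by
  rcases hf with hf | ⟨hf0, hf⟩ | ⟨hf0, hf1, hf⟩
  · exfalso; linarith only [hf]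
  · exfalso; linarith only [hf0]
  · exfalso; linarith only [hf0]

theorem cvG_V2_e3_V3_22 {b1 b2 b3 hp n3 y : ℤ}
    (hex : 0 ≤ b1 + b2 - 1)
    (hf : LexFail ((1) * (-hp) + (0) * (2) + (0) * (-n3 + b3 - y + 1))
      ((0) * (-hp) + (0) * (2) + (1) * (-n3 + b3 - y + 1))
      ((0) * (-hp) + (y) * (2) + (1) * (-n3 + b3 - y + 1))) :
    (0 ≤ b1 + b2 - 1 ∧ 0 ≤ hp - 1) ∨ (0 ≤ b1 + b2 - 1 ∧ 0 ≤ -hp ∧ 0 ≤ hp ∧ 0 ≤ n3 - b3 + y - 2) ∨ (0 ≤ b1 + b2 - 1 ∧ 0 ≤ -hp ∧ 0 ≤ hp ∧ 0 ≤ -n3 + b3 - y + 1 ∧ 0 ≤ n3 - b3 + y - 1 ∧ 0 ≤ -y + n3 - b3 - 1) := by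
  rcases hf with hf | ⟨hf0, hf⟩ | ⟨hf0, hf1, hf⟩
  · exact Or.inl (⟨by linarith only [hex], by linarith only [hf]⟩)
  · exact Or.inr (Or.inl (⟨by linarith only [hex], by linarith only [hf0], by linarith only [hf0], by linarith only [hf]⟩))
  · exact Or.inr (Or.inr (⟨by linarith only [hex], by linarith only [hf0], by linarith only [hf0], by linarith only [hf1], by linarith only [hf1], by linarith only [hf]⟩))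

theorem cvG_V2_e3_V3_33 {h3 k p1 y : ℤ}
    (ep1 : p1 = (y) * (-k))
    (hf : LexFail ((1) * (-h3) + (0) * (-k) + (0) * (1))
      ((0) * (-h3) + (0) * (-k) + (1) * (1))
      ((0) * (-h3) + (y) * (-k) + (1) * (1))) :
    0 ≤ h3 - 1 := by
  rcases hf with hf | ⟨hf0, hf⟩ | ⟨hf0, hf1, hf⟩
  · exact by linarith only [hf]
  · exfalso; linarith only [hf]
  · exfalso; linarith only [hf1]

theorem cvG_V2_e3_V3_23 {h m y : ℤ}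
    (hf : LexFail ((1) * (-h) + (0) * (1) + (0) * (-m + 1))
      ((0) * (-h) + (0) * (1) + (1) * (-m + 1))
      ((0) * (-h) + (y) * (1) + (1) * (-m + 1))) :
    0 ≤ h - 1 ∨ (0 ≤ -h ∧ 0 ≤ h ∧ 0 ≤ m - 2) ∨ (0 ≤ -h ∧ 0 ≤ h ∧ 0 ≤ -m + 1 ∧ 0 ≤ m - 1 ∧ 0 ≤ -y + m - 1) := by
  rcases hf with hf | ⟨hf0, hf⟩ | ⟨hf0, hf1, hf⟩
  · exact Or.inl (by linarith only [hf])
  · exact Or.inr (Or.inl (⟨by linarith only [hf0], by linarith only [hf0], by linarith only [hf]⟩))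
  · exact Or.inr (Or.inr (⟨by linarith only [hf0], by linarith only [hf0], by linarith only [hf1], by linarith only [hf1], by linarith only [hf]⟩))

theorem Gt_V2_e3_V3 {n1 n2 n3 a1 a2 a3 b1 b2 b3 e y hp h3 k h m p0 p1 : ℤ}
    (B15 : 0 ≤ e - a1 - a2 + b1 + b2)
    (B16 : 0 ≤ a1 + a2 - b1 - b2 - e)
    (B17 : 0 ≤ e - 1)
    (B18 : 0 ≤ y + a1 + a2 + a3 - b1 - b2 - b3)
    (B19 : 0 ≤ -a1 - a2 - a3 + b1 + b2 + b3 - y)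
    (B20 : 0 ≤ y - 1)
    (B21 : 0 ≤ a1 - b1)
    (B22 : 0 ≤ -a1 + b1)
    (B23 : 0 ≤ e - 1)
    (B24 : 0 ≤ -e + 1)
    (ep0 : p0 = (y) * (-n2 + b2 + 2))
    (ep1 : p1 = (y) * (-k))
    (w1 : a1 - b1 = 0) (w2 : a1 + a2 - b1 - b2 = 1) (w3 : a1 + a2 + a3 - b1 - b2 - b3 = -y)
    (hno : ¬ ∃ u1 u2 u3 : ℤ, Good n1 n2 n3 a1 a2 a3 b1 b2 b3 u1 u2 u3)
    (hd : ∀ c1 c2 c3, LosC n1 n2 n3 a1 a2 a3 b1 b2 b3 c1 c2 c3 →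
      ∃ v ∈ ([⟨0 ≤ b1 - 1, 1, -n2 + b2 + 2, -n2 + b2 - n3 + b3 - y + 1⟩, ⟨0 ≤ b1 + b2 - 1, -hp, 2, -n3 + b3 - y + 1⟩, ⟨True, -h3, -k, 1⟩, ⟨True, -h, 1, -m + 1⟩] : List LV), v.ex ∧ v.c1 ≤ c1 ∧ v.c2 ≤ c2 ∧ v.c3 ≤ c3) :
    ((0 ≤ b1 + b2 - 1 ∧ 0 ≤ hp - 1) ∨ (0 ≤ b1 + b2 - 1 ∧ 0 ≤ -hp ∧ 0 ≤ hp ∧ 0 ≤ n3 - b3 + y - 2) ∨ (0 ≤ b1 + b2 - 1 ∧ 0 ≤ -hp ∧ 0 ≤ hp ∧ 0 ≤ -n3 + b3 - y + 1 ∧ 0 ≤ n3 - b3 + y - 1 ∧ 0 ≤ -y + n3 - b3 - 1)) ∨ (0 ≤ h3 - 1) ∨ (0 ≤ h - 1 ∨ (0 ≤ -h ∧ 0 ≤ h ∧ 0 ≤ m - 2) ∨ (0 ≤ -h ∧ 0 ≤ h ∧ 0 ≤ -m + 1 ∧ 0 ≤ m - 1 ∧ 0 ≤ -y + m - 1)) := by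
  obtain ⟨v, hv, hex, hf⟩ := failA' w1 w2 w3 hno _ hd (1) (0) (0) (0) (0) (1) (0) (y) (1)
    ⟨zero_le_one, le_refl 0, le_refl 0⟩ ⟨le_refl 0, le_refl 0, zero_le_one⟩ ⟨le_refl 0, by linarith only [B15, B16, B17, B18, B19, B20, B21, B22, B23, B24], zero_le_one⟩
    (Or.inr ⟨by ring, Or.inl (by linarith only [B15, B16, B17, B18, B19, B20, B21, B22, B23, B24])⟩)
  simp only [List.mem_cons, List.not_mem_nil, or_false] at hv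
  rcases hv with rfl | rfl | rfl | rfl
  · exact (cvG_V2_e3_V3_11 ep0 hex hf).elim
  · exact Or.inl (cvG_V2_e3_V3_22 hex hf)
  · exact Or.inr (Or.inl (cvG_V2_e3_V3_33 ep1 hf))
  · exact Or.inr (Or.inr (cvG_V2_e3_V3_23 hf))

theorem cvG_V2_V3_e2_11 {b1 b2 b3 n2 n3 p0 y : ℤ}
    (ep0 : p0 = (y) * (-n2 + b2 + 2))
    (hex : 0 ≤ b1 - 1)
    (hf : LexFail ((1) * (1 - (0)) + (0) * (-n2 + b2 + 2 - (1)) + (0) * (-n2 + b2 - n3 + b3 - y + 1 - (-y)))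
      ((0) * (1 - (0)) + (y) * (-n2 + b2 + 2 - (1)) + (1) * (-n2 + b2 - n3 + b3 - y + 1 - (-y)))
      ((0) * (1 - (0)) + (1) * (-n2 + b2 + 2 - (1)) + (0) * (-n2 + b2 - n3 + b3 - y + 1 - (-y)))) :
    False := by
  rcases hf with hf | ⟨hf0, hf⟩ | ⟨hf0, hf1, hf⟩
  · exfalso; linarith only [hf]
  · exfalso; linarith only [hf0]
  · exfalso; linarith only [hf0]

theorem cvG_V2_V3_e2_22 {b1 b2 b3 hp n3 y : ℤ}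
    (hex : 0 ≤ b1 + b2 - 1)
    (hf : LexFail ((1) * (-hp - (0)) + (0) * (2 - (1)) + (0) * (-n3 + b3 - y + 1 - (-y)))
      ((0) * (-hp - (0)) + (y) * (2 - (1)) + (1) * (-n3 + b3 - y + 1 - (-y)))
      ((0) * (-hp - (0)) + (1) * (2 - (1)) + (0) * (-n3 + b3 - y + 1 - (-y)))) :
    (0 ≤ b1 + b2 - 1 ∧ 0 ≤ hp - 1) ∨ (0 ≤ b1 + b2 - 1 ∧ 0 ≤ -hp ∧ 0 ≤ hp ∧ 0 ≤ -y + n3 - b3 - 2) := by
  rcases hf with hf | ⟨hf0, hf⟩ | ⟨hf0, hf1, hf⟩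
  · exact Or.inl (⟨by linarith only [hex], by linarith only [hf]⟩)
  · exact Or.inr (⟨by linarith only [hex], by linarith only [hf0], by linarith only [hf0], by linarith only [hf]⟩)
  · exfalso; linarith only [hf]

theorem cvG_V2_V3_e2_33 {h3 k p1 y : ℤ}
    (ep1 : p1 = (y) * (-k))
    (hf : LexFail ((1) * (-h3 - (0)) + (0) * (-k - (1)) + (0) * (1 - (-y)))
      ((0) * (-h3 - (0)) + (y) * (-k - (1)) + (1) * (1 - (-y)))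
      ((0) * (-h3 - (0)) + (1) * (-k - (1)) + (0) * (1 - (-y)))) :
    0 ≤ h3 - 1 ∨ (0 ≤ -h3 ∧ 0 ≤ h3 ∧ 0 ≤ -p1 - 2) ∨ (0 ≤ -h3 ∧ 0 ≤ h3 ∧ 0 ≤ p1 + 1 ∧ 0 ≤ -p1 - 1 ∧ 0 ≤ k + 1) := by
  rcases hf with hf | ⟨hf0, hf⟩ | ⟨hf0, hf1, hf⟩
  · exact Or.inl (by linarith only [hf])
  · exact Or.inr (Or.inl (⟨by linarith only [hf0], by linarith only [hf0], by linarith only [hf, ep1]⟩))
  · exact Or.inr (Or.inr (⟨by linarith only [hf0], by linarith only [hf0], by linarith only [hf1, ep1], by linarith only [hf1, ep1], by linarith only [hf]⟩))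

theorem cvG_V2_V3_e2_23 {h m y : ℤ}
    (hf : LexFail ((1) * (-h - (0)) + (0) * (1 - (1)) + (0) * (-m + 1 - (-y)))
      ((0) * (-h - (0)) + (y) * (1 - (1)) + (1) * (-m + 1 - (-y)))
      ((0) * (-h - (0)) + (1) * (1 - (1)) + (0) * (-m + 1 - (-y)))) :
    0 ≤ h - 1 ∨ (0 ≤ -h ∧ 0 ≤ h ∧ 0 ≤ -y + m - 2) ∨ (0 ≤ -h ∧ 0 ≤ h ∧ 0 ≤ y - m + 1 ∧ 0 ≤ -y + m - 1) := by
  rcases hf with hf | ⟨hf0, hf⟩ | ⟨hf0, hf1, hf⟩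
  · exact Or.inl (by linarith only [hf])
  · exact Or.inr (Or.inl (⟨by linarith only [hf0], by linarith only [hf0], by linarith only [hf]⟩))
  · exact Or.inr (Or.inr (⟨by linarith only [hf0], by linarith only [hf0], by linarith only [hf1], by linarith only [hf1]⟩))

theorem Gt_V2_V3_e2 {n1 n2 n3 a1 a2 a3 b1 b2 b3 e y hp h3 k h m p0 p1 : ℤ}
    (B15 : 0 ≤ e - a1 - a2 + b1 + b2)
    (B16 : 0 ≤ a1 + a2 - b1 - b2 - e)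
    (B17 : 0 ≤ e - 1)
    (B18 : 0 ≤ y + a1 + a2 + a3 - b1 - b2 - b3)
    (B19 : 0 ≤ -a1 - a2 - a3 + b1 + b2 + b3 - y)
    (B20 : 0 ≤ y - 1)
    (B21 : 0 ≤ a1 - b1)
    (B22 : 0 ≤ -a1 + b1)
    (B23 : 0 ≤ e - 1)
    (B24 : 0 ≤ -e + 1)
    (ep0 : p0 = (y) * (-n2 + b2 + 2))
    (ep1 : p1 = (y) * (-k))
    (w1 : a1 - b1 = 0) (w2 : a1 + a2 - b1 - b2 = 1) (w3 : a1 + a2 + a3 - b1 - b2 - b3 = -y)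
    (hno : ¬ ∃ u1 u2 u3 : ℤ, Good n1 n2 n3 a1 a2 a3 b1 b2 b3 u1 u2 u3)
    (hd : ∀ c1 c2 c3, LosC n1 n2 n3 a1 a2 a3 b1 b2 b3 c1 c2 c3 →
      ∃ v ∈ ([⟨0 ≤ b1 - 1, 1, -n2 + b2 + 2, -n2 + b2 - n3 + b3 - y + 1⟩, ⟨0 ≤ b1 + b2 - 1, -hp, 2, -n3 + b3 - y + 1⟩, ⟨True, -h3, -k, 1⟩, ⟨True, -h, 1, -m + 1⟩] : List LV), v.ex ∧ v.c1 ≤ c1 ∧ v.c2 ≤ c2 ∧ v.c3 ≤ c3) :
    ((0 ≤ b1 + b2 - 1 ∧ 0 ≤ hp - 1) ∨ (0 ≤ b1 + b2 - 1 ∧ 0 ≤ -hp ∧ 0 ≤ hp ∧ 0 ≤ -y + n3 - b3 - 2)) ∨ (0 ≤ h3 - 1 ∨ (0 ≤ -h3 ∧ 0 ≤ h3 ∧ 0 ≤ -p1 - 2) ∨ (0 ≤ -h3 ∧ 0 ≤ h3 ∧ 0 ≤ p1 + 1 ∧ 0 ≤ -p1 - 1 ∧ 0 ≤ k + 1)) ∨ (0 ≤ h - 1 ∨ (0 ≤ -h ∧ 0 ≤ h ∧ 0 ≤ -y + m - 2) ∨ (0 ≤ -h ∧ 0 ≤ h ∧ 0 ≤ y - m + 1 ∧ 0 ≤ -y + m - 1)) := by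
  obtain ⟨v, hv, hex, hf⟩ := failB' w1 w2 w3 hno _ hd (1) (0) (0) (0) (y) (1) (0) (1) (0)
    ⟨zero_le_one, le_refl 0, le_refl 0⟩ ⟨le_refl 0, by linarith only [B15, B16, B17, B18, B19, B20, B21, B22, B23, B24], zero_le_one⟩ ⟨le_refl 0, zero_le_one, le_refl 0⟩
    (Or.inr ⟨by ring, Or.inr ⟨by ring, by linarith only [B15, B16, B17, B18, B19, B20, B21, B22, B23, B24]⟩⟩)
  simp only [List.mem_cons, List.not_mem_nil, or_false] at hv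
  rcases hv with rfl | rfl | rfl | rfl
  · exact (cvG_V2_V3_e2_11 ep0 hex hf).elim
  · exact Or.inl (cvG_V2_V3_e2_22 hex hf)
  · exact Or.inr (Or.inl (cvG_V2_V3_e2_33 ep1 hf))
  · exact Or.inr (Or.inr (cvG_V2_V3_e2_23 hf))

theorem T0_11_33 {n1 n2 n3 a1 a2 a3 b1 b2 b3 y h3 k : ℤ}
    (H : NoTr n1 n2 n3 a1 a2 a3 b1 b2 b3)
    (w1 : a1 - b1 = 0) (w2 : a1 + a2 - b1 - b2 = 1) (w3 : a1 + a2 + a3 - b1 - b2 - b3 = -y)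
    (l11 : 0 ≤ b1 - 1 → LosC n1 n2 n3 a1 a2 a3 b1 b2 b3 (1) (-n2 + b2 + 2) (-n2 + b2 - n3 + b3 - y + 1))
    (l33 : LosC n1 n2 n3 a1 a2 a3 b1 b2 b3 (-h3) (-k) (1))
    : 0 ≤ -b1 ∨ 0 ≤ -h3 ∨ 0 ≤ -n2 + b2 - k - 1 ∨ 0 ≤ -n2 + b2 - n3 + b3 + y + 1 := by
  rcases le_or_gt (b1) 0 with hb0 | hb0
  · exact Or.inl (by linarith only [hb0])
  rcases H.t0 w1 w2 w3 (l11 (by linarith only [hb0])) l33 with hq | hq | hq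
  · exact Or.inr (Or.inl (by linarith only [hq]))
  · exact Or.inr (Or.inr (Or.inl (by linarith only [hq])))
  · exact Or.inr (Or.inr (Or.inr (by linarith only [hq])))

theorem T1_11_33 {n1 n2 n3 a1 a2 a3 b1 b2 b3 y h3 k : ℤ}
    (H : NoTr n1 n2 n3 a1 a2 a3 b1 b2 b3)
    (w1 : a1 - b1 = 0) (w2 : a1 + a2 - b1 - b2 = 1) (w3 : a1 + a2 + a3 - b1 - b2 - b3 = -y)
    (l11 : 0 ≤ b1 - 1 → LosC n1 n2 n3 a1 a2 a3 b1 b2 b3 (1) (-n2 + b2 + 2) (-n2 + b2 - n3 + b3 - y + 1))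
    (l33 : LosC n1 n2 n3 a1 a2 a3 b1 b2 b3 (-h3) (-k) (1))
    : 0 ≤ -b1 ∨ 0 ≤ -h3 ∨ 0 ≤ -n2 + b2 - k ∨ 0 ≤ -n2 + b2 - n3 + b3 + 1 := by
  rcases le_or_gt (b1) 0 with hb0 | hb0
  · exact Or.inl (by linarith only [hb0])
  rcases H.t1 w1 w2 w3 (l11 (by linarith only [hb0])) l33 with hq | hq | hq
  · exact Or.inr (Or.inl (by linarith only [hq]))
  · exact Or.inr (Or.inr (Or.inl (by linarith only [hq])))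
  · exact Or.inr (Or.inr (Or.inr (by linarith only [hq])))

theorem T2_11_33 {n1 n2 n3 a1 a2 a3 b1 b2 b3 y h3 k : ℤ}
    (H : NoTr n1 n2 n3 a1 a2 a3 b1 b2 b3)
    (l11 : 0 ≤ b1 - 1 → LosC n1 n2 n3 a1 a2 a3 b1 b2 b3 (1) (-n2 + b2 + 2) (-n2 + b2 - n3 + b3 - y + 1))
    (l33 : LosC n1 n2 n3 a1 a2 a3 b1 b2 b3 (-h3) (-k) (1))
    : 0 ≤ -b1 ∨ 0 ≤ -h3 ∨ 0 ≤ -n2 + b2 - k + 1 ∨ 0 ≤ -n2 + b2 - n3 + b3 - y + 1 := by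
  rcases le_or_gt (b1) 0 with hb0 | hb0
  · exact Or.inl (by linarith only [hb0])
  rcases H.t2 (l11 (by linarith only [hb0])) l33 with hq | hq | hq
  · exact Or.inr (Or.inl (by linarith only [hq]))
  · exact Or.inr (Or.inr (Or.inl (by linarith only [hq])))
  · exact Or.inr (Or.inr (Or.inr (by linarith only [hq])))

theorem T0_11_23 {n1 n2 n3 a1 a2 a3 b1 b2 b3 y h m : ℤ}
    (H : NoTr n1 n2 n3 a1 a2 a3 b1 b2 b3)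
    (w1 : a1 - b1 = 0) (w2 : a1 + a2 - b1 - b2 = 1) (w3 : a1 + a2 + a3 - b1 - b2 - b3 = -y)
    (l11 : 0 ≤ b1 - 1 → LosC n1 n2 n3 a1 a2 a3 b1 b2 b3 (1) (-n2 + b2 + 2) (-n2 + b2 - n3 + b3 - y + 1))
    (l23 : LosC n1 n2 n3 a1 a2 a3 b1 b2 b3 (-h) (1) (-m + 1))
    : 0 ≤ -b1 ∨ 0 ≤ -h ∨ 0 ≤ -n2 + b2 ∨ 0 ≤ -n2 + b2 - n3 + b3 - m + y + 1 := by
  rcases le_or_gt (b1) 0 with hb0 | hb0
  · exact Or.inl (by linarith only [hb0])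
  rcases H.t0 w1 w2 w3 (l11 (by linarith only [hb0])) l23 with hq | hq | hq
  · exact Or.inr (Or.inl (by linarith only [hq]))
  · exact Or.inr (Or.inr (Or.inl (by linarith only [hq])))
  · exact Or.inr (Or.inr (Or.inr (by linarith only [hq])))

theorem T0_22_33 {n1 n2 n3 a1 a2 a3 b1 b2 b3 y hp h3 k : ℤ}
    (H : NoTr n1 n2 n3 a1 a2 a3 b1 b2 b3)
    (w1 : a1 - b1 = 0) (w2 : a1 + a2 - b1 - b2 = 1) (w3 : a1 + a2 + a3 - b1 - b2 - b3 = -y)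
    (l22 : 0 ≤ b1 + b2 - 1 → LosC n1 n2 n3 a1 a2 a3 b1 b2 b3 (-hp) (2) (-n3 + b3 - y + 1))
    (l33 : LosC n1 n2 n3 a1 a2 a3 b1 b2 b3 (-h3) (-k) (1))
    : 0 ≤ -b1 - b2 ∨ 0 ≤ -hp - h3 - 1 ∨ 0 ≤ -k - 1 ∨ 0 ≤ -n3 + b3 + y + 1 := by
  rcases le_or_gt (b1 + b2) 0 with hb0 | hb0
  · exact Or.inl (by linarith only [hb0])
  rcases H.t0 w1 w2 w3 (l22 (by linarith only [hb0])) l33 with hq | hq | hq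
  · exact Or.inr (Or.inl (by linarith only [hq]))
  · exact Or.inr (Or.inr (Or.inl (by linarith only [hq])))
  · exact Or.inr (Or.inr (Or.inr (by linarith only [hq])))

theorem T1_22_33 {n1 n2 n3 a1 a2 a3 b1 b2 b3 y hp h3 k : ℤ}
    (H : NoTr n1 n2 n3 a1 a2 a3 b1 b2 b3)
    (w1 : a1 - b1 = 0) (w2 : a1 + a2 - b1 - b2 = 1) (w3 : a1 + a2 + a3 - b1 - b2 - b3 = -y)
    (l22 : 0 ≤ b1 + b2 - 1 → LosC n1 n2 n3 a1 a2 a3 b1 b2 b3 (-hp) (2) (-n3 + b3 - y + 1))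
    (l33 : LosC n1 n2 n3 a1 a2 a3 b1 b2 b3 (-h3) (-k) (1))
    : 0 ≤ -b1 - b2 ∨ 0 ≤ -hp - h3 - 1 ∨ 0 ≤ -k ∨ 0 ≤ -n3 + b3 + 1 := by
  rcases le_or_gt (b1 + b2) 0 with hb0 | hb0
  · exact Or.inl (by linarith only [hb0])
  rcases H.t1 w1 w2 w3 (l22 (by linarith only [hb0])) l33 with hq | hq | hq
  · exact Or.inr (Or.inl (by linarith only [hq]))
  · exact Or.inr (Or.inr (Or.inl (by linarith only [hq])))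
  · exact Or.inr (Or.inr (Or.inr (by linarith only [hq])))

theorem T2_22_33 {n1 n2 n3 a1 a2 a3 b1 b2 b3 y hp h3 k : ℤ}
    (H : NoTr n1 n2 n3 a1 a2 a3 b1 b2 b3)
    (l22 : 0 ≤ b1 + b2 - 1 → LosC n1 n2 n3 a1 a2 a3 b1 b2 b3 (-hp) (2) (-n3 + b3 - y + 1))
    (l33 : LosC n1 n2 n3 a1 a2 a3 b1 b2 b3 (-h3) (-k) (1))
    : 0 ≤ -b1 - b2 ∨ 0 ≤ -hp - h3 - 1 ∨ 0 ≤ -k + 1 ∨ 0 ≤ -n3 + b3 - y + 1 := by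
  rcases le_or_gt (b1 + b2) 0 with hb0 | hb0
  · exact Or.inl (by linarith only [hb0])
  rcases H.t2 (l22 (by linarith only [hb0])) l33 with hq | hq | hq
  · exact Or.inr (Or.inl (by linarith only [hq]))
  · exact Or.inr (Or.inr (Or.inl (by linarith only [hq])))
  · exact Or.inr (Or.inr (Or.inr (by linarith only [hq])))

theorem T2_33_23 {n1 n2 n3 a1 a2 a3 b1 b2 b3 h3 k h m : ℤ}
    (H : NoTr n1 n2 n3 a1 a2 a3 b1 b2 b3)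
    (l33 : LosC n1 n2 n3 a1 a2 a3 b1 b2 b3 (-h3) (-k) (1))
    (l23 : LosC n1 n2 n3 a1 a2 a3 b1 b2 b3 (-h) (1) (-m + 1))
    : 0 ≤ -h3 - h - 1 ∨ 0 ≤ -k ∨ 0 ≤ -m + 1 := by
  rcases H.t2 l33 l23 with hq | hq | hq
  · exact Or.inl (by linarith only [hq])
  · exact Or.inr (Or.inl (by linarith only [hq]))
  · exact Or.inr (Or.inr (by linarith only [hq]))

theorem main {n1 n2 n3 a1 a2 a3 b1 b2 b3 e y : ℤ}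
    (B0 : 0 ≤ a1)
    (B1 : 0 ≤ a2)
    (B2 : 0 ≤ a3)
    (B3 : 0 ≤ b1)
    (B4 : 0 ≤ b2)
    (B5 : 0 ≤ b3)
    (B6 : 0 ≤ n1 - a1)
    (B7 : 0 ≤ n2 - a2)
    (B8 : 0 ≤ n3 - a3)
    (B9 : 0 ≤ n1 - b1)
    (B10 : 0 ≤ n2 - b2)
    (B11 : 0 ≤ n3 - b3)
    (B12 : 0 ≤ n1 - 1)
    (B13 : 0 ≤ n2 - 1)
    (B14 : 0 ≤ n3 - 1)
    (B15 : 0 ≤ e - a1 - a2 + b1 + b2)
    (B16 : 0 ≤ a1 + a2 - b1 - b2 - e)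
    (B17 : 0 ≤ e - 1)
    (B18 : 0 ≤ y + a1 + a2 + a3 - b1 - b2 - b3)
    (B19 : 0 ≤ -a1 - a2 - a3 + b1 + b2 + b3 - y)
    (B20 : 0 ≤ y - 1)
    (B21 : 0 ≤ a1 - b1)
    (B22 : 0 ≤ -a1 + b1)
    (B23 : 0 ≤ e - 1)
    (B24 : 0 ≤ -e + 1)
    (C_c1 : (0 ≤ a1 - 1 ∧ 0 ≤ n2 - a2 - 1) ∨ (0 ≤ b1 - 1 ∧ 0 ≤ n2 - b2 - 1))
    (C_c2 : (0 ≤ a2 - 1 ∧ 0 ≤ n3 - a3 - 1) ∨ (0 ≤ b2 - 1 ∧ 0 ≤ n3 - b3 - 1))
    (H : NoTr n1 n2 n3 a1 a2 a3 b1 b2 b3)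
    (hno : ¬ ∃ u1 u2 u3 : ℤ, Good n1 n2 n3 a1 a2 a3 b1 b2 b3 u1 u2 u3) : False := by
  have w1 : a1 - b1 = 0 := by linarith only [B15, B16, B17, B18, B19, B20, B21, B22, B23, B24]
  have w2 : a1 + a2 - b1 - b2 = 1 := by linarith only [B15, B16, B17, B18, B19, B20, B21, B22, B23, B24]
  have w3 : a1 + a2 + a3 - b1 - b2 - b3 = -y := by linarith only [B15, B16, B17, B18, B19, B20, B21, B22, B23, B24]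
  obtain ⟨hp, rhp1, rhp2, rhp3⟩ := min_facts (n1 - b1) (b2 - 1)
  have B25 : 0 ≤ n1 - b1 - hp := by linarith only [rhp1]
  have B26 : 0 ≤ b2 - hp - 1 := by linarith only [rhp2]
  have C_Dhp : 0 ≤ hp - n1 + b1 ∨ 0 ≤ hp - b2 + 1 := rhp3.imp (fun hq => by linarith only [hq]) (fun hq => by linarith only [hq])
  clear rhp1 rhp2 rhp3
  obtain ⟨h3, rh31, rh32, rh33⟩ := min_facts (n1 - a1) (a2 + a3 - 1)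
  have B27 : 0 ≤ n1 - a1 - h3 := by linarith only [rh31]
  have B28 : 0 ≤ a2 + a3 - h3 - 1 := by linarith only [rh32]
  have C_Dh3 : 0 ≤ h3 - n1 + a1 ∨ 0 ≤ h3 - a2 - a3 + 1 := rh33.imp (fun hq => by linarith only [hq]) (fun hq => by linarith only [hq])
  clear rh31 rh32 rh33
  obtain ⟨k, rk1, rk2, rk3⟩ := min_facts (n1 - a1 + n2 - a2) (a3 - 1)
  have B29 : 0 ≤ n1 - a1 + n2 - a2 - k := by linarith only [rk1]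
  have B30 : 0 ≤ a3 - k - 1 := by linarith only [rk2]
  have C_Dk : 0 ≤ k - n1 + a1 - n2 + a2 ∨ 0 ≤ k - a3 + 1 := rk3.imp (fun hq => by linarith only [hq]) (fun hq => by linarith only [hq])
  clear rk1 rk2 rk3
  obtain ⟨h, rh1, rh2, rh3⟩ := min_facts (n1 - a1) (a2 - 1)
  have B31 : 0 ≤ n1 - a1 - h := by linarith only [rh1]
  have B32 : 0 ≤ a2 - h - 1 := by linarith only [rh2]
  have C_Dh : 0 ≤ h - n1 + a1 ∨ 0 ≤ h - a2 + 1 := rh3.imp (fun hq => by linarith only [hq]) (fun hq => by linarith only [hq])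
  clear rh1 rh2 rh3
  obtain ⟨m, rm1, rm2, rm3⟩ := min_facts (y) (n3 - a3)
  have B33 : 0 ≤ y - m := by linarith only [rm1]
  have B34 : 0 ≤ n3 - a3 - m := by linarith only [rm2]
  have C_Dm : 0 ≤ m - y ∨ 0 ≤ m - n3 + a3 := rm3.imp (fun hq => by linarith only [hq]) (fun hq => by linarith only [hq])
  clear rm1 rm2 rm3
  have l11 : 0 ≤ b1 - 1 → LosC n1 n2 n3 a1 a2 a3 b1 b2 b3 (1) (-n2 + b2 + 2) (-n2 + b2 - n3 + b3 - y + 1) := fun hq => los11 B0 B1 B2 B3 B4 B5 B6 B7 B8 B9 B10 B11 B12 B13 B14 B15 B16 B17 B18 B19 B20 B21 B22 B23 B24 hq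
  have l22 : 0 ≤ b1 + b2 - 1 → LosC n1 n2 n3 a1 a2 a3 b1 b2 b3 (-hp) (2) (-n3 + b3 - y + 1) := fun hq => los22 B0 B1 B2 B3 B4 B5 B6 B7 B8 B9 B10 B11 B12 B13 B14 B15 B16 B17 B18 B19 B20 B21 B22 B23 B24 B25 B26 C_Dhp hq
  have l33 : LosC n1 n2 n3 a1 a2 a3 b1 b2 b3 (-h3) (-k) (1) := los33 B0 B1 B2 B3 B4 B5 B6 B7 B8 B9 B10 B11 B12 B13 B14 B15 B16 B17 B18 B19 B20 B21 B22 B23 B24 B27 B28 B29 B30 C_Dh3 C_Dk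
  have l23 : LosC n1 n2 n3 a1 a2 a3 b1 b2 b3 (-h) (1) (-m + 1) := los23 B0 B1 B2 B3 B4 B5 B6 B7 B8 B9 B10 B11 B12 B13 B14 B15 B16 B17 B18 B19 B20 B21 B22 B23 B24 B31 B32 B33 B34 C_Dh C_Dm
  have hd := hd B0 B1 B2 B3 B4 B5 B6 B7 B8 B9 B10 B11 B12 B13 B14 B15 B16 B17 B18 B19 B20 B21 B22 B23 B24 B25 B26 B27 B28 B29 B30 B31 B32 B33 B34 C_Dhp C_Dh3 C_Dk C_Dh C_Dm
  obtain ⟨p0, ep0⟩ : ∃ p, p = (y) * (-n2 + b2 + 2) := ⟨_, rfl⟩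
  have C_Dp0_c : (0 ≤ n2 - b2 - 2 ∧ 0 ≤ -p0) ∨ (0 ≤ -n2 + b2 + 1 ∧ 0 ≤ p0 - y) :=
    (prod_split' (0) ep0 (by linarith only [B15, B16, B17, B18, B19, B20, B21, B22, B23, B24])).imp (fun hq => ⟨by linarith only [hq.1], by linarith only [hq.2]⟩)
      (fun hq => ⟨by linarith only [hq.1], by linarith only [hq.2]⟩)
  obtain ⟨p1, ep1⟩ : ∃ p, p = (y) * (-k) := ⟨_, rfl⟩
  have C_Dp1_a : (0 ≤ k - 2 ∧ 0 ≤ -2 * y - p1) ∨ (0 ≤ -k + 1 ∧ 0 ≤ p1 + y) :=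
    (prod_split' (-2) ep1 (by linarith only [B15, B16, B17, B18, B19, B20, B21, B22, B23, B24])).imp (fun hq => ⟨by linarith only [hq.1], by linarith only [hq.2]⟩)
      (fun hq => ⟨by linarith only [hq.1], by linarith only [hq.2]⟩)
  have C_Dp1_b : (0 ≤ k - 1 ∧ 0 ≤ -y - p1) ∨ (0 ≤ -k ∧ 0 ≤ p1) :=
    (prod_split' (-1) ep1 (by linarith only [B15, B16, B17, B18, B19, B20, B21, B22, B23, B24])).imp (fun hq => ⟨by linarith only [hq.1], by linarith only [hq.2]⟩)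
      (fun hq => ⟨by linarith only [hq.1], by linarith only [hq.2]⟩)
  have C_Dp1_c : (0 ≤ k ∧ 0 ≤ -p1) ∨ (0 ≤ -k - 1 ∧ 0 ≤ p1 - y) :=
    (prod_split' (0) ep1 (by linarith only [B15, B16, B17, B18, B19, B20, B21, B22, B23, B24])).imp (fun hq => ⟨by linarith only [hq.1], by linarith only [hq.2]⟩)
      (fun hq => ⟨by linarith only [hq.1], by linarith only [hq.2]⟩)
  obtain ⟨p2, ep2⟩ : ∃ p, p = (y) * (-n2 + b2 + 1) := ⟨_, rfl⟩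
  have C_Dp2_b : (0 ≤ n2 - b2 - 2 ∧ 0 ≤ -y - p2) ∨ (0 ≤ -n2 + b2 + 1 ∧ 0 ≤ p2) :=
    (prod_split' (-1) ep2 (by linarith only [B15, B16, B17, B18, B19, B20, B21, B22, B23, B24])).imp (fun hq => ⟨by linarith only [hq.1], by linarith only [hq.2]⟩)
      (fun hq => ⟨by linarith only [hq.1], by linarith only [hq.2]⟩)
  have C_Dp2_c : (0 ≤ n2 - b2 - 1 ∧ 0 ≤ -p2) ∨ (0 ≤ -n2 + b2 ∧ 0 ≤ p2 - y) :=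
    (prod_split' (0) ep2 (by linarith only [B15, B16, B17, B18, B19, B20, B21, B22, B23, B24])).imp (fun hq => ⟨by linarith only [hq.1], by linarith only [hq.2]⟩)
      (fun hq => ⟨by linarith only [hq.1], by linarith only [hq.2]⟩)
  obtain ⟨p3, ep3⟩ : ∃ p, p = (y) * (-k - 1) := ⟨_, rfl⟩
  have C_Dp3_b : (0 ≤ k ∧ 0 ≤ -y - p3) ∨ (0 ≤ -k - 1 ∧ 0 ≤ p3) :=
    (prod_split' (-1) ep3 (by linarith only [B15, B16, B17, B18, B19, B20, B21, B22, B23, B24])).imp (fun hq => ⟨by linarith only [hq.1], by linarith only [hq.2]⟩)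
      (fun hq => ⟨by linarith only [hq.1], by linarith only [hq.2]⟩)
  have C_Dp3_c : (0 ≤ k + 1 ∧ 0 ≤ -p3) ∨ (0 ≤ -k - 2 ∧ 0 ≤ p3 - y) :=
    (prod_split' (0) ep3 (by linarith only [B15, B16, B17, B18, B19, B20, B21, B22, B23, B24])).imp (fun hq => ⟨by linarith only [hq.1], by linarith only [hq.2]⟩)
      (fun hq => ⟨by linarith only [hq.1], by linarith only [hq.2]⟩)
  have FA := FAt B15 B16 B17 B18 B19 B20 B21 B22 B23 B24 ep0 ep1 w1 w2 w3 hno hd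
  have FB := FBt B15 B16 B17 B18 B19 B20 B21 B22 B23 B24 ep0 ep1 w1 w2 w3 hno hd
  have G_V2_V3_e3 := Gt_V2_V3_e3 B15 B16 B17 B18 B19 B20 B21 B22 B23 B24 ep0 ep1 w1 w2 w3 hno hd
  have G_V2_e2_V3 := Gt_V2_e2_V3 B15 B16 B17 B18 B19 B20 B21 B22 B23 B24 ep2 ep3 w1 w2 w3 hno hd
  have G_V2_e3_V3 := Gt_V2_e3_V3 B15 B16 B17 B18 B19 B20 B21 B22 B23 B24 ep0 ep1 w1 w2 w3 hno hd
  have G_V2_V3_e2 := Gt_V2_V3_e2 B15 B16 B17 B18 B19 B20 B21 B22 B23 B24 ep0 ep1 w1 w2 w3 hno hd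
  have t0_11_33 := T0_11_33 H w1 w2 w3 l11 l33
  have t1_11_33 := T1_11_33 H w1 w2 w3 l11 l33
  have t2_11_33 := T2_11_33 H l11 l33
  have t0_11_23 := T0_11_23 H w1 w2 w3 l11 l23
  have t0_22_33 := T0_22_33 H w1 w2 w3 l22 l33
  have t1_22_33 := T1_22_33 H w1 w2 w3 l22 l33
  have t2_22_33 := T2_22_33 H l22 l33
  have t2_33_23 := T2_33_23 H l33 l23
  rcases FA with ⟨f0_0, f0_1, f0_2⟩ | ⟨f0_0, f0_1⟩ | ⟨f0_0, f0_1⟩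
  · rcases FB with ⟨f1_0, f1_1, f1_2⟩ | ⟨f1_0, f1_1, f1_2⟩ | ⟨f1_0, f1_1⟩ | ⟨f1_0, f1_1⟩
    · exact g0 B6 B7 B11 B16 B17 B19 B20 B22 B25 B26 B27 B30 B33 f0_0 f0_1 f1_0 f1_2 C_Dh3 C_Dh C_Dm C_Dp0_c C_Dp1_b C_Dp3_b f0_2 t0_11_23 t0_22_33 t1_22_33 G_V2_e2_V3 G_V2_V3_e2
    · exact g1 B2 B6 B7 B16 B17 B20 B22 B25 B26 B30 B31 B33 f0_0 f0_1 f1_1 C_c1 C_Dh3 C_Dk C_Dp1_b C_Dp1_c C_Dp2_b C_Dp2_c C_Dp3_b C_Dp3_c t0_11_33 t0_22_33 t1_22_33 G_V2_e2_V3 G_V2_V3_e2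
    · exact g2 B6 B7 B11 B16 B17 B20 B22 B25 B26 B30 f0_0 f0_1 f1_0 C_c1 C_Dh3 C_Dp1_b C_Dp2_c f0_2 t2_11_33 t1_22_33
    · exact g3 B33 f1_0
  · rcases FB with ⟨f1_0, f1_1, f1_2⟩ | ⟨f1_0, f1_1, f1_2⟩ | ⟨f1_0, f1_1⟩ | ⟨f1_0, f1_1⟩
    · exact g4 B2 B4 B6 B7 B11 B16 B17 B19 B20 B22 B25 B26 B27 B28 B30 B33 f0_0 f1_0 f1_2 C_Dh3 C_Dk C_Dh C_Dm C_Dp0_c C_Dp1_a C_Dp1_b C_Dp1_c C_Dp2_c C_Dp3_c f0_1 t1_11_33 t0_11_23 t2_33_23 t1_22_33 t2_22_33 G_V2_e3_V3 G_V2_V3_e3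
    · exact g5 B2 B4 B7 B9 B12 B16 B17 B20 B22 B27 B29 B30 B31 B33 f0_0 f1_0 f1_1 C_c1 C_c2 C_Dhp C_Dh3 C_Dk C_Dp0_c C_Dp1_b C_Dp1_c C_Dp2_c f0_1 t0_11_33 t1_22_33 t2_33_23 G_V2_e3_V3
    · exact g6 B4 B6 B7 B11 B16 B17 B19 B20 B22 B25 B26 B30 B31 B33 f0_0 f1_0 C_c1 C_Dh3 C_Dh C_Dm C_Dp1_a C_Dp1_b C_Dp2_c t2_11_33 t2_33_23 t1_22_33 t2_22_33 G_V2_e3_V3 G_V2_V3_e3
    · exact g7 B33 f1_0
  · rcases FB with ⟨f1_0, f1_1, f1_2⟩ | ⟨f1_0, f1_1, f1_2⟩ | ⟨f1_0, f1_1⟩ | ⟨f1_0, f1_1⟩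
    · exact g8 B7 B11 B16 B17 B19 B22 B33 f1_0 f1_2 C_Dm C_Dp0_c f0_1 t0_11_23
    · exact g9 B2 B7 B16 B17 B22 B30 B31 B32 B33 f1_1 C_c1 C_Dh3 C_Dk C_Dp2_c C_Dp3_b C_Dp3_c f0_1 t0_11_33
    · exact g10 B7 B11 B16 B17 B20 B22 B30 B31 B32 B33 f1_0 C_c1 C_Dh3 C_Dp1_b C_Dp2_c f0_1 t2_11_33
    · exact g11 B33 f1_0

end WG3.VP
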