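import Pool.Agent.Work.MP_5465ec_co.I0P
import Pool.Agent.Work.MP_5465ec_co.I0N
import Pool.Agent.Work.MP_5465ec_co.I0K
import Pool.Agent.Work.MP_5465ec_co.IpP
import Pool.Agent.Work.MP_5465ec_co.IpN
import Pool.Agent.Work.MP_5465ec_co.IpK
import Pool.Agent.Work.MP_5465ec_co.IIP
import Pool.Agent.Work.MP_5465ec_co.IIN
import Pool.Agent.Work.MP_5465ec_co.IIK
import Pool.Agent.Work.MP_5465ec_co.IIIP
import Pool.Agent.Work.MP_5465ec_co.IIIN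
import Pool.Agent.Work.MP_5465ec_co.IIIK
import Pool.Agent.Work.MP_5465ec_co.IVP
import Pool.Agent.Work.MP_5465ec_co.IVN
import Pool.Agent.Work.MP_5465ec_co.IVK
import Pool.Agent.Work.MP_5465ec_co.VP
import Pool.Agent.Work.MP_5465ec_co.VN
import Pool.Agent.Work.MP_5465ec_co.VK

set_option linter.all false

namespace WG3

theorem caseI0 {n1 n2 n3 a1 a2 a3 b1 b2 b3 : ℤ}
    (ha1 : 0 ≤ a1) (ha2 : 0 ≤ a2) (ha3 : 0 ≤ a3) (hb1 : 0 ≤ b1) (hb2 : 0 ≤ b2) (hb3 : 0 ≤ b3)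
    (hA1 : a1 ≤ n1) (hA2 : a2 ≤ n2) (hA3 : a3 ≤ n3) (hB1 : b1 ≤ n1) (hB2 : b2 ≤ n2) (hB3 : b3 ≤ n3)
    (hn1 : 1 ≤ n1) (hn2 : 1 ≤ n2) (hn3 : 1 ≤ n3)
    (C_c1 : (0 ≤ a1 - 1 ∧ 0 ≤ n2 - a2 - 1) ∨ (0 ≤ b1 - 1 ∧ 0 ≤ n2 - b2 - 1))
    (C_c2 : (0 ≤ a2 - 1 ∧ 0 ≤ n3 - a3 - 1) ∨ (0 ≤ b2 - 1 ∧ 0 ≤ n3 - b3 - 1))
    (k2 : a1 + a2 < b1 + b2) (k3 : a1 + a2 + a3 = b1 + b2 + b3) (k1 : b1 < a1)
    (H : NoTr n1 n2 n3 a1 a2 a3 b1 b2 b3)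
    (hno : ¬ ∃ u1 u2 u3 : ℤ, Good n1 n2 n3 a1 a2 a3 b1 b2 b3 u1 u2 u3) : False := by
  by_cases hP : a1 - b1 = 1
  · exact I0P.main (x := b1 + b2 - a1 - a2) (d1 := a1 - b1)
          (by omega) (by omega) (by omega) (by omega) (by omega) (by omega) (by omega) (by omega) (by omega) (by omega) (by omega) (by omega) (by omega) (by omega) (by omega) (by omega) (by omega) (by omega) (by omega) (by omega) (by omega) (by omega) (by omega) (by omega) (by omega)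
          C_c1 C_c2 H hno
  · by_cases hN : b1 + b2 - a1 - a2 = 1
    · exact I0N.main (x := b1 + b2 - a1 - a2) (d1 := a1 - b1)
          (by omega) (by omega) (by omega) (by omega) (by omega) (by omega) (by omega) (by omega) (by omega) (by omega) (by omega) (by omega) (by omega) (by omega) (by omega) (by omega) (by omega) (by omega) (by omega) (by omega) (by omega) (by omega) (by omega) (by omega) (by omega) (by omega)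
          C_c1 C_c2 H hno
    · exact I0K.main (x := b1 + b2 - a1 - a2) (d1 := a1 - b1)
          (by omega) (by omega) (by omega) (by omega) (by omega) (by omega) (by omega) (by omega) (by omega) (by omega) (by omega) (by omega) (by omega) (by omega) (by omega) (by omega) (by omega) (by omega) (by omega) (by omega) (by omega) (by omega) (by omega) (by omega) (by omega)
          C_c1 C_c2 H hno

theorem caseIp {n1 n2 n3 a1 a2 a3 b1 b2 b3 : ℤ}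
    (ha1 : 0 ≤ a1) (ha2 : 0 ≤ a2) (ha3 : 0 ≤ a3) (hb1 : 0 ≤ b1) (hb2 : 0 ≤ b2) (hb3 : 0 ≤ b3)
    (hA1 : a1 ≤ n1) (hA2 : a2 ≤ n2) (hA3 : a3 ≤ n3) (hB1 : b1 ≤ n1) (hB2 : b2 ≤ n2) (hB3 : b3 ≤ n3)
    (hn1 : 1 ≤ n1) (hn2 : 1 ≤ n2) (hn3 : 1 ≤ n3)
    (C_c1 : (0 ≤ a1 - 1 ∧ 0 ≤ n2 - a2 - 1) ∨ (0 ≤ b1 - 1 ∧ 0 ≤ n2 - b2 - 1))
    (C_c2 : (0 ≤ a2 - 1 ∧ 0 ≤ n3 - a3 - 1) ∨ (0 ≤ b2 - 1 ∧ 0 ≤ n3 - b3 - 1))
    (k2 : a1 + a2 < b1 + b2) (k3 : b1 + b2 + b3 < a1 + a2 + a3) (k1 : b1 < a1)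
    (H : NoTr n1 n2 n3 a1 a2 a3 b1 b2 b3)
    (hno : ¬ ∃ u1 u2 u3 : ℤ, Good n1 n2 n3 a1 a2 a3 b1 b2 b3 u1 u2 u3) : False := by
  by_cases hP : a1 - b1 = 1 ∧ a1 + a2 + a3 - b1 - b2 - b3 = 1
  · exact IpP.main (x := b1 + b2 - a1 - a2) (z := a1 + a2 + a3 - b1 - b2 - b3) (d1 := a1 - b1)
          (by omega) (by omega) (by omega) (by omega) (by omega) (by omega) (by omega) (by omega) (by omega) (by omega) (by omega) (by omega) (by omega) (by omega) (by omega) (by omega) (by omega) (by omega) (by omega) (by omega) (by omega) (by omega) (by omega) (by omega) (by omega) (by omega) (by omega) (by omega)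
          C_c1 C_c2 H hno
  · by_cases hN : b1 + b2 - a1 - a2 = 1
    · exact IpN.main (x := b1 + b2 - a1 - a2) (z := a1 + a2 + a3 - b1 - b2 - b3) (d1 := a1 - b1)
          (by omega) (by omega) (by omega) (by omega) (by omega) (by omega) (by omega) (by omega) (by omega) (by omega) (by omega) (by omega) (by omega) (by omega) (by omega) (by omega) (by omega) (by omega) (by omega) (by omega) (by omega) (by omega) (by omega) (by omega) (by omega) (by omega)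
          C_c1 C_c2 (by omega) H hno
    · exact IpK.main (x := b1 + b2 - a1 - a2) (z := a1 + a2 + a3 - b1 - b2 - b3) (d1 := a1 - b1)
          (by omega) (by omega) (by omega) (by omega) (by omega) (by omega) (by omega) (by omega) (by omega) (by omega) (by omega) (by omega) (by omega) (by omega) (by omega) (by omega) (by omega) (by omega) (by omega) (by omega) (by omega) (by omega) (by omega) (by omega) (by omega)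
          C_c1 C_c2 (by omega) H hno

theorem caseII {n1 n2 n3 a1 a2 a3 b1 b2 b3 : ℤ}
    (ha1 : 0 ≤ a1) (ha2 : 0 ≤ a2) (ha3 : 0 ≤ a3) (hb1 : 0 ≤ b1) (hb2 : 0 ≤ b2) (hb3 : 0 ≤ b3)
    (hA1 : a1 ≤ n1) (hA2 : a2 ≤ n2) (hA3 : a3 ≤ n3) (hB1 : b1 ≤ n1) (hB2 : b2 ≤ n2) (hB3 : b3 ≤ n3)
    (hn1 : 1 ≤ n1) (hn2 : 1 ≤ n2) (hn3 : 1 ≤ n3)
    (C_c1 : (0 ≤ a1 - 1 ∧ 0 ≤ n2 - a2 - 1) ∨ (0 ≤ b1 - 1 ∧ 0 ≤ n2 - b2 - 1))
    (C_c2 : (0 ≤ a2 - 1 ∧ 0 ≤ n3 - a3 - 1) ∨ (0 ≤ b2 - 1 ∧ 0 ≤ n3 - b3 - 1))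
    (k2 : a1 + a2 < b1 + b2) (k3 : a1 + a2 + a3 < b1 + b2 + b3) (k1 : b1 < a1)
    (H : NoTr n1 n2 n3 a1 a2 a3 b1 b2 b3)
    (hno : ¬ ∃ u1 u2 u3 : ℤ, Good n1 n2 n3 a1 a2 a3 b1 b2 b3 u1 u2 u3) : False := by
  by_cases hP : a1 - b1 = 1
  · exact IIP.main (x := b1 + b2 - a1 - a2) (y := b1 + b2 + b3 - a1 - a2 - a3) (d1 := a1 - b1)
          (by omega) (by omega) (by omega) (by omega) (by omega) (by omega) (by omega) (by omega) (by omega) (by omega) (by omega) (by omega) (by omega) (by omega) (by omega) (by omega) (by omega) (by omega) (by omega) (by omega) (by omega) (by omega) (by omega) (by omega) (by omega) (by omega)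
          C_c1 C_c2 H hno
  · by_cases hN : b1 + b2 - a1 - a2 = 1 ∧ b1 + b2 + b3 - a1 - a2 - a3 = 1
    · exact IIN.main (x := b1 + b2 - a1 - a2) (y := b1 + b2 + b3 - a1 - a2 - a3) (d1 := a1 - b1)
          (by omega) (by omega) (by omega) (by omega) (by omega) (by omega) (by omega) (by omega) (by omega) (by omega) (by omega) (by omega) (by omega) (by omega) (by omega) (by omega) (by omega) (by omega) (by omega) (by omega) (by omega) (by omega) (by omega) (by omega) (by omega) (by omega) (by omega) (by omega) (by omega)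
          C_c1 C_c2 H hno
    · exact IIK.main (x := b1 + b2 - a1 - a2) (y := b1 + b2 + b3 - a1 - a2 - a3) (d1 := a1 - b1)
          (by omega) (by omega) (by omega) (by omega) (by omega) (by omega) (by omega) (by omega) (by omega) (by omega) (by omega) (by omega) (by omega) (by omega) (by omega) (by omega) (by omega) (by omega) (by omega) (by omega) (by omega) (by omega) (by omega) (by omega) (by omega)
          C_c1 C_c2 (by omega) H hno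

theorem caseIII {n1 n2 n3 a1 a2 a3 b1 b2 b3 : ℤ}
    (ha1 : 0 ≤ a1) (ha2 : 0 ≤ a2) (ha3 : 0 ≤ a3) (hb1 : 0 ≤ b1) (hb2 : 0 ≤ b2) (hb3 : 0 ≤ b3)
    (hA1 : a1 ≤ n1) (hA2 : a2 ≤ n2) (hA3 : a3 ≤ n3) (hB1 : b1 ≤ n1) (hB2 : b2 ≤ n2) (hB3 : b3 ≤ n3)
    (hn1 : 1 ≤ n1) (hn2 : 1 ≤ n2) (hn3 : 1 ≤ n3)
    (C_c1 : (0 ≤ a1 - 1 ∧ 0 ≤ n2 - a2 - 1) ∨ (0 ≤ b1 - 1 ∧ 0 ≤ n2 - b2 - 1))
    (C_c2 : (0 ≤ a2 - 1 ∧ 0 ≤ n3 - a3 - 1) ∨ (0 ≤ b2 - 1 ∧ 0 ≤ n3 - b3 - 1))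
    (k2 : a1 + a2 = b1 + b2) (k3 : a1 + a2 + a3 < b1 + b2 + b3) (k1 : b1 < a1)
    (H : NoTr n1 n2 n3 a1 a2 a3 b1 b2 b3)
    (hno : ¬ ∃ u1 u2 u3 : ℤ, Good n1 n2 n3 a1 a2 a3 b1 b2 b3 u1 u2 u3) : False := by
  by_cases hP : a1 - b1 = 1
  · exact IIIP.main (y := b1 + b2 + b3 - a1 - a2 - a3) (d1 := a1 - b1)
          (by omega) (by omega) (by omega) (by omega) (by omega) (by omega) (by omega) (by omega) (by omega) (by omega) (by omega) (by omega) (by omega) (by omega) (by omega) (by omega) (by omega) (by omega) (by omega) (by omega) (by omega) (by omega) (by omega) (by omega) (by omega)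
          C_c1 C_c2 H hno
  · by_cases hN : b1 + b2 + b3 - a1 - a2 - a3 = 1
    · exact IIIN.main (y := b1 + b2 + b3 - a1 - a2 - a3) (d1 := a1 - b1)
          (by omega) (by omega) (by omega) (by omega) (by omega) (by omega) (by omega) (by omega) (by omega) (by omega) (by omega) (by omega) (by omega) (by omega) (by omega) (by omega) (by omega) (by omega) (by omega) (by omega) (by omega) (by omega) (by omega) (by omega) (by omega) (by omega)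
          C_c1 C_c2 H hno
    · exact IIIK.main (y := b1 + b2 + b3 - a1 - a2 - a3) (d1 := a1 - b1)
          (by omega) (by omega) (by omega) (by omega) (by omega) (by omega) (by omega) (by omega) (by omega) (by omega) (by omega) (by omega) (by omega) (by omega) (by omega) (by omega) (by omega) (by omega) (by omega) (by omega) (by omega) (by omega) (by omega) (by omega) (by omega)
          C_c1 C_c2 H hno

theorem caseIV {n1 n2 n3 a1 a2 a3 b1 b2 b3 : ℤ}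
    (ha1 : 0 ≤ a1) (ha2 : 0 ≤ a2) (ha3 : 0 ≤ a3) (hb1 : 0 ≤ b1) (hb2 : 0 ≤ b2) (hb3 : 0 ≤ b3)
    (hA1 : a1 ≤ n1) (hA2 : a2 ≤ n2) (hA3 : a3 ≤ n3) (hB1 : b1 ≤ n1) (hB2 : b2 ≤ n2) (hB3 : b3 ≤ n3)
    (hn1 : 1 ≤ n1) (hn2 : 1 ≤ n2) (hn3 : 1 ≤ n3)
    (C_c1 : (0 ≤ a1 - 1 ∧ 0 ≤ n2 - a2 - 1) ∨ (0 ≤ b1 - 1 ∧ 0 ≤ n2 - b2 - 1))
    (C_c2 : (0 ≤ a2 - 1 ∧ 0 ≤ n3 - a3 - 1) ∨ (0 ≤ b2 - 1 ∧ 0 ≤ n3 - b3 - 1))
    (k2 : b1 + b2 < a1 + a2) (k3 : a1 + a2 + a3 < b1 + b2 + b3) (k1 : b1 < a1)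
    (nF1 : 0 ≤ -n1 - b1 + 2 * a1 - 1 ∨ 0 ≤ n1 + b1 - 2 * a1 - 1 ∨ 0 ≤ n2 - a2 - 2 ∨ 0 ≤ -n2 + a2 ∨ 0 ≤ n3 - a3 - n1 + a1 - 2 ∨ 0 ≤ -n3 + a3 + n1 - a1 ∨ 0 ≤ n2 - b2 - 2 ∨ 0 ≤ -n2 + b2 ∨ 0 ≤ n3 - b3 - 1 ∨ 0 ≤ -b1 ∨ 0 ≤ -n2 + 2 ∨ 0 ≤ 2 * n1 - 2 * a1 - n3 + 2 ∨ 0 ≤ -n1 + a1)
    (nF2 : 0 ≤ a2 - 2 ∨ 0 ≤ -a2 ∨ 0 ≤ a3 - a1 - 2 ∨ 0 ≤ -a3 + a1 ∨ 0 ≤ b1 - 1 ∨ 0 ≤ b2 - 2 ∨ 0 ≤ -b2 ∨ 0 ≤ b3 - 2 * a1 - 3 ∨ 0 ≤ -b3 + 2 * a1 + 1 ∨ 0 ≤ n3 - 2 * a1 - 4 ∨ 0 ≤ -n3 + 2 * a1 + 2 ∨ 0 ≤ 2 * a1 - n1 ∨ 0 ≤ -n2 + 2 ∨ 0 ≤ -a1)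
    (H : NoTr n1 n2 n3 a1 a2 a3 b1 b2 b3)
    (hno : ¬ ∃ u1 u2 u3 : ℤ, Good n1 n2 n3 a1 a2 a3 b1 b2 b3 u1 u2 u3) : False := by
  by_cases hP : a1 - b1 = 1 ∧ a1 + a2 - b1 - b2 = 1
  · exact IVP.main (e := a1 + a2 - b1 - b2) (y := b1 + b2 + b3 - a1 - a2 - a3) (d1 := a1 - b1)
          (by omega) (by omega) (by omega) (by omega) (by omega) (by omega) (by omega) (by omega) (by omega) (by omega) (by omega) (by omega) (by omega) (by omega) (by omega) (by omega) (by omega) (by omega) (by omega) (by omega) (by omega) (by omega) (by omega) (by omega) (by omega) (by omega) (by omega) (by omega)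
          C_c1 C_c2 nF1 nF2 H hno
  · by_cases hN : b1 + b2 + b3 - a1 - a2 - a3 = 1
    · exact IVN.main (e := a1 + a2 - b1 - b2) (y := b1 + b2 + b3 - a1 - a2 - a3) (d1 := a1 - b1)
          (by omega) (by omega) (by omega) (by omega) (by omega) (by omega) (by omega) (by omega) (by omega) (by omega) (by omega) (by omega) (by omega) (by omega) (by omega) (by omega) (by omega) (by omega) (by omega) (by omega) (by omega) (by omega) (by omega) (by omega) (by omega) (by omega)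
          C_c1 C_c2 (by omega) nF1 nF2 H hno
    · exact IVK.main (e := a1 + a2 - b1 - b2) (y := b1 + b2 + b3 - a1 - a2 - a3) (d1 := a1 - b1)
          (by omega) (by omega) (by omega) (by omega) (by omega) (by omega) (by omega) (by omega) (by omega) (by omega) (by omega) (by omega) (by omega) (by omega) (by omega) (by omega) (by omega) (by omega) (by omega) (by omega) (by omega) (by omega) (by omega) (by omega) (by omega)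
          C_c1 C_c2 (by omega) H hno

theorem caseV {n1 n2 n3 a1 a2 a3 b1 b2 b3 : ℤ}
    (ha1 : 0 ≤ a1) (ha2 : 0 ≤ a2) (ha3 : 0 ≤ a3) (hb1 : 0 ≤ b1) (hb2 : 0 ≤ b2) (hb3 : 0 ≤ b3)
    (hA1 : a1 ≤ n1) (hA2 : a2 ≤ n2) (hA3 : a3 ≤ n3) (hB1 : b1 ≤ n1) (hB2 : b2 ≤ n2) (hB3 : b3 ≤ n3)
    (hn1 : 1 ≤ n1) (hn2 : 1 ≤ n2) (hn3 : 1 ≤ n3)
    (C_c1 : (0 ≤ a1 - 1 ∧ 0 ≤ n2 - a2 - 1) ∨ (0 ≤ b1 - 1 ∧ 0 ≤ n2 - b2 - 1))
    (C_c2 : (0 ≤ a2 - 1 ∧ 0 ≤ n3 - a3 - 1) ∨ (0 ≤ b2 - 1 ∧ 0 ≤ n3 - b3 - 1))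
    (k2 : b1 + b2 < a1 + a2) (k3 : a1 + a2 + a3 < b1 + b2 + b3) (k1 : a1 = b1)
    (H : NoTr n1 n2 n3 a1 a2 a3 b1 b2 b3)
    (hno : ¬ ∃ u1 u2 u3 : ℤ, Good n1 n2 n3 a1 a2 a3 b1 b2 b3 u1 u2 u3) : False := by
  by_cases hP : a1 + a2 - b1 - b2 = 1
  · exact VP.main (e := a1 + a2 - b1 - b2) (y := b1 + b2 + b3 - a1 - a2 - a3)
          (by omega) (by omega) (by omega) (by omega) (by omega) (by omega) (by omega) (by omega) (by omega) (by omega) (by omega) (by omega) (by omega) (by omega) (by omega) (by omega) (by omega) (by omega) (by omega) (by omega) (by omega) (by omega) (by omega) (by omega) (by omega)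
          C_c1 C_c2 H hno
  · by_cases hN : b1 + b2 + b3 - a1 - a2 - a3 = 1
    · exact VN.main (e := a1 + a2 - b1 - b2) (y := b1 + b2 + b3 - a1 - a2 - a3)
          (by omega) (by omega) (by omega) (by omega) (by omega) (by omega) (by omega) (by omega) (by omega) (by omega) (by omega) (by omega) (by omega) (by omega) (by omega) (by omega) (by omega) (by omega) (by omega) (by omega) (by omega) (by omega) (by omega) (by omega) (by omega) (by omega)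
          C_c1 C_c2 H hno
    · exact VK.main (e := a1 + a2 - b1 - b2) (y := b1 + b2 + b3 - a1 - a2 - a3)
          (by omega) (by omega) (by omega) (by omega) (by omega) (by omega) (by omega) (by omega) (by omega) (by omega) (by omega) (by omega) (by omega) (by omega) (by omega) (by omega) (by omega) (by omega) (by omega) (by omega) (by omega) (by omega) (by omega) (by omega) (by omega)
          C_c1 C_c2 H hno

/-- Existence of separating weights for trade-free parameters outside the two families. -/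
theorem weights_exist {n1 n2 n3 a1 a2 a3 b1 b2 b3 : ℤ}
    (ha1 : 0 ≤ a1) (ha2 : 0 ≤ a2) (ha3 : 0 ≤ a3) (hb1 : 0 ≤ b1) (hb2 : 0 ≤ b2) (hb3 : 0 ≤ b3)
    (hA1 : a1 ≤ n1) (hA2 : a2 ≤ n2) (hA3 : a3 ≤ n3) (hB1 : b1 ≤ n1) (hB2 : b2 ≤ n2) (hB3 : b3 ≤ n3)
    (hn1 : 1 ≤ n1) (hn2 : 1 ≤ n2) (hn3 : 1 ≤ n3)
    (C_c1 : (0 ≤ a1 - 1 ∧ 0 ≤ n2 - a2 - 1) ∨ (0 ≤ b1 - 1 ∧ 0 ≤ n2 - b2 - 1))
    (C_c2 : (0 ≤ a2 - 1 ∧ 0 ≤ n3 - a3 - 1) ∨ (0 ≤ b2 - 1 ∧ 0 ≤ n3 - b3 - 1))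
    (hinc : (b1 < a1 ∧ (a1 + a2 < b1 + b2 ∨ a1 + a2 + a3 < b1 + b2 + b3)) ∨
      (a1 = b1 ∧ b1 + b2 < a1 + a2 ∧ a1 + a2 + a3 < b1 + b2 + b3))
    (nF1 : 0 ≤ -n1 - b1 + 2 * a1 - 1 ∨ 0 ≤ n1 + b1 - 2 * a1 - 1 ∨ 0 ≤ n2 - a2 - 2 ∨ 0 ≤ -n2 + a2 ∨ 0 ≤ n3 - a3 - n1 + a1 - 2 ∨ 0 ≤ -n3 + a3 + n1 - a1 ∨ 0 ≤ n2 - b2 - 2 ∨ 0 ≤ -n2 + b2 ∨ 0 ≤ n3 - b3 - 1 ∨ 0 ≤ -b1 ∨ 0 ≤ -n2 + 2 ∨ 0 ≤ 2 * n1 - 2 * a1 - n3 + 2 ∨ 0 ≤ -n1 + a1)
    (nF2 : 0 ≤ a2 - 2 ∨ 0 ≤ -a2 ∨ 0 ≤ a3 - a1 - 2 ∨ 0 ≤ -a3 + a1 ∨ 0 ≤ b1 - 1 ∨ 0 ≤ b2 - 2 ∨ 0 ≤ -b2 ∨ 0 ≤ b3 - 2 * a1 - 3 ∨ 0 ≤ -b3 + 2 * a1 + 1 ∨ 0 ≤ n3 - 2 * a1 - 4 ∨ 0 ≤ -n3 + 2 * a1 + 2 ∨ 0 ≤ 2 * a1 - n1 ∨ 0 ≤ -n2 + 2 ∨ 0 ≤ -a1)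
    (H : NoTr n1 n2 n3 a1 a2 a3 b1 b2 b3) :
    ∃ u1 u2 u3 : ℤ, Good n1 n2 n3 a1 a2 a3 b1 b2 b3 u1 u2 u3 := by
  by_contra hno
  rcases hinc with ⟨k1, h⟩ | ⟨k1, k2, k3⟩
  · rcases lt_trichotomy (a1 + a2) (b1 + b2) with k2 | k2 | k2
    · rcases lt_trichotomy (a1 + a2 + a3) (b1 + b2 + b3) with k3 | k3 | k3
      · exact caseII ha1 ha2 ha3 hb1 hb2 hb3 hA1 hA2 hA3 hB1 hB2 hB3 hn1 hn2 hn3 C_c1 C_c2 k2 k3 k1 H hno
      · exact caseI0 ha1 ha2 ha3 hb1 hb2 hb3 hA1 hA2 hA3 hB1 hB2 hB3 hn1 hn2 hn3 C_c1 C_c2 k2 k3 k1 H hno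
      · exact caseIp ha1 ha2 ha3 hb1 hb2 hb3 hA1 hA2 hA3 hB1 hB2 hB3 hn1 hn2 hn3 C_c1 C_c2 k2 k3 k1 H hno
    · rcases h with h | h
      · exact absurd h (by rw [k2]; exact lt_irrefl _)
      · exact caseIII ha1 ha2 ha3 hb1 hb2 hb3 hA1 hA2 hA3 hB1 hB2 hB3 hn1 hn2 hn3 C_c1 C_c2 k2 h k1 H hno
    · rcases h with h | h
      · exact absurd h (lt_asymm k2)
      · exact caseIV ha1 ha2 ha3 hb1 hb2 hb3 hA1 hA2 hA3 hB1 hB2 hB3 hn1 hn2 hn3 C_c1 C_c2 k2 h k1 nF1 nF2 H hno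
  · exact caseV ha1 ha2 ha3 hb1 hb2 hb3 hA1 hA2 hA3 hB1 hB2 hB3 hn1 hn2 hn3 C_c1 C_c2 k2 k3 k1 H hno

end WG3
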