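import Pool.Agent.Work.MP_5465ec_co.Trade
import Pool.Agent.Work.MP_5465ec_co.Params
import Pool.Agent.Work.MP_5465ec_co.FRob

/-!
From the integer theorem to complete games.
-/

open Finset

namespace WG3

variable {N : Type*} [Fintype N] [DecidableEq N]

theorem typeVec_insert (τ : N → Fin 3) (S : Finset N) (x : N) (hx : x ∉ S) (i : Fin 3) :
    typeVec τ (insert x S) i = typeVec τ S i + if τ x = i then 1 else 0 := by
  unfold typeVec
  rw [filter_insert]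
  split_ifs with h
  · rw [card_insert_of_notMem]
    intro hh
    exact hx (mem_filter.1 hh).1
  · rfl

namespace SimpleGame

variable {G : SimpleGame N} {τ : N → Fin 3}

theorem n_pos (hτ : G.IsTyping τ) (i : Fin 3) : 1 ≤ typeVec τ univ i := by
  obtain ⟨x, hx⟩ := hτ.1 i
  unfold typeVec
  exact card_pos.2 ⟨x, by simp [hx]⟩

theorem mem_min {a b : Fin 3 → ℕ} (hab : {m | G.ShiftMinimal τ m} = {a, b}) :
    G.ShiftMinimal τ a ∧ G.ShiftMinimal τ b := by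
  constructor
  · have : a ∈ {m | G.ShiftMinimal τ m} := by rw [hab]; simp
    exact this
  · have : b ∈ {m | G.ShiftMinimal τ m} := by rw [hab]; simp
    exact this

/-- Distinctness of two consecutive types. -/
theorem distinct (hτ : G.IsTyping τ) {a b : Fin 3 → ℕ}
    (hab : {m | G.ShiftMinimal τ m} = {a, b}) (i j : Fin 3) (hij : i < j) :
    ∃ m : Fin 3 → ℕ, (∀ k, m k ≤ typeVec τ univ k) ∧ m i + 1 ≤ typeVec τ univ i ∧
      m j + 1 ≤ typeVec τ univ j ∧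
      (Below a (fun k => m k + if i = k then 1 else 0) ∨
        Below b (fun k => m k + if i = k then 1 else 0)) ∧
      ¬ Below a (fun k => m k + if j = k then 1 else 0) ∧
      ¬ Below b (fun k => m k + if j = k then 1 else 0) := by
  obtain ⟨x, hx⟩ := hτ.1 i
  obtain ⟨y, hy⟩ := hτ.1 j
  have hnd : ¬ G.Desir y x := by
    rw [hτ.2, hx, hy]
    exact not_le.2 hij
  unfold Desir at hnd
  push Not at hnd
  obtain ⟨S, h1, h2, h3, h4⟩ := hnd
  have e1 : typeVec τ (insert x S) = fun k => typeVec τ S k + if i = k then 1 else 0 := by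
    funext k; rw [typeVec_insert τ S x h2, hx]
  have e2 : typeVec τ (insert y S) = fun k => typeVec τ S k + if j = k then 1 else 0 := by
    funext k; rw [typeVec_insert τ S y h1, hy]
  refine ⟨typeVec τ S, fun k => typeVec_le τ S k, ?_, ?_, ?_, ?_⟩
  · have := typeVec_le τ (insert x S) i
    rw [e1] at this
    simpa using this
  · have := typeVec_le τ (insert y S) j
    rw [e2] at this
    simpa using this
  · rw [← e1]; exact (win_iff hτ hab _).1 h3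
  · rw [← e2]
    have := (win_iff hτ hab (insert y S)).not.1 h4
    push Not at this
    exact this

theorem cond1 (hτ : G.IsTyping τ) {a b : Fin 3 → ℕ}
    (hab : {m | G.ShiftMinimal τ m} = {a, b}) :
    (1 ≤ a 0 ∧ a 1 + 1 ≤ typeVec τ univ 1) ∨ (1 ≤ b 0 ∧ b 1 + 1 ≤ typeVec τ univ 1) := by
  obtain ⟨m, _, h1, h2, h3, h4, h5⟩ := distinct hτ hab 0 1 (by decide)
  simp only [below_iff] at h3 h4 h5
  simp at h3 h4 h5
  omega

theorem cond2 (hτ : G.IsTyping τ) {a b : Fin 3 → ℕ}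
    (hab : {m | G.ShiftMinimal τ m} = {a, b}) :
    (1 ≤ a 1 ∧ a 2 + 1 ≤ typeVec τ univ 2) ∨ (1 ≤ b 1 ∧ b 2 + 1 ≤ typeVec τ univ 2) := by
  obtain ⟨m, _, h1, h2, h3, h4, h5⟩ := distinct hτ hab 1 2 (by decide)
  simp only [below_iff] at h3 h4 h5
  simp at h3 h4 h5
  omega

theorem row_le {a b : Fin 3 → ℕ} (hab : {m | G.ShiftMinimal τ m} = {a, b}) (i : Fin 3) :
    a i ≤ typeVec τ univ i ∧ b i ≤ typeVec τ univ i := by
  obtain ⟨ha, hb⟩ := mem_min hab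
  obtain ⟨S, hS, _⟩ := ha.1
  obtain ⟨T, hT, _⟩ := hb.1
  exact ⟨hS ▸ typeVec_le τ S i, hT ▸ typeVec_le τ T i⟩

theorem incomparable {a b : Fin 3 → ℕ} (hab : {m | G.ShiftMinimal τ m} = {a, b}) (hne : a ≠ b) :
    ¬ Below a b ∧ ¬ Below b a := by
  obtain ⟨ha, hb⟩ := mem_min hab
  constructor
  · intro h; exact hne (hb.2 a ha.1 h)
  · intro h; exact hne (ha.2 b hb.1 h).symm

/-- A losing vector of the box is realized by a losing coalition. -/
theorem exists_losing (hτ : G.IsTyping τ) {a b : Fin 3 → ℕ}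
    (hab : {m | G.ShiftMinimal τ m} = {a, b}) {c1 c2 c3 : ℤ}
    (h : LosC (typeVec τ univ 0) (typeVec τ univ 1) (typeVec τ univ 2)
      (a 0) (a 1) (a 2) (b 0) (b 1) (b 2) c1 c2 c3) :
    ∃ T, ¬ G.W T ∧ (cnt τ T 0 : ℤ) = a 0 - c1 ∧ (cnt τ T 1 : ℤ) = a 0 + a 1 - c2 ∧
      (cnt τ T 2 : ℤ) = a 0 + a 1 + a 2 - c3 := by
  obtain ⟨q1, q2, q3, q4, q5, q6, qa, qb⟩ := h
  obtain ⟨y0, hy0⟩ := Int.eq_ofNat_of_zero_le q1
  obtain ⟨y1, hy1⟩ := Int.eq_ofNat_of_zero_le q3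
  obtain ⟨y2, hy2⟩ := Int.eq_ofNat_of_zero_le q5
  obtain ⟨T, hT⟩ := exists_typeVec τ ![y0, y1, y2] (by
    intro i
    fin_cases i
    · show y0 ≤ typeVec τ univ 0; omega
    · show y1 ≤ typeVec τ univ 1; omega
    · show y2 ≤ typeVec τ univ 2; omega)
  have t0 : typeVec τ T 0 = y0 := by rw [hT]; rfl
  have t1 : typeVec τ T 1 = y1 := by rw [hT]; rfl
  have t2 : typeVec τ T 2 = y2 := by rw [hT]; rfl
  refine ⟨T, ?_, ?_, ?_, ?_⟩
  · rw [win_iff hτ hab, below_iff, below_iff, t0, t1, t2]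
    omega
  · rw [cnt_zero, t0]; omega
  · rw [cnt_one, t0, t1]; omega
  · rw [cnt_two, t0, t1, t2]; omega

theorem noTr (hτ : G.IsTyping τ) {a b : Fin 3 → ℕ}
    (hab : {m | G.ShiftMinimal τ m} = {a, b}) (hR : G.TradeRobust 2) :
    NoTr (typeVec τ univ 0) (typeVec τ univ 1) (typeVec τ univ 2)
      (a 0) (a 1) (a 2) (b 0) (b 1) (b 2) := by
  intro c1 c2 c3 e1 e2 e3 hc he
  obtain ⟨T, hT, t0, t1, t2⟩ := exists_losing hτ hab hc
  obtain ⟨U, hU, u0, u1, u2⟩ := exists_losing hτ hab he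
  obtain ⟨ha, hb⟩ := mem_min hab
  obtain ⟨A, hA, wA⟩ := ha.1
  obtain ⟨B, hB, wB⟩ := hb.1
  have key : ∀ P Q : Finset N, G.W P → G.W Q →
      ¬ ((cnt τ P 0 + cnt τ Q 0 : ℤ) ≤ cnt τ T 0 + cnt τ U 0 ∧
        (cnt τ P 1 + cnt τ Q 1 : ℤ) ≤ cnt τ T 1 + cnt τ U 1 ∧
        (cnt τ P 2 + cnt τ Q 2 : ℤ) ≤ cnt τ T 2 + cnt τ U 2) := by
    intro P Q wP wQ hcon
    refine not_robust_of_dom hτ (k := 2) (m := 2) (by norm_num) le_rfl ![P, Q] ![T, U] ?_ ?_ ?_ hR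
    · intro i; fin_cases i
      · exact wP
      · exact wQ
    · intro i; fin_cases i
      · exact hT
      · exact hU
    · intro h
      rw [Fin.sum_univ_two, Fin.sum_univ_two]
      show cnt τ P h + cnt τ Q h ≤ cnt τ T h + cnt τ U h
      fin_cases h
      · exact_mod_cast hcon.1
      · exact_mod_cast hcon.2.1
      · exact_mod_cast hcon.2.2
  have A0 : cnt τ A 0 = a 0 := by rw [cnt_zero, hA]
  have A1 : cnt τ A 1 = a 0 + a 1 := by rw [cnt_one, hA]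
  have A2 : cnt τ A 2 = a 0 + a 1 + a 2 := by rw [cnt_two, hA]
  have B0 : cnt τ B 0 = b 0 := by rw [cnt_zero, hB]
  have B1 : cnt τ B 1 = b 0 + b 1 := by rw [cnt_one, hB]
  have B2 : cnt τ B 2 = b 0 + b 1 + b 2 := by rw [cnt_two, hB]
  have kBB := key B B wB wB
  have kAB := key A B wA wB
  have kAA := key A A wA wA
  rw [B0, B1, B2, t0, t1, t2, u0, u1, u2] at kBB
  rw [A0, A1, A2, B0, B1, B2, t0, t1, t2, u0, u1, u2] at kAB
  rw [A0, A1, A2, t0, t1, t2, u0, u1, u2] at kAA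
  push_cast at kBB kAB kAA
  refine ⟨?_, ?_, ?_⟩
  · omega
  · omega
  · omega

/-- Weights on partial sums give weights on voters. -/
theorem weighted_of_good (hτ : G.IsTyping τ) {a b : Fin 3 → ℕ}
    (hab : {m | G.ShiftMinimal τ m} = {a, b}) {u1 u2 u3 : ℤ}
    (h : Good (typeVec τ univ 0) (typeVec τ univ 1) (typeVec τ univ 2)
      (a 0) (a 1) (a 2) (b 0) (b 1) (b 2) u1 u2 u3) : G.Weighted := by
  obtain ⟨p1, p2, p3, hg⟩ := h
  have hsum : ∀ S : Finset N, ∑ v ∈ S, (((if τ v ≤ 0 then (u1 : ℝ) else 0)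
      + (if τ v ≤ 1 then (u2 : ℝ) else 0)) + (if τ v ≤ 2 then (u3 : ℝ) else 0))
      = ((u1 * cnt τ S 0 + u2 * cnt τ S 1 + u3 * cnt τ S 2 : ℤ) : ℝ) := by
    intro S
    have e : ∀ (u : ℤ) (i : Fin 3), ∑ v ∈ S, (if τ v ≤ i then (u : ℝ) else 0)
        = (u : ℝ) * (cnt τ S i : ℝ) := by
      intro u i
      rw [← sum_filter, sum_const, nsmul_eq_mul]
      unfold cnt
      ring
    rw [sum_add_distrib, sum_add_distrib, e, e, e]
    push_cast
    ring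
  refine ⟨fun v => ((if τ v ≤ 0 then (u1 : ℝ) else 0)
      + (if τ v ≤ 1 then (u2 : ℝ) else 0)) + (if τ v ≤ 2 then (u3 : ℝ) else 0),
    ((min (u1 * a 0 + u2 * (a 0 + a 1) + u3 * (a 0 + a 1 + a 2))
      (u1 * b 0 + u2 * (b 0 + b 1) + u3 * (b 0 + b 1 + b 2)) : ℤ) : ℝ), ?_, ?_⟩
  · intro v
    have q1 : (0:ℝ) ≤ u1 := by exact_mod_cast p1
    have q2 : (0:ℝ) ≤ u2 := by exact_mod_cast p2
    have q3 : (0:ℝ) ≤ u3 := by exact_mod_cast p3
    have r1 : (0:ℝ) ≤ if τ v ≤ 0 then (u1 : ℝ) else 0 := by split_ifs <;> simp [q1]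
    have r2 : (0:ℝ) ≤ if τ v ≤ 1 then (u2 : ℝ) else 0 := by split_ifs <;> simp [q2]
    have r3 : (0:ℝ) ≤ if τ v ≤ 2 then (u3 : ℝ) else 0 := by split_ifs <;> simp [q3]
    exact add_nonneg (add_nonneg r1 r2) r3
  · intro S
    show G.W S ↔ _ ≤ ∑ v ∈ S, (((if τ v ≤ 0 then (u1 : ℝ) else 0)
      + (if τ v ≤ 1 then (u2 : ℝ) else 0)) + (if τ v ≤ 2 then (u3 : ℝ) else 0))
    rw [hsum S, Int.cast_le]
    have c0 := cnt_zero τ S
    have c1 := cnt_one τ S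
    have c2 := cnt_two τ S
    constructor
    · intro hW
      rcases (win_iff hτ hab S).1 hW with h | h
      · rw [below_iff] at h
        refine le_trans (min_le_left _ _) ?_
        have i1 : (a 0 : ℤ) ≤ cnt τ S 0 := by omega
        have i2 : (a 0 + a 1 : ℤ) ≤ cnt τ S 1 := by omega
        have i3 : (a 0 + a 1 + a 2 : ℤ) ≤ cnt τ S 2 := by omega
        have j1 := mul_le_mul_of_nonneg_left i1 p1
        have j2 := mul_le_mul_of_nonneg_left i2 p2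
        have j3 := mul_le_mul_of_nonneg_left i3 p3
        linarith
      · rw [below_iff] at h
        refine le_trans (min_le_right _ _) ?_
        have i1 : (b 0 : ℤ) ≤ cnt τ S 0 := by omega
        have i2 : (b 0 + b 1 : ℤ) ≤ cnt τ S 1 := by omega
        have i3 : (b 0 + b 1 + b 2 : ℤ) ≤ cnt τ S 2 := by omega
        have j1 := mul_le_mul_of_nonneg_left i1 p1
        have j2 := mul_le_mul_of_nonneg_left i2 p2
        have j3 := mul_le_mul_of_nonneg_left i3 p3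
        linarith
    · intro hq
      by_contra hW
      have hl : LosC (typeVec τ univ 0) (typeVec τ univ 1) (typeVec τ univ 2)
          (a 0) (a 1) (a 2) (b 0) (b 1) (b 2) (a 0 - cnt τ S 0) (a 0 + a 1 - cnt τ S 1)
          (a 0 + a 1 + a 2 - cnt τ S 2) := by
        have l0 := typeVec_le τ S 0
        have l1 := typeVec_le τ S 1
        have l2 := typeVec_le τ S 2
        rw [win_iff hτ hab, below_iff, below_iff] at hW
        unfold LosC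
        rw [c0, c1, c2]
        push_cast
        refine ⟨?_, ?_, ?_, ?_, ?_, ?_, ?_, ?_⟩ <;> omega
      obtain ⟨g1, g2⟩ := hg _ _ _ hl
      rcases min_choice (u1 * (a 0 : ℤ) + u2 * (a 0 + a 1) + u3 * (a 0 + a 1 + a 2))
        (u1 * (b 0 : ℤ) + u2 * (b 0 + b 1) + u3 * (b 0 + b 1 + b 2)) with hm | hm
      · rw [hm] at hq
        linarith
      · rw [hm] at hq
        linarith

/-- Parameters of the first family. -/
theorem inF1_of {a b : Fin 3 → ℕ} (hab : {m | G.ShiftMinimal τ m} = {a, b})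
    (r0 : a 0 ≤ typeVec τ univ 0) (r0' : b 0 ≤ typeVec τ univ 0)
    (e1 : (typeVec τ univ 0 : ℤ) - b 0 = 2 * (typeVec τ univ 0 - a 0))
    (e2 : (typeVec τ univ 1 : ℤ) - a 1 = 1)
    (e3 : (typeVec τ univ 2 : ℤ) - a 2 = typeVec τ univ 0 - a 0 + 1)
    (e4 : (typeVec τ univ 1 : ℤ) - b 1 = 1) (e5 : (typeVec τ univ 2 : ℤ) - b 2 = 0)
    (e6 : (1 : ℤ) ≤ b 0) (e7 : (3 : ℤ) ≤ typeVec τ univ 1)
    (e8 : 2 * ((typeVec τ univ 0 : ℤ) - a 0) + 3 ≤ typeVec τ univ 2)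
    (e9 : (1 : ℤ) ≤ (typeVec τ univ 0 : ℤ) - a 0) : G.InF1 τ := by
  refine ⟨b 0 - 1, typeVec τ univ 1 - 3, typeVec τ univ 2 - 2 * (typeVec τ univ 0 - a 0 - 1) - 5,
    typeVec τ univ 0 - a 0 - 1, typeVec τ univ 0, typeVec τ univ 1, typeVec τ univ 2,
    by omega, by omega, by omega, ?_, ?_⟩
  · funext i; fin_cases i <;> rfl
  · rw [hab]
    have ea : a = ![typeVec τ univ 0 - (typeVec τ univ 0 - a 0 - 1) - 1, typeVec τ univ 1 - 1,
        typeVec τ univ 2 - (typeVec τ univ 0 - a 0 - 1) - 2] := by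
      funext i
      fin_cases i
      · show a 0 = typeVec τ univ 0 - (typeVec τ univ 0 - a 0 - 1) - 1; omega
      · show a 1 = typeVec τ univ 1 - 1; omega
      · show a 2 = typeVec τ univ 2 - (typeVec τ univ 0 - a 0 - 1) - 2; omega
    have eb : b = ![typeVec τ univ 0 - 2 * (typeVec τ univ 0 - a 0 - 1) - 2, typeVec τ univ 1 - 1,
        typeVec τ univ 2] := by
      funext i
      fin_cases i
      · show b 0 = typeVec τ univ 0 - 2 * (typeVec τ univ 0 - a 0 - 1) - 2; omega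
      · show b 1 = typeVec τ univ 1 - 1; omega
      · show b 2 = typeVec τ univ 2; omega
    rw [← ea, ← eb]

/-- Parameters of the second family. -/
theorem inF2_of {a b : Fin 3 → ℕ} (hab : {m | G.ShiftMinimal τ m} = {a, b})
    (e1 : (a 1 : ℤ) = 1) (e2 : (a 2 : ℤ) = a 0 + 1) (e3 : (b 0 : ℤ) = 0) (e4 : (b 1 : ℤ) = 1)
    (e5 : (b 2 : ℤ) = 2 * a 0 + 2) (e6 : (typeVec τ univ 2 : ℤ) = 2 * a 0 + 3)
    (e7 : 2 * (a 0 : ℤ) + 1 ≤ typeVec τ univ 0) (e8 : (3 : ℤ) ≤ typeVec τ univ 1)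
    (e9 : (1 : ℤ) ≤ a 0) : G.InF2 τ := by
  refine ⟨typeVec τ univ 0 - 2 * (a 0 - 1) - 3, typeVec τ univ 1 - 3, a 0 - 1,
    typeVec τ univ 0, typeVec τ univ 1, by omega, by omega, ?_, ?_⟩
  · funext i
    fin_cases i
    · rfl
    · rfl
    · show typeVec τ univ 2 = 2 * (a 0 - 1) + 5; omega
  · rw [hab]
    have ea : a = ![a 0 - 1 + 1, 1, a 0 - 1 + 2] := by
      funext i
      fin_cases i
      · show a 0 = a 0 - 1 + 1; omega
      · show a 1 = 1; omega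
      · show a 2 = a 0 - 1 + 2; omega
    have eb : b = ![0, 1, 2 * (a 0 - 1) + 4] := by
      funext i
      fin_cases i
      · show b 0 = 0; omega
      · show b 1 = 1; omega
      · show b 2 = 2 * (a 0 - 1) + 4; omega
    rw [← ea, ← eb]

theorem nF1_canon {n1 n2 n3 a1 a2 a3 b1 b2 b3 : ℤ}
    (h : ¬ (n1 - b1 = 2 * (n1 - a1) ∧ n2 - a2 = 1 ∧ n3 - a3 = n1 - a1 + 1 ∧ n2 - b2 = 1 ∧
      n3 - b3 = 0 ∧ 1 ≤ b1 ∧ 3 ≤ n2 ∧ 2 * (n1 - a1) + 3 ≤ n3 ∧ 1 ≤ n1 - a1)) (hb : b3 ≤ n3) :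
    0 ≤ -n1 - b1 + 2 * a1 - 1 ∨ 0 ≤ n1 + b1 - 2 * a1 - 1 ∨ 0 ≤ n2 - a2 - 2 ∨ 0 ≤ -n2 + a2 ∨ 0 ≤ n3 - a3 - n1 + a1 - 2 ∨ 0 ≤ -n3 + a3 + n1 - a1 ∨ 0 ≤ n2 - b2 - 2 ∨ 0 ≤ -n2 + b2 ∨ 0 ≤ n3 - b3 - 1 ∨ 0 ≤ -b1 ∨ 0 ≤ -n2 + 2 ∨ 0 ≤ 2 * n1 - 2 * a1 - n3 + 2 ∨ 0 ≤ -n1 + a1 := by
  by_contra hc
  simp only [not_or] at hc
  apply h
  refine ⟨?_, ?_, ?_, ?_, ?_, ?_, ?_, ?_, ?_⟩ <;> omega

theorem nF2_canon {n1 n2 n3 a1 a2 a3 b1 b2 b3 : ℤ}
    (h : ¬ (a2 = 1 ∧ a3 = a1 + 1 ∧ b1 = 0 ∧ b2 = 1 ∧ b3 = 2 * a1 + 2 ∧ n3 = 2 * a1 + 3 ∧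
      2 * a1 + 1 ≤ n1 ∧ 3 ≤ n2 ∧ 1 ≤ a1)) (hb : 0 ≤ b1) :
    0 ≤ a2 - 2 ∨ 0 ≤ -a2 ∨ 0 ≤ a3 - a1 - 2 ∨ 0 ≤ -a3 + a1 ∨ 0 ≤ b1 - 1 ∨ 0 ≤ b2 - 2 ∨ 0 ≤ -b2 ∨ 0 ≤ b3 - 2 * a1 - 3 ∨ 0 ≤ -b3 + 2 * a1 + 1 ∨ 0 ≤ n3 - 2 * a1 - 4 ∨ 0 ≤ -n3 + 2 * a1 + 2 ∨ 0 ≤ 2 * a1 - n1 ∨ 0 ≤ -n2 + 2 ∨ 0 ≤ -a1 := by
  by_contra hc
  simp only [not_or] at hc
  apply h
  refine ⟨?_, ?_, ?_, ?_, ?_, ?_, ?_, ?_, ?_⟩ <;> omega

/-- The main dichotomy, for an ordered pair of rows. -/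
theorem main_ordered (hτ : G.IsTyping τ) {a b : Fin 3 → ℕ}
    (hab : {m | G.ShiftMinimal τ m} = {a, b})
    (hinc : (b 0 < a 0 ∧ (a 0 + a 1 < b 0 + b 1 ∨ a 0 + a 1 + a 2 < b 0 + b 1 + b 2)) ∨
      (a 0 = b 0 ∧ b 0 + b 1 < a 0 + a 1 ∧ a 0 + a 1 + a 2 < b 0 + b 1 + b 2))
    (hR : G.TradeRobust 2) : G.InF1 τ ∨ G.InF2 τ ∨ G.Weighted := by
  by_contra hcon
  push Not at hcon
  obtain ⟨hF1, hF2, hW⟩ := hcon
  obtain ⟨r0, r0'⟩ := row_le (G := G) hab 0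
  obtain ⟨r1, r1'⟩ := row_le (G := G) hab 1
  obtain ⟨r2, r2'⟩ := row_le (G := G) hab 2
  have m0 := n_pos hτ 0
  have m1 := n_pos hτ 1
  have m2 := n_pos hτ 2
  have d1 := cond1 hτ hab
  have d2 := cond2 hτ hab
  have nF1 := nF1_canon (n1 := typeVec τ univ 0) (n2 := typeVec τ univ 1)
    (n3 := typeVec τ univ 2) (a1 := a 0) (a2 := a 1) (a3 := a 2) (b1 := b 0) (b2 := b 1)
    (b3 := b 2) (fun ⟨e1, e2, e3, e4, e5, e6, e7, e8, e9⟩ =>
      hF1 (inF1_of hab r0 r0' e1 e2 e3 e4 e5 e6 e7 e8 e9)) (by exact_mod_cast r2')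
  have nF2 := nF2_canon (n1 := typeVec τ univ 0) (n2 := typeVec τ univ 1)
    (n3 := typeVec τ univ 2) (a1 := a 0) (a2 := a 1) (a3 := a 2) (b1 := b 0) (b2 := b 1)
    (b3 := b 2) (fun ⟨e1, e2, e3, e4, e5, e6, e7, e8, e9⟩ =>
      hF2 (inF2_of hab e1 e2 e3 e4 e5 e6 e7 e8 e9)) (Int.natCast_nonneg _)
  apply hW
  obtain ⟨u1, u2, u3, hg⟩ := weights_exist (n1 := typeVec τ univ 0) (n2 := typeVec τ univ 1)
    (n3 := typeVec τ univ 2) (a1 := a 0) (a2 := a 1) (a3 := a 2) (b1 := b 0) (b2 := b 1)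
    (b3 := b 2) (Int.natCast_nonneg _) (Int.natCast_nonneg _) (Int.natCast_nonneg _)
    (Int.natCast_nonneg _) (Int.natCast_nonneg _) (Int.natCast_nonneg _)
    (by exact_mod_cast r0) (by exact_mod_cast r1) (by exact_mod_cast r2)
    (by exact_mod_cast r0') (by exact_mod_cast r1') (by exact_mod_cast r2')
    (by exact_mod_cast m0) (by exact_mod_cast m1) (by exact_mod_cast m2)
    (by clear nF1 nF2 d2 hinc; omega) (by clear nF1 nF2 d1 hinc; omega)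
    (by clear nF1 nF2 d1 d2; omega)
    nF1 nF2 (noTr hτ hab hR)
  exact weighted_of_good hτ hab hg

/-- The main dichotomy. -/
theorem main (hτ : G.IsTyping τ) (hr : {m | G.ShiftMinimal τ m}.ncard = 2)
    (hR : G.TradeRobust 2) : G.InF1 τ ∨ G.InF2 τ ∨ G.Weighted := by
  obtain ⟨a, b, hne, hab⟩ := Set.ncard_eq_two.1 hr
  obtain ⟨i1, i2⟩ := incomparable hab hne
  rw [below_iff] at i1 i2
  have hba : {m | G.ShiftMinimal τ m} = {b, a} := by rw [hab, Set.pair_comm]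
  rcases lt_trichotomy (a 0) (b 0) with h | h | h
  · exact main_ordered hτ hba (by omega) hR
  · rcases lt_trichotomy (a 0 + a 1) (b 0 + b 1) with h' | h' | h'
    · exact main_ordered hτ hba (by omega) hR
    · exfalso; omega
    · exact main_ordered hτ hab (by omega) hR
  · exact main_ordered hτ hab (by omega) hR

theorem three (P : Fin 3 → Prop) (h0 : P 0) (h1 : P 1) (h2 : P 2) : ∀ i, P i := by
  intro i; fin_cases i
  · exact h0
  · exact h1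
  · exact h2

/-- A three-trade from type vectors. -/
theorem three_trade (hτ : G.IsTyping τ) {a b : Fin 3 → ℕ}
    (hab : {m | G.ShiftMinimal τ m} = {a, b}) (x y z : Fin 3 → ℕ)
    (hx : ∀ i, x i ≤ typeVec τ univ i) (hy : ∀ i, y i ≤ typeVec τ univ i)
    (hz : ∀ i, z i ≤ typeVec τ univ i)
    (lx : ¬ (Below a x ∨ Below b x)) (ly : ¬ (Below a y ∨ Below b y))
    (lz : ¬ (Below a z ∨ Below b z))
    (h : ∀ i, 3 * a i = x i + y i + z i) : ¬ G.TradeRobust 3 := by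
  obtain ⟨X, hX⟩ := exists_typeVec τ x hx
  obtain ⟨Y, hY⟩ := exists_typeVec τ y hy
  obtain ⟨Z, hZ⟩ := exists_typeVec τ z hz
  obtain ⟨ha, _⟩ := mem_min hab
  obtain ⟨A, hA, wA⟩ := ha.1
  refine not_robust_of_dom hτ (k := 3) (m := 3) (by norm_num) le_rfl ![A, A, A] ![X, Y, Z]
    ?_ ?_ ?_
  · exact three _ wA wA wA
  · refine three _ ?_ ?_ ?_
    · show ¬ G.W X
      rw [win_iff hτ hab, hX]; exact lx
    · show ¬ G.W Y
      rw [win_iff hτ hab, hY]; exact ly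
    · show ¬ G.W Z
      rw [win_iff hτ hab, hZ]; exact lz
  · intro i
    rw [Fin.sum_univ_three, Fin.sum_univ_three]
    show cnt τ A i + cnt τ A i + cnt τ A i ≤ cnt τ X i + cnt τ Y i + cnt τ Z i
    have h0 := h 0
    have h1 := h 1
    have h2 := h 2
    fin_cases i
    · show cnt τ A 0 + cnt τ A 0 + cnt τ A 0 ≤ cnt τ X 0 + cnt τ Y 0 + cnt τ Z 0
      rw [cnt_zero, cnt_zero, cnt_zero, cnt_zero, hA, hX, hY, hZ]; omega
    · show cnt τ A 1 + cnt τ A 1 + cnt τ A 1 ≤ cnt τ X 1 + cnt τ Y 1 + cnt τ Z 1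
      rw [cnt_one, cnt_one, cnt_one, cnt_one, hA, hX, hY, hZ]; omega
    · show cnt τ A 2 + cnt τ A 2 + cnt τ A 2 ≤ cnt τ X 2 + cnt τ Y 2 + cnt τ Z 2
      rw [cnt_two, cnt_two, cnt_two, cnt_two, hA, hX, hY, hZ]; omega

theorem f1_not_three (hτ : G.IsTyping τ) (h : G.InF1 τ) : ¬ G.TradeRobust 3 := by
  obtain ⟨k₁, k₂, k₃, l, n₁, n₂, n₃, e1, e2, e3, hn, hab⟩ := h
  refine three_trade hτ hab ![k₁, k₂ + 3, 2 * l + 5 + k₃] ![l + 3 + k₁, k₂, l + 4 + k₃]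
    ![2 * l + 3 + k₁, k₂ + 3, k₃] ?_ ?_ ?_ ?_ ?_ ?_ ?_
  · rw [hn]; refine three _ ?_ ?_ ?_ <;> simp <;> omega
  · rw [hn]; refine three _ ?_ ?_ ?_ <;> simp <;> omega
  · rw [hn]; refine three _ ?_ ?_ ?_ <;> simp <;> omega
  · rw [below_iff, below_iff]; simp; omega
  · rw [below_iff, below_iff]; simp; omega
  · rw [below_iff, below_iff]; simp; omega
  · refine three _ ?_ ?_ ?_ <;> simp <;> omega

theorem f2_not_three (hτ : G.IsTyping τ) (h : G.InF2 τ) : ¬ G.TradeRobust 3 := by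
  obtain ⟨k₁, k₂, l, n₁, n₂, e1, e2, hn, hab⟩ := h
  refine three_trade hτ hab ![2 * l + 3, 0, 0] ![0, 0, 2 * l + 5] ![l, 3, l + 1]
    ?_ ?_ ?_ ?_ ?_ ?_ ?_
  · rw [hn]; refine three _ ?_ ?_ ?_ <;> simp <;> omega
  · rw [hn]; refine three _ ?_ ?_ ?_ <;> simp <;> omega
  · rw [hn]; refine three _ ?_ ?_ ?_ <;> simp <;> omega
  · rw [below_iff, below_iff]; simp; omega
  · rw [below_iff, below_iff]; simp
  · rw [below_iff, below_iff]; simp; omega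
  · refine three _ ?_ ?_ ?_ <;> simp <;> omega

/-- To be 2-trade robust it is enough that there is no exact trade of length two. -/
theorem robust_two (hτ : G.IsTyping τ) {a b : Fin 3 → ℕ}
    (hab : {m | G.ShiftMinimal τ m} = {a, b})
    (h : ∀ x u y v : Fin 3 → ℕ, (∀ i, x i ≤ typeVec τ univ i) → (∀ i, u i ≤ typeVec τ univ i) →
      (∀ i, y i ≤ typeVec τ univ i) → (∀ i, v i ≤ typeVec τ univ i) →
      (∀ i, x i + u i = y i + v i) → (Below a x ∨ Below b x) → (Below a u ∨ Below b u) →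
      ¬ (Below a y ∨ Below b y) → ¬ (Below a v ∨ Below b v) → False) : G.TradeRobust 2 := by
  intro j h1 h2
  rintro ⟨X, Y, hXY, hX, hY⟩
  have hm : ∀ v, mult X v = mult Y v := by
    intro v; rw [mult_eq_card, mult_eq_card, hXY v]
  have hc : ∀ i : Fin 3, ∑ k, (cnt τ (X k) i : ℤ) = ∑ k, (cnt τ (Y k) i : ℤ) := by
    intro i
    rw [← sum_mult, ← sum_mult]
    exact sum_congr rfl (fun v _ => hm v)
  have hj : j = 1 ∨ j = 2 := by omega
  rcases hj with hj | hj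
  · subst hj
    have e : ∀ i : Fin 3, cnt τ (X 0) i = cnt τ (Y 0) i := by
      intro i
      have := hc i
      rw [Fin.sum_univ_one, Fin.sum_univ_one] at this
      exact_mod_cast this
    exact hY 0 (win_of_cnt hτ (fun i => (e i).le) (hX 0))
  · subst hj
    have e : ∀ i : Fin 3, cnt τ (X 0) i + cnt τ (X 1) i = cnt τ (Y 0) i + cnt τ (Y 1) i := by
      intro i
      have := hc i
      rw [Fin.sum_univ_two, Fin.sum_univ_two] at this
      exact_mod_cast this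
    have e0 := e 0
    have e1 := e 1
    have e2 := e 2
    simp only [cnt_zero] at e0
    simp only [cnt_one] at e1
    simp only [cnt_two] at e2
    refine h (typeVec τ (X 0)) (typeVec τ (X 1)) (typeVec τ (Y 0)) (typeVec τ (Y 1))
      (typeVec_le τ _) (typeVec_le τ _) (typeVec_le τ _) (typeVec_le τ _) ?_
      ((win_iff hτ hab _).1 (hX 0)) ((win_iff hτ hab _).1 (hX 1))
      (fun hh => hY 0 ((win_iff hτ hab _).2 hh)) (fun hh => hY 1 ((win_iff hτ hab _).2 hh))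
    refine three _ ?_ ?_ ?_ <;> omega

theorem f1_two (hτ : G.IsTyping τ) (h : G.InF1 τ) : G.TradeRobust 2 := by
  obtain ⟨k₁, k₂, k₃, l, n₁, n₂, n₃, e1, e2, e3, hn, hab⟩ := h
  refine robust_two hτ hab ?_
  intro x u y v hx hu hy hv hs wx wu ly lv
  have q1 : n₁ - l - 1 = l + 2 + k₁ := by omega
  have q2 : n₂ - 1 = k₂ + 2 := by omega
  have q3 : n₃ - l - 2 = l + 3 + k₃ := by omega
  have q4 : n₁ - 2 * l - 2 = k₁ + 1 := by omega
  rw [q1, q2, q3, q4, e3] at wx wu ly lv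
  rw [hn, e1, e2, e3] at hx hu hy hv
  rw [below_iff, below_iff] at wx wu
  rw [not_or, below_iff, below_iff] at ly lv
  exact F1rob_nat (hx 0) (hx 1) (hx 2) (hu 0) (hu 1) (hu 2) (hy 0) (hy 1) (hy 2)
    (hv 0) (hv 1) (hv 2) (hs 0) (hs 1) (hs 2) wx wu ly.1 ly.2 lv.1 lv.2

theorem f2_two (hτ : G.IsTyping τ) (h : G.InF2 τ) : G.TradeRobust 2 := by
  obtain ⟨k₁, k₂, l, n₁, n₂, e1, e2, hn, hab⟩ := h
  refine robust_two hτ hab ?_
  intro x u y v hx hu hy hv hs wx wu ly lv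
  rw [hn, e1, e2] at hx hu hy hv
  rw [below_iff, below_iff] at wx wu
  rw [not_or, below_iff, below_iff] at ly lv
  exact F2rob_nat (hx 0) (hx 1) (hx 2) (hu 0) (hu 1) (hu 2) (hy 0) (hy 1) (hy 2)
    (hv 0) (hv 1) (hv 2) (hs 0) (hs 1) (hs 2) wx wu ly.1 ly.2 lv.1 lv.2

/-- Question 1. -/
theorem q1 (hτ : G.IsTyping τ) (hr : {m | G.ShiftMinimal τ m}.ncard = 2)
    (hR : G.TradeRobust 3) : G.Weighted := by
  rcases main hτ hr (robust_mono (by norm_num) hR) with h | h | h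
  · exact absurd hR (f1_not_three hτ h)
  · exact absurd hR (f2_not_three hτ h)
  · exact h

/-- Question 2. -/
theorem q2 (hτ : G.IsTyping τ) (hr : {m | G.ShiftMinimal τ m}.ncard = 2) :
    (G.TradeRobust 2 ∧ ¬ G.TradeRobust 3) ↔ (G.InF1 τ ∨ G.InF2 τ) := by
  constructor
  · rintro ⟨h2, h3⟩
    rcases main hτ hr h2 with h | h | h
    · exact Or.inl h
    · exact Or.inr h
    · exact absurd (robust_of_weighted h 3) h3
  · rintro (h | h)
    · exact ⟨f1_two hτ h, f1_not_three hτ h⟩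
    · exact ⟨f2_two hτ h, f2_not_three hτ h⟩

end SimpleGame

end WG3
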