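import Pool.Agent.Work.MP_5465ec_co.Defs

/-!
Vectors of a complete game with three types.
-/

open Finset

namespace WG3

section counts

variable {N : Type*} [Fintype N] [DecidableEq N]

/-- Number of members of `S` of type at most `h`. -/
def cnt (τ : N → Fin 3) (S : Finset N) (h : Fin 3) : ℕ := (S.filter (fun a => τ a ≤ h)).card

theorem cnt_zero (τ : N → Fin 3) (S : Finset N) : cnt τ S 0 = typeVec τ S 0 := by
  unfold cnt typeVec
  congr 1
  ext a
  simp only [mem_filter, and_congr_right_iff]
  intro _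
  constructor
  · intro h; exact le_antisymm h (Fin.zero_le _)
  · intro h; exact h.le

theorem cnt_one (τ : N → Fin 3) (S : Finset N) :
    cnt τ S 1 = typeVec τ S 0 + typeVec τ S 1 := by
  unfold cnt typeVec
  rw [← card_union_of_disjoint]
  · congr 1
    ext a
    simp only [mem_filter, mem_union]
    have : ∀ j : Fin 3, j ≤ 1 ↔ (j = 0 ∨ j = 1) := by decide
    rw [this]
    tauto
  · rw [disjoint_filter]
    intro x _ h1 h2
    rw [h1] at h2
    exact absurd h2 (by decide)

theorem cnt_two (τ : N → Fin 3) (S : Finset N) :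
    cnt τ S 2 = typeVec τ S 0 + typeVec τ S 1 + typeVec τ S 2 := by
  rw [← cnt_one]
  unfold cnt typeVec
  rw [← card_union_of_disjoint]
  · congr 1
    ext a
    simp only [mem_filter, mem_union]
    have : ∀ j : Fin 3, j ≤ 2 ↔ (j ≤ 1 ∨ j = 2) := by decide
    rw [this]
    tauto
  · rw [disjoint_filter]
    intro x _ h1 h2
    rw [h2] at h1
    exact absurd h1 (by decide)

theorem below_iff (a b : Fin 3 → ℕ) :
    Below a b ↔ a 0 ≤ b 0 ∧ a 0 + a 1 ≤ b 0 + b 1 ∧ a 0 + a 1 + a 2 ≤ b 0 + b 1 + b 2 := by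
  have f0 : (univ.filter (fun i : Fin 3 => i ≤ 0)) = {0} := by decide
  have f1 : (univ.filter (fun i : Fin 3 => i ≤ 1)) = {0, 1} := by decide
  have f2 : (univ.filter (fun i : Fin 3 => i ≤ 2)) = {0, 1, 2} := by decide
  have s1 : ∀ c : Fin 3 → ℕ, ∑ i ∈ ({0, 1} : Finset (Fin 3)), c i = c 0 + c 1 := by
    intro c; rw [sum_pair (by decide)]
  have s2 : ∀ c : Fin 3 → ℕ, ∑ i ∈ ({0, 1, 2} : Finset (Fin 3)), c i = c 0 + c 1 + c 2 := by
    intro c
    rw [sum_insert (by decide), sum_pair (by decide)]
    ring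
  constructor
  · intro h
    have h0 := h 0; have h1 := h 1; have h2 := h 2
    rw [f0, sum_singleton, sum_singleton] at h0
    rw [f1, s1, s1] at h1
    rw [f2, s2, s2] at h2
    exact ⟨h0, h1, h2⟩
  · rintro ⟨h0, h1, h2⟩ h
    fin_cases h
    · show ∑ i ∈ univ.filter (fun i : Fin 3 => i ≤ 0), a i ≤ ∑ i ∈ univ.filter (fun i : Fin 3 => i ≤ 0), b i
      rw [f0, sum_singleton, sum_singleton]; exact h0
    · show ∑ i ∈ univ.filter (fun i : Fin 3 => i ≤ 1), a i ≤ ∑ i ∈ univ.filter (fun i : Fin 3 => i ≤ 1), b i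
      rw [f1, s1, s1]; exact h1
    · show ∑ i ∈ univ.filter (fun i : Fin 3 => i ≤ 2), a i ≤ ∑ i ∈ univ.filter (fun i : Fin 3 => i ≤ 2), b i
      rw [f2, s2, s2]; exact h2

end counts

namespace SimpleGame

variable {N : Type*} [Fintype N] [DecidableEq N] {G : SimpleGame N} {τ : N → Fin 3}

/-- Moving up in the counts keeps a coalition winning. -/
theorem shift_mono (hτ : G.IsTyping τ) : ∀ (n : ℕ) (S T : Finset N), (S \ T).card = n →
    (∀ h, cnt τ S h ≤ cnt τ T h) → G.W S → G.W T := by
  intro n
  induction n with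
  | zero =>
    intro S T hc _ hS
    have : S ⊆ T := by
      rw [card_eq_zero, sdiff_eq_empty_iff_subset] at hc
      exact hc
    exact G.mono hS this
  | succ n ih =>
    intro S T hc hcnt hS
    have hne : (S \ T).Nonempty := by
      rw [← card_pos, hc]; omega
    obtain ⟨b, hb, hmin⟩ := exists_min_image (S \ T) τ hne
    rw [mem_sdiff] at hb
    obtain ⟨a, ha1, ha2, ha3⟩ : ∃ a, a ∈ T ∧ a ∉ S ∧ τ a ≤ τ b := by
      by_contra hcon
      push Not at hcon
      have hlt : T.filter (fun x => τ x ≤ τ b) ⊂ S.filter (fun x => τ x ≤ τ b) := by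
        rw [ssubset_iff_of_subset]
        · exact ⟨b, by simp [hb.1], by simp [hb.2]⟩
        · intro x hx
          rw [mem_filter] at hx ⊢
          refine ⟨?_, hx.2⟩
          by_contra hxS
          exact absurd hx.2 (not_le.2 (hcon x hx.1 hxS))
      have := card_lt_card hlt
      have h2 := hcnt (τ b)
      unfold cnt at h2
      omega
    have hab : a ≠ b := fun h => hb.2 (h ▸ ha1)
    have hwin : G.W (insert a (S.erase b)) := by
      refine (hτ.2 a b).2 ha3 (S.erase b) ?_ ?_ ?_
      · intro h; exact ha2 (mem_of_mem_erase h)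
      · exact notMem_erase b S
      · rw [insert_erase hb.1]; exact hS
    refine ih (insert a (S.erase b)) T ?_ ?_ hwin
    · have : insert a (S.erase b) \ T = (S \ T).erase b := by
        ext x
        simp only [mem_sdiff, mem_insert, mem_erase]
        constructor
        · rintro ⟨h1 | h1, h2⟩
          · exact absurd (h1 ▸ ha1) h2
          · exact ⟨h1.1, h1.2, h2⟩
        · rintro ⟨h1, h2, h3⟩
          exact ⟨Or.inr ⟨h1, h2⟩, h3⟩
      rw [this, card_erase_of_mem (mem_sdiff.2 hb), hc]
      rfl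
    · intro h
      by_cases hbh : τ b ≤ h
      · have e1 : (insert a (S.erase b)).filter (fun x => τ x ≤ h)
            = insert a ((S.filter (fun x => τ x ≤ h)).erase b) := by
          ext x
          simp only [mem_filter, mem_insert, mem_erase]
          constructor
          · rintro ⟨h1 | h1, h2⟩
            · exact Or.inl h1
            · exact Or.inr ⟨h1.1, h1.2, h2⟩
          · rintro (h1 | ⟨h1, h2, h3⟩)
            · exact ⟨Or.inl h1, h1 ▸ (le_trans ha3 hbh)⟩
            · exact ⟨Or.inr ⟨h1, h2⟩, h3⟩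
        have e2 : cnt τ (insert a (S.erase b)) h = cnt τ S h := by
          unfold cnt
          rw [e1, card_insert_of_notMem, card_erase_of_mem]
          · have : 0 < (S.filter (fun x => τ x ≤ h)).card :=
              card_pos.2 ⟨b, mem_filter.2 ⟨hb.1, hbh⟩⟩
            omega
          · exact mem_filter.2 ⟨hb.1, hbh⟩
          · intro hh
            exact ha2 (mem_filter.1 (mem_of_mem_erase hh)).1
        rw [e2]; exact hcnt h
      · unfold cnt
        refine card_le_card ?_
        intro x hx
        rw [mem_filter, mem_insert, mem_erase] at hx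
        rw [mem_filter]
        refine ⟨?_, hx.2⟩
        rcases hx.1 with h1 | ⟨_, h1⟩
        · exact h1 ▸ ha1
        · by_contra hxT
          have := hmin x (mem_sdiff.2 ⟨h1, hxT⟩)
          exact hbh (le_trans this hx.2)

theorem win_of_cnt (hτ : G.IsTyping τ) {S T : Finset N} (h : ∀ h, cnt τ S h ≤ cnt τ T h)
    (hS : G.W S) : G.W T := shift_mono hτ _ S T rfl h hS

theorem cnt_le_of_below {S T : Finset N} (h : Below (typeVec τ S) (typeVec τ T)) :
    ∀ h, cnt τ S h ≤ cnt τ T h := by
  rw [below_iff] at h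
  intro i
  fin_cases i
  · show cnt τ S 0 ≤ cnt τ T 0
    rw [cnt_zero, cnt_zero]; exact h.1
  · show cnt τ S 1 ≤ cnt τ T 1
    rw [cnt_one, cnt_one]; exact h.2.1
  · show cnt τ S 2 ≤ cnt τ T 2
    rw [cnt_two, cnt_two]; exact h.2.2

/-- Below every winning vector there is a shift-minimal one. -/
theorem exists_min (τ : N → Fin 3) : ∀ (n : ℕ) (m : Fin 3 → ℕ),
    m 0 + (m 0 + m 1) + (m 0 + m 1 + m 2) ≤ n → G.WinVec τ m →
    ∃ m', G.ShiftMinimal τ m' ∧ Below m' m := by
  intro n
  induction n with
  | zero =>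
    intro m hm hw
    refine ⟨m, ⟨hw, ?_⟩, fun h => le_rfl⟩
    intro m' hw' hb
    rw [below_iff] at hb
    funext i
    fin_cases i
    · show m' 0 = m 0; omega
    · show m' 1 = m 1; omega
    · show m' 2 = m 2; omega
  | succ n ih =>
    intro m hm hw
    by_cases hmin : ∀ m', G.WinVec τ m' → Below m' m → m' = m
    · exact ⟨m, ⟨hw, hmin⟩, fun h => le_rfl⟩
    · push Not at hmin
      obtain ⟨m', hw', hb, hne⟩ := hmin
      have hb' := (below_iff _ _).1 hb
      have hlt : m' 0 + (m' 0 + m' 1) + (m' 0 + m' 1 + m' 2) ≤ n := by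
        by_contra hcon
        apply hne
        funext i
        fin_cases i
        · show m' 0 = m 0; omega
        · show m' 1 = m 1; omega
        · show m' 2 = m 2; omega
      obtain ⟨m'', h1, h2⟩ := ih m' hlt hw'
      exact ⟨m'', h1, fun h => le_trans (h2 h) (hb h)⟩

/-- The winning coalitions are those above one of the two shift-minimal vectors. -/
theorem win_iff (hτ : G.IsTyping τ) {a b : Fin 3 → ℕ}
    (hab : {m | G.ShiftMinimal τ m} = {a, b}) (S : Finset N) :
    G.W S ↔ Below a (typeVec τ S) ∨ Below b (typeVec τ S) := by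
  constructor
  · intro h
    obtain ⟨m', h1, h2⟩ := exists_min (G := G) τ _ (typeVec τ S) le_rfl ⟨S, rfl, h⟩
    have : m' ∈ ({a, b} : Set (Fin 3 → ℕ)) := by rw [← hab]; exact h1
    rcases this with h3 | h3
    · left; rw [← h3]; exact h2
    · right; rw [Set.mem_singleton_iff] at h3; rw [← h3]; exact h2
  · have ha : G.ShiftMinimal τ a := by
      have : a ∈ {m | G.ShiftMinimal τ m} := by rw [hab]; simp
      exact this
    have hb : G.ShiftMinimal τ b := by
      have : b ∈ {m | G.ShiftMinimal τ m} := by rw [hab]; simp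
      exact this
    rintro (h | h)
    · obtain ⟨T, hT, hW⟩ := ha.1
      rw [← hT] at h
      exact win_of_cnt hτ (cnt_le_of_below h) hW
    · obtain ⟨T, hT, hW⟩ := hb.1
      rw [← hT] at h
      exact win_of_cnt hτ (cnt_le_of_below h) hW

end SimpleGame

section realize

variable {N : Type*} [Fintype N] [DecidableEq N]

/-- Every vector bounded by the class sizes is the vector of a coalition. -/
theorem exists_typeVec (τ : N → Fin 3) (y : Fin 3 → ℕ)
    (hy : ∀ i, y i ≤ typeVec τ univ i) : ∃ S : Finset N, typeVec τ S = y := by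
  have h : ∀ i, ∃ s : Finset N, s ⊆ univ.filter (fun a => τ a = i) ∧ s.card = y i :=
    fun i => exists_subset_card_eq (hy i)
  choose s hs hc using h
  refine ⟨univ.biUnion s, ?_⟩
  funext i
  rw [← hc i]
  unfold typeVec
  congr 1
  ext a
  simp only [mem_filter, mem_biUnion, mem_univ, true_and]
  constructor
  · rintro ⟨⟨j, hj⟩, hi⟩
    have := (mem_filter.1 (hs j hj)).2
    rw [this] at hi
    rw [← hi]; exact hj
  · intro ha
    exact ⟨⟨i, ha⟩, (mem_filter.1 (hs i ha)).2⟩

theorem typeVec_le (τ : N → Fin 3) (S : Finset N) (i : Fin 3) :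
    typeVec τ S i ≤ typeVec τ univ i := by
  unfold typeVec
  exact card_le_card (filter_subset_filter _ (subset_univ S))

end realize

end WG3
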