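import Pool.Agent.Work.MP_5465ec_co.Core

set_option linter.all false

namespace WG3.I0P

theorem g0 {a1 a2 a3 b1 b2 b3 d1 h3 k n1 n2 n3 p1 x : ℤ}
    (B1 : 0 ≤ a2)
    (B5 : 0 ≤ b3)
    (B6 : 0 ≤ n1 - a1)
    (B8 : 0 ≤ n3 - a3)
    (B16 : 0 ≤ -a1 - a2 + b1 + b2 - x)
    (B17 : 0 ≤ x - 1)
    (B18 : 0 ≤ a1 + a2 + a3 - b1 - b2 - b3)
    (B21 : 0 ≤ a1 - b1 - d1)
    (B22 : 0 ≤ d1 - 1)
    (B27 : 0 ≤ n1 - b1 - h3)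
    (B30 : 0 ≤ b3 - k - 1)
    (B31 : 0 ≤ b1 - 1)
    (B32 : 0 ≤ -x + n2 - b2 - 1)
    (D3 : 0 ≤ h3 - n1 + b1 ∨ 0 ≤ h3 - b2 - b3 + 1)
    (D4 : 0 ≤ k - n1 + b1 - n2 + b2 ∨ 0 ≤ k - b3 + 1)
    (D11 : (0 ≤ h3 - 1 ∧ 0 ≤ -p1) ∨ (0 ≤ -h3 ∧ 0 ≤ p1 - x))
    (D15 : 0 ≤ -b1 ∨ 0 ≤ -h3 ∨ 0 ≤ -n2 + b2 - k ∨ 0 ≤ -n2 + b2 - n3 + b3 + 1) : False := by
  have E3 := D3
  have E4 := D4
  have E11 := D11
  have E15 : 0 ≤ -h3 ∨ 0 ≤ -n2 + b2 - k := by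
    rcases D15 with H15 | H15 | H15 | H15
    · linarith only [B31, H15]
    · exact Or.inl H15
    · exact Or.inr H15
    · linarith only [B18, B17, B32, B8, H15, B16]
  rcases E3 with H3 | H3
  · rcases E11 with H11 | H11
    · rcases E15 with H15 | H15
      · linarith only [H15, H11.1]
      · rcases E4 with H4 | H4
        · linarith only [B17, B32, B27, H11.1, H15, H4]
        · linarith only [B17, B5, B32, H15, H4]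
    · linarith only [B22, H11.1, B21, B6, H3]
  · rcases E4 with H4 | H4
    · linarith only [B1, B17, B22, B30, B16, B27, B21, B32, H3, H4]
    · rcases E15 with H15 | H15
      · linarith only [B17, B22, B16, B5, H15, B21, H3, B1]
      · linarith only [B17, B5, B32, H15, H4]

theorem g1 {a1 a2 a3 b1 b2 b3 d1 h3 k n1 n2 n3 p1 x : ℤ}
    (B1 : 0 ≤ a2)
    (B5 : 0 ≤ b3)
    (B6 : 0 ≤ n1 - a1)
    (B16 : 0 ≤ -a1 - a2 + b1 + b2 - x)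
    (B17 : 0 ≤ x - 1)
    (B18 : 0 ≤ a1 + a2 + a3 - b1 - b2 - b3)
    (B21 : 0 ≤ a1 - b1 - d1)
    (B22 : 0 ≤ d1 - 1)
    (B27 : 0 ≤ n1 - b1 - h3)
    (B30 : 0 ≤ b3 - k - 1)
    (B31 : 0 ≤ b1 - 1)
    (B32 : 0 ≤ -x + n2 - b2 - 1)
    (B34 : 0 ≤ x + n3 - a3 - 2)
    (D3 : 0 ≤ h3 - n1 + b1 ∨ 0 ≤ h3 - b2 - b3 + 1)
    (D4 : 0 ≤ k - n1 + b1 - n2 + b2 ∨ 0 ≤ k - b3 + 1)
    (D11 : (0 ≤ h3 - 1 ∧ 0 ≤ -p1) ∨ (0 ≤ -h3 ∧ 0 ≤ p1 - x))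
    (D14 : 0 ≤ -b1 ∨ 0 ≤ -h3 ∨ 0 ≤ -n2 + b2 - k ∨ 0 ≤ -n2 + b2 - n3 + b3 + 1) : False := by
  have E3 := D3
  have E4 := D4
  have E11 := D11
  have E14 : 0 ≤ -h3 ∨ 0 ≤ -n2 + b2 - k := by
    rcases D14 with H14 | H14 | H14 | H14
    · linarith only [B31, H14]
    · exact Or.inl H14
    · exact Or.inr H14
    · linarith only [B18, B34, B32, H14, B17, B16]
  rcases E3 with H3 | H3
  · rcases E11 with H11 | H11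
    · rcases E14 with H14 | H14
      · linarith only [H14, H11.1]
      · rcases E4 with H4 | H4
        · linarith only [B17, B27, H11.1, H14, B32, H4]
        · linarith only [B5, B17, H14, B32, H4]
    · linarith only [B22, H11.1, B21, B6, H3]
  · rcases E4 with H4 | H4
    · linarith only [B1, B22, B30, B16, B27, B21, B32, H3, B17, H4]
    · rcases E14 with H14 | H14
      · linarith only [B22, B16, B5, H14, B21, H3, B17, B1]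
      · linarith only [B5, B17, H14, B32, H4]

theorem g2 {a1 a2 a3 b1 b2 b3 d1 h3 k n1 n2 n3 p1 x : ℤ}
    (B1 : 0 ≤ a2)
    (B5 : 0 ≤ b3)
    (B6 : 0 ≤ n1 - a1)
    (B16 : 0 ≤ -a1 - a2 + b1 + b2 - x)
    (B17 : 0 ≤ x - 1)
    (B18 : 0 ≤ a1 + a2 + a3 - b1 - b2 - b3)
    (B21 : 0 ≤ a1 - b1 - d1)
    (B22 : 0 ≤ d1 - 1)
    (B27 : 0 ≤ n1 - b1 - h3)
    (B30 : 0 ≤ b3 - k - 1)
    (B31 : 0 ≤ b1 - 1)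
    (B32 : 0 ≤ -x + n2 - b2 - 1)
    (B33 : 0 ≤ n3 - a3 - 1)
    (D3 : 0 ≤ h3 - n1 + b1 ∨ 0 ≤ h3 - b2 - b3 + 1)
    (D4 : 0 ≤ k - n1 + b1 - n2 + b2 ∨ 0 ≤ k - b3 + 1)
    (D11 : (0 ≤ h3 - 1 ∧ 0 ≤ -p1) ∨ (0 ≤ -h3 ∧ 0 ≤ p1 - x))
    (D15 : 0 ≤ -b1 ∨ 0 ≤ -h3 ∨ 0 ≤ -n2 + b2 - k ∨ 0 ≤ -n2 + b2 - n3 + b3 + 1) : False := by
  have E3 := D3
  have E4 := D4
  have E11 := D11
  have E15 : 0 ≤ -h3 ∨ 0 ≤ -n2 + b2 - k := by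
    rcases D15 with H15 | H15 | H15 | H15
    · linarith only [B31, H15]
    · exact Or.inl H15
    · exact Or.inr H15
    · linarith only [B18, B17, B32, B33, H15, B16]
  rcases E3 with H3 | H3
  · rcases E11 with H11 | H11
    · rcases E15 with H15 | H15
      · linarith only [H15, H11.1]
      · rcases E4 with H4 | H4
        · linarith only [B17, B32, B27, H11.1, H15, H4]
        · linarith only [B17, B5, B32, H15, H4]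
    · linarith only [B22, H11.1, B21, B6, H3]
  · rcases E4 with H4 | H4
    · linarith only [B1, B17, B22, B30, B16, B27, B21, B32, H3, H4]
    · rcases E15 with H15 | H15
      · linarith only [B17, B22, B16, B5, H15, B21, H3, B1]
      · linarith only [B17, B5, B32, H15, H4]

theorem g3_l0 {a1 a2 a3 b1 b2 b3 h h3 k n1 n2 n3 p0 p1 x : ℤ}
    (B5 : 0 ≤ b3)
    (B8 : 0 ≤ n3 - a3)
    (B10 : 0 ≤ n2 - b2)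
    (B15 : 0 ≤ x + a1 + a2 - b1 - b2)
    (B17 : 0 ≤ x - 1)
    (B19 : 0 ≤ -a1 - a2 - a3 + b1 + b2 + b3)
    (B27 : 0 ≤ n1 - b1 - h3)
    (E1 : (0 ≤ a2 - 1 ∧ 0 ≤ n3 - a3 - 1) ∨ (0 ≤ b2 - 1 ∧ 0 ≤ n3 - b3 - 1))
    (E4 : 0 ≤ k - n1 + b1 - n2 + b2 ∨ 0 ≤ k - b3 + 1)
    (E5 : (0 ≤ h - 2 ∧ 0 ≤ -2 * x - p0) ∨ (0 ≤ -h + 1 ∧ 0 ≤ p0 + x))
    (E13 : 0 ≤ -p0 - 2 ∨ 0 ≤ n3 - a3 - 1)
    (E14 : 0 ≤ n2 - b2 + n3 - b3 - 2 ∨ 0 ≤ -x + n2 - b2 - 1)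
    (E15 : 0 ≤ -h3 + 1 ∨ 0 ≤ -2 * x - k ∨ 0 ≤ -x - n3 + a3 + 1)
    (E16 : 0 ≤ -h + 1 ∨ 0 ≤ -n2 + b2 - x + 1 ∨ 0 ≤ -n2 + b2 - 2 * n3 + b3 + a3 + 1)
    (H10 : 0 ≤ h3 - 2 ∧ 0 ≤ -x - p1) : False := by
  rcases E15 with H15 | H15 | H15
  · linarith only [H10.1, H15]
  · rcases E4 with H4 | H4
    · linarith only [H10.1, B10, B27, H15, H4, B17]
    · linarith only [B5, H15, B17, H4]
  · rcases E1 with H1 | H1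
    · linarith only [H1.2, B17, H15]
    · rcases E13 with H13 | H13
      · rcases E5 with H5 | H5
        · rcases E16 with H16 | H16 | H16
          · linarith only [H5.1, H16]
          · rcases E14 with H14 | H14
            · linarith only [H14, B15, H15, B19, B17, H16]
            · linarith only [H14, B17, H16]
          · rcases E14 with H14 | H14
            · linarith only [H14, H16, B8]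
            · linarith only [H14, H1.2, H16, B17, B8]
        · linarith only [B8, H13, H5.2, H15]
      · linarith only [H13, B17, H15]

theorem g3 {a1 a2 a3 b1 b2 b3 d1 h h3 k n1 n2 n3 p0 p1 x : ℤ}
    (B5 : 0 ≤ b3)
    (B8 : 0 ≤ n3 - a3)
    (B10 : 0 ≤ n2 - b2)
    (B15 : 0 ≤ x + a1 + a2 - b1 - b2)
    (B16 : 0 ≤ -a1 - a2 + b1 + b2 - x)
    (B17 : 0 ≤ x - 1)
    (B19 : 0 ≤ -a1 - a2 - a3 + b1 + b2 + b3)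
    (B21 : 0 ≤ a1 - b1 - d1)
    (B22 : 0 ≤ d1 - 1)
    (B25 : 0 ≤ n1 - a1 - h)
    (B26 : 0 ≤ a2 - h - 1)
    (B27 : 0 ≤ n1 - b1 - h3)
    (B31 : 0 ≤ -p0 - 1)
    (B32 : 0 ≤ b1 - 1)
    (D1 : (0 ≤ a2 - 1 ∧ 0 ≤ n3 - a3 - 1) ∨ (0 ≤ b2 - 1 ∧ 0 ≤ n3 - b3 - 1))
    (D3 : 0 ≤ h3 - n1 + b1 ∨ 0 ≤ h3 - b2 - b3 + 1)
    (D4 : 0 ≤ k - n1 + b1 - n2 + b2 ∨ 0 ≤ k - b3 + 1)
    (D5 : (0 ≤ h - 2 ∧ 0 ≤ -2 * x - p0) ∨ (0 ≤ -h + 1 ∧ 0 ≤ p0 + x))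
    (D6 : (0 ≤ h - 1 ∧ 0 ≤ -x - p0) ∨ (0 ≤ -h ∧ 0 ≤ p0))
    (D9 : (0 ≤ h3 - 3 ∧ 0 ≤ -2 * x - p1) ∨ (0 ≤ -h3 + 2 ∧ 0 ≤ p1 + x))
    (D10 : (0 ≤ h3 - 2 ∧ 0 ≤ -x - p1) ∨ (0 ≤ -h3 + 1 ∧ 0 ≤ p1))
    (D13 : 0 ≤ -p0 - 2 ∨ 0 ≤ n3 - a3 - 1)
    (D14 : 0 ≤ n2 - b2 + n3 - b3 - 2 ∨ 0 ≤ -x + n2 - b2 - 1)
    (D15 : 0 ≤ -h3 + 1 ∨ 0 ≤ -2 * x - k ∨ 0 ≤ -x - n3 + a3 + 1)
    (D16 : 0 ≤ -b1 ∨ 0 ≤ -h + 1 ∨ 0 ≤ -n2 + b2 - x + 1 ∨ 0 ≤ -n2 + b2 - 2 * n3 + b3 + a3 + 1) : False := by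
  have E1 := D1
  have E3 := D3
  have E4 := D4
  have E5 := D5
  have E6 : (0 ≤ h - 1 ∧ 0 ≤ -x - p0) := by
    rcases D6 with H6 | H6
    · exact H6
    · linarith only [B31, H6.2]
  have E9 := D9
  have E10 := D10
  have E13 := D13
  have E14 := D14
  have E15 := D15
  have E16 : 0 ≤ -h + 1 ∨ 0 ≤ -n2 + b2 - x + 1 ∨ 0 ≤ -n2 + b2 - 2 * n3 + b3 + a3 + 1 := by
    rcases D16 with H16 | H16 | H16 | H16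
    · linarith only [B32, H16]
    · exact Or.inl H16
    · exact Or.inr (Or.inl H16)
    · exact Or.inr (Or.inr H16)
  have H6 := E6
  rcases E3 with H3 | H3
  · rcases E10 with H10 | H10
    · exact g3_l0 B5 B8 B10 B15 B17 B19 B27 E1 E4 E5 E13 E14 E15 E16 H10
    · linarith only [B22, H10.1, B25, B21, H6.1, H3]
  · rcases E9 with H9 | H9
    · rcases E10 with H10 | H10
      · exact g3_l0 B5 B8 B10 B15 B17 B19 B27 E1 E4 E5 E13 E14 E15 E16 H10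
      · linarith only [H9.1, H10.1]
    · linarith only [B26, B17, B22, B16, B5, B21, H6.1, H3, H9.1]

theorem g4 {a1 a2 a3 b1 b2 b3 d1 h h3 k n1 n2 n3 p0 p1 x : ℤ}
    (B5 : 0 ≤ b3)
    (B10 : 0 ≤ n2 - b2)
    (B16 : 0 ≤ -a1 - a2 + b1 + b2 - x)
    (B17 : 0 ≤ x - 1)
    (B21 : 0 ≤ a1 - b1 - d1)
    (B22 : 0 ≤ d1 - 1)
    (B25 : 0 ≤ n1 - a1 - h)
    (B26 : 0 ≤ a2 - h - 1)
    (B27 : 0 ≤ n1 - b1 - h3)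
    (B30 : 0 ≤ b3 - k - 1)
    (B31 : 0 ≤ -p0 - 1)
    (B33 : 0 ≤ x + n3 - a3 - 2)
    (D3 : 0 ≤ h3 - n1 + b1 ∨ 0 ≤ h3 - b2 - b3 + 1)
    (D4 : 0 ≤ k - n1 + b1 - n2 + b2 ∨ 0 ≤ k - b3 + 1)
    (D6 : (0 ≤ h - 1 ∧ 0 ≤ -x - p0) ∨ (0 ≤ -h ∧ 0 ≤ p0))
    (D10 : (0 ≤ h3 - 2 ∧ 0 ≤ -x - p1) ∨ (0 ≤ -h3 + 1 ∧ 0 ≤ p1))
    (D14 : 0 ≤ -h3 + 1 ∨ 0 ≤ -2 * x - k ∨ 0 ≤ -x - n3 + a3 + 1) : False := by
  have E3 := D3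
  have E4 := D4
  have E6 : (0 ≤ h - 1 ∧ 0 ≤ -x - p0) := by
    rcases D6 with H6 | H6
    · exact H6
    · linarith only [B31, H6.2]
  have E10 := D10
  have E14 : 0 ≤ -h3 + 1 ∨ 0 ≤ -2 * x - k := by
    rcases D14 with H14 | H14 | H14
    · exact Or.inl H14
    · exact Or.inr H14
    · linarith only [B33, H14]
  have H6 := E6
  rcases E3 with H3 | H3
  · rcases E10 with H10 | H10
    · rcases E14 with H14 | H14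
      · linarith only [H10.1, H14]
      · rcases E4 with H4 | H4
        · linarith only [H10.1, B10, B27, H14, H4, B17]
        · linarith only [B5, H14, B17, H4]
    · linarith only [B22, H10.1, B25, B21, H6.1, H3]
  · rcases E4 with H4 | H4
    · linarith only [H6.1, B22, B30, B16, B26, B27, B21, B10, H3, B17, H4]
    · rcases E14 with H14 | H14
      · linarith only [B26, B22, B16, B5, B21, H6.1, H3, B17, H14]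
      · linarith only [B5, B17, H14, H4]

theorem g5 {a1 a2 a3 b1 b2 b3 d1 h h3 k n1 n2 n3 p0 p1 x : ℤ}
    (B5 : 0 ≤ b3)
    (B10 : 0 ≤ n2 - b2)
    (B16 : 0 ≤ -a1 - a2 + b1 + b2 - x)
    (B17 : 0 ≤ x - 1)
    (B21 : 0 ≤ a1 - b1 - d1)
    (B22 : 0 ≤ d1 - 1)
    (B25 : 0 ≤ n1 - a1 - h)
    (B26 : 0 ≤ a2 - h - 1)
    (B27 : 0 ≤ n1 - b1 - h3)
    (B30 : 0 ≤ b3 - k - 1)
    (B31 : 0 ≤ -p0 - 1)
    (B32 : 0 ≤ n3 - a3 - 1)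
    (D3 : 0 ≤ h3 - n1 + b1 ∨ 0 ≤ h3 - b2 - b3 + 1)
    (D4 : 0 ≤ k - n1 + b1 - n2 + b2 ∨ 0 ≤ k - b3 + 1)
    (D6 : (0 ≤ h - 1 ∧ 0 ≤ -x - p0) ∨ (0 ≤ -h ∧ 0 ≤ p0))
    (D10 : (0 ≤ h3 - 2 ∧ 0 ≤ -x - p1) ∨ (0 ≤ -h3 + 1 ∧ 0 ≤ p1))
    (D15 : 0 ≤ -h3 + 1 ∨ 0 ≤ -2 * x - k ∨ 0 ≤ -x - n3 + a3 + 1) : False := by
  have E3 := D3
  have E4 := D4
  have E6 : (0 ≤ h - 1 ∧ 0 ≤ -x - p0) := by
    rcases D6 with H6 | H6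
    · exact H6
    · linarith only [B31, H6.2]
  have E10 := D10
  have E15 : 0 ≤ -h3 + 1 ∨ 0 ≤ -2 * x - k := by
    rcases D15 with H15 | H15 | H15
    · exact Or.inl H15
    · exact Or.inr H15
    · linarith only [B17, B32, H15]
  have H6 := E6
  rcases E3 with H3 | H3
  · rcases E10 with H10 | H10
    · rcases E15 with H15 | H15
      · linarith only [H10.1, H15]
      · rcases E4 with H4 | H4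
        · linarith only [H10.1, B10, B27, H15, H4, B17]
        · linarith only [B5, H15, B17, H4]
    · linarith only [B22, H10.1, B25, B21, H6.1, H3]
  · rcases E4 with H4 | H4
    · linarith only [H6.1, B17, B22, B30, B16, B26, B27, B21, B10, H3, H4]
    · rcases E15 with H15 | H15
      · linarith only [B26, B17, B22, B16, B5, B21, H6.1, H3, H15]
      · linarith only [B5, B17, H15, H4]

theorem g6 {a1 a2 a3 b1 b2 b3 d1 h3 k n1 n2 n3 p1 x : ℤ}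
    (B1 : 0 ≤ a2)
    (B5 : 0 ≤ b3)
    (B6 : 0 ≤ n1 - a1)
    (B8 : 0 ≤ n3 - a3)
    (B10 : 0 ≤ n2 - b2)
    (B15 : 0 ≤ x + a1 + a2 - b1 - b2)
    (B16 : 0 ≤ -a1 - a2 + b1 + b2 - x)
    (B17 : 0 ≤ x - 1)
    (B18 : 0 ≤ a1 + a2 + a3 - b1 - b2 - b3)
    (B19 : 0 ≤ -a1 - a2 - a3 + b1 + b2 + b3)
    (B21 : 0 ≤ a1 - b1 - d1)
    (B22 : 0 ≤ d1 - 1)
    (B27 : 0 ≤ n1 - b1 - h3)
    (B30 : 0 ≤ b3 - k - 1)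
    (B32 : 0 ≤ -p1 + k + x - 1)
    (B33 : 0 ≤ b1 - 1)
    (D1 : (0 ≤ a2 - 1 ∧ 0 ≤ n3 - a3 - 1) ∨ (0 ≤ b2 - 1 ∧ 0 ≤ n3 - b3 - 1))
    (D3 : 0 ≤ h3 - n1 + b1 ∨ 0 ≤ h3 - b2 - b3 + 1)
    (D4 : 0 ≤ k - n1 + b1 - n2 + b2 ∨ 0 ≤ k - b3 + 1)
    (D10 : (0 ≤ h3 - 2 ∧ 0 ≤ -x - p1) ∨ (0 ≤ -h3 + 1 ∧ 0 ≤ p1))
    (D11 : (0 ≤ h3 - 1 ∧ 0 ≤ -p1) ∨ (0 ≤ -h3 ∧ 0 ≤ p1 - x))
    (D13 : 0 ≤ n2 - b2 + n3 - b3 - 2 ∨ 0 ≤ -x + n2 - b2 - 1)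
    (D14 : 0 ≤ -h3 ∨ 0 ≤ -x - k ∨ 0 ≤ -x - n3 + a3 + 1)
    (D15 : 0 ≤ -b1 ∨ 0 ≤ -h3 ∨ 0 ≤ -n2 + b2 - k ∨ 0 ≤ -n2 + b2 - n3 + b3 + 1)
    (D16 : 0 ≤ -h3 + 1 ∨ 0 ≤ -2 * x - k ∨ 0 ≤ -x - n3 + a3 + 1)
    (D17 : 0 ≤ -b1 ∨ 0 ≤ -h3 + 1 ∨ 0 ≤ -n2 + b2 - x - k ∨ 0 ≤ -n2 + b2 - n3 + b3 + 1) : False := by
  have E1 := D1
  have E3 := D3
  have E4 := D4
  have E10 := D10
  have E11 := D11
  have E13 := D13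
  have E14 := D14
  have E15 : 0 ≤ -h3 ∨ 0 ≤ -n2 + b2 - k ∨ 0 ≤ -n2 + b2 - n3 + b3 + 1 := by
    rcases D15 with H15 | H15 | H15 | H15
    · linarith only [B33, H15]
    · exact Or.inl H15
    · exact Or.inr (Or.inl H15)
    · exact Or.inr (Or.inr H15)
  have E16 := D16
  have E17 : 0 ≤ -h3 + 1 ∨ 0 ≤ -n2 + b2 - x - k ∨ 0 ≤ -n2 + b2 - n3 + b3 + 1 := by
    rcases D17 with H17 | H17 | H17 | H17
    · linarith only [B33, H17]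
    · exact Or.inl H17
    · exact Or.inr (Or.inl H17)
    · exact Or.inr (Or.inr H17)
  rcases E10 with H10 | H10
  · rcases E13 with H13 | H13
    · rcases E15 with H15 | H15 | H15
      · linarith only [H10.1, H15]
      · rcases E4 with H4 | H4
        · linarith only [H10.1, B27, H15, H4, B10]
        · rcases E16 with H16 | H16 | H16
          · linarith only [H10.1, H16]
          · linarith only [H16, B17, H4, B5]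
          · rcases E17 with H17 | H17 | H17
            · linarith only [H10.1, H17]
            · linarith only [H13, B5, H17, H16, B19, B17, B15, H4]
            · linarith only [H13, H17]
      · linarith only [H13, H15]
    · rcases E15 with H15 | H15 | H15
      · linarith only [H10.1, H15]
      · rcases E4 with H4 | H4
        · linarith only [H10.1, B27, B17, H15, H4, H13]
        · linarith only [H13, B17, H15, H4, B5]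
      · linarith only [H13, B18, B16, B17, B8, H15]
  · rcases E3 with H3 | H3
    · rcases E11 with H11 | H11
      · rcases E14 with H14 | H14 | H14
        · linarith only [H14, H11.1]
        · linarith only [B32, H10.2, H14]
        · rcases E1 with H1 | H1
          · linarith only [B17, H1.2, H14]
          · rcases E15 with H15 | H15 | H15
            · linarith only [H15, H11.1]
            · rcases E13 with H13 | H13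
              · linarith only [H13, B19, H14, H15, B15, B32, H10.2, B8]
              · linarith only [H13, B32, H15, H10.2]
            · rcases E13 with H13 | H13
              · linarith only [H13, H15]
              · linarith only [H13, H1.2, B17, H15]
      · linarith only [H11.1, B22, B21, B6, H3]
    · linarith only [B22, B30, B16, H10.2, B21, B1, B32, H3, H10.1]

theorem g7 {a1 a2 a3 b1 b2 b3 d1 h3 k n1 n2 n3 p1 x : ℤ}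
    (B1 : 0 ≤ a2)
    (B5 : 0 ≤ b3)
    (B6 : 0 ≤ n1 - a1)
    (B10 : 0 ≤ n2 - b2)
    (B16 : 0 ≤ -a1 - a2 + b1 + b2 - x)
    (B17 : 0 ≤ x - 1)
    (B21 : 0 ≤ a1 - b1 - d1)
    (B22 : 0 ≤ d1 - 1)
    (B27 : 0 ≤ n1 - b1 - h3)
    (B30 : 0 ≤ b3 - k - 1)
    (B32 : 0 ≤ -p1 + k + x - 1)
    (B34 : 0 ≤ x + n3 - a3 - 2)
    (D3 : 0 ≤ h3 - n1 + b1 ∨ 0 ≤ h3 - b2 - b3 + 1)
    (D4 : 0 ≤ k - n1 + b1 - n2 + b2 ∨ 0 ≤ k - b3 + 1)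
    (D10 : (0 ≤ h3 - 2 ∧ 0 ≤ -x - p1) ∨ (0 ≤ -h3 + 1 ∧ 0 ≤ p1))
    (D13 : 0 ≤ -h3 ∨ 0 ≤ -x - k ∨ 0 ≤ -x - n3 + a3 + 1)
    (D14 : 0 ≤ -h3 + 1 ∨ 0 ≤ -2 * x - k ∨ 0 ≤ -x - n3 + a3 + 1) : False := by
  have E3 := D3
  have E4 := D4
  have E10 := D10
  have E13 : 0 ≤ -h3 ∨ 0 ≤ -x - k := by
    rcases D13 with H13 | H13 | H13
    · exact Or.inl H13
    · exact Or.inr H13
    · linarith only [B34, H13]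
  have E14 : 0 ≤ -h3 + 1 ∨ 0 ≤ -2 * x - k := by
    rcases D14 with H14 | H14 | H14
    · exact Or.inl H14
    · exact Or.inr H14
    · linarith only [B34, H14]
  rcases E10 with H10 | H10
  · rcases E13 with H13 | H13
    · linarith only [H10.1, H13]
    · rcases E4 with H4 | H4
      · linarith only [H10.1, B27, B17, B10, H4, H13]
      · rcases E14 with H14 | H14
        · linarith only [H10.1, H14]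
        · linarith only [B5, B17, H14, H4]
  · rcases E3 with H3 | H3
    · rcases E13 with H13 | H13
      · linarith only [B22, H13, B21, B6, H3]
      · linarith only [H13, B32, H10.2]
    · linarith only [B22, B30, B16, H10.2, B21, B1, H3, B32, H10.1]

theorem g8 {a1 a2 a3 b1 b2 b3 d1 h3 k n1 n2 n3 p1 x : ℤ}
    (B1 : 0 ≤ a2)
    (B5 : 0 ≤ b3)
    (B6 : 0 ≤ n1 - a1)
    (B10 : 0 ≤ n2 - b2)
    (B16 : 0 ≤ -a1 - a2 + b1 + b2 - x)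
    (B17 : 0 ≤ x - 1)
    (B21 : 0 ≤ a1 - b1 - d1)
    (B22 : 0 ≤ d1 - 1)
    (B27 : 0 ≤ n1 - b1 - h3)
    (B30 : 0 ≤ b3 - k - 1)
    (B32 : 0 ≤ -p1 + k + x - 1)
    (B33 : 0 ≤ n3 - a3 - 1)
    (D3 : 0 ≤ h3 - n1 + b1 ∨ 0 ≤ h3 - b2 - b3 + 1)
    (D4 : 0 ≤ k - n1 + b1 - n2 + b2 ∨ 0 ≤ k - b3 + 1)
    (D10 : (0 ≤ h3 - 2 ∧ 0 ≤ -x - p1) ∨ (0 ≤ -h3 + 1 ∧ 0 ≤ p1))
    (D14 : 0 ≤ -h3 ∨ 0 ≤ -x - k ∨ 0 ≤ -x - n3 + a3 + 1)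
    (D15 : 0 ≤ -h3 + 1 ∨ 0 ≤ -2 * x - k ∨ 0 ≤ -x - n3 + a3 + 1) : False := by
  have E3 := D3
  have E4 := D4
  have E10 := D10
  have E14 : 0 ≤ -h3 ∨ 0 ≤ -x - k := by
    rcases D14 with H14 | H14 | H14
    · exact Or.inl H14
    · exact Or.inr H14
    · linarith only [B17, B33, H14]
  have E15 : 0 ≤ -h3 + 1 ∨ 0 ≤ -2 * x - k := by
    rcases D15 with H15 | H15 | H15
    · exact Or.inl H15
    · exact Or.inr H15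
    · linarith only [B17, B33, H15]
  rcases E10 with H10 | H10
  · rcases E14 with H14 | H14
    · linarith only [H10.1, H14]
    · rcases E4 with H4 | H4
      · linarith only [H10.1, B10, B27, B17, H4, H14]
      · rcases E15 with H15 | H15
        · linarith only [H10.1, H15]
        · linarith only [B5, B17, H15, H4]
  · rcases E3 with H3 | H3
    · rcases E14 with H14 | H14
      · linarith only [B22, H14, B21, B6, H3]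
      · linarith only [H14, B32, H10.2]
    · linarith only [B22, B30, B16, H10.2, B21, B1, B32, H3, H10.1]

theorem los11 {n1 n2 n3 a1 a2 a3 b1 b2 b3 x d1 : ℤ}
    (B0 : 0 ≤ a1)
    (B1 : 0 ≤ a2)
    (B2 : 0 ≤ a3)
    (B3 : 0 ≤ b1)
    (B4 : 0 ≤ b2)
    (B5 : 0 ≤ b3)
    (B6 : 0 ≤ n1 - a1)
    (B7 : 0 ≤ n2 - a2)
    (B8 : 0 ≤ n3 - a3)
    (B9 : 0 ≤ n1 - b1)
    (B10 : 0 ≤ n2 - b2)
    (B11 : 0 ≤ n3 - b3)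
    (B12 : 0 ≤ n1 - 1)
    (B13 : 0 ≤ n2 - 1)
    (B14 : 0 ≤ n3 - 1)
    (B15 : 0 ≤ x + a1 + a2 - b1 - b2)
    (B16 : 0 ≤ -a1 - a2 + b1 + b2 - x)
    (B17 : 0 ≤ x - 1)
    (B18 : 0 ≤ a1 + a2 + a3 - b1 - b2 - b3)
    (B19 : 0 ≤ -a1 - a2 - a3 + b1 + b2 + b3)
    (B20 : 0 ≤ d1 - a1 + b1)
    (B21 : 0 ≤ a1 - b1 - d1)
    (B22 : 0 ≤ d1 - 1)
    (B23 : 0 ≤ d1 - 1)
    (B24 : 0 ≤ -d1 + 1)
    (hex : 0 ≤ b1 - 1) :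
    LosC n1 n2 n3 a1 a2 a3 b1 b2 b3 (2) (-n2 + b2 - x + 1) (-n2 + b2 - n3 + b3 + 1) := by
  unfold LosC
  refine ⟨?_, ?_, ?_, ?_, ?_, ?_, ?_, ?_⟩ <;> omega

theorem los12 {n1 n2 n3 a1 a2 a3 b1 b2 b3 x d1 : ℤ}
    (B0 : 0 ≤ a1)
    (B1 : 0 ≤ a2)
    (B2 : 0 ≤ a3)
    (B3 : 0 ≤ b1)
    (B4 : 0 ≤ b2)
    (B5 : 0 ≤ b3)
    (B6 : 0 ≤ n1 - a1)
    (B7 : 0 ≤ n2 - a2)
    (B8 : 0 ≤ n3 - a3)
    (B9 : 0 ≤ n1 - b1)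
    (B10 : 0 ≤ n2 - b2)
    (B11 : 0 ≤ n3 - b3)
    (B12 : 0 ≤ n1 - 1)
    (B13 : 0 ≤ n2 - 1)
    (B14 : 0 ≤ n3 - 1)
    (B15 : 0 ≤ x + a1 + a2 - b1 - b2)
    (B16 : 0 ≤ -a1 - a2 + b1 + b2 - x)
    (B17 : 0 ≤ x - 1)
    (B18 : 0 ≤ a1 + a2 + a3 - b1 - b2 - b3)
    (B19 : 0 ≤ -a1 - a2 - a3 + b1 + b2 + b3)
    (B20 : 0 ≤ d1 - a1 + b1)
    (B21 : 0 ≤ a1 - b1 - d1)
    (B22 : 0 ≤ d1 - 1)
    (B23 : 0 ≤ d1 - 1)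
    (B24 : 0 ≤ -d1 + 1) :
    LosC n1 n2 n3 a1 a2 a3 b1 b2 b3 (1) (-x + 1) (-x - n3 + a3 + 1) := by
  unfold LosC
  refine ⟨?_, ?_, ?_, ?_, ?_, ?_, ?_, ?_⟩ <;> omega

theorem los22 {n1 n2 n3 a1 a2 a3 b1 b2 b3 x d1 h : ℤ}
    (B0 : 0 ≤ a1)
    (B1 : 0 ≤ a2)
    (B2 : 0 ≤ a3)
    (B3 : 0 ≤ b1)
    (B4 : 0 ≤ b2)
    (B5 : 0 ≤ b3)
    (B6 : 0 ≤ n1 - a1)
    (B7 : 0 ≤ n2 - a2)
    (B8 : 0 ≤ n3 - a3)
    (B9 : 0 ≤ n1 - b1)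
    (B10 : 0 ≤ n2 - b2)
    (B11 : 0 ≤ n3 - b3)
    (B12 : 0 ≤ n1 - 1)
    (B13 : 0 ≤ n2 - 1)
    (B14 : 0 ≤ n3 - 1)
    (B15 : 0 ≤ x + a1 + a2 - b1 - b2)
    (B16 : 0 ≤ -a1 - a2 + b1 + b2 - x)
    (B17 : 0 ≤ x - 1)
    (B18 : 0 ≤ a1 + a2 + a3 - b1 - b2 - b3)
    (B19 : 0 ≤ -a1 - a2 - a3 + b1 + b2 + b3)
    (B20 : 0 ≤ d1 - a1 + b1)
    (B21 : 0 ≤ a1 - b1 - d1)
    (B22 : 0 ≤ d1 - 1)
    (B23 : 0 ≤ d1 - 1)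
    (B24 : 0 ≤ -d1 + 1)
    (B25 : 0 ≤ n1 - a1 - h)
    (B26 : 0 ≤ a2 - h - 1)
    (C_Dh : 0 ≤ h - n1 + a1 ∨ 0 ≤ h - a2 + 1) :
    LosC n1 n2 n3 a1 a2 a3 b1 b2 b3 (-h) (1) (-n3 + a3 + 1) := by
  unfold LosC
  refine ⟨?_, ?_, ?_, ?_, ?_, ?_, ?_, ?_⟩ <;> omega

theorem los33 {n1 n2 n3 a1 a2 a3 b1 b2 b3 x d1 h3 k : ℤ}
    (B0 : 0 ≤ a1)
    (B1 : 0 ≤ a2)
    (B2 : 0 ≤ a3)
    (B3 : 0 ≤ b1)
    (B4 : 0 ≤ b2)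
    (B5 : 0 ≤ b3)
    (B6 : 0 ≤ n1 - a1)
    (B7 : 0 ≤ n2 - a2)
    (B8 : 0 ≤ n3 - a3)
    (B9 : 0 ≤ n1 - b1)
    (B10 : 0 ≤ n2 - b2)
    (B11 : 0 ≤ n3 - b3)
    (B12 : 0 ≤ n1 - 1)
    (B13 : 0 ≤ n2 - 1)
    (B14 : 0 ≤ n3 - 1)
    (B15 : 0 ≤ x + a1 + a2 - b1 - b2)
    (B16 : 0 ≤ -a1 - a2 + b1 + b2 - x)
    (B17 : 0 ≤ x - 1)
    (B18 : 0 ≤ a1 + a2 + a3 - b1 - b2 - b3)
    (B19 : 0 ≤ -a1 - a2 - a3 + b1 + b2 + b3)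
    (B20 : 0 ≤ d1 - a1 + b1)
    (B21 : 0 ≤ a1 - b1 - d1)
    (B22 : 0 ≤ d1 - 1)
    (B23 : 0 ≤ d1 - 1)
    (B24 : 0 ≤ -d1 + 1)
    (B27 : 0 ≤ n1 - b1 - h3)
    (B28 : 0 ≤ b2 + b3 - h3 - 1)
    (B29 : 0 ≤ n1 - b1 + n2 - b2 - k)
    (B30 : 0 ≤ b3 - k - 1)
    (C_Dh3 : 0 ≤ h3 - n1 + b1 ∨ 0 ≤ h3 - b2 - b3 + 1)
    (C_Dk : 0 ≤ k - n1 + b1 - n2 + b2 ∨ 0 ≤ k - b3 + 1) :
    LosC n1 n2 n3 a1 a2 a3 b1 b2 b3 (-h3 + 1) (-k - x) (1) := by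
  unfold LosC
  refine ⟨?_, ?_, ?_, ?_, ?_, ?_, ?_, ?_⟩ <;> omega

theorem hd {n1 n2 n3 a1 a2 a3 b1 b2 b3 x d1 h h3 k : ℤ}
    (B0 : 0 ≤ a1)
    (B1 : 0 ≤ a2)
    (B2 : 0 ≤ a3)
    (B3 : 0 ≤ b1)
    (B4 : 0 ≤ b2)
    (B5 : 0 ≤ b3)
    (B6 : 0 ≤ n1 - a1)
    (B7 : 0 ≤ n2 - a2)
    (B8 : 0 ≤ n3 - a3)
    (B9 : 0 ≤ n1 - b1)
    (B10 : 0 ≤ n2 - b2)
    (B11 : 0 ≤ n3 - b3)
    (B12 : 0 ≤ n1 - 1)
    (B13 : 0 ≤ n2 - 1)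
    (B14 : 0 ≤ n3 - 1)
    (B15 : 0 ≤ x + a1 + a2 - b1 - b2)
    (B16 : 0 ≤ -a1 - a2 + b1 + b2 - x)
    (B17 : 0 ≤ x - 1)
    (B18 : 0 ≤ a1 + a2 + a3 - b1 - b2 - b3)
    (B19 : 0 ≤ -a1 - a2 - a3 + b1 + b2 + b3)
    (B20 : 0 ≤ d1 - a1 + b1)
    (B21 : 0 ≤ a1 - b1 - d1)
    (B22 : 0 ≤ d1 - 1)
    (B23 : 0 ≤ d1 - 1)
    (B24 : 0 ≤ -d1 + 1)
    (B25 : 0 ≤ n1 - a1 - h)
    (B26 : 0 ≤ a2 - h - 1)
    (B27 : 0 ≤ n1 - b1 - h3)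
    (B28 : 0 ≤ b2 + b3 - h3 - 1)
    (B29 : 0 ≤ n1 - b1 + n2 - b2 - k)
    (B30 : 0 ≤ b3 - k - 1)
    (C_Dh : 0 ≤ h - n1 + a1 ∨ 0 ≤ h - a2 + 1)
    (C_Dh3 : 0 ≤ h3 - n1 + b1 ∨ 0 ≤ h3 - b2 - b3 + 1)
    (C_Dk : 0 ≤ k - n1 + b1 - n2 + b2 ∨ 0 ≤ k - b3 + 1) :
    ∀ c1 c2 c3, LosC n1 n2 n3 a1 a2 a3 b1 b2 b3 c1 c2 c3 →
      ∃ v ∈ ([⟨0 ≤ b1 - 1, 2, -n2 + b2 - x + 1, -n2 + b2 - n3 + b3 + 1⟩, ⟨True, 1, -x + 1, -x - n3 + a3 + 1⟩, ⟨True, -h, 1, -n3 + a3 + 1⟩, ⟨True, -h3 + 1, -k - x, 1⟩] : List LV), v.ex ∧ v.c1 ≤ c1 ∧ v.c2 ≤ c2 ∧ v.c3 ≤ c3 := by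
  intro c1 c2 c3 hc
  obtain ⟨q1, q2, q3, q4, q5, q6, qa, qb⟩ := hc
  rcases qb with qb | qb | qb
  · clear qa
    clear C_Dh C_Dh3 C_Dk
    refine ⟨_, List.Mem.head _, ?_, ?_, ?_, ?_⟩
    · show 0 ≤ b1 - 1; omega
    · show 2 ≤ c1; omega
    · show -n2 + b2 - x + 1 ≤ c2; omega
    · show -n2 + b2 - n3 + b3 + 1 ≤ c3; omega
  · rcases qa with qa | qa | qa
    · clear C_Dh C_Dh3 C_Dk
      refine ⟨_, List.Mem.tail _ (List.Mem.head _), ?_, ?_, ?_, ?_⟩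
      · trivial
      · show 1 ≤ c1; omega
      · show -x + 1 ≤ c2; omega
      · show -x - n3 + a3 + 1 ≤ c3; omega
    · clear C_Dh3 C_Dk
      refine ⟨_, List.Mem.tail _ (List.Mem.tail _ (List.Mem.head _)), ?_, ?_, ?_, ?_⟩
      · trivial
      · show -h ≤ c1; omega
      · show 1 ≤ c2; omega
      · show -n3 + a3 + 1 ≤ c3; omega
    · clear C_Dh
      refine ⟨_, List.Mem.tail _ (List.Mem.tail _ (List.Mem.tail _ (List.Mem.head _))), ?_, ?_, ?_, ?_⟩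
      · trivial
      · show -h3 + 1 ≤ c1; omega
      · show -k - x ≤ c2; omega
      · show 1 ≤ c3; omega
  · clear qa
    clear C_Dh
    refine ⟨_, List.Mem.tail _ (List.Mem.tail _ (List.Mem.tail _ (List.Mem.head _))), ?_, ?_, ?_, ?_⟩
    · trivial
    · show -h3 + 1 ≤ c1; omega
    · show -k - x ≤ c2; omega
    · show 1 ≤ c3; omega

theorem cvF_V1_V3_11 {b1 b2 b3 n2 n3 x : ℤ}
    (hex : 0 ≤ b1 - 1)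
    (hf : LexFail ((x) * (2) + (1) * (-n2 + b2 - x + 1) + (0) * (-n2 + b2 - n3 + b3 + 1))
      ((0) * (2) + (0) * (-n2 + b2 - x + 1) + (1) * (-n2 + b2 - n3 + b3 + 1))
      ((0) * (2) + (0) * (-n2 + b2 - x + 1) + (0) * (-n2 + b2 - n3 + b3 + 1))) :
    0 ≤ b1 - 1 ∧ 0 ≤ -x + n2 - b2 - 1 ∧ (0 ≤ -x + n2 - b2 - 2 ∨ 0 ≤ n2 - b2 + n3 - b3 - 1) := by
  rcases hf with hf | ⟨hf0, hf⟩ | ⟨hf0, hf1, hf⟩
  · exact ⟨by linarith only [hex], by linarith only [hf], Or.inl (by linarith only [hf])⟩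
  · exact ⟨by linarith only [hex], by linarith only [hf0], Or.inr (by linarith only [hf])⟩
  · exact ⟨by linarith only [hex], by linarith only [hf0], Or.inr (by linarith only [hf1])⟩

theorem cvF_V1_V3_12 {a3 n3 x : ℤ}
    (hf : LexFail ((x) * (1) + (1) * (-x + 1) + (0) * (-x - n3 + a3 + 1))
      ((0) * (1) + (0) * (-x + 1) + (1) * (-x - n3 + a3 + 1))
      ((0) * (1) + (0) * (-x + 1) + (0) * (-x - n3 + a3 + 1))) :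
    False := by
  rcases hf with hf | ⟨hf0, hf⟩ | ⟨hf0, hf1, hf⟩
  · exfalso; linarith only [hf]
  · exfalso; linarith only [hf0]
  · exfalso; linarith only [hf0]

theorem cvF_V1_V3_22 {a3 h n3 p0 x : ℤ}
    (ep0 : p0 = (x) * (-h))
    (hf : LexFail ((x) * (-h) + (1) * (1) + (0) * (-n3 + a3 + 1))
      ((0) * (-h) + (0) * (1) + (1) * (-n3 + a3 + 1))
      ((0) * (-h) + (0) * (1) + (0) * (-n3 + a3 + 1))) :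
    0 ≤ -p0 - 1 ∧ (0 ≤ -p0 - 2 ∨ 0 ≤ n3 - a3 - 1) := by
  rcases hf with hf | ⟨hf0, hf⟩ | ⟨hf0, hf1, hf⟩
  · exact ⟨by linarith only [hf, ep0], Or.inl (by linarith only [hf, ep0])⟩
  · exact ⟨by linarith only [hf0, ep0], Or.inr (by linarith only [hf])⟩
  · exact ⟨by linarith only [hf0, ep0], Or.inr (by linarith only [hf1])⟩

theorem cvF_V1_V3_33 {h3 k p1 x : ℤ}
    (ep1 : p1 = (x) * (-h3 + 1))
    (hf : LexFail ((x) * (-h3 + 1) + (1) * (-k - x) + (0) * (1))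
      ((0) * (-h3 + 1) + (0) * (-k - x) + (1) * (1))
      ((0) * (-h3 + 1) + (0) * (-k - x) + (0) * (1))) :
    0 ≤ -p1 + k + x ∧ 0 ≤ -p1 + k + x - 1 := by
  rcases hf with hf | ⟨hf0, hf⟩ | ⟨hf0, hf1, hf⟩
  · exact ⟨by linarith only [hf, ep1], by linarith only [hf, ep1]⟩
  · exfalso; linarith only [hf]
  · exfalso; linarith only [hf1]

theorem FAt {n1 n2 n3 a1 a2 a3 b1 b2 b3 x d1 h h3 k p0 p1 : ℤ}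
    (B15 : 0 ≤ x + a1 + a2 - b1 - b2)
    (B16 : 0 ≤ -a1 - a2 + b1 + b2 - x)
    (B17 : 0 ≤ x - 1)
    (B18 : 0 ≤ a1 + a2 + a3 - b1 - b2 - b3)
    (B19 : 0 ≤ -a1 - a2 - a3 + b1 + b2 + b3)
    (B20 : 0 ≤ d1 - a1 + b1)
    (B21 : 0 ≤ a1 - b1 - d1)
    (B22 : 0 ≤ d1 - 1)
    (B23 : 0 ≤ d1 - 1)
    (B24 : 0 ≤ -d1 + 1)
    (ep0 : p0 = (x) * (-h))
    (ep1 : p1 = (x) * (-h3 + 1))
    (w1 : a1 - b1 = 1) (w2 : a1 + a2 - b1 - b2 = -x) (w3 : a1 + a2 + a3 - b1 - b2 - b3 = 0)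
    (hno : ¬ ∃ u1 u2 u3 : ℤ, Good n1 n2 n3 a1 a2 a3 b1 b2 b3 u1 u2 u3)
    (hd : ∀ c1 c2 c3, LosC n1 n2 n3 a1 a2 a3 b1 b2 b3 c1 c2 c3 →
      ∃ v ∈ ([⟨0 ≤ b1 - 1, 2, -n2 + b2 - x + 1, -n2 + b2 - n3 + b3 + 1⟩, ⟨True, 1, -x + 1, -x - n3 + a3 + 1⟩, ⟨True, -h, 1, -n3 + a3 + 1⟩, ⟨True, -h3 + 1, -k - x, 1⟩] : List LV), v.ex ∧ v.c1 ≤ c1 ∧ v.c2 ≤ c2 ∧ v.c3 ≤ c3) :
    (0 ≤ b1 - 1 ∧ 0 ≤ -x + n2 - b2 - 1 ∧ (0 ≤ -x + n2 - b2 - 2 ∨ 0 ≤ n2 - b2 + n3 - b3 - 1)) ∨ (0 ≤ -p0 - 1 ∧ (0 ≤ -p0 - 2 ∨ 0 ≤ n3 - a3 - 1)) ∨ (0 ≤ -p1 + k + x ∧ 0 ≤ -p1 + k + x - 1) := by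
  obtain ⟨v, hv, hex, hf⟩ := failA' w1 w2 w3 hno _ hd (x) (1) (0) (0) (0) (1) (0) (0) (0)
    ⟨by linarith only [B15, B16, B17, B18, B19, B20, B21, B22, B23, B24], zero_le_one, le_refl 0⟩ ⟨le_refl 0, le_refl 0, zero_le_one⟩ ⟨le_refl 0, le_refl 0, le_refl 0⟩
    (Or.inr ⟨by ring, Or.inr ⟨by ring, by linarith only [B15, B16, B17, B18, B19, B20, B21, B22, B23, B24]⟩⟩)
  simp only [List.mem_cons, List.not_mem_nil, or_false] at hv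
  rcases hv with rfl | rfl | rfl | rfl
  · exact Or.inl (cvF_V1_V3_11 hex hf)
  · exact (cvF_V1_V3_12 hf).elim
  · exact Or.inr (Or.inl (cvF_V1_V3_22 ep0 hf))
  · exact Or.inr (Or.inr (cvF_V1_V3_33 ep1 hf))

theorem cvF_V3_V1_11 {b1 b2 b3 n2 n3 x : ℤ}
    (hex : 0 ≤ b1 - 1)
    (hf : LexFail ((0) * (2) + (0) * (-n2 + b2 - x + 1) + (1) * (-n2 + b2 - n3 + b3 + 1))
      ((x) * (2) + (1) * (-n2 + b2 - x + 1) + (0) * (-n2 + b2 - n3 + b3 + 1))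
      ((0) * (2) + (0) * (-n2 + b2 - x + 1) + (0) * (-n2 + b2 - n3 + b3 + 1))) :
    0 ≤ b1 - 1 ∧ 0 ≤ n2 - b2 + n3 - b3 - 1 ∧ (0 ≤ n2 - b2 + n3 - b3 - 2 ∨ 0 ≤ -x + n2 - b2 - 1) := by
  rcases hf with hf | ⟨hf0, hf⟩ | ⟨hf0, hf1, hf⟩
  · exact ⟨by linarith only [hex], by linarith only [hf], Or.inl (by linarith only [hf])⟩
  · exact ⟨by linarith only [hex], by linarith only [hf0], Or.inr (by linarith only [hf])⟩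
  · exact ⟨by linarith only [hex], by linarith only [hf0], Or.inr (by linarith only [hf1])⟩

theorem cvF_V3_V1_12 {a3 n3 x : ℤ}
    (hf : LexFail ((0) * (1) + (0) * (-x + 1) + (1) * (-x - n3 + a3 + 1))
      ((x) * (1) + (1) * (-x + 1) + (0) * (-x - n3 + a3 + 1))
      ((0) * (1) + (0) * (-x + 1) + (0) * (-x - n3 + a3 + 1))) :
    0 ≤ x + n3 - a3 - 1 ∧ 0 ≤ x + n3 - a3 - 2 := by
  rcases hf with hf | ⟨hf0, hf⟩ | ⟨hf0, hf1, hf⟩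
  · exact ⟨by linarith only [hf], by linarith only [hf]⟩
  · exfalso; linarith only [hf]
  · exfalso; linarith only [hf1]

theorem cvF_V3_V1_22 {a3 h n3 p0 x : ℤ}
    (ep0 : p0 = (x) * (-h))
    (hf : LexFail ((0) * (-h) + (0) * (1) + (1) * (-n3 + a3 + 1))
      ((x) * (-h) + (1) * (1) + (0) * (-n3 + a3 + 1))
      ((0) * (-h) + (0) * (1) + (0) * (-n3 + a3 + 1))) :
    0 ≤ n3 - a3 - 1 ∧ (0 ≤ n3 - a3 - 2 ∨ 0 ≤ -p0 - 1) := by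
  rcases hf with hf | ⟨hf0, hf⟩ | ⟨hf0, hf1, hf⟩
  · exact ⟨by linarith only [hf], Or.inl (by linarith only [hf])⟩
  · exact ⟨by linarith only [hf0], Or.inr (by linarith only [hf, ep0])⟩
  · exact ⟨by linarith only [hf0], Or.inr (by linarith only [hf1, ep0])⟩

theorem cvF_V3_V1_33 {h3 k p1 x : ℤ}
    (ep1 : p1 = (x) * (-h3 + 1))
    (hf : LexFail ((0) * (-h3 + 1) + (0) * (-k - x) + (1) * (1))
      ((x) * (-h3 + 1) + (1) * (-k - x) + (0) * (1))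
      ((0) * (-h3 + 1) + (0) * (-k - x) + (0) * (1))) :
    False := by
  rcases hf with hf | ⟨hf0, hf⟩ | ⟨hf0, hf1, hf⟩
  · exfalso; linarith only [hf]
  · exfalso; linarith only [hf0]
  · exfalso; linarith only [hf0]

theorem FBt {n1 n2 n3 a1 a2 a3 b1 b2 b3 x d1 h h3 k p0 p1 : ℤ}
    (B15 : 0 ≤ x + a1 + a2 - b1 - b2)
    (B16 : 0 ≤ -a1 - a2 + b1 + b2 - x)
    (B17 : 0 ≤ x - 1)
    (B18 : 0 ≤ a1 + a2 + a3 - b1 - b2 - b3)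
    (B19 : 0 ≤ -a1 - a2 - a3 + b1 + b2 + b3)
    (B20 : 0 ≤ d1 - a1 + b1)
    (B21 : 0 ≤ a1 - b1 - d1)
    (B22 : 0 ≤ d1 - 1)
    (B23 : 0 ≤ d1 - 1)
    (B24 : 0 ≤ -d1 + 1)
    (ep0 : p0 = (x) * (-h))
    (ep1 : p1 = (x) * (-h3 + 1))
    (w1 : a1 - b1 = 1) (w2 : a1 + a2 - b1 - b2 = -x) (w3 : a1 + a2 + a3 - b1 - b2 - b3 = 0)
    (hno : ¬ ∃ u1 u2 u3 : ℤ, Good n1 n2 n3 a1 a2 a3 b1 b2 b3 u1 u2 u3)
    (hd : ∀ c1 c2 c3, LosC n1 n2 n3 a1 a2 a3 b1 b2 b3 c1 c2 c3 →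
      ∃ v ∈ ([⟨0 ≤ b1 - 1, 2, -n2 + b2 - x + 1, -n2 + b2 - n3 + b3 + 1⟩, ⟨True, 1, -x + 1, -x - n3 + a3 + 1⟩, ⟨True, -h, 1, -n3 + a3 + 1⟩, ⟨True, -h3 + 1, -k - x, 1⟩] : List LV), v.ex ∧ v.c1 ≤ c1 ∧ v.c2 ≤ c2 ∧ v.c3 ≤ c3) :
    (0 ≤ b1 - 1 ∧ 0 ≤ n2 - b2 + n3 - b3 - 1 ∧ (0 ≤ n2 - b2 + n3 - b3 - 2 ∨ 0 ≤ -x + n2 - b2 - 1)) ∨ (0 ≤ x + n3 - a3 - 1 ∧ 0 ≤ x + n3 - a3 - 2) ∨ (0 ≤ n3 - a3 - 1 ∧ (0 ≤ n3 - a3 - 2 ∨ 0 ≤ -p0 - 1)) := by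
  obtain ⟨v, hv, hex, hf⟩ := failA' w1 w2 w3 hno _ hd (0) (0) (1) (x) (1) (0) (0) (0) (0)
    ⟨le_refl 0, le_refl 0, zero_le_one⟩ ⟨by linarith only [B15, B16, B17, B18, B19, B20, B21, B22, B23, B24], zero_le_one, le_refl 0⟩ ⟨le_refl 0, le_refl 0, le_refl 0⟩
    (Or.inr ⟨by ring, Or.inr ⟨by ring, by linarith only [B15, B16, B17, B18, B19, B20, B21, B22, B23, B24]⟩⟩)
  simp only [List.mem_cons, List.not_mem_nil, or_false] at hv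
  rcases hv with rfl | rfl | rfl | rfl
  · exact Or.inl (cvF_V3_V1_11 hex hf)
  · exact Or.inr (Or.inl (cvF_V3_V1_12 hf))
  · exact Or.inr (Or.inr (cvF_V3_V1_22 ep0 hf))
  · exact (cvF_V3_V1_33 ep1 hf).elim

theorem T2_11_22 {n1 n2 n3 a1 a2 a3 b1 b2 b3 x h : ℤ}
    (H : NoTr n1 n2 n3 a1 a2 a3 b1 b2 b3)
    (l11 : 0 ≤ b1 - 1 → LosC n1 n2 n3 a1 a2 a3 b1 b2 b3 (2) (-n2 + b2 - x + 1) (-n2 + b2 - n3 + b3 + 1))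
    (l22 : LosC n1 n2 n3 a1 a2 a3 b1 b2 b3 (-h) (1) (-n3 + a3 + 1))
    : 0 ≤ -b1 ∨ 0 ≤ -h + 1 ∨ 0 ≤ -n2 + b2 - x + 1 ∨ 0 ≤ -n2 + b2 - 2 * n3 + b3 + a3 + 1 := by
  rcases le_or_gt (b1) 0 with hb0 | hb0
  · exact Or.inl (by linarith only [hb0])
  rcases H.t2 (l11 (by linarith only [hb0])) l22 with hq | hq | hq
  · exact Or.inr (Or.inl (by linarith only [hq]))
  · exact Or.inr (Or.inr (Or.inl (by linarith only [hq])))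
  · exact Or.inr (Or.inr (Or.inr (by linarith only [hq])))

theorem T0_11_33 {n1 n2 n3 a1 a2 a3 b1 b2 b3 x h3 k : ℤ}
    (H : NoTr n1 n2 n3 a1 a2 a3 b1 b2 b3)
    (w1 : a1 - b1 = 1) (w2 : a1 + a2 - b1 - b2 = -x) (w3 : a1 + a2 + a3 - b1 - b2 - b3 = 0)
    (l11 : 0 ≤ b1 - 1 → LosC n1 n2 n3 a1 a2 a3 b1 b2 b3 (2) (-n2 + b2 - x + 1) (-n2 + b2 - n3 + b3 + 1))
    (l33 : LosC n1 n2 n3 a1 a2 a3 b1 b2 b3 (-h3 + 1) (-k - x) (1))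
    : 0 ≤ -b1 ∨ 0 ≤ -h3 ∨ 0 ≤ -n2 + b2 - k ∨ 0 ≤ -n2 + b2 - n3 + b3 + 1 := by
  rcases le_or_gt (b1) 0 with hb0 | hb0
  · exact Or.inl (by linarith only [hb0])
  rcases H.t0 w1 w2 w3 (l11 (by linarith only [hb0])) l33 with hq | hq | hq
  · exact Or.inr (Or.inl (by linarith only [hq]))
  · exact Or.inr (Or.inr (Or.inl (by linarith only [hq])))
  · exact Or.inr (Or.inr (Or.inr (by linarith only [hq])))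

theorem T1_11_33 {n1 n2 n3 a1 a2 a3 b1 b2 b3 x h3 k : ℤ}
    (H : NoTr n1 n2 n3 a1 a2 a3 b1 b2 b3)
    (w1 : a1 - b1 = 1) (w2 : a1 + a2 - b1 - b2 = -x) (w3 : a1 + a2 + a3 - b1 - b2 - b3 = 0)
    (l11 : 0 ≤ b1 - 1 → LosC n1 n2 n3 a1 a2 a3 b1 b2 b3 (2) (-n2 + b2 - x + 1) (-n2 + b2 - n3 + b3 + 1))
    (l33 : LosC n1 n2 n3 a1 a2 a3 b1 b2 b3 (-h3 + 1) (-k - x) (1))
    : 0 ≤ -b1 ∨ 0 ≤ -h3 + 1 ∨ 0 ≤ -n2 + b2 - x - k ∨ 0 ≤ -n2 + b2 - n3 + b3 + 1 := by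
  rcases le_or_gt (b1) 0 with hb0 | hb0
  · exact Or.inl (by linarith only [hb0])
  rcases H.t1 w1 w2 w3 (l11 (by linarith only [hb0])) l33 with hq | hq | hq
  · exact Or.inr (Or.inl (by linarith only [hq]))
  · exact Or.inr (Or.inr (Or.inl (by linarith only [hq])))
  · exact Or.inr (Or.inr (Or.inr (by linarith only [hq])))

theorem T1_12_33 {n1 n2 n3 a1 a2 a3 b1 b2 b3 x h3 k : ℤ}
    (H : NoTr n1 n2 n3 a1 a2 a3 b1 b2 b3)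
    (w1 : a1 - b1 = 1) (w2 : a1 + a2 - b1 - b2 = -x) (w3 : a1 + a2 + a3 - b1 - b2 - b3 = 0)
    (l12 : LosC n1 n2 n3 a1 a2 a3 b1 b2 b3 (1) (-x + 1) (-x - n3 + a3 + 1))
    (l33 : LosC n1 n2 n3 a1 a2 a3 b1 b2 b3 (-h3 + 1) (-k - x) (1))
    : 0 ≤ -h3 ∨ 0 ≤ -x - k ∨ 0 ≤ -x - n3 + a3 + 1 := by
  rcases H.t1 w1 w2 w3 l12 l33 with hq | hq | hq
  · exact Or.inl (by linarith only [hq])
  · exact Or.inr (Or.inl (by linarith only [hq]))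
  · exact Or.inr (Or.inr (by linarith only [hq]))

theorem T2_12_33 {n1 n2 n3 a1 a2 a3 b1 b2 b3 x h3 k : ℤ}
    (H : NoTr n1 n2 n3 a1 a2 a3 b1 b2 b3)
    (l12 : LosC n1 n2 n3 a1 a2 a3 b1 b2 b3 (1) (-x + 1) (-x - n3 + a3 + 1))
    (l33 : LosC n1 n2 n3 a1 a2 a3 b1 b2 b3 (-h3 + 1) (-k - x) (1))
    : 0 ≤ -h3 + 1 ∨ 0 ≤ -2 * x - k ∨ 0 ≤ -x - n3 + a3 + 1 := by
  rcases H.t2 l12 l33 with hq | hq | hq
  · exact Or.inl (by linarith only [hq])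
  · exact Or.inr (Or.inl (by linarith only [hq]))
  · exact Or.inr (Or.inr (by linarith only [hq]))

theorem main {n1 n2 n3 a1 a2 a3 b1 b2 b3 x d1 : ℤ}
    (B0 : 0 ≤ a1)
    (B1 : 0 ≤ a2)
    (B2 : 0 ≤ a3)
    (B3 : 0 ≤ b1)
    (B4 : 0 ≤ b2)
    (B5 : 0 ≤ b3)
    (B6 : 0 ≤ n1 - a1)
    (B7 : 0 ≤ n2 - a2)
    (B8 : 0 ≤ n3 - a3)
    (B9 : 0 ≤ n1 - b1)
    (B10 : 0 ≤ n2 - b2)
    (B11 : 0 ≤ n3 - b3)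
    (B12 : 0 ≤ n1 - 1)
    (B13 : 0 ≤ n2 - 1)
    (B14 : 0 ≤ n3 - 1)
    (B15 : 0 ≤ x + a1 + a2 - b1 - b2)
    (B16 : 0 ≤ -a1 - a2 + b1 + b2 - x)
    (B17 : 0 ≤ x - 1)
    (B18 : 0 ≤ a1 + a2 + a3 - b1 - b2 - b3)
    (B19 : 0 ≤ -a1 - a2 - a3 + b1 + b2 + b3)
    (B20 : 0 ≤ d1 - a1 + b1)
    (B21 : 0 ≤ a1 - b1 - d1)
    (B22 : 0 ≤ d1 - 1)
    (B23 : 0 ≤ d1 - 1)
    (B24 : 0 ≤ -d1 + 1)
    (C_c1 : (0 ≤ a1 - 1 ∧ 0 ≤ n2 - a2 - 1) ∨ (0 ≤ b1 - 1 ∧ 0 ≤ n2 - b2 - 1))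
    (C_c2 : (0 ≤ a2 - 1 ∧ 0 ≤ n3 - a3 - 1) ∨ (0 ≤ b2 - 1 ∧ 0 ≤ n3 - b3 - 1))
    (H : NoTr n1 n2 n3 a1 a2 a3 b1 b2 b3)
    (hno : ¬ ∃ u1 u2 u3 : ℤ, Good n1 n2 n3 a1 a2 a3 b1 b2 b3 u1 u2 u3) : False := by
  have w1 : a1 - b1 = 1 := by linarith only [B15, B16, B17, B18, B19, B20, B21, B22, B23, B24]
  have w2 : a1 + a2 - b1 - b2 = -x := by linarith only [B15, B16, B17, B18, B19, B20, B21, B22, B23, B24]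
  have w3 : a1 + a2 + a3 - b1 - b2 - b3 = 0 := by linarith only [B15, B16, B17, B18, B19, B20, B21, B22, B23, B24]
  obtain ⟨h, rh1, rh2, rh3⟩ := min_facts (n1 - a1) (a2 - 1)
  have B25 : 0 ≤ n1 - a1 - h := by linarith only [rh1]
  have B26 : 0 ≤ a2 - h - 1 := by linarith only [rh2]
  have C_Dh : 0 ≤ h - n1 + a1 ∨ 0 ≤ h - a2 + 1 := rh3.imp (fun hq => by linarith only [hq]) (fun hq => by linarith only [hq])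
  clear rh1 rh2 rh3
  obtain ⟨h3, rh31, rh32, rh33⟩ := min_facts (n1 - b1) (b2 + b3 - 1)
  have B27 : 0 ≤ n1 - b1 - h3 := by linarith only [rh31]
  have B28 : 0 ≤ b2 + b3 - h3 - 1 := by linarith only [rh32]
  have C_Dh3 : 0 ≤ h3 - n1 + b1 ∨ 0 ≤ h3 - b2 - b3 + 1 := rh33.imp (fun hq => by linarith only [hq]) (fun hq => by linarith only [hq])
  clear rh31 rh32 rh33
  obtain ⟨k, rk1, rk2, rk3⟩ := min_facts (n1 - b1 + n2 - b2) (b3 - 1)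
  have B29 : 0 ≤ n1 - b1 + n2 - b2 - k := by linarith only [rk1]
  have B30 : 0 ≤ b3 - k - 1 := by linarith only [rk2]
  have C_Dk : 0 ≤ k - n1 + b1 - n2 + b2 ∨ 0 ≤ k - b3 + 1 := rk3.imp (fun hq => by linarith only [hq]) (fun hq => by linarith only [hq])
  clear rk1 rk2 rk3
  have l11 : 0 ≤ b1 - 1 → LosC n1 n2 n3 a1 a2 a3 b1 b2 b3 (2) (-n2 + b2 - x + 1) (-n2 + b2 - n3 + b3 + 1) := fun hq => los11 B0 B1 B2 B3 B4 B5 B6 B7 B8 B9 B10 B11 B12 B13 B14 B15 B16 B17 B18 B19 B20 B21 B22 B23 B24 hq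
  have l12 : LosC n1 n2 n3 a1 a2 a3 b1 b2 b3 (1) (-x + 1) (-x - n3 + a3 + 1) := los12 B0 B1 B2 B3 B4 B5 B6 B7 B8 B9 B10 B11 B12 B13 B14 B15 B16 B17 B18 B19 B20 B21 B22 B23 B24
  have l22 : LosC n1 n2 n3 a1 a2 a3 b1 b2 b3 (-h) (1) (-n3 + a3 + 1) := los22 B0 B1 B2 B3 B4 B5 B6 B7 B8 B9 B10 B11 B12 B13 B14 B15 B16 B17 B18 B19 B20 B21 B22 B23 B24 B25 B26 C_Dh
  have l33 : LosC n1 n2 n3 a1 a2 a3 b1 b2 b3 (-h3 + 1) (-k - x) (1) := los33 B0 B1 B2 B3 B4 B5 B6 B7 B8 B9 B10 B11 B12 B13 B14 B15 B16 B17 B18 B19 B20 B21 B22 B23 B24 B27 B28 B29 B30 C_Dh3 C_Dk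
  have hd := hd B0 B1 B2 B3 B4 B5 B6 B7 B8 B9 B10 B11 B12 B13 B14 B15 B16 B17 B18 B19 B20 B21 B22 B23 B24 B25 B26 B27 B28 B29 B30 C_Dh C_Dh3 C_Dk
  obtain ⟨p0, ep0⟩ : ∃ p, p = (x) * (-h) := ⟨_, rfl⟩
  have C_Dp0_a : (0 ≤ h - 2 ∧ 0 ≤ -2 * x - p0) ∨ (0 ≤ -h + 1 ∧ 0 ≤ p0 + x) :=
    (prod_split' (-2) ep0 (by linarith only [B15, B16, B17, B18, B19, B20, B21, B22, B23, B24])).imp (fun hq => ⟨by linarith only [hq.1], by linarith only [hq.2]⟩)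
      (fun hq => ⟨by linarith only [hq.1], by linarith only [hq.2]⟩)
  have C_Dp0_b : (0 ≤ h - 1 ∧ 0 ≤ -x - p0) ∨ (0 ≤ -h ∧ 0 ≤ p0) :=
    (prod_split' (-1) ep0 (by linarith only [B15, B16, B17, B18, B19, B20, B21, B22, B23, B24])).imp (fun hq => ⟨by linarith only [hq.1], by linarith only [hq.2]⟩)
      (fun hq => ⟨by linarith only [hq.1], by linarith only [hq.2]⟩)
  obtain ⟨p1, ep1⟩ : ∃ p, p = (x) * (-h3 + 1) := ⟨_, rfl⟩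
  have C_Dp1_a : (0 ≤ h3 - 3 ∧ 0 ≤ -2 * x - p1) ∨ (0 ≤ -h3 + 2 ∧ 0 ≤ p1 + x) :=
    (prod_split' (-2) ep1 (by linarith only [B15, B16, B17, B18, B19, B20, B21, B22, B23, B24])).imp (fun hq => ⟨by linarith only [hq.1], by linarith only [hq.2]⟩)
      (fun hq => ⟨by linarith only [hq.1], by linarith only [hq.2]⟩)
  have C_Dp1_b : (0 ≤ h3 - 2 ∧ 0 ≤ -x - p1) ∨ (0 ≤ -h3 + 1 ∧ 0 ≤ p1) :=
    (prod_split' (-1) ep1 (by linarith only [B15, B16, B17, B18, B19, B20, B21, B22, B23, B24])).imp (fun hq => ⟨by linarith only [hq.1], by linarith only [hq.2]⟩)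
      (fun hq => ⟨by linarith only [hq.1], by linarith only [hq.2]⟩)
  have C_Dp1_c : (0 ≤ h3 - 1 ∧ 0 ≤ -p1) ∨ (0 ≤ -h3 ∧ 0 ≤ p1 - x) :=
    (prod_split' (0) ep1 (by linarith only [B15, B16, B17, B18, B19, B20, B21, B22, B23, B24])).imp (fun hq => ⟨by linarith only [hq.1], by linarith only [hq.2]⟩)
      (fun hq => ⟨by linarith only [hq.1], by linarith only [hq.2]⟩)
  have FA := FAt B15 B16 B17 B18 B19 B20 B21 B22 B23 B24 ep0 ep1 w1 w2 w3 hno hd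
  have FB := FBt B15 B16 B17 B18 B19 B20 B21 B22 B23 B24 ep0 ep1 w1 w2 w3 hno hd
  have t2_11_22 := T2_11_22 H l11 l22
  have t0_11_33 := T0_11_33 H w1 w2 w3 l11 l33
  have t1_11_33 := T1_11_33 H w1 w2 w3 l11 l33
  have t1_12_33 := T1_12_33 H w1 w2 w3 l12 l33
  have t2_12_33 := T2_12_33 H l12 l33
  rcases FA with ⟨f0_0, f0_1, f0_2⟩ | ⟨f0_0, f0_1⟩ | ⟨f0_0, f0_1⟩
  · rcases FB with ⟨f1_0, f1_1, f1_2⟩ | ⟨f1_0, f1_1⟩ | ⟨f1_0, f1_1⟩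
    · exact g0 B1 B5 B6 B8 B16 B17 B18 B21 B22 B27 B30 f0_0 f0_1 C_Dh3 C_Dk C_Dp1_c t0_11_33
    · exact g1 B1 B5 B6 B16 B17 B18 B21 B22 B27 B30 f0_0 f0_1 f1_1 C_Dh3 C_Dk C_Dp1_c t0_11_33
    · exact g2 B1 B5 B6 B16 B17 B18 B21 B22 B27 B30 f0_0 f0_1 f1_0 C_Dh3 C_Dk C_Dp1_c t0_11_33
  · rcases FB with ⟨f1_0, f1_1, f1_2⟩ | ⟨f1_0, f1_1⟩ | ⟨f1_0, f1_1⟩
    · exact g3 B5 B8 B10 B15 B16 B17 B19 B21 B22 B25 B26 B27 f0_0 f1_0 C_c2 C_Dh3 C_Dk C_Dp0_a C_Dp0_b C_Dp1_a C_Dp1_b f0_1 f1_2 t2_12_33 t2_11_22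
    · exact g4 B5 B10 B16 B17 B21 B22 B25 B26 B27 B30 f0_0 f1_1 C_Dh3 C_Dk C_Dp0_b C_Dp1_b t2_12_33
    · exact g5 B5 B10 B16 B17 B21 B22 B25 B26 B27 B30 f0_0 f1_0 C_Dh3 C_Dk C_Dp0_b C_Dp1_b t2_12_33
  · rcases FB with ⟨f1_0, f1_1, f1_2⟩ | ⟨f1_0, f1_1⟩ | ⟨f1_0, f1_1⟩
    · exact g6 B1 B5 B6 B8 B10 B15 B16 B17 B18 B19 B21 B22 B27 B30 f0_1 f1_0 C_c2 C_Dh3 C_Dk C_Dp1_b C_Dp1_c f1_2 t1_12_33 t0_11_33 t2_12_33 t1_11_33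
    · exact g7 B1 B5 B6 B10 B16 B17 B21 B22 B27 B30 f0_1 f1_1 C_Dh3 C_Dk C_Dp1_b t1_12_33 t2_12_33
    · exact g8 B1 B5 B6 B10 B16 B17 B21 B22 B27 B30 f0_1 f1_0 C_Dh3 C_Dk C_Dp1_b t1_12_33 t2_12_33

end WG3.I0P
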