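import Pool.Agent.Work.MP_5465ec_co.Core

set_option linter.all false

namespace WG3.IIIN

theorem g0 {a1 a2 a3 b1 b2 b3 d1 g n2 n3 p0 : ℤ}
    (B2 : 0 ≤ a3)
    (B16 : 0 ≤ -a1 - a2 + b1 + b2)
    (B21 : 0 ≤ a1 - b1 - d1)
    (B25 : 0 ≤ d1 - 2)
    (B34 : 0 ≤ b1 - 1)
    (B35 : 0 ≤ n2 - b2 - 1)
    (B37 : 0 ≤ -d1 - p0 - 1)
    (D5 : 0 ≤ g - n2 + a2 + 1 ∨ 0 ≤ g - a3)
    (D6 : (0 ≤ n2 - b2 + n3 - b3 - 2 ∧ 0 ≤ -2 * d1 - p0) ∨ (0 ≤ -n2 + b2 - n3 + b3 + 1 ∧ 0 ≤ p0 + d1))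
    (D24 : 0 ≤ -b1 ∨ 0 ≤ -d1 + 1 ∨ 0 ≤ -n2 + b2 - g ∨ 0 ≤ -n2 + b2 - n3 + b3 + 1) : False := by
  have E5 := D5
  have E6 : (0 ≤ n2 - b2 + n3 - b3 - 2 ∧ 0 ≤ -2 * d1 - p0) := by
    rcases D6 with H6 | H6
    · exact H6
    · linarith only [B37, H6.2]
  have E24 : 0 ≤ -n2 + b2 - g ∨ 0 ≤ -n2 + b2 - n3 + b3 + 1 := by
    rcases D24 with H24 | H24 | H24 | H24
    · linarith only [B34, H24]
    · linarith only [B25, H24]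
    · exact Or.inl H24
    · exact Or.inr H24
  have H6 := E6
  rcases E24 with H24 | H24
  · rcases E5 with H5 | H5
    · linarith only [B25, B35, B21, H24, B16, H5]
    · linarith only [B35, H5, H24, B2]
  · linarith only [H6.1, H24]

theorem g1 {a1 a2 a3 b1 b2 b3 d1 g n2 n3 p0 : ℤ}
    (B2 : 0 ≤ a3)
    (B11 : 0 ≤ n3 - b3)
    (B16 : 0 ≤ -a1 - a2 + b1 + b2)
    (B21 : 0 ≤ a1 - b1 - d1)
    (B25 : 0 ≤ d1 - 2)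
    (B34 : 0 ≤ b1 - 1)
    (B35 : 0 ≤ n2 - b2 - 1)
    (D5 : 0 ≤ g - n2 + a2 + 1 ∨ 0 ≤ g - a3)
    (D6 : (0 ≤ n2 - b2 + n3 - b3 - 2 ∧ 0 ≤ -2 * d1 - p0) ∨ (0 ≤ -n2 + b2 - n3 + b3 + 1 ∧ 0 ≤ p0 + d1))
    (D22 : 0 ≤ n2 - b2 - 2 ∨ 0 ≤ -d1 - p0 - 1)
    (D23 : 0 ≤ -b1 ∨ 0 ≤ -d1 + 1 ∨ 0 ≤ -n2 + b2 - g ∨ 0 ≤ -n2 + b2 - n3 + b3 + 1) : False := by
  have E5 := D5
  have E6 := D6
  have E22 := D22
  have E23 : 0 ≤ -n2 + b2 - g ∨ 0 ≤ -n2 + b2 - n3 + b3 + 1 := by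
    rcases D23 with H23 | H23 | H23 | H23
    · linarith only [B34, H23]
    · linarith only [B25, H23]
    · exact Or.inl H23
    · exact Or.inr H23
  rcases E23 with H23 | H23
  · rcases E5 with H5 | H5
    · linarith only [B25, B35, B16, B21, H23, H5]
    · linarith only [B35, H5, H23, B2]
  · rcases E6 with H6 | H6
    · linarith only [H6.1, H23]
    · rcases E22 with H22 | H22
      · linarith only [H22, B11, H23]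
      · linarith only [H22, H6.2]

theorem g2 {a1 a2 a3 b1 b2 b3 d1 g n2 n3 p0 : ℤ}
    (B2 : 0 ≤ a3)
    (B11 : 0 ≤ n3 - b3)
    (B16 : 0 ≤ -a1 - a2 + b1 + b2)
    (B21 : 0 ≤ a1 - b1 - d1)
    (B25 : 0 ≤ d1 - 2)
    (B34 : 0 ≤ b1 - 1)
    (B35 : 0 ≤ n2 - b2 - 1)
    (D5 : 0 ≤ g - n2 + a2 + 1 ∨ 0 ≤ g - a3)
    (D6 : (0 ≤ n2 - b2 + n3 - b3 - 2 ∧ 0 ≤ -2 * d1 - p0) ∨ (0 ≤ -n2 + b2 - n3 + b3 + 1 ∧ 0 ≤ p0 + d1))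
    (D22 : 0 ≤ n2 - b2 - 2 ∨ 0 ≤ -d1 - p0 - 1)
    (D26 : 0 ≤ -b1 ∨ 0 ≤ -d1 + 1 ∨ 0 ≤ -n2 + b2 - g ∨ 0 ≤ -n2 + b2 - n3 + b3 + 1) : False := by
  have E5 := D5
  have E6 := D6
  have E22 := D22
  have E26 : 0 ≤ -n2 + b2 - g ∨ 0 ≤ -n2 + b2 - n3 + b3 + 1 := by
    rcases D26 with H26 | H26 | H26 | H26
    · linarith only [B34, H26]
    · linarith only [B25, H26]
    · exact Or.inl H26
    · exact Or.inr H26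
  rcases E26 with H26 | H26
  · rcases E5 with H5 | H5
    · linarith only [B25, B35, B16, B21, H26, H5]
    · linarith only [B35, H5, H26, B2]
  · rcases E6 with H6 | H6
    · linarith only [H6.1, H26]
    · rcases E22 with H22 | H22
      · linarith only [H22, B11, H26]
      · linarith only [H22, H6.2]

theorem g3 {a1 a2 a3 b1 b2 b3 d1 g k n2 n3 p0 : ℤ}
    (B10 : 0 ≤ n2 - b2)
    (B16 : 0 ≤ -a1 - a2 + b1 + b2)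
    (B21 : 0 ≤ a1 - b1 - d1)
    (B25 : 0 ≤ d1 - 2)
    (B31 : 0 ≤ a3 - k - 1)
    (B34 : 0 ≤ k)
    (B35 : 0 ≤ b1 - 1)
    (B36 : 0 ≤ -d1 - p0 - 1)
    (D5 : 0 ≤ g - n2 + a2 + 1 ∨ 0 ≤ g - a3)
    (D6 : (0 ≤ n2 - b2 + n3 - b3 - 2 ∧ 0 ≤ -2 * d1 - p0) ∨ (0 ≤ -n2 + b2 - n3 + b3 + 1 ∧ 0 ≤ p0 + d1))
    (D24 : 0 ≤ -b1 ∨ 0 ≤ -d1 + 1 ∨ 0 ≤ -n2 + b2 - g ∨ 0 ≤ -n2 + b2 - n3 + b3 + 1) : False := by
  have E5 := D5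
  have E6 : (0 ≤ n2 - b2 + n3 - b3 - 2 ∧ 0 ≤ -2 * d1 - p0) := by
    rcases D6 with H6 | H6
    · exact H6
    · linarith only [B36, H6.2]
  have E24 : 0 ≤ -n2 + b2 - g ∨ 0 ≤ -n2 + b2 - n3 + b3 + 1 := by
    rcases D24 with H24 | H24 | H24 | H24
    · linarith only [B35, H24]
    · linarith only [B25, H24]
    · exact Or.inl H24
    · exact Or.inr H24
  have H6 := E6
  rcases E24 with H24 | H24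
  · rcases E5 with H5 | H5
    · linarith only [B25, B10, B21, H24, B16, H5]
    · linarith only [B31, B10, H5, H24, B34]
  · linarith only [H6.1, H24]

theorem g4 {a1 a2 a3 b1 b2 b3 d1 g h k n1 n2 n3 p1 y : ℤ}
    (B1 : 0 ≤ a2)
    (B6 : 0 ≤ n1 - a1)
    (B10 : 0 ≤ n2 - b2)
    (B11 : 0 ≤ n3 - b3)
    (B15 : 0 ≤ a1 + a2 - b1 - b2)
    (B16 : 0 ≤ -a1 - a2 + b1 + b2)
    (B18 : 0 ≤ -a1 - a2 - a3 + b1 + b2 + b3 - y)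
    (B19 : 0 ≤ y - 1)
    (B21 : 0 ≤ a1 - b1 - d1)
    (B25 : 0 ≤ d1 - 2)
    (B31 : 0 ≤ a3 - k - 1)
    (B34 : 0 ≤ k)
    (B36 : 0 ≤ h - p1 - 1)
    (D2 : 0 ≤ h - n1 + a1 ∨ 0 ≤ h - a2 + 1)
    (D5 : 0 ≤ g - n2 + a2 + 1 ∨ 0 ≤ g - a3)
    (D10 : (0 ≤ n3 - a3 - 3 ∧ 0 ≤ -2 * d1 - p1) ∨ (0 ≤ -n3 + a3 + 2 ∧ 0 ≤ p1 + d1))
    (D11 : (0 ≤ n3 - a3 - 2 ∧ 0 ≤ -d1 - p1) ∨ (0 ≤ -n3 + a3 + 1 ∧ 0 ≤ p1))
    (D23 : 0 ≤ -h - d1 ∨ 0 ≤ -g ∨ 0 ≤ -n3 + a3 + 1)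
    (D24 : 0 ≤ -h ∨ 0 ≤ -g ∨ 0 ≤ -n3 + a3) : False := by
  have E2 := D2
  have E5 := D5
  have E10 := D10
  have E11 := D11
  have E23 := D23
  have E24 : 0 ≤ -h ∨ 0 ≤ -g := by
    rcases D24 with H24 | H24 | H24
    · exact Or.inl H24
    · exact Or.inr H24
    · linarith only [B19, B11, B15, H24, B18]
  rcases E11 with H11 | H11
  · rcases E10 with H10 | H10
    · rcases E23 with H23 | H23 | H23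
      · rcases E2 with H2 | H2
        · linarith only [H23, B6, B25, H2]
        · linarith only [B1, H23, B25, H2]
      · rcases E5 with H5 | H5
        · linarith only [B21, B10, H23, B16, B25, H5]
        · linarith only [B31, H23, H5, B34]
      · linarith only [H10.1, H23]
    · rcases E23 with H23 | H23 | H23
      · linarith only [H23, B36, H10.2]
      · rcases E5 with H5 | H5
        · linarith only [B25, B10, B16, B21, H23, H5]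
        · linarith only [B31, H5, H23, B34]
      · linarith only [H11.1, H23]
  · rcases E24 with H24 | H24
    · linarith only [H11.2, B36, H24]
    · rcases E5 with H5 | H5
      · linarith only [B25, B10, B16, B21, H24, H5]
      · linarith only [B31, H5, H24, B34]

theorem g5 {a1 a2 a3 b1 b2 b3 d1 g h h3 k n1 n2 n3 p0 p1 p2 p3 y : ℤ}
    (B1 : 0 ≤ a2)
    (B10 : 0 ≤ n2 - b2)
    (B11 : 0 ≤ n3 - b3)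
    (B15 : 0 ≤ a1 + a2 - b1 - b2)
    (B16 : 0 ≤ -a1 - a2 + b1 + b2)
    (B18 : 0 ≤ -a1 - a2 - a3 + b1 + b2 + b3 - y)
    (B19 : 0 ≤ y - 1)
    (B21 : 0 ≤ a1 - b1 - d1)
    (B25 : 0 ≤ d1 - 2)
    (B28 : 0 ≤ n1 - a1 - h3)
    (B29 : 0 ≤ a2 + a3 - h3 - 1)
    (B31 : 0 ≤ a3 - k - 1)
    (B34 : 0 ≤ k)
    (B35 : 0 ≤ h3 - d1)
    (D1 : (0 ≤ a2 - 1 ∧ 0 ≤ n3 - a3 - 1) ∨ (0 ≤ b2 - 1 ∧ 0 ≤ n3 - b3 - 1))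
    (D2 : 0 ≤ h - n1 + a1 ∨ 0 ≤ h - a2 + 1)
    (D4 : 0 ≤ k - n1 + a1 - n2 + a2 ∨ 0 ≤ k - a3 + 1)
    (D5 : 0 ≤ g - n2 + a2 + 1 ∨ 0 ≤ g - a3)
    (D6 : (0 ≤ n2 - b2 + n3 - b3 - 2 ∧ 0 ≤ -2 * d1 - p0) ∨ (0 ≤ -n2 + b2 - n3 + b3 + 1 ∧ 0 ≤ p0 + d1))
    (D11 : (0 ≤ n3 - a3 - 2 ∧ 0 ≤ -d1 - p1) ∨ (0 ≤ -n3 + a3 + 1 ∧ 0 ≤ p1))
    (D15 : (0 ≤ n2 - b2 + n3 - b3 - 2 ∧ 0 ≤ -d1 - p2) ∨ (0 ≤ -n2 + b2 - n3 + b3 + 1 ∧ 0 ≤ p2))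
    (D21 : (0 ≤ n3 - a3 - 1 ∧ 0 ≤ d1 - p3) ∨ (0 ≤ -n3 + a3 ∧ 0 ≤ p3 - 2 * d1))
    (D24 : 0 ≤ -h ∨ 0 ≤ -g ∨ 0 ≤ -n3 + a3)
    (D25 : 0 ≤ -h - h3 - 1 ∨ 0 ≤ -k ∨ 0 ≤ -n3 + a3 + 1)
    (D26 : 0 ≤ -b1 ∨ 0 ≤ -h - d1 ∨ 0 ≤ -n2 + b2 + 1 ∨ 0 ≤ -n2 + b2 - 2 * n3 + b3 + a3 + 2)
    (D27 : 0 ≤ -b1 ∨ 0 ≤ d1 - h3 ∨ 0 ≤ -n2 + b2 - k ∨ 0 ≤ -n2 + b2 - n3 + b3)
    (D28 : ((0 ≤ b1 - 1 ∧ 0 ≤ n2 - b2 + n3 - b3 - 1) ∨ (0 ≤ b1 - 1 ∧ 0 ≤ -n2 + b2 - n3 + b3 ∧ 0 ≤ n2 - b2 + n3 - b3 ∧ 0 ≤ -d1 - p0 - 2) ∨ (0 ≤ b1 - 1 ∧ 0 ≤ -n2 + b2 - n3 + b3 ∧ 0 ≤ n2 - b2 + n3 - b3 ∧ 0 ≤ d1 + p0 + 1 ∧ 0 ≤ -d1 - p0 - 1 ∧ 0 ≤ n2 - b2 - 1)) ∨ (0 ≤ n3 - a3 - 2 ∨ (0 ≤ -n3 + a3 + 1 ∧ 0 ≤ n3 - a3 - 1 ∧ 0 ≤ h - p1 - 1)))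
    (D29 : ((0 ≤ b1 - 1 ∧ 0 ≤ -d1 - p0 - 2) ∨ (0 ≤ b1 - 1 ∧ 0 ≤ d1 + p0 + 1 ∧ 0 ≤ -d1 - p0 - 1 ∧ 0 ≤ n2 - b2 + n3 - b3 - 1) ∨ (0 ≤ b1 - 1 ∧ 0 ≤ d1 + p0 + 1 ∧ 0 ≤ -d1 - p0 - 1 ∧ 0 ≤ -n2 + b2 - n3 + b3 ∧ 0 ≤ n2 - b2 + n3 - b3 ∧ 0 ≤ n2 - b2 - 1)) ∨ (0 ≤ h - p1 - 1 ∨ (0 ≤ -h + p1 ∧ 0 ≤ h - p1 ∧ 0 ≤ n3 - a3 - 2)) ∨ (0 ≤ h3 - d1 - 1)) : False := by
  have E1 := D1
  have E2 := D2
  have E4 := D4
  have E5 := D5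
  have E6 := D6
  have E11 := D11
  have E15 := D15
  have E21 : (0 ≤ n3 - a3 - 1 ∧ 0 ≤ d1 - p3) := by
    rcases D21 with H21 | H21
    · exact H21
    · linarith only [B19, B11, B15, H21.1, B18]
  have E24 : 0 ≤ -h ∨ 0 ≤ -g := by
    rcases D24 with H24 | H24 | H24
    · exact Or.inl H24
    · exact Or.inr H24
    · linarith only [B19, B11, B15, H24, B18]
  have E25 := D25
  have E26 := D26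
  have E27 := D27
  have E28 : (0 ≤ b1 - 1 ∧ 0 ≤ n2 - b2 + n3 - b3 - 1) ∨ (0 ≤ b1 - 1 ∧ 0 ≤ -n2 + b2 - n3 + b3 ∧ 0 ≤ n2 - b2 + n3 - b3 ∧ 0 ≤ -d1 - p0 - 2) ∨ 0 ≤ n3 - a3 - 2 ∨ (0 ≤ -n3 + a3 + 1 ∧ 0 ≤ n3 - a3 - 1 ∧ 0 ≤ h - p1 - 1) := by
    rcases D28 with (H28 | H28 | H28) | (H28 | H28)
    · exact Or.inl H28
    · exact Or.inr (Or.inl H28)
    · linarith only [H28.2.2.2.2.2, B11, H28.2.1]
    · exact Or.inr (Or.inr (Or.inl H28))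
    · exact Or.inr (Or.inr (Or.inr H28))
  have E29 : (0 ≤ b1 - 1 ∧ 0 ≤ -d1 - p0 - 2) ∨ (0 ≤ b1 - 1 ∧ 0 ≤ d1 + p0 + 1 ∧ 0 ≤ -d1 - p0 - 1 ∧ 0 ≤ n2 - b2 + n3 - b3 - 1) ∨ 0 ≤ h - p1 - 1 ∨ (0 ≤ -h + p1 ∧ 0 ≤ h - p1 ∧ 0 ≤ n3 - a3 - 2) ∨ 0 ≤ h3 - d1 - 1 := by
    rcases D29 with (H29 | H29 | H29) | (H29 | H29) | H29
    · exact Or.inl H29
    · exact Or.inr (Or.inl H29)
    · linarith only [H29.2.2.2.2.2, B11, H29.2.2.2.1]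
    · exact Or.inr (Or.inr (Or.inl H29))
    · exact Or.inr (Or.inr (Or.inr (Or.inl H29)))
    · exact Or.inr (Or.inr (Or.inr (Or.inr H29)))
  have H21 := E21
  rcases E11 with H11 | H11
  · rcases E25 with H25 | H25 | H25
    · rcases E2 with H2 | H2
      · linarith only [B25, B35, B28, H25, H2]
      · linarith only [B25, B1, B35, H25, H2]
    · rcases E4 with H4 | H4
      · linarith only [B25, B10, B16, B28, B21, B35, H25, H4]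
      · rcases E24 with H24 | H24
        · rcases E2 with H2 | H2
          · linarith only [H24, B28, B35, B25, H2]
          · linarith only [B29, H2, H24, B35, H25, B25, H4]
        · rcases E5 with H5 | H5
          · linarith only [B21, B10, H24, B16, B25, H5]
          · linarith only [B31, H24, H5, B34]
    · linarith only [H11.1, H25]
  · rcases E1 with H1 | H1
    · rcases E15 with H15 | H15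
      · rcases E24 with H24 | H24
        · rcases E2 with H2 | H2
          · linarith only [H24, B28, B35, B25, H2]
          · rcases E26 with H26 | H26 | H26 | H26
            · rcases E28 with H28 | H28 | H28 | H28
              · linarith only [H28.1, H26]
              · linarith only [H15.1, H28.2.1]
              · linarith only [H28, H11.1]
              · linarith only [H24, H28.2.2, H11.2]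
            · linarith only [H1.1, H26, B25, H2]
            · linarith only [B19, B15, H15.1, H26, H11.1, B18]
            · linarith only [H15.1, H26, H21.1]
        · rcases E5 with H5 | H5
          · linarith only [B21, B19, B18, H15.1, H24, B25, H11.1, H5]
          · linarith only [B31, H5, H24, B34]
      · rcases E6 with H6 | H6
        · linarith only [H6.1, H15.1]
        · rcases E24 with H24 | H24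
          · rcases E28 with H28 | H28 | H28 | H28
            · rcases E27 with H27 | H27 | H27 | H27
              · linarith only [H28.1, H27]
              · rcases E29 with H29 | H29 | H29 | H29 | H29
                · linarith only [H29.2, H6.2]
                · linarith only [H29.2.2.1, H6.2]
                · linarith only [H24, H29, H11.2]
                · linarith only [H29.2.2, H11.1]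
                · linarith only [H29, H27]
              · linarith only [B19, B15, B18, H27, H28.2, H11.1, B34]
              · linarith only [H28.2, H27]
            · linarith only [H28.2.2.2, H6.2]
            · linarith only [H28, H11.1]
            · linarith only [H24, H28.2.2, H11.2]
          · rcases E5 with H5 | H5
            · linarith only [B25, B10, B16, B21, H24, H5]
            · linarith only [B31, H5, H24, B34]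
    · linarith only [B19, H1.2, B15, H11.1, B18]

theorem g6 {b1 b2 b3 d1 g n2 n3 p0 : ℤ}
    (B10 : 0 ≤ n2 - b2)
    (B25 : 0 ≤ d1 - 2)
    (B35 : 0 ≤ g - 1)
    (B36 : 0 ≤ b1 - 1)
    (B37 : 0 ≤ -d1 - p0 - 1)
    (D6 : (0 ≤ n2 - b2 + n3 - b3 - 2 ∧ 0 ≤ -2 * d1 - p0) ∨ (0 ≤ -n2 + b2 - n3 + b3 + 1 ∧ 0 ≤ p0 + d1))
    (D23 : 0 ≤ -b1 ∨ 0 ≤ -d1 + 1 ∨ 0 ≤ -n2 + b2 - g ∨ 0 ≤ -n2 + b2 - n3 + b3 + 1) : False := by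
  have E6 : (0 ≤ n2 - b2 + n3 - b3 - 2 ∧ 0 ≤ -2 * d1 - p0) := by
    rcases D6 with H6 | H6
    · exact H6
    · linarith only [B37, H6.2]
  have E23 : 0 ≤ -n2 + b2 - n3 + b3 + 1 := by
    rcases D23 with H23 | H23 | H23 | H23
    · linarith only [B36, H23]
    · linarith only [B25, H23]
    · linarith only [B10, H23, B35]
    · exact H23
  have H23 := E23
  have H6 := E6
  linarith only [H6.1, H23]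

theorem g7 {a1 a2 a3 b1 b2 b3 d1 g h n1 n3 p1 y : ℤ}
    (B1 : 0 ≤ a2)
    (B6 : 0 ≤ n1 - a1)
    (B11 : 0 ≤ n3 - b3)
    (B15 : 0 ≤ a1 + a2 - b1 - b2)
    (B18 : 0 ≤ -a1 - a2 - a3 + b1 + b2 + b3 - y)
    (B19 : 0 ≤ y - 1)
    (B25 : 0 ≤ d1 - 2)
    (B35 : 0 ≤ g - 1)
    (B37 : 0 ≤ h - p1 - 1)
    (D2 : 0 ≤ h - n1 + a1 ∨ 0 ≤ h - a2 + 1)
    (D11 : (0 ≤ n3 - a3 - 2 ∧ 0 ≤ -d1 - p1) ∨ (0 ≤ -n3 + a3 + 1 ∧ 0 ≤ p1))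
    (D22 : 0 ≤ -h - d1 ∨ 0 ≤ -g ∨ 0 ≤ -n3 + a3 + 1)
    (D23 : 0 ≤ -h ∨ 0 ≤ -g ∨ 0 ≤ -n3 + a3) : False := by
  have E2 := D2
  have E11 := D11
  have E22 : 0 ≤ -h - d1 ∨ 0 ≤ -n3 + a3 + 1 := by
    rcases D22 with H22 | H22 | H22
    · exact Or.inl H22
    · linarith only [H22, B35]
    · exact Or.inr H22
  have E23 : 0 ≤ -h := by
    rcases D23 with H23 | H23 | H23
    · exact H23
    · linarith only [H23, B35]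
    · linarith only [B19, B11, B15, H23, B18]
  have H23 := E23
  rcases E11 with H11 | H11
  · rcases E22 with H22 | H22
    · rcases E2 with H2 | H2
      · linarith only [B25, B6, H2, H22]
      · linarith only [B25, B1, H22, H2]
    · linarith only [H11.1, H22]
  · linarith only [H11.2, B37, H23]

theorem g8 {a1 a2 a3 b1 b2 b3 d1 g h h3 k n1 n2 n3 p0 p1 p3 y : ℤ}
    (B1 : 0 ≤ a2)
    (B10 : 0 ≤ n2 - b2)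
    (B11 : 0 ≤ n3 - b3)
    (B15 : 0 ≤ a1 + a2 - b1 - b2)
    (B18 : 0 ≤ -a1 - a2 - a3 + b1 + b2 + b3 - y)
    (B19 : 0 ≤ y - 1)
    (B25 : 0 ≤ d1 - 2)
    (B28 : 0 ≤ n1 - a1 - h3)
    (B29 : 0 ≤ a2 + a3 - h3 - 1)
    (B32 : 0 ≤ n2 - a2 - g - 1)
    (B35 : 0 ≤ g - 1)
    (B36 : 0 ≤ h3 - d1)
    (D1 : (0 ≤ a2 - 1 ∧ 0 ≤ n3 - a3 - 1) ∨ (0 ≤ b2 - 1 ∧ 0 ≤ n3 - b3 - 1))
    (D2 : 0 ≤ h - n1 + a1 ∨ 0 ≤ h - a2 + 1)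
    (D4 : 0 ≤ k - n1 + a1 - n2 + a2 ∨ 0 ≤ k - a3 + 1)
    (D6 : (0 ≤ n2 - b2 + n3 - b3 - 2 ∧ 0 ≤ -2 * d1 - p0) ∨ (0 ≤ -n2 + b2 - n3 + b3 + 1 ∧ 0 ≤ p0 + d1))
    (D11 : (0 ≤ n3 - a3 - 2 ∧ 0 ≤ -d1 - p1) ∨ (0 ≤ -n3 + a3 + 1 ∧ 0 ≤ p1))
    (D21 : (0 ≤ n3 - a3 - 1 ∧ 0 ≤ d1 - p3) ∨ (0 ≤ -n3 + a3 ∧ 0 ≤ p3 - 2 * d1))
    (D23 : 0 ≤ -h ∨ 0 ≤ -g ∨ 0 ≤ -n3 + a3)
    (D24 : 0 ≤ -h - h3 - 1 ∨ 0 ≤ -k ∨ 0 ≤ -n3 + a3 + 1)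
    (D25 : 0 ≤ -b1 ∨ 0 ≤ -h - d1 ∨ 0 ≤ -n2 + b2 + 1 ∨ 0 ≤ -n2 + b2 - 2 * n3 + b3 + a3 + 2)
    (D26 : 0 ≤ -b1 ∨ 0 ≤ d1 - h3 ∨ 0 ≤ -n2 + b2 - k ∨ 0 ≤ -n2 + b2 - n3 + b3)
    (D27 : ((0 ≤ b1 - 1 ∧ 0 ≤ n2 - b2 + n3 - b3 - 1) ∨ (0 ≤ b1 - 1 ∧ 0 ≤ -n2 + b2 - n3 + b3 ∧ 0 ≤ n2 - b2 + n3 - b3 ∧ 0 ≤ -d1 - p0 - 2) ∨ (0 ≤ b1 - 1 ∧ 0 ≤ -n2 + b2 - n3 + b3 ∧ 0 ≤ n2 - b2 + n3 - b3 ∧ 0 ≤ d1 + p0 + 1 ∧ 0 ≤ -d1 - p0 - 1 ∧ 0 ≤ n2 - b2 - 1)) ∨ (0 ≤ n3 - a3 - 2 ∨ (0 ≤ -n3 + a3 + 1 ∧ 0 ≤ n3 - a3 - 1 ∧ 0 ≤ h - p1 - 1)))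
    (D28 : ((0 ≤ b1 - 1 ∧ 0 ≤ -d1 - p0 - 2) ∨ (0 ≤ b1 - 1 ∧ 0 ≤ d1 + p0 + 1 ∧ 0 ≤ -d1 - p0 - 1 ∧ 0 ≤ n2 - b2 + n3 - b3 - 1) ∨ (0 ≤ b1 - 1 ∧ 0 ≤ d1 + p0 + 1 ∧ 0 ≤ -d1 - p0 - 1 ∧ 0 ≤ -n2 + b2 - n3 + b3 ∧ 0 ≤ n2 - b2 + n3 - b3 ∧ 0 ≤ n2 - b2 - 1)) ∨ (0 ≤ h - p1 - 1 ∨ (0 ≤ -h + p1 ∧ 0 ≤ h - p1 ∧ 0 ≤ n3 - a3 - 2)) ∨ (0 ≤ h3 - d1 - 1)) : False := by
  have E1 := D1
  have E2 := D2
  have E4 := D4
  have E6 := D6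
  have E11 := D11
  have E21 : (0 ≤ n3 - a3 - 1 ∧ 0 ≤ d1 - p3) := by
    rcases D21 with H21 | H21
    · exact H21
    · linarith only [B19, B11, B15, H21.1, B18]
  have E23 : 0 ≤ -h := by
    rcases D23 with H23 | H23 | H23
    · exact H23
    · linarith only [H23, B35]
    · linarith only [B19, B11, B15, H23, B18]
  have E24 := D24
  have E25 := D25
  have E26 := D26
  have E27 : (0 ≤ b1 - 1 ∧ 0 ≤ n2 - b2 + n3 - b3 - 1) ∨ (0 ≤ b1 - 1 ∧ 0 ≤ -n2 + b2 - n3 + b3 ∧ 0 ≤ n2 - b2 + n3 - b3 ∧ 0 ≤ -d1 - p0 - 2) ∨ 0 ≤ n3 - a3 - 2 ∨ (0 ≤ -n3 + a3 + 1 ∧ 0 ≤ n3 - a3 - 1 ∧ 0 ≤ h - p1 - 1) := by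
    rcases D27 with (H27 | H27 | H27) | (H27 | H27)
    · exact Or.inl H27
    · exact Or.inr (Or.inl H27)
    · linarith only [H27.2.2.2.2.2, B11, H27.2.1]
    · exact Or.inr (Or.inr (Or.inl H27))
    · exact Or.inr (Or.inr (Or.inr H27))
  have E28 : (0 ≤ b1 - 1 ∧ 0 ≤ -d1 - p0 - 2) ∨ (0 ≤ b1 - 1 ∧ 0 ≤ d1 + p0 + 1 ∧ 0 ≤ -d1 - p0 - 1 ∧ 0 ≤ n2 - b2 + n3 - b3 - 1) ∨ 0 ≤ h - p1 - 1 ∨ (0 ≤ -h + p1 ∧ 0 ≤ h - p1 ∧ 0 ≤ n3 - a3 - 2) ∨ 0 ≤ h3 - d1 - 1 := by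
    rcases D28 with (H28 | H28 | H28) | (H28 | H28) | H28
    · exact Or.inl H28
    · exact Or.inr (Or.inl H28)
    · linarith only [H28.2.2.2.2.2, B11, H28.2.2.2.1]
    · exact Or.inr (Or.inr (Or.inl H28))
    · exact Or.inr (Or.inr (Or.inr (Or.inl H28)))
    · exact Or.inr (Or.inr (Or.inr (Or.inr H28)))
  have H23 := E23
  rcases E2 with H2 | H2
  · linarith only [B25, H23, B28, B36, H2]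
  · have H21 := E21
    rcases E11 with H11 | H11
    · rcases E24 with H24 | H24 | H24
      · linarith only [B25, B1, B36, H24, H2]
      · rcases E4 with H4 | H4
        · linarith only [B25, B35, B32, B28, B36, H24, H4]
        · linarith only [B25, B29, H2, H23, B36, H24, H4]
      · linarith only [H11.1, H24]
    · rcases E1 with H1 | H1
      · rcases E6 with H6 | H6
        · rcases E25 with H25 | H25 | H25 | H25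
          · rcases E27 with H27 | H27 | H27 | H27
            · linarith only [H27.1, H25]
            · linarith only [H6.1, H27.2.1]
            · linarith only [H27, H11.1]
            · linarith only [H23, H27.2.2, H11.2]
          · linarith only [H1.1, H25, B25, H2]
          · linarith only [B19, B15, H6.1, H25, H11.1, B18]
          · linarith only [H6.1, H25, H21.1]
        · rcases E27 with H27 | H27 | H27 | H27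
          · rcases E28 with H28 | H28 | H28 | H28 | H28
            · linarith only [H28.2, H6.2]
            · linarith only [H28.2.2.1, H6.2]
            · linarith only [H23, H28, H11.2]
            · linarith only [H28.2.2, H11.1]
            · rcases E26 with H26 | H26 | H26 | H26
              · linarith only [H27.1, H26]
              · linarith only [H28, H26]
              · rcases E4 with H4 | H4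
                · linarith only [B25, B10, B35, B32, B28, H28, H26, H4]
                · linarith only [B25, B29, H2, B19, B15, B18, H23, H28, H26, H27.2, H11.1, H4]
              · linarith only [H27.2, H26]
          · linarith only [H27.2.2.2, H6.2]
          · linarith only [H27, H11.1]
          · linarith only [H23, H27.2.2, H11.2]
      · linarith only [B19, H1.2, B15, H11.1, B18]

theorem los11 {n1 n2 n3 a1 a2 a3 b1 b2 b3 y d1 : ℤ}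
    (B0 : 0 ≤ a1)
    (B1 : 0 ≤ a2)
    (B2 : 0 ≤ a3)
    (B3 : 0 ≤ b1)
    (B4 : 0 ≤ b2)
    (B5 : 0 ≤ b3)
    (B6 : 0 ≤ n1 - a1)
    (B7 : 0 ≤ n2 - a2)
    (B8 : 0 ≤ n3 - a3)
    (B9 : 0 ≤ n1 - b1)
    (B10 : 0 ≤ n2 - b2)
    (B11 : 0 ≤ n3 - b3)
    (B12 : 0 ≤ n1 - 1)
    (B13 : 0 ≤ n2 - 1)
    (B14 : 0 ≤ n3 - 1)
    (B15 : 0 ≤ a1 + a2 - b1 - b2)
    (B16 : 0 ≤ -a1 - a2 + b1 + b2)
    (B17 : 0 ≤ y + a1 + a2 + a3 - b1 - b2 - b3)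
    (B18 : 0 ≤ -a1 - a2 - a3 + b1 + b2 + b3 - y)
    (B19 : 0 ≤ y - 1)
    (B20 : 0 ≤ d1 - a1 + b1)
    (B21 : 0 ≤ a1 - b1 - d1)
    (B22 : 0 ≤ d1 - 1)
    (B23 : 0 ≤ y - 1)
    (B24 : 0 ≤ -y + 1)
    (B25 : 0 ≤ d1 - 2)
    (hex : 0 ≤ b1 - 1) :
    LosC n1 n2 n3 a1 a2 a3 b1 b2 b3 (d1 + 1) (-n2 + b2 + 1) (-n2 + b2 - n3 + b3) := by
  unfold LosC
  refine ⟨?_, ?_, ?_, ?_, ?_, ?_, ?_, ?_⟩ <;> omega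

theorem los22 {n1 n2 n3 a1 a2 a3 b1 b2 b3 y d1 h : ℤ}
    (B0 : 0 ≤ a1)
    (B1 : 0 ≤ a2)
    (B2 : 0 ≤ a3)
    (B3 : 0 ≤ b1)
    (B4 : 0 ≤ b2)
    (B5 : 0 ≤ b3)
    (B6 : 0 ≤ n1 - a1)
    (B7 : 0 ≤ n2 - a2)
    (B8 : 0 ≤ n3 - a3)
    (B9 : 0 ≤ n1 - b1)
    (B10 : 0 ≤ n2 - b2)
    (B11 : 0 ≤ n3 - b3)
    (B12 : 0 ≤ n1 - 1)
    (B13 : 0 ≤ n2 - 1)
    (B14 : 0 ≤ n3 - 1)
    (B15 : 0 ≤ a1 + a2 - b1 - b2)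
    (B16 : 0 ≤ -a1 - a2 + b1 + b2)
    (B17 : 0 ≤ y + a1 + a2 + a3 - b1 - b2 - b3)
    (B18 : 0 ≤ -a1 - a2 - a3 + b1 + b2 + b3 - y)
    (B19 : 0 ≤ y - 1)
    (B20 : 0 ≤ d1 - a1 + b1)
    (B21 : 0 ≤ a1 - b1 - d1)
    (B22 : 0 ≤ d1 - 1)
    (B23 : 0 ≤ y - 1)
    (B24 : 0 ≤ -y + 1)
    (B25 : 0 ≤ d1 - 2)
    (B26 : 0 ≤ n1 - a1 - h)
    (B27 : 0 ≤ a2 - h - 1)
    (C_Dh : 0 ≤ h - n1 + a1 ∨ 0 ≤ h - a2 + 1) :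
    LosC n1 n2 n3 a1 a2 a3 b1 b2 b3 (-h) (1) (-n3 + a3 + 1) := by
  unfold LosC
  refine ⟨?_, ?_, ?_, ?_, ?_, ?_, ?_, ?_⟩ <;> omega

theorem los33 {n1 n2 n3 a1 a2 a3 b1 b2 b3 y d1 h3 k : ℤ}
    (B0 : 0 ≤ a1)
    (B1 : 0 ≤ a2)
    (B2 : 0 ≤ a3)
    (B3 : 0 ≤ b1)
    (B4 : 0 ≤ b2)
    (B5 : 0 ≤ b3)
    (B6 : 0 ≤ n1 - a1)
    (B7 : 0 ≤ n2 - a2)
    (B8 : 0 ≤ n3 - a3)
    (B9 : 0 ≤ n1 - b1)
    (B10 : 0 ≤ n2 - b2)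
    (B11 : 0 ≤ n3 - b3)
    (B12 : 0 ≤ n1 - 1)
    (B13 : 0 ≤ n2 - 1)
    (B14 : 0 ≤ n3 - 1)
    (B15 : 0 ≤ a1 + a2 - b1 - b2)
    (B16 : 0 ≤ -a1 - a2 + b1 + b2)
    (B17 : 0 ≤ y + a1 + a2 + a3 - b1 - b2 - b3)
    (B18 : 0 ≤ -a1 - a2 - a3 + b1 + b2 + b3 - y)
    (B19 : 0 ≤ y - 1)
    (B20 : 0 ≤ d1 - a1 + b1)
    (B21 : 0 ≤ a1 - b1 - d1)
    (B22 : 0 ≤ d1 - 1)
    (B23 : 0 ≤ y - 1)
    (B24 : 0 ≤ -y + 1)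
    (B25 : 0 ≤ d1 - 2)
    (B28 : 0 ≤ n1 - a1 - h3)
    (B29 : 0 ≤ a2 + a3 - h3 - 1)
    (B30 : 0 ≤ n1 - a1 + n2 - a2 - k)
    (B31 : 0 ≤ a3 - k - 1)
    (C_Dh3 : 0 ≤ h3 - n1 + a1 ∨ 0 ≤ h3 - a2 - a3 + 1)
    (C_Dk : 0 ≤ k - n1 + a1 - n2 + a2 ∨ 0 ≤ k - a3 + 1) :
    LosC n1 n2 n3 a1 a2 a3 b1 b2 b3 (-h3) (-k) (1) := by
  unfold LosC
  refine ⟨?_, ?_, ?_, ?_, ?_, ?_, ?_, ?_⟩ <;> omega

theorem los13 {n1 n2 n3 a1 a2 a3 b1 b2 b3 y d1 g : ℤ}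
    (B0 : 0 ≤ a1)
    (B1 : 0 ≤ a2)
    (B2 : 0 ≤ a3)
    (B3 : 0 ≤ b1)
    (B4 : 0 ≤ b2)
    (B5 : 0 ≤ b3)
    (B6 : 0 ≤ n1 - a1)
    (B7 : 0 ≤ n2 - a2)
    (B8 : 0 ≤ n3 - a3)
    (B9 : 0 ≤ n1 - b1)
    (B10 : 0 ≤ n2 - b2)
    (B11 : 0 ≤ n3 - b3)
    (B12 : 0 ≤ n1 - 1)
    (B13 : 0 ≤ n2 - 1)
    (B14 : 0 ≤ n3 - 1)
    (B15 : 0 ≤ a1 + a2 - b1 - b2)
    (B16 : 0 ≤ -a1 - a2 + b1 + b2)
    (B17 : 0 ≤ y + a1 + a2 + a3 - b1 - b2 - b3)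
    (B18 : 0 ≤ -a1 - a2 - a3 + b1 + b2 + b3 - y)
    (B19 : 0 ≤ y - 1)
    (B20 : 0 ≤ d1 - a1 + b1)
    (B21 : 0 ≤ a1 - b1 - d1)
    (B22 : 0 ≤ d1 - 1)
    (B23 : 0 ≤ y - 1)
    (B24 : 0 ≤ -y + 1)
    (B25 : 0 ≤ d1 - 2)
    (B32 : 0 ≤ n2 - a2 - g - 1)
    (B33 : 0 ≤ a3 - g)
    (C_Dg : 0 ≤ g - n2 + a2 + 1 ∨ 0 ≤ g - a3) :
    LosC n1 n2 n3 a1 a2 a3 b1 b2 b3 (1) (-g) (0) := by
  unfold LosC
  refine ⟨?_, ?_, ?_, ?_, ?_, ?_, ?_, ?_⟩ <;> omega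

theorem hd {n1 n2 n3 a1 a2 a3 b1 b2 b3 y d1 h h3 k g : ℤ}
    (B0 : 0 ≤ a1)
    (B1 : 0 ≤ a2)
    (B2 : 0 ≤ a3)
    (B3 : 0 ≤ b1)
    (B4 : 0 ≤ b2)
    (B5 : 0 ≤ b3)
    (B6 : 0 ≤ n1 - a1)
    (B7 : 0 ≤ n2 - a2)
    (B8 : 0 ≤ n3 - a3)
    (B9 : 0 ≤ n1 - b1)
    (B10 : 0 ≤ n2 - b2)
    (B11 : 0 ≤ n3 - b3)
    (B12 : 0 ≤ n1 - 1)
    (B13 : 0 ≤ n2 - 1)
    (B14 : 0 ≤ n3 - 1)
    (B15 : 0 ≤ a1 + a2 - b1 - b2)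
    (B16 : 0 ≤ -a1 - a2 + b1 + b2)
    (B17 : 0 ≤ y + a1 + a2 + a3 - b1 - b2 - b3)
    (B18 : 0 ≤ -a1 - a2 - a3 + b1 + b2 + b3 - y)
    (B19 : 0 ≤ y - 1)
    (B20 : 0 ≤ d1 - a1 + b1)
    (B21 : 0 ≤ a1 - b1 - d1)
    (B22 : 0 ≤ d1 - 1)
    (B23 : 0 ≤ y - 1)
    (B24 : 0 ≤ -y + 1)
    (B25 : 0 ≤ d1 - 2)
    (B26 : 0 ≤ n1 - a1 - h)
    (B27 : 0 ≤ a2 - h - 1)
    (B28 : 0 ≤ n1 - a1 - h3)
    (B29 : 0 ≤ a2 + a3 - h3 - 1)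
    (B30 : 0 ≤ n1 - a1 + n2 - a2 - k)
    (B31 : 0 ≤ a3 - k - 1)
    (B32 : 0 ≤ n2 - a2 - g - 1)
    (B33 : 0 ≤ a3 - g)
    (C_Dh : 0 ≤ h - n1 + a1 ∨ 0 ≤ h - a2 + 1)
    (C_Dh3 : 0 ≤ h3 - n1 + a1 ∨ 0 ≤ h3 - a2 - a3 + 1)
    (C_Dk : 0 ≤ k - n1 + a1 - n2 + a2 ∨ 0 ≤ k - a3 + 1)
    (C_Dg : 0 ≤ g - n2 + a2 + 1 ∨ 0 ≤ g - a3) :
    ∀ c1 c2 c3, LosC n1 n2 n3 a1 a2 a3 b1 b2 b3 c1 c2 c3 →
      ∃ v ∈ ([⟨0 ≤ b1 - 1, d1 + 1, -n2 + b2 + 1, -n2 + b2 - n3 + b3⟩, ⟨True, -h, 1, -n3 + a3 + 1⟩, ⟨True, -h3, -k, 1⟩, ⟨True, 1, -g, 0⟩] : List LV), v.ex ∧ v.c1 ≤ c1 ∧ v.c2 ≤ c2 ∧ v.c3 ≤ c3 := by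
  intro c1 c2 c3 hc
  obtain ⟨q1, q2, q3, q4, q5, q6, qa, qb⟩ := hc
  rcases qb with qb | qb | qb
  · clear qa
    clear C_Dh C_Dh3 C_Dk C_Dg
    refine ⟨_, List.Mem.head _, ?_, ?_, ?_, ?_⟩
    · show 0 ≤ b1 - 1; omega
    · show d1 + 1 ≤ c1; omega
    · show -n2 + b2 + 1 ≤ c2; omega
    · show -n2 + b2 - n3 + b3 ≤ c3; omega
  · clear qa
    clear C_Dh3 C_Dk C_Dg
    refine ⟨_, List.Mem.tail _ (List.Mem.head _), ?_, ?_, ?_, ?_⟩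
    · trivial
    · show -h ≤ c1; omega
    · show 1 ≤ c2; omega
    · show -n3 + a3 + 1 ≤ c3; omega
  · rcases qa with qa | qa | qa
    · clear C_Dh C_Dh3 C_Dk
      refine ⟨_, List.Mem.tail _ (List.Mem.tail _ (List.Mem.tail _ (List.Mem.head _))), ?_, ?_, ?_, ?_⟩
      · trivial
      · show 1 ≤ c1; omega
      · show -g ≤ c2; omega
      · show 0 ≤ c3; omega
    · clear C_Dh3 C_Dk C_Dg
      refine ⟨_, List.Mem.tail _ (List.Mem.head _), ?_, ?_, ?_, ?_⟩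
      · trivial
      · show -h ≤ c1; omega
      · show 1 ≤ c2; omega
      · show -n3 + a3 + 1 ≤ c3; omega
    · clear C_Dh C_Dg
      refine ⟨_, List.Mem.tail _ (List.Mem.tail _ (List.Mem.head _)), ?_, ?_, ?_, ?_⟩
      · trivial
      · show -h3 ≤ c1; omega
      · show -k ≤ c2; omega
      · show 1 ≤ c3; omega

theorem cvF_V1_V2_11 {b1 b2 b3 d1 n2 n3 p0 : ℤ}
    (ep0 : p0 = (d1) * (-n2 + b2 - n3 + b3))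
    (hex : 0 ≤ b1 - 1)
    (hf : LexFail ((0) * (d1 + 1) + (1) * (-n2 + b2 + 1) + (0) * (-n2 + b2 - n3 + b3))
      ((1) * (d1 + 1) + (0) * (-n2 + b2 + 1) + (d1) * (-n2 + b2 - n3 + b3))
      ((0) * (d1 + 1) + (0) * (-n2 + b2 + 1) + (0) * (-n2 + b2 - n3 + b3))) :
    0 ≤ b1 - 1 ∧ 0 ≤ n2 - b2 - 1 ∧ (0 ≤ n2 - b2 - 2 ∨ 0 ≤ -d1 - p0 - 1) := by
  rcases hf with hf | ⟨hf0, hf⟩ | ⟨hf0, hf1, hf⟩
  · exact ⟨by linarith only [hex], by linarith only [hf], Or.inl (by linarith only [hf])⟩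
  · exact ⟨by linarith only [hex], by linarith only [hf0], Or.inr (by linarith only [hf, ep0])⟩
  · exact ⟨by linarith only [hex], by linarith only [hf0], Or.inr (by linarith only [hf1, ep0])⟩

theorem cvF_V1_V2_22 {a3 d1 h n3 p1 : ℤ}
    (ep1 : p1 = (d1) * (-n3 + a3 + 1))
    (hf : LexFail ((0) * (-h) + (1) * (1) + (0) * (-n3 + a3 + 1))
      ((1) * (-h) + (0) * (1) + (d1) * (-n3 + a3 + 1))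
      ((0) * (-h) + (0) * (1) + (0) * (-n3 + a3 + 1))) :
    False := by
  rcases hf with hf | ⟨hf0, hf⟩ | ⟨hf0, hf1, hf⟩
  · exfalso; linarith only [hf]
  · exfalso; linarith only [hf0]
  · exfalso; linarith only [hf0]

theorem cvF_V1_V2_33 {d1 h3 k : ℤ}
    (hf : LexFail ((0) * (-h3) + (1) * (-k) + (0) * (1))
      ((1) * (-h3) + (0) * (-k) + (d1) * (1))
      ((0) * (-h3) + (0) * (-k) + (0) * (1))) :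
    0 ≤ k ∧ (0 ≤ k - 1 ∨ 0 ≤ h3 - d1) := by
  rcases hf with hf | ⟨hf0, hf⟩ | ⟨hf0, hf1, hf⟩
  · exact ⟨by linarith only [hf], Or.inl (by linarith only [hf])⟩
  · exact ⟨by linarith only [hf0], Or.inr (by linarith only [hf])⟩
  · exact ⟨by linarith only [hf0], Or.inr (by linarith only [hf1])⟩

theorem cvF_V1_V2_13 {d1 g : ℤ}
    (hf : LexFail ((0) * (1) + (1) * (-g) + (0) * (0))
      ((1) * (1) + (0) * (-g) + (d1) * (0))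
      ((0) * (1) + (0) * (-g) + (0) * (0))) :
    0 ≤ g ∧ 0 ≤ g - 1 := by
  rcases hf with hf | ⟨hf0, hf⟩ | ⟨hf0, hf1, hf⟩
  · exact ⟨by linarith only [hf], by linarith only [hf]⟩
  · exfalso; linarith only [hf]
  · exfalso; linarith only [hf1]

theorem FAt {n1 n2 n3 a1 a2 a3 b1 b2 b3 y d1 h h3 k g p0 p1 : ℤ}
    (B15 : 0 ≤ a1 + a2 - b1 - b2)
    (B16 : 0 ≤ -a1 - a2 + b1 + b2)
    (B17 : 0 ≤ y + a1 + a2 + a3 - b1 - b2 - b3)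
    (B18 : 0 ≤ -a1 - a2 - a3 + b1 + b2 + b3 - y)
    (B19 : 0 ≤ y - 1)
    (B20 : 0 ≤ d1 - a1 + b1)
    (B21 : 0 ≤ a1 - b1 - d1)
    (B22 : 0 ≤ d1 - 1)
    (B23 : 0 ≤ y - 1)
    (B24 : 0 ≤ -y + 1)
    (B25 : 0 ≤ d1 - 2)
    (ep0 : p0 = (d1) * (-n2 + b2 - n3 + b3))
    (ep1 : p1 = (d1) * (-n3 + a3 + 1))
    (w1 : a1 - b1 = d1) (w2 : a1 + a2 - b1 - b2 = 0) (w3 : a1 + a2 + a3 - b1 - b2 - b3 = -1)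
    (hno : ¬ ∃ u1 u2 u3 : ℤ, Good n1 n2 n3 a1 a2 a3 b1 b2 b3 u1 u2 u3)
    (hd : ∀ c1 c2 c3, LosC n1 n2 n3 a1 a2 a3 b1 b2 b3 c1 c2 c3 →
      ∃ v ∈ ([⟨0 ≤ b1 - 1, d1 + 1, -n2 + b2 + 1, -n2 + b2 - n3 + b3⟩, ⟨True, -h, 1, -n3 + a3 + 1⟩, ⟨True, -h3, -k, 1⟩, ⟨True, 1, -g, 0⟩] : List LV), v.ex ∧ v.c1 ≤ c1 ∧ v.c2 ≤ c2 ∧ v.c3 ≤ c3) :
    (0 ≤ b1 - 1 ∧ 0 ≤ n2 - b2 - 1 ∧ (0 ≤ n2 - b2 - 2 ∨ 0 ≤ -d1 - p0 - 1)) ∨ (0 ≤ k ∧ (0 ≤ k - 1 ∨ 0 ≤ h3 - d1)) ∨ (0 ≤ g ∧ 0 ≤ g - 1) := by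
  obtain ⟨v, hv, hex, hf⟩ := failA' w1 w2 w3 hno _ hd (0) (1) (0) (1) (0) (d1) (0) (0) (0)
    ⟨le_refl 0, zero_le_one, le_refl 0⟩ ⟨zero_le_one, le_refl 0, by linarith only [B15, B16, B17, B18, B19, B20, B21, B22, B23, B24, B25]⟩ ⟨le_refl 0, le_refl 0, le_refl 0⟩
    (Or.inr ⟨by ring, Or.inr ⟨by ring, by linarith only [B15, B16, B17, B18, B19, B20, B21, B22, B23, B24, B25]⟩⟩)
  simp only [List.mem_cons, List.not_mem_nil, or_false] at hv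
  rcases hv with rfl | rfl | rfl | rfl
  · exact Or.inl (cvF_V1_V2_11 ep0 hex hf)
  · exact (cvF_V1_V2_22 ep1 hf).elim
  · exact Or.inr (Or.inl (cvF_V1_V2_33 hf))
  · exact Or.inr (Or.inr (cvF_V1_V2_13 hf))

theorem cvF_V2_V1_11 {b1 b2 b3 d1 n2 n3 p0 : ℤ}
    (ep0 : p0 = (d1) * (-n2 + b2 - n3 + b3))
    (hex : 0 ≤ b1 - 1)
    (hf : LexFail ((1) * (d1 + 1) + (0) * (-n2 + b2 + 1) + (d1) * (-n2 + b2 - n3 + b3))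
      ((0) * (d1 + 1) + (1) * (-n2 + b2 + 1) + (0) * (-n2 + b2 - n3 + b3))
      ((0) * (d1 + 1) + (0) * (-n2 + b2 + 1) + (0) * (-n2 + b2 - n3 + b3))) :
    0 ≤ b1 - 1 ∧ 0 ≤ -d1 - p0 - 1 ∧ (0 ≤ -d1 - p0 - 2 ∨ 0 ≤ n2 - b2 - 1) := by
  rcases hf with hf | ⟨hf0, hf⟩ | ⟨hf0, hf1, hf⟩
  · exact ⟨by linarith only [hex], by linarith only [hf, ep0], Or.inl (by linarith only [hf, ep0])⟩
  · exact ⟨by linarith only [hex], by linarith only [hf0, ep0], Or.inr (by linarith only [hf])⟩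
  · exact ⟨by linarith only [hex], by linarith only [hf0, ep0], Or.inr (by linarith only [hf1])⟩

theorem cvF_V2_V1_22 {a3 d1 h n3 p1 : ℤ}
    (ep1 : p1 = (d1) * (-n3 + a3 + 1))
    (hf : LexFail ((1) * (-h) + (0) * (1) + (d1) * (-n3 + a3 + 1))
      ((0) * (-h) + (1) * (1) + (0) * (-n3 + a3 + 1))
      ((0) * (-h) + (0) * (1) + (0) * (-n3 + a3 + 1))) :
    0 ≤ h - p1 ∧ 0 ≤ h - p1 - 1 := by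
  rcases hf with hf | ⟨hf0, hf⟩ | ⟨hf0, hf1, hf⟩
  · exact ⟨by linarith only [hf, ep1], by linarith only [hf, ep1]⟩
  · exfalso; linarith only [hf]
  · exfalso; linarith only [hf1]

theorem cvF_V2_V1_33 {d1 h3 k : ℤ}
    (hf : LexFail ((1) * (-h3) + (0) * (-k) + (d1) * (1))
      ((0) * (-h3) + (1) * (-k) + (0) * (1))
      ((0) * (-h3) + (0) * (-k) + (0) * (1))) :
    0 ≤ h3 - d1 ∧ (0 ≤ h3 - d1 - 1 ∨ 0 ≤ k) := by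
  rcases hf with hf | ⟨hf0, hf⟩ | ⟨hf0, hf1, hf⟩
  · exact ⟨by linarith only [hf], Or.inl (by linarith only [hf])⟩
  · exact ⟨by linarith only [hf0], Or.inr (by linarith only [hf])⟩
  · exact ⟨by linarith only [hf0], Or.inr (by linarith only [hf1])⟩

theorem cvF_V2_V1_13 {d1 g : ℤ}
    (hf : LexFail ((1) * (1) + (0) * (-g) + (d1) * (0))
      ((0) * (1) + (1) * (-g) + (0) * (0))
      ((0) * (1) + (0) * (-g) + (0) * (0))) :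
    False := by
  rcases hf with hf | ⟨hf0, hf⟩ | ⟨hf0, hf1, hf⟩
  · exfalso; linarith only [hf]
  · exfalso; linarith only [hf0]
  · exfalso; linarith only [hf0]

theorem FBt {n1 n2 n3 a1 a2 a3 b1 b2 b3 y d1 h h3 k g p0 p1 : ℤ}
    (B15 : 0 ≤ a1 + a2 - b1 - b2)
    (B16 : 0 ≤ -a1 - a2 + b1 + b2)
    (B17 : 0 ≤ y + a1 + a2 + a3 - b1 - b2 - b3)
    (B18 : 0 ≤ -a1 - a2 - a3 + b1 + b2 + b3 - y)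
    (B19 : 0 ≤ y - 1)
    (B20 : 0 ≤ d1 - a1 + b1)
    (B21 : 0 ≤ a1 - b1 - d1)
    (B22 : 0 ≤ d1 - 1)
    (B23 : 0 ≤ y - 1)
    (B24 : 0 ≤ -y + 1)
    (B25 : 0 ≤ d1 - 2)
    (ep0 : p0 = (d1) * (-n2 + b2 - n3 + b3))
    (ep1 : p1 = (d1) * (-n3 + a3 + 1))
    (w1 : a1 - b1 = d1) (w2 : a1 + a2 - b1 - b2 = 0) (w3 : a1 + a2 + a3 - b1 - b2 - b3 = -1)
    (hno : ¬ ∃ u1 u2 u3 : ℤ, Good n1 n2 n3 a1 a2 a3 b1 b2 b3 u1 u2 u3)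
    (hd : ∀ c1 c2 c3, LosC n1 n2 n3 a1 a2 a3 b1 b2 b3 c1 c2 c3 →
      ∃ v ∈ ([⟨0 ≤ b1 - 1, d1 + 1, -n2 + b2 + 1, -n2 + b2 - n3 + b3⟩, ⟨True, -h, 1, -n3 + a3 + 1⟩, ⟨True, -h3, -k, 1⟩, ⟨True, 1, -g, 0⟩] : List LV), v.ex ∧ v.c1 ≤ c1 ∧ v.c2 ≤ c2 ∧ v.c3 ≤ c3) :
    (0 ≤ b1 - 1 ∧ 0 ≤ -d1 - p0 - 1 ∧ (0 ≤ -d1 - p0 - 2 ∨ 0 ≤ n2 - b2 - 1)) ∨ (0 ≤ h - p1 ∧ 0 ≤ h - p1 - 1) ∨ (0 ≤ h3 - d1 ∧ (0 ≤ h3 - d1 - 1 ∨ 0 ≤ k)) := by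
  obtain ⟨v, hv, hex, hf⟩ := failA' w1 w2 w3 hno _ hd (1) (0) (d1) (0) (1) (0) (0) (0) (0)
    ⟨zero_le_one, le_refl 0, by linarith only [B15, B16, B17, B18, B19, B20, B21, B22, B23, B24, B25]⟩ ⟨le_refl 0, zero_le_one, le_refl 0⟩ ⟨le_refl 0, le_refl 0, le_refl 0⟩
    (Or.inr ⟨by ring, Or.inr ⟨by ring, by linarith only [B15, B16, B17, B18, B19, B20, B21, B22, B23, B24, B25]⟩⟩)
  simp only [List.mem_cons, List.not_mem_nil, or_false] at hv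
  rcases hv with rfl | rfl | rfl | rfl
  · exact Or.inl (cvF_V2_V1_11 ep0 hex hf)
  · exact Or.inr (Or.inl (cvF_V2_V1_22 ep1 hf))
  · exact Or.inr (Or.inr (cvF_V2_V1_33 hf))
  · exact (cvF_V2_V1_13 hf).elim

theorem cvG_e3_V2_V1_11 {b1 b2 b3 d1 n2 n3 p0 : ℤ}
    (ep0 : p0 = (d1) * (-n2 + b2 - n3 + b3))
    (hex : 0 ≤ b1 - 1)
    (hf : LexFail ((0) * (d1 + 1) + (0) * (-n2 + b2 + 1) + (1) * (-n2 + b2 - n3 + b3))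
      ((1) * (d1 + 1) + (0) * (-n2 + b2 + 1) + (d1) * (-n2 + b2 - n3 + b3))
      ((0) * (d1 + 1) + (1) * (-n2 + b2 + 1) + (0) * (-n2 + b2 - n3 + b3))) :
    (0 ≤ b1 - 1 ∧ 0 ≤ n2 - b2 + n3 - b3 - 1) ∨ (0 ≤ b1 - 1 ∧ 0 ≤ -n2 + b2 - n3 + b3 ∧ 0 ≤ n2 - b2 + n3 - b3 ∧ 0 ≤ -d1 - p0 - 2) ∨ (0 ≤ b1 - 1 ∧ 0 ≤ -n2 + b2 - n3 + b3 ∧ 0 ≤ n2 - b2 + n3 - b3 ∧ 0 ≤ d1 + p0 + 1 ∧ 0 ≤ -d1 - p0 - 1 ∧ 0 ≤ n2 - b2 - 1) := by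
  rcases hf with hf | ⟨hf0, hf⟩ | ⟨hf0, hf1, hf⟩
  · exact Or.inl (⟨by linarith only [hex], by linarith only [hf]⟩)
  · exact Or.inr (Or.inl (⟨by linarith only [hex], by linarith only [hf0], by linarith only [hf0], by linarith only [hf, ep0]⟩))
  · exact Or.inr (Or.inr (⟨by linarith only [hex], by linarith only [hf0], by linarith only [hf0], by linarith only [hf1, ep0], by linarith only [hf1, ep0], by linarith only [hf]⟩))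

theorem cvG_e3_V2_V1_22 {a3 d1 h n3 p1 : ℤ}
    (ep1 : p1 = (d1) * (-n3 + a3 + 1))
    (hf : LexFail ((0) * (-h) + (0) * (1) + (1) * (-n3 + a3 + 1))
      ((1) * (-h) + (0) * (1) + (d1) * (-n3 + a3 + 1))
      ((0) * (-h) + (1) * (1) + (0) * (-n3 + a3 + 1))) :
    0 ≤ n3 - a3 - 2 ∨ (0 ≤ -n3 + a3 + 1 ∧ 0 ≤ n3 - a3 - 1 ∧ 0 ≤ h - p1 - 1) := by
  rcases hf with hf | ⟨hf0, hf⟩ | ⟨hf0, hf1, hf⟩
  · exact Or.inl (by linarith only [hf])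
  · exact Or.inr (⟨by linarith only [hf0], by linarith only [hf0], by linarith only [hf, ep1]⟩)
  · exfalso; linarith only [hf]

theorem cvG_e3_V2_V1_33 {d1 h3 k : ℤ}
    (hf : LexFail ((0) * (-h3) + (0) * (-k) + (1) * (1))
      ((1) * (-h3) + (0) * (-k) + (d1) * (1))
      ((0) * (-h3) + (1) * (-k) + (0) * (1))) :
    False := by
  rcases hf with hf | ⟨hf0, hf⟩ | ⟨hf0, hf1, hf⟩
  · exfalso; linarith only [hf]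
  · exfalso; linarith only [hf0]
  · exfalso; linarith only [hf0]

theorem cvG_e3_V2_V1_13 {d1 g : ℤ}
    (hf : LexFail ((0) * (1) + (0) * (-g) + (1) * (0))
      ((1) * (1) + (0) * (-g) + (d1) * (0))
      ((0) * (1) + (1) * (-g) + (0) * (0))) :
    False := by
  rcases hf with hf | ⟨hf0, hf⟩ | ⟨hf0, hf1, hf⟩
  · exfalso; linarith only [hf]
  · exfalso; linarith only [hf]
  · exfalso; linarith only [hf1]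

theorem Gt_e3_V2_V1 {n1 n2 n3 a1 a2 a3 b1 b2 b3 y d1 h h3 k g p0 p1 : ℤ}
    (B15 : 0 ≤ a1 + a2 - b1 - b2)
    (B16 : 0 ≤ -a1 - a2 + b1 + b2)
    (B17 : 0 ≤ y + a1 + a2 + a3 - b1 - b2 - b3)
    (B18 : 0 ≤ -a1 - a2 - a3 + b1 + b2 + b3 - y)
    (B19 : 0 ≤ y - 1)
    (B20 : 0 ≤ d1 - a1 + b1)
    (B21 : 0 ≤ a1 - b1 - d1)
    (B22 : 0 ≤ d1 - 1)
    (B23 : 0 ≤ y - 1)
    (B24 : 0 ≤ -y + 1)
    (B25 : 0 ≤ d1 - 2)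
    (ep0 : p0 = (d1) * (-n2 + b2 - n3 + b3))
    (ep1 : p1 = (d1) * (-n3 + a3 + 1))
    (w1 : a1 - b1 = d1) (w2 : a1 + a2 - b1 - b2 = 0) (w3 : a1 + a2 + a3 - b1 - b2 - b3 = -1)
    (hno : ¬ ∃ u1 u2 u3 : ℤ, Good n1 n2 n3 a1 a2 a3 b1 b2 b3 u1 u2 u3)
    (hd : ∀ c1 c2 c3, LosC n1 n2 n3 a1 a2 a3 b1 b2 b3 c1 c2 c3 →
      ∃ v ∈ ([⟨0 ≤ b1 - 1, d1 + 1, -n2 + b2 + 1, -n2 + b2 - n3 + b3⟩, ⟨True, -h, 1, -n3 + a3 + 1⟩, ⟨True, -h3, -k, 1⟩, ⟨True, 1, -g, 0⟩] : List LV), v.ex ∧ v.c1 ≤ c1 ∧ v.c2 ≤ c2 ∧ v.c3 ≤ c3) :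
    ((0 ≤ b1 - 1 ∧ 0 ≤ n2 - b2 + n3 - b3 - 1) ∨ (0 ≤ b1 - 1 ∧ 0 ≤ -n2 + b2 - n3 + b3 ∧ 0 ≤ n2 - b2 + n3 - b3 ∧ 0 ≤ -d1 - p0 - 2) ∨ (0 ≤ b1 - 1 ∧ 0 ≤ -n2 + b2 - n3 + b3 ∧ 0 ≤ n2 - b2 + n3 - b3 ∧ 0 ≤ d1 + p0 + 1 ∧ 0 ≤ -d1 - p0 - 1 ∧ 0 ≤ n2 - b2 - 1)) ∨ (0 ≤ n3 - a3 - 2 ∨ (0 ≤ -n3 + a3 + 1 ∧ 0 ≤ n3 - a3 - 1 ∧ 0 ≤ h - p1 - 1)) := by
  obtain ⟨v, hv, hex, hf⟩ := failA' w1 w2 w3 hno _ hd (0) (0) (1) (1) (0) (d1) (0) (1) (0)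
    ⟨le_refl 0, le_refl 0, zero_le_one⟩ ⟨zero_le_one, le_refl 0, by linarith only [B15, B16, B17, B18, B19, B20, B21, B22, B23, B24, B25]⟩ ⟨le_refl 0, zero_le_one, le_refl 0⟩
    (Or.inl (by linarith only [B15, B16, B17, B18, B19, B20, B21, B22, B23, B24, B25]))
  simp only [List.mem_cons, List.not_mem_nil, or_false] at hv
  rcases hv with rfl | rfl | rfl | rfl
  · exact Or.inl (cvG_e3_V2_V1_11 ep0 hex hf)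
  · exact Or.inr (cvG_e3_V2_V1_22 ep1 hf)
  · exact (cvG_e3_V2_V1_33 hf).elim
  · exact (cvG_e3_V2_V1_13 hf).elim

theorem cvG_V2_e3_V1_11 {b1 b2 b3 d1 n2 n3 p0 : ℤ}
    (ep0 : p0 = (d1) * (-n2 + b2 - n3 + b3))
    (hex : 0 ≤ b1 - 1)
    (hf : LexFail ((1) * (d1 + 1) + (0) * (-n2 + b2 + 1) + (d1) * (-n2 + b2 - n3 + b3))
      ((0) * (d1 + 1) + (0) * (-n2 + b2 + 1) + (1) * (-n2 + b2 - n3 + b3))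
      ((0) * (d1 + 1) + (1) * (-n2 + b2 + 1) + (0) * (-n2 + b2 - n3 + b3))) :
    (0 ≤ b1 - 1 ∧ 0 ≤ -d1 - p0 - 2) ∨ (0 ≤ b1 - 1 ∧ 0 ≤ d1 + p0 + 1 ∧ 0 ≤ -d1 - p0 - 1 ∧ 0 ≤ n2 - b2 + n3 - b3 - 1) ∨ (0 ≤ b1 - 1 ∧ 0 ≤ d1 + p0 + 1 ∧ 0 ≤ -d1 - p0 - 1 ∧ 0 ≤ -n2 + b2 - n3 + b3 ∧ 0 ≤ n2 - b2 + n3 - b3 ∧ 0 ≤ n2 - b2 - 1) := by
  rcases hf with hf | ⟨hf0, hf⟩ | ⟨hf0, hf1, hf⟩
  · exact Or.inl (⟨by linarith only [hex], by linarith only [hf, ep0]⟩)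
  · exact Or.inr (Or.inl (⟨by linarith only [hex], by linarith only [hf0, ep0], by linarith only [hf0, ep0], by linarith only [hf]⟩))
  · exact Or.inr (Or.inr (⟨by linarith only [hex], by linarith only [hf0, ep0], by linarith only [hf0, ep0], by linarith only [hf1], by linarith only [hf1], by linarith only [hf]⟩))

theorem cvG_V2_e3_V1_22 {a3 d1 h n3 p1 : ℤ}
    (ep1 : p1 = (d1) * (-n3 + a3 + 1))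
    (hf : LexFail ((1) * (-h) + (0) * (1) + (d1) * (-n3 + a3 + 1))
      ((0) * (-h) + (0) * (1) + (1) * (-n3 + a3 + 1))
      ((0) * (-h) + (1) * (1) + (0) * (-n3 + a3 + 1))) :
    0 ≤ h - p1 - 1 ∨ (0 ≤ -h + p1 ∧ 0 ≤ h - p1 ∧ 0 ≤ n3 - a3 - 2) := by
  rcases hf with hf | ⟨hf0, hf⟩ | ⟨hf0, hf1, hf⟩
  · exact Or.inl (by linarith only [hf, ep1])
  · exact Or.inr (⟨by linarith only [hf0, ep1], by linarith only [hf0, ep1], by linarith only [hf]⟩)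
  · exfalso; linarith only [hf]

theorem cvG_V2_e3_V1_33 {d1 h3 k : ℤ}
    (hf : LexFail ((1) * (-h3) + (0) * (-k) + (d1) * (1))
      ((0) * (-h3) + (0) * (-k) + (1) * (1))
      ((0) * (-h3) + (1) * (-k) + (0) * (1))) :
    0 ≤ h3 - d1 - 1 := by
  rcases hf with hf | ⟨hf0, hf⟩ | ⟨hf0, hf1, hf⟩
  · exact by linarith only [hf]
  · exfalso; linarith only [hf]
  · exfalso; linarith only [hf1]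

theorem cvG_V2_e3_V1_13 {d1 g : ℤ}
    (hf : LexFail ((1) * (1) + (0) * (-g) + (d1) * (0))
      ((0) * (1) + (0) * (-g) + (1) * (0))
      ((0) * (1) + (1) * (-g) + (0) * (0))) :
    False := by
  rcases hf with hf | ⟨hf0, hf⟩ | ⟨hf0, hf1, hf⟩
  · exfalso; linarith only [hf]
  · exfalso; linarith only [hf0]
  · exfalso; linarith only [hf0]

theorem Gt_V2_e3_V1 {n1 n2 n3 a1 a2 a3 b1 b2 b3 y d1 h h3 k g p0 p1 : ℤ}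
    (B15 : 0 ≤ a1 + a2 - b1 - b2)
    (B16 : 0 ≤ -a1 - a2 + b1 + b2)
    (B17 : 0 ≤ y + a1 + a2 + a3 - b1 - b2 - b3)
    (B18 : 0 ≤ -a1 - a2 - a3 + b1 + b2 + b3 - y)
    (B19 : 0 ≤ y - 1)
    (B20 : 0 ≤ d1 - a1 + b1)
    (B21 : 0 ≤ a1 - b1 - d1)
    (B22 : 0 ≤ d1 - 1)
    (B23 : 0 ≤ y - 1)
    (B24 : 0 ≤ -y + 1)
    (B25 : 0 ≤ d1 - 2)
    (ep0 : p0 = (d1) * (-n2 + b2 - n3 + b3))
    (ep1 : p1 = (d1) * (-n3 + a3 + 1))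
    (w1 : a1 - b1 = d1) (w2 : a1 + a2 - b1 - b2 = 0) (w3 : a1 + a2 + a3 - b1 - b2 - b3 = -1)
    (hno : ¬ ∃ u1 u2 u3 : ℤ, Good n1 n2 n3 a1 a2 a3 b1 b2 b3 u1 u2 u3)
    (hd : ∀ c1 c2 c3, LosC n1 n2 n3 a1 a2 a3 b1 b2 b3 c1 c2 c3 →
      ∃ v ∈ ([⟨0 ≤ b1 - 1, d1 + 1, -n2 + b2 + 1, -n2 + b2 - n3 + b3⟩, ⟨True, -h, 1, -n3 + a3 + 1⟩, ⟨True, -h3, -k, 1⟩, ⟨True, 1, -g, 0⟩] : List LV), v.ex ∧ v.c1 ≤ c1 ∧ v.c2 ≤ c2 ∧ v.c3 ≤ c3) :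
    ((0 ≤ b1 - 1 ∧ 0 ≤ -d1 - p0 - 2) ∨ (0 ≤ b1 - 1 ∧ 0 ≤ d1 + p0 + 1 ∧ 0 ≤ -d1 - p0 - 1 ∧ 0 ≤ n2 - b2 + n3 - b3 - 1) ∨ (0 ≤ b1 - 1 ∧ 0 ≤ d1 + p0 + 1 ∧ 0 ≤ -d1 - p0 - 1 ∧ 0 ≤ -n2 + b2 - n3 + b3 ∧ 0 ≤ n2 - b2 + n3 - b3 ∧ 0 ≤ n2 - b2 - 1)) ∨ (0 ≤ h - p1 - 1 ∨ (0 ≤ -h + p1 ∧ 0 ≤ h - p1 ∧ 0 ≤ n3 - a3 - 2)) ∨ (0 ≤ h3 - d1 - 1) := by
  obtain ⟨v, hv, hex, hf⟩ := failA' w1 w2 w3 hno _ hd (1) (0) (d1) (0) (0) (1) (0) (1) (0)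
    ⟨zero_le_one, le_refl 0, by linarith only [B15, B16, B17, B18, B19, B20, B21, B22, B23, B24, B25]⟩ ⟨le_refl 0, le_refl 0, zero_le_one⟩ ⟨le_refl 0, zero_le_one, le_refl 0⟩
    (Or.inr ⟨by ring, Or.inl (by linarith only [B15, B16, B17, B18, B19, B20, B21, B22, B23, B24, B25])⟩)
  simp only [List.mem_cons, List.not_mem_nil, or_false] at hv
  rcases hv with rfl | rfl | rfl | rfl
  · exact Or.inl (cvG_V2_e3_V1_11 ep0 hex hf)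
  · exact Or.inr (Or.inl (cvG_V2_e3_V1_22 ep1 hf))
  · exact Or.inr (Or.inr (cvG_V2_e3_V1_33 hf))
  · exact (cvG_V2_e3_V1_13 hf).elim

theorem T0_11_22 {n1 n2 n3 a1 a2 a3 b1 b2 b3 d1 h : ℤ}
    (H : NoTr n1 n2 n3 a1 a2 a3 b1 b2 b3)
    (w1 : a1 - b1 = d1) (w2 : a1 + a2 - b1 - b2 = 0) (w3 : a1 + a2 + a3 - b1 - b2 - b3 = -1)
    (l11 : 0 ≤ b1 - 1 → LosC n1 n2 n3 a1 a2 a3 b1 b2 b3 (d1 + 1) (-n2 + b2 + 1) (-n2 + b2 - n3 + b3))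
    (l22 : LosC n1 n2 n3 a1 a2 a3 b1 b2 b3 (-h) (1) (-n3 + a3 + 1))
    : 0 ≤ -b1 ∨ 0 ≤ -h - d1 ∨ 0 ≤ -n2 + b2 + 1 ∨ 0 ≤ -n2 + b2 - 2 * n3 + b3 + a3 + 2 := by
  rcases le_or_gt (b1) 0 with hb0 | hb0
  · exact Or.inl (by linarith only [hb0])
  rcases H.t0 w1 w2 w3 (l11 (by linarith only [hb0])) l22 with hq | hq | hq
  · exact Or.inr (Or.inl (by linarith only [hq]))
  · exact Or.inr (Or.inr (Or.inl (by linarith only [hq])))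
  · exact Or.inr (Or.inr (Or.inr (by linarith only [hq])))

theorem T2_11_33 {n1 n2 n3 a1 a2 a3 b1 b2 b3 d1 h3 k : ℤ}
    (H : NoTr n1 n2 n3 a1 a2 a3 b1 b2 b3)
    (l11 : 0 ≤ b1 - 1 → LosC n1 n2 n3 a1 a2 a3 b1 b2 b3 (d1 + 1) (-n2 + b2 + 1) (-n2 + b2 - n3 + b3))
    (l33 : LosC n1 n2 n3 a1 a2 a3 b1 b2 b3 (-h3) (-k) (1))
    : 0 ≤ -b1 ∨ 0 ≤ d1 - h3 ∨ 0 ≤ -n2 + b2 - k ∨ 0 ≤ -n2 + b2 - n3 + b3 := by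
  rcases le_or_gt (b1) 0 with hb0 | hb0
  · exact Or.inl (by linarith only [hb0])
  rcases H.t2 (l11 (by linarith only [hb0])) l33 with hq | hq | hq
  · exact Or.inr (Or.inl (by linarith only [hq]))
  · exact Or.inr (Or.inr (Or.inl (by linarith only [hq])))
  · exact Or.inr (Or.inr (Or.inr (by linarith only [hq])))

theorem T0_11_13 {n1 n2 n3 a1 a2 a3 b1 b2 b3 d1 g : ℤ}
    (H : NoTr n1 n2 n3 a1 a2 a3 b1 b2 b3)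
    (w1 : a1 - b1 = d1) (w2 : a1 + a2 - b1 - b2 = 0) (w3 : a1 + a2 + a3 - b1 - b2 - b3 = -1)
    (l11 : 0 ≤ b1 - 1 → LosC n1 n2 n3 a1 a2 a3 b1 b2 b3 (d1 + 1) (-n2 + b2 + 1) (-n2 + b2 - n3 + b3))
    (l13 : LosC n1 n2 n3 a1 a2 a3 b1 b2 b3 (1) (-g) (0))
    : 0 ≤ -b1 ∨ 0 ≤ -d1 + 1 ∨ 0 ≤ -n2 + b2 - g ∨ 0 ≤ -n2 + b2 - n3 + b3 + 1 := by
  rcases le_or_gt (b1) 0 with hb0 | hb0
  · exact Or.inl (by linarith only [hb0])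
  rcases H.t0 w1 w2 w3 (l11 (by linarith only [hb0])) l13 with hq | hq | hq
  · exact Or.inr (Or.inl (by linarith only [hq]))
  · exact Or.inr (Or.inr (Or.inl (by linarith only [hq])))
  · exact Or.inr (Or.inr (Or.inr (by linarith only [hq])))

theorem T2_22_33 {n1 n2 n3 a1 a2 a3 b1 b2 b3 h h3 k : ℤ}
    (H : NoTr n1 n2 n3 a1 a2 a3 b1 b2 b3)
    (l22 : LosC n1 n2 n3 a1 a2 a3 b1 b2 b3 (-h) (1) (-n3 + a3 + 1))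
    (l33 : LosC n1 n2 n3 a1 a2 a3 b1 b2 b3 (-h3) (-k) (1))
    : 0 ≤ -h - h3 - 1 ∨ 0 ≤ -k ∨ 0 ≤ -n3 + a3 + 1 := by
  rcases H.t2 l22 l33 with hq | hq | hq
  · exact Or.inl (by linarith only [hq])
  · exact Or.inr (Or.inl (by linarith only [hq]))
  · exact Or.inr (Or.inr (by linarith only [hq]))

theorem T1_22_13 {n1 n2 n3 a1 a2 a3 b1 b2 b3 d1 h g : ℤ}
    (H : NoTr n1 n2 n3 a1 a2 a3 b1 b2 b3)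
    (w1 : a1 - b1 = d1) (w2 : a1 + a2 - b1 - b2 = 0) (w3 : a1 + a2 + a3 - b1 - b2 - b3 = -1)
    (l22 : LosC n1 n2 n3 a1 a2 a3 b1 b2 b3 (-h) (1) (-n3 + a3 + 1))
    (l13 : LosC n1 n2 n3 a1 a2 a3 b1 b2 b3 (1) (-g) (0))
    : 0 ≤ -h - d1 ∨ 0 ≤ -g ∨ 0 ≤ -n3 + a3 + 1 := by
  rcases H.t1 w1 w2 w3 l22 l13 with hq | hq | hq
  · exact Or.inl (by linarith only [hq])
  · exact Or.inr (Or.inl (by linarith only [hq]))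
  · exact Or.inr (Or.inr (by linarith only [hq]))

theorem T2_22_13 {n1 n2 n3 a1 a2 a3 b1 b2 b3 h g : ℤ}
    (H : NoTr n1 n2 n3 a1 a2 a3 b1 b2 b3)
    (l22 : LosC n1 n2 n3 a1 a2 a3 b1 b2 b3 (-h) (1) (-n3 + a3 + 1))
    (l13 : LosC n1 n2 n3 a1 a2 a3 b1 b2 b3 (1) (-g) (0))
    : 0 ≤ -h ∨ 0 ≤ -g ∨ 0 ≤ -n3 + a3 := by
  rcases H.t2 l22 l13 with hq | hq | hq
  · exact Or.inl (by linarith only [hq])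
  · exact Or.inr (Or.inl (by linarith only [hq]))
  · exact Or.inr (Or.inr (by linarith only [hq]))

theorem main {n1 n2 n3 a1 a2 a3 b1 b2 b3 y d1 : ℤ}
    (B0 : 0 ≤ a1)
    (B1 : 0 ≤ a2)
    (B2 : 0 ≤ a3)
    (B3 : 0 ≤ b1)
    (B4 : 0 ≤ b2)
    (B5 : 0 ≤ b3)
    (B6 : 0 ≤ n1 - a1)
    (B7 : 0 ≤ n2 - a2)
    (B8 : 0 ≤ n3 - a3)
    (B9 : 0 ≤ n1 - b1)
    (B10 : 0 ≤ n2 - b2)
    (B11 : 0 ≤ n3 - b3)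
    (B12 : 0 ≤ n1 - 1)
    (B13 : 0 ≤ n2 - 1)
    (B14 : 0 ≤ n3 - 1)
    (B15 : 0 ≤ a1 + a2 - b1 - b2)
    (B16 : 0 ≤ -a1 - a2 + b1 + b2)
    (B17 : 0 ≤ y + a1 + a2 + a3 - b1 - b2 - b3)
    (B18 : 0 ≤ -a1 - a2 - a3 + b1 + b2 + b3 - y)
    (B19 : 0 ≤ y - 1)
    (B20 : 0 ≤ d1 - a1 + b1)
    (B21 : 0 ≤ a1 - b1 - d1)
    (B22 : 0 ≤ d1 - 1)
    (B23 : 0 ≤ y - 1)
    (B24 : 0 ≤ -y + 1)
    (B25 : 0 ≤ d1 - 2)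
    (C_c1 : (0 ≤ a1 - 1 ∧ 0 ≤ n2 - a2 - 1) ∨ (0 ≤ b1 - 1 ∧ 0 ≤ n2 - b2 - 1))
    (C_c2 : (0 ≤ a2 - 1 ∧ 0 ≤ n3 - a3 - 1) ∨ (0 ≤ b2 - 1 ∧ 0 ≤ n3 - b3 - 1))
    (H : NoTr n1 n2 n3 a1 a2 a3 b1 b2 b3)
    (hno : ¬ ∃ u1 u2 u3 : ℤ, Good n1 n2 n3 a1 a2 a3 b1 b2 b3 u1 u2 u3) : False := by
  have w1 : a1 - b1 = d1 := by linarith only [B15, B16, B17, B18, B19, B20, B21, B22, B23, B24, B25]
  have w2 : a1 + a2 - b1 - b2 = 0 := by linarith only [B15, B16, B17, B18, B19, B20, B21, B22, B23, B24, B25]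
  have w3 : a1 + a2 + a3 - b1 - b2 - b3 = -1 := by linarith only [B15, B16, B17, B18, B19, B20, B21, B22, B23, B24, B25]
  obtain ⟨h, rh1, rh2, rh3⟩ := min_facts (n1 - a1) (a2 - 1)
  have B26 : 0 ≤ n1 - a1 - h := by linarith only [rh1]
  have B27 : 0 ≤ a2 - h - 1 := by linarith only [rh2]
  have C_Dh : 0 ≤ h - n1 + a1 ∨ 0 ≤ h - a2 + 1 := rh3.imp (fun hq => by linarith only [hq]) (fun hq => by linarith only [hq])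
  clear rh1 rh2 rh3
  obtain ⟨h3, rh31, rh32, rh33⟩ := min_facts (n1 - a1) (a2 + a3 - 1)
  have B28 : 0 ≤ n1 - a1 - h3 := by linarith only [rh31]
  have B29 : 0 ≤ a2 + a3 - h3 - 1 := by linarith only [rh32]
  have C_Dh3 : 0 ≤ h3 - n1 + a1 ∨ 0 ≤ h3 - a2 - a3 + 1 := rh33.imp (fun hq => by linarith only [hq]) (fun hq => by linarith only [hq])
  clear rh31 rh32 rh33
  obtain ⟨k, rk1, rk2, rk3⟩ := min_facts (n1 - a1 + n2 - a2) (a3 - 1)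
  have B30 : 0 ≤ n1 - a1 + n2 - a2 - k := by linarith only [rk1]
  have B31 : 0 ≤ a3 - k - 1 := by linarith only [rk2]
  have C_Dk : 0 ≤ k - n1 + a1 - n2 + a2 ∨ 0 ≤ k - a3 + 1 := rk3.imp (fun hq => by linarith only [hq]) (fun hq => by linarith only [hq])
  clear rk1 rk2 rk3
  obtain ⟨g, rg1, rg2, rg3⟩ := min_facts (n2 - a2 - 1) (a3)
  have B32 : 0 ≤ n2 - a2 - g - 1 := by linarith only [rg1]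
  have B33 : 0 ≤ a3 - g := by linarith only [rg2]
  have C_Dg : 0 ≤ g - n2 + a2 + 1 ∨ 0 ≤ g - a3 := rg3.imp (fun hq => by linarith only [hq]) (fun hq => by linarith only [hq])
  clear rg1 rg2 rg3
  have l11 : 0 ≤ b1 - 1 → LosC n1 n2 n3 a1 a2 a3 b1 b2 b3 (d1 + 1) (-n2 + b2 + 1) (-n2 + b2 - n3 + b3) := fun hq => los11 B0 B1 B2 B3 B4 B5 B6 B7 B8 B9 B10 B11 B12 B13 B14 B15 B16 B17 B18 B19 B20 B21 B22 B23 B24 B25 hq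
  have l22 : LosC n1 n2 n3 a1 a2 a3 b1 b2 b3 (-h) (1) (-n3 + a3 + 1) := los22 B0 B1 B2 B3 B4 B5 B6 B7 B8 B9 B10 B11 B12 B13 B14 B15 B16 B17 B18 B19 B20 B21 B22 B23 B24 B25 B26 B27 C_Dh
  have l33 : LosC n1 n2 n3 a1 a2 a3 b1 b2 b3 (-h3) (-k) (1) := los33 B0 B1 B2 B3 B4 B5 B6 B7 B8 B9 B10 B11 B12 B13 B14 B15 B16 B17 B18 B19 B20 B21 B22 B23 B24 B25 B28 B29 B30 B31 C_Dh3 C_Dk
  have l13 : LosC n1 n2 n3 a1 a2 a3 b1 b2 b3 (1) (-g) (0) := los13 B0 B1 B2 B3 B4 B5 B6 B7 B8 B9 B10 B11 B12 B13 B14 B15 B16 B17 B18 B19 B20 B21 B22 B23 B24 B25 B32 B33 C_Dg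
  have hd := hd B0 B1 B2 B3 B4 B5 B6 B7 B8 B9 B10 B11 B12 B13 B14 B15 B16 B17 B18 B19 B20 B21 B22 B23 B24 B25 B26 B27 B28 B29 B30 B31 B32 B33 C_Dh C_Dh3 C_Dk C_Dg
  obtain ⟨p0, ep0⟩ : ∃ p, p = (d1) * (-n2 + b2 - n3 + b3) := ⟨_, rfl⟩
  have C_Dp0_a : (0 ≤ n2 - b2 + n3 - b3 - 2 ∧ 0 ≤ -2 * d1 - p0) ∨ (0 ≤ -n2 + b2 - n3 + b3 + 1 ∧ 0 ≤ p0 + d1) :=
    (prod_split' (-2) ep0 (by linarith only [B15, B16, B17, B18, B19, B20, B21, B22, B23, B24, B25])).imp (fun hq => ⟨by linarith only [hq.1], by linarith only [hq.2]⟩)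
      (fun hq => ⟨by linarith only [hq.1], by linarith only [hq.2]⟩)
  obtain ⟨p1, ep1⟩ : ∃ p, p = (d1) * (-n3 + a3 + 1) := ⟨_, rfl⟩
  have C_Dp1_a : (0 ≤ n3 - a3 - 3 ∧ 0 ≤ -2 * d1 - p1) ∨ (0 ≤ -n3 + a3 + 2 ∧ 0 ≤ p1 + d1) :=
    (prod_split' (-2) ep1 (by linarith only [B15, B16, B17, B18, B19, B20, B21, B22, B23, B24, B25])).imp (fun hq => ⟨by linarith only [hq.1], by linarith only [hq.2]⟩)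
      (fun hq => ⟨by linarith only [hq.1], by linarith only [hq.2]⟩)
  have C_Dp1_b : (0 ≤ n3 - a3 - 2 ∧ 0 ≤ -d1 - p1) ∨ (0 ≤ -n3 + a3 + 1 ∧ 0 ≤ p1) :=
    (prod_split' (-1) ep1 (by linarith only [B15, B16, B17, B18, B19, B20, B21, B22, B23, B24, B25])).imp (fun hq => ⟨by linarith only [hq.1], by linarith only [hq.2]⟩)
      (fun hq => ⟨by linarith only [hq.1], by linarith only [hq.2]⟩)
  obtain ⟨p2, ep2⟩ : ∃ p, p = (d1) * (-n2 + b2 - n3 + b3 + 1) := ⟨_, rfl⟩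
  have C_Dp2_b : (0 ≤ n2 - b2 + n3 - b3 - 2 ∧ 0 ≤ -d1 - p2) ∨ (0 ≤ -n2 + b2 - n3 + b3 + 1 ∧ 0 ≤ p2) :=
    (prod_split' (-1) ep2 (by linarith only [B15, B16, B17, B18, B19, B20, B21, B22, B23, B24, B25])).imp (fun hq => ⟨by linarith only [hq.1], by linarith only [hq.2]⟩)
      (fun hq => ⟨by linarith only [hq.1], by linarith only [hq.2]⟩)
  obtain ⟨p3, ep3⟩ : ∃ p, p = (d1) * (-n3 + a3 + 2) := ⟨_, rfl⟩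
  have C_Dp3_d : (0 ≤ n3 - a3 - 1 ∧ 0 ≤ d1 - p3) ∨ (0 ≤ -n3 + a3 ∧ 0 ≤ p3 - 2 * d1) :=
    (prod_split' (1) ep3 (by linarith only [B15, B16, B17, B18, B19, B20, B21, B22, B23, B24, B25])).imp (fun hq => ⟨by linarith only [hq.1], by linarith only [hq.2]⟩)
      (fun hq => ⟨by linarith only [hq.1], by linarith only [hq.2]⟩)
  have FA := FAt B15 B16 B17 B18 B19 B20 B21 B22 B23 B24 B25 ep0 ep1 w1 w2 w3 hno hd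
  have FB := FBt B15 B16 B17 B18 B19 B20 B21 B22 B23 B24 B25 ep0 ep1 w1 w2 w3 hno hd
  have G_e3_V2_V1 := Gt_e3_V2_V1 B15 B16 B17 B18 B19 B20 B21 B22 B23 B24 B25 ep0 ep1 w1 w2 w3 hno hd
  have G_V2_e3_V1 := Gt_V2_e3_V1 B15 B16 B17 B18 B19 B20 B21 B22 B23 B24 B25 ep0 ep1 w1 w2 w3 hno hd
  have t0_11_22 := T0_11_22 H w1 w2 w3 l11 l22
  have t2_11_33 := T2_11_33 H l11 l33
  have t0_11_13 := T0_11_13 H w1 w2 w3 l11 l13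
  have t2_22_33 := T2_22_33 H l22 l33
  have t1_22_13 := T1_22_13 H w1 w2 w3 l22 l13
  have t2_22_13 := T2_22_13 H l22 l13
  rcases FA with ⟨f0_0, f0_1, f0_2⟩ | ⟨f0_0, f0_1⟩ | ⟨f0_0, f0_1⟩
  · rcases FB with ⟨f1_0, f1_1, f1_2⟩ | ⟨f1_0, f1_1⟩ | ⟨f1_0, f1_1⟩
    · exact g0 B2 B16 B21 B25 f0_0 f0_1 f1_1 C_Dg C_Dp0_a t0_11_13
    · exact g1 B2 B11 B16 B21 B25 f0_0 f0_1 C_Dg C_Dp0_a f0_2 t0_11_13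
    · exact g2 B2 B11 B16 B21 B25 f0_0 f0_1 C_Dg C_Dp0_a f0_2 t0_11_13
  · rcases FB with ⟨f1_0, f1_1, f1_2⟩ | ⟨f1_0, f1_1⟩ | ⟨f1_0, f1_1⟩
    · exact g3 B10 B16 B21 B25 B31 f0_0 f1_0 f1_1 C_Dg C_Dp0_a t0_11_13
    · exact g4 B1 B6 B10 B11 B15 B16 B18 B19 B21 B25 B31 f0_0 f1_1 C_Dh C_Dg C_Dp1_a C_Dp1_b t1_22_13 t2_22_13
    · exact g5 B1 B10 B11 B15 B16 B18 B19 B21 B25 B28 B29 B31 f0_0 f1_0 C_c2 C_Dh C_Dk C_Dg C_Dp0_a C_Dp1_b C_Dp2_b C_Dp3_d t2_22_13 t2_22_33 t0_11_22 t2_11_33 G_e3_V2_V1 G_V2_e3_V1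
  · rcases FB with ⟨f1_0, f1_1, f1_2⟩ | ⟨f1_0, f1_1⟩ | ⟨f1_0, f1_1⟩
    · exact g6 B10 B25 f0_1 f1_0 f1_1 C_Dp0_a t0_11_13
    · exact g7 B1 B6 B11 B15 B18 B19 B25 f0_1 f1_1 C_Dh C_Dp1_b t1_22_13 t2_22_13
    · exact g8 B1 B10 B11 B15 B18 B19 B25 B28 B29 B32 f0_1 f1_0 C_c2 C_Dh C_Dk C_Dp0_a C_Dp1_b C_Dp3_d t2_22_13 t2_22_33 t0_11_22 t2_11_33 G_e3_V2_V1 G_V2_e3_V1

end WG3.IIIN
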