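import Pool.Agent.Work.MP_5465ec_co.Game

/-!
Dominance trades give exact trades; weighted games are trade robust; weights on types.
-/

open Finset

namespace WG3

variable {N : Type*} [Fintype N] [DecidableEq N]

/-- Multiplicity of the voter `v` in the sequence `S`, as an integer. -/
def mult {k : ℕ} (S : Fin k → Finset N) (v : N) : ℤ := ∑ i, if v ∈ S i then 1 else 0

theorem mult_eq_card {k : ℕ} (S : Fin k → Finset N) (v : N) :
    mult S v = ((univ.filter (fun i => v ∈ S i)).card : ℤ) := by
  unfold mult
  rw [card_eq_sum_ones, sum_filter]
  push_cast
  rfl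

theorem sum_mult {k : ℕ} (S : Fin k → Finset N) (τ : N → Fin 3) (h : Fin 3) :
    ∑ v ∈ univ.filter (fun v => τ v ≤ h), mult S v = ∑ i, (cnt τ (S i) h : ℤ) := by
  unfold mult cnt
  rw [sum_comm]
  refine sum_congr rfl ?_
  intro i _
  rw [card_eq_sum_ones, sum_filter, sum_filter]
  push_cast
  have : ∀ v : N, (if τ v ≤ h then (if v ∈ S i then (1:ℤ) else 0) else 0)
      = if v ∈ S i then (if τ v ≤ h then 1 else 0) else 0 := by
    intro v; split_ifs <;> rfl
  rw [sum_congr rfl (fun v _ => this v), sum_ite_mem, univ_inter]

/-- Replace `x` by `y` in the `i`-th member. -/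
def swapAt {k : ℕ} (S : Fin k → Finset N) (i : Fin k) (x y : N) : Fin k → Finset N :=
  Function.update S i (insert y ((S i).erase x))

theorem mult_swapAt {k : ℕ} (S : Fin k → Finset N) (i : Fin k) {x y : N} (hx : x ∈ S i)
    (hy : y ∉ S i) (v : N) :
    mult (swapAt S i x y) v = mult S v + (if v = y then 1 else 0) - (if v = x then 1 else 0) := by
  have hxy : x ≠ y := fun h => hy (h ▸ hx)
  have h1 : mult (swapAt S i x y) v - mult S v
      = (if v ∈ insert y ((S i).erase x) then 1 else 0) - (if v ∈ S i then 1 else 0) := by
    unfold mult
    rw [← sum_sub_distrib]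
    rw [sum_eq_single i]
    · unfold swapAt
      rw [Function.update_self]
    · intro j _ hj
      unfold swapAt
      rw [Function.update_of_ne hj]
      ring
    · intro h; exact absurd (mem_univ i) h
  have h2 : ((if v ∈ insert y ((S i).erase x) then 1 else 0) - (if v ∈ S i then 1 else 0) : ℤ)
      = (if v = y then 1 else 0) - (if v = x then 1 else 0) := by
    by_cases hvy : v = y
    · subst hvy
      simp [hy, hxy.symm]
    · by_cases hvx : v = x
      · subst hvx
        simp [hx, hxy]
      · simp [hvy, hvx]
  rw [h2] at h1
  linarith

/-- Remove `x` from the `i`-th member. -/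
def dropAt {k : ℕ} (S : Fin k → Finset N) (i : Fin k) (x : N) : Fin k → Finset N :=
  Function.update S i ((S i).erase x)

theorem mult_dropAt {k : ℕ} (S : Fin k → Finset N) (i : Fin k) {x : N} (hx : x ∈ S i) (v : N) :
    mult (dropAt S i x) v = mult S v - (if v = x then 1 else 0) := by
  have h1 : mult (dropAt S i x) v - mult S v
      = (if v ∈ (S i).erase x then 1 else 0) - (if v ∈ S i then 1 else 0) := by
    unfold mult
    rw [← sum_sub_distrib]
    rw [sum_eq_single i]
    · unfold dropAt
      rw [Function.update_self]
    · intro j _ hj
      unfold dropAt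
      rw [Function.update_of_ne hj]
      ring
    · intro h; exact absurd (mem_univ i) h
  have h2 : ((if v ∈ (S i).erase x then 1 else 0) - (if v ∈ S i then 1 else 0) : ℤ)
      = - (if v = x then 1 else 0) := by
    by_cases hvx : v = x
    · subst hvx
      simp [hx]
    · simp [hvx]
  rw [h2] at h1
  linarith

/-- The potential. -/
def pot {k : ℕ} (S T : Fin k → Finset N) : ℤ := ∑ v, |mult S v - mult T v|

theorem sum_two {α : Type*} [Fintype α] [DecidableEq α] (F F' : α → ℤ) (a b : α)
    (hab : a ≠ b) (ha : F' a ≤ F a - 1) (hb : F' b ≤ F b - 1) (h : ∀ v, v ≠ a → v ≠ b → F' v = F v) :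
    ∑ v, F' v ≤ ∑ v, F v - 2 := by
  have : ∑ v, (F v - F' v) ≥ ∑ v, ((if v = a then 1 else 0) + (if v = b then 1 else 0) : ℤ) := by
    refine sum_le_sum ?_
    intro v _
    by_cases hva : v = a
    · subst hva
      simp [hab]; linarith
    · by_cases hvb : v = b
      · subst hvb
        simp [hva]; linarith
      · simp [hva, hvb, h v hva hvb]
  rw [sum_sub_distrib, sum_add_distrib] at this
  simp at this
  linarith

theorem sum_one {α : Type*} [Fintype α] [DecidableEq α] (F F' : α → ℤ) (a : α)
    (ha : F' a ≤ F a - 1) (h : ∀ v, v ≠ a → F' v = F v) :
    ∑ v, F' v ≤ ∑ v, F v - 1 := by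
  have : ∑ v, (F v - F' v) ≥ ∑ v, ((if v = a then 1 else 0) : ℤ) := by
    refine sum_le_sum ?_
    intro v _
    by_cases hva : v = a
    · subst hva
      simp; linarith
    · simp [hva, h v hva]
  rw [sum_sub_distrib] at this
  simp at this
  linarith

namespace SimpleGame

variable {G : SimpleGame N} {τ : N → Fin 3}

/-- A dominance trade can be turned into an exact one. -/
theorem exact_of_dom (hτ : G.IsTyping τ) {k : ℕ} : ∀ (n : ℕ) (S T : Fin k → Finset N),
    pot S T ≤ n → (∀ i, G.W (S i)) → (∀ i, ¬ G.W (T i)) →
    (∀ h : Fin 3, ∑ v ∈ univ.filter (fun v => τ v ≤ h), mult S v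
      ≤ ∑ v ∈ univ.filter (fun v => τ v ≤ h), mult T v) →
    ∃ S' T' : Fin k → Finset N, (∀ v, mult S' v = mult T' v) ∧ (∀ i, G.W (S' i)) ∧
      ∀ i, ¬ G.W (T' i) := by
  intro n
  induction n with
  | zero =>
    intro S T hp hS hT _
    refine ⟨S, T, ?_, hS, hT⟩
    intro v
    have h1 : ∀ v ∈ (univ : Finset N), 0 ≤ |mult S v - mult T v| := fun v _ => abs_nonneg _
    have h2 : ∑ v, |mult S v - mult T v| = 0 :=
      le_antisymm (by simpa [pot] using hp) (sum_nonneg h1)
    have h3 := (sum_eq_zero_iff_of_nonneg h1).1 h2 v (mem_univ v)
    have := abs_eq_zero.1 h3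
    linarith
  | succ n ih =>
    intro S T hp hS hT hC
    by_cases hbig : ∃ v, mult T v < mult S v
    · obtain ⟨b, hb, hmin⟩ := exists_min_image (univ.filter (fun v => mult T v < mult S v)) τ
        (by obtain ⟨v, hv⟩ := hbig; exact ⟨v, by simp [hv]⟩)
      have hb' : mult T b < mult S b := (mem_filter.1 hb).2
      have hsmall : ∀ v, τ v < τ b → mult S v ≤ mult T v := by
        intro v hv
        by_contra hcon
        push Not at hcon
        exact absurd (hmin v (by simp [hcon])) (not_le.2 hv)
      obtain ⟨a, ha1, ha2⟩ : ∃ a, τ a ≤ τ b ∧ mult S a < mult T a := by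
        by_contra hcon
        push Not at hcon
        have : ∑ v ∈ univ.filter (fun v => τ v ≤ τ b), mult T v
            < ∑ v ∈ univ.filter (fun v => τ v ≤ τ b), mult S v := by
          refine sum_lt_sum (fun v hv => hcon v (mem_filter.1 hv).2) ⟨b, by simp, hb'⟩
        exact absurd (hC (τ b)) (not_le.2 this)
      have hab : a ≠ b := by
        intro h; rw [h] at ha2; exact absurd hb' (lt_asymm ha2)
      -- the counting condition leaves room
      have hroom : ∀ h : Fin 3, τ a ≤ h → ¬ τ b ≤ h →
          ∑ v ∈ univ.filter (fun v => τ v ≤ h), mult S v + 1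
            ≤ ∑ v ∈ univ.filter (fun v => τ v ≤ h), mult T v := by
        intro h h1 h2
        have : ∑ v ∈ univ.filter (fun v => τ v ≤ h), mult S v
            < ∑ v ∈ univ.filter (fun v => τ v ≤ h), mult T v := by
          refine sum_lt_sum (fun v hv => hsmall v ?_) ⟨a, by simp [h1], ha2⟩
          exact lt_of_le_of_lt (mem_filter.1 hv).2 (not_le.1 h2)
        omega
      by_cases hex : ∃ i, b ∈ S i ∧ a ∉ S i
      · obtain ⟨i, hi1, hi2⟩ := hex
        have hm := mult_swapAt S i hi1 hi2
        refine ih (swapAt S i b a) T ?_ ?_ hT ?_
        · unfold pot at hp ⊢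
          have := sum_two (fun v => |mult S v - mult T v|)
            (fun v => |mult (swapAt S i b a) v - mult T v|) a b hab ?_ ?_ ?_
          · push_cast at hp; linarith
          · show |mult (swapAt S i b a) a - mult T a| ≤ |mult S a - mult T a| - 1
            rw [hm a]
            simp only [if_true, if_neg hab]
            rw [abs_of_nonpos (by linarith), abs_of_nonpos (by linarith)]
            linarith
          · show |mult (swapAt S i b a) b - mult T b| ≤ |mult S b - mult T b| - 1
            rw [hm b]
            simp only [if_true, if_neg hab.symm]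
            rw [abs_of_nonneg (by linarith), abs_of_nonneg (by linarith)]
            linarith
          · intro v h1 h2
            show |mult (swapAt S i b a) v - mult T v| = |mult S v - mult T v|
            rw [hm v, if_neg h1, if_neg h2]
            simp
        · intro j
          unfold swapAt
          by_cases hj : j = i
          · subst hj
            rw [Function.update_self]
            refine (hτ.2 a b).2 ha1 _ ?_ (notMem_erase b _) ?_
            · intro h; exact hi2 (mem_of_mem_erase h)
            · rw [insert_erase hi1]; exact hS j
          · rw [Function.update_of_ne hj]; exact hS j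
        · intro h
          have e1 : ∑ v ∈ univ.filter (fun v => τ v ≤ h), mult (swapAt S i b a) v
              = ∑ v ∈ univ.filter (fun v => τ v ≤ h), mult S v
                + (if τ a ≤ h then 1 else 0) - (if τ b ≤ h then 1 else 0) := by
            rw [sum_congr rfl (fun v _ => hm v), sum_sub_distrib, sum_add_distrib]
            congr 1
            · congr 1
              rw [sum_ite_eq']; simp
            · rw [sum_ite_eq']; simp
          rw [e1]
          by_cases h1 : τ b ≤ h
          · have h2 : τ a ≤ h := le_trans ha1 h1
            rw [if_pos h1, if_pos h2]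
            have := hC h
            linarith
          · rw [if_neg h1]
            by_cases h2 : τ a ≤ h
            · rw [if_pos h2]
              have := hroom h h2 h1
              linarith
            · rw [if_neg h2]
              have := hC h
              linarith
      · have hex2 : ∃ i, a ∈ T i ∧ b ∉ T i := by
          by_contra hcon
          push Not at hex hcon
          have h1 : mult S b ≤ mult S a := by
            unfold mult
            refine sum_le_sum ?_
            intro i _
            by_cases h : b ∈ S i
            · rw [if_pos h, if_pos (hex i h)]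
            · rw [if_neg h]; split_ifs <;> norm_num
          have h2 : mult T a ≤ mult T b := by
            unfold mult
            refine sum_le_sum ?_
            intro i _
            by_cases h : a ∈ T i
            · rw [if_pos h, if_pos (hcon i h)]
            · rw [if_neg h]; split_ifs <;> norm_num
          linarith
        obtain ⟨i, hi1, hi2⟩ := hex2
        have hm := mult_swapAt T i hi1 hi2
        refine ih S (swapAt T i a b) ?_ hS ?_ ?_
        · unfold pot at hp ⊢
          have := sum_two (fun v => |mult S v - mult T v|)
            (fun v => |mult S v - mult (swapAt T i a b) v|) a b hab ?_ ?_ ?_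
          · push_cast at hp; linarith
          · show |mult S a - mult (swapAt T i a b) a| ≤ |mult S a - mult T a| - 1
            rw [hm a]
            simp only [if_true, if_neg hab]
            rw [abs_of_nonpos (by linarith), abs_of_nonpos (by linarith)]
            linarith
          · show |mult S b - mult (swapAt T i a b) b| ≤ |mult S b - mult T b| - 1
            rw [hm b]
            simp only [if_true, if_neg hab.symm]
            rw [abs_of_nonneg (by linarith), abs_of_nonneg (by linarith)]
            linarith
          · intro v h1 h2
            show |mult S v - mult (swapAt T i a b) v| = |mult S v - mult T v|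
            rw [hm v, if_neg h1, if_neg h2]
            simp
        · intro j
          unfold swapAt
          by_cases hj : j = i
          · subst hj
            rw [Function.update_self]
            intro hw
            apply hT j
            have := (hτ.2 a b).2 ha1 ((T j).erase a) (notMem_erase a _)
              (fun h => hi2 (mem_of_mem_erase h)) hw
            rw [insert_erase hi1] at this
            exact this
          · rw [Function.update_of_ne hj]; exact hT j
        · intro h
          have e1 : ∑ v ∈ univ.filter (fun v => τ v ≤ h), mult (swapAt T i a b) v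
              = ∑ v ∈ univ.filter (fun v => τ v ≤ h), mult T v
                + (if τ b ≤ h then 1 else 0) - (if τ a ≤ h then 1 else 0) := by
            rw [sum_congr rfl (fun v _ => hm v), sum_sub_distrib, sum_add_distrib]
            congr 1
            · congr 1
              rw [sum_ite_eq']; simp
            · rw [sum_ite_eq']; simp
          rw [e1]
          by_cases h1 : τ b ≤ h
          · have h2 : τ a ≤ h := le_trans ha1 h1
            rw [if_pos h1, if_pos h2]
            have := hC h
            linarith
          · rw [if_neg h1]
            by_cases h2 : τ a ≤ h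
            · rw [if_pos h2]
              have := hroom h h2 h1
              linarith
            · rw [if_neg h2]
              have := hC h
              linarith
    · push Not at hbig
      by_cases hall : ∀ v, mult S v = mult T v
      · exact ⟨S, T, hall, hS, hT⟩
      · push Not at hall
        obtain ⟨a, ha⟩ := hall
        have ha' : mult S a < mult T a := lt_of_le_of_ne (hbig a) ha
        obtain ⟨i, hi⟩ : ∃ i, a ∈ T i := by
          by_contra hcon
          push Not at hcon
          have h1 : mult T a = 0 := by
            unfold mult
            refine sum_eq_zero ?_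
            intro i _
            rw [if_neg (hcon i)]
          have h2 : 0 ≤ mult S a := by
            unfold mult
            refine sum_nonneg ?_
            intro i _
            split_ifs <;> norm_num
          linarith
        have hm := mult_dropAt T i hi
        refine ih S (dropAt T i a) ?_ hS ?_ ?_
        · unfold pot at hp ⊢
          have := sum_one (fun v => |mult S v - mult T v|)
            (fun v => |mult S v - mult (dropAt T i a) v|) a ?_ ?_
          · push_cast at hp; linarith
          · show |mult S a - mult (dropAt T i a) a| ≤ |mult S a - mult T a| - 1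
            rw [hm a]
            simp only [if_true]
            rw [abs_of_nonpos (by linarith), abs_of_nonpos (by linarith)]
            linarith
          · intro v h1
            show |mult S v - mult (dropAt T i a) v| = |mult S v - mult T v|
            rw [hm v, if_neg h1]
            simp
        · intro j
          unfold dropAt
          by_cases hj : j = i
          · subst hj
            rw [Function.update_self]
            intro hw
            exact hT j (G.mono hw (erase_subset _ _))
          · rw [Function.update_of_ne hj]; exact hT j
        · intro h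
          refine sum_le_sum ?_
          intro v _
          rw [hm v]
          by_cases hva : v = a
          · subst hva; rw [if_pos rfl]; linarith
          · rw [if_neg hva]; have := hbig v; linarith

/-- A dominance trade of length `k` refutes `k`-trade robustness. -/
theorem not_robust_of_dom (hτ : G.IsTyping τ) {k m : ℕ} (hk : 1 ≤ k) (hkm : k ≤ m)
    (S T : Fin k → Finset N) (hS : ∀ i, G.W (S i)) (hT : ∀ i, ¬ G.W (T i))
    (hC : ∀ h : Fin 3, ∑ i, cnt τ (S i) h ≤ ∑ i, cnt τ (T i) h) : ¬ G.TradeRobust m := by
  intro hR
  obtain ⟨S', T', h1, h2, h3⟩ := exact_of_dom hτ (pot S T).toNat S T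
    (Int.self_le_toNat _) hS hT (by
      intro h
      rw [sum_mult, sum_mult]
      exact_mod_cast hC h)
  refine hR k hk hkm ⟨S', T', ?_, h2, h3⟩
  intro a
  have := h1 a
  rw [mult_eq_card, mult_eq_card] at this
  exact_mod_cast this

theorem robust_mono {k m : ℕ} (h : k ≤ m) (hR : G.TradeRobust m) : G.TradeRobust k :=
  fun j h1 h2 => hR j h1 (le_trans h2 h)

/-- Weighted games are trade robust. -/
theorem robust_of_weighted (hw : G.Weighted) (k : ℕ) : G.TradeRobust k := by
  obtain ⟨w, q, _, hq⟩ := hw
  intro j hj _
  rintro ⟨X, Y, hXY, hX, hY⟩
  have e : ∀ Z : Fin j → Finset N, ∑ i, ∑ a ∈ Z i, w a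
      = ∑ a, ((univ.filter (fun i => a ∈ Z i)).card : ℝ) * w a := by
    intro Z
    have h1 : ∀ i, ∑ a ∈ Z i, w a = ∑ a, if a ∈ Z i then w a else 0 := by
      intro i
      rw [sum_ite_mem, univ_inter]
    rw [sum_congr rfl (fun i _ => h1 i), sum_comm]
    refine sum_congr rfl ?_
    intro a _
    rw [← sum_filter, sum_const, nsmul_eq_mul]
  have h1 : ∑ i, ∑ a ∈ X i, w a = ∑ i, ∑ a ∈ Y i, w a := by
    rw [e X, e Y]
    refine sum_congr rfl ?_
    intro a _
    rw [hXY a]
  have h2 : ∑ i : Fin j, ∑ a ∈ Y i, w a < ∑ i : Fin j, ∑ a ∈ X i, w a := by
    refine sum_lt_sum_of_nonempty ⟨⟨0, by omega⟩, mem_univ _⟩ ?_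
    intro i _
    have ha := (hq (X i)).1 (hX i)
    have hb : ¬ q ≤ ∑ a ∈ Y i, w a := fun h => hY i ((hq (Y i)).2 h)
    linarith [not_le.1 hb]
  linarith

end SimpleGame

end WG3
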